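import Pool.Agent.H22.KuhnGraph

set_option autoImplicit false
set_option maxRecDepth 100000

namespace Pool.Agent.H22.A15

open Pool.Agent.H22.Kuhn

abbrev W := ℕ × ℤ × ℤ × ℤ

def outL : List (List W) := [[(0,0,0,0),(4,0,0,0),(6,0,0,0),(7,0,1,-1)],[(1,0,0,0),(2,0,1,0),(3,0,1,0),(5,0,-1,1)],[(2,0,0,0),(0,0,0,0),(0,0,-1,1),(1,0,0,0),(3,0,0,0),(4,0,0,0),(4,0,-1,1),(6,0,0,0),(7,0,0,0)],[(3,0,0,0),(0,1,-1,0),(0,1,-2,1),(1,0,0,0),(2,1,-1,0),(4,0,0,0),(4,0,-1,1),(6,1,-1,0),(7,1,-1,0)],[(4,0,0,0),(0,1,-1,0),(1,0,1,-1),(1,0,0,0),(5,0,0,0),(6,0,0,0),(6,1,-1,0),(7,0,1,-1),(7,1,0,-1)],[(5,0,0,0),(0,0,1,0),(0,1,0,0),(1,0,0,0),(2,0,2,-1),(2,0,1,0),(3,0,2,-1),(3,0,1,0),(4,0,1,0)],[(6,0,0,0),(0,0,1,0),(1,-1,1,0),(1,0,0,0),(2,0,1,0),(3,-1,2,0),(5,-1,1,0),(5,0,0,0),(7,0,0,0)],[(7,0,0,0),(0,0,0,1),(1,-1,1,0),(1,0,0,0),(2,0,1,0),(3,-1,2,0),(5,-1,0,1),(5,0,-1,1),(6,0,-1,1)]]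

def innL : List (List W) := [[(0,0,0,0),(2,0,0,0),(2,0,1,-1),(3,-1,1,0),(3,-1,2,-1),(4,-1,1,0),(5,0,-1,0),(5,-1,0,0),(6,0,-1,0),(7,0,0,-1)],[(1,0,0,0),(2,0,0,0),(3,0,0,0),(4,0,-1,1),(4,0,0,0),(5,0,0,0),(6,1,-1,0),(6,0,0,0),(7,1,-1,0),(7,0,0,0)],[(2,0,0,0),(1,0,-1,0),(3,-1,1,0),(5,0,-2,1),(5,0,-1,0),(6,0,-1,0),(7,0,-1,0)],[(3,0,0,0),(1,0,-1,0),(2,0,0,0),(5,0,-2,1),(5,0,-1,0),(6,1,-2,0),(7,1,-2,0)],[(4,0,0,0),(0,0,0,0),(2,0,0,0),(2,0,1,-1),(3,0,0,0),(3,0,1,-1),(5,0,-1,0)],[(5,0,0,0),(1,0,1,-1),(4,0,0,0),(6,1,-1,0),(6,0,0,0),(7,1,0,-1),(7,0,1,-1)],[(6,0,0,0),(0,0,0,0),(2,0,0,0),(3,-1,1,0),(4,0,0,0),(4,-1,1,0),(7,0,1,-1)],[(7,0,0,0),(0,0,-1,1),(2,0,0,0),(3,-1,1,0),(4,0,-1,1),(4,-1,0,1),(6,0,0,0)]]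

def tab : List (List (List W)) :=
  [[[(0,0,0,0),(0,0,0,0),(0,0,0,0),(0,0,0,0),(0,0,0,0),(6,0,0,0),(7,0,0,0),(0,0,0,1)],[(0,0,0,0),(0,0,0,0),(0,0,0,0),(0,0,0,0),(0,0,0,0),(6,0,0,0),(7,0,0,0),(0,0,0,1)],[(0,0,0,0),(0,0,0,0),(0,0,0,0),(0,0,0,0),(6,0,0,0),(6,0,0,0),(3,-1,2,0),(0,0,0,1)],[(7,0,1,-1),(7,0,1,-1),(6,0,0,0),(6,0,0,0),(6,0,0,0),(3,-1,2,0),(3,-1,2,0),(0,0,0,1)],[(7,0,1,-1),(7,0,1,-1),(6,0,0,0),(6,0,0,0),(3,-1,2,0),(3,-1,2,0),(3,-1,2,0),(7,0,1,0)],[(7,0,1,-1),(6,0,0,0),(6,0,0,0),(7,0,0,0),(3,-1,2,0),(3,-1,2,0),(7,0,1,0),(7,0,1,0)],[(5,0,0,0),(5,0,0,0),(5,0,0,0),(2,0,1,0),(2,0,1,0),(6,0,1,0),(7,0,1,0),(7,0,1,0)]],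
  [[(0,0,0,0),(4,0,0,0),(4,0,0,0),(4,0,0,0),(6,0,0,0),(6,0,0,0),(2,0,1,0),(0,0,0,1)],[(4,0,0,0),(4,0,0,0),(6,0,0,0),(6,0,0,0),(6,0,0,0),(6,0,0,0),(2,0,1,0),(0,0,0,1)],[(4,0,0,0),(4,0,0,0),(6,0,0,0),(6,0,0,0),(6,0,0,0),(6,0,0,0),(2,0,1,0),(0,0,0,1)],[(7,0,1,-1),(6,0,0,0),(6,0,0,0),(6,0,0,0),(6,0,0,0),(3,-1,2,0),(2,0,1,0),(7,0,1,0)],[(7,0,1,-1),(5,0,0,0),(5,0,0,0),(5,0,0,0),(2,0,1,0),(2,0,1,0),(2,0,1,0),(7,0,1,0)],[(5,0,0,0),(5,0,0,0),(5,0,0,0),(2,0,1,0),(2,0,1,0),(6,0,1,0),(7,0,1,0),(7,0,1,0)],[(5,0,0,0),(5,0,0,0),(2,0,1,0),(2,0,1,0),(2,0,1,0),(6,0,1,0),(7,0,1,0),(5,0,0,1)]],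
  [[(4,0,0,0),(4,0,0,0),(4,0,0,0),(1,0,0,0),(1,0,0,0),(1,0,0,0),(2,0,1,0),(0,0,0,1)],[(4,0,0,0),(4,0,0,0),(5,0,0,0),(1,0,0,0),(1,0,0,0),(2,0,1,0),(2,0,1,0),(4,0,0,1)],[(4,0,0,0),(6,1,-1,0),(5,0,0,0),(2,0,1,0),(2,0,1,0),(2,0,1,0),(2,0,1,0),(4,0,0,1)],[(6,0,0,0),(5,0,0,0),(5,0,0,0),(2,0,1,0),(2,0,1,0),(2,0,1,0),(2,0,1,0),(7,0,1,0)],[(5,0,0,0),(5,0,0,0),(2,0,1,0),(2,0,1,0),(2,0,1,0),(2,0,1,0),(2,0,1,0),(1,0,1,0)],[(5,0,0,0),(5,0,0,0),(4,0,1,0),(4,0,1,0),(4,0,1,0),(1,0,1,0),(1,0,1,0),(1,0,1,0)],[(2,0,2,-1),(4,0,1,0),(4,0,1,0),(4,0,1,0),(1,0,1,0),(1,0,1,0),(2,0,2,0),(2,0,2,0)]],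
  [[(4,0,0,0),(4,0,0,0),(6,1,-1,0),(1,0,0,0),(1,0,0,0),(3,0,1,0),(3,0,1,0),(4,0,0,1)],[(6,0,0,0),(5,0,0,0),(5,0,0,0),(1,0,0,0),(3,0,1,0),(3,0,1,0),(3,0,1,0),(4,0,0,1)],[(5,0,0,0),(5,0,0,0),(5,0,0,0),(3,0,1,0),(3,0,1,0),(3,0,1,0),(4,0,0,1),(4,0,0,1)],[(5,0,0,0),(5,0,0,0),(3,0,1,0),(3,0,1,0),(4,0,1,0),(1,0,1,0),(1,0,1,0),(1,0,1,0)],[(5,0,0,0),(0,0,1,0),(4,0,1,0),(4,0,1,0),(1,0,1,0),(1,0,1,0),(1,0,1,0),(1,0,1,0)],[(5,0,0,0),(4,0,1,0),(4,0,1,0),(4,0,1,0),(1,0,1,0),(1,0,1,0),(1,0,1,0),(1,0,1,0)],[(2,0,2,-1),(4,0,1,0),(4,0,1,0),(6,1,0,0),(1,0,1,0),(1,0,1,0),(2,0,2,0),(2,0,2,0)]],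
  [[(4,0,0,0),(4,0,0,0),(5,0,0,0),(1,0,0,0),(3,0,1,0),(3,0,1,0),(3,0,1,0),(4,0,0,1)],[(5,0,0,0),(5,0,0,0),(5,0,0,0),(3,0,1,0),(3,0,1,0),(3,0,1,0),(6,1,0,0),(7,1,0,0)],[(5,0,0,0),(2,0,1,0),(3,0,1,0),(3,0,1,0),(3,0,1,0),(6,1,0,0),(7,1,0,0),(7,1,0,0)],[(5,0,0,0),(3,0,1,0),(3,0,1,0),(3,0,1,0),(6,1,0,0),(1,0,1,0),(1,0,1,0),(5,0,0,1)],[(3,0,2,-1),(4,0,1,0),(4,0,1,0),(6,1,0,0),(1,0,1,0),(1,0,1,0),(3,0,2,0),(3,0,2,0)],[(3,0,2,-1),(4,0,1,0),(4,0,1,0),(6,1,0,0),(1,0,1,0),(3,0,2,0),(3,0,2,0),(3,0,2,0)],[(3,0,2,-1),(4,0,1,0),(6,1,0,0),(6,1,0,0),(1,0,1,0),(3,0,2,0),(3,0,2,0),(3,0,2,0)]],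
  [[(7,1,0,-1),(7,1,0,-1),(5,0,0,0),(3,0,1,0),(3,0,1,0),(3,0,1,0),(7,1,0,0),(7,1,0,0)],[(5,0,0,0),(5,0,0,0),(5,0,0,0),(3,0,1,0),(3,0,1,0),(6,1,0,0),(7,1,0,0),(7,1,0,0)],[(3,0,2,-1),(4,0,1,0),(4,0,1,0),(0,1,0,0),(6,1,0,0),(6,1,0,0),(7,1,0,0),(3,0,2,0)],[(3,0,2,-1),(4,0,1,0),(4,0,1,0),(6,1,0,0),(6,1,0,0),(1,0,1,0),(3,0,2,0),(3,0,2,0)],[(4,0,1,0),(4,0,1,0),(6,1,0,0),(6,1,0,0),(1,0,1,0),(3,0,2,0),(3,0,2,0),(3,0,2,0)],[(7,1,1,-1),(7,1,1,-1),(6,1,0,0),(6,1,0,0),(3,0,2,0),(3,0,2,0),(3,0,2,0),(7,1,1,0)],[(7,1,1,-1),(7,1,1,-1),(6,1,0,0),(6,1,0,0),(3,0,2,0),(3,0,2,0),(7,1,1,0),(7,1,1,0)]]]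

def out (t : ℕ) : List W := outL.getD t []
def inn (t : ℕ) : List W := innL.getD t []

def sh (u p : W) : W := (p.1, u.2.1 + p.2.1, u.2.2.1 + p.2.2.1, u.2.2.2 + p.2.2.2)

/-- `v` is `u` or an out-neighbour of `u` -/
def R (u v : W) : Prop := (v.1, v.2.1 - u.2.1, v.2.2.1 - u.2.2.1, v.2.2.2 - u.2.2.2) ∈ out u.1

instance (u v : W) : Decidable (R u v) := by unfold R; infer_instance

def tb (a b c : ℤ) : W := ((tab.getD a.toNat []).getD b.toNat []).getD c.toNat (0, 0, 0, 0)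

def phi (x y z : ℤ) : W := sh (0, x / 6, y / 7, z / 8) (tb (x % 6) (y % 7) (z % 8))

lemma chk : ∀ a : Fin 6, ∀ b : Fin 7, ∀ c : Fin 8, ∀ d : Fin 2, ∀ e : Fin 2, ∀ f : Fin 2,
    R (phi (a.1 : ℤ) (b.1 : ℤ) (c.1 : ℤ))
      (phi ((a.1 : ℤ) + (d.1 : ℤ)) ((b.1 : ℤ) + (e.1 : ℤ)) ((c.1 : ℤ) + (f.1 : ℤ))) := by
  decide +kernel

lemma chk2 : ∀ a : Fin 6, ∀ b : Fin 7, ∀ c : Fin 8,
    |(tb (a.1 : ℤ) (b.1 : ℤ) (c.1 : ℤ)).2.1| ≤ 2 ∧ |(tb (a.1 : ℤ) (b.1 : ℤ) (c.1 : ℤ)).2.2.1| ≤ 2 ∧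
      |(tb (a.1 : ℤ) (b.1 : ℤ) (c.1 : ℤ)).2.2.2| ≤ 2 := by
  decide +kernel

lemma chk3 : ∀ t : Fin 8, ∀ p ∈ out t.1, p.1 < 8 ∧ (t.1, -p.2.1, -p.2.2.1, -p.2.2.2) ∈ inn p.1 ∧
    |p.2.1| ≤ 2 ∧ |p.2.2.1| ≤ 2 ∧ |p.2.2.2| ≤ 2 := by
  decide +kernel

lemma chk4 : ∀ s : Fin 8, ∀ t : Fin 8,
    (out s.1).length * (inn t.1).length + (inn s.1).length * (out t.1).length ≤ 126 := by
  decide +kernel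

lemma chk5 : ∀ t : Fin 8, (t.1, (0 : ℤ), (0 : ℤ), (0 : ℤ)) ∈ out t.1 ∧
    (t.1, (0 : ℤ), (0 : ℤ), (0 : ℤ)) ∈ inn t.1 := by
  decide +kernel

lemma R_lt {u v : W} (h : R u v) : u.1 < 8 := by
  by_contra hc
  have : out u.1 = [] := by
    unfold out
    apply List.getD_eq_default
    have : outL.length = 8 := rfl
    omega
  simp [R, this] at h

lemma R_facts {u v : W} (h : R u v) : u.1 < 8 ∧ v.1 < 8 ∧ (∃ p ∈ out u.1, v = sh u p) ∧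
    (∃ q ∈ inn v.1, u = sh v q) ∧ |v.2.1 - u.2.1| ≤ 2 ∧ |v.2.2.1 - u.2.2.1| ≤ 2 ∧
    |v.2.2.2 - u.2.2.2| ≤ 2 := by
  have h1 := R_lt h
  obtain ⟨a, b, c, d, e⟩ := chk3 ⟨u.1, h1⟩ _ h
  refine ⟨h1, a, ⟨_, h, ?_⟩, ⟨_, b, ?_⟩, c, d, e⟩
  · simp [sh]
  · simp [sh]

lemma phi_add (a b c p q r : ℤ) :
    phi (a + 6 * p) (b + 7 * q) (c + 8 * r) = sh (0, p, q, r) (phi a b c) := by
  have e1 : (a + 6 * p) % 6 = a % 6 := by omega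
  have e2 : (b + 7 * q) % 7 = b % 7 := by omega
  have e3 : (c + 8 * r) % 8 = c % 8 := by omega
  have f1 : (a + 6 * p) / 6 = p + a / 6 := by omega
  have f2 : (b + 7 * q) / 7 = q + b / 7 := by omega
  have f3 : (c + 8 * r) / 8 = r + c / 8 := by omega
  simp only [phi, sh, e1, e2, e3, f1, f2, f3, add_assoc]

lemma R_sh (o u v : W) (h : R u v) : R (sh o u) (sh o v) := by
  unfold R at h ⊢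
  simpa [sh] using h

lemma phi_step (x y z x' y' z' : ℤ) (h1 : x ≤ x' ∧ x' ≤ x + 1) (h2 : y ≤ y' ∧ y' ≤ y + 1)
    (h3 : z ≤ z' ∧ z' ≤ z + 1) : R (phi x y z) (phi x' y' z') := by
  have := chk ⟨(x % 6).toNat, by omega⟩ ⟨(y % 7).toNat, by omega⟩ ⟨(z % 8).toNat, by omega⟩
    ⟨(x' - x).toNat, by omega⟩ ⟨(y' - y).toNat, by omega⟩ ⟨(z' - z).toNat, by omega⟩
  have := R_sh (0, x / 6, y / 7, z / 8) _ _ this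
  rw [← phi_add, ← phi_add] at this
  dsimp only at this
  have e1 : ((x % 6).toNat : ℤ) + 6 * (x / 6) = x := by omega
  have e2 : ((y % 7).toNat : ℤ) + 7 * (y / 7) = y := by omega
  have e3 : ((z % 8).toNat : ℤ) + 8 * (z / 8) = z := by omega
  have f1 : ((x % 6).toNat : ℤ) + ((x' - x).toNat : ℤ) + 6 * (x / 6) = x' := by omega
  have f2 : ((y % 7).toNat : ℤ) + ((y' - y).toNat : ℤ) + 7 * (y / 7) = y' := by omega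
  have f3 : ((z % 8).toNat : ℤ) + ((z' - z).toNat : ℤ) + 8 * (z / 8) = z' := by omega
  rwa [e1, e2, e3, f1, f2, f3] at this

lemma phi_bd (x y z : ℤ) : |6 * (phi x y z).2.1 - x| ≤ 30 ∧ |7 * (phi x y z).2.2.1 - y| ≤ 30 ∧
    |8 * (phi x y z).2.2.2 - z| ≤ 30 := by
  have := chk2 ⟨(x % 6).toNat, by omega⟩ ⟨(y % 7).toNat, by omega⟩ ⟨(z % 8).toNat, by omega⟩
  dsimp only at this
  have e1 : ((x % 6).toNat : ℤ) = x % 6 := by omega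
  have e2 : ((y % 7).toNat : ℤ) = y % 7 := by omega
  have e3 : ((z % 8).toNat : ℤ) = z % 8 := by omega
  rw [e1, e2, e3] at this
  simp only [phi, sh, abs_le] at this ⊢
  omega

def H : SimpleGraph (W × W) where
  Adj a b := a ≠ b ∧ ((R a.1 b.1 ∧ R b.2 a.2) ∨ (R b.1 a.1 ∧ R a.2 b.2))
  symm := ⟨fun _ _ h => ⟨h.1.symm, h.2.symm⟩⟩
  loopless := ⟨fun _ h => h.1 rfl⟩

def pr (a : W × W) (l1 l2 : List W) : Finset (W × W) :=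
  (l1.toFinset ×ˢ l2.toFinset).image fun p => (sh a.1 p.1, sh a.2 p.2)

lemma pr_card (a : W × W) (l1 l2 : List W) : (pr a l1 l2).card ≤ l1.length * l2.length := by
  refine Finset.card_image_le.trans ?_
  rw [Finset.card_product]
  exact Nat.mul_le_mul (List.toFinset_card_le _) (List.toFinset_card_le _)

lemma deg (a : W × W) : (H.neighborSet a).Finite ∧ (H.neighborSet a).ncard ≤ 124 := by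
  rcases (H.neighborSet a).eq_empty_or_nonempty with h | ⟨b, hb⟩
  · simp [h]
  have ht : a.1.1 < 8 ∧ a.2.1 < 8 := by
    rcases hb.2 with ⟨h1, h2⟩ | ⟨h1, h2⟩
    · exact ⟨(R_facts h1).1, (R_facts h2).2.1⟩
    · exact ⟨(R_facts h1).2.1, (R_facts h2).1⟩
  have hsub : H.neighborSet a ⊆ (((pr a (out a.1.1) (inn a.2.1)).erase a ∪
      (pr a (inn a.1.1) (out a.2.1)).erase a : Finset (W × W)) : Set (W × W)) := by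
    intro b hb
    simp only [Finset.coe_union, Set.mem_union, Finset.mem_coe, Finset.mem_erase, pr,
      Finset.mem_image, Finset.mem_product, List.mem_toFinset]
    rcases hb.2 with ⟨h1, h2⟩ | ⟨h1, h2⟩
    · obtain ⟨p, hp, e1⟩ := (R_facts h1).2.2.1
      obtain ⟨q, hq, e2⟩ := (R_facts h2).2.2.2.1
      exact Or.inl ⟨hb.1.symm, (p, q), ⟨hp, hq⟩, Prod.ext e1.symm e2.symm⟩
    · obtain ⟨p, hp, e1⟩ := (R_facts h1).2.2.2.1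
      obtain ⟨q, hq, e2⟩ := (R_facts h2).2.2.1
      exact Or.inr ⟨hb.1.symm, (p, q), ⟨hp, hq⟩, Prod.ext e1.symm e2.symm⟩
  refine ⟨(Finset.finite_toSet _).subset hsub, ?_⟩
  refine (Set.ncard_le_ncard hsub (Finset.finite_toSet _)).trans ?_
  rw [Set.ncard_coe_finset]
  refine (Finset.card_union_le _ _).trans ?_
  have c5 := chk5 ⟨a.1.1, ht.1⟩
  have c6 := chk5 ⟨a.2.1, ht.2⟩
  dsimp only at c5 c6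
  have m : ∀ l1 l2 : List W, (a.1.1, (0 : ℤ), (0 : ℤ), (0 : ℤ)) ∈ l1 →
      (a.2.1, (0 : ℤ), (0 : ℤ), (0 : ℤ)) ∈ l2 → a ∈ pr a l1 l2 := by
    intro l1 l2 h1 h2
    simp only [pr, Finset.mem_image, Finset.mem_product, List.mem_toFinset]
    exact ⟨(_, _), ⟨h1, h2⟩, by simp [sh]⟩
  rw [Finset.card_erase_of_mem (m _ _ c5.1 c6.2), Finset.card_erase_of_mem (m _ _ c5.2 c6.1)]
  have p1 := pr_card a (out a.1.1) (inn a.2.1)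
  have p2 := pr_card a (inn a.1.1) (out a.2.1)
  have p3 := chk4 ⟨a.1.1, ht.1⟩ ⟨a.2.1, ht.2⟩
  have p4 := Finset.card_pos.2 ⟨_, m _ _ c5.1 c6.2⟩
  have p5 := Finset.card_pos.2 ⟨_, m _ _ c5.2 c6.1⟩
  dsimp only at p3
  omega

def Phi (v : Fin 6 → ℕ) : W × W :=
  (phi (v 0) (v 1) (v 2), phi (-(v 3 : ℤ)) (-(v 4 : ℤ)) (-(v 5 : ℤ)))

def hh (a : W × W) : Fin 6 → ℤ :=
  ![6 * a.1.2.1, 7 * a.1.2.2.1, 8 * a.1.2.2.2, -(6 * a.2.2.1), -(7 * a.2.2.2.1), -(8 * a.2.2.2.2)]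

theorem main (k : ℕ) : ∃ B : Finset (W × W), ¬ ∃ c : ↥(B : Set (W × W)) → ℕ,
      (∀ s : Finset ↥(B : Set (W × W)), (H.induce (B : Set (W × W))).IsNClique (6 + 1) s →
        ∃ x ∈ s, ∃ y ∈ s, x ≠ y ∧ c x = c y) ∧ ∀ i : ℕ, {v | c v = i}.ncard ≤ k := by
  apply no_good 6 H Phi _ hh 16 30
  · intro a b hab i
    rcases hab.2 with ⟨h1, h2⟩ | ⟨h1, h2⟩ <;>
    · obtain ⟨-, -, -, -, a1, a2, a3⟩ := R_facts h1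
      obtain ⟨-, -, -, -, b1, b2, b3⟩ := R_facts h2
      rw [abs_le] at a1 a2 a3 b1 b2 b3 ⊢
      fin_cases i <;> simp [hh] <;> omega
  · intro v i
    obtain ⟨a1, a2, a3⟩ := phi_bd (v 0) (v 1) (v 2)
    obtain ⟨b1, b2, b3⟩ := phi_bd (-(v 3 : ℤ)) (-(v 4 : ℤ)) (-(v 5 : ℤ))
    rw [abs_le] at a1 a2 a3 b1 b2 b3 ⊢
    fin_cases i <;> simp [hh, Phi] <;> omega
  · intro v w h
    by_cases e : Phi v = Phi w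
    · exact Or.inl e
    · refine Or.inr ⟨e, Or.inl ⟨?_, ?_⟩⟩
      · have := h 0; have := h 1; have := h 2
        apply phi_step <;> omega
      · have := h 3; have := h 4; have := h 5
        apply phi_step <;> omega

end Pool.Agent.H22.A15
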