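import Pool.Agent.H22.EX2

/-! The round game is EXPTIME-hard; generic facts on impartial games. -/

namespace Pool.Agent.H22.EX

open Pool.Agent.H38.NP Function

structure WF (n : ℕ) (L : List Q) (ins : Q → In) : Prop where
  h0 : (0, 0, 0, 0, 0) ∈ L
  h1 : ∀ q ∈ L, ∀ x b, (ins q).1 = some (x, b) → x < n
  h2 : ∀ q ∈ L, ∀ o ∈ (ins q).2, (∀ g ∈ o.1, g.1 < n) ∧ ∀ q' ∈ o.2, q' ∈ L

theorem rg_hard {A : Set (List Bool)} (hA : InEXPTIME A) :
    ∃ (n : Bits → ℕ) (L : Bits → List Q) (ins : Bits → Q → In), PT n ∧ PT L ∧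
      PT (fun p : Bits × Q => ins p.1 p.2) ∧ ∀ x, WF (n x) (L x) (ins x) ∧
        (x.val ∈ A ↔ Win (ins x) (0, 0, 0, 0, 0) fun _ => false) := by
  obtain ⟨R, IC, I0, I1, IB, g, N, τ, h1, h2, h3⟩ := etab hA
  obtain ⟨K, k1, k2, k3⟩ : ∃ K, N < K ∧ R.length < K ∧ ∀ c l, (R.getD c dR).2.2.2.length < K ∧
      (ops R c l).length < K ∧ (bl R c l).1 < N := by
    let s := fun r : Rule ℕ => r.2.1 + r.2.2.2.length + (r.2.2.2.map (·.2.1)).sum
    refine ⟨N + R.length + (R.map s).sum + 3, by omega, by omega, fun c l => ?_⟩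
    have a : s (R.getD c dR) ≤ (R.map s).sum ∧ ∀ b ∈ (R.getD c dR).2.2.2, b.1 < N := by
      by_cases e : c < R.length
      · rw [List.getD_eq_getElem _ _ e]
        exact ⟨List.le_sum_of_mem (List.mem_map_of_mem (List.getElem_mem e)),
          (h2 _ (List.getElem_mem e)).2⟩
      · rw [List.getD_eq_default _ _ (by omega)]
        simp [s, dR]
    have b : (bl R c l).2.1 ≤ ((R.getD c dR).2.2.2.map (·.2.1)).sum ∧ (bl R c l).1 < N := by
      unfold bl
      by_cases e : l < (R.getD c dR).2.2.2.length
      · rw [List.getD_eq_getElem _ _ e]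
        exact ⟨List.le_sum_of_mem (List.mem_map_of_mem (List.getElem_mem e)),
          a.2 _ (List.getElem_mem e)⟩
      · rw [List.getD_eq_default _ _ (by omega)]
        simp; omega
    generalize (R.map s).sum = Z at a ⊢
    simp only [s] at a
    refine ⟨by omega, ?_, b.2⟩
    simp only [ops, List.length_cons, List.length_append, List.length_replicate]
    split_ifs <;> simp only [List.length_cons, List.length_nil] <;> omega
  have hM : PT fun x : Bits => τ.eval x.val.length := PT.polyEval τ (by fun_prop)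
  refine ⟨fun x => 2 * τ.eval x.val.length + 2, fun x => (List.range 6).product
    ((List.range K).product ((List.range K).product ((List.range K).product
      (List.range (τ.eval x.val.length + 1))))),
    fun x => prog R IC I0 I1 IB g x.val (τ.eval x.val.length), by fun_prop, by fun_prop, ?_,
    fun x => ⟨?_, ?_⟩⟩
  · have a1 : PT fun p : ℕ × ℕ × ℕ => eqG p.1 p.2.1 p.2.2 :=
      PT.map (PT.mk (by fun_prop) (pt_tb.comp (g := fun p : (ℕ × ℕ × ℕ) × ℕ => (p.1.2.2, p.2))
        (by fun_prop))) (by fun_prop)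
    have a2 : PT fun p : ℕ × ℕ => bl R p.1 p.2 := by unfold bl; fun_prop
    have a3 : PT fun p : ℕ × ℕ => ops R p.1 p.2 := by unfold ops bl; fun_prop
    have a4 := pt_tb
    have : PT fun p : (List Bool × ℕ) × Q => prog R IC I0 I1 IB g p.1.1 p.1.2 p.2 := by
      unfold prog ini
      fun_prop
    exact this.comp (g := fun p : Bits × Q => ((p.1.val, τ.eval p.1.val.length), p.2))
      (PT.mk (PT.mk (by fun_prop) (hM.comp (PT.fst PT.id'))) (by fun_prop))
  · have hy := (h3 x.val).1
    dsimp only
    generalize τ.eval x.val.length = M at hy ⊢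
    have m : ∀ q : Q, q ∈ (List.range 6).product ((List.range K).product ((List.range K).product
        ((List.range K).product (List.range (M + 1))))) ↔
        q.1 < 6 ∧ q.2.1 < K ∧ q.2.2.1 < K ∧ q.2.2.2.1 < K ∧ q.2.2.2.2 ≤ M := by
      rintro ⟨a, b, c, d, e⟩
      simp [List.pair_mem_product, Nat.lt_succ_iff]
    have e : ∀ r ≤ 1, ∀ p, ∀ g ∈ eqG M r p, g.1 < 2 * M + 2 := fun r hr p => by
      simp only [eqG, List.forall_mem_map, List.mem_range]
      omega
    refine ⟨by simp only [m]; omega, ?_, ?_⟩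
    · rintro ⟨a, b, c, d, j⟩ hq
      simp only [m, prog] at hq ⊢
      split_ifs <;> simp <;> omega
    · rintro ⟨a, b, c, d, j⟩ hq
      have := k3 b c
      simp only [m, prog] at hq ⊢
      split_ifs
      all_goals
        simp only [List.forall_mem_append, List.forall_mem_map, List.forall_mem_cons,
          List.mem_filter, List.mem_range, List.not_mem_nil, false_imp_iff, implies_true, and_true,
          true_and, and_imp]
      any_goals omega
      all_goals
        refine ⟨fun p _ _ => ⟨e 0 (by omega) _, e 1 le_rfl _⟩, ?_⟩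
        try refine ⟨⟨e 0 (by omega) _, fun _ _ => by omega⟩, ?_⟩
        refine fun c hc _ => ⟨?_, fun l hl => by have := k3 c l; omega⟩
        split_ifs
        · simp
        · exact e 1 le_rfl _
  · have : (fun _ => false) = mem 0 0 := funext fun x => by simp [mem, ms]
    rw [(h3 _).2, this, begin _ 0 0 (Nat.zero_add _) (by simp)]
    refine exists_congr fun t => and_congr_right fun ht => ?_
    simp only [pow_zero, one_mul, add_zero]
    exact (claim (fun r hr => (h2 r hr).1) (h3 _).1 t 0 g ht (Nat.two_pow_pos _)).symm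

end Pool.Agent.H22.EX
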