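import Pool.Agent.H22.AnDefs
import Pool.Agent.H22.EX3

/-! Annihilation simulates the round game. -/

namespace Pool.Agent.H22.EX

open Pool.Agent.H38.NP Function

section
variable {P P' : Type} {mv : P → P → Prop} {mv' : P' → P' → Prop}

def Lo (mv : P → P → Prop) (p : P) : Prop := ∀ q, mv p q → W mv q

theorem W.excl {p} (h : W mv p) (h' : Lo mv p) : False := by
  induction h with
  | mk p p' a b ih =>
    cases h' p' a with
    | mk _ q c d => exact ih q c d

theorem W.bisim (f : P' → P) (I : P' → Prop) (h0 : ∀ a b, I a → mv' a b → I b)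
    (h1 : ∀ a b, I a → mv' a b → mv (f a) (f b))
    (h2 : ∀ a q, I a → mv (f a) q → ∃ b, mv' a b ∧ f b = q) {a} (ha : I a) :
    W mv' a ↔ W mv (f a) := by
  constructor
  · intro h
    induction h with
    | mk a b c _ ih =>
      refine .mk _ _ (h1 a b ha c) fun q hq => ?_
      obtain ⟨d, e, rfl⟩ := h2 b q (h0 a b ha c) hq
      exact ih d e (h0 _ _ (h0 a b ha c) e)
  · intro h
    generalize e : f a = p at h
    induction h generalizing a with
    | mk p q c _ ih =>
      subst e
      obtain ⟨b, c', rfl⟩ := h2 a q ha c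
      exact .mk _ _ c' fun d e => ih _ (h1 b d (h0 a b ha c') e) (h0 _ _ (h0 a b ha c') e) rfl

end

abbrev Vt := ℕ × ℕ × Q
instance dQ : DecidableEq Q := inferInstance
instance dV : DecidableEq Vt := inferInstance
abbrev cV (q : Q) : Vt := (0, 0, q)
abbrev oV (i : ℕ) (q : Q) : Vt := (1, i, q)
abbrev sV (i : ℕ) : Vt := (2, i, 0, 0, 0, 0, 0)
abbrev mV (e x : ℕ) : Vt := (3, e, x, 0, 0, 0, 0)

def opt (ins : Q → In) (q : Q) (i : ℕ) : Op := (ins q).2.getD i ([], [])

def codeV (v : Vt) : ℕ := Nat.pair v.1 (Nat.pair v.2.1 (Nat.pair v.2.2.1 (Nat.pair v.2.2.2.1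
  (Nat.pair v.2.2.2.2.1 (Nat.pair v.2.2.2.2.2.1 v.2.2.2.2.2.2)))))

theorem codeV_inj : Injective codeV := fun ⟨_, _, _, _, _, _, _⟩ ⟨_, _, _, _, _, _, _⟩ h => by
  simpa [codeV] using h

theorem cnt_upd {n x e : ℕ} {st : ℕ → ℕ} (p : ℕ → Prop) [DecidablePred p] (hx : x < n) :
    ((Finset.range n).filter fun y => p (update st x e y)).card + (if p (st x) then 1 else 0) =
      ((Finset.range n).filter fun y => p (st y)).card + if p e then 1 else 0 := by
  simp only [Finset.card_filter]
  rw [← Finset.add_sum_erase _ _ (Finset.mem_range.2 hx),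
    ← Finset.add_sum_erase _ _ (Finset.mem_range.2 hx), update_self,
    Finset.sum_congr rfl fun y hy => by rw [update_of_ne (Finset.ne_of_mem_erase hy)]]
  omega

def CE (n : ℕ) (L : List Q) (ins : Q → In) (u v : Vt) : Prop :=
  (∃ q ∈ L, u = cV q ∧ ((∃ i < (ins q).2.length, v = oV i q) ∨ ∃ x < n, v = mV 4 x ∨
    ∃ b, (ins q).1 ≠ some (x, b) ∧ v = mV (2 + b.toNat) x)) ∨
  (∃ q ∈ L, ∃ i < (ins q).2.length, u = oV i q ∧ ((∃ q' ∈ (opt ins q i).2, v = cV q') ∨
    (∃ g ∈ (opt ins q i).1, v = mV (!g.2).toNat g.1) ∨ ∃ x < n, ∃ e < 3, v = mV (2 + e) x)) ∨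
  (∃ x < n, ∃ e < 5, ∃ i < 2, u = mV e x ∧ v = sV i) ∨ (u = sV 1 ∧ v = sV 0)

def ME (e e' : ℕ) : Prop := (e, e') ∈ [(0, 3), (1, 2), (2, 0), (3, 1), (2, 4), (3, 4)]

abbrev Ab := Option Vt × (ℕ → ℕ)

inductive AM (n : ℕ) (L : List Q) (ins : Q → In) : Ab → Ab → Prop
  | cap {u st e x} : CE n L ins u (mV e x) → x < n → st x = e → e < 5 →
      AM n L ins (some u, st) (none, update st x 5)
  | go {u v st} : CE n L ins u v → (∀ x < n, st x < 5 → v ≠ mV (st x) x) →
      AM n L ins (some u, st) (some v, st)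
  | hit {st e x} : ME (st x) e → x < n → AM n L ins (some (mV e x), st) (none, update st x 5)
  | mem {c st e x} : ME (st x) e → x < n → c ≠ some (mV e x) →
      AM n L ins (c, st) (c, update st x e)

def Mc (n : ℕ) (st : ℕ → ℕ) : ℕ := ((Finset.range n).filter fun y => st y = 2 ∨ st y = 3).card
def Lc (n : ℕ) (st : ℕ → ℕ) : ℕ := ((Finset.range n).filter fun y => st y < 4).card

variable {n : ℕ} {L : List Q} {ins : Q → In} {st : ℕ → ℕ} {x e : ℕ}

theorem Mc_upd (hx : x < n) (e) : Mc n (update st x e) + (if st x = 2 ∨ st x = 3 then 1 else 0) =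
    Mc n st + if e = 2 ∨ e = 3 then 1 else 0 := cnt_upd (fun z => z = 2 ∨ z = 3) hx

theorem Lc_upd (hx : x < n) (e) : Lc n (update st x e) + (if st x < 4 then 1 else 0) =
    Lc n st + if e < 4 then 1 else 0 := cnt_upd (fun z => z < 4) hx

def vl (c : Option Vt) : ℕ := if c = some (sV 1) then 1 else 0
def En (c : Option Vt) : Prop := c = none ∨ c = some (sV 0) ∨ c = some (sV 1)

theorem endW' (k : ℕ) : ∀ c st, En c → Lc n st + vl c ≤ k → (Mc n st + vl c) % 2 = 1 →
    W (AM n L ins) (c, st) := by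
  induction k using Nat.strong_induction_on with
  | _ k ih =>
  intro c st hc hk ho
  have key : ∀ c' st', En c' → Lc n st' + vl c' < k → (Mc n st' + vl c') % 2 = 0 →
      Lo (AM n L ins) (c', st') := fun c' st' a b d q hq => by
    cases hq with
    | cap h => simp only [En, CE] at a h; grind
    | @go u v _ h =>
      obtain ⟨rfl, rfl⟩ : u = sV 1 ∧ v = sV 0 := by simp only [En, CE] at a h; grind
      exact ih _ b _ _ (by simp [En]) (by simp [vl]) (by simp [vl] at d ⊢; omega)
    | hit => simp [En] at a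
    | @mem _ _ e x h hx =>
      have := Mc_upd (st := st') hx e
      have := Lc_upd (st := st') hx e
      simp only [ME, List.mem_cons, Prod.mk.injEq, List.not_mem_nil] at h
      exact ih _ b _ _ a (by grind) (by grind)
  by_cases e : c = some (sV 1)
  · subst e
    exact .mk _ _ (.go (v := sV 0) (by simp [CE]) (by simp))
      (key _ _ (by simp [En]) (by simp [vl] at hk ⊢; omega) (by simp [vl] at ho ⊢; omega))
  · obtain ⟨x, hx⟩ := Finset.card_pos.1 (show 0 < Mc n st by simp [vl, e] at ho; omega)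
    simp only [Finset.mem_filter, Finset.mem_range] at hx
    have := Mc_upd (st := st) hx.1 4
    have := Lc_upd (st := st) hx.1 4
    exact .mk _ _ (.mem (e := 4) (by simp only [ME]; grind) hx.1 (by simp only [En] at hc; grind))
      (key _ _ hc (by grind) (by grind))

theorem endW {c} (hc : En c) (ho : (Mc n st + vl c) % 2 = 1) : W (AM n L ins) (c, st) :=
  endW' _ c st hc le_rfl ho

theorem endL {c} (a : En c) (d : (Mc n st + vl c) % 2 = 0) : Lo (AM n L ins) (c, st) := by
  intro q hq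
  cases hq with
  | cap h => simp only [En, CE] at a h; grind
  | @go u v _ h =>
    obtain ⟨rfl, rfl⟩ : u = sV 1 ∧ v = sV 0 := by simp only [En, CE] at a h; grind
    exact endW (by simp [En]) (by simp [vl] at d ⊢; omega)
  | hit => simp [En] at a
  | @mem _ _ e x h hx =>
    have := Mc_upd (st := st) hx e
    simp only [ME, List.mem_cons, Prod.mk.injEq, List.not_mem_nil] at h
    exact endW a (by grind)

theorem trapW (hx : x < n) (he : e < 5) : W (AM n L ins) (some (mV e x), st) := by
  refine .mk _ _ (.go (v := sV (Mc n st % 2)) (Or.inr (Or.inr (Or.inl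
    ⟨x, hx, e, he, _, Nat.mod_lt _ (by omega), rfl, rfl⟩))) (by simp)) (endL ?_ ?_)
  all_goals rcases Nat.mod_two_eq_zero_or_one (Mc n st) with h | h <;> simp [En, vl, h] <;> omega

theorem capW {u} (h : CE n L ins u (mV (st x) x)) (hx : x < n) (he : st x < 5)
    (hp : (Mc n st + if st x = 2 ∨ st x = 3 then 1 else 0) % 2 = 0) :
    W (AM n L ins) (some u, st) := by
  have := Mc_upd (st := st) hx 5
  exact .mk _ _ (.cap h hx rfl he) (endL (by simp [En]) (by simp only [vl]; grind))

theorem ce_c {q v} : CE n L ins (cV q) v ↔ q ∈ L ∧ ((∃ i < (ins q).2.length, v = oV i q) ∨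
    ∃ x < n, v = mV 4 x ∨ ∃ b, (ins q).1 ≠ some (x, b) ∧ v = mV (2 + b.toNat) x) := by
  simp only [CE, Prod.mk.injEq]
  grind

theorem ce_o {q i v} : CE n L ins (oV i q) v ↔ q ∈ L ∧ i < (ins q).2.length ∧
    ((∃ q' ∈ (opt ins q i).2, v = cV q') ∨ (∃ g ∈ (opt ins q i).1, v = mV (!g.2).toNat g.1) ∨
      ∃ x < n, ∃ e < 3, v = mV (2 + e) x) := by
  simp only [CE, Prod.mk.injEq]
  grind

/-- a legal toggle is in progress -/
theorem midL {q b} (hq : q ∈ L) (h1 : (ins q).1 = some (x, b)) (hx : x < n)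
    (h2 : st x = 2 + b.toNat) (h3 : Mc n st = 1) (h4 : ∀ y < n, y ≠ x → st y ≠ 2 ∧ st y ≠ 3)
    (h5 : W (AM n L ins) (some (cV q), update st x b.toNat))
    (h6 : ∀ y < n, ∀ e, y ≠ x → ME (st y) e → W (AM n L ins) (some (cV q), update st y e)) :
    Lo (AM n L ins) (some (cV q), st) := by
  have hb := b.toNat_le
  intro p hp
  generalize hc : some (cV q) = c at hp
  cases hp with
  | @cap u _ e y h hy h' =>
    cases hc
    have := Mc_upd (st := st) hy 5
    obtain ⟨-, h | ⟨z, -, h | ⟨b', h7, h⟩⟩⟩ := ce_c.1 h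
    · simp at h
    · exact endW (by simp [En]) (by simp only [vl]; grind)
    · have := b'.toNat_le
      have := h4 y hy
      cases b <;> cases b' <;> grind
  | @go u v _ h =>
    cases hc
    obtain ⟨-, ⟨i, hi, rfl⟩ | ⟨z, hz, rfl | ⟨b', h7, rfl⟩⟩⟩ := ce_c.1 h
    · exact capW (ce_o.2 ⟨hq, hi, Or.inr (Or.inr ⟨x, hx, b.toNat, by omega, by rw [h2]⟩)⟩) hx
        (by omega) (by grind)
    · exact trapW hz (by omega)
    · exact trapW hz (by have := b'.toNat_le; omega)
  | hit => simp at hc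
  | @mem _ _ e y h hy =>
    subst hc
    by_cases e' : y = x
    swap
    · exact h6 y hy e e' h
    subst e'
    have := Mc_upd (st := st) hy 4
    obtain rfl | rfl : e = b.toNat ∨ e = 4 := by simp only [ME] at h; grind
    · exact h5
    · exact capW (x := y) (ce_c.2 ⟨hq, Or.inr ⟨y, hy, Or.inl (by simp)⟩⟩) hy (by simp)
        (by simp; grind)

theorem midL' {q b} (hq : q ∈ L) (h1 : (ins q).1 = some (x, b)) (hx : x < n)
    (h2 : st x = 2 + b.toNat) (h3 : Mc n st = 1) (h4 : ∀ y < n, y ≠ x → st y ≠ 2 ∧ st y ≠ 3)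
    {y} (hy : y < n) (e' : y ≠ x) (h : ME (st y) e) :
    W (AM n L ins) (some (cV q), update st y e) := by
  have hb := b.toNat_le
  have := h4 y hy e'
  have a1 := Mc_upd (st := st) hy 4
  have he : e = 2 ∨ e = 3 := by simp only [ME] at h; grind
  have dead : ∀ z < n, z ≠ y → ∀ f, Mc n (update (update st y 4) z f) % 2 = 0 →
      W (AM n L ins) (some (cV q), update (update st y 4) z f) := fun z hz ne f hf =>
    capW (x := y) (ce_c.2 ⟨hq, Or.inr ⟨y, hy, Or.inl (by simp [ne.symm])⟩⟩) hy (by simp [ne.symm])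
      (by simpa [ne.symm] using hf)
  refine .mk _ _ (.mem (e := 4) (x := y) (by simp only [ME]; grind) hy (by simp)) ?_
  rw [update_idem]
  refine midL hq h1 hx (by grind) (by grind) (by grind) (dead x hx e'.symm _ ?_)
    fun z hz f ne h' => ?_
  · have := Mc_upd (st := update st y 4) hx b.toNat
    grind
  · have := Mc_upd (st := update st y 4) hz f
    have := h4 z hz ne
    simp only [ME] at h'
    exact dead z hz (by grind) _ (by grind)

def rs (m : ℕ → Bool) (x : ℕ) : ℕ := (m x).toNat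

theorem rs_le (m x) : rs m x ≤ 1 := Bool.toNat_le _

theorem Mc_rs (m) : Mc n (rs m) = 0 := by
  simp only [Mc, Finset.card_eq_zero, Finset.filter_eq_empty_iff]
  exact fun x _ => by have := rs_le m x; omega

theorem rs_upd (m x b) : update (rs m) x (Bool.toNat b) = rs (update m x b) := by
  funext y
  simp only [rs, update_apply]
  split_ifs <;> rfl

variable (w : WF n L ins)
include w

theorem optL {q i m} (hq : q ∈ L) (hi : i < (ins q).2.length) :
    Lo (AM n L ins) (some (oV i q), rs m) ↔ (∀ g ∈ (opt ins q i).1, m g.1 = g.2) ∧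
      ∀ q' ∈ (opt ins q i).2, W (AM n L ins) (some (cV q'), rs m) := by
  have ho := w.h2 q hq (opt ins q i) (by
    rw [opt, List.getD_eq_getElem _ _ hi]; exact List.getElem_mem _)
  have z := @Mc_rs n m
  have r := rs_le m
  refine ⟨fun h => ⟨fun g hg => by_contra fun e => W.excl (capW (x := g.1) (ce_o.2 ⟨hq, hi,
    Or.inr (Or.inl ⟨g, hg, by simp [rs, Bool.eq_not.2 e]⟩)⟩) (ho.1 g hg) (by grind) (by grind)) h,
    fun q' h' => h _ (.go (ce_o.2 ⟨hq, hi, Or.inl ⟨q', h', rfl⟩⟩) (by simp))⟩, fun h p hp => ?_⟩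
  generalize hc : some (oV i q) = c at hp
  cases hp with
  | @cap u _ e y h1 hy h' =>
    cases hc
    obtain ⟨-, -, h1 | ⟨g, hg, h1⟩ | h1⟩ := ce_o.1 h1
    · simp at h1
    · have := h.1 g hg
      simp only [Prod.mk.injEq, rs] at h1 h'
      cases e : g.2 <;> grind
    · grind
  | @go u v _ h1 =>
    cases hc
    obtain ⟨-, -, ⟨q', a, rfl⟩ | ⟨g, hg, rfl⟩ | ⟨z, hz, e, he, rfl⟩⟩ := ce_o.1 h1
    · exact h.2 q' a
    · exact trapW (ho.1 g hg) (by have := (!g.2).toNat_le; omega)
    · exact trapW hz (by omega)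
  | hit => simp at hc
  | @mem _ _ e y h1 hy =>
    subst hc
    have := Mc_upd (st := rs m) hy e
    have := r y
    simp only [ME] at h1
    exact capW (x := y) (ce_o.2 ⟨hq, hi, Or.inr (Or.inr ⟨y, hy, e - 2, by grind, by grind⟩)⟩) hy
      (by grind) (by grind)

theorem an_win {q m} (hq : q ∈ L) : W (AM n L ins) (some (cV q), rs m) ↔ Win ins q m := by
  constructor
  · intro h
    generalize hp : (some (cV q), rs m) = p at h
    induction h generalizing q m with
    | mk p p' a b ih =>
    subst hp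
    have z := @Mc_rs n m
    have r := rs_le m
    generalize hc : some (cV q) = c at a
    cases a with
    | @cap u _ e y h1 hy h' =>
      cases hc
      have := ce_c.1 h1
      grind
    | @go u v _ h1 =>
      cases hc
      obtain ⟨-, ⟨i, hi, rfl⟩ | ⟨z, hz, rfl | ⟨b', h7, rfl⟩⟩⟩ := ce_c.1 h1
      · have ho : opt ins q i ∈ (ins q).2 := by
          rw [opt, List.getD_eq_getElem _ _ hi]; exact List.getElem_mem _
        exact .mk _ _ m _ (Or.inl rfl) ho ((optL w hq hi).1 b).1 fun q' h' =>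
          ih _ (.go (ce_o.2 ⟨hq, hi, Or.inl ⟨q', h', rfl⟩⟩) (by simp)) ((w.h2 q hq _ ho).2 q' h') rfl
      · exact (W.excl (trapW hz (by omega)) b).elim
      · exact (W.excl (trapW hz (by have := b'.toNat_le; omega)) b).elim
    | hit => simp at hc
    | @mem _ _ e y h1 hy =>
      subst hc
      have := Mc_upd (st := rs m) hy e
      obtain rfl : e = 2 + (!m y).toNat := by
        simp only [ME, rs] at h1
        cases e : m y <;> grind
      have hb := (!m y).toNat_le
      by_cases l : (ins q).1 = some (y, !m y)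
      · have := ih _ (.mem (e := (!m y).toNat) (x := y) (by simp only [ME]; grind) hy (by simp)) hq
          (by rw [update_idem, rs_upd])
        obtain ⟨m', a, c⟩ := win_iff.1 this
        refine win_iff.2 ⟨m', Or.inr ⟨_, _, l, ?_⟩, c⟩
        rcases a with a | ⟨_, _, a, rfl⟩
        · exact a
        · cases l.symm.trans a
          exact update_idem ..
      · exact (W.excl (capW (x := y) (ce_c.2 ⟨hq, Or.inr ⟨y, hy, Or.inr ⟨_, l, by simp⟩⟩⟩) hy
          (by grind) (by grind)) b).elim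
  · intro h
    induction h with
    | mk q m m' o a b c d ih =>
    obtain ⟨i, hi, rfl⟩ := List.getElem_of_mem b
    have e : opt ins q i = (ins q).2[i] := List.getD_eq_getElem _ _ hi
    have k : W (AM n L ins) (some (cV q), rs m') := .mk _ _
      (.go (ce_c.2 ⟨hq, Or.inl ⟨i, hi, rfl⟩⟩) (by simp)) ((optL w hq hi).2 ⟨e ▸ c, e ▸ fun q' h' =>
        ih q' h' ((w.h2 q hq _ b).2 q' h')⟩)
    rcases a with rfl | ⟨x, v, a, rfl⟩
    · exact k
    by_cases e' : m x = v
    · rwa [← e', update_eq_self] at k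
    have hx := w.h1 q hq x v a
    have z := @Mc_rs n m
    have r := rs_le m
    have := Mc_upd (st := rs m) hx (2 + v.toNat)
    have hb := v.toNat_le
    refine .mk _ _ (.mem (e := 2 + v.toNat) (x := x) (by
      simp only [ME, rs, Bool.eq_not.2 e']; cases v <;> simp) hx (by simp))
      (midL hq a hx (by simp) (by grind) (by grind) (by rwa [update_idem, rs_upd])
        fun y hy f ne h => midL' hq a hx (by simp) (by grind) (by grind) hy ne h)

end Pool.Agent.H22.EX
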