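import Pool.Agent.H22.EXDefs

namespace Pool.Agent.H22.EX

/-- In the impartial game with move relation `mv` (normal play, infinite play is a draw) the
player to move can force a win: there is a move such that after every reply the player can
again force a win (no reply means the opponent has lost). -/
inductive W {P : Type} (mv : P → P → Prop) : P → Prop
  | mk (p p' : P) : mv p p' → (∀ p'', mv p' p'' → W mv p'') → W mv p

/-- A move of Annihilation. `E` lists the triples `(i, u, v)` with `(u, v) ∈ E_i`; a placement
gives the type of the token on a vertex, if any. A token of type `i` slides from `u` to `v`; if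
`v` holds a token, both are removed. -/
def AnMove {V : Type} [DecidableEq V] (E : List (ℕ × V × V)) (p p' : V → Option ℕ) : Prop :=
  ∃ i u v, (i, u, v) ∈ E ∧ p u = some i ∧
    p' = Function.update (Function.update p u none) v (if (p v).isSome then none else some i)

/-- input: typed edges and the list of tokens (vertex, type) -/
abbrev TokPos := List (ℕ × ℕ × ℕ) × List (ℕ × ℕ)

/-- the placement given by a list of tokens -/
def place (T : List (ℕ × ℕ)) (v : ℕ) : Option ℕ := (T.find? fun t => t.1 = v).map (·.2)

/-- no loops, two token types `0, 1`, at most one token on a vertex -/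
def TwoTypes (I : TokPos) : Prop :=
  (∀ e ∈ I.1, e.1 ≤ 1 ∧ e.2.1 ≠ e.2.2) ∧ (∀ t ∈ I.2, t.2 ≤ 1) ∧ (I.2.map (·.1)).Nodup

/-- the player to move wins the Annihilation position -/
def AnWin (I : TokPos) : Prop := W (AnMove I.1) (place I.2)

end Pool.Agent.H22.EX
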