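import Pool.Agent.H22.BR2

/-! The graph for balanced recombination with `d + 3` districts. -/

namespace Pool.Agent.H22.BR.K

open Pool.Agent.H22.MX Function

def Dm (d n m : ℕ) : List Vt := (List.range d).flatMap fun j => star 0 (NN n m) (j, 0, 0)

def LL (d : ℕ) (Vs : List T3) (m : ℕ) : List Vt := Dm d Vs.length m ++ Re Vs m

def EE (d : ℕ) (Vs : List T3) (KS : List (List Vt)) : List (Vt × Vt) :=
  ((LL d Vs KS.length).product (LL d Vs KS.length)).filter fun p => decide (ad KS p.1 p.2)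

variable {d : ℕ} {Vs : List T3} {KS : List (List Vt)} {m : ℕ} {f g : Vt → ℕ}

theorem mem_EE {u v} : (u, v) ∈ EE d Vs KS ↔ u ∈ LL d Vs KS.length ∧ v ∈ LL d Vs KS.length ∧
    ad KS u v := by
  simp [EE, List.pair_mem_product, and_assoc]

theorem mem_Dm {n} {v : Vt} : v ∈ Dm d n m ↔
    v.1 = 0 ∧ v.2.1 < NN n m ∧ v.2.2.1 < d ∧ v.2.2.2 = (0, 0) := by
  obtain ⟨a, b, c, e⟩ := v
  simp only [Dm, List.mem_flatMap, mem_star, List.mem_range, Prod.mk.injEq]
  grind

theorem mem_LL {v : Vt} : v ∈ LL d Vs m ↔ v ∈ Dm d Vs.length m ∨ v ∈ Re Vs m := List.mem_append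

theorem nd_LL (h : Vs.Nodup) : (LL d Vs m).Nodup :=
  List.nodup_append.2 ⟨List.nodup_flatMap.2 ⟨fun _ _ => nd_star,
    List.nodup_range.pairwise_of_forall_ne fun a _ b _ e v h1 h2 => by
      have := mem_star.1 h1
      have := mem_star.1 h2
      grind⟩, (List.nodup_append.1 (BR.nd_LL h)).2.1, by
    rintro ⟨k, t, x⟩ a _ b rfl
    have := mem_Dm.1 a
    have := rf b
    omega⟩

theorem len_Dm {n} : (Dm d n m).length = d * NN n m := by simp [Dm, star, List.length_flatMap]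

theorem len_LL : (LL d Vs m).length = (d + 3) * NN Vs.length m := by
  rw [LL, List.length_append, len_Dm, len_Re]; ring

theorem cntL {α : Type} (l : List α) (g : α → ℕ) (c : ℕ → ℕ) (N d : ℕ)
    (h : ∀ j < d, l.countP (fun v => g v = c j) ≤ N) :
    l.countP (fun v => ∃ j < d, g v = c j) ≤ d * N := by
  induction d with
  | zero => simp
  | succ d ih =>
    have a := (cnt2 l (fun v => ∃ j < d + 1, g v = c j) (fun v => ∃ j < d, g v = c j)
      fun v => g v = c d).1 fun v _ ⟨j, a, b⟩ => by grind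
    have := ih fun j hj => h j (by omega)
    have := h d (by omega)
    rw [Nat.succ_mul]
    omega

abbrev BB (d : ℕ) (Vs : List T3) (KS : List (List Vt)) :=
  BCP (LL d Vs KS.length) (EE d Vs KS) (d + 3) 0

theorem bc (h : BB d Vs KS f) {v} (hv : v ∈ LL d Vs KS.length) :
    (LL d Vs KS.length).countP (fun u => f u = f v) = NN Vs.length KS.length := by
  have := (h.2 _ (h.1 v hv)).2
  rw [len_LL] at this
  exact Nat.eq_of_mul_eq_mul_left (show 0 < d + 3 by omega) (by omega)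

theorem mD {n m j} (hj : j < d) : (0, 0, j, 0, 0) ∈ Dm d n m := by simp [mem_Dm, hj, NN]

/-- closure inside a district -/
theorem bcl (h : BB d Vs KS f) {u v} (hu : u ∈ LL d Vs KS.length) (hv : v ∈ LL d Vs KS.length)
    (e : f v = f u) (P : Vt → Prop) (h0 : P u) (h1 : ∀ a b, a ∈ LL d Vs KS.length →
      b ∈ LL d Vs KS.length → f a = f u → f b = f u → P a → (ad KS a b ∨ ad KS b a) → P b) : P v :=
  (h.2 _ (h.1 u hu)).1.cl ⟨hu, rfl⟩ ⟨hv, e⟩ P h0 fun a b ha hb p q =>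
    h1 a b ha.1 hb.1 ha.2 hb.2 p (q.imp (fun q => (mem_EE.1 q).2.2) fun q => (mem_EE.1 q).2.2)

theorem bnb (h : BB d Vs KS f) (nd : Vs.Nodup) {u} (hu : u ∈ LL d Vs KS.length) :
    ∃ b ∈ LL d Vs KS.length, f b = f u ∧ (ad KS u b ∨ ad KS b u) := by
  by_contra H
  have a : ∀ v ∈ LL d Vs KS.length, f v = f u → v = u := fun v hv e =>
    bcl h hu hv e (· = u) rfl fun a b _ hb _ e p q => (H ⟨b, hb, e, p ▸ q⟩).elim
  have b := bc h hu
  have c : (LL d Vs KS.length).countP (fun v => f v = f u) ≤ (LL d Vs KS.length).count u :=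
    List.countP_mono_left fun v hv e => by simpa using a v hv (by simpa using e)
  have e := List.nodup_iff_count_le_one.1 (nd_LL (d := d) (m := KS.length) nd) u
  simp only [NN] at b
  omega

theorem struc (w : WF Vs KS) (nd : Vs.Nodup) (h : BB d Vs KS f) : Sat KS (dc f) ∧
    f (3, 0, o) ≠ f (4, 0, o) ∧ f (3, 0, o) ≠ f (5, 0, o) ∧ f (4, 0, o) ≠ f (5, 0, o) ∧
    ∀ s < 2, ∀ x ∈ Vs, f (8 + s, 1, x) = f (3, 0, o) ∨ f (8 + s, 1, x) = f (4 + s, 0, o) := by
  have wg := w.gd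
  have mR : ∀ v, v ∈ Re Vs KS.length → v ∈ LL d Vs KS.length := fun v h => mem_LL.2 (Or.inr h)
  have mD' : ∀ j < d, (0, 0, j, 0, 0) ∈ LL d Vs KS.length := fun j h => mem_LL.2 (Or.inl (mD h))
  have tw : ∀ v ∈ Dm d Vs.length KS.length, ∃ j < d, f v = f (0, 0, j, 0, 0) := by
    rintro ⟨k, t, x, y⟩ hv
    obtain ⟨⟨k', t', x', y'⟩, hb, e, a⟩ := bnb h nd (mem_LL.2 (Or.inl hv))
    have := wg t' (k, t, x, y)
    have hb := (mem_LL.1 hb).imp mem_Dm.1 fun h => (rf h).1
    obtain ⟨rfl, -, c, rfl⟩ : k = 0 ∧ _ ∧ x < d ∧ y = (0, 0) := mem_Dm.1 hv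
    by_cases e0 : t = 0
    · exact ⟨x, c, by rw [e0]⟩
    obtain ⟨rfl, rfl, c, rfl⟩ : k' = 0 ∧ t' = 0 ∧ x' < d ∧ y' = (0, 0) := by
      rcases a with ⟨-, q | q | q | q⟩ | ⟨-, q | q | q | q⟩ <;> grind
    exact ⟨_, c, e.symm⟩
  have F1 : ∀ v ∈ Re Vs KS.length, ¬ ∃ j < d, f v = f (0, 0, j, 0, 0) := by
    have a := cntL (LL d Vs KS.length) f (fun j => f (0, 0, j, 0, 0)) _ d
      fun j hj => (bc h (mD' j hj)).le
    rw [LL, List.countP_append, List.countP_eq_length.2 fun v hv => by simpa using tw v hv,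
      len_Dm] at a
    simpa using List.countP_eq_zero.1 (Nat.le_zero.1 (Nat.le_of_add_le_add_left (c := 0) a))
  have F1' : ∀ v ∈ Re Vs KS.length, ∀ b ∈ LL d Vs KS.length, f b = f v → b ∈ Re Vs KS.length :=
    fun v hv b hb e => (mem_LL.1 hb).resolve_left fun a => by
      have := tw b a
      have := F1 v hv
      grind
  have lf : Leaf Vs KS.length f := by
    rintro ⟨k, t, x⟩ hv hk
    by_cases e : t = 0
    · simp [e]
    obtain ⟨⟨k', t', x'⟩, hb, e, a⟩ := bnb h nd (mR _ hv)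
    obtain ⟨rfl, rfl, rfl⟩ := n1 w (rf hv).1 hk ‹_› (rf (F1' _ hv _ hb e)).1 a
    exact e.symm
  have cR : ∀ v ∈ Re Vs KS.length,
      (Re Vs KS.length).countP (fun u => f u = f v) = NN Vs.length KS.length := fun v hv => by
    have := bc h (mR v hv)
    rwa [LL, List.countP_append, List.countP_eq_zero.2 fun u hu => by
      have := tw u hu; have := F1 v hv; grind, Nat.zero_add] at this
  have m3 : (3, 0, o) ∈ Re Vs KS.length := by simp [mem_Re, wB]
  have m4 : (4, 0, o) ∈ Re Vs KS.length := by simp [mem_Re, wA]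
  have m5 : (5, 0, o) ∈ Re Vs KS.length := by simp [mem_Re, wA]
  have c3 := cR _ m3
  have c4 := cR _ m4
  have c5 := cR _ m5
  have F2 : f (3, 0, o) ≠ f (4, 0, o) ∧ f (3, 0, o) ≠ f (5, 0, o) ∧ f (4, 0, o) ≠ f (5, 0, o) := by
    rw [c_Re lf] at c3 c4
    simp only [NN, wA, wB, if_true] at c3 c4
    refine ⟨fun e => ?_, fun e => ?_, fun e => ?_⟩
    · rw [if_pos e.symm] at c3; omega
    · rw [if_pos e.symm] at c3; omega
    · rw [if_pos e.symm] at c4; omega
  have F3 : ∀ v ∈ Re Vs KS.length, f v = f (3, 0, o) ∨ f v = f (4, 0, o) ∨ f v = f (5, 0, o) := by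
    have a := (cnt3 (Re Vs KS.length) f _ _ _).2 F2.1 F2.2.1 F2.2.2
    rw [c3, c4, c5, len_Re] at a
    have b := List.countP_eq_zero.1 (Nat.le_zero.1 (Nat.le_of_add_le_add_left
      (c := 0) (a.trans_eq (by ring))))
    intro v hv
    have := b v hv
    grind
  have core : ∀ v ∈ Re Vs KS.length, ∃ k, 3 ≤ k ∧ k ≤ 5 ∧ (k, 0, o) ∈ Re Vs KS.length ∧
      f (k, 0, o) = f v := fun v hv => by
    rcases F3 v hv with e | e | e
    exacts [⟨3, by omega, by omega, m3, e.symm⟩, ⟨4, by omega, by omega, m4, e.symm⟩,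
      ⟨5, by omega, by omega, m5, e.symm⟩]
  have mH : ∀ s < 2, ∀ x ∈ Vs, (6 + s, 0, x) ∈ Re Vs KS.length := fun s hs x hx => by
    simp [mem_Re, ww, hx]; omega
  have F6 : ∀ s < 2, ∀ x ∈ Vs, f (8 + s, 0, x) = f (6 + s, 0, x) ∨
      f (8 + s, 1, x) = f (6 + s, 0, x) := fun s hs x hx => by
    by_contra H
    obtain ⟨k, a, b, c, d⟩ := core _ (mH s hs x hx)
    have := bcl h (mR _ (mH s hs x hx)) (mR _ c) d (fun v => v.1 = 6 + s ∧ v.2.2 = x) ⟨rfl, rfl⟩
      fun ⟨k1, t1, x1⟩ ⟨k2, t2, x2⟩ _ hb _ e p q => by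
        have hb := rf (F1' _ (mH s hs x hx) _ hb e)
        obtain ⟨rfl, rfl⟩ : k1 = 6 + s ∧ x1 = x := p
        obtain ⟨rfl | rfl, rfl⟩ := n2 w hs hb.1 q
        · exact ⟨rfl, rfl⟩
        · have := hb.2.1 (by omega)
          interval_cases t2
          exacts [(H (Or.inl e)).elim, (H (Or.inr e)).elim]
    simp only at this
    omega
  have l1 : ∀ k t a, ct Vs f k t a ≤ Vs.length := fun _ _ _ => List.countP_le_length
  have l2 : ∀ s < 2, ∀ a, ct Vs f (6 + s) 0 a ≤ ct Vs f (8 + s) 0 a + ct Vs f (8 + s) 1 a :=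
    fun s hs a => (cnt2 Vs _ _ _).1 fun x hx e => by have := F6 s hs x hx; grind
  have l3 : ∀ a, (star 10 KS.length o).countP (fun v => f v = a) ≤ KS.length := fun a =>
    List.countP_le_length.trans (by simp [star])
  have key : ∀ k, k = 4 ∨ k = 5 → ct Vs f 6 0 (f (k, 0, o)) + ct Vs f 7 0 (f (k, 0, o)) = Vs.length ∧
      (star 10 KS.length o).countP (fun v => f v = f (k, 0, o)) = 0 := fun k hk => by
    have c := cR (k, 0, o) (by rcases hk with rfl | rfl <;> assumption)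
    rw [c_Re lf] at c
    have a1 := l1 8 0 (f (k, 0, o))
    have a2 := l1 8 1 (f (k, 0, o))
    have a3 := l1 9 0 (f (k, 0, o))
    have a4 := l1 9 1 (f (k, 0, o))
    have a5 := l2 0 (by omega) (f (k, 0, o))
    have a6 := l2 1 (by omega) (f (k, 0, o))
    have a7 := l3 (f (k, 0, o))
    have := uniq (w := ww Vs.length KS.length) (n := Vs.length) (r' := Vs.length)
      (h := ct Vs f 6 0 (f (k, 0, o)) + ct Vs f 7 0 (f (k, 0, o)))
      (r := ct Vs f 8 0 (f (k, 0, o)) + ct Vs f 8 1 (f (k, 0, o)) + ct Vs f 9 0 (f (k, 0, o)) +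
        ct Vs f 9 1 (f (k, 0, o)) + (star 10 KS.length o).countP fun v => f v = f (k, 0, o))
      (by rw [ww]; omega) (by rw [ww]; omega) (by
        rcases hk with rfl | rfl <;>
        simp only [F2.1, F2.2.1, F2.2.2, F2.2.2.symm, if_true, if_false, NN, wA, uu] at c <;> omega)
    simp only [Nat.add_zero, Nat.reduceAdd] at a5 a6
    omega
  have F4 : ∀ s < 2, ∀ x ∈ Vs, f (6 + s, 0, x) ≠ f (3, 0, o) := fun s hs => by
    have a : ∀ k, ct Vs f k 0 (f (3, 0, o)) + ct Vs f k 0 (f (4, 0, o)) + ct Vs f k 0 (f (5, 0, o))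
        + _ ≤ Vs.length := fun k => (cnt3 Vs (fun x => f (k, 0, x)) _ _ _).2 F2.1 F2.2.1 F2.2.2
    have b := a 7
    have a := a 6
    have c := (key 4 (by simp)).1
    have d := (key 5 (by simp)).1
    have : ct Vs f (6 + s) 0 (f (3, 0, o)) = 0 := by
      interval_cases s <;> simp only [Nat.add_zero, Nat.reduceAdd] <;> omega
    simpa using List.countP_eq_zero.1 this
  have F5 : ∀ j < KS.length, f (10, j, o) = f (3, 0, o) := fun j hj => by
    have a := List.countP_eq_zero.1 (key 4 (by simp)).2 (10, j, o) (by simp [mem_star, hj])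
    have b := List.countP_eq_zero.1 (key 5 (by simp)).2 (10, j, o) (by simp [mem_star, hj])
    have := F3 (10, j, o) (by simp [mem_Re, hj])
    grind
  have mL : ∀ s < 2, ∀ x ∈ Vs, (8 + s, 1, x) ∈ Re Vs KS.length := fun s hs x hx => by
    simp [mem_Re, hx]; omega
  refine ⟨fun C hC => ?_, F2.1, F2.2.1, F2.2.2, fun s hs x hx => ?_⟩
  · obtain ⟨j, hj, rfl⟩ := List.getElem_of_mem hC
    have mK : (10, j, o) ∈ Re Vs KS.length := by simp [mem_Re, hj]
    obtain ⟨⟨k, t, x⟩, hb, e, a⟩ := bnb h nd (mR _ mK)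
    have hb := F1' _ mK _ hb e
    have := wg t (10, j, o)
    have a : (k, t, x) ∈ KS.getD j [] := by
      simp only [mem_Re, ad, Prod.mk.injEq] at hb a; grind
    obtain ⟨a1, a2, a3⟩ := wg j _ a
    rw [List.getD_eq_getElem _ _ hj] at a
    refine ⟨_, a, ?_⟩
    rw [F5 j hj] at e
    obtain ⟨s, rfl⟩ : ∃ s, k = 8 + s := ⟨k - 8, by simp only at a1; omega⟩
    have hs : s < 2 := by simp only at a1; omega
    have := F6 s hs x a3
    have := F4 s hs x a3
    simp only [dc, Nat.add_sub_cancel_left] at a2 ⊢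
    interval_cases t <;> grind
  · by_contra H
    have e : f (5 - s, 0, o) = f (8 + s, 1, x) := by
      have := F3 _ (mL s hs x hx)
      interval_cases s <;> grind
    have := bcl h (mR _ (mL s hs x hx)) (mR (5 - s, 0, o) (by interval_cases s <;> assumption)) e
      (fun v => v.1 = 6 + s ∨ v.1 = 8 + s) (Or.inr rfl)
      fun ⟨k1, t1, x1⟩ ⟨k2, t2, x2⟩ _ hb _ e p q => by
        have hb := rf (F1' _ (mL s hs x hx) _ hb e)
        rcases n3 hs p hb.1 q with q | q | ⟨rfl | rfl, rfl, rfl⟩ | rfl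
        · exact Or.inl q
        · exact Or.inr q
        · exact (H (Or.inl e.symm)).elim
        · exact (H (Or.inr e.symm)).elim
        · obtain ⟨a, rfl⟩ := hb.2.2 rfl
          exact (H (Or.inl (e.symm.trans (F5 _ a)))).elim
    simp only at this
    omega

end Pool.Agent.H22.BR.K
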