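import Pool.Agent.H22.BR2

/-! Balanced recombination on 3-connected graphs is PSPACE-hard. -/

namespace Pool.Agent.H22.BR

open Pool.Agent.H38.NP Pool.Agent.H36.PSpace Pool.Agent.H22.QB Pool.Agent.H22.MX Function

variable {Vs : List T3} {KS : List (List Vt)} {f g : Vt → ℕ} {σ σ' : ℕ → T3 → Bool}

def can (σ : ℕ → T3 → Bool) (v : Vt) : ℕ :=
  if v.1 < 6 then v.1 else if v.1 < 8 then v.1 - 2 else if v.1 < 10 then
    (if σ (v.1 - 8) v.2.2 = decide (v.2.1 = 1) then 3 else v.1 - 4) else 3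

theorem mc {m i} (hi : i < 6) : (i, 0, o) ∈ LL Vs m := by
  interval_cases i <;> simp [mem_LL, mem_Dm, mem_Re, NN, wA, wB]

theorem bcp_can (w : WF Vs KS) (hs : Sat KS σ) : BB Vs KS (can σ) := by
  refine ⟨fun v _ => by simp only [can]; split_ifs <;> omega, fun i hi => ⟨?_, ?_⟩⟩
  · refine Conn.of (i, 0, o) (fun v => if v.1 = 6 ∨ v.1 = 7 then (if v.2.1 = 0 then 2 else 3) else
      if v.1 = 10 then 2 else if v.1 < 6 ∧ v.2.1 = 0 then 0 else 1) ⟨mc hi, by simp [can, hi]⟩ ?_
    rintro ⟨k, t, x⟩ ⟨hv, e⟩ ne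
    have h : (k < 6 ∧ x = o) ∨ ((k = 6 ∨ k = 7) ∧ x ∈ Vs) ∨ (k = 8 ∨ k = 9) ∨
        (k = 10 ∧ t < KS.length ∧ x = o) := by
      simp only [mem_LL, mem_Dm, mem_Re] at hv; grind
    rcases h with ⟨h, rfl⟩ | ⟨h, hx⟩ | h | ⟨rfl, h, rfl⟩
    · obtain rfl : k = i := by simpa [can, h] using e
      exact ⟨_, ⟨mc hi, by simp [can, hi]⟩, by grind,
        Or.inl (mem_EE.2 ⟨mc hi, hv, ne.symm, Or.inr (Or.inl ⟨by omega, rfl, rfl, rfl⟩)⟩)⟩
    · by_cases e' : t = 0
      · have m : (k + 2, (!σ (k - 6) x).toNat, x) ∈ LL Vs KS.length := by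
          have := (!σ (k - 6) x).toNat_le
          simp only [mem_LL, mem_Re]; grind
        refine ⟨_, ⟨m, ?_⟩, by grind, Or.inl (mem_EE.2 ⟨m, hv, by simp,
          Or.inr (Or.inr (Or.inl ⟨by omega, Or.inr (Or.inr (by simp [e']))⟩))⟩)⟩
        rcases h with rfl | rfl <;> simp only [can] at e ⊢ <;> cases σ _ x <;> simpa using e
      · have m : (k, 0, x) ∈ LL Vs KS.length := by simp only [mem_LL, mem_Re, ww]; grind
        exact ⟨_, ⟨m, by simp only [can] at e ⊢; grind⟩, by grind, Or.inl (mem_EE.2 ⟨m, hv,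
          by simp [Ne.symm e'], Or.inr (Or.inl ⟨by omega, rfl, rfl, rfl⟩)⟩)⟩
    · exact ⟨_, ⟨mc hi, by simp [can, hi]⟩, by grind, Or.inr (mem_EE.2 ⟨hv, mc hi, ne,
        Or.inr (Or.inr (Or.inl ⟨h, by simp only [can] at e; grind⟩))⟩)⟩
    · obtain ⟨u, hu, a⟩ := hs _ (List.getElem_mem h)
      have b := w _ (List.getElem_mem h) u hu
      have m : u ∈ LL Vs KS.length := by simp only [mem_LL, mem_Re]; grind
      exact ⟨u, ⟨m, by simp only [can] at e ⊢; grind⟩, by grind, Or.inr (mem_EE.2 ⟨hv, m,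
        by grind, Or.inr (Or.inr (Or.inr ⟨rfl, by rwa [List.getD_eq_getElem _ _ h]⟩))⟩)⟩
  · have h6 : ∀ k, k = 6 ∨ k = 7 → ct Vs (can σ) k 0 i = if k - 2 = i then Vs.length else 0 := by
      rintro k (rfl | rfl) <;> split_ifs with e <;> simp [ct, can, e]
    have h8 : ∀ s < 2, ct Vs (can σ) (8 + s) 0 i + ct Vs (can σ) (8 + s) 1 i =
        if i = 3 ∨ i = 4 + s then Vs.length else 0 := fun s hs => by
      split_ifs with e
      · exact (cnt2 Vs (fun _ => True) _ _).2 fun x _ => by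
          simp only [can]; cases σ (8 + s - 8) x <;> grind
      · rw [ct, ct, List.countP_eq_zero.2, List.countP_eq_zero.2] <;> intro x _ <;>
          simp only [can] <;> grind
    have a := h8 0 (by omega)
    have b := h8 1 (by omega)
    have : (LL Vs KS.length).countP (fun v => can σ v = i) = NN Vs.length KS.length := by
      rw [LL, Dm, List.countP_append, List.countP_append, List.countP_append,
        c_star (by simp [can]), c_star (by simp [can]), c_star (by simp [can]),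
        c_Re (fun v _ h => by simp only [can]; grind), c_star (by simp [can]), h6 6 (by simp),
        h6 7 (by simp)]
      interval_cases i <;> simp [can, NN, wA, wB, uu] at a b ⊢ <;> omega
    rw [this, len_LL]
    omega

theorem BCP.congr {L E k s} (e : ∀ v ∈ L, f v = g v) (h : BCP L E k s f) : BCP L E k s g := by
  refine ⟨fun v hv => e v hv ▸ h.1 v hv, fun i hi => ?_⟩
  have := h.2 i hi
  rwa [show (fun v => v ∈ L ∧ f v = i) = fun v => v ∈ L ∧ g v = i from funext fun v => by grind,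
    List.countP_congr (q := fun v => g v = i) fun v hv => by simp [e v hv]] at this

theorem rec_can {m s} (hs : s < 2) (h : ∀ x ∈ Vs, σ (1 - s) x = σ' (1 - s) x) :
    Rec (LL Vs m) 6 (can σ) (can σ') := by
  refine ⟨Equiv.refl _, fun _ h => h, 3, by omega, 4 + s, by omega, fun ⟨k, t, x⟩ hv => ?_⟩
  have : k = 8 ∨ k = 9 → x ∈ Vs := by simp only [mem_LL, mem_Dm, mem_Re] at hv; grind
  have := h x
  simp only [can, Equiv.refl_apply]
  by_cases e : k = 9 - s
  · rw [show k - 8 = 1 - s by omega]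
    grind
  · grind

theorem rec_dc (w : WF Vs KS) (nd : Vs.Nodup) (hf : BB Vs KS f) (hg : BB Vs KS g)
    (h : Rec (LL Vs KS.length) 6 f g) : ∃ s < 2, ∀ x ∈ Vs, dc f s x = dc g s x := by
  obtain ⟨π, -, i, -, j, -, h⟩ := h
  obtain ⟨-, a1, a2, a3, a⟩ := struc w nd hf
  obtain ⟨-, b1, b2, b3, b⟩ := struc w nd hg
  have key : ∀ k < 6, f (k, 0, o) ≠ i → f (k, 0, o) ≠ j → ∀ s < 2, ∀ x ∈ Vs,
      f (8 + s, 1, x) = f (k, 0, o) ↔ g (8 + s, 1, x) = g (k, 0, o) := fun k hk c d s hs x hx => by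
    have l := hf.1 _ (mc hk)
    rw [((h _ (mc hk)).2 _ l c d).1 rfl]
    exact (h _ (by simp only [mem_LL, mem_Re]; grind)).2 _ l c d
  by_cases e : f (3, 0, o) ≠ i ∧ f (3, 0, o) ≠ j
  · exact ⟨0, by omega, fun x hx => by simp only [dc, key 3 (by omega) e.1 e.2 0 (by omega) x hx]⟩
  obtain ⟨s, hs, c, d⟩ : ∃ s < 2, f (4 + s, 0, o) ≠ i ∧ f (4 + s, 0, o) ≠ j := by
    by_cases e : f (4, 0, o) ≠ i ∧ f (4, 0, o) ≠ j
    exacts [⟨0, by omega, e⟩, ⟨1, by omega, by grind⟩]
  refine ⟨s, hs, fun x hx => ?_⟩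
  have := key _ (by omega) c d s hs x hx
  have := a s hs x hx
  have := b s hs x hx
  simp only [dc]
  interval_cases s <;> grind

def KK (Vs : List T3) (Cs : List Cz) : List (List Vt) :=
  [0, 1].flatMap (fun s => [(8 + s, 0, o)] :: Cs.map fun c =>
    [(8 + s, 0, c.1), (8 + s, 1, c.2.1), (8 + s, (!c.2.2.2).toNat, c.2.2.1)]) ++
  Vs.flatMap fun x => (Vs.filter fun y => decide (y ≠ x)).flatMap fun y => [0, 1].flatMap fun b =>
    [0, 1].map fun c => [(8, b, x), (9, 1 - b, x), (8, c, y), (9, 1 - c, y)]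

variable {Cs : List Cz}

theorem sat_iff : Sat (KK Vs Cs) σ ↔ St Vs Cs (σ 0) (σ 1) := by
  have a : ∀ (s : T3 → Bool) (c : Cz), (s c.1 = false ∨ s c.2.1 = true ∨
      s c.2.2.1 = decide ((!c.2.2.2).toNat = 1)) ↔ ok s c := fun s c => by
    unfold ok; cases c.2.2.2 <;> grind
  simp only [Sat, KK, St, Sol, List.forall_mem_append, List.forall_mem_flatMap,
    List.forall_mem_cons, List.forall_mem_map, List.mem_filter, List.not_mem_nil, false_imp_iff,
    implies_true, and_true, List.exists_mem_cons_iff, false_and, exists_false, or_false,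
    Nat.add_sub_cancel_left, Nat.reduceSub, decide_true, a, Nat.zero_ne_one, decide_false,
    decide_eq_true_eq, and_assoc]
  refine and_congr_right' (and_congr_right' (and_congr_right' (and_congr_right'
    ⟨fun h => ?_, fun ⟨z, h⟩ x hx y hy => ?_⟩)))
  · by_cases e : ∃ x ∈ Vs, σ 0 x ≠ σ 1 x
    · obtain ⟨x, hx, e⟩ := e
      exact ⟨x, fun y hy ne => by have := h x hx y ⟨hy, ne⟩; grind⟩
    · exact ⟨o, fun y hy _ => by grind⟩
  · have := h x hx
    have := h y hy.1
    grind

theorem wf_KK (h0 : o ∈ Vs) (hV : ∀ c ∈ Cs, c.1 ∈ Vs ∧ c.2.1 ∈ Vs ∧ c.2.2.1 ∈ Vs) :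
    WF Vs (KK Vs Cs) := by
  have : ∀ b : Bool, b.toNat < 2 := fun b => by cases b <;> simp
  simp only [WF, KK, List.forall_mem_append, List.forall_mem_flatMap,
    List.forall_mem_cons, List.forall_mem_map, List.mem_filter, List.not_mem_nil, false_imp_iff,
    implies_true, and_true, this]
  exact ⟨by simpa [h0] using hV, fun x hx y hy => by simp [hx, hy.1]⟩

def out (I : List T3 × List Cz) : Inp :=
  (LL I.1 (KK I.1 I.2).length, EE I.1 (KK I.1 I.2), 0,
    (LL I.1 (KK I.1 I.2).length).map fun v => (v, can (fun _ => MX.start) v),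
    (LL I.1 (KK I.1 I.2).length).map fun v => (v, can (fun _ _ => false) v))

theorem pt_out : PT out := by
  have a : PT fun I : List T3 × List Cz => KK I.1 I.2 := by unfold KK; fun_prop
  have b : PT fun I : List T3 × ℕ => LL I.1 I.2 := by
    unfold LL Dm Re grp star NN wA wB uu ww; fun_prop
  have c : PT fun I : List T3 × List Cz => LL I.1 (KK I.1 I.2).length :=
    b.comp (g := fun I : List T3 × List Cz => (I.1, (KK I.1 I.2).length)) (by fun_prop)
  have d : PT fun p : List (List Vt) × Vt × Vt => decide (ad p.1 p.2.1 p.2.2) := by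
    unfold ad; fun_prop
  have e : PT (can fun _ => MX.start) := by unfold can MX.start; fun_prop
  have e' : PT (can fun _ _ => false) := by unfold can; fun_prop
  unfold out EE
  exact PT.mk c (PT.mk (PT.filter (d.comp (g := fun p : (List T3 × List Cz) × Vt × Vt =>
    (KK p.1.1 p.1.2, p.2)) (by fun_prop)) (PT.product c c)) (PT.mk (PT.const _)
      (PT.mk (PT.map (by fun_prop) c) (PT.map (by fun_prop) c))))

theorem lab_map {L : List Vt} : ∀ v ∈ L, f v = lab (L.map fun v => (v, f v)) v := fun v hv => by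
  simp [lab, List.lookup_graph f hv]

theorem br_psh : PSH (Three 6) (BR 6) := by
  refine tq_psh.reduce _ (pt_out.comp pt_fm) fun ⟨n, φ⟩ hφ => ?_
  have nd : (VV (2 * n) φ).Nodup :=
    List.nodup_range.product (List.nodup_range.product List.nodup_range)
  have w := wf_KK (Cs := CC (2 * n) φ) (by simp [mem_VV, bnd]) (wfV hφ)
  have q1 := fun q => complete hφ q (sol_start (n := 2 * n) (φ := φ))
  have q2 := fun q => sound (s := fun _ => false) hφ q
  have s1 : Sol (CC (2 * n) φ) MX.start := sol_start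
  simp only [out, TQ, qa_vq, Three, BR, MX.Good] at q1 ⊢
  generalize VV (2 * n) φ = Vs at *
  generalize CC (2 * n) φ = Cs at *
  have s0 : Sol Cs fun _ => false := ⟨rfl, fun _ _ h => by simp at h⟩
  have bc : ∀ {a c}, St Vs Cs a c → BB Vs (KK Vs Cs) (can fun s => if s = 0 then a else c) :=
    fun h => bcp_can w (sat_iff.2 h)
  have rf : ∀ {a}, Sol Cs a → St Vs Cs a a := fun h => ⟨h, h, o, fun _ _ _ => rfl⟩
  have bc' : ∀ {a}, Sol Cs a → BB Vs (KK Vs Cs) (can fun _ => a) :=
    fun h => bcp_can w (sat_iff.2 (rf h))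
  have rc : ∀ {f g}, (∀ v ∈ LL Vs (KK Vs Cs).length, f v = g v) →
      Rec (LL Vs (KK Vs Cs).length) 6 f g := fun h =>
    ⟨Equiv.refl _, fun _ h => h, 0, by omega, 0, by omega, fun v hv => by simp [h v hv]⟩
  refine ⟨⟨nd_LL nd, fun e he => ⟨(mem_EE.1 he).1, (mem_EE.1 he).2.1, (mem_EE.1 he).2.2.1⟩,
    by rw [len_LL, NN]; omega, fun x y => ?_, trivial, (bc' s1).congr lab_map,
    (bc' s0).congr lab_map⟩, fun q => ?_, fun H => by_contra fun q => ?_⟩
  · obtain ⟨j, hj, a⟩ : ∃ j < 3, (j, 0, o) ≠ x ∧ (j, 0, o) ≠ y := by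
      by_contra H
      have := fun j a b => H ⟨j, a, b⟩
      have a := this 0 (by omega)
      have b := this 1 (by omega)
      have c := this 2 (by omega)
      grind
    exact Conn.of (j, 0, o) (fun v => if v = (j, 0, o) then 0 else 1) ⟨mc (by omega), a⟩
      fun v hv ne => ⟨_, ⟨mc (by omega), a⟩, by simp [ne],
        Or.inl (mem_EE.2 ⟨mc (by omega), hv.1, ne.symm, Or.inl ⟨hj, rfl⟩⟩)⟩
  · refine .head ⟨(bc' s1).congr lab_map, bc' s1, rc fun v hv => (lab_map v hv).symm⟩
      (.tail ?_ ⟨bc' s0, (bc' s0).congr lab_map, rc lab_map⟩)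
    suffices ∀ z, Cn Vs Cs MX.start z → Relation.ReflTransGen (fun f g => BB Vs (KK Vs Cs) f ∧
        BB Vs (KK Vs Cs) g ∧ Rec (LL Vs (KK Vs Cs).length) 6 f g) (can fun _ => MX.start)
        (can fun _ => z) from this _ (q1 q)
    intro z this
    induction this with
    | refl => exact .refl
    | tail _ h ih =>
      exact (ih.tail ⟨bc' h.1, bc h, rec_can (s := 1) (by omega) (by simp)⟩).tail
        ⟨bc h, bc' h.2.1, rec_can (s := 0) (by omega) (by simp)⟩
  · have : ∀ g, Relation.ReflTransGen (fun f g => BB Vs (KK Vs Cs) f ∧ BB Vs (KK Vs Cs) g ∧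
        Rec (LL Vs (KK Vs Cs).length) 6 f g) (can fun _ => MX.start) g → Cn Vs Cs MX.start (dc g 0) := by
      intro g h
      induction h with
      | refl => exact .single ⟨s1, (sat_iff.1 (struc w nd (bc' s1)).1).1, o, fun y _ _ => by
          simp only [dc, can]; cases MX.start y <;> simp⟩
      | tail _ h ih =>
        have a := sat_iff.1 (struc w nd h.1).1
        have b := sat_iff.1 (struc w nd h.2.1).1
        obtain ⟨s, hs, e⟩ := rec_dc w nd h.1 h.2.1 h.2.2
        interval_cases s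
        · exact ih.tail ⟨a.1, b.1, o, fun y hy _ => e y hy⟩
        · exact ((ih.tail a).tail ⟨a.2.1, b.2.1, o, fun y hy _ => e y hy⟩).trans
            (Cn.symm (.single b))
    have := this _ (.head ⟨bc' s1, (bc' s1).congr lab_map, rc lab_map⟩
      (H.tail ⟨(bc' s0).congr lab_map, bc' s0, rc fun v hv => (lab_map v hv).symm⟩))
    rw [show dc (can fun _ _ => false) 0 = fun _ => false from funext fun y => by simp [dc, can]]
      at this
    simpa using q2 q this

end Pool.Agent.H22.BR
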