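import Pool.Agent.H22.BK1
import Pool.Agent.H22.BR3

/-! Balanced recombination on 3-connected graphs is PSPACE-hard for every `k ≥ 6`. -/

namespace Pool.Agent.H22.BR.K

open Pool.Agent.H38.NP Pool.Agent.H36.PSpace Pool.Agent.H22.QB Pool.Agent.H22.MX Function

variable {d : ℕ} {Vs : List T3} {KS : List (List Vt)} {f g : Vt → ℕ} {σ σ' : ℕ → T3 → Bool}

def can (σ : ℕ → T3 → Bool) (v : Vt) : ℕ :=
  if v.1 = 0 then 3 + v.2.2.1 else if v.1 < 6 then v.1 - 3 else if v.1 < 8 then v.1 - 5 else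
    if v.1 < 10 then (if σ (v.1 - 8) v.2.2 = decide (v.2.1 = 1) then 0 else v.1 - 7) else 0

theorem mc {m i} (hi : i < 3) : (3 + i, 0, o) ∈ LL d Vs m := by
  interval_cases i <;> simp [mem_LL, mem_Re, wA, wB]

theorem bcp_can (w : WF Vs KS) (hs : Sat KS σ) : BB d Vs KS (can σ) := by
  refine ⟨fun v hv => ?_, fun i hi => ⟨?_, ?_⟩⟩
  · have := (mem_LL.1 hv).imp mem_Dm.1 fun h => (rf h).1
    simp only [can]
    split_ifs <;> omega
  · by_cases i3 : 3 ≤ i
    · have m : (0, 0, i - 3, 0, 0) ∈ LL d Vs KS.length := mem_LL.2 (Or.inl (mD (by omega)))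
      exact Conn.of (0, 0, i - 3, 0, 0) (fun v => if v = (0, 0, i - 3, 0, 0) then 0 else 1)
        ⟨m, by simp [can, i3]⟩ fun v hv ne => ⟨_, ⟨m, by simp [can, i3]⟩, by simp [ne],
          Or.inl (mem_EE.2 ⟨m, hv.1, ne.symm, Or.inl ⟨by simp, rfl⟩⟩)⟩
    have hi : i < 3 := by omega
    have ci : can σ (3 + i, 0, o) = i := by simp only [can]; grind
    refine Conn.of (3 + i, 0, o) (fun v => if v.1 = 6 ∨ v.1 = 7 then (if v.2.1 = 0 then 2 else 3)
      else if v.1 = 10 then 2 else if v.1 < 6 ∧ v.2.1 = 0 then 0 else 1) ⟨mc hi, ci⟩ ?_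
    rintro ⟨k, t, x⟩ ⟨hv, e⟩ ne
    have h : (3 ≤ k ∧ k < 6 ∧ x = o) ∨ ((k = 6 ∨ k = 7) ∧ x ∈ Vs) ∨ (k = 8 ∨ k = 9) ∨
        (k = 10 ∧ t < KS.length ∧ x = o) := by
      simp only [mem_LL, mem_Dm, mem_Re, can] at hv e; grind
    rcases h with ⟨h, h', rfl⟩ | ⟨h, hx⟩ | h | ⟨rfl, h, rfl⟩
    · obtain rfl : k = 3 + i := by simp only [can] at e; grind
      exact ⟨_, ⟨mc hi, ci⟩, by grind,
        Or.inl (mem_EE.2 ⟨mc hi, hv, ne.symm, Or.inr (Or.inl ⟨by omega, rfl, rfl, rfl⟩)⟩)⟩
    · by_cases e' : t = 0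
      · have m : (k + 2, (!σ (k - 6) x).toNat, x) ∈ LL d Vs KS.length := by
          have := (!σ (k - 6) x).toNat_le
          simp only [mem_LL, mem_Re]; grind
        refine ⟨_, ⟨m, ?_⟩, by grind, Or.inl (mem_EE.2 ⟨m, hv, by simp,
          Or.inr (Or.inr (Or.inl ⟨by omega, Or.inr (Or.inr (by simp [e']))⟩))⟩)⟩
        rcases h with rfl | rfl <;> simp only [can] at e ⊢ <;> cases σ _ x <;> simpa using e
      · have m : (k, 0, x) ∈ LL d Vs KS.length := by simp only [mem_LL, mem_Re, ww]; grind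
        exact ⟨_, ⟨m, by simp only [can] at e ⊢; grind⟩, by grind, Or.inl (mem_EE.2 ⟨m, hv,
          by simp [Ne.symm e'], Or.inr (Or.inl ⟨by omega, rfl, rfl, rfl⟩)⟩)⟩
    · exact ⟨_, ⟨mc hi, ci⟩, by grind, Or.inr (mem_EE.2 ⟨hv, mc hi, ne,
        Or.inr (Or.inr (Or.inl ⟨h, by simp only [can] at e; grind⟩))⟩)⟩
    · obtain ⟨u, hu, a⟩ := hs _ (List.getElem_mem h)
      have b := w _ (List.getElem_mem h) u hu
      have m : u ∈ LL d Vs KS.length := by simp only [mem_LL, mem_Re]; grind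
      exact ⟨u, ⟨m, by simp only [can] at e ⊢; grind⟩, by grind, Or.inr (mem_EE.2 ⟨hv, m,
        by grind, Or.inr (Or.inr (Or.inr ⟨rfl, by rwa [List.getD_eq_getElem _ _ h]⟩))⟩)⟩
  · have h6 : ∀ k, k = 6 ∨ k = 7 → ct Vs (can σ) k 0 i = if k - 5 = i then Vs.length else 0 := by
      rintro k (rfl | rfl) <;> split_ifs with e <;> simp [ct, can, e]
    have h8 : ∀ s < 2, ct Vs (can σ) (8 + s) 0 i + ct Vs (can σ) (8 + s) 1 i =
        if i = 0 ∨ i = 1 + s then Vs.length else 0 := fun s hs => by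
      split_ifs with e
      · exact (cnt2 Vs (fun _ => True) _ _).2 fun x _ => by
          simp only [can]; cases σ (8 + s - 8) x <;> grind
      · rw [ct, ct, List.countP_eq_zero.2, List.countP_eq_zero.2] <;> intro x _ <;>
          simp only [can] <;> grind
    have hD : ∀ d N, ((List.range d).flatMap fun j => star 0 N (j, 0, 0)).countP
        (fun v => can σ v = i) = if 3 ≤ i ∧ i < d + 3 then N else 0 := fun d N => by
      induction d with
      | zero => simp
      | succ d ih =>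
        rw [List.range_succ, List.flatMap_append, List.countP_append, ih, List.flatMap_singleton,
          c_star (by simp [can])]
        simp only [can]
        grind
    have a := h8 0 (by omega)
    have b := h8 1 (by omega)
    have : (LL d Vs KS.length).countP (fun v => can σ v = i) = NN Vs.length KS.length := by
      rw [LL, Dm, List.countP_append, hD, c_Re (fun ⟨_, _, _⟩ h h' => by
        have := (rf h).1; simp only [can]; grind), c_star (by simp [can]), h6 6 (by simp),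
        h6 7 (by simp)]
      by_cases i3 : 3 ≤ i
      · simp only [can, Nat.add_zero, Nat.reduceAdd] at a b ⊢
        grind
      · have : i < 3 := by omega
        interval_cases i <;> simp [can, NN, wA, wB, uu] at a b ⊢ <;> omega
    rw [this, len_LL]
    omega

theorem rec_can {m s} (hs : s < 2) (h : ∀ x ∈ Vs, σ (1 - s) x = σ' (1 - s) x) :
    Rec (LL d Vs m) (d + 3) (can σ) (can σ') := by
  refine ⟨Equiv.refl _, fun _ h => h, 0, by omega, 1 + s, by omega, fun ⟨k, t, x⟩ hv => ?_⟩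
  have : k = 8 ∨ k = 9 → x ∈ Vs := by simp only [mem_LL, mem_Dm, mem_Re] at hv; grind
  have := h x
  simp only [can, Equiv.refl_apply]
  by_cases e : k = 9 - s
  · rw [show k - 8 = 1 - s by omega]
    grind
  · grind

theorem rec_dc (w : WF Vs KS) (nd : Vs.Nodup) (hf : BB d Vs KS f) (hg : BB d Vs KS g)
    (h : Rec (LL d Vs KS.length) (d + 3) f g) : ∃ s < 2, ∀ x ∈ Vs, dc f s x = dc g s x := by
  obtain ⟨π, -, i, -, j, -, h⟩ := h
  obtain ⟨-, a1, a2, a3, a⟩ := struc w nd hf
  obtain ⟨-, b1, b2, b3, b⟩ := struc w nd hg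
  have key : ∀ k < 3, f (3 + k, 0, o) ≠ i → f (3 + k, 0, o) ≠ j → ∀ s < 2, ∀ x ∈ Vs,
      f (8 + s, 1, x) = f (3 + k, 0, o) ↔ g (8 + s, 1, x) = g (3 + k, 0, o) :=
    fun k hk c d s hs x hx => by
    have l := hf.1 _ (mc hk)
    rw [((h _ (mc hk)).2 _ l c d).1 rfl]
    exact (h _ (by simp only [mem_LL, mem_Re]; grind)).2 _ l c d
  by_cases e : f (3, 0, o) ≠ i ∧ f (3, 0, o) ≠ j
  · exact ⟨0, by omega, fun x hx => by
      simp only [dc, key 0 (by omega) e.1 e.2 0 (by omega) x hx]⟩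
  obtain ⟨s, hs, c, d⟩ : ∃ s < 2, f (3 + (1 + s), 0, o) ≠ i ∧ f (3 + (1 + s), 0, o) ≠ j := by
    by_cases e : f (4, 0, o) ≠ i ∧ f (4, 0, o) ≠ j
    exacts [⟨0, by omega, e⟩, ⟨1, by omega, by grind⟩]
  refine ⟨s, hs, fun x hx => ?_⟩
  have := key _ (by omega) c d s hs x hx
  have := a s hs x hx
  have := b s hs x hx
  simp only [dc]
  interval_cases s <;> grind

def out (d : ℕ) (I : List T3 × List Cz) : Inp :=
  (LL d I.1 (KK I.1 I.2).length, EE d I.1 (KK I.1 I.2), 0,
    (LL d I.1 (KK I.1 I.2).length).map fun v => (v, can (fun _ => MX.start) v),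
    (LL d I.1 (KK I.1 I.2).length).map fun v => (v, can (fun _ _ => false) v))

theorem pt_out : PT (out d) := by
  have a : PT fun I : List T3 × List Cz => KK I.1 I.2 := by unfold KK; fun_prop
  have b : PT fun I : List T3 × ℕ => LL d I.1 I.2 := by
    unfold LL Dm Re grp star NN wA wB uu ww; fun_prop
  have c : PT fun I : List T3 × List Cz => LL d I.1 (KK I.1 I.2).length :=
    b.comp (g := fun I : List T3 × List Cz => (I.1, (KK I.1 I.2).length)) (by fun_prop)
  have a' : PT fun p : List (List Vt) × Vt × Vt => decide (ad p.1 p.2.1 p.2.2) := by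
    unfold ad; fun_prop
  have e : PT (can fun _ => MX.start) := by unfold can MX.start; fun_prop
  have e' : PT (can fun _ _ => false) := by unfold can; fun_prop
  unfold out EE
  exact PT.mk c (PT.mk (PT.filter (a'.comp (g := fun p : (List T3 × List Cz) × Vt × Vt =>
    (KK p.1.1 p.1.2, p.2)) (by fun_prop)) (PT.product c c)) (PT.mk (PT.const _)
      (PT.mk (PT.map (by fun_prop) c) (PT.map (by fun_prop) c))))

theorem br_psh (hd : 3 ≤ d) : PSH (Three (d + 3)) (BR (d + 3)) := by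
  refine tq_psh.reduce _ ((pt_out (d := d)).comp pt_fm) fun ⟨n, φ⟩ hφ => ?_
  have nd : (VV (2 * n) φ).Nodup :=
    List.nodup_range.product (List.nodup_range.product List.nodup_range)
  have w := wf_KK (Cs := CC (2 * n) φ) (by simp [mem_VV, bnd]) (wfV hφ)
  have q1 := fun q => complete hφ q (sol_start (n := 2 * n) (φ := φ))
  have q2 := fun q => sound (s := fun _ => false) hφ q
  have s1 : Sol (CC (2 * n) φ) MX.start := sol_start
  simp only [out, TQ, qa_vq, Three, BR, MX.Good] at q1 ⊢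
  generalize VV (2 * n) φ = Vs at *
  generalize CC (2 * n) φ = Cs at *
  have s0 : Sol Cs fun _ => false := ⟨rfl, fun _ _ h => by simp at h⟩
  have bc : ∀ {a c}, St Vs Cs a c → BB d Vs (KK Vs Cs) (can fun s => if s = 0 then a else c) :=
    fun h => bcp_can w (sat_iff.2 h)
  have rf : ∀ {a}, Sol Cs a → St Vs Cs a a := fun h => ⟨h, h, o, fun _ _ _ => rfl⟩
  have bc' : ∀ {a}, Sol Cs a → BB d Vs (KK Vs Cs) (can fun _ => a) :=
    fun h => bcp_can w (sat_iff.2 (rf h))
  have rc : ∀ {f g}, (∀ v ∈ LL d Vs (KK Vs Cs).length, f v = g v) →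
      Rec (LL d Vs (KK Vs Cs).length) (d + 3) f g := fun h =>
    ⟨Equiv.refl _, fun _ h => h, 0, by omega, 0, by omega, fun v hv => by simp [h v hv]⟩
  refine ⟨⟨nd_LL nd, fun e he => ⟨(mem_EE.1 he).1, (mem_EE.1 he).2.1, (mem_EE.1 he).2.2.1⟩,
    by rw [len_LL, NN]; nlinarith, fun x y => ?_, trivial, (bc' s1).congr lab_map,
    (bc' s0).congr lab_map⟩, fun q => ?_, fun H => by_contra fun q => ?_⟩
  · obtain ⟨j, hj, a⟩ : ∃ j < 3, (0, 0, j, 0, 0) ≠ x ∧ (0, 0, j, 0, 0) ≠ y := by
      by_contra H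
      have := fun j a b => H ⟨j, a, b⟩
      have a := this 0 (by omega)
      have b := this 1 (by omega)
      have c := this 2 (by omega)
      grind
    have m : (0, 0, j, 0, 0) ∈ LL d Vs (KK Vs Cs).length := mem_LL.2 (Or.inl (mD (by omega)))
    exact Conn.of (0, 0, j, 0, 0) (fun v => if v = (0, 0, j, 0, 0) then 0 else 1) ⟨m, a⟩
      fun v hv ne => ⟨_, ⟨m, a⟩, by simp [ne],
        Or.inl (mem_EE.2 ⟨m, hv.1, ne.symm, Or.inl ⟨by simp, rfl⟩⟩)⟩
  · refine .head ⟨(bc' s1).congr lab_map, bc' s1, rc fun v hv => (lab_map v hv).symm⟩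
      (.tail ?_ ⟨bc' s0, (bc' s0).congr lab_map, rc lab_map⟩)
    suffices ∀ z, Cn Vs Cs MX.start z → Relation.ReflTransGen (fun f g => BB d Vs (KK Vs Cs) f ∧
        BB d Vs (KK Vs Cs) g ∧ Rec (LL d Vs (KK Vs Cs).length) (d + 3) f g) (can fun _ => MX.start)
        (can fun _ => z) from this _ (q1 q)
    intro z this
    induction this with
    | refl => exact .refl
    | tail _ h ih =>
      exact (ih.tail ⟨bc' h.1, bc h, rec_can (s := 1) (by omega) (by simp)⟩).tail
        ⟨bc h, bc' h.2.1, rec_can (s := 0) (by omega) (by simp)⟩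
  · have : ∀ g, Relation.ReflTransGen (fun f g => BB d Vs (KK Vs Cs) f ∧ BB d Vs (KK Vs Cs) g ∧
        Rec (LL d Vs (KK Vs Cs).length) (d + 3) f g) (can fun _ => MX.start) g →
        Cn Vs Cs MX.start (dc g 0) := by
      intro g h
      induction h with
      | refl => exact .single ⟨s1, (sat_iff.1 (struc w nd (bc' s1)).1).1, o, fun y _ _ => by
          simp only [dc, can]; cases MX.start y <;> simp⟩
      | tail _ h ih =>
        have a := sat_iff.1 (struc w nd h.1).1
        have b := sat_iff.1 (struc w nd h.2.1).1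
        obtain ⟨s, hs, e⟩ := rec_dc w nd h.1 h.2.1 h.2.2
        interval_cases s
        · exact ih.tail ⟨a.1, b.1, o, fun y hy _ => e y hy⟩
        · exact ((ih.tail a).tail ⟨a.2.1, b.2.1, o, fun y hy _ => e y hy⟩).trans
            (Cn.symm (.single b))
    have := this _ (.head ⟨bc' s1, (bc' s1).congr lab_map, rc lab_map⟩
      (H.tail ⟨(bc' s0).congr lab_map, bc' s0, rc fun v hv => (lab_map v hv).symm⟩))
    rw [show dc (can fun _ _ => false) 0 = fun _ => false from funext fun y => by simp [dc, can]]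
      at this
    simpa using q2 q this

end Pool.Agent.H22.BR.K
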