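import Pool.Agent.H22.MX2

/-! Completeness of the formula: for a true sentence all solutions are joined to zero. -/

namespace Pool.Agent.H22.MX

open Pool.Agent.H38.NP Pool.Agent.H36.PSpace Pool.Agent.H22.QB Function Classical

def tc (x : T3) : Prop := x.2.2 = 0 ∨ ((x.1 = 5 ∨ x.1 = 7) ∧ x.2.2 = 1)

def inL (k : ℕ) (x : T3) : Prop := 13 ≤ x.1 ∨ (tc x ∧ (((x.1 = 5 ∨ x.1 = 6) ∧ x.2.1 ≤ k) ∨
  ((x.1 = 4 ∨ (7 ≤ x.1 ∧ x.1 ≤ 12)) ∧ x.2.1 < k)))

def atL (k : ℕ) (x : T3) : Prop := tc x ∧ (((x.1 = 5 ∨ x.1 = 6) ∧ x.2.1 = k + 1) ∨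
  ((x.1 = 4 ∨ (7 ≤ x.1 ∧ x.1 ≤ 12)) ∧ x.2.1 = k))

def Loc.get (r : Loc) (i p : ℕ) : Bool :=
  if i = 4 then r.t else if i = 5 then (if p = 0 then r.p else r.q) else if i = 6 then r.E
  else if i = 7 then (if p = 0 then r.b else r.a) else if i = 8 then r.u else if i = 9 then r.v
  else if i = 10 then r.h else if i = 11 then r.y else r.e

noncomputable def cl (k : ℕ) (s : T3 → Bool) (x : T3) : Bool :=
  if inL k x then decide (x.1 = 8) else s x

noncomputable def lv (k : ℕ) (r : Loc) (s : T3 → Bool) (x : T3) : Bool :=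
  if atL k x then r.get x.1 x.2.2 else s x

def Loc.le (r r' : Loc) : Prop := (r.t → r'.t) ∧ (r.a → r'.a) ∧ (r.b → r'.b) ∧ (r.u → r'.u) ∧
  (r.v → r'.v) ∧ (r.h → r'.h) ∧ (r.y → r'.y) ∧ (r.e → r'.e) ∧ (r.p → r'.p) ∧ (r.q → r'.q) ∧
  (r.E → r'.E)

def Quiet (n k : ℕ) (s : T3 → Bool) : Prop := s (3, 0, 0) = false ∧ ∀ j, k ≤ j → j < n →
  s (11, j, 0) = false ∧ s (12, j, 0) = false ∧ s (5, j + 1, 0) = false ∧
    s (5, j + 1, 1) = false ∧ s (6, j + 1, 0) = false

def Pre (n : ℕ) (φ : CNF ℕ) (k : ℕ) (s : T3 → Bool) : Prop :=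
  Sol (CC n φ) s ∧ s (1, 0, 0) = true ∧ s (4, k, 0) = true ∧ Quiet n k s

def Good (n : ℕ) (φ : CNF ℕ) (s : T3 → Bool) : Prop := Cn (VV n φ) (CC n φ) s fun _ => false

variable {n : ℕ} {φ : CNF ℕ} {s s' : T3 → Bool} {k : ℕ} {r r' : Loc}

theorem lv_loc : lv k (loc k s) s = s := by
  funext ⟨a, b, c⟩
  simp only [lv, atL, tc, Loc.get, loc]
  grind

theorem loc_lv : loc k (lv k r s) = r := by
  simp [lv, atL, tc, Loc.get, loc]

theorem lv_lv : lv k r (lv k r' s) = lv k r s := by
  funext x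
  simp only [lv]
  grind

theorem lv_le (h : r.le r') (x : T3) : lv k r s x = true → lv k r' s x = true := by
  simp only [lv, Loc.get, Loc.le] at h ⊢
  grind

theorem cl_lv : cl k (lv k r s) = lv k r (cl (k + 1) s) := by
  funext ⟨a, b, c⟩
  simp only [lv, cl, inL, atL, tc]
  grind

theorem cl_lv' : cl (k + 1) (lv k r s) = cl (k + 1) s := by
  funext ⟨a, b, c⟩
  simp only [lv, cl, inL, atL, tc]
  grind

theorem cl_cl : cl (k + 1) (cl k s) = cl (k + 1) s := by
  funext ⟨a, b, c⟩
  simp only [cl, inL, tc]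
  grind

theorem loc_cl : loc k (cl k s) = loc k s := by
  simp [cl, inL, tc, loc]

def q0 (y : Bool) : Loc := ⟨false, false, false, !y, y, y, false, false, false, false, false⟩
def qq (x y : Bool) : Loc := ⟨true, x, !x, !y, y, y, false, false, false, false, false⟩

theorem lv_q0 : lv k (q0 false) (cl (k + 1) s) = cl (k + 1) s := by
  funext ⟨a, b, c⟩
  simp only [lv, cl, inL, atL, tc, Loc.get, q0, ite_self]
  grind (splits := 30)

theorem cl_idem : cl k (cl k s) = cl k s := by
  funext x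
  simp only [cl]
  grind

theorem LOK.mono {o T t A B E T' t' A' B' E' : Bool} (h : LOK r o T t A B E) (h1 : T' → T)
    (h2 : t → t') (h3 : (r.y = false ∧ r.e = false ∧ r.p = false ∧ r.q = false ∧ r.E = false) ∨
      ((A → A') ∧ (B → B') ∧ (E → E'))) : LOK r o T' t' A' B' E' := by
  unfold LOK at h ⊢
  cases o <;> grind

theorem sol_lv (h : Sol (CC n φ) s) (hq : Quiet n (k + 1) s) (hk : k < n)
    (hr : LOK r (od k) (s (1, 0, 0)) (s (4, k + 1, 0)) (s (5, k, k % 2)) (s (5, k, 1 - k % 2))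
      (s (6, k, 0)))
    (m : (s (4, k, 0) → r.t) ∧ (s (7, k, 1) → r.a) ∧ (s (7, k, 0) → r.b)) :
    Sol (CC n φ) (lv k r s) := by
  obtain ⟨g, hm, hl⟩ := sol_iff.1 h
  have h7 : ∀ j (b : Bool), s (7, j, b.toNat) = true → lv k r s (7, j, b.toNat) = true := by
    intro j b
    cases b <;> simp only [lv, atL, tc, Loc.get, Bool.toNat_false, Bool.toNat_true] <;> grind
  refine sol_iff.2 ⟨?_, fun j hj => ?_, fun j hj => ?_⟩
  · have := hq.1
    simp only [GlOK, lv, atL, tc, Loc.get] at g ⊢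
    grind
  · obtain ⟨m1, m2, m3, m4⟩ := hm j hj
    refine ⟨by simpa [lv, atL] using m1, by simpa [lv, atL] using m2, by simpa [lv, atL] using m3,
      fun i hi => ⟨fun e => ((m4 i hi).1 (by simpa [lv, atL] using e)).imp
        (by simp [lv, atL]) (h7 _ _), fun e => h7 _ _ ((m4 i hi).2 (by simpa [lv, atL] using e))⟩⟩
  · by_cases e : j = k
    · subst e
      rw [LvOK, loc_lv]
      simpa [lv, atL] using hr
    · rw [LvOK, show loc j (lv k r s) = loc j s by simp [loc, lv, atL, e]]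
      refine LOK.mono (hl j hj) (by simp [lv, atL]) (by simp only [lv, atL, tc, Loc.get]; grind) ?_
      by_cases e' : j = k + 1
      · exact Or.inl (hq.2 j (by omega) hj)
      · exact Or.inr (by simp [lv, atL, e'])

theorem Pre.cl (h : Pre n φ k s) (hk : k ≤ n) : Pre n φ k (cl k s) := by
  obtain ⟨h, h1, h2, h3, h4⟩ := h
  obtain ⟨g, hm, hl⟩ := sol_iff.1 h
  refine ⟨sol_iff.2 ⟨?_, fun j hj => ?_, fun j hj => ?_⟩, by simpa [MX.cl, inL] using h1,
    by simpa [MX.cl, inL] using h2, by simpa [MX.cl, inL] using h3, fun j a b => ?_⟩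
  · simp only [GlOK, MX.cl, inL, tc] at g ⊢
    grind
  · simp [MatOK, MX.cl, inL, tc]
  · have h1 := hl j hj
    have h2 := h4 j
    simp only [LvOK, LOK, loc, MX.cl, inL, tc] at h1 ⊢
    cases od j <;> grind
  · have := h4 j a b
    simp only [MX.cl, inL, tc]
    grind

theorem Pre.of (h : Pre n φ k s) (h' : Sol (CC n φ) s') (e : MX.cl k s' = MX.cl k s) :
    Pre n φ k s' := by
  have : ∀ x, ¬ inL k x → s' x = s x := fun x hx => by simpa [MX.cl, hx] using congrFun e x
  obtain ⟨-, h1, h2, h3, h4⟩ := h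
  refine ⟨h', by rw [this _ (by simp [inL]), h1], by rw [this _ (by simp [inL]), h2],
    by rw [this _ (by simp [inL]), h3], fun j a b => ?_⟩
  rw [this, this, this, this, this]
  · exact h4 j a b
  all_goals simp only [inL, tc]; omega

theorem Pre.up (h : Pre n φ k s) (hk : k < n) : Pre n φ (k + 1) s :=
  ⟨h.1, h.2.1, ((sol_iff.1 h.1).2.2 k hk).2.1 h.2.2.1, h.2.2.2.1,
    fun j a b => h.2.2.2.2 j (by omega) b⟩

theorem Pre.lv (h : Pre n φ (k + 1) s) {x y} (h' : Sol (CC n φ) (lv k (qq x y) s)) :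
    Pre n φ k (lv k (qq x y) s) := by
  obtain ⟨-, h1, h2, h3, h4⟩ := h
  refine ⟨h', by simpa [MX.lv, atL] using h1, by simp [MX.lv, atL, tc, Loc.get, qq],
    by simpa [MX.lv, atL] using h3, fun j a b => ?_⟩
  have := h4 j
  simp only [MX.lv, atL, tc, Loc.get, qq]
  grind

variable (hφ : ∀ C ∈ φ, ∀ l ∈ C, l.1 < n)
include hφ

theorem gle (h : Sol (CC n φ) s) (h' : Sol (CC n φ) s') (h1 : ∀ x, s' x = true → s x = true)
    (h2 : s (1, 0, 0) = s' (1, 0, 0)) : Good n φ s ↔ Good n φ s' :=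
  ⟨(dn hφ h h' h1 h2).symm.trans, (dn hφ h h' h1 h2).trans⟩

theorem gll (h : Sol (CC n φ) (lv k r s)) (h' : Sol (CC n φ) (lv k r' s)) (h1 : r'.le r) :
    Good n φ (lv k r s) ↔ Good n φ (lv k r' s) :=
  gle hφ h h' (lv_le h1) (by simp [lv, atL])

theorem good_off (h : Sol (CC n φ) s) (h1 : s (1, 0, 0) = false) : Good n φ s :=
  dn hφ h (by simp [sol_iff, GlOK, MatOK, LvOK, LOK, loc]) (by simp) h1

theorem good_K (h : Sol (CC n φ) s) (h1 : s (3, 0, 0) = true) : Good n φ s := by
  have : Sol (CC n φ) (update s (1, 0, 0) false) := by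
    obtain ⟨g, hm, hl⟩ := sol_iff.1 h
    refine sol_iff.2 ⟨?_, fun j hj => by simpa [MatOK] using hm j hj, fun j hj => ?_⟩
    · simp [GlOK] at g ⊢
      grind
    · rw [LvOK, show loc j (update s (1, 0, 0) false) = loc j s by simp [loc]]
      exact LOK.mono (hl j hj) (by simp) (by simp) (by simp)
  exact (Cn.upd h this).trans (good_off hφ this (by simp))

theorem good_E (h : Sol (CC n φ) s) (hk : k ≤ n)
    (h1 : s (6, k, 0) = true ∨ s (5, n, 1) = true ∧ n < k + 1) :
    Good n φ s := by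
  let s' : T3 → Bool := fun x => s x || decide (x = (3, 0, 0) ∨ (x.1 = 6 ∧ k < x.2.1))
  have : Sol (CC n φ) s' := by
    obtain ⟨g, hm, hl⟩ := sol_iff.1 h
    refine sol_iff.2 ⟨?_, fun j hj => by simpa [MatOK, s'] using hm j hj, fun j hj => ?_⟩
    · simp only [GlOK, s'] at g ⊢
      grind
    · have := hl j hj
      simp [LvOK, LOK, loc, s'] at this ⊢
      grind
  exact (gle hφ this h (by simp only [s']; grind) (by simp [s'])).1 (good_K hφ this (by simp [s']))

noncomputable def sg (n : ℕ) (φ : CNF ℕ) (k : ℕ) (s : T3 → Bool) : ℕ :=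
  if VQ φ k (al n s) then 1 else 0

def W (n : ℕ) (φ : CNF ℕ) (k : ℕ) : Prop := ∀ s, Pre n φ k s → (Good n φ (cl k s) → Good n φ s) ∧
  ∃ s', Sol (CC n φ) s' ∧ cl k s' = cl k s ∧ s' (5, k, sg n φ k s) = true ∧
    (Good n φ s' → Good n φ s)

theorem w0 : W n φ 0 := by
  intro s h
  refine ⟨(gle hφ h.1 (h.cl (by omega)).1 (fun x => ?_) (by simp [cl, inL])).2, ?_⟩
  · simp only [cl, inL]
    grind
  let R := fun j i (b : Bool) => s (7, (lit φ j i).1, (xor b (lit φ j i).2).toNat) = true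
  let F := fun j => ∀ i < (φ.getD j []).length, R j i true
  let s' : T3 → Bool := fun x => s x || decide ((x.1 = 13 ∧ ∃ i < x.2.2, R x.2.1 i false) ∨
    (x.1 = 14 ∧ F x.2.1) ∨ (x.1 = 15 ∧ ∃ j < x.2.1, F j) ∨ x = (5, 0, sg n φ 0 s))
  have lt : ∀ j < φ.length, ∀ i < (φ.getD j []).length, (lit φ j i).1 < n := fun j hj i hi =>
    hφ _ (List.getElem_mem hj) _ (lit_mem hj hi)
  have key : if sg n φ 0 s = 1 then ∀ j < φ.length, ∃ i < (φ.getD j []).length, R j i false
      else sg n φ 0 s = 0 ∧ ∃ j < φ.length, F j := by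
    have : VQ φ 0 (al n s) ↔ _ := md_iff
    unfold sg
    by_cases e : VQ φ 0 (al n s)
    · simp only [e, if_true]
      intro j hj
      obtain ⟨i, hi, h1⟩ := this.1 e j hj
      exact ⟨i, hi, (rail h.1 h.2.2.1 (lt j hj i hi) _).2 (by simpa using h1)⟩
    · simp only [e, if_false, zero_ne_one, true_and]
      rw [this] at e
      push Not at e
      obtain ⟨j, hj, e⟩ := e
      exact ⟨j, hj, fun i hi => (rail h.1 h.2.2.1 (lt j hj i hi) _).2 (by have := e i hi; grind)⟩
  obtain ⟨g, hm, hl⟩ := sol_iff.1 h.1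
  have t0 := h.2.2.1
  have : Sol (CC n φ) s' := by
    refine sol_iff.2 ⟨?_, fun j hj => ?_, fun j hj => ?_⟩
    · simp only [GlOK, s'] at g ⊢
      grind
    · obtain ⟨m1, m2, m3, m4⟩ := hm j hj
      refine ⟨?_, ?_, ?_, fun i hi => ?_⟩
      · simp only [s']
        grind
      · have : (∃ i < j + 1, F i) → (∃ i < j, F i) ∨ F j := fun ⟨i, hi, h⟩ =>
          (Nat.lt_succ_iff_lt_or_eq.1 hi).imp (fun h' => ⟨i, h', h⟩) fun e : i = j => e ▸ h
        simp only [s', Bool.or_eq_true, decide_eq_true_eq, Prod.mk.injEq, Nat.reduceEqDiff,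
          false_and, true_and, false_or, or_false]
        exact fun e => e.elim (fun e => (m2 e).imp .inl .inl) fun e => (this e).imp .inr .inr
      · simp [s', m3]
      · have := m4 i hi
        simp only [s', R, F, Bool.false_xor, Bool.true_xor]
        grind
    · rw [LvOK, show loc j s' = loc j s by simp [loc, s']]
      exact LOK.mono (hl j hj) (by simp [s']) (by simp [s']) (Or.inr (by simp only [s']; grind))
  refine ⟨s', this, ?_, by simp [s'], (gle hφ this h.1 (by simp only [s']; grind) (by simp [s'])).1⟩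
  funext ⟨a, b, c⟩
  have : sg n φ 0 s ≤ 1 := by unfold sg; split_ifs <;> simp
  simp only [cl, inL, tc, s']
  split_ifs with e
  · rfl
  · rw [decide_eq_false, Bool.or_false]
    simp only [Prod.mk.injEq, not_or, not_and']
    refine ⟨fun _ => ?_, fun _ => ?_, fun _ => ?_, fun _ => ?_⟩ <;> omega

omit hφ in
theorem al_lv (hk : k < n) : al n (lv k r s) = update (al n s) k r.a := by
  funext j
  by_cases e : j = k <;> simp [al, lv, atL, tc, Loc.get, e, hk]

theorem latch (h : Pre n φ (k + 1) s) (hk : k < n) (h1 : s (5, k, k % 2) = true) {y}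
    (h2 : loc k s = qq false y) :
    Sol (CC n φ) (lv k (qq false !y) s) ∧ (Good n φ (lv k (qq false !y) s) → Good n φ s) := by
  have a : s (4, k, 0) = true ∧ s (7, k, 1) = false ∧ s (7, k, 0) = true := by
    simp only [loc, qq, Loc.mk.injEq] at h2
    simp [h2]
  have S : ∀ u v h y : Bool, (u → v = false) → (u ∨ h) → (h → v ∨ y) → Sol (CC n φ)
      (lv k ⟨true, false, true, u, v, h, y, false, false, false, false⟩ s) := fun u v h' y _ _ _ =>
    sol_lv h.1 h.2.2.2 hk (by cases od k <;> simp [LOK, h.2.2.1, h1] <;> grind) (by simp [a])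
  have e1 := gll hφ (S false true true true (by simp) (by simp) (by simp))
    (S false true true false (by simp) (by simp) (by simp)) (by simp [Loc.le])
  have e2 := gll hφ (S false true true true (by simp) (by simp) (by simp))
    (S false false true true (by simp) (by simp) (by simp)) (by simp [Loc.le])
  have e3 := gll hφ (S true false true true (by simp) (by simp) (by simp))
    (S false false true true (by simp) (by simp) (by simp)) (by simp [Loc.le])
  have e4 := gll hφ (S true false true true (by simp) (by simp) (by simp))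
    (S true false false false (by simp) (by simp) (by simp)) (by simp [Loc.le])
  have e5 : s = lv k (qq false y) s := by rw [← h2, lv_loc]
  cases y
  · exact ⟨S false true true false (by simp) (by simp) (by simp),
      fun h => e5 ▸ e4.1 (e3.2 (e2.1 (e1.2 h)))⟩
  · exact ⟨S true false false false (by simp) (by simp) (by simp),
      fun h => e5 ▸ e1.1 (e2.2 (e3.1 (e4.2 h)))⟩

theorem wstep (hk : k < n) (w : W n φ k) : W n φ (k + 1) := by
  intro s h
  have ho := h.cl hk
  set o := cl (k + 1) s with hoe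
  have oo : cl (k + 1) o = o := cl_idem
  have z : o (4, k, 0) = false ∧ o (7, k, 1) = false ∧ o (7, k, 0) = false ∧
      o (5, k, k % 2) = false ∧ o (5, k, 1 - k % 2) = false := by
    simp only [hoe, cl, inL, tc]
    grind
  have sq : ∀ x y, Sol (CC n φ) (lv k (qq x y) o) := fun x y =>
    sol_lv ho.1 ho.2.2.2 hk (by cases od k <;> cases y <;> simp [LOK, ho.2.2.1, qq]) (by simp [z])
  have s0 : ∀ y, Sol (CC n φ) (lv k (q0 y) o) := fun y =>
    sol_lv ho.1 ho.2.2.2 hk (by cases od k <;> cases y <;> simp [LOK, ho.2.2.1, q0]) (by simp [z])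
  have g1 : ∀ x y, Good n φ (lv k (qq x y) o) ↔ Good n φ (lv k (q0 y) o) := fun x y =>
    gll hφ (sq x y) (s0 y) (by simp [Loc.le, qq, q0])
  have pq := fun x y => ho.lv (sq x y)
  have cq : ∀ r, cl k (lv k r o) = lv k r o := fun r => by rw [cl_lv, oo]
  have ev : ∀ x y, ∃ t, Pre n φ (k + 1) t ∧ cl (k + 1) t = o ∧ loc k t = qq x y ∧
      t (5, k, if VQ φ k (update (al n s) k x) then 1 else 0) = true ∧
      (Good n φ t → Good n φ (lv k (qq x y) o)) := fun x y => by
    obtain ⟨t, a, b, c, d⟩ := (w _ (pq x y)).2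
    refine ⟨t, ((pq x y).of a b).up hk, by rw [← cl_cl, b, cl_cl, cl_lv', oo],
      by rw [← loc_cl, b, loc_cl, loc_lv], ?_, d⟩
    have : VQ φ k (al n (lv k (qq x y) o)) ↔ VQ φ k (update (al n s) k x) := by
      rw [al_lv hk]
      refine vq_congr fun j hj => ?_
      by_cases e : j = k
      · simp [e, qq]
      · rw [update_of_ne e, update_of_ne e]
        simp only [al, hoe, cl, inL]
        grind
    simpa only [sg, this] using c
  have lt : ∀ y, (VQ φ k (update (al n s) k false) ↔ k % 2 = 1) →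
      Good n φ (lv k (qq false !y) o) → Good n φ (lv k (qq false y) o) := fun y e g => by
    obtain ⟨t, a, b, c, d, f⟩ := ev false y
    obtain ⟨l1, l2⟩ := latch hφ a hk (by convert d using 3; grind) c
    exact f (l2 ((w _ (a.lv l1)).1 (by rwa [cl_lv, b])))
  have raise : ∀ {t x y} (r : Loc), Pre n φ (k + 1) t → loc k t = qq x y → (qq x y).le r →
      LOK r (od k) true true (t (5, k, k % 2)) (t (5, k, 1 - k % 2)) (t (6, k, 0)) →
      Sol (CC n φ) (lv k r t) ∧ (Good n φ (lv k r t) → Good n φ t) := fun {t x y} r a c d e => by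
    have : Sol (CC n φ) (lv k r t) := sol_lv a.1 a.2.2.2 hk (by rwa [a.2.1, a.2.2.1]) (by
      rw [← c] at d
      exact ⟨d.1, d.2.1, d.2.2.1⟩)
    exact ⟨this, fun g => lv_loc (k := k) (s := t) ▸
      (gll hφ this (lv_loc.symm ▸ a.1) (c ▸ d)).1 g⟩
  have g2 : Good n φ o → ∀ x y, Good n φ (lv k (qq x y) o) := fun g x y => by
    have g : Good n φ (lv k (qq false false) o) := (g1 _ _).2 (by rwa [hoe, lv_q0])
    refine (g1 _ _).2 ((g1 false _).1 ?_)
    cases y
    · exact g
    by_cases e : VQ φ k (update (al n s) k false) ↔ k % 2 = 1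
    · exact lt true e g
    obtain ⟨t, a, b, c, d, f⟩ := ev false true
    have d : t (5, k, 1 - k % 2) = true := by convert d using 3; grind
    obtain ⟨l1, l2⟩ := raise { qq false true with e := true, E := true } a c
      (by simp [Loc.le, qq]) (by cases od k <;> simp [LOK, qq, d])
    exact f (l2 (good_E hφ l1 hk (Or.inl (by simp [lv, atL, tc, Loc.get]))))
  have g3 : Good n φ o → Good n φ s := fun g => by
    have h1 := (sol_iff.1 h.1).2.2 k hk
    have h2 := h.2.2.1
    have a1 : Sol (CC n φ) (lv k { loc k s with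
        t := true, b := !s (7, k, 1), u := !s (9, k, 0), h := s (10, k, 0) || s (9, k, 0) } s) :=
      sol_lv h.1 h.2.2.2 hk (by
        simp only [LvOK, LOK, loc] at h1 ⊢
        generalize od k = o at *
        cases o <;> simp at h1 ⊢ <;> grind) (by
        simp only [LvOK, LOK, loc] at h1 ⊢
        grind)
    have a2 : Sol (CC n φ) (lv k (qq (s (7, k, 1)) (s (9, k, 0))) s) :=
      sol_lv h.1 h.2.2.2 hk (by
        simp only [LvOK, LOK, loc, qq] at h1 ⊢
        cases od k <;> grind) (by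
        simp only [LvOK, LOK, loc, qq] at h1 ⊢
        grind)
    have a3 := (w _ (h.lv a2)).1 (by rw [cl_lv]; exact g2 g _ _)
    have a4 := (gll hφ a1 a2 (by simp only [Loc.le, loc, qq]; grind)).2 a3
    exact lv_loc (k := k) (s := s) ▸ (gll hφ a1 (lv_loc.symm ▸ h.1) (by
      simp only [LvOK, LOK, loc, Loc.le] at h1 ⊢
      grind)).1 a4
  refine ⟨g3, ?_⟩
  have va := @vq_and φ k (al n s)
  have g4 : ∀ x, Good n φ (lv k (qq x false) o) → Good n φ s := fun x g =>
    g3 (by rw [hoe, ← lv_q0]; exact (g1 _ _).1 g)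
  by_cases e : ∃ x, ¬ (VQ φ k (update (al n s) k x) ↔ k % 2 = 1)
  · obtain ⟨x, e⟩ := e
    obtain ⟨t, a, b, c, d, f⟩ := ev x false
    have d : t (5, k, 1 - k % 2) = true := by convert d using 3; grind
    obtain ⟨l1, l2⟩ := raise { qq x false with p := od k, q := !od k } a c
      (by simp [Loc.le, qq]) (by cases od k <;> simp [LOK, qq, d])
    refine ⟨_, l1, by rw [cl_lv', b], ?_, fun g => g4 x (f (l2 g))⟩
    simp only [lv, atL, tc, Loc.get, sg, od]
    cases x <;> grind
  · push Not at e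
    obtain ⟨t, a, b, c, d, f⟩ := ev true true
    have d : t (5, k, k % 2) = true := by convert d using 3; have := e true; grind
    obtain ⟨l1, l2⟩ := raise { qq true true with p := !od k, q := od k } a c
      (by simp [Loc.le, qq]) (by cases od k <;> simp [LOK, qq, d])
    refine ⟨_, l1, by rw [cl_lv', b], ?_, fun g => g4 false (lt false (e false)
      ((g1 _ _).2 ((g1 _ _).1 (f (l2 g)))))⟩
    have := va.2 ⟨e false, e true⟩
    simp only [lv, atL, tc, Loc.get, sg, od]
    grind

theorem complete (hq : VQ φ n fun _ => false) (h : Sol (CC n φ) s) : Good n φ s := by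
  have w : ∀ k ≤ n, W n φ k := fun k => by
    induction k with
    | zero => exact fun _ => w0 hφ
    | succ k ih => exact fun hk => wstep hφ hk (ih (by omega))
  cases h1 : s (1, 0, 0)
  · exact good_off hφ h h1
  cases h3 : s (3, 0, 0)
  swap
  · exact good_K hφ h h3
  have : Sol (CC n φ) (update s (4, n, 0) true) := by
    obtain ⟨g, hm, hl⟩ := sol_iff.1 h
    refine sol_iff.2 ⟨?_, fun j hj => by simpa [MatOK] using hm j hj, fun j hj => ?_⟩
    · simp [GlOK, update_apply] at g ⊢
      grind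
    · rw [LvOK, show loc j (update s (4, n, 0) true) = loc j s by simp [loc, hj.ne]]
      exact LOK.mono (hl j hj) (by simp) (by simp only [update_apply]; grind) (by simp)
  obtain ⟨t, a, -, c, d⟩ := (w n le_rfl _ ⟨this, by simpa using h1, by simp, by simpa using h3,
    fun j _ _ => by omega⟩).2
  refine (Cn.upd h this).trans (d (good_E hφ a le_rfl (Or.inr ⟨?_, by omega⟩)))
  rwa [sg, if_pos ((vq_congr fun j hj => by simp [al]; omega).1 hq)] at c

end Pool.Agent.H22.MX
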