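import Pool.Agent.H22.MX6
import Pool.Agent.H22.MX3

/-! The reduction from quantified formulas to colour mixing. -/

namespace Pool.Agent.H22.MX

open Pool.Agent.H38.NP Pool.Agent.H36.PSpace Pool.Agent.H22.QB Function

def grL (k : ℕ) (I : List T3 × List Cz) : ℕ × List (ℕ × ℕ) :=
  ((VL k I.1 I.2.length).length,
    tgE (VL k I.1 I.2.length) (fun v w => decide ((v, w) ∈ EL k I.1 I.2)) g0)

theorem pt_grL (k : ℕ) : PT (grL k) := by
  have h1 : PT fun I : List T3 × List Cz => VL k I.1 I.2.length := by unfold VL; fun_prop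
  have h2 : PT fun I : List T3 × List Cz => EL k I.1 I.2 := by
    have a1 : PT varE := by unfold varE; fun_prop
    have a2 : PT fun p : ℕ × Cz => clE p.1 p.2 := by unfold clE; fun_prop
    have a3 : PT fun p : (List T3 × List Cz) × ℕ =>
        ((VL k p.1.1 p.1.2.length).filter fun v => decide (v ≠ P p.2)).map fun v => (v, P p.2) :=
      PT.map (by fun_prop) (PT.filter (by fun_prop) (h1.comp (PT.fst PT.id')))
    unfold EL
    refine PT.append (PT.append (PT.append (PT.const _) (PT.flatMap (a1.comp (PT.snd PT.id'))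
      (by fun_prop))) (PT.flatMap (a2.comp (g := fun p : (List T3 × List Cz) × ℕ =>
        (p.2, p.1.2.getD p.2 dC)) (by fun_prop)) (by fun_prop))) (PT.flatMap a3 (PT.const _))
  unfold grL
  exact PT.mk (by fun_prop) (PT.tgE _ h1 (by fun_prop))

theorem pt_fm : PT fun I : ℕ × CNF ℕ => (VV (2 * I.1) I.2, CC (2 * I.1) I.2) := by
  have h1 : PT fun I : CNF ℕ × ℕ => matC I.1 I.2 := by unfold matC lit; fun_prop
  have h2 : PT levC := by unfold levC; fun_prop
  unfold VV bnd CC
  fun_prop

theorem wf {k n : ℕ} {φ : CNF ℕ} (hk : 4 ≤ k) (hφ : ∀ C ∈ φ, ∀ l ∈ C, l.1 < n) :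
    WF k (VV n φ) (CC n φ) := by
  refine ⟨hk, by simp [mem_VV, bnd], wfV hφ, ?_⟩
  simp only [all_CC, levC, List.forall_mem_cons]
  simp

theorem mix_psh {k : ℕ} (hk : 4 ≤ k) : PSH (fun _ => True) (ColourMixing k) := by
  refine tq_psh.reduce _ ((pt_grL k).comp pt_fm) fun ⟨n, φ⟩ hφ => ⟨trivial, ?_⟩
  have w := wf hk hφ
  have nd : (VV (2 * n) φ).Nodup :=
    List.nodup_range.product (List.nodup_range.product List.nodup_range)
  simp only [grL, TQ, qa_vq]
  rw [bridge (VL_nodup nd) w.hE (fun e he h => pt2 e he (congrArg pt h)) g0 (by simp)]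
  refine ⟨fun q c c' h h' => ?_, fun H => by_contra fun q => ?_⟩
  · exact (yes w (fun _ => complete hφ q) h).trans (yes w (fun _ => complete hφ q) h').symm
  · have gi : GI ((Finset.range k).erase 3) k id := ⟨by simp, fun _ _ _ _ h => h⟩
    exact no w (T := (1, 0, 0)) (by simp [mem_VV, bnd]) sol_start (fun _ => sound hφ q)
      (H _ _ ((pr4 w can_gen).2 (pr_std sol_start)) (gi.pr w.hE (pt1 w) pt2)) (by simp [pt])

end Pool.Agent.H22.MX
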