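import Pool.Agent.H22.BRDefs
import Pool.Agent.H22.MX7

/-! The graph for balanced recombination with six districts. -/

namespace Pool.Agent.H22.BR

open Pool.Agent.H22.MX Function

instance dV : DecidableEq Vt := inferInstance
abbrev o : T3 := (0, 0, 0)

theorem Conn.cl {E S} (h : Conn E S) {u v} (hu : S u) (hv : S v) (P : Vt → Prop) (h0 : P u)
    (h1 : ∀ a b, S a → S b → P a → ((a, b) ∈ E ∨ (b, a) ∈ E) → P b) : P v := by
  have : ∀ z, Relation.ReflTransGen (fun a b => S b ∧ ((a, b) ∈ E ∨ (b, a) ∈ E)) u z →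
      S z ∧ P z := fun z hz => by
    induction hz with
    | refl => exact ⟨hu, h0⟩
    | tail _ h ih => exact ⟨h.1, h1 _ _ ih.1 h.1 ih.2 h.2⟩
  exact (this v (h.2 u v hu hv)).2

theorem Conn.of {E S} (c : Vt) (ρ : Vt → ℕ) (hc : S c) (h : ∀ v, S v → v ≠ c →
    ∃ u, S u ∧ ρ u < ρ v ∧ ((u, v) ∈ E ∨ (v, u) ∈ E)) : Conn E S := by
  have : ∀ k v, ρ v = k → S v →
      Relation.ReflTransGen (fun a b => S b ∧ ((a, b) ∈ E ∨ (b, a) ∈ E)) c v ∧
      Relation.ReflTransGen (fun a b => S b ∧ ((a, b) ∈ E ∨ (b, a) ∈ E)) v c := fun k => by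
    induction k using Nat.strong_induction_on with
    | _ k ih =>
    intro v e hv
    by_cases e' : v = c
    · exact e' ▸ ⟨.refl, .refl⟩
    obtain ⟨u, a, b, d⟩ := h v hv e'
    obtain ⟨p, q⟩ := ih _ (e ▸ b) u rfl a
    exact ⟨p.tail ⟨hv, d⟩, q.head ⟨a, d.symm⟩⟩
  exact ⟨⟨c, hc⟩, fun u v hu hv => (this _ u rfl hu).2.trans (this _ v rfl hv).1⟩

theorem cnt3 {α : Type} (l : List α) (g : α → ℕ) (a b c : ℕ) :
    l.length ≤ l.countP (fun v => g v = a) + l.countP (fun v => g v = b) +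
      l.countP (fun v => g v = c) + l.countP (fun v => g v ≠ a ∧ g v ≠ b ∧ g v ≠ c) ∧
    (a ≠ b → a ≠ c → b ≠ c → l.countP (fun v => g v = a) + l.countP (fun v => g v = b) +
      l.countP (fun v => g v = c) + l.countP (fun v => g v ≠ a ∧ g v ≠ b ∧ g v ≠ c) ≤ l.length) := by
  induction l with
  | nil => simp
  | cons x l ih => simp only [List.countP_cons, List.length_cons, decide_eq_true_eq]; grind

theorem cnt2 {α : Type} (l : List α) (p q r : α → Prop) [DecidablePred p] [DecidablePred q]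
    [DecidablePred r] : ((∀ x ∈ l, p x → q x ∨ r x) →
    l.countP (fun v => p v) ≤ l.countP (fun v => q v) + l.countP (fun v => r v)) ∧
    ((∀ x ∈ l, q x ↔ ¬ r x) → l.countP (fun v => q v) + l.countP (fun v => r v) = l.length) := by
  induction l with
  | nil => simp
  | cons x l ih =>
    simp only [List.countP_cons, List.length_cons, decide_eq_true_eq, List.forall_mem_cons]; grind

theorem uniq {w h r n r' : ℕ} (a : r < w) (b : r' < w) (e : w * h + r = w * n + r') :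
    h = n ∧ r = r' := by
  have h1 := congrArg (· / w) e
  have h2 := congrArg (· % w) e
  simp only [Nat.mul_add_div (show w > 0 by omega), Nat.div_eq_of_lt a, Nat.div_eq_of_lt b,
    Nat.mul_add_mod, Nat.mod_eq_of_lt a, Nat.mod_eq_of_lt b] at h1 h2
  exact ⟨h1, h2⟩

def star (k w : ℕ) (x : T3) : List Vt := (List.range w).map fun t => (k, t, x)

def grp (w s : ℕ) (x : T3) : List Vt := star (6 + s) w x ++ [(8 + s, 0, x), (8 + s, 1, x)]

def ww (n m : ℕ) : ℕ := 4 * n + m + 1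
def uu (n m : ℕ) : ℕ := ww n m * n + n
def wA (n m : ℕ) : ℕ := uu n m + 2 * (2 * n + m) + 2
def wB (n m : ℕ) : ℕ := 2 * uu n m + (2 * n + m) + 2
def NN (n m : ℕ) : ℕ := 2 * uu n m + 2 * (2 * n + m) + 2

def Dm (n m : ℕ) : List Vt := star 0 (NN n m) o ++ star 1 (NN n m) o ++ star 2 (NN n m) o

def Re (Vs : List T3) (m : ℕ) : List Vt :=
  star 3 (wB Vs.length m) o ++ star 4 (wA Vs.length m) o ++ star 5 (wA Vs.length m) o ++
    Vs.flatMap (grp (ww Vs.length m) 0) ++ Vs.flatMap (grp (ww Vs.length m) 1) ++ star 10 m o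

def LL (Vs : List T3) (m : ℕ) : List Vt := Dm Vs.length m ++ Re Vs m

def ad (KS : List (List Vt)) (u v : Vt) : Prop :=
  u ≠ v ∧ ((u.1 < 3 ∧ u.2.1 = 0) ∨ (u.1 < 8 ∧ u.2.1 = 0 ∧ v.1 = u.1 ∧ v.2.2 = u.2.2) ∨
    ((u.1 = 8 ∨ u.1 = 9) ∧ (v = (3, 0, o) ∨ v = (u.1 - 4, 0, o) ∨ v = (u.1 - 2, 0, u.2.2))) ∨
    (u.1 = 10 ∧ v ∈ KS.getD u.2.1 []))

instance (KS u v) : Decidable (ad KS u v) := by unfold ad; infer_instance

def EE (Vs : List T3) (KS : List (List Vt)) : List (Vt × Vt) :=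
  ((LL Vs KS.length).product (LL Vs KS.length)).filter fun p => decide (ad KS p.1 p.2)

variable {Vs : List T3} {KS : List (List Vt)} {m : ℕ} {f g : Vt → ℕ}

theorem mem_EE {u v} : (u, v) ∈ EE Vs KS ↔ u ∈ LL Vs KS.length ∧ v ∈ LL Vs KS.length ∧
    ad KS u v := by
  simp [EE, List.pair_mem_product, and_assoc]

theorem mem_star {k w x} {v : Vt} : v ∈ star k w x ↔ v.1 = k ∧ v.2.1 < w ∧ v.2.2 = x := by
  obtain ⟨a, b, c⟩ := v
  simp only [star, List.mem_map, List.mem_range, Prod.mk.injEq]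
  grind

theorem mem_grp {w s} {v : Vt} : v ∈ Vs.flatMap (grp w s) ↔
    v.2.2 ∈ Vs ∧ ((v.1 = 6 + s ∧ v.2.1 < w) ∨ (v.1 = 8 + s ∧ v.2.1 < 2)) := by
  obtain ⟨a, b, c⟩ := v
  simp only [grp, List.mem_flatMap, List.mem_append, mem_star, List.mem_cons, Prod.mk.injEq,
    List.not_mem_nil]
  grind

theorem mem_Dm {n} {v : Vt} : v ∈ Dm n m ↔ v.1 < 3 ∧ v.2.1 < NN n m ∧ v.2.2 = o := by
  simp only [Dm, List.mem_append, mem_star]
  grind

theorem mem_Re {v : Vt} : v ∈ Re Vs m ↔ (v.1 = 3 ∧ v.2.1 < wB Vs.length m ∧ v.2.2 = o) ∨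
    ((v.1 = 4 ∨ v.1 = 5) ∧ v.2.1 < wA Vs.length m ∧ v.2.2 = o) ∨
    ((v.1 = 6 ∨ v.1 = 7) ∧ v.2.1 < ww Vs.length m ∧ v.2.2 ∈ Vs) ∨
    ((v.1 = 8 ∨ v.1 = 9) ∧ v.2.1 < 2 ∧ v.2.2 ∈ Vs) ∨ (v.1 = 10 ∧ v.2.1 < m ∧ v.2.2 = o) := by
  simp only [Re, List.mem_append, mem_star, mem_grp]
  grind

theorem mem_LL {v : Vt} : v ∈ LL Vs m ↔ v ∈ Dm Vs.length m ∨ v ∈ Re Vs m := List.mem_append

theorem nd_star {k w x} : (star k w x).Nodup :=
  List.nodup_range.map fun a b h => by simpa using h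

theorem nd_LL (h : Vs.Nodup) : (LL Vs m).Nodup := by
  have : ∀ w s, (Vs.flatMap (grp w s)).Nodup := fun w s => List.nodup_flatMap.2
    ⟨fun x _ => by simp [grp, List.nodup_append, nd_star, mem_star]; omega,
    h.pairwise_of_forall_ne fun a _ b _ e v h1 h2 => by
      have := (mem_grp (Vs := [a]) (w := w) (s := s) (v := v)).1 (by simpa using h1)
      have := (mem_grp (Vs := [b]) (w := w) (s := s) (v := v)).1 (by simpa using h2)
      grind⟩
  simp only [LL, Dm, Re, List.nodup_append, nd_star, this, List.mem_append, mem_star, mem_grp,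
    true_and]
  and_intros <;> rintro a ha b hb rfl <;> omega

theorem len_grp {w s} : (Vs.flatMap (grp w s)).length = w * Vs.length + 2 * Vs.length := by
  induction Vs with
  | nil => simp
  | cons x l ih => simp only [List.flatMap_cons, List.length_append, ih]; simp [grp, star]; ring

theorem len_Dm {n} : (Dm n m).length = 3 * NN n m := by simp [Dm, star]; ring

theorem len_Re : (Re Vs m).length = 3 * NN Vs.length m := by
  simp only [Re, List.length_append, len_grp]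
  simp [star, NN, wA, wB, uu]
  ring

theorem len_LL : (LL Vs m).length = 6 * NN Vs.length m := by
  rw [LL, List.length_append, len_Dm, len_Re]; ring

theorem c_star {k w x a} (h : ∀ t < w, f (k, t, x) = f (k, 0, x)) :
    (star k w x).countP (fun v => f v = a) = if f (k, 0, x) = a then w else 0 := by
  split_ifs with e
  · rw [List.countP_eq_length.2 fun ⟨_, _, _⟩ hv => by have := mem_star.1 hv; grind]
    simp [star]
  · exact List.countP_eq_zero.2 fun ⟨_, _, _⟩ hv => by have := mem_star.1 hv; grind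

def ct (Vs : List T3) (f : Vt → ℕ) (k t a : ℕ) : ℕ := Vs.countP fun x => f (k, t, x) = a

theorem c_grp {w s a} (h : ∀ x ∈ Vs, ∀ t < w, f (6 + s, t, x) = f (6 + s, 0, x)) :
    (Vs.flatMap (grp w s)).countP (fun v => f v = a) =
      w * ct Vs f (6 + s) 0 a + (ct Vs f (8 + s) 0 a + ct Vs f (8 + s) 1 a) := by
  induction Vs with
  | nil => simp [ct]
  | cons x l ih =>
    simp only [List.forall_mem_cons] at h
    simp only [List.flatMap_cons, List.countP_append, ih h.2, grp, c_star h.1, ct, List.countP_cons,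
      List.countP_nil, decide_eq_true_eq]
    split_ifs <;> ring

def Leaf (Vs : List T3) (m : ℕ) (f : Vt → ℕ) : Prop :=
  ∀ v ∈ Re Vs m, v.1 < 8 → f v = f (v.1, 0, v.2.2)

theorem c_Re {a} (h : Leaf Vs m f) : (Re Vs m).countP (fun v => f v = a) =
    (if f (3, 0, o) = a then wB Vs.length m else 0) + (if f (4, 0, o) = a then wA Vs.length m else 0)
    + (if f (5, 0, o) = a then wA Vs.length m else 0) +
    (ww Vs.length m * (ct Vs f 6 0 a + ct Vs f 7 0 a) + (ct Vs f 8 0 a + ct Vs f 8 1 a +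
      ct Vs f 9 0 a + ct Vs f 9 1 a + (star 10 m o).countP fun v => f v = a)) := by
  simp only [Re, List.countP_append]
  rw [c_star fun t ht => h _ (by simp [mem_Re, ht]) (by simp),
    c_star fun t ht => h _ (by simp [mem_Re, ht]) (by simp),
    c_star fun t ht => h _ (by simp [mem_Re, ht]) (by simp),
    c_grp fun x hx t ht => h _ (by simp [mem_Re, ht, hx]) (by simp),
    c_grp fun x hx t ht => h _ (by simp [mem_Re, ht, hx]) (by simp)]
  ring

end Pool.Agent.H22.BR
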