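import Pool.Agent.H22.BR1

/-! Structure of the balanced partitions. -/

namespace Pool.Agent.H22.BR

open Pool.Agent.H22.MX Function

variable {Vs : List T3} {KS : List (List Vt)} {f g : Vt → ℕ}

def WF (Vs : List T3) (KS : List (List Vt)) : Prop :=
  ∀ C ∈ KS, ∀ v ∈ C, (v.1 = 8 ∨ v.1 = 9) ∧ v.2.1 < 2 ∧ v.2.2 ∈ Vs

abbrev BB (Vs : List T3) (KS : List (List Vt)) := BCP (LL Vs KS.length) (EE Vs KS) 6 0

theorem WF.gd (w : WF Vs KS) (j) : ∀ v ∈ KS.getD j [], (v.1 = 8 ∨ v.1 = 9) ∧ v.2.1 < 2 ∧ v.2.2 ∈ Vs := by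
  by_cases h : j < KS.length
  · rw [List.getD_eq_getElem _ _ h]; exact w _ (List.getElem_mem _)
  · rw [List.getD_eq_default _ _ (by omega)]; simp

def Sat (KS : List (List Vt)) (σ : ℕ → T3 → Bool) : Prop :=
  ∀ C ∈ KS, ∃ v ∈ C, σ (v.1 - 8) v.2.2 = decide (v.2.1 = 1)

def dc (f : Vt → ℕ) (s : ℕ) (x : T3) : Bool := decide (f (8 + s, 1, x) = f (3, 0, o))

theorem BCP.c (h : BB Vs KS f) {v} (hv : v ∈ LL Vs KS.length) :
    (LL Vs KS.length).countP (fun u => f u = f v) = NN Vs.length KS.length := by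
  have := (h.2 _ (h.1 v hv)).2
  rw [len_LL] at this
  omega

theorem mD {n m j} (hj : j < 3) : (j, 0, o) ∈ Dm n m := by simp [mem_Dm, hj, NN]

/-- closure inside a district -/
theorem BCP.cl (h : BB Vs KS f) {u v} (hu : u ∈ LL Vs KS.length) (hv : v ∈ LL Vs KS.length)
    (e : f v = f u) (P : Vt → Prop) (h0 : P u) (h1 : ∀ a b, a ∈ LL Vs KS.length →
      b ∈ LL Vs KS.length → f a = f u → f b = f u → P a → (ad KS a b ∨ ad KS b a) → P b) : P v :=
  (h.2 _ (h.1 u hu)).1.cl ⟨hu, rfl⟩ ⟨hv, e⟩ P h0 fun a b ha hb p q =>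
    h1 a b ha.1 hb.1 ha.2 hb.2 p (q.imp (fun q => (mem_EE.1 q).2.2) fun q => (mem_EE.1 q).2.2)

theorem BCP.nb (h : BB Vs KS f) (nd : Vs.Nodup) {u} (hu : u ∈ LL Vs KS.length) :
    ∃ b ∈ LL Vs KS.length, f b = f u ∧ (ad KS u b ∨ ad KS b u) := by
  by_contra H
  have a : ∀ v ∈ LL Vs KS.length, f v = f u → v = u := fun v hv e =>
    h.cl hu hv e (· = u) rfl fun a b _ hb _ e p q => (H ⟨b, hb, e, p ▸ q⟩).elim
  have b := h.c hu
  have c : (LL Vs KS.length).countP (fun v => f v = f u) ≤ (LL Vs KS.length).count u :=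
    List.countP_mono_left fun v hv e => by simpa using a v hv (by simpa using e)
  have d := List.nodup_iff_count_le_one.1 (nd_LL (m := KS.length) nd) u
  simp only [NN] at b
  omega

theorem rf {m k t x} (h : (k, t, x) ∈ Re Vs m) :
    3 ≤ k ∧ (k = 8 ∨ k = 9 → t < 2) ∧ (k = 10 → t < m ∧ x = o) := by
  simp only [mem_Re] at h
  grind

theorem n1 (w : WF Vs KS) {k t x k' t' x'} (a : 3 ≤ k) (b : k < 8) (c : t ≠ 0) (d : 3 ≤ k')
    (q : ad KS (k, t, x) (k', t', x') ∨ ad KS (k', t', x') (k, t, x)) :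
    k' = k ∧ t' = 0 ∧ x' = x := by
  have := w.gd t' (k, t, x)
  rcases q with ⟨-, q | q | q | q⟩ | ⟨-, q | q | q | q⟩ <;> grind

theorem n2 (w : WF Vs KS) {s t x k' t' x'} (a : s < 2) (d : 3 ≤ k')
    (q : ad KS (6 + s, t, x) (k', t', x') ∨ ad KS (k', t', x') (6 + s, t, x)) :
    (k' = 6 + s ∨ k' = 8 + s) ∧ x' = x := by
  have := w.gd t' (6 + s, t, x)
  rcases q with ⟨-, q | q | q | q⟩ | ⟨-, q | q | q | q⟩ <;> grind

theorem n3 {s k t x k' t' x'} (a : s < 2) (b : k = 6 + s ∨ k = 8 + s) (d : 3 ≤ k')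
    (q : ad KS (k, t, x) (k', t', x') ∨ ad KS (k', t', x') (k, t, x)) :
    k' = 6 + s ∨ k' = 8 + s ∨ ((k' = 3 ∨ k' = 4 + s) ∧ t' = 0 ∧ x' = o) ∨ k' = 10 := by
  rcases q with ⟨-, q | q | q | q⟩ | ⟨-, q | q | q | q⟩ <;> grind

theorem struc (w : WF Vs KS) (nd : Vs.Nodup) (h : BB Vs KS f) : Sat KS (dc f) ∧
    f (3, 0, o) ≠ f (4, 0, o) ∧ f (3, 0, o) ≠ f (5, 0, o) ∧ f (4, 0, o) ≠ f (5, 0, o) ∧
    ∀ s < 2, ∀ x ∈ Vs, f (8 + s, 1, x) = f (3, 0, o) ∨ f (8 + s, 1, x) = f (4 + s, 0, o) := by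
  have wg := w.gd
  have mR : ∀ v, v ∈ Re Vs KS.length → v ∈ LL Vs KS.length := fun v h => mem_LL.2 (Or.inr h)
  have mD' : ∀ j < 3, (j, 0, o) ∈ LL Vs KS.length := fun j h => mem_LL.2 (Or.inl (mD h))
  have tw : ∀ v ∈ Dm Vs.length KS.length, f v = f (0, 0, o) ∨ f v = f (1, 0, o) ∨
      f v = f (2, 0, o) := by
    rintro ⟨k, t, x⟩ hv
    obtain ⟨⟨k', t', x'⟩, hb, e, a⟩ := h.nb nd (mem_LL.2 (Or.inl hv))
    have := wg t' (k, t, x)
    simp only [mem_LL, mem_Dm, ad, Prod.mk.injEq] at hv hb a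
    have := fun h => (mem_Re (Vs := Vs) (m := KS.length) (v := (k', t', x'))).1 h
    have : (t = 0 ∧ k < 3 ∧ x = o) ∨ (t' = 0 ∧ k' < 3 ∧ x' = o) := by grind
    rcases this with ⟨rfl, a, rfl⟩ | ⟨rfl, a, rfl⟩
    · interval_cases k <;> simp
    · rw [← e]; interval_cases k' <;> simp
  have F1 : ∀ v ∈ Re Vs KS.length, f v ≠ f (0, 0, o) ∧ f v ≠ f (1, 0, o) ∧ f v ≠ f (2, 0, o) := by
    have a := (cnt3 (LL Vs KS.length) f (f (0, 0, o)) (f (1, 0, o)) (f (2, 0, o))).1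
    rw [h.c (mD' 0 (by omega)), h.c (mD' 1 (by omega)), h.c (mD' 2 (by omega)), len_LL, LL,
      List.countP_append, List.countP_eq_zero.2 fun v hv => by have := tw v hv; grind] at a
    have b := List.countP_eq_length.1 (le_antisymm List.countP_le_length
      (Nat.le_of_add_le_add_left (a := 3 * NN Vs.length KS.length)
        (le_of_eq_of_le (by rw [len_Re]; ring) (a.trans_eq (by ring)))))
    simpa using b
  have F1' : ∀ v ∈ Re Vs KS.length, ∀ b ∈ LL Vs KS.length, f b = f v → b ∈ Re Vs KS.length :=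
    fun v hv b hb e => (mem_LL.1 hb).resolve_left fun a => by
      have := tw b a
      have := F1 v hv
      grind
  have lf : Leaf Vs KS.length f := by
    rintro ⟨k, t, x⟩ hv hk
    by_cases e : t = 0
    · simp [e]
    obtain ⟨⟨k', t', x'⟩, hb, e, a⟩ := h.nb nd (mR _ hv)
    obtain ⟨rfl, rfl, rfl⟩ := n1 w (rf hv).1 hk ‹_› (rf (F1' _ hv _ hb e)).1 a
    exact e.symm
  have cR : ∀ v ∈ Re Vs KS.length,
      (Re Vs KS.length).countP (fun u => f u = f v) = NN Vs.length KS.length := fun v hv => by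
    have := h.c (mR v hv)
    rwa [LL, List.countP_append, List.countP_eq_zero.2 fun u hu => by
      have := tw u hu; have := F1 v hv; grind, Nat.zero_add] at this
  have m3 : (3, 0, o) ∈ Re Vs KS.length := by simp [mem_Re, wB]
  have m4 : (4, 0, o) ∈ Re Vs KS.length := by simp [mem_Re, wA]
  have m5 : (5, 0, o) ∈ Re Vs KS.length := by simp [mem_Re, wA]
  have c3 := cR _ m3
  have c4 := cR _ m4
  have c5 := cR _ m5
  have F2 : f (3, 0, o) ≠ f (4, 0, o) ∧ f (3, 0, o) ≠ f (5, 0, o) ∧ f (4, 0, o) ≠ f (5, 0, o) := by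
    rw [c_Re lf] at c3 c4
    simp only [NN, wA, wB, if_true] at c3 c4
    refine ⟨fun e => ?_, fun e => ?_, fun e => ?_⟩
    · rw [if_pos e.symm] at c3; omega
    · rw [if_pos e.symm] at c3; omega
    · rw [if_pos e.symm] at c4; omega
  have F3 : ∀ v ∈ Re Vs KS.length, f v = f (3, 0, o) ∨ f v = f (4, 0, o) ∨ f v = f (5, 0, o) := by
    have a := (cnt3 (Re Vs KS.length) f _ _ _).2 F2.1 F2.2.1 F2.2.2
    rw [c3, c4, c5, len_Re] at a
    have b := List.countP_eq_zero.1 (Nat.le_zero.1 (Nat.le_of_add_le_add_left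
      (c := 0) (a.trans_eq (by ring))))
    intro v hv
    have := b v hv
    grind
  have core : ∀ v ∈ Re Vs KS.length, ∃ k, 3 ≤ k ∧ k ≤ 5 ∧ (k, 0, o) ∈ Re Vs KS.length ∧
      f (k, 0, o) = f v := fun v hv => by
    rcases F3 v hv with e | e | e
    exacts [⟨3, by omega, by omega, m3, e.symm⟩, ⟨4, by omega, by omega, m4, e.symm⟩,
      ⟨5, by omega, by omega, m5, e.symm⟩]
  have mH : ∀ s < 2, ∀ x ∈ Vs, (6 + s, 0, x) ∈ Re Vs KS.length := fun s hs x hx => by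
    simp [mem_Re, ww, hx]; omega
  have F6 : ∀ s < 2, ∀ x ∈ Vs, f (8 + s, 0, x) = f (6 + s, 0, x) ∨
      f (8 + s, 1, x) = f (6 + s, 0, x) := fun s hs x hx => by
    by_contra H
    obtain ⟨k, a, b, c, d⟩ := core _ (mH s hs x hx)
    have := h.cl (mR _ (mH s hs x hx)) (mR _ c) d (fun v => v.1 = 6 + s ∧ v.2.2 = x) ⟨rfl, rfl⟩
      fun ⟨k1, t1, x1⟩ ⟨k2, t2, x2⟩ _ hb _ e p q => by
        have hb := rf (F1' _ (mH s hs x hx) _ hb e)
        obtain ⟨rfl, rfl⟩ : k1 = 6 + s ∧ x1 = x := p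
        obtain ⟨rfl | rfl, rfl⟩ := n2 w hs hb.1 q
        · exact ⟨rfl, rfl⟩
        · have := hb.2.1 (by omega)
          interval_cases t2
          exacts [(H (Or.inl e)).elim, (H (Or.inr e)).elim]
    simp only at this
    omega
  have l1 : ∀ k t a, ct Vs f k t a ≤ Vs.length := fun _ _ _ => List.countP_le_length
  have l2 : ∀ s < 2, ∀ a, ct Vs f (6 + s) 0 a ≤ ct Vs f (8 + s) 0 a + ct Vs f (8 + s) 1 a :=
    fun s hs a => (cnt2 Vs _ _ _).1 fun x hx e => by have := F6 s hs x hx; grind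
  have l3 : ∀ a, (star 10 KS.length o).countP (fun v => f v = a) ≤ KS.length := fun a =>
    List.countP_le_length.trans (by simp [star])
  have key : ∀ k, k = 4 ∨ k = 5 → ct Vs f 6 0 (f (k, 0, o)) + ct Vs f 7 0 (f (k, 0, o)) = Vs.length ∧
      (star 10 KS.length o).countP (fun v => f v = f (k, 0, o)) = 0 := fun k hk => by
    have c := cR (k, 0, o) (by rcases hk with rfl | rfl <;> assumption)
    rw [c_Re lf] at c
    have a1 := l1 8 0 (f (k, 0, o))
    have a2 := l1 8 1 (f (k, 0, o))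
    have a3 := l1 9 0 (f (k, 0, o))
    have a4 := l1 9 1 (f (k, 0, o))
    have a5 := l2 0 (by omega) (f (k, 0, o))
    have a6 := l2 1 (by omega) (f (k, 0, o))
    have a7 := l3 (f (k, 0, o))
    have := uniq (w := ww Vs.length KS.length) (n := Vs.length) (r' := Vs.length)
      (h := ct Vs f 6 0 (f (k, 0, o)) + ct Vs f 7 0 (f (k, 0, o)))
      (r := ct Vs f 8 0 (f (k, 0, o)) + ct Vs f 8 1 (f (k, 0, o)) + ct Vs f 9 0 (f (k, 0, o)) +
        ct Vs f 9 1 (f (k, 0, o)) + (star 10 KS.length o).countP fun v => f v = f (k, 0, o))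
      (by rw [ww]; omega) (by rw [ww]; omega) (by
        rcases hk with rfl | rfl <;>
        simp only [F2.1, F2.2.1, F2.2.2, F2.2.2.symm, if_true, if_false, NN, wA, uu] at c <;> omega)
    simp only [Nat.add_zero, Nat.reduceAdd] at a5 a6
    omega
  have F4 : ∀ s < 2, ∀ x ∈ Vs, f (6 + s, 0, x) ≠ f (3, 0, o) := fun s hs => by
    have a : ∀ k, ct Vs f k 0 (f (3, 0, o)) + ct Vs f k 0 (f (4, 0, o)) + ct Vs f k 0 (f (5, 0, o))
        + _ ≤ Vs.length := fun k => (cnt3 Vs (fun x => f (k, 0, x)) _ _ _).2 F2.1 F2.2.1 F2.2.2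
    have b := a 7
    have a := a 6
    have c := (key 4 (by simp)).1
    have d := (key 5 (by simp)).1
    have : ct Vs f (6 + s) 0 (f (3, 0, o)) = 0 := by
      interval_cases s <;> simp only [Nat.add_zero, Nat.reduceAdd] <;> omega
    simpa using List.countP_eq_zero.1 this
  have F5 : ∀ j < KS.length, f (10, j, o) = f (3, 0, o) := fun j hj => by
    have a := List.countP_eq_zero.1 (key 4 (by simp)).2 (10, j, o) (by simp [mem_star, hj])
    have b := List.countP_eq_zero.1 (key 5 (by simp)).2 (10, j, o) (by simp [mem_star, hj])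
    have := F3 (10, j, o) (by simp [mem_Re, hj])
    grind
  have mL : ∀ s < 2, ∀ x ∈ Vs, (8 + s, 1, x) ∈ Re Vs KS.length := fun s hs x hx => by
    simp [mem_Re, hx]; omega
  refine ⟨fun C hC => ?_, F2.1, F2.2.1, F2.2.2, fun s hs x hx => ?_⟩
  · obtain ⟨j, hj, rfl⟩ := List.getElem_of_mem hC
    have mK : (10, j, o) ∈ Re Vs KS.length := by simp [mem_Re, hj]
    obtain ⟨⟨k, t, x⟩, hb, e, a⟩ := h.nb nd (mR _ mK)
    have hb := F1' _ mK _ hb e
    have := wg t (10, j, o)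
    have a : (k, t, x) ∈ KS.getD j [] := by
      simp only [mem_Re, ad, Prod.mk.injEq] at hb a; grind
    obtain ⟨a1, a2, a3⟩ := wg j _ a
    rw [List.getD_eq_getElem _ _ hj] at a
    refine ⟨_, a, ?_⟩
    rw [F5 j hj] at e
    obtain ⟨s, rfl⟩ : ∃ s, k = 8 + s := ⟨k - 8, by simp only at a1; omega⟩
    have hs : s < 2 := by simp only at a1; omega
    have := F6 s hs x a3
    have := F4 s hs x a3
    simp only [dc, Nat.add_sub_cancel_left] at a2 ⊢
    interval_cases t <;> grind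
  · by_contra H
    have e : f (5 - s, 0, o) = f (8 + s, 1, x) := by
      have := F3 _ (mL s hs x hx)
      interval_cases s <;> grind
    have := h.cl (mR _ (mL s hs x hx)) (mR (5 - s, 0, o) (by interval_cases s <;> assumption)) e
      (fun v => v.1 = 6 + s ∨ v.1 = 8 + s) (Or.inr rfl)
      fun ⟨k1, t1, x1⟩ ⟨k2, t2, x2⟩ _ hb _ e p q => by
        have hb := rf (F1' _ (mL s hs x hx) _ hb e)
        rcases n3 hs p hb.1 q with q | q | ⟨rfl | rfl, rfl, rfl⟩ | rfl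
        · exact Or.inl q
        · exact Or.inr q
        · exact (H (Or.inl e.symm)).elim
        · exact (H (Or.inr e.symm)).elim
        · obtain ⟨a, rfl⟩ := hb.2.2 rfl
          exact (H (Or.inl (e.symm.trans (F5 _ a)))).elim
    simp only at this
    omega

end Pool.Agent.H22.BR
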