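import Pool.Agent.H36.PSpaceDefs

namespace Pool.Agent.H22.BR

/-- vertices are named by tuples of numbers -/
abbrev Vt := ℕ × ℕ × ℕ × ℕ × ℕ

/-- the subgraph induced on `S` of the undirected graph with edge list `E` is (nonempty and)
connected -/
def Conn (E : List (Vt × Vt)) (S : Vt → Prop) : Prop :=
  (∃ v, S v) ∧ ∀ u v, S u → S v →
    Relation.ReflTransGen (fun a b => S b ∧ ((a, b) ∈ E ∨ (b, a) ∈ E)) u v

/-- `f` labels the vertex list `L` by districts `0, …, k - 1` and is a `(k, s)`-BCP: districts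
are connected and `| |V_i| - n / k | ≤ s` -/
def BCP (L : List Vt) (E : List (Vt × Vt)) (k s : ℕ) (f : Vt → ℕ) : Prop :=
  (∀ v ∈ L, f v < k) ∧ ∀ i < k, Conn E (fun v => v ∈ L ∧ f v = i) ∧
    k * L.countP (fun v => f v = i) ≤ L.length + k * s ∧
    L.length ≤ k * L.countP (fun v => f v = i) + k * s

/-- recombination: `V_i ∪ V_j = W_{π i} ∪ W_{π j}` and `V_l = W_{π l}` for the other `l` -/
def Rec (L : List Vt) (k : ℕ) (f g : Vt → ℕ) : Prop :=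
  ∃ π : Equiv.Perm ℕ, (∀ l < k, π l < k) ∧ ∃ i < k, ∃ j < k, ∀ v ∈ L,
    (f v = i ∨ f v = j ↔ g v = π i ∨ g v = π j) ∧ ∀ l < k, l ≠ i → l ≠ j → (f v = l ↔ g v = π l)

/-- the labelling given by a list of pairs (vertex, district) -/
def lab (A : List (Vt × ℕ)) (v : Vt) : ℕ := (A.lookup v).getD 0

/-- input: vertices, edges, slack, two partitions -/
abbrev Inp := List Vt × List (Vt × Vt) × ℕ × List (Vt × ℕ) × List (Vt × ℕ)

/-- `BR(G, k, s)` -/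
def BR (k : ℕ) (I : Inp) : Prop :=
  Relation.ReflTransGen (fun f g => BCP I.1 I.2.1 k I.2.2.1 f ∧ BCP I.1 I.2.1 k I.2.2.1 g ∧
    Rec I.1 k f g) (lab I.2.2.2.1) (lab I.2.2.2.2)

/-- a 3-connected loopless graph, slack `0`, and two `(k, 0)`-BCPs -/
def Three (k : ℕ) (I : Inp) : Prop :=
  I.1.Nodup ∧ (∀ e ∈ I.2.1, e.1 ∈ I.1 ∧ e.2 ∈ I.1 ∧ e.1 ≠ e.2) ∧ 3 < I.1.length ∧
    (∀ x y, Conn I.2.1 fun v => v ∈ I.1 ∧ v ≠ x ∧ v ≠ y) ∧ I.2.2.1 = 0 ∧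
    BCP I.1 I.2.1 k 0 (lab I.2.2.2.1) ∧ BCP I.1 I.2.1 k 0 (lab I.2.2.2.2)

end Pool.Agent.H22.BR
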