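import Mathlib

set_option autoImplicit false

namespace Pool.Agent.H22.Bcast
open Classical

variable {V : Type} (G : SimpleGraph V)

/-- f v is at most the eccentricity of v -/
def IsBroadcast (f : V → ℕ) : Prop := ∀ v, ∃ u, f v ≤ G.dist v u

def Hears (f : V → ℕ) (u : V) : Prop := ∃ v, 0 < f v ∧ G.dist u v ≤ f v

def Dominating (f : V → ℕ) : Prop := ∀ u, Hears G f u

def MinDom (f : V → ℕ) : Prop :=
  IsBroadcast G f ∧ Dominating G f ∧ ∀ g, IsBroadcast G g → (∀ v, g v ≤ f v) → g ≠ f → ¬ Dominating G g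

/-- every broadcasting vertex has a nonempty private boundary -/
def Irredundant (f : V → ℕ) : Prop :=
  ∀ v, 0 < f v → ∃ u, G.dist u v ≤ f v ∧ ¬ Hears G (fun w => if w = v then f v - 1 else f w) u

def BnIndep (f : V → ℕ) : Prop :=
  ∀ u v, u ≠ v → 0 < f u → 0 < f v → ∀ x, G.dist x u ≤ f u → G.dist x v ≤ f v →
    G.dist x u = f u ∧ G.dist x v = f v

variable [Fintype V]

/-- upper broadcast number -/
noncomputable def upperB : ℕ := sSup {w | ∃ f, MinDom G f ∧ ∑ v, f v = w}

/-- bnr-independence number -/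
noncomputable def alphaBnr : ℕ :=
  sSup {w | ∃ f, IsBroadcast G f ∧ BnIndep G f ∧ Irredundant G f ∧ ∑ v, f v = w}

/-- upper broadcast irredundance number -/
noncomputable def upperIR : ℕ := sSup {w | ∃ f, IsBroadcast G f ∧ Irredundant G f ∧ ∑ v, f v = w}

end Pool.Agent.H22.Bcast
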