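import Mathlib
import Pool.Agent.H22.BcastDefs

set_option autoImplicit false

namespace Pool.Agent.H22.Bcast
open Classical Finset

section
variable {V : Type} {G : SimpleGraph V}

lemma irr_iff (f : V → ℕ) : Irredundant G f ↔ ∀ v, 0 < f v → ∃ u, G.dist u v ≤ f v ∧
    (f v = 1 ∨ G.dist u v = f v) ∧ ∀ w, w ≠ v → 0 < f w → f w < G.dist u w := by
  refine forall_congr' fun v => forall_congr' fun hv => exists_congr fun u => and_congr_right fun h => ?_
  unfold Hears
  push Not
  constructor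
  · intro h'
    refine ⟨?_, fun w hw h0 => ?_⟩
    · have := h' v
      simp only [if_true] at this
      omega
    · have := h' w
      simp only [if_neg hw] at this
      exact this h0
  · rintro ⟨h1, h2⟩ w
    by_cases hw : w = v
    · subst hw; simp only [if_true]; omega
    · simp only [if_neg hw]; exact h2 w hw

lemma minDom_iff (f : V → ℕ) : MinDom G f ↔ IsBroadcast G f ∧ Dominating G f ∧ Irredundant G f := by
  refine and_congr_right fun hb => and_congr_right fun hd => ?_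
  constructor
  · intro h v hv
    have := h (fun w => if w = v then f v - 1 else f w) (fun w => by
      obtain ⟨u, hu⟩ := hb w
      refine ⟨u, ?_⟩
      beta_reduce
      split_ifs with h1
      · subst h1; omega
      · exact hu) (fun w => by
      split_ifs with h1
      · subst h1; omega
      · exact le_rfl) (fun e => by
      have := congrFun e v
      simp only [if_true] at this
      omega)
    unfold Dominating at this
    push Not at this
    obtain ⟨u, hu⟩ := this
    refine ⟨u, ?_, hu⟩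
    obtain ⟨w, h1, h2⟩ := hd u
    by_cases hw : w = v
    · exact hw ▸ h2
    · exact absurd ⟨w, by simp only [if_neg hw]; exact ⟨h1, h2⟩⟩ hu
  · intro h g _ hle hne hg
    obtain ⟨v, hv⟩ := Function.ne_iff.1 hne
    have hv' : g v < f v := lt_of_le_of_ne (hle v) hv
    obtain ⟨u, _, hu⟩ := h v (by omega)
    obtain ⟨w, h1, h2⟩ := hg u
    have := hle w
    refine hu ⟨w, ?_⟩
    by_cases hw : w = v
    · subst hw; simp only [if_true]; omega
    · simp only [if_neg hw]; omega

lemma bdd [Fintype V] (P : (V → ℕ) → Prop) (h : ∀ f, P f → IsBroadcast G f) :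
    BddAbove {w | ∃ f, P f ∧ ∑ v, f v = w} := by
  refine ⟨∑ v, ∑ u, G.dist v u, ?_⟩
  rintro w ⟨f, hf, rfl⟩
  refine sum_le_sum fun v _ => ?_
  obtain ⟨u, hu⟩ := h f hf v
  exact hu.trans (single_le_sum (f := fun u => G.dist v u) (fun _ _ => Nat.zero_le _) (mem_univ u))

lemma le_upperB [Fintype V] (f : V → ℕ) (h : MinDom G f) : ∑ v, f v ≤ upperB G :=
  le_csSup (bdd (MinDom G) (fun _ h => h.1)) ⟨f, h, rfl⟩

lemma upperB_le [Fintype V] (k : ℕ) (h : ∀ f, MinDom G f → ∑ v, f v ≤ k) : upperB G ≤ k :=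
  csSup_le' (by rintro w ⟨f, hf, rfl⟩; exact h f hf)

lemma le_alphaBnr [Fintype V] (f : V → ℕ) (h1 : IsBroadcast G f) (h2 : BnIndep G f) (h3 : Irredundant G f) :
    ∑ v, f v ≤ alphaBnr G := by
  have := bdd (G := G) (fun f => IsBroadcast G f ∧ BnIndep G f ∧ Irredundant G f) (fun _ h => h.1)
  simp only [and_assoc] at this
  exact le_csSup this ⟨f, h1, h2, h3, rfl⟩

end

/-! graphs from distance tables -/

def gd {n : ℕ} (D : ℕ → ℕ → ℕ) : SimpleGraph (Fin n) := SimpleGraph.fromRel (fun u v => D u v = 1)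

def TableOK (n : ℕ) (D : ℕ → ℕ → ℕ) : Prop :=
  (∀ u v : Fin n, D u v = D v u) ∧ (∀ u v : Fin n, D u v = 0 ↔ u = v) ∧
  (∀ u v w : Fin n, D v w = 1 → D u w ≤ D u v + 1) ∧
  (∀ u v : Fin n, D u v ≠ 0 → ∃ w : Fin n, D u w = 1 ∧ D w v + 1 = D u v)

instance (n : ℕ) (D : ℕ → ℕ → ℕ) : Decidable (TableOK n D) := by unfold TableOK; infer_instance

lemma gd_adj {n : ℕ} {D : ℕ → ℕ → ℕ} (h : TableOK n D) (u v : Fin n) : (gd D).Adj u v ↔ D u v = 1 := by
  simp only [gd, SimpleGraph.fromRel_adj]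
  constructor
  · rintro ⟨_, h1 | h1⟩
    · exact h1
    · rw [h.1]; exact h1
  · intro h1
    refine ⟨fun e => ?_, Or.inl h1⟩
    have := (h.2.1 u v).2 e
    omega

lemma gd_walk {n : ℕ} {D : ℕ → ℕ → ℕ} (h : TableOK n D) (v : Fin n) :
    ∀ k (u : Fin n), D u v = k → ∃ p : (gd D).Walk u v, p.length = k := by
  intro k
  induction k with
  | zero =>
    intro u hu
    obtain rfl := (h.2.1 u v).1 hu
    exact ⟨.nil, rfl⟩
  | succ k ih =>
    intro u hu
    obtain ⟨w, h1, h2⟩ := h.2.2.2 u v (by omega)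
    obtain ⟨p, hp⟩ := ih w (by omega)
    exact ⟨.cons ((gd_adj h u w).2 h1) p, by simp [hp]⟩

lemma gd_conn {n : ℕ} {D : ℕ → ℕ → ℕ} (h : TableOK n D) (hn : 0 < n) : (gd D : SimpleGraph (Fin n)).Connected := by
  have : Nonempty (Fin n) := ⟨⟨0, hn⟩⟩
  exact ⟨fun u v => ⟨(gd_walk h v _ u rfl).choose⟩⟩

lemma gd_dist {n : ℕ} {D : ℕ → ℕ → ℕ} (h : TableOK n D) (u v : Fin n) : (gd D).dist u v = D u v := by
  obtain ⟨p, hp⟩ := gd_walk h v _ u rfl
  apply le_antisymm (hp ▸ SimpleGraph.dist_le p)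
  obtain ⟨q, hq⟩ := (SimpleGraph.Reachable.exists_walk_length_eq_dist ⟨p⟩)
  rw [← hq]
  clear hq hp p
  induction q with
  | nil => exact ((h.2.1 _ _).2 rfl).le
  | @cons a b c ha q ih =>
    have := h.2.2.1 c b a (by rw [h.1]; exact (gd_adj h a b).1 ha)
    rw [h.1 c a, h.1 c b] at this
    simp only [SimpleGraph.Walk.length_cons]
    omega

/-! pruned search -/

def pre (f : ℕ → ℕ) : ℕ → List (ℕ × ℕ)
  | 0 => []
  | v + 1 => if f v = 0 then pre f v else (v, f v) :: pre f v

lemma mem_pre (f : ℕ → ℕ) (v : ℕ) (p : ℕ × ℕ) : p ∈ pre f v ↔ p.1 < v ∧ p.2 = f p.1 ∧ 0 < f p.1 := by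
  induction v with
  | zero => simp [pre]
  | succ v ih =>
    unfold pre
    split_ifs with h
    · rw [ih]
      constructor
      · rintro ⟨a, b, c⟩; exact ⟨by omega, b, c⟩
      · rintro ⟨a, b, c⟩
        refine ⟨lt_of_le_of_ne (by omega) (fun e => ?_), b, c⟩
        rw [e] at c; omega
    · rw [List.mem_cons, ih]
      constructor
      · rintro (rfl | ⟨a, b, c⟩)
        · exact ⟨by simp, rfl, by simp only; omega⟩
        · exact ⟨by omega, b, c⟩
      · rintro ⟨a, b, c⟩
        by_cases e : p.1 = v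
        · left; exact Prod.ext e (by rw [b, e])
        · right; exact ⟨by omega, b, c⟩

lemma sum_pre (f : ℕ → ℕ) (v : ℕ) : ((pre f v).map Prod.snd).sum = ∑ i ∈ range v, f i := by
  induction v with
  | zero => simp [pre]
  | succ v ih =>
    unfold pre
    rw [sum_range_succ]
    split_ifs with h
    · rw [ih, h, add_zero]
    · simp [ih, add_comm]

def go (E : ℕ → ℕ) (ok fin : List (ℕ × ℕ) → Bool) : ℕ → ℕ → List (ℕ × ℕ) → Bool
  | 0, _, l => fin l
  | k + 1, v, l => go E ok fin k (v + 1) l &&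
      (List.range (E v)).all (fun r => !(ok ((v, r + 1) :: l)) || go E ok fin k (v + 1) ((v, r + 1) :: l))

lemma go_sound (E : ℕ → ℕ) (ok fin : List (ℕ × ℕ) → Bool) (f : ℕ → ℕ) (hE : ∀ v, f v ≤ E v)
    (hok : ∀ j, ok (pre f j) = true) : ∀ k v, go E ok fin k v (pre f v) = true → fin (pre f (v + k)) = true := by
  intro k
  induction k with
  | zero => intro v h; exact h
  | succ k ih =>
    intro v h
    rw [show v + (k + 1) = v + 1 + k by omega]
    apply ih
    simp only [go, Bool.and_eq_true, List.all_eq_true, List.mem_range, Bool.or_eq_true, Bool.not_eq_true'] at h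
    have h2 := hok (v + 1)
    unfold pre at h2 ⊢
    split_ifs at h2 ⊢ with h0
    · exact h.1
    · have := h.2 (f v - 1) (by have := hE v; omega)
      rw [show f v - 1 + 1 = f v by omega, h2] at this
      simpa using this

def okIrr (n : ℕ) (D : ℕ → ℕ → ℕ) (l : List (ℕ × ℕ)) : Bool :=
  l.all fun p => (List.range n).any fun u => decide (D u p.1 ≤ p.2) && (p.2 == 1 || D u p.1 == p.2) &&
    l.all fun q => q.1 == p.1 || decide (q.2 < D u q.1)

def finDom (n k : ℕ) (D : ℕ → ℕ → ℕ) (l : List (ℕ × ℕ)) : Bool :=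
  decide ((l.map Prod.snd).sum ≤ k) || (List.range n).any fun u => l.all fun q => decide (q.2 < D u q.1)

lemma upperB_le_of {n : ℕ} {D : ℕ → ℕ → ℕ} (h : TableOK n D) (E : ℕ → ℕ) (hE : ∀ u v : Fin n, D u v ≤ E u) (k : ℕ)
    (hc : go E (okIrr n D) (finDom n k D) n 0 [] = true) : upperB (gd D : SimpleGraph (Fin n)) ≤ k := by
  refine upperB_le k (fun f hf => ?_)
  obtain ⟨h1, h2, h3⟩ := (minDom_iff f).1 hf
  rw [irr_iff] at h3
  let F : ℕ → ℕ := fun i => if hi : i < n then f ⟨i, hi⟩ else 0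
  have hF : ∀ i, 0 < F i → ∃ v : Fin n, v.1 = i ∧ F i = f v := by
    intro i hi
    by_cases hn : i < n
    · exact ⟨⟨i, hn⟩, rfl, by simp only [F, dif_pos hn]⟩
    · simp only [F, dif_neg hn] at hi; omega
  have := go_sound E (okIrr n D) (finDom n k D) F (fun i => by
      rcases Nat.eq_zero_or_pos (F i) with h0 | h0
      · omega
      · obtain ⟨v, rfl, e⟩ := hF i h0
        obtain ⟨u, hu⟩ := h1 v
        rw [gd_dist h] at hu
        rw [e]; exact hu.trans (hE v u))
    (fun j => by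
      simp only [okIrr, List.all_eq_true, List.any_eq_true, List.mem_range, Bool.and_eq_true, decide_eq_true_eq,
        Bool.or_eq_true, beq_iff_eq, mem_pre]
      rintro p ⟨_, a2, a3⟩
      obtain ⟨v, e1, e2⟩ := hF _ a3
      obtain ⟨u, b1, b2, b3⟩ := h3 v (e2 ▸ a3)
      simp only [gd_dist h] at b1 b2 b3
      refine ⟨u, u.2, ⟨by rw [a2, e2, ← e1]; exact b1, by rw [a2, e2, ← e1]; exact b2⟩, ?_⟩
      rintro q ⟨_, c2, c3⟩
      obtain ⟨w, e3, e4⟩ := hF _ c3
      by_cases hw : w = v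
      · left; rw [← e3, ← e1, hw]
      · right; rw [c2, e4, ← e3]; exact b3 w hw (e4 ▸ c3)) n 0 hc
  simp only [finDom, zero_add, Bool.or_eq_true, decide_eq_true_eq, List.any_eq_true, List.mem_range,
    List.all_eq_true, mem_pre, sum_pre] at this
  rcases this with h4 | ⟨u, hu, h4⟩
  · rw [sum_range] at h4
    simpa [F] using h4
  · obtain ⟨w, a1, a2⟩ := h2 ⟨u, hu⟩
    rw [gd_dist h] at a2
    have := h4 (w.1, f w) ⟨w.2, by simp [F], by simpa [F] using a1⟩
    simp only at this a2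
    omega

end Pool.Agent.H22.Bcast
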