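import Mathlib

set_option autoImplicit false

namespace Pool.Agent.H22.EL

open SimpleGraph

/-! Graphs given by edge lists, breadth first search certificates and edge counting. -/

def gr {n m : ℕ} (s t : Fin m → Fin n) : SimpleGraph (Fin n) :=
  SimpleGraph.fromRel (fun u v => ∃ e, s e = u ∧ t e = v)

instance {n m : ℕ} (s t : Fin m → Fin n) : DecidableRel (gr s t).Adj := fun u v => by
  unfold gr; simp only [SimpleGraph.fromRel_adj]; infer_instance

def ends {n m : ℕ} (s t : Fin m → Fin n) (e : Fin m) : Sym2 (Fin n) := s(s e, t e)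

lemma mem_edgeSet_gr {n m : ℕ} (s t : Fin m → Fin n) (hl : ∀ e, s e ≠ t e) (x : Sym2 (Fin n)) :
    x ∈ (gr s t).edgeSet ↔ ∃ e, ends s t e = x := by
  induction x using Sym2.ind with
  | h u v =>
    simp only [mem_edgeSet, gr, fromRel_adj, ends]
    constructor
    · rintro ⟨_, ⟨e, h1, h2⟩ | ⟨e, h1, h2⟩⟩
      · exact ⟨e, by rw [h1, h2]⟩
      · exact ⟨e, by rw [h1, h2, Sym2.eq_swap]⟩
    · rintro ⟨e, he⟩
      rw [Sym2.eq_iff] at he
      rcases he with ⟨h1, h2⟩ | ⟨h1, h2⟩
      · exact ⟨by rw [← h1, ← h2]; exact hl e, Or.inl ⟨e, h1, h2⟩⟩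
      · exact ⟨by rw [← h1, ← h2]; exact (hl e).symm, Or.inr ⟨e, h1, h2⟩⟩

lemma ends_inj {n m : ℕ} (s t : Fin m → Fin n)
    (h : ∀ e e', ((s e = s e' ∧ t e = t e') ∨ (s e = t e' ∧ t e = s e')) → e = e') :
    Function.Injective (ends s t) := by
  intro e e' he
  simp only [ends, Sym2.eq_iff] at he
  exact h e e' he

lemma countP_eq_sum {α ι : Type} [Fintype ι] [DecidableEq α] (f : ι → α) (hf : Function.Injective f)
    (P : α → Bool) (l : List α) (hl : ∀ x ∈ l, ∃ e, f e = x) :
    l.countP P = ∑ e, if P (f e) then l.count (f e) else 0 := by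
  classical
  induction l with
  | nil => simp
  | cons a l ih =>
    obtain ⟨e0, rfl⟩ := hl a (by simp)
    rw [List.countP_cons, ih (fun x hx => hl x (by simp [hx]))]
    have : ∀ e, (if P (f e) then (f e0 :: l).count (f e) else 0) =
        (if P (f e) then l.count (f e) else 0) + (if e = e0 then (if P (f e0) then 1 else 0) else 0) := by
      intro e
      by_cases h : e = e0
      · subst h; by_cases hp : P (f e) = true <;> simp [hp]
      · have : f e0 ≠ f e := fun h' => h (hf h').symm
        simp [h, this]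
    simp only [this, Finset.sum_add_distrib, Finset.sum_ite_eq', Finset.mem_univ, if_true]

lemma length_eq_sum {α ι : Type} [Fintype ι] [DecidableEq α] (f : ι → α) (hf : Function.Injective f)
    (l : List α) (hl : ∀ x ∈ l, ∃ e, f e = x) : l.length = ∑ e, l.count (f e) := by
  have := countP_eq_sum f hf (fun _ => true) l hl
  simpa using this

lemma walk_parity {V : Type} [DecidableEq V] {G : SimpleGraph V} {u v : V} (p : G.Walk u v) (x : V) :
    (p.edges.countP (fun e => decide (x ∈ e)) + (if x = u then 1 else 0) + (if x = v then 1 else 0)) % 2 = 0 := by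
  induction p with
  | nil => by_cases h : x = ‹V› <;> simp [h]
  | @cons a b c h p ih =>
    rw [Walk.edges_cons, List.countP_cons]
    have hab : a ≠ b := h.ne
    by_cases h1 : x = a
    · subst h1
      simp only [if_neg hab] at ih
      simp only [Sym2.mem_iff, true_or, decide_true, if_true]
      omega
    · by_cases h2 : x = b
      · subst h2
        simp only [if_true] at ih
        simp only [Sym2.mem_iff, or_true, decide_true, if_true, if_neg h1]
        omega
      · simp only [if_neg h2] at ih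
        simp only [Sym2.mem_iff, h1, h2, or_self, decide_false, if_false]
        simpa using ih

lemma closed_parity {V : Type} [DecidableEq V] {G : SimpleGraph V} {u : V} (p : G.Walk u u) (x : V) :
    (p.edges.countP (fun e => decide (x ∈ e))) % 2 = 0 := by
  have := walk_parity p x
  by_cases h : x = u <;> simp only [h, if_true, if_false] at this ⊢ <;> omega

/-- parity at a vertex, in terms of the edge multiplicities -/
lemma closed_parity_sum {n m : ℕ} (s t : Fin m → Fin n) (hl : ∀ e, s e ≠ t e)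
    (hi : Function.Injective (ends s t)) {u : Fin n} (p : (gr s t).Walk u u) (x : Fin n) :
    (∑ e, if s e = x ∨ t e = x then p.edges.count (ends s t e) else 0) % 2 = 0 := by
  have h := closed_parity p x
  rw [countP_eq_sum (ends s t) hi _ _ (fun y hy => (mem_edgeSet_gr s t hl y).1 (p.edges_subset_edgeSet hy))] at h
  have : ∀ e, (decide (x ∈ ends s t e) = true) ↔ (s e = x ∨ t e = x) := by
    intro e
    simp only [ends, Sym2.mem_iff, decide_eq_true_eq]
    constructor <;> rintro (h | h) <;> simp [h]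
  simp only [this] at h
  exact h

lemma length_sum {n m : ℕ} (s t : Fin m → Fin n) (hl : ∀ e, s e ≠ t e)
    (hi : Function.Injective (ends s t)) {u v : Fin n} (p : (gr s t).Walk u v) :
    p.length = ∑ e, p.edges.count (ends s t e) := by
  rw [← Walk.length_edges]
  exact length_eq_sum (ends s t) hi _ (fun y hy => (mem_edgeSet_gr s t hl y).1 (p.edges_subset_edgeSet hy))

/-! search -/

def sweep (adj : ℕ → ℕ) (al : ℕ) : List ℕ → ℕ → ℕ
  | [], acc => acc
  | v :: l, acc => sweep adj al l (if acc.testBit v then acc ||| (adj v &&& al) else acc)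

def iter (adj : ℕ → ℕ) (al : ℕ) (l : List ℕ) : ℕ → ℕ → ℕ
  | 0, acc => acc
  | k + 1, acc => iter adj al l k (sweep adj al l acc)

lemma sweep_inv (adj : ℕ → ℕ) (al : ℕ) (R : ℕ → Prop)
    (hR : ∀ v w, R v → (adj v).testBit w → al.testBit w → R w) (l : List ℕ) :
    ∀ acc, (∀ v, acc.testBit v → R v) → ∀ v, (sweep adj al l acc).testBit v → R v := by
  induction l with
  | nil => intro acc h; exact h
  | cons a l ih =>
    intro acc h
    apply ih
    intro v hv
    by_cases ha : acc.testBit a = true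
    · rw [if_pos ha, Nat.testBit_or, Nat.testBit_and] at hv
      simp only [Bool.or_eq_true, Bool.and_eq_true] at hv
      rcases hv with hv | ⟨h1, h2⟩
      · exact h v hv
      · exact hR a v (h a ha) h1 h2
    · rw [if_neg ha] at hv; exact h v hv

lemma iter_inv (adj : ℕ → ℕ) (al : ℕ) (R : ℕ → Prop)
    (hR : ∀ v w, R v → (adj v).testBit w → al.testBit w → R w) (l : List ℕ) (k : ℕ) :
    ∀ acc, (∀ v, acc.testBit v → R v) → ∀ v, (iter adj al l k acc).testBit v → R v := by
  induction k with
  | zero => intro acc h; exact h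
  | succ k ih => intro acc h; exact ih _ (sweep_inv adj al R hR l acc h)

/-- connectivity of an induced subgraph from a search certificate -/
lemma induce_connected {n : ℕ} (G : SimpleGraph (Fin n)) (adj : ℕ → ℕ)
    (hadj : ∀ u : Fin n, ∀ w, (adj u).testBit w → ∃ h : w < n, G.Adj u ⟨w, h⟩)
    (A : Set (Fin n)) (al : ℕ) (hal : ∀ v : Fin n, al.testBit v ↔ v ∈ A) (r : Fin n) (hr : r ∈ A)
    (l : List ℕ) (k : ℕ) (hc : iter adj al l k (2 ^ (r : ℕ)) = al) : (G.induce A).Connected := by
  have key : ∀ v, (iter adj al l k (2 ^ (r : ℕ))).testBit v →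
      ∃ h : v < n, ∃ hv : (⟨v, h⟩ : Fin n) ∈ A, (G.induce A).Reachable ⟨r, hr⟩ ⟨⟨v, h⟩, hv⟩ := by
    apply iter_inv
    · rintro v w ⟨h, hv, hreach⟩ h1 h2
      obtain ⟨hw, ha⟩ := hadj ⟨v, h⟩ w h1
      have hwA : (⟨w, hw⟩ : Fin n) ∈ A := (hal ⟨w, hw⟩).1 h2
      exact ⟨hw, hwA, hreach.trans (Adj.reachable (by simpa using ha))⟩
    · intro v hv
      rw [Nat.testBit_two_pow] at hv
      simp only [decide_eq_true_eq] at hv
      subst hv
      exact ⟨r.2, hr, Reachable.refl _⟩
  rw [hc] at key
  have : Nonempty A := ⟨⟨r, hr⟩⟩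
  refine ⟨fun a b => ?_⟩
  obtain ⟨_, _, ha⟩ := key a.1 ((hal a.1).2 a.2)
  obtain ⟨_, _, hb⟩ := key b.1 ((hal b.1).2 b.2)
  exact ha.symm.trans hb

/-- all vertices below n except a and b -/
def mask2 (n a b : ℕ) : ℕ := (2 ^ n - 1) &&& ((2 ^ (n + 1) - 1) ^^^ (2 ^ a ||| 2 ^ b))

lemma mask2_testBit (n a b v : ℕ) (hv : v < n) : (mask2 n a b).testBit v ↔ v ≠ a ∧ v ≠ b := by
  have h1 : v < n + 1 := by omega
  simp only [mask2, Nat.testBit_and, Nat.testBit_xor, Nat.testBit_or, Nat.testBit_two_pow_sub_one,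
    Nat.testBit_two_pow, hv, h1, decide_true, Bool.true_and]
  by_cases ha : a = v <;> by_cases hb : b = v <;> simp [ha, hb, eq_comm]

def root2 (a b : ℕ) : ℕ := if a ≠ 0 ∧ b ≠ 0 then 0 else if a ≠ 1 ∧ b ≠ 1 then 1 else 2

def check3 (n : ℕ) (adj : ℕ → ℕ) (k : ℕ) : Bool :=
  (List.range (n + 1)).all fun a => (List.range (a + 1)).all fun b =>
    iter adj (mask2 n a b) (List.range n) k (2 ^ root2 a b) == mask2 n a b

lemma three_connected {n : ℕ} (hn : 3 ≤ n) (G : SimpleGraph (Fin n)) (adj : ℕ → ℕ)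
    (hadj : ∀ u : Fin n, ∀ w, (adj u).testBit w → ∃ h : w < n, G.Adj u ⟨w, h⟩) (k : ℕ)
    (hc : check3 n adj k = true) (S : Finset (Fin n)) (hS : S.card < 3) :
    (G.induce ((↑S : Set (Fin n))ᶜ)).Connected := by
  have main : ∀ a b : ℕ, a ≤ n → b ≤ a → (∀ v : Fin n, v ∈ S ↔ (v.val = a ∨ v.val = b)) →
      (G.induce ((↑S : Set (Fin n))ᶜ)).Connected := by
    intro a b ha hb hS'
    simp only [check3, List.all_eq_true, List.mem_range, beq_iff_eq] at hc
    have h := hc a (by omega) b (by omega)
    have hr : root2 a b < n := by unfold root2; split_ifs <;> omega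
    have hr2 : root2 a b ≠ a ∧ root2 a b ≠ b := by unfold root2; split_ifs <;> omega
    refine induce_connected G adj hadj _ (mask2 n a b) ?_ ⟨root2 a b, hr⟩ ?_ (List.range n) k h
    · intro v
      rw [mask2_testBit n a b v v.2]
      simp only [Set.mem_compl_iff, Finset.mem_coe, hS', not_or]
    · simp only [Set.mem_compl_iff, Finset.mem_coe, hS', not_or]; exact hr2
  have : S.card = 0 ∨ S.card = 1 ∨ S.card = 2 := by omega
  rcases this with h | h | h
  · rw [Finset.card_eq_zero] at h
    refine main n n le_rfl le_rfl (fun v => ?_)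
    have := v.2
    simp [h]; omega
  · obtain ⟨a, rfl⟩ := Finset.card_eq_one.1 h
    refine main a a a.2.le le_rfl (fun v => ?_)
    simp [Fin.ext_iff]
  · obtain ⟨a, b, hab, rfl⟩ := Finset.card_eq_two.1 h
    rcases le_total a.val b.val with h1 | h1
    · refine main b a b.2.le h1 (fun v => ?_)
      simp [Fin.ext_iff, or_comm]
    · refine main a b a.2.le h1 (fun v => ?_)
      simp [Fin.ext_iff]

/-- adjacency masks are sound when checked on the finite range -/
lemma hadj_of {n : ℕ} (G : SimpleGraph (Fin n)) (adj : ℕ → ℕ) (h1 : ∀ u : Fin n, adj u < 2 ^ n)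
    (h2 : ∀ u w : Fin n, (adj u).testBit w → G.Adj u w) :
    ∀ u : Fin n, ∀ w, (adj u).testBit w → ∃ h : w < n, G.Adj u ⟨w, h⟩ := by
  intro u w hw
  have : w < n := by
    by_contra hc
    have := Nat.testBit_lt_two_pow (lt_of_lt_of_le (h1 u) (Nat.pow_le_pow_right (by norm_num) (not_lt.1 hc)))
    rw [this] at hw; exact absurd hw (by simp)
  exact ⟨this, h2 u ⟨w, this⟩ hw⟩

/-! explicit cycles -/

def mkWalk {V : Type} (G : SimpleGraph V) (u : V) : (a : V) → (l : List V) →
    List.IsChain G.Adj (a :: (l ++ [u])) → G.Walk a u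
  | _, [], h => Walk.cons h.rel Walk.nil
  | _, b :: l, h => Walk.cons h.rel (mkWalk G u b l h.of_cons)

lemma mkWalk_support {V : Type} (G : SimpleGraph V) (u : V) : ∀ (l : List V) (a : V)
    (h : List.IsChain G.Adj (a :: (l ++ [u]))), (mkWalk G u a l h).support = a :: (l ++ [u])
  | [], _, _ => rfl
  | b :: l, a, h => by simp [mkWalk, mkWalk_support G u l b]

def pairs {V : Type} (u : V) : V → List V → List (Sym2 V)
  | a, [] => [s(a, u)]
  | a, b :: l => s(a, b) :: pairs u b l

lemma mkWalk_edges {V : Type} (G : SimpleGraph V) (u : V) : ∀ (l : List V) (a : V)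
    (h : List.IsChain G.Adj (a :: (l ++ [u]))), (mkWalk G u a l h).edges = pairs u a l
  | [], _, _ => rfl
  | b :: l, a, h => by simp [mkWalk, pairs, mkWalk_edges G u l b]

lemma mkWalk_length {V : Type} (G : SimpleGraph V) (u : V) : ∀ (l : List V) (a : V)
    (h : List.IsChain G.Adj (a :: (l ++ [u]))), (mkWalk G u a l h).length = l.length + 1
  | [], _, _ => rfl
  | b :: l, a, h => by simp [mkWalk, mkWalk_length G u l b]

lemma mkWalk_isCycle {V : Type} (G : SimpleGraph V) (u : V) (l : List V)
    (h : List.IsChain G.Adj (u :: (l ++ [u]))) (h1 : (pairs u u l).Nodup) (h2 : (l ++ [u]).Nodup) :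
    (mkWalk G u u l h).IsCycle := by
  rw [Walk.isCycle_def]
  refine ⟨?_, ?_, ?_⟩
  · rw [Walk.isTrail_def, mkWalk_edges]; exact h1
  · intro hn
    have := mkWalk_length G u l u h
    rw [hn] at this; simp at this
  · rw [mkWalk_support]; exact h2

end Pool.Agent.H22.EL
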