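import Mathlib
import Pool.Agent.H22.Bcast
import Pool.Agent.H22.EL

set_option autoImplicit false
set_option maxRecDepth 100000
set_option synthInstance.maxSize 100000

namespace Pool.Agent.H22.BcastEx
open Pool.Agent.H22.Bcast Pool.Agent.H22.EL

def D8 (u v : ℕ) : ℕ := (210198544744861418595049175173074147810350065744955651728 >>> (3 * (8 * u + v))) % 8
lemma ok8 : TableOK 8 D8 := by decide +kernel
lemma ok7 : TableOK 7 D8 := by decide +kernel

lemma up8 : upperB (gd D8 : SimpleGraph (Fin 8)) ≤ 3 :=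
  upperB_le_of ok8 (fun _ => 3) (by decide +kernel) 3 (by decide +kernel)

lemma lo7 : 4 ≤ upperB (gd D8 : SimpleGraph (Fin 7)) := by
  have := le_upperB (G := (gd D8 : SimpleGraph (Fin 7))) ![2, 1, 1, 0, 0, 0, 0] (by
    rw [minDom_iff, irr_iff]
    simp only [IsBroadcast, Dominating, Hears, gd_dist ok7]
    decide +kernel)
  simpa [Fin.sum_univ_succ] using this

def D12 (u v : ℕ) : ℕ := (198047929544262892742333613459628995660745862671853748586652611313769801935253393856654093810313804669570057044412994114355275480 >>> (3 * (12 * u + v))) % 8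
lemma ok12 : TableOK 12 D12 := by decide +kernel
def E12 (u : ℕ) : ℕ := ([3, 4, 4, 3, 3, 3, 3, 3, 2, 3, 3, 2] : List ℕ).getD u 0

lemma up12 : upperB (gd D12 : SimpleGraph (Fin 12)) ≤ 4 :=
  upperB_le_of ok12 E12 (by decide +kernel) 4 (by decide +kernel)

lemma lo12 : 5 ≤ alphaBnr (gd D12 : SimpleGraph (Fin 12)) := by
  have := le_alphaBnr (G := (gd D12 : SimpleGraph (Fin 12))) ![1, 2, 2, 0, 0, 0, 0, 0, 0, 0, 0, 0]
    (by simp only [IsBroadcast, gd_dist ok12]; decide +kernel)
    (by simp only [BnIndep, gd_dist ok12]; decide +kernel)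
    (by rw [irr_iff]; simp only [gd_dist ok12]; decide +kernel)
  simpa [Fin.sum_univ_succ] using this

def adj12 (v : ℕ) : ℕ := ([2304, 1056, 528, 192, 2948, 3394, 3496, 2904, 3825, 2452, 2402, 2033] : List ℕ).getD v 0

lemma two12 (v : Fin 12) : ((gd D12 : SimpleGraph (Fin 12)).induce ({v}ᶜ : Set (Fin 12))).Connected := by
  have hr : ∀ v : Fin 12, root2 v v < 12 ∧ root2 v v ≠ v ∧
      iter adj12 (mask2 12 v v) (List.range 12) 5 (2 ^ root2 v v) = mask2 12 v v := by decide +kernel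
  refine induce_connected _ adj12 (hadj_of _ adj12 (by decide +kernel) ?_) _ (mask2 12 v v) ?_
    ⟨root2 v v, (hr v).1⟩ ?_ (List.range 12) 5 (hr v).2.2
  · simp only [gd_adj ok12]; decide +kernel
  · intro w
    rw [mask2_testBit 12 v v w w.2]
    simp [Fin.ext_iff]
  · simpa [Fin.ext_iff] using (hr v).2.1

lemma deg12 (v : Fin 12) : 2 ≤ ((gd D12 : SimpleGraph (Fin 12)).neighborSet v).ncard := by
  have : ∀ v : Fin 12, ∃ a b : Fin 12, a ≠ b ∧ D12 v a = 1 ∧ D12 v b = 1 := by decide +kernel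
  obtain ⟨a, b, h1, h2, h3⟩ := this v
  exact (Set.one_lt_ncard (Set.toFinite _)).2 ⟨a, (gd_adj ok12 v a).2 h2, b, (gd_adj ok12 v b).2 h3, h1⟩

end Pool.Agent.H22.BcastEx
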