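import Mathlib

set_option autoImplicit false
open scoped InnerProductSpace

namespace Pool.Agent.H22.Bil

abbrev E := EuclideanSpace ℝ (Fin 2)

lemma nsq (x : E) : ‖x‖ ^ 2 = x 0 ^ 2 + x 1 ^ 2 := by
  rw [EuclideanSpace.norm_eq, Real.sq_sqrt (by positivity), Fin.sum_univ_two]
  simp [sq_abs]

lemma inn (x y : E) : ⟪x, y⟫_ℝ = x 0 * y 0 + x 1 * y 1 := by
  simp [PiLp.inner_apply, Fin.sum_univ_two]; ring

/-- purely numerical inequality -/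
lemma num1 (a b c μ : ℝ) (hc0 : 0 ≤ c) (hca : c ≤ a) (hcb : c ≤ b) (ha : a ≤ 2) (hb : b ≤ 2)
    (h8 : 8 < a ^ 2 + b ^ 2 + c ^ 2) (h9 : a ^ 2 + b ^ 2 + c ^ 2 ≤ 9)
    (hμ : 4 * μ ^ 2 = 2 * a ^ 2 + 2 * b ^ 2 - c ^ 2) :
    μ < a + b + 1337 / 10000 * c - 2 := by
  have hc3 : c ≤ 17321 / 10000 := by nlinarith
  have hcpos : 0 < c := by
    rcases hc0.lt_or_eq with h | h
    · exact h
    · exfalso; nlinarith
  have hab : 2 < a + b := by nlinarith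
  have key : ∀ x y : ℝ, 0 ≤ x → x ≤ y → y ≤ 2 - c → 4 * (x + y) - (x ^ 2 + y ^ 2) < c ^ 2 →
      2 * (2 - x) ^ 2 + 2 * (2 - y) ^ 2 - c ^ 2 < 4 * (2 - x - y + 1337 / 10000 * c) ^ 2 := by
    intro x y hx hxy hy h
    rcases le_total (1337 / 10000 * c) y with h1 | h1
    · have e1 : 0 ≤ x * (y - 1337 / 10000 * c) := mul_nonneg hx (by linarith)
      have e2 : 0 ≤ c * (2 - c - y) := mul_nonneg hc0 (by linarith)
      have e3 : 0 < c * c := mul_pos hcpos hcpos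
      nlinarith
    · have e1 : 0 ≤ x * y := mul_nonneg hx (by linarith)
      have e2 : 0 ≤ c * (1337 / 10000 * c - y) := mul_nonneg hc0 (by linarith)
      have e3 : 0 ≤ c * (1337 / 10000 * c - x) := mul_nonneg hc0 (by linarith)
      have e4 : 0 ≤ c * (17321 / 10000 - c) := mul_nonneg hc0 (by linarith)
      nlinarith
  have hsq : μ ^ 2 < (a + b + 1337 / 10000 * c - 2) ^ 2 := by
    rcases le_total a b with h | h
    · have := key (2 - b) (2 - a) (by linarith) (by linarith) (by linarith) (by nlinarith)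
      nlinarith
    · have := key (2 - a) (2 - b) (by linarith) (by linarith) (by linarith) (by nlinarith)
      nlinarith
  exact lt_of_pow_lt_pow_left₀ 2 (by nlinarith) hsq

/-- key inequality, base `f1 f3` the smallest side -/
lemma key_base (f1 f2 f3 x y z o : E) (m : ℝ) (h1 : ‖f1‖ ≤ 1) (h2 : ‖f2‖ ≤ 1) (h3 : ‖f3‖ ≤ 1)
    (h8 : 8 < ‖f1 - f2‖ ^ 2 + ‖f2 - f3‖ ^ 2 + ‖f3 - f1‖ ^ 2)
    (hca : ‖f3 - f1‖ ≤ ‖f1 - f2‖) (hcb : ‖f3 - f1‖ ≤ ‖f2 - f3‖)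
    (hx : ‖x - o‖ ≤ 5774 / 10000) (hy : ‖y - o‖ ≤ 5774 / 10000) (hz : ‖z - o‖ ≤ 5774 / 10000)
    (hxy : ‖x - y‖ ≤ m) (hyz : ‖y - z‖ ≤ m) (hzx : ‖z - x‖ ≤ m) :
    ⟪x - y, f1⟫_ℝ + ⟪y - z, f2⟫_ℝ + ⟪z - x, f3⟫_ℝ - 2 * m <
      ‖f1 - f2‖ + ‖f2 - f3‖ + ‖f3 - f1‖ - 4 := by
  set a := ‖f1 - f2‖ with ha
  set b := ‖f2 - f3‖ with hb
  set c := ‖f3 - f1‖ with hc
  have ha2 : a ≤ 2 := (norm_sub_le f1 f2).trans (by linarith)
  have hb2 : b ≤ 2 := (norm_sub_le f2 f3).trans (by linarith)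
  have hc0 : 0 ≤ c := norm_nonneg _
  have n1 : ‖f1‖ ^ 2 ≤ 1 := by nlinarith [norm_nonneg f1]
  have n2 : ‖f2‖ ^ 2 ≤ 1 := by nlinarith [norm_nonneg f2]
  have n3 : ‖f3‖ ^ 2 ≤ 1 := by nlinarith [norm_nonneg f3]
  have h9 : a ^ 2 + b ^ 2 + c ^ 2 ≤ 9 := by
    rw [ha, hb, hc]
    simp only [nsq, PiLp.sub_apply] at n1 n2 n3 ⊢
    nlinarith [sq_nonneg (f1 0 + f2 0 + f3 0), sq_nonneg (f1 1 + f2 1 + f3 1)]
  set M : E := (1 / 2 : ℝ) • (f1 + f3) - f2 with hM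
  set μ := ‖M‖ with hμ
  have hμsq : 4 * μ ^ 2 = 2 * a ^ 2 + 2 * b ^ 2 - c ^ 2 := by
    rw [ha, hb, hc, hμ, hM]
    simp only [nsq, PiLp.sub_apply, PiLp.add_apply, PiLp.smul_apply, smul_eq_mul]; ring
  have hμ2 : μ ≤ 2 := by nlinarith [norm_nonneg M]
  have hnum := num1 a b c μ hc0 hca hcb ha2 hb2 h8 h9 hμsq
  set N : E := (1 / 2 : ℝ) • (y + z) - x with hN
  set ν := ‖N‖ with hν
  set α := ‖y - z‖ with hα
  have hα0 : 0 ≤ α := norm_nonneg _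
  have hν0 : 0 ≤ ν := norm_nonneg _
  have hμ0 : 0 ≤ μ := norm_nonneg _
  have hL : ⟪x - y, f1⟫_ℝ + ⟪y - z, f2⟫_ℝ + ⟪z - x, f3⟫_ℝ = ⟪z - y, M⟫_ℝ + ⟪N, f3 - f1⟫_ℝ := by
    rw [hM, hN]
    simp only [inn, PiLp.sub_apply, PiLp.add_apply, PiLp.smul_apply, smul_eq_mul]; ring
  have hL1 : ⟪z - y, M⟫_ℝ ≤ α * μ := by
    have := real_inner_le_norm (z - y) M
    rwa [norm_sub_rev z y] at this
  have hL2 : ⟪N, f3 - f1⟫_ℝ ≤ ν * c := real_inner_le_norm _ _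
  have hP : 4 < a + b + c := by nlinarith
  have hc3 : c ≤ 17321 / 10000 := by nlinarith
  rw [hL]
  rcases le_total α 1 with h | h
  · have hνsq : 4 * ν ^ 2 = 2 * ‖x - y‖ ^ 2 + 2 * ‖z - x‖ ^ 2 - α ^ 2 := by
      rw [hν, hα, hN]
      simp only [nsq, PiLp.sub_apply, PiLp.add_apply, PiLp.smul_apply, smul_eq_mul]; ring
    have e1 : ‖x - y‖ ^ 2 ≤ m ^ 2 := by nlinarith [norm_nonneg (x - y)]
    have e2 : ‖z - x‖ ^ 2 ≤ m ^ 2 := by nlinarith [norm_nonneg (z - x)]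
    have hν1 : ν ≤ 8663 / 10000 * α + 11545 / 10000 * (m - α) := by
      refine (abs_le_of_sq_le_sq' ?_ (by nlinarith)).2
      have : 0 ≤ α * (m - α) := mul_nonneg hα0 (by linarith)
      nlinarith [sq_nonneg α, sq_nonneg (m - α)]
    have e3 : ν * c ≤ (8663 / 10000 * α + 11545 / 10000 * (m - α)) * c :=
      mul_le_mul_of_nonneg_right hν1 hc0
    have e4 : 0 ≤ (m - α) * (17321 / 10000 - c) := mul_nonneg (by linarith) (by linarith)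
    have e5 : α * μ + ν * c - 2 * m ≤ α * (μ + 8663 / 10000 * c - 2) := by nlinarith
    rcases le_total (μ + 8663 / 10000 * c - 2) 0 with h' | h'
    · have : α * (μ + 8663 / 10000 * c - 2) ≤ 0 := mul_nonpos_of_nonneg_of_nonpos hα0 h'
      linarith
    · have : α * (μ + 8663 / 10000 * c - 2) ≤ 1 * (μ + 8663 / 10000 * c - 2) :=
        mul_le_mul_of_nonneg_right h h'
      linarith
  · set W : E := (1 / 2 : ℝ) • (y + z) - o with hW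
    have hWsq : 4 * ‖W‖ ^ 2 = 2 * ‖y - o‖ ^ 2 + 2 * ‖z - o‖ ^ 2 - α ^ 2 := by
      rw [hα, hW]
      simp only [nsq, PiLp.sub_apply, PiLp.add_apply, PiLp.smul_apply, smul_eq_mul]; ring
    have e1 : ‖y - o‖ ^ 2 ≤ (5774 / 10000) ^ 2 := by nlinarith [norm_nonneg (y - o)]
    have e2 : ‖z - o‖ ^ 2 ≤ (5774 / 10000) ^ 2 := by nlinarith [norm_nonneg (z - o)]
    have hW1 : ‖W‖ ≤ 2889 / 10000 := by
      refine (abs_le_of_sq_le_sq' ?_ (by norm_num)).2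
      nlinarith
    have hν1 : ν ≤ 8663 / 10000 := by
      have : N = W - (x - o) := by rw [hN, hW]; abel
      rw [hν, this]
      exact (norm_sub_le _ _).trans (by linarith)
    have e3 : ν * c ≤ 8663 / 10000 * c := mul_le_mul_of_nonneg_right hν1 hc0
    have e4 : 0 ≤ (α - 1) * (2 - μ) := mul_nonneg (by linarith) (by linarith)
    nlinarith

end Pool.Agent.H22.Bil
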