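import Pool.Agent.H22.Billiard

set_option autoImplicit false
open scoped InnerProductSpace

namespace Pool.Agent.H22.Bil

lemma key (f1 f2 f3 x y z o : E) (m : ℝ) (h1 : ‖f1‖ ≤ 1) (h2 : ‖f2‖ ≤ 1) (h3 : ‖f3‖ ≤ 1)
    (h8 : 8 < ‖f1 - f2‖ ^ 2 + ‖f2 - f3‖ ^ 2 + ‖f3 - f1‖ ^ 2)
    (hx : ‖x - o‖ ≤ 5774 / 10000) (hy : ‖y - o‖ ≤ 5774 / 10000) (hz : ‖z - o‖ ≤ 5774 / 10000)
    (hxy : ‖x - y‖ ≤ m) (hyz : ‖y - z‖ ≤ m) (hzx : ‖z - x‖ ≤ m) :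
    ⟪x - y, f1⟫_ℝ + ⟪y - z, f2⟫_ℝ + ⟪z - x, f3⟫_ℝ - 2 * m <
      ‖f1 - f2‖ + ‖f2 - f3‖ + ‖f3 - f1‖ - 4 := by
  by_cases hA : ‖f3 - f1‖ ≤ ‖f1 - f2‖ ∧ ‖f3 - f1‖ ≤ ‖f2 - f3‖
  · exact key_base f1 f2 f3 x y z o m h1 h2 h3 h8 hA.1 hA.2 hx hy hz hxy hyz hzx
  · by_cases hB : ‖f1 - f2‖ ≤ ‖f2 - f3‖
    · have hC : ‖f1 - f2‖ ≤ ‖f3 - f1‖ := by
        by_contra h
        push Not at h
        exact hA ⟨h.le, h.le.trans hB⟩
      have := key_base f2 f3 f1 y z x o m h2 h3 h1 (by linarith) hB hC hy hz hx hyz hzx hxy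
      linarith
    · push Not at hB
      have hC : ‖f2 - f3‖ ≤ ‖f3 - f1‖ := by
        by_contra h
        push Not at h
        exact hA ⟨h.le.trans hB.le, h.le⟩
      have := key_base f3 f1 f2 z x y o m h3 h1 h2 (by linarith) hC hB.le hz hx hy hzx hxy hyz
      linarith

lemma per_ge (q1 q2 q3 f1 f2 f3 : E) (h1 : ‖f1‖ ≤ 1) (h2 : ‖f2‖ ≤ 1) (h3 : ‖f3‖ ≤ 1) :
    ⟪q2 - q1, f1⟫_ℝ + ⟪q3 - q2, f2⟫_ℝ + ⟪q1 - q3, f3⟫_ℝ ≤ dist q1 q2 + dist q2 q3 + dist q3 q1 := by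
  have e : ∀ a b f : E, ‖f‖ ≤ 1 → ⟪b - a, f⟫_ℝ ≤ dist a b := by
    intro a b f hf
    rw [dist_comm, dist_eq_norm]
    have := real_inner_le_norm (b - a) f
    nlinarith [norm_nonneg (b - a)]
  linarith [e q1 q2 f1 h1, e q2 q3 f2 h2, e q3 q1 f3 h3]

def mk (a b : ℝ) : E := !₂[a, b]
@[simp] lemma mk0 (a b : ℝ) : mk a b 0 = a := rfl
@[simp] lemma mk1 (a b : ℝ) : mk a b 1 = b := rfl

/-- acute case -/
lemma acute (v1 v2 v3 s1 s2 s3 o : E) (m : ℝ) (h1 : ‖v1‖ = 1) (h2 : ‖v2‖ = 1) (h3 : ‖v3‖ = 1)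
    (c12 : ⟪v1, v2⟫_ℝ < 0) (c23 : ⟪v2, v3⟫_ℝ < 0) (c31 : ⟪v3, v1⟫_ℝ < 0)
    (hx : ‖s1 - o‖ ≤ 5774 / 10000) (hy : ‖s2 - o‖ ≤ 5774 / 10000) (hz : ‖s3 - o‖ ≤ 5774 / 10000)
    (hxy : ‖s1 - s2‖ ≤ m) (hyz : ‖s2 - s3‖ ≤ m) (hzx : ‖s3 - s1‖ ≤ m) :
    4 - 2 * m < dist (s1 + v1) (s2 + v2) + dist (s2 + v2) (s3 + v3) + dist (s3 + v3) (s1 + v1) := by
  have n1 : v1 0 ^ 2 + v1 1 ^ 2 = 1 := by rw [← nsq, h1]; norm_num
  have n2 : v2 0 ^ 2 + v2 1 ^ 2 = 1 := by rw [← nsq, h2]; norm_num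
  have n3 : v3 0 ^ 2 + v3 1 ^ 2 = 1 := by rw [← nsq, h3]; norm_num
  rw [inn] at c12 c23 c31
  set x1 := v1 0 with hx1
  set y1 := v1 1 with hy1
  set x2 := v2 0 with hx2
  set y2 := v2 1 with hy2
  set x3 := v3 0 with hx3
  set y3 := v3 1 with hy3
  set d1 := x2 * y3 - y2 * x3 with hd1
  set d2 := x3 * y1 - y3 * x1 with hd2
  set d3 := x1 * y2 - y1 * x2 with hd3
  have p12 : 0 < d1 * d2 := by
    have : d1 * d2 = (x2 * x3 + y2 * y3) * (x3 * x1 + y3 * y1) - (x1 * x2 + y1 * y2) * (x3 ^ 2 + y3 ^ 2) := by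
      rw [hd1, hd2]; ring
    rw [this, n3]
    nlinarith [mul_pos_of_neg_of_neg c23 c31]
  have p13 : 0 < d1 * d3 := by
    have : d1 * d3 = (x2 * x3 + y2 * y3) * (x1 * x2 + y1 * y2) - (x3 * x1 + y3 * y1) * (x2 ^ 2 + y2 ^ 2) := by
      rw [hd1, hd3]; ring
    rw [this, n2]
    nlinarith [mul_pos_of_neg_of_neg c23 c12]
  obtain ⟨σ, hσ, s1', s2', s3'⟩ : ∃ σ : ℝ, σ ^ 2 = 1 ∧ 0 < σ * d1 ∧ 0 < σ * d2 ∧ 0 < σ * d3 := by
    rcases lt_trichotomy d1 0 with h | h | h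
    · refine ⟨-1, by norm_num, by linarith, ?_, ?_⟩
      · have := neg_of_mul_pos_right p12 h.le; linarith
      · have := neg_of_mul_pos_right p13 h.le; linarith
    · rw [h] at p12; simp at p12
    · refine ⟨1, by norm_num, by linarith, ?_, ?_⟩
      · have := (pos_iff_pos_of_mul_pos p12).1 h; linarith
      · have := (pos_iff_pos_of_mul_pos p13).1 h; linarith
  -- g a b c = -σ * i * a * conj b * c
  let g : ℝ → ℝ → ℝ → ℝ → ℝ → ℝ → E := fun a0 a1 b0 b1 c0 c1 =>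
    mk (σ * ((a0 * b0 + a1 * b1) * c1 + (a1 * b0 - a0 * b1) * c0))
      (-σ * ((a0 * b0 + a1 * b1) * c0 - (a1 * b0 - a0 * b1) * c1))
  have gn : ∀ a0 a1 b0 b1 c0 c1 : ℝ, a0 ^ 2 + a1 ^ 2 = 1 → b0 ^ 2 + b1 ^ 2 = 1 →
      c0 ^ 2 + c1 ^ 2 = 1 → ‖g a0 a1 b0 b1 c0 c1‖ ≤ 1 := by
    intro a0 a1 b0 b1 c0 c1 ha hb hc
    have : ‖g a0 a1 b0 b1 c0 c1‖ ^ 2 =
        σ ^ 2 * (a0 ^ 2 + a1 ^ 2) * (b0 ^ 2 + b1 ^ 2) * (c0 ^ 2 + c1 ^ 2) := by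
      simp only [g, nsq, mk0, mk1]; ring
    rw [hσ, ha, hb, hc] at this
    nlinarith [norm_nonneg (g a0 a1 b0 b1 c0 c1)]
  set f3 := g x1 y1 x2 y2 x3 y3 with hf3
  set f1 := g x1 y1 x3 y3 x2 y2 with hf1
  set f2 := g x2 y2 x1 y1 x3 y3 with hf2
  have u1 : ‖f1‖ ≤ 1 := gn _ _ _ _ _ _ n1 n3 n2
  have u2 : ‖f2‖ ≤ 1 := gn _ _ _ _ _ _ n2 n1 n3
  have u3 : ‖f3‖ ≤ 1 := gn _ _ _ _ _ _ n1 n2 n3
  have e1 : f3 - f1 = (2 * (σ * d1)) • v1 := by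
    ext i; fin_cases i
    · simp [hf3, hf1, g, hd1, ← hx1]; ring
    · simp [hf3, hf1, g, hd1, ← hy1]; ring
  have e2 : f1 - f2 = (2 * (σ * d2)) • v2 := by
    ext i; fin_cases i
    · simp [hf2, hf1, g, hd2, ← hx2]; ring
    · simp [hf2, hf1, g, hd2, ← hy2]; ring
  have e3 : f2 - f3 = (2 * (σ * d3)) • v3 := by
    ext i; fin_cases i
    · simp [hf2, hf3, g, hd3, ← hx3]; ring
    · simp [hf2, hf3, g, hd3, ← hy3]; ring
  have l1 : ‖f3 - f1‖ = 2 * (σ * d1) := by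
    rw [e1, norm_smul, h1, mul_one, Real.norm_of_nonneg (by linarith)]
  have l2 : ‖f1 - f2‖ = 2 * (σ * d2) := by
    rw [e2, norm_smul, h2, mul_one, Real.norm_of_nonneg (by linarith)]
  have l3 : ‖f2 - f3‖ = 2 * (σ * d3) := by
    rw [e3, norm_smul, h3, mul_one, Real.norm_of_nonneg (by linarith)]
  have h8 : 8 < ‖f1 - f2‖ ^ 2 + ‖f2 - f3‖ ^ 2 + ‖f3 - f1‖ ^ 2 := by
    rw [l1, l2, l3]
    have q1 : d1 ^ 2 = (x2 ^ 2 + y2 ^ 2) * (x3 ^ 2 + y3 ^ 2) - (x2 * x3 + y2 * y3) ^ 2 := by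
      rw [hd1]; ring
    have q2 : d2 ^ 2 = (x3 ^ 2 + y3 ^ 2) * (x1 ^ 2 + y1 ^ 2) - (x3 * x1 + y3 * y1) ^ 2 := by
      rw [hd2]; ring
    have q3 : d3 ^ 2 = (x1 ^ 2 + y1 ^ 2) * (x2 ^ 2 + y2 ^ 2) - (x1 * x2 + y1 * y2) ^ 2 := by
      rw [hd3]; ring
    have q4 : (x1 ^ 2 + y1 ^ 2) * (x2 ^ 2 + y2 ^ 2) * (x3 ^ 2 + y3 ^ 2)
        + 2 * ((x1 * x2 + y1 * y2) * (x2 * x3 + y2 * y3) * (x3 * x1 + y3 * y1))
        - (x1 ^ 2 + y1 ^ 2) * (x2 * x3 + y2 * y3) ^ 2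
        - (x2 ^ 2 + y2 ^ 2) * (x3 * x1 + y3 * y1) ^ 2
        - (x3 ^ 2 + y3 ^ 2) * (x1 * x2 + y1 * y2) ^ 2 = 0 := by ring
    rw [n1, n2, n3] at q4
    rw [n2, n3] at q1
    rw [n3, n1] at q2
    rw [n1, n2] at q3
    have q5 : (x1 * x2 + y1 * y2) * (x2 * x3 + y2 * y3) * (x3 * x1 + y3 * y1) < 0 :=
      mul_neg_of_pos_of_neg (mul_pos_of_neg_of_neg c12 c23) c31
    have q6 : (2 * (σ * d2)) ^ 2 + (2 * (σ * d3)) ^ 2 + (2 * (σ * d1)) ^ 2 =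
        4 * σ ^ 2 * (d1 ^ 2 + d2 ^ 2 + d3 ^ 2) := by ring
    rw [q6, hσ, q1, q2, q3]
    linarith
  have hk := key f1 f2 f3 s1 s2 s3 o m u1 u2 u3 h8 hx hy hz hxy hyz hzx
  have hp := per_ge (s1 + v1) (s2 + v2) (s3 + v3) f1 f2 f3 u1 u2 u3
  have hid : ⟪(s2 + v2) - (s1 + v1), f1⟫_ℝ + ⟪(s3 + v3) - (s2 + v2), f2⟫_ℝ
      + ⟪(s1 + v1) - (s3 + v3), f3⟫_ℝ =
      ⟪v1, f3 - f1⟫_ℝ + ⟪v2, f1 - f2⟫_ℝ + ⟪v3, f2 - f3⟫_ℝ
      - (⟪s1 - s2, f1⟫_ℝ + ⟪s2 - s3, f2⟫_ℝ + ⟪s3 - s1, f3⟫_ℝ) := by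
    simp only [inner_sub_left, inner_sub_right, inner_add_left]; ring
  have i1 : ⟪v1, f3 - f1⟫_ℝ = ‖f3 - f1‖ := by
    rw [l1, e1, inner_smul_right, real_inner_self_eq_norm_sq, h1]; ring
  have i2 : ⟪v2, f1 - f2⟫_ℝ = ‖f1 - f2‖ := by
    rw [l2, e2, inner_smul_right, real_inner_self_eq_norm_sq, h2]; ring
  have i3 : ⟪v3, f2 - f3⟫_ℝ = ‖f2 - f3‖ := by
    rw [l3, e3, inner_smul_right, real_inner_self_eq_norm_sq, h3]; ring
  rw [hid, i1, i2, i3] at hp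
  linarith

lemma jung_alg (P Q R : ℝ) (hP : 0 < P) (hQ : 0 < Q) (hR : 0 < R) (h1 : Q + R ≤ 1)
    (h2 : P + R ≤ 1) (h3 : P + Q ≤ 1) :
    ((P + R) * Q / (2 * (P * Q + Q * R + R * P))) ^ 2 * (P + Q)
      + ((P + Q) * R / (2 * (P * Q + Q * R + R * P))) ^ 2 * (P + R)
      + 2 * ((P + R) * Q / (2 * (P * Q + Q * R + R * P)))
        * ((P + Q) * R / (2 * (P * Q + Q * R + R * P))) * P ≤ 1 / 3 := by
  have he : 0 < P * Q + Q * R + R * P := by positivity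
  have : ((P + R) * Q / (2 * (P * Q + Q * R + R * P))) ^ 2 * (P + Q)
      + ((P + Q) * R / (2 * (P * Q + Q * R + R * P))) ^ 2 * (P + R)
      + 2 * ((P + R) * Q / (2 * (P * Q + Q * R + R * P)))
        * ((P + Q) * R / (2 * (P * Q + Q * R + R * P))) * P
      = (Q + R) * (P + R) * (P + Q) / (4 * (P * Q + Q * R + R * P)) := by
    field_simp; ring
  rw [this, div_le_div_iff₀ (by positivity) (by norm_num)]
  have a1 : 0 ≤ (1 - (Q + R)) * (Q * R) := mul_nonneg (by linarith) (by positivity)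
  have a2 : 0 ≤ (1 - (P + R)) * (P * R) := mul_nonneg (by linarith) (by positivity)
  have a3 : 0 ≤ (1 - (P + Q)) * (P * Q) := mul_nonneg (by linarith) (by positivity)
  have a4 : 0 ≤ (3 / 2 - (P + Q + R)) * (P * Q + Q * R + R * P) :=
    mul_nonneg (by linarith) he.le
  nlinarith

lemma jung_obt (a b c : E) (hbc : dist b c ≤ 1) (h : ⟪b - a, c - a⟫_ℝ ≤ 0) :
    ∃ o : E, ‖a - o‖ ^ 2 ≤ 1 / 3 ∧ ‖b - o‖ ^ 2 ≤ 1 / 3 ∧ ‖c - o‖ ^ 2 ≤ 1 / 3 := by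
  have : ‖b - c‖ ^ 2 ≤ 1 := by
    rw [dist_eq_norm] at hbc; nlinarith [norm_nonneg (b - c)]
  refine ⟨(1 / 2 : ℝ) • (b + c), ?_, ?_, ?_⟩ <;>
  · simp only [nsq, inn, PiLp.sub_apply, PiLp.add_apply, PiLp.smul_apply, smul_eq_mul] at h this ⊢
    nlinarith

lemma jung3 (a b c : E) (hab : dist a b ≤ 1) (hbc : dist b c ≤ 1) (hca : dist c a ≤ 1) :
    ∃ o : E, ‖a - o‖ ^ 2 ≤ 1 / 3 ∧ ‖b - o‖ ^ 2 ≤ 1 / 3 ∧ ‖c - o‖ ^ 2 ≤ 1 / 3 := by
  by_cases h1 : ⟪b - a, c - a⟫_ℝ ≤ 0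
  · exact jung_obt a b c hbc h1
  by_cases h2 : ⟪c - b, a - b⟫_ℝ ≤ 0
  · obtain ⟨o, e1, e2, e3⟩ := jung_obt b c a hca h2
    exact ⟨o, e3, e1, e2⟩
  by_cases h3 : ⟪a - c, b - c⟫_ℝ ≤ 0
  · obtain ⟨o, e1, e2, e3⟩ := jung_obt c a b hab h3
    exact ⟨o, e2, e3, e1⟩
  push Not at h1 h2 h3
  set P := ⟪b - a, c - a⟫_ℝ with hP
  set Q := ⟪c - b, a - b⟫_ℝ with hQ
  set R := ⟪a - c, b - c⟫_ℝ with hR
  have s1 : ‖a - b‖ ^ 2 = P + Q := by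
    simp only [hP, hQ, nsq, inn, PiLp.sub_apply]; ring
  have s2 : ‖b - c‖ ^ 2 = Q + R := by
    simp only [hR, hQ, nsq, inn, PiLp.sub_apply]; ring
  have s3 : ‖c - a‖ ^ 2 = P + R := by
    simp only [hP, hR, nsq, inn, PiLp.sub_apply]; ring
  rw [dist_eq_norm] at hab hbc hca
  have t1 : P + Q ≤ 1 := by nlinarith [norm_nonneg (a - b)]
  have t2 : Q + R ≤ 1 := by nlinarith [norm_nonneg (b - c)]
  have t3 : P + R ≤ 1 := by nlinarith [norm_nonneg (c - a)]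
  have he : 0 < P * Q + Q * R + R * P := by positivity
  have gen : ∀ (a b c : E) (wa wb wc : ℝ), wa + wb + wc = 1 →
      ‖a - (wa • a + wb • b + wc • c)‖ ^ 2 =
        wb ^ 2 * ‖a - b‖ ^ 2 + wc ^ 2 * ‖c - a‖ ^ 2 + 2 * wb * wc * ⟪b - a, c - a⟫_ℝ := by
    intro a b c wa wb wc hw
    have : wa = 1 - wb - wc := by linarith
    subst this
    simp only [nsq, inn, PiLp.sub_apply, PiLp.add_apply, PiLp.smul_apply, smul_eq_mul]; ring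
  set wa := (Q + R) * P / (2 * (P * Q + Q * R + R * P)) with hwa
  set wb := (P + R) * Q / (2 * (P * Q + Q * R + R * P)) with hwb
  set wc := (P + Q) * R / (2 * (P * Q + Q * R + R * P)) with hwc
  have hw : wa + wb + wc = 1 := by rw [hwa, hwb, hwc]; field_simp; ring
  refine ⟨wa • a + wb • b + wc • c, ?_, ?_, ?_⟩
  · rw [gen a b c wa wb wc hw, s1, s3, ← hP]
    exact jung_alg P Q R h1 h2 h3 t2 t3 t1
  · have e : wa • a + wb • b + wc • c = wb • b + wc • c + wa • a := by abel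
    rw [e, gen b c a wb wc wa (by linarith), s1, s2, ← hQ]
    have := jung_alg Q R P h2 h3 h1 (by linarith) (by linarith) (by linarith)
    have r1 : (Q + P) * R / (2 * (Q * R + R * P + P * Q)) = wc := by rw [hwc]; ring_nf
    have r2 : (Q + R) * P / (2 * (Q * R + R * P + P * Q)) = wa := by rw [hwa]; ring_nf
    rw [r1, r2] at this
    linarith
  · have e : wa • a + wb • b + wc • c = wc • c + wa • a + wb • b := by abel
    rw [e, gen c a b wc wa wb (by linarith), s2, s3, ← hR]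
    have := jung_alg R P Q h3 h1 h2 (by linarith) (by linarith) (by linarith)
    have r1 : (R + Q) * P / (2 * (R * P + P * Q + Q * R)) = wa := by rw [hwa]; ring_nf
    have r2 : (R + P) * Q / (2 * (R * P + P * Q + Q * R)) = wb := by rw [hwb]; ring_nf
    rw [r1, r2] at this
    linarith

lemma three {α : Type*} [DecidableEq α] (t : Finset α) (hne : t.Nonempty) (h : t.card ≤ 3) :
    ∃ a ∈ t, ∃ b ∈ t, ∃ c ∈ t, ∀ x ∈ t, x = a ∨ x = b ∨ x = c := by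
  have h0 := hne.card_pos
  have : t.card = 1 ∨ t.card = 2 ∨ t.card = 3 := by omega
  rcases this with h | h | h
  · obtain ⟨a, rfl⟩ := Finset.card_eq_one.1 h
    exact ⟨a, by simp, a, by simp, a, by simp, by simp⟩
  · obtain ⟨a, b, _, rfl⟩ := Finset.card_eq_two.1 h
    exact ⟨a, by simp, b, by simp, b, by simp, by simp⟩
  · obtain ⟨a, b, c, _, _, _, rfl⟩ := Finset.card_eq_three.1 h
    exact ⟨a, by simp, b, by simp, c, by simp, by simp⟩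

lemma jung (C : Finset E) (h : ∀ c ∈ C, ∀ c' ∈ C, dist c c' ≤ 1) :
    ∃ o : E, ∀ c ∈ C, dist o c ≤ 5774 / 10000 := by
  classical
  have := Convex.helly_theorem' (𝕜 := ℝ) (F := fun c : E => Metric.closedBall c (5774 / 10000))
    (s := C) (fun i _ => convex_closedBall _ _) (by
      intro I hI hc
      rw [finrank_euclideanSpace_fin] at hc
      rcases I.eq_empty_or_nonempty with rfl | hne
      · simp
      obtain ⟨a, ha, b, hb, c, hc', hall⟩ := three I hne hc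
      obtain ⟨o, e1, e2, e3⟩ := jung3 a b c (h _ (hI ha) _ (hI hb)) (h _ (hI hb) _ (hI hc'))
        (h _ (hI hc') _ (hI ha))
      refine ⟨o, ?_⟩
      simp only [Set.mem_iInter, Metric.mem_closedBall]
      intro x hx
      rw [dist_comm, dist_eq_norm]
      rcases hall x hx with rfl | rfl | rfl <;>
      exact (abs_le_of_sq_le_sq' (by linarith) (by norm_num)).2)
  obtain ⟨o, ho⟩ := this
  simp only [Set.mem_iInter, Metric.mem_closedBall] at ho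
  exact ⟨o, ho⟩

lemma strong (C : Finset E) (hC : C.Nonempty) (ρ : ℝ) (a v : E) (hv : ‖v‖ = 1)
    (ha : ∀ c ∈ C, dist a c ≤ ρ)
    (hn : ∀ x : E, (∀ c ∈ C, dist x c ≤ ρ) → ⟪v, x - a⟫_ℝ ≤ 0)
    (x : E) (hx : ∀ c ∈ C, dist x c ≤ ρ) : ‖x - (a - ρ • v)‖ ≤ ρ := by
  obtain ⟨c0, hc0⟩ := hC
  have hρ : 0 ≤ ρ := dist_nonneg.trans (ha c0 hc0)
  rcases hρ.eq_or_lt with h0 | hpos
  · subst h0
    have e1 := dist_le_zero.1 (ha c0 hc0)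
    have e2 := dist_le_zero.1 (hx c0 hc0)
    simp [e1, e2]
  set B := ‖x - a‖ ^ 2 / (2 * ρ) with hB
  have hB0 : 0 ≤ B := by positivity
  have hB1 : ‖x - a‖ ^ 2 = 2 * ρ * B := by rw [hB]; field_simp
  have step : ∀ t : ℝ, 0 < t → t < 1 → ⟪v, x - a⟫_ℝ + B ≤ t * B := by
    intro t t0 t1
    have hη : 0 ≤ t * (1 - t) * B := by have : 0 < 1 - t := by linarith
                                        positivity
    have hy : ∀ c ∈ C, dist (a + t • (x - a) + (t * (1 - t) * B) • v) c ≤ ρ := by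
      intro c hc
      have e1 := ha c hc
      have e2 := hx c hc
      rw [dist_eq_norm] at e1 e2 ⊢
      have id1 : ‖a + t • (x - a) - c‖ ^ 2 =
          (1 - t) * ‖a - c‖ ^ 2 + t * ‖x - c‖ ^ 2 - t * (1 - t) * ‖x - a‖ ^ 2 := by
        simp only [nsq, PiLp.sub_apply, PiLp.add_apply, PiLp.smul_apply, smul_eq_mul]; ring
      have b1 : ‖a - c‖ ^ 2 ≤ ρ ^ 2 := by nlinarith [norm_nonneg (a - c)]
      have b2 : ‖x - c‖ ^ 2 ≤ ρ ^ 2 := by nlinarith [norm_nonneg (x - c)]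
      have b3 : ‖a + t • (x - a) - c‖ ^ 2 ≤ ρ ^ 2 - 2 * ρ * (t * (1 - t) * B) := by
        rw [id1, hB1]
        nlinarith [mul_le_mul_of_nonneg_left b1 (show 0 ≤ 1 - t by linarith),
          mul_le_mul_of_nonneg_left b2 t0.le]
      have b4 : t * (1 - t) * B ≤ ρ := by
        have := sq_nonneg ‖a + t • (x - a) - c‖
        nlinarith
      have b5 : ‖a + t • (x - a) - c‖ ≤ ρ - t * (1 - t) * B :=
        (abs_le_of_sq_le_sq' (by nlinarith [sq_nonneg (t * (1 - t) * B)]) (by linarith)).2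
      have : a + t • (x - a) + (t * (1 - t) * B) • v - c =
          (a + t • (x - a) - c) + (t * (1 - t) * B) • v := by abel
      rw [this]
      refine (norm_add_le _ _).trans ?_
      rw [norm_smul, hv, mul_one, Real.norm_of_nonneg hη]
      linarith
    have := hn _ hy
    have e : a + t • (x - a) + (t * (1 - t) * B) • v - a = t • (x - a) + (t * (1 - t) * B) • v := by
      abel
    rw [e, inner_add_right, inner_smul_right, inner_smul_right, real_inner_self_eq_norm_sq, hv] at this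
    have : t * (⟪v, x - a⟫_ℝ + (1 - t) * B) ≤ 0 := by nlinarith
    have := nonpos_of_mul_nonpos_right this t0
    linarith
  have hG : ⟪v, x - a⟫_ℝ + B ≤ 0 := by
    by_contra h
    push Not at h
    set G := ⟪v, x - a⟫_ℝ + B
    have t0 : 0 < G / (G + B + 1) := by positivity
    have t1 : G / (G + B + 1) < 1 := by rw [div_lt_one (by positivity)]; linarith
    have := step _ t0 t1
    rw [div_mul_eq_mul_div, le_div_iff₀ (by positivity)] at this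
    nlinarith
  refine (abs_le_of_sq_le_sq' ?_ hρ).2
  have e : x - (a - ρ • v) = (x - a) + ρ • v := by abel
  rw [e, norm_add_sq_real, inner_smul_right, norm_smul, hv, real_inner_comm, hB1,
    Real.norm_of_nonneg hρ]
  nlinarith

end Pool.Agent.H22.Bil
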