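import Pool.Agent.H22.Billiard2

set_option autoImplicit false
open scoped InnerProductSpace

namespace Pool.Agent.H22.Bil

def Nor (K : Set E) (p v : E) : Prop := p ∈ K ∧ ‖v‖ = 1 ∧ ∀ x ∈ K, ⟪v, x - p⟫_ℝ ≤ 0

structure Good (K : Set E) : Prop where
  cpt : IsCompact K
  ne : K.Nonempty
  ball : ∀ p v, Nor K p v → ∀ x ∈ K, ‖x - (p - v)‖ ≤ 1
  disk : ∃ o : E, ∀ p v, Nor K p v → ‖p - v - o‖ ≤ 5774 / 10000

lemma unit_dir (w : E) : ∃ u : E, ‖u‖ = 1 ∧ w = ‖w‖ • u := by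
  by_cases h : w = 0
  · refine ⟨mk 1 0, ?_, by simp [h]⟩
    have : ‖mk 1 0‖ ^ 2 = 1 := by simp [nsq]
    nlinarith [norm_nonneg (mk 1 0)]
  · have hn : ‖w‖ ≠ 0 := norm_ne_zero_iff.2 h
    refine ⟨‖w‖⁻¹ • w, ?_, ?_⟩
    · rw [norm_smul, norm_inv, norm_norm, inv_mul_cancel₀ hn]
    · rw [smul_smul, mul_inv_cancel₀ hn, one_smul]

lemma sub_ball (x c : E) (ε r : ℝ) (hε : 0 ≤ ε) (h : Metric.closedBall x ε ⊆ Metric.closedBall c r) :
    dist x c ≤ r - ε := by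
  obtain ⟨u, hu, hw⟩ := unit_dir (x - c)
  have hm : x + ε • u ∈ Metric.closedBall x ε := by
    rw [Metric.mem_closedBall, dist_eq_norm, add_sub_cancel_left, norm_smul, hu,
      Real.norm_of_nonneg hε, mul_one]
  have := h hm
  rw [Metric.mem_closedBall, dist_eq_norm] at this
  have e : x + ε • u - c = (‖x - c‖ + ε) • u := by
    rw [add_smul, ← hw]; abel
  rw [e, norm_smul, hu, mul_one, Real.norm_of_nonneg (by positivity)] at this
  rw [dist_eq_norm]; linarith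

lemma eq_of_ball (p v x : E) (hv : ‖v‖ = 1) (h1 : ‖x - (p - v)‖ ≤ 1) (h2 : 0 ≤ ⟪v, x - p⟫_ℝ) :
    x = p := by
  have e : x - (p - v) = (x - p) + v := by abel
  have h3 : ‖x - (p - v)‖ ^ 2 ≤ 1 := by nlinarith [norm_nonneg (x - (p - v))]
  rw [e, norm_add_sq_real, hv, real_inner_comm] at h3
  have : ‖x - p‖ ^ 2 ≤ 0 := by linarith
  have : ‖x - p‖ = 0 := by nlinarith [norm_nonneg (x - p)]
  exact sub_eq_zero.1 (norm_eq_zero.1 this)

lemma good_of (C : Finset E) (hC : C.Nonempty) (hd : ∀ c ∈ C, ∀ c' ∈ C, dist c c' ≤ 1)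
    (ε : ℝ) (hε : 0 < ε) (hx : ∃ x, Metric.closedBall x ε ⊆ ⋂ c' ∈ C, Metric.closedBall c' (1:ℝ)) :
    Good {y | ∃ x, Metric.closedBall x ε ⊆ (⋂ c' ∈ C, Metric.closedBall c' (1:ℝ)) ∧
      y ∈ Metric.closedBall x ε} := by
  have hA : ∀ x : E, Metric.closedBall x ε ⊆ (⋂ c' ∈ C, Metric.closedBall c' (1:ℝ)) ↔
      ∀ c ∈ C, dist x c ≤ 1 - ε := by
    intro x
    simp only [Set.subset_iInter_iff]
    constructor
    · intro h c hc
      exact sub_ball x c ε 1 hε.le (h c hc)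
    · intro h c hc
      exact Metric.closedBall_subset_closedBall' (by linarith [h c hc])
  simp only [hA] at hx ⊢
  set K : Set E := {y | ∃ x, (∀ c ∈ C, dist x c ≤ 1 - ε) ∧ y ∈ Metric.closedBall x ε} with hK
  obtain ⟨c0, hc0⟩ := id hC
  have hstr : ∀ p v, Nor K p v → ∀ x : E, (∀ c ∈ C, dist x c ≤ 1 - ε) → ‖x - (p - v)‖ ≤ 1 - ε := by
    rintro p v ⟨⟨a, ha, hpa⟩, hv, hn⟩ x hx
    have hmem : ∀ y : E, (∀ c ∈ C, dist y c ≤ 1 - ε) → y + ε • v ∈ K := by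
      intro y hy
      refine ⟨y, hy, ?_⟩
      rw [Metric.mem_closedBall, dist_eq_norm, add_sub_cancel_left, norm_smul, hv,
        Real.norm_of_nonneg hε.le, mul_one]
    have hp : p = a + ε • v := by
      have h1 := hn _ (hmem a ha)
      rw [Metric.mem_closedBall, dist_eq_norm] at hpa
      have h2 : ‖p - (a + ε • v)‖ ^ 2 ≤ 0 := by
        have e : p - (a + ε • v) = (p - a) - ε • v := by abel
        have e' : a + ε • v - p = ε • v - (p - a) := by abel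
        rw [e', inner_sub_right, inner_smul_right, real_inner_self_eq_norm_sq, hv] at h1
        rw [e, norm_sub_sq_real, inner_smul_right, norm_smul, hv, Real.norm_of_nonneg hε.le,
          real_inner_comm]
        nlinarith [norm_nonneg (p - a)]
      have : ‖p - (a + ε • v)‖ = 0 := by nlinarith [norm_nonneg (p - (a + ε • v))]
      exact sub_eq_zero.1 (norm_eq_zero.1 this)
    have := strong C hC (1 - ε) a v hv ha (by
      intro y hy
      have := hn _ (hmem y hy)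
      rw [hp] at this
      have e : y + ε • v - (a + ε • v) = y - a := by abel
      rwa [e] at this) x hx
    have e : p - v = a - (1 - ε) • v := by rw [hp, sub_smul, one_smul]; abel
    rwa [e]
  refine ⟨?_, ?_, ?_, ?_⟩
  · have hAc : IsCompact {x : E | ∀ c ∈ C, dist x c ≤ 1 - ε} := by
      apply (isCompact_closedBall c0 (1 - ε)).of_isClosed_subset
      · have : {x : E | ∀ c ∈ C, dist x c ≤ 1 - ε} = ⋂ c ∈ C, Metric.closedBall c (1 - ε) := by
          ext; simp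
        rw [this]
        exact isClosed_biInter fun c _ => Metric.isClosed_closedBall
      · intro x hx; exact hx c0 hc0
    have := (hAc.prod (isCompact_closedBall (0 : E) ε)).image continuous_add
    have e : K = (fun p : E × E => p.1 + p.2) ''
        ({x : E | ∀ c ∈ C, dist x c ≤ 1 - ε} ×ˢ Metric.closedBall (0 : E) ε) := by
      ext y
      constructor
      · rintro ⟨x, hx, hy⟩
        refine ⟨(x, y - x), ⟨hx, ?_⟩, by simp⟩
        simpa [dist_eq_norm] using hy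
      · rintro ⟨⟨x, b⟩, ⟨hx, hb⟩, rfl⟩
        refine ⟨x, hx, ?_⟩
        simpa [dist_eq_norm] using hb
    rw [e]; exact this
  · obtain ⟨x, hx⟩ := hx
    exact ⟨x, x, hx, by simp [hε.le]⟩
  · rintro p v h x ⟨a, ha, hxa⟩
    have := hstr p v h a ha
    rw [Metric.mem_closedBall, dist_eq_norm] at hxa
    have e : x - (p - v) = (x - a) + (a - (p - v)) := by abel
    rw [e]
    exact (norm_add_le _ _).trans (by linarith)
  · rcases le_total (1 - ε) (5774 / 10000) with h | h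
    · obtain ⟨x, hx⟩ := hx
      refine ⟨x, fun p v hpv => ?_⟩
      rw [norm_sub_rev]
      exact (hstr p v hpv x hx).trans h
    · obtain ⟨o, ho⟩ := jung C hd
      refine ⟨o, fun p v hpv => ?_⟩
      have : Metric.closedBall o (1 - ε - 5774 / 10000) ⊆ Metric.closedBall (p - v) (1 - ε) := by
        intro y hy
        rw [Metric.mem_closedBall, dist_eq_norm]
        apply hstr p v hpv
        intro c hc
        rw [Metric.mem_closedBall] at hy
        linarith [dist_triangle y o c, ho c hc]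
      have := sub_ball _ _ _ _ (by linarith) this
      rw [dist_comm, dist_eq_norm] at this
      linarith

lemma supp {K : Set E} (hK : Good K) (u : E) (hu : ‖u‖ = 1) : ∃ p, Nor K p u := by
  obtain ⟨p, hp, hm⟩ := hK.cpt.exists_isMaxOn hK.ne
    (f := fun x => ⟪u, x⟫_ℝ) (by fun_prop)
  refine ⟨p, hp, hu, fun x hx => ?_⟩
  have := hm hx
  rw [inner_sub_right]
  simpa using this

lemma fr {K : Set E} {p v : E} (h : Nor K p v) : p ∈ frontier K := by
  refine ⟨subset_closure h.1, fun hi => ?_⟩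
  obtain ⟨δ, hδ, hb⟩ := Metric.mem_nhds_iff.1 (mem_interior_iff_mem_nhds.1 hi)
  have : p + (δ / 2) • v ∈ K := by
    apply hb
    rw [Metric.mem_ball, dist_eq_norm, add_sub_cancel_left, norm_smul, h.2.1,
      Real.norm_of_nonneg (by linarith)]
    linarith
  have := h.2.2 _ this
  rw [add_sub_cancel_left, inner_smul_right, real_inner_self_eq_norm_sq, h.2.1] at this
  linarith

lemma diam {K : Set E} (hK : Good K) : ∃ (m : ℝ) (u a b : E), m < 2 ∧ Nor K a u ∧ Nor K b (-u) ∧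
    a - b = (2 - m) • u ∧
    ∀ p v p' v', Nor K p v → Nor K p' v' → ‖(p - v) - (p' - v')‖ ≤ m := by
  set N : Set (E × E) := {z | Nor K z.1 z.2} with hN
  have hNc : IsCompact N := by
    apply (hK.cpt.prod (isCompact_sphere (0 : E) 1)).of_isClosed_subset
    · have : N = (K ×ˢ Metric.sphere (0 : E) 1) ∩ ⋂ x ∈ K, {z : E × E | ⟪z.2, x - z.1⟫_ℝ ≤ 0} := by
        ext z
        simp [hN, Nor, and_assoc]
      rw [this]
      refine (hK.cpt.isClosed.prod Metric.isClosed_sphere).inter ?_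
      exact isClosed_biInter fun x _ => isClosed_le (by fun_prop) continuous_const
    · rintro z ⟨h1, h2, _⟩
      exact ⟨h1, by simpa using h2⟩
  obtain ⟨u0, hu0, -⟩ := unit_dir 0
  obtain ⟨p0, hp0⟩ := supp hK u0 hu0
  have hne : (N ×ˢ N).Nonempty := ⟨((p0, u0), (p0, u0)), hp0, hp0⟩
  obtain ⟨⟨⟨p, v⟩, ⟨p', v'⟩⟩, ⟨h1, h2⟩, hm⟩ := (hNc.prod hNc).exists_isMaxOn hne
    (f := fun z : (E × E) × (E × E) => ‖(z.1.1 - z.1.2) - (z.2.1 - z.2.2)‖) (by fun_prop)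
  have h1 : Nor K p v := h1
  have h2 : Nor K p' v' := h2
  have hall0 : ∀ q w q' w', Nor K q w → Nor K q' w' →
      ‖(q - w) - (q' - w')‖ ≤ ‖(p - v) - (p' - v')‖ := by
    intro q w q' w' a b
    have hz : ((q, w), (q', w')) ∈ N ×ˢ N := ⟨a, b⟩
    have := isMaxOn_iff.1 hm _ hz
    dsimp only at this
    exact this
  clear hm
  obtain ⟨m, hmdef⟩ : ∃ m, m = ‖(p - v) - (p' - v')‖ := ⟨_, rfl⟩
  have hall : ∀ q w q' w', Nor K q w → Nor K q' w' → ‖(q - w) - (q' - w')‖ ≤ m := by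
    rw [hmdef]; exact hall0
  obtain ⟨u, hu, hw⟩ := unit_dir ((p - v) - (p' - v'))
  rw [← hmdef] at hw
  have hm2 : m < 2 := by
    obtain ⟨o, ho⟩ := hK.disk
    have e : (p - v) - (p' - v') = (p - v - o) - (p' - v' - o) := by abel
    rw [hmdef, e]
    linarith [norm_sub_le (p - v - o) (p' - v' - o), ho _ _ h1, ho _ _ h2]
  have gen : ∀ (p v p' v' u a : E), Nor K p v → Nor K p' v' → (p - v) - (p' - v') = m • u →
      Nor K a u → a = p' - v' + u := by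
    intro p v p' v' u a h1 h2 hw ha
    have hu := ha.2.1
    apply eq_of_ball _ u _ hu
    · rw [add_sub_cancel_right]; exact hK.ball _ _ h2 _ ha.1
    · have b1 := hall _ _ _ _ h1 ha
      have b2 := real_inner_le_norm u ((p - v) - (a - u))
      rw [hu, one_mul] at b2
      have e : a - (p' - v' + u) = ((p - v) - (p' - v')) - ((p - v) - (a - u)) := by abel
      rw [e, inner_sub_right, hw, inner_smul_right, real_inner_self_eq_norm_sq, hu]
      linarith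
  obtain ⟨a, ha⟩ := supp hK u hu
  obtain ⟨b, hb⟩ := supp hK (-u) (by rw [norm_neg, hu])
  have ea := gen _ _ _ _ _ _ h1 h2 hw ha
  have eb := gen _ _ _ _ _ _ h2 h1 (by rw [smul_neg, ← hw]; abel) hb
  refine ⟨m, u, a, b, hm2, ha, hb, ?_, hall⟩
  rw [ea, eb, sub_smul, ← hw, two_smul]; abel

lemma obtuse {K : Set E} (hK : Good K) (m : ℝ)
    (hm : ∀ p v p' v', Nor K p v → Nor K p' v' → ‖(p - v) - (p' - v')‖ ≤ m)
    (q1 q2 q3 v1 v2 v3 : E) (h1 : Nor K q1 v1) (h2 : Nor K q2 v2) (h3 : Nor K q3 v3)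
    (μ1 μ2 μ3 : ℝ) (p1 : 0 ≤ μ1) (p2 : 0 ≤ μ2) (p3 : 0 ≤ μ3) (hs : μ1 + μ2 + μ3 = 1)
    (h0 : μ1 • v1 + μ2 • v2 + μ3 • v3 = 0) (hc : 0 ≤ ⟪v2, v3⟫_ℝ)
    (hper : dist q1 q2 + dist q2 q3 + dist q3 q1 ≤ 4 - 2 * m) :
    2 - m ≤ dist q1 q2 ∨ 2 - m ≤ dist q3 q1 := by
  have u1 := h1.2.1
  have u2 := h2.2.1
  have u3 := h3.2.1
  have hμ : 0 < μ1 := by
    rcases p1.eq_or_lt with h | h
    · exfalso
      subst h
      rw [zero_smul, zero_add] at h0
      have : ‖μ2 • v2 + μ3 • v3‖ ^ 2 = 0 := by rw [h0]; simp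
      rw [norm_add_sq_real, norm_smul, norm_smul, u2, u3, inner_smul_left, inner_smul_right,
        Real.norm_of_nonneg p2, Real.norm_of_nonneg p3] at this
      have e : 0 ≤ μ2 * (μ3 * ⟪v2, v3⟫_ℝ) := by positivity
      simp only [conj_trivial] at this
      nlinarith [sq_nonneg (μ2 - μ3)]
    · exact h
  set l2 := 2 * μ2 / μ1 with hl2
  set l3 := 2 * μ3 / μ1 with hl3
  have g2 : 0 ≤ l2 := by positivity
  have g3 : 0 ≤ l3 := by positivity
  have hrel : l2 • v2 + l3 • v3 = -((2 : ℝ) • v1) := by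
    have : l2 • v2 + l3 • v3 = (2 / μ1) • (μ1 • v1 + μ2 • v2 + μ3 • v3) - (2 : ℝ) • v1 := by
      rw [smul_add, smul_add, smul_smul, smul_smul, smul_smul, div_mul_cancel₀ _ hμ.ne',
        hl2, hl3, div_mul_eq_mul_div, div_mul_eq_mul_div]
      abel
    rw [this, h0]; simp
  have hv3 : l3 • v3 = -((2 : ℝ) • v1) - l2 • v2 := by rw [← hrel]; abel
  have nf : ‖-v1 - l2 • v2‖ ≤ 1 := by
    have e : ⟪l2 • v2, l3 • v3⟫_ℝ = l2 * l3 * ⟪v2, v3⟫_ℝ := by
      rw [inner_smul_left, inner_smul_right]; simp [mul_assoc]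
    have e0 : 0 ≤ ⟪l2 • v2, l3 • v3⟫_ℝ := by rw [e]; positivity
    rw [hv3] at e0
    have n1 : ‖v1‖ ^ 2 = 1 := by rw [u1]; norm_num
    refine (abs_le_of_sq_le_sq' ?_ zero_le_one).2
    simp only [nsq, inn, PiLp.sub_apply, PiLp.neg_apply, PiLp.smul_apply, smul_eq_mul] at e0 n1 ⊢
    nlinarith
  have hp := per_ge q1 q2 q3 (-v1) (-v1 - l2 • v2) v1 (by rw [norm_neg, u1]) nf u1.le
  obtain ⟨x, hx⟩ := supp hK (-v1) (by rw [norm_neg, u1])
  have hid : ⟪q2 - q1, -v1⟫_ℝ + ⟪q3 - q2, -v1 - l2 • v2⟫_ℝ + ⟪q1 - q3, v1⟫_ℝ =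
      2 * ⟪v1, q1 - x⟫_ℝ - ⟪l2 • v2, x - q2⟫_ℝ - ⟪l3 • v3, x - q3⟫_ℝ := by
    rw [hv3]
    simp only [inn, PiLp.sub_apply, PiLp.neg_apply, PiLp.smul_apply, smul_eq_mul]; ring
  rw [hid, inner_smul_left, inner_smul_left] at hp
  simp only [conj_trivial] at hp
  have hw : 2 - m ≤ ⟪v1, q1 - x⟫_ℝ := by
    have b1 := hm _ _ _ _ hx h1
    have b2 := real_inner_le_norm v1 ((x - -v1) - (q1 - v1))
    rw [u1, one_mul] at b2
    have e : q1 - x = (2 : ℝ) • v1 - ((x - -v1) - (q1 - v1)) := by rw [two_smul]; abel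
    rw [e, inner_sub_right, inner_smul_right, real_inner_self_eq_norm_sq, u1]
    linarith
  have hd : 2 - m ≤ dist q1 x := by
    have := real_inner_le_norm v1 (q1 - x)
    rw [u1, one_mul] at this
    rw [dist_eq_norm]; linarith
  have a2 := h2.2.2 x hx.1
  have a3 := h3.2.2 x hx.1
  have b2 : l2 * ⟪v2, x - q2⟫_ℝ ≤ 0 := mul_nonpos_of_nonneg_of_nonpos g2 a2
  have b3 : l3 * ⟪v3, x - q3⟫_ℝ ≤ 0 := mul_nonpos_of_nonneg_of_nonpos g3 a3
  rcases g2.eq_or_lt with z2 | z2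
  · right
    have z3 : 0 < l3 := by
      rcases g3.eq_or_lt with z3 | z3
      · exfalso
        rw [← z2, ← z3] at hrel
        simp only [zero_smul, add_zero, zero_eq_neg, smul_eq_zero] at hrel
        rcases hrel with h | h
        · norm_num at h
        · rw [h] at u1; simp at u1
      · exact z3
    have : 0 ≤ l3 * ⟪v3, x - q3⟫_ℝ := by linarith
    have := eq_of_ball q3 v3 x u3 (hK.ball _ _ h3 _ hx.1) (nonneg_of_mul_nonneg_right this z3)
    rw [← this, dist_comm]; exact hd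
  · left
    have : 0 ≤ l2 * ⟪v2, x - q2⟫_ℝ := by linarith
    have := eq_of_ball q2 v2 x u2 (hK.ball _ _ h2 _ hx.1) (nonneg_of_mul_nonneg_right this z2)
    rw [← this]; exact hd

lemma tri {K : Set E} (hK : Good K) (m : ℝ)
    (hm : ∀ p v p' v', Nor K p v → Nor K p' v' → ‖(p - v) - (p' - v')‖ ≤ m)
    (q1 q2 q3 v1 v2 v3 : E) (h1 : Nor K q1 v1) (h2 : Nor K q2 v2) (h3 : Nor K q3 v3)
    (μ1 μ2 μ3 : ℝ) (p1 : 0 ≤ μ1) (p2 : 0 ≤ μ2) (p3 : 0 ≤ μ3) (hs : μ1 + μ2 + μ3 = 1)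
    (h0 : μ1 • v1 + μ2 • v2 + μ3 • v3 = 0)
    (hper : dist q1 q2 + dist q2 q3 + dist q3 q1 ≤ 4 - 2 * m) :
    2 - m ≤ dist q1 q2 ∨ 2 - m ≤ dist q2 q3 ∨ 2 - m ≤ dist q3 q1 := by
  by_cases c23 : 0 ≤ ⟪v2, v3⟫_ℝ
  · rcases obtuse hK m hm q1 q2 q3 v1 v2 v3 h1 h2 h3 μ1 μ2 μ3 p1 p2 p3 hs h0 c23 hper with h | h
    · exact Or.inl h
    · exact Or.inr (Or.inr h)
  by_cases c31 : 0 ≤ ⟪v3, v1⟫_ℝ
  · rcases obtuse hK m hm q2 q3 q1 v2 v3 v1 h2 h3 h1 μ2 μ3 μ1 p2 p3 p1 (by linarith)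
      (by rw [← h0]; abel) c31 (by linarith) with h | h
    · exact Or.inr (Or.inl h)
    · exact Or.inl h
  by_cases c12 : 0 ≤ ⟪v1, v2⟫_ℝ
  · rcases obtuse hK m hm q3 q1 q2 v3 v1 v2 h3 h1 h2 μ3 μ1 μ2 p3 p1 p2 (by linarith)
      (by rw [← h0]; abel) c12 (by linarith) with h | h
    · exact Or.inr (Or.inr h)
    · exact Or.inr (Or.inl h)
  exfalso
  push Not at c12 c23 c31
  obtain ⟨o, ho⟩ := hK.disk
  have := acute v1 v2 v3 (q1 - v1) (q2 - v2) (q3 - v3) o m h1.2.1 h2.2.1 h3.2.1 c12 c23 c31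
    (ho _ _ h1) (ho _ _ h2) (ho _ _ h3) (hm _ _ _ _ h1 h2) (hm _ _ _ _ h2 h3) (hm _ _ _ _ h3 h1)
  simp only [sub_add_cancel] at this
  linarith

end Pool.Agent.H22.Bil
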