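import Pool.Agent.H22.Billiard3

set_option autoImplicit false
open scoped InnerProductSpace

namespace Pool.Agent.H22.Bil

lemma per_le (n : ℕ) (hn : 0 < n) (p : ℕ → E) (hp : ∀ i, p (i + n) = p i) (i j k : ℕ) :
    dist (p i) (p j) + dist (p j) (p k) + dist (p k) (p i) ≤
      ∑ t ∈ Finset.range n, dist (p t) (p (t + 1)) := by
  have hper : Function.Periodic p n := hp
  have srt : ∀ i j k : ℕ, i ≤ j → j ≤ k → k ≤ n →
      dist (p i) (p j) + dist (p j) (p k) + dist (p k) (p i) ≤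
        ∑ t ∈ Finset.range n, dist (p t) (p (t + 1)) := by
    intro i j k hij hjk hkn
    have e0 := dist_le_Ico_sum_dist p (Nat.zero_le i)
    have e1 := dist_le_Ico_sum_dist p hij
    have e2 := dist_le_Ico_sum_dist p hjk
    have e3 := dist_le_Ico_sum_dist p hkn
    have s1 := Finset.sum_Ico_consecutive (fun t => dist (p t) (p (t + 1))) (Nat.zero_le i) hij
    have s2 := Finset.sum_Ico_consecutive (fun t => dist (p t) (p (t + 1))) (Nat.zero_le j) hjk
    have s3 := Finset.sum_Ico_consecutive (fun t => dist (p t) (p (t + 1))) (Nat.zero_le k) hkn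
    have e4 : p n = p 0 := by simpa using hp 0
    have e5 := dist_triangle (p k) (p 0) (p i)
    rw [e4] at e3
    rw [Finset.range_eq_Ico]
    linarith
  have all : ∀ i j k : ℕ, i ≤ n → j ≤ n → k ≤ n →
      dist (p i) (p j) + dist (p j) (p k) + dist (p k) (p i) ≤
        ∑ t ∈ Finset.range n, dist (p t) (p (t + 1)) := by
    intro i j k hi hj hk
    have c1 := dist_comm (p i) (p j)
    have c2 := dist_comm (p j) (p k)
    have c3 := dist_comm (p k) (p i)
    rcases le_total i j with a | a <;> rcases le_total j k with b | b <;>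
      rcases le_total i k with c | c
    · linarith [srt i j k a b hk]
    · linarith [srt i j k a b hk]
    · linarith [srt i k j c b hj]
    · linarith [srt k i j c a hj]
    · linarith [srt j i k a c hk]
    · linarith [srt j k i b c hi]
    · linarith [srt k j i b a hi]
    · linarith [srt k j i b a hi]
  rw [← hper.map_mod_nat i, ← hper.map_mod_nat j, ← hper.map_mod_nat k]
  exact all _ _ _ (Nat.mod_lt _ hn).le (Nat.mod_lt _ hn).le (Nat.mod_lt _ hn).le

lemma ends {K : Set E} (hK : Good K) (a b x v : E) (ha : a ∈ K) (hb : b ∈ K) (hx : Nor K x v)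
    (h : dist a x + dist x b ≤ dist a b) : x = a ∨ x = b := by
  have h' : dist a x + dist x b = dist a b := le_antisymm h (dist_triangle _ _ _)
  obtain ⟨t, ⟨t0, t1⟩, ht⟩ := dist_add_dist_eq_iff.1 h'
  rw [AffineMap.lineMap_apply] at ht
  have n1 := hx.2.2 a ha
  have n2 := hx.2.2 b hb
  have e : (1 - t) * ⟪v, a - x⟫_ℝ + t * ⟪v, b - x⟫_ℝ = 0 := by
    rw [← ht]
    simp only [inn, vsub_eq_sub, vadd_eq_add, PiLp.sub_apply, PiLp.add_apply, PiLp.smul_apply,
      smul_eq_mul]
    ring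
  have m1 : (1 - t) * ⟪v, a - x⟫_ℝ ≤ 0 := mul_nonpos_of_nonneg_of_nonpos (by linarith) n1
  have m2 : t * ⟪v, b - x⟫_ℝ ≤ 0 := mul_nonpos_of_nonneg_of_nonpos t0 n2
  rcases t0.eq_or_lt with z | z
  · left
    rw [← z] at e
    exact (eq_of_ball x v a hx.2.1 (hK.ball _ _ hx _ ha) (by linarith)).symm
  · right
    have : 0 ≤ t * ⟪v, b - x⟫_ℝ := by linarith
    exact (eq_of_ball x v b hx.2.1 (hK.ball _ _ hx _ hb) (nonneg_of_mul_nonneg_right this z)).symm

def Traj (K : Set E) (n : ℕ) (p : ℕ → E) : Prop :=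
  2 ≤ n ∧ (∀ i, p (i + n) = p i) ∧ (∀ i, p i ∈ frontier K) ∧ (∀ i, p i ≠ p (i + 1)) ∧
        ∀ i, ∃ v : E, ‖v‖ = 1 ∧
          (∀ x ∈ K, ⟪v, x - p (i + 1)⟫_ℝ ≤ 0) ∧
          ‖p (i + 2) - p (i + 1)‖⁻¹ • (p (i + 2) - p (i + 1)) =
            (2 * ⟪v, ‖p i - p (i + 1)‖⁻¹ • (p i - p (i + 1))⟫_ℝ) • v
              - ‖p i - p (i + 1)‖⁻¹ • (p i - p (i + 1))

lemma refl_two (a b u : E) (w : ℝ) (hw : 0 < w) (hu : ‖u‖ = 1) (h : a - b = w • u) :
    ‖b - a‖⁻¹ • (b - a) = (2 * ⟪u, ‖b - a‖⁻¹ • (b - a)⟫_ℝ) • u - ‖b - a‖⁻¹ • (b - a) := by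
  have e : b - a = (-w) • u := by rw [neg_smul, ← h]; abel
  have e2 : ‖b - a‖⁻¹ • (b - a) = -u := by
    rw [e, norm_smul, hu, mul_one, norm_neg, Real.norm_of_nonneg hw.le, smul_smul]
    rw [mul_neg, inv_mul_cancel₀ hw.ne', neg_smul, one_smul]
  rw [e2, inner_neg_right, real_inner_self_eq_norm_sq, hu]
  rw [show (2 * -(1:ℝ) ^ 2) = -2 by norm_num, neg_smul, two_smul]; abel

lemma two_traj {K : Set E} (a b u : E) (w : ℝ) (hw : 0 < w) (ha : Nor K a u) (hb : Nor K b (-u))
    (h : a - b = w • u) : ∃ q : ℕ → E, Traj K 2 q ∧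
      ∑ i ∈ Finset.range 2, dist (q i) (q (i + 1)) = 2 * w := by
  have hd : dist a b = w := by
    rw [dist_eq_norm, h, norm_smul, ha.2.1, mul_one, Real.norm_of_nonneg hw.le]
  have hne : a ≠ b := by
    intro e; rw [e, dist_self] at hd; linarith
  refine ⟨fun i => if i % 2 = 0 then a else b, ⟨le_rfl, ?_, ?_, ?_, ?_⟩, ?_⟩
  · intro i; simp
  · intro i
    by_cases hi : i % 2 = 0
    · simp only [hi, if_true]; exact fr ha
    · simp only [hi, if_false]; exact fr hb
  · intro i
    by_cases hi : i % 2 = 0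
    · have : ¬ (i + 1) % 2 = 0 := by omega
      simp only [hi, this, if_true, if_false]; exact hne
    · have : (i + 1) % 2 = 0 := by omega
      simp only [hi, this, if_true, if_false]; exact hne.symm
  · intro i
    by_cases hi : i % 2 = 0
    · have h1 : ¬ (i + 1) % 2 = 0 := by omega
      have h2 : (i + 2) % 2 = 0 := by omega
      simp only [hi, h1, h2, if_true, if_false]
      exact ⟨-u, hb.2.1, hb.2.2, refl_two b a (-u) w hw hb.2.1 (by rw [smul_neg, ← h]; abel)⟩
    · have h1 : (i + 1) % 2 = 0 := by omega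
      have h2 : ¬ (i + 2) % 2 = 0 := by omega
      simp only [hi, h1, h2, if_true, if_false]
      exact ⟨u, ha.2.1, ha.2.2, refl_two a b u w hw ha.2.1 h⟩
  · simp [Finset.sum_range_succ, hd, dist_comm b a]; ring

theorem main {K : Set E} (hK : Good K) (n : ℕ) (p : ℕ → E) (hp : Traj K n p)
    (hmin : ∀ (m : ℕ) (q : ℕ → E), Traj K m q →
      (∑ i ∈ Finset.range n, dist (p i) (p (i + 1))) ≤ ∑ i ∈ Finset.range m, dist (q i) (q (i + 1))) :
    ∀ i, p (i + 2) = p i := by
  classical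
  obtain ⟨m, u, a, b, hm2, ha, hb, hab, hall⟩ := diam hK
  obtain ⟨q, hq, hlen⟩ := two_traj a b u (2 - m) (by linarith) ha hb hab
  have hL := hmin 2 q hq
  rw [hlen] at hL
  obtain ⟨hn, hper, hfr, hne, hrefl⟩ := hp
  choose v hv1 hv2 hv3 using hrefl
  have hmem : ∀ i, p i ∈ K := fun i => hK.cpt.isClosed.frontier_subset (hfr i)
  have hnor : ∀ i, Nor K (p (i + 1)) (v i) := fun i => ⟨hmem _, hv1 i, hv2 i⟩
  set e : ℕ → E := fun i => ‖p (i + 1) - p i‖⁻¹ • (p (i + 1) - p i) with he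
  set l : ℕ → ℝ := fun i => 2 * ⟪v i, e i⟫_ℝ with hl
  have hneg : ∀ i, ‖p i - p (i + 1)‖⁻¹ • (p i - p (i + 1)) = -e i := by
    intro i
    rw [he]; dsimp only
    rw [norm_sub_rev (p i), ← smul_neg, neg_sub]
  have hdiff : ∀ i, e i - e (i + 1) = l i • v i := by
    intro i
    have := hv3 i
    rw [hneg, inner_neg_right] at this
    have e1 : e (i + 1) = ‖p (i + 2) - p (i + 1)‖⁻¹ • (p (i + 2) - p (i + 1)) := rfl
    rw [e1, this, hl]; dsimp only
    rw [mul_neg, neg_smul]; abel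
  have hlpos : ∀ i, 0 < l i := by
    intro i
    have h1 : ⟪v i, p i - p (i + 1)⟫_ℝ < 0 := by
      by_contra h
      push Not at h
      exact hne i (eq_of_ball _ _ _ (hv1 i) (hK.ball _ _ (hnor i) _ (hmem i)) h)
    have h2 : 0 < ‖p (i + 1) - p i‖ := norm_pos_iff.2 (sub_ne_zero.2 (hne i).symm)
    rw [hl, he]; dsimp only
    rw [inner_smul_right, ← neg_sub (p i), inner_neg_right]
    have : 0 < ‖-(p i - p (i + 1))‖⁻¹ := by rw [neg_sub]; positivity
    nlinarith
  have hsum : ∑ i ∈ Finset.range n, l i • v i = 0 := by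
    rw [← Finset.sum_congr rfl (fun i _ => hdiff i), Finset.sum_range_sub']
    have e1 : p n = p 0 := by simpa using hper 0
    have e2 : p (n + 1) = p (0 + 1) := by rw [← hper (0 + 1)]; congr 1; omega
    rw [he]; dsimp only
    rw [e1, e2, sub_self]
  have hconv : (0 : E) ∈ convexHull ℝ (Set.range v) := by
    have := Finset.centerMass_mem_convexHull (Finset.range n) (w := l) (fun i _ => (hlpos i).le)
      (Finset.sum_pos (fun i _ => hlpos i) ⟨0, by simp; omega⟩) (z := v) (s := Set.range v)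
      (fun i _ => ⟨i, rfl⟩)
    rwa [Finset.centerMass, hsum, smul_zero] at this
  rw [convexHull_eq_union] at hconv
  simp only [Set.mem_iUnion] at hconv
  obtain ⟨t, hts, hind, h0⟩ := hconv
  have hcard : t.card ≤ 3 := by
    have h1 := hind.card_le_finrank_succ
    have h2 := Submodule.finrank_le (vectorSpan ℝ (Set.range ((↑) : t → E)))
    rw [finrank_euclideanSpace_fin] at h2
    rw [Fintype.card_coe] at h1
    omega
  have htne : t.Nonempty := by
    by_contra h
    rw [Finset.not_nonempty_iff_eq_empty] at h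
    simp [h] at h0
  obtain ⟨x, hx, y, hy, z, hz, hall3⟩ := three t htne hcard
  obtain ⟨i, rfl⟩ := hts hx
  obtain ⟨j, rfl⟩ := hts hy
  obtain ⟨k, rfl⟩ := hts hz
  have h1 : (0 : E) ∈ convexHull ℝ ({v i, v j, v k} : Set E) :=
    convexHull_mono (fun w hw => by simpa using hall3 w hw) h0
  rw [convexHull_insert (by simp), convexHull_pair] at h1
  obtain ⟨x, hx', w, ⟨c, d, hc, hd, hcd, rfl⟩, s, r, hs, hr, hsr, h2⟩ := mem_convexJoin.1 h1
  rw [Set.mem_singleton_iff] at hx'
  subst hx'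
  have hpl := fun i j k => (per_le n (by omega) p hper i j k).trans hL
  have htri := tri hK m hall _ _ _ _ _ _ (hnor i) (hnor j) (hnor k) s (r * c) (r * d) hs
    (by positivity) (by positivity) (by rw [add_assoc, ← mul_add, hcd]; linarith)
    (by rw [← h2, smul_add, smul_smul, smul_smul, add_assoc]) (by linarith [hpl (i + 1) (j + 1) (k + 1)])
  obtain ⟨i, j, hij⟩ : ∃ i j, 2 - m ≤ dist (p i) (p j) := by
    rcases htri with h | h | h <;> exact ⟨_, _, h⟩
  have hend : ∀ k, p k = p i ∨ p k = p j := by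
    intro k
    have hk : Nor K (p k) (v (k + n - 1)) := by
      have := hnor (k + n - 1)
      rwa [show k + n - 1 + 1 = k + n by omega, hper] at this
    apply ends hK _ _ _ _ (hmem i) (hmem j) hk
    have := hpl i k j
    rw [dist_comm (p j) (p i)] at this
    linarith
  intro k
  have a0 := hne k
  have a1 := hne (k + 1)
  rcases hend k with h0 | h0 <;> rcases hend (k + 1) with h1 | h1 <;>
    rcases hend (k + 2) with h2 | h2 <;> simp_all

end Pool.Agent.H22.Bil
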