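import Mathlib

set_option autoImplicit false
set_option maxRecDepth 100000

namespace Pool.Agent.H22.NonRep
open Finset

abbrev St := Bool × Bool × Bool × Bool × Bool × Bool

def nx (s : St) (bc b1 b2 : Bool) : St := (bc, s.1, s.2.1, b1, b2, b2 && s.2.2.2.2.1)
def blk (s : St) (b0 b1 b2 : Bool) : Bool := b0 || (b1 && s.2.2.2.1) || (b2 && s.2.2.2.2.2)
def val (f : St → ℕ) (pc : ℕ) (s : St) (bc b0 b1 b2 : Bool) : ℕ :=
  if blk s b0 b1 b2 then 0 else f (nx s bc b1 b2) - (if bc then pc else 0)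
def vc (f : St → ℕ) (pc : ℕ) (s : St) : ℕ := val f pc s true s.1 s.2.1 s.2.2.1
def v1 (f : St → ℕ) (pc : ℕ) (s : St) : ℕ := val f pc s false false true false
def v2 (f : St → ℕ) (pc : ℕ) (s : St) : ℕ := val f pc s false false false true
def vf (f : St → ℕ) (pc : ℕ) (s : St) : ℕ := val f pc s false false false false
def d0 (s : St) (θ : ℕ) : ℕ := if s.1 then 0 else θ
def d1 (f : St → ℕ) (pc : ℕ) (s : St) (θ : ℕ) : ℕ := if s.2.1 then 0 else θ - v1 f pc s
def d2 (f : St → ℕ) (pc : ℕ) (s : St) (θ : ℕ) : ℕ := if s.2.2.1 || s.2.2.2.1 then 0 else θ - v2 f pc s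
def defs (f : St → ℕ) (pc : ℕ) (s : St) (θ : ℕ) : ℕ :=
  (θ - vc f pc s) + d0 s θ + d1 f pc s θ + d2 f pc s θ

def Ok (f g : St → ℕ) (w pc : ℕ) : Prop :=
  ∀ s, g s = 0 ∨ ∃ θ, θ ≤ vf f pc s ∧ g s + w + defs f pc s θ ≤ 4 * θ

lemma val_scale (t : ℕ) (f : St → ℕ) (pc : ℕ) (s : St) (bc b0 b1 b2 : Bool) :
    val (fun s => t * f s) (t * pc) s bc b0 b1 b2 = t * val f pc s bc b0 b1 b2 := by
  unfold val
  split_ifs <;> simp [Nat.mul_sub]

lemma Ok.scale {f g : St → ℕ} {w pc : ℕ} (h : Ok f g w pc) (t : ℕ) :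
    Ok (fun s => t * f s) (fun s => t * g s) (t * w) (t * pc) := by
  intro s
  rcases h s with h0 | ⟨θ, h1, h2⟩
  · left; simp [h0]
  · right
    refine ⟨t * θ, ?_, ?_⟩
    · unfold vf at *; rw [val_scale]; exact Nat.mul_le_mul_left _ h1
    · have : defs (fun s => t * f s) (t * pc) s (t * θ) = t * defs f pc s θ := by
        unfold defs d0 d1 d2 vc v1 v2
        simp only [val_scale, Nat.mul_add, ← Nat.mul_sub]
        split_ifs <;> simp
      rw [this]
      calc t * g s + t * w + t * defs f pc s θ = t * (g s + w + defs f pc s θ) := by ring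
        _ ≤ t * (4 * θ) := Nat.mul_le_mul_left _ h2
        _ = 4 * (t * θ) := by ring

def st (c k : ℕ) (W : ℕ → ℕ) : St :=
  (decide (W k = c), decide (1 ≤ k ∧ W (k-1) = c), decide (2 ≤ k ∧ W (k-2) = c),
   decide (2 ≤ k ∧ W k = W (k-2)), decide (3 ≤ k ∧ W k = W (k-3)),
   decide (3 ≤ k ∧ W k = W (k-3)) && decide (4 ≤ k ∧ W (k-1) = W (k-4)))

def wv (f : St → ℕ) (pc c k : ℕ) (W : ℕ → ℕ) (x : ℕ) : ℕ :=
  val f pc (st c k W) (decide (x = c)) (decide (x = W k)) (decide (1 ≤ k ∧ x = W (k-1)))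
    (decide (2 ≤ k ∧ x = W (k-2)))

lemma st_succ (c k : ℕ) (W : ℕ → ℕ) :
    st c (k+1) W = nx (st c k W) (decide (W (k+1) = c)) (decide (1 ≤ k ∧ W (k+1) = W (k-1)))
      (decide (2 ≤ k ∧ W (k+1) = W (k-2))) := by
  have e1 : k + 1 - 1 = k := by omega
  have e2 : k + 1 - 2 = k - 1 := by omega
  have e3 : k + 1 - 3 = k - 2 := by omega
  have e4 : k + 1 - 4 = k - 3 := by omega
  have a1 : (1 ≤ k + 1) = True := by simp
  have a2 : (2 ≤ k + 1) = (1 ≤ k) := by simp only [eq_iff_iff]; omega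
  have a3 : (3 ≤ k + 1) = (2 ≤ k) := by simp only [eq_iff_iff]; omega
  have a4 : (4 ≤ k + 1) = (3 ≤ k) := by simp only [eq_iff_iff]; omega
  unfold st nx
  simp only [e1, e2, e3, e4, a1, a2, a3, a4, true_and]

lemma st_congr (c k : ℕ) (W W' : ℕ → ℕ) (h : ∀ t, t ≤ k → W t = W' t) : st c k W = st c k W' := by
  unfold st
  rw [h k le_rfl, h (k-1) (by omega), h (k-2) (by omega), h (k-3) (by omega), h (k-4) (by omega)]

lemma wv_congr (f : St → ℕ) (pc c k : ℕ) (W W' : ℕ → ℕ) (h : ∀ t, t ≤ k → W t = W' t) (x : ℕ) :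
    wv f pc c k W x = wv f pc c k W' x := by
  unfold wv
  rw [st_congr c k W W' h, h k le_rfl, h (k-1) (by omega), h (k-2) (by omega)]

lemma sum_ite_le (l : Finset ℕ) (y A : ℕ) : ∑ x ∈ l, (if x = y then A else 0) ≤ A := by
  rw [Finset.sum_ite_eq']; split_ifs <;> omega

lemma local_bound (f g : St → ℕ) (w pc c k : ℕ) (W : ℕ → ℕ) (h : Ok f g w pc)
    (hsq : 2 ≤ k → W (k-1) ≠ W (k-2)) (l : Finset ℕ) (hl : l.card = 4) (hg : 0 < g (st c k W)) :
    g (st c k W) + w ≤ ∑ x ∈ l, wv f pc c k W x := by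
  rcases h (st c k W) with h0 | ⟨θ, h1, h2⟩
  · omega
  have key : ∀ x ∈ l, θ ≤ wv f pc c k W x +
      ((if x = c then θ - vc f pc (st c k W) else 0) + (if x = W k then d0 (st c k W) θ else 0) +
       (if x = W (k-1) then d1 f pc (st c k W) θ else 0) +
       (if x = W (k-2) then d2 f pc (st c k W) θ else 0)) := by
    intro x _
    by_cases hc : x = c
    · have : wv f pc c k W x = vc f pc (st c k W) := by
        subst hc
        unfold wv vc
        simp only [st, decide_true, eq_comm]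
      rw [this, if_pos hc]; omega
    by_cases h0 : x = W k
    · have : d0 (st c k W) θ = θ := by
        unfold d0 st
        have : ¬ W k = c := by rw [← h0]; exact hc
        simp [this]
      rw [if_pos h0, this]; omega
    by_cases hb1 : 1 ≤ k ∧ x = W (k-1)
    · have hb2 : ¬ (2 ≤ k ∧ x = W (k-2)) := fun hh => hsq hh.1 (by rw [← hb1.2, hh.2])
      have e1 : wv f pc c k W x = v1 f pc (st c k W) := by
        unfold wv v1
        rw [decide_eq_false hc, decide_eq_false h0, decide_eq_true hb1, decide_eq_false hb2]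
      have e2 : d1 f pc (st c k W) θ = θ - v1 f pc (st c k W) := by
        unfold d1
        have : ¬ (1 ≤ k ∧ W (k-1) = c) := fun hh => hc (by rw [hb1.2, hh.2])
        have h3 : (st c k W).2.1 = false := decide_eq_false this
        simp [h3]
      rw [e1, if_pos hb1.2, e2]; omega
    by_cases hb2 : 2 ≤ k ∧ x = W (k-2)
    · have e1 : wv f pc c k W x = v2 f pc (st c k W) := by
        unfold wv v2
        rw [decide_eq_false hc, decide_eq_false h0, decide_eq_false hb1, decide_eq_true hb2]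
      have e2 : d2 f pc (st c k W) θ = θ - v2 f pc (st c k W) := by
        unfold d2
        have t1 : ¬ (2 ≤ k ∧ W (k-2) = c) := fun hh => hc (by rw [hb2.2, hh.2])
        have t2 : ¬ (2 ≤ k ∧ W k = W (k-2)) := fun hh => h0 (by rw [hb2.2, hh.2])
        have h3 : (st c k W).2.2.1 = false := decide_eq_false t1
        have h4 : (st c k W).2.2.2.1 = false := decide_eq_false t2
        simp [h3, h4]
      rw [e1, if_pos hb2.2, e2]; omega
    · have e1 : wv f pc c k W x = vf f pc (st c k W) := by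
        unfold wv vf
        rw [decide_eq_false hc, decide_eq_false h0, decide_eq_false hb1, decide_eq_false hb2]
      rw [e1]; omega
  have s1 := Finset.sum_le_sum key
  rw [Finset.sum_const, hl, Finset.sum_add_distrib, Finset.sum_add_distrib, Finset.sum_add_distrib,
    Finset.sum_add_distrib] at s1
  have b1 := sum_ite_le l c (θ - vc f pc (st c k W))
  have b2 := sum_ite_le l (W k) (d0 (st c k W) θ)
  have b3 := sum_ite_le l (W (k-1)) (d1 f pc (st c k W) θ)
  have b4 := sum_ite_le l (W (k-2)) (d2 f pc (st c k W) θ)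
  unfold defs at h2
  simp only [smul_eq_mul] at s1
  omega

open Classical in
noncomputable def U (c : ℕ) (l : ℕ → Finset ℕ) : ℕ → Finset (ℕ → ℕ)
  | 0 => {fun t => if t = 0 then c else 0}
  | k+1 => ((U c l k) ×ˢ l (k+1)).image (fun p => Function.update p.1 (k+1) p.2)

def tr (k : ℕ) (W : ℕ → ℕ) : ℕ → ℕ := fun t => if t ≤ k then W t else 0

lemma tr_le (k : ℕ) (W : ℕ → ℕ) (t : ℕ) (h : t ≤ k) : tr k W t = W t := by simp [tr, h]

lemma mem_U (c : ℕ) (l : ℕ → Finset ℕ) (k : ℕ) (W : ℕ → ℕ) :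
    W ∈ U c l k ↔ W 0 = c ∧ (∀ t, 1 ≤ t → t ≤ k → W t ∈ l t) ∧ ∀ t, k < t → W t = 0 := by
  induction k generalizing W with
  | zero =>
    simp only [U, Finset.mem_singleton]
    constructor
    · rintro rfl
      refine ⟨by simp, fun t h1 h2 => by omega, fun t ht => ?_⟩
      have : t ≠ 0 := by omega
      simp [this]
    · rintro ⟨h1, -, h3⟩
      funext t
      by_cases ht : t = 0
      · simp [ht, h1]
      · simp [ht, h3 t (by omega)]
  | succ k ih =>
    simp only [U, Finset.mem_image, Finset.mem_product]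
    constructor
    · rintro ⟨⟨u, x⟩, ⟨hu, hx⟩, rfl⟩
      obtain ⟨h1, h2, h3⟩ := (ih u).1 hu
      refine ⟨?_, fun t t1 t2 => ?_, fun t ht => ?_⟩
      · rw [Function.update_of_ne (by omega)]; exact h1
      · by_cases e : t = k + 1
        · subst e; simpa using hx
        · rw [Function.update_of_ne e]; exact h2 t t1 (by omega)
      · rw [Function.update_of_ne (by omega)]; exact h3 t (by omega)
    · rintro ⟨h1, h2, h3⟩
      refine ⟨(tr k W, W (k+1)), ⟨(ih _).2 ⟨?_, fun t t1 t2 => ?_, fun t ht => ?_⟩,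
        h2 _ (by omega) le_rfl⟩, ?_⟩
      · dsimp only; rw [tr_le k W 0 (by omega)]; exact h1
      · dsimp only; rw [tr_le _ _ _ t2]; exact h2 t t1 (by omega)
      · simp only [tr]; rw [if_neg (by omega)]
      · funext t
        by_cases e : t = k + 1
        · subst e; simp
        · rw [Function.update_of_ne e]
          by_cases e2 : t ≤ k
          · exact tr_le _ _ _ e2
          · simp only [tr]; rw [if_neg e2, h3 t (by omega)]

lemma card_le_of_det (A Z : Finset (ℕ → ℕ)) (k K : ℕ) (ρ : ℕ → ℕ)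
    (h1 : ∀ W ∈ A, tr k W ∈ Z) (h2 : ∀ W ∈ A, ∀ t, K < t → W t = 0)
    (h3 : ∀ W ∈ A, ∀ t, k < t → t ≤ K → W t = W (ρ t))
    (h4 : ∀ t, k < t → t ≤ K → ρ t ≤ k) : A.card ≤ Z.card := by
  refine Finset.card_le_card_of_injOn (tr k) (fun W hW => h1 W hW) ?_
  intro W hW W' hW' e
  have lo : ∀ t, t ≤ k → W t = W' t := fun t ht => by
    rw [← tr_le k W t ht, ← tr_le k W' t ht, e]
  funext t
  by_cases a : t ≤ k
  · exact lo t a
  by_cases b : t ≤ K
  · rw [h3 W hW t (by omega) b, h3 W' hW' t (by omega) b]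
    exact lo _ (h4 t (by omega) b)
  · rw [h2 W hW t (by omega), h2 W' hW' t (by omega)]

def lsqAt (k K : ℕ) (W : ℕ → ℕ) : Prop := ∀ t, k < t → t ≤ K → W t = W (t - (K - k))
def lsq (K : ℕ) (W : ℕ → ℕ) : Prop := ∃ k, (k + 3 < K ∧ K ≤ 2 * k + 1) ∧ lsqAt k K W
def mrk (K : ℕ) (W : ℕ → ℕ) : Prop := 4 ≤ K ∧ ∀ t, K - 3 ≤ t → t ≤ K → W t = W (t - (K - 3))

def cnd (f : ℕ → St → ℕ) (pc : ℕ → ℕ) (c j : ℕ) (W : ℕ → ℕ) : Prop :=
  0 < wv (f (j+1)) (pc (j+1)) c j W (W (j+1)) ∧ ¬ lsq (j+1) W ∧ ¬ mrk (j+1) W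

lemma cnd_congr (f : ℕ → St → ℕ) (pc : ℕ → ℕ) (c j : ℕ) (W W' : ℕ → ℕ)
    (h : ∀ t, t ≤ j + 1 → W t = W' t) (hc : cnd f pc c j W) : cnd f pc c j W' := by
  obtain ⟨h1, h2, h3⟩ := hc
  refine ⟨?_, ?_, ?_⟩
  · rw [← wv_congr _ _ c j W W' (fun t ht => h t (by omega)), ← h _ le_rfl]; exact h1
  · rintro ⟨k, hk, hq⟩
    refine h2 ⟨k, hk, fun t t1 t2 => ?_⟩
    rw [h t t2, h _ (by omega)]; exact hq t t1 t2
  · rintro ⟨hk, hq⟩
    refine h3 ⟨hk, fun t t1 t2 => ?_⟩
    rw [h t t2, h _ (by omega)]; exact hq t t1 t2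

end Pool.Agent.H22.NonRep
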