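import Mathlib
import Pool.Agent.H22.NonRep

set_option autoImplicit false
set_option maxRecDepth 100000

namespace Pool.Agent.H22.Tree
open Finset Pool.Agent.H22.NonRep

section
variable {π : Type} (N c : ℕ) (l : ℕ → Finset ℕ) (φ : ℕ → (ℕ → ℕ) → ℝ)
  (E : ℕ → Finset π) (K : ℕ → π → ℕ) (pre : ℕ → π → (ℕ → ℕ) → Prop)
  (ext : ℕ → π → (ℕ → ℕ) → ℕ → ℕ)

def ev (k : ℕ) (p : π) (W : ℕ → ℕ) : Prop :=
  pre k p (tr k W) ∧ ∀ t, k < t → t ≤ K k p → W t = ext k p (tr k W) t

def good (j : ℕ) (W : ℕ → ℕ) : Prop :=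
  (∀ i, i ≤ j → 0 < φ i W) ∧ ∀ k, k < N → ∀ p ∈ E k, K k p ≤ j → ¬ ev K pre ext k p W

open Classical in
noncomputable def S (j : ℕ) : Finset (ℕ → ℕ) := (U c l j).filter (fun W => good N φ E K pre ext j W)
open Classical in
noncomputable def T (j : ℕ) : Finset (ℕ → ℕ) := (U c l (j+1)).filter (fun W => good N φ E K pre ext j W)

variable {N c l φ E K pre ext}

lemma mem_S {j : ℕ} {W : ℕ → ℕ} :
    W ∈ S N c l φ E K pre ext j ↔ W ∈ U c l j ∧ good N φ E K pre ext j W := by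
  unfold S; simp only [Finset.mem_filter]
lemma mem_T {j : ℕ} {W : ℕ → ℕ} :
    W ∈ T N c l φ E K pre ext j ↔ W ∈ U c l (j+1) ∧ good N φ E K pre ext j W := by
  unfold T; simp only [Finset.mem_filter]

lemma tr_congr (k : ℕ) (W W' : ℕ → ℕ) (h : ∀ t, t ≤ k → W t = W' t) : tr k W = tr k W' := by
  funext t; unfold tr; split_ifs with a
  · exact h t a
  · rfl

lemma good_congr (hφc : ∀ k W W', (∀ t, t ≤ k → W t = W' t) → φ k W = φ k W')
    (hK : ∀ k, ∀ p ∈ E k, k < K k p ∧ K k p ≤ N) {j j' : ℕ} {W W' : ℕ → ℕ} (hj : j' ≤ j)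
    (h : ∀ t, t ≤ j' → W t = W' t) (hg : good N φ E K pre ext j W) : good N φ E K pre ext j' W' := by
  refine ⟨fun i hi => ?_, fun k hk p hp hKp hev => hg.2 k hk p hp (by omega) ?_⟩
  · rw [← hφc i W W' (fun t ht => h t (by omega))]; exact hg.1 i (by omega)
  · have := (hK k p hp).1
    have e : tr k W = tr k W' := tr_congr k W W' (fun t ht => h t (by omega))
    unfold ev at hev ⊢
    rw [e]
    exact ⟨hev.1, fun t t1 t2 => by rw [h t (by omega)]; exact hev.2 t t1 t2⟩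

lemma tr_mem (hφc : ∀ k W W', (∀ t, t ≤ k → W t = W' t) → φ k W = φ k W')
    (hK : ∀ k, ∀ p ∈ E k, k < K k p ∧ K k p ≤ N) {k j J : ℕ} {W : ℕ → ℕ} (hU : W ∈ U c l J)
    (hk : k ≤ J) (hj : k ≤ j) (hg : good N φ E K pre ext j W) : tr k W ∈ S N c l φ E K pre ext k := by
  obtain ⟨h1, h2, _⟩ := (mem_U c l J W).1 hU
  refine mem_S.2 ⟨(mem_U c l k _).2 ⟨?_, fun t t1 t2 => ?_, fun t ht => ?_⟩, ?_⟩
  · rw [tr_le k W 0 (by omega)]; exact h1
  · rw [tr_le _ _ _ t2]; exact h2 t t1 (by omega)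
  · simp only [tr]; rw [if_neg (by omega)]
  · exact good_congr hφc hK hj (fun t ht => (tr_le k W t ht).symm) hg

lemma sum_pairs (hφc : ∀ k W W', (∀ t, t ≤ k → W t = W' t) → φ k W = φ k W')
    (hφ0 : ∀ k W, 0 ≤ φ k W)
    (hK : ∀ k, ∀ p ∈ E k, k < K k p ∧ K k p ≤ N) (k : ℕ) :
    ∑ u ∈ S N c l φ E K pre ext k, ∑ x ∈ l (k+1), φ (k+1) (Function.update u (k+1) x) ≤
      ∑ W ∈ T N c l φ E K pre ext k, φ (k+1) W := by
  classical
  rw [← Finset.sum_product']
  have inj : Set.InjOn (fun q : (ℕ → ℕ) × ℕ => Function.update q.1 (k+1) q.2)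
      ↑(S N c l φ E K pre ext k ×ˢ l (k+1)) := by
    rintro ⟨u, x⟩ hu ⟨u', x'⟩ hu' e
    simp only [Finset.coe_product, Set.mem_prod, Finset.mem_coe] at hu hu'
    have z := ((mem_U c l k u).1 (mem_S.1 hu.1).1).2.2
    have z' := ((mem_U c l k u').1 (mem_S.1 hu'.1).1).2.2
    have ex : x = x' := by simpa using congrFun e (k+1)
    refine Prod.ext ?_ ex
    funext t
    by_cases ht : t = k + 1
    · dsimp only; rw [z t (by omega), z' t (by omega)]
    · have := congrFun e t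
      simpa [Function.update_of_ne ht] using this
  rw [← Finset.sum_image (f := fun W => φ (k+1) W) inj]
  refine Finset.sum_le_sum_of_subset_of_nonneg (fun W hW => ?_) (fun _ _ _ => hφ0 _ _)
  obtain ⟨⟨u, x⟩, hq, rfl⟩ := Finset.mem_image.1 hW
  obtain ⟨hu, hx⟩ := Finset.mem_product.1 hq
  refine mem_T.2 ⟨?_, ?_⟩
  · unfold U
    exact Finset.mem_image.2 ⟨(u, x), Finset.mem_product.2 ⟨(mem_S.1 hu).1, hx⟩, rfl⟩
  · exact good_congr hφc hK le_rfl (fun t ht => by rw [Function.update_of_ne (by omega)])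
      (mem_S.1 hu).2

open Classical in
lemma card_ev (hφc : ∀ k W W', (∀ t, t ≤ k → W t = W' t) → φ k W = φ k W')
    (hK : ∀ k, ∀ p ∈ E k, k < K k p ∧ K k p ≤ N) (j k : ℕ) (p : π) (hp : p ∈ E k)
    (hj : K k p = j + 1) :
    ((T N c l φ E K pre ext j).filter (fun W => ev K pre ext k p W)).card ≤
      ((S N c l φ E K pre ext k).filter (fun W => pre k p W)).card := by
  have hk := (hK k p hp).1
  refine Finset.card_le_card_of_injOn (tr k) (fun W hW => ?_) ?_
  · obtain ⟨a, b⟩ := Finset.mem_filter.1 hW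
    obtain ⟨a1, a2⟩ := mem_T.1 a
    exact Finset.mem_filter.2 ⟨tr_mem hφc hK a1 (by omega) (by omega) a2, b.1⟩
  · intro W hW W' hW' e
    obtain ⟨a, b⟩ := Finset.mem_filter.1 hW
    obtain ⟨a', b'⟩ := Finset.mem_filter.1 hW'
    have z := ((mem_U c l _ W).1 (mem_T.1 a).1).2.2
    have z' := ((mem_U c l _ W').1 (mem_T.1 a').1).2.2
    funext t
    by_cases h1 : t ≤ k
    · rw [← tr_le k W t h1, ← tr_le k W' t h1, e]
    by_cases h2 : t ≤ j + 1
    · rw [b.2 t (by omega) (by omega), b'.2 t (by omega) (by omega), e]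
    · rw [z t (by omega), z' t (by omega)]

open Classical in
lemma sum_T (B : ℕ → ℝ) (hφc : ∀ k W W', (∀ t, t ≤ k → W t = W' t) → φ k W = φ k W')
    (hφ0 : ∀ k W, 0 ≤ φ k W) (hB : ∀ k W, φ k W ≤ B k)
    (hK : ∀ k, ∀ p ∈ E k, k < K k p ∧ K k p ≤ N) (j : ℕ) :
    ∑ W ∈ T N c l φ E K pre ext j, φ (j+1) W ≤
      ∑ W ∈ S N c l φ E K pre ext (j+1), φ (j+1) W +
        ∑ k ∈ range N, ∑ p ∈ E k, if K k p = j + 1 then
          B (K k p) * (((S N c l φ E K pre ext k).filter (fun W => pre k p W)).card : ℝ) else 0 := by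
  have B0 : ∀ k, 0 ≤ B k := fun k => le_trans (hφ0 k (fun _ => 0)) (hB k _)
  have e1 : S N c l φ E K pre ext (j+1) =
      (T N c l φ E K pre ext j).filter (fun W => good N φ E K pre ext (j+1) W) := by
    ext W
    rw [Finset.mem_filter, mem_S, mem_T]
    constructor
    · rintro ⟨a, b⟩; exact ⟨⟨a, good_congr hφc hK (by omega) (fun _ _ => rfl) b⟩, b⟩
    · rintro ⟨⟨a, -⟩, d⟩; exact ⟨a, d⟩
  have e2 : ∑ W ∈ T N c l φ E K pre ext j, φ (j+1) W ≤
      ∑ W ∈ T N c l φ E K pre ext j, ((if good N φ E K pre ext (j+1) W then φ (j+1) W else 0) +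
        ∑ k ∈ range N, ∑ p ∈ E k, if K k p = j + 1 ∧ ev K pre ext k p W then B (j+1) else 0) := by
    refine Finset.sum_le_sum (fun W hW => ?_)
    have nn : ∀ k, 0 ≤ ∑ p ∈ E k, if K k p = j + 1 ∧ ev K pre ext k p W then B (j+1) else 0 :=
      fun k => Finset.sum_nonneg (fun p _ => by split_ifs; exacts [B0 _, le_rfl])
    have nn2 := Finset.sum_nonneg (s := range N) (fun k _ => nn k)
    by_cases hg : good N φ E K pre ext (j+1) W
    · rw [if_pos hg]; linarith
    rw [if_neg hg, zero_add]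
    by_cases h0 : φ (j+1) W ≤ 0
    · linarith
    have hg' := (mem_T.1 hW).2
    have : ∃ k, k < N ∧ ∃ p ∈ E k, K k p = j + 1 ∧ ev K pre ext k p W := by
      by_contra hh
      refine hg ⟨fun i hi => ?_, fun k hk p hp hKp hev => ?_⟩
      · by_cases e : i = j + 1
        · rw [e]; linarith
        · exact hg'.1 i (by omega)
      · by_cases e : K k p = j + 1
        · exact hh ⟨k, hk, p, hp, e, hev⟩
        · exact hg'.2 k hk p hp (by omega) hev
    obtain ⟨k, hk, p, hp, h1⟩ := this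
    refine le_trans (hB _ W) (le_trans ?_ (Finset.single_le_sum (f := fun k => ∑ p ∈ E k,
      if K k p = j + 1 ∧ ev K pre ext k p W then B (j+1) else 0) (fun k _ => nn k)
      (Finset.mem_range.2 hk)))
    refine le_trans ?_ (Finset.single_le_sum (f := fun p =>
      if K k p = j + 1 ∧ ev K pre ext k p W then B (j+1) else 0)
      (fun p _ => by split_ifs; exacts [B0 _, le_rfl]) hp)
    rw [if_pos h1]
  refine le_trans e2 ?_
  rw [Finset.sum_add_distrib, e1, Finset.sum_filter, Finset.sum_comm]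
  refine add_le_add le_rfl (Finset.sum_le_sum (fun k _ => ?_))
  rw [Finset.sum_comm]
  refine Finset.sum_le_sum (fun p hp => ?_)
  by_cases e : K k p = j + 1
  · rw [if_pos e, e]
    simp only [e, true_and]
    rw [← Finset.sum_filter, Finset.sum_const, nsmul_eq_mul, mul_comm]
    refine mul_le_mul_of_nonneg_left ?_ (B0 _)
    exact_mod_cast card_ev hφc hK j k p hp e
  · simp [e]

open Classical in
theorem tree (B : ℕ → ℝ) (hφc : ∀ k W W', (∀ t, t ≤ k → W t = W' t) → φ k W = φ k W')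
    (hφ0 : ∀ k W, 0 ≤ φ k W) (hB : ∀ k W, φ k W ≤ B k)
    (hK : ∀ k, ∀ p ∈ E k, k < K k p ∧ K k p ≤ N)
    (hloc : ∀ k, k < N → ∀ W ∈ U c l k, (∀ j, j ≤ k → 0 < φ j W) →
      φ k W + ∑ p ∈ E k, (if pre k p W then B (K k p) else 0) ≤
        ∑ x ∈ l (k+1), φ (k+1) (Function.update W (k+1) x))
    (hpos : 0 < φ 0 (fun t => if t = 0 then c else 0)) :
    ∃ W ∈ U c l N, (∀ j, j ≤ N → 0 < φ j W) ∧ ∀ k, k < N → ∀ p ∈ E k, ¬ ev K pre ext k p W := by
  set Φ : ℕ → ℝ := fun k => ∑ W ∈ S N c l φ E K pre ext k, φ k W with hΦ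
  set C : ℕ → π → ℝ := fun k p =>
    B (K k p) * (((S N c l φ E K pre ext k).filter (fun W => pre k p W)).card : ℝ) with hC
  have step : ∀ j, j < N → Φ j + ∑ p ∈ E j, C j p ≤
      Φ (j+1) + ∑ k ∈ range N, ∑ p ∈ E k, if K k p = j + 1 then C k p else 0 := by
    intro j hj
    have a1 : Φ j + ∑ p ∈ E j, C j p ≤
        ∑ u ∈ S N c l φ E K pre ext j, ∑ x ∈ l (j+1), φ (j+1) (Function.update u (j+1) x) := by
      have : ∑ p ∈ E j, C j p =
          ∑ u ∈ S N c l φ E K pre ext j, ∑ p ∈ E j, (if pre j p u then B (K j p) else 0) := by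
        rw [Finset.sum_comm]
        refine Finset.sum_congr rfl (fun p _ => ?_)
        rw [← Finset.sum_filter, Finset.sum_const, nsmul_eq_mul, mul_comm]
      rw [this]
      simp only [hΦ]
      rw [← Finset.sum_add_distrib]
      exact Finset.sum_le_sum (fun W hW => hloc j hj W (mem_S.1 hW).1 (mem_S.1 hW).2.1)
    exact le_trans a1 (le_trans (sum_pairs hφc hφ0 hK j) (sum_T B hφc hφ0 hB hK j))
  have tele : ∀ J, J ≤ N → Φ 0 + ∑ j ∈ range J, ∑ p ∈ E j, C j p ≤
      Φ J + ∑ j ∈ range J, ∑ k ∈ range N, ∑ p ∈ E k, if K k p = j + 1 then C k p else 0 := by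
    intro J
    induction J with
    | zero => intro _; simp
    | succ J ih =>
      intro hJ
      have a := ih (by omega)
      have b := step J (by omega)
      rw [Finset.sum_range_succ, Finset.sum_range_succ]
      linarith
  have swap : ∑ j ∈ range N, ∑ k ∈ range N, ∑ p ∈ E k, (if K k p = j + 1 then C k p else 0) =
      ∑ j ∈ range N, ∑ p ∈ E j, C j p := by
    rw [Finset.sum_comm]
    refine Finset.sum_congr rfl (fun k _ => ?_)
    rw [Finset.sum_comm]
    refine Finset.sum_congr rfl (fun p hp => ?_)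
    obtain ⟨h1, h2⟩ := hK k p hp
    rw [Finset.sum_eq_single (K k p - 1)]
    · rw [if_pos (by omega)]
    · intro b _ hb; rw [if_neg (by omega)]
    · intro hh; exact absurd (Finset.mem_range.2 (by omega)) hh
  have t := tele N le_rfl
  rw [swap] at t
  have bot : 0 < Φ 0 := by
    have m0 : (fun t => if t = 0 then c else 0) ∈ S N c l φ E K pre ext 0 := by
      refine mem_S.2 ⟨by simp [U], fun i hi => ?_, fun k _ p hp hKp => ?_⟩
      · rw [show i = 0 by omega]; exact hpos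
      · have := (hK k p hp).1; omega
    exact lt_of_lt_of_le hpos
      (Finset.single_le_sum (f := fun W => φ 0 W) (fun _ _ => hφ0 _ _) m0)
  have ne : (S N c l φ E K pre ext N).Nonempty := by
    by_contra hh
    have : Φ N = 0 := by simp only [hΦ]; rw [Finset.not_nonempty_iff_eq_empty.1 hh]; simp
    linarith
  obtain ⟨W, hW⟩ := ne
  obtain ⟨h1, h2, h3⟩ := mem_S.1 hW
  exact ⟨W, h1, h2, fun k hk p hp => h3 k hk p hp (hK k p hp).2⟩

end
end Pool.Agent.H22.Tree
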