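import Mathlib
import Pool.Agent.H22.Tree

set_option autoImplicit false

namespace Pool.Agent.H22.Blow
open Finset

/-- At least half of the letters of the window are copies of earlier letters, with slowly varying offsets. -/
def Bad (W : ℕ → ℕ) (a ℓ : ℕ) : Prop :=
  ∃ (F : Finset ℕ) (P Q : ℕ → ℕ), F ⊆ range ℓ ∧ ℓ ≤ 2 * F.card ∧
    (∀ x y, x < y → y < ℓ → P x < P y) ∧ (∀ x y, x < y → y < ℓ → Q x < Q y) ∧
    (∀ z, z < ℓ → P z < 5 * ℓ) ∧ (∀ z, z < ℓ → Q z < 5 * ℓ) ∧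
    ∀ z ∈ F, Q z < P z ∧ W (a + z) = W (a + z - (P z - Q z))

lemma Bad.congr {W W' : ℕ → ℕ} {a ℓ : ℕ} (h : Bad W a ℓ) (e : ∀ t, t < a + ℓ → W t = W' t) :
    Bad W' a ℓ := by
  obtain ⟨F, P, Q, h1, h2, h3, h4, h5, h6, h7⟩ := h
  refine ⟨F, P, Q, h1, h2, h3, h4, h5, h6, fun z hz => ⟨(h7 z hz).1, ?_⟩⟩
  have := mem_range.1 (h1 hz)
  rw [← e _ (by omega), ← e _ (by omega)]
  exact (h7 z hz).2

lemma same_image {P P' : ℕ → ℕ} {ℓ : ℕ} (h : ∀ x y, x < y → y < ℓ → P x < P y)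
    (h' : ∀ x y, x < y → y < ℓ → P' x < P' y) (e : (range ℓ).image P = (range ℓ).image P') :
    ∀ z, z < ℓ → P z = P' z := by
  have a : StrictMono (fun z : Fin ℓ => P z) := fun x y hxy => h _ _ hxy y.2
  have b : StrictMono (fun z : Fin ℓ => P' z) := fun x y hxy => h' _ _ hxy y.2
  have r : ∀ f : ℕ → ℕ, Set.range (fun z : Fin ℓ => f z) = ((range ℓ).image f : Finset ℕ) := by
    intro f
    ext v
    simp only [Set.mem_range, coe_image, coe_range, Set.mem_image, Set.mem_Iio]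
    exact ⟨fun ⟨z, hz⟩ => ⟨z, z.2, hz⟩, fun ⟨z, h1, hz⟩ => ⟨⟨z, h1⟩, hz⟩⟩
  have := (a.range_inj b).1 (by rw [r, r, e])
  intro z hz
  exact congrFun this ⟨z, hz⟩

def glue (k : ℕ) (u : ℕ → ℕ) {ℓ : ℕ} (g : Fin ℓ → ℕ) (t : ℕ) : ℕ :=
  if t ≤ k then u t else if h : t - k - 1 < ℓ then g ⟨t - k - 1, h⟩ else 0

lemma glue_in (k : ℕ) (u : ℕ → ℕ) {ℓ : ℕ} (g : Fin ℓ → ℕ) (z : ℕ) (hz : z < ℓ) :
    glue k u g (k + 1 + z) = g ⟨z, hz⟩ := by
  unfold glue
  rw [if_neg (by omega), dif_pos (by omega)]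
  congr 2; omega

open Classical in
lemma count_bad (r k ℓ : ℕ) (hr : 1 ≤ r) (u : ℕ → ℕ) :
    ((Fintype.piFinset (fun _ : Fin ℓ => range (r * r))).filter
      (fun g => Bad (glue k u g) (k + 1) ℓ)).card ≤ 2 ^ ℓ * (2 ^ (5 * ℓ) * 2 ^ (5 * ℓ)) * r ^ ℓ := by
  let I := (range ℓ).powerset ×ˢ ((range (5 * ℓ)).powerset ×ˢ (range (5 * ℓ)).powerset)
  let fib : Finset ℕ × Finset ℕ × Finset ℕ → Finset (Fin ℓ → ℕ) := fun y =>
    (Fintype.piFinset (fun _ : Fin ℓ => range (r * r))).filter (fun g => ∃ P Q : ℕ → ℕ,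
      y.1 ⊆ range ℓ ∧ ℓ ≤ 2 * y.1.card ∧
      (∀ x y, x < y → y < ℓ → P x < P y) ∧ (∀ x y, x < y → y < ℓ → Q x < Q y) ∧
      (range ℓ).image P = y.2.1 ∧ (range ℓ).image Q = y.2.2 ∧
      ∀ z ∈ y.1, Q z < P z ∧ glue k u g (k + 1 + z) = glue k u g (k + 1 + z - (P z - Q z)))
  have sub : (Fintype.piFinset (fun _ : Fin ℓ => range (r * r))).filter
      (fun g => Bad (glue k u g) (k + 1) ℓ) ⊆ I.biUnion fib := by
    intro g hg
    obtain ⟨g1, F, P, Q, h1, h2, h3, h4, h5, h6, h7⟩ := mem_filter.1 hg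
    refine mem_biUnion.2 ⟨(F, (range ℓ).image P, (range ℓ).image Q), ?_,
      mem_filter.2 ⟨g1, P, Q, h1, h2, h3, h4, rfl, rfl, h7⟩⟩
    refine mem_product.2 ⟨mem_powerset.2 h1, mem_product.2 ⟨mem_powerset.2 ?_, mem_powerset.2 ?_⟩⟩
    · intro v hv
      obtain ⟨z, hz, rfl⟩ := mem_image.1 hv
      exact mem_range.2 (h5 z (mem_range.1 hz))
    · intro v hv
      obtain ⟨z, hz, rfl⟩ := mem_image.1 hv
      exact mem_range.2 (h6 z (mem_range.1 hz))
  have fb : ∀ y ∈ I, (fib y).card ≤ r ^ ℓ := by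
    intro y _
    rcases (fib y).eq_empty_or_nonempty with e | ⟨g0, hg0⟩
    · rw [e]; simp
    obtain ⟨-, -, -, f1, f2, -⟩ := mem_filter.1 hg0
    let tg := Fintype.piFinset (fun z : Fin ℓ => if z.val ∈ y.1 then ({0} : Finset ℕ) else range (r * r))
    have c1 : (fib y).card ≤ tg.card := by
      refine card_le_card_of_injOn (fun g z => if z.val ∈ y.1 then 0 else g z) (fun g hg => ?_)
        (fun g hg g' hg' e => ?_)
      · have := Fintype.mem_piFinset.1 (mem_filter.1 hg).1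
        refine Fintype.mem_piFinset.2 (fun z => ?_)
        by_cases a : z.val ∈ y.1
        · simp [a]
        · simp only [if_neg a]; exact this z
      · obtain ⟨-, P, Q, -, -, h3, h4, h5, h6, h7⟩ := mem_filter.1 hg
        obtain ⟨-, P', Q', -, -, h3', h4', h5', h6', h7'⟩ := mem_filter.1 hg'
        have eP := same_image h3 h3' (h5.trans h5'.symm)
        have eQ := same_image h4 h4' (h6.trans h6'.symm)
        have key : ∀ t, glue k u g t = glue k u g' t := by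
          intro t
          induction t using Nat.strong_induction_on with
          | _ t ih =>
            by_cases a : t ≤ k
            · unfold glue; rw [if_pos a, if_pos a]
            by_cases b : t - k - 1 < ℓ
            · obtain ⟨z, rfl⟩ : ∃ z, t = k + 1 + z := ⟨t - k - 1, by omega⟩
              have hz : z < ℓ := by omega
              by_cases c : z ∈ y.1
              · rw [(h7 z c).2, (h7' z c).2, ← eP z hz, ← eQ z hz]
                have := (h7 z c).1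
                exact ih _ (by omega)
              · rw [glue_in _ _ _ _ hz, glue_in _ _ _ _ hz]
                have := congrFun e ⟨z, hz⟩
                simpa only [if_neg c] using this
            · unfold glue; rw [if_neg a, if_neg a, dif_neg b, dif_neg b]
        funext z
        have := key (k + 1 + z.val)
        rwa [glue_in _ _ _ _ z.2, glue_in _ _ _ _ z.2] at this
    have c2 : tg.card = ∏ z ∈ range ℓ, (if z ∈ y.1 then 1 else r * r) := by
      rw [Fintype.card_piFinset, ← Fin.prod_univ_eq_prod_range (fun z => if z ∈ y.1 then 1 else r * r) ℓ]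
      refine prod_congr rfl (fun z _ => ?_)
      split_ifs <;> simp
    have c3 : ∏ z ∈ range ℓ, (if z ∈ y.1 then 1 else r * r) = (r * r) ^ (ℓ - y.1.card) := by
      rw [prod_ite, prod_const_one, one_mul, prod_const, filter_not, filter_mem_eq_inter,
        inter_eq_right.2 f1, card_sdiff_of_subset f1, card_range]
    rw [c2, c3, ← pow_two, ← pow_mul] at c1
    exact c1.trans (Nat.pow_le_pow_right hr (by omega))
  refine (card_le_card sub).trans ((card_biUnion_le_card_mul _ _ _ fb).trans (le_of_eq ?_))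
  simp only [I, card_product, card_powerset, card_range]

theorem sparse_word (N : ℕ) : ∃ W : ℕ → ℕ, (∀ t, 1 ≤ t → t ≤ N → W t < 2 ^ 26) ∧
    ∀ a ℓ, 1 ≤ a → 1 ≤ ℓ → a + ℓ ≤ N + 1 → ¬ Bad W a ℓ := by
  classical
  obtain ⟨r, hr⟩ : ∃ r : ℕ, r = 2 ^ 13 := ⟨_, rfl⟩
  have hr1 : 1 ≤ r := by rw [hr]; norm_num
  have hm : r * r = 2 ^ 26 := by rw [hr]; norm_num
  obtain ⟨W, h1, -, h3⟩ := Tree.tree (π := (ℓ : ℕ) × (Fin ℓ → ℕ)) (N := N) (c := 0)
    (l := fun _ => range (r * r))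
    (φ := fun k _ => ((1:ℝ) / 2 ^ 25) ^ k)
    (E := fun k => (Ico 1 (N - k + 1)).sigma (fun ℓ => Fintype.piFinset (fun _ : Fin ℓ => range (r * r))))
    (K := fun k p => k + p.1) (pre := fun k p u => Bad (glue k u p.2) (k + 1) p.1)
    (ext := fun k p u t => glue k u p.2 t) (fun k => ((1:ℝ) / 2 ^ 25) ^ k)
    (fun _ _ _ _ => rfl) (fun _ _ => by positivity) (fun _ _ => le_rfl)
    (fun k p hp => by
      have := mem_Ico.1 (mem_sigma.1 hp).1
      omega)
    (fun k hk u _ _ => by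
      rw [sum_sigma, sum_const, card_range, nsmul_eq_mul, hm]
      have b : ∀ ℓ ∈ Ico 1 (N - k + 1), (∑ g ∈ Fintype.piFinset (fun _ : Fin ℓ => range (2 ^ 26)),
          if Bad (glue k u g) (k + 1) ℓ then ((1:ℝ) / 2 ^ 25) ^ (k + ℓ) else 0) ≤
          ((1:ℝ) / 2 ^ 25) ^ k * (1 / 2) ^ ℓ := by
        intro ℓ _
        rw [← sum_filter, sum_const, nsmul_eq_mul]
        have c := count_bad r k ℓ hr1 u
        rw [hm] at c
        have c' : (((Fintype.piFinset (fun _ : Fin ℓ => range (2 ^ 26))).filter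
            (fun g => Bad (glue k u g) (k + 1) ℓ)).card : ℝ) ≤ (2 ^ 24) ^ ℓ := by
          have e : 2 ^ ℓ * (2 ^ (5 * ℓ) * 2 ^ (5 * ℓ)) * r ^ ℓ = (2 ^ 24) ^ ℓ := by
            rw [hr, ← pow_mul, ← pow_mul, ← pow_add, ← pow_add, ← pow_add]; congr 1; ring
          rw [e] at c
          exact_mod_cast c
        refine (mul_le_mul_of_nonneg_right c' (by positivity)).trans (le_of_eq ?_)
        rw [pow_add, mul_left_comm, ← mul_pow]
        norm_num
      have s := sum_le_sum b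
      rw [← mul_sum] at s
      have g : ∑ ℓ ∈ Ico 1 (N - k + 1), ((1:ℝ) / 2) ^ ℓ ≤ 1 := by
        have := geom_sum_Ico_le_of_lt_one (x := (1:ℝ) / 2) (m := 1) (n := N - k + 1) (by norm_num)
          (by norm_num)
        norm_num at this ⊢
        exact this
      have p : 0 < ((1:ℝ) / 2 ^ 25) ^ k := by positivity
      have := mul_le_mul_of_nonneg_left g p.le
      have e : ((2 ^ 26 : ℕ) : ℝ) * ((1:ℝ) / 2 ^ 25) ^ (k + 1) = 2 * ((1:ℝ) / 2 ^ 25) ^ k := by
        rw [pow_succ _ k]; push_cast; ring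
      rw [e]
      linarith)
    (by positivity)
  obtain ⟨-, xm, -⟩ := (NonRep.mem_U _ _ _ _).1 h1
  refine ⟨W, fun t t1 t2 => by rw [← hm]; exact mem_range.1 (xm t t1 t2), fun a ℓ a1 l1 al hb => ?_⟩
  obtain ⟨k, rfl⟩ : ∃ k, a = k + 1 := ⟨a - 1, by omega⟩
  have ag : ∀ t, t < k + 1 + ℓ → W t = glue k (NonRep.tr k W) (fun z : Fin ℓ => W (k + 1 + z.val)) t := by
    intro t ht
    by_cases a : t ≤ k
    · unfold glue; rw [if_pos a, NonRep.tr_le _ _ _ a]
    · obtain ⟨z, rfl⟩ : ∃ z, t = k + 1 + z := ⟨t - k - 1, by omega⟩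
      rw [glue_in _ _ _ _ (by omega)]
  refine h3 k (by omega) ⟨ℓ, fun z => W (k + 1 + z.val)⟩ (mem_sigma.2 ⟨mem_Ico.2 (by
    dsimp only; omega), Fintype.mem_piFinset.2 (fun z => xm _ (by omega) (by
      have := z.2
      dsimp only at this
      omega))⟩) ⟨hb.congr ag, fun t t1 t2 => ag t (by dsimp only at t2; omega)⟩

end Pool.Agent.H22.Blow
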