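import Mathlib

set_option autoImplicit false

namespace Pool.Agent.H22.Blow
open Finset

lemma avg {T : Type} (I : Finset T) (σ : T → ℕ) (m : ℕ) (hm : 0 < m) (hσ : ∀ t ∈ I, σ t < m) (B : ℕ) :
    ∀ (A : T → Finset ℕ) (c : T → ℝ), (∀ t ∈ I, A t ⊆ range B) → ∃ τ : ℕ → ℕ,
      ∑ t ∈ I, c t * (1 / 2) ^ ((A t).filter (fun γ => τ γ = σ t)).card ≤
        ∑ t ∈ I, c t * (1 - 1 / (2 * (m : ℝ))) ^ (A t).card := by
  induction B with
  | zero =>
    intro A c hA
    refine ⟨fun _ => 0, le_of_eq (sum_congr rfl (fun t ht => ?_))⟩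
    have : A t = ∅ := subset_empty.1 (by simpa using hA t ht)
    rw [this]; simp
  | succ B ih =>
    intro A c hA
    have m0 : (0:ℝ) < m := by exact_mod_cast hm
    set ρ : ℝ := 1 - 1 / (2 * (m : ℝ)) with hρ
    let c' : ℕ → T → ℝ := fun s t => c t * (if B ∈ A t ∧ s = σ t then 1 / 2 else 1)
    have e : ∑ s ∈ range m, ∑ t ∈ I, c' s t * ρ ^ ((A t).erase B).card =
        ∑ _s ∈ range m, ∑ t ∈ I, c t * ρ ^ (A t).card := by
      rw [sum_comm, sum_comm (s := range m)]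
      refine sum_congr rfl (fun t ht => ?_)
      rw [sum_const, card_range, nsmul_eq_mul, ← sum_mul]
      simp only [c']
      rw [← mul_sum]
      by_cases a : B ∈ A t
      · have s1 : ∑ s ∈ range m, (if B ∈ A t ∧ s = σ t then (1:ℝ) / 2 else 1) = m - 1 / 2 := by
          have : ∀ s ∈ range m, (if B ∈ A t ∧ s = σ t then (1:ℝ) / 2 else 1) =
              1 - (if s = σ t then (1:ℝ) / 2 else 0) := by
            intro s _
            by_cases b : s = σ t
            · rw [if_pos ⟨a, b⟩, if_pos b]; norm_num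
            · rw [if_neg (fun z => b z.2), if_neg b]; norm_num
          rw [sum_congr rfl this, sum_sub_distrib, sum_ite_eq', if_pos (mem_range.2 (hσ t ht))]
          simp
        rw [s1, ← card_erase_add_one a, pow_succ, hρ]
        field_simp
      · have s1 : ∑ s ∈ range m, (if B ∈ A t ∧ s = σ t then (1:ℝ) / 2 else 1) = m := by
          rw [sum_congr rfl (fun s _ => if_neg (fun z => a z.1))]; simp
        rw [s1, erase_eq_of_notMem a]; ring
    obtain ⟨s, -, hs⟩ := exists_le_of_sum_le (s := range m) ⟨0, mem_range.2 hm⟩ e.le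
    obtain ⟨τ, hτ⟩ := ih (fun t => (A t).erase B) (c' s) (fun t ht γ hγ => by
      have h1 := mem_range.1 (hA t ht (mem_of_mem_erase hγ))
      have h2 := ne_of_mem_erase hγ
      exact mem_range.2 (by omega))
    refine ⟨Function.update τ B s, le_trans (le_of_eq (sum_congr rfl (fun t _ => ?_))) (hτ.trans hs)⟩
    have f1 : ((A t).erase B).filter (fun γ => τ γ = σ t) =
        ((A t).filter (fun γ => Function.update τ B s γ = σ t)).erase B := by
      ext γ
      by_cases b : γ = B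
      · simp [b]
      · simp [b]
    rw [f1]
    simp only [c']
    by_cases a : B ∈ A t ∧ s = σ t
    · have : B ∈ (A t).filter (fun γ => Function.update τ B s γ = σ t) :=
        mem_filter.2 ⟨a.1, by rw [Function.update_self]; exact a.2⟩
      rw [if_pos a, ← card_erase_add_one this, pow_succ]; ring
    · have : B ∉ (A t).filter (fun γ => Function.update τ B s γ = σ t) := fun z =>
        a ⟨(mem_filter.1 z).1, by have := (mem_filter.1 z).2; rwa [Function.update_self] at this⟩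
      rw [if_neg a, erase_eq_of_notMem this]; ring

def Rnd (m lam : ℕ) : Prop :=
  ∀ (T : Type) (I : Finset T) (A : T → Finset ℕ) (σ thr : T → ℕ) (n : ℕ), (∀ t ∈ I, σ t < m) →
    (∀ t ∈ I, n ≤ thr t) → (∀ t ∈ I, lam * thr t ≤ (A t).card) → ∃ τ : ℕ → ℕ,
      (I.filter (fun t => ((A t).filter (fun γ => τ γ = σ t)).card < thr t)).card * 2 ^ (20 * n) ≤ I.card

lemma rnd (m : ℕ) (hm : 0 < m) : ∃ lam, 1 ≤ lam ∧ Rnd m lam := by
  classical
  have m1 : (1:ℝ) ≤ m := by exact_mod_cast hm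
  set ρ : ℝ := 1 - 1 / (2 * (m : ℝ)) with hρ
  have r0 : 0 < 1 / (2 * (m : ℝ)) := by positivity
  have r1 : 1 / (2 * (m : ℝ)) ≤ 1 := by rw [div_le_one (by positivity)]; linarith
  have ρ0 : 0 ≤ ρ := by linarith
  have ρ1 : ρ < 1 := by linarith
  obtain ⟨l, hl⟩ := exists_pow_lt_of_lt_one (show (0:ℝ) < (1 / 2) ^ 21 by positivity) ρ1
  refine ⟨l + 1, by omega, fun T I A σ thr n h1 h2 h3 => ?_⟩
  obtain ⟨B, hB⟩ := (I.biUnion A).exists_nat_subset_range
  obtain ⟨τ, hτ⟩ := avg I σ m hm h1 B A (fun t => 2 ^ thr t)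
    (fun t ht => (subset_biUnion_of_mem A ht).trans hB)
  refine ⟨τ, ?_⟩
  have lo : ((I.filter (fun t => ((A t).filter (fun γ => τ γ = σ t)).card < thr t)).card : ℝ) ≤
      ∑ t ∈ I, (2:ℝ) ^ thr t * (1 / 2) ^ ((A t).filter (fun γ => τ γ = σ t)).card := by
    rw [card_filter, Nat.cast_sum]
    refine sum_le_sum (fun t _ => ?_)
    split_ifs with a
    · rw [one_div_pow, mul_one_div, le_div_iff₀ (by positivity), Nat.cast_one, one_mul]
      exact pow_le_pow_right₀ (by norm_num) a.le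
    · rw [Nat.cast_zero]; positivity
  have hi : ∑ t ∈ I, (2:ℝ) ^ thr t * ρ ^ (A t).card ≤ ∑ _t ∈ I, ((1:ℝ) / 2) ^ (20 * n) := by
    refine sum_le_sum (fun t ht => ?_)
    have a1 : ρ ^ (A t).card ≤ (ρ ^ l) ^ thr t := by
      rw [← pow_mul]
      refine pow_le_pow_of_le_one ρ0 ρ1.le (le_trans ?_ (h3 t ht))
      exact Nat.mul_le_mul_right _ (by omega)
    have a2 : (ρ ^ l) ^ thr t ≤ ((1 / 2) ^ 21) ^ thr t := pow_le_pow_left₀ (by positivity) hl.le _
    have a3 : (2:ℝ) ^ thr t * ((1 / 2) ^ 21) ^ thr t = (1 / 2) ^ (20 * thr t) := by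
      rw [← mul_pow, pow_mul]; norm_num
    have a4 : ((1:ℝ) / 2) ^ (20 * thr t) ≤ (1 / 2) ^ (20 * n) :=
      pow_le_pow_of_le_one (by norm_num) (by norm_num) (by have := h2 t ht; omega)
    rw [← a3] at a4
    exact le_trans (mul_le_mul_of_nonneg_left (a1.trans a2) (by positivity)) a4
  rw [sum_const, nsmul_eq_mul, one_div_pow, mul_one_div] at hi
  have := lo.trans (hτ.trans hi)
  rw [le_div_iff₀ (by positivity)] at this
  exact_mod_cast this

open Classical in
noncomputable def cnt (P : ℕ → Prop) (a b : ℕ) : ℕ := ((Ico a b).filter P).card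

lemma cnt_add (P : ℕ → Prop) {a b c : ℕ} (h1 : a ≤ b) (h2 : b ≤ c) : cnt P a c = cnt P a b + cnt P b c := by
  classical
  unfold cnt
  rw [← Ico_union_Ico_eq_Ico h1 h2, filter_union, card_union_of_disjoint]
  exact disjoint_filter_filter (Ico_disjoint_Ico_consecutive a b c)

lemma cnt_mono {P Q : ℕ → Prop} {a b : ℕ} (h : ∀ z, a ≤ z → z < b → P z → Q z) : cnt P a b ≤ cnt Q a b := by
  classical
  unfold cnt
  refine card_le_card (fun z hz => ?_)
  simp only [mem_filter, mem_Ico] at hz ⊢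
  exact ⟨hz.1, h z hz.1.1 hz.1.2 hz.2⟩

lemma cnt_le (P : ℕ → Prop) (a n : ℕ) : cnt P a (a + n) ≤ n := by
  classical
  unfold cnt
  refine (card_filter_le _ _).trans ?_
  simp

lemma cnt_zero {P : ℕ → Prop} {a b : ℕ} (h : ∀ z, a ≤ z → z < b → ¬ P z) : cnt P a b = 0 := by
  classical
  unfold cnt
  rw [card_eq_zero, filter_eq_empty_iff]
  intro z hz
  exact h z (mem_Ico.1 hz).1 (mem_Ico.1 hz).2

lemma cnt_pos {P : ℕ → Prop} {a b z : ℕ} (h1 : a ≤ z) (h2 : z < b) (h : P z) : 1 ≤ cnt P a b := by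
  classical
  unfold cnt
  exact card_pos.2 ⟨z, mem_filter.2 ⟨mem_Ico.2 ⟨h1, h2⟩, h⟩⟩

section grid
variable {k : ℕ} (L : ℕ → Fin k → Finset ℕ) (s : ℕ → ℕ) (n1 n2 q : ℕ)

def nf (τ : ℕ → ℕ) (L' : ℕ → Fin k → Finset ℕ) (z : ℕ) : Prop := ¬ ∀ j, ∀ γ ∈ L' z j, τ γ = s z
def g1 (τ : ℕ → ℕ) (z : ℕ) : Prop := ∀ j, n1 ≤ ((L z j).filter (fun γ => τ γ = s z)).card
def g2 (τ τ' : ℕ → ℕ) (z : ℕ) : Prop :=
  ∀ j, n2 ≤ (((L z j).filter (fun γ => τ γ = s z)).filter (fun γ => τ' γ = s z)).card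
def bad (τ τ' : ℕ → ℕ) (z : ℕ) : Prop := ¬ g1 L s n1 τ' z ∨ (g1 L s n1 τ z ∧ ¬ g2 L s n2 τ τ' z)

def Out (b r : ℕ) (τ τ' : ℕ → ℕ) (L' : ℕ → Fin k → Finset ℕ) : Prop :=
  (∀ z, b ≤ z → z < b + 2 ^ r → ∀ j, L' z j ⊆ L z j ∧ n2 ≤ (L' z j).card) ∧
  q * cnt (nf s τ' L') b (b + 2 ^ r) ≤ q * cnt (fun z => ¬ g1 L s n1 τ' z) b (b + 2 ^ r) + 2 ^ r ∧
  cnt (nf s τ L') b (b + 2 ^ r) ≤ cnt (fun z => ¬ g1 L s n1 τ z) b (b + 2 ^ r) +
    q * cnt (bad L s n1 n2 τ τ') b (b + 2 ^ r) ∧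
  ∀ r' i, (i + 1) * 2 ^ r' ≤ 2 ^ r → ∃ τ0, q * cnt (nf s τ0 L') (b + i * 2 ^ r') (b + (i + 1) * 2 ^ r') ≤
    2 * 2 ^ r'

variable {L s n1 n2 q}

lemma grid0 (hq : 2 ≤ q) (hn : n2 ≤ n1)
    (hR : ∀ b n τ, ∃ τ', q * (q * cnt (bad L s n1 n2 τ τ') b (b + n)) ≤ n) (r : ℕ) :
    ∀ b τ τ', ∃ L', Out L s n1 n2 q b r τ τ' L' := by
  classical
  have AB : ∀ r, (∀ b τ τ', q * cnt (bad L s n1 n2 τ τ') b (b + 2 ^ r) ≤ 2 ^ r →
      ∃ L', Out L s n1 n2 q b r τ τ' L') → ∀ b τ τ', ∃ L', Out L s n1 n2 q b r τ τ' L' := by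
    intro r hA b τ τ'
    by_cases a : q * cnt (bad L s n1 n2 τ τ') b (b + 2 ^ r) ≤ 2 ^ r
    · exact hA b τ τ' a
    obtain ⟨τn, hn'⟩ := hR b (2 ^ r) τ'
    obtain ⟨L', o1, -, o3, o4⟩ := hA b τ' τn (le_trans (Nat.le_mul_of_pos_left _ (by omega)) hn')
    refine ⟨L', o1, ?_, ?_, o4⟩
    · have := Nat.mul_le_mul_left q o3
      rw [mul_add] at this
      omega
    · have := cnt_le (nf s τ L') b (2 ^ r)
      omega
  induction r with
  | zero =>
    refine AB 0 (fun b τ τ' h => ?_)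
    have nb : ¬ bad L s n1 n2 τ τ' b := fun z => by
      have := cnt_pos (P := bad L s n1 n2 τ τ') (b := b + 2 ^ 0) le_rfl (by simp) z
      have := Nat.mul_le_mul_left q this
      omega
    unfold bad at nb
    let L' : ℕ → Fin k → Finset ℕ := fun z j => if g1 L s n1 τ z then
      ((L z j).filter (fun γ => τ γ = s z)).filter (fun γ => τ' γ = s z)
      else (L z j).filter (fun γ => τ' γ = s z)
    have z1 : cnt (nf s τ' L') b (b + 2 ^ 0) = 0 := cnt_zero (fun z _ _ hz => hz (fun j γ hγ => by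
      simp only [L'] at hγ
      split_ifs at hγ <;> exact (mem_filter.1 hγ).2))
    refine ⟨L', fun z z1 z2 j => ?_, by rw [z1]; omega, ?_, fun r' i hi => ⟨τ', ?_⟩⟩
    · obtain rfl : z = b := by omega
      simp only [L']
      split_ifs with a
      · refine ⟨(filter_subset _ _).trans (filter_subset _ _), ?_⟩
        have : g2 L s n2 τ τ' z := by tauto
        exact this j
      · refine ⟨filter_subset _ _, ?_⟩
        have : g1 L s n1 τ' z := by tauto
        exact hn.trans (this j)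
    · refine le_trans (cnt_mono (Q := fun z => ¬ g1 L s n1 τ z)
        (fun z _ _ hz a => hz (fun j γ hγ => ?_))) (Nat.le_add_right _ _)
      simp only [L'] at hγ
      rw [if_pos a] at hγ
      exact (mem_filter.1 (mem_filter.1 hγ).1).2
    · have p : 0 < 2 ^ r' := by positivity
      have i0 : i = 0 := by
        by_contra hh
        have : 2 * 1 ≤ (i + 1) * 2 ^ r' := Nat.mul_le_mul (by omega) p
        omega
      subst i0
      have e : 2 ^ r' = 2 ^ 0 := by omega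
      rw [e]
      simp only [zero_mul, add_zero, zero_add, one_mul]
      rw [z1]; omega
  | succ r ih =>
    refine AB (r + 1) (fun b τ τ' h => ?_)
    obtain ⟨L1, a1, a2, a3, a4⟩ := ih b τ τ'
    obtain ⟨L2, b1, b2, b3, b4⟩ := ih (b + 2 ^ r) τ τ'
    let L' : ℕ → Fin k → Finset ℕ := fun z => if z < b + 2 ^ r then L1 z else L2 z
    have e : b + 2 ^ (r + 1) = b + 2 ^ r + 2 ^ r := by rw [pow_succ]; omega
    have p : 0 < 2 ^ r := by positivity
    have sp : ∀ P : ℕ → Prop, cnt P b (b + 2 ^ (r + 1)) =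
        cnt P b (b + 2 ^ r) + cnt P (b + 2 ^ r) (b + 2 ^ r + 2 ^ r) := fun P => by
      rw [e]; exact cnt_add P (by omega) (by omega)
    have c1 : ∀ τ0 x y, y ≤ b + 2 ^ r → cnt (nf s τ0 L') x y ≤ cnt (nf s τ0 L1) x y := fun τ0 x y hy =>
      cnt_mono (fun z _ z2 hz => by
        unfold nf at hz ⊢
        simp only [L'] at hz
        rwa [if_pos (by omega)] at hz)
    have c2 : ∀ τ0 x y, b + 2 ^ r ≤ x → cnt (nf s τ0 L') x y ≤ cnt (nf s τ0 L2) x y := fun τ0 x y hx =>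
      cnt_mono (fun z z1 _ hz => by
        unfold nf at hz ⊢
        simp only [L'] at hz
        rwa [if_neg (by omega)] at hz)
    have i1 : q * cnt (nf s τ' L') b (b + 2 ^ (r + 1)) ≤
        q * cnt (fun z => ¬ g1 L s n1 τ' z) b (b + 2 ^ (r + 1)) + 2 ^ (r + 1) := by
      rw [sp, sp, mul_add, mul_add, pow_succ]
      have := Nat.mul_le_mul_left q (c1 τ' b _ le_rfl)
      have := Nat.mul_le_mul_left q (c2 τ' _ (b + 2 ^ r + 2 ^ r) le_rfl)
      omega
    refine ⟨L', fun z z1 z2 j => ?_, i1, ?_, fun r' i hi => ?_⟩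
    · simp only [L']
      split_ifs with a
      · exact a1 z z1 a j
      · exact b1 z (by omega) (by omega) j
    · rw [sp, sp, sp, mul_add]
      have := c1 τ b _ le_rfl
      have := c2 τ _ (b + 2 ^ r + 2 ^ r) le_rfl
      omega
    · have p' : 0 < 2 ^ r' := by positivity
      have rr : r' ≤ r + 1 := by
        have : 2 ^ r' ≤ 2 ^ (r + 1) := le_trans (Nat.le_mul_of_pos_left _ (by omega)) hi
        exact (Nat.pow_le_pow_iff_right (by norm_num)).1 this
      by_cases a : r' = r + 1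
      · subst a
        have i0 : i = 0 := by
          by_contra hh
          have : 2 * 2 ^ (r + 1) ≤ (i + 1) * 2 ^ (r + 1) := Nat.mul_le_mul_right _ (by omega)
          omega
        subst i0
        refine ⟨τ', ?_⟩
        simp only [zero_mul, add_zero, zero_add, one_mul]
        have := Nat.mul_le_mul_left q (cnt_mono (P := fun z => ¬ g1 L s n1 τ' z)
          (Q := bad L s n1 n2 τ τ') (a := b) (b := b + 2 ^ (r + 1)) (fun z _ _ hz => Or.inl hz))
        omega
      obtain ⟨d, hd⟩ : ∃ d, 2 ^ r = d * 2 ^ r' :=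
        ⟨2 ^ (r - r'), by rw [← pow_add]; congr 1; omega⟩
      by_cases c : i + 1 ≤ d
      · have le : (i + 1) * 2 ^ r' ≤ 2 ^ r := by rw [hd]; exact Nat.mul_le_mul_right _ c
        obtain ⟨τ0, h0⟩ := a4 r' i le
        exact ⟨τ0, le_trans (Nat.mul_le_mul_left q (c1 τ0 _ _ (by omega))) h0⟩
      · obtain ⟨i', rfl⟩ : ∃ i', i = d + i' := ⟨i - d, by omega⟩
        have e1 : (d + i') * 2 ^ r' = 2 ^ r + i' * 2 ^ r' := by rw [hd]; ring
        have e2 : (d + i' + 1) * 2 ^ r' = 2 ^ r + (i' + 1) * 2 ^ r' := by rw [hd]; ring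
        rw [e2, pow_succ] at hi
        obtain ⟨τ0, h0⟩ := b4 r' i' (by omega)
        refine ⟨τ0, ?_⟩
        rw [e1, e2, ← add_assoc, ← add_assoc]
        exact le_trans (Nat.mul_le_mul_left q (c2 τ0 _ _ (by omega))) h0

end grid

theorem grid {m lam k : ℕ} (hl : 1 ≤ lam) (hR : Rnd m lam) (hk : 1 ≤ k) (L : ℕ → Fin k → Finset ℕ)
    (s : ℕ → ℕ) (hs : ∀ z, s z < m) (n : ℕ) (hn : k ≤ n) (hL : ∀ z j, lam * (lam * n) ≤ (L z j).card)
    (r : ℕ) : ∃ L' : ℕ → Fin k → Finset ℕ, (∀ z j, L' z j ⊆ L z j ∧ n ≤ (L' z j).card) ∧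
      ∀ r' i, (i + 1) * 2 ^ r' ≤ 2 ^ r → ∃ τ0,
        256 * k * cnt (nf s τ0 L') (i * 2 ^ r') ((i + 1) * 2 ^ r') ≤ 2 * 2 ^ r' := by
  classical
  have hn1 : n ≤ lam * n := Nat.le_mul_of_pos_left _ hl
  obtain ⟨L', o1, -, -, o4⟩ := grid0 (L := L) (s := s) (n1 := lam * n) (n2 := n) (q := 256 * k)
    (by omega) hn1 (fun b w τ => by
      let A : ℕ × Fin k × Bool → Finset ℕ := fun t =>
        if t.2.2 = true ∧ g1 L s (lam * n) τ t.1 then (L t.1 t.2.1).filter (fun γ => τ γ = s t.1)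
        else L t.1 t.2.1
      let thr : ℕ × Fin k × Bool → ℕ := fun t => if t.2.2 = true then n else lam * n
      obtain ⟨τ', h⟩ := hR _ (Ico b (b + w) ×ˢ univ) A (fun t => s t.1) thr n (fun t _ => hs _)
        (fun t _ => by simp only [thr]; split_ifs <;> omega)
        (fun t _ => by
          simp only [thr, A]
          have := hL t.1 t.2.1
          have h2 : lam * n ≤ lam * (lam * n) := Nat.mul_le_mul_left _ hn1
          by_cases a : t.2.2 = true
          · rw [if_pos a]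
            split_ifs with c
            · exact c.2 _
            · omega
          · rw [if_neg a, if_neg (fun z => a z.1)]; exact this)
      refine ⟨τ', ?_⟩
      have c1 : cnt (bad L s (lam * n) n τ τ') b (b + w) ≤ ((Ico b (b + w) ×ˢ univ).filter
          (fun t => ((A t).filter (fun γ => τ' γ = s t.1)).card < thr t)).card := by
        refine le_trans (card_le_card (fun z hz => ?_)) (card_image_le (f := fun t => t.1))
        obtain ⟨z1, z2⟩ := mem_filter.1 hz
        rcases z2 with z2 | ⟨z2, z3⟩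
        · obtain ⟨j, hj⟩ := not_forall.1 z2
          refine mem_image.2 ⟨(z, j, false), mem_filter.2 ⟨mem_product.2 ⟨z1, mem_univ _⟩, ?_⟩, rfl⟩
          simp only [A, thr]
          rw [if_neg (by simp), if_neg (by simp)]
          omega
        · obtain ⟨j, hj⟩ := not_forall.1 z3
          refine mem_image.2 ⟨(z, j, true), mem_filter.2 ⟨mem_product.2 ⟨z1, mem_univ _⟩, ?_⟩, rfl⟩
          simp only [A, thr]
          rw [if_pos ⟨trivial, z2⟩, if_pos trivial]
          omega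
      rw [card_product, Nat.card_Ico, card_univ, Fintype.card_prod, Fintype.card_fin, Fintype.card_bool,
        Nat.add_sub_cancel_left] at h
      have k1 : k ≤ 2 ^ k := Nat.lt_two_pow_self.le
      have k2 : 256 * k * (256 * k) * (k * 2) ≤ 2 ^ (20 * n) := by
        calc 256 * k * (256 * k) * (k * 2) = 2 ^ 17 * (k * k * k) := by ring
          _ ≤ 2 ^ (17 * k) * (2 ^ k * 2 ^ k * 2 ^ k) :=
            Nat.mul_le_mul (Nat.pow_le_pow_right (by norm_num) (by omega))
              (Nat.mul_le_mul (Nat.mul_le_mul k1 k1) k1)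
          _ = 2 ^ (20 * k) := by rw [← pow_add, ← pow_add, ← pow_add]; congr 1; ring
          _ ≤ 2 ^ (20 * n) := Nat.pow_le_pow_right (by norm_num) (by omega)
      have := (Nat.mul_le_mul c1 k2).trans h
      refine Nat.le_of_mul_le_mul_right (c := k * 2) (le_trans (le_of_eq ?_) this) (by omega)
      ring) r 0 (fun _ => 0) (fun _ => 0)
  let L'' : ℕ → Fin k → Finset ℕ := fun z => if z < 2 ^ r then L' z else L z
  refine ⟨L'', fun z j => ?_, fun r' i hi => ?_⟩
  · simp only [L'']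
    split_ifs with a
    · exact o1 z (by omega) (by omega) j
    · exact ⟨subset_rfl, le_trans (hn1.trans (Nat.mul_le_mul_left _ hn1)) (hL z j)⟩
  · obtain ⟨τ0, h0⟩ := o4 r' i hi
    simp only [zero_add] at h0
    refine ⟨τ0, le_trans (Nat.mul_le_mul_left _ (cnt_mono (fun z _ z2 hz => ?_))) h0⟩
    unfold nf at hz ⊢
    simp only [L''] at hz
    rwa [if_pos (by omega)] at hz

end Pool.Agent.H22.Blow
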