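import Mathlib
import Pool.Agent.H22.Blow1
import Pool.Agent.H22.Blow2

set_option autoImplicit false

namespace Pool.Agent.H22.Blow
open Finset

lemma first_hit (M : ℕ → ℕ) (n : ℕ) (st : ∀ i, i < n → M (i + 1) ≤ M i + 1) :
    ∃ T : ℕ → ℕ, (∀ z, M 0 + z ≤ M n → T z ≤ n ∧ M (T z) = M 0 + z) ∧
      ∀ x y, x < y → M 0 + y ≤ M n → T x < T y := by
  classical
  let T : ℕ → ℕ := fun z => if h : ∃ i, M 0 + z ≤ M i then Nat.find h else 0
  have sp : ∀ z, M 0 + z ≤ M n → T z ≤ n ∧ M 0 + z ≤ M (T z) ∧ ∀ i, i < T z → M i < M 0 + z := by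
    intro z hz
    have h : ∃ i, M 0 + z ≤ M i := ⟨n, hz⟩
    simp only [T, dif_pos h]
    exact ⟨Nat.find_min' h hz, Nat.find_spec h, fun i hi => not_le.1 (Nat.find_min h hi)⟩
  have ex : ∀ z, M 0 + z ≤ M n → T z ≤ n ∧ M (T z) = M 0 + z := by
    intro z hz
    obtain ⟨a, b, c⟩ := sp z hz
    refine ⟨a, ?_⟩
    rcases e : T z with _ | j
    · rw [e] at b; omega
    · rw [e] at a b
      have := c j (by omega)
      have := st j (by omega)
      omega
  refine ⟨T, ex, fun x y hxy hy => ?_⟩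
  have a := (ex x (by omega)).2
  have b := (ex y hy).2
  by_contra hh
  rcases (not_lt.1 hh).eq_or_lt with e | e
  · rw [e] at b; omega
  · have := (sp x (by omega)).2.2 _ e
    omega

lemma walk (S w : ℕ → ℕ) (t : ℕ) (ht : 0 < t)
    (st : ∀ i, i + 1 < 2 * t → w (i + 1) ≤ w i + 1 ∧ w i ≤ w (i + 1) + 1)
    (ne : ∀ i, i < t → w i ≠ w (i + t)) (u n : ℕ) (hu : ∀ i, i < 2 * t → u ≤ w i ∧ w i < n)
    (au : ∃ i, i < 2 * t ∧ w i = u) (an : ∃ i, i < 2 * t ∧ w i + 1 = n) (Mis : Finset ℕ)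
    (hM : ∀ i, i < t → i ∉ Mis → S (w i) = S (w (i + t)) ∧ w i % 3 = w (i + t) % 3)
    (hμ : 16 * Mis.card ≤ n - u) : ∃ a ℓ, u ≤ a ∧ 1 ≤ ℓ ∧ a + ℓ = n ∧ Bad S a ℓ := by
  classical
  obtain ⟨M, hMd⟩ : ∃ M : ℕ → ℕ, ∀ i, M i = max (w i) (w (i + t)) := ⟨_, fun _ => rfl⟩
  obtain ⟨D, hD⟩ : ∃ D : ℕ → ℕ, ∀ i, D i = max (w i) (w (i + t)) - min (w i) (w (i + t)) :=
    ⟨_, fun _ => rfl⟩
  obtain ⟨g, hg, g1⟩ : ∃ g : ℕ → ℕ, (∀ i, g i ≤ Mis.card) ∧
      ∀ i, g (i + 1) = g i + if i ∈ Mis then 1 else 0 := by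
    refine ⟨fun i => (Mis.filter (· < i)).card, fun i => card_filter_le _ _, fun i => ?_⟩
    dsimp only
    split_ifs with a
    · rw [← card_insert_of_notMem (a := i) (by simp)]
      congr 1
      ext x
      simp only [mem_filter, mem_insert]
      constructor
      · rintro ⟨h1, h2⟩
        by_cases e : x = i
        · exact Or.inl e
        · exact Or.inr ⟨h1, by omega⟩
      · rintro (rfl | ⟨h1, h2⟩)
        · exact ⟨a, by omega⟩
        · exact ⟨h1, by omega⟩
    · rw [add_zero]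
      congr 1
      refine filter_congr (fun x hx => ?_)
      have : x ≠ i := by rintro rfl; exact a hx
      omega
  obtain ⟨V, hV⟩ : ∃ V : ℕ → ℕ, ∀ i, V i = 2 * g i + 2 * g (i + 1) := ⟨_, fun _ => rfl⟩
  have Vb : ∀ i, V i ≤ 4 * Mis.card := fun i => by
    have := hg i
    have := hg (i + 1)
    rw [hV]; omega
  have step : ∀ i, i + 1 < t → (D (i + 1) + V i ≤ D i + V (i + 1) ∧ D i + V i ≤ D (i + 1) + V (i + 1) ∧
      V i ≤ V (i + 1)) ∧ M (i + 1) ≤ M i + 1 ∧ M i ≤ M (i + 1) + 1 := by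
    intro i hi
    have s1 := st i (by omega)
    have s2 := st (i + t) (by omega)
    rw [show i + t + 1 = i + 1 + t by omega] at s2
    have e1 := g1 i
    have e2 := g1 (i + 1)
    rw [hV, hV, hD, hD, hMd, hMd]
    by_cases a : i ∈ Mis
    · rw [if_pos a] at e1
      split_ifs at e2 <;> omega
    by_cases b : i + 1 ∈ Mis
    · rw [if_pos b] at e2
      split_ifs at e1 <;> omega
    rw [if_neg a] at e1
    rw [if_neg b] at e2
    have m1 := (hM i (by omega) a).2
    have m2 := (hM (i + 1) hi b).2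
    have n1 := ne i (by omega)
    have n2 := ne (i + 1) hi
    omega
  have var : ∀ i j, i ≤ j → j < t → D j + V i ≤ D i + V j ∧ D i + V i ≤ D j + V j ∧ V i ≤ V j := by
    intro i j hij
    induction j, hij using Nat.le_induction with
    | base => intro _; omega
    | succ j _ ih =>
      intro hj
      have := ih (by omega)
      have := (step j hj).1
      omega
  have var2 : ∀ i j, i < t → j < t → D j ≤ D i + 4 * Mis.card := by
    intro i j hi hj
    have := Vb i
    have := Vb j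
    rcases le_total i j with h | h
    · have := var i j h hj; omega
    · have := var j i h hi; omega
  obtain ⟨i0, h0, m0⟩ := exists_min_image (range t) M ⟨0, mem_range.2 ht⟩
  simp only [mem_range] at h0 m0
  obtain ⟨i1, h1, m1⟩ : ∃ i1, i1 < t ∧ M i1 + 1 = n := by
    obtain ⟨i, hi, e⟩ := an
    by_cases a : i < t
    · have := hu (i + t) (by omega)
      exact ⟨i, a, by rw [hMd]; omega⟩
    · have := hu (i - t) (by omega)
      exact ⟨i - t, by omega, by rw [hMd, show i - t + t = i by omega]; omega⟩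
  obtain ⟨j0, k0, n0⟩ : ∃ j0, j0 < t ∧ M j0 = u + D j0 := by
    obtain ⟨i, hi, e⟩ := au
    by_cases a : i < t
    · have := hu (i + t) (by omega)
      exact ⟨i, a, by rw [hMd, hD]; omega⟩
    · have := hu (i - t) (by omega)
      exact ⟨i - t, by omega, by rw [hMd, hD, show i - t + t = i by omega]; omega⟩
  obtain ⟨j1, k1, n1⟩ : ∃ j1, j1 < t ∧ M i0 + D j1 ≤ M j1 + 1 := by
    by_contra hh
    have hh' : ∀ j, j < t → M j + 1 < M i0 + D j := fun j hj => by
      by_contra z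
      exact hh ⟨j, hj, by omega⟩
    have side : ∀ i, i < 2 * t → M i0 ≤ w i ∨ w i + 2 ≤ M i0 := by
      intro i hi
      by_cases a : i < t
      · have b1 := hh' i a
        have b2 := m0 i a
        rw [hMd i, hD] at b1
        rw [hMd i] at b2
        omega
      · have b1 := hh' (i - t) (by omega)
        have b2 := m0 (i - t) (by omega)
        rw [hMd (i - t), hD, show i - t + t = i by omega] at b1
        rw [hMd (i - t), show i - t + t = i by omega] at b2
        omega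
    have same : ∀ i, i < 2 * t → (M i0 ≤ w i ↔ M i0 ≤ w 0) := by
      intro i
      induction i with
      | zero => intro _; rfl
      | succ i ih =>
        intro hi
        have := ih (by omega)
        have := side i (by omega)
        have := side (i + 1) hi
        have := st i hi
        omega
    have b1 := hh' 0 ht
    have b2 := m0 0 ht
    have b3 := same (0 + t) (by omega)
    rw [hMd 0, hD] at b1
    rw [hMd 0] at b2
    omega
  have Mb : ∀ i, i < t → u ≤ M i ∧ M i < n ∧ D i ≤ n - u := fun i hi => by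
    have := hu i (by omega)
    have := hu (i + t) (by omega)
    rw [hMd, hD]; omega
  obtain ⟨ℓ, hℓ⟩ : ∃ ℓ, M i0 + ℓ = n := ⟨n - M i0, by have := Mb i0 h0; omega⟩
  have l1 : 1 ≤ ℓ := by have := Mb i0 h0; omega
  have big : n - u ≤ 2 * ℓ + 4 * Mis.card := by
    have := var2 j1 j0 k1 k0
    have := m0 j0 k0
    have := Mb j1 k1
    omega
  obtain ⟨T, Q, t1, t2⟩ : ∃ T Q : ℕ → ℕ, (∀ z, z < ℓ → T z < t ∧ M (T z) = M i0 + z ∧ Q z ≤ 4 * Mis.card) ∧
      ∀ x y, x < y → y < ℓ → Q x ≤ Q y ∧ Q x + D (T x) ≤ Q y + D (T y) := by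
    rcases le_total i0 i1 with h | h
    · obtain ⟨T, a, b⟩ := first_hit (fun i => M (i0 + i)) (i1 - i0)
        (fun i hi => (step (i0 + i) (by omega)).2.1)
      simp only [add_zero, show i0 + (i1 - i0) = i1 by omega] at a b
      refine ⟨fun z => i0 + T z, fun z => V (i0 + T z), fun z hz => ?_, fun x y hxy hy => ?_⟩
      · have := a z (by omega)
        dsimp only
        exact ⟨by omega, this.2, Vb _⟩
      · have := a y (by omega)
        have := b x y hxy (by omega)
        have := var (i0 + T x) (i0 + T y) (by omega) (by omega)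
        dsimp only
        omega
    · obtain ⟨T, a, b⟩ := first_hit (fun i => M (i0 - i)) (i0 - i1)
        (fun i hi => by
          have := (step (i0 - (i + 1)) (by omega)).2.2
          rwa [show i0 - (i + 1) + 1 = i0 - i by omega] at this)
      simp only [Nat.sub_zero, show i0 - (i0 - i1) = i1 by omega] at a b
      refine ⟨fun z => i0 - T z, fun z => 4 * Mis.card - V (i0 - T z), fun z hz => ?_,
        fun x y hxy hy => ?_⟩
      · have := a z (by omega)
        dsimp only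
        exact ⟨by omega, this.2, by omega⟩
      · have := a y (by omega)
        have := b x y hxy (by omega)
        have := var (i0 - T y) (i0 - T x) (by omega) (by omega)
        have := Vb (i0 - T x)
        have := Vb (i0 - T y)
        dsimp only
        omega
  have fc : ((range ℓ).filter (fun z => T z ∈ Mis)).card ≤ Mis.card := by
    refine card_le_card_of_injOn T (fun z hz => (mem_filter.1 hz).2) (fun x hx y hy e => ?_)
    have a := (t1 x (mem_range.1 (mem_filter.1 hx).1)).2.1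
    have b := (t1 y (mem_range.1 (mem_filter.1 hy).1)).2.1
    rw [e] at a
    omega
  have fs := card_filter_add_card_filter_not (s := range ℓ) (fun z => T z ∈ Mis)
  rw [card_range] at fs
  refine ⟨M i0, ℓ, (Mb i0 h0).1, l1, hℓ, (range ℓ).filter (fun z => ¬ T z ∈ Mis),
    fun z => Q z + D (T z) + z, fun z => Q z + z, filter_subset _ _, by omega,
    fun x y hxy hy => ?_, fun x y hxy hy => ?_, fun z hz => ?_, fun z hz => ?_, fun z hz => ?_⟩
  · have := t2 x y hxy hy; dsimp only; omega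
  · have := t2 x y hxy hy; dsimp only; omega
  · have := t1 z hz
    have := Mb _ this.1
    dsimp only
    omega
  · have := t1 z hz; dsimp only; omega
  · obtain ⟨z1, z2⟩ := mem_filter.1 hz
    obtain ⟨a, b, -⟩ := t1 z (mem_range.1 z1)
    have c := (hM _ a z2).1
    have d := ne _ a
    have e := hD (T z)
    dsimp only
    refine ⟨by omega, ?_⟩
    rw [← b, show Q z + D (T z) + z - (Q z + z) = D (T z) by omega, hMd, e]
    rcases le_total (w (T z)) (w (T z + t)) with o | o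
    · rw [max_eq_right o, min_eq_left o, Nat.sub_sub_self o, c]
    · rw [max_eq_left o, min_eq_right o, Nat.sub_sub_self o, c]

lemma two_grid {o R r u v : ℕ} (ho : 3 * o + 1 = 2 ^ (2 * R)) (hr : r ≤ 2 * R) (huv : u ≤ v)
    (h : 3 * (v - u) + 1 < 2 ^ r) : u / 2 ^ r = v / 2 ^ r ∨ (u + o) / 2 ^ r = (v + o) / 2 ^ r := by
  obtain ⟨f, hf⟩ : ∃ f, 2 ^ (2 * R) = 2 ^ r * f := ⟨2 ^ (2 * R - r), by rw [← pow_add]; congr 1; omega⟩
  rw [hf] at ho
  generalize 2 ^ r = e at *
  have e0 : 0 < e := by omega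
  by_contra hh
  have key : ∀ x y, x ≤ y → x / e ≠ y / e → x < e * (y / e) ∧ e * (y / e) ≤ y := fun x y hxy hne => by
    refine ⟨?_, Nat.mul_div_le _ _⟩
    have a : x / e < y / e := lt_of_le_of_ne (Nat.div_le_div_right hxy) hne
    have b : x < e * (x / e + 1) := Nat.lt_mul_div_succ x e0
    exact lt_of_lt_of_le b (Nat.mul_le_mul_left _ a)
  obtain ⟨a1, a2⟩ := key u v huv (fun z => hh (Or.inl z))
  obtain ⟨b1, b2⟩ := key (u + o) (v + o) (by omega) (fun z => hh (Or.inr z))
  generalize v / e = A at *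
  generalize (v + o) / e = B at *
  have dv : (e : ℤ) ∣ 3 * ((e * B : ℕ) - o - (e * A : ℕ) : ℤ) - 1 := by
    refine ⟨3 * B - 3 * A - f, ?_⟩
    have : (3 * o + 1 : ℤ) = e * f := by exact_mod_cast ho
    push_cast
    linarith
  have := Int.eq_zero_of_abs_lt_dvd dv (abs_lt.2 ⟨by omega, by omega⟩)
  omega

def Good {k : ℕ} (f : ℕ × Fin k → ℕ) (N : ℕ) : Prop :=
  ∀ n : ℕ, 0 < n → ∀ v : ℕ → ℕ × Fin k, (∀ i, i < 2 * n → (v i).1 < N) →
    (∀ i j, i < 2 * n → j < 2 * n → v i = v j → i = j) →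
    (∀ i, i + 1 < 2 * n → (v (i + 1)).1 ≤ (v i).1 + 1 ∧ (v i).1 ≤ (v (i + 1)).1 + 1) →
    ¬ (∀ i, i < n → f (v i) = f (v (i + n)))

theorem finite_case {lam k : ℕ} (hl : 1 ≤ lam) (hR : Rnd (3 * 2 ^ 26) lam) (hk : 1 ≤ k)
    (L : ℕ × Fin k → Finset ℕ) (hL : ∀ v, lam * (lam * (lam * (lam * k))) ≤ (L v).card) (N : ℕ) :
    ∃ f : ℕ × Fin k → ℕ, (∀ v, f v ∈ L v) ∧ Good f N := by
  classical
  obtain ⟨W, hW, hB⟩ := sparse_word N
  let s : ℕ → ℕ := fun z => if z < N then 3 * W (z + 1) + (z + 1) % 3 else 0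
  have hs : ∀ z, s z < 3 * 2 ^ 26 := fun z => by
    simp only [s]
    split_ifs with a
    · have := hW (z + 1) (by omega) (by omega)
      omega
    · norm_num
  obtain ⟨o, ho⟩ : ∃ o, 3 * o + 1 = 2 ^ (2 * (N + 2)) := by
    generalize N + 2 = R
    induction R with
    | zero => exact ⟨0, rfl⟩
    | succ R ih =>
      obtain ⟨o, ho⟩ := ih
      exact ⟨4 * o + 1, by rw [show 2 * (R + 1) = 2 * R + 2 by ring, pow_add, ← ho]; ring⟩
  have hN : 8 * N ≤ 2 ^ (2 * (N + 2)) := by
    have a : N ≤ 2 ^ N := Nat.lt_two_pow_self.le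
    calc 8 * N ≤ 8 * 2 ^ N := by omega
      _ = 2 ^ (N + 3) := by ring
      _ ≤ _ := Nat.pow_le_pow_right (by norm_num) (by omega)
  have kk : k ≤ lam * (lam * k) :=
    (Nat.le_mul_of_pos_left _ hl).trans (Nat.le_mul_of_pos_left _ hl)
  obtain ⟨L1, a1, a2⟩ := grid hl hR hk (fun z j => L (z, j)) s hs (lam * (lam * k)) kk
    (fun z j => hL _) (2 * (N + 2))
  obtain ⟨L2, b1, b2⟩ := grid hl hR hk (fun z j => L1 (z - o) j) (fun z => s (z - o)) (fun z => hs _) k
    le_rfl (fun z j => (a1 _ j).2) (2 * (N + 2))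
  have hall : ∀ z, ∃ f : Fin k → ℕ, Function.Injective f ∧ ∀ j, f j ∈ L2 (z + o) j := fun z =>
    (all_card_le_biUnion_card_iff_existsInjective' _).1 (fun J => by
      rcases J.eq_empty_or_nonempty with rfl | ⟨j, hj⟩
      · simp
      · have := card_le_card (subset_biUnion_of_mem (L2 (z + o)) hj)
        have := (b1 (z + o) j).2
        have := card_le_univ J
        rw [Fintype.card_fin] at this
        omega)
  choose f f1 f2 using hall
  have f3 : ∀ z j, f z j ∈ L1 z j := fun z j => by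
    have := (b1 (z + o) j).1 (f2 z j)
    rwa [Nat.add_sub_cancel] at this
  refine ⟨fun v => f v.1 v.2, fun v => (a1 v.1 v.2).1 (f3 _ _), fun t ht v vN inj adj hq => ?_⟩
  obtain ⟨iu, hiu, mu⟩ := exists_min_image (range (2 * t)) (fun i => (v i).1) ⟨0, mem_range.2 (by omega)⟩
  obtain ⟨iv, hiv, mv⟩ := exists_max_image (range (2 * t)) (fun i => (v i).1) ⟨0, mem_range.2 (by omega)⟩
  simp only [mem_range] at hiu hiv mu mv
  obtain ⟨x, hx⟩ : ∃ x, x = (v iu).1 := ⟨_, rfl⟩
  obtain ⟨y, hy⟩ : ∃ y, y = (v iv).1 := ⟨_, rfl⟩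
  rw [← hx] at mu
  rw [← hy] at mv
  have xy : x ≤ y := hy ▸ mu iv hiv
  have yN : y < N := hy ▸ vN iv hiv
  obtain ⟨r, r1, r2⟩ : ∃ r, 4 * (y + 1 - x) < 2 ^ r ∧ 2 ^ r ≤ 8 * (y + 1 - x) := by
    refine ⟨Nat.log 2 (4 * (y + 1 - x)) + 1, Nat.lt_pow_succ_log_self (by norm_num) _, ?_⟩
    have := Nat.pow_log_le_self 2 (x := 4 * (y + 1 - x)) (by omega)
    rw [pow_succ]; omega
  have r3 : r ≤ 2 * (N + 2) :=
    (Nat.pow_le_pow_iff_right (by norm_num : 1 < 2)).1 (by omega)
  have p : 0 < 2 ^ r := by positivity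
  have top : ∀ z, z < 2 ^ (2 * (N + 2)) → (z / 2 ^ r + 1) * 2 ^ r ≤ 2 ^ (2 * (N + 2)) := fun z hz => by
    obtain ⟨d, hd⟩ : ∃ d, 2 ^ (2 * (N + 2)) = d * 2 ^ r :=
      ⟨2 ^ (2 * (N + 2) - r), by rw [← pow_add]; congr 1; omega⟩
    rw [hd] at hz ⊢
    exact Nat.mul_le_mul_right _ ((Nat.div_lt_iff_lt_mul p).2 hz)
  have ins : ∀ a b z, a / 2 ^ r = b / 2 ^ r → a ≤ z → z ≤ b →
      a / 2 ^ r * 2 ^ r ≤ z ∧ z < (a / 2 ^ r + 1) * 2 ^ r := fun a b z e z1 z2 => by
    have := Nat.div_mul_le_self a (2 ^ r)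
    have := Nat.lt_mul_div_succ b p
    rw [← e, mul_comm] at this
    omega
  obtain ⟨τ, Wd, w1, w2⟩ : ∃ (τ : ℕ → ℕ) (Wd : Finset ℕ), 256 * k * Wd.card ≤ 2 * 2 ^ r ∧
      ∀ z, x ≤ z → z ≤ y → z ∉ Wd → ∀ j, τ (f z j) = s z := by
    rcases two_grid ho r3 xy (by omega) with e | e
    · obtain ⟨τ, h⟩ := a2 r (x / 2 ^ r) (top x (by omega))
      refine ⟨τ, _, h, fun z z1 z2 hz j => ?_⟩
      by_contra c
      exact hz (mem_filter.2 ⟨mem_Ico.2 (ins x y z e z1 z2), fun a => c (a j _ (f3 z j))⟩)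
    · obtain ⟨τ, h⟩ := b2 r ((x + o) / 2 ^ r) (top _ (by omega))
      refine ⟨τ, Finset.image (fun z => z - o) _, le_trans (Nat.mul_le_mul_left _ card_image_le) h,
        fun z z1 z2 hz j => ?_⟩
      by_contra c
      refine hz (mem_image.2 ⟨z + o, mem_filter.2 ⟨mem_Ico.2 (ins _ _ _ e (by omega) (by omega)),
        fun a => c ?_⟩, Nat.add_sub_cancel _ _⟩)
      have := a j _ (f2 z j)
      simpa only [Nat.add_sub_cancel] using this
  let Mis := (range t).filter (fun i => (v i).1 ∈ Wd ∨ (v (i + t)).1 ∈ Wd)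
  have mc : Mis.card ≤ Wd.card * k := by
    have : Mis.card ≤ (Wd ×ˢ (univ : Finset (Fin k))).card := by
      refine card_le_card_of_injOn (fun i => if (v i).1 ∈ Wd then v i else v (i + t)) (fun i hi => ?_)
        (fun i hi j hj e => ?_)
      · have := (mem_filter.1 hi).2
        refine mem_product.2 ⟨?_, mem_univ _⟩
        dsimp only
        split_ifs with a
        · exact a
        · exact this.resolve_left a
      · have h1 := mem_range.1 (mem_filter.1 hi).1
        have h2 := mem_range.1 (mem_filter.1 hj).1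
        dsimp only at e
        split_ifs at e <;> have := inj _ _ (by omega) (by omega) e <;> omega
    rwa [card_product, card_univ, Fintype.card_fin] at this
  obtain ⟨a, ℓ, c1, c2, c3, c4⟩ := walk W (fun i => (v i).1 + 1) t ht
    (fun i hi => by have := adj i hi; omega)
    (fun i hi e => by
      have e1 : (v i).1 = (v (i + t)).1 := by omega
      have e2 := hq i hi
      dsimp only at e2
      rw [← e1] at e2
      have := inj i (i + t) (by omega) (by omega) (Prod.ext e1 (f1 _ e2))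
      omega)
    (x + 1) (y + 2) (fun i hi => by have := mu i hi; have := mv i hi; omega)
    ⟨iu, hiu, by rw [hx]⟩ ⟨iv, hiv, by rw [hy]⟩ Mis
    (fun i hi hm => by
      have n1 : (v i).1 ∉ Wd := fun z => hm (mem_filter.2 ⟨mem_range.2 hi, Or.inl z⟩)
      have n2 : (v (i + t)).1 ∉ Wd := fun z => hm (mem_filter.2 ⟨mem_range.2 hi, Or.inr z⟩)
      have e1 := w2 _ (mu i (by omega)) (mv i (by omega)) n1 (v i).2
      have e2 := w2 _ (mu (i + t) (by omega)) (mv (i + t) (by omega)) n2 (v (i + t)).2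
      have e3 := hq i hi
      dsimp only at e3
      rw [e3, e2] at e1
      simp only [s] at e1
      rw [if_pos (vN _ (by omega)), if_pos (vN _ (by omega))] at e1
      omega)
    (by
      have : 256 * (Wd.card * k) ≤ 2 * 2 ^ r := by rw [← mul_assoc, mul_right_comm]; exact w1
      omega)
  exact hB a ℓ (by omega) c2 (by omega) c4

theorem main : ∃ c : ℕ, ∀ k : ℕ, ∀ L : ℕ × Fin k → Finset ℕ, (∀ v, c * k ≤ (L v).card) →
    ∃ f : ℕ × Fin k → ℕ, (∀ v, f v ∈ L v) ∧
      ∀ n : ℕ, 0 < n → ∀ v : ℕ → ℕ × Fin k,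
        (∀ i j, i < 2 * n → j < 2 * n → v i = v j → i = j) →
        (∀ i, i + 1 < 2 * n →
          ((v i).1 + 1 = (v (i + 1)).1 ∨ (v (i + 1)).1 + 1 = (v i).1 ∨
            ((v i).1 = (v (i + 1)).1 ∧ (v i).2 ≠ (v (i + 1)).2))) →
        ¬ (∀ i, i < n → f (v i) = f (v (i + n))) := by
  classical
  obtain ⟨lam, hl, hR⟩ := rnd (3 * 2 ^ 26) (by norm_num)
  refine ⟨lam * (lam * (lam * lam)), fun k L hL => ?_⟩
  rcases Nat.eq_zero_or_pos k with rfl | hk
  · exact ⟨fun _ => 0, fun v => v.2.elim0, fun n _ v => (v 0).2.elim0⟩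
  choose F F1 F2 using finite_case hl hR hk L (fun v => by
    have := hL v
    rwa [mul_assoc, mul_assoc, mul_assoc] at this)
  have lim : ∀ v, ∃ c ∈ L v, ∀ᶠ N in (Filter.hyperfilter ℕ : Filter ℕ), F N v = c := fun v => by
    have : ∀ᶠ N in (Filter.hyperfilter ℕ : Filter ℕ), ∃ c ∈ (L v : Set ℕ), F N v = c :=
      Filter.Eventually.of_forall (fun N => ⟨_, F1 N v, rfl⟩)
    exact (Ultrafilter.eventually_exists_mem_iff (L v).finite_toSet).1 this
  choose f f1 f2 using lim
  refine ⟨f, f1, fun n hn v inj adj hq => ?_⟩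
  have ev : ∀ᶠ N in (Filter.hyperfilter ℕ : Filter ℕ), ∀ i ∈ range (2 * n),
      F N (v i) = f (v i) ∧ (v i).1 < N := by
    refine (Filter.eventually_all_finset _).2 (fun i _ => (f2 (v i)).and ?_)
    refine Filter.hyperfilter_le_cofinite ?_
    rw [Nat.cofinite_eq_atTop]
    exact Filter.eventually_gt_atTop _
  obtain ⟨N, hN⟩ := ev.exists
  simp only [mem_range] at hN
  refine F2 N n hn v (fun i hi => (hN i hi).2) inj (fun i hi => by have := adj i hi; omega)
    (fun i hi => ?_)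
  rw [(hN i (by omega)).1, (hN (i + n) (by omega)).1]
  exact hq i hi

end Pool.Agent.H22.Blow
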