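import Pool.Agent.H36.Sim
import Pool.Agent.H36.Ilp

/-!
Simulation of a machine until it halts, inside the fixed-parameter calculus.
-/

namespace Pool.Agent.H22.FtSim

open Pool.Agent.H38.NP Pool.Agent.H36.Sim Pool.Agent.H36.Par Function Turing Turing.TM2

theorem sim_machine (M0 : TM2ComputableAux Bool Bool) :
    ∃ (ini : Bits → Cd) (step : Cd → Cd) (hl : Cd → Bool) (out : Cd → Bits) (C : ℕ),
      PT ini ∧ PT step ∧ PT hl ∧ PT out ∧ (∀ c, sz (step c) ≤ sz c + C) ∧
      ∀ (u v : List Bool) (T : ℕ),
        Nonempty (TM2OutputsInTime M0.tm (u.map M0.inputAlphabet.invFun)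
          (some (v.map M0.outputAlphabet.invFun)) T) →
        ∃ t ≤ T, (∀ i < t, hl (step^[i] (ini ⟨u⟩)) = false) ∧ hl (step^[t] (ini ⟨u⟩)) = true ∧
          out (step^[t] (ini ⟨u⟩)) = ⟨v⟩ := by
  classical
  obtain ⟨tm, ia, oa⟩ := M0
  have := tm.kFin
  have := tm.ΛFin
  have := tm.σFin
  let M := tm.m
  let G : Set (Σ k, tm.Γ k) := (⋃ l, syms (M l)) ∪ Set.range fun b : Bool => ⟨tm.k₀, ia.symm b⟩
  have hGf : G.Finite := (Set.finite_iUnion fun l => syms_finite _).union (Set.finite_range _)
  have hG : ∀ l, syms (M l) ⊆ G := fun l x hx => Or.inl (Set.mem_iUnion.2 ⟨l, hx⟩)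
  let D := Finset.univ.sup fun l => depth (M l)
  have hD : ∀ l, depth (M l) ≤ D := fun l =>
    Finset.le_sup (f := fun l => depth (M l)) (Finset.mem_univ l)
  let ks : List tm.K := Finset.univ.toList
  have hks : ∀ k, k ∈ ks := fun k => by simp [ks]
  let c0 : List Bool → Cfg tm.Γ tm.Λ tm.σ := fun u => initList tm (u.map ia.symm)
  have hgood0 : ∀ u, Good G (c0 u).stk := by
    intro u k a ha
    by_cases e : k = tm.k₀
    · subst e
      simp only [c0, initList_k0, List.mem_map] at ha
      obtain ⟨b, -, rfl⟩ := ha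
      exact Or.inr ⟨b, rfl⟩
    · simp [c0, initList_ne tm _ e] at ha
  have hgood : ∀ u t, Good G ((nxt M)^[t] (c0 u)).stk := by
    intro u t
    induction t with
    | zero => exact hgood0 u
    | succ t ih => rw [iterate_succ_apply']; exact good_nxt M hG _ ih
  have hrun : ∀ (u v : List Bool) (T : ℕ),
      Nonempty (TM2OutputsInTime tm (u.map ia.invFun) (some (v.map oa.invFun)) T) →
      ∃ t ≤ T, (∀ i < t, ((nxt M)^[i] (c0 u)).l ≠ none) ∧ ((nxt M)^[t] (c0 u)).l = none ∧
        ((nxt M)^[t] (c0 u)).stk tm.k₁ = v.map oa.symm := by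
    rintro u v T ⟨h⟩
    have e := iter_nxt_le M h.steps_le_m rfl h.evals_in_steps
    have ex : ∃ t, ((nxt M)^[t] (c0 u)).l = none := ⟨T, congrArg (fun c => c.l) e⟩
    have hle : Nat.find ex ≤ T := Nat.find_min' ex (congrArg (fun c => c.l) e)
    refine ⟨Nat.find ex, hle, fun i hi => Nat.find_min ex hi, Nat.find_spec ex, ?_⟩
    have hs := Nat.find_spec ex
    obtain ⟨d, hd⟩ := Nat.exists_eq_add_of_le hle
    have e2 : (nxt M)^[T] (c0 u) = (nxt M)^[Nat.find ex] (c0 u) := by
      rw [hd, Nat.add_comm, iterate_add_apply]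
      apply iterate_fixed
      generalize (nxt M)^[Nat.find ex] (c0 u) = c at hs
      obtain ⟨l, w, S⟩ := c
      cases hs
      rfl
    rw [← e2]
    exact (congrArg (fun c => c.stk tm.k₁) e).trans (haltList_k1 _ _)
  let sy : ∀ k, tm.Γ k → ℕ := fun k a => hGf.toFinset.toList.idxOf ⟨k, a⟩
  have hsy : ∀ k a b, (⟨k, a⟩ : Σ k, tm.Γ k) ∈ G → sy k a = sy k b → a = b := by
    intro k a b ha e
    have := (List.idxOf_inj (by simpa using ha)).1 e
    simpa using this
  let st : Option tm.Λ × tm.σ → ℕ := fun s => Finset.univ.toList.idxOf s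
  have hst : ∀ a b, st a = st b → a = b := fun a b e => (List.idxOf_inj (by simp)).1 e
  let cd : Cfg tm.Γ tm.Λ tm.σ → Cd := fun c =>
    (st (c.l, c.var), ks.map fun k => (c.stk k).map (sy k))
  have hcd : ∀ a b, Good G a.stk → cd a = cd b → a = b := by
    rintro ⟨l, v, S⟩ ⟨l', v', S'⟩ ha e
    simp only [cd, Prod.mk.injEq, List.map_inj_left] at e
    obtain ⟨rfl, rfl⟩ := Prod.mk.inj (hst _ _ e.1)
    congr 1
    funext k
    have h1 := e.2 k (hks k)
    have h2 := ha k
    simp only at h2
    generalize S k = s at h1 h2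
    generalize S' k = s' at h1
    induction s generalizing s' with
    | nil => cases s' <;> simp_all
    | cons a s ih =>
      cases s' with
      | nil => simp at h1
      | cons b s' =>
        simp only [List.map_cons, List.cons.injEq] at h1
        rw [hsy k a b (h2 a (by simp)) h1.1, ih (fun x hx => h2 x (by simp [hx])) s' h1.2]
  let Tb : List (Cd × Cd) := (wins_finite (Λ := tm.Λ) (σ := tm.σ) hGf D).toFinset.toList.map
    fun ω => (cd ω, cd (nxt M ω))
  have hstp : ∀ c, Good G c.stk → stp D Tb (cd c) = cd (nxt M c) := by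
    intro c hc
    have hw : win D c ∈ Wins G D :=
      ⟨fun k a ha => hc k a (List.mem_of_mem_take ha), fun k => by simp [win]⟩
    have e1 : ((cd c).1, (cd c).2.map (List.take D)) = cd (win D c) := by
      simp [cd, win, List.map_take]
    have e2 : Tb.find? (fun e => e.1 == cd (win D c)) = some (cd (win D c), cd (nxt M (win D c))) := by
      cases e : Tb.find? (fun e => e.1 == cd (win D c)) with
      | none =>
        have := List.find?_eq_none.1 e (cd (win D c), cd (nxt M (win D c)))
          (List.mem_map.2 ⟨_, by simpa using hw, rfl⟩)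
        simp at this
      | some p =>
        have h1 := List.find?_some e
        obtain ⟨ω, -, rfl⟩ := List.mem_map.1 (List.mem_of_find?_eq_some e)
        rw [hcd _ _ hw.1 (beq_iff_eq.1 h1).symm]
    unfold stp
    rw [e1, e2, nxt_win M hD c]
    simp [cd, ext, List.zipWith_map, List.map_drop]
  have hit : ∀ u t, (stp D Tb)^[t] (cd (c0 u)) = cd ((nxt M)^[t] (c0 u)) := by
    intro u t
    induction t with
    | zero => rfl
    | succ t ih => rw [iterate_succ_apply', iterate_succ_apply', ih, hstp _ (hgood u t)]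
  have hi : PT fun x : Bits => cd (c0 x.val) := by
    have : PT fun x : Bits => (st ((c0 []).l, (c0 []).var),
        (ks.map fun k => decide (k = tm.k₀)).map fun b =>
          cond b (x.val.map fun y => cond y (sy _ (ia.symm true)) (sy _ (ia.symm false))) []) := by
      fun_prop
    refine this.of_eq fun x => ?_
    simp only [cd, List.map_map]
    congr 1
    refine List.map_congr_left fun k _ => ?_
    by_cases e : k = tm.k₀
    · subst e
      simp only [c0, initList_k0, List.map_map, comp, decide_true, cond_true]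
      exact List.map_congr_left fun y _ => by cases y <;> rfl
    · simp [c0, initList_ne tm _ e, e]
  let tb : List Bool := (Finset.univ : Finset (Option tm.Λ × tm.σ)).toList.map fun s => s.1.isNone
  have htb : ∀ c, tb.getD (cd c).1 false = c.l.isNone := by
    intro c
    simp only [tb, cd, st, List.getD_eq_getElem?_getD, List.getElem?_map]
    rw [List.getElem?_idxOf (by simp)]
    rfl
  have hO : PT fun c : Cd => Bits.mk ((c.2.getD (ks.idxOf tm.k₁) []).map
      fun n => decide (n = sy _ (oa.symm true))) := by fun_prop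
  refine ⟨fun x => cd (c0 x.val), stp D Tb, fun c => tb.getD c.1 false, _, sz Tb + 1, hi,
    by unfold stp; fun_prop, by fun_prop, hO, sz_stp D Tb, fun u v T hu => ?_⟩
  obtain ⟨t, ht, h1, h2, hrun'⟩ := hrun u v T hu
  refine ⟨t, ht, fun i hi => ?_, ?_, ?_⟩
  · simp only
    rw [hit, htb]
    simpa [Option.isSome_iff_ne_none] using h1 i hi
  · simp only
    rw [hit, htb, h2]; rfl
  simp only
  rw [hit]
  have hl := List.idxOf_lt_length_of_mem (hks tm.k₁)
  have hg := hgood u t tm.k₁
  congr 1
  have : (cd ((nxt M)^[t] (c0 u))).2.getD (ks.idxOf tm.k₁) [] =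
      (v.map oa.symm).map (sy _) := by
    rw [← hrun']
    simp only [cd, List.getD_eq_getElem?_getD, List.getElem?_map]
    rw [List.getElem?_idxOf (hks _)]
    rfl
  rw [this, List.map_map, List.map_map]
  rw [hrun'] at hg
  conv_rhs => rw [← List.map_id v]
  refine List.map_congr_left fun b hb => ?_
  cases b
  · simp only [comp, id, decide_eq_false_iff_not]
    intro e
    simpa using hsy _ _ _ (hg _ (List.mem_map_of_mem hb)) e
  · simp


structure Fl (σ : Type) where
  b : Bool
  s : σ

instance {σ : Type} [Enc σ] : Enc (Fl σ) := ⟨fun w => w.b :: enc w.s⟩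

variable {α σ : Type} [Enc α] [Enc σ] {κ : α → ℕ}

theorem pt_s : PT fun w : Fl σ => w.s :=
  (PT.btail.comp (PT.id' (α := Fl σ)).raw).recast' fun _ => rfl

theorem pt_fl {b : α → Bool} {s : α → σ} (hb : PT b) (hs : PT s) :
    PT fun a => (⟨b a, s a⟩ : Fl σ) := (hb.raw.bapp hs.raw).recast' fun _ => rfl

theorem run_while {p} (T : ℕ) (t : ℕ) (st : ℕ → List Bool)
    (h : ∀ i < t, Comp p (st i) (st (i + 1)) T ∧ (st i).head? = some true)
    (h' : (st t).head? = some false) :
    Comp (.loop 0 (fun o => o.getD false) p) (st 0) (st t) (t * (T + 1) + 1) := by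
  induction t generalizing st with
  | zero => exact (Run.loopN (by simp [h'])).mono (by simp)
  | succ t ih =>
    have h1 := ih (fun i => st (i + 1)) (fun i hi => h (i + 1) (by omega)) h'
    refine (Run.loopY (by simp [(h 0 (by omega)).2]) (h 0 (by omega)).1 h1).mono ?_
    nlinarith

theorem ft_while {step : σ → σ} (hs : PT step) {h : σ → Bool} (hh : PT h) {init : α → σ}
    (hi : FT κ init) {C : ℕ} (hC : ∀ c, sz (step c) ≤ sz c + C) {T : α → ℕ} (hT : FB κ T)
    (t : α → ℕ) (ht : ∀ a, t a ≤ T a ∧ (∀ i < t a, h (step^[i] (init a)) = false) ∧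
      h (step^[t a] (init a)) = true) : FT κ fun a => step^[t a] (init a) := by
  have h1 : PT fun w : Fl σ => (⟨!h (step w.s), step w.s⟩ : Fl σ) :=
    pt_fl (hh.comp (hs.comp pt_s)).not (hs.comp pt_s)
  have h0 : FT κ fun a => (⟨!h (init a), init a⟩ : Fl σ) :=
    FT.comp (f := fun s : σ => (⟨!h s, s⟩ : Fl σ)) (pt_fl hh.not PT.id') hi
  obtain ⟨p, q, hq⟩ := h1
  obtain ⟨p0, t0, ht0, h0⟩ := h0
  have hB : FB κ fun a => sz (init a) + T a * C + 1 :=
    (hi.fb.add (hT.mul (FB.const C))).add (FB.const 1)
  have : FT κ fun a => (⟨!h (step^[t a] (init a)), step^[t a] (init a)⟩ : Fl σ) := by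
    refine ⟨.seq p0 (.loop 0 (fun o => o.getD false) p), _,
      ht0.add ((hT.mul ((hB.eval q).add (FB.const 1))).add (FB.const 1)), fun a => ?_⟩
    refine Run.seq (h0 a) ?_
    have hz : ∀ i, sz (step^[i] (init a)) ≤ sz (init a) + i * C := fun i => by
      induction i with
      | zero => simp
      | succ i ih =>
        rw [iterate_succ_apply']
        have := hC (step^[i] (init a))
        rw [Nat.succ_mul]; omega
    have := run_while (p := p) (q.eval (sz (init a) + T a * C + 1)) (t a)
      (fun i => enc (⟨!h (step^[i] (init a)), step^[i] (init a)⟩ : Fl σ)) (fun i hi => by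
        constructor
        · rw [iterate_succ_apply']
          refine (hq ⟨!h (step^[i] (init a)), step^[i] (init a)⟩).mono (eval_mono q ?_)
          have := hz i
          have := Nat.mul_le_mul_right C (hi.le.trans (ht a).1)
          change sz (step^[i] (init a)) + 1 ≤ _
          omega
        · change some (!h (step^[i] (init a))) = _
          rw [(ht a).2.1 i hi]; rfl)
      (by change some (!h (step^[t a] (init a))) = _
          rw [(ht a).2.2]; rfl)
    refine Run.mono this ?_
    have := Nat.mul_le_mul_right (q.eval (sz (init a) + T a * C + 1) + 1) (ht a).1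
    omega
  exact FT.comp pt_s this

/-- The output of a machine whose running time on the codes `enc (g a)` is bounded in
fixed-parameter terms is computed in fixed-parameter time. -/
theorem ft_machine {β : Type} [Enc β] (M0 : TM2ComputableAux Bool Bool) {g : α → β} (hg : FT κ g)
    {T : α → ℕ} (hT : FB κ T) (v : α → List Bool)
    (h : ∀ a, Nonempty (TM2OutputsInTime M0.tm ((enc (g a)).map M0.inputAlphabet.invFun)
      (some ((v a).map M0.outputAlphabet.invFun)) (T a))) :
    FT κ fun a => (⟨v a⟩ : Bits) := by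
  obtain ⟨ini, step, hl, out, C, h1, h2, h3, h4, h5, h6⟩ := sim_machine M0
  choose t ht using fun a => h6 _ _ _ (h a)
  have h7 : FT κ fun a => ini (raw (g a)) :=
    FT.comp (f := fun b : β => ini (raw b)) (h1.comp PT.id'.raw) hg
  exact (FT.comp h4 (ft_while h2 h3 h7 h5 hT t fun a =>
    ⟨(ht a).1, (ht a).2.1, (ht a).2.2.1⟩)).of_eq fun a => (ht a).2.2.2

end Pool.Agent.H22.FtSim
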