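import Pool.Agent.H22.CTDefs
import Pool.Agent.H22.FtSim
import Pool.Agent.H38.NP.TG

namespace Pool.Agent.H22.CT

open Pool.Agent.H38.NP Pool.Agent.H36.Par SimpleGraph Function

section
variable {V W : Type}

def E (F : List (V × V)) : V → V → Prop :=
  Relation.ReflTransGen fun x y => (x, y) ∈ F ∨ (y, x) ∈ F

def Tch (F : List (V × V)) (x : V) : Prop := ∃ y, (x, y) ∈ F ∨ (y, x) ∈ F

def QA (adj : V → V → Prop) (F : List (V × V)) (x y : V) : Prop :=
  ∃ u v, E F x u ∧ E F y v ∧ adj u v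

def Pat (dom : V → Prop) (adj : V → V → Prop) (m : ℕ) (h : ℕ → ℕ → Bool) (F : List (V × V))
    (f : ℕ → V) : Prop :=
  (∀ i < m, dom (f i)) ∧ ∀ i < m, ∀ j < m, i ≠ j →
    ¬ E F (f i) (f j) ∧ (QA adj F (f i) (f j) ↔ h i j = true)

variable {F : List (V × V)} {x y z : V}

theorem E.refl (F : List (V × V)) (x : V) : E F x x := Relation.ReflTransGen.refl
theorem E.trans (h : E F x y) (h' : E F y z) : E F x z := Relation.ReflTransGen.trans h h'
theorem E.symm (h : E F x y) : E F y x := by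
  induction h with
  | refl => exact E.refl _ _
  | tail _ h ih => exact Relation.ReflTransGen.head h.symm ih
theorem E.one (h : (x, y) ∈ F ∨ (y, x) ∈ F) : E F x y := Relation.ReflTransGen.single h

theorem E.closed {P : V → Prop} (h : E F x y) (hx : P x)
    (hP : ∀ a b, P a → ((a, b) ∈ F ∨ (b, a) ∈ F) → P b) : P y := by
  induction h with
  | refl => exact hx
  | tail _ h ih => exact hP _ _ ih h

theorem E.single (hx : ¬ Tch F x) (h : E F x y) : y = x :=
  h.closed (P := fun a => a = x) rfl fun _ b ha hb => absurd ⟨b, ha ▸ hb⟩ hx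

theorem E.tch (hx : Tch F x) (h : E F x y) : Tch F y :=
  h.closed hx fun a _ _ hb => ⟨a, hb.symm⟩

theorem E.tch' (h : E F x y) (hne : x ≠ y) : Tch F x := by
  by_contra hx; exact hne (h.single hx).symm

theorem QA.symm {adj : V → V → Prop} (hs : ∀ a b, adj a b → adj b a) (h : QA adj F x y) :
    QA adj F y x := let ⟨u, v, h1, h2, h3⟩ := h; ⟨v, u, h2, h1, hs _ _ h3⟩

theorem QA.of {adj : V → V → Prop} (h : adj x y) : QA adj F x y := ⟨x, y, E.refl _ _, E.refl _ _, h⟩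

theorem QA_single {adj : V → V → Prop} (hx : ¬ Tch F x) (hy : ¬ Tch F y) :
    QA adj F x y ↔ adj x y :=
  ⟨fun ⟨_, _, h1, h2, h3⟩ => h1.single hx ▸ h2.single hy ▸ h3, QA.of⟩

theorem QA_single' {adj : V → V → Prop} (hy : ¬ Tch F y) :
    QA adj F x y ↔ ∃ u, E F x u ∧ adj u y :=
  ⟨fun ⟨u, _, h1, h2, h3⟩ => ⟨u, h1, h2.single hy ▸ h3⟩, fun ⟨u, h1, h2⟩ => ⟨u, y, h1, E.refl _ _, h2⟩⟩

theorem tch_card [DecidableEq V] (F : List (V × V)) :
    ∃ T : Finset V, T.card ≤ 2 * F.length ∧ ∀ x, x ∈ T ↔ Tch F x := by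
  refine ⟨(F.map Prod.fst).toFinset ∪ (F.map Prod.snd).toFinset, ?_, fun x => ?_⟩
  · refine (Finset.card_union_le _ _).trans ?_
    have h1 := List.toFinset_card_le (F.map Prod.fst)
    have h2 := List.toFinset_card_le (F.map Prod.snd)
    simp only [List.length_map] at h1 h2; omega
  · simp only [Finset.mem_union, List.mem_toFinset, List.mem_map, Tch]
    constructor
    · rintro (⟨p, hp, rfl⟩ | ⟨p, hp, rfl⟩)
      · exact ⟨p.2, Or.inl hp⟩
      · exact ⟨p.1, Or.inr hp⟩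
    · rintro ⟨y, h | h⟩
      · exact Or.inl ⟨_, h, rfl⟩
      · exact Or.inr ⟨_, h, rfl⟩

theorem avoid [DecidableEq V] (F : List (V × V)) {k : ℕ} (hk : F.length ≤ k) (g : V → ℕ) :
    ∃ j < 2 * k + 1, ∀ t, Tch F t → g t ≠ j := by
  obtain ⟨T, h1, h2⟩ := tch_card F
  obtain ⟨j, hj, hj'⟩ := Finset.exists_mem_notMem_of_card_lt_card
    (s := T.image g) (t := Finset.range (2 * k + 1))
    (Finset.card_image_le.trans_lt (by rw [Finset.card_range]; omega))
  exact ⟨j, Finset.mem_range.1 hj, fun t ht e => hj' (Finset.mem_image.2 ⟨t, (h2 t).2 ht, e⟩)⟩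

theorem class_card [DecidableEq V] : ∀ (F : List (V × V)) (X A : Finset V),
    (∀ a ∈ A, ∃ x ∈ X, E F x a) → A.card ≤ X.card + F.length := by
  intro F
  induction F with
  | nil =>
    intro X A h
    refine Finset.card_le_card fun a ha => ?_
    obtain ⟨x, hx, e⟩ := h a ha
    rw [e.single (by simp [Tch])]; exact hx
  | cons p F ih =>
    intro X A h
    have key : ∀ q, ((∃ x ∈ insert q X, E F x p.1) ↔ ∃ x ∈ insert q X, E F x p.2) →
        A.card ≤ X.card + (p :: F).length := fun q hq => by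
      refine (ih (insert q X) A fun a ha => ?_).trans ?_
      · obtain ⟨x, hx, e⟩ := h a ha
        refine e.closed (P := fun w => ∃ x ∈ insert q X, E F x w)
          ⟨x, Finset.mem_insert_of_mem hx, E.refl _ _⟩ ?_
        rintro a b ⟨y, hy, e1⟩ hab
        simp only [List.mem_cons] at hab
        rcases hab with (rfl | hab) | (rfl | hab)
        · exact hq.1 ⟨y, hy, e1⟩
        · exact ⟨y, hy, e1.trans (E.one (Or.inl hab))⟩
        · exact hq.2 ⟨y, hy, e1⟩
        · exact ⟨y, hy, e1.trans (E.one (Or.inr hab))⟩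
      · have := Finset.card_insert_le q X
        simp only [List.length_cons]; omega
    by_cases h1 : ∃ x ∈ X, E F x p.1
    · obtain ⟨x, hx, e⟩ := h1
      exact key p.2 (iff_of_true ⟨x, Finset.mem_insert_of_mem hx, e⟩
        ⟨_, Finset.mem_insert_self _ _, E.refl _ _⟩)
    by_cases h2 : ∃ x ∈ X, E F x p.2
    · obtain ⟨x, hx, e⟩ := h2
      exact key p.1 (iff_of_true ⟨_, Finset.mem_insert_self _ _, E.refl _ _⟩
        ⟨x, Finset.mem_insert_of_mem hx, e⟩)
    rcases A.eq_empty_or_nonempty with rfl | ⟨a, ha⟩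
    · simp
    · obtain ⟨x, hx, -⟩ := h a ha
      refine key x ?_
      rw [Finset.insert_eq_of_mem hx]
      exact iff_of_false h1 h2

theorem E_map (ψ : V → W) (h : E F x y) : E (F.map (Prod.map ψ ψ)) (ψ x) (ψ y) :=
  h.closed (P := fun a => E (F.map (Prod.map ψ ψ)) (ψ x) (ψ a)) (E.refl _ _) fun _ _ ha hb =>
    ha.trans (E.one (hb.imp (List.mem_map_of_mem (f := Prod.map ψ ψ))
      (List.mem_map_of_mem (f := Prod.map ψ ψ))))

theorem tch_map {ψ : V → W} {w : W} : Tch (F.map (Prod.map ψ ψ)) w ↔ ∃ t, Tch F t ∧ ψ t = w := by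
  constructor
  · rintro ⟨y, h | h⟩ <;> obtain ⟨⟨a, b⟩, hp, e⟩ := List.mem_map.1 h <;>
      simp only [Prod.map, Prod.mk.injEq] at e
    · exact ⟨a, ⟨b, Or.inl hp⟩, e.1⟩
    · exact ⟨b, ⟨a, Or.inr hp⟩, e.2⟩
  · rintro ⟨t, ⟨y, h⟩, rfl⟩
    exact ⟨ψ y, h.imp (List.mem_map_of_mem (f := Prod.map ψ ψ))
      (List.mem_map_of_mem (f := Prod.map ψ ψ))⟩

theorem E_map' {ψ : V → W} {R : V → Prop} (hR : ∀ t, Tch F t → R t)
    (hi : ∀ a b, R a → R b → ψ a = ψ b → a = b) (hx : R x) {w : W}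
    (h : E (F.map (Prod.map ψ ψ)) (ψ x) w) : ∃ y, R y ∧ E F x y ∧ ψ y = w := by
  refine h.closed (P := fun w => ∃ y, R y ∧ E F x y ∧ ψ y = w) ⟨x, hx, E.refl _ _, rfl⟩ ?_
  rintro a b ⟨y, hy, e, rfl⟩ (h | h) <;> obtain ⟨⟨c, d⟩, hp, e'⟩ := List.mem_map.1 h <;>
    simp only [Prod.map, Prod.mk.injEq] at e'
  · obtain rfl := hi _ _ (hR c ⟨d, Or.inl hp⟩) hy e'.1
    exact ⟨d, hR d ⟨c, Or.inr hp⟩, e.trans (E.one (Or.inl hp)), e'.2⟩
  · obtain rfl := hi _ _ (hR d ⟨c, Or.inr hp⟩) hy e'.2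
    exact ⟨c, hR c ⟨d, Or.inl hp⟩, e.trans (E.one (Or.inr hp)), e'.1⟩

/-- transfer of patterns along a map that is injective and keeps adjacency on a set `R` -/
theorem pat_map {dom : V → Prop} {adj : V → V → Prop} {dom' : W → Prop} {adj' : W → W → Prop}
    {ψ : V → W} {R : V → Prop} (hR : ∀ t, Tch F t → R t)
    (hi : ∀ a b, R a → R b → ψ a = ψ b → a = b)
    (ha : ∀ a b, R a → R b → (adj' (ψ a) (ψ b) ↔ adj a b))
    (hd : ∀ a, R a → (dom' (ψ a) ↔ dom a)) {m h} {f : ℕ → V} (hf : ∀ i < m, R (f i)) :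
    Pat dom' adj' m h (F.map (Prod.map ψ ψ)) (fun i => ψ (f i)) ↔ Pat dom adj m h F f := by
  have hRE : ∀ a b, R a → E F a b → R b := fun a b ha e =>
    e.closed ha fun c _ _ hb => hR _ ⟨c, hb.symm⟩
  have e1 : ∀ a b, R a → R b → (E (F.map (Prod.map ψ ψ)) (ψ a) (ψ b) ↔ E F a b) :=
    fun a b h1 h2 => ⟨fun e => by
      obtain ⟨y, hy, e, e'⟩ := E_map' hR hi h1 e
      rwa [hi _ _ hy h2 e'] at e, E_map ψ⟩
  have e2 : ∀ a b, R a → R b → (QA adj' (F.map (Prod.map ψ ψ)) (ψ a) (ψ b) ↔ QA adj F a b) :=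
    fun a b h1 h2 => ⟨fun ⟨u, v, p1, p2, p3⟩ => by
      obtain ⟨y, hy, e, rfl⟩ := E_map' hR hi h1 p1
      obtain ⟨y', hy', e', rfl⟩ := E_map' hR hi h2 p2
      exact ⟨y, y', e, e', (ha _ _ hy hy').1 p3⟩,
      fun ⟨u, v, p1, p2, p3⟩ => ⟨ψ u, ψ v, E_map ψ p1, E_map ψ p2,
        (ha _ _ (hRE _ _ h1 p1) (hRE _ _ h2 p2)).2 p3⟩⟩
  refine and_congr (forall₂_congr fun i hi => hd _ (hf i hi)) ?_
  refine forall₂_congr fun i hi => forall₂_congr fun j hj => imp_congr_right fun _ => ?_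
  rw [e1 _ _ (hf i hi) (hf j hj), e2 _ _ (hf i hi) (hf j hj)]

theorem Pat.congr {dom : V → Prop} {adj : V → V → Prop} {m h} {f g : ℕ → V}
    (hf : Pat dom adj m h F f) (e : ∀ i < m, f i = g i) : Pat dom adj m h F g :=
  ⟨fun i hi => e i hi ▸ hf.1 i hi, fun i hi j hj hij => e i hi ▸ e j hj ▸ hf.2 i hi j hj hij⟩

theorem emb_iff (G : SimpleGraph V) (S : Set (Sym2 V)) (F : List (V × V))
    (hF : ∀ u v, s(u, v) ∈ S ↔ ((u, v) ∈ F ∨ (v, u) ∈ F)) {m : ℕ} (hm : 0 < m)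
    (H : SimpleGraph (Fin m)) (h : ℕ → ℕ → Bool)
    (hH : ∀ i j : Fin m, i ≠ j → (H.Adj i j ↔ h i j = true)) :
    Free H (contract G S) ↔ ¬ ∃ f, Pat (fun _ => True) G.Adj m h F f := by
  have hE : ∀ u v, (fromEdgeSet S).connectedComponentMk u = (fromEdgeSet S).connectedComponentMk v ↔
      E F u v := fun u v => by
    rw [ConnectedComponent.eq, reachable_iff_reflTransGen]
    constructor
    · intro h
      induction h with
      | refl => exact E.refl _ _
      | tail _ h ih => exact ih.trans (E.one ((hF _ _).1 ((fromEdgeSet_adj _).1 h).1))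
    · intro h
      induction h with
      | refl => exact Relation.ReflTransGen.refl
      | @tail b c _ h ih =>
        by_cases e : b = c
        · exact e ▸ ih
        · exact ih.tail ((fromEdgeSet_adj _).2 ⟨(hF _ _).2 h, e⟩)
  have hA : ∀ u v, (contract G S).Adj ((fromEdgeSet S).connectedComponentMk u)
      ((fromEdgeSet S).connectedComponentMk v) ↔ ¬ E F u v ∧ QA G.Adj F u v := fun u v => by
    rw [contract, fromRel_adj, ne_eq, hE]
    refine and_congr_right fun _ => ⟨?_, ?_⟩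
    · rintro (⟨a, b, h1, h2, h3⟩ | ⟨a, b, h1, h2, h3⟩)
      · exact ⟨a, b, ((hE _ _).1 h1).symm, ((hE _ _).1 h2).symm, h3⟩
      · exact ⟨b, a, ((hE _ _).1 h2).symm, ((hE _ _).1 h1).symm, h3.symm⟩
    · rintro ⟨a, b, h1, h2, h3⟩
      exact Or.inl ⟨a, b, (hE _ _).2 h1.symm, (hE _ _).2 h2.symm, h3⟩
  rw [Free, ← not_nonempty_iff]
  refine not_congr ⟨fun ⟨φ⟩ => ?_, fun ⟨f, hf⟩ => ⟨?_⟩⟩
  · choose g hg using fun i : Fin m => (φ i).exists_rep
    have hg' : ∀ i, (fromEdgeSet S).connectedComponentMk (g i) = φ i := hg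
    refine ⟨fun i => g ⟨i % m, Nat.mod_lt _ hm⟩, fun _ _ => trivial, fun i hi j hj hij => ?_⟩
    simp only [Nat.mod_eq_of_lt hi, Nat.mod_eq_of_lt hj]
    have hne : (⟨i, hi⟩ : Fin m) ≠ ⟨j, hj⟩ := fun e => hij (congrArg Fin.val e)
    have h1 : ¬ E F (g ⟨i, hi⟩) (g ⟨j, hj⟩) := fun e =>
      hne (φ.injective (by rw [← hg', ← hg']; exact (hE _ _).2 e))
    refine ⟨h1, ?_⟩
    have := hA (g ⟨i, hi⟩) (g ⟨j, hj⟩)
    rw [hg', hg', φ.map_adj_iff, hH _ _ hne] at this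
    exact ⟨fun q => this.2 ⟨h1, q⟩, fun q => (this.1 q).2⟩
  · refine ⟨⟨fun i => (fromEdgeSet S).connectedComponentMk (f i), fun i j e => ?_⟩, fun {i j} => ?_⟩
    · by_contra hne
      exact (hf.2 i i.2 j j.2 fun e => hne (Fin.ext e)).1 ((hE _ _).1 e)
    · by_cases e : i = j
      · subst e; simp
      · have := hf.2 i i.2 j j.2 fun e' => e (Fin.ext e')
        change (contract G S).Adj ((fromEdgeSet S).connectedComponentMk (f i))
          ((fromEdgeSet S).connectedComponentMk (f j)) ↔ _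
        rw [hA, hH _ _ e, ← this.2]
        exact ⟨fun q => q.2, fun q => ⟨this.1, q⟩⟩

def hs (i j : ℕ) : Bool := decide (i = 0) || decide (j = 0)
def ht (i j : ℕ) : Bool := !decide (i = 0) && !decide (j = 0)

def NoP (dom : V → Prop) (adj : V → V → Prop) (m : ℕ) (h : ℕ → ℕ → Bool) (F : List (V × V)) :
    Prop := ¬ ∃ f, Pat dom adj m h F f

theorem bridge {N : ℕ} (G : SimpleGraph (Fin N)) (k : ℕ) (e : Fin N → V) (he : Injective e)
    (dom : V → Prop) (adj : V → V → Prop) (hd : ∀ x, dom x ↔ ∃ u, e u = x)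
    (ha : ∀ u v, adj (e u) (e v) ↔ G.Adj u v) (hda : ∀ x y, adj x y → dom x ∧ dom y)
    (p q : Prop) :
    (∃ F : Finset (Sym2 (Fin N)), (F : Set (Sym2 (Fin N))) ⊆ G.edgeSet ∧ F.card ≤ k ∧
      (p → Free star4 (contract G F)) ∧ (q → Free triK1 (contract G F))) ↔
    ∃ F : List (V × V), (∀ p ∈ F, adj p.1 p.2) ∧ F.length ≤ k ∧
      (p → NoP dom adj 5 hs F) ∧ (q → NoP dom adj 4 ht F) := by
  have h1 : ∀ i j : Fin 5, i ≠ j → (star4.Adj i j ↔ hs i j = true) := fun i j h => by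
    rw [star4, fromRel_adj]
    simp only [hs, ne_eq, h, not_false_eq_true, true_and, Bool.or_eq_true, decide_eq_true_eq]
    exact or_congr Fin.ext_iff Fin.ext_iff
  have h2 : ∀ i j : Fin 4, i ≠ j → (triK1.Adj i j ↔ ht i j = true) := fun i j h => by
    rw [triK1, fromRel_adj]
    simp only [ht, ne_eq, h, not_false_eq_true, true_and,
      Bool.and_eq_true, Bool.not_eq_true', decide_eq_false_iff_not]
    have e1 : i = 0 ↔ i.val = 0 := Fin.ext_iff
    have e2 : j = 0 ↔ j.val = 0 := Fin.ext_iff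
    rw [e1, e2]
    tauto
  have key : ∀ (L : List (Fin N × Fin N)) m h, 0 < m → (NoP dom adj m h (L.map (Prod.map e e)) ↔
      ¬ ∃ f, Pat (fun _ => True) G.Adj m h L f) := fun L m h hm => by
    have := fun f => pat_map (F := L) (dom := fun _ => True) (adj := G.Adj) (dom' := dom)
      (adj' := adj) (ψ := e) (R := fun _ => True) (fun _ _ => trivial)
      (fun a b _ _ h => he h) (fun a b _ _ => ha a b)
      (fun a _ => iff_of_true ((hd _).2 ⟨a, rfl⟩) trivial) (m := m) (h := h) (f := f)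
      fun _ _ => trivial
    refine not_congr ⟨fun ⟨g, hg⟩ => ?_, fun ⟨f, hf⟩ => ⟨_, (this f).2 hf⟩⟩
    obtain ⟨u0, -⟩ := (hd _).1 (hg.1 0 hm)
    have h3 : ∀ i, ∃ u, i < m → e u = g i := fun i => by
      by_cases hi : i < m
      · obtain ⟨u, hu⟩ := (hd _).1 (hg.1 i hi); exact ⟨u, fun _ => hu⟩
      · exact ⟨u0, fun h => absurd h hi⟩
    choose f hf using h3
    exact ⟨f, (this f).1 (hg.congr fun i hi => (hf i hi).symm)⟩
  constructor
  · rintro ⟨F, hF, hk, hp, hq⟩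
    have hL : ∀ u v, s(u, v) ∈ (F : Set (Sym2 (Fin N))) ↔
        ((u, v) ∈ F.toList.map Quot.out ∨ (v, u) ∈ F.toList.map Quot.out) := fun u v => by
      simp only [Finset.mem_coe, List.mem_map, Finset.mem_toList]
      constructor
      · intro h
        have : s((Quot.out s(u, v)).1, (Quot.out s(u, v)).2) = s(u, v) := Quot.out_eq _
        rcases Sym2.eq_iff.1 this with h' | h'
        · exact Or.inl ⟨_, h, Prod.ext h'.1 h'.2⟩
        · exact Or.inr ⟨_, h, Prod.ext h'.1 h'.2⟩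
      · rintro (⟨s, hs, e⟩ | ⟨s, hs, e⟩)
        · have : s(u, v) = s := by rw [← Quot.out_eq s, e]
          exact this ▸ hs
        · have : s(v, u) = s := by rw [← Quot.out_eq s, e]
          rw [Sym2.eq_swap]; exact this ▸ hs
    refine ⟨(F.toList.map Quot.out).map (Prod.map e e), ?_, by simpa using hk,
      fun h => (key _ _ _ (by omega)).2 ((emb_iff G _ _ hL (by omega) _ _ h1).1 (hp h)),
      fun h => (key _ _ _ (by omega)).2 ((emb_iff G _ _ hL (by omega) _ _ h2).1 (hq h))⟩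
    intro p hp
    obtain ⟨⟨u, v⟩, h, rfl⟩ := List.mem_map.1 hp
    exact (ha u v).2 (hF ((hL u v).2 (Or.inl h)))
  · rintro ⟨F, hF, hk, hp, hq⟩
    obtain ⟨L, rfl⟩ : ∃ L : List (Fin N × Fin N), L.map (Prod.map e e) = F := by
      clear hk hp hq
      induction F with
      | nil => exact ⟨[], rfl⟩
      | cons p F ih =>
        obtain ⟨L, rfl⟩ := ih fun q hq => hF q (by simp [hq])
        obtain ⟨⟨u, hu⟩, v, hv⟩ := (hda _ _ (hF p (by simp))).imp (hd _).1 (hd _).1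
        exact ⟨(u, v) :: L, by simp [hu, hv]⟩
    obtain ⟨F0, hF0⟩ : ∃ F0 : Finset (Sym2 (Fin N)),
      F0 = (L.map fun p => s(p.1, p.2)).toFinset := ⟨_, rfl⟩
    have hL : ∀ u v, s(u, v) ∈ (F0 : Set (Sym2 (Fin N))) ↔ ((u, v) ∈ L ∨ (v, u) ∈ L) :=
        fun u v => by
      simp only [hF0, Finset.mem_coe, List.mem_toFinset, List.mem_map]
      constructor
      · rintro ⟨⟨a, b⟩, h, e⟩
        rcases Sym2.eq_iff.1 e with ⟨rfl, rfl⟩ | ⟨rfl, rfl⟩
        · exact Or.inl h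
        · exact Or.inr h
      · rintro (h | h)
        · exact ⟨_, h, rfl⟩
        · exact ⟨_, h, Sym2.eq_swap⟩
    have A1 := emb_iff G _ L hL (by omega : 0 < 5) star4 hs h1
    have A2 := emb_iff G _ L hL (by omega : 0 < 4) triK1 ht h2
    have A3 := key L 5 hs (by omega)
    have A4 := key L 4 ht (by omega)
    refine ⟨F0, ?_, hF0 ▸ (List.toFinset_card_le _).trans (by simpa using hk),
      fun h => A1.2 (A3.1 (hp h)), fun h => A2.2 (A4.1 (hq h))⟩
    intro s hs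
    rw [hF0] at hs
    obtain ⟨p, hp, rfl⟩ := List.mem_map.1 (List.mem_toFinset.1 hs)
    exact (ha p.1 p.2).1 (hF (e p.1, e p.2) (List.mem_map.2 ⟨p, hp, rfl⟩))

end

end Pool.Agent.H22.CT
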