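import Pool.Agent.H22.CT1

/-! Both single problems are hard. -/

namespace Pool.Agent.H22.CT

open Pool.Agent.H38.NP Pool.Agent.H36.Par SimpleGraph Function

def cov (x : GK) (u v : ℕ) : Bool :=
  decide (u < x.1) && (decide (u = v) || decide ((u, v) ∈ x.2.1) || decide ((v, u) ∈ x.2.1))

theorem dom_iff (x : GK) : DomSet x ↔
    ∃ S : Finset ℕ, S.card ≤ x.2.2 ∧ (∀ u ∈ S, u < x.1) ∧ ∀ v < x.1, ∃ u ∈ S, cov x u v = true := by
  constructor
  · rintro ⟨S, h1, h2⟩
    refine ⟨S.image Fin.val, Finset.card_image_le.trans h1, by simp, fun v hv => ?_⟩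
    rcases h2 ⟨v, hv⟩ with h | ⟨u, hu, h⟩
    · exact ⟨v, Finset.mem_image_of_mem _ h, by simp [cov, hv]⟩
    · refine ⟨u, Finset.mem_image_of_mem _ hu, ?_⟩
      have := (graphOf_adj.1 h).2
      simp only [cov, u.2, decide_true, Bool.true_and, Bool.or_eq_true, decide_eq_true_eq]
      tauto
  · rintro ⟨S, h1, h2, h3⟩
    refine ⟨Finset.univ.filter fun v => v.val ∈ S, le_trans ?_ h1, fun v => ?_⟩
    · exact Finset.card_le_card_of_injOn Fin.val (by intro v hv; simpa using hv)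
        Fin.val_injective.injOn
    · obtain ⟨u, hu, h⟩ := h3 v v.2
      by_cases e : u = v
      · left; simpa [← e] using hu
      · right
        refine ⟨⟨u, h2 u hu⟩, by simpa using hu, graphOf_adj.2 ⟨fun e' => e (congrArg Fin.val e'), ?_⟩⟩
        simpa [cov, h2 u hu, e] using h

theorem tg_bridge {T : Type} (L : List T) [DecidableEq T] (r : T → T → Bool) (d : T) (k : ℕ)
    (p q : Prop) :
    (∃ F : Finset (Sym2 (Fin (dd L).length)),
      (F : Set (Sym2 (Fin (dd L).length))) ⊆ (graphOf (dd L).length (tgE (dd L) r d)).edgeSet ∧ F.card ≤ k ∧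
      (p → Free star4 (contract (graphOf (dd L).length (tgE (dd L) r d)) F)) ∧
      (q → Free triK1 (contract (graphOf (dd L).length (tgE (dd L) r d)) F))) ↔
    ∃ F : List (T × T), (∀ p ∈ F, p.1 ∈ L ∧ p.2 ∈ L ∧ TA r p.1 p.2) ∧ F.length ≤ k ∧
      (p → NoP (· ∈ L) (fun a b => a ∈ L ∧ b ∈ L ∧ TA r a b) 5 hs F) ∧
      (q → NoP (· ∈ L) (fun a b => a ∈ L ∧ b ∈ L ∧ TA r a b) 4 ht F) := by
  obtain ⟨e, he, hm, ha⟩ := tg_spec (dd_spec L).2.1 r d
  have hm' : ∀ x, x ∈ L ↔ ∃ u, e u = x := fun x => ((dd_spec L).2.2 x).symm.trans (hm x)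
  exact bridge _ k e he (· ∈ L) (fun a b => a ∈ L ∧ b ∈ L ∧ TA r a b) hm' (fun u v => by
    rw [ha]; exact ⟨fun h => h.2.2, fun h => ⟨(hm' _).2 ⟨u, rfl⟩, (hm' _).2 ⟨v, rfl⟩, h⟩⟩)
    (fun x y h => ⟨h.1, h.2.1⟩) p q

theorem star_E {T : Type} (z : T) (S : List T) {a b : T} (h : E (S.map fun s => (z, s)) a b) :
    a = b ∨ ((a = z ∨ a ∈ S) ∧ (b = z ∨ b ∈ S)) := by
  have h1 : ∀ t, Tch (S.map fun s => (z, s)) t → t = z ∨ t ∈ S := by
    rintro t ⟨y, h | h⟩ <;> obtain ⟨s, hs, e⟩ := List.mem_map.1 h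
    · exact Or.inl (Prod.mk.inj e).1.symm
    · exact Or.inr ((Prod.mk.inj e).2 ▸ hs)
  by_cases e : a = b
  · exact Or.inl e
  · exact Or.inr ⟨h1 _ (h.tch' e), h1 _ (h.symm.tch' (Ne.symm e))⟩

theorem star_E' {T : Type} (z : T) (S : List T) {a b : T} (ha : a = z ∨ a ∈ S)
    (hb : b = z ∨ b ∈ S) : E (S.map fun s => (z, s)) a b := by
  have h1 : ∀ t, (t = z ∨ t ∈ S) → E (S.map fun s => (z, s)) z t := by
    rintro t (rfl | h)
    · exact E.refl _ _
    · exact E.one (Or.inl (List.mem_map_of_mem (f := fun s => (z, s)) h))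
  exact (h1 a ha).symm.trans (h1 b hb)

theorem sets_card {T : Type} [DecidableEq T] (F : List (T × T)) (z : T) (g : ℕ → T)
    (hg : Injective g) (hz : ∀ u, g u ≠ z) (S : Finset ℕ) (h : ∀ u ∈ S, E F z (g u)) :
    S.card ≤ F.length := by
  have := class_card F {z} (insert z (S.image g)) (by
    intro a ha
    rcases Finset.mem_insert.1 ha with rfl | ha
    · exact ⟨_, Finset.mem_singleton_self _, E.refl _ _⟩
    · obtain ⟨u, hu, rfl⟩ := Finset.mem_image.1 ha
      exact ⟨_, Finset.mem_singleton_self _, h u hu⟩)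
  rw [Finset.card_insert_of_notMem (by simpa using fun u _ => hz u),
    Finset.card_image_of_injective _ hg, Finset.card_singleton] at this
  omega

/-! ### triangle plus isolated vertex -/

abbrev T3 := ℕ × ℕ × ℕ

def L1 (x : GK) : List T3 :=
  (0, 0, 0) :: ((List.range x.1).map (fun u => (1, u, 0)) ++
    (List.range x.1).flatMap (fun v => (List.range (2 * x.2.2 + 1)).map fun j => (2, v, j)) ++
    (List.range (2 * x.2.2 + 1)).flatMap fun j => [(3, j, 0), (3, j, 1)])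

def r1 (x : GK) (a b : T3) : Bool :=
  (decide (a.1 = 0) && (decide (b.1 = 1) || decide (b.1 = 3))) ||
  (decide (a.1 = 3) && decide (b.1 = 3) && decide (a.2.1 = b.2.1)) ||
  (decide (a.1 = 1) && decide (b.1 = 2) && cov x a.2.1 b.2.1)

theorem mem_L1 {x : GK} {a : T3} : a ∈ L1 x ↔ a = (0, 0, 0) ∨ (a.1 = 1 ∧ a.2.1 < x.1 ∧ a.2.2 = 0) ∨
    (a.1 = 2 ∧ a.2.1 < x.1 ∧ a.2.2 < 2 * x.2.2 + 1) ∨
    (a.1 = 3 ∧ a.2.1 < 2 * x.2.2 + 1 ∧ a.2.2 ≤ 1) := by
  obtain ⟨t, u, j⟩ := a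
  simp only [L1, List.mem_cons, List.mem_append, List.mem_map, List.mem_range, List.mem_flatMap,
    Prod.mk.injEq, List.not_mem_nil, or_false]
  constructor
  · rintro (h | (⟨a, h, rfl, rfl, rfl⟩ | ⟨a, h, b, h', rfl, rfl, rfl⟩) | ⟨a, h, h'⟩) <;> omega
  · rintro (h | ⟨rfl, h, rfl⟩ | ⟨rfl, h, h'⟩ | ⟨rfl, h, h'⟩)
    · exact Or.inl h
    · exact Or.inr (Or.inl (Or.inl ⟨u, h, rfl, rfl, rfl⟩))
    · exact Or.inr (Or.inl (Or.inr ⟨u, h, j, h', rfl, rfl, rfl⟩))
    · exact Or.inr (Or.inr ⟨u, h, by omega⟩)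

def red1 (x : GK) : GK := ((dd (L1 x)).length, tgE (dd (L1 x)) (r1 x) (0, 0, 0), x.2.2)

theorem TA1 {x : GK} {a b : T3} : TA (r1 x) a b ↔ a ≠ b ∧
    ((((a.1 = 0 ∧ (b.1 = 1 ∨ b.1 = 3)) ∨ (a.1 = 3 ∧ b.1 = 3 ∧ a.2.1 = b.2.1)) ∨
      (a.1 = 1 ∧ b.1 = 2 ∧ cov x a.2.1 b.2.1 = true)) ∨
     (((b.1 = 0 ∧ (a.1 = 1 ∨ a.1 = 3)) ∨ (b.1 = 3 ∧ a.1 = 3 ∧ b.2.1 = a.2.1)) ∨
      (b.1 = 1 ∧ a.1 = 2 ∧ cov x b.2.1 a.2.1 = true))) := by
  simp only [TA, r1, Bool.or_eq_true, Bool.and_eq_true, decide_eq_true_eq, and_assoc]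

def col1 (a : T3) : ℕ := if a.1 = 3 then a.2.2 else a.1 - 1

theorem col1_ne {x : GK} {a b : T3} (ha : a ∈ L1 x) (hb : b ∈ L1 x) (ha' : a ≠ (0, 0, 0))
    (hb' : b ≠ (0, 0, 0)) (h : TA (r1 x) a b) : col1 a ≠ col1 b ∧ col1 a ≤ 1 ∧ col1 b ≤ 1 := by
  have m1 := (mem_L1.1 ha).resolve_left ha'
  have m2 := (mem_L1.1 hb).resolve_left hb'
  obtain ⟨h1, h2⟩ := TA1.1 h
  obtain ⟨a, a', a''⟩ := a
  obtain ⟨b, b', b''⟩ := b
  simp only [ne_eq, Prod.mk.injEq, col1] at h1 h2 m1 m2 ⊢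
  rcases h2 with ((h | h) | h) | ((h | h) | h) <;> split_ifs <;> omega

theorem red1_iff (x : GK) : DomSet x ↔ Con₁ triK1 (red1 x) := by
  have hb := tg_bridge (L1 x) (r1 x) (0, 0, 0) x.2.2 False True
  simp only [false_imp_iff, true_and, forall_true_left] at hb
  rw [dom_iff]
  refine Iff.trans ?_ hb.symm
  set ad : T3 → T3 → Prop := fun a b => a ∈ L1 x ∧ b ∈ L1 x ∧ TA (r1 x) a b with had
  have hsy : ∀ a b, ad a b → ad b a := fun a b h => ⟨h.2.1, h.1, h.2.2.symm⟩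
  have hz : ((0, 0, 0) : T3) ∈ L1 x := mem_L1.2 (Or.inl rfl)
  constructor
  · rintro ⟨S, h1, h2, h3⟩
    set S' : List T3 := S.toList.map fun u => (1, u, 0) with hS'
    have hS : ∀ s ∈ S', s.1 = 1 ∧ s ∈ L1 x := fun s hs => by
      obtain ⟨u, hu, rfl⟩ := List.mem_map.1 hs
      exact ⟨rfl, mem_L1.2 (by simp [h2 u (Finset.mem_toList.1 hu)])⟩
    refine ⟨S'.map fun s => ((0, 0, 0), s), ?_, by simpa [hS'] using h1, ?_⟩
    · intro p hp
      obtain ⟨s, hs, rfl⟩ := List.mem_map.1 hp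
      have := (hS s hs).1
      exact ⟨hz, (hS s hs).2, TA1.2 ⟨fun e => by
        have e' : (0, 0, 0) = s := e
        rw [← e'] at this; simp at this, by simp [this]⟩⟩
    · rintro ⟨f, hd, hf⟩
      have hu : ∀ a b, (a = (0, 0, 0) ∨ a ∈ S') → b ∈ L1 x →
          ¬ E (S'.map fun s => (((0, 0, 0) : T3), s)) a b →
          QA ad (S'.map fun s => (((0, 0, 0) : T3), s)) a b := fun a b ha hb hne => by
        have hbz : b ≠ (0, 0, 0) := fun e => hne (star_E' _ _ ha (Or.inl e))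
        by_cases e : b.1 = 2
        · obtain ⟨u, hu, hc⟩ := h3 b.2.1 (by have := mem_L1.1 hb; simp only [hbz, false_or] at this; omega)
          have hm : ((1, u, 0) : T3) ∈ S' := List.mem_map.2 ⟨u, Finset.mem_toList.2 hu, rfl⟩
          exact ⟨(1, u, 0), b, star_E' _ _ ha (Or.inr hm), E.refl _ _, (hS _ hm).2, hb,
            TA1.2 ⟨fun e' => by rw [← e'] at e; simp at e, by simp [e, hc]⟩⟩
        · exact ⟨(0, 0, 0), b, star_E' _ _ ha (Or.inl rfl), E.refl _ _, hz, hb,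
            TA1.2 ⟨hbz.symm, by have := mem_L1.1 hb; simp only [hbz, false_or] at this; left; left; left; omega⟩⟩
      have hn : ∀ i < 4, ¬ (f i = (0, 0, 0) ∨ f i ∈ S') := fun i hi h => by
        by_cases e : i = 0
        · have := hf i hi 1 (by omega) (by omega)
          simpa [ht, e] using this.2.1 (hu _ _ h (hd 1 (by omega)) this.1)
        · have := hf i hi 0 (by omega) e
          simpa [ht] using this.2.1 (hu _ _ h (hd 0 (by omega)) this.1)
      have ha : ∀ i < 4, ∀ j < 4, i ≠ j → i ≠ 0 → j ≠ 0 → TA (r1 x) (f i) (f j) :=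
        fun i hi j hj h h' h'' => by
          obtain ⟨u, v, e1, e2, e3⟩ := (hf i hi j hj h).2.2 (by simp [ht, h', h''])
          rw [(star_E _ _ e1).resolve_right fun h => hn i hi h.1,
            (star_E _ _ e2).resolve_right fun h => hn j hj h.1]
          exact e3.2.2
      have hc : ∀ i < 4, ∀ j < 4, i ≠ j → i ≠ 0 → j ≠ 0 →
          col1 (f i) ≠ col1 (f j) ∧ col1 (f i) ≤ 1 ∧ col1 (f j) ≤ 1 := fun i hi j hj h h' h'' =>
        col1_ne (hd i hi) (hd j hj) (fun e => hn i hi (Or.inl e)) (fun e => hn j hj (Or.inl e))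
          (ha i hi j hj h h' h'')
      have a1 := hc 1 (by omega) 2 (by omega) (by omega) (by omega) (by omega)
      have a2 := hc 1 (by omega) 3 (by omega) (by omega) (by omega) (by omega)
      have a3 := hc 2 (by omega) 3 (by omega) (by omega) (by omega) (by omega)
      omega
  · rintro ⟨F, h1, h2, h3⟩
    classical
    refine ⟨(Finset.range x.1).filter fun u => E F (0, 0, 0) (1, u, 0),
      (sets_card F (0, 0, 0) (fun u => (1, u, 0)) (fun a b h => by simpa using h) (by simp) _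
        fun u hu => (Finset.mem_filter.1 hu).2).trans h2,
      fun u hu => Finset.mem_range.1 (Finset.mem_filter.1 hu).1, fun v hv => ?_⟩
    obtain ⟨j, hj, hj'⟩ := avoid F h2 fun t => t.2.1
    obtain ⟨i, hi, hi'⟩ := avoid F h2 fun t => t.2.2
    have t1 : ¬ Tch F (2, v, i) := fun h => hi' _ h rfl
    have t2 : ¬ Tch F (3, j, 0) := fun h => hj' _ h rfl
    have t3 : ¬ Tch F (3, j, 1) := fun h => hj' _ h rfl
    have m1 : ((2, v, i) : T3) ∈ L1 x := mem_L1.2 (by simp; omega)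
    have m2 : ((3, j, 0) : T3) ∈ L1 x := mem_L1.2 (by simp; omega)
    have m3 : ((3, j, 1) : T3) ∈ L1 x := mem_L1.2 (by simp; omega)
    by_contra hc
    have hq : ¬ QA ad F (0, 0, 0) (2, v, i) := fun h => by
      obtain ⟨w, e, hw, -, h⟩ := (QA_single' t1).1 h
      obtain ⟨w1, w2, w3⟩ := w
      have := mem_L1.1 hw
      have h' := (TA1.1 h).2
      simp only [Prod.mk.injEq] at this h'
      have h4 : w1 = 1 ∧ cov x w2 v = true := by simpa using h'
      obtain rfl : w3 = 0 := by omega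
      exact hc ⟨w2, Finset.mem_filter.2 ⟨Finset.mem_range.2 (by omega), h4.1 ▸ e⟩, h4.2⟩
    have hq' : ¬ QA ad F (2, v, i) (0, 0, 0) := fun h => hq (h.symm hsy)
    have n1 : ∀ a b : T3, ¬ Tch F a → a ≠ b → ¬ E F a b := fun a b h h' e => h (e.tch' h')
    have n2 : ∀ a b : T3, ¬ Tch F b → a ≠ b → ¬ E F a b := fun a b h h' e =>
      h (e.symm.tch' h'.symm)
    have q1 : ∀ a b, ad a b → (QA ad F a b ↔ True) := fun a b h => iff_true_intro (QA.of h)
    refine h3 ⟨fun t => [(2, v, i), (0, 0, 0), (3, j, 0), (3, j, 1)].getD t (0, 0, 0), ?_, ?_⟩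
    · intro t ht; interval_cases t <;> assumption
    · intro s hs t ht hst
      interval_cases s <;> interval_cases t <;> first
        | exact absurd rfl hst
        | (refine ⟨by first | exact n1 _ _ (by assumption) (by simp) | exact n2 _ _ (by assumption) (by simp), ?_⟩
           simp only [List.getD_cons_zero, List.getD_cons_succ]
           first
            | exact iff_of_false hq (by decide)
            | exact iff_of_false hq' (by decide)
            | exact iff_of_true (QA.of ⟨by assumption, by assumption, TA1.2 (by simp)⟩) (by decide)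
            | exact iff_of_false (fun h => by
                have := (TA1.1 ((QA_single (by assumption) (by assumption)).1 h).2.2).2
                simp at this) (by decide))

end Pool.Agent.H22.CT
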