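import Pool.Agent.H22.CT2

namespace Pool.Agent.H22.CT

open Pool.Agent.H38.NP Pool.Agent.H36.Par SimpleGraph Function

abbrev T5 := T3 × ℕ × ℕ

def bases (x : GK) : List T3 :=
  (0, 0, 0) :: ((List.range (x.1 + (2 * x.2.2 + 1))).map (fun u => (1, u, 0)) ++
    (List.range x.1).flatMap (fun v => (List.range (2 * x.2.2 + 1)).map fun j => (2, v, j)) ++
    (List.range (2 * x.2.2 + 1)).map fun j => (3, j, 0))

def np (t : ℕ) : ℕ := if t = 3 then 2 else if t = 1 then 0 else 1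

def L2 (x : GK) : List T5 :=
  (bases x).map (fun b => (b, 0, 0)) ++ (bases x).flatMap fun b =>
    (List.range (np b.1)).flatMap fun s => (List.range (2 * x.2.2 + 1)).map fun i => (b, s + 1, i)

def r2 (x : GK) (a b : T5) : Bool :=
  (decide (a.1 = b.1) && (decide (a.2.1 = 0) || decide (a.2.1 = b.2.1))) ||
  (decide (a.2.1 = 0) && decide (b.2.1 = 0) &&
    ((decide (a.1.1 = 0) && (decide (b.1.1 = 1) || decide (b.1.1 = 3))) ||
      (decide (a.1.1 = 1) && decide (b.1.1 = 1)) || (decide (2 ≤ a.1.1) && decide (2 ≤ b.1.1)) ||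
      (decide (a.1.1 = 1) && decide (b.1.1 = 2) && cov x a.1.2.1 b.1.2.1)))

def R2 (x : GK) (a b : T5) : Prop :=
  (a.1 = b.1 ∧ (a.2.1 = 0 ∨ a.2.1 = b.2.1)) ∨ (a.2.1 = 0 ∧ b.2.1 = 0 ∧
    ((((a.1.1 = 0 ∧ (b.1.1 = 1 ∨ b.1.1 = 3)) ∨ (a.1.1 = 1 ∧ b.1.1 = 1)) ∨
      (2 ≤ a.1.1 ∧ 2 ≤ b.1.1)) ∨ (a.1.1 = 1 ∧ b.1.1 = 2 ∧ cov x a.1.2.1 b.1.2.1 = true)))

theorem TA2 {x : GK} {a b : T5} : TA (r2 x) a b ↔ a ≠ b ∧ (R2 x a b ∨ R2 x b a) := by
  simp only [TA, r2, R2, Bool.or_eq_true, Bool.and_eq_true, decide_eq_true_eq, and_assoc]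

theorem mem_bases {x : GK} {a : T3} : a ∈ bases x ↔ a = (0, 0, 0) ∨
    (a.1 = 1 ∧ a.2.1 < x.1 + (2 * x.2.2 + 1) ∧ a.2.2 = 0) ∨
    (a.1 = 2 ∧ a.2.1 < x.1 ∧ a.2.2 < 2 * x.2.2 + 1) ∨
    (a.1 = 3 ∧ a.2.1 < 2 * x.2.2 + 1 ∧ a.2.2 = 0) := by
  obtain ⟨t, u, j⟩ := a
  simp only [bases, List.mem_cons, List.mem_append, List.mem_map, List.mem_range, List.mem_flatMap,
    Prod.mk.injEq]
  constructor
  · rintro (h | (⟨a, h, rfl, rfl, rfl⟩ | ⟨a, h, b, h', rfl, rfl, rfl⟩) | ⟨a, h, h'⟩) <;> omega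
  · rintro (h | ⟨rfl, h, rfl⟩ | ⟨rfl, h, h'⟩ | ⟨rfl, h, h'⟩)
    · exact Or.inl h
    · exact Or.inr (Or.inl (Or.inl ⟨u, h, rfl, rfl, rfl⟩))
    · exact Or.inr (Or.inl (Or.inr ⟨u, h, j, h', rfl, rfl, rfl⟩))
    · exact Or.inr (Or.inr ⟨u, h, by omega⟩)

theorem mem_L2 {x : GK} {a : T5} : a ∈ L2 x ↔ a.1 ∈ bases x ∧
    ((a.2.1 = 0 ∧ a.2.2 = 0) ∨ (1 ≤ a.2.1 ∧ a.2.1 ≤ np a.1.1 ∧ a.2.2 < 2 * x.2.2 + 1)) := by
  obtain ⟨b, s, i⟩ := a
  simp only [L2, List.mem_append, List.mem_map, List.mem_range, List.mem_flatMap, Prod.mk.injEq]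
  constructor
  · rintro (⟨c, h, rfl, rfl, rfl⟩ | ⟨c, h, t, h1, j, h2, rfl, rfl, rfl⟩)
    · exact ⟨h, Or.inl ⟨rfl, rfl⟩⟩
    · exact ⟨h, Or.inr ⟨by omega, h1, h2⟩⟩
  · rintro ⟨h, ⟨rfl, rfl⟩ | ⟨h1, h2, h3⟩⟩
    · exact Or.inl ⟨b, h, rfl, rfl, rfl⟩
    · exact Or.inr ⟨b, h, s - 1, by omega, i, h3, rfl, by omega, rfl⟩

def red2 (x : GK) : GK := ((dd (L2 x)).length, tgE (dd (L2 x)) (r2 x) ((0, 0, 0), 0, 0), x.2.2)

theorem four {γ : Type} {a b c p q r s : γ} (h1 : p = a ∨ p = b ∨ p = c)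
    (h2 : q = a ∨ q = b ∨ q = c) (h3 : r = a ∨ r = b ∨ r = c) (h4 : s = a ∨ s = b ∨ s = c)
    (e1 : p ≠ q) (e2 : p ≠ r) (e3 : p ≠ s) (e4 : q ≠ r) (e5 : q ≠ s) (e6 : r ≠ s) : False := by
  rcases h1 with rfl | rfl | rfl <;> rcases h2 with rfl | rfl | rfl <;>
    rcases h3 with rfl | rfl | rfl <;> rcases h4 with rfl | rfl | rfl <;> contradiction

theorem star_pat {V : Type} {dom : V → Prop} {ad : V → V → Prop} (hsy : ∀ a b, ad a b → ad b a)
    {F : List (V × V)} {c p q r s : V} (d0 : dom c) (d1 : dom p) (d2 : dom q) (d3 : dom r)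
    (d4 : dom s) (a1 : ¬ E F c p ∧ QA ad F c p) (a2 : ¬ E F c q ∧ QA ad F c q)
    (a3 : ¬ E F c r ∧ QA ad F c r) (a4 : ¬ E F c s ∧ QA ad F c s)
    (n1 : ¬ E F p q ∧ ¬ QA ad F p q) (n2 : ¬ E F p r ∧ ¬ QA ad F p r)
    (n3 : ¬ E F p s ∧ ¬ QA ad F p s) (n4 : ¬ E F q r ∧ ¬ QA ad F q r)
    (n5 : ¬ E F q s ∧ ¬ QA ad F q s) (n6 : ¬ E F r s ∧ ¬ QA ad F r s) :
    ∃ f, Pat dom ad 5 hs F f := by
  have s1 : ∀ {a b}, ¬ E F a b ∧ QA ad F a b → ¬ E F b a ∧ QA ad F b a := fun h =>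
    ⟨fun e => h.1 e.symm, h.2.symm hsy⟩
  have s2 : ∀ {a b}, ¬ E F a b ∧ ¬ QA ad F a b → ¬ E F b a ∧ ¬ QA ad F b a := fun h =>
    ⟨fun e => h.1 e.symm, fun e => h.2 (e.symm hsy)⟩
  have b1 := s1 a1; have b2 := s1 a2; have b3 := s1 a3; have b4 := s1 a4
  have m1 := s2 n1; have m2 := s2 n2; have m3 := s2 n3; have m4 := s2 n4; have m5 := s2 n5
  have m6 := s2 n6
  refine ⟨fun t => [c, p, q, r, s].getD t c, fun t ht => ?_, fun i hi j hj hij => ?_⟩
  · interval_cases t <;> assumption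
  · interval_cases i <;> interval_cases j <;> simp_all [hs]

theorem red2_iff (x : GK) : DomSet x ↔ Con₁ star4 (red2 x) := by
  have hb := tg_bridge (L2 x) (r2 x) ((0, 0, 0), 0, 0) x.2.2 True False
  simp only [false_imp_iff, and_true, forall_true_left] at hb
  rw [dom_iff]
  refine Iff.trans ?_ hb.symm
  clear hb
  set ad : T5 → T5 → Prop := fun a b => a ∈ L2 x ∧ b ∈ L2 x ∧ TA (r2 x) a b with had
  have hsy : ∀ a b, ad a b → ad b a := fun a b h => ⟨h.2.1, h.1, h.2.2.symm⟩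
  have hz : (((0, 0, 0), 0, 0) : T5) ∈ L2 x := mem_L2.2 ⟨mem_bases.2 (Or.inl rfl), by simp⟩
  constructor
  · rintro ⟨S, h1, h2, h3⟩
    classical
    set S' : List T5 := S.toList.map fun u => ((1, u, 0), 0, 0) with hS'
    have hS : ∀ s ∈ S', (s.1.1 = 1 ∧ s.2.1 = 0) ∧ s ∈ L2 x := fun s hs => by
      obtain ⟨u, hu, rfl⟩ := List.mem_map.1 hs
      have := h2 u (Finset.mem_toList.1 hu)
      exact ⟨⟨rfl, rfl⟩, mem_L2.2 ⟨mem_bases.2 (by simp; omega), by simp⟩⟩
    refine ⟨S'.map fun s => (((0, 0, 0), 0, 0), s), ?_, by simpa [hS'] using h1, ?_⟩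
    · intro p hp
      obtain ⟨s, hs, rfl⟩ := List.mem_map.1 hp
      have := (hS s hs).1
      exact ⟨hz, (hS s hs).2, TA2.2 ⟨fun e => by
        have e' : ((0, 0, 0), 0, 0) = s := e
        rw [← e'] at this; simp at this, by simp [R2, this]⟩⟩
    · rintro ⟨f, hd, hf⟩
      set F0 := S'.map fun s => ((((0, 0, 0), 0, 0) : T5), s) with hF0
      let W : T5 → Prop := fun a => a = ((0, 0, 0), 0, 0) ∨ a ∈ S'
      let lab : T5 → T3 × ℕ := fun y => if W y then ((2, 0, 0), 0) else if y.2.1 ≠ 0 then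
        (y.1, y.2.1) else if y.1.1 = 1 then ((1, 0, 0), 0) else ((2, 0, 0), 0)
      have hW : ∀ a b, W a → ¬ W b → b ∈ L2 x → lab b = ((2, 0, 0), 0) → QA ad F0 a b := by
        intro a b ha hb hbL hl
        have hbz : b ≠ ((0, 0, 0), 0, 0) := fun e => hb (Or.inl e)
        obtain ⟨⟨t, v, j⟩, s, i⟩ := b
        obtain ⟨m1, m2⟩ := mem_L2.1 hbL
        have m3 := mem_bases.1 m1
        simp only [lab, hb, if_false, ne_eq, Prod.mk.injEq] at hl m2 m3 hbz
        have hs0 : s = 0 := by by_contra e; simp [e] at hl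
        subst hs0
        have ht1 : t ≠ 1 := by rintro rfl; simp at hl
        by_cases e : t = 2
        · subst e
          obtain ⟨u, hu, hc⟩ := h3 v (by omega)
          have hm : (((1, u, 0), 0, 0) : T5) ∈ S' := List.mem_map.2 ⟨u, Finset.mem_toList.2 hu, rfl⟩
          exact ⟨_, _, star_E' _ _ ha (Or.inr hm), E.refl _ _, (hS _ hm).2, hbL,
            TA2.2 ⟨by simp, by simp [R2, hc]⟩⟩
        · obtain rfl : t = 3 := by omega
          exact ⟨_, _, star_E' _ _ ha (Or.inl rfl), E.refl _ _, hz, hbL,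
            TA2.2 ⟨by simp, by simp [R2]⟩⟩
      have P1 : ∀ a b, a ∈ L2 x → b ∈ L2 x → ¬ E F0 a b → lab a = lab b → QA ad F0 a b := by
        intro a b ha hb hne hl
        by_cases h1 : W a
        · have h2 : ¬ W b := fun h2 => hne (star_E' _ _ h1 h2)
          exact hW a b h1 h2 hb (by rw [← hl]; simp [lab, h1])
        by_cases h2 : W b
        · exact (hW b a h2 h1 ha (by rw [hl]; simp [lab, h2])).symm hsy
        refine QA.of ⟨ha, hb, TA2.2 ⟨fun e => hne (e ▸ E.refl _ _), Or.inl ?_⟩⟩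
        have haz : a ≠ ((0, 0, 0), 0, 0) := fun e => h1 (Or.inl e)
        have hbz : b ≠ ((0, 0, 0), 0, 0) := fun e => h2 (Or.inl e)
        obtain ⟨⟨t, v, j⟩, s, i⟩ := a
        obtain ⟨⟨t', v', j'⟩, s', i'⟩ := b
        obtain ⟨m1, m2⟩ := mem_L2.1 ha
        obtain ⟨m1', m2'⟩ := mem_L2.1 hb
        have m3 := mem_bases.1 m1
        have m3' := mem_bases.1 m1'
        simp only [lab, h1, h2, if_false, ne_eq, Prod.mk.injEq, R2] at hl m2 m3 m2' m3' haz hbz ⊢
        split_ifs at hl <;> simp only [Prod.mk.injEq] at hl <;> omega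
      have P2 : ∀ a b, a ∈ L2 x → b ∈ L2 x → QA ad F0 a b →
          lab b = (if W a then ((0, 0, 0), 1) else (a.1, if a.2.1 = 0 then 1 else a.2.1)) ∨
          lab b = (if ¬ W a ∧ a.1.1 = 3 ∧ a.2.1 = 0 then (a.1, 2) else ((1, 0, 0), 0)) ∨
          lab b = ((2, 0, 0), 0) := by
        intro a b ha hb ⟨u, w, e1, e2, e3⟩
        by_cases h2 : W b
        · right; right; simp [lab, h2]
        obtain rfl := (star_E _ _ e2).resolve_right fun h => h2 h.1
        obtain ⟨m1', m2'⟩ := mem_L2.1 hb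
        have hR := (TA2.1 e3.2.2).2
        by_cases hs0 : b.2.1 = 0
        · by_cases ht1 : b.1.1 = 1
          · right; left
            rw [if_neg]
            · simp [lab, h2, hs0, ht1]
            · rintro ⟨h1, h4, h5⟩
              obtain rfl := (star_E _ _ e1).resolve_right fun h => h1 h.1
              simp only [R2] at hR
              rcases hR with (h | h) | h | h
              · rw [h.1] at h4; omega
              · rcases h.2.2 with h | h <;> omega
              · rw [← h.1] at h4; omega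
              · rcases h.2.2 with h | h <;> omega
          · right; right; simp [lab, h2, hs0, ht1]
        have hl : lab b = (b.1, b.2.1) := by simp [lab, h2, hs0]
        have F1 : u.1 = b.1 ∧ (u.2.1 = 0 ∨ u.2.1 = b.2.1) := by
          simp only [R2] at hR
          rcases hR with (h | h) | h | h
          · exact h
          · exact absurd h.2.1 hs0
          · exact ⟨h.1.symm, by omega⟩
          · exact absurd h.1 hs0
        have hn : b.2.1 ≤ np b.1.1 := by omega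
        rw [hl]
        by_cases h1 : W a
        · left
          rw [if_pos h1]
          have : W u := (star_E _ _ e1).elim (fun e => e ▸ h1) fun h => h.2
          rcases this with rfl | h
          · rw [← F1.1] at hn ⊢
            simp only [np] at hn
            exact Prod.ext rfl (by simp at hn ⊢; omega)
          · rw [← F1.1, (hS u h).1.1] at hn
            simp [np] at hn; omega
        · obtain rfl := (star_E _ _ e1).resolve_right fun h => h1 h.1
          rw [if_neg h1, ← F1.1]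
          rw [← F1.1] at hn
          by_cases h4 : a.2.1 = 0
          · by_cases h5 : b.2.1 = 1
            · left; simp [h4, h5]
            · right; left
              have h6 : a.1.1 = 3 ∧ b.2.1 = 2 := by unfold np at hn; split_ifs at hn <;> omega
              rw [if_pos ⟨h1, h6.1, h4⟩, h6.2]
          · left; rw [if_neg h4, F1.2.resolve_left h4]
      have q1 : ∀ i < 5, i ≠ 0 → _ := fun i hi h => P2 _ _ (hd 0 (by omega)) (hd i hi)
        ((hf 0 (by omega) i hi h.symm).2.2 (by simp [hs]))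
      have q2 : ∀ i < 5, ∀ j < 5, i ≠ j → i ≠ 0 → j ≠ 0 → lab (f i) ≠ lab (f j) :=
        fun i hi j hj h h' h'' e => by
          have := (hf i hi j hj h).2.1 (P1 _ _ (hd i hi) (hd j hj) (hf i hi j hj h).1 e)
          simp [hs, h', h''] at this
      exact four (q1 1 (by omega) (by omega)) (q1 2 (by omega) (by omega))
        (q1 3 (by omega) (by omega)) (q1 4 (by omega) (by omega))
        (q2 _ (by omega) _ (by omega) (by omega) (by omega) (by omega))
        (q2 _ (by omega) _ (by omega) (by omega) (by omega) (by omega))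
        (q2 _ (by omega) _ (by omega) (by omega) (by omega) (by omega))
        (q2 _ (by omega) _ (by omega) (by omega) (by omega) (by omega))
        (q2 _ (by omega) _ (by omega) (by omega) (by omega) (by omega))
        (q2 _ (by omega) _ (by omega) (by omega) (by omega) (by omega))
  · rintro ⟨F, h1, h2, h3⟩
    classical
    refine ⟨(Finset.range x.1).filter fun u => E F ((0, 0, 0), 0, 0) ((1, u, 0), 0, 0),
      (sets_card F _ (fun u => ((1, u, 0), 0, 0)) (fun a b h => by simpa using h) (by simp) _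
        fun u hu => (Finset.mem_filter.1 hu).2).trans h2,
      fun u hu => Finset.mem_range.1 (Finset.mem_filter.1 hu).1, fun v hv => ?_⟩
    obtain ⟨j, hj, hj'⟩ := avoid F h2 fun t => t.1.2.1
    obtain ⟨l, hl, hl'⟩ := avoid F h2 fun t => t.1.2.2
    obtain ⟨i, hi, hi'⟩ := avoid F h2 fun t => t.2.2
    have t1 : ∀ a b s c, ¬ Tch F ((a, j, b), s, c) := fun _ _ _ _ h => hj' _ h rfl
    have t2 : ∀ a b s c, ¬ Tch F ((a, b, l), s, c) := fun _ _ _ _ h => hl' _ h rfl
    have t3 : ∀ b s, ¬ Tch F (b, s, i) := fun _ _ h => hi' _ h rfl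
    have mc : (((3, j, 0), 0, 0) : T5) ∈ L2 x := mem_L2.2 ⟨mem_bases.2 (by simp; omega), by simp⟩
    have ms : (((1, j, 0), 0, 0) : T5) ∈ L2 x := mem_L2.2 ⟨mem_bases.2 (by simp; omega), by simp⟩
    have mu : (((2, v, l), 0, 0) : T5) ∈ L2 x := mem_L2.2 ⟨mem_bases.2 (by simp; omega), by simp⟩
    have mp : ∀ b s, b ∈ bases x → 1 ≤ s → s ≤ np b.1 → ((b, s, i) : T5) ∈ L2 x :=
      fun b s h h' h'' => mem_L2.2 ⟨h, Or.inr ⟨h', h'', hi⟩⟩
    have md := mp (0, 0, 0) 1 (mem_bases.2 (Or.inl rfl)) le_rfl (by simp [np])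
    have A : ∀ a w b, E F a w → ¬ Tch F b → a ≠ b → w ∈ L2 x → b ∈ L2 x → w ≠ b →
        (R2 x w b ∨ R2 x b w) → ¬ E F a b ∧ QA ad F a b := fun a w b e hb hne h4 h5 h6 h7 =>
      ⟨fun e => hb (e.symm.tch' hne.symm), w, b, e, E.refl _ _, h4, h5, TA2.2 ⟨h6, h7⟩⟩
    have N : ∀ a b, ¬ Tch F a → ¬ Tch F b → a ≠ b → ¬ (R2 x a b ∨ R2 x b a) →
        ¬ E F a b ∧ ¬ QA ad F a b := fun a b ha hb hne h =>
      ⟨fun e => ha (e.tch' hne), fun q => h (TA2.1 ((QA_single ha hb).1 q).2.2).2⟩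
    have Az := fun b hb hne => A _ _ b (E.refl F ((0, 0, 0), 0, 0)) hb hne hz
    have hW : ∀ t a b, (((t, a, b), 0, 0) : T5) ∈ L2 x → 2 ≤ t →
        ¬ E F ((0, 0, 0), 0, 0) ((t, a, b), 0, 0) := by
      intro t a b hm ht e
      have hb := (mem_L2.1 hm).1
      have hb' := mem_bases.1 hb
      simp only [Prod.mk.injEq] at hb'
      have ad0 := Az _ (t3 (0, 0, 0) 1) (by simp) md (by simp) (by simp [R2])
      have ac := Az _ (t1 3 0 0 0) (by simp) mc (by simp) (by simp [R2])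
      by_cases e2 : t = 2
      · subst e2
        have m1 := mp _ 1 hb le_rfl (by simp [np])
        exact h3 (star_pat hsy hz m1 md mc ms
          (A _ _ _ e (t3 _ _) (by simp) hm m1 (by simp) (by simp [R2])) ad0 ac
          (Az _ (t1 1 0 0 0) (by simp) ms (by simp) (by simp [R2]))
          (N _ _ (t3 _ _) (t3 _ _) (by simp) (by simp [R2]))
          (N _ _ (t3 _ _) (t1 _ _ _ _) (by simp) (by simp [R2]))
          (N _ _ (t3 _ _) (t1 _ _ _ _) (by simp) (by simp [R2]))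
          (N _ _ (t3 _ _) (t1 _ _ _ _) (by simp) (by simp [R2]))
          (N _ _ (t3 _ _) (t1 _ _ _ _) (by simp) (by simp [R2]))
          (N _ _ (t1 _ _ _ _) (t1 _ _ _ _) (by simp) (by simp [R2])))
      · obtain rfl : t = 3 := by omega
        have hne : a ≠ j := fun e' => t1 3 b 0 0 (e' ▸ e.symm.tch' (by simp))
        have m1 := mp _ 1 hb le_rfl (by simp [np])
        have m2 := mp _ 2 hb (by omega) (by simp [np])
        exact h3 (star_pat hsy hz m1 m2 md mc
          (A _ _ _ e (t3 _ _) (by simp) hm m1 (by simp) (by simp [R2]))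
          (A _ _ _ e (t3 _ _) (by simp) hm m2 (by simp) (by simp [R2])) ad0 ac
          (N _ _ (t3 _ _) (t3 _ _) (by simp) (by simp [R2]))
          (N _ _ (t3 _ _) (t3 _ _) (by simp) (by simp [R2]))
          (N _ _ (t3 _ _) (t1 _ _ _ _) (by simp) (by simp [R2, hne, hne.symm]))
          (N _ _ (t3 _ _) (t3 _ _) (by simp) (by simp [R2]))
          (N _ _ (t3 _ _) (t1 _ _ _ _) (by simp) (by simp [R2, hne, hne.symm]))
          (N _ _ (t3 _ _) (t1 _ _ _ _) (by simp) (by simp [R2])))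
    by_contra hc
    have hbc := (mem_L2.1 mc).1
    have m1 := mp _ 1 hbc le_rfl (by simp [np])
    have m2 := mp _ 2 hbc (by omega) (by simp [np])
    have Nz : ∀ b, ¬ Tch F b → ((0, 0, 0), 0, 0) ≠ b →
        (∀ w ∈ L2 x, E F ((0, 0, 0), 0, 0) w → w ≠ b → ¬ (R2 x w b ∨ R2 x b w)) →
        ¬ E F ((0, 0, 0), 0, 0) b ∧ ¬ QA ad F ((0, 0, 0), 0, 0) b := fun b hb hne h =>
      ⟨fun e => hb (e.symm.tch' hne.symm), fun q => by
        obtain ⟨w, e, h4, -, h5⟩ := (QA_single' hb).1 q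
        exact h w h4 e (TA2.1 h5).1 (TA2.1 h5).2⟩
    have Np : ∀ s, 1 ≤ s → ¬ E F ((0, 0, 0), 0, 0) ((3, j, 0), s, i) ∧
        ¬ QA ad F ((0, 0, 0), 0, 0) ((3, j, 0), s, i) := fun s hs =>
      Nz _ (t3 _ _) (by simp) fun w _ e _ hR => by
        obtain ⟨b, s', i'⟩ := w
        have : b = (3, j, 0) := by
          simp only [R2] at hR
          rcases hR with (h | h) | h | h
          · exact h.1
          · omega
          · exact h.1.symm
          · omega
        subst this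
        exact t1 _ _ _ _ (e.symm.tch' (by simp))
    have ac := Az _ (t1 3 0 0 0) (by simp) mc (by simp) (by simp [R2])
    have Ac := fun b hb hne => A _ _ b (E.refl F ((3, j, 0), 0, 0)) hb hne mc
    refine h3 (star_pat hsy mc hz mu m1 m2 ⟨fun e => ac.1 e.symm, ac.2.symm hsy⟩
      (Ac _ (t2 _ _ _ _) (by simp) mu (by simp) (by simp [R2]))
      (Ac _ (t3 _ _) (by simp) m1 (by simp) (by simp [R2]))
      (Ac _ (t3 _ _) (by simp) m2 (by simp) (by simp [R2]))
      (Nz _ (t2 _ _ _ _) (by simp) fun w hw e _ hR => ?_) (Np 1 le_rfl) (Np 2 (by omega))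
      (N _ _ (t2 _ _ _ _) (t3 _ _) (by simp) (by simp [R2]))
      (N _ _ (t2 _ _ _ _) (t3 _ _) (by simp) (by simp [R2]))
      (N _ _ (t3 _ _) (t3 _ _) (by simp) (by simp [R2])))
    obtain ⟨⟨t, a, b⟩, s', i'⟩ := w
    by_cases e1 : (t, a, b) = (2, v, l)
    · rw [e1] at e; exact t2 _ _ _ _ (e.symm.tch' (by simp))
    obtain ⟨m3, m4⟩ := mem_L2.1 hw
    have m5 := mem_bases.1 m3
    have e1' : ¬ (2, v, l) = (t, a, b) := fun h => e1 h.symm
    simp only [R2, e1, e1', false_and, false_or, Prod.mk.injEq] at hR m4 m5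
    have hs0 : s' = 0 := by omega
    subst hs0
    obtain rfl : i' = 0 := by omega
    by_cases e2 : 2 ≤ t
    · exact hW _ _ _ hw e2 e
    have h4 : t = 1 ∧ cov x a v = true := by
      rcases hR with h | h
      · rcases h.2.2 with h | h
        · omega
        · exact ⟨h.1, h.2.2⟩
      · rcases h.2.2 with h | h <;> omega
    obtain ⟨rfl, h4⟩ := h4
    obtain rfl : b = 0 := by omega
    have : a < x.1 := by simp only [cov, Bool.and_eq_true, decide_eq_true_eq] at h4; exact h4.1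
    exact hc ⟨a, Finset.mem_filter.2 ⟨Finset.mem_range.2 this, e⟩, h4⟩

theorem pt_cov {α : Type} [Enc α] {x : α → GK} {u v : α → ℕ} (hx : PT x) (hu : PT u) (hv : PT v) :
    PT fun a => cov (x a) (u a) (v a) := by unfold cov; fun_prop

attribute [fun_prop] pt_cov

theorem pt_red1 : PT red1 := by
  have h : PT fun x => dd (L1 x) := by unfold L1; fun_prop
  exact h.length.mk ((PT.tgE _ h (by unfold r1; fun_prop)).mk (by fun_prop))

theorem pt_red2 : PT red2 := by
  have h0 : PT bases := by unfold bases; fun_prop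
  have h : PT fun x => dd (L2 x) := by unfold L2 np; fun_prop
  exact h.length.mk ((PT.tgE _ h (by unfold r2; fun_prop)).mk (by fun_prop))

end Pool.Agent.H22.CT
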