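import Pool.Agent.H22.CT1

/-! Balls, rooted types and the exchange step. -/

namespace Pool.Agent.H22.CT

open Function

def D (nb : ℕ → ℕ → Prop) : ℕ → ℕ → ℕ → Prop
  | 0, x, y => x = y
  | i + 1, x, y => ∃ z, D nb i x z ∧ (z = y ∨ nb z y)

section
variable {nb : ℕ → ℕ → Prop}

theorem D.step {i x z y} (h : D nb i x z) (h' : nb z y) : D nb (i + 1) x y := ⟨z, h, Or.inr h'⟩

theorem D.mono {i j x y} (h : D nb i x y) (hij : i ≤ j) : D nb j x y := by
  induction hij with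
  | refl => exact h
  | step _ ih => exact ⟨y, ih, Or.inl rfl⟩

theorem D.self (i x) : D nb i x x := D.mono (i := 0) rfl (Nat.zero_le _)

theorem D.add {i j x y z} (h : D nb i x y) (h' : D nb j y z) : D nb (i + j) x z := by
  induction j generalizing z with
  | zero => exact h' ▸ h
  | succ j ih => obtain ⟨w, h1, h2⟩ := h'; exact ⟨w, ih h1, h2⟩

theorem D.symm (hs : ∀ a b, nb a b → nb b a) {i x y} (h : D nb i x y) : D nb i y x := by
  induction i generalizing y with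
  | zero => exact Eq.symm h
  | succ i ih =>
    obtain ⟨w, h1, h2⟩ := h
    have : D nb 1 y w := ⟨y, rfl, h2.imp Eq.symm (hs _ _)⟩
    exact Nat.add_comm 1 i ▸ this.add (ih h1)

theorem D.inv {P : ℕ → Prop} (hP : ∀ a b, nb a b → P b) {i x y} (h : D nb i x y) (hx : P x) :
    P y := by
  induction i generalizing y with
  | zero => exact h ▸ hx
  | succ i ih => obtain ⟨w, h1, rfl | h2⟩ := h; exacts [ih h1, hP _ _ h2]

end

def code (adj : ℕ → ℕ → Bool) (x y : ℕ) : ℕ := if x = y then 2 else (adj x y).toNat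

def mat (adj : ℕ → ℕ → Bool) (L : List ℕ) : List (List ℕ) := L.map fun x => L.map (code adj x)

theorem code_eq {adj x y x' y'} (h : code adj x y = code adj x' y') :
    (x = y ↔ x' = y') ∧ (x ≠ y → adj x y = adj x' y') := by
  unfold code at h
  split_ifs at h with h1 h2 h2
  · simp [h1, h2]
  · cases e : adj x' y' <;> simp [e] at h
  · cases e : adj x y <;> simp [e] at h
  · refine ⟨by simp [h1, h2], fun _ => ?_⟩
    cases e : adj x y <;> cases e' : adj x' y' <;> simp_all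

theorem phi_ex {adj L L'} (h : mat adj L = mat adj L') : L.length = L'.length ∧ ∃ φ : ℕ → ℕ,
    (∀ i < L.length, φ (L.getD i 0) = L'.getD i 0) ∧
    ∀ x ∈ L, ∀ y ∈ L, code adj (φ x) (φ y) = code adj x y := by
  have hl : L.length = L'.length := by simpa [mat] using congrArg List.length h
  have hc : ∀ i < L.length, ∀ j < L.length,
      code adj (L'.getD i 0) (L'.getD j 0) = code adj (L.getD i 0) (L.getD j 0) := by
    intro i hi j hj
    have := congrArg (fun M => (M.getD i []).getD j 0) h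
    simpa [mat, List.getD_eq_getElem?_getD, hi, hj, hl ▸ hi, hl ▸ hj] using this.symm
  have hg : ∀ x ∈ L, L.getD (L.idxOf x) 0 = x := fun x hx => by
    simp [List.getD_eq_getElem?_getD, List.idxOf_lt_length_of_mem hx]
  refine ⟨hl, fun x => L'.getD (L.idxOf x) 0, fun i hi => ?_, fun x hx y hy => ?_⟩
  · have hm : L.getD i 0 ∈ L := by simp [List.getD_eq_getElem?_getD, hi]
    exact (code_eq (hc _ (List.idxOf_lt_length_of_mem hm) i hi)).1.2 (hg _ hm)
  · rw [hc _ (List.idxOf_lt_length_of_mem hx) _ (List.idxOf_lt_length_of_mem hy), hg x hx, hg y hy]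

structure Set0 where
  n : ℕ
  adj : ℕ → ℕ → Bool
  B : List ℕ
  σ : Bool

def Set0.nb (S : Set0) (x y : ℕ) : Prop :=
  x < S.n ∧ y < S.n ∧ x ∉ S.B ∧ y ∉ S.B ∧ x ≠ y ∧ S.adj x y = S.σ

structure Set0.Ok (S : Set0) : Prop where
  sy : ∀ x y, S.adj x y = S.adj y x
  rg : ∀ x y, S.adj x y = true → x < S.n ∧ y < S.n ∧ x ≠ y
  hB : ∀ b ∈ S.B, b < S.n
  hσ : S.σ = true → S.B = []

theorem Set0.Ok.nbs {S : Set0} (h : S.Ok) (a b) (e : S.nb a b) : S.nb b a :=
  ⟨e.2.1, e.1, e.2.2.2.1, e.2.2.1, e.2.2.2.2.1.symm, h.sy _ _ ▸ e.2.2.2.2.2⟩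

theorem pat_single {V : Type} {dom : V → Prop} {adj : V → V → Prop} {m h} {F : List (V × V)}
    {f : ℕ → V} (hf : ∀ l < m, ¬ Tch F (f l)) : Pat dom adj m h F f ↔ Pat dom adj m h [] f := by
  have h0 : ∀ x : V, ¬ Tch [] x := by simp [Tch]
  refine and_congr_right fun _ => forall₂_congr fun i hi => forall₂_congr fun j hj =>
    imp_congr_right fun _ => ?_
  rw [QA_single (hf i hi) (hf j hj), QA_single (h0 _) (h0 _)]
  exact and_congr_left fun _ => not_congr ⟨fun e => e.single (hf i hi) ▸ E.refl _ _,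
    fun e => e.single (h0 _) ▸ E.refl _ _⟩

theorem pat_cls {V : Type} {dom : V → Prop} {adj : V → V → Prop} {m h} {F F' : List (V × V)}
    {f : ℕ → V} (hf : ∀ l < m, ∀ w, E F' (f l) w ↔ E F (f l) w) (hp : Pat dom adj m h F' f) :
    Pat dom adj m h F f := by
  refine ⟨hp.1, fun i hi j hj hij => ?_⟩
  have := hp.2 i hi j hj hij
  simpa only [QA, hf i hi, hf j hj] using this

theorem exchange (S : Set0) (hS : S.Ok) (k : ℕ) (F : List (ℕ × ℕ))
    (hF : ∀ p ∈ F, S.adj p.1 p.2 = true) (hk : F.length ≤ k) (hBT : ∀ b ∈ S.B, Tch F b)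
    (v v' : ℕ) (hv : Tch F v) (hvB : v ∉ S.B) (hv' : v' < S.n) (Lv Lv' : List ℕ)
    (hL : ∀ y, y ∈ Lv ↔ D S.nb (12 * k + 3) v y) (hL' : ∀ y, y ∈ Lv' ↔ D S.nb (12 * k + 3) v' y)
    (hty : mat S.adj (v :: (S.B ++ Lv)) = mat S.adj (v' :: (S.B ++ Lv')))
    (far : ∀ t, D S.nb (12 * k + 3) v' t → ¬ Tch F t ∧
      (S.σ = false → ∀ b ∈ S.B, ¬ ∀ w, E F b w → w ∈ S.B ∧ S.adj t w = false)) :
    ∃ ψ : ℕ → ℕ, (∀ p ∈ F.map (Prod.map ψ ψ), S.adj p.1 p.2 = true) ∧
      (∀ t, ψ t = t ∨ D S.nb (12 * k + 3) v' (ψ t)) ∧ D S.nb (12 * k + 3) v' (ψ v) ∧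
      ∀ m h, (∀ j, 0 < j → h 0 j = S.σ ∧ h j 0 = S.σ) →
        NoP (· < S.n) (fun a b => S.adj a b = true) m h F →
        NoP (· < S.n) (fun a b => S.adj a b = true) m h (F.map (Prod.map ψ ψ)) := by
  classical
  have hTn : ∀ {F : List (ℕ × ℕ)}, (∀ p ∈ F, S.adj p.1 p.2 = true) → ∀ t, Tch F t → t < S.n := by
    rintro F hF t ⟨y, h | h⟩
    · exact (hS.rg _ _ (hF _ h)).1
    · exact (hS.rg _ _ (hF _ h)).2.1
  have hvn := hTn hF v hv
  obtain ⟨i, hi, hgap⟩ : ∃ i < 2 * k + 1, ∀ t, Tch F t → D S.nb (3 * i + 3) v t →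
      D S.nb (3 * i) v t := by
    obtain ⟨i, hi, h⟩ := avoid F hk fun t =>
      if h : ∃ j, D S.nb (3 * j) v t then Nat.find h - 1 else 0
    refine ⟨i, hi, fun t ht hd => ?_⟩
    have ex : ∃ j, D S.nb (3 * j) v t := ⟨i + 1, hd⟩
    have h1 := h t ht
    rw [dif_pos ex] at h1
    have h2 : Nat.find ex ≤ i + 1 := Nat.find_min' ex hd
    exact (Nat.find_spec ex).mono (by omega)
  obtain ⟨hl, φ, hφ, hc⟩ := phi_ex hty
  set Λ := v :: (S.B ++ Lv) with hΛ
  set Λ' := v' :: (S.B ++ Lv') with hΛ'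
  have φv : φ v = v' := hφ 0 (by simp [hΛ])
  have φB : ∀ b ∈ S.B, φ b = b := fun b hb => by
    obtain ⟨j, hj, rfl⟩ := List.getElem_of_mem hb
    have := hφ (j + 1) (by simp [hΛ]; omega)
    simpa [hΛ, hΛ', List.getD_eq_getElem?_getD, List.getElem?_append_left hj, hj] using this
  have φm : ∀ x ∈ Λ, φ x ∈ Λ' := fun x hx => by
    obtain ⟨j, hj, rfl⟩ := List.getElem_of_mem hx
    have := hφ j hj
    rw [List.getD_eq_getElem _ _ hj, List.getD_eq_getElem _ _ (hl ▸ hj)] at this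
    rw [this]; exact List.getElem_mem _
  have φs : ∀ y ∈ Λ', ∃ x ∈ Λ, φ x = y := fun y hy => by
    obtain ⟨j, hj, rfl⟩ := List.getElem_of_mem hy
    have := hφ j (hl ▸ hj)
    rw [List.getD_eq_getElem _ _ hj, List.getD_eq_getElem _ _ (hl ▸ hj)] at this
    exact ⟨_, List.getElem_mem _, this⟩
  have φi : ∀ x ∈ Λ, ∀ y ∈ Λ, φ x = φ y → x = y := fun x hx y hy => (code_eq (hc x hx y hy)).1.1
  have hirr : ∀ x, S.adj x x = false := fun x => by
    by_contra e; exact (hS.rg x x (by simpa using e)).2.2 rfl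
  have φa : ∀ x ∈ Λ, ∀ y ∈ Λ, S.adj (φ x) (φ y) = S.adj x y := fun x hx y hy => by
    by_cases e : x = y
    · rw [e, hirr, hirr]
    · exact (code_eq (hc x hx y hy)).2 fun e' => e (φi x hx y hy e')
  have hBΛ : ∀ b ∈ S.B, b ∈ Λ := fun b hb => by simp [hΛ, hb]
  have hDΛ : ∀ {j x}, D S.nb j v x → j ≤ 12 * k + 3 → x ∈ Λ := fun h hj => by
    simp [hΛ, (hL _).2 (h.mono hj)]
  have hDΛ' : ∀ {j x}, D S.nb j v' x → j ≤ 12 * k + 3 → x ∈ Λ' := fun h hj => by
    simp [hΛ', (hL' _).2 (h.mono hj)]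
  have Λn : ∀ x ∈ Λ, x < S.n := fun x hx => by
    simp only [hΛ, List.mem_cons, List.mem_append] at hx
    rcases hx with rfl | h | h
    exacts [hvn, hS.hB _ h, ((hL _).1 h).inv (P := (· < S.n)) (fun _ _ h => h.2.1) hvn]
  have Λn' : ∀ x ∈ Λ', x < S.n := fun x hx => by
    simp only [hΛ', List.mem_cons, List.mem_append] at hx
    rcases hx with rfl | h | h
    exacts [hv', hS.hB _ h, ((hL' _).1 h).inv (P := (· < S.n)) (fun _ _ h => h.2.1) hv']
  have φB' : ∀ x ∈ Λ, (φ x ∈ S.B ↔ x ∈ S.B) := fun x hx =>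
    ⟨fun h => φi _ (hBΛ _ h) x hx (φB _ h) ▸ h, fun h => (φB x h).symm ▸ h⟩
  have φn : ∀ x ∈ Λ, ∀ y ∈ Λ, (S.nb (φ x) (φ y) ↔ S.nb x y) := fun x hx y hy => by
    unfold Set0.nb
    rw [φB' x hx, φB' y hy, φa x hx y hy]
    simp only [Λn x hx, Λn y hy, Λn' _ (φm x hx), Λn' _ (φm y hy), true_and]
    exact and_congr_right fun _ => and_congr_right fun _ => and_congr_left fun _ =>
      not_congr ⟨φi x hx y hy, congrArg φ⟩
  have push : ∀ j, j ≤ 12 * k + 3 → ∀ x, D S.nb j v x → D S.nb j v' (φ x) := by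
    intro j
    induction j with
    | zero => intro _ x h; exact h ▸ φv.symm
    | succ j ih =>
      intro hj x h
      have hx := hDΛ h hj
      obtain ⟨z, h1, h2⟩ := h
      exact ⟨φ z, ih (by omega) z h1, h2.imp (congrArg φ) (φn _ (hDΛ h1 (by omega)) _ hx).2⟩
  have pull : ∀ j, j ≤ 12 * k + 3 → ∀ y, D S.nb j v' y → ∃ x, D S.nb j v x ∧ φ x = y := by
    intro j
    induction j with
    | zero => intro _ y h; exact ⟨v, rfl, φv.trans h⟩
    | succ j ih =>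
      intro hj y h
      obtain ⟨x, hx, rfl⟩ := φs y (hDΛ' h hj)
      obtain ⟨z, h1, h2⟩ := h
      obtain ⟨z, h3, rfl⟩ := ih (by omega) z h1
      have hz := hDΛ h3 (by omega)
      exact ⟨x, ⟨z, h3, h2.imp (φi _ hz _ hx) (φn _ hz _ hx).1⟩, rfl⟩
  have DB : ∀ {j x}, D S.nb j v x → x ∉ S.B := fun h =>
    h.inv (P := (· ∉ S.B)) (fun _ _ h => h.2.2.2.1) hvB
  have hv'B : v' ∉ S.B := φv ▸ fun h => hvB ((φB' v (by simp [hΛ])).1 h)
  have DB' : ∀ {j x}, D S.nb j v' x → x ∉ S.B := fun h =>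
    h.inv (P := (· ∉ S.B)) (fun _ _ h => h.2.2.2.1) hv'B
  let ψ : ℕ → ℕ := fun x => if D S.nb (3 * i + 2) v x then φ x else x
  have ψ1 : ∀ {x}, D S.nb (3 * i + 2) v x → ψ x = φ x := fun h => if_pos h
  have ψ2 : ∀ {x}, ¬ D S.nb (3 * i + 2) v x → ψ x = x := fun h => if_neg h
  let R : ℕ → Prop := fun x => Tch F x ∨ D S.nb (3 * i + 2) v x
  have hρ : 3 * i + 3 ≤ 12 * k + 3 := by omega
  have hρ2 : 3 * i + 2 ≤ 12 * k + 3 := by omega
  have Ri : ∀ a b, R a → R b → ψ a = ψ b → a = b := fun a b ha hb e => by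
    by_cases h1 : D S.nb (3 * i + 2) v a <;> by_cases h2 : D S.nb (3 * i + 2) v b
    · rw [ψ1 h1, ψ1 h2] at e; exact φi _ (hDΛ h1 hρ2) _ (hDΛ h2 hρ2) e
    · rw [ψ1 h1, ψ2 h2] at e
      exact absurd (e ▸ hb.resolve_right h2) (far _ ((push _ hρ2 _ h1).mono hρ2)).1
    · rw [ψ2 h1, ψ1 h2] at e
      exact absurd (e ▸ ha.resolve_right h1) (far _ ((push _ hρ2 _ h2).mono hρ2)).1
    · rwa [ψ2 h1, ψ2 h2] at e
  have Ra0 : ∀ a t, D S.nb (3 * i + 2) v a → Tch F t → ¬ D S.nb (3 * i + 2) v t →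
      S.adj (φ a) t = S.adj a t := fun a t h1 ht h2 => by
    have ha := hDΛ h1 hρ2
    by_cases e : t ∈ S.B
    · conv_lhs => rw [← φB t e]
      exact φa _ ha _ (hBΛ _ e)
    · have h3 := push _ hρ2 _ h1
      have n1 : ¬ S.nb a t := fun h => h2 ((hgap t ht (h1.step h)).mono (by omega))
      have n2 : ¬ S.nb (φ a) t := fun h => (far _ ((h3.step h).mono hρ)).1 ht
      have e1 : S.adj a t ≠ S.σ := fun e' =>
        n1 ⟨Λn _ ha, hTn hF t ht, DB h1, e, fun e => h2 (e ▸ h1), e'⟩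
      have e2 : S.adj (φ a) t ≠ S.σ := fun e' => n2 ⟨Λn' _ (φm _ ha), hTn hF t ht, DB' h3, e,
        fun e => (far _ (h3.mono hρ2)).1 (e ▸ ht), e'⟩
      revert e1 e2
      cases S.adj a t <;> cases S.adj (φ a) t <;> cases S.σ <;> simp
  have Ra : ∀ a b, R a → R b → S.adj (ψ a) (ψ b) = S.adj a b := fun a b ha hb => by
    by_cases h1 : D S.nb (3 * i + 2) v a <;> by_cases h2 : D S.nb (3 * i + 2) v b
    · rw [ψ1 h1, ψ1 h2]; exact φa _ (hDΛ h1 hρ2) _ (hDΛ h2 hρ2)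
    · rw [ψ1 h1, ψ2 h2]; exact Ra0 _ _ h1 (hb.resolve_right h2) h2
    · rw [ψ2 h1, ψ1 h2, hS.sy, hS.sy a]; exact Ra0 _ _ h2 (ha.resolve_right h1) h1
    · rw [ψ2 h1, ψ2 h2]
  have Rn : ∀ a, R a → (ψ a < S.n ↔ a < S.n) := fun a ha => by
    by_cases h1 : D S.nb (3 * i + 2) v a
    · rw [ψ1 h1]; exact iff_of_true (Λn' _ (φm _ (hDΛ h1 hρ2))) (Λn _ (hDΛ h1 hρ2))
    · rw [ψ2 h1]
  have hF' : ∀ p ∈ F.map (Prod.map ψ ψ), S.adj p.1 p.2 = true := fun p hp => by
    obtain ⟨q, hq, rfl⟩ := List.mem_map.1 hp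
    exact (Ra _ _ (Or.inl ⟨q.2, Or.inl hq⟩) (Or.inl ⟨q.1, Or.inr hq⟩)).trans (hF q hq)
  refine ⟨ψ, hF', fun t => ?_, ?_, fun m h hh hN => ?_⟩
  · by_cases h1 : D S.nb (3 * i + 2) v t
    · right; rw [ψ1 h1]; exact (push _ hρ2 _ h1).mono hρ2
    · exact Or.inl (ψ2 h1)
  · rw [ψ1 (D.self _ _), φv]; exact D.self _ _
  set F' := F.map (Prod.map ψ ψ) with hF'd
  rintro ⟨f, hf⟩
  have T0 : ∀ w, Tch F' w → D S.nb (3 * i) v' w ∨ (Tch F w ∧ ¬ D S.nb (3 * i + 2) v w) := by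
    intro w hw
    obtain ⟨t, ht, rfl⟩ := tch_map.1 hw
    by_cases h1 : D S.nb (3 * i + 2) v t
    · left; rw [ψ1 h1]; exact push _ (by omega) _ (hgap t ht (h1.mono (by omega)))
    · right; rw [ψ2 h1]; exact ⟨ht, h1⟩
  have T1 : ∀ {j w}, D S.nb j v w → j ≤ 3 * i + 2 → ¬ Tch F' w := fun h hj hw => by
    rcases T0 _ hw with h1 | h1
    · exact (far v ((h1.add (h.symm hS.nbs)).mono (by omega))).1 hv
    · exact h1.2 (h.mono hj)
  have T2 : ∀ {j w}, D S.nb j v' w → j ≤ 12 * k + 3 → Tch F' w → D S.nb (3 * i) v' w :=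
    fun h hj hw => (T0 _ hw).resolve_right fun h1 => (far _ (h.mono hj)).1 h1.1
  have En : ∀ {a b}, E F' a b → a < S.n → b < S.n := fun e ha =>
    e.closed (P := (· < S.n)) ha fun c _ _ h => hTn hF' _ ⟨c, h.symm⟩
  have pure : ∀ Y, (∀ y, E F' Y y → y ∈ S.B) → ∀ w, E F Y w → w ∈ S.B ∧ E F' Y w := by
    intro Y hY w e
    have h0 : ψ Y = Y := ψ2 fun h => DB h (hY Y (E.refl _ _))
    have h1 : E F' Y (ψ w) := h0 ▸ E_map ψ e
    have h2 : ψ w = w := ψ2 fun h => DB' (push _ hρ2 _ h) (ψ1 h ▸ hY _ h1)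
    exact ⟨h2 ▸ hY _ h1, h2 ▸ h1⟩
  have lk : ∀ a < m, ∀ b < m, a ≠ b → (a = 0 ∨ b = 0) → ¬ E F' (f a) (f b) ∧
      (QA (fun a b => S.adj a b = true) F' (f a) (f b) ↔ S.σ = true) := fun a ha b hb hab e => by
    have := hf.2 a ha b hb hab
    rcases e with rfl | rfl
    · rwa [(hh b (by omega)).1] at this
    · rwa [(hh a (by omega)).2] at this
  have two : ∀ (P : ℕ → ℕ → Prop), (∀ j x, P j x → P (j + 1) x) →
      (∀ j, 3 * i ≤ j → j ≤ 3 * i + 1 → ∀ X Y, P j X → Y < S.n → ¬ E F' X Y →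
        (QA (fun a b => S.adj a b = true) F' X Y ↔ S.σ = true) → P (j + 1) Y) →
      ∀ a < m, P (3 * i) (f a) → ∀ l < m, P (3 * i + 2) (f l) := by
    intro P h1 h2 a ha hP l hl
    have h0 : P (3 * i + 1) (f 0) := by
      by_cases e : a = 0
      · exact h1 _ _ (e ▸ hP)
      · have := lk a ha 0 (by omega) e (Or.inr rfl)
        exact h2 _ le_rfl (by omega) _ _ hP (hf.1 0 (by omega)) this.1 this.2
    by_cases e : l = 0
    · exact h1 _ _ (e ▸ h0)
    · have := lk 0 (by omega) l hl (Ne.symm e) (Or.inl rfl)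
      exact h2 _ (by omega) le_rfl _ _ h0 (hf.1 l hl) this.1 this.2
  have nadj : ∀ {X Y w y}, ¬ QA (fun a b => S.adj a b = true) F' X Y → E F' X w → E F' Y y →
      S.adj w y = false := fun hq e1 e2 => by
    by_contra e; exact hq ⟨_, _, e1, e2, by simpa using e⟩
  by_cases cα : ∃ a < m, ∃ w, E F' (f a) w ∧ D S.nb (3 * i) v' w
  · obtain ⟨a, ha, hP⟩ := cα
    have h1 := two (fun j X => ∃ w, E F' X w ∧ D S.nb j v' w)
      (fun j x ⟨w, h1, h2⟩ => ⟨w, h1, h2.mono (by omega)⟩) (by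
        rintro j hj hj' X Y ⟨w, e, hw⟩ hY hne hq
        have hwn := Λn' _ (hDΛ' hw (by omega))
        cases hσ : S.σ
        · have hq' : ¬ QA (fun a b => S.adj a b = true) F' X Y := fun h => by
            simpa [hσ] using hq.1 h
          by_cases c : ∃ y, E F' Y y ∧ y ∉ S.B
          · obtain ⟨y, e', hy⟩ := c
            exact ⟨y, e', hw.step ⟨hwn, En e' hY, DB' hw, hy,
              fun h => hne (e.trans (h ▸ e'.symm)), hσ ▸ nadj hq' e e'⟩⟩
          · push Not at c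
            exact absurd (fun w' e' => ⟨(pure Y c w' e').1, nadj hq' e (pure Y c w' e').2⟩)
              ((far w (hw.mono (by omega))).2 hσ Y (c Y (E.refl _ _)))
        · obtain ⟨u, y, e1, e2, e3⟩ := hq.2 hσ
          have nbt : ∀ a b, S.adj a b = true → S.nb a b := fun a b h =>
            ⟨(hS.rg _ _ h).1, (hS.rg _ _ h).2.1, by simp [hS.hσ hσ], by simp [hS.hσ hσ],
              (hS.rg _ _ h).2.2, hσ ▸ h⟩
          have hu : D S.nb j v' u := by
            by_cases ht : Tch F' w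
            · refine ((e.symm.trans e1).closed (P := D S.nb (3 * i) v') (T2 hw (by omega) ht)
                fun a b ha hab => ?_).mono hj
              have : S.adj a b = true := hab.elim (hF' _) fun h => hS.sy _ _ ▸ hF' _ h
              exact T2 (ha.step (nbt _ _ this)) (by omega) ⟨a, hab.symm⟩
            · exact (e.symm.trans e1).single ht ▸ hw
          exact ⟨y, e2, hu.step (nbt _ _ e3)⟩) a ha hP
    have h2 : ∀ l, ∃ x, l < m → R x ∧ ψ x = f l := fun l => by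
      by_cases hl : l < m
      · by_cases ht : Tch F' (f l)
        · obtain ⟨t, h3, h4⟩ := tch_map.1 ht
          exact ⟨t, fun _ => ⟨Or.inl h3, h4⟩⟩
        · obtain ⟨w, e, hw⟩ := h1 l hl
          obtain ⟨x, h3, h4⟩ := pull _ hρ2 _ (e.single ht ▸ hw)
          exact ⟨x, fun _ => ⟨Or.inr h3, (ψ1 h3).trans h4⟩⟩
      · exact ⟨0, fun h => absurd h hl⟩
    choose g hg using h2
    exact hN ⟨g, (pat_map (R := R) (fun _ h => Or.inl h) Ri (fun a b h1 h2 => by rw [Ra a b h1 h2])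
      Rn fun l hl => (hg l hl).1).1 (hf.congr fun l hl => (hg l hl).2.symm)⟩
  by_cases cβ : ∃ a < m, D S.nb (3 * i) v (f a)
  · obtain ⟨a, ha, hP⟩ := cβ
    have h1 := two (fun j X => D S.nb j v X) (fun j x h => h.mono (by omega)) (by
        intro j hj hj' X Y hX hY hne hq
        have hXΛ := hDΛ hX (by omega)
        have fin : ∀ y, E F' Y y → S.nb X y → D S.nb (j + 1) v Y := fun y e h =>
          e.symm.single (T1 (hX.step h) (by omega)) ▸ hX.step h
        cases hσ : S.σ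
        · have hq' : ¬ QA (fun a b => S.adj a b = true) F' X Y := fun h => by
            simpa [hσ] using hq.1 h
          by_cases c : ∃ y, E F' Y y ∧ y ∉ S.B
          · obtain ⟨y, e', hy⟩ := c
            exact fin y e' ⟨Λn _ hXΛ, En e' hY, DB hX, hy,
              fun h => hne (h ▸ e'.symm), hσ ▸ nadj hq' (E.refl _ _) e'⟩
          · push Not at c
            refine absurd (fun w' e' => ⟨(pure Y c w' e').1, ?_⟩)
              ((far _ ((push _ (by omega) _ hX).mono (by omega))).2 hσ Y (c Y (E.refl _ _)))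
            have hw := (pure Y c w' e').1
            conv_lhs => rw [← φB _ hw]
            rw [φa _ hXΛ _ (hBΛ _ hw)]
            exact nadj hq' (E.refl _ _) (pure Y c w' e').2
        · obtain ⟨u, y, e1, e2, e3⟩ := hq.2 hσ
          obtain rfl := e1.single (T1 hX (by omega))
          exact fin y e2 ⟨(hS.rg _ _ e3).1, (hS.rg _ _ e3).2.1, by simp [hS.hσ hσ],
            by simp [hS.hσ hσ], (hS.rg _ _ e3).2.2, hσ ▸ e3⟩) a ha hP
    have h2 := (pat_single fun l hl => T1 (h1 l hl) le_rfl).1 hf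
    have h3 := (pat_map (F := []) (dom := (· < S.n)) (dom' := (· < S.n))
      (adj := fun a b => S.adj a b = true) (adj' := fun a b => S.adj a b = true) (ψ := φ)
      (R := (· ∈ Λ)) (by simp [Tch]) (fun a b h1 h2 => φi a h1 b h2)
      (fun a b h1 h2 => by rw [φa a h1 b h2])
      (fun a h => iff_of_true (Λn' _ (φm _ h)) (Λn _ h)) fun l hl => hDΛ (h1 l hl) hρ2).2 h2
    exact hN ⟨_, (pat_single fun l hl => (far _ ((push _ hρ2 _ (h1 l hl)).mono hρ2)).1).2 h3⟩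
  refine hN ⟨f, pat_cls (fun l hl w => ?_) hf⟩
  by_cases ht : Tch F' (f l)
  · obtain ⟨t, h3, h4⟩ := tch_map.1 ht
    have h5 : ∀ y, E F t y → ψ y = y := fun y e => ψ2 fun h => cα ⟨l, hl, ψ y, h4 ▸ E_map ψ e,
      ψ1 h ▸ push _ (by omega) _ (hgap y (e.tch h3) (h.mono (by omega)))⟩
    have h6 : t = f l := (h5 t (E.refl _ _)).symm.trans h4
    constructor
    · intro e
      obtain ⟨y, -, e', rfl⟩ := E_map' (R := R) (fun _ h => Or.inl h) Ri (Or.inl h3) (h4 ▸ e)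
      rw [h5 y e', ← h6]; exact e'
    · intro e
      have := E_map ψ (h6 ▸ e : E F t w)
      rwa [h4, h5 w (h6 ▸ e)] at this
  · have ht' : ¬ Tch F (f l) := fun h => ht (tch_map.2 ⟨_, h, ψ2 fun h' =>
      cβ ⟨l, hl, hgap _ h (h'.mono (by omega))⟩⟩)
    exact ⟨fun e => e.single ht ▸ E.refl _ _, fun e => e.single ht' ▸ E.refl _ _⟩

end Pool.Agent.H22.CT
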