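import Pool.Agent.H22.MSR1

namespace Pool.Agent.H22.MSR

open Pool.Agent.H38.NP Pool.Agent.H36.Par Function

/-- a guess: two flattened patterns and a layer for every variable -/
abbrev Gs := List ℕ × List ℕ × List ℕ

def act (x : Inst) (g : Gs) (v : List ℕ) (t : ℕ) : Bool :=
  decide (t ∈ g.1) && decide (v.getD t 0 < x.1.length) &&
    (!cls x (g.2.2.getD t 0) (v.getD t 0) ||
      (prs g.1).any (fun p => decide (p.2 = t) && decide (v.getD p.2 0 ≤ v.getD p.1 0)) ||
      (prs g.2.1).any (fun p => decide (p.1 = t) && cls x (g.2.2.getD p.2 0) (v.getD p.2 0) &&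
        decide (Y x (v.getD p.2 0) ≤ Y x (v.getD p.1 0))))

def step (x : Inst) (g : Gs) (v : List ℕ) : List ℕ :=
  (List.range (x.2.2 + 1)).map fun t => if act x g v t = true then v.getD t 0 + 1 else v.getD t 0

def fin (x : Inst) (g : Gs) : List ℕ :=
  (step x g)^[(x.2.2 + 1) * x.1.length + 1] (List.replicate (x.2.2 + 1) 0)

theorem step_getD {x g v t} (h : t < x.2.2 + 1) : (step x g v).getD t 0 =
    if act x g v t = true then v.getD t 0 + 1 else v.getD t 0 := by
  simp [step, List.getD_eq_getElem?_getD, h]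

theorem step_le {x g v} (h : ∀ t, v.getD t 0 ≤ x.1.length) (t) :
    (step x g v).getD t 0 ≤ x.1.length := by
  by_cases ht : t < x.2.2 + 1
  · rw [step_getD ht]
    split_ifs with e
    · simp only [act, Bool.and_eq_true, decide_eq_true_eq] at e
      exact e.1.2
    · exact h t
  · simp [step, List.getD_eq_getElem?_getD, ht]

theorem fin_spec (x : Inst) (g : Gs) (w : ℕ → ℕ) (hM : ∀ t ∈ g.1, t < x.2.2 + 1)
    (h21 : ∀ t ∈ g.2.1, t ∈ g.1) (hw : ∀ t ∈ g.1, w t < x.1.length)
    (hc : ∀ t ∈ g.1, cls x (g.2.2.getD t 0) (w t) = true)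
    (h1 : g.1.Pairwise fun s t => w s < w t)
    (h2 : g.2.1.Pairwise fun s t => Y x (w s) < Y x (w t)) :
    (∀ t ∈ g.1, (fin x g).getD t 0 < x.1.length) ∧
    (g.1.Pairwise fun s t => (fin x g).getD s 0 < (fin x g).getD t 0) ∧
    g.2.1.Pairwise fun s t => Y x ((fin x g).getD s 0) < Y x ((fin x g).getD t 0) := by
  rw [prs_iff] at h1 h2
  have key := fix_iter (step x g) (fun v => ∑ t ∈ Finset.range (x.2.2 + 1), v.getD t 0)
    (fun v => v.length = x.2.2 + 1 ∧ (∀ t, v.getD t 0 ≤ x.1.length) ∧ ∀ t ∈ g.1, v.getD t 0 ≤ w t)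
    ((x.2.2 + 1) * x.1.length) (List.replicate (x.2.2 + 1) 0)
    ⟨by simp, fun t => by simp [List.getD_eq_getElem?_getD, List.getElem?_replicate]; split_ifs <;> simp,
      fun t _ => by simp [List.getD_eq_getElem?_getD, List.getElem?_replicate]; split_ifs <;> simp⟩
    (by
      rintro v ⟨-, hv, hvw⟩
      refine ⟨by simp [step], step_le hv, fun t ht => ?_⟩
      rw [step_getD (hM t ht)]
      split_ifs with e
      · rcases (hvw t ht).eq_or_lt with e' | e'
        · exfalso
          simp only [act, Bool.and_eq_true, decide_eq_true_eq, Bool.or_eq_true, List.any_eq_true,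
            Bool.not_eq_true'] at e
          rcases e.2 with (e2 | ⟨p, hp, rfl, e2⟩) | ⟨p, hp, ⟨rfl, e1⟩, e2⟩
          · rw [e', hc t ht] at e2; simp at e2
          · have := h1 p hp
            have := hvw _ (prs_mem hp).1
            omega
          · have := h2 p hp
            have hp2 := h21 _ (prs_mem hp).2
            have := cls_anti e1 (hc _ hp2) (hvw _ hp2)
            rw [e'] at e2
            omega
        · exact e'
      · exact hvw t ht)
    (by
      rintro v ⟨hl, -, -⟩
      by_cases e : ∃ t < x.2.2 + 1, act x g v t = true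
      · right
        obtain ⟨t, ht, e⟩ := e
        refine Finset.sum_lt_sum (fun s hs => ?_) ⟨t, Finset.mem_range.2 ht, ?_⟩
        · rw [step_getD (Finset.mem_range.1 hs)]; split_ifs <;> omega
        · rw [step_getD ht, if_pos e]; omega
      · left
        apply List.ext_getElem (by simp [step, hl])
        intro t h h'
        have ht : t < x.2.2 + 1 := hl ▸ h'
        have := step_getD (g := g) (v := v) ht
        rw [if_neg fun e' => e ⟨t, ht, e'⟩] at this
        simpa [List.getD_eq_getElem?_getD, h, h'] using this)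
    (by
      rintro v ⟨-, hv, -⟩
      exact (Finset.sum_le_card_nsmul _ _ _ fun t _ => hv t).trans (by simp))
  change (_ ∧ _ ∧ ∀ t ∈ g.1, (fin x g).getD t 0 ≤ w t) ∧ step x g (fin x g) = fin x g at key
  obtain ⟨⟨-, -, hv⟩, hf⟩ := key
  generalize fin x g = v at *
  have hlt : ∀ t ∈ g.1, v.getD t 0 < x.1.length := fun t ht => (hv t ht).trans_lt (hw t ht)
  have hna : ∀ t ∈ g.1, cls x (g.2.2.getD t 0) (v.getD t 0) = true ∧
      (∀ p ∈ prs g.1, p.2 = t → v.getD p.1 0 < v.getD p.2 0) ∧
      ∀ p ∈ prs g.2.1, p.1 = t → cls x (g.2.2.getD p.2 0) (v.getD p.2 0) = true →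
        Y x (v.getD p.1 0) < Y x (v.getD p.2 0) := by
    intro t ht
    have := step_getD (g := g) (v := v) (hM t ht)
    rw [hf] at this
    have e : ¬ act x g v t = true := fun e => by rw [if_pos e] at this; omega
    simp only [act, Bool.and_eq_true, decide_eq_true_eq, Bool.or_eq_true, List.any_eq_true,
      Bool.not_eq_true', not_and, not_or, not_exists, not_le, Bool.not_eq_false] at e
    obtain ⟨⟨e1, e2⟩, e3⟩ := e ⟨ht, hlt t ht⟩
    exact ⟨e1, e2, fun p hp a b => e3 p hp ⟨a, b⟩⟩
  refine ⟨hlt, prs_iff.2 fun p hp => (hna _ (prs_mem hp).2).2.1 p hp rfl, prs_iff.2 fun p hp =>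
    (hna _ (h21 _ (prs_mem hp).1)).2.2 p hp rfl (hna _ (h21 _ (prs_mem hp).2)).1⟩

def chk (x : Inst) (B₁ B₂ : List (List ℕ)) : Bool :=
  (B₁ ++ B₂).all (fun b => decide (B₁.count b = B₂.count b)) &&
  B₁.all (fun b => decide (2 ≤ b.length)) && B₁.flatten.all (fun i => decide (i < x.1.length)) &&
  (prs B₁.flatten).all (fun p => decide (p.1 < p.2)) &&
  (prs B₂.flatten).all (fun p => decide (Y x p.1 < Y x p.2)) && decide (x.2.2 ≤ B₁.flatten.length)

theorem chk_iff {x B₁ B₂} : chk x B₁ B₂ = true ↔ PosSol x B₁ B₂ := by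
  have e : (∀ b ∈ B₁ ++ B₂, B₁.count b = B₂.count b) ↔ B₁.Perm B₂ := by
    rw [List.perm_iff_count]
    refine ⟨fun h b => ?_, fun h b _ => h b⟩
    by_cases hb : b ∈ B₁ ++ B₂
    · exact h b hb
    · rw [List.mem_append, not_or] at hb
      rw [List.count_eq_zero_of_not_mem hb.1, List.count_eq_zero_of_not_mem hb.2]
  simp only [chk, Bool.and_eq_true, List.all_eq_true, decide_eq_true_eq, PosSol, prs_iff, e,
    and_assoc]

def good (x : Inst) (P₁ P₂ : List (List ℕ)) (c : List ℕ) : Bool :=
  chk x (P₁.map (List.map fun t => (fin x (P₁.flatten, P₂.flatten, c)).getD t 0))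
    (P₂.map (List.map fun t => (fin x (P₁.flatten, P₂.flatten, c)).getD t 0))

def A0 (k : ℕ) : List (List ℕ) :=
  (words (List.range (k + 2)) (k + 1)).map (List.filter fun t => decide (t < k + 1))
def A1 (k : ℕ) : List (List (List ℕ)) :=
  (words (A0 k) (k + 1)).map (List.filter fun b => !b.isEmpty)

def dcd (x : Inst) (A : List (List (List ℕ))) (C : List (List ℕ)) : Bool :=
  !(R x (x.2.2 + 1)).isEmpty || A.any fun P₁ => A.any fun P₂ => C.any fun c => good x P₁ P₂ c

theorem pad {β : Type} {A : List β} {M : ℕ} (p : β → Bool) (z : β) (hz : z ∈ A) (hp : p z = false)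
    (l : List β) (hl : l.length ≤ M) (h : ∀ a ∈ l, a ∈ A ∧ p a = true) :
    l ∈ (words A M).map (List.filter p) := by
  refine List.mem_map.2 ⟨l ++ List.replicate (M - l.length) z, mem_words.2 ⟨by simp; omega, ?_⟩, ?_⟩
  · intro a ha
    rcases List.mem_append.1 ha with ha | ha
    · exact (h a ha).1
    · rw [List.eq_of_mem_replicate ha]; exact hz
  · rw [List.filter_append, List.filter_eq_self.2 fun a ha => (h a ha).2]
    simp [hp]

theorem mem_A1 {k : ℕ} {P : List (List ℕ)} (h2 : ∀ b ∈ P, 2 ≤ b.length)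
    (hl : P.flatten.length ≤ k + 1) (ht : ∀ t ∈ P.flatten, t < k + 1) : P ∈ A1 k := by
  have h0 : ∀ b : List ℕ, b.length ≤ k + 1 → (∀ t ∈ b, t < k + 1) → b ∈ A0 k := fun b hb hb' =>
    pad _ (k + 1) (by simp) (by simp) b hb fun a ha => by have := hb' a ha; simp; omega
  refine pad _ [] (h0 _ (by simp) (by simp)) rfl P ?_ fun b hb => ⟨h0 b ?_ fun t h => ?_, ?_⟩
  · refine le_trans ?_ hl
    clear hl ht
    induction P with
    | nil => simp
    | cons b P ih =>
      have := ih fun c hc => h2 c (by simp [hc])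
      have := h2 b (by simp)
      simp only [List.flatten_cons, List.length_append, List.length_cons]; omega
  · exact (List.sublist_flatten_of_mem hb).length_le.trans hl
  · exact ht t (List.mem_flatten.2 ⟨b, hb, h⟩)
  · have := h2 b hb
    cases b <;> simp at this ⊢

theorem dcd_iff (x : Inst) : (∃ B₁ B₂, PosSol x B₁ B₂) ↔
    dcd x (A1 x.2.2) (words (List.range (x.2.2 + 1)) (x.2.2 + 1)) = true := by
  simp only [dcd, Bool.or_eq_true, List.any_eq_true, good, chk_iff]
  constructor
  · rintro ⟨B1, B2, h⟩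
    obtain ⟨B1, B2, ⟨hB, hb, hl, h1, h2, hk⟩, hN⟩ := shrink x _ B1 B2 le_rfl h
    by_cases hR : R x (x.2.2 + 1) = []
    swap
    · left; simpa using hR
    right
    have hex : ∀ t, ∃ c < x.2.2 + 1, t < B1.flatten.length →
        cls x c (B1.flatten.getD t 0) = true := fun t => by
      by_cases ht : t < B1.flatten.length
      · obtain ⟨c, hc, h⟩ := cls_ex (x := x) (i := B1.flatten.getD t 0)
          (hl _ (by simp only [List.getD_eq_getElem?_getD, List.getElem?_eq_getElem ht]; simp))
          (x.2.2 + 1) (by simp [hR])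
        exact ⟨c, hc, fun _ => h⟩
      · exact ⟨0, by omega, fun h => absurd h ht⟩
    choose c hc hc' using hex
    set F := B1.flatten with hF
    have hm : ∀ i ∈ B2.flatten, i ∈ F := fun i hi => hB.flatten.symm.subset hi
    have f1 : (B1.map (List.map fun i => F.idxOf i)).flatten = F.map fun i => F.idxOf i := by
      rw [← List.map_flatten]
    have f2 : (B2.map (List.map fun i => F.idxOf i)).flatten =
        B2.flatten.map fun i => F.idxOf i := by rw [← List.map_flatten]
    have hlt : ∀ t ∈ F.map fun i => F.idxOf i, t < F.length := fun t ht => by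
      obtain ⟨i, hi, rfl⟩ := List.mem_map.1 ht
      exact List.idxOf_lt_length_of_mem hi
    have h21 : ∀ t ∈ B2.flatten.map fun i => F.idxOf i, t ∈ F.map fun i => F.idxOf i :=
      fun t ht => by
        obtain ⟨i, hi, rfl⟩ := List.mem_map.1 ht
        exact List.mem_map_of_mem (hm i hi)
    have hb1 : ∀ b ∈ B1.map (List.map fun i => F.idxOf i), 2 ≤ b.length := fun b hb' => by
      obtain ⟨d, hd, rfl⟩ := List.mem_map.1 hb'
      simpa using hb d hd
    refine ⟨B1.map (List.map fun i => F.idxOf i), mem_A1 hb1 (by rw [f1]; simpa using hN)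
      (by rw [f1]; intro t ht; have := hlt t ht; omega), B2.map (List.map fun i => F.idxOf i),
      mem_A1 (fun b hb' => hb1 b ((hB.map _).symm.subset hb'))
        (by rw [f2, List.length_map, ← hB.flatten.length_eq]; exact hN)
        (by rw [f2]; intro t ht; have := hlt t (h21 t ht); omega),
      (List.range (x.2.2 + 1)).map c, mem_words.2 ⟨by simp, by simpa using fun t _ => hc t⟩, ?_⟩
    rw [f1, f2]
    obtain ⟨k1, k2, k3⟩ := fin_spec x (F.map fun i => F.idxOf i, B2.flatten.map fun i => F.idxOf i,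
      (List.range (x.2.2 + 1)).map c) (fun t => F.getD t 0)
      (fun t ht => by have := hlt t ht; omega) h21
      (fun t ht => by
        obtain ⟨i, hi, rfl⟩ := List.mem_map.1 ht
        simp only [getD_idxOf hi]; exact hl i hi)
      (fun t ht => by
        have := hlt t ht
        have e : ((List.range (x.2.2 + 1)).map c).getD t 0 = c t := by
          simp [List.getD_eq_getElem?_getD, show t < x.2.2 + 1 by omega]
        simp only [e]; exact hc' t this)
      (List.pairwise_map.2 (h1.imp_of_mem fun {a b} ha hb h => by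
        simp only [getD_idxOf ha, getD_idxOf hb]; exact h))
      (List.pairwise_map.2 (h2.imp_of_mem fun {a b} ha hb h => by
        simp only [getD_idxOf (hm _ ha), getD_idxOf (hm _ hb)]; exact h))
    generalize fin x _ = v at *
    refine ⟨(hB.map _).map _, fun b hb' => ?_, ?_, ?_, ?_, ?_⟩
    · obtain ⟨d, hd, rfl⟩ := List.mem_map.1 hb'
      simpa using hb1 d hd
    · rw [← List.map_flatten, f1]
      intro i hi
      obtain ⟨t, ht, rfl⟩ := List.mem_map.1 hi
      exact k1 t ht
    · rw [← List.map_flatten, f1, List.pairwise_map]; exact k2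
    · rw [← List.map_flatten, f2, List.pairwise_map]; exact k3
    · rw [← List.map_flatten, f1, List.length_map, List.length_map]; exact hk
  · rintro (h | ⟨P1, -, P2, -, c, -, h⟩)
    · obtain ⟨i, hi⟩ := List.exists_mem_of_ne_nil _ (by simpa using h : R x (x.2.2 + 1) ≠ [])
      exact big hi
    · exact ⟨_, _, h⟩

/-! ### running time -/

theorem pt_Y {α : Type} [Enc α] {x : α → Inst} {i : α → ℕ} (hx : PT x) (hi : PT i) :
    PT fun a => Y (x a) (i a) := by unfold Y; fun_prop

theorem pt_R {α : Type} [Enc α] {x : α → Inst} {r : α → ℕ} (hx : PT x) (hr : PT r) :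
    PT fun a => R (x a) (r a) := by
  have h0 : PT fun a => List.range (x a).1.length := by fun_prop
  exact PT.iterate (step := fun a => rstep (x a)) (by unfold rstep Y; fun_prop) hr h0 h0.pb
    fun a i _ => sz_le_of_sublist (R_sub _ _)

attribute [fun_prop] pt_Y pt_R

@[fun_prop] theorem pt_cls {α : Type} [Enc α] {x : α → Inst} {c i : α → ℕ} (hx : PT x) (hc : PT c)
    (hi : PT i) : PT fun a => cls (x a) (c a) (i a) := by unfold cls; fun_prop

@[fun_prop] theorem pt_prs {α : Type} [Enc α] {l : α → List ℕ} (hl : PT l) :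
    PT fun a => prs (l a) := by unfold prs; fun_prop

theorem pt_act : PT fun q : Inst × Gs × List ℕ × ℕ => act q.1 q.2.1 q.2.2.1 q.2.2.2 := by
  unfold act; fun_prop

theorem pt_step : PT fun q : (Inst × Gs) × List ℕ => step q.1.1 q.1.2 q.2 := by
  have h : PT fun r : ((Inst × Gs) × List ℕ) × ℕ => act r.1.1.1 r.1.1.2 r.1.2 r.2 :=
    pt_act.comp (g := fun r : ((Inst × Gs) × List ℕ) × ℕ => (r.1.1.1, r.1.1.2, r.1.2, r.2))
      (by fun_prop)
  unfold step
  refine PT.map (PT.ite h.decide_bool (by fun_prop) (by fun_prop)) (by fun_prop)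

theorem pt_fin : PT fun q : Inst × Gs => fin q.1 q.2 := by
  have hB : PT fun q : Inst × Gs => (q.1.2.2 + 1) * (2 * q.1.1.length + 1) := by fun_prop
  refine PT.iterate (step := fun q : Inst × Gs => step q.1 q.2) pt_step (by fun_prop) (by fun_prop)
    hB.nat_pb fun q i hi => ?_
  clear hi
  have : ((step q.1 q.2)^[i] (List.replicate (q.1.2.2 + 1) 0)).length = q.1.2.2 + 1 ∧
      ∀ t, ((step q.1 q.2)^[i] (List.replicate (q.1.2.2 + 1) 0)).getD t 0 ≤ q.1.1.length := by
    induction i with
    | zero =>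
      exact ⟨by simp, fun t => by
        simp [List.getD_eq_getElem?_getD, List.getElem?_replicate]; split_ifs <;> simp⟩
    | succ i ih => rw [iterate_succ_apply']; exact ⟨by simp [step], step_le ih.2⟩
  refine (sz_le_of_forall (B := q.1.1.length) fun a ha => ?_).trans (by rw [this.1])
  obtain ⟨t, ht, rfl⟩ := List.getElem_of_mem ha
  have := this.2 t
  simpa [List.getD_eq_getElem?_getD, ht] using this

theorem pt_chk : PT fun q : Inst × List (List ℕ) × List (List ℕ) => chk q.1 q.2.1 q.2.2 := by
  unfold chk; fun_prop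

theorem pt_good : PT fun q : Inst × List (List ℕ) × List (List ℕ) × List ℕ =>
    good q.1 q.2.1 q.2.2.1 q.2.2.2 := by
  have h1 : PT fun q : Inst × List (List ℕ) × List (List ℕ) × List ℕ =>
      fin q.1 (q.2.1.flatten, q.2.2.1.flatten, q.2.2.2) :=
    pt_fin.comp (g := fun q : Inst × List (List ℕ) × List (List ℕ) × List ℕ =>
      (q.1, (q.2.1.flatten, q.2.2.1.flatten, q.2.2.2))) (by fun_prop)
  have h2 : PT fun q : List (List ℕ) × List ℕ => q.1.map (List.map fun t => q.2.getD t 0) := by
    refine PT.map (f := fun (q : List (List ℕ) × List ℕ) (b : List ℕ) => b.map fun t => q.2.getD t 0)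
      (by fun_prop) (by fun_prop)
  exact pt_chk.comp (PT.mk (by fun_prop) (PT.mk (h2.comp (PT.mk (by fun_prop) h1))
    (h2.comp (PT.mk (by fun_prop) h1))))

theorem pt_dcd : PT fun q : Inst × List (List (List ℕ)) × List (List ℕ) => dcd q.1 q.2.1 q.2.2 := by
  unfold dcd
  refine PT.or (by fun_prop) (PT.any (PT.any (PT.any ?_ (by fun_prop)) (by fun_prop)) (by fun_prop))
  exact pt_good.comp (g := fun r : (((Inst × List (List (List ℕ)) × List (List ℕ)) ×
    List (List ℕ)) × List (List ℕ)) × List ℕ => (r.1.1.1.1, r.1.1.2, r.1.2, r.2)) (by fun_prop)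

theorem fpt : FPTOn IsPermInst MSR kOf := by
  have c1 : CB kOf fun x : Inst => x.2.2 + 1 := CB.par.add (CB.const 1)
  have cr : ∀ j, CB kOf fun x : Inst => sz (List.range (x.2.2 + j)) := fun j =>
    CB.pt (f := fun k : ℕ => List.range (k + j)) (by fun_prop) (g := kOf)
      (CB.par.mono fun a => by simp)
  have f1 : FT kOf fun x : Inst => x.2.2 + 1 := FT.of_pt (by fun_prop)
  have p0 : PT fun q : ℕ × List (List ℕ) => q.2.map (List.filter fun t => decide (t < q.1 + 1)) :=
    PT.map (f := fun (q : ℕ × List (List ℕ)) (b : List ℕ) => b.filter fun t => decide (t < q.1 + 1))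
      (by fun_prop) (by fun_prop)
  have p1 : PT fun q : List (List (List ℕ)) => q.map (List.filter fun b => !b.isEmpty) :=
    PT.map (f := fun (_ : List (List (List ℕ))) (b : List (List ℕ)) => b.filter fun b => !b.isEmpty)
      (by fun_prop) (by fun_prop)
  have a0 : FT kOf fun x : Inst => A0 x.2.2 :=
    (FT.comp p0 ((FT.of_pt (f := fun x : Inst => x.2.2) (by fun_prop)).mk
      (FT.words (FT.of_pt (by fun_prop)) f1 (cr 2) c1))).of_eq fun _ => rfl
  have b0 : CB kOf fun x : Inst => sz (A0 x.2.2) :=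
    CB.pt p0 (g := fun x : Inst => (x.2.2, words (List.range (x.2.2 + 2)) (x.2.2 + 1)))
      (CB.pair (CB.par.mono fun a => by simp [kOf]) (CB.words (cr 2) c1))
  have a1 : FT kOf fun x : Inst => A1 x.2.2 := (FT.comp p1 (FT.words a0 f1 b0 c1)).of_eq fun _ => rfl
  have a2 : FT kOf fun x : Inst => words (List.range (x.2.2 + 1)) (x.2.2 + 1) :=
    FT.words (FT.of_pt (by fun_prop)) f1 (cr 1) c1
  have h := FT.comp pt_dcd ((FT.of_pt PT.id').mk (a1.mk a2))
  exact h.fptOn fun x hx => (msr_iff hx).trans (dcd_iff x)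

end Pool.Agent.H22.MSR
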