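import Pool.Agent.H22.CT4
import Pool.Agent.H22.MSR2

/-! A bounded set that contains some solution. -/

namespace Pool.Agent.H22.CT

open Function Pool.Agent.H36.Par

def nbb (S : Set0) (z y : ℕ) : Bool :=
  decide (z < S.n) && decide (y < S.n) && !decide (z ∈ S.B) && !decide (y ∈ S.B) &&
    !decide (z = y) && (S.adj z y == S.σ)

theorem nbb_iff {S : Set0} {z y} : nbb S z y = true ↔ S.nb z y := by
  simp [nbb, Set0.nb, and_assoc]

def bstep (S : Set0) (L : List ℕ) : List ℕ :=
  (List.range S.n).filter fun y => L.any fun z => decide (z = y) || nbb S z y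

def ball (S : Set0) (i v : ℕ) : List ℕ := (bstep S)^[i] [v]

theorem mem_ball {S : Set0} {v} (hv : v < S.n) (i y) : y ∈ ball S i v ↔ D S.nb i v y := by
  induction i generalizing y with
  | zero => simp [ball, D, eq_comm]
  | succ i ih =>
    rw [ball, iterate_succ_apply', ← ball]
    simp only [bstep, List.mem_filter, List.mem_range, List.any_eq_true, Bool.or_eq_true,
      decide_eq_true_eq, nbb_iff, ih]
    exact ⟨fun h => h.2, fun h =>
      ⟨D.inv (P := (· < S.n)) (i := i + 1) (fun _ _ h => h.2.1) h hv, h⟩⟩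

theorem cntF (p : ℕ → Bool) (v : ℕ) :
    ((List.range v).filter p).length = ((Finset.range v).filter fun u => p u = true).card := by
  rw [← List.toFinset_card_of_nodup (List.nodup_range.filter _), List.toFinset_filter,
    List.toFinset_range]

theorem len_ball {S : Set0} {r}
    (hr : ∀ z, ((Finset.range S.n).filter fun y => nbb S z y = true).card ≤ r) (i v) :
    (ball S i v).length ≤ (r + 1) ^ i := by
  induction i with
  | zero => simp [ball]
  | succ i ih =>
    rw [ball, iterate_succ_apply', ← ball, bstep, cntF]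
    refine (Finset.card_le_card (t := (ball S i v).toFinset.biUnion fun z =>
      insert z ((Finset.range S.n).filter fun y => nbb S z y = true)) fun y hy => ?_).trans
      ((Finset.card_biUnion_le_card_mul _ _ (r + 1) fun z _ =>
        (Finset.card_insert_le _ _).trans (Nat.succ_le_succ (hr z))).trans ?_)
    · simp only [Finset.mem_filter, List.any_eq_true, Bool.or_eq_true, decide_eq_true_eq] at hy
      obtain ⟨h1, z, hz, h2⟩ := hy
      simp only [Finset.mem_biUnion, List.mem_toFinset, Finset.mem_insert, Finset.mem_filter]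
      exact ⟨z, hz, h2.imp Eq.symm fun h => ⟨h1, h⟩⟩
    · rw [pow_succ]; exact Nat.mul_le_mul_right _ ((List.toFinset_card_le _).trans ih)

def ty (S : Set0) (ρ v : ℕ) : List (List ℕ) := mat S.adj (v :: (S.B ++ ball S ρ v))

def MM (S : Set0) (ρ m : ℕ) : List ℕ :=
  (List.range S.n).filter fun v =>
    decide (((List.range v).filter fun u => decide (ty S ρ u = ty S ρ v)).length < m)

def ZZ (S : Set0) (ρ m : ℕ) : List ℕ := S.B ++ (MM S ρ m).flatMap (ball S ρ)

theorem len_ZZ {S : Set0} {ρ m β l : ℕ} (hβ : ∀ v, (ball S ρ v).length ≤ β)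
    (hl : 1 + S.B.length + β ≤ l) : (ZZ S ρ m).length ≤ S.B.length + m * (4 ^ l) ^ l * β := by
  have h1 : (MM S ρ m).length ≤ m * (4 ^ l) ^ l := by
    rw [MM, cntF]
    refine (Finset.card_le_mul_card_image (f := ty S ρ) _ m fun τ _ => ?_).trans
      (Nat.mul_le_mul_left _ ?_)
    · refine (Finset.card_le_card_of_injOn (t := Finset.range m)
        (fun v => ((Finset.range v).filter fun u => ty S ρ u = τ).card) (fun v hv => ?_) ?_).trans
        (by simp)
      · simp only [Finset.coe_filter, Finset.mem_filter, cntF, decide_eq_true_eq,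
          Set.mem_setOf_eq] at hv
        simpa [← hv.2] using hv.1.2
      · have key : ∀ a b, a < b → ty S ρ a = τ →
            ((Finset.range a).filter fun u => ty S ρ u = τ).card <
            ((Finset.range b).filter fun u => ty S ρ u = τ).card := fun a b hab ha =>
          Finset.card_lt_card ⟨Finset.filter_subset_filter _ (Finset.range_mono hab.le),
            fun h => by simpa using h (Finset.mem_filter.2 ⟨Finset.mem_range.2 hab, ha⟩)⟩
        intro a ha b hb e
        have ha' := (Finset.mem_filter.1 ha).2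
        have hb' := (Finset.mem_filter.1 hb).2
        rcases lt_trichotomy a b with h | h | h
        · exact absurd e (key a b h ha').ne
        · exact h
        · exact absurd e (key b a h hb').ne'
    · have h0 : ∀ b : List ℕ, b.length ≤ l → (∀ t ∈ b, t < 3) →
          b ∈ (words (List.range 4) l).map (List.filter fun t => decide (t < 3)) := fun b hb hb' =>
        MSR.pad _ 3 (by simp) (by simp) b hb fun a ha => by have := hb' a ha; simp; omega
      refine (Finset.card_le_card (t := ((words ((words (List.range 4) l).map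
        (List.filter fun t => decide (t < 3))) l).map
          (List.filter fun b => !b.isEmpty)).toFinset) fun τ hτ => ?_).trans
        ((List.toFinset_card_le _).trans (by simp [length_words]))
      obtain ⟨v, -, rfl⟩ := Finset.mem_image.1 hτ
      have := hβ v
      refine List.mem_toFinset.2 (MSR.pad _ [] (h0 _ (by simp) (by simp)) rfl _
        (by simp [ty, mat]; omega) fun b hb => ?_)
      obtain ⟨x, -, rfl⟩ := List.mem_map.1 hb
      refine ⟨h0 _ (by simp; omega) fun t ht => ?_, by simp⟩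
      obtain ⟨y, -, rfl⟩ := List.mem_map.1 ht
      unfold code; split_ifs
      · omega
      · have := Bool.toNat_le (S.adj x y); omega
  rw [ZZ, List.length_append, List.length_flatMap]
  refine Nat.add_le_add_left ((List.sum_le_card_nsmul _ β fun a ha => ?_).trans ?_) _
  · obtain ⟨v, -, rfl⟩ := List.mem_map.1 ha; exact hβ v
  · simpa using Nat.mul_le_mul_right β h1

abbrev NP (S : Set0) := NoP (· < S.n) fun a b => S.adj a b = true

theorem core (S : Set0) (hS : S.Ok) (k K β m m1 m2 : ℕ) (h1 h2 : ℕ → ℕ → Bool)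
    (hh1 : ∀ j, 0 < j → h1 0 j = S.σ ∧ h1 j 0 = S.σ) (hh2 : ∀ j, 0 < j → h2 0 j = S.σ ∧ h2 j 0 = S.σ)
    (hβ : ∀ v, (ball S (12 * k + 3) v).length ≤ β) (hm : K * β < m)
    (hbad : ∀ F : List (ℕ × ℕ), (∀ p ∈ F, S.adj p.1 p.2 = true) → F.length ≤ k → NP S m1 h1 F →
      NP S m2 h2 F → (∀ b ∈ S.B, Tch F b) ∧ ∃ Tp : Finset ℕ, Tp.card ≤ K ∧ ∀ t < S.n,
        (Tch F t ∨ (S.σ = false ∧ ∃ b ∈ S.B, ∀ w, E F b w → w ∈ S.B ∧ S.adj t w = false)) → t ∈ Tp) :
    ∀ (N : ℕ) (F : List (ℕ × ℕ)) (A : Finset ℕ), A.card ≤ N →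
      (∀ t, Tch F t → t ∉ ZZ S (12 * k + 3) m → t ∈ A) → (∀ p ∈ F, S.adj p.1 p.2 = true) →
      F.length ≤ k → NP S m1 h1 F → NP S m2 h2 F →
      ∃ F : List (ℕ × ℕ), (∀ p ∈ F, S.adj p.1 p.2 = true) ∧ F.length ≤ k ∧ NP S m1 h1 F ∧
        NP S m2 h2 F ∧ ∀ t, Tch F t → t ∈ ZZ S (12 * k + 3) m := by
  intro N
  induction N with
  | zero =>
    intro F A hA hT hF hk n1 n2
    refine ⟨F, hF, hk, n1, n2, fun t ht => by_contra fun h => ?_⟩
    have := Finset.card_pos.2 ⟨t, hT t ht h⟩; omega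
  | succ N ih =>
    intro F A hA hT hF hk n1 n2
    by_cases hall : ∀ t, Tch F t → t ∈ ZZ S (12 * k + 3) m
    · exact ⟨F, hF, hk, n1, n2, hall⟩
    push Not at hall
    obtain ⟨v, hv, hvZ⟩ := hall
    obtain ⟨hBT, Tp, hTp, hTp'⟩ := hbad F hF hk n1 n2
    have hvn : v < S.n := by
      obtain ⟨y, h | h⟩ := hv
      exacts [(hS.rg _ _ (hF _ h)).1, (hS.rg _ _ (hF _ h)).2.1]
    have hZ : ∀ u ∈ MM S (12 * k + 3) m, ∀ t, D S.nb (12 * k + 3) u t →
        t ∈ ZZ S (12 * k + 3) m := fun u hu t h => List.mem_append_right _ (List.mem_flatMap.2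
          ⟨u, hu, (mem_ball (List.mem_range.1 (List.mem_filter.1 hu).1) _ _).2 h⟩)
    let Bad := Tp.biUnion fun t => (ball S (12 * k + 3) t).toFinset
    have hBad : Bad.card < m := ((Finset.card_biUnion_le_card_mul _ _ β fun t _ =>
      (List.toFinset_card_le _).trans (hβ t)).trans (Nat.mul_le_mul_right _ hTp)).trans_lt hm
    have ex : ∃ u, u < S.n ∧ ty S (12 * k + 3) u = ty S (12 * k + 3) v ∧ u ∉ Bad := by
      have h3 : v ∉ MM S (12 * k + 3) m := fun h => hvZ (hZ v h v (D.self _ _))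
      simp only [MM, List.mem_filter, List.mem_range, hvn, true_and, cntF, decide_eq_true_eq,
        not_lt] at h3
      obtain ⟨u, hu, hu'⟩ := Finset.exists_mem_notMem_of_card_lt_card (hBad.trans_le h3)
      obtain ⟨h4, h5⟩ := Finset.mem_filter.1 hu
      exact ⟨u, (Finset.mem_range.1 h4).trans hvn, h5, hu'⟩
    classical
    obtain ⟨hn', hty, hB'⟩ := Nat.find_spec ex
    have hM : Nat.find ex ∈ MM S (12 * k + 3) m := by
      simp only [MM, List.mem_filter, List.mem_range, hn', true_and, cntF, decide_eq_true_eq]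
      refine (Finset.card_le_card fun u hu => ?_).trans_lt hBad
      obtain ⟨h4, h5⟩ := Finset.mem_filter.1 hu
      by_contra h6
      exact Nat.find_min ex (Finset.mem_range.1 h4)
        ⟨(Finset.mem_range.1 h4).trans hn', h5.trans hty, h6⟩
    obtain ⟨ψ, e1, e2, e3, e4⟩ := exchange S hS k F hF hk hBT v (Nat.find ex) hv
      (fun h => hvZ (List.mem_append_left _ h)) hn' _ _ (mem_ball hvn _) (mem_ball hn' _) hty.symm
      (fun t ht => by
        have htn : t < S.n := ht.inv (P := (· < S.n)) (fun _ _ h => h.2.1) hn'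
        have : t ∉ Tp := fun h => hB' (Finset.mem_biUnion.2 ⟨t, h, List.mem_toFinset.2
          ((mem_ball htn _ _).2 (ht.symm hS.nbs))⟩)
        exact ⟨fun h => this (hTp' t htn (Or.inl h)),
          fun hσ b hb h => this (hTp' t htn (Or.inr ⟨hσ, b, hb, h⟩))⟩)
    refine ih _ (A.erase v) (by rw [Finset.card_erase_of_mem (hT v hv hvZ)]; omega) ?_ e1
      (by simpa using hk) (e4 _ _ hh1 n1) (e4 _ _ hh2 n2)
    intro t ht hZt
    obtain ⟨s, hs, rfl⟩ := tch_map.1 ht
    have e5 : ψ s = s := (e2 s).resolve_right fun h => hZt (hZ _ hM _ h)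
    rw [e5] at hZt ⊢
    exact Finset.mem_erase.2 ⟨fun e => hZt (e5 ▸ e ▸ hZ _ hM _ e3), hT s hs hZt⟩

theorem ramsey (R : ℕ → ℕ → Bool) (hR : ∀ a b, R a b = R b a) : ∀ (N s t : ℕ), s + t = N →
    ∀ A : Finset ℕ, 2 ^ N ≤ A.card →
      (∃ C ⊆ A, C.card = s ∧ ∀ a ∈ C, ∀ b ∈ C, a ≠ b → R a b = false) ∨
      ∃ C ⊆ A, C.card = t ∧ ∀ a ∈ C, ∀ b ∈ C, a ≠ b → R a b = true := by
  intro N
  induction N with
  | zero => intro s t h A _; exact Or.inl ⟨∅, by simp, by simp; omega, by simp⟩
  | succ N ih =>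
    intro s t h A hA
    obtain _ | s := s
    · exact Or.inl ⟨∅, by simp, by simp, by simp⟩
    obtain _ | t := t
    · exact Or.inr ⟨∅, by simp, by simp, by simp⟩
    obtain ⟨v, hv⟩ : A.Nonempty := Finset.card_pos.1 (lt_of_lt_of_le (by positivity) hA)
    have h1 := Finset.card_filter_add_card_filter_not (s := A.erase v) fun a => R v a = true
    rw [Finset.card_erase_of_mem hv] at h1
    have ins : ∀ (c : Bool) (C : Finset ℕ), (∀ a ∈ C, a ∈ A.erase v ∧ R v a = c) →
        (∀ a ∈ C, ∀ b ∈ C, a ≠ b → R a b = c) → insert v C ⊆ A ∧ (insert v C).card = C.card + 1 ∧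
          ∀ a ∈ insert v C, ∀ b ∈ insert v C, a ≠ b → R a b = c := fun c C h2 h3 => by
      refine ⟨Finset.insert_subset hv fun a ha => Finset.mem_of_mem_erase (h2 a ha).1,
        Finset.card_insert_of_notMem fun h => by simpa using (h2 v h).1, fun a ha b hb hab => ?_⟩
      rcases Finset.mem_insert.1 ha with e1 | ha' <;> rcases Finset.mem_insert.1 hb with e2 | hb'
      · exact absurd (e1.trans e2.symm) hab
      · rw [e1]; exact (h2 b hb').2
      · rw [e2, hR]; exact (h2 a ha').2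
      · exact h3 a ha' b hb' hab
    rw [pow_succ] at hA
    by_cases e : 2 ^ N ≤ ((A.erase v).filter fun a => R v a = true).card
    · rcases ih (s + 1) t (by omega) _ e with ⟨C, h2, h3⟩ | ⟨C, h2, h3, h4⟩
      · exact Or.inl ⟨C, fun a ha => Finset.mem_of_mem_erase (Finset.mem_filter.1 (h2 ha)).1, h3⟩
      · exact Or.inr ⟨insert v C, h3 ▸ ins true C (fun a ha => Finset.mem_filter.1 (h2 ha)) h4⟩
    · rcases ih s (t + 1) (by omega) ((A.erase v).filter fun a => ¬ R v a = true) (by omega) with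
        ⟨C, h2, h3, h4⟩ | ⟨C, h2, h3⟩
      · exact Or.inl ⟨insert v C, h3 ▸ ins false C
          (fun a ha => by simpa using Finset.mem_filter.1 (h2 ha)) h4⟩
      · exact Or.inr ⟨C, fun a ha => Finset.mem_of_mem_erase (Finset.mem_filter.1 (h2 ha)).1, h3⟩

theorem consPat {n : ℕ} {adj : ℕ → ℕ → Bool} (hsy : ∀ a b, adj a b = adj b a) {F : List (ℕ × ℕ)}
    {m : ℕ} {h h' : ℕ → ℕ → Bool} {b0 : Bool} (hh : ∀ j, h 0 (j + 1) = b0 ∧ h (j + 1) 0 = b0)
    (hh' : ∀ i j, h (i + 1) (j + 1) = h' i j) {f : ℕ → ℕ}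
    (hf : Pat (· < n) (fun a b => adj a b = true) m h' F f) {c : ℕ} (hc : c < n)
    (h0 : ∀ i < m, ¬ E F c (f i) ∧ (QA (fun a b => adj a b = true) F c (f i) ↔ b0 = true)) :
    ∃ g, Pat (· < n) (fun a b => adj a b = true) (m + 1) h F g := by
  have hs : ∀ a b, adj a b = true → adj b a = true := fun a b e => hsy a b ▸ e
  refine ⟨fun i => Nat.casesOn i c f, fun i hi => ?_, fun i hi j hj hij => ?_⟩
  · cases i with
    | zero => exact hc
    | succ i => exact hf.1 i (by omega)
  · obtain _ | i := i <;> obtain _ | j := j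
    · exact absurd rfl hij
    · rw [(hh j).1]; exact h0 j (by omega)
    · rw [(hh i).2]
      have := h0 i (by omega)
      exact ⟨fun e => this.1 e.symm, ⟨fun q => this.2.1 (q.symm hs), fun q => (this.2.2 q).symm hs⟩⟩
    · rw [hh']; exact hf.2 i (by omega) j (by omega) (by omega)

theorem tailPat {n : ℕ} {adj : ℕ → ℕ → Prop} {F : List (ℕ × ℕ)} {m : ℕ} {h h' : ℕ → ℕ → Bool}
    (hh' : ∀ i j, h (i + 1) (j + 1) = h' i j) (hf : ∃ f, Pat (· < n) adj (m + 1) h F f) :
    ∃ g, Pat (· < n) adj m h' F g :=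
  let ⟨f, hf⟩ := hf
  ⟨fun i => f (i + 1), fun i hi => hf.1 _ (by omega), fun i hi j hj hij =>
    hh' i j ▸ hf.2 _ (by omega) _ (by omega) (by omega)⟩

theorem mkPat {n : ℕ} {adj : ℕ → ℕ → Bool} (hsy : ∀ a b, adj a b = adj b a) {F : List (ℕ × ℕ)}
    {m : ℕ} {h : ℕ → ℕ → Bool} {b0 b1 : Bool} (hh : ∀ j, h 0 (j + 1) = b0 ∧ h (j + 1) 0 = b0)
    (hh' : ∀ i j, h (i + 1) (j + 1) = b1) {c : ℕ} (hc : c < n) (C : Finset ℕ) (hC : C.card = m)
    (h1 : ∀ y ∈ C, y < n ∧ ¬ Tch F y ∧ y ≠ c ∧ (QA (fun a b => adj a b = true) F c y ↔ b0 = true))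
    (h2 : ∀ a ∈ C, ∀ b ∈ C, a ≠ b → adj a b = b1) :
    ∃ g, Pat (· < n) (fun a b => adj a b = true) (m + 1) h F g := by
  have hm : ∀ i < m, C.toList.getD i 0 ∈ C := fun i hi => by
    rw [List.getD_eq_getElem _ _ (by simpa [hC] using hi)]
    exact Finset.mem_toList.1 (List.getElem_mem _)
  refine consPat hsy hh (h' := fun _ _ => b1) hh' (f := fun i => C.toList.getD i 0)
    ⟨fun i hi => (h1 _ (hm i hi)).1, fun i hi j hj hij => ?_⟩ hc fun i hi =>
      ⟨fun e => (h1 _ (hm i hi)).2.1 (e.symm.tch' (h1 _ (hm i hi)).2.2.1), (h1 _ (hm i hi)).2.2.2⟩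
  have hne : C.toList.getD i 0 ≠ C.toList.getD j 0 := by
    rw [List.getD_eq_getElem _ _ (by simpa [hC] using hi),
      List.getD_eq_getElem _ _ (by simpa [hC] using hj)]
    exact fun e => hij ((List.Nodup.getElem_inj_iff C.nodup_toList).1 e)
  refine ⟨fun e => (h1 _ (hm i hi)).2.1 (e.tch' hne), ?_⟩
  rw [QA_single (h1 _ (hm i hi)).2.1 (h1 _ (hm j hj)).2.1, h2 _ (hm i hi) _ (hm j hj) hne]

end Pool.Agent.H22.CT
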