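import Pool.Agent.H22.CT5

/-! Structure of yes-instances: almost complete or of bounded degree. -/

namespace Pool.Agent.H22.CT

open Function Pool.Agent.H36.Par

def cf (_ _ : ℕ) : Bool := false
def ct (_ _ : ℕ) : Bool := true

abbrev NQ (n : ℕ) (adj : ℕ → ℕ → Bool) := NoP (· < n) fun a b => adj a b = true

def Val (n : ℕ) (adj : ℕ → ℕ → Bool) (k : ℕ) (F : List (ℕ × ℕ)) : Prop :=
  (∀ p ∈ F, adj p.1 p.2 = true) ∧ F.length ≤ k ∧ NQ n adj 5 hs F ∧ NQ n adj 4 ht F

section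
variable {n : ℕ} {adj : ℕ → ℕ → Bool} {F : List (ℕ × ℕ)}

theorem ht0 (j : ℕ) : ht 0 j = false ∧ ht j 0 = false := by simp [ht]
theorem hs0 (j : ℕ) : hs 0 j = true ∧ hs j 0 = true := by simp [hs]

theorem dense1 (hsy : ∀ a b, adj a b = adj b a) (n1 : NQ n adj 5 hs F) (n2 : NQ n adj 4 ht F)
    (Q : Finset ℕ) (hQ : Q.card = 13) (h1 : ∀ q ∈ Q, q < n ∧ ¬ Tch F q)
    (h2 : ∀ a ∈ Q, ∀ b ∈ Q, a ≠ b → adj a b = true) : NQ n adj 4 cf F := by
  classical
  rintro ⟨f, hf⟩
  have key : ∀ c < n, (Q.filter fun q => q = c ∨ ¬ QA (fun a b => adj a b = true) F c q).card ≤ 3 := by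
    intro c hc
    have : (Q.filter fun q => q ≠ c ∧ ¬ QA (fun a b => adj a b = true) F c q).card ≤ 2 := by
      by_contra h
      obtain ⟨C, h3, h4⟩ := Finset.exists_subset_card_eq (n := 3) (not_le.1 h)
      refine n2 (mkPat hsy (b0 := false) (b1 := true) (fun j => ht0 _) (by simp [ht]) hc C h4
        (fun y hy => ?_) fun a ha b hb => h2 a (Finset.mem_filter.1 (h3 ha)).1 b
          (Finset.mem_filter.1 (h3 hb)).1)
      obtain ⟨h5, h6, h7⟩ := Finset.mem_filter.1 (h3 hy)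
      exact ⟨(h1 y h5).1, (h1 y h5).2, h6, by simpa using h7⟩
    refine (Finset.card_le_card (t := insert c
      (Q.filter fun q => q ≠ c ∧ ¬ QA (fun a b => adj a b = true) F c q)) fun q hq => ?_).trans
      ((Finset.card_insert_le _ _).trans (by omega))
    simp only [Finset.mem_insert, Finset.mem_filter] at hq ⊢
    tauto
  obtain ⟨q, hq, hq'⟩ := Finset.exists_mem_notMem_of_card_lt_card (t := Q)
    (s := (Finset.range 4).biUnion fun i =>
      Q.filter fun q => q = f i ∨ ¬ QA (fun a b => adj a b = true) F (f i) q)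
    ((Finset.card_biUnion_le_card_mul _ _ 3 fun i hi =>
      key _ (hf.1 i (Finset.mem_range.1 hi))).trans_lt (by simp [hQ]))
  simp only [Finset.mem_biUnion, Finset.mem_range, Finset.mem_filter, hq, true_and, not_exists,
    not_and, not_or, not_not] at hq'
  refine n1 (consPat hsy (b0 := true) (fun j => hs0 _) (h' := cf) (by simp [hs, cf]) hf (h1 q hq).1
    fun i hi => ⟨fun e => (hq' i hi).1 (e.single (h1 q hq).2).symm, iff_of_true
      ((hq' i hi).2.symm fun a b e => hsy a b ▸ e) rfl⟩)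

open Classical in
noncomputable def UU (n : ℕ) (adj : ℕ → ℕ → Bool) (F : List (ℕ × ℕ)) (c : ℕ) : Finset ℕ :=
  (Finset.range n).filter fun y => ¬ Tch F y ∧ y ≠ c ∧ ¬ QA (fun a b => adj a b = true) F c y

theorem dense2 (hsy : ∀ a b, adj a b = adj b a) (n1 : NQ n adj 4 cf F) (n2 : NQ n adj 4 ht F)
    {c : ℕ} (hc : c < n) : (UU n adj F c).card ≤ 64 := by
  by_contra h
  have hm : ∀ y ∈ UU n adj F c, y < n ∧ ¬ Tch F y ∧ y ≠ c ∧
      (QA (fun a b => adj a b = true) F c y ↔ false = true) := fun y hy => by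
    simpa [UU] using hy
  rcases ramsey adj hsy 6 3 3 rfl (UU n adj F c) (by omega) with ⟨C, h1, h2, h3⟩ | ⟨C, h1, h2, h3⟩
  · exact n1 (mkPat hsy (b0 := false) (b1 := false) (by simp [cf]) (by simp [cf]) hc C h2
      (fun y hy => hm y (h1 hy)) h3)
  · exact n2 (mkPat hsy (b0 := false) (b1 := true) (fun j => ht0 _) (by simp [ht]) hc C h2
      (fun y hy => hm y (h1 hy)) h3)

def nonb (n : ℕ) (adj : ℕ → ℕ → Bool) (b : ℕ) : List ℕ :=
  (List.range n).filter fun y => !decide (y = b) && !adj b y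

def BB (n : ℕ) (adj : ℕ → ℕ → Bool) (r : ℕ) : List ℕ :=
  (List.range n).filter fun b => decide (r < (nonb n adj b).length)

theorem dense3 (hsy : ∀ a b, adj a b = adj b a) (n1 : NQ n adj 4 cf F) (n2 : NQ n adj 4 ht F)
    {k r : ℕ} (hk : F.length ≤ k) (hr : 2 * k + 64 ≤ r) : ∀ b ∈ BB n adj r, Tch F b := by
  intro b hb
  by_contra h
  simp only [BB, List.mem_filter, List.mem_range, decide_eq_true_eq, nonb, cntF] at hb
  obtain ⟨T, h1, h2⟩ := tch_card F
  have h3 := dense2 hsy n1 n2 hb.1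
  have h4 := Finset.card_union_le T (UU n adj F b)
  have h5 := Finset.card_le_card (s := (Finset.range n).filter
    fun u => (!decide (u = b) && !adj b u) = true) (t := T ∪ UU n adj F b) fun y hy => by
      by_cases e : Tch F y
      · exact Finset.mem_union_left _ ((h2 y).2 e)
      · refine Finset.mem_union_right _ ?_
        simp only [UU, Finset.mem_filter, QA_single h e]
        simp only [Finset.mem_filter, Bool.and_eq_true, Bool.not_eq_true', decide_eq_false_iff_not] at hy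
        exact ⟨hy.1, e, hy.2.1, by simp [hy.2.2]⟩
  have := hb.2
  omega

theorem len_BB {k r : ℕ} (hk : F.length ≤ k) (h : ∀ b ∈ BB n adj r, Tch F b) :
    (BB n adj r).length ≤ 2 * k := by
  obtain ⟨T, h1, h2⟩ := tch_card F
  rw [← List.toFinset_card_of_nodup (show (BB n adj r).Nodup from List.nodup_range.filter _)]
  exact (Finset.card_le_card fun b hb => (h2 b).2 (h b (List.mem_toFinset.1 hb))).trans (by omega)

theorem sparse1 (hsy : ∀ a b, adj a b = adj b a)
    (hrg : ∀ x y, adj x y = true → x < n ∧ y < n ∧ x ≠ y) (n1 : NQ n adj 5 hs F)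
    (hQ : ¬ ∃ Q : Finset ℕ, Q.card = 13 ∧ (∀ q ∈ Q, q < n ∧ ¬ Tch F q) ∧
      ∀ a ∈ Q, ∀ b ∈ Q, a ≠ b → adj a b = true) {k : ℕ} (hk : F.length ≤ k) (z : ℕ) :
    ((Finset.range n).filter fun y => adj z y = true).card ≤ 2 ^ 17 + 2 * k := by
  obtain ⟨T, h1, h2⟩ := tch_card F
  by_contra h
  have h3 := Finset.le_card_sdiff T ((Finset.range n).filter fun y => adj z y = true)
  have hm : ∀ y ∈ ((Finset.range n).filter fun y => adj z y = true) \ T,
      adj z y = true ∧ ¬ Tch F y := fun y hy => by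
    simp only [Finset.mem_sdiff, Finset.mem_filter, h2] at hy
    exact ⟨hy.1.2, hy.2⟩
  rcases ramsey adj hsy 17 4 13 rfl (((Finset.range n).filter fun y => adj z y = true) \ T)
    (by omega) with ⟨C, h4, h5, h6⟩ | ⟨C, h4, h5, h6⟩
  · obtain ⟨y0, hy0⟩ : C.Nonempty := Finset.card_pos.1 (by omega)
    exact n1 (mkPat hsy (b0 := true) (b1 := false) (fun j => hs0 _) (by simp [hs])
      (hrg _ _ (hm _ (h4 hy0)).1).1 C h5 (fun y hy => ⟨(hrg _ _ (hm _ (h4 hy)).1).2.1,
        (hm _ (h4 hy)).2, (hrg _ _ (hm _ (h4 hy)).1).2.2.symm,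
        iff_of_true (QA.of (hm _ (h4 hy)).1) rfl⟩) h6)
  · exact hQ ⟨C, h5, fun q hq => ⟨(hrg _ _ (hm _ (h4 hq)).1).2.1, (hm _ (h4 hq)).2⟩, h6⟩

theorem sparse2 (hsy : ∀ a b, adj a b = adj b a) (n2 : NQ n adj 4 ht F) {k r : ℕ}
    (hk : F.length ≤ k) (hr : ∀ z, ((Finset.range n).filter fun y => adj z y = true).card ≤ r)
    (hn : (2 * k + 3) * (r + 1) < n) : NQ n adj 3 ct F := by
  rintro ⟨f, hf⟩
  obtain ⟨T, h1, h2⟩ := tch_card F
  have h3 : (T ∪ (Finset.range 3).image f).card ≤ 2 * k + 3 :=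
    (Finset.card_union_le _ _).trans (by
      have := Finset.card_image_le (s := Finset.range 3) (f := f)
      rw [Finset.card_range] at this; omega)
  obtain ⟨d, hd, hd'⟩ := Finset.exists_mem_notMem_of_card_lt_card (t := Finset.range n)
    (s := (T ∪ (Finset.range 3).image f).biUnion fun w =>
      insert w ((Finset.range n).filter fun y => adj w y = true))
    (((Finset.card_biUnion_le_card_mul _ _ (r + 1) fun w _ =>
      (Finset.card_insert_le _ _).trans (Nat.succ_le_succ (hr w))).trans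
        (Nat.mul_le_mul_right _ h3)).trans_lt (by simpa using hn))
  simp only [Finset.mem_biUnion, Finset.mem_insert, Finset.mem_filter, hd, true_and, not_exists,
    not_and, not_or] at hd'
  have hdT : ¬ Tch F d := fun h => (hd' d (Finset.mem_union_left _ ((h2 d).2 h))).1 rfl
  have hfi : ∀ i < 3, f i ∈ T ∪ (Finset.range 3).image f := fun i hi =>
    Finset.mem_union_right _ (Finset.mem_image_of_mem _ (Finset.mem_range.2 hi))
  refine n2 (consPat hsy (b0 := false) (fun j => ht0 _) (h' := ct) (by simp [ht, ct]) hf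
    (Finset.mem_range.1 hd) fun i hi => ⟨fun e => (hd' _ (hfi i hi)).1 (e.single hdT).symm,
      iff_of_false ?_ (by simp)⟩)
  rintro ⟨u, v, e1, e2, e3⟩
  obtain rfl := e1.single hdT
  refine (hd' v ?_).2 (hsy _ _ ▸ e3)
  by_cases e : v = f i
  · exact e ▸ hfi i hi
  · exact Finset.mem_union_left _ ((h2 v).2 (e2.symm.tch' e))

end

def rr (k : ℕ) : ℕ := 2 ^ 17 + 2 * k
def mm (k β : ℕ) : ℕ := (2 * k + 2 * k * 64) * β + 1
def ex (k β : ℕ) : ℕ :=
  2 * k + (mm k β + 2 * (1 + 2 * k + β) * (1 + 2 * k + β) + β) + (2 * k + 3) * (rr k + 1)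

def Zs (n : ℕ) (adj : ℕ → ℕ → Bool) (k β : ℕ) : List (List ℕ) :=
  [List.range n, ZZ ⟨n, adj, [], true⟩ (12 * k + 3) (mm k β),
    ZZ ⟨n, adj, BB n adj (rr k), false⟩ (12 * k + 3) (mm k β)]

theorem bnd (k β b : ℕ) (hb : b ≤ 2 * k) :
    b + mm k β * (4 ^ (1 + 2 * k + β)) ^ (1 + 2 * k + β) * β ≤ 2 ^ ex k β := by
  have h1 : mm k β * (4 ^ (1 + 2 * k + β)) ^ (1 + 2 * k + β) * β ≤
      2 ^ (mm k β + 2 * (1 + 2 * k + β) * (1 + 2 * k + β) + β) := by
    rw [pow_add 2, pow_add 2 (mm k β), pow_mul, pow_mul]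
    exact Nat.mul_le_mul (Nat.mul_le_mul_right _ Nat.lt_two_pow_self.le) Nat.lt_two_pow_self.le
  refine le_trans ?_ (Nat.pow_le_pow_right (by omega) (Nat.le_add_right _ _))
  rw [pow_add 2]
  have h2 : 2 * k < 2 ^ (2 * k) := Nat.lt_two_pow_self
  have h3 : 0 < 2 ^ (mm k β + 2 * (1 + 2 * k + β) * (1 + 2 * k + β) + β) := by positivity
  generalize 2 ^ (mm k β + 2 * (1 + 2 * k + β) * (1 + 2 * k + β) + β) = X at h1 h3 ⊢
  nlinarith

theorem small {n : ℕ} {adj : ℕ → ℕ → Bool} (hsy : ∀ a b, adj a b = adj b a)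
    (hrg : ∀ x y, adj x y = true → x < n ∧ y < n ∧ x ≠ y) {k β : ℕ}
    (hβ : (rr k + 1) ^ (12 * k + 3) ≤ β) {F} (h : Val n adj k F) :
    ∃ Z ∈ Zs n adj k β, Z.length ≤ 2 ^ ex k β ∧ ∃ F, Val n adj k F ∧ ∀ t, Tch F t → t ∈ Z := by
  classical
  obtain ⟨hF, hk, n1, n2⟩ := h
  obtain ⟨T, hT1, hT2⟩ := tch_card F
  by_cases hQ : ∃ Q : Finset ℕ, Q.card = 13 ∧ (∀ q ∈ Q, q < n ∧ ¬ Tch F q) ∧
      ∀ a ∈ Q, ∀ b ∈ Q, a ≠ b → adj a b = true
  · obtain ⟨Q, q1, q2, q3⟩ := hQ
    have n3 := dense1 hsy n1 n2 Q q1 q2 q3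
    have hr : 2 * k + 64 ≤ rr k := by unfold rr; omega
    have hl := len_BB hk (dense3 hsy n3 n2 hk hr)
    let S : Set0 := ⟨n, adj, BB n adj (rr k), false⟩
    have hS : S.Ok := ⟨hsy, hrg, fun b hb => List.mem_range.1 (List.mem_filter.1 hb).1,
      fun h => absurd h (by simp [S])⟩
    have hb : ∀ v, (ball S (12 * k + 3) v).length ≤ β := fun v =>
      (len_ball (r := rr k) (fun z => by
        by_cases e : z < n ∧ z ∉ BB n adj (rr k)
        · have h1 := e.2
          simp only [BB, List.mem_filter, List.mem_range, e.1, true_and, decide_eq_true_eq, nonb,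
            cntF, not_lt] at h1
          refine le_trans (Finset.card_le_card fun y hy => ?_) h1
          simp only [Finset.mem_filter, nbb_iff] at hy
          have h2 : adj z y = false := hy.2.2.2.2.2.2
          have h3 : y < n := Finset.mem_range.1 hy.1
          simp [h2, hy.2.2.2.2.2.1.symm, h3]
        · rw [Finset.filter_eq_empty_iff.2 fun y _ h => e ⟨(nbb_iff.1 h).1, (nbb_iff.1 h).2.2.1⟩]
          simp) _ _).trans hβ
    obtain ⟨F', a1, a2, a3, a4, a5⟩ := core S hS k (2 * k + 2 * k * 64) β (mm k β) 4 4 cf ht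
      (fun j _ => ⟨rfl, rfl⟩) (fun j _ => ht0 j) hb (Nat.lt_succ_self _) (fun F hF hk n1 n2 => by
        have h1 := dense3 hsy n1 n2 hk hr
        obtain ⟨T, hT1, hT2⟩ := tch_card F
        refine ⟨h1, T ∪ (BB n adj (rr k)).toFinset.biUnion (UU n adj F), ?_, ?_⟩
        · refine (Finset.card_union_le _ _).trans (Nat.add_le_add (by omega)
            ((Finset.card_biUnion_le_card_mul _ _ 64 fun b hb => dense2 hsy n1 n2
              (hS.hB b (List.mem_toFinset.1 hb))).trans (Nat.mul_le_mul_right _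
                ((List.toFinset_card_le _).trans hl))))
        · intro t ht h
          by_cases e : Tch F t
          · exact Finset.mem_union_left _ ((hT2 t).2 e)
          · obtain ⟨-, b, hb, h⟩ := h.resolve_left e
            refine Finset.mem_union_right _ (Finset.mem_biUnion.2 ⟨b, List.mem_toFinset.2 hb, ?_⟩)
            simp only [UU, Finset.mem_filter, QA_single' e, Finset.mem_range]
            refine ⟨ht, e, fun e' => e (e' ▸ h1 b hb), fun ⟨u, e1, e2⟩ => ?_⟩
            have : adj t u = false := (h u e1).2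
            rw [hsy, e2] at this
            exact absurd this (by simp))
      _ F T le_rfl (fun t ht _ => (hT2 t).2 ht) hF hk n3 n2
    exact ⟨_, by simp [Zs, S], (len_ZZ hb (l := 1 + 2 * k + β) (by simp only [S]; omega)).trans
      (bnd k β _ hl), F', ⟨a1, a2, fun h => a3 (tailPat (by simp [hs, cf]) h), a4⟩, a5⟩
  have hr := sparse1 hsy hrg n1 hQ hk
  by_cases hn : n ≤ (2 * k + 3) * (rr k + 1)
  · refine ⟨List.range n, by simp [Zs], ?_, F, ⟨hF, hk, n1, n2⟩, fun t ⟨y, h⟩ => List.mem_range.2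
      (h.elim (fun h => (hrg _ _ (hF _ h)).1) fun h => (hrg _ _ (hF _ h)).2.1)⟩
    rw [List.length_range]
    exact (hn.trans (Nat.le_add_left _ _)).trans Nat.lt_two_pow_self.le
  have n3 := sparse2 hsy n2 hk hr (not_le.1 hn)
  let S : Set0 := ⟨n, adj, [], true⟩
  have hS : S.Ok := ⟨hsy, hrg, by simp [S], fun _ => rfl⟩
  have hb : ∀ v, (ball S (12 * k + 3) v).length ≤ β := fun v =>
    (len_ball (r := rr k) (fun z => le_trans (Finset.card_le_card fun y hy => by
      simp only [Finset.mem_filter, nbb_iff] at hy ⊢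
      exact ⟨hy.1, hy.2.2.2.2.2.2⟩) (hr z)) _ _).trans hβ
  obtain ⟨F', a1, a2, a3, a4, a5⟩ := core S hS k (2 * k + 2 * k * 64) β (mm k β) 5 3 hs ct
    (fun j _ => hs0 j) (fun j _ => ⟨rfl, rfl⟩) hb (Nat.lt_succ_self _) (fun F hF hk n1 n2 => by
      obtain ⟨T, hT1, hT2⟩ := tch_card F
      exact ⟨by simp [S], T, by omega, fun t _ h => (hT2 t).2 (h.resolve_right (by simp [S]))⟩)
    _ F T le_rfl (fun t ht _ => (hT2 t).2 ht) hF hk n1 n3
  exact ⟨_, by simp [Zs, S], (len_ZZ hb (l := 1 + 2 * k + β) (by simp only [S]; simp)).trans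
    (bnd k β _ (Nat.zero_le _)), F', ⟨a1, a2, a3, fun h => a4 (tailPat (by simp [ht, ct]) h)⟩, a5⟩

end Pool.Agent.H22.CT
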