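import Pool.Agent.H22.CT6
import Pool.Agent.H22.CT3

/-! The decision procedure and its running time. -/

namespace Pool.Agent.H22.CT

open Function Pool.Agent.H36.Par Pool.Agent.H38.NP

abbrev Ed := List (ℕ × ℕ)

def adjN (n : ℕ) (L : Ed) (u w : ℕ) : Bool :=
  decide (u < n) && decide (w < n) && !decide (u = w) && (decide ((u, w) ∈ L) || decide ((w, u) ∈ L))

theorem adjN_iff {n L u w} : adjN n L u w = true ↔
    u < n ∧ w < n ∧ u ≠ w ∧ ((u, w) ∈ L ∨ (w, u) ∈ L) := by simp [adjN, and_assoc]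

theorem adjN_sy (n L) (u w) : adjN n L u w = adjN n L w u := by
  rw [Bool.eq_iff_iff, adjN_iff, adjN_iff]; tauto

theorem adjN_rg (n L) (u w) (h : adjN n L u w = true) : u < n ∧ w < n ∧ u ≠ w :=
  let h := adjN_iff.1 h; ⟨h.1, h.2.1, h.2.2.1⟩

abbrev Dt := ℕ × Ed × List ℕ × Bool

def toS (d : Dt) : Set0 := ⟨d.1, adjN d.1 d.2.1, d.2.2.1, d.2.2.2⟩

def ballD (d : Dt) (i v : ℕ) : List ℕ := ball (toS d) i v

def cl (n : ℕ) (F : Ed) (a : ℕ) : List ℕ := ballD (n, F, [], true) (2 * F.length) a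

theorem mem_cl {n : ℕ} {F : Ed} (hF : ∀ p ∈ F, p.1 < n ∧ p.2 < n) {a : ℕ} (ha : a < n) (b : ℕ) :
    b ∈ cl n F a ↔ E F a b := by
  classical
  rw [cl, ballD, mem_ball (S := toS (n, F, [], true)) ha]
  set S := toS (n, F, [], true)
  constructor
  · generalize 2 * F.length = i
    intro h
    induction i generalizing b with
    | zero => exact h ▸ E.refl _ _
    | succ i ih =>
      obtain ⟨z, h1, rfl | h2⟩ := h
      · exact ih _ h1
      · exact (ih _ h1).trans (E.one (adjN_iff.1 h2.2.2.2.2.2).2.2.2)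
  · intro e
    obtain ⟨i, hi, h⟩ := avoid F le_rfl fun t =>
      if h : ∃ j, D S.nb j a t then Nat.find h - 1 else 0
    have hg : ∀ t, Tch F t → D S.nb (i + 1) a t → D S.nb i a t := fun t ht hd => by
      have ex : ∃ j, D S.nb j a t := ⟨i + 1, hd⟩
      have h1 := h t ht
      rw [dif_pos ex] at h1
      have h2 : Nat.find ex ≤ i + 1 := Nat.find_min' ex hd
      exact (Nat.find_spec ex).mono (by omega)
    refine (e.closed (P := D S.nb i a) (D.self _ _) fun c d hc hcd => ?_).mono (by omega)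
    by_cases e' : c = d
    · exact e' ▸ hc
    have h1 : c < n ∧ d < n := hcd.elim (hF _) fun h => (hF _ h).symm
    exact hg d ⟨c, hcd.symm⟩ (hc.step ⟨h1.1, h1.2, by simp [S, toS], by simp [S, toS], e',
      adjN_iff.2 ⟨h1.1, h1.2, e', hcd⟩⟩)

def cel (n : ℕ) (L F : Ed) (a b : ℕ) (c : Bool) : Bool :=
  !decide (b ∈ cl n F a) && (((cl n F a).any fun u => (cl n F b).any fun v => adjN n L u v) == c)

def patb (m : ℕ) (h : ℕ → ℕ → Bool) (n : ℕ) (L F : Ed) : Bool :=
  (words (List.range n) m).any fun f => (List.range m).all fun i => (List.range m).all fun j =>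
    decide (i = j) || cel n L F (f.getD i 0) (f.getD j 0) (h i j)

theorem patb_iff {m h n L F} (hF : ∀ p ∈ F, p.1 < n ∧ p.2 < n) :
    patb m h n L F = false ↔ NQ n (adjN n L) m h F := by
  have hc : ∀ a < n, ∀ b < n, ∀ c, cel n L F a b c = true ↔
      ¬ E F a b ∧ (QA (fun a b => adjN n L a b = true) F a b ↔ c = true) := fun a ha b hb c => by
    simp only [cel, Bool.and_eq_true, Bool.not_eq_true', decide_eq_false_iff_not, beq_iff_eq,
      mem_cl hF ha]
    refine and_congr_right fun _ => ?_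
    rw [Bool.eq_iff_iff]
    simp only [List.any_eq_true, mem_cl hF ha, mem_cl hF hb, QA]
    refine iff_congr ⟨fun ⟨u, h1, v, h2, h3⟩ => ⟨u, v, h1, h2, h3⟩,
      fun ⟨u, v, h1, h2, h3⟩ => ⟨u, h1, v, h2, h3⟩⟩ Iff.rfl
  rw [← Bool.not_eq_true]
  refine not_congr ?_
  simp only [patb, List.any_eq_true, List.all_eq_true, List.mem_range, mem_words, Bool.or_eq_true,
    decide_eq_true_eq]
  constructor
  · rintro ⟨f, ⟨h1, h2⟩, h3⟩
    have h4 : ∀ i < m, f.getD i 0 < n := fun i hi => by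
      rw [List.getD_eq_getElem _ _ (by omega)]; exact h2 _ (List.getElem_mem _)
    exact ⟨fun i => f.getD i 0, h4, fun i hi j hj hij =>
      (hc _ (h4 i hi) _ (h4 j hj) _).1 ((h3 i hi j hj).resolve_left hij)⟩
  · rintro ⟨f, h1, h2⟩
    have h4 : ∀ i < m, ((List.range m).map f).getD i 0 = f i := fun i hi => by
      simp [List.getD_eq_getElem?_getD, hi]
    refine ⟨(List.range m).map f, ⟨by simp, by simpa using h1⟩, fun i hi j hj => ?_⟩
    rw [h4 i hi, h4 j hj, hc _ (h1 i hi) _ (h1 j hj)]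
    exact (em _).imp_right (h2 i hi j hj)

def cand (n : ℕ) (L : Ed) (Z : List ℕ) (w : Ed) : Ed :=
  (w.filter fun q => adjN n L (Z.getD q.1 0) (Z.getD q.2 0)).map fun q => (Z.getD q.1 0, Z.getD q.2 0)

def chk (n : ℕ) (L F : Ed) : Bool := !patb 5 hs n L F && !patb 4 ht n L F

def dcd (x : GK) (β : ℕ) (W : List Ed) : Bool :=
  (Zs x.1 (adjN x.1 x.2.1) x.2.2 β).any fun Z => W.any fun w => chk x.1 x.2.1 (cand x.1 x.2.1 Z w)

def be (k : ℕ) : ℕ := 2 ^ ((rr k + 1) * (12 * k + 3))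
def AA (N : ℕ) : Ed := (List.range N).product (List.range N)

theorem dcd_iff (x : GK) : Con₂ star4 triK1 x ↔
    dcd x (be x.2.2) (words (AA (2 ^ ex x.2.2 (be x.2.2))) x.2.2) = true := by
  obtain ⟨n, L, k⟩ := x
  have hb := bridge (graphOf n L) k Fin.val Fin.val_injective (· < n)
    (fun a b => adjN n L a b = true) (fun x => ⟨fun h => ⟨⟨x, h⟩, rfl⟩, fun ⟨u, h⟩ => h ▸ u.2⟩)
    (fun u v => by simp [adjN_iff, graphOf_adj, Fin.ext_iff])
    (fun x y h => ⟨(adjN_rg _ _ _ _ h).1, (adjN_rg _ _ _ _ h).2.1⟩) True True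
  simp only [forall_true_left] at hb
  refine hb.trans ?_
  have hc : ∀ F : Ed, (∀ p ∈ F, adjN n L p.1 p.2 = true) → (chk n L F = true ↔
      NQ n (adjN n L) 5 hs F ∧ NQ n (adjN n L) 4 ht F) := fun F hF => by
    have := fun p hp => (adjN_rg n L _ _ (hF p hp)).imp_right And.left
    simp only [chk, Bool.and_eq_true, Bool.not_eq_true', patb_iff this]
  simp only [dcd, List.any_eq_true]
  constructor
  · rintro ⟨F, hF⟩
    obtain ⟨Z, hZ, hl, F, ⟨h1, h2, h3⟩, h4⟩ := small (adjN_sy n L) (adjN_rg n L) (β := be k) (by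
      rw [be, pow_mul]; exact Nat.pow_le_pow_left Nat.lt_two_pow_self.le _) hF
    have hg : ∀ t, Tch F t → Z.idxOf t < 2 ^ ex k (be k) ∧ Z.getD (Z.idxOf t) 0 = t := fun t ht =>
      ⟨(List.idxOf_lt_length_of_mem (h4 t ht)).trans_le hl, by
        simp [List.getD_eq_getElem?_getD, List.idxOf_lt_length_of_mem (h4 t ht)]⟩
    have hg1 := fun p (hp : p ∈ F) => hg p.1 ⟨p.2, Or.inl hp⟩
    have hg2 := fun p (hp : p ∈ F) => hg p.2 ⟨p.1, Or.inr hp⟩
    obtain ⟨w, hw, e⟩ := List.mem_map.1 (MSR.pad (A := AA (2 ^ ex k (be k))) (M := k)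
      (fun q => adjN n L (Z.getD q.1 0) (Z.getD q.2 0)) (0, 0) (by simp [AA]) (by simp [adjN])
      (F.map fun p => (Z.idxOf p.1, Z.idxOf p.2)) (by simpa using h2) fun a ha => by
        obtain ⟨p, hp, rfl⟩ := List.mem_map.1 ha
        refine ⟨by simp [AA, (hg1 p hp).1, (hg2 p hp).1], ?_⟩
        simp only [(hg1 p hp).2, (hg2 p hp).2, h1 p hp])
    refine ⟨Z, hZ, w, hw, ?_⟩
    have : cand n L Z w = F := by
      rw [cand, e, List.map_map]
      conv_rhs => rw [← List.map_id F]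
      exact List.map_congr_left fun p hp => Prod.ext (hg1 p hp).2 (hg2 p hp).2
    rw [this]
    exact (hc F h1).2 h3
  · rintro ⟨Z, -, w, hw, h⟩
    have h1 : ∀ p ∈ cand n L Z w, adjN n L p.1 p.2 = true := fun p hp => by
      obtain ⟨q, hq, rfl⟩ := List.mem_map.1 hp
      exact (List.mem_filter.1 hq).2
    refine ⟨_, h1, ?_, (hc _ h1).1 h⟩
    rw [cand, List.length_map]
    exact (List.length_filter_le _ _).trans (mem_words.1 hw).1.le

/-! ### running time -/

section
variable {α : Type} [Enc α]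

@[fun_prop] theorem pt_adjN {n : α → ℕ} {L : α → Ed} {u w : α → ℕ} (h1 : PT n) (h2 : PT L)
    (h3 : PT u) (h4 : PT w) : PT fun a => adjN (n a) (L a) (u a) (w a) := by
  unfold adjN; fun_prop

theorem pt_bstep : PT fun q : Dt × List ℕ => bstep (toS q.1) q.2 := by
  unfold bstep nbb toS
  simp only [Bool.beq_eq_decide_eq]
  fun_prop

@[fun_prop] theorem pt_ballD {d : α → Dt} {i v : α → ℕ} (h1 : PT d) (h2 : PT i) (h3 : PT v) :
    PT fun a => ballD (d a) (i a) (v a) := by
  have h0 : PT fun a => [v a] := by fun_prop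
  have h4 : PT fun a => List.range (d a).1 := by fun_prop
  refine PT.iterate (step := fun a => bstep (toS (d a)))
    (pt_bstep.comp (g := fun p : α × List ℕ => (d p.1, p.2)) (by fun_prop)) h2 h0
    (h0.pb.add h4.pb) fun a i _ => ?_
  cases i with
  | zero => simp
  | succ i =>
    rw [iterate_succ_apply']
    exact (sz_le_of_sublist List.filter_sublist).trans (Nat.le_add_left _ _)

def tyD (d : Dt) (ρ v : ℕ) : List (List ℕ) := ty (toS d) ρ v

@[fun_prop] theorem pt_tyD {d : α → Dt} {i v : α → ℕ} (h1 : PT d) (h2 : PT i) (h3 : PT v) :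
    PT fun a => tyD (d a) (i a) (v a) := by
  have h : PT fun q : Dt × List ℕ => mat (adjN q.1.1 q.1.2.1) q.2 := by
    unfold mat code; fun_prop
  exact h.comp (g := fun a => (d a, v a :: ((d a).2.2.1 ++ ballD (d a) (i a) (v a)))) (by fun_prop)

theorem pt_ZZ {d : α → Dt} {i m : α → ℕ} (h1 : PT d) (h2 : PT i) (h3 : PT m) :
    PT fun a => ZZ (toS (d a)) (i a) (m a) := by
  have : PT fun a => (d a).2.2.1 ++ ((List.range (d a).1).filter fun v => decide
      (((List.range v).filter fun u => decide (tyD (d a) (i a) u = tyD (d a) (i a) v)).length <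
        m a)).flatMap fun v => ballD (d a) (i a) v := by fun_prop
  exact this

@[fun_prop] theorem pt_cl {n : α → ℕ} {F : α → Ed} {v : α → ℕ} (h1 : PT n) (h2 : PT F)
    (h3 : PT v) : PT fun a => cl (n a) (F a) (v a) := by unfold cl; fun_prop

@[fun_prop] theorem pt_cel {n : α → ℕ} {L F : α → Ed} {u v : α → ℕ} {c : α → Bool} (h1 : PT n)
    (h2 : PT L) (h2' : PT F) (h3 : PT u) (h4 : PT v) (h5 : PT c) :
    PT fun a => cel (n a) (L a) (F a) (u a) (v a) (c a) := by
  unfold cel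
  simp only [Bool.beq_eq_decide_eq]
  fun_prop

theorem pt_words {A : α → List ℕ} (h : PT A) (m : ℕ) : PT fun a => words (A a) m := by
  induction m with
  | zero => exact PT.const _
  | succ m ih =>
    simp only [words, iterate_succ_apply'] at ih ⊢
    have : PT fun q : List ℕ × List (List ℕ) => wstep q.1 q.2 := by unfold wstep; fun_prop
    exact this.comp (h.mk ih)

theorem pt_patb (m : ℕ) {h : ℕ → ℕ → Bool} (hh : PT fun p : ℕ × ℕ => h p.1 p.2) :
    PT fun q : ℕ × Ed × Ed => patb m h q.1 q.2.1 q.2.2 := by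
  unfold patb
  refine PT.any ?_ (pt_words (by fun_prop) m)
  fun_prop

theorem pt_chk : PT fun q : ℕ × Ed × Ed => chk q.1 q.2.1 q.2.2 :=
  (pt_patb 5 (by unfold hs; fun_prop)).not.and (pt_patb 4 (by unfold ht; fun_prop)).not

theorem pt_Zs : PT fun q : GK × ℕ => Zs q.1.1 (adjN q.1.1 q.1.2.1) q.1.2.2 q.2 := by
  have h1 : PT fun q : GK × ℕ => 12 * q.1.2.2 + 3 := by fun_prop
  have h2 : PT fun q : GK × ℕ => mm q.1.2.2 q.2 := by unfold mm; fun_prop
  have h3 : PT fun q : GK × ℕ => BB q.1.1 (adjN q.1.1 q.1.2.1) (rr q.1.2.2) := by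
    unfold BB nonb rr; fun_prop
  exact PT.cons (by fun_prop) (PT.cons
    (pt_ZZ (d := fun q : GK × ℕ => (q.1.1, q.1.2.1, [], true)) (by fun_prop) h1 h2) (PT.cons
    (pt_ZZ (d := fun q : GK × ℕ => (q.1.1, q.1.2.1, BB q.1.1 (adjN q.1.1 q.1.2.1) (rr q.1.2.2),
      false)) (by fun_prop) h1 h2) (PT.const _)))

theorem pt_dcd : PT fun q : GK × ℕ × List Ed => dcd q.1 q.2.1 q.2.2 := by
  unfold dcd
  refine PT.any (PT.any ?_ (by fun_prop))
    (pt_Zs.comp (g := fun q : GK × ℕ × List Ed => (q.1, q.2.1)) (by fun_prop))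
  exact pt_chk.comp (g := fun r : ((GK × ℕ × List Ed) × List ℕ) × Ed =>
    (r.1.1.1.1, r.1.1.1.2.1, cand r.1.1.1.1 r.1.1.1.2.1 r.1.2 r.2)) (by unfold cand; fun_prop)

end

theorem ft_dcd : FT kOf fun x : GK =>
    dcd x (be x.2.2) (words (AA (2 ^ ex x.2.2 (be x.2.2))) x.2.2) := by
  have ck : CB kOf fun x : GK => sz x.2.2 := CB.par.mono fun a => by simp [kOf]
  have fk : FT kOf fun x : GK => x.2.2 := FT.of_pt (by fun_prop)
  have p1 : PT fun k : ℕ => (rr k + 1) * (12 * k + 3) := by unfold rr; fun_prop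
  have c1 : CB kOf fun x : GK => (rr x.2.2 + 1) * (12 * x.2.2 + 3) :=
    (CB.pt p1 ck).mono fun a => by simp
  have c2 : CB kOf fun x : GK => sz (be x.2.2) :=
    ((CB.const 2).pow c1).mono fun a => by simp [be]
  have f2 : FT kOf fun x : GK => be x.2.2 :=
    have f1 := FT.comp p1 fk
    let ⟨_, h1, h2⟩ := c1; FT.exp f1 h1 h2
  have p3 : PT fun q : ℕ × ℕ => ex q.1 q.2 := by unfold ex mm rr; fun_prop
  have c3 : CB kOf fun x : GK => ex x.2.2 (be x.2.2) :=
    (CB.pt p3 (g := fun x : GK => (x.2.2, be x.2.2)) (ck.pair c2)).mono fun a => by simp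
  have f4 : FT kOf fun x : GK => 2 ^ ex x.2.2 (be x.2.2) :=
    have f3 := FT.comp p3 (fk.mk f2)
    let ⟨_, h1, h2⟩ := c3; FT.exp f3 h1 h2
  have p5 : PT AA := by unfold AA; fun_prop
  have f5 := FT.words (FT.comp p5 f4) fk (CB.pt p5 (g := fun x : GK => 2 ^ ex x.2.2 (be x.2.2))
    (((CB.const 2).pow c3).mono fun a => by simp)) CB.par
  exact FT.comp pt_dcd ((FT.of_pt PT.id').mk (f2.mk f5))

theorem fpt_pair : FPTOn (fun _ => True) (Con₂ star4 triK1) kOf :=
  ft_dcd.fptOn fun x _ => dcd_iff x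

/-! ### reductions -/

theorem freduces_of_ft {α β : Type} [Enc α] [Enc β] {P : α → Prop} {κ : α → ℕ} {Q : β → Prop}
    {μ : β → ℕ} {r : α → β} (hr : FT κ r) (h : ∀ a, (P a ↔ Q (r a)) ∧ μ (r a) ≤ κ a) :
    FReduces P κ Q μ := by
  classical
  obtain ⟨p, t, ⟨f, c, hf, hb⟩, hp⟩ := hr
  let N := Finset.univ.sup fun l : Lab p => (ins p l).reg
  have hN : ∀ l, (ins p l).reg ≤ N := fun l =>
    Finset.le_sup (f := fun l : Lab p => (ins p l).reg) (Finset.mem_univ l)
  have hi : ∀ x, Turing.initList (machine p N) x =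
      cfgOf (N := N) (some (start p)) (sc x H38.NP.E) := by
    intro x
    simp only [Turing.initList, cfgOf, machine]
    congr 1
    funext k
    refine Fin.cases ?_ (fun k => ?_) k
    · rfl
    · simp [sc, H38.NP.E]
  have hh : ∀ x, Turing.haltList (machine p N) x = cfgOf (N := N) none (sc x H38.NP.E) := by
    intro x
    simp only [Turing.haltList, cfgOf, machine]
    congr 1
    funext k
    refine Fin.cases ?_ (fun k => ?_) k
    · rfl
    · simp [sc, H38.NP.E]
  refine ⟨⟨machine p N, Equiv.refl _, Equiv.refl _⟩, f, _, c, hf, comp_id,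
    fun a => ⟨r a, (h a).1, (h a).2, ?_⟩⟩
  obtain ⟨s, hs, he⟩ := hp a
  refine ⟨⟨⟨s, ?_⟩, hs.trans (hb a)⟩⟩
  have := Reach.iter hN he.reach
  simp only [Equiv.refl, Option.map_some]
  erw [List.map_id, List.map_id, hi, hh]
  exact this

theorem fpt_of_freduces {α β : Type} [Enc α] [Enc β] [Dec β] {P : α → Prop} {κ : α → ℕ}
    {Q : β → Prop} {μ : β → ℕ} (h : FReduces P κ Q μ) (h' : FPTOn (fun _ => True) Q μ) :
    FPTOn (fun _ => True) P κ := by
  obtain ⟨M, f, g, c, hf, hg, h⟩ := h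
  obtain ⟨M', f', c', hf', h'⟩ := h'
  choose r h1 h2 h3 using h
  choose d h4 h5 using fun b => h' b trivial
  have g1 : FT κ r := (FT.comp (Dec.pt (α := β)) (FtSim.ft_machine M (FT.of_pt PT.id')
    (T := fun a => f (κ a) * ((enc a).length + 1) ^ c) ⟨f, c, hf, fun _ => le_rfl⟩
    (fun a => enc (r a)) h3)).of_eq fun a => Dec.dec_raw (r a)
  let s : ℕ → ℕ := fun n => Nat.rec (f' 0) (fun y ih => ih + f' (y + 1)) n
  have hs : Computable s := Computable.nat_rec (f := fun n : ℕ => n) (g := fun _ => f' 0)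
    (h := fun _ (p : ℕ × ℕ) => p.2 + f' (p.1 + 1)) Computable.id (Computable.const _)
    (Primrec.nat_add.to_comp.comp (Computable.snd.comp Computable.snd)
      (hf'.comp (Computable.succ.comp (Computable.fst.comp Computable.snd))))
  have hs' : ∀ n i, i ≤ n → f' i ≤ s n := fun n => by
    induction n with
    | zero => intro i hi; rw [Nat.le_zero.1 hi]; exact le_rfl
    | succ n ih =>
      intro i hi
      change _ ≤ s n + f' (n + 1)
      rcases hi.eq_or_lt with rfl | hi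
      · omega
      · have := ih i (by omega); omega
  have hT : FB κ fun a => f' (μ (r a)) * ((enc (r a)).length + 1) ^ c' :=
    ((FB.par (hs.comp hg)).mul ((g1.fb.add (FB.const 1)).eval (Polynomial.X ^ c'))).mono fun a => by
      simpa using hs' _ _ (h2 a)
  exact (FT.comp PT.bhd (FtSim.ft_machine M' g1 hT (fun a => [d (r a)]) fun a => h5 (r a))).fptOn
    fun a _ => (h1 a).trans (h4 _)

theorem hard_star : W2Hard (Con₁ star4) :=
  freduces_of_ft (FT.of_pt pt_red2) fun x => ⟨red2_iff x, le_rfl⟩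

theorem hard_tri : W2Hard (Con₁ triK1) :=
  freduces_of_ft (FT.of_pt pt_red1) fun x => ⟨red1_iff x, le_rfl⟩

end Pool.Agent.H22.CT
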