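import Pool.Agent.H36.ParDefs

/-!
Contraction of edge sets, induced-subgraph-free contraction problems, and hardness for W[2].
-/

namespace Pool.Agent.H22.CT

open Pool.Agent.H38.NP Pool.Agent.H36.Par SimpleGraph

/-- `G / F`: the vertices are the connected components of the spanning subgraph with edge set
`F`; two different components are adjacent when an edge of `G` joins them. -/
def contract {V : Type} (G : SimpleGraph V) (F : Set (Sym2 V)) :
    SimpleGraph (fromEdgeSet F).ConnectedComponent :=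
  SimpleGraph.fromRel fun X Y => ∃ u v, (fromEdgeSet F).connectedComponentMk u = X ∧
    (fromEdgeSet F).connectedComponentMk v = Y ∧ G.Adj u v

/-- `G` has no induced subgraph isomorphic to `H`. -/
def Free {α β : Type} (H : SimpleGraph α) (G : SimpleGraph β) : Prop := IsEmpty (H ↪g G)

/-- `H`-Free Contraction. -/
def Con₁ {α : Type} (H : SimpleGraph α) (x : GK) : Prop :=
  ∃ F : Finset (Sym2 (Fin x.1)), (F : Set (Sym2 (Fin x.1))) ⊆ (graphOf x.1 x.2.1).edgeSet ∧
    F.card ≤ x.2.2 ∧ Free H (contract (graphOf x.1 x.2.1) F)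

/-- `{H₁, H₂}`-Free Contraction. -/
def Con₂ {α β : Type} (H₁ : SimpleGraph α) (H₂ : SimpleGraph β) (x : GK) : Prop :=
  ∃ F : Finset (Sym2 (Fin x.1)), (F : Set (Sym2 (Fin x.1))) ⊆ (graphOf x.1 x.2.1).edgeSet ∧
    F.card ≤ x.2.2 ∧ Free H₁ (contract (graphOf x.1 x.2.1) F) ∧
      Free H₂ (contract (graphOf x.1 x.2.1) F)

/-- the star `K_{1,4}` with centre `0` -/
def star4 : SimpleGraph (Fin 5) := SimpleGraph.fromRel fun i _ => i = 0

/-- a triangle on `1, 2, 3` and the isolated vertex `0` -/
def triK1 : SimpleGraph (Fin 4) := SimpleGraph.fromRel fun i j => i ≠ 0 ∧ j ≠ 0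

/-- A parameterized (fpt) reduction: one machine maps every input `a` within
`f (κ a) * (length + 1) ^ c` steps to an equivalent input `b` with `μ b ≤ g (κ a)`. -/
def FReduces {α β : Type} [Enc α] [Enc β] (P : α → Prop) (κ : α → ℕ) (Q : β → Prop)
    (μ : β → ℕ) : Prop :=
  ∃ (M : Turing.TM2ComputableAux Bool Bool) (f g : ℕ → ℕ) (c : ℕ), Computable f ∧ Computable g ∧
    ∀ a, ∃ b, (P a ↔ Q b) ∧ μ b ≤ g (κ a) ∧
      Nonempty (Turing.TM2OutputsInTime M.tm ((enc a).map M.inputAlphabet.invFun)
        (some ((enc b).map M.outputAlphabet.invFun)) (f (κ a) * ((enc a).length + 1) ^ c))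

/-- W[2]-hardness: Dominating Set has a parameterized reduction to the problem. -/
def W2Hard (Q : GK → Prop) : Prop := FReduces DomSet kOf Q kOf

end Pool.Agent.H22.CT
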