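import Mathlib

set_option autoImplicit false

namespace Pool.Agent.H22.Ramsey
open Classical Finset

def Mono {α : Type} (c : α → α → Bool) (b : Bool) (T : Finset α) : Prop :=
  ∀ x ∈ T, ∀ y ∈ T, x ≠ y → c x y = b

lemma mono_insert {α : Type} {c : α → α → Bool} (hc : ∀ x y, c x y = c y x) {b : Bool} {T : Finset α} {v : α}
    (h : Mono c b T) (hv : ∀ x ∈ T, c v x = b) : Mono c b (insert v T) := by
  intro x hx y hy hxy
  rcases mem_insert.1 hx with h1 | h1 <;> rcases mem_insert.1 hy with h2 | h2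
  · exact absurd (h1.trans h2.symm) hxy
  · rw [h1]; exact hv y h2
  · rw [hc, h2]; exact hv x h1
  · exact h x h1 y h2 hxy

/-- finite Ramsey theorem for graphs -/
theorem ramsey (s t : ℕ) : ∃ R, ∀ (α : Type) (c : α → α → Bool), (∀ x y, c x y = c y x) →
    ∀ S : Finset α, R ≤ S.card → (∃ T ⊆ S, T.card = s ∧ Mono c true T) ∨ (∃ T ⊆ S, T.card = t ∧ Mono c false T) := by
  induction s generalizing t with
  | zero => exact ⟨0, fun α c _ S _ => Or.inl ⟨∅, by simp, rfl, by simp [Mono]⟩⟩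
  | succ s ihs =>
    induction t with
    | zero => exact ⟨0, fun α c _ S _ => Or.inr ⟨∅, by simp, rfl, by simp [Mono]⟩⟩
    | succ t iht =>
      obtain ⟨R1, h1⟩ := ihs (t + 1)
      obtain ⟨R2, h2⟩ := iht
      refine ⟨R1 + R2 + 1, fun α c hc S hS => ?_⟩
      obtain ⟨v, hv⟩ : S.Nonempty := card_pos.1 (by omega)
      have hcard := card_filter_add_card_filter_not (s := S.erase v) (fun x => c v x = true)
      rw [card_erase_of_mem hv] at hcard
      by_cases h : R1 ≤ ((S.erase v).filter (fun x => c v x = true)).card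
      · rcases h1 α c hc _ h with ⟨T, a1, a2, a3⟩ | ⟨T, a1, a2, a3⟩
        · left
          have hvT : v ∉ T := fun hh => by simpa using a1 hh
          refine ⟨insert v T, ?_, by rw [card_insert_of_notMem hvT, a2], mono_insert hc a3 ?_⟩
          · exact insert_subset hv (a1.trans ((filter_subset _ _).trans (erase_subset _ _)))
          · intro x hx; exact (mem_filter.1 (a1 hx)).2
        · exact Or.inr ⟨T, a1.trans ((filter_subset _ _).trans (erase_subset _ _)), a2, a3⟩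
      · rcases h2 α c hc ((S.erase v).filter (fun x => ¬ c v x = true)) (by omega) with
          ⟨T, a1, a2, a3⟩ | ⟨T, a1, a2, a3⟩
        · exact Or.inl ⟨T, a1.trans ((filter_subset _ _).trans (erase_subset _ _)), a2, a3⟩
        · right
          have hvT : v ∉ T := fun hh => by simpa using a1 hh
          refine ⟨insert v T, ?_, by rw [card_insert_of_notMem hvT, a2], mono_insert hc a3 ?_⟩
          · exact insert_subset hv (a1.trans ((filter_subset _ _).trans (erase_subset _ _)))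
          · intro x hx; simpa using (mem_filter.1 (a1 hx)).2

theorem ramsey_fin (s : ℕ) : ∃ R, ∀ c : Fin R → Fin R → Bool, (∀ x y, c x y = c y x) →
    ∃ (f : Fin s → Fin R) (b : Bool), Function.Injective f ∧ ∀ x y, x ≠ y → c (f x) (f y) = b := by
  obtain ⟨R, h⟩ := ramsey s s
  refine ⟨R, fun c hc => ?_⟩
  have : ∃ (T : Finset (Fin R)) (b : Bool), T.card = s ∧ Mono c b T := by
    rcases h _ c hc univ (by simp) with ⟨T, _, a2, a3⟩ | ⟨T, _, a2, a3⟩
    · exact ⟨T, _, a2, a3⟩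
    · exact ⟨T, _, a2, a3⟩
  obtain ⟨T, b, a2, a3⟩ := this
  let e := T.equivFinOfCardEq a2
  have hi : Function.Injective (fun x => (e.symm x).1) := fun x y h => e.symm.injective (Subtype.ext h)
  exact ⟨fun x => (e.symm x).1, b, hi, fun x y hxy => a3 _ (e.symm x).2 _ (e.symm y).2 (fun h => hxy (hi h))⟩

lemma bip (t : ℕ) : ∃ m, t ≤ m ∧ ∀ (β : Type) (c : β → β → Bool) (X Y : Finset β), m ≤ X.card → m ≤ Y.card →
    ∃ X' ⊆ X, ∃ Y' ⊆ Y, t ≤ X'.card ∧ t ≤ Y'.card ∧ ∃ b, ∀ x ∈ X', ∀ y ∈ Y', c x y = b := by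
  refine ⟨2 ^ (2 * t) * t + 2 * t, by omega, fun β c X Y hX hY => ?_⟩
  obtain ⟨X0, h0, h1⟩ := exists_subset_card_eq (s := X) (n := 2 * t) (by omega)
  obtain ⟨Z, hZ, hc⟩ := exists_le_card_fiber_of_mul_le_card_of_maps_to (s := Y) (t := X0.powerset)
    (f := fun y => X0.filter (fun x => c x y = true)) (n := t)
    (fun y _ => mem_powerset.2 (filter_subset _ _)) ⟨∅, by simp⟩ (by rw [card_powerset, h1]; omega)
  rw [mem_powerset] at hZ
  by_cases h : t ≤ Z.card
  · refine ⟨Z, hZ.trans h0, _, filter_subset _ _, h, hc, true, fun x hx y hy => ?_⟩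
    rw [← (mem_filter.1 hy).2] at hx
    exact (mem_filter.1 hx).2
  · refine ⟨X0 \ Z, sdiff_subset.trans h0, _, filter_subset _ _, ?_, hc, false, fun x hx y hy => ?_⟩
    · rw [card_sdiff_of_subset hZ]; omega
    · rw [← (mem_filter.1 hy).2] at hx
      simp only [mem_sdiff, mem_filter, not_and] at hx
      simpa using hx.2 hx.1

lemma multi {ι : Type} (L : List (ι × ι)) (t : ℕ) : ∃ m, ∀ (β : Type) (c : ι → β → ι → β → Bool)
    (S : ι → Finset β), (∀ i, m ≤ (S i).card) → ∃ T : ι → Finset β, (∀ i, T i ⊆ S i ∧ t ≤ (T i).card) ∧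
      ∀ p ∈ L, p.1 ≠ p.2 → ∃ b, ∀ x ∈ T p.1, ∀ y ∈ T p.2, c p.1 x p.2 y = b := by
  induction L with
  | nil => exact ⟨t, fun β c S hS => ⟨S, fun i => ⟨Subset.refl _, hS i⟩, by simp⟩⟩
  | cons p L ih =>
    obtain ⟨m0, h0⟩ := ih
    obtain ⟨m, hm, h1⟩ := bip m0
    refine ⟨m, fun β c S hS => ?_⟩
    obtain ⟨X', x1, Y', y1, x2, y2, b, hb⟩ := h1 β (fun x y => c p.1 x p.2 y) (S p.1) (S p.2) (hS _) (hS _)
    let S' : ι → Finset β := fun i => if i = p.1 then X' else if i = p.2 then Y' else S i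
    have s1 : ∀ i, S' i ⊆ S i ∧ m0 ≤ (S' i).card := by
      intro i
      simp only [S']
      split_ifs with a1 a2
      · rw [a1]; exact ⟨x1, x2⟩
      · rw [a2]; exact ⟨y1, y2⟩
      · exact ⟨Subset.refl _, hm.trans (hS i)⟩
    obtain ⟨T, t1, t2⟩ := h0 β c S' (fun i => (s1 i).2)
    refine ⟨T, fun i => ⟨(t1 i).1.trans (s1 i).1, (t1 i).2⟩, fun p' hp' hne => ?_⟩
    rcases List.mem_cons.1 hp' with rfl | hp'
    · refine ⟨b, fun x hx y hy => hb x ?_ y ?_⟩
      · simpa [S'] using (t1 _).1 hx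
      · simpa [S', hne.symm] using (t1 _).1 hy
    · exact t2 p' hp' hne

/-- the multipartite Ramsey property behind the theorem of Burr, Erdos and Lovasz -/
theorem partite (N t : ℕ) : ∃ m, ∀ c : Fin N × Fin m → Fin N × Fin m → Bool, (∀ x y, c x y = c y x) →
    ∃ (g : Fin N → Fin t → Fin m) (col : Fin N → Fin N → Bool), (∀ i, Function.Injective (g i)) ∧
      (∀ i j, col i j = col j i) ∧ ∀ i j x y, i ≠ j → c (i, g i x) (j, g j y) = col i j := by
  obtain ⟨m, h⟩ := multi (univ : Finset (Fin N × Fin N)).toList (t + 1)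
  refine ⟨m, fun c hc => ?_⟩
  obtain ⟨T, t1, t2⟩ := h (Fin m) (fun i x j y => c (i, x) (j, y)) (fun _ => univ) (by simp)
  have : ∀ i, ∃ g : Fin (t + 1) → Fin m, Function.Injective g ∧ ∀ x, g x ∈ T i := by
    intro i
    obtain ⟨U, u1, u2⟩ := exists_subset_card_eq (t1 i).2
    let e := U.equivFinOfCardEq u2
    exact ⟨fun x => (e.symm x).1, fun x y h => e.symm.injective (Subtype.ext h), fun x => u1 (e.symm x).2⟩
  choose g g1 g2 using this
  refine ⟨fun i x => g i x.succ, fun i j => c (i, g i 0) (j, g j 0),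
    fun i => (g1 i).comp (Fin.succ_injective _), fun i j => hc _ _, fun i j x y hij => ?_⟩
  obtain ⟨b, hb⟩ := t2 (i, j) (by simp) hij
  exact (hb _ (g2 i _) _ (g2 j _)).trans (hb _ (g2 i _) _ (g2 j _)).symm

end Pool.Agent.H22.Ramsey
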