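import Mathlib

set_option autoImplicit false
set_option linter.unusedSectionVars false

namespace Pool.Agent.H22.Theta
open Classical Finset

variable {V W : Type} [Fintype V] [Fintype W]

noncomputable def q (A : V → V → ℝ) (x : V → ℝ) : ℝ := ∑ a, ∑ b, x a * A a b * x b
def PS (A : V → V → ℝ) : Prop := (∀ a b, A a b = A b a) ∧ ∀ x, 0 ≤ q A x
noncomputable def dl (a b : V) : ℝ := if a = b then 1 else 0

lemma ps_iff (A : V → V → ℝ) : PS A ↔ (Matrix.of A).PosSemidef := by
  rw [Matrix.posSemidef_iff_dotProduct_mulVec]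
  apply and_congr
  · constructor
    · intro h; ext a b; simp [h a b]
    · intro h a b
      have := congrFun (congrFun h b) a
      simpa using this
  · apply forall_congr'
    intro x
    simp [q, dotProduct, Matrix.mulVec, Finset.mul_sum, mul_assoc]

lemma PS.congr {A B : V → V → ℝ} (h : PS A) (e : ∀ a b, B a b = A a b) : PS B := by
  have : B = A := by ext a b; exact e a b
  rwa [this]

lemma PS.tensor {A : V → V → ℝ} {B : W → W → ℝ} (hA : PS A) (hB : PS B) :
    PS (fun x y : V × W => A x.1 y.1 * B x.2 y.2) := by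
  rw [ps_iff] at *
  exact hA.kronecker hB

lemma PS.comap {A : V → V → ℝ} (hA : PS A) (φ : W → V) : PS (fun a b => A (φ a) (φ b)) := by
  rw [ps_iff] at *
  exact hA.submatrix φ

lemma PS.mul {A B : V → V → ℝ} (hA : PS A) (hB : PS B) : PS (fun a b => A a b * B a b) :=
  (hA.tensor hB).comap (fun a => (a, a))

lemma q_add (A B : V → V → ℝ) (x : V → ℝ) : q (fun a b => A a b + B a b) x = q A x + q B x := by
  simp only [q, ← sum_add_distrib]
  exact sum_congr rfl fun a _ => sum_congr rfl fun b _ => by ring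

lemma q_smul (c : ℝ) (A : V → V → ℝ) (x : V → ℝ) : q (fun a b => c * A a b) x = c * q A x := by
  simp only [q, mul_sum]
  exact sum_congr rfl fun a _ => sum_congr rfl fun b _ => by ring

lemma q_lin (c d : ℝ) (A B : V → V → ℝ) (x : V → ℝ) :
    q (fun a b => c * A a b + d * B a b) x = c * q A x + d * q B x := by
  rw [q_add (fun a b => c * A a b) (fun a b => d * B a b), q_smul, q_smul]

lemma q_dl (x : V → ℝ) : q dl x = ∑ a, x a ^ 2 := by
  simp [q, dl, sq]

lemma q_congr {A B : V → V → ℝ} (e : ∀ a b, A a b = B a b) (x : V → ℝ) : q A x = q B x := by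
  have : A = B := by ext a b; exact e a b
  rw [this]

lemma q_scale (A : V → V → ℝ) (c : ℝ) (x : V → ℝ) : q A (fun a => c * x a) = c ^ 2 * q A x := by
  simp only [q, mul_sum]
  exact sum_congr rfl fun a _ => sum_congr rfl fun b _ => by ring

lemma q_tensor (A : V → V → ℝ) (B : W → W → ℝ) (x : V → ℝ) (y : W → ℝ) :
    q (fun s t : V × W => A s.1 t.1 * B s.2 t.2) (fun s => x s.1 * y s.2) = q A x * q B y := by
  simp only [q, Fintype.sum_prod_type, sum_mul_sum]
  refine sum_congr rfl fun a _ => sum_congr rfl fun b _ => sum_congr rfl fun c _ => sum_congr rfl fun d _ => ?_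
  ring

lemma PS.add {A B : V → V → ℝ} (hA : PS A) (hB : PS B) : PS (fun a b => A a b + B a b) :=
  ⟨fun a b => by simp only [hA.1 a b, hB.1 a b], fun x => by rw [q_add]; exact add_nonneg (hA.2 x) (hB.2 x)⟩

lemma PS.smul {A : V → V → ℝ} (hA : PS A) {c : ℝ} (hc : 0 ≤ c) : PS (fun a b => c * A a b) :=
  ⟨fun a b => by simp only [hA.1 a b], fun x => by rw [q_smul]; exact mul_nonneg hc (hA.2 x)⟩

lemma q_rank (u x : V → ℝ) : q (fun a b => u a * u b) x = (∑ a, x a * u a) ^ 2 := by
  simp only [q, sq, sum_mul_sum]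
  exact sum_congr rfl fun a _ => sum_congr rfl fun b _ => by ring

lemma ps_rank (u : V → ℝ) : PS (fun a b => u a * u b) :=
  ⟨fun a b => mul_comm _ _, fun x => by rw [q_rank]; positivity⟩

lemma ps_one : PS (fun _ _ : V => (1 : ℝ)) := (ps_rank (fun _ => 1)).congr (by simp)
lemma ps_zero : PS (fun _ _ : V => (0 : ℝ)) := (ps_rank (fun _ => 0)).congr (by simp)

lemma ps_gram (u : W → V → ℝ) : PS (fun a b => ∑ i, u i a * u i b) := by
  have : ∀ s : Finset W, PS (fun a b => ∑ i ∈ s, u i a * u i b) := by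
    intro s
    induction s using Finset.induction_on with
    | empty => simpa using ps_zero
    | insert i s hi ih => exact ((ps_rank (u i)).add ih).congr (fun a b => by rw [sum_insert hi])
  exact this univ

lemma dl_symm (a b : V) : dl a b = dl b a := by simp [dl, eq_comm]
lemma ps_dl : PS (dl : V → V → ℝ) := ⟨dl_symm, fun x => by rw [q_dl]; positivity⟩
lemma dl_prod (s t : V × W) : dl s t = dl s.1 t.1 * dl s.2 t.2 := by
  unfold dl
  by_cases h1 : s.1 = t.1 <;> by_cases h2 : s.2 = t.2 <;> simp [h1, h2, Prod.ext_iff]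

lemma PS.sum_nonneg {A : V → V → ℝ} (hA : PS A) : 0 ≤ ∑ a, ∑ b, A a b := by
  simpa [q] using hA.2 (fun _ => 1)

def P (l : ℝ) (r : V → V → Prop) : Prop :=
  ∃ M : V → V → ℝ, (∀ a b, ¬ r a b → M a b = 0) ∧ PS (fun a b => dl a b + M a b) ∧
    PS (fun a b => l * dl a b - M a b) ∧ ∃ x, 0 < ∑ a, x a ^ 2 ∧ q M x = l * ∑ a, x a ^ 2

def Q (n : ℝ) (r : V → V → Prop) : Prop :=
  ∃ A : V → V → ℝ, PS (fun a b => A a b - 1) ∧ (∀ a, A a a = n) ∧ ∀ a b, r a b → A a b = 0

lemma Q.comap {n : ℝ} {r : V → V → Prop} (h : Q n r) (φ : W → V) {r' : W → W → Prop}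
    (hφ : ∀ a b, r' a b → r (φ a) (φ b)) : Q n r' := by
  obtain ⟨A, h1, h2, h3⟩ := h
  exact ⟨fun a b => A (φ a) (φ b), h1.comap φ, fun a => h2 _, fun a b hab => h3 _ _ (hφ a b hab)⟩

lemma weak {l n : ℝ} {r : V → V → Prop} (hP : P l r) (hQ : Q n r) : l + 1 ≤ n := by
  obtain ⟨M, m1, m2, _, x, x1, x2⟩ := hP
  obtain ⟨A, a1, a2, a3⟩ := hQ
  have h := (a1.mul m2).2 x
  rw [q_congr (B := fun a b => (n - 1) * dl a b + (-1) * M a b), q_lin, q_dl, x2] at h
  · nlinarith
  · intro a b
    have e1 : (A a b - 1) * dl a b = (n - 1) * dl a b := by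
      unfold dl; split_ifs with h
      · rw [h, a2]
      · simp
    have e2 : A a b * M a b = 0 := by
      by_cases h : r a b
      · rw [a3 a b h, zero_mul]
      · rw [m1 a b h, mul_zero]
    linarith

lemma P.tensor {l : ℝ} (hl : 1 ≤ l) {r : V → V → Prop} {r' : W → W → Prop} (h : P l r) (h' : P l r') :
    P l (fun s t : V × W => r s.1 t.1 ∧ r' s.2 t.2) := by
  obtain ⟨M, m1, m2, m3, x, x1, x2⟩ := h
  obtain ⟨N, n1, n2, n3, y, y1, y2⟩ := h'
  have l0 : 0 < l := by linarith
  refine ⟨fun s t => l⁻¹ * (M s.1 t.1 * N s.2 t.2), ?_, ?_, ?_, fun s => x s.1 * y s.2, ?_, ?_⟩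
  · intro s t hst
    by_cases h : r s.1 t.1
    · simp [n1 _ _ (fun h' => hst ⟨h, h'⟩)]
    · simp [m1 _ _ h]
  · refine (((m2.tensor n2).smul (c := (l + 1)⁻¹) (by positivity)).add
      ((m3.tensor n3).smul (c := (l * (l + 1))⁻¹) (by positivity))).congr (fun s t => ?_)
    rw [dl_prod]; field_simp; ring
  · refine ((((m2.tensor n3).smul (c := (l + 1)⁻¹) (by positivity)).add
      ((m3.tensor n2).smul (c := (l + 1)⁻¹) (by positivity))).add
      ((m3.tensor n3).smul (c := (l - 1) * (l * (l + 1))⁻¹)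
        (mul_nonneg (by linarith) (by positivity)))).congr (fun s t => ?_)
    rw [dl_prod]; field_simp; ring
  · have : ∑ s : V × W, (x s.1 * y s.2) ^ 2 = (∑ a, x a ^ 2) * ∑ b, y b ^ 2 := by
      simp only [Fintype.sum_prod_type, sum_mul_sum, mul_pow]
    rw [this]; positivity
  · have : ∑ s : V × W, (x s.1 * y s.2) ^ 2 = (∑ a, x a ^ 2) * ∑ b, y b ^ 2 := by
      simp only [Fintype.sum_prod_type, sum_mul_sum, mul_pow]
    rw [this, q_smul, q_tensor, x2, y2]; field_simp

lemma Q.or {n m : ℝ} {r : V → V → Prop} {r' : W → W → Prop} (h : Q n r) (h' : Q m r') :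
    Q (n * m) (fun s t : V × W => r s.1 t.1 ∨ r' s.2 t.2) := by
  obtain ⟨A, a1, a2, a3⟩ := h
  obtain ⟨B, b1, b2, b3⟩ := h'
  refine ⟨fun s t => A s.1 t.1 * B s.2 t.2, ?_, fun s => by simp [a2, b2], ?_⟩
  · exact (((a1.tensor b1).add (a1.tensor ps_one)).add (ps_one.tensor b1)).congr (fun s t => by ring)
  · rintro s t (h | h)
    · simp [a3 _ _ h]
    · simp [b3 _ _ h]

lemma card_le {n : ℝ} {r r' : V → V → Prop} (h : Q n r) (h' : Q n r') (hc : ∀ a b, a ≠ b → r a b ∨ r' a b) :
    (Fintype.card V : ℝ) ≤ n ^ 2 := by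
  obtain ⟨A, a1, a2, a3⟩ := h
  obtain ⟨B, b1, b2, b3⟩ := h'
  have h := (((a1.mul b1).add a1).add b1).congr (B := fun a b => n ^ 2 * dl a b - 1) (fun a b => by
    have : A a b * B a b = n ^ 2 * dl a b := by
      unfold dl; split_ifs with h
      · rw [h, a2, b2]; ring
      · rcases hc a b h with h | h
        · simp [a3 _ _ h]
        · simp [b3 _ _ h]
    rw [← this]; ring)
  have h2 := h.sum_nonneg
  simp only [dl, mul_ite, mul_one, mul_zero, sum_sub_distrib, sum_ite_eq, mem_univ, if_true, sum_const,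
    card_univ, nsmul_eq_mul] at h2
  rcases (Nat.cast_nonneg (α := ℝ) (Fintype.card V)).eq_or_lt with h0 | h0
  · rw [← h0]; positivity
  · nlinarith

lemma Q_ne (m : ℕ) : Q (m : ℝ) (fun a b : Fin m => a ≠ b) := by
  refine ⟨fun a b => m * dl a b, ⟨fun a b => by simp only [dl_symm a b], fun x => ?_⟩, fun a => by simp [dl],
    fun a b h => by simp [dl, h]⟩
  rw [q_congr (B := fun a b => m * dl a b + (-1) * ((1 : ℝ) * 1)) (fun a b => by ring),
    q_lin m (-1) dl (fun _ _ => (1 : ℝ) * 1), q_dl, q_rank (fun _ => 1)]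
  have := sq_sum_le_card_mul_sum_sq (s := (univ : Finset (Fin m))) (f := x)
  simp only [card_univ, Fintype.card_fin, mul_one] at this ⊢
  linarith

lemma exists_max [Nonempty V] (M : V → V → ℝ) :
    ∃ x : V → ℝ, ∑ a, x a ^ 2 = 1 ∧ ∀ y : V → ℝ, q M y ≤ q M x * ∑ a, y a ^ 2 := by
  have hc : IsCompact {x : V → ℝ | ∑ a, x a ^ 2 = 1} := by
    apply (isCompact_closedBall (0 : V → ℝ) 1).of_isClosed_subset
    · exact isClosed_eq (by fun_prop) continuous_const
    · intro x hx
      rw [mem_closedBall_zero_iff, pi_norm_le_iff_of_nonneg zero_le_one]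
      intro a
      have : x a ^ 2 ≤ 1 := by
        rw [← show ∑ a, x a ^ 2 = 1 from hx]
        exact single_le_sum (f := fun a => x a ^ 2) (fun _ _ => sq_nonneg _) (mem_univ a)
      rw [Real.norm_eq_abs]; exact (sq_le_one_iff_abs_le_one _).1 this
  obtain ⟨a0⟩ := ‹Nonempty V›
  obtain ⟨x, hx, hmax⟩ := hc.exists_isMaxOn (f := q M) ⟨dl a0, by simp [dl]⟩
    (by unfold q; fun_prop)
  refine ⟨x, hx, fun y => ?_⟩
  have hs : 0 ≤ ∑ a, y a ^ 2 := by positivity
  rcases hs.eq_or_lt with h0 | h0
  · have : ∀ a, y a = 0 := fun a => by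
      have := (sum_eq_zero_iff_of_nonneg (fun _ _ => sq_nonneg _)).1 h0.symm a (mem_univ a)
      simpa using this
    simp [q, this]
  · set s := ∑ a, y a ^ 2 with hs'
    have e : (√s)⁻¹ ^ 2 = s⁻¹ := by rw [inv_pow, Real.sq_sqrt hs]
    have h1 : (fun a => (√s)⁻¹ * y a) ∈ {x : V → ℝ | ∑ a, x a ^ 2 = 1} := by
      simp only [Set.mem_ofPred_eq, mul_pow, ← mul_sum, e]
      exact inv_mul_cancel₀ h0.ne'
    have h2 : q M (fun a => (√s)⁻¹ * y a) ≤ q M x := hmax h1
    rw [q_scale, e, inv_mul_le_iff₀ h0] at h2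
    linarith

lemma PS.diag {B : V → V → ℝ} (h : PS B) (a : V) : 0 ≤ B a a := by
  simpa [q, dl] using h.2 (dl a)

lemma q_two (B : V → V → ℝ) (a b : V) (s t : ℝ) :
    q B (fun c => s * dl a c + t * dl b c) = s * s * B a a + s * t * B a b + t * s * B b a + t * t * B b b := by
  simp only [q, dl, add_mul, mul_add, sum_add_distrib]
  simp
  ring

lemma P_of {l : ℝ} (hl : 0 < l) {r : V → V → Prop} (B : V → V → ℝ) (hB : PS B) (ht : ∑ a, B a a = 1)
    (hs : ∀ a b, a ≠ b → ¬ r a b → B a b = 0) (hsum : 2 * l + 1 ≤ ∑ a, ∑ b, B a b) : P l r := by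
  have hne : Nonempty V := by
    by_contra h
    rw [not_nonempty_iff] at h
    simp at ht
  have hN : (0 : ℝ) < Fintype.card V := by exact_mod_cast Fintype.card_pos
  set c : ℝ := (Fintype.card V : ℝ)⁻¹ with hc
  have c0 : 0 < c := by positivity
  have hpos : ∀ a, 0 < B a a + c := fun a => by linarith [hB.diag a]
  set d : V → ℝ := fun a => √(B a a + c) with hd
  have d0 : ∀ a, 0 < d a := fun a => Real.sqrt_pos.2 (hpos a)
  have d2 : ∀ a, d a * d a = B a a + c := fun a => Real.mul_self_sqrt (hpos a).le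
  set M : V → V → ℝ := fun a b => if a = b then 0 else B a b * ((d a)⁻¹ * (d b)⁻¹) with hM
  have e1 : ∀ a b, dl a b + M a b = (B a b + c * dl a b) * ((d a)⁻¹ * (d b)⁻¹) := by
    intro a b
    simp only [hM, dl]
    split_ifs with h
    · subst h
      have := d0 a
      rw [mul_one, ← d2 a]; field_simp; simp
    · simp
  have p1 : PS (fun a b => dl a b + M a b) :=
    ((hB.add (ps_dl.smul c0.le)).mul (ps_rank (fun a => (d a)⁻¹))).congr e1
  have Msymm : ∀ a b, M a b = M b a := fun a b => by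
    have := p1.1 a b
    simp only [dl_symm a b] at this
    linarith
  have sd : ∑ a, d a ^ 2 = 2 := by
    simp only [sq, d2, sum_add_distrib, ht, sum_const, card_univ, nsmul_eq_mul, hc]
    rw [mul_inv_cancel₀ hN.ne']; norm_num
  have qd : 2 * l ≤ q M d := by
    have h1 : q (fun a b => dl a b + M a b) d = ∑ a, ∑ b, B a b + 1 := by
      rw [q_congr e1]
      have : ∀ a b, d a * ((B a b + c * dl a b) * ((d a)⁻¹ * (d b)⁻¹)) * d b = B a b + c * dl a b := by
        intro a b
        have := d0 a; have := d0 b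
        field_simp
      simp only [q, this]
      simp only [sum_add_distrib, dl, mul_ite, mul_one, mul_zero, sum_ite_eq, mem_univ, if_true,
        sum_const, card_univ, nsmul_eq_mul, hc]
      rw [mul_inv_cancel₀ hN.ne']
    rw [q_add, q_dl, sd] at h1
    linarith
  obtain ⟨x, x1, x2⟩ := exists_max M
  set L := q M x with hL
  have hlL : l ≤ L := by have := x2 d; rw [sd] at this; linarith
  have L0 : 0 < L := by linarith
  refine ⟨fun a b => l / L * M a b, ?_, ?_, ?_, x, by rw [x1]; norm_num, ?_⟩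
  · intro a b h
    simp only [hM]
    split_ifs with h'
    · simp
    · simp [hs a b h' h]
  · refine ((p1.smul (c := l / L) (by positivity)).add
      (ps_dl.smul (c := 1 - l / L) (by rw [sub_nonneg, div_le_one L0]; exact hlL))).congr (fun a b => by ring)
  · refine ⟨fun a b => by simp only [dl_symm a b, Msymm a b], fun y => ?_⟩
    rw [q_congr (B := fun a b => l * dl a b + (-(l / L)) * M a b) (fun a b => by ring), q_lin, q_dl]
    have := x2 y
    have h2 : l / L * q M y ≤ l / L * (L * ∑ a, y a ^ 2) := mul_le_mul_of_nonneg_left this (by positivity)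
    have h3 : l / L * (L * ∑ a, y a ^ 2) = l * ∑ a, y a ^ 2 := by field_simp
    linarith
  · rw [q_smul, x1, ← hL]; field_simp

noncomputable def E (a b : V) : V → V → ℝ := fun c d => dl a c * dl b d

lemma lin_expand (f : (V → V → ℝ) →L[ℝ] ℝ) (B : V → V → ℝ) : f B = ∑ a, ∑ b, B a b * f (E a b) := by
  have : B = ∑ a, ∑ b, B a b • E a b := by
    ext c d
    simp [E, dl, Finset.sum_apply]
  conv_lhs => rw [this]
  simp [map_sum]

lemma dichotomy [Nonempty V] {l : ℝ} (hl : 0 < l) {r : V → V → Prop} (hsym : ∀ a b, r a b → r b a)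
    (hirr : ∀ a, ¬ r a a) : P l r ∨ Q (2 * l + 1) r := by
  by_contra hcon
  push Not at hcon
  obtain ⟨hP, hQ⟩ := hcon
  set μ := 2 * l + 1 with hμ
  let C : Set (V → V → ℝ) := {B | PS B ∧ ∑ a, B a a = 1}
  let D : Set (V → V → ℝ) := {B | (∀ a b, a ≠ b → ¬ r a b → B a b = 0) ∧ μ ≤ ∑ a, ∑ b, B a b}
  have hdisj : Disjoint C D := by
    rw [Set.disjoint_left]
    rintro B ⟨h1, h2⟩ ⟨h3, h4⟩
    exact hP (P_of hl B h1 h2 h3 h4)
  have Cconv : Convex ℝ C := by
    rintro A ⟨a1, a2⟩ B ⟨b1, b2⟩ s t hs ht hst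
    refine ⟨((a1.smul hs).add (b1.smul ht)).congr (fun a b => by simp), ?_⟩
    simp [sum_add_distrib, ← mul_sum, a2, b2, hst]
  have Dconv : Convex ℝ D := by
    rintro A ⟨a1, a2⟩ B ⟨b1, b2⟩ s t hs ht hst
    refine ⟨fun a b h h' => by simp [a1 a b h h', b1 a b h h'], ?_⟩
    simp only [Pi.add_apply, Pi.smul_apply, smul_eq_mul, sum_add_distrib, ← mul_sum]
    have := mul_le_mul_of_nonneg_left a2 hs
    have := mul_le_mul_of_nonneg_left b2 ht
    nlinarith
  have Dcl : IsClosed D := by
    have i1 : IsClosed {B : V → V → ℝ | ∀ a b, a ≠ b → ¬ r a b → B a b = 0} := by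
      simp only [Set.ofPred_forall]
      exact isClosed_iInter fun a => isClosed_iInter fun b => isClosed_iInter fun _ => isClosed_iInter fun _ =>
        isClosed_eq (by fun_prop) continuous_const
    have i2 : IsClosed {B : V → V → ℝ | μ ≤ ∑ a, ∑ b, B a b} := isClosed_le continuous_const (by fun_prop)
    exact i1.inter i2
  have Ccomp : IsCompact C := by
    apply (isCompact_closedBall (0 : V → V → ℝ) 1).of_isClosed_subset
    · have i1 : IsClosed {B : V → V → ℝ | ∀ a b, B a b = B b a} := by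
        simp only [Set.ofPred_forall]
        exact isClosed_iInter fun a => isClosed_iInter fun b => isClosed_eq (by fun_prop) (by fun_prop)
      have i2 : IsClosed {B : V → V → ℝ | ∀ x, 0 ≤ q B x} := by
        simp only [Set.ofPred_forall]
        exact isClosed_iInter fun x => isClosed_le continuous_const (by unfold q; fun_prop)
      have i3 : IsClosed {B : V → V → ℝ | ∑ a, B a a = 1} := isClosed_eq (by fun_prop) continuous_const
      exact (i1.inter i2).inter i3
    · rintro B ⟨h1, h2⟩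
      rw [mem_closedBall_zero_iff, pi_norm_le_iff_of_nonneg zero_le_one]
      intro a
      rw [pi_norm_le_iff_of_nonneg zero_le_one]
      intro b
      have hd : ∀ a, B a a ≤ 1 := fun a => by
        rw [← h2]
        exact single_le_sum (f := fun a => B a a) (fun a _ => h1.diag a) (mem_univ a)
      have t1 := h1.2 (fun c => 1 * dl a c + 1 * dl b c)
      have t2 := h1.2 (fun c => 1 * dl a c + (-1) * dl b c)
      rw [q_two, h1.1 b a] at t1 t2
      have := hd a; have := hd b
      rw [Real.norm_eq_abs, abs_le]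
      constructor <;> linarith
  obtain ⟨f, u, v, hu, huv, hv⟩ := geometric_hahn_banach_compact_closed Cconv Ccomp Dconv Dcl hdisj
  obtain ⟨a0⟩ := ‹Nonempty V›
  set s := f (E a0 a0) with hs
  have sumE : ∀ a b : V, ∑ c, ∑ d, E a b c d = 1 := fun a b => by simp [E, dl]
  have hF : ∀ a b, (a = b ∨ r a b) → f (E a b) = s := by
    intro a b hab
    by_contra hne
    have hmem : ∀ t : ℝ, (μ - t) • E a0 a0 + t • E a b ∈ D := by
      intro t
      constructor
      · intro c d h1 h2
        have e1 : E a0 a0 c d = 0 := by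
          simp only [E, dl]; split_ifs with x y
          · exact absurd (x.symm.trans y) h1
          all_goals simp
        have e2 : E a b c d = 0 := by
          simp only [E, dl]; split_ifs with x y
          · subst x y; rcases hab with h | h
            · exact absurd h h1
            · exact absurd h h2
          all_goals simp
        simp [e1, e2]
      · simp only [Pi.add_apply, Pi.smul_apply, smul_eq_mul, sum_add_distrib, ← mul_sum, sumE]
        linarith
    have := hv _ (hmem ((v - μ * s) / (f (E a b) - s)))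
    simp only [map_add, map_smul, smul_eq_mul, ← hs] at this
    have h0 : f (E a b) - s ≠ 0 := sub_ne_zero.2 hne
    have e : (μ - (v - μ * s) / (f (E a b) - s)) * s + (v - μ * s) / (f (E a b) - s) * f (E a b) = v := by
      field_simp; ring
    linarith
  have hunit : ∀ x : V → ℝ, ∑ a, x a ^ 2 = 1 → q (fun a b => f (E a b)) x < u := by
    intro x hx
    have := hu (fun a b => x a * x b) ⟨ps_rank x, by simpa [sq] using hx⟩
    rw [lin_expand] at this
    have e : q (fun a b => f (E a b)) x = ∑ a, ∑ b, x a * x b * f (E a b) :=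
      sum_congr rfl fun a _ => sum_congr rfl fun b _ => by ring
    rwa [e]
  have h1 : s < u := by
    have := hunit (dl a0) (by simp [dl])
    simpa [q, dl] using this
  have h2 : v < μ * s := by
    have := hv (μ • E a0 a0) ⟨fun c d h1 _ => by
        have e1 : E a0 a0 c d = 0 := by
          simp only [E, dl]; split_ifs with x y
          · exact absurd (x.symm.trans y) h1
          all_goals simp
        simp [e1], by simp only [Pi.smul_apply, smul_eq_mul, ← mul_sum, sumE]; linarith⟩
    simpa using this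
  have s0 : 0 < s := by nlinarith
  obtain ⟨x, x1, x2⟩ := exists_max (fun a b => f (E a b))
  apply hQ
  refine ⟨fun a b => μ * dl a b + 1 - (2 * s)⁻¹ * (f (E a b) + f (E b a)), ⟨fun a b => ?_, fun y => ?_⟩, ?_, ?_⟩
  · simp only [dl_symm a b]; ring
  · rw [q_congr (B := fun a b => μ * dl a b + (-(2 * s)⁻¹) * (f (E a b) + f (E b a))) (fun a b => by ring),
      q_lin, q_dl, q_add (fun a b => f (E a b)) (fun a b => f (E b a))]
    have e : q (fun a b => f (E b a)) y = q (fun a b => f (E a b)) y := by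
      unfold q; rw [sum_comm]
      exact sum_congr rfl fun a _ => sum_congr rfl fun b _ => by ring
    rw [e]
    have b1 := x2 y
    have b2 := hunit x x1
    have b3 : 0 ≤ ∑ a, y a ^ 2 := by positivity
    have b4 : q (fun a b => f (E a b)) y ≤ μ * s * ∑ a, y a ^ 2 :=
      b1.trans (mul_le_mul_of_nonneg_right (by linarith) b3)
    have b5 : (2 * s)⁻¹ * (q (fun a b => f (E a b)) y + q (fun a b => f (E a b)) y) ≤ μ * ∑ a, y a ^ 2 := by
      rw [inv_mul_le_iff₀ (by positivity)]; linarith
    linarith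
  · intro a
    simp only [hF a a (Or.inl rfl), dl, if_true]
    field_simp; ring
  · intro a b h
    have hab : a ≠ b := by rintro rfl; exact hirr a h
    simp only [hF a b (Or.inr h), hF b a (Or.inr (hsym a b h)), dl, if_neg hab]
    field_simp; ring

end Pool.Agent.H22.Theta
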