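import Mathlib
import Pool.Agent.H22.Theta
import Pool.Agent.H22.Ramsey

set_option autoImplicit false
set_option linter.unusedSectionVars false
set_option maxRecDepth 100000
set_option synthInstance.maxSize 100000

namespace Pool.Agent.H22.ChromRam
open Pool.Agent.H22.Theta Finset

def cls {V : Type} (col : V → V → Bool) (b : Bool) (x y : V) : Prop := x ≠ y ∧ col x y = b

lemma dich {N : ℕ} {l : ℝ} (hl : 0 < l) (hN : (2 * l + 1) ^ 2 < N) (col : Fin N → Fin N → Bool)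
    (hc : ∀ x y, col x y = col y x) : ∃ b, P l (cls col b) := by
  have : Nonempty (Fin N) := ⟨⟨0, by
    have : (0 : ℝ) < N := lt_of_le_of_lt (by positivity) hN
    exact_mod_cast this⟩⟩
  have key := fun b => dichotomy (r := cls col b) hl (fun x y h => ⟨h.1.symm, hc x y ▸ h.2⟩) (fun x h => h.1 rfl)
  rcases key true with h1 | h1
  · exact ⟨_, h1⟩
  rcases key false with h2 | h2
  · exact ⟨_, h2⟩
  have := card_le h1 h2 (fun a b hab => by
    cases h : col a b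
    · exact Or.inr ⟨hab, h⟩
    · exact Or.inl ⟨hab, h⟩)
  simp only [Fintype.card_fin] at this
  linarith

lemma prod_exists {N : ℕ} {l : ℝ} (hl : 1 ≤ l) (hN : (2 * l + 1) ^ 2 < N)
    (s : Finset ((Fin N → Fin N → Bool) × Bool)) :
    ∃ (W : Type) (_ : Fintype W) (h : W → W → Prop), P l h ∧ (∀ x y, h x y → h y x) ∧ (∀ x, ¬ h x x) ∧
      ∀ p ∈ s, (∀ x y, p.1 x y = p.1 y x) → P l (cls p.1 p.2) →
        ∃ φ : W → Fin N, ∀ x y, h x y → cls p.1 p.2 (φ x) (φ y) := by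
  classical
  induction s using Finset.induction_on with
  | empty =>
    obtain ⟨b, hb⟩ := dich (by linarith) hN (fun _ _ => true) (fun _ _ => rfl)
    exact ⟨_, inferInstance, _, hb, fun x y h => ⟨h.1.symm, h.2⟩, fun x h => h.1 rfl, by simp⟩
  | insert p s _ ih =>
    obtain ⟨W, _, h, h1, h2, h3, h4⟩ := ih
    by_cases hp : (∀ x y, p.1 x y = p.1 y x) ∧ P l (cls p.1 p.2)
    · refine ⟨W × Fin N, inferInstance, _, h1.tensor hl hp.2,
        fun x y hh => ⟨h2 _ _ hh.1, hh.2.1.symm, hp.1 _ _ ▸ hh.2.2⟩, fun x hh => h3 _ hh.1, ?_⟩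
      intro p' hp' a1 a2
      rcases mem_insert.1 hp' with rfl | hp'
      · exact ⟨fun x => x.2, fun x y hh => hh.2⟩
      · obtain ⟨φ, hφ⟩ := h4 p' hp' a1 a2
        exact ⟨fun x => φ x.1, fun x y hh => hφ _ _ hh.1⟩
    · refine ⟨W, inferInstance, h, h1, h2, h3, fun p' hp' a1 a2 => ?_⟩
      rcases mem_insert.1 hp' with rfl | hp'
      · exact absurd ⟨a1, a2⟩ hp
      · exact h4 p' hp' a1 a2

lemma core {N : ℕ} {l : ℝ} (hl : 1 ≤ l) (hN : (2 * l + 1) ^ 2 < N) :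
    ∃ (n : ℕ) (h : Fin n → Fin n → Prop), 0 < n ∧ ¬ Q l h ∧ (∀ x y, h x y → h y x) ∧ (∀ x, ¬ h x x) ∧
      ∀ col : Fin N → Fin N → Bool, (∀ x y, col x y = col y x) →
        ∃ (φ : Fin n → Fin N) (b : Bool), ∀ x y, h x y → cls col b (φ x) (φ y) := by
  obtain ⟨W, _, h, h1, h2, h3, h4⟩ := prod_exists hl hN univ
  let e := (Fintype.equivFin W).symm
  refine ⟨_, fun x y => h (e x) (e y), ?_, fun hQ => ?_, fun x y => h2 _ _, fun x => h3 _, fun col hc => ?_⟩
  · obtain ⟨_, _, _, _, x, x1, _⟩ := h1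
    rw [Fintype.card_pos_iff]
    by_contra hc
    rw [not_nonempty_iff] at hc
    simp at x1
  · have := weak h1 (hQ.comap e.symm (fun a b hab => by simpa using hab))
    linarith
  · obtain ⟨b, hb⟩ := dich (by linarith) hN col hc
    obtain ⟨φ, hφ⟩ := h4 (col, b) (mem_univ _) hc hb
    exact ⟨fun x => φ (e x), b, fun x y hh => hφ _ _ hh⟩

def Good {V : Type} [Fintype V] (adj : V → V → Prop) (n1 n2 : ℝ) : Prop :=
  (∀ x y, adj x y → adj y x) ∧ (∀ x, ¬ adj x x) ∧ Q n1 (fun a b => a ≠ b ∧ ¬ adj a b) ∧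
    ∀ v, Q n2 (fun a b => (v = a ∨ adj v a) ∧ (v = b ∨ adj v b) ∧ adj a b)

lemma Good.prod {V W : Type} [Fintype V] [Fintype W] {r : V → V → Prop} {r' : W → W → Prop} {n1 n2 m1 m2 : ℝ}
    (h : Good r n1 n2) (h' : Good r' m1 m2) :
    Good (fun s t : V × W => s ≠ t ∧ (s.1 = t.1 ∨ r s.1 t.1) ∧ (s.2 = t.2 ∨ r' s.2 t.2)) (n1 * m1) (n2 * m2) := by
  obtain ⟨a1, a2, a3, a4⟩ := h
  obtain ⟨b1, b2, b3, b4⟩ := h'
  refine ⟨fun x y h => ⟨h.1.symm, h.2.1.imp Eq.symm (a1 _ _), h.2.2.imp Eq.symm (b1 _ _)⟩, fun x h => h.1 rfl,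
    (a3.or b3).comap id ?_, fun v => ((a4 v.1).or (b4 v.2)).comap id ?_⟩
  · intro s t h
    simp only [id]
    tauto
  · rintro s t ⟨h1, h2, h3, h4, h5⟩
    simp only [id]
    have c1 : (v.1 = s.1 ∨ r v.1 s.1) ∧ (v.2 = s.2 ∨ r' v.2 s.2) := by
      rcases h1 with rfl | h1
      · simp
      · exact h1.2
    have c2 : (v.1 = t.1 ∨ r v.1 t.1) ∧ (v.2 = t.2 ∨ r' v.2 t.2) := by
      rcases h2 with rfl | h2
      · simp
      · exact h2.2
    rcases h4 with h4 | h4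
    · rcases h5 with h5 | h5
      · exact absurd (Prod.ext h4 h5) h3
      · exact Or.inr ⟨c1.2, c2.2, h5⟩
    · exact Or.inl ⟨c1.1, c2.1, h4⟩

lemma Q_empty {V : Type} [Fintype V] {r : V → V → Prop} (h : ∀ a b, ¬ r a b) : Q 1 r :=
  ⟨fun _ _ => 1, ps_zero.congr (by simp), fun _ => rfl, fun a b hab => absurd hab (h a b)⟩

lemma good_unit : Good (fun _ _ : Unit => False) 1 1 :=
  ⟨by simp, by simp, Q_empty (by simp), fun _ => Q_empty (by simp)⟩

lemma good_two : Good (fun a b : Fin 2 => a ≠ b) 1 2 :=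
  ⟨fun _ _ h => h.symm, by simp, Q_empty (by simp), fun _ => by
    have := Q_ne 2
    exact this.comap id (fun a b h => h.2.2)⟩

def pa (a b : Fin 10) : Bool :=
  (([50, 69, 138, 276, 521, 385, 770, 548, 104, 208] : List ℕ).getD a 0).testBit b

def Z (a b : Fin 10) : ℤ := (if a = b then 4 else 0) + (if pa a b then 2 else 0) - 1

lemma Z_sq : ∀ a b, ∑ c, Z c a * Z c b = 6 * Z a b := by decide +kernel

lemma good_pet : Good (fun a b : Fin 10 => pa a b = true) 4 2 := by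
  refine ⟨by decide +kernel, by decide +kernel, ⟨fun a b => (Z a b : ℝ) + 1, ?_, ?_, ?_⟩, fun v => ?_⟩
  · refine ((ps_gram (fun c a => (Z c a : ℝ))).smul (c := 1 / 6) (by norm_num)).congr (fun a b => ?_)
    have : ∑ c, (Z c a : ℝ) * Z c b = 6 * Z a b := by exact_mod_cast Z_sq a b
    rw [this]; ring
  · intro a
    have : ∀ a, Z a a = 3 := by decide +kernel
    simp only [this]; norm_num
  · intro a b h
    have : ∀ a b, a ≠ b → ¬ pa a b = true → Z a b = -1 := by decide +kernel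
    simp only [this a b h.1 h.2]; norm_num
  · have := Q_ne 2
    refine this.comap (fun a => if a = v then 0 else 1) ?_
    revert v
    decide +kernel

lemma good_pow (k : ℕ) : ∃ (V : Type) (_ : Fintype V) (adj : V → V → Prop),
    Fintype.card V = 20 ^ k ∧ Good adj (4 ^ k) (4 ^ k) := by
  induction k with
  | zero => exact ⟨Unit, inferInstance, _, by simp, by simpa using good_unit⟩
  | succ k ih =>
    obtain ⟨V, _, adj, h1, h2⟩ := ih
    have := h2.prod (good_pet.prod good_two)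
    rw [show (4 : ℝ) * 1 = 4 by norm_num, show (2 : ℝ) * 2 = 4 by norm_num, ← pow_succ] at this
    exact ⟨V × Fin 10 × Fin 2, inferInstance, _, by simp [h1, pow_succ], this⟩

def cone {n : ℕ} (h : Fin n → Fin n → Prop) (hs : ∀ x y, h x y → h y x) : SimpleGraph (Fin (n + 1)) where
  Adj x y := x ≠ y ∧ (x = 0 ∨ y = 0 ∨ ∃ a b, x = a.succ ∧ y = b.succ ∧ h a b)
  symm := ⟨fun x y hh => ⟨hh.1.symm, by
    rcases hh.2 with h1 | h1 | ⟨a, b, h1, h2, h3⟩
    · exact Or.inr (Or.inl h1)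
    · exact Or.inl h1
    · exact Or.inr (Or.inr ⟨b, a, h2, h1, hs _ _ h3⟩)⟩⟩
  loopless := ⟨fun x hh => hh.1 rfl⟩

lemma cone_zero {n : ℕ} (h : Fin n → Fin n → Prop) (hs : ∀ x y, h x y → h y x) (a : Fin n) :
    (cone h hs).Adj 0 a.succ := ⟨(Fin.succ_ne_zero a).symm, Or.inl rfl⟩

lemma cone_succ {n : ℕ} (h : Fin n → Fin n → Prop) (hs : ∀ x y, h x y → h y x) (hi : ∀ x, ¬ h x x) (a b : Fin n) :
    (cone h hs).Adj a.succ b.succ ↔ h a b := by
  constructor
  · rintro ⟨_, h1 | h1 | ⟨a', b', h1, h2, h3⟩⟩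
    · exact absurd h1 (Fin.succ_ne_zero _)
    · exact absurd h1 (Fin.succ_ne_zero _)
    · rw [Fin.succ_inj] at h1 h2; rwa [h1, h2]
  · intro hab
    refine ⟨fun e => ?_, Or.inr (Or.inr ⟨a, b, rfl, rfl, hab⟩)⟩
    rw [Fin.succ_inj] at e
    exact hi a (e ▸ hab)

lemma lower {n k : ℕ} (h : Fin n → Fin n → Prop) (hs : ∀ x y, h x y → h y x) (hi : ∀ x, ¬ h x x)
    (hQ : ¬ Q (4 ^ k) h) (N m : ℕ) (H : SimpleGraph (Fin m)) (hH : H.Colorable N)
    (harr : ∀ col : Fin m → Fin m → Bool, (∀ a b, col a b = col b a) →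
      ∃ (f : Fin (n + 1) → Fin m) (b : Bool), Function.Injective f ∧
        ∀ x y : Fin (n + 1), (cone h hs).Adj x y → H.Adj (f x) (f y) ∧ col (f x) (f y) = b) : 20 ^ k ≤ N := by
  classical
  by_contra hc
  obtain ⟨V, _, adj, h1, g1, g2, g3, g4⟩ := good_pow k
  obtain ⟨ι⟩ := Function.Embedding.nonempty_of_card_le (α := Fin N) (β := V) (by rw [h1]; simp; omega)
  obtain ⟨C⟩ := hH
  obtain ⟨f, b, _, hf⟩ := harr (fun a b => decide (adj (ι (C a)) (ι (C b))))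
    (fun a b => decide_eq_decide.2 ⟨g1 _ _, g1 _ _⟩)
  apply hQ
  cases b
  · refine g3.comap (fun x => ι (C (f x.succ))) (fun a b hab => ?_)
    obtain ⟨a1, a2⟩ := hf _ _ ((cone_succ h hs hi a b).2 hab)
    exact ⟨fun e => C.valid a1 (ι.injective e), by simpa using a2⟩
  · refine (g4 (ι (C (f 0)))).comap (fun x => ι (C (f x.succ))) (fun a b hab => ?_)
    obtain ⟨_, a2⟩ := hf _ _ ((cone_succ h hs hi a b).2 hab)
    obtain ⟨_, a3⟩ := hf _ _ (cone_zero h hs a)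
    obtain ⟨_, a4⟩ := hf _ _ (cone_zero h hs b)
    exact ⟨Or.inr (by simpa using a3), Or.inr (by simpa using a4), by simpa using a2⟩

lemma host_any {n : ℕ} (G : SimpleGraph (Fin n)) : ∃ (N m : ℕ) (H : SimpleGraph (Fin m)), H.Colorable N ∧
    ∀ col : Fin m → Fin m → Bool, (∀ a b, col a b = col b a) →
      ∃ (f : Fin n → Fin m) (b : Bool), Function.Injective f ∧
        ∀ x y : Fin n, G.Adj x y → H.Adj (f x) (f y) ∧ col (f x) (f y) = b := by
  obtain ⟨R, hR⟩ := Ramsey.ramsey_fin n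
  refine ⟨R, R, ⊤, ⟨SimpleGraph.Coloring.mk id (fun h => h)⟩, fun col hc => ?_⟩
  obtain ⟨f, b, h1, h2⟩ := hR col hc
  exact ⟨f, b, h1, fun x y hxy => ⟨fun e => hxy.ne (h1 e), h2 x y hxy.ne⟩⟩

lemma upper {n N : ℕ} (h : Fin n → Fin n → Prop)
    (hh : ∀ col : Fin N → Fin N → Bool, (∀ x y, col x y = col y x) →
        ∃ (φ : Fin n → Fin N) (b : Bool), ∀ x y, h x y → cls col b (φ x) (φ y)) :
    ∃ (m : ℕ) (H : SimpleGraph (Fin m)), H.Colorable N ∧
    ∀ col : Fin m → Fin m → Bool, (∀ a b, col a b = col b a) →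
      ∃ (f : Fin n → Fin m) (b : Bool), Function.Injective f ∧
        ∀ x y : Fin n, h x y → H.Adj (f x) (f y) ∧ col (f x) (f y) = b := by
  obtain ⟨m, hm⟩ := Ramsey.partite N n
  let e : Fin N × Fin m ≃ Fin (N * m) := finProdFinEquiv
  refine ⟨N * m, SimpleGraph.comap (fun x => (e.symm x).1) ⊤,
    ⟨SimpleGraph.Coloring.mk (fun x => (e.symm x).1) (fun h => h)⟩, fun col hc => ?_⟩
  obtain ⟨g, c', g1, g2, g3⟩ := hm (fun x y => col (e x) (e y)) (fun x y => hc _ _)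
  obtain ⟨φ, b, hφ⟩ := hh c' g2
  refine ⟨fun x => e (φ x, g (φ x) x), b, fun x y hxy => ?_, fun x y hxy => ?_⟩
  · have := e.injective hxy
    simp only [Prod.mk.injEq] at this
    obtain ⟨a1, a2⟩ := this
    rw [a1] at a2
    exact g1 _ a2
  · obtain ⟨a1, a2⟩ := hφ x y hxy
    exact ⟨by simpa using a1, (g3 _ _ _ _ a1).trans a2⟩

end Pool.Agent.H22.ChromRam
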