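import Pool.Agent.H22.ClawDefs
import Pool.Agent.H22.CT7

namespace Pool.Agent.H22.CT

open Pool.Agent.H38.NP Pool.Agent.H36.Par SimpleGraph Function

theorem bridge1 {V : Type} {N : ℕ} (G : SimpleGraph (Fin N)) (k : ℕ) (e : Fin N → V)
    (he : Injective e) (dom : V → Prop) (adj : V → V → Prop) (hd : ∀ x, dom x ↔ ∃ u, e u = x)
    (ha : ∀ u v, adj (e u) (e v) ↔ G.Adj u v) (hda : ∀ x y, adj x y → dom x ∧ dom y)
    {m : ℕ} (hm : 0 < m) (H : SimpleGraph (Fin m)) (h : ℕ → ℕ → Bool)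
    (h1 : ∀ i j : Fin m, i ≠ j → (H.Adj i j ↔ h i j = true)) :
    (∃ F : Finset (Sym2 (Fin N)), (F : Set (Sym2 (Fin N))) ⊆ G.edgeSet ∧ F.card ≤ k ∧
      Free H (contract G F)) ↔
    ∃ F : List (V × V), (∀ p ∈ F, adj p.1 p.2) ∧ F.length ≤ k ∧ NoP dom adj m h F := by
  have key : ∀ (L : List (Fin N × Fin N)), (NoP dom adj m h (L.map (Prod.map e e)) ↔
      ¬ ∃ f, Pat (fun _ => True) G.Adj m h L f) := fun L => by
    have := fun f => pat_map (F := L) (dom := fun _ => True) (adj := G.Adj) (dom' := dom)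
      (adj' := adj) (ψ := e) (R := fun _ => True) (fun _ _ => trivial)
      (fun a b _ _ h => he h) (fun a b _ _ => ha a b)
      (fun a _ => iff_of_true ((hd _).2 ⟨a, rfl⟩) trivial) (m := m) (h := h) (f := f)
      fun _ _ => trivial
    refine not_congr ⟨fun ⟨g, hg⟩ => ?_, fun ⟨f, hf⟩ => ⟨_, (this f).2 hf⟩⟩
    obtain ⟨u0, -⟩ := (hd _).1 (hg.1 0 hm)
    have h3 : ∀ i, ∃ u, i < m → e u = g i := fun i => by
      by_cases hi : i < m
      · obtain ⟨u, hu⟩ := (hd _).1 (hg.1 i hi); exact ⟨u, fun _ => hu⟩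
      · exact ⟨u0, fun h => absurd h hi⟩
    choose f hf using h3
    exact ⟨f, (this f).1 (hg.congr fun i hi => (hf i hi).symm)⟩
  constructor
  · rintro ⟨F, hF, hk, hp⟩
    have hL : ∀ u v, s(u, v) ∈ (F : Set (Sym2 (Fin N))) ↔
        ((u, v) ∈ F.toList.map Quot.out ∨ (v, u) ∈ F.toList.map Quot.out) := fun u v => by
      simp only [Finset.mem_coe, List.mem_map, Finset.mem_toList]
      constructor
      · intro h
        have : s((Quot.out s(u, v)).1, (Quot.out s(u, v)).2) = s(u, v) := Quot.out_eq _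
        rcases Sym2.eq_iff.1 this with h' | h'
        · exact Or.inl ⟨_, h, Prod.ext h'.1 h'.2⟩
        · exact Or.inr ⟨_, h, Prod.ext h'.1 h'.2⟩
      · rintro (⟨s, hs, e⟩ | ⟨s, hs, e⟩)
        · have : s(u, v) = s := by rw [← Quot.out_eq s, e]
          exact this ▸ hs
        · have : s(v, u) = s := by rw [← Quot.out_eq s, e]
          rw [Sym2.eq_swap]; exact this ▸ hs
    refine ⟨(F.toList.map Quot.out).map (Prod.map e e), ?_, by simpa using hk,
      (key _).2 ((emb_iff G _ _ hL hm _ _ h1).1 hp)⟩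
    intro p hp
    obtain ⟨⟨u, v⟩, h, rfl⟩ := List.mem_map.1 hp
    exact (ha u v).2 (hF ((hL u v).2 (Or.inl h)))
  · rintro ⟨F, hF, hk, hp⟩
    obtain ⟨L, rfl⟩ : ∃ L : List (Fin N × Fin N), L.map (Prod.map e e) = F := by
      clear hk hp
      induction F with
      | nil => exact ⟨[], rfl⟩
      | cons p F ih =>
        obtain ⟨L, rfl⟩ := ih fun q hq => hF q (by simp [hq])
        obtain ⟨⟨u, hu⟩, v, hv⟩ := (hda _ _ (hF p (by simp))).imp (hd _).1 (hd _).1
        exact ⟨(u, v) :: L, by simp [hu, hv]⟩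
    obtain ⟨F0, hF0⟩ : ∃ F0 : Finset (Sym2 (Fin N)),
      F0 = (L.map fun p => s(p.1, p.2)).toFinset := ⟨_, rfl⟩
    have hL : ∀ u v, s(u, v) ∈ (F0 : Set (Sym2 (Fin N))) ↔ ((u, v) ∈ L ∨ (v, u) ∈ L) :=
        fun u v => by
      simp only [hF0, Finset.mem_coe, List.mem_toFinset, List.mem_map]
      constructor
      · rintro ⟨⟨a, b⟩, h, e⟩
        rcases Sym2.eq_iff.1 e with ⟨rfl, rfl⟩ | ⟨rfl, rfl⟩
        · exact Or.inl h
        · exact Or.inr h
      · rintro (h | h)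
        · exact ⟨_, h, rfl⟩
        · exact ⟨_, h, Sym2.eq_swap⟩
    refine ⟨F0, ?_, hF0 ▸ (List.toFinset_card_le _).trans (by simpa using hk),
      (emb_iff G _ L hL hm H h h1).2 ((key L).1 hp)⟩
    intro s hs
    rw [hF0] at hs
    obtain ⟨p, hp, rfl⟩ := List.mem_map.1 (List.mem_toFinset.1 hs)
    exact (ha p.1 p.2).1 (hF (e p.1, e p.2) (List.mem_map.2 ⟨p, hp, rfl⟩))

theorem tg_bridge1 {T : Type} (L : List T) [DecidableEq T] (r : T → T → Bool) (d : T) (k : ℕ)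
    {m : ℕ} (hm : 0 < m) (H : SimpleGraph (Fin m)) (h : ℕ → ℕ → Bool)
    (h1 : ∀ i j : Fin m, i ≠ j → (H.Adj i j ↔ h i j = true)) :
    Con₁ H ((dd L).length, tgE (dd L) r d, k) ↔
    ∃ F : List (T × T), (∀ p ∈ F, p.1 ∈ L ∧ p.2 ∈ L ∧ TA r p.1 p.2) ∧ F.length ≤ k ∧
      NoP (· ∈ L) (fun a b => a ∈ L ∧ b ∈ L ∧ TA r a b) m h F := by
  obtain ⟨e, he, hm0, ha⟩ := tg_spec (dd_spec L).2.1 r d
  have hm' : ∀ x, x ∈ L ↔ ∃ u, e u = x := fun x => ((dd_spec L).2.2 x).symm.trans (hm0 x)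
  exact bridge1 _ k e he (· ∈ L) (fun a b => a ∈ L ∧ b ∈ L ∧ TA r a b) hm' (fun u v => by
    rw [ha]; exact ⟨fun h => h.2.2, fun h => ⟨(hm' _).2 ⟨u, rfl⟩, (hm' _).2 ⟨v, rfl⟩, h⟩⟩)
    (fun x y h => ⟨h.1, h.2.1⟩) hm H h h1

theorem claw_pat {V : Type} {dom : V → Prop} {ad : V → V → Prop} (hsy : ∀ a b, ad a b → ad b a)
    {F : List (V × V)} {c p q r : V} (d0 : dom c) (d1 : dom p) (d2 : dom q) (d3 : dom r)
    (a1 : ¬ E F c p ∧ QA ad F c p) (a2 : ¬ E F c q ∧ QA ad F c q)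
    (a3 : ¬ E F c r ∧ QA ad F c r)
    (n1 : ¬ E F p q ∧ ¬ QA ad F p q) (n2 : ¬ E F p r ∧ ¬ QA ad F p r)
    (n4 : ¬ E F q r ∧ ¬ QA ad F q r) :
    ∃ f, Pat dom ad 4 hs F f := by
  have s1 : ∀ {a b}, ¬ E F a b ∧ QA ad F a b → ¬ E F b a ∧ QA ad F b a := fun h =>
    ⟨fun e => h.1 e.symm, h.2.symm hsy⟩
  have s2 : ∀ {a b}, ¬ E F a b ∧ ¬ QA ad F a b → ¬ E F b a ∧ ¬ QA ad F b a := fun h =>
    ⟨fun e => h.1 e.symm, fun e => h.2 (e.symm hsy)⟩
  have b1 := s1 a1; have b2 := s1 a2; have b3 := s1 a3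
  have m1 := s2 n1; have m2 := s2 n2; have m4 := s2 n4
  refine ⟨fun t => [c, p, q, r].getD t c, fun t ht => ?_, fun i hi j hj hij => ?_⟩
  · interval_cases t <;> assumption
  · interval_cases i <;> interval_cases j <;> simp_all [hs]

def PR : List (ℕ × ℕ) := [(0, 1), (0, 3), (1, 6), (1, 7), (2, 3), (2, 5), (2, 7), (3, 4), (3, 5),
  (3, 6), (4, 5), (4, 6)]

def inc (x : GK) (u i v : ℕ) : Bool :=
  if v < x.1 then cov x u v else decide (u < x.1) || decide (v = x.1 + i)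

def r3 (x : GK) (a b : T3) : Bool :=
  decide (a.1 = b.1) || decide ((a.1, b.1) ∈ PR) ||
  (decide (a.1 = 1) && decide (b.1 = 2) && inc x a.2.1 a.2.2 b.2.1) ||
  (decide (a.1 = 7) && decide (b.1 = 5) && decide (a.2.2 = b.2.1))

def ok3 (n m : ℕ) (a : T3) : Bool :=
  decide (a = (0, 0, 0)) || (decide (a.1 = 1) && decide (a.2.1 < n) && decide (a.2.2 = 0)) ||
  (decide (a.1 = 1) && decide (a.2.1 = n)) || decide (a.1 = 2) ||
  (decide (a.1 = 5) && decide (a.2.1 ≤ m)) || (decide (3 ≤ a.1) && decide (a.2.1 = 0))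

def L3 (x : GK) : List T3 :=
  ((List.range 8).product ((List.range (x.1 + (2 * x.2.2 + 1) + 1)).product
    (List.range (2 * x.2.2 + 1)))).filter (ok3 x.1 (2 * x.2.2 + 1))

theorem mem_L3 {x : GK} {a : T3} : a ∈ L3 x ↔ a.1 < 8 ∧ a.2.1 ≤ x.1 + (2 * x.2.2 + 1) ∧
    a.2.2 < 2 * x.2.2 + 1 ∧ ((a.1 = 0 ∧ a.2.1 = 0 ∧ a.2.2 = 0) ∨ (a.1 = 1 ∧ a.2.1 < x.1 ∧ a.2.2 = 0) ∨
      (a.1 = 1 ∧ a.2.1 = x.1) ∨ a.1 = 2 ∨ (a.1 = 5 ∧ a.2.1 ≤ 2 * x.2.2 + 1) ∨
      (3 ≤ a.1 ∧ a.2.1 = 0)) := by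
  obtain ⟨t, u, j⟩ := a
  simp [L3, ok3, and_assoc, or_assoc, Nat.lt_succ_iff]

def R3 (x : GK) (a b : T3) : Prop :=
  a.1 = b.1 ∨ (a.1, b.1) ∈ PR ∨ (a.1 = 1 ∧ b.1 = 2 ∧ inc x a.2.1 a.2.2 b.2.1 = true) ∨
    (a.1 = 7 ∧ b.1 = 5 ∧ a.2.2 = b.2.1)

theorem TA3 {x : GK} {a b : T3} : TA (r3 x) a b ↔ a ≠ b ∧ (R3 x a b ∨ R3 x b a) := by
  simp only [TA, r3, R3, Bool.or_eq_true, Bool.and_eq_true, decide_eq_true_eq, and_assoc, or_assoc]

def red3 (x : GK) : GK :=
  if x.1 = 0 then (0, [], 0) else ((dd (L3 x)).length, tgE (dd (L3 x)) (r3 x) (0, 0, 0), x.2.2)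

def ful (s t : ℕ) : Prop := s = t ∨ (s, t) ∈ PR ∨ (t, s) ∈ PR ∨ (s = 0 ∧ (t = 2 ∨ t = 6 ∨ t = 7)) ∨
  (t = 0 ∧ (s = 2 ∨ s = 6 ∨ s = 7))

def may (s t : ℕ) : Prop := ful s t ∨ (s = 1 ∧ t = 2) ∨ (s = 2 ∧ t = 1) ∨ (s = 5 ∧ t = 7) ∨
  (s = 7 ∧ t = 5)

instance (s t : ℕ) : Decidable (ful s t) := by unfold ful; infer_instance
instance (s t : ℕ) : Decidable (may s t) := by unfold may; infer_instance

theorem types_ok : ∀ c < 8, ∀ p < 8, ∀ q < 8, ∀ r < 8, may c p → may c q → may c r →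
    ful p q ∨ ful p r ∨ ful q r := by
  have : ((List.range 8).all fun c => (List.range 8).all fun p => (List.range 8).all fun q =>
      (List.range 8).all fun r => decide (may c p → may c q → may c r →
        ful p q ∨ ful p r ∨ ful q r)) = true := by decide +kernel
  simpa only [List.all_eq_true, List.mem_range, decide_eq_true_eq] using this

theorem ful_symm {s t} : ful s t → ful t s
  | .inl h => .inl h.symm
  | .inr (.inl h) => .inr (.inr (.inl h))
  | .inr (.inr (.inl h)) => .inr (.inl h)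
  | .inr (.inr (.inr h)) => .inr (.inr (.inr h.symm))

theorem may_symm {s t} : may s t → may t s
  | .inl h => .inl (ful_symm h)
  | .inr h => .inr (by omega)

theorem may_R3 {x a b} : R3 x a b → may a.1 b.1
  | .inl h => .inl (.inl h)
  | .inr (.inl h) => .inl (.inr (.inl h))
  | .inr (.inr h) => .inr (by omega)

theorem may0 : ∀ s < 2, ∀ t < 8, may s t → may 0 t := by decide

theorem ful_R3 {x a b} (h1 : a.1 ≠ 0) (h2 : b.1 ≠ 0) : ful a.1 b.1 → R3 x a b ∨ R3 x b a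
  | .inl h => .inl (.inl h)
  | .inr (.inl h) => .inl (.inr (.inl h))
  | .inr (.inr (.inl h)) => .inr (.inr (.inl h))
  | .inr (.inr (.inr h)) => absurd h (by omega)

theorem red3_iff (x : GK) : DomSet x ↔ Con₁ claw (red3 x) := by
  by_cases hn : x.1 = 0
  · obtain ⟨n, L, k⟩ := x
    obtain rfl : n = 0 := hn
    refine iff_of_true ⟨∅, by simp, fun v => v.elim0⟩ ⟨∅, by simp, by simp, ⟨fun φ => ?_⟩⟩
    obtain ⟨v, -⟩ := (φ 0).exists_rep
    exact Fin.elim0 v
  rw [red3, if_neg hn, tg_bridge1 (L3 x) (r3 x) (0, 0, 0) x.2.2 (by omega : 0 < 4) claw hs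
    (fun i j h => by
      rw [claw, fromRel_adj]
      simp only [hs, ne_eq, h, not_false_eq_true, true_and, Bool.or_eq_true, decide_eq_true_eq]
      exact or_congr Fin.ext_iff Fin.ext_iff), dom_iff]
  set ad : T3 → T3 → Prop := fun a b => a ∈ L3 x ∧ b ∈ L3 x ∧ TA (r3 x) a b with had
  have hsy : ∀ a b, ad a b → ad b a := fun a b h => ⟨h.2.1, h.1, h.2.2.symm⟩
  have hz : ((0, 0, 0) : T3) ∈ L3 x := mem_L3.2 (by simp)
  constructor
  · rintro ⟨S, h1, h2, h3⟩
    classical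
    set S' : List T3 := S.toList.map fun u => (1, u, 0) with hS'
    have hS : ∀ s ∈ S', s.1 = 1 ∧ s ∈ L3 x := fun s hs => by
      obtain ⟨u, hu, rfl⟩ := List.mem_map.1 hs
      have := h2 u (Finset.mem_toList.1 hu)
      exact ⟨rfl, mem_L3.2 (by simp; omega)⟩
    refine ⟨S'.map fun s => ((0, 0, 0), s), ?_, by simpa [hS'] using h1, ?_⟩
    · intro p hp
      obtain ⟨s, hs, rfl⟩ := List.mem_map.1 hp
      have := (hS s hs).1
      exact ⟨hz, (hS s hs).2, TA3.2 ⟨fun e => by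
        have e' : (0, 0, 0) = s := e
        rw [← e'] at this; simp at this, by simp [R3, PR, this]⟩⟩
    · rintro ⟨f, hd, hf⟩
      set F0 := S'.map fun s => (((0, 0, 0) : T3), s) with hF0
      let W : T3 → Prop := fun a => a = (0, 0, 0) ∨ a ∈ S'
      let τ : T3 → ℕ := fun a => if W a then 0 else a.1
      have hm : ∀ u ∈ S, ((1, u, 0) : T3) ∈ S' := fun u hu =>
        List.mem_map.2 ⟨u, Finset.mem_toList.2 hu, rfl⟩
      have h0 : ∀ b ∈ L3 x, ¬ W b → b.1 ≠ 0 := fun b hb h e => by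
        have := mem_L3.1 hb
        exact h (Or.inl (Prod.ext e (Prod.ext (by simp; omega) (by simp; omega))))
      have hW : ∀ a b, W a → ¬ W b → b ∈ L3 x → ful 0 b.1 → QA ad F0 a b := by
        intro a b ha hb hbL hl
        have b0 := h0 b hbL hb
        have via : ∀ s, W s → s ∈ L3 x → R3 x s b → QA ad F0 a b := fun s h h' h'' =>
          ⟨s, b, star_E' _ _ ha h, E.refl _ _, h', hbL, TA3.2 ⟨fun e => hb (e ▸ h), Or.inl h''⟩⟩
        obtain ⟨u0, hu0, -⟩ := h3 0 (by omega)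
        have hc : (b.1 = 1 ∨ b.1 = 3) ∨ (b.1 = 6 ∨ b.1 = 7) ∨ b.1 = 2 := by
          simp [ful, PR] at hl; omega
        rcases hc with h | h | h
        · exact via _ (Or.inl rfl) hz (by rcases h with h | h <;> simp [R3, PR, h])
        · exact via _ (Or.inr (hm _ hu0)) (hS _ (hm _ hu0)).2
            (by rcases h with h | h <;> simp [R3, PR, h])
        · by_cases e : b.2.1 < x.1
          · obtain ⟨u, hu, hc⟩ := h3 _ e
            exact via _ (Or.inr (hm _ hu)) (hS _ (hm _ hu)).2 (by simp [R3, h, inc, e, hc])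
          · exact via _ (Or.inr (hm _ hu0)) (hS _ (hm _ hu0)).2
              (by simp [R3, h, inc, e, h2 _ hu0])
      have P1 : ∀ a b, a ∈ L3 x → b ∈ L3 x → ¬ E F0 a b → ful (τ a) (τ b) → QA ad F0 a b := by
        intro a b ha hb hne hl
        by_cases h1 : W a <;> by_cases h2 : W b <;> simp only [τ, h1, h2, if_true, if_false] at hl
        · exact absurd (star_E' _ _ h1 h2) hne
        · exact hW a b h1 h2 hb hl
        · exact (hW b a h2 h1 ha (ful_symm hl)).symm hsy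
        · exact QA.of ⟨ha, hb, TA3.2 ⟨fun e => hne (e ▸ E.refl _ _),
            ful_R3 (h0 a ha h1) (h0 b hb h2) hl⟩⟩
      have hV : ∀ u b, W u → ad u b → may 0 b.1 := fun u b hu h => by
        have h4 := (TA3.1 h.2.2).2
        have h5 : u.1 = 0 ∨ u.1 = 1 := hu.imp (congrArg Prod.fst) fun h => (hS _ h).1
        exact may0 u.1 (by omega) _ (mem_L3.1 h.2.1).1
          (h4.elim may_R3 fun h => may_symm (may_R3 h))
      have P2 : ∀ a b, ¬ E F0 a b → QA ad F0 a b → may (τ a) (τ b) := by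
        rintro a b hne ⟨u, v, e1, e2, e3⟩
        have w1 := star_E _ _ e1
        have w2 := star_E _ _ e2
        by_cases h1 : W a <;> by_cases h2 : W b <;> simp only [τ, h1, h2, if_true, if_false]
        · exact absurd (star_E' _ _ h1 h2) hne
        · obtain rfl := w2.resolve_right fun h => h2 h.1
          exact hV u b (w1.elim (fun e => e ▸ h1) fun h => h.2) e3
        · obtain rfl := w1.resolve_right fun h => h1 h.1
          exact may_symm (hV v a (w2.elim (fun e => e ▸ h2) fun h => h.2) (hsy _ _ e3))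
        · obtain rfl := w2.resolve_right fun h => h2 h.1
          obtain rfl := w1.resolve_right fun h => h1 h.1
          exact (TA3.1 e3.2.2).2.elim may_R3 fun h => may_symm (may_R3 h)
      have hτ : ∀ i < 4, τ (f i) < 8 := fun i hi => by
        have := (mem_L3.1 (hd i hi)).1
        simp only [τ]; split_ifs <;> omega
      have hy : ∀ i < 4, i ≠ 0 → may (τ (f 0)) (τ (f i)) := fun i hi h =>
        have := hf 0 (by omega) i hi h.symm
        P2 _ _ this.1 (this.2.2 (by simp [hs]))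
      have hx : ∀ i < 4, ∀ j < 4, i ≠ j → i ≠ 0 → j ≠ 0 → ¬ ful (τ (f i)) (τ (f j)) :=
        fun i hi j hj h h' h'' e => by
          have := hf i hi j hj h
          simpa [hs, h', h''] using this.2.1 (P1 _ _ (hd i hi) (hd j hj) this.1 e)
      rcases types_ok _ (hτ 0 (by omega)) _ (hτ 1 (by omega)) _ (hτ 2 (by omega)) _
        (hτ 3 (by omega)) (hy 1 (by omega) (by omega)) (hy 2 (by omega) (by omega))
        (hy 3 (by omega) (by omega)) with h | h | h
      · exact hx 1 (by omega) 2 (by omega) (by omega) (by omega) (by omega) h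
      · exact hx 1 (by omega) 3 (by omega) (by omega) (by omega) (by omega) h
      · exact hx 2 (by omega) 3 (by omega) (by omega) (by omega) (by omega) h
  · rintro ⟨F, h1, h2, h3⟩
    classical
    refine ⟨(Finset.range x.1).filter fun u => E F (0, 0, 0) (1, u, 0),
      (sets_card F (0, 0, 0) (fun u => (1, u, 0)) (fun a b h => by simpa using h) (by simp) _
        fun u hu => (Finset.mem_filter.1 hu).2).trans h2,
      fun u hu => Finset.mem_range.1 (Finset.mem_filter.1 hu).1, fun v hv => ?_⟩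
    obtain ⟨j, hj, hj'⟩ := avoid F h2 fun t => t.2.2
    have ut : ∀ t u, ¬ Tch F (t, u, j) := fun t u h => hj' _ h rfl
    have n1 : ∀ t u, ∀ b : T3, b ≠ (t, u, j) → ¬ E F b (t, u, j) := fun t u b h e =>
      ut t u (e.symm.tch' h.symm)
    have n2 : ∀ t u t' u', t ≠ t' → ¬ (R3 x (t, u, j) (t', u', j) ∨ R3 x (t', u', j) (t, u, j)) →
        ¬ E F (t, u, j) (t', u', j) ∧ ¬ QA ad F (t, u, j) (t', u', j) := fun t u t' u' h h' =>
      ⟨n1 _ _ _ (by simp [h]), fun q =>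
        h' (TA3.1 ((QA_single (ut _ _) (ut _ _)).1 q).2.2).2⟩
    have mem : ∀ w, E F (0, 0, 0) w → w ∈ L3 x := fun w e =>
      e.closed (P := (· ∈ L3 x)) hz fun a b _ h => h.elim (fun h => (h1 _ h).2.1) fun h => (h1 _ h).1
    have nb : ∀ t u w, E F (0, 0, 0) w → (t, u, j) ∈ L3 x → t ≠ 0 →
        (R3 x w (t, u, j) ∨ R3 x (t, u, j) w) →
        ¬ E F (0, 0, 0) (t, u, j) ∧ QA ad F (0, 0, 0) (t, u, j) := fun t u w e hm ht h => by
      have h4 := n1 t u (0, 0, 0) (by simp [ht.symm])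
      exact ⟨h4, w, _, e, E.refl _ _, mem w e, hm, TA3.2 ⟨fun e' => h4 (e' ▸ e), h⟩⟩
    have mb : ∀ u ≤ x.1 + (2 * x.2.2 + 1), ((2, u, j) : T3) ∈ L3 x := fun u hu =>
      mem_L3.2 (by simp; omega)
    have mx : ((1, x.1, j) : T3) ∈ L3 x := mem_L3.2 (by simp; omega)
    have mc : ∀ t, 3 ≤ t → t < 8 → ((t, 0, j) : T3) ∈ L3 x := fun t h h' => mem_L3.2 (by simp; omega)
    have me : ∀ u ≤ 2 * x.2.2 + 1, ((5, u, j) : T3) ∈ L3 x := fun u hu => mem_L3.2 (by simp; omega)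
    have s1 : QA ad F (0, 0, 0) (2, v, j) ∨ QA ad F (0, 0, 0) (4, 0, j) := by
      by_contra hc
      push Not at hc
      have a0 := nb 3 0 _ (E.refl _ _) (mc 3 (by omega) (by omega)) (by omega) (by simp [R3, PR])
      exact h3 (claw_pat hsy (c := (3, 0, j)) (mc 3 (by omega) (by omega)) hz (mb v (by omega))
        (mc 4 (by omega) (by omega)) ⟨fun e => a0.1 e.symm, a0.2.symm hsy⟩
        ⟨n1 _ _ _ (by simp), QA.of ⟨mc 3 (by omega) (by omega), mb v (by omega),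
          TA3.2 ⟨by simp, by simp [R3, PR]⟩⟩⟩
        ⟨n1 _ _ _ (by simp), QA.of ⟨mc 3 (by omega) (by omega), mc 4 (by omega) (by omega),
          TA3.2 ⟨by simp, by simp [R3, PR]⟩⟩⟩
        ⟨n1 _ _ _ (by simp), hc.1⟩ ⟨n1 _ _ _ (by simp), hc.2⟩
        (n2 _ _ _ _ (by omega) (by simp [R3, PR])))
    have s2 : Tch F (0, 0, 0) := by
      by_contra hc
      rcases s1 with h | h <;>
        simpa [R3, PR] using (TA3.1 ((QA_single hc (ut _ _)).1 h).2.2).2
    have hx0 : ∀ u < x.1, inc x x.1 j u = false := fun u hu => by simp [inc, hu, cov]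
    have s3 : ∀ w, E F (0, 0, 0) w → w.1 ≠ 3 := fun w e h =>
      h3 (claw_pat hsy hz mx (mb 0 (by omega)) (mc 4 (by omega) (by omega))
        (nb _ _ _ (E.refl _ _) mx (by omega) (by simp [R3, PR]))
        (nb _ _ _ e (mb 0 (by omega)) (by omega) (by simp [R3, PR, h]))
        (nb _ _ _ e (mc 4 (by omega) (by omega)) (by omega) (by simp [R3, PR, h]))
        (n2 _ _ _ _ (by omega) (by simp [R3, PR, hx0 0 (by omega)]))
        (n2 _ _ _ _ (by omega) (by simp [R3, PR])) (n2 _ _ _ _ (by omega) (by simp [R3, PR])))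
    obtain ⟨y, hy⟩ := s2
    have ey : E F (0, 0, 0) y := E.one hy
    have ty : Tch F y := ⟨_, hy.symm⟩
    have y1 : y.1 = 1 := by
      have h4 : ad (0, 0, 0) y := hy.elim (h1 _) fun h => hsy _ _ (h1 _ h)
      have h5 := TA3.1 h4.2.2
      have h6 := mem_L3.1 h4.2.1
      have h7 := s3 y ey
      obtain ⟨t, u, i⟩ := y
      simp [R3, PR] at h5 h6 h7 ⊢
      omega
    obtain ⟨b, hb, hb1, hb2⟩ : ∃ b ≤ x.1 + (2 * x.2.2 + 1), inc x y.2.1 y.2.2 b = true ∧
        inc x x.1 j b = false := by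
      have h6 := mem_L3.1 (mem y ey)
      by_cases e : y.2.1 < x.1
      · exact ⟨y.2.1, by omega, by simp [inc, e, cov], hx0 _ e⟩
      · exact ⟨x.1 + y.2.2, by omega, by simp [inc], by simpa [inc] using hj' y ty⟩
    have s4 : ¬ QA ad F (0, 0, 0) (4, 0, j) := fun q =>
      h3 (claw_pat hsy hz mx (mb b hb) (mc 4 (by omega) (by omega))
        (nb _ _ _ (E.refl _ _) mx (by omega) (by simp [R3, PR]))
        (nb _ _ _ ey (mb b hb) (by omega) (by simp [R3, y1, hb1]))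
        ⟨n1 _ _ _ (by simp), q⟩
        (n2 _ _ _ _ (by omega) (by simp [R3, PR, hb2]))
        (n2 _ _ _ _ (by omega) (by simp [R3, PR])) (n2 _ _ _ _ (by omega) (by simp [R3, PR])))
    have s5 : ∀ w u, E F (0, 0, 0) w → u ≤ 2 * x.2.2 + 1 → j ≠ u →
        ¬ (R3 x w (5, u, j) ∨ R3 x (5, u, j) w) := fun w u e hu hju h =>
      h3 (claw_pat hsy hz (mc 6 (by omega) (by omega)) (mc 7 (by omega) (by omega)) (me u hu)
        (nb _ _ _ ey (mc 6 (by omega) (by omega)) (by omega) (by simp [R3, PR, y1]))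
        (nb _ _ _ ey (mc 7 (by omega) (by omega)) (by omega) (by simp [R3, PR, y1]))
        (nb _ _ _ e (me u hu) (by omega) h)
        (n2 _ _ _ _ (by omega) (by simp [R3, PR])) (n2 _ _ _ _ (by omega) (by simp [R3, PR]))
        (n2 _ _ _ _ (by omega) (by simp [R3, PR, hju])))
    obtain ⟨w, e, hw, -, h⟩ := (QA_single' (ut _ _)).1 (s1.resolve_right s4)
    have h4 := s5 w _ e le_rfl hj.ne
    have h5 := (TA3.1 h).2
    have h6 := mem_L3.1 hw
    have h7 : w.1 ≠ 7 := fun h7 => s5 w w.2.2 e (by omega)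
      (hj' w (e.symm.tch' fun e => by rw [e] at h7; simp at h7)).symm (by simp [R3, h7])
    obtain ⟨t, u, i⟩ := w
    have h8 : t = 1 ∧ inc x u i v = true := by
      have : t < 8 := h6.1
      interval_cases t <;> simp [R3, PR] at h4 h5 h7 ⊢
      exact h5
    obtain ⟨rfl, h8⟩ := h8
    simp only [inc, hv, if_true] at h8
    have h9 : u < x.1 := by simp [cov] at h8; exact h8.1
    obtain rfl : i = 0 := by simp at h6; omega
    exact ⟨u, Finset.mem_filter.2 ⟨Finset.mem_range.2 h9, e⟩, h8⟩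

theorem pt_red3 : PT red3 := by
  have h : PT fun x => dd (L3 x) := by unfold L3 ok3; fun_prop
  exact PT.ite (by fun_prop) (PT.const _)
    (h.length.mk ((PT.tgE _ h (by unfold r3 inc cov; fun_prop)).mk (by fun_prop)))

theorem hard_claw : W2Hard (Con₁ claw) :=
  freduces_of_ft (FT.of_pt pt_red3) fun x => ⟨red3_iff x, by
    unfold red3 kOf; split_ifs <;> simp⟩

end Pool.Agent.H22.CT
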