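import Pool.Agent.H22.CTDefs

namespace Pool.Agent.H22.CT

/-- the claw `K_{1,3}` with centre `0` -/
def claw : SimpleGraph (Fin 4) := SimpleGraph.fromRel fun i _ => i = 0

end Pool.Agent.H22.CT
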