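import Mathlib
import Pool.Agent.H22.EL

set_option autoImplicit false
set_option maxRecDepth 100000
set_option synthInstance.maxSize 100000

namespace Pool.Agent.H22.Cyc
open Pool.Agent.H22.EL SimpleGraph

def N (b : Bool) : ℕ := if b then 2 else 1
def pen (a b c : Bool) : ℕ := if !a && !b && c then 0 else 1

lemma pen_le (a b c : Bool) : pen a b c ≤ 1 := by unfold pen; split_ifs <;> omega
lemma N_eq (d : ℕ) (h : 1 ≤ d ∧ d ≤ 2) : N (decide (d = 2)) = d := by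
  unfold N; by_cases h2 : d = 2 <;> simp [h2]; omega

lemma sum_par {ι : Type} {k : ℕ} (X : Fin k → ι → ℕ) (l : List ι)
    (hp : ∀ j, (l.map (X j)).sum % 2 = 0) : (l.map (fun e => ∑ j, X j e)).sum % 2 = 0 := by
  have : (l.map (fun e => ∑ j, X j e)).sum = ∑ j, (l.map (X j)).sum := by
    clear hp
    induction l with
    | nil => simp
    | cons a l ih => simp [ih, Finset.sum_add_distrib]
  rw [this, Finset.sum_nat_mod]
  simp [hp]

def J (b : Bool) : ℕ := if b then 1 else 0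
lemma J_eq (d : ℕ) (h : d ≤ 1) : J (decide (d = 1)) = d := by
  unfold J; by_cases h2 : d = 1 <;> simp [h2]; omega

lemma petB : ∀ x0 x1 x2 x3 x4 x5 x6 x7 x8 x9 x10 x11 x12 x13 x14 : Bool,
    (J x0 + (J x4 + (J x10 + 0))) % 2 = 0 → (J x0 + (J x1 + (J x11 + 0))) % 2 = 0 →
    (J x1 + (J x2 + (J x12 + 0))) % 2 = 0 → (J x2 + (J x3 + (J x13 + 0))) % 2 = 0 →
    (J x3 + (J x4 + (J x14 + 0))) % 2 = 0 → (J x5 + (J x8 + (J x10 + 0))) % 2 = 0 →
    (J x6 + (J x9 + (J x11 + 0))) % 2 = 0 → (J x5 + (J x7 + (J x12 + 0))) % 2 = 0 →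
    (J x6 + (J x8 + (J x13 + 0))) % 2 = 0 → (J x7 + (J x9 + (J x14 + 0))) % 2 = 0 →
    (J x10 + J x11 + J x12 + J x13 + J x14 ≤
      J x0 + J x1 + J x2 + J x3 + J x4 + J x5 + J x6 + J x7 + J x8 + J x9) ∧
    (J x10 + J x11 + J x12 + J x13 + J x14 =
      J x0 + J x1 + J x2 + J x3 + J x4 + J x5 + J x6 + J x7 + J x8 + J x9 →
      (J x10 + J x11 + J x12 + J x13 + J x14) % 4 = 0) := by
  decide +kernel

/-- No family of even subgraphs of the Petersen graph covers the two pentagons once and the spokes twice. -/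
lemma petersen {k : ℕ} (x0 x1 x2 x3 x4 x5 x6 x7 x8 x9 x10 x11 x12 x13 x14 : Fin k → ℕ)
    (h0 : ∀ j, x0 j ≤ 1) (h1 : ∀ j, x1 j ≤ 1) (h2 : ∀ j, x2 j ≤ 1) (h3 : ∀ j, x3 j ≤ 1) (h4 : ∀ j, x4 j ≤ 1)
    (h5 : ∀ j, x5 j ≤ 1) (h6 : ∀ j, x6 j ≤ 1) (h7 : ∀ j, x7 j ≤ 1) (h8 : ∀ j, x8 j ≤ 1) (h9 : ∀ j, x9 j ≤ 1)
    (h10 : ∀ j, x10 j ≤ 1) (h11 : ∀ j, x11 j ≤ 1) (h12 : ∀ j, x12 j ≤ 1) (h13 : ∀ j, x13 j ≤ 1)
    (h14 : ∀ j, x14 j ≤ 1)
    (hp : ∀ j, (x0 j + (x4 j + (x10 j + 0))) % 2 = 0 ∧ (x0 j + (x1 j + (x11 j + 0))) % 2 = 0 ∧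
      (x1 j + (x2 j + (x12 j + 0))) % 2 = 0 ∧ (x2 j + (x3 j + (x13 j + 0))) % 2 = 0 ∧
      (x3 j + (x4 j + (x14 j + 0))) % 2 = 0 ∧ (x5 j + (x8 j + (x10 j + 0))) % 2 = 0 ∧
      (x6 j + (x9 j + (x11 j + 0))) % 2 = 0 ∧ (x5 j + (x7 j + (x12 j + 0))) % 2 = 0 ∧
      (x6 j + (x8 j + (x13 j + 0))) % 2 = 0 ∧ (x7 j + (x9 j + (x14 j + 0))) % 2 = 0)
    (s0 : ∑ j, x0 j = 1) (s1 : ∑ j, x1 j = 1) (s2 : ∑ j, x2 j = 1) (s3 : ∑ j, x3 j = 1) (s4 : ∑ j, x4 j = 1)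
    (s5 : ∑ j, x5 j = 1) (s6 : ∑ j, x6 j = 1) (s7 : ∑ j, x7 j = 1) (s8 : ∑ j, x8 j = 1) (s9 : ∑ j, x9 j = 1)
    (s10 : ∑ j, x10 j = 2) (s11 : ∑ j, x11 j = 2) (s12 : ∑ j, x12 j = 2) (s13 : ∑ j, x13 j = 2)
    (s14 : ∑ j, x14 j = 2) : False := by
  have key : ∀ j, (x10 j + x11 j + x12 j + x13 j + x14 j ≤
      x0 j + x1 j + x2 j + x3 j + x4 j + x5 j + x6 j + x7 j + x8 j + x9 j) ∧
      (x10 j + x11 j + x12 j + x13 j + x14 j =
      x0 j + x1 j + x2 j + x3 j + x4 j + x5 j + x6 j + x7 j + x8 j + x9 j →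
      (x10 j + x11 j + x12 j + x13 j + x14 j) % 4 = 0) := by
    intro j
    obtain ⟨p0, p1, p2, p3, p4, p5, p6, p7, p8, p9⟩ := hp j
    have := petB (decide (x0 j = 1)) (decide (x1 j = 1)) (decide (x2 j = 1)) (decide (x3 j = 1))
      (decide (x4 j = 1)) (decide (x5 j = 1)) (decide (x6 j = 1)) (decide (x7 j = 1)) (decide (x8 j = 1))
      (decide (x9 j = 1)) (decide (x10 j = 1)) (decide (x11 j = 1)) (decide (x12 j = 1)) (decide (x13 j = 1))
      (decide (x14 j = 1))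
    rw [J_eq _ (h0 j), J_eq _ (h1 j), J_eq _ (h2 j), J_eq _ (h3 j), J_eq _ (h4 j), J_eq _ (h5 j),
      J_eq _ (h6 j), J_eq _ (h7 j), J_eq _ (h8 j), J_eq _ (h9 j), J_eq _ (h10 j), J_eq _ (h11 j),
      J_eq _ (h12 j), J_eq _ (h13 j), J_eq _ (h14 j)] at this
    exact this p0 p1 p2 p3 p4 p5 p6 p7 p8 p9
  have e1 : ∑ j, (x10 j + x11 j + x12 j + x13 j + x14 j) = 10 := by
    simp only [Finset.sum_add_distrib, s10, s11, s12, s13, s14]
  have e2 : ∑ j, (x0 j + x1 j + x2 j + x3 j + x4 j + x5 j + x6 j + x7 j + x8 j + x9 j) = 10 := by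
    simp only [Finset.sum_add_distrib, s0, s1, s2, s3, s4, s5, s6, s7, s8, s9]
  have e3 := (Finset.sum_eq_sum_iff_of_le (s := Finset.univ) (fun j _ => (key j).1)).1 (e1.trans e2.symm)
  have e4 : (∑ j, (x10 j + x11 j + x12 j + x13 j + x14 j)) % 4 = 0 := by
    rw [Finset.sum_nat_mod]
    simp [fun j => (key j).2 (e3 j (Finset.mem_univ j))]
  rw [e1] at e4
  norm_num at e4

lemma sum_inc {ι : Type} [Fintype ι] [DecidableEq ι] (P : ι → Prop) [DecidablePred P] (l : List ι)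
    (hl : l.Nodup) (hP : ∀ e, P e ↔ e ∈ l) (f : ι → ℕ) :
    (∑ e, if P e then f e else 0) = (l.map f).sum := by
  rw [← Finset.sum_filter, ← List.sum_toFinset f hl]
  congr 1
  ext e; simp [hP]

lemma countP_list {α : Type} (p : α → Bool) (l : List α) :
    l.countP p = ∑ j : Fin l.length, if p l[j] then 1 else 0 := by
  have := Fin.sum_univ_fun_getElem l (fun a => if p a then 1 else 0)
  simp only [Fin.getElem_fin]
  rw [this]
  clear this
  induction l with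
  | nil => simp
  | cons a l ih => rw [List.countP_cons, ih]; simp [add_comm]

/-- data of a list of closed trails, as a matrix of edge multiplicities -/
lemma matrix_of {n m : ℕ} (s t : Fin m → Fin n) (hl : ∀ e, s e ≠ t e)
    (hi : Function.Injective (ends s t)) (inc : Fin n → List (Fin m))
    (hs : ∀ v e, (s e = v ∨ t e = v) ↔ e ∈ inc v) (hn : ∀ v, (inc v).Nodup)
    (F : List (Σ u : Fin n, (gr s t).Walk u u)) (hF : ∀ c ∈ F, c.2.edges.Nodup)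
    (P : ∀ (_ : Σ u : Fin n, (gr s t).Walk u u), Sym2 (Fin n) → Bool)
    (hP : ∀ c x, P c x = true ↔ x ∈ c.2.edges) :
    ∃ X : Fin F.length → Fin m → ℕ, (∀ j e, X j e ≤ 1) ∧ (∀ j v, ((inc v).map (X j)).sum % 2 = 0) ∧
      (∀ e, ∑ j, X j e = F.countP (fun c => P c (ends s t e))) ∧
      ∑ e, ∑ j, X j e = (F.map (fun c => c.2.length)).sum := by
  refine ⟨fun j e => F[j].2.edges.count (ends s t e), ?_, ?_, ?_, ?_⟩
  · intro j e
    exact List.nodup_iff_count_le_one.1 (hF _ (List.getElem_mem _)) _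
  · intro j v
    rw [← sum_inc (fun e => s e = v ∨ t e = v) (inc v) (hn v) (hs v)]
    exact closed_parity_sum s t hl hi _ v
  · intro e
    rw [countP_list]
    refine Finset.sum_congr rfl (fun j _ => ?_)
    by_cases h : ends s t e ∈ F[j].2.edges
    · rw [if_pos ((hP _ _).2 h)]
      exact List.count_eq_one_of_mem (hF _ (List.getElem_mem _)) h
    · rw [if_neg (fun h' => h ((hP _ _).1 h'))]
      exact List.count_eq_zero_of_not_mem h
  · rw [Finset.sum_comm, ← Fin.sum_univ_fun_getElem F (fun c => c.2.length)]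
    exact Finset.sum_congr rfl (fun j _ => (length_sum s t hl hi F[j].2).symm)

/-- a list of vertex sequences describing cycles that cover all edges -/
def CoverOK {n m : ℕ} (s t : Fin m → Fin n) (L : List (Fin n × List (Fin n))) : Prop :=
  (∀ c ∈ L, List.IsChain (gr s t).Adj (c.1 :: (c.2 ++ [c.1])) ∧ (pairs c.1 c.1 c.2).Nodup ∧
    (c.2 ++ [c.1]).Nodup) ∧ ∀ e, ∃ c ∈ L, ends s t e ∈ pairs c.1 c.1 c.2

instance {n m : ℕ} (s t : Fin m → Fin n) (L : List (Fin n × List (Fin n))) : Decidable (CoverOK s t L) := by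
  unfold CoverOK; infer_instance

lemma exists_list {V : Type} (G : SimpleGraph V) (L : List (V × List V))
    (h : ∀ c ∈ L, List.IsChain G.Adj (c.1 :: (c.2 ++ [c.1])) ∧ (pairs c.1 c.1 c.2).Nodup ∧
      (c.2 ++ [c.1]).Nodup) :
    ∃ F : List (Σ u : V, G.Walk u u), (∀ c ∈ F, c.2.IsCycle) ∧
      F.map (fun c => c.2.edges) = L.map (fun c => pairs c.1 c.1 c.2) ∧
      F.map (fun c => c.2.length) = L.map (fun c => c.2.length + 1) := by
  induction L with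
  | nil => exact ⟨[], by simp, rfl, rfl⟩
  | cons c L ih =>
    obtain ⟨F, h1, h2, h3⟩ := ih (fun c hc => h c (by simp [hc]))
    obtain ⟨a1, a2, a3⟩ := h c (by simp)
    refine ⟨⟨c.1, mkWalk G c.1 c.1 c.2 a1⟩ :: F, ?_, ?_, ?_⟩
    · intro x hx
      rcases List.mem_cons.1 hx with rfl | hx
      · exact mkWalk_isCycle G _ _ a1 a2 a3
      · exact h1 x hx
    · simp [h2, mkWalk_edges]
    · simp [h3, mkWalk_length]

lemma exists_cover {n m : ℕ} (s t : Fin m → Fin n) (hl : ∀ e, s e ≠ t e)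
    (L : List (Fin n × List (Fin n))) (h : CoverOK s t L) :
    ∃ F : List (Σ u : Fin n, (gr s t).Walk u u), ((∀ c ∈ F, c.2.IsCycle) ∧
      ∀ e ∈ (gr s t).edgeSet, ∃ c ∈ F, e ∈ c.2.edges) ∧
      (F.map (fun c => c.2.length)).sum = (L.map (fun c => c.2.length + 1)).sum := by
  obtain ⟨F, h1, h2, h3⟩ := exists_list (gr s t) L h.1
  refine ⟨F, ⟨h1, ?_⟩, by rw [h3]⟩
  intro x hx
  obtain ⟨e, rfl⟩ := (mem_edgeSet_gr s t hl x).1 hx
  obtain ⟨c, hc, he⟩ := h.2 e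
  have : pairs c.1 c.1 c.2 ∈ F.map (fun c => c.2.edges) := by
    rw [h2]; exact List.mem_map.2 ⟨c, hc, rfl⟩
  obtain ⟨c', hc', he'⟩ := List.mem_map.1 this
  exact ⟨c', hc', he' ▸ he⟩

end Pool.Agent.H22.Cyc
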