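import Pool.Agent.H22.EBDefs
import Pool.Agent.H22.An1

/-! Edge Blocking is EXPTIME-hard. -/

namespace Pool.Agent.H22.EX.EB

open Pool.Agent.H38.NP Function

def CE (n : ℕ) (L : List Q) (ins : Q → In) (t : Bool) (u v : Vt) : Prop :=
  ∃ q ∈ L, (t = true ∧ ∃ i < (ins q).2.length, u = cV q ∧ v = oV i q) ∨ (t = false ∧
    ((∃ x < n, ∃ b, (ins q).1 ≠ some (x, b) ∧ u = cV q ∧ v = mV (2 + b.toNat) x) ∨
    ∃ i < (ins q).2.length, (∃ q' ∈ (opt ins q i).2, u = oV i q ∧ v = cV q') ∨
      ∃ g ∈ (opt ins q i).1, u = oV i q ∧ v = mV (!g.2).toNat g.1))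

def ME (t : Bool) (e e' : ℕ) : Prop :=
  (t = true ∧ e ≤ 1 ∧ e' = 3 - e) ∨ (t = false ∧ (e = 2 ∨ e = 3) ∧ e' = e - 2)

inductive AM (n : ℕ) (L : List Q) (ins : Q → In) : Ab × Bool → Ab × Bool → Prop
  | cap {u st x t} : CE n L ins t u (mV (st x) x) →
      AM n L ins ((some u, st), t) ((none, update st x 4), !t)
  | go {u v st t} : CE n L ins t u v → v.1 ≠ 3 → AM n L ins ((some u, st), t) ((some v, st), !t)
  | mem {c st e x t} : ME t (st x) e → x < n → AM n L ins ((c, st), t) ((c, update st x e), !t)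

variable {n : ℕ} {L : List Q} {ins : Q → In}

theorem dead {st} : ¬ W (AM n L ins) ((none, st), true) := by
  intro h
  generalize hp : (((none, st), true) : Ab × Bool) = p at h
  induction h generalizing st with
  | mk p p' a b ih =>
  subst hp
  cases a with
  | @mem _ _ e x _ h hx =>
    exact ih _ (.mem (x := x) (e := e - 2) (by simp only [ME, update_self] at h ⊢; grind) hx) rfl

theorem opt_mem {q i} (hi : i < (ins q).2.length) : opt ins q i ∈ (ins q).2 := by
  rw [opt, List.getD_eq_getElem _ _ hi]; exact List.getElem_mem _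

theorem eb_win (w : WF n L ins) {q m} (hq : q ∈ L) :
    W (AM n L ins) ((some (cV q), rs m), true) ↔ Win ins q m := by
  constructor
  · intro h
    generalize hp : (((some (cV q), rs m), true) : Ab × Bool) = p at h
    induction h generalizing q m with
    | mk p p' a b ih =>
    subst hp
    have r := rs_le m
    generalize hc : some (cV q) = c at a
    cases a with
    | cap h1 => simp [CE] at h1
    | @go u v _ _ h1 =>
      cases hc
      obtain ⟨i, hi, rfl⟩ : ∃ i < (ins q).2.length, v = oV i q := by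
        simp only [CE, Prod.mk.injEq] at h1; grind
      refine .mk _ _ m _ (Or.inl rfl) (opt_mem hi) (fun g hg => by_contra fun e => dead (b _
        (.cap (x := g.1) ⟨q, hq, Or.inr ⟨rfl, Or.inr ⟨i, hi, Or.inr ⟨g, hg, rfl, by
          simp [rs, Bool.eq_not.2 e]⟩⟩⟩⟩))) fun q' h' => ih _ (.go ⟨q, hq, Or.inr ⟨rfl, Or.inr
            ⟨i, hi, Or.inl ⟨q', h', rfl, rfl⟩⟩⟩⟩ (by simp)) ((w.h2 q hq _ (opt_mem hi)).2 q' h') rfl
    | @mem _ _ e y _ h1 hy =>
      subst hc
      obtain rfl : e = 2 + (!m y).toNat := by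
        simp only [ME, rs] at h1
        cases e : m y <;> grind
      have hb := (!m y).toNat_le
      by_cases l : (ins q).1 = some (y, !m y)
      · have := ih _ (.mem (e := (!m y).toNat) (x := y) (by simp only [ME]; grind) hy) hq
          (by rw [update_idem, rs_upd]; rfl)
        obtain ⟨m', a, c⟩ := win_iff.1 this
        refine win_iff.2 ⟨m', Or.inr ⟨_, _, l, ?_⟩, c⟩
        rcases a with a | ⟨_, _, a, rfl⟩
        · exact a
        · cases l.symm.trans a
          exact update_idem ..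
      · exact (dead (b _ (.cap (x := y)
          ⟨q, hq, Or.inr ⟨rfl, Or.inl ⟨y, hy, _, l, rfl, by simp⟩⟩⟩))).elim
  · intro h
    induction h with
    | mk q m m' o a b c d ih =>
    obtain ⟨i, hi, rfl⟩ := List.getElem_of_mem b
    have e : opt ins q i = (ins q).2[i] := List.getD_eq_getElem _ _ hi
    have k : W (AM n L ins) ((some (cV q), rs m'), true) := by
      refine .mk _ _ (.go ⟨q, hq, Or.inl ⟨rfl, i, hi, rfl, rfl⟩⟩ (by simp)) fun p hp => ?_
      have r := rs_le m'
      generalize hc : some (oV i q) = c at hp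
      cases hp with
      | @cap u _ y _ h1 =>
        cases hc
        obtain ⟨g, hg, h1⟩ : ∃ g ∈ (opt ins q i).1, mV (rs m' y) y = mV (!g.2).toNat g.1 := by
          simp only [CE, Prod.mk.injEq] at h1 ⊢; grind
        have := c g (e ▸ hg)
        simp only [Prod.mk.injEq, rs] at h1
        cases e : g.2 <;> grind
      | @go u v _ _ h1 =>
        cases hc
        obtain ⟨q', h', rfl⟩ : ∃ q' ∈ (opt ins q i).2, v = cV q' := by
          simp only [CE, Prod.mk.injEq] at h1; grind
        exact ih q' (e ▸ h') ((w.h2 q hq _ b).2 q' (e ▸ h'))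
      | @mem _ _ f y _ h1 =>
        have := r y
        simp only [ME] at h1
        grind
    rcases a with rfl | ⟨x, v, a, rfl⟩
    · exact k
    by_cases e' : m x = v
    · rwa [← e', update_eq_self] at k
    have hx := w.h1 q hq x v a
    have r := rs_le m
    have hb := v.toNat_le
    refine .mk _ _ (.mem (e := 2 + v.toNat) (x := x) (by
      simp only [ME, rs, Bool.eq_not.2 e']; cases v <;> simp) hx) fun p hp => ?_
    generalize hc : some (cV q) = c at hp
    cases hp with
    | @cap u _ y _ h1 =>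
      cases hc
      obtain ⟨b', h2, h1⟩ : ∃ b', (ins q).1 ≠ some (y, b') ∧
          update (rs m) x (2 + v.toNat) y = 2 + b'.toNat := by
        simp only [CE, Prod.mk.injEq] at h1 ⊢; grind
      have := r y
      cases v <;> cases b' <;> grind
    | go h1 => simp only [CE, Prod.mk.injEq] at h1; grind
    | @mem _ _ f y _ h1 =>
      subst hc
      have := r y
      obtain ⟨rfl, rfl⟩ : y = x ∧ f = v.toNat := by simp only [ME] at h1; grind
      rwa [update_idem, rs_upd]

def EL (n : ℕ) (L : List Q) (ins : Q → In) : List (Vt × Vt) :=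
  L.flatMap (fun q => (List.range (ins q).2.length).map fun i => (cV q, oV i q)) ++
    (List.range n).flatMap fun x => [(mV 3 x, mV 0 x), (mV 2 x, mV 1 x)]

def ER (n : ℕ) (L : List Q) (ins : Q → In) : List (Vt × Vt) :=
  L.flatMap (fun q => ((List.range n).flatMap fun x =>
      ([false, true].filter fun b => decide ((ins q).1 ≠ some (x, b))).map fun b =>
        (cV q, mV (2 + b.toNat) x)) ++ (List.range (ins q).2.length).flatMap fun i =>
    ((opt ins q i).2.map fun q' => (oV i q, cV q')) ++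
    ((opt ins q i).1.map fun g => (oV i q, mV (!g.2).toNat g.1))) ++
    (List.range n).flatMap fun x => [(mV 0 x, mV 2 x), (mV 1 x, mV 3 x)]

theorem mem_E {t : Bool} {u v} : (u, v) ∈ (if t then EL n L ins else ER n L ins) ↔
    CE n L ins t u v ∨ ∃ x < n, ∃ e e', ME t e e' ∧ u = mV e' x ∧ v = mV e x := by
  have : ∀ b : Bool, b ∈ [false, true] := fun b => by cases b <;> simp
  have h : ∀ P : ℕ → ℕ → Prop, ((∃ e e', ME true e e' ∧ P e e') ↔ P 0 3 ∨ P 1 2) ∧
      ((∃ e e', ME false e e' ∧ P e e') ↔ P 2 0 ∨ P 3 1) := fun P => by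
    simp [ME, Nat.le_one_iff_eq_zero_or_eq_one, or_and_right, exists_or, and_assoc]
  cases t <;>
  simp only [EL, ER, CE, List.mem_append, List.mem_flatMap, List.mem_map, List.mem_range,
    List.mem_cons (a := (u, v)), List.mem_filter, this, true_and, decide_eq_true_eq, if_true,
    Prod.mk.injEq (fst := u), List.not_mem_nil, or_false, @eq_comm _ _ (u, v), (h _).1, (h _).2,
    Bool.false_eq_true, Bool.true_eq_false, if_false, false_and, false_or]

def occ (n : ℕ) (st : ℕ → ℕ) (v : Vt) : Prop :=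
  v.1 = 3 ∧ v.2.2.1 < n ∧ v.2.2.2 = (0, 0, 0, 0) ∧ st v.2.2.1 ≠ v.2.1 ∧ v.2.1 < 4

open Classical in
noncomputable def plc (n : ℕ) (a : Ab × Bool) : (Vt → Bool) × Bool :=
  (fun v => decide (a.1.1 = some v ∨ occ n a.1.2 v), a.2)

theorem ce_ok (w : WF n L ins) {t u v} (h : CE n L ins t u v) : u.1 ≠ 3 ∧ u ≠ v ∧
    (v.1 ≠ 3 ∨ ∃ x < n, ∃ e < 4, v = mV e x) := by
  obtain ⟨q, hq, ⟨-, i, -, rfl, rfl⟩ | ⟨-, ⟨x, hx, b, -, rfl, rfl⟩ |
    ⟨i, hi, ⟨q', -, rfl, rfl⟩ | ⟨g, hg, rfl, rfl⟩⟩⟩⟩ := h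
  · simp
  · exact ⟨by simp, by simp, Or.inr ⟨x, hx, _, by have := b.toNat_le; omega, rfl⟩⟩
  · simp
  · exact ⟨by simp, by simp, Or.inr ⟨_, (w.h2 q hq _ (opt_mem hi)).1 g hg, _,
      by have := (!g.2).toNat_le; omega, rfl⟩⟩

theorem p_go {u v st t} (h : u.1 ≠ 3) (h' : v.1 ≠ 3) : plc n ((some v, st), !t) =
    (update (update (plc n ((some u, st), t)).1 u false) v true, !t) := by
  refine Prod.ext (funext fun z => ?_) rfl
  simp only [plc, update_apply, occ]
  grind

theorem p_cap {u x st t} (h : u.1 ≠ 3) (hx : x < n) (h' : st x < 4) :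
    plc n ((none, update st x 4), !t) =
    (update (update (plc n ((some u, st), t)).1 u false) (mV (st x) x) true, !t) := by
  refine Prod.ext (funext fun ⟨a, b, c, d⟩ => ?_) rfl
  simp only [plc, update_apply, occ]
  grind

theorem p_mem {c x st t e} (h : ME t (st x) e) (hx : x < n) (ha : ∀ u, c = some u → u.1 ≠ 3) :
    plc n ((c, update st x e), !t) =
    (update (update (plc n ((c, st), t)).1 (mV e x) false) (mV (st x) x) true, !t) := by
  refine Prod.ext (funext fun ⟨a, b, c, d⟩ => ?_) rfl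
  simp only [plc, update_apply, occ, ME] at h ⊢
  grind

theorem eb_bisim (w : WF n L ins) {a : Ab × Bool} (ha : ∀ u, a.1.1 = some u → u.1 ≠ 3) :
    W (AM n L ins) a ↔ W (EBMove (EL n L ins) (ER n L ins)) (plc n a) := by
  refine W.bisim (plc n) (fun a => ∀ u, a.1.1 = some u → u.1 ≠ 3)
    (fun a b ha h => ?_) (fun a b ha h => ?_) ?_ ha
  · cases h <;> grind
  · cases h with
    | @cap u st x t h =>
      obtain ⟨h1, h2, h3⟩ := ce_ok w h
      have : x < n ∧ st x < 4 := by grind
      exact ⟨u, _, mem_E.2 (Or.inl h), by simp [plc], by simp [plc, occ, h2],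
        p_cap h1 this.1 this.2⟩
    | @go u v st t h h0 =>
      obtain ⟨h1, h2, -⟩ := ce_ok w h
      exact ⟨u, _, mem_E.2 (Or.inl h), by simp [plc], by simp [plc, occ, h2, h0], p_go h1 h0⟩
    | @mem c st e x t h hx =>
      exact ⟨_, _, mem_E.2 (Or.inr ⟨x, hx, _, _, h, rfl, rfl⟩), by
        simp only [plc, occ, ME] at h ⊢; grind, by simp only [plc, occ] at ha ⊢; grind,
        p_mem h hx ha⟩
  · rintro ⟨⟨c, st⟩, t⟩ q ha ⟨u, v, h0, h2, h3, rfl⟩
    rcases mem_E.1 h0 with h | ⟨x, hx, e, e', h, rfl, rfl⟩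
    · obtain ⟨h1, -, h4⟩ := ce_ok w h
      obtain rfl : c = some u := by simp only [plc, occ] at h2; grind
      rcases h4 with h4 | ⟨x, hx, e, he, rfl⟩
      · exact ⟨_, .go h h4, p_go h1 h4⟩
      · obtain rfl : st x = e := by simp only [plc, occ] at h3; grind
        exact ⟨_, .cap h, p_cap h1 hx he⟩
    · obtain rfl : st x = e := by simp only [plc, occ, ME] at h3 h; grind
      exact ⟨_, .mem h hx, p_mem h hx ha⟩

def cd (E : List (Vt × Vt)) : List (ℕ × ℕ) := E.map fun e => (codeV e.1, codeV e.2)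

theorem eb_code {A B : List (Vt × Vt)} (p : (ℕ → Bool) × Bool) :
    W (EBMove (cd A) (cd B)) p ↔ W (EBMove A B) (p.1 ∘ codeV, p.2) := by
  refine W.bisim (fun p : (ℕ → Bool) × Bool => (p.1 ∘ codeV, p.2)) (fun _ => True)
    (fun _ _ _ _ => trivial) ?_ ?_ trivial
  · rintro a _ - ⟨u, v, h0, h1, h2, rfl⟩
    rw [← apply_ite cd] at h0
    obtain ⟨⟨u', v'⟩, h, e⟩ := List.mem_map.1 h0
    cases e
    exact ⟨_, _, h, h1, h2, by simp only [update_comp_eq_of_injective _ codeV_inj]⟩
  · rintro a _ - ⟨u, v, h, h1, h2, rfl⟩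
    exact ⟨_, ⟨_, _, by rw [← apply_ite cd]; exact List.mem_map_of_mem h, h1, h2, rfl⟩,
      by simp only [update_comp_eq_of_injective _ codeV_inj]⟩

def tk (n : ℕ) : List ℕ := (cV (0, 0, 0, 0, 0) ::
  (List.range n).flatMap fun x => [mV 1 x, mV 2 x, mV 3 x]).map codeV

theorem eb_hard : EXPTIMEHardOn (fun _ => True) EBWin := by
  intro A hA
  obtain ⟨n, L, ins, p1, p2, p3, h⟩ := rg_hard hA
  have p0 : PT cd := by unfold cd codeV; fun_prop
  have p4 : PT fun x => EL (n x) (L x) (ins x) := by unfold EL; fun_prop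
  have p5 : PT fun x => ER (n x) (L x) (ins x) := by unfold ER opt; fun_prop
  have p6 : PT tk := by unfold tk codeV; fun_prop
  have p7 : PT fun x => (cd (EL (n x) (L x) (ins x)), cd (ER (n x) (L x) (ins x)), tk (n x), true) :=
    PT.mk (p0.comp p4) (PT.mk (p0.comp p5) (PT.mk (p6.comp p1) (by fun_prop)))
  refine ⟨_, PT.polyTime p7.raw, fun x => ⟨_, rfl, trivial, ?_⟩⟩
  obtain ⟨w, e⟩ := h ⟨x⟩
  rw [e, ← eb_win w w.h0, eb_bisim w (by simp), EBWin, eb_code]
  refine iff_of_eq (congrArg _ (Prod.ext (funext fun ⟨a, b, c, d⟩ => ?_) rfl))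
  simp only [comp, tk, plc, rs, List.mem_map_of_injective codeV_inj, occ, List.mem_cons,
    List.mem_flatMap, List.mem_range, List.not_mem_nil, Prod.mk.injEq, Option.some.injEq,
    Bool.toNat_false, decide_eq_decide]
  refine or_congr (by grind) ⟨fun h => ⟨c, by grind⟩, fun ⟨y, h⟩ => by grind⟩

end Pool.Agent.H22.EX.EB
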