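import Pool.Agent.H22.AnDefs

namespace Pool.Agent.H22.EX

/-- A move of Edge Blocking. A state is the set of occupied vertices and the player to move
(`true` is Left). The mover slides a token along one of his edges onto an empty vertex. -/
def EBMove {V : Type} [DecidableEq V] (EL ER : List (V × V)) (p p' : (V → Bool) × Bool) : Prop :=
  ∃ u v, (u, v) ∈ (if p.2 then EL else ER) ∧ p.1 u = true ∧ p.1 v = false ∧
    p' = (Function.update (Function.update p.1 u false) v true, !p.2)

/-- input: `E_L`, `E_R`, the occupied vertices, the player to move -/
abbrev EBPos := List (ℕ × ℕ) × List (ℕ × ℕ) × List ℕ × Bool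

/-- the player to move wins the Edge Blocking position -/
def EBWin (I : EBPos) : Prop := W (EBMove I.1 I.2.1) (fun v => decide (v ∈ I.2.2.1), I.2.2.2)

end Pool.Agent.H22.EX
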