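import Pool.Agent.H22.EXDefs
import Pool.Agent.H38.NP.Api

/-! Horn derivations describe exponential-time computations. -/

namespace Pool.Agent.H22.EX

open Pool.Agent.H38.NP Function Turing Turing.TM2

/-- head, head offset, shift flag, body -/
abbrev Rule (A : Type) := A × ℕ × Bool × List (A × ℕ × Bool)

def Der {A : Type} (R : List (Rule A)) (I : ℕ → List A) (B : ℕ) : ℕ → ℕ → A → Prop
  | 0, i, a => a ∈ I i
  | t + 1, i, a => ∃ r ∈ R, r.1 = a ∧ r.2.1 ≤ i ∧ (r.2.2.1 = false → i = r.2.1) ∧ ∀ b ∈ r.2.2.2,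
      cond b.2.2 (i - r.2.1) 0 + b.2.1 < B ∧ Der R I B t (cond b.2.2 (i - r.2.1) 0 + b.2.1) b.1

def mapR {A A' : Type} (c : A → A') (r : Rule A) : Rule A' :=
  (c r.1, r.2.1, r.2.2.1, r.2.2.2.map fun b => (c b.1, b.2))

theorem Der.map {A A' : Type} (c : A → A') {R : List (Rule A)} {I B t i a} (h : Der R I B t i a) :
    Der (R.map (mapR c)) (fun i => (I i).map c) B t i (c a) := by
  induction t generalizing i a with
  | zero => exact List.mem_map_of_mem h
  | succ t ih =>
    obtain ⟨r, h1, rfl, h2, h3, h4⟩ := h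
    exact ⟨_, List.mem_map_of_mem h1, rfl, h2, h3, List.forall_mem_map.2 fun b hb =>
      ⟨(h4 b hb).1, ih (h4 b hb).2⟩⟩

def ini {A : Type} (IC I0 I1 IB : List A) (y : List Bool) (i : ℕ) : List A :=
  IC ++ if i < y.length then (if y.getD i false then I1 else I0) else IB

section Machine
variable {K : Type} [DecidableEq K] {Γ : K → Type} {Λ σ : Type} (M : Λ → Stmt Γ Λ σ)

def body (ks : List K) (D : ℕ) (ω : Cfg Γ Λ σ) : List (Option (Atom Γ Λ σ) × ℕ × Bool) :=
  (some (Z ω), 0, false) ::
    ks.flatMap fun k => (List.range D).map fun j => (some (X k (ω.stk k)[j]?), j, false)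

def RS (ks : List K) (G : Set (Σ k, Γ k)) (D : ℕ) : Set (Rule (Option (Atom Γ Λ σ))) :=
  ⋃ ω ∈ Wins G D, {(some (Z (nxt M ω)), 0, false, body ks D ω)} ∪
    ⋃ k, ((⋃ j ∈ {j | j < ((nxt M ω).stk k).length},
      {(some (X k ((nxt M ω).stk k)[j]?), j, false, body ks D ω)}) ∪
    ⋃ o ∈ GoodO G k, {(some (X k o), ((nxt M ω).stk k).length, true,
      (some (X k o), D, true) :: body ks D ω)})

theorem rs_finite [Finite K] [Finite Λ] [Finite σ] (ks : List K) {G : Set (Σ k, Γ k)}
    (hG : G.Finite) (D : ℕ) : (RS M ks G D).Finite :=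
  (wins_finite hG D).biUnion fun _ _ => (Set.toFinite _).union <| Set.finite_iUnion fun k =>
    ((Set.finite_lt_nat _).biUnion fun _ _ => Set.finite_singleton _).union
      ((goodO_finite hG k).biUnion fun _ _ => Set.finite_singleton _)

omit [DecidableEq K] in
theorem all_body {ks : List K} (hks : ∀ k, k ∈ ks) {D ω} {P : _ → Prop} :
    (∀ b ∈ body (Γ := Γ) (Λ := Λ) (σ := σ) ks D ω, P b) ↔ P (some (Z ω), 0, false) ∧
      ∀ k, ∀ j < D, P (some (X k (ω.stk k)[j]?), j, false) := by
  simp only [body, List.forall_mem_cons, List.forall_mem_flatMap, List.forall_mem_map, hks,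
    List.mem_range, forall_const]

omit [DecidableEq K] in
theorem win_eq {D} {G : Set (Σ k, Γ k)} {c ω : Cfg Γ Λ σ} (hω : ω ∈ Wins G D)
    (h1 : Holds D c 0 (Z ω)) (h2 : ∀ k, ∀ j < D, Holds D c j (X k (ω.stk k)[j]?)) :
    win D c = ω := by
  obtain ⟨l, v, S⟩ := ω
  simp only [Holds, Z, X, Prod.mk.injEq, win] at h1 h2 ⊢
  rw [h1.1, h1.2]
  congr 1
  funext k
  apply List.ext_getElem?
  intro j
  by_cases hj : j < D
  · rw [List.getElem?_take_of_lt hj, h2 k j hj]
  · have := hω.2 k
    simp only at this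
    rw [List.getElem?_eq_none (by simp; omega), List.getElem?_eq_none (by omega)]

end Machine

theorem etab0 {L : Set (List Bool)} (hL : InEXPTIME L) :
    ∃ (A : Type) (R : List (Rule A)) (IC I0 I1 IB : List A) (g : A) (τ : Polynomial ℕ),
      (∀ r ∈ R, r.2.2.2 ≠ []) ∧ ∀ y : List Bool, y.length ≤ τ.eval y.length ∧
      (y ∈ L ↔ ∃ t < 2 ^ τ.eval y.length, Der R (ini IC I0 I1 IB y) (2 ^ τ.eval y.length) t 0 g) := by
  classical
  obtain ⟨f, ⟨⟨tm, ia, oa⟩, tim, hout⟩, τ, hτ, hf⟩ := hL
  have := tm.kFin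
  have := tm.ΛFin
  have := tm.σFin
  let M := tm.m
  let G : Set (Σ k, tm.Γ k) := (⋃ l, syms (M l)) ∪ Set.range fun b : Bool => ⟨tm.k₀, ia.symm b⟩
  have hGf : G.Finite := (Set.finite_iUnion fun l => syms_finite _).union (Set.finite_range _)
  have hG : ∀ l, syms (M l) ⊆ G := fun l x hx => Or.inl (Set.mem_iUnion.2 ⟨l, hx⟩)
  let D := Finset.univ.sup fun l => depth (M l)
  have hD : ∀ l, depth (M l) ≤ D := fun l =>
    Finset.le_sup (f := fun l => depth (M l)) (Finset.mem_univ l)
  let ks : List tm.K := Finset.univ.toList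
  have hks : ∀ k, k ∈ ks := fun k => by simp [ks]
  let A := Option (Atom tm.Γ tm.Λ tm.σ)
  let c0 : List Bool → Cfg tm.Γ tm.Λ tm.σ := fun u => initList tm (u.map ia.symm)
  have hgood : ∀ u t, Good G ((nxt M)^[t] (c0 u)).stk := by
    intro u t
    induction t with
    | zero =>
      intro k a ha
      by_cases e : k = tm.k₀
      · subst e
        simp only [iterate_zero, id, c0, initList_k0, List.mem_map] at ha
        obtain ⟨b, -, rfl⟩ := ha
        exact Or.inr ⟨b, rfl⟩
      · simp [c0, initList_ne tm _ e] at ha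
    | succ t ih => rw [iterate_succ_apply']; exact good_nxt M hG _ ih
  have hrun : ∀ u : List Bool, ∀ T, 2 ^ τ.eval u.length ≤ T →
      (nxt M)^[T] (c0 u) = haltList tm ((f u).map oa.symm) := fun u T hT =>
    iter_nxt_le M ((hout u).steps_le_m.trans ((hτ _).trans hT)) rfl (hout u).evals_in_steps
  let gr : Rule A := (none, 0, false, [(some (Z (haltList tm [])), 0, false),
    (some (X tm.k₁ (some (oa.symm true))), 0, false), (some (X tm.k₁ none), 1, false)])
  refine ⟨A, gr :: (rs_finite M ks hGf D).toFinset.toList,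
    some (Z (c0 [])) :: (ks.filter (· ≠ tm.k₀)).map (fun k => some (X k none)),
    [some (X tm.k₀ (some (ia.symm false)))], [some (X tm.k₀ (some (ia.symm true)))],
    [some (X tm.k₀ none)], none, τ + Polynomial.X + Polynomial.C (D + 2), ?_, fun y => ⟨by
      simp; omega, ?_⟩⟩
  · simp only [List.forall_mem_cons, Finset.mem_toList, Set.Finite.mem_toFinset, RS,
      Set.mem_iUnion, Set.mem_union, Set.mem_singleton_iff]
    refine ⟨by simp [gr], ?_⟩
    rintro r ⟨ω, -, rfl | ⟨k, ⟨j, -, rfl⟩ | ⟨o, -, rfl⟩⟩⟩ <;> simp [body]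
  set I := ini (some (Z (c0 [])) :: (ks.filter (· ≠ tm.k₀)).map (fun k => some (X k none)))
    [some (X tm.k₀ (some (ia.symm false)))] [some (X tm.k₀ (some (ia.symm true)))]
    [(some (X tm.k₀ none) : A)] y
  have hI : ∀ i a, a ∈ I i ↔ a = some (Z (c0 y)) ∨ ∃ k, a = some (X k ((c0 y).stk k)[i]?) := by
    intro i a
    have e1 : Z (c0 []) = Z (c0 y) := rfl
    have e2 : (if i < y.length then (if y.getD i false then [some (X tm.k₀ (some (ia.symm true)))]
        else [some (X tm.k₀ (some (ia.symm false)))]) else [(some (X tm.k₀ none) : A)]) =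
        [some (X tm.k₀ ((c0 y).stk tm.k₀)[i]?)] := by
      simp only [c0, initList_k0]
      by_cases h : i < y.length
      · cases h' : y[i] <;> simp [h, h']
      · simp [h]
    simp only [I, ini, e1, e2, List.mem_append, List.mem_cons, List.mem_map, List.mem_filter, hks,
      true_and, decide_eq_true_eq, List.not_mem_nil, or_false, or_assoc]
    refine or_congr Iff.rfl ⟨?_, fun ⟨k, h⟩ => ?_⟩
    · rintro (⟨k, h, rfl⟩ | h)
      · exact ⟨k, by simp [c0, initList_ne tm _ h]⟩
      · exact ⟨_, h⟩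
    · by_cases e : k = tm.k₀
      · exact Or.inr (e ▸ h)
      · exact Or.inl ⟨k, e, by simp [h, c0, initList_ne tm _ e]⟩
  generalize hB : 2 ^ (τ + Polynomial.X + Polynomial.C (D + 2)).eval y.length = B
  let c : ℕ → Cfg tm.Γ tm.Λ tm.σ := fun t => (nxt M)^[t] (c0 y)
  have cs : ∀ t, c (t + 1) = ext (nxt M (win D (c t))) fun k => ((c t).stk k).drop D := fun t => by
    rw [← nxt_win M hD]; exact iterate_succ_apply' _ _ _
  rw [hf]
  constructor
  · intro hfy
    have hT : 2 ^ τ.eval y.length * (D + 1) + 2 < B := by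
      have h1 : D + 1 < 2 ^ (D + 1) := Nat.lt_two_pow_self
      have h2 : 1 ≤ 2 ^ τ.eval y.length := Nat.one_le_two_pow
      have h3 : 1 ≤ 2 ^ y.length := Nat.one_le_two_pow
      have h4 : 1 ≤ 2 ^ D := Nat.one_le_two_pow
      simp only [← hB, Polynomial.eval_add, Polynomial.eval_X, Polynomial.eval_C, pow_add] at h1 ⊢
      have h5 : 2 ^ τ.eval y.length * 2 ^ D ≤ 2 ^ τ.eval y.length * 2 ^ y.length * 2 ^ D := by
        gcongr; nlinarith
      nlinarith
    generalize hT0 : 2 ^ τ.eval y.length = T at hT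
    have key : ∀ t u, t + u = T → Der (gr :: (rs_finite M ks hGf D).toFinset.toList) I B t 0
        (some (Z (c t))) ∧ ∀ k, ∀ i < u * D + 2, Der (gr :: (rs_finite M ks hGf D).toFinset.toList)
          I B t i (some (X k ((c t).stk k)[i]?)) := by
      intro t
      induction t with
      | zero => exact fun _ _ => ⟨(hI _ _).2 (Or.inl rfl), fun k i _ => (hI _ _).2 (Or.inr ⟨k, rfl⟩)⟩
      | succ t ih =>
        intro u hu
        obtain ⟨i1, i2⟩ := ih (u + 1) (by omega)
        have hb : (u + 1) * D + 2 < B := by nlinarith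
        rw [add_mul, one_mul] at i2 hb
        have hω : win D (c t) ∈ Wins G D :=
          ⟨fun k x hx => hgood y t k x (List.mem_of_mem_take hx), fun k => List.length_take_le _ _⟩
        have bd : ∀ z, ∀ b ∈ body ks D (win D (c t)), cond b.2.2 z 0 + b.2.1 < B ∧
            Der (gr :: (rs_finite M ks hGf D).toFinset.toList) I B t (cond b.2.2 z 0 + b.2.1) b.1 :=
          fun z => (all_body hks).2 ⟨⟨by simp; omega, i1⟩, fun k j hj => ⟨by simp; omega, by
            simpa [win, List.getElem?_take_of_lt hj] using i2 k j (by omega)⟩⟩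
        simp only [Der, List.mem_cons, Finset.mem_toList, Set.Finite.mem_toFinset, RS,
          Set.mem_iUnion, Set.mem_union, Set.mem_singleton_iff]
        refine ⟨⟨_, Or.inr ⟨_, hω, Or.inl rfl⟩, by rw [cs]; rfl, le_rfl, fun _ => rfl, bd _⟩,
          fun k i hi => ?_⟩
        by_cases hj : i < ((nxt M (win D (c t))).stk k).length
        · exact ⟨_, Or.inr ⟨_, hω, Or.inr ⟨k, Or.inl ⟨i, hj, rfl⟩⟩⟩, by
            rw [cs]; simp only [ext]; rw [List.getElem?_append_left hj], le_rfl, fun _ => rfl, bd _⟩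
        · obtain ⟨i', rfl⟩ := Nat.exists_eq_add_of_le (not_lt.1 hj)
          refine ⟨_, Or.inr ⟨_, hω, Or.inr ⟨k, Or.inr ⟨_, goodO_get (hgood y t) k (i' + D), rfl⟩⟩⟩,
            ?_, by simp, by simp, List.forall_mem_cons.2 ⟨⟨by simp; omega, ?_⟩, bd _⟩⟩
          · rw [cs]
            simp only [ext]
            rw [List.getElem?_append_right (by omega)]
            simp [Nat.add_comm, c]
          · simp only [cond_true, Nat.add_sub_cancel_left]
            exact i2 k (i' + D) (by omega)
    obtain ⟨k1, k2⟩ := key T 0 rfl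
    have e : c T = haltList tm ((f y).map oa.symm) := hrun y T hT0.le
    have k3 := k2 tm.k₁ 0 (by omega)
    have k4 := k2 tm.k₁ 1 (by omega)
    rw [e, haltList_k1, hfy] at k3 k4
    rw [e] at k1
    refine ⟨T + 1, by nlinarith, gr, by simp, rfl, le_rfl, fun _ => rfl, ?_⟩
    simp only [gr, List.forall_mem_cons]
    exact ⟨⟨by simp; omega, k1⟩, ⟨by simp; omega, k3⟩, ⟨by simp; omega, k4⟩, by simp⟩
  · rintro ⟨t, -, h⟩
    have key : ∀ t i a, Der (gr :: (rs_finite M ks hGf D).toFinset.toList) I B t i a →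
        a.elim (f y = [true]) (Holds D (c t) i) := by
      intro t
      induction t with
      | zero =>
        intro i a h
        rcases (hI _ _).1 h with rfl | ⟨k, rfl⟩ <;> rfl
      | succ t ih =>
        rintro i _ ⟨r, h1, rfl, h2, h3, h4⟩
        replace h4 := fun b hb => ih _ _ (h4 b hb).2
        simp only [List.mem_cons, Finset.mem_toList, Set.Finite.mem_toFinset, RS,
          Set.mem_iUnion, Set.mem_union, Set.mem_singleton_iff] at h1
        have w : ∀ ω ∈ Wins G D, ∀ z, (∀ b ∈ body ks D ω, b.1.elim (f y = [true])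
            (Holds D (c t) (cond b.2.2 z 0 + b.2.1))) → win D (c t) = ω := fun ω hω z h =>
          win_eq hω ((all_body hks).1 h).1 fun k j hj => by
            simpa using ((all_body hks).1 h).2 k j hj
        rcases h1 with rfl | ⟨ω, hω, rfl | ⟨k, ⟨j, hj, rfl⟩ | ⟨o, ho, rfl⟩⟩⟩
        · simp only [gr, List.forall_mem_cons, Option.elim, Holds, Z, X, Prod.mk.injEq] at h4
          obtain ⟨⟨a1, -⟩, a2, a3, -⟩ := h4
          have e1 : (nxt M)^[2 ^ τ.eval y.length] (c t) = c t := by
            generalize c t = d at a1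
            obtain ⟨l, v, S⟩ := d
            cases a1
            exact iterate_fixed rfl _
          rw [← iterate_add_apply, hrun y _ (by omega)] at e1
          rw [← e1, haltList_k1] at a2 a3
          rcases e : f y with _ | ⟨b, _ | _⟩ <;> simp [e] at a2 a3 ⊢
          exact a2
        · simp only [Option.elim, Holds, Z]
          rw [cs, w ω hω _ h4]
          rfl
        · obtain rfl : i = j := h3 rfl
          simp only [Option.elim, Holds, X]
          rw [cs, w ω hω _ h4]
          exact List.getElem?_append_left hj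
        · obtain ⟨a, h4⟩ := List.forall_mem_cons.1 h4
          simp only [Option.elim, Holds, X, cond_true] at a h2 ⊢
          rw [cs, w ω hω _ h4]
          simp only [ext]
          rw [List.getElem?_append_right h2, ← a]
          simp [Nat.add_comm]
    exact key _ _ _ h

theorem etab {L : Set (List Bool)} (hL : InEXPTIME L) :
    ∃ (R : List (Rule ℕ)) (IC I0 I1 IB : List ℕ) (g N : ℕ) (τ : Polynomial ℕ),
      g < N ∧ (∀ r ∈ R, r.2.2.2 ≠ [] ∧ ∀ b ∈ r.2.2.2, b.1 < N) ∧
      ∀ y : List Bool, y.length ≤ τ.eval y.length ∧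
      (y ∈ L ↔ ∃ t < 2 ^ τ.eval y.length, Der R (ini IC I0 I1 IB y) (2 ^ τ.eval y.length) t 0 g) := by
  classical
  obtain ⟨A, R, IC, I0, I1, IB, g, τ, h1, h2⟩ := etab0 hL
  let S : List A := g :: (IC ++ I0 ++ I1 ++ IB ++ R.flatMap fun r => r.1 :: r.2.2.2.map (·.1))
  let c : A → ℕ := fun a => S.idxOf a
  let d : ℕ → A := fun n => S.getD n g
  have dc : ∀ a ∈ S, d (c a) = a := fun a ha => by
    simp [c, d, List.getD_eq_getElem?_getD, List.getElem?_idxOf ha]
  have e : ∀ y, ini (IC.map c) (I0.map c) (I1.map c) (IB.map c) y =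
      fun i => (ini IC I0 I1 IB y i).map c := fun y => funext fun i => by
    simp only [ini, List.map_append]
    split_ifs <;> rfl
  refine ⟨R.map (mapR c), IC.map c, I0.map c, I1.map c, IB.map c, c g, S.length, τ,
    List.idxOf_lt_length_of_mem (by simp [S]), List.forall_mem_map.2 fun r hr =>
      ⟨by simpa [mapR] using h1 r hr, List.forall_mem_map.2 fun b hb =>
        List.idxOf_lt_length_of_mem (by simp only [S]; grind)⟩, fun y => ⟨(h2 y).1, ?_⟩⟩
  rw [(h2 y).2, e]
  refine exists_congr fun t => and_congr Iff.rfl ⟨Der.map c, fun h => ?_⟩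
  convert h.map d using 1
  · rw [List.map_map, eq_comm, List.map_eq_iff]
    intro i
    rcases e : R[i]? with _ | r
    · rfl
    have hr := List.mem_of_getElem? e
    simp only [Option.map_some, comp, mapR, List.map_map, Option.some.injEq]
    rw [dc _ (by simp only [S]; grind), List.map_congr_left (g := id) fun b hb => by
      simp only [comp, id]; rw [dc _ (by simp only [S]; grind)], List.map_id]
  · funext i
    rw [List.map_map, List.map_congr_left (f := d ∘ c) (g := id) (l := ini IC I0 I1 IB y i)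
      fun a ha => dc a (by
        simp only [S, ini, List.mem_append, List.mem_cons] at ha ⊢
        split_ifs at ha <;> tauto), List.map_id]
  · exact (dc _ (by simp [S])).symm

end Pool.Agent.H22.EX
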