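import Pool.Agent.H22.EX1

/-! A round game on Boolean memory that is EXPTIME-hard. -/

namespace Pool.Agent.H22.EX

open Pool.Agent.H38.NP Function

abbrev Q := ℕ × ℕ × ℕ × ℕ × ℕ
/-- guard and successors -/
abbrev Op := List (ℕ × Bool) × List Q
/-- optional assignment and options -/
abbrev In := Option (ℕ × Bool) × List Op

inductive Win (ins : Q → In) : Q → (ℕ → Bool) → Prop
  | mk (q m m' o) : (m' = m ∨ ∃ x b, (ins q).1 = some (x, b) ∧ m' = update m x b) →
      o ∈ (ins q).2 → (∀ g ∈ o.1, m' g.1 = g.2) → (∀ q' ∈ o.2, Win ins q' m') → Win ins q m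

theorem win_iff {ins q m} : Win ins q m ↔ ∃ m', (m' = m ∨ ∃ x b, (ins q).1 = some (x, b) ∧
    m' = update m x b) ∧ ∃ o ∈ (ins q).2, (∀ g ∈ o.1, m' g.1 = g.2) ∧ ∀ q' ∈ o.2, Win ins q' m' :=
  ⟨fun h => by cases h with | mk _ _ m' o a b c d => exact ⟨m', a, o, b, c, d⟩,
    fun ⟨m', a, o, b, c, d⟩ => .mk _ _ m' o a b c d⟩

theorem win_none {ins q m os} (h : ins q = (none, os)) : Win ins q m ↔
    ∃ o ∈ os, (∀ g ∈ o.1, m g.1 = g.2) ∧ ∀ q' ∈ o.2, Win ins q' m := by
  rw [win_iff, h]; simp

theorem win_set {ins q m x b q'} (h : ins q = (some (x, b), [([(x, b)], [q'])])) :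
    Win ins q m ↔ Win ins q' (update m x b) := by
  rw [win_iff, h]
  simp only [Option.some.injEq, Prod.mk.injEq, List.mem_singleton, exists_eq_left, forall_eq]
  refine ⟨?_, fun h => ⟨_, Or.inr ⟨x, b, ⟨rfl, rfl⟩, rfl⟩, by simp, h⟩⟩
  rintro ⟨m', rfl | ⟨_, _, ⟨rfl, rfl⟩, rfl⟩, a, c⟩
  · rwa [← a, update_eq_self]
  · exact c

theorem ex_app {α : Type} {l l' : List α} {P : α → Prop} :
    (∃ o ∈ l ++ l', P o) ↔ (∃ o ∈ l, P o) ∨ ∃ o ∈ l', P o := by
  simp only [List.mem_append, or_and_right, exists_or]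

theorem ex_map {α β : Type} {l : List α} {f : α → β} {P : β → Prop} :
    (∃ o ∈ l.map f, P o) ↔ ∃ a ∈ l, P (f a) := by
  simp only [List.mem_map, exists_exists_and_eq_and]

theorem ex_ite {α : Type} {l l' : List α} {P : α → Prop} {c : Prop} [Decidable c] :
    (∃ o ∈ (if c then l else l'), P o) ↔ if c then ∃ o ∈ l, P o else ∃ o ∈ l', P o := by
  split_ifs <;> rfl

def ms (r : ℕ) (f g : ℕ → Bool) (x : ℕ) : Bool := if x % 2 = r then f (x / 2) else g (x / 2)

theorem ms_get {r f g j} (h : r ≤ 1) : ms r f g (2 * j + r) = f j := by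
  rw [ms, if_pos (by omega), show (2 * j + r) / 2 = j by omega]

theorem ms_upd {r f g j b} (h : r ≤ 1) :
    update (ms r f g) (2 * j + r) b = ms r (update f j b) g := by
  funext x
  by_cases e : x = 2 * j + r
  · rw [e, update_self, ms_get h, update_self]
  · rw [update_of_ne e, ms, ms]
    split_ifs
    · rw [update_of_ne (by omega)]
    · rfl

theorem ms_swap {f g} : ms 0 f g = ms 1 g f := by
  funext x
  unfold ms
  split_ifs <;> first | rfl | omega

theorem bit_get {j h low : ℕ} (c : Bool) (hl : low < 2 ^ j) :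
    (2 ^ j * (2 * h + c.toNat) + low).testBit j = c := by
  rw [Nat.testBit_two_pow_mul_add _ hl]
  cases c <;> simp [Nat.add_mod]

theorem bit_upd {j h low : ℕ} (c b : Bool) (hl : low < 2 ^ j) :
    update (2 ^ j * (2 * h + c.toNat) + low).testBit j b =
      (2 ^ j * (2 * h + b.toNat) + low).testBit := by
  funext l
  by_cases e : l = j
  · rw [e, update_self, bit_get b hl]
  rw [update_of_ne e, Nat.testBit_two_pow_mul_add _ hl, Nat.testBit_two_pow_mul_add _ hl]
  split_ifs with h1
  · rfl
  obtain ⟨d, e⟩ : ∃ d, l - j = d + 1 := ⟨l - j - 1, by omega⟩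
  rw [e, Nat.testBit_succ, Nat.testBit_succ]
  congr 1
  have := c.toNat_le
  have := b.toNat_le
  omega

theorem split2 (h : ℕ) : ∃ h', ∃ c : Bool, h = 2 * h' + c.toNat :=
  ⟨h / 2, decide (h % 2 = 1), by by_cases e : h % 2 = 1 <;> simp [e] <;> omega⟩

def tb (p j : ℕ) : Bool := decide ((fun n => n / 2)^[j] p % 2 = 1)

theorem tb_eq (p j : ℕ) : tb p j = p.testBit j := by
  induction j generalizing p with
  | zero => simp [tb, Nat.testBit_zero]
  | succ j ih => rw [Nat.testBit_succ, ← ih]; rfl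

theorem pt_tb : PT fun p : ℕ × ℕ => tb p.1 p.2 := by
  have : PT fun p : ℕ × ℕ => (fun n => n / 2)^[p.2] p.1 := by
    refine PT.iterate (step := fun _ (n : ℕ) => n / 2) (by fun_prop) (by fun_prop) (by fun_prop)
      (PT.fst PT.id').pb fun p i h => ?_
    clear h
    simp only [sz_nat]
    induction i with
    | zero => rfl
    | succ i ih => rw [iterate_succ_apply']; omega
  unfold tb
  fun_prop

def eqG (M r p : ℕ) : List (ℕ × Bool) := (List.range M).map fun j => (2 * j + r, tb p j)

theorem eqG_iff {M r p z : ℕ} {g} (hr : r ≤ 1) (hp : p < 2 ^ M) (hz : z < 2 ^ M) :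
    (∀ x ∈ eqG M r p, ms r z.testBit g x.1 = x.2) ↔ z = p := by
  simp only [eqG, List.forall_mem_map, List.mem_range, ms_get hr, tb_eq]
  refine ⟨fun h => Nat.eq_of_testBit_eq fun j => ?_, fun h _ _ => h ▸ rfl⟩
  by_cases e : j < M
  · exact h j e
  · have := Nat.pow_le_pow_right (n := 2) (by omega) (not_lt.1 e)
    rw [Nat.testBit_lt_two_pow (by omega), Nat.testBit_lt_two_pow (by omega)]

def dR : Rule ℕ := (0, 0, false, [])
def bl (R : List (Rule ℕ)) (c l : ℕ) : ℕ × ℕ × Bool := (R.getD c dR).2.2.2.getD l (0, 0, false)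

/-- 0: decrement the time, 1, 2, 3: decrement, increment, clear the position -/
def ops (R : List (Rule ℕ)) (c l : ℕ) : List ℕ :=
  0 :: (List.replicate (R.getD c dR).2.1 1 ++ ((if (bl R c l).2.2 then [] else [3]) ++
    List.replicate (bl R c l).2.1 2))

def prog (R : List (Rule ℕ)) (IC I0 I1 IB : List ℕ) (g : ℕ) (y : List Bool) (M : ℕ) (q : Q) : In :=
  let o := (ops R q.2.1 q.2.2.1).getD q.2.2.2.1 0
  let x := 2 * q.2.2.2.2 + min o 1
  if q.1 = 0 then
    if q.2.2.2.2 < M then (some (2 * q.2.2.2.2, true), [([], [(0, 0, 0, 0, q.2.2.2.2 + 1)])])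
    else (none, [([], [(1, g, 0, 0, 0)])])
  else if q.1 = 1 then (none,
    (((List.range y.length).filter fun p => decide (q.2.1 ∈ ini IC I0 I1 IB y p)).map fun p =>
      (eqG M 0 0 ++ eqG M 1 p, [])) ++
    ((if q.2.1 ∈ IC ++ IB then [(eqG M 0 0, (List.range y.length).map fun p => (2, 0, 0, 0, p))]
      else []) ++
    ((List.range R.length).filter fun c => decide ((R.getD c dR).1 = q.2.1)).map fun c =>
      (if (R.getD c dR).2.2.1 then [] else eqG M 1 (R.getD c dR).2.1,
        (List.range (R.getD c dR).2.2.2.length).map fun l => (3, c, l, 0, 0))))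
  else if q.1 = 2 then (none, (List.range M).map fun j => ([(2 * j + 1, !tb q.2.2.2.2 j)], []))
  else if q.1 = 3 then (none,
    if (ops R q.2.1 q.2.2.1).length ≤ q.2.2.2.1 then [([], [(1, (bl R q.2.1 q.2.2.1).1, 0, 0, 0)])]
    else if M ≤ q.2.2.2.2 then
      (if o = 3 then [([], [(3, q.2.1, q.2.2.1, q.2.2.2.1 + 1, 0)])] else [])
    else if o = 3 then [([], [(4, q.2)])]
    else [([(x, decide (o = 2))], [(4, q.2)]), ([(x, !decide (o = 2))], [(5, q.2)])])
  else if q.1 = 4 then (some (x, decide (o ≤ 1)),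
    [([(x, decide (o ≤ 1))], [(3, q.2.1, q.2.2.1, q.2.2.2.1, min (q.2.2.2.2 + 1) M)])])
  else (some (x, decide (o = 2)),
    [([(x, decide (o = 2))], [(3, q.2.1, q.2.2.1, min (q.2.2.2.1 + 1)
      (ops R q.2.1 q.2.2.1).length, 0)])])

def run (B : ℕ) : List ℕ → ℕ → ℕ → (ℕ → ℕ → Prop) → Prop
  | [], t, i, K => K t i
  | o :: os, t, i, K => if o = 0 then 1 ≤ t ∧ run B os (t - 1) i K else
      if o = 1 then 1 ≤ i ∧ run B os t (i - 1) K else
      if o = 2 then i + 1 < B ∧ run B os t (i + 1) K else run B os t 0 K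

theorem run_dec {B os t K} (h i : ℕ) :
    run B (List.replicate h 1 ++ os) t i K ↔ h ≤ i ∧ run B os t (i - h) K := by
  induction h generalizing i with
  | zero => simp
  | succ h ih =>
    simp only [List.replicate_succ, List.cons_append, run, ih, Nat.sub_sub, Nat.add_comm 1]
    simp only [one_ne_zero, if_false, if_true, ← and_assoc]
    exact and_congr_left' (by omega)

theorem run_inc {B t K} (h i : ℕ) (hi : i < B) :
    run B (List.replicate h 2) t i K ↔ i + h < B ∧ K t (i + h) := by
  induction h generalizing i with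
  | zero => simp [run, hi]
  | succ h ih =>
    simp only [List.replicate_succ, run]
    by_cases e : i + 1 < B
    · simp [e, ih _ e, Nat.add_assoc, Nat.add_comm 1]
    · simp [e]; omega

def mem (t i : ℕ) : ℕ → Bool := ms 0 t.testBit i.testBit

variable {R : List (Rule ℕ)} {IC I0 I1 IB : List ℕ} {g : ℕ} {y : List Bool} {M : ℕ}

theorem scan {c l s o : ℕ} (hs : s < (ops R c l).length) (ho : (ops R c l).getD s 0 = o)
    (h3 : o ≤ 3) (w : ℕ → Bool) (k : ℕ) : ∀ j h, j + k = M → h < 2 ^ k →
      (Win (prog R IC I0 I1 IB g y M) (3, c, l, s, j)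
        (ms (min o 1) (2 ^ j * h + if o ≤ 1 then 2 ^ j - 1 else 0).testBit w) ↔
      (if o ≤ 1 then 1 ≤ h else o = 2 → h + 1 < 2 ^ k) ∧
        Win (prog R IC I0 I1 IB g y M) (3, c, l, s + 1, 0) (ms (min o 1)
          (2 ^ j * (if o ≤ 1 then h - 1 else if o = 2 then h + 1 else 0) +
            if o ≤ 1 then 2 ^ j - 1 else 0).testBit w)) := by
  have hr : min o 1 ≤ 1 := min_le_right _ _
  induction k with
  | zero =>
    intro j h e hh
    obtain rfl : h = 0 := by omega
    rw [win_none (os := if o = 3 then [([], [(3, c, l, s + 1, 0)])] else [])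
      (by simp [prog, -List.getD_eq_getElem?_getD, ho, hs, ← e])]
    interval_cases o <;> simp [-Prod.forall]
  | succ k ih =>
    intro j h e hh
    obtain ⟨h, b, rfl⟩ := split2 h
    have hl : (if o ≤ 1 then 2 ^ j - 1 else 0) < 2 ^ j := by
      have := Nat.two_pow_pos j
      split_ifs <;> omega
    have hb := b.toNat_le
    have w4 : Win (prog R IC I0 I1 IB g y M) (4, c, l, s, j) _ ↔ _ := (win_set (b := decide (o ≤ 1))
      (x := 2 * j + min o 1) (q' := (3, c, l, s, j + 1)) (by
        simp [prog, -List.getD_eq_getElem?_getD, ho]; omega)).trans (by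
      rw [ms_upd (g := w) hr, bit_upd (h := h) b _ hl])
    have w5 : Win (prog R IC I0 I1 IB g y M) (5, c, l, s, j) _ ↔ _ := (win_set (b := decide (o = 2))
      (x := 2 * j + min o 1) (q' := (3, c, l, s + 1, 0)) (by
        simp [prog, -List.getD_eq_getElem?_getD, ho]; omega)).trans (by
      rw [ms_upd (g := w) hr, bit_upd (h := h) b _ hl])
    have i := ih (j + 1) h (by omega) (by rw [pow_succ] at hh; omega)
    have p := Nat.two_pow_pos j
    rw [win_none (os := if o = 3 then [([], [(4, c, l, s, j)])] else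
      [([(2 * j + min o 1, decide (o = 2))], [(4, c, l, s, j)]),
        ([(2 * j + min o 1, !decide (o = 2))], [(5, c, l, s, j)])])
      (by simp [prog, -List.getD_eq_getElem?_getD, ho, hs, show ¬ M ≤ j by omega])]
    have e1 : 2 ^ j * (2 * h + 1) + (2 ^ j - 1) = 2 ^ (j + 1) * h + (2 ^ (j + 1) - 1) := by
      rw [pow_succ]; nlinarith [Nat.sub_add_cancel p, Nat.sub_add_cancel (show 1 ≤ 2 ^ j * 2 by omega)]
    have e2 : 1 ≤ h → 2 ^ (j + 1) * (h - 1) + (2 ^ (j + 1) - 1) =
        2 ^ j * (2 * h - 1) + (2 ^ j - 1) := fun hh => by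
      obtain ⟨h, rfl⟩ := Nat.exists_eq_add_of_le' hh
      rw [pow_succ, show 2 * (h + 1) - 1 = 2 * h + 1 by omega, Nat.add_sub_cancel]
      nlinarith [Nat.sub_add_cancel p, Nat.sub_add_cancel (show 1 ≤ 2 ^ j * 2 by omega)]
    have e3 : 2 ^ (j + 1) * h = 2 ^ j * (2 * h) := by ring
    have e4 : 2 ^ (j + 1) * (h + 1) = 2 ^ j * (2 * h + 1 + 1) := by ring
    have e5 : h + 1 < 2 ^ k ↔ 2 * h + 1 + 1 < 2 ^ (k + 1) := by rw [pow_succ]; omega
    have e6 : 2 * h + 1 < 2 ^ (k + 1) := by rw [pow_succ] at hh ⊢; omega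
    have gb := (ms_get (g := w) (j := j) hr).trans (bit_get (h := h) b hl)
    simp only [ex_ite, List.mem_cons, List.not_mem_nil, or_false,
      exists_eq_or_imp, exists_eq_left, forall_eq, gb, w4, w5]
    by_cases q : o ≤ 1 ∧ b = false
    · obtain ⟨q, rfl⟩ := q
      simp only [q, if_true, min_eq_left q] at i
      simp [q, show o ≠ 3 by omega, show o ≠ 2 by omega, e1, i]
      exact ⟨fun a => ⟨by omega, e2 a.1 ▸ a.2⟩, fun a => ⟨by omega, (e2 (by omega)).symm ▸ a.2⟩⟩
    interval_cases o <;> cases b <;> simp [e1, e3, e4, e5, e6] at i q ⊢ <;> grind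

theorem chain {c l : ℕ} (k : ℕ) : ∀ s t i, s + k = (ops R c l).length → t < 2 ^ M → i < 2 ^ M →
    (Win (prog R IC I0 I1 IB g y M) (3, c, l, s, 0) (mem t i) ↔
      run (2 ^ M) ((ops R c l).drop s) t i fun t i =>
        Win (prog R IC I0 I1 IB g y M) (1, (bl R c l).1, 0, 0, 0) (mem t i)) := by
  induction k with
  | zero =>
    intro s t i e _ _
    rw [List.drop_eq_nil_of_le (by omega), run,
      win_none (os := [([], [(1, (bl R c l).1, 0, 0, 0)])]) (by simp [prog, ← e])]
    simp [-Prod.forall]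
  | succ k ih =>
    intro s t i e ht hi
    have hs : s < (ops R c l).length := by omega
    have ho : (ops R c l).getD s 0 = (ops R c l)[s] := List.getD_eq_getElem _ _ hs
    have h3 : (ops R c l)[s] ≤ 3 := by
      have := List.getElem_mem hs
      generalize (ops R c l)[s] = o at this
      simp only [ops, List.mem_cons, List.mem_append, List.mem_replicate] at this
      split_ifs at this <;> simp at this <;> omega
    rw [List.drop_eq_getElem_cons hs]
    generalize (ops R c l)[s] = o at ho h3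
    have a := fun w z => @scan R IC I0 I1 IB g y M c l s o hs ho h3 w M 0 z (by omega)
    have ih := fun t i => ih (s + 1) t i (by omega)
    have p := Nat.two_pow_pos M
    interval_cases o <;> simp only [run]
    · rw [← ih (t - 1) i (by omega) hi]
      simpa [mem] using a i.testBit t ht
    · rw [← ih t (i - 1) ht (by omega)]
      simpa [mem, ms_swap] using a t.testBit i hi
    · have := a t.testBit i hi
      by_cases e : i + 1 < 2 ^ M
      · rw [← ih t (i + 1) ht e]
        simpa [mem, ms_swap] using this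
      · simpa [e, mem, ms_swap] using this
    · rw [← ih t 0 ht p]
      simpa [mem, ms_swap] using a t.testBit i hi

theorem claim (hR : ∀ r ∈ R, r.2.2.2 ≠ []) (hy : y.length ≤ M) (t : ℕ) :
    ∀ i a, t < 2 ^ M → i < 2 ^ M → (Win (prog R IC I0 I1 IB g y M) (1, a, 0, 0, 0) (mem t i) ↔
      Der R (ini IC I0 I1 IB y) (2 ^ M) t i a) := by
  induction t using Nat.strong_induction_on with
  | _ t ih =>
  intro i a ht hi
  have p := Nat.two_pow_pos M
  have hM : M < 2 ^ M := Nat.lt_two_pow_self
  have g0 : (∀ x ∈ eqG M 0 0, mem t i x.1 = x.2) ↔ t = 0 := eqG_iff (by omega) p ht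
  have g1 : ∀ z < 2 ^ M, (∀ x ∈ eqG M 1 z, mem t i x.1 = x.2) ↔ i = z := fun z hz => by
    rw [mem, ms_swap]; exact eqG_iff le_rfl hz hi
  have w2 : ∀ z < y.length, Win (prog R IC I0 I1 IB g y M) (2, 0, 0, 0, z) (mem t i) ↔ i ≠ z :=
    fun z hz => by
      rw [win_none (os := (List.range M).map fun j => ([(2 * j + 1, !tb z j)], []))
        (by simp [prog]), ne_eq, ← g1 z (by omega)]
      simp [eqG, -Prod.forall, Bool.eq_not]
  have w3 : ∀ c l, Win (prog R IC I0 I1 IB g y M) (3, c, l, 0, 0) (mem t i) ↔ 1 ≤ t ∧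
      (R.getD c dR).2.1 ≤ i ∧ cond (bl R c l).2.2 (i - (R.getD c dR).2.1) 0 + (bl R c l).2.1 < 2 ^ M ∧
      Der R (ini IC I0 I1 IB y) (2 ^ M) (t - 1)
        (cond (bl R c l).2.2 (i - (R.getD c dR).2.1) 0 + (bl R c l).2.1) (bl R c l).1 := fun c l => by
    rw [chain _ 0 t i (Nat.zero_add _) ht hi, List.drop_zero, ops, run, if_pos rfl, run_dec]
    refine and_congr_right fun h1 => and_congr Iff.rfl ?_
    cases (bl R c l).2.2
    · simp only [Bool.false_eq_true, if_false, List.cons_append, List.nil_append, run,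
        run_inc _ _ p, cond_false]
      exact and_congr_right fun h => ih _ (by omega) _ _ (by omega) h
    · simp only [if_true, List.nil_append, cond_true,
        run_inc _ (i - (R.getD c dR).2.1) (show _ < 2 ^ M by omega)]
      exact and_congr_right fun h => ih _ (by omega) _ _ (by omega) h
  rw [win_none (by simp only [prog]; rfl)]
  simp only [ex_app, ex_map, List.mem_filter, List.mem_range, decide_eq_true_eq,
    List.forall_mem_append, g0, List.forall_mem_map, w3]
  have ne : ∀ c < R.length, 0 < (R.getD c dR).2.2.2.length := fun c hc =>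
    List.length_pos_iff.2 (hR _ (by rw [List.getD_eq_getElem _ _ hc]; exact List.getElem_mem _))
  cases t with
  | zero =>
    simp only [Der]
    constructor
    · rintro (⟨z, ⟨h1, h2⟩, ⟨-, h3⟩, -⟩ | ⟨o, h1, -, h2⟩ | ⟨c, ⟨h1, -⟩, -, h2⟩)
      · rwa [(g1 z (by omega)).1 h3]
      · split_ifs at h1 with h
        · obtain rfl := List.mem_singleton.1 h1
          have : ¬ i < y.length := fun h' => (w2 i h').1 (h2 _ (by simpa using h')) rfl
          simpa [ini, this] using h
        · simp at h1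
      · simpa using (h2 0 (ne c h1)).1
    · intro h
      by_cases e : i < y.length
      · exact Or.inl ⟨i, ⟨e, h⟩, ⟨trivial, (g1 i hi).2 rfl⟩, by simp⟩
      · refine Or.inr (Or.inl ⟨_, by
          rw [if_pos (by simpa [ini, e] using h)]; exact List.mem_singleton_self _, g0.2 rfl, ?_⟩)
        simp only [List.forall_mem_map, List.mem_range]
        exact fun z hz => (w2 z hz).2 (by omega)
  | succ t =>
    have hb : ∀ c, ∀ P : _ → Prop, (∀ l < (R.getD c dR).2.2.2.length, P (bl R c l)) ↔
        ∀ b ∈ (R.getD c dR).2.2.2, P b := fun c P => by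
      rw [List.forall_mem_iff_forall_getElem]
      exact forall₂_congr fun l hl => by rw [bl, List.getD_eq_getElem _ _ hl]
    simp only [Der, Nat.add_sub_cancel]
    constructor
    · rintro (⟨z, -, ⟨h3, -⟩, -⟩ | ⟨o, h1, h2, -⟩ | ⟨c, ⟨h1, h2⟩, h3, h4⟩)
      · omega
      · split_ifs at h1 with h
        · obtain rfl := List.mem_singleton.1 h1
          simpa using g0.1 h2
        · simp at h1
      · have h5 := (h4 0 (ne c h1)).2.1
        refine ⟨R.getD c dR, by rw [List.getD_eq_getElem _ _ h1]; exact List.getElem_mem _, h2, h5,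
          fun e => (g1 _ (by omega)).1 (by simpa only [e, Bool.false_eq_true, if_false] using h3), (hb c _).1 fun l hl =>
            (h4 l hl).2.2⟩
    · rintro ⟨r, h1, h2, h3, h4, h5⟩
      obtain ⟨c, hc, rfl⟩ := List.getElem_of_mem h1
      rw [← List.getD_eq_getElem R dR hc] at h2 h3 h4 h5
      refine Or.inr (Or.inr ⟨c, ⟨hc, h2⟩, ?_, fun l hl => ⟨by omega, h3, (hb c _).2 h5 l hl⟩⟩)
      split_ifs with e
      · simp
      · exact (g1 _ (by omega)).2 (h4 (by simpa using e))

theorem begin (k : ℕ) : ∀ j low, j + k = M → low < 2 ^ j →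
    (Win (prog R IC I0 I1 IB g y M) (0, 0, 0, 0, j) (mem low 0) ↔ ∃ h < 2 ^ k,
      Win (prog R IC I0 I1 IB g y M) (1, g, 0, 0, 0) (mem (2 ^ j * h + low) 0)) := by
  induction k with
  | zero =>
    intro j low e _
    rw [win_none (os := [([], [(1, g, 0, 0, 0)])]) (by simp [prog, ← e])]
    simp [-Prod.forall]
  | succ k ih =>
    intro j low e hl
    have u : update (mem low 0) (2 * j) true = mem (2 ^ j + low) 0 := by
      have := bit_upd (h := 0) false true hl
      simp only [mul_zero, Bool.toNat_false, add_zero, zero_add, Bool.toNat_true, mul_one] at this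
      rw [mem, mem, ← this]
      exact ms_upd (r := 0) (by omega)
    rw [win_iff]
    simp only [prog, if_true, show j < M by omega, Option.some.injEq, Prod.mk.injEq,
      List.mem_singleton, exists_eq_left, List.not_mem_nil, false_imp_iff, implies_true, true_and,
      forall_eq, and_assoc, exists_and_left, exists_eq_left', u, exists_eq_or_imp,
      ih (j + 1) low (by omega) (by rw [pow_succ]; omega),
      ih (j + 1) (2 ^ j + low) (by omega) (by rw [pow_succ]; omega)]
    constructor
    · rintro (⟨h, a, b⟩ | ⟨h, a, b⟩)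
      · exact ⟨2 * h, by rw [pow_succ]; omega, by convert b using 2; ring⟩
      · exact ⟨2 * h + 1, by rw [pow_succ]; omega, by convert b using 2; ring⟩
    · rintro ⟨h, a, b⟩
      rw [pow_succ] at a
      obtain ⟨h, _ | _, rfl⟩ := split2 h
      · exact Or.inl ⟨h, by omega, by convert b using 2; simp; ring⟩
      · exact Or.inr ⟨h, by omega, by convert b using 2; simp; ring⟩

end Pool.Agent.H22.EX
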