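import Pool.Agent.H38.NP.Defs

/-! The class EXPTIME for the stack Turing machines of Mathlib. -/

namespace Pool.Agent.H22.EX

open Pool.Agent.H38.NP

/-- `L` is decided by a deterministic machine (Mathlib `TM2ComputableInTime`) within time
`2 ^ p(n)` for a polynomial `p`. -/
def InEXPTIME (L : Set (List Bool)) : Prop :=
  ∃ (f : List Bool → List Bool)
    (M : Turing.TM2ComputableInTime (id : List Bool → List Bool) (id : List Bool → List Bool) f)
    (p : Polynomial ℕ), (∀ n, M.time n ≤ 2 ^ p.eval n) ∧ ∀ x, x ∈ L ↔ f x = [true]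

/-- The decision problem `P`, restricted to inputs in the class `C`, is EXPTIME-hard: every
language in EXPTIME has a polynomial-time many-one reduction to it whose values are codes of
members of `C`. -/
def EXPTIMEHardOn {α : Type} [Enc α] (C P : α → Prop) : Prop :=
  ∀ A, InEXPTIME A → ∃ f, PolyTime f ∧ ∀ x, ∃ a, f x = enc a ∧ C a ∧ (x ∈ A ↔ P a)

end Pool.Agent.H22.EX
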