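import Mathlib

set_option autoImplicit false

namespace Pool.Agent.H22.FS
open Relation

/-- One friendly swap, on the level of functions from positions to persons. -/
def Step {A B : Type} [DecidableEq A] (X : SimpleGraph A) (Y : SimpleGraph B) (f g : A → B) :
    Prop :=
  ∃ u v, X.Adj u v ∧ Y.Adj (f u) (f v) ∧ g = f ∘ Equiv.swap u v

def FSG {n : ℕ} (X Y : SimpleGraph (Fin n)) : SimpleGraph (Equiv.Perm (Fin n)) :=
  SimpleGraph.fromRel (fun s t : Equiv.Perm (Fin n) =>
    ∃ a b : Fin n, X.Adj a b ∧ Y.Adj (s a) (s b) ∧ t = s * Equiv.swap a b)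

theorem comp_swap_swap {A B : Type} [DecidableEq A] (f : A → B) (u v : A) :
    (f ∘ Equiv.swap u v) ∘ Equiv.swap u v = f := by
  funext x
  simp

theorem Step.symm {A B : Type} [DecidableEq A] {X : SimpleGraph A} {Y : SimpleGraph B}
    {f g : A → B} (h : Step X Y f g) : Step X Y g f := by
  obtain ⟨u, v, hx, hy, rfl⟩ := h
  refine ⟨u, v, hx, ?_, (comp_swap_swap f u v).symm⟩
  simpa using hy.symm

def dec {A B : Type} {n : ℕ} (e : Fin n ≃ A) (f0 : A → B) (s : Equiv.Perm (Fin n)) : A → B :=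
  fun u => f0 (e (s (e.symm u)))

theorem dec_mul {A B : Type} [DecidableEq A] {n : ℕ} (e : Fin n ≃ A) (f0 : A → B)
    (s : Equiv.Perm (Fin n)) (a b : Fin n) :
    dec e f0 (s * Equiv.swap a b) = dec e f0 s ∘ Equiv.swap (e a) (e b) := by
  funext u
  obtain ⟨c, rfl⟩ := e.surjective u
  simp only [dec, Function.comp_apply, Equiv.symm_apply_apply, Equiv.Perm.mul_apply]
  rw [e.injective.swap_apply a b c]
  simp

theorem transfer {A B : Type} [DecidableEq A] {n : ℕ} (e : Fin n ≃ A) (X : SimpleGraph A)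
    (Y : SimpleGraph B) (f0 f1 : A → B) (D : ℕ)
    (hr : ReflTransGen (Step X Y) f0 f1)
    (Inv : (A → B) → ℤ → Prop) (h0 : Inv f0 0) (h1 : ∀ z, Inv f1 z → (D : ℤ) ≤ z)
    (hs : ∀ f g z, Inv f z → Step X Y f g → ∃ z', Inv g z' ∧ z' ≤ z + 1) :
    ∃ X' Y' : SimpleGraph (Fin n), ∃ σ τ : Equiv.Perm (Fin n),
      (FSG X' Y').Reachable σ τ ∧ D ≤ (FSG X' Y').dist σ τ := by
  refine ⟨X.comap e, Y.comap (fun a => f0 (e a)), 1, ?_⟩
  set G := FSG (X.comap e) (Y.comap (fun a => f0 (e a))) with hG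
  have hrel : ∀ s t : Equiv.Perm (Fin n),
      (∃ a b : Fin n, (X.comap e).Adj a b ∧ (Y.comap (fun a => f0 (e a))).Adj (s a) (s b) ∧
        t = s * Equiv.swap a b) → Step X Y (dec e f0 s) (dec e f0 t) := by
    rintro s t ⟨a, b, hx, hy, rfl⟩
    refine ⟨e a, e b, hx, ?_, dec_mul e f0 s a b⟩
    simpa [dec] using hy
  have hadj : ∀ s t, G.Adj s t → Step X Y (dec e f0 s) (dec e f0 t) := by
    intro s t h
    rw [hG, FSG, SimpleGraph.fromRel_adj] at h
    rcases h.2 with h | h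
    · exact hrel s t h
    · exact (hrel t s h).symm
  have hone : dec e f0 1 = f0 := by
    funext u
    simp [dec]
  have hreach : ∀ g, ReflTransGen (Step X Y) f0 g → ∃ t, dec e f0 t = g ∧ G.Reachable 1 t := by
    intro g hg
    induction hg with
    | refl => exact ⟨1, hone, SimpleGraph.Reachable.refl _⟩
    | tail _ hbc ih =>
      obtain ⟨t, rfl, ht⟩ := ih
      obtain ⟨u, v, hx, hy, rfl⟩ := hbc
      refine ⟨t * Equiv.swap (e.symm u) (e.symm v), ?_, ?_⟩
      · rw [dec_mul]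
        simp
      · refine ht.trans ?_
        by_cases hh : t = t * Equiv.swap (e.symm u) (e.symm v)
        · rw [← hh]
        · apply SimpleGraph.Adj.reachable
          rw [hG, FSG, SimpleGraph.fromRel_adj]
          refine ⟨hh, Or.inl ⟨e.symm u, e.symm v, ?_, ?_, rfl⟩⟩
          · simpa using hx
          · simpa [dec] using hy
  have hwalk : ∀ s t (p : G.Walk s t) z, Inv (dec e f0 s) z →
      ∃ z', Inv (dec e f0 t) z' ∧ z' ≤ z + p.length := by
    intro s t p
    induction p with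
    | nil => intro z hz; exact ⟨z, hz, by simp⟩
    | cons h p ih =>
      intro z hz
      obtain ⟨z1, hz1, hle⟩ := hs _ _ z hz (hadj _ _ h)
      obtain ⟨z2, hz2, hle2⟩ := ih z1 hz1
      refine ⟨z2, hz2, ?_⟩
      simp only [SimpleGraph.Walk.length_cons]
      push_cast
      omega
  obtain ⟨t, ht, hrt⟩ := hreach f1 hr
  refine ⟨t, hrt, ?_⟩
  obtain ⟨p, hp⟩ := hrt.exists_walk_length_eq_dist
  obtain ⟨z, hz, hle⟩ := hwalk 1 t p 0 (by rw [hone]; exact h0)
  rw [ht] at hz
  have := h1 z hz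
  rw [← hp]
  omega

end Pool.Agent.H22.FS
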