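import Mathlib
import Pool.Agent.H22.FS1

set_option autoImplicit false

namespace Pool.Agent.H22.FS
open Relation

/-- Walks of a given length in a relation. -/
inductive Wk {A : Type} (R : A → A → Prop) : A → A → ℕ → Prop
  | nil (s : A) : Wk R s s 0
  | cons {s t u : A} {k : ℕ} (h : R s t) (w : Wk R t u k) : Wk R s u (k + 1)

theorem Wk.mono {A : Type} {R R' : A → A → Prop} (h : ∀ s t, R s t → R' s t) {s t : A} {k : ℕ}
    (w : Wk R s t k) : Wk R' s t k := by
  induction w with
  | nil s => exact Wk.nil s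
  | cons h1 _ ih => exact Wk.cons (h _ _ h1) ih

theorem Wk.fix {A B : Type} {R : A → A → Prop} (φ : A → B) (h : ∀ s t, R s t → φ t = φ s)
    {s t : A} {k : ℕ} (w : Wk R s t k) : φ t = φ s := by
  induction w with
  | nil s => rfl
  | cons h1 _ ih => exact ih.trans (h _ _ h1)

theorem Wk.split {A B : Type} {R : A → A → Prop} (φ : A → B) {s t : A} {k : ℕ} (w : Wk R s t k)
    (hne : φ t ≠ φ s) :
    ∃ g g' k1 k2, Wk (fun a b => R a b ∧ φ b = φ a) s g k1 ∧ R g g' ∧ φ g' ≠ φ g ∧
      Wk R g' t k2 ∧ k = k1 + k2 + 1 := by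
  induction w with
  | nil s => exact absurd rfl hne
  | @cons s t u k h1 w ih =>
    by_cases e : φ t = φ s
    · obtain ⟨g, g', k1, k2, a1, a2, a3, a4, a5⟩ := ih (by rw [e]; exact hne)
      exact ⟨g, g', k1 + 1, k2, Wk.cons ⟨h1, e⟩ a1, a2, a3, a4, by omega⟩
    · exact ⟨s, t, 0, k, Wk.nil s, h1, e, w, by omega⟩

variable {n : ℕ} (X Y : SimpleGraph (Fin n))

def PS (s t : Equiv.Perm (Fin n)) : Prop :=
  ∃ a b : Fin n, X.Adj a b ∧ Y.Adj (s a) (s b) ∧ t = s * Equiv.swap a b

theorem PS.symm {s t : Equiv.Perm (Fin n)} (h : PS X Y s t) : PS X Y t s := by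
  obtain ⟨a, b, hx, hy, rfl⟩ := h
  refine ⟨a, b, hx, ?_, by simp⟩
  simpa using hy.symm

theorem adj_PS {s t : Equiv.Perm (Fin n)} (h : (FSG X Y).Adj s t) : PS X Y s t := by
  rw [FSG, SimpleGraph.fromRel_adj] at h
  rcases h.2 with h | h
  · exact h
  · exact PS.symm X Y h

theorem reach_of_rt {s t : Equiv.Perm (Fin n)} (h : ReflTransGen (PS X Y) s t) :
    (FSG X Y).Reachable s t := by
  induction h with
  | refl => exact SimpleGraph.Reachable.refl _
  | @tail b c _ hbc ih =>
    refine ih.trans ?_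
    by_cases e : b = c
    · rw [e]
    · apply SimpleGraph.Adj.reachable
      rw [FSG, SimpleGraph.fromRel_adj]
      exact ⟨e, Or.inl hbc⟩

theorem wk_dist {s t : Equiv.Perm (Fin n)} (h : (FSG X Y).Reachable s t) :
    Wk (PS X Y) s t ((FSG X Y).dist s t) := by
  obtain ⟨p, hp⟩ := h.exists_walk_length_eq_dist
  rw [← hp]
  clear hp h
  induction p with
  | nil => exact Wk.nil _
  | cons h p ih => exact Wk.cons (adj_PS X Y h) ih

theorem PS.moved {s t : Equiv.Perm (Fin n)} (h : PS X Y s t) (a : Fin n) (ha : t a ≠ s a) :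
    ∃ b, X.Adj a b ∧ Y.Adj (s a) (s b) ∧ t = s * Equiv.swap a b := by
  obtain ⟨u, v, hx, hy, rfl⟩ := h
  by_cases e1 : a = u
  · subst e1
    exact ⟨v, hx, hy, rfl⟩
  · by_cases e2 : a = v
    · subst e2
      exact ⟨u, hx.symm, hy.symm, by rw [Equiv.swap_comm]⟩
    · exact absurd (by rw [Equiv.Perm.mul_apply, Equiv.swap_apply_of_ne_of_ne e1 e2]) ha

section turns
variable (R : Equiv.Perm (Fin n) → Equiv.Perm (Fin n) → Prop) (a b : Fin n) (m : ℕ)
  (hR : ∀ s t, R s t → PS X Y s t ∧
    (t a ≠ s a → Y.Adj (s a) (s b) ∧ t = s * Equiv.swap a b))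
  (hP : ∀ s t k, Wk (fun s t => PS X Y s t ∧ t a = s a) s t k → Y.Adj (s a) (s b) →
    Y.Adj (s a) (t b) → s b ≠ t b → m ≤ k)
include hR hP

theorem turn1 : ∀ k s t, Wk R s t k → Y.Adj (s a) (s b) → t a ≠ s a → t a ≠ s b → m ≤ k := by
  intro k
  induction k using Nat.strong_induction_on with
  | _ k ih =>
    intro s t w hadj h1 h2
    obtain ⟨g, g', k1, k2, a1, a2, a3, a4, a5⟩ := w.split (fun s => s a) h1
    have hga : g a = s a := a1.fix (fun s => s a) (fun _ _ h => h.2)
    obtain ⟨b1, rfl⟩ := (hR _ _ a2).2 a3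
    by_cases e : s b = g b
    · have := ih k2 (by omega) _ t a4 (by simpa using b1.symm) (by simpa [← e] using h2)
        (by simpa [hga] using h1)
      omega
    · have := hP s g k1 (a1.mono (fun s t h => ⟨(hR _ _ h.1).1, h.2⟩)) hadj (hga ▸ b1) e
      omega

theorem turn2 : ∀ k s t, Wk R s t k → Y.Adj (s a) (s b) → t a ≠ s a → t a ≠ s b →
    ¬ Y.Adj (t a) (s a) → ¬ Y.Adj (t a) (s b) → 2 * m ≤ k := by
  intro k
  induction k using Nat.strong_induction_on with
  | _ k ih =>
    intro s t w hadj h1 h2 h3 h4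
    obtain ⟨g, g', k1, k2, a1, a2, a3, a4, a5⟩ := w.split (fun s => s a) h1
    have hga : g a = s a := a1.fix (fun s => s a) (fun _ _ h => h.2)
    obtain ⟨b1, rfl⟩ := (hR _ _ a2).2 a3
    by_cases e : s b = g b
    · have := ih k2 (by omega) _ t a4 (by simpa using b1.symm) (by simpa [← e] using h2)
        (by simpa [hga] using h1) (by simpa [← e] using h4) (by simpa [hga] using h3)
      omega
    · have c1 := hP s g k1 (a1.mono (fun s t h => ⟨(hR _ _ h.1).1, h.2⟩)) hadj (hga ▸ b1) e
      have c2 := turn1 X Y R a b m hR hP k2 _ t a4 (by simpa using b1.symm) (by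
        simp only [Equiv.Perm.mul_apply, Equiv.swap_apply_left]
        intro e2
        apply h3
        rw [e2, ← hga]
        exact b1.symm) (by simpa [hga] using h1)
      omega

end turns

section lower
variable (c : ℕ) (hc : c < n)
  (h3 : ∀ a b : Fin n, X.Adj a b → a.val < c → (a.val + 1 = b.val ∨ b.val + 1 = a.val))
  (htri : ∀ x y z, Y.Adj x y → Y.Adj y z → ¬ Y.Adj x z)
  (hC4 : ∀ x y u v, Y.Adj x u → Y.Adj u y → Y.Adj x v → Y.Adj v y → x = y ∨ u = v)
include hc h3 htri hC4

theorem around : ∀ d : ℕ, ∀ z a : Fin n, z.val + 1 = a.val → a.val + d = c → ∀ s t k,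
    Wk (fun s t => PS X Y s t ∧ t z = s z) s t k → Y.Adj (s z) (s a) → Y.Adj (s z) (t a) →
      s a ≠ t a → 2 ^ d ≤ k := by
  intro d
  induction d with
  | zero =>
    intro z a _ _ s t k w _ _ hne
    cases w with
    | nil => exact absurd rfl hne
    | cons _ _ => simp
  | succ d ih =>
    intro z a hz ha s t k w e1 e2 hne
    set b : Fin n := ⟨a.val + 1, by omega⟩ with hb
    have hR : ∀ s t, (PS X Y s t ∧ t z = s z) → PS X Y s t ∧
        (t a ≠ s a → Y.Adj (s a) (s b) ∧ t = s * Equiv.swap a b) := by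
      rintro s t ⟨h, hf⟩
      refine ⟨h, fun hm => ?_⟩
      obtain ⟨x, hx, hy, rfl⟩ := h.moved X Y a hm
      rcases h3 a x hx (by omega) with h | h
      · have : x = b := Fin.ext (by simp [hb, h])
        subst this
        exact ⟨hy, rfl⟩
      · have : x = z := Fin.ext (by omega)
        subst this
        simp only [Equiv.Perm.mul_apply, Equiv.swap_apply_right] at hf
        exact absurd hf hy.ne
    obtain ⟨g, g', k1, k2, a1, a2, a3, a4, a5⟩ := w.split (fun s => s a) hne.symm
    have hga : g a = s a := a1.fix (fun s => s a) (fun _ _ h => h.2)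
    have hgz : g z = s z := a1.fix (fun s => s z) (fun _ _ h => h.1.2)
    obtain ⟨b1, rfl⟩ := (hR _ _ a2).2 a3
    have hbz : g b ≠ s z := by
      rw [← hgz]
      intro e
      have := congrArg Fin.val (g.injective e)
      simp [hb] at this
      omega
    rw [hga] at b1
    have := turn2 X Y _ a b (2 ^ d) hR (ih a b (by simp [hb]) (by simp [hb]; omega)) k2 _ t a4
      (by simpa [hga] using b1.symm) (by
        simp only [Equiv.Perm.mul_apply, Equiv.swap_apply_left]
        intro e
        exact htri _ _ _ e1 b1 (e ▸ e2)) (by simpa [hga] using hne.symm) (by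
        simp only [Equiv.Perm.mul_apply, Equiv.swap_apply_left]
        intro e
        rcases hC4 _ _ _ _ e1 b1 e2 e with h | h
        · exact hbz h.symm
        · exact hne h) (by
        simp only [Equiv.Perm.mul_apply, Equiv.swap_apply_right, hga]
        intro e
        exact htri _ _ _ e2 e e1)
    rw [pow_succ]
    omega

theorem far (d : ℕ) (hd : d + 1 = c) (a : Fin n) (ha : a.val = 0) (s t : Equiv.Perm (Fin n))
    (hr : (FSG X Y).Reachable s t) (h1 : t a ≠ s a) (h2 : ¬ Y.Adj (t a) (s a)) :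
    2 ^ d ≤ (FSG X Y).dist s t := by
  set b : Fin n := ⟨1, by omega⟩ with hb
  have hR : ∀ s t, PS X Y s t → PS X Y s t ∧
      (t a ≠ s a → Y.Adj (s a) (s b) ∧ t = s * Equiv.swap a b) := by
    rintro s t h
    refine ⟨h, fun hm => ?_⟩
    obtain ⟨x, hx, hy, rfl⟩ := h.moved X Y a hm
    rcases h3 a x hx (by omega) with h | h
    · have : x = b := Fin.ext (by simp [hb]; omega)
      subst this
      exact ⟨hy, rfl⟩
    · omega
  obtain ⟨g, g', k1, k2, a1, a2, a3, a4, a5⟩ := (wk_dist X Y hr).split (fun s => s a) h1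
  have hga : g a = s a := a1.fix (fun s => s a) (fun _ _ h => h.2)
  obtain ⟨b1, rfl⟩ := (hR _ _ a2).2 a3
  have := turn1 X Y _ a b (2 ^ d) hR
    (around X Y c hc h3 htri hC4 d a b (by simp [hb, ha]) (by simp [hb]; omega)) k2 _ t a4
    (by simpa using b1.symm) (by
      simp only [Equiv.Perm.mul_apply, Equiv.swap_apply_left]
      intro e
      apply h2
      rw [e, ← hga]
      exact b1.symm) (by simpa [hga] using h1)
  omega

end lower

end Pool.Agent.H22.FS
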