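import Mathlib
import Pool.Agent.H22.FS7

set_option autoImplicit false

namespace Pool.Agent.H22.FS
open Relation

variable {n : ℕ} (X Y : SimpleGraph (Fin n))

section upper
variable (c : ℕ) (hc : c < n)
  (h1 : ∀ a b : Fin n, a.val + 1 = b.val → b.val ≤ c → X.Adj a b)
  (h2 : ∀ a b : Fin n, a.val = c → c < b.val → X.Adj a b)
  (hconn : ∀ D : Finset (Fin n), D.card ≤ c → ∀ u w, u ∉ D → w ∉ D →
    ReflTransGen (fun x y => Y.Adj x y ∧ y ∉ D) u w)

theorem card_lt (a : ℕ) : (Finset.univ.filter (fun x : Fin n => x.val < a)).card ≤ a := by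
  have : (Finset.univ.filter (fun x : Fin n => x.val < a)).card ≤ (Finset.range a).card := by
    apply Finset.card_le_card_of_injOn (fun x => x.val)
    · intro x hx
      simpa using hx
    · intro x _ y _ h
      exact Fin.ext h
  simpa using this

include hconn in
theorem reach_of_move (a : Fin n) (ha : a.val ≤ c)
    (mv : ∀ (s : Equiv.Perm (Fin n)) (v : Fin n), Y.Adj (s a) v →
      (∀ x : Fin n, x.val < a.val → s x ≠ v) →
      ∃ t, ReflTransGen (PS X Y) s t ∧ t a = v ∧ ∀ x : Fin n, x.val < a.val → t x = s x)
    (s : Equiv.Perm (Fin n)) (w : Fin n) (hw : ∀ x : Fin n, x.val < a.val → s x ≠ w) :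
    ∃ t, ReflTransGen (PS X Y) s t ∧ t a = w ∧ ∀ x : Fin n, x.val < a.val → t x = s x := by
  set D := (Finset.univ.filter (fun x : Fin n => x.val < a.val)).image s with hD
  have hmem : ∀ y, y ∉ D ↔ ∀ x : Fin n, x.val < a.val → s x ≠ y := by
    intro y
    simp [hD]
  have hp := hconn D (Finset.card_image_le.trans ((card_lt a.val).trans ha)) (s a) w
    ((hmem _).mpr (fun x hx e => by
      have := congrArg Fin.val (s.injective e)
      omega)) ((hmem _).mpr hw)
  clear hw
  induction hp with
  | refl => exact ⟨s, ReflTransGen.refl, rfl, fun _ _ => rfl⟩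
  | tail _ hbc ih =>
    obtain ⟨t, r1, rfl, r3⟩ := ih
    obtain ⟨t', q1, q2, q3⟩ := mv t _ hbc.1 (fun x hx => by
      rw [r3 x hx]
      exact (hmem _).mp hbc.2 x hx)
    exact ⟨t', r1.trans q1, q2, fun x hx => (q3 x hx).trans (r3 x hx)⟩

include hc h1 h2 hconn in
theorem reach : ∀ d : ℕ, ∀ a : Fin n, a.val + d = c → ∀ (s : Equiv.Perm (Fin n)) (w : Fin n),
    (∀ x : Fin n, x.val < a.val → s x ≠ w) →
    ∃ t, ReflTransGen (PS X Y) s t ∧ t a = w ∧ ∀ x : Fin n, x.val < a.val → t x = s x := by
  intro d
  induction d with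
  | zero =>
    intro a ha
    apply reach_of_move X Y c hconn a (by omega)
    intro s v hv hw
    obtain ⟨y, rfl⟩ := s.surjective v
    have hy : c < y.val := by
      by_contra hh
      rcases Nat.lt_or_ge y.val a.val with h | h
      · exact hw y h rfl
      · have : y = a := Fin.ext (by omega)
        subst this
        exact hv.ne rfl
    refine ⟨s * Equiv.swap a y, ReflTransGen.single ⟨a, y, h2 a y (by omega) hy, hv, rfl⟩,
      by simp, fun x hx => ?_⟩
    rw [Equiv.Perm.mul_apply, Equiv.swap_apply_of_ne_of_ne]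
    · rintro rfl
      omega
    · rintro rfl
      omega
  | succ d ih =>
    intro a ha
    apply reach_of_move X Y c hconn a (by omega)
    intro s v hv hw
    set b : Fin n := ⟨a.val + 1, by omega⟩ with hb
    obtain ⟨t, r1, r2, r3⟩ := ih b (by simp [hb]; omega) s v (by
      intro x hx
      rcases Nat.lt_or_ge x.val a.val with h | h
      · exact hw x h
      · have : x = a := Fin.ext (by simp [hb] at hx; omega)
        subst this
        exact hv.ne)
    have hta : t a = s a := r3 a (by simp [hb])
    refine ⟨t * Equiv.swap a b, r1.tail ⟨a, b, h1 a b (by simp [hb]) (by simp [hb]; omega),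
      by rw [hta, r2]; exact hv, rfl⟩, by simp [r2], fun x hx => ?_⟩
    rw [Equiv.Perm.mul_apply, Equiv.swap_apply_of_ne_of_ne]
    · exact r3 x (by simp [hb]; omega)
    · rintro rfl
      omega
    · rintro rfl
      simp [hb] at hx

include hc h1 h2 hconn in
theorem fix_tail (g : Equiv.Perm (Fin n)) : ∀ j, j ≤ c → ∀ s : Equiv.Perm (Fin n),
    ∃ t, ReflTransGen (PS X Y) s t ∧ ∀ x : Fin n, x.val < j → t x = g x := by
  intro j
  induction j with
  | zero => intro _ s; exact ⟨s, ReflTransGen.refl, fun x hx => absurd hx (by omega)⟩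
  | succ j ih =>
    intro hj s
    obtain ⟨t, r1, r2⟩ := ih (by omega) s
    set a : Fin n := ⟨j, by omega⟩ with ha
    obtain ⟨t', q1, q2, q3⟩ := reach X Y c hc h1 h2 hconn (c - j) a (by simp [ha]; omega) t (g a)
      (by
        intro x hx e
        rw [r2 x hx] at e
        have := congrArg Fin.val (g.injective e)
        omega)
    refine ⟨t', r1.trans q1, fun x hx => ?_⟩
    rcases Nat.lt_or_ge x.val j with h | h
    · exact (q3 x h).trans (r2 x h)
    · have : x = a := Fin.ext (by simp [ha]; omega)
      rw [this, q2]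

theorem swap_path (h4 : ∀ a b : Fin n, c ≤ a.val → c ≤ b.val → a ≠ b → X.Adj a b)
    (D : Finset (Fin n)) (u w : Fin n) (hp : ReflTransGen (fun x y => Y.Adj x y ∧ y ∉ D) u w) :
    ∀ s : Equiv.Perm (Fin n), (∀ x : Fin n, x.val < c → s x ∈ D) → ∀ a b : Fin n, c ≤ a.val →
      c ≤ b.val → s a = u → s b = w → ReflTransGen (PS X Y) s (s * Equiv.swap a b) := by
  induction hp using ReflTransGen.head_induction_on with
  | refl =>
    intro s _ a b _ _ e1 e2
    have : a = b := s.injective (e1.trans e2.symm)
    subst this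
    simp only [Equiv.swap_self]
    exact ReflTransGen.refl
  | @head u x hux _ ih =>
    intro s hs a b ha hb e1 e2
    by_cases hab : a = b
    · subst hab
      simp only [Equiv.swap_self]
      exact ReflTransGen.refl
    obtain ⟨e, rfl⟩ := s.surjective x
    subst e1
    have he : c ≤ e.val := by
      by_contra hh
      exact hux.2 (hs e (by omega))
    have hae : a ≠ e := by
      rintro rfl
      exact hux.1.ne rfl
    have st1 : PS X Y s (s * Equiv.swap a e) := ⟨a, e, h4 a e ha he hae, hux.1, rfl⟩
    by_cases heb : e = b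
    · subst heb
      exact ReflTransGen.single st1
    have st2 := ih (s * Equiv.swap a e) (by
      intro y hy
      rw [Equiv.Perm.mul_apply, Equiv.swap_apply_of_ne_of_ne]
      · exact hs y hy
      · rintro rfl
        omega
      · rintro rfl
        omega) a b ha hb (by simp) (by
      rw [Equiv.Perm.mul_apply, Equiv.swap_apply_of_ne_of_ne (Ne.symm hab) (Ne.symm heb), e2])
    have st3 : PS X Y (s * Equiv.swap a e * Equiv.swap a b) (s * Equiv.swap a b) := by
      refine ⟨e, b, h4 e b he hb heb, ?_, ?_⟩
      · simp only [Equiv.Perm.mul_apply, Equiv.swap_apply_right, Equiv.swap_apply_left,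
          Equiv.swap_apply_of_ne_of_ne hae.symm heb]
        exact hux.1
      · ext y
        simp only [Equiv.Perm.mul_apply, Equiv.swap_apply_def]
        split_ifs <;> simp_all
    exact (ReflTransGen.head st1 st2).tail st3

include hconn in
theorem sort_head (h4 : ∀ a b : Fin n, c ≤ a.val → c ≤ b.val → a ≠ b → X.Adj a b)
    (g : Equiv.Perm (Fin n)) : ∀ k, ∀ s : Equiv.Perm (Fin n),
      (Finset.univ.filter (fun x => s x ≠ g x)).card = k → (∀ x : Fin n, x.val < c → s x = g x) →
      ReflTransGen (PS X Y) s g := by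
  set D := (Finset.univ.filter (fun x : Fin n => x.val < c)).image g with hD
  have hmem : ∀ y : Fin n, g y ∈ D ↔ y.val < c := by
    intro y
    simp [hD]
  intro k
  induction k using Nat.strong_induction_on with
  | _ k ih =>
    intro s hk hs
    by_cases hsg : s = g
    · rw [hsg]
    obtain ⟨a, ha⟩ : ∃ a, s a ≠ g a := by
      by_contra hh
      exact hsg (Equiv.ext (fun x => by_contra (fun h => hh ⟨x, h⟩)))
    obtain ⟨b, hb⟩ := s.surjective (g a)
    have hab : a ≠ b := by
      rintro rfl
      exact ha hb
    have hca : c ≤ a.val := by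
      by_contra hh
      exact ha (hs a (by omega))
    have hbb : s b ≠ g b := by
      rw [hb]
      intro e
      exact hab (g.injective e)
    have hcb : c ≤ b.val := by
      by_contra hh
      exact hbb (hs b (by omega))
    have hnot : ∀ x : Fin n, c ≤ x.val → s x ∉ D := by
      intro x hx hm
      obtain ⟨y, hy⟩ := g.surjective (s x)
      rw [← hy, hmem] at hm
      have := s.injective ((hs y hm).trans hy)
      subst this
      omega
    have r1 := swap_path X Y c h4 D _ _
      (hconn D (Finset.card_image_le.trans (card_lt c)) (s a) (s b) (hnot a hca) (hnot b hcb)) s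
      (fun x hx => by rw [hs x hx, hmem]; exact hx) a b hca hcb rfl rfl
    refine r1.trans (ih _ ?_ _ rfl ?_)
    · rw [← hk]
      apply Finset.card_lt_card
      rw [Finset.ssubset_iff_of_subset]
      · refine ⟨a, by simpa using ha, by simp [hb]⟩
      · intro x hx
        simp only [Finset.mem_filter, Finset.mem_univ, true_and] at hx ⊢
        by_cases e1 : x = a
        · rw [e1]; exact ha
        · by_cases e2 : x = b
          · rw [e2]; exact hbb
          · rwa [Equiv.Perm.mul_apply, Equiv.swap_apply_of_ne_of_ne e1 e2] at hx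
    · intro x hx
      rw [Equiv.Perm.mul_apply, Equiv.swap_apply_of_ne_of_ne]
      · exact hs x hx
      · rintro rfl
        omega
      · rintro rfl
        omega

include hc h1 hconn in
theorem fs_connected (h4 : ∀ a b : Fin n, c ≤ a.val → c ≤ b.val → a ≠ b → X.Adj a b) :
    (FSG X Y).Connected := by
  have h2 : ∀ a b : Fin n, a.val = c → c < b.val → X.Adj a b := fun a b ha hb =>
    h4 a b (by omega) (by omega) (by rintro rfl; omega)
  refine SimpleGraph.Connected.mk (fun s g => ?_)
  obtain ⟨t, r1, r2⟩ := fix_tail X Y c hc h1 h2 hconn g c le_rfl s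
  exact reach_of_rt X Y (r1.trans (sort_head X Y c hconn h4 g _ t rfl r2))

end upper

end Pool.Agent.H22.FS
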