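import Mathlib
import Pool.Agent.H22.FS8

set_option autoImplicit false

namespace Pool.Agent.H22.FS
open Relation
open Classical

variable {F : Type} [Field F]

def inc : (F × F) ⊕ (F × F) → (F × F) ⊕ (F × F) → Prop
  | .inl P, .inr L => P.2 = L.1 * P.1 + L.2
  | .inr L, .inl P => P.2 = L.1 * P.1 + L.2
  | _, _ => False

/-- Point-line incidence graph of the affine plane (non-vertical lines). -/
def plane (F : Type) [Field F] : SimpleGraph ((F × F) ⊕ (F × F)) where
  Adj := inc
  symm := ⟨by rintro (a | a) (b | b) h <;> exact h⟩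
  loopless := ⟨by rintro (a | a) h <;> exact h⟩

theorem plane_tri (x y z : (F × F) ⊕ (F × F)) (h1 : (plane F).Adj x y) (h2 : (plane F).Adj y z) :
    ¬ (plane F).Adj x z := by
  rcases x with x | x <;> rcases y with y | y <;> rcases z with z | z <;>
    simp_all [plane, inc]

theorem two_lines (P Q L M : F × F) (h1 : P.2 = L.1 * P.1 + L.2) (h2 : Q.2 = L.1 * Q.1 + L.2)
    (h3 : P.2 = M.1 * P.1 + M.2) (h4 : Q.2 = M.1 * Q.1 + M.2) : P = Q ∨ L = M := by
  have key : (L.1 - M.1) * (P.1 - Q.1) = 0 := by linear_combination h3 - h1 - h4 + h2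
  rcases mul_eq_zero.mp key with h | h
  · right
    have e : L.1 = M.1 := sub_eq_zero.mp h
    refine Prod.ext e ?_
    rw [e] at h1
    linear_combination h3 - h1
  · left
    have e : P.1 = Q.1 := sub_eq_zero.mp h
    refine Prod.ext e ?_
    rw [h1, h2, e]

theorem plane_C4 (x y u v : (F × F) ⊕ (F × F)) (h1 : (plane F).Adj x u) (h2 : (plane F).Adj u y)
    (h3 : (plane F).Adj x v) (h4 : (plane F).Adj v y) : x = y ∨ u = v := by
  rcases x with x | x <;> rcases y with y | y <;> rcases u with u | u <;> rcases v with v | v <;>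
    simp only [plane, inc] at h1 h2 h3 h4
  · simpa using two_lines x y u v h1 h2 h3 h4
  · simpa using (two_lines u v x y h1 h3 h2 h4).symm

theorem card_pre {A B : Type} [Fintype A] (f : A → B) (hf : Function.Injective f) (D : Finset B) :
    (Finset.univ.filter (fun a => f a ∈ D)).card ≤ D.card := by
  apply Finset.card_le_card_of_injOn f
  · intro x hx
    simpa using hx
  · exact hf.injOn

theorem avoid2 {A B : Type} [Fintype A] (f g : A → B) (hf : Function.Injective f)
    (hg : Function.Injective g) (D : Finset B) (h : 2 * D.card < Fintype.card A) :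
    ∃ a, f a ∉ D ∧ g a ∉ D := by
  have c1 := card_pre f hf D
  have c2 := card_pre g hg D
  obtain ⟨y, _, hy⟩ := Finset.exists_mem_notMem_of_card_lt_card
    (s := Finset.univ.filter (fun a => f a ∈ D) ∪ Finset.univ.filter (fun a => g a ∈ D))
    (t := Finset.univ) (by
      rw [Finset.card_univ]
      refine lt_of_le_of_lt (Finset.card_union_le _ _) ?_
      omega)
  exact ⟨y, by simpa using hy⟩

theorem plane_conn [Fintype F] (c : ℕ) (hc : 2 * c + 3 ≤ Fintype.card F)
    (D : Finset ((F × F) ⊕ (F × F))) (hD : D.card ≤ c) (u w : (F × F) ⊕ (F × F)) (hu : u ∉ D)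
    (hw : w ∉ D) : ReflTransGen (fun x y => (plane F).Adj x y ∧ y ∉ D) u w := by
  have hline : ∀ L : F × F, ∃ P : F × F, Sum.inl P ∉ D ∧ P.2 = L.1 * P.1 + L.2 := by
    intro L
    have hi : Function.Injective
        (fun x : F => (Sum.inl (x, L.1 * x + L.2) : (F × F) ⊕ (F × F))) :=
      fun a b e => by simpa using congrArg (fun z => (Sum.elim id id z : F × F).1) e
    obtain ⟨x, hx, _⟩ := avoid2 _ _ hi hi D (by omega)
    exact ⟨(x, L.1 * x + L.2), hx, rfl⟩
  have hpt : ∀ P Q : F × F, Sum.inl Q ∉ D →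
      ReflTransGen (fun x y => (plane F).Adj x y ∧ y ∉ D) (Sum.inl P) (Sum.inl Q) := by
    intro P Q hQ
    obtain ⟨x, _, hx⟩ := Finset.exists_mem_notMem_of_card_lt_card
      (s := insert P.1 (insert Q.1 (D.image (fun z => (Sum.elim id id z : F × F).1))))
      (t := Finset.univ) (by
        rw [Finset.card_univ]
        have a1 := Finset.card_insert_le P.1
          (insert Q.1 (D.image (fun z => (Sum.elim id id z : F × F).1)))
        have a2 := Finset.card_insert_le Q.1 (D.image (fun z => (Sum.elim id id z : F × F).1))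
        have a3 : (D.image (fun z => (Sum.elim id id z : F × F).1)).card ≤ D.card :=
          Finset.card_image_le
        omega)
    simp only [Finset.mem_insert, Finset.mem_image, not_or, not_exists, not_and] at hx
    obtain ⟨hxP, hxQ, hxD⟩ := hx
    have hinj : ∀ R : F × F, x ≠ R.1 → Function.Injective (fun y : F =>
        (Sum.inr ((y - R.2) / (x - R.1), R.2 - (y - R.2) / (x - R.1) * R.1) :
          (F × F) ⊕ (F × F))) := by
      intro R hR a b e
      have e1 : (a - R.2) / (x - R.1) = (b - R.2) / (x - R.1) := by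
        simpa using congrArg (fun z => (Sum.elim id id z : F × F).1) e
      rw [div_left_inj' (sub_ne_zero.mpr hR)] at e1
      linear_combination e1
    obtain ⟨y, hy⟩ := avoid2 _ _ (hinj P hxP) (hinj Q hxQ) D (by omega)
    have hR : (Sum.inl (x, y) : (F × F) ⊕ (F × F)) ∉ D := fun h => hxD _ h rfl
    have on1 : ∀ R : F × F, (plane F).Adj (Sum.inl R)
        (Sum.inr ((y - R.2) / (x - R.1), R.2 - (y - R.2) / (x - R.1) * R.1)) := by
      intro R
      simp [plane, inc]
    have on2 : ∀ R : F × F, x ≠ R.1 → (plane F).Adj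
        (Sum.inr ((y - R.2) / (x - R.1), R.2 - (y - R.2) / (x - R.1) * R.1)) (Sum.inl (x, y)) := by
      intro R hR
      have := sub_ne_zero.mpr hR
      simp only [plane, inc]
      field_simp
      ring
    exact (((ReflTransGen.single ⟨on1 P, hy.1⟩).tail ⟨on2 P hxP, hR⟩).tail
      ⟨(on2 Q hxQ).symm, hy.2⟩).tail ⟨(on1 Q).symm, hQ⟩
  have hto : ∀ P : F × F, ReflTransGen (fun x y => (plane F).Adj x y ∧ y ∉ D) (Sum.inl P) w := by
    intro P
    rcases w with Q | L
    · exact hpt P Q hw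
    · obtain ⟨Q, hQ, e⟩ := hline L
      exact (hpt P Q hQ).tail ⟨e, hw⟩
  rcases u with P | L
  · exact hto P
  · obtain ⟨Q, hQ, e⟩ := hline L
    exact ReflTransGen.head (b := Sum.inl Q) ⟨e, hQ⟩ (hto Q)

/-- A board on `Fin n` with girth at least five that stays connected after deleting `c`
vertices, with `n` quadratic in `c`. -/
theorem board (c : ℕ) : ∃ n : ℕ, c + 1 < n ∧ n ≤ 2 * (4 * c + 6) ^ 2 ∧ ∃ Y : SimpleGraph (Fin n),
    (∀ x y z, Y.Adj x y → Y.Adj y z → ¬ Y.Adj x z) ∧
    (∀ x y u v, Y.Adj x u → Y.Adj u y → Y.Adj x v → Y.Adj v y → x = y ∨ u = v) ∧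
    (∀ D : Finset (Fin n), D.card ≤ c → ∀ u w, u ∉ D → w ∉ D →
      ReflTransGen (fun x y => Y.Adj x y ∧ y ∉ D) u w) ∧
    ∃ u w, w ≠ u ∧ ¬ Y.Adj w u := by
  obtain ⟨p, hp, h1, h2⟩ := Nat.exists_prime_lt_and_le_two_mul (2 * c + 3) (by omega)
  haveI : Fact p.Prime := ⟨hp⟩
  have hcard : Fintype.card ((ZMod p × ZMod p) ⊕ (ZMod p × ZMod p)) = 2 * p ^ 2 := by
    simp [ZMod.card]
    ring
  let e := (Fintype.equivFinOfCardEq hcard).symm
  refine ⟨2 * p ^ 2, by nlinarith, by nlinarith, (plane (ZMod p)).comap e, ?_, ?_, ?_, ?_⟩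
  · intro x y z
    exact plane_tri _ _ _
  · intro x y u v a1 a2 a3 a4
    simpa using plane_C4 _ _ _ _ a1 a2 a3 a4
  · intro D hD u w hu hw
    have := plane_conn c (by rw [ZMod.card]; omega) (D.map e.toEmbedding) (by simpa using hD)
      (e u) (e w) (by simpa using hu) (by simpa using hw)
    have key : ∀ a b, ReflTransGen
        (fun x y => (plane (ZMod p)).Adj x y ∧ y ∉ D.map e.toEmbedding) a b →
        ReflTransGen (fun x y => ((plane (ZMod p)).comap e).Adj x y ∧ y ∉ D)
          (e.symm a) (e.symm b) := by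
      intro a b hab
      induction hab with
      | refl => exact ReflTransGen.refl
      | tail _ hbc ih => exact ih.tail ⟨by simpa using hbc.1, by simpa using hbc.2⟩
    simpa using key _ _ this
  · refine ⟨e.symm (Sum.inl (0, 0)), e.symm (Sum.inl (0, 1)), by simp, ?_⟩
    simp [plane, inc]

theorem grow (C : ℕ) : ∃ d : ℕ, C * (2 * (4 * (d + 1) + 6) ^ 2 + 1) ^ C < 2 ^ d := by
  have h := tendsto_pow_const_div_const_pow_of_one_lt (2 * C) (r := (2 : ℝ)) (by norm_num)
  have hpos : (0 : ℝ) < 1 / (C * 401 ^ C + 1) := by positivity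
  obtain ⟨d, hd1, hd2⟩ := ((h.eventually (gt_mem_nhds hpos)).and
    (Filter.eventually_ge_atTop 1)).exists
  refine ⟨d, ?_⟩
  rw [div_lt_div_iff₀ (by positivity) (by positivity)] at hd1
  have a1 : 2 * (4 * (d + 1) + 6) ^ 2 + 1 ≤ 401 * d ^ 2 := by nlinarith
  have a2 : C * (2 * (4 * (d + 1) + 6) ^ 2 + 1) ^ C ≤ C * (401 * d ^ 2) ^ C :=
    Nat.mul_le_mul_left _ (Nat.pow_le_pow_left a1 C)
  have a3 : d ^ (2 * C) * (C * 401 ^ C + 1) < 1 * 2 ^ d := by exact_mod_cast hd1
  have a4 : C * (401 * d ^ 2) ^ C ≤ d ^ (2 * C) * (C * 401 ^ C + 1) := by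
    rw [mul_pow, ← pow_mul]
    nlinarith [Nat.zero_le (d ^ (2 * C))]
  omega

def lolli (n c : ℕ) : SimpleGraph (Fin n) where
  Adj a b := a ≠ b ∧ ((c ≤ a.val ∧ c ≤ b.val) ∨ a.val + 1 = b.val ∨ b.val + 1 = a.val)
  symm := ⟨by
    rintro a b ⟨h1, h2⟩
    exact ⟨h1.symm, by omega⟩⟩
  loopless := ⟨fun a h => h.1 rfl⟩

theorem conn_main : ¬ (∃ C : ℕ, ∀ n : ℕ, ∀ X Y : SimpleGraph (Fin n),
    (FSG X Y).Connected → (FSG X Y).diam ≤ C * (n + 1) ^ C) := by
  rintro ⟨C, hC⟩
  obtain ⟨d, hd⟩ := grow C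
  obtain ⟨n, hn1, hn2, Y, htri, hC4, hconn, u, w, huw, hadj⟩ := board (d + 1)
  have hcon : (FSG (lolli n (d + 1)) Y).Connected :=
    fs_connected _ Y (d + 1) (by omega)
      (fun a b h _ => ⟨by rintro rfl; omega, Or.inr (Or.inl h)⟩) hconn
      (fun a b ha hb hab => ⟨hab, Or.inl ⟨ha, hb⟩⟩)
  set a : Fin n := ⟨0, by omega⟩ with ha
  have h1 := far (lolli n (d + 1)) Y (d + 1) (by omega) (by
      rintro a b ⟨_, h⟩ hlt
      omega) htri hC4 d rfl a rfl (Equiv.swap a u) (Equiv.swap a w) (hcon.preconnected _ _)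
    (by simpa using huw) (by simpa using hadj)
  have h2 := SimpleGraph.dist_le_diam (SimpleGraph.connected_iff_ediam_ne_top.mp hcon)
    (u := Equiv.swap a u) (v := Equiv.swap a w)
  have h3 := hC n _ Y hcon
  have h4 : C * (n + 1) ^ C ≤ C * (2 * (4 * (d + 1) + 6) ^ 2 + 1) ^ C :=
    Nat.mul_le_mul_left _ (Nat.pow_le_pow_left (by omega) C)
  omega

end Pool.Agent.H22.FS
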