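import Mathlib
import Pool.Agent.H22.FS9

set_option autoImplicit false

namespace Pool.Agent.H22.FS
open Relation

/-- A path `0, 1, ..., c` with all remaining vertices attached as leaves to `c`. -/
def dand (n c : ℕ) : SimpleGraph (Fin n) where
  Adj a b := (a.val + 1 = b.val ∧ b.val ≤ c) ∨ (b.val + 1 = a.val ∧ a.val ≤ c) ∨
    (a.val = c ∧ c < b.val) ∨ (b.val = c ∧ c < a.val)
  symm := ⟨by
    intro a b h
    omega⟩
  loopless := ⟨by
    intro a h
    omega⟩

theorem dand_bridge (n c : ℕ) (u v : Fin n) (huv : u.val < v.val) (h : (dand n c).Adj u v) :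
    (dand n c).IsBridge s(u, v) := by
  rw [SimpleGraph.isBridge_iff]
  intro hr
  rw [SimpleGraph.reachable_iff_reflTransGen] at hr
  have key : ∀ w : Fin n, ReflTransGen ((dand n c).deleteEdges {s(u, v)}).Adj u w →
      ¬ (w.val = v.val ∨ (v.val ≤ c ∧ v.val ≤ w.val)) := by
    intro w hw
    induction hw with
    | refl => omega
    | @tail x y _ hbc ih =>
      rw [SimpleGraph.deleteEdges_adj] at hbc
      obtain ⟨h1, h2⟩ := hbc
      simp only [Set.mem_singleton_iff, Sym2.eq_iff, Fin.ext_iff] at h2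
      simp only [dand] at h h1
      omega
  exact key v hr (Or.inl rfl)

theorem dand_tree (n c : ℕ) (hc : c < n) : (dand n c).IsTree := by
  constructor
  · rw [SimpleGraph.connected_iff_exists_forall_reachable]
    refine ⟨⟨c, hc⟩, ?_⟩
    have key : ∀ d : ℕ, ∀ w : Fin n, w.val + d = c → (dand n c).Reachable ⟨c, hc⟩ w := by
      intro d
      induction d with
      | zero =>
        intro w hw
        have : w = ⟨c, hc⟩ := Fin.ext (by simpa using hw)
        rw [this]
      | succ d ih =>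
        intro w hw
        refine (ih ⟨w.val + 1, by omega⟩ (by simp; omega)).trans (SimpleGraph.Adj.reachable ?_)
        exact Or.inr (Or.inl ⟨rfl, by show w.val + 1 ≤ c; omega⟩)
    intro w
    rcases Nat.lt_or_ge c w.val with h | h
    · apply SimpleGraph.Adj.reachable
      exact Or.inr (Or.inr (Or.inl ⟨rfl, h⟩))
    · exact key (c - w.val) w (by omega)
  · rw [SimpleGraph.isAcyclic_iff_forall_adj_isBridge]
    intro u v h
    rcases Nat.lt_or_ge u.val v.val with h1 | h1
    · exact dand_bridge n c u v h1 h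
    · rw [Sym2.eq_swap]
      refine dand_bridge n c v u ?_ h.symm
      have : u.val ≠ v.val := fun e => h.ne (Fin.ext e)
      omega

theorem tree_main : ¬ (∃ K : ℝ, ∀ n : ℕ, 2 ≤ n → ∀ T Y : SimpleGraph (Fin n), T.IsTree →
    ∀ σ τ : Equiv.Perm (Fin n), (FSG T Y).Reachable σ τ →
      (((FSG T Y).dist σ τ : ℕ) : ℝ) ≤ (n : ℝ) ^ K) := by
  rintro ⟨K, hK⟩
  obtain ⟨C, hC⟩ := exists_nat_ge K
  obtain ⟨d, hd⟩ := grow (C + 1)
  obtain ⟨n, hn1, hn2, Y, htri, hC4, hconn, u, w, huw, hadj⟩ := board (d + 1)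
  set a : Fin n := ⟨0, by omega⟩ with ha
  obtain ⟨t, r1, r2, _⟩ := reach (dand n (d + 1)) Y (d + 1) (by omega)
    (fun a b h h' => Or.inl ⟨h, h'⟩) (fun a b h h' => Or.inr (Or.inr (Or.inl ⟨h, h'⟩))) hconn
    (d + 1) a (by simp [ha]) (Equiv.swap a u) w (by simp [ha])
  have hr := reach_of_rt _ _ r1
  have h1 := far (dand n (d + 1)) Y (d + 1) (by omega) (by
      intro a b h hlt
      simp only [dand] at h
      omega) htri hC4 d rfl a rfl (Equiv.swap a u) t hr
    (by simpa [r2] using huw) (by simpa [r2] using hadj)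
  have h2 := hK n (by omega) _ Y (dand_tree n (d + 1) (by omega)) _ _ hr
  have h3 : (n : ℝ) ^ K ≤ (n : ℝ) ^ (C : ℝ) :=
    Real.rpow_le_rpow_of_exponent_le (by exact_mod_cast (by omega : 1 ≤ n)) hC
  rw [Real.rpow_natCast] at h3
  have h4 : (FSG (dand n (d + 1)) Y).dist (Equiv.swap a u) t ≤ n ^ C := by
    exact_mod_cast h2.trans h3
  have h5 : n ^ C ≤ (2 * (4 * (d + 1) + 6) ^ 2 + 1) ^ (C + 1) :=
    (Nat.pow_le_pow_left (by omega) C).trans (Nat.pow_le_pow_right (by omega) (by omega))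
  have h6 : (2 * (4 * (d + 1) + 6) ^ 2 + 1) ^ (C + 1) ≤
      (C + 1) * (2 * (4 * (d + 1) + 6) ^ 2 + 1) ^ (C + 1) := Nat.le_mul_of_pos_left _ (by omega)
  omega

end Pool.Agent.H22.FS
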