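import Mathlib
import Pool.Agent.H22.FS1

set_option autoImplicit false

namespace Pool.Agent.H22.FS
open Relation
open Classical

/-- Positions (and persons) of the simulating friends-and-strangers instance. -/
inductive V (P W : Type) : Type
  | tr (p : P) : V P W
  | root : V P W
  | hold : V P W
  | ga (w : W) : V P W
  | gb (w : W) : V P W
  | gc (w : W) : V P W

/-- An abstract system of conditional swaps. -/
structure Sys (P J W : Type) where
  T : SimpleGraph P
  F : W → J → Prop
  own : W → J
  anc : W → P
  hown : ∀ w, ¬ F w (own w)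

variable {P J W : Type} (S : Sys P J W)

def xrel : V P W → V P W → Prop
  | .tr p, .tr q => S.T.Adj p q
  | .hold, .tr _ => True
  | .ga _, .root => True
  | .ga w, .gb w' => w' = w
  | .ga w, .tr p => p = S.anc w
  | .ga w, .gc w' => w' = w
  | .ga _, .hold => True
  | _, _ => False

def yrel : V J W → V J W → Prop
  | .root, .ga _ => True
  | .root, .gb _ => True
  | .gb w, .tr x => x = S.own w
  | .gc w, .tr x => x = S.own w ∨ S.F w x
  | .gc _, .hold => True
  | _, _ => False

def XG : SimpleGraph (V P W) := SimpleGraph.fromRel (xrel S)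
def YG : SimpleGraph (V J W) := SimpleGraph.fromRel (yrel S)

/-- The abstract move. -/
def AMove (f g : P → J) : Prop :=
  ∃ w p q, S.T.Adj p q ∧ S.F w (f p) ∧ S.F w (f q) ∧ f (S.anc w) = S.own w ∧
    g = f ∘ Equiv.swap p q

def c0 (f : P → J) : V P W → V J W
  | .tr q => .tr (f q)
  | .root => .root
  | .hold => .hold
  | .ga w => .ga w
  | .gb w => .gb w
  | .gc w => .gc w

noncomputable def c1 (f : P → J) (w : W) : V P W → V J W
  | .tr q => .tr (f q)
  | .root => .ga w
  | .hold => .hold
  | .ga w' => if w' = w then .root else .ga w'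
  | .gb w' => .gb w'
  | .gc w' => .gc w'

noncomputable def c2 (f : P → J) (w : W) : V P W → V J W
  | .tr q => .tr (f q)
  | .root => .ga w
  | .hold => .hold
  | .ga w' => if w' = w then .gb w else .ga w'
  | .gb w' => if w' = w then .root else .gb w'
  | .gc w' => .gc w'

noncomputable def c3 (f : P → J) (w : W) : V P W → V J W
  | .tr q => if q = S.anc w then .gb w else .tr (f q)
  | .root => .ga w
  | .hold => .hold
  | .ga w' => if w' = w then .tr (S.own w) else .ga w'
  | .gb w' => if w' = w then .root else .gb w'
  | .gc w' => .gc w'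

noncomputable def c4 (f : P → J) (w : W) : V P W → V J W
  | .tr q => if q = S.anc w then .gb w else .tr (f q)
  | .root => .ga w
  | .hold => .hold
  | .ga w' => if w' = w then .gc w else .ga w'
  | .gb w' => if w' = w then .root else .gb w'
  | .gc w' => if w' = w then .tr (S.own w) else .gc w'

noncomputable def c5 (f : P → J) (w : W) : V P W → V J W
  | .tr q => if q = S.anc w then .gb w else .tr (f q)
  | .root => .ga w
  | .hold => .gc w
  | .ga w' => if w' = w then .hold else .ga w'
  | .gb w' => if w' = w then .root else .gb w'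
  | .gc w' => if w' = w then .tr (S.own w) else .gc w'

noncomputable def c6 (f : P → J) (w : W) (p : P) : V P W → V J W
  | .tr q => if q = S.anc w then .gb w else if q = p then .gc w else .tr (f q)
  | .root => .ga w
  | .hold => .tr (f p)
  | .ga w' => if w' = w then .hold else .ga w'
  | .gb w' => if w' = w then .root else .gb w'
  | .gc w' => if w' = w then .tr (S.own w) else .gc w'

theorem t01 (f : P → J) (w : W) :
    c0 f ∘ Equiv.swap (V.ga w) (V.root : V P W) = c1 f w := by
  funext v
  cases v <;> simp only [Function.comp_apply, Equiv.swap_apply_def] <;> split_ifs <;>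
    simp_all [c0, c1]

theorem t12 (f : P → J) (w : W) :
    c1 f w ∘ Equiv.swap (V.ga w) (V.gb w : V P W) = c2 f w := by
  funext v
  cases v <;> simp only [Function.comp_apply, Equiv.swap_apply_def] <;> split_ifs <;>
    simp_all [c1, c2]

theorem t23 (f : P → J) (w : W) (h : f (S.anc w) = S.own w) :
    c2 f w ∘ Equiv.swap (V.ga w) (V.tr (S.anc w) : V P W) = c3 S f w := by
  funext v
  cases v <;> simp only [Function.comp_apply, Equiv.swap_apply_def] <;> split_ifs <;>
    simp_all [c2, c3]

theorem t34 (f : P → J) (w : W) :
    c3 S f w ∘ Equiv.swap (V.ga w) (V.gc w : V P W) = c4 S f w := by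
  funext v
  cases v <;> simp only [Function.comp_apply, Equiv.swap_apply_def] <;> split_ifs <;>
    simp_all [c3, c4]

theorem t45 (f : P → J) (w : W) :
    c4 S f w ∘ Equiv.swap (V.ga w) (V.hold : V P W) = c5 S f w := by
  funext v
  cases v <;> simp only [Function.comp_apply, Equiv.swap_apply_def] <;> split_ifs <;>
    simp_all [c4, c5]

theorem t56 (f : P → J) (w : W) (p : P) (hp : p ≠ S.anc w) :
    c5 S f w ∘ Equiv.swap (V.hold) (V.tr p : V P W) = c6 S f w p := by
  funext v
  cases v <;> simp only [Function.comp_apply, Equiv.swap_apply_def] <;> split_ifs <;>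
    simp_all [c5, c6]

theorem t66 (f : P → J) (w : W) (p q : P) (hp : p ≠ S.anc w) (hq : q ≠ S.anc w) (hpq : p ≠ q) :
    c6 S f w p ∘ Equiv.swap (V.tr p) (V.tr q : V P W) = c6 S (f ∘ Equiv.swap p q) w q := by
  funext v
  cases v <;> simp only [Function.comp_apply, Equiv.swap_apply_def] <;> split_ifs <;>
    simp_all [c6, Equiv.swap_apply_def]
  · intro h
    exact absurd h.symm hpq

end Pool.Agent.H22.FS
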