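import Mathlib
import Pool.Agent.H22.FS2

set_option autoImplicit false

namespace Pool.Agent.H22.FS
open Relation
open Classical

variable {P J W : Type} (S : Sys P J W)

inductive Good (f : P → J) : (V P W → V J W) → Prop
  | g0 : Good f (c0 f)
  | g1 (w : W) : Good f (c1 f w)
  | g2 (w : W) : Good f (c2 f w)
  | g3 (w : W) (h : f (S.anc w) = S.own w) : Good f (c3 S f w)
  | g4 (w : W) (h : f (S.anc w) = S.own w) : Good f (c4 S f w)
  | g5 (w : W) (h : f (S.anc w) = S.own w) : Good f (c5 S f w)
  | g6 (w : W) (p : P) (h : f (S.anc w) = S.own w) (hp : S.F w (f p)) : Good f (c6 S f w p)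

theorem back {A B : Type} {f g : A → B} {u v : A} (h : f ∘ Equiv.swap u v = g) :
    g ∘ Equiv.swap u v = f := by
  rw [← h, comp_swap_swap]

theorem ne_anc {f : P → J} {w : W} {p : P} (h : f (S.anc w) = S.own w) (hp : S.F w (f p)) :
    p ≠ S.anc w := by
  rintro rfl
  rw [h] at hp
  exact S.hown w hp

def Res (f : P → J) (g : V P W → V J W) : Prop :=
  Good S f g ∨ ∃ f', AMove S f f' ∧ Good S f' g

theorem s0 (f : P → J) (u v : V P W) (hx : xrel S u v)
    (hy : yrel S (c0 f u) (c0 f v) ∨ yrel S (c0 f v) (c0 f u)) :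
    Res S f (c0 f ∘ Equiv.swap u v) := by
  cases u <;> cases v <;> simp only [xrel] at hx <;> simp [c0, yrel] at hy
  left
  rw [t01]
  exact Good.g1 _

theorem s1 (f : P → J) (w : W) (u v : V P W) (hx : xrel S u v)
    (hy : yrel S (c1 f w u) (c1 f w v) ∨ yrel S (c1 f w v) (c1 f w u)) :
    Res S f (c1 f w ∘ Equiv.swap u v) := by
  cases u <;> cases v <;> simp only [xrel] at hx <;> simp only [c1] at hy <;>
    (try split_ifs at hy) <;> simp [yrel] at hy
  all_goals subst_vars
  · left
    rw [back (t01 f _)]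
    exact Good.g0
  · left
    rw [t12]
    exact Good.g2 _

theorem s2 (f : P → J) (w : W) (u v : V P W) (hx : xrel S u v)
    (hy : yrel S (c2 f w u) (c2 f w v) ∨ yrel S (c2 f w v) (c2 f w u)) :
    Res S f (c2 f w ∘ Equiv.swap u v) := by
  cases u <;> cases v <;> simp only [xrel] at hx <;> simp only [c2] at hy <;>
    (try split_ifs at hy) <;> simp [yrel] at hy
  all_goals subst_vars
  all_goals first
    | contradiction
    | exact Or.inl (by rw [t23 S f _ hy]; exact Good.g3 _ hy)
    | exact Or.inl (by rw [back (t12 f _)]; exact Good.g1 _)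

theorem s3 (f : P → J) (hf : Function.Injective f) (w : W) (h : f (S.anc w) = S.own w)
    (u v : V P W) (hx : xrel S u v)
    (hy : yrel S (c3 S f w u) (c3 S f w v) ∨ yrel S (c3 S f w v) (c3 S f w u)) :
    Res S f (c3 S f w ∘ Equiv.swap u v) := by
  have hh : ∀ p, f p = S.own w → p = S.anc w := fun p hp => hf (hp.trans h.symm)
  cases u <;> cases v <;> simp only [xrel] at hx <;> simp only [c3] at hy <;>
    (try split_ifs at hy) <;> simp [yrel] at hy
  all_goals subst_vars
  all_goals first
    | contradiction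
    | exact absurd (hh _ hy) (by assumption)
    | exact Or.inl (by rw [t34 S f _]; exact Good.g4 _ h)
    | exact Or.inl (by rw [back (t23 S f _ h)]; exact Good.g2 _)

theorem s4 (f : P → J) (hf : Function.Injective f) (w : W) (h : f (S.anc w) = S.own w)
    (u v : V P W) (hx : xrel S u v)
    (hy : yrel S (c4 S f w u) (c4 S f w v) ∨ yrel S (c4 S f w v) (c4 S f w u)) :
    Res S f (c4 S f w ∘ Equiv.swap u v) := by
  have hh : ∀ p, f p = S.own w → p = S.anc w := fun p hp => hf (hp.trans h.symm)
  cases u <;> cases v <;> simp only [xrel] at hx <;> simp only [c4] at hy <;>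
    (try split_ifs at hy) <;> simp [yrel] at hy
  all_goals subst_vars
  all_goals first
    | contradiction
    | exact absurd (hh _ hy) (by assumption)
    | exact Or.inl (by rw [t45 S f _]; exact Good.g5 _ h)
    | exact Or.inl (by rw [back (t34 S f _)]; exact Good.g3 _ h)

theorem s5 (f : P → J) (hf : Function.Injective f) (w : W) (h : f (S.anc w) = S.own w)
    (u v : V P W) (hx : xrel S u v)
    (hy : yrel S (c5 S f w u) (c5 S f w v) ∨ yrel S (c5 S f w v) (c5 S f w u)) :
    Res S f (c5 S f w ∘ Equiv.swap u v) := by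
  have hh : ∀ p, f p = S.own w → p = S.anc w := fun p hp => hf (hp.trans h.symm)
  cases u <;> cases v <;> simp only [xrel] at hx <;> simp only [c5] at hy <;>
    (try split_ifs at hy) <;> simp [yrel] at hy
  all_goals subst_vars
  all_goals first
    | contradiction
    | exact absurd (hh _ hy) (by assumption)
    | exact Or.inl (by rw [back (t45 S f _)]; exact Good.g4 _ h)
    | skip
  rename_i p hp
  rcases hy with hy | hy
  · exact absurd (hh _ hy) hp
  · exact Or.inl (by rw [t56 S f _ p hp]; exact Good.g6 _ p h hy)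

theorem mv6 (f : P → J) (w : W) (h : f (S.anc w) = S.own w) (p q : P) (hp : S.F w (f p))
    (hq : S.F w (f q)) (hx : S.T.Adj p q) :
    AMove S f (f ∘ Equiv.swap p q) ∧
      Good S (f ∘ Equiv.swap p q) (c6 S f w p ∘ Equiv.swap (V.tr p) (V.tr q)) := by
  have hpa := ne_anc S h hp
  have hqa := ne_anc S h hq
  refine ⟨⟨w, p, q, hx, hp, hq, h, rfl⟩, ?_⟩
  rw [t66 S f w p q hpa hqa hx.ne]
  refine Good.g6 w q ?_ ?_
  · rw [Function.comp_apply, Equiv.swap_apply_of_ne_of_ne hpa.symm hqa.symm, h]
  · simpa using hp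

theorem s6 (f : P → J) (hf : Function.Injective f) (w : W) (h : f (S.anc w) = S.own w)
    (p : P) (hp : S.F w (f p))
    (u v : V P W) (hx : xrel S u v)
    (hy : yrel S (c6 S f w p u) (c6 S f w p v) ∨ yrel S (c6 S f w p v) (c6 S f w p u)) :
    Res S f (c6 S f w p ∘ Equiv.swap u v) := by
  have hh : ∀ p, f p = S.own w → p = S.anc w := fun p hp => hf (hp.trans h.symm)
  have hpa := ne_anc S h hp
  cases u <;> cases v <;> simp only [xrel] at hx <;> simp only [c6] at hy <;>
    (try split_ifs at hy) <;> simp [yrel] at hy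
  all_goals subst_vars
  all_goals first
    | contradiction
    | exact absurd (hh _ hy) (by assumption)
    | exact Or.inl (by rw [back (t56 S f _ _ hpa)]; exact Good.g5 _ h)
    | skip
  · rename_i a b h1 h2 h3
    rcases hy with hy | hy
    · exact absurd (hh _ hy) h2
    · exact Or.inr ⟨_, mv6 S f w h a b hp hy hx⟩
  · rename_i a b h1 h2 h3
    rcases hy with hy | hy
    · exact absurd (hh _ hy) h1
    · rw [Equiv.swap_comm]
      exact Or.inr ⟨_, mv6 S f w h b a hp hy hx.symm⟩

theorem step_iff {f g : V P W → V J W} (h : Step (XG S) (YG S) f g) :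
    ∃ u v, xrel S u v ∧ (yrel S (f u) (f v) ∨ yrel S (f v) (f u)) ∧ g = f ∘ Equiv.swap u v := by
  obtain ⟨u, v, hx, hy, rfl⟩ := h
  rw [XG, SimpleGraph.fromRel_adj] at hx
  rw [YG, SimpleGraph.fromRel_adj] at hy
  rcases hx.2 with h | h
  · exact ⟨u, v, h, hy.2, rfl⟩
  · exact ⟨v, u, h, hy.2.symm, by rw [Equiv.swap_comm]⟩

/-- Every friendly swap from a good configuration changes the simulated state by at most one
abstract move. -/
theorem sim_up (f : P → J) (hf : Function.Injective f) (g g' : V P W → V J W) (hg : Good S f g)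
    (h : Step (XG S) (YG S) g g') : Res S f g' := by
  obtain ⟨u, v, hx, hy, rfl⟩ := step_iff S h
  clear h
  cases hg with
  | g0 => exact s0 S f u v hx hy
  | g1 w => exact s1 S f w u v hx hy
  | g2 w => exact s2 S f w u v hx hy
  | g3 w h => exact s3 S f hf w h u v hx hy
  | g4 w h => exact s4 S f hf w h u v hx hy
  | g5 w h => exact s5 S f hf w h u v hx hy
  | g6 w p h hp => exact s6 S f hf w h p hp u v hx hy

theorem mk_step {f g : V P W → V J W} (u v : V P W) (hx : xrel S u v) (huv : u ≠ v)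
    (hy : yrel S (f u) (f v) ∨ yrel S (f v) (f u)) (hne : f u ≠ f v)
    (hg : f ∘ Equiv.swap u v = g) : Step (XG S) (YG S) f g := by
  refine ⟨u, v, ?_, ?_, hg.symm⟩
  · rw [XG, SimpleGraph.fromRel_adj]
    exact ⟨huv, Or.inl hx⟩
  · rw [YG, SimpleGraph.fromRel_adj]
    exact ⟨hne, hy⟩

theorem rsymm {A B : Type} [DecidableEq A] {X : SimpleGraph A} {Y : SimpleGraph B}
    {f g : A → B} (h : ReflTransGen (Step X Y) f g) : ReflTransGen (Step X Y) g f := by
  induction h with
  | refl => exact ReflTransGen.refl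
  | tail _ hbc ih => exact ReflTransGen.head hbc.symm ih

theorem up6 (f : P → J) (w : W) (h : f (S.anc w) = S.own w) (p : P) (hp : S.F w (f p)) :
    ReflTransGen (Step (XG S) (YG S)) (c0 f) (c6 S f w p) := by
  have hpa := ne_anc S h hp
  have e1 : Step (XG S) (YG S) (c0 f) (c1 f w) :=
    mk_step S _ _ (by simp [xrel]) (by simp) (by simp [c0, yrel]) (by simp [c0]) (t01 f w)
  have e2 : Step (XG S) (YG S) (c1 f w) (c2 f w) :=
    mk_step S _ _ (by simp [xrel]) (by simp) (by simp [c1, yrel]) (by simp [c1]) (t12 f w)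
  have e3 : Step (XG S) (YG S) (c2 f w) (c3 S f w) :=
    mk_step S _ _ (by simp [xrel]) (by simp) (by simp [c2, yrel, h]) (by simp [c2]) (t23 S f w h)
  have e4 : Step (XG S) (YG S) (c3 S f w) (c4 S f w) :=
    mk_step S _ _ (by simp [xrel]) (by simp) (by simp [c3, yrel]) (by simp [c3]) (t34 S f w)
  have e5 : Step (XG S) (YG S) (c4 S f w) (c5 S f w) :=
    mk_step S _ _ (by simp [xrel]) (by simp) (by simp [c4, yrel]) (by simp [c4]) (t45 S f w)
  have e6 : Step (XG S) (YG S) (c5 S f w) (c6 S f w p) :=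
    mk_step S _ _ (by simp [xrel]) (by simp) (by simp [c5, yrel, hpa, hp]) (by simp [c5, hpa])
      (t56 S f w p hpa)
  exact (((((ReflTransGen.single e1).tail e2).tail e3).tail e4).tail e5).tail e6

/-- Every abstract move is realised by friendly swaps. -/
theorem sim_down {f f' : P → J} (h : AMove S f f') :
    ReflTransGen (Step (XG S) (YG S)) (c0 f) (c0 f') := by
  obtain ⟨w, p, q, hx, hp, hq, h, rfl⟩ := h
  have hpa := ne_anc S h hp
  have hqa := ne_anc S h hq
  have hpq := hx.ne
  have e : Step (XG S) (YG S) (c6 S f w p) (c6 S (f ∘ Equiv.swap p q) w q) :=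
    mk_step S _ _ (by simpa [xrel] using hx) (by simpa using hpq)
      (by simp [c6, yrel, hpa, hqa, hpq.symm, hq]) (by simp [c6, hpa, hqa, hpq.symm])
      (t66 S f w p q hpa hqa hpq)
  refine ((up6 S f w h p hp).tail e).trans (rsymm (up6 S _ w ?_ q ?_))
  · rw [Function.comp_apply, Equiv.swap_apply_of_ne_of_ne hpa.symm hqa.symm, h]
  · simpa using hp

theorem good_c0 {f f' : P → J} (h : Good S f (c0 f')) : f = f' := by
  have key : ∀ g, Good S f g → g V.root = V.root → g = c0 f := by
    intro g hg hr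
    cases hg
    · rfl
    all_goals simp [c1, c2, c3, c4, c5, c6] at hr
  have := key _ h rfl
  funext p
  have h2 := congrFun this (V.tr p)
  simp only [c0, V.tr.injEq] at h2
  exact h2.symm

theorem AMove.inj {f f' : P → J} (h : AMove S f f') (hf : Function.Injective f) :
    Function.Injective f' := by
  obtain ⟨w, p, q, _, _, _, _, rfl⟩ := h
  exact hf.comp (Equiv.injective _)

/-- The simulation theorem: distances of the abstract system are realised in FS graphs. -/
theorem simulate {n : ℕ} (e : Fin n ≃ V P W) (f0 f1 : P → J) (hf : Function.Injective f0) (D : ℕ)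
    (hr : ReflTransGen (AMove S) f0 f1)
    (Inv : (P → J) → ℤ → Prop) (h0 : Inv f0 0) (h1 : ∀ z, Inv f1 z → (D : ℤ) ≤ z)
    (hs : ∀ f g z, Function.Injective f → Inv f z → AMove S f g → ∃ z', Inv g z' ∧ z' ≤ z + 1) :
    ∃ X' Y' : SimpleGraph (Fin n), ∃ σ τ : Equiv.Perm (Fin n),
      (FSG X' Y').Reachable σ τ ∧ D ≤ (FSG X' Y').dist σ τ := by
  refine transfer e (XG S) (YG S) (c0 f0) (c0 f1) D ?_
    (fun g z => ∃ f, Function.Injective f ∧ Good S f g ∧ Inv f z) ⟨f0, hf, Good.g0, h0⟩ ?_ ?_
  · clear h1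
    induction hr with
    | refl => exact ReflTransGen.refl
    | tail _ hbc ih => exact ih.trans (sim_down S hbc)
  · rintro z ⟨f, _, hg, hz⟩
    rw [good_c0 S hg] at hz
    exact h1 z hz
  · rintro g g' z ⟨f, hf, hg, hz⟩ hst
    rcases sim_up S f hf g g' hg hst with h | ⟨f', hm, h⟩
    · exact ⟨z, ⟨f, hf, h, hz⟩, by omega⟩
    · obtain ⟨z', hz', hle⟩ := hs f f' z hf hz hm
      exact ⟨z', ⟨f', hm.inj S hf, h, hz'⟩, hle⟩

end Pool.Agent.H22.FS
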