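import Mathlib

set_option autoImplicit false

namespace Pool.Agent.H22.FS
open Relation

/-- Items on the track: a wall, tokens and blanks. -/
inductive It : Type
  | wall : It
  | tok (j : ℕ) : It
  | bl (a : ℕ) : It

abbrev Op (M : ℕ) : Type := Option (Fin M × Bool)

def FF {M : ℕ} : Op M → It → Prop
  | none, x => ∃ k, x = It.tok k
  | some (j, par), x => x = It.tok j ∨ ∃ a, x = It.bl a ∧ (a % 2 = 1 ↔ par = true)

def ow {M : ℕ} : Op M → It
  | none => It.wall
  | some (j, _) => if j.val = 0 then It.wall else It.tok (j.val - 1)

def an {M : ℕ} (N : ℕ) : Op M → ℕ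
  | none => 0
  | some (j, par) => if j.val = 0 then 0 else if par = true then 1 else N - 1

theorem not_FF_ow {M : ℕ} (w : Op M) : ¬ FF w (ow w) := by
  rcases w with _ | ⟨j, par⟩
  · simp [FF, ow]
  · simp only [FF, ow]
    split_ifs with h
    · simp
    · simp only [It.tok.injEq, reduceCtorEq, false_and, exists_false, or_false]
      omega

def LMove (M N : ℕ) (L L' : List It) : Prop :=
  ∃ (w : Op M) (l1 : List It) (x y : It) (l2 : List It), L = l1 ++ x :: y :: l2 ∧
    L' = l1 ++ y :: x :: l2 ∧ FF w x ∧ FF w y ∧ L[an N w]? = some (ow w)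

theorem get_swap {A : Type} (l1 l2 : List A) (x y o : A) (i : ℕ)
    (h : (l1 ++ x :: y :: l2)[i]? = some o) (hx : x ≠ o) (hy : y ≠ o) :
    (l1 ++ y :: x :: l2)[i]? = some o := by
  induction l1 generalizing i with
  | nil =>
    rcases i with _ | _ | i
    · simp at h
      exact absurd h hx
    · simp at h
      exact absurd h hy
    · simpa using h
  | cons a l ih =>
    rcases i with _ | i
    · simpa using h
    · simp only [List.cons_append, List.getElem?_cons_succ] at h ⊢
      exact ih i h

theorem LMove.symm {M N : ℕ} {L L' : List It} (h : LMove M N L L') : LMove M N L' L := by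
  obtain ⟨w, l1, x, y, l2, rfl, rfl, hx, hy, hc⟩ := h
  refine ⟨w, l1, y, x, l2, rfl, rfl, hy, hx, get_swap l1 l2 x y _ _ hc ?_ ?_⟩
  · rintro rfl
    exact not_FF_ow w hx
  · rintro rfl
    exact not_FF_ow w hy

theorem lsymm {M N : ℕ} {L L' : List It} (h : ReflTransGen (LMove M N) L L') :
    ReflTransGen (LMove M N) L' L := by
  induction h with
  | refl => exact ReflTransGen.refl
  | tail _ hbc ih => exact ReflTransGen.head hbc.symm ih

def low : ℕ → List It
  | 0 => []
  | j + 1 => It.tok j :: low j

theorem low_tok (j : ℕ) : ∀ x ∈ low j, ∃ k, k < j ∧ x = It.tok k := by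
  induction j with
  | zero => simp [low]
  | succ j ih =>
    intro x hx
    simp only [low, List.mem_cons] at hx
    rcases hx with rfl | hx
    · exact ⟨j, by omega, rfl⟩
    · obtain ⟨k, hk, rfl⟩ := ih x hx
      exact ⟨k, by omega, rfl⟩

theorem low_length (j : ℕ) : (low j).length = j := by
  induction j with
  | zero => rfl
  | succ j ih => simp [low, ih]

theorem vmove (M N : ℕ) (pre W : List It) (j k : ℕ) :
    LMove M N (It.wall :: (pre ++ It.tok j :: It.tok k :: W))
      (It.wall :: (pre ++ It.tok k :: It.tok j :: W)) :=
  ⟨none, It.wall :: pre, It.tok j, It.tok k, W, rfl, rfl, ⟨j, rfl⟩, ⟨k, rfl⟩, by simp [an, ow]⟩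

theorem tokmove (M N : ℕ) (j : ℕ) (W : List It) (L : List It) (hL : ∀ x ∈ L, ∃ k, x = It.tok k) :
    ∀ pre : List It, ReflTransGen (LMove M N) (It.wall :: (pre ++ It.tok j :: (L ++ W)))
      (It.wall :: (pre ++ (L ++ It.tok j :: W))) := by
  induction L with
  | nil => intro pre; exact ReflTransGen.refl
  | cons y L ih =>
    intro pre
    obtain ⟨k, rfl⟩ := hL y (by simp)
    have h1 := vmove M N pre (L ++ W) j k
    have h2 := ih (fun x hx => hL x (by simp [hx])) (pre ++ [It.tok k])
    simp only [List.append_assoc, List.cons_append, List.nil_append] at h2 ⊢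
    exact ReflTransGen.head h1 h2

def NW (W : List It) : Prop := ∀ x ∈ W, x ≠ It.wall

def Sweep (M N j : ℕ) : Prop :=
  ∀ W : List It, NW W → j + W.length + 2 = N →
    ReflTransGen (LMove M N) (It.wall :: (low j ++ It.tok j :: W))
      (It.wall :: (low j ++ (W ++ [It.tok j])))

theorem cross (M N j : ℕ) (hj : j < M) (ih : ∀ i, i + 1 = j → Sweep M N i) (W1 W2 : List It)
    (y : It) (h1 : NW W1) (h2 : NW W2) (hy : y ≠ It.wall)
    (hl : j + W1.length + W2.length + 3 = N) :
    ReflTransGen (LMove M N) (It.wall :: (low j ++ (W1 ++ It.tok j :: y :: W2)))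
      (It.wall :: (low j ++ (W1 ++ y :: It.tok j :: W2))) := by
  rcases y with _ | k | a
  · exact absurd rfl hy
  · have := vmove M N (low j ++ W1) W2 j k
    simp only [List.append_assoc] at this
    exact ReflTransGen.single this
  · rcases j with _ | i
    · refine ReflTransGen.single ⟨some (⟨0, hj⟩, decide (a % 2 = 1)), It.wall :: W1, It.tok 0,
        It.bl a, W2, by simp [low], by simp [low], Or.inl rfl, Or.inr ⟨a, rfl, by simp⟩, ?_⟩
      simp [an, ow]
    · by_cases ha : a % 2 = 1
      · refine ReflTransGen.single ⟨some (⟨i + 1, hj⟩, true), It.wall :: (low (i + 1) ++ W1),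
          It.tok (i + 1), It.bl a, W2, by simp, by simp, Or.inl rfl,
          Or.inr ⟨a, rfl, by simp [ha]⟩, ?_⟩
        simp [an, ow, low]
      · have hs := ih i rfl
        have hlow : ∀ x ∈ low i, ∃ k, x = It.tok k := fun x hx => by
          obtain ⟨k, _, hk⟩ := low_tok i x hx
          exact ⟨k, hk⟩
        have key : ∀ u v : It, u ≠ It.wall → v ≠ It.wall →
            ReflTransGen (LMove M N) (It.wall :: (low (i + 1) ++ (W1 ++ u :: v :: W2)))
              (It.wall :: (low i ++ ((W1 ++ u :: v :: W2) ++ [It.tok i]))) := by
          intro u v hu hv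
          have e1 := tokmove M N i (W1 ++ u :: v :: W2) (low i) hlow []
          have e2 := hs (W1 ++ u :: v :: W2) (by
            intro x hx
            simp only [List.mem_append, List.mem_cons] at hx
            rcases hx with hx | rfl | rfl | hx
            · exact h1 x hx
            · exact hu
            · exact hv
            · exact h2 x hx) (by simp; omega)
          simp only [List.nil_append] at e1
          exact e1.trans e2
        have m : LMove M N
            (It.wall :: (low i ++ ((W1 ++ It.tok (i + 1) :: It.bl a :: W2) ++ [It.tok i])))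
            (It.wall :: (low i ++ ((W1 ++ It.bl a :: It.tok (i + 1) :: W2) ++ [It.tok i]))) := by
          refine ⟨some (⟨i + 1, hj⟩, false), It.wall :: (low i ++ W1),
            It.tok (i + 1), It.bl a, W2 ++ [It.tok i], by simp, by simp, Or.inl rfl,
            Or.inr ⟨a, rfl, by simp [ha]⟩, ?_⟩
          have hlen : N - 1 =
              (It.wall :: (low i ++ (W1 ++ It.tok (i + 1) :: It.bl a :: W2))).length := by
            simp [low_length]
            omega
          simp only [an, ow, Nat.add_eq_zero_iff, one_ne_zero, and_false, if_false,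
            Bool.false_eq_true, Nat.add_sub_cancel]
          rw [hlen, ← List.append_assoc, ← List.cons_append, List.getElem?_concat_length]
        exact ((key _ _ (by simp) (by simp)).tail m).trans (lsymm (key _ _ (by simp) (by simp)))

theorem sweep (M N : ℕ) : ∀ j, j < M → Sweep M N j := by
  intro j
  induction j using Nat.strong_induction_on with
  | _ j ih =>
    intro hj
    have key : ∀ W2 W1 : List It, NW W1 → NW W2 → j + W1.length + W2.length + 2 = N →
        ReflTransGen (LMove M N) (It.wall :: (low j ++ (W1 ++ It.tok j :: W2)))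
          (It.wall :: (low j ++ (W1 ++ (W2 ++ [It.tok j])))) := by
      intro W2
      induction W2 with
      | nil => intro W1 _ _ _; exact ReflTransGen.refl
      | cons y W2 ih2 =>
        intro W1 h1 h2 hl
        have hy : y ≠ It.wall := h2 y (by simp)
        have h2' : NW W2 := fun x hx => h2 x (by simp [hx])
        have e1 := cross M N j hj (fun i hi => ih i (by omega) (by omega)) W1 W2 y h1 h2' hy
          (by simp at hl; omega)
        have e2 := ih2 (W1 ++ [y]) (by
          intro x hx
          simp only [List.mem_append, List.mem_singleton] at hx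
          rcases hx with hx | rfl
          · exact h1 x hx
          · exact hy) h2' (by simp at hl ⊢; omega)
        simp only [List.append_assoc, List.cons_append, List.nil_append] at e2 ⊢
        exact e1.trans e2
    intro W hW hl
    have := key W [] (by simp [NW]) hW (by simpa using hl)
    simpa using this

end Pool.Agent.H22.FS
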