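import Mathlib
import Pool.Agent.H22.FS4

set_option autoImplicit false

namespace Pool.Agent.H22.FS
open Relation

def blk : It → Option ℕ
  | .bl a => some a
  | _ => none

def cnt (L : List It) : ℕ := (L.filterMap blk).length

/-- The number of blanks before token `j`. -/
def dig (j : ℕ) : List It → ℕ
  | [] => 0
  | .wall :: l => dig j l
  | .tok k :: l => if k = j then 0 else dig j l
  | .bl _ :: l => dig j l + 1

theorem dig_append (j : ℕ) (l1 l2 : List It) (h : It.tok j ∉ l1) :
    dig j (l1 ++ l2) = cnt l1 + dig j l2 := by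
  induction l1 with
  | nil => simp [cnt]
  | cons x l ih =>
    simp only [List.mem_cons, not_or] at h
    have ih' := ih h.2
    rcases x with _ | k | a
    · simpa [dig, cnt, blk, List.filterMap_cons] using ih'
    · have : k ≠ j := fun e => h.1 (by rw [e])
      simpa [dig, cnt, blk, this, List.filterMap_cons] using ih'
    · simp only [List.cons_append, dig, cnt, blk, List.filterMap_cons, List.length_cons] at ih' ⊢
      omega

theorem dig_congr (j : ℕ) (l1 l2 l3 : List It) (h : dig j l2 = dig j l3) :
    dig j (l1 ++ l2) = dig j (l1 ++ l3) := by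
  induction l1 with
  | nil => simpa using h
  | cons x l ih =>
    rcases x with _ | k | a <;> simp [dig, ih]

theorem range_split (u w : List ℕ) (a B : ℕ) (h : u ++ a :: w = List.range B) :
    a = u.length ∧ a < B := by
  have h1 : (u ++ a :: w)[u.length]? = some a := by simp
  rw [h] at h1
  have h2 : u.length < B := by
    have := congrArg List.length h
    simp at this
    omega
  rw [List.getElem?_range h2] at h1
  simp only [Option.some.injEq] at h1
  omega

def LL (B : ℕ) : ℕ → ℤ
  | 0 => B
  | j + 1 => ((B : ℤ) - 1) * LL B j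

def psi (B d : ℕ) (x L : ℤ) : ℤ :=
  if d = 0 then 0 else if d = B then ((B : ℤ) - 1) * L
  else ((d : ℤ) - 1) * L + (if d % 2 = 1 then L - x else x)

def phi (B : ℕ) (d : ℕ → ℕ) : ℕ → ℤ
  | 0 => d 0
  | j + 1 => psi B (d (j + 1)) (phi B d j) (LL B j)

theorem phi_zero (B : ℕ) (d : ℕ → ℕ) (j : ℕ) (h : d j = 0) : phi B d j = 0 := by
  cases j with
  | zero => simp [phi, h]
  | succ j => simp [phi, psi, h]

theorem phi_top (B : ℕ) (hB : 0 < B) (d : ℕ → ℕ) (j : ℕ) (h : d j = B) :
    phi B d j = LL B j := by
  cases j with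
  | zero => simp [phi, h, LL]
  | succ j => simp [phi, psi, h, LL, hB.ne']

theorem psi_lip (B d : ℕ) (x x' L : ℤ) (h : |x' - x| ≤ 1) : |psi B d x' L - psi B d x L| ≤ 1 := by
  rw [abs_le] at h ⊢
  unfold psi
  split_ifs <;> constructor <;> linarith [h.1, h.2]

theorem psi_cross (B a : ℕ) (ha : a < B) (x L : ℤ) (h1 : a % 2 = 1 → x = 0)
    (h0 : ¬ a % 2 = 1 → x = L) : psi B (a + 1) x L = psi B a x L := by
  unfold psi
  by_cases hp : a % 2 = 1
  · have hx := h1 hp
    have e0 : a ≠ 0 := by omega
    have e1 : a ≠ B := by omega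
    have e2 : ¬ (a + 1) % 2 = 1 := by omega
    simp only [e0, e1, e2, hp, hx, if_true, if_false, Nat.add_eq_zero_iff, one_ne_zero, and_false]
    split_ifs with e3
    · rw [← e3]; push_cast; ring
    · push_cast; ring
  · have hx := h0 hp
    have e1 : a ≠ B := by omega
    have e2 : (a + 1) % 2 = 1 := by omega
    simp only [e1, e2, hp, hx, if_true, if_false, Nat.add_eq_zero_iff, one_ne_zero, and_false]
    split_ifs with e3 e4 e4
    · rw [← e3, e4]; simp
    · rw [← e3]; push_cast; ring
    · rw [e4]; simp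
    · push_cast; ring

theorem phi_step (B : ℕ) (d d' : ℕ → ℕ) (j a : ℕ) (ha : a < B) (hk : ∀ k, k ≠ j → d' k = d k)
    (hj : d j = a) (hj' : d' j = a + 1)
    (hc : ∀ i, j = i + 1 → (a % 2 = 1 → d i = 0) ∧ (¬ a % 2 = 1 → d i = B)) :
    ∀ k, |phi B d' k - phi B d k| ≤ 1 ∧ (k < j → phi B d' k = phi B d k) := by
  intro k
  induction k with
  | zero =>
    by_cases h : j = 0
    · subst h
      simp [phi, hj, hj']
    · simp [phi, hk 0 (Ne.symm h)]
  | succ k ih =>
    by_cases h : j = k + 1
    · subst h
      obtain ⟨c1, c2⟩ := hc k rfl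
      refine ⟨?_, fun h => absurd h (by omega)⟩
      simp only [phi, hj, hj', ih.2 (by omega)]
      rw [psi_cross B a ha _ _ (fun h => phi_zero B d k (c1 h))
        (fun h => phi_top B (by omega) d k (c2 h))]
      simp
    · simp only [phi, hk (k + 1) (Ne.symm h)]
      refine ⟨psi_lip _ _ _ _ _ ih.1, fun hlt => ?_⟩
      rw [ih.2 (by omega)]

def LInv (B N : ℕ) (L : List It) : Prop :=
  L.head? = some It.wall ∧ L.filterMap blk = List.range B ∧ L.length = N

theorem cond_dig {M B N : ℕ} {L : List It} (hn : L.Nodup) (hL : LInv B N L) (j : Fin M)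
    (par : Bool) (hc : L[an N (some (j, par) : Op M)]? = some (ow (some (j, par) : Op M))) (i : ℕ)
    (hi : j.val = i + 1) : (par = true → dig i L = 0) ∧ (¬ par = true → dig i L = B) := by
  obtain ⟨h1, h2, h3⟩ := hL
  simp only [an, ow, hi, Nat.add_eq_zero_iff, one_ne_zero, and_false, if_false,
    Nat.add_sub_cancel] at hc
  constructor
  · intro hp
    simp only [hp, if_true] at hc
    rcases L with _ | ⟨x, _ | ⟨y, l⟩⟩
    · simp at hc
    · simp at hc
    · simp at h1 hc
      subst h1 hc
      simp [dig]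
  · intro hp
    simp only [hp] at hc
    rcases List.eq_nil_or_concat L with rfl | ⟨l, x, rfl⟩
    · simp at hc
    · rw [List.concat_eq_append] at *
      have hl : N - 1 = l.length := by
        simp at h3
        omega
      simp only [Bool.false_eq_true, if_false, hl, List.getElem?_concat_length,
        Option.some.injEq] at hc
      subst hc
      have hnot : It.tok i ∉ l := by
        intro hm
        rw [List.nodup_append] at hn
        exact hn.2.2 _ hm _ (by simp) rfl
      rw [dig_append i l _ hnot]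
      have := congrArg List.length h2
      simp [blk, List.filterMap_append] at this
      simp only [dig, cnt, if_true, Nat.add_zero]
      exact this

theorem cross_lip {M B N : ℕ} (l1 l2 : List It) (j : Fin M) (par : Bool) (a : ℕ)
    (hpa : a % 2 = 1 ↔ par = true)
    (hn : (l1 ++ It.tok j :: It.bl a :: l2).Nodup) (hL : LInv B N (l1 ++ It.tok j :: It.bl a :: l2))
    (hc : (l1 ++ It.tok j :: It.bl a :: l2)[an N (some (j, par) : Op M)]? =
      some (ow (some (j, par) : Op M))) (k : ℕ) :
    |phi B (fun i => dig i (l1 ++ It.bl a :: It.tok j :: l2)) k -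
      phi B (fun i => dig i (l1 ++ It.tok j :: It.bl a :: l2)) k| ≤ 1 := by
  have hnot : It.tok j ∉ l1 := by
    intro hm
    rw [List.nodup_append] at hn
    exact hn.2.2 _ hm _ (by simp) rfl
  have h2 := hL.2.1
  simp only [List.filterMap_append, List.filterMap_cons, blk] at h2
  obtain ⟨e0, e2⟩ := range_split _ _ _ _ h2
  have e1 : a = (List.filterMap blk l1).length := e0
  clear e0
  refine (phi_step B _ _ j a e2 ?_ ?_ ?_ ?_ k).1
  · intro k hk
    apply dig_congr
    simp [dig, Ne.symm hk]
  · simp only [dig_append _ _ _ hnot, dig, cnt]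
    simp [e1]
  · simp only [dig_append _ _ _ hnot, dig, cnt]
    simp [e1]
  · intro i hi
    have := cond_dig hn hL j par hc i hi
    rw [hpa]
    exact this

theorem linv_swap {M B N : ℕ} (w : Op M) (l1 l2 : List It) (x y : It) (hx : FF w x) (hy : FF w y)
    (hL : LInv B N (l1 ++ x :: y :: l2)) :
    LInv B N (l1 ++ y :: x :: l2) ∧ ¬ (∃ a b, x = It.bl a ∧ y = It.bl b) := by
  have hw : ∀ z, FF w z → z ≠ It.wall := by
    intro z hz e
    subst e
    rcases w with _ | ⟨j, par⟩ <;> simp [FF] at hz
  obtain ⟨h1, h2, h3⟩ := hL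
  have hnb : ¬ (∃ a b, x = It.bl a ∧ y = It.bl b) := by
    rintro ⟨a, b, rfl, rfl⟩
    simp only [List.filterMap_append, List.filterMap_cons, blk] at h2
    obtain ⟨e1, _⟩ := range_split _ _ _ _ h2
    obtain ⟨e2, _⟩ := range_split (List.filterMap blk l1 ++ [a]) (List.filterMap blk l2) b B
      (by rw [← h2]; simp; rfl)
    have e1' : a = (List.filterMap blk l1).length := e1
    simp only [List.length_append, List.length_singleton] at e2
    rcases w with _ | ⟨j, par⟩
    · simp [FF] at hx
    · simp only [FF, reduceCtorEq, It.bl.injEq, false_or, exists_eq_left'] at hx hy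
      have : a % 2 = 1 ↔ b % 2 = 1 := hx.trans hy.symm
      omega
  refine ⟨⟨?_, ?_, ?_⟩, hnb⟩
  · rcases l1 with _ | ⟨z, l⟩
    · simp at h1
      exact absurd h1 (hw x hx)
    · simpa using h1
  · rw [← h2]
    simp only [List.filterMap_append]
    congr 1
    rcases x with _ | k | a <;> rcases y with _ | k' | b <;>
      first
        | rfl
        | exact absurd ⟨_, _, rfl, rfl⟩ hnb
  · simpa using h3

theorem lmove_lip {M B N : ℕ} {L L' : List It} (hn : L.Nodup) (hL : LInv B N L)
    (h : LMove M N L L') (k : ℕ) :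
    LInv B N L' ∧ phi B (fun i => dig i L') k ≤ phi B (fun i => dig i L) k + 1 := by
  obtain ⟨w, l1, x, y, l2, rfl, rfl, hx, hy, hc⟩ := h
  obtain ⟨hL', hnb⟩ := linv_swap w l1 l2 x y hx hy hL
  refine ⟨hL', ?_⟩
  have hxy : x ≠ y := by
    rintro rfl
    rw [List.nodup_append] at hn
    simp at hn
  rcases w with _ | ⟨j, par⟩
  · obtain ⟨a, rfl⟩ := hx
    obtain ⟨b, rfl⟩ := hy
    have : (fun i => dig i (l1 ++ It.tok b :: It.tok a :: l2)) =
        (fun i => dig i (l1 ++ It.tok a :: It.tok b :: l2)) := by
      funext i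
      apply dig_congr
      simp only [dig]
      split_ifs <;> rfl
    rw [this]
    omega
  · rcases hx with rfl | ⟨a, rfl, ha⟩ <;> rcases hy with rfl | ⟨b, rfl, hb⟩
    · exact absurd rfl hxy
    · have := cross_lip l1 l2 j par b hb hn hL hc k
      rw [abs_le] at this
      omega
    · have hn' : (l1 ++ It.tok j :: It.bl a :: l2).Nodup :=
        (List.Perm.nodup_iff (List.Perm.append_left l1 (List.Perm.swap _ _ _))).mp hn
      have hc' := get_swap l1 l2 _ _ _ _ hc (by
        intro e
        exact not_FF_ow (some (j, par)) (e ▸ Or.inr ⟨a, rfl, ha⟩)) (by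
        intro e
        exact not_FF_ow (some (j, par)) (e ▸ Or.inl rfl))
      have := cross_lip l1 l2 j par a ha hn' hL' hc' k
      rw [abs_le] at this
      omega
    · exact absurd ⟨_, _, rfl, rfl⟩ hnb

end Pool.Agent.H22.FS
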