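import Mathlib
import Pool.Agent.H22.FS3
import Pool.Agent.H22.FS5

set_option autoImplicit false

namespace Pool.Agent.H22.FS
open Relation
open Classical

theorem ofFn_split {A : Type} {N : ℕ} (f : Fin N → A) (p q : Fin N) (h : p.val + 1 = q.val) :
    ∃ l1 l2 : List A, l1.length = p.val ∧ List.ofFn f = l1 ++ f p :: f q :: l2 := by
  refine ⟨(List.ofFn f).take p.val, (List.ofFn f).drop (p.val + 1 + 1), by simp, ?_⟩
  have hp : p.val < (List.ofFn f).length := by simp
  have hq : p.val + 1 < (List.ofFn f).length := by simp [h]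
  conv_lhs => rw [← List.take_append_drop p.val (List.ofFn f), List.drop_eq_getElem_cons hp,
    List.drop_eq_getElem_cons hq]
  simp only [List.getElem_ofFn, Fin.eta]
  have : (⟨p.val + 1, by omega⟩ : Fin N) = q := Fin.ext h
  rw [this]

theorem ofFn_swap {A : Type} {N : ℕ} {inst : DecidableEq (Fin N)} (f : Fin N → A) (l1 l2 : List A) (x y : A) (p q : Fin N)
    (hp : p.val = l1.length) (hq : q.val = l1.length + 1)
    (h : List.ofFn f = l1 ++ x :: y :: l2) :
    f p = x ∧ f q = y ∧ List.ofFn (f ∘ @Equiv.swap _ inst p q) = l1 ++ y :: x :: l2 := by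
  obtain rfl : inst = instDecidableEqFin N := Subsingleton.elim _ _
  have hg : ∀ i : Fin N, (l1 ++ x :: y :: l2)[i.val]? = some (f i) := by
    intro i
    rw [← h]
    simp
  have e1 : f p = x := by
    have := hg p
    rw [hp] at this
    simpa using this.symm
  have e2 : f q = y := by
    have := hg q
    rw [hq, List.getElem?_append_right (by omega)] at this
    simpa using this.symm
  have hlen : N = l1.length + l2.length + 2 := by
    have := congrArg List.length h
    simp at this
    omega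
  refine ⟨e1, e2, ?_⟩
  apply List.ext_getElem?
  intro i
  by_cases hi : i < N
  · have : (List.ofFn (f ∘ Equiv.swap p q))[i]? = some (f (Equiv.swap p q ⟨i, hi⟩)) := by
      simp [hi]
    rw [this]
    by_cases c1 : i = l1.length
    · have : (⟨i, hi⟩ : Fin N) = p := Fin.ext (by simp [c1, hp])
      rw [this, Equiv.swap_apply_left, e2, c1]
      simp
    · by_cases c2 : i = l1.length + 1
      · have : (⟨i, hi⟩ : Fin N) = q := Fin.ext (by simp [c2, hq])
        rw [this, Equiv.swap_apply_right, e1, c2, List.getElem?_append_right (by omega)]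
        simp
      · rw [Equiv.swap_apply_of_ne_of_ne (fun e => c1 (by rw [← hp, ← e]))
          (fun e => c2 (by rw [← hq, ← e])), ← hg ⟨i, hi⟩]
        by_cases c3 : i < l1.length
        · simp [List.getElem?_append_left c3]
        · obtain ⟨k, rfl⟩ : ∃ k, i = l1.length + (k + 2) := ⟨i - l1.length - 2, by omega⟩
          simp [List.getElem?_append_right]
  · rw [List.getElem?_eq_none (by simp; omega), List.getElem?_eq_none (by simp; omega)]

theorem an_lt {M : ℕ} (K : ℕ) (w : Op M) : an (K + 2) w < K + 2 := by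
  rcases w with _ | ⟨j, par⟩
  · simp [an]
  · simp only [an]
    split_ifs <;> omega

def sys (M K : ℕ) : Sys (Fin (K + 2)) It (Op M) where
  T := SimpleGraph.pathGraph (K + 2)
  F := FF
  own := ow
  anc := fun w => ⟨an (K + 2) w, an_lt K w⟩
  hown := not_FF_ow

theorem cond_iff {M K : ℕ} (f : Fin (K + 2) → It) (w : Op M) :
    (List.ofFn f)[an (K + 2) w]? = some (ow w) ↔ f ((sys M K).anc w) = (sys M K).own w := by
  have : (List.ofFn f)[an (K + 2) w]? = some (f ⟨an (K + 2) w, an_lt K w⟩) := by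
    rw [List.getElem?_ofFn]
    simp [an_lt K w]
  rw [this]
  simp [sys]

theorem amove_lmove {M K : ℕ} {f g : Fin (K + 2) → It} (h : AMove (sys M K) f g) :
    LMove M (K + 2) (List.ofFn f) (List.ofFn g) := by
  obtain ⟨w, p, q, hx, hp, hq, hc, rfl⟩ := h
  rw [← cond_iff] at hc
  rcases SimpleGraph.pathGraph_adj.mp hx with h | h
  · obtain ⟨l1, l2, hl, e⟩ := ofFn_split f p q h
    exact ⟨w, l1, f p, f q, l2, e, (ofFn_swap f l1 l2 _ _ p q hl.symm (by omega) e).2.2, hp, hq, hc⟩
  · obtain ⟨l1, l2, hl, e⟩ := ofFn_split f q p h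
    rw [@Equiv.swap_comm _ (fun a b => propDecidable (a = b)) p q]
    exact ⟨w, l1, f q, f p, l2, e, (ofFn_swap f l1 l2 _ _ q p hl.symm (by omega) e).2.2, hq, hp, hc⟩

theorem lmove_amove {M K : ℕ} {f : Fin (K + 2) → It} {L : List It}
    (h : LMove M (K + 2) (List.ofFn f) L) : ∃ g, AMove (sys M K) f g ∧ List.ofFn g = L := by
  obtain ⟨w, l1, x, y, l2, e, rfl, hx, hy, hc⟩ := h
  rw [cond_iff] at hc
  have hlen : K + 2 = l1.length + l2.length + 2 := by
    have := congrArg List.length e
    simp at this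
    omega
  obtain ⟨e1, e2, e3⟩ := ofFn_swap (inst := fun a b => propDecidable (a = b)) f l1 l2 x y ⟨l1.length, by omega⟩ ⟨l1.length + 1, by omega⟩
    rfl rfl e
  refine ⟨_, ⟨w, _, _, ?_, ?_, ?_, hc, rfl⟩, e3⟩
  · exact SimpleGraph.pathGraph_adj.mpr (Or.inl rfl)
  · rw [e1]; exact hx
  · rw [e2]; exact hy

theorem lreach {M K : ℕ} (f : Fin (K + 2) → It) (L : List It)
    (h : ReflTransGen (LMove M (K + 2)) (List.ofFn f) L) :
    ∃ g, ReflTransGen (AMove (sys M K)) f g ∧ List.ofFn g = L := by
  induction h with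
  | refl => exact ⟨f, ReflTransGen.refl, rfl⟩
  | tail _ hbc ih =>
    obtain ⟨g, hg, rfl⟩ := ih
    obtain ⟨g', hg', e⟩ := lmove_amove hbc
    exact ⟨g', hg.tail hg', e⟩

theorem low_nodup (j : ℕ) : (low j).Nodup := by
  induction j with
  | zero => simp [low]
  | succ j ih =>
    simp only [low, List.nodup_cons]
    refine ⟨fun h => ?_, ih⟩
    obtain ⟨k, hk, e⟩ := low_tok j _ h
    simp only [It.tok.injEq] at e
    omega

theorem low_blk (j : ℕ) : (low j).filterMap blk = [] := by
  induction j with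
  | zero => simp [low]
  | succ j ih => simpa [low, List.filterMap_cons, blk] using ih

theorem bl_blk (l : List ℕ) : (l.map It.bl).filterMap blk = l := by
  induction l with
  | nil => rfl
  | cons a l ih => simpa [List.filterMap_cons, blk] using ih

theorem LL_eq (b j : ℕ) : LL (b + 1) j = ((b : ℤ) + 1) * (b : ℤ) ^ j := by
  induction j with
  | zero => simp [LL]
  | succ j ih => simp only [LL, ih]; push_cast; ring

def toV {P W : Type} : P ⊕ Bool ⊕ W ⊕ W ⊕ W → V P W
  | .inl p => .tr p
  | .inr (.inl true) => .root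
  | .inr (.inl false) => .hold
  | .inr (.inr (.inl w)) => .ga w
  | .inr (.inr (.inr (.inl w))) => .gb w
  | .inr (.inr (.inr (.inr w))) => .gc w

theorem toV_surj {P W : Type} : Function.Surjective (toV : P ⊕ Bool ⊕ W ⊕ W ⊕ W → V P W) := by
  intro v
  cases v with
  | tr p => exact ⟨.inl p, rfl⟩
  | root => exact ⟨.inr (.inl true), rfl⟩
  | hold => exact ⟨.inr (.inl false), rfl⟩
  | ga w => exact ⟨.inr (.inr (.inl w)), rfl⟩
  | gb w => exact ⟨.inr (.inr (.inr (.inl w))), rfl⟩
  | gc w => exact ⟨.inr (.inr (.inr (.inr w))), rfl⟩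

/-- For every `m` there is an FS instance on at most `8 m + 14` vertices with two bijections in
the same component at distance at least `m ^ m`. -/
theorem big (m : ℕ) : ∃ n : ℕ, n ≤ 8 * m + 14 ∧ ∃ X Y : SimpleGraph (Fin n),
    ∃ σ τ : Equiv.Perm (Fin n), (FSG X Y).Reachable σ τ ∧ m ^ m ≤ (FSG X Y).dist σ τ := by
  set K := m + (m + 1) with hK
  set W0 : List It := (List.range (m + 1)).map It.bl with hW0
  have hnot : It.tok m ∉ low m := by
    intro h
    obtain ⟨k, hk, e⟩ := low_tok m _ h
    simp only [It.tok.injEq] at e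
    omega
  have hl0 : (It.wall :: (low m ++ It.tok m :: W0)).length = K + 2 := by
    simp [low_length, hW0, hK]
    omega
  obtain ⟨f0, hf0⟩ : ∃ f0 : Fin (K + 2) → It,
      List.ofFn f0 = It.wall :: (low m ++ It.tok m :: W0) := by
    rw [← hl0]
    exact ⟨_, List.ofFn_get _⟩
  have hnd : (It.wall :: (low m ++ It.tok m :: W0)).Nodup := by
    rw [List.nodup_cons, List.nodup_append, List.nodup_cons]
    refine ⟨?_, low_nodup m, ⟨by simp [hW0], ?_⟩, ?_⟩
    · intro h
      simp only [List.mem_append, List.mem_cons, hW0, List.mem_map, reduceCtorEq, and_false,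
        exists_false, or_false] at h
      obtain ⟨k, _, e⟩ := low_tok m _ h
      simp at e
    · exact List.Nodup.map (fun a b e => by simpa using e) List.nodup_range
    · intro a ha b hb e
      subst e
      obtain ⟨k, hk, rfl⟩ := low_tok m _ ha
      simp only [List.mem_cons, It.tok.injEq, hW0, List.mem_map, reduceCtorEq, and_false,
        exists_false, or_false] at hb
      omega
  have hinj : Function.Injective f0 := List.nodup_ofFn.mp (by rw [hf0]; exact hnd)
  have hsw := sweep (m + 1) (K + 2) m (by omega) W0 (by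
    intro x hx e
    subst e
    simp [hW0] at hx) (by simp [hW0, hK])
  rw [← hf0] at hsw
  obtain ⟨f1, hr, hf1⟩ := lreach f0 _ hsw
  letI : Fintype (V (Fin (K + 2)) (Op (m + 1))) := Fintype.ofSurjective toV toV_surj
  refine ⟨Fintype.card (V (Fin (K + 2)) (Op (m + 1))), ?_, ?_⟩
  · refine (Fintype.card_le_of_surjective toV toV_surj).trans ?_
    simp
    omega
  · refine simulate (sys (m + 1) K) (Fintype.equivFin _).symm f0 f1 hinj (m ^ m) hr
      (fun f z => LInv (m + 1) (K + 2) (List.ofFn f) ∧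
        z = phi (m + 1) (fun i => dig i (List.ofFn f)) m) ⟨?_, ?_⟩ ?_ ?_
    · rw [hf0]
      refine ⟨rfl, ?_, hl0⟩
      simp only [List.filterMap_cons, List.filterMap_append, low_blk, hW0, bl_blk]
      rfl
    · rw [phi_zero]
      rw [hf0]
      simp only [dig]
      rw [dig_append _ _ _ hnot]
      simp [cnt, low_blk, dig]
    · rintro z ⟨_, rfl⟩
      rw [phi_top _ (by omega), LL_eq]
      · push_cast
        have : (0 : ℤ) ≤ (m : ℤ) * (m : ℤ) ^ m := by positivity
        linarith
      · rw [hf1]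
        simp only [dig]
        rw [dig_append _ _ _ hnot, dig_append _ _ _ (by simp [hW0])]
        simp only [cnt, low_blk, dig, hW0, bl_blk]
        simp
    · rintro f g z hf ⟨hL, rfl⟩ hm
      obtain ⟨h1, h2⟩ := lmove_lip (List.nodup_ofFn.mpr hf) hL (amove_lmove hm) m
      exact ⟨_, ⟨h1, rfl⟩, h2⟩

theorem main :
    ¬ (∃ C : ℝ, ∀ n : ℕ, ∀ X Y : SimpleGraph (Fin n), ∀ σ τ : Equiv.Perm (Fin n),
      (FSG X Y).Reachable σ τ → (((FSG X Y).dist σ τ : ℕ) : ℝ) ≤ Real.exp (C * n)) := by
  rintro ⟨C, hC⟩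
  obtain ⟨m, hm⟩ := exists_nat_gt (Real.exp (22 * |C|))
  have hpos : 0 < Real.exp (22 * |C|) := Real.exp_pos _
  have hm1 : 1 ≤ m := by
    have : (0 : ℝ) < m := hpos.trans hm
    exact_mod_cast this
  obtain ⟨n, hn, X, Y, σ, τ, hr, hd⟩ := big m
  have h1 := hC n X Y σ τ hr
  have h2 : ((m : ℝ)) ^ m ≤ ((FSG X Y).dist σ τ : ℕ) := by exact_mod_cast hd
  have h3 : (n : ℝ) ≤ 22 * m := by
    have : n ≤ 22 * m := by omega
    exact_mod_cast this
  have h4 : C * n ≤ m * (22 * |C|) := by
    have a1 : C * n ≤ |C| * n := mul_le_mul_of_nonneg_right (le_abs_self C) (by positivity)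
    have a2 : |C| * n ≤ |C| * (22 * m) := mul_le_mul_of_nonneg_left h3 (abs_nonneg C)
    linarith
  have h5 : Real.exp (C * n) ≤ Real.exp (22 * |C|) ^ m := by
    rw [← Real.exp_nat_mul]
    exact Real.exp_le_exp.mpr h4
  have h6 : Real.exp (22 * |C|) ^ m < (m : ℝ) ^ m := pow_lt_pow_left₀ hm hpos.le (by omega)
  linarith

end Pool.Agent.H22.FS
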