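import Pool.Agent.H36.Sim
import Pool.Agent.H36.ParDefs

/-!
Simulation of a machine for polynomially many steps; para-NP-hardness excludes
fixed-parameter tractability unless P = NP.
-/

namespace Pool.Agent.H22.FptSim

open Pool.Agent.H38.NP Pool.Agent.H36.Sim Pool.Agent.H36.Par Function Turing Turing.TM2

theorem pt_of_machine (M0 : TM2ComputableAux Bool Bool) (τ : Polynomial ℕ) :
    ∃ F : Bits → Bits, PT F ∧ ∀ (u v : List Bool) (T : ℕ), T ≤ τ.eval u.length →
      Nonempty (TM2OutputsInTime M0.tm (u.map M0.inputAlphabet.invFun)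
        (some (v.map M0.outputAlphabet.invFun)) T) → F ⟨u⟩ = ⟨v⟩ := by
  classical
  obtain ⟨tm, ia, oa⟩ := M0
  have := tm.kFin
  have := tm.ΛFin
  have := tm.σFin
  let M := tm.m
  let G : Set (Σ k, tm.Γ k) := (⋃ l, syms (M l)) ∪ Set.range fun b : Bool => ⟨tm.k₀, ia.symm b⟩
  have hGf : G.Finite := (Set.finite_iUnion fun l => syms_finite _).union (Set.finite_range _)
  have hG : ∀ l, syms (M l) ⊆ G := fun l x hx => Or.inl (Set.mem_iUnion.2 ⟨l, hx⟩)
  let D := Finset.univ.sup fun l => depth (M l)
  have hD : ∀ l, depth (M l) ≤ D := fun l =>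
    Finset.le_sup (f := fun l => depth (M l)) (Finset.mem_univ l)
  let ks : List tm.K := Finset.univ.toList
  have hks : ∀ k, k ∈ ks := fun k => by simp [ks]
  let c0 : List Bool → Cfg tm.Γ tm.Λ tm.σ := fun u => initList tm (u.map ia.symm)
  have hgood0 : ∀ u, Good G (c0 u).stk := by
    intro u k a ha
    by_cases e : k = tm.k₀
    · subst e
      simp only [c0, initList_k0, List.mem_map] at ha
      obtain ⟨b, -, rfl⟩ := ha
      exact Or.inr ⟨b, rfl⟩
    · simp [c0, initList_ne tm _ e] at ha
  have hgood : ∀ u t, Good G ((nxt M)^[t] (c0 u)).stk := by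
    intro u t
    induction t with
    | zero => exact hgood0 u
    | succ t ih => rw [iterate_succ_apply']; exact good_nxt M hG _ ih
  have hrun : ∀ (u v : List Bool) (T : ℕ), T ≤ τ.eval u.length →
      Nonempty (TM2OutputsInTime tm (u.map ia.invFun) (some (v.map oa.invFun)) T) →
      ((nxt M)^[τ.eval u.length] (c0 u)).stk tm.k₁ = v.map oa.symm := by
    rintro u v T hT ⟨h⟩
    exact (congrArg (fun c => c.stk tm.k₁)
      (iter_nxt_le M (h.steps_le_m.trans hT) rfl h.evals_in_steps)).trans (haltList_k1 _ _)
  let sy : ∀ k, tm.Γ k → ℕ := fun k a => hGf.toFinset.toList.idxOf ⟨k, a⟩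
  have hsy : ∀ k a b, (⟨k, a⟩ : Σ k, tm.Γ k) ∈ G → sy k a = sy k b → a = b := by
    intro k a b ha e
    have := (List.idxOf_inj (by simpa using ha)).1 e
    simpa using this
  let st : Option tm.Λ × tm.σ → ℕ := fun s => Finset.univ.toList.idxOf s
  have hst : ∀ a b, st a = st b → a = b := fun a b e => (List.idxOf_inj (by simp)).1 e
  let cd : Cfg tm.Γ tm.Λ tm.σ → Cd := fun c =>
    (st (c.l, c.var), ks.map fun k => (c.stk k).map (sy k))
  have hcd : ∀ a b, Good G a.stk → cd a = cd b → a = b := by
    rintro ⟨l, v, S⟩ ⟨l', v', S'⟩ ha e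
    simp only [cd, Prod.mk.injEq, List.map_inj_left] at e
    obtain ⟨rfl, rfl⟩ := Prod.mk.inj (hst _ _ e.1)
    congr 1
    funext k
    have h1 := e.2 k (hks k)
    have h2 := ha k
    simp only at h2
    generalize S k = s at h1 h2
    generalize S' k = s' at h1
    induction s generalizing s' with
    | nil => cases s' <;> simp_all
    | cons a s ih =>
      cases s' with
      | nil => simp at h1
      | cons b s' =>
        simp only [List.map_cons, List.cons.injEq] at h1
        rw [hsy k a b (h2 a (by simp)) h1.1, ih (fun x hx => h2 x (by simp [hx])) s' h1.2]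
  let Tb : List (Cd × Cd) := (wins_finite (Λ := tm.Λ) (σ := tm.σ) hGf D).toFinset.toList.map
    fun ω => (cd ω, cd (nxt M ω))
  have hstp : ∀ c, Good G c.stk → stp D Tb (cd c) = cd (nxt M c) := by
    intro c hc
    have hw : win D c ∈ Wins G D :=
      ⟨fun k a ha => hc k a (List.mem_of_mem_take ha), fun k => by simp [win]⟩
    have e1 : ((cd c).1, (cd c).2.map (List.take D)) = cd (win D c) := by
      simp [cd, win, List.map_take]
    have e2 : Tb.find? (fun e => e.1 == cd (win D c)) = some (cd (win D c), cd (nxt M (win D c))) := by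
      cases e : Tb.find? (fun e => e.1 == cd (win D c)) with
      | none =>
        have := List.find?_eq_none.1 e (cd (win D c), cd (nxt M (win D c)))
          (List.mem_map.2 ⟨_, by simpa using hw, rfl⟩)
        simp at this
      | some p =>
        have h1 := List.find?_some e
        obtain ⟨ω, -, rfl⟩ := List.mem_map.1 (List.mem_of_find?_eq_some e)
        rw [hcd _ _ hw.1 (beq_iff_eq.1 h1).symm]
    unfold stp
    rw [e1, e2, nxt_win M hD c]
    simp [cd, ext, List.zipWith_map, List.map_drop]
  have hit : ∀ u t, (stp D Tb)^[t] (cd (c0 u)) = cd ((nxt M)^[t] (c0 u)) := by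
    intro u t
    induction t with
    | zero => rfl
    | succ t ih => rw [iterate_succ_apply', iterate_succ_apply', ih, hstp _ (hgood u t)]
  have hi : PT fun x : Bits => cd (c0 x.val) := by
    have : PT fun x : Bits => (st ((c0 []).l, (c0 []).var),
        (ks.map fun k => decide (k = tm.k₀)).map fun b =>
          cond b (x.val.map fun y => cond y (sy _ (ia.symm true)) (sy _ (ia.symm false))) []) := by
      fun_prop
    refine this.of_eq fun x => ?_
    simp only [cd, List.map_map]
    congr 1
    refine List.map_congr_left fun k _ => ?_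
    by_cases e : k = tm.k₀
    · subst e
      simp only [c0, initList_k0, List.map_map, comp, decide_true, cond_true]
      exact List.map_congr_left fun y _ => by cases y <;> rfl
    · simp [c0, initList_ne tm _ e, e]
  have hn : PT fun x : Bits => τ.eval x.val.length := PT.polyEval τ (by fun_prop)
  have hI := PT.iterate (step := fun (_ : Bits) c => stp D Tb c) (by unfold stp; fun_prop) hn hi
    (B := fun x => sz (cd (c0 x.val)) + τ.eval x.val.length * (sz Tb + 1))
    (hi.pb.add (hn.nat_pb.mul (PB.const _))) (fun x i h => by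
      refine le_trans ?_ (Nat.add_le_add_left (Nat.mul_le_mul_right _ h) _)
      clear h
      induction i with
      | zero => simp
      | succ i ih =>
        rw [iterate_succ_apply']
        have := sz_stp D Tb ((fun c => stp D Tb c)^[i] (cd (c0 x.val)))
        rw [Nat.succ_mul]
        omega)
  have hO : PT fun c : Cd => Bits.mk ((c.2.getD (ks.idxOf tm.k₁) []).map
      fun n => decide (n = sy _ (oa.symm true))) := by fun_prop
  refine ⟨_, hO.comp hI, fun u v T hT hu => ?_⟩
  have hrun' := hrun u v T hT hu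
  simp only
  rw [hit]
  have hl := List.idxOf_lt_length_of_mem (hks tm.k₁)
  have hg := hgood u (τ.eval u.length) tm.k₁
  congr 1
  have : (cd ((nxt M)^[τ.eval u.length] (c0 u))).2.getD (ks.idxOf tm.k₁) [] =
      (v.map oa.symm).map (sy _) := by
    rw [← hrun']
    simp only [cd, List.getD_eq_getElem?_getD, List.getElem?_map]
    rw [List.getElem?_idxOf (hks _)]
    rfl
  rw [this, List.map_map, List.map_map]
  rw [hrun'] at hg
  conv_rhs => rw [← List.map_id v]
  refine List.map_congr_left fun b hb => ?_
  cases b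
  · simp only [comp, id, decide_eq_false_iff_not]
    intro e
    simpa using hsy _ _ _ (hg _ (List.mem_map_of_mem hb)) e
  · simp

/-- A problem that is NP-hard for a bounded parameter is not fixed-parameter tractable unless
P = NP. -/
theorem collapse_fpt {α : Type} [Enc α] {C C' P : α → Prop} {κ : α → ℕ} {k : ℕ} (h : NPH C P)
    (hC : ∀ a, C a → C' a ∧ κ a ≤ k) (hF : FPTOn C' P κ) : ∀ A, InNP A → InP A := by
  intro A hA
  obtain ⟨M, f, c, -, hM⟩ := hF
  obtain ⟨g, hg, hx⟩ := h A hA
  obtain ⟨F, hF, e⟩ := pt_of_machine M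
    (Polynomial.C (∑ i ∈ Finset.range (k + 1), f i) * (Polynomial.X + 1) ^ c)
  refine inP_of_pt (fun x => decide (F (raw (g x)) = ⟨[true]⟩))
    (PT.eq (hF.comp hg.raw) (PT.const _)) fun x => ?_
  obtain ⟨h1, h2⟩ := hC _ (hx x).1
  obtain ⟨b, hb, ho⟩ := hM _ h1
  have := e (enc (g x)) [b] _ (by
    simp only [Polynomial.eval_mul, Polynomial.eval_C, Polynomial.eval_pow, Polynomial.eval_add,
      Polynomial.eval_X, Polynomial.eval_one]
    exact Nat.mul_le_mul_right _ (Finset.single_le_sum (f := f) (fun _ _ => Nat.zero_le _)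
      (Finset.mem_range.2 (Nat.lt_succ_of_le h2)))) ho
  rw [(hx x).2, hb, decide_eq_true_eq]
  change _ ↔ F ⟨enc (g x)⟩ = _
  rw [this]
  simp

end Pool.Agent.H22.FptSim
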