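import Pool.Agent.H22.QB1

namespace Pool.Agent.H22.QB

open Pool.Agent.H38.NP Pool.Agent.H36.PSpace Function

def Md (a : ℕ → Bool) (φ : CNF ℕ) : Prop := ∀ C ∈ φ, By a C

/-- `∀ x_{2k-1} ∃ x_{2k-2} ... ∀ x_1 ∃ x_0 φ` -/
def QA (φ : CNF ℕ) : ℕ → (ℕ → Bool) → Prop
  | 0, a => Md a φ
  | k + 1, a => ∀ b, ∃ c, QA φ k (update (update a (2 * k + 1) b) (2 * k) c)

theorem qa_ren (q : ℕ → Bool) (φ : CNF ℕ) (k : ℕ) (a : ℕ → Bool) :
    QA (ren (fun j => 2 * j + (q j).toNat) φ) k a ↔
      QK q (fun a => Md a φ) k fun j => a (2 * j + (q j).toNat) := by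
  induction k generalizing a with
  | zero => simp [QA, QK, Md, ren, By]
  | succ k ih =>
    have e : ∀ b c, (fun j => update (update a (2 * k + 1) b) (2 * k) c (2 * j + (q j).toNat)) =
        update (fun j => a (2 * j + (q j).toNat)) k (if q k then b else c) := fun b c => by
      funext j
      have := Bool.toNat_le (q j)
      by_cases h : j = k
      · subst h
        cases h : q j <;> simp
      · rw [update_of_ne (by omega), update_of_ne (by omega), update_of_ne h]
    simp only [QA, QK, ih, e]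
    cases q k <;> simp

def eqc (c : ℕ × Bool) (u v : ℕ) : CNF ℕ := [[c, (u, true), (v, false)], [c, (u, false), (v, true)]]

def eqb (n : ℕ) (c : ℕ × Bool) (u v : ℕ) : CNF ℕ :=
  (List.range n).flatMap fun j => eqc c (u + j) (v + j)

theorem md_eqb {n c u v a} : Md a (eqb n c u v) ↔ (a c.1 = !c.2 → blk n a u = blk n a v) := by
  have : ∀ u v, Md a (eqc c u v) ↔ (a c.1 = !c.2 → a u = a v) := fun u v => by
    simp only [Md, eqc, By, List.forall_mem_cons, List.exists_mem_cons_iff, List.not_mem_nil,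
      false_and, exists_false, or_false, false_imp_iff, implies_true, and_true]
    cases a c.1 <;> cases c.2 <;> cases a u <;> cases a v <;> simp
  simp only [Md, eqb, List.forall_mem_flatMap, List.mem_range] at this ⊢
  simp only [this, funext_iff, blk, Fin.forall_iff]
  exact ⟨fun h h' j hj => h j hj h', fun h j hj h' => h h' j hj⟩

abbrev RI := CNF ℕ × CNF (Bool × ℕ) × CNF ℕ

def nb (p : RI) : ℕ := (p.1.flatten.map (·.1) ++ p.2.1.flatten.map (·.1.2) ++
  p.2.2.flatten.map (·.1)).sum + 1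

def mat (n : ℕ) (p : RI) : CNF ℕ :=
  ren (fun v => off n n + n + v) p.1 ++ ren (fun v => off n n + v) p.2.2 ++
  (List.range n).flatMap (fun l =>
    eqb n (off n l + 2 * n, false) (off n l + n) (off n (l + 1) + n) ++
    eqb n (off n l + 2 * n, true) (off n l + n) (off n l + 2 * n + 1) ++
    eqb n (off n l + 2 * n, false) (off n l) (off n l + 2 * n + 1) ++
    eqb n (off n l + 2 * n, true) (off n l) (off n (l + 1))) ++
  eqb n (0, false) (off n 0 + n) (off n 0) ++
  (ren (fun v => cond v.1 (off n 0 + v.2) (off n 0 + n + v.2)) p.2.1).map fun C => (0, true) :: C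

def rr (n : ℕ) (T : CNF (Bool × ℕ)) (x y : Fin n → Bool) : Prop :=
  ∀ C ∈ T, By (fun v => cond v.1 (ext y v.2) (ext x v.2)) C

theorem md_app {a φ ψ} : Md a (φ ++ ψ) ↔ Md a φ ∧ Md a ψ := List.forall_mem_append

theorem by_congr {V : Type} {a b : V → Bool} {C} (h : ∀ l ∈ C, a l.1 = b l.1) : By a C ↔ By b C :=
  exists_congr fun l => and_congr_right fun hl => by rw [h l hl]

theorem nb_lt (p : RI) : (∀ C ∈ p.1, ∀ l ∈ C, l.1 < nb p) ∧ (∀ C ∈ p.2.1, ∀ l ∈ C, l.1.2 < nb p) ∧
    ∀ C ∈ p.2.2, ∀ l ∈ C, l.1 < nb p := by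
  refine ⟨fun C hC l hl => ?_, fun C hC l hl => ?_, fun C hC l hl => ?_⟩ <;>
    refine Nat.lt_succ_of_le (List.single_le_sum (fun _ _ => Nat.zero_le _) _ ?_) <;>
    simp only [List.mem_append, List.mem_map, List.mem_flatten]
  exacts [Or.inl (Or.inl ⟨l, ⟨C, hC, hl⟩, rfl⟩), Or.inl (Or.inr ⟨l, ⟨C, hC, hl⟩, rfl⟩),
    Or.inr ⟨l, ⟨C, hC, hl⟩, rfl⟩]

theorem md_ren {n o : ℕ} {φ : CNF ℕ} (h : ∀ C ∈ φ, ∀ l ∈ C, l.1 < n) (a : ℕ → Bool) :
    Md a (ren (fun v => o + v) φ) ↔ Md (ext (blk n a o)) φ := by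
  simp only [Md, ren, List.forall_mem_map]
  refine forall₂_congr fun C hC => ?_
  rw [by_congr (b := fun v => a (o + v)) fun l hl => ext_blk (h C hC l hl)]
  simp only [By, List.mem_map, exists_exists_and_eq_and]

theorem md_mat (p : RI) (a : ℕ → Bool) : Md a (mat (nb p) p) ↔
    Mx (fun x => Md (ext x) p.1) (fun x => Md (ext x) p.2.2) (rr (nb p) p.2.1) a := by
  obtain ⟨h1, h2, h3⟩ := nb_lt p
  set n := nb p
  simp only [mat, md_app, md_ren h1, md_ren h3, md_eqb, Mx, Up, and_assoc]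
  refine and_congr_right fun _ => and_congr_right fun _ => and_congr ?_
    (and_congr (by simp) ?_)
  · simp only [Md, List.forall_mem_flatMap, List.mem_range, Nat.zero_le, true_imp_iff]
    refine forall₂_congr fun l _ => ?_
    simp only [← Md.eq_1, md_app, md_eqb, Link]
    cases a (off n l + 2 * n) <;> simp
  · simp only [Md, ren, List.forall_mem_map, rr]
    cases h : a 0
    · simp only [true_imp_iff]
      refine forall₂_congr fun C hC => ?_
      rw [by_congr (C := C) (a := fun v : Bool × ℕ => cond v.1 (ext (blk n a (off n 0)) v.2)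
        (ext (blk n a (off n 0 + n)) v.2))
        (b := fun v : Bool × ℕ => a (cond v.1 (off n 0 + v.2) (off n 0 + n + v.2))) fun l hl => by
          rw [ext_blk (h2 C hC l hl), ext_blk (h2 C hC l hl)]; cases l.1.1 <;> rfl]
      simp only [By, List.exists_mem_cons_iff, h, List.mem_map, exists_exists_and_eq_and]
      simp
    · simp [By, h]

theorem reach_iff (p : RI) : Reach p ↔ ∃ x y : Fin (nb p) → Bool, Md (ext x) p.1 ∧
    Md (ext y) p.2.2 ∧ Relation.ReflTransGen (rr (nb p) p.2.1) x y := by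
  obtain ⟨h1, h2, h3⟩ := nb_lt p
  set n := nb p
  have e : ∀ (a : ℕ → Bool) j, j < n → ext (blk n a 0) j = a j := fun a j h => by
    rw [ext_blk h, zero_add]
  constructor
  · rintro ⟨T, a, a1, a2, a3⟩
    refine ⟨blk n (a 0) 0, blk n (a T) 0, fun C hC => (by_congr fun l hl => e _ _ (h1 C hC l hl)).2
      (a1 C hC), fun C hC => (by_congr fun l hl => e _ _ (h3 C hC l hl)).2 (a3 C hC), ?_⟩
    clear a3
    induction T with
    | zero => exact .refl
    | succ T ih =>
      refine (ih fun t ht => a2 t (by omega)).tail fun C hC => (by_congr fun l hl => ?_).2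
        (a2 T (by omega) C hC)
      rw [e _ _ (h2 C hC l hl), e _ _ (h2 C hC l hl)]
      cases l.1.1 <;> rfl
  · rintro ⟨x, y, a1, a3, h⟩
    suffices ∃ (T : ℕ) (a : ℕ → ℕ → Bool), a 0 = ext x ∧ a T = ext y ∧
        ∀ t < T, ∀ C ∈ p.2.1, By (fun v => a (t + v.1.toNat) v.2) C by
      obtain ⟨T, a, b1, b2, b3⟩ := this
      exact ⟨T, a, b1 ▸ a1, b3, b2 ▸ a3⟩
    clear a3
    induction h with
    | refl => exact ⟨0, fun _ => ext x, rfl, rfl, fun _ h => by omega⟩
    | @tail y z _ hz ih =>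
      obtain ⟨T, a, b1, b2, b3⟩ := ih
      refine ⟨T + 1, update a (T + 1) (ext z), by rw [update_of_ne (by omega), b1], by simp,
        fun t ht C hC => ?_⟩
      by_cases e : t = T
      · refine (by_congr fun l _ => ?_).2 (hz C hC)
        cases l.1.1 <;> simp [e, b2]
      · refine (by_congr fun l _ => ?_).2 (b3 t (by omega) C hC)
        have := Bool.toNat_le l.1.1
        rw [update_of_ne (by omega)]

def TQ (p : ℕ × CNF ℕ) : Prop := QA p.2 p.1 fun _ => false

def nvar (φ : CNF ℕ) : ℕ := (φ.flatten.map (·.1)).sum + 1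

theorem tq0 : PSH (fun _ => True) TQ := by
  refine reach_psh.reduce (fun p => (off (nb p) (nb p) + nb p + nb p,
    ren (fun j => 2 * j + (qq (nb p) j).toNat) (mat (nb p) p))) ?_ fun p _ => ⟨trivial, ?_⟩
  · unfold mat eqb eqc ren qq off nb
    fun_prop
  · rw [TQ, qa_ren, reach_iff, funext (fun a => propext (md_mat p a)), top]

theorem qa_congr {φ ψ : CNF ℕ} (k : ℕ) (a : ℕ → Bool)
    (h : ∀ b : ℕ → Bool, (∀ j, 2 * k ≤ j → b j = a j) → (Md b φ ↔ Md b ψ)) :
    QA φ k a ↔ QA ψ k a := by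
  induction k generalizing a with
  | zero => exact h a fun _ _ => rfl
  | succ k ih =>
    refine forall_congr' fun b => exists_congr fun c => ih _ fun d hd => h d fun j hj => ?_
    rw [hd j (by omega), update_of_ne (by omega), update_of_ne (by omega)]

/-- all variables of the matrix are quantified -/
theorem tq_psh : PSH (fun p : ℕ × CNF ℕ => ∀ C ∈ p.2, ∀ l ∈ C, l.1 < 2 * p.1) TQ := by
  refine tq0.reduce (fun p => (p.1, (p.2.filter fun C => C.all fun l =>
    decide (l.1 < 2 * p.1 ∨ l.2 = true)).map fun C => C.filter fun l => decide (l.1 < 2 * p.1)))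
    (by fun_prop) fun p _ => ⟨fun C hC l hl => ?_, qa_congr _ _ fun b hb => ?_⟩
  · obtain ⟨C, _, rfl⟩ := List.mem_map.1 hC
    simpa using (List.mem_filter.1 hl).2
  simp only [Md, By, List.forall_mem_map, List.mem_filter, List.all_eq_true, decide_eq_true_eq,
    and_imp]
  refine forall₂_congr fun C _ => ⟨fun ⟨l, h1, h2⟩ h => ⟨l, ⟨h1, ?_⟩, h2⟩, fun h => ?_⟩
  · by_contra h3
    rw [hb _ (by omega), (h l h1).resolve_left h3] at h2
    simp at h2
  · by_contra h1
    obtain ⟨l, h2, h3⟩ := h fun l hl => by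
      by_contra h4
      push Not at h4
      exact h1 ⟨l, hl, by rw [hb _ h4.1]; simpa using h4.2⟩
    exact h1 ⟨l, h2.1, h3⟩

end Pool.Agent.H22.QB
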