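import Pool.Agent.H22.GDDefs
import Pool.Agent.H22.QB2

/-! The split graph and Dominator's strategy. -/

namespace Pool.Agent.H22.GD

open Pool.Agent.H38.NP Pool.Agent.H36.PSpace Pool.Agent.H22.QB Function

section
variable {L : List Vt} {E : List (Vt × Vt)}

theorem done {b t C} (h : ∀ v ∈ L, C v) : DW L E b t C := by
  cases b with
  | zero => exact h
  | succ b =>
    cases t
    · exact fun u _ ⟨v, a, _, c⟩ => (c (h v a)).elim
    · exact Or.inl h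

theorem mono {b} : ∀ {t C C'}, (∀ v ∈ L, C v → C' v) → DW L E b t C → DW L E b t C' := by
  induction b with
  | zero => exact fun h a v hv => h v hv (a v hv)
  | succ b ih =>
    intro t C C' h a
    cases t
    · exact fun u hu ⟨v, x, y, z⟩ => ih (fun v hv => Or.imp_left (h v hv))
        (a u hu ⟨v, x, y, fun e => z (h v x e)⟩)
    by_cases e : ∀ v ∈ L, C' v
    · exact Or.inl e
    rcases a with a | ⟨u, hu, -, a⟩
    · exact Or.inl fun v hv => h v hv (a v hv)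
    by_cases e' : ∃ v ∈ L, nb E u v ∧ ¬ C' v
    · exact Or.inr ⟨u, hu, e', ih (fun v hv => Or.imp_left (h v hv)) a⟩
    push Not at e e'
    obtain ⟨w, hw, e⟩ := e
    exact Or.inr ⟨w, hw, ⟨w, hw, Or.inl rfl, e⟩, ih (fun v hv c =>
      Or.inl (c.elim (h v hv) (e' v hv))) a⟩

theorem stepD {b C u} (hu : u ∈ L) (h : DW L E b false fun v => C v ∨ nb E u v) :
    DW L E (b + 1) true C := by
  by_cases e : ∀ v ∈ L, C v
  · exact Or.inl e
  by_cases e' : ∃ v ∈ L, nb E u v ∧ ¬ C v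
  · exact Or.inr ⟨u, hu, e', h⟩
  push Not at e e'
  obtain ⟨w, hw, e⟩ := e
  exact Or.inr ⟨w, hw, ⟨w, hw, Or.inl rfl, e⟩, mono (fun v hv c =>
    Or.inl (c.elim id (e' v hv))) h⟩

theorem stepS {b C} (h : ∀ x ∈ L, ¬ C x → DW L E b true fun v => C v ∨ v = x) :
    DW L E (b + 1) false C := fun u _ ⟨x, a, c, d⟩ =>
  mono (fun v _ => Or.imp_right fun e : v = x => e ▸ c) (h x a d)

theorem fin (σ : ℕ → Vt) {f} (hf : f ∈ L) (i : ℕ) : ∀ C : Vt → Prop, (∀ g < i, σ g ∈ L) →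
    (∀ v ∈ L, C v ∨ nb E f v ∨ ∃ g < i, nb E (σ g) v) → DW L E (2 * i + 1) true C := by
  induction i with
  | zero => exact fun C _ h => stepD hf fun v hv => by simpa using h v hv
  | succ i ih =>
    exact fun C h1 h => stepD (h1 i (by omega)) (stepS fun x _ _ => ih _
      (fun g hg => h1 g (by omega)) fun v hv => by have := h v hv; grind)

end

def val (k m : ℕ) (v : Vt) : Prop :=
  (v.1 = 0 ∧ v.2.1 ≤ k + 1 ∧ v.2.2 < 2 * k + 9) ∨
  ((v.1 = 1 ∨ v.1 = 9 ∨ v.1 = 10) ∧ v.2.1 ≤ k ∧ v.2.2 < 2 * k + 9) ∨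
  (v.1 = 2 ∧ v.2.1 ≤ 2 * k + 1 ∧ v.2.2 < 2) ∨
  (v.1 = 3 ∧ v.2.1 ≤ k ∧ v.2.2 < 2 ∧ (v.2.1 = 0 → v.2.2 = 0)) ∨
  ((v.1 = 4 ∨ v.1 = 15) ∧ 1 ≤ v.2.1 ∧ v.2.1 ≤ k ∧ v.2.2 = 0) ∨
  ((v.1 = 5 ∨ v.1 = 8) ∧ v.2.1 ≤ k ∧ v.2.2 = 0) ∨ ((v.1 = 6 ∨ v.1 = 16) ∧ v.2.1 = 0 ∧ v.2.2 < 2) ∨
  (v.1 = 7 ∧ v.2.1 ≤ k ∧ v.2.2 < 4) ∨ (v.1 = 11 ∧ v.2.1 = 0 ∧ v.2.2 < 2 * k + 9) ∨
  (v.1 = 12 ∧ v.2.1 < m ∧ v.2.2 = 0) ∨ (v.1 = 13 ∧ v.2.1 ≤ 2 * k + 1 ∧ v.2.2 = 0) ∨
  (v.1 = 14 ∧ v.2.1 ≤ k ∧ v.2.2 < 4 ∧ (v.2.2 = 3 → v.2.1 < k))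

def lock (φ : CNF ℕ) (u v : Vt) : Prop :=
  (u.1 = 12 ∧ 1 ≤ v.2.1 ∧ (v.1 = 3 ∨ (v.1 = 2 ∧ (v.2.1 - 1, decide (v.2.2 = 0)) ∈ φ.getD u.2.1 []))) ∨
  (u.1 = 13 ∧ v.1 = 2 ∧ v.2.1 = u.2.1) ∨
  (u.1 = 14 ∧ ((v.1 = 5 ∧ v.2.1 = u.2.1) ∨ (v.1 = 2 ∧ v.2.1 = 2 * u.2.1 ∧ v.2.2 = u.2.2) ∨
    (u.2.2 = 2 ∧ v.1 = 3 ∧ v.2.1 = u.2.1) ∨ (u.2.2 = 3 ∧ v.1 = 4 ∧ v.2.1 = u.2.1 + 1))) ∨
  (u.1 = 15 ∧ (v.1 = 3 ∨ v.1 = 4) ∧ v.2.1 = u.2.1) ∨ (u.1 = 16 ∧ v.1 = 6 ∧ v.2.2 = u.2.2)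

def cov (k : ℕ) (φ : CNF ℕ) (u v : Vt) : Prop :=
  (u.1 = 7 ∧ ((v.1 ≤ 1 ∧ v.2.1 = u.2.1) ∨ (v.1 = 2 ∧ v.2.1 = 2 * u.2.1 ∧ v.2.2 = u.2.2 % 2) ∨
    (v.1 = 2 ∧ v.2.1 = 2 * u.2.1 + 1 ∧ v.2.2 = u.2.2 / 2) ∨
    (v.1 = 3 ∧ v.2.1 = u.2.1 + 1 ∧ v.2.2 = 1 - u.2.2 / 2))) ∨
  (u.1 = 8 ∧ (v.1 = 0 ∨ v.1 = 5) ∧ v.2.1 = u.2.1) ∨
  ((u.1 = 9 ∨ u.1 = 10) ∧ ((v.1 ≤ 1 ∧ v.2.1 = u.2.1 ∧ ¬ (v.1 = u.1 - 9 ∧ v.2.2 = u.2.2)) ∨
    (v.1 = 6 ∧ v.2.2 = u.1 - 9))) ∨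
  (u.1 = 11 ∧ ((v.1 = 0 ∧ v.2.1 = k + 1 ∧ v.2.2 ≠ u.2.2) ∨ 2 ≤ v.1)) ∨
  (12 ≤ u.1 ∧ ((v.1 = 0 ∧ v.2.1 = k + 1) ∨ (u.1 = 14 ∧ v.1 = 1 ∧ v.2.1 = u.2.1) ∨
    (2 ≤ v.1 ∧ ¬ lock φ u v)))

def ad (k : ℕ) (φ : CNF ℕ) (u v : Vt) : Prop := u ≠ v ∧ 7 ≤ u.1 ∧ (7 ≤ v.1 ∨ cov k φ u v)

instance (k m v) : Decidable (val k m v) := by unfold val; infer_instance
instance (φ u v) : Decidable (lock φ u v) := by unfold lock; infer_instance
instance (k φ u v) : Decidable (cov k φ u v) := by unfold cov; infer_instance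
instance (k φ u v) : Decidable (ad k φ u v) := by unfold ad; infer_instance

def LL (k m : ℕ) : List Vt := ((List.range 17).product ((List.range (2 * k + 2 + m)).product
  (List.range (2 * k + 9)))).filter fun v => decide (val k m v)

def EE (k : ℕ) (φ : CNF ℕ) : List (Vt × Vt) :=
  ((LL k φ.length).product (LL k φ.length)).filter fun p => decide (ad k φ p.1 p.2)

variable {k m : ℕ} {φ : CNF ℕ}

theorem mem_LL {v} : v ∈ LL k m ↔ val k m v := by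
  obtain ⟨a, b, c⟩ := v
  simp only [LL, List.mem_filter, List.pair_mem_product, List.mem_range, decide_eq_true_eq]
  exact ⟨fun h => h.2, fun h => ⟨by simp only [val] at h; omega, h⟩⟩

theorem mem_EE {u v} : (u, v) ∈ EE k φ ↔ u ∈ LL k φ.length ∧ v ∈ LL k φ.length ∧ ad k φ u v := by
  simp [EE, List.pair_mem_product, and_assoc]

theorem nb_set {u v} (hu : u ∈ LL k φ.length) (hv : v ∈ LL k φ.length) (h : 7 ≤ u.1) :
    nb (EE k φ) u v ↔ 7 ≤ v.1 ∨ cov k φ u v := by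
  simp only [nb, mem_EE, ad, hu, hv, true_and]
  grind

theorem nb_el {u v} (h : u.1 < 7) (h' : v.1 < 7) : nb (EE k φ) u v ↔ u = v := by
  simp only [nb, mem_EE, ad]
  grind

def Ve (k : ℕ) (v : Vt) : Prop := (v.1 = 0 → v.2.1 ≤ k + 1) ∧ (v.1 = 1 → v.2.1 ≤ k) ∧
  (v.1 = 2 → v.2.1 ≤ 2 * k + 1 ∧ v.2.2 < 2) ∧
  (v.1 = 3 → v.2.1 ≤ k ∧ v.2.2 < 2 ∧ (v.2.1 = 0 → v.2.2 = 0)) ∧
  (v.1 = 4 → 1 ≤ v.2.1 ∧ v.2.1 ≤ k ∧ v.2.2 = 0) ∧ (v.1 = 5 → v.2.1 ≤ k ∧ v.2.2 = 0) ∧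
  (v.1 = 6 → v.2.1 = 0 ∧ v.2.2 < 2)

theorem ve {v} (h : val k m v) : Ve k v := by
  simp only [val, Ve] at h ⊢
  omega

structure G (k i : ℕ) (a : ℕ → Bool) (C : Vt → Prop) : Prop where
  h1 : ∀ j c, i ≤ j → j ≤ k → C (0, j, c) ∧ C (1, j, c)
  h2 : ∀ t, 2 * i ≤ t → t ≤ 2 * k + 1 → C (2, t, 0) ∨ C (2, t, 1)
  h3 : ∀ j, i < j → C (3, j, 0) ∧ C (3, j, 1)
  h4 : ∀ v, 2 * i ≤ v + 1 → v < 2 * k → C (2, v + 1, (a v).toNat)

theorem finG {i a C} (g : G k i a C) (hc : ∀ v ∈ LL k φ.length, 7 ≤ v.1 → C v) (hi : i ≤ k)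
    (j : ℕ) (s f : Vt) (c : ℕ) (h0 : c < 4) (hs : j < i → val k φ.length s ∧ 7 ≤ s.1)
    (hf : val k φ.length f ∧ 7 ≤ f.1)
    (h : ∀ v, val k φ.length v → v.1 < 7 → C v ∨ cov k φ f v ∨ (j < i ∧ cov k φ s v) ∨
      ∃ g < i, g ≠ j ∧ cov k φ (7, g, c) v) :
    DW (LL k φ.length) (EE k φ) (2 * i + 1) true C := by
  have m : ∀ g < i, (if g = j then s else (7, g, c)) ∈ LL k φ.length := fun g hg => by
    split_ifs with e
    · exact mem_LL.2 (hs (e ▸ hg)).1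
    · simp [mem_LL, val]; omega
  refine fin (fun g => if g = j then s else (7, g, c)) (mem_LL.2 hf.1) i C m fun v hv => ?_
  by_cases e : 7 ≤ v.1
  · exact Or.inl (hc v hv e)
  rcases h v (mem_LL.1 hv) (by omega) with h | h | ⟨a, h⟩ | ⟨g, a, b, h⟩
  · exact Or.inl h
  · exact Or.inr (Or.inl ((nb_set (mem_LL.2 hf.1) hv hf.2).2 (Or.inr h)))
  · exact Or.inr (Or.inr ⟨j, a, by
      simpa using (nb_set (mem_LL.2 (hs a).1) hv (hs a).2).2 (Or.inr h)⟩)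
  · refine Or.inr (Or.inr ⟨g, a, (nb_set (m g a) hv (by simp [b])).2 (Or.inr (by simpa [b]))⟩)

/-- privates are covered by the normal sets -/
theorem priv {i a C} (g : G k i a C) {j c} {p q r : ℕ} (hv : val k m (p, q, r)) (h : p ≤ 1) :
    C (p, q, r) ∨ (p = 0 ∧ q = k + 1) ∨ (q = j ∧ j < i) ∨
      ∃ g < i, g ≠ j ∧ cov k φ (7, g, c) (p, q, r) := by
  by_cases e : q < i
  · by_cases e' : q = j
    · exact Or.inr (Or.inr (Or.inl ⟨e', e' ▸ e⟩))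
    · exact Or.inr (Or.inr (Or.inr ⟨q, e, e', by simp [cov, h]⟩))
  have := g.h1 q r
  have := ve hv
  simp only [Ve] at this
  grind

theorem cheat {i a C x} (g : G k i a C) (hc : ∀ v ∈ LL k φ.length, 7 ≤ v.1 → C v) (hi : i ≤ k)
    (hx : val k φ.length x) (h : ¬ C x) (h7 : x.1 < 7) (ne : ¬ (x.1 = 3 ∧ x.2.1 = i)) :
    DW (LL k φ.length) (EE k φ) (2 * i + 1) true fun v => C v ∨ v = x := by
  have g' : G k i a fun v => C v ∨ v = x := ⟨fun j c a b => (g.h1 j c a b).imp Or.inl Or.inl,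
    fun t a b => (g.h2 t a b).imp Or.inl Or.inl, fun j a => (g.h3 j a).imp Or.inl Or.inl,
    fun v a b => Or.inl (g.h4 v a b)⟩
  have F := finG (φ := φ) g' (fun v a b => Or.inl (hc v a b)) hi
  obtain ⟨p, j, c⟩ := x
  have a1 := g.h1 j c
  have a2 := g.h2 j
  have a3 := g.h3 j
  have a4 := g.h2 (2 * j)
  have main : ∀ j' s f c', c' < 4 → (j' < i → val k φ.length s ∧ 7 ≤ s.1) →
      (val k φ.length f ∧ 11 ≤ f.1) → (∀ r, (0, k + 1, r) = (p, j, c) ∨ cov k φ f (0, k + 1, r)) →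
      (j' < i → ∀ p' ≤ 1, ∀ r, (p', j', r) = (p, j, c) ∨ cov k φ s (p', j', r) ∨
        cov k φ f (p', j', r)) →
      (∀ v, Ve k v → 2 ≤ v.1 → lock φ f v → 12 ≤ f.1 → C v ∨ v = (p, j, c) ∨
        (j' < i ∧ cov k φ s v) ∨ ∃ g < i, g ≠ j' ∧ cov k φ (7, g, c') v) →
      DW (LL k φ.length) (EE k φ) (2 * i + 1) true fun v => C v ∨ v = (p, j, c) :=
    fun j' s f c' b1 b2 b3 b4 b5 b6 => F j' s f c' b1 b2 ⟨b3.1, by omega⟩ fun ⟨p', q, r⟩ hv _ => by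
      by_cases e : p' ≤ 1
      · rcases priv (φ := φ) (j := j') (c := c') g hv e with z | ⟨rfl, rfl⟩ | ⟨rfl, z⟩ | z
        · exact Or.inl (Or.inl z)
        · have := b4 r; grind
        · have := b5 z p' e r; grind
        · exact Or.inr (Or.inr (Or.inr z))
      · by_cases l : lock φ f (p', q, r) ∧ 12 ≤ f.1
        · have := b6 _ (ve hv) (by omega) l.1 l.2; grind
        · exact Or.inr (Or.inl (by simp only [cov]; grind))
  simp only at h7 ne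
  clear F g' hc
  interval_cases p <;> simp [val] at hx
  · by_cases e : j = k + 1
    · exact main i (0, 0, 0) (11, 0, c) 0 (by omega) (by omega) (by simp [val]; omega)
        (by simp [cov, e]; omega) (by omega) (by omega)
    · exact main j (9, j, c) (16, 0, 0) 0 (by omega) (by simp [val]; omega) (by simp [val])
        (by simp [cov]) (by simp [cov]; omega) (by simp only [lock, cov, Ve]; grind)
  · exact main j (10, j, c) (16, 0, 1) 0 (by omega) (by simp [val]; omega) (by simp [val])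
      (by simp [cov]) (by simp [cov]; omega) (by simp only [lock, cov, Ve]; grind)
  · refine main i (0, 0, 0) (13, j, 0) (3 * (1 - c)) (by omega) (by omega) (by simp [val]; omega)
      (by simp [cov]) (by omega) ?_
    rintro ⟨p', q, r⟩ hv - l -
    obtain ⟨rfl, rfl, z⟩ : p' = 2 ∧ q = j ∧ (r = 0 ∨ r = 1) := by
      simp only [lock, Ve] at l hv; omega
    by_cases e : q / 2 < i
    · by_cases e' : r = c
      · simp [e']
      · exact Or.inr (Or.inr (Or.inr ⟨q / 2, e, by omega, Or.inl ⟨rfl, by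
          rcases (show c = 0 ∨ c = 1 by omega) with rfl | rfl <;> simp <;> omega⟩⟩))
    · grind
  · refine main j (8, j, 0) (14, j, 2) (2 * c) (by omega) (by simp [val]; omega)
      (by simp [val]; omega) (by simp [cov]) (by simp [cov]; omega) ?_
    rintro ⟨p', q, r⟩ hv - l -
    have hj : j < i := by grind
    obtain ⟨rfl, rfl | ⟨rfl, z⟩⟩ : q = j ∧ (p' = 5 ∨ (p' = 3 ∧ r < 2 ∧ (q = 0 → r = 0))) := by
      simp only [lock, Ve] at l hv; omega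
    · simp [cov, hj]
    · by_cases e' : r = c
      · simp [e']
      · exact Or.inr (Or.inr (Or.inr ⟨q - 1, by omega, by omega, Or.inl ⟨rfl, by simp; omega⟩⟩))
  · by_cases e : j ≤ i
    · exact main (j - 1) (8, j - 1, 0) (14, j - 1, 3) 0 (by omega) (by simp [val]; omega)
        (by simp [val]; omega) (by simp [cov]) (by simp [cov]; omega)
        (by simp only [lock, cov, Ve]; grind)
    · exact main i (0, 0, 0) (15, j, 0) 0 (by omega) (by omega) (by simp [val]; omega)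
        (by simp [cov]) (by omega) (by simp only [lock, Ve]; grind)
  · by_cases e : j < i
    · refine main i (0, 0, 0) (14, j, 0) 0 (by omega) (by omega) (by simp [val]; omega)
        (by simp [cov]) (by omega) ?_
      rintro ⟨p', q, r⟩ hv - l -
      by_cases e' : p' = 5
      · simp only [lock, Ve] at l hv; grind
      · exact Or.inr (Or.inr (Or.inr ⟨j, e, by omega, Or.inl ⟨rfl, by simp only [lock] at l ⊢; grind⟩⟩))
    · rcases a4 (by omega) (by omega) with z | z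
      · exact main i (0, 0, 0) (14, j, 0) 0 (by omega) (by omega) (by simp [val]; omega)
          (by simp [cov]) (by omega) (by simp only [lock, Ve]; grind)
      · exact main i (0, 0, 0) (14, j, 1) 0 (by omega) (by omega) (by simp [val]; omega)
          (by simp [cov]) (by omega) (by simp only [lock, Ve]; grind)
  · exact main i (0, 0, 0) (16, 0, c) 0 (by omega) (by omega) (by simp [val]; omega)
      (by simp [cov]) (by omega) (by simp only [lock, Ve]; grind)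

theorem dom (hφ : ∀ C ∈ φ, ∀ l ∈ C, l.1 < 2 * k) (i : ℕ) : ∀ a C, i ≤ k → G k (i + 1) a C →
    C (3, i + 1, (a (2 * i)).toNat) → ¬ QA φ i a →
    DW (LL k φ.length) (EE k φ) (2 * i + 3) true C := by
  have step : ∀ i a C b, i ≤ k → G k (i + 1) a C → C (3, i + 1, (a (2 * i)).toNat) →
      (i = 0 ∨ a (2 * i - 1) = b) → (∀ C', G k i a C' → (∀ v ∈ LL k φ.length, 7 ≤ v.1 → C' v) →
        ∀ c : Bool, C' (3, i, c.toNat) → DW (LL k φ.length) (EE k φ) (2 * i + 1) true C') →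
      DW (LL k φ.length) (EE k φ) (2 * i + 3) true C := fun i a C (b : Bool) hi g h hb H => by
    have b1 := b.toNat_le
    have b2 := (a (2 * i)).toNat_le
    have hu : (7, i, b.toNat + 2 * (a (2 * i)).toNat) ∈ LL k φ.length := by
      simp [mem_LL, val]; omega
    refine stepD hu (mono (C := fun v => C v ∨ 7 ≤ v.1 ∨
      cov k φ (7, i, b.toNat + 2 * (a (2 * i)).toNat) v)
      (fun v hv => Or.imp_right (nb_set hu hv (by simp)).2) (stepS fun x hx h' => ?_))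
    have g' : G k i a fun v => C v ∨ 7 ≤ v.1 ∨ cov k φ (7, i, b.toNat + 2 * (a (2 * i)).toNat) v :=
      ⟨fun j c x y => by have := g.h1 j c; simp only [cov]; grind,
      fun t x y => by have := g.h2 t; simp only [cov]; grind,
      fun j x => by have := g.h3 j; simp only [cov]; grind,
      fun v x y => by have := g.h4 v; simp only [cov]; grind⟩
    by_cases e : x.1 = 3 ∧ x.2.1 = i
    · obtain ⟨p, q, r⟩ := x
      obtain ⟨rfl, rfl⟩ := e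
      have : r = 0 ∨ r = 1 := by simp only [mem_LL, val] at hx; omega
      exact H _ ⟨fun j c a b => (g'.h1 j c a b).imp Or.inl Or.inl,
        fun t a b => (g'.h2 t a b).imp Or.inl Or.inl, fun j a => (g'.h3 j a).imp Or.inl Or.inl,
        fun v a b => Or.inl (g'.h4 v a b)⟩ (fun v _ h => Or.inl (Or.inr (Or.inl h)))
        (decide (r = 1)) (Or.inr (by rcases this with rfl | rfl <;> rfl))
    · exact cheat g' (fun v _ h => Or.inr (Or.inl h)) hi (mem_LL.1 hx) h' (by grind) e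
  induction i with
  | zero =>
    intro a C hi g h q
    refine step 0 a C false hi g h (Or.inl rfl) fun C' g' hc c _ => ?_
    simp only [QA, Md, By, not_forall, not_exists, not_and] at q
    obtain ⟨D, hD, q⟩ := q
    obtain ⟨j, hj, rfl⟩ := List.getElem_of_mem hD
    refine finG g' hc hi 0 (0, 0, 0) (12, j, 0) 0 (by omega) (by omega) (by simp [val, hj]) ?_
    rintro ⟨p, t, r⟩ hv h7
    have a1 := g'.h1 t r
    have a3 := g'.h3 t
    by_cases l : p = 2 ∧ 1 ≤ t ∧ (t - 1, decide (r = 0)) ∈ φ[j]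
    · have a4 := g'.h4 (t - 1) (by omega) (hφ _ hD _ l.2.2)
      have := q _ l.2.2
      replace hv := ve hv
      simp only [Ve] at hv
      cases e : a (t - 1) <;> grind
    · replace hv := ve hv
      simp only [Ve, cov, lock, List.getD_eq_getElem _ _ hj] at hv ⊢
      grind
  | succ i ih =>
    intro a C hi g h q
    simp only [QA, not_forall, not_exists] at q
    obtain ⟨b, q⟩ := q
    refine step (i + 1) (update a (2 * i + 1) b) C b hi ⟨g.h1, g.h2, g.h3, fun v x y => by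
      rw [update_of_ne (by omega)]; exact g.h4 v x y⟩ (by rwa [update_of_ne (by omega)])
      (Or.inr (by simp [Nat.mul_add])) fun C' g' hc c h' => ?_
    exact ih _ C' (by omega) ⟨g'.h1, g'.h2, g'.h3, fun v x y => by
      rw [update_of_ne (by omega)]; exact g'.h4 v x y⟩ (by simpa using h') (q c)

end Pool.Agent.H22.GD
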