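import Pool.Agent.H22.GD1

/-! Staller's strategy in lost positions. -/

namespace Pool.Agent.H22.GD

open Pool.Agent.H38.NP Pool.Agent.H36.PSpace Pool.Agent.H22.QB Function

variable {k : ℕ} {φ : CNF ℕ}

def gp (k : ℕ) (u : Vt) : ℕ := if u.1 ≤ 10 then u.2.1 else k + 1

open Classical in
def Big (k s g r : ℕ) (C : Vt → Prop) : Prop :=
  r ≤ ((Finset.range (2 * k + 9)).filter fun c => ¬ C (s, g, c)).card

theorem Big.step {s g r C} {D : Vt → Prop} (h : Big k s g (r + 1) C) (c0 : ℕ)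
    (e : ∀ c, D (s, g, c) → C (s, g, c) ∨ c = c0) : Big k s g r D := by
  classical
  unfold Big at *
  have := Finset.card_le_card (show ((Finset.range (2 * k + 9)).filter fun c => ¬ C (s, g, c)) ⊆
    insert c0 ((Finset.range (2 * k + 9)).filter fun c => ¬ D (s, g, c)) from fun c hc => by
      have := e c
      simp only [Finset.mem_insert, Finset.mem_filter] at hc ⊢
      tauto)
  have := Finset.card_insert_le c0 ((Finset.range (2 * k + 9)).filter fun c => ¬ D (s, g, c))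
  omega

theorem Big.ex {s g r C} (h : Big k s g (r + 1) C) : ∃ c < 2 * k + 9, ¬ C (s, g, c) := by
  obtain ⟨c, hc⟩ := Finset.card_pos.1 (lt_of_lt_of_le (Nat.succ_pos r) h)
  exact ⟨c, by simpa using hc⟩

theorem Big.mv {s g r C u} (hs : s ≤ 1) (h : Big k s g (r + 1) C)
    (e : u.1 < 7 ∨ (gp k u ≠ g ∧ g ≤ k + 1 ∧ (s = 1 → gp k u ≠ k + 1))) :
    Big k s g r fun v => C v ∨ nb (EE k φ) u v := h.step u.2.2 fun c a => a.imp_right fun a => by
  rcases e with e | e
  · rw [(nb_el e (by simp only; omega)).1 a]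
  · simp only [nb, mem_EE, ad, cov, gp] at a e
    grind

def Cv (k : ℕ) (φ : CNF ℕ) (A : Finset ℕ) (C : Vt → Prop) : Prop :=
  ∃ σ : ℕ → Vt, (∀ g ∈ A, val k φ.length (σ g) ∧ 7 ≤ (σ g).1 ∧ gp k (σ g) = g) ∧
    ∀ v, val k φ.length v → v.1 < 7 → C v ∨ ∃ g ∈ A, cov k φ (σ g) v

def Dead (k : ℕ) (φ : CNF ℕ) (s d : ℕ) (A : Finset ℕ) (C : Vt → Prop) : Prop :=
  d < A.card ∨ (d = A.card ∧ (s = 1 → k + 1 ∉ A ∧ ∀ g ∈ A, Big k 1 g (2 * d + 1) C) ∧
    ¬ Cv k φ A fun v => C v ∨ (v.1 = s ∧ v.2.1 ∈ A))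

theorem dead {s} (hs : s ≤ 1) (d : ℕ) : ∀ A C, (∀ g ∈ A, g ≤ k + 1 ∧ Big k 0 g (2 * d + 1) C) →
    Dead k φ s d A C → ¬ DW (LL k φ.length) (EE k φ) (2 * d) false C := by
  induction d with
  | zero =>
    rintro A C h (a | ⟨a, -, b⟩) w
    · obtain ⟨g, hg⟩ := Finset.card_pos.1 a
      obtain ⟨c, x, y⟩ := (h g hg).2.ex
      exact y (w _ (by have := (h g hg).1; simp [mem_LL, val]; omega))
    · exact b ⟨fun _ => (0, 0, 0), by simp [Finset.card_eq_zero.1 a.symm], fun v hv _ =>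
        Or.inl (Or.inl (w v (mem_LL.2 hv)))⟩
  | succ d ih =>
    intro A C h a w
    obtain ⟨g, hg⟩ := Finset.card_pos.1 (show 0 < A.card by simp only [Dead] at a; omega)
    obtain ⟨t, c, h1, h2, h3, h4⟩ : ∃ t c, t ≤ 1 ∧ (t, g, c) ∈ LL k φ.length ∧ ¬ C (t, g, c) ∧
        (d + 1 = A.card → t = s) := by
      have := (h g hg).1
      by_cases e : d + 1 = A.card ∧ s = 1
      · obtain ⟨z, y⟩ := (a.resolve_left (by omega)).2.1 e.2
        obtain ⟨c, x, y⟩ := (y g hg).ex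
        have : g ≠ k + 1 := fun e => z (e ▸ hg)
        exact ⟨1, c, le_rfl, by simp [mem_LL, val]; omega, y, fun _ => e.2.symm⟩
      · obtain ⟨c, x, y⟩ := (h g hg).2.ex
        exact ⟨0, c, by omega, by simp [mem_LL, val]; omega, y, by omega⟩
    have b1 := fun g' hg' => (h g' hg').2.mv (φ := φ) (u := (t, g, c)) (by omega) (Or.inl (by simp only; omega))
    rcases w _ h2 ⟨_, h2, Or.inl rfl, h3⟩ with w | ⟨u, hu, -, w⟩
    · obtain ⟨c, x, y⟩ := (b1 g hg).ex
      exact y (w _ (by have := (h g hg).1; simp [mem_LL, val]; omega))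
    by_cases e : u.1 < 7 ∨ gp k u ∉ A
    · exact ih A _ (fun g' hg' => ⟨(h g' hg').1, (b1 g' hg').mv (by omega) (e.imp_right fun e =>
        ⟨fun z => e (z ▸ hg'), (h g' hg').1, by omega⟩)⟩) (Or.inl (by simp only [Dead] at a; omega)) w
    push Not at e
    have ce := Finset.card_erase_of_mem e.2
    refine ih (A.erase (gp k u)) _ (fun g' hg' => ⟨(h g' (Finset.mem_of_mem_erase hg')).1,
      (b1 g' (Finset.mem_of_mem_erase hg')).mv (by omega) (Or.inr ⟨(Finset.ne_of_mem_erase hg').symm,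
        (h g' (Finset.mem_of_mem_erase hg')).1, by omega⟩)⟩) ?_ w
    rcases a with a | ⟨a, b, z⟩
    · exact Or.inl (by omega)
    refine Or.inr ⟨by omega, fun e1 => ⟨fun y => (b e1).1 (Finset.mem_of_mem_erase y),
      fun g' hg' => (((b e1).2 g' (Finset.mem_of_mem_erase hg')).mv (u := (t, g, c)) le_rfl
        (Or.inl (by simp only; omega))).mv le_rfl (Or.inr ⟨(Finset.ne_of_mem_erase hg').symm,
        (h g' (Finset.mem_of_mem_erase hg')).1, fun _ y => (b e1).1 (y ▸ e.2)⟩)⟩, fun ⟨σ, y1, y2⟩ =>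
      z ⟨update σ (gp k u) u, fun g' hg' => ?_, fun v hv v7 => ?_⟩⟩
    · by_cases e' : g' = gp k u
      · simp [e', mem_LL.1 hu, e.1]
      · rw [update_of_ne e']
        exact y1 g' (Finset.mem_erase.2 ⟨e', hg'⟩)
    · rcases y2 v hv v7 with (((y | y) | y) | y) | ⟨g', hg', y⟩
      · exact Or.inl (Or.inl y)
      · rw [← (nb_el (by simp only; omega) v7).1 y]
        exact Or.inl (Or.inr ⟨h4 a, hg⟩)
      · exact Or.inr ⟨_, e.2, by
          simpa using ((nb_set hu (mem_LL.2 hv) e.1).1 y).resolve_left (by omega)⟩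
      · exact Or.inl (Or.inr ⟨y.1, Finset.mem_of_mem_erase y.2⟩)
      · exact Or.inr ⟨g', Finset.mem_of_mem_erase hg', by
          rwa [update_of_ne (Finset.ne_of_mem_erase hg')]⟩

end Pool.Agent.H22.GD
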