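import Pool.Agent.H22.GD2

/-! Game domination on split graphs is PSPACE-hard. -/

namespace Pool.Agent.H22.GD

open Pool.Agent.H38.NP Pool.Agent.H36.PSpace Pool.Agent.H22.QB Function

variable {k : ℕ} {φ : CNF ℕ} {A : Finset ℕ} {ch bu : ℕ → ℕ} {C : Vt → Prop}

def bn (j b : ℕ) : Vt := if b = 2 then (4, j, 0) else (3, j, b)

structure Mn (k : ℕ) (φ : CNF ℕ) (A : Finset ℕ) (ch bu : ℕ → ℕ) (C : Vt → Prop) : Prop where
  a0 : k + 1 ∈ A
  a1 : ∀ g ∈ A, g ≤ k + 1
  c : ∀ v, val k φ.length v → v.1 < 7 →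
    (C v ↔ ∃ j ≤ k, j ∉ A ∧ (cov k φ (7, j, ch j) v ∨ v = bn j (bu j)))
  b : ∀ j ≤ k, j ∉ A → ch j < 4 ∧ bu j ≤ 2 ∧ (bu j = 2 → 1 ≤ j ∧ j - 1 ∉ A)

def Br (k : ℕ) (A : Finset ℕ) (ch bu : ℕ → ℕ) : Prop :=
  ∃ j, 1 ≤ j ∧ j ≤ k ∧ j - 1 ∉ A ∧ ¬ (j ∉ A ∧ bu j = ch (j - 1) / 2)

def Gd (k : ℕ) (φ : CNF ℕ) (A : Finset ℕ) (ch bu : ℕ → ℕ) : Prop :=
  ∃ i a, i ≤ k + 1 ∧ (∀ g ≤ k, g ∈ A ↔ g < i) ∧ QA φ (i - 1) a ∧ ∀ j, i ≤ j → j ≤ k → 1 ≤ j →
    ch j % 2 = (a (2 * j - 1)).toNat ∧ bu j = (a (2 * j - 2)).toNat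

theorem static (hφ : ∀ C ∈ φ, ∀ l ∈ C, l.1 < 2 * k) (h : Mn k φ A ch bu C)
    (st : Br k A ch bu ∨ Gd k φ A ch bu) {u s} (hu : val k φ.length u) (u8 : 8 ≤ u.1)
    (ua : gp k u ∈ A) (hs : (s = 1 ∧ u = (16, 0, 0)) ∨ (s = 0 ∧ u ≠ (16, 0, 0))) :
    ¬ Cv k φ (A.erase (gp k u)) fun v => (C v ∨ nb (EE k φ) u v) ∨
      (v.1 = s ∧ v.2.1 ∈ A.erase (gp k u)) := by
  rintro ⟨σ, y1, y2⟩
  obtain ⟨τ, t1, t2, t3, t4⟩ : ∃ τ : ℕ → Vt, τ (gp k u) = u ∧ (∀ g, g ∉ A → τ g = (7, g, ch g)) ∧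
      (∀ g ≤ k + 1, val k φ.length (τ g) ∧ 7 ≤ (τ g).1 ∧ gp k (τ g) = g) ∧
      ∀ v, val k φ.length v → v.1 < 7 → (∃ g ≤ k + 1, cov k φ (τ g) v) ∨
        (∃ j ≤ k, j ∉ A ∧ v = bn j (bu j)) ∨ (v.1 = s ∧ v.2.1 ∈ A ∧ v.2.1 ≠ gp k u) := by
    refine ⟨fun g => if g = gp k u then u else if g ∈ A then σ g else (7, g, ch g), by simp,
      fun g hg => by simp only [if_neg (show g ≠ gp k u from fun e => hg (e ▸ ua)), if_neg hg],
      fun g hg => ?_, fun v a b => ?_⟩
    · beta_reduce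
      split_ifs with e e'
      · exact ⟨hu, by omega, e.symm⟩
      · exact y1 g (Finset.mem_erase.2 ⟨e, e'⟩)
      · have : g ≠ k + 1 := fun e => e' (e ▸ h.a0)
        have := h.b g (by omega) e'
        simp [val, gp]; omega
    · rcases y2 v a b with ((y | y) | y) | ⟨g, hg, y⟩
      · obtain ⟨j, x, z, y | y⟩ := (h.c v a b).1 y
        · exact Or.inl ⟨j, by omega, by
            simpa only [if_neg (show j ≠ gp k u from fun e => z (e ▸ ua)), if_neg z] using y⟩
        · exact Or.inr (Or.inl ⟨j, x, z, y⟩)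
      · exact Or.inl ⟨_, h.a1 _ ua, by simpa using
          ((nb_set (mem_LL.2 hu) (mem_LL.2 a) (by omega)).1 y).resolve_left (by omega)⟩
      · exact Or.inr (Or.inr ⟨y.1, (Finset.mem_erase.1 y.2).2, (Finset.mem_erase.1 y.2).1⟩)
      · rw [Finset.mem_erase] at hg
        exact Or.inl ⟨g, h.a1 g hg.2, by simpa only [if_neg hg.1, if_pos hg.2] using y⟩
  clear y1 y2 σ
  have X : ∀ g ≤ k + 1, (g ≤ k ∧ 7 ≤ (τ g).1 ∧ (τ g).1 ≤ 10 ∧ (τ g).2.1 = g ∧
      ((τ g).1 = 7 → (τ g).2.2 < 4) ∧ (τ g).2.2 < 2 * k + 9) ∨ (g = k + 1 ∧ 11 ≤ (τ g).1) :=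
    fun g hg => by
      have := t3 g hg
      simp only [val, gp] at this
      split_ifs at this <;> omega
  have hf := (t3 _ le_rfl).1
  have f11 : 11 ≤ (τ (k + 1)).1 := by have := X _ le_rfl; omega
  have s1 : s ≤ 1 := by omega
  have E0 : ∀ g ≤ k + 1, ∀ c < 2 * k + 9, cov k φ (τ g) (0, g, c) ∨ (s = 0 ∧ g ≠ gp k u) :=
    fun g hg c hc => by
      rcases t4 (0, g, c) (by simp [val]; omega) (by simp) with ⟨g', a, b⟩ | ⟨j, -, -, b⟩ | b
      · have := X g' a
        obtain rfl : g' = g := by clear * - this b hg; simp only [cov] at b; grind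
        exact Or.inl b
      · clear * - b; simp only [bn] at b; grind
      · exact Or.inr ⟨b.1.symm, b.2.2⟩
  have E1 : ∀ g ≤ k, ∀ c < 2 * k + 9, cov k φ (τ g) (1, g, c) ∨
      ((τ (k + 1)).1 = 14 ∧ (τ (k + 1)).2.1 = g) ∨ s = 1 := fun g hg c hc => by
    rcases t4 (1, g, c) (by simp [val]; omega) (by simp) with ⟨g', a, b⟩ | ⟨j, -, -, b⟩ | b
    · have := X g' a
      by_cases e : g' = g
      · exact Or.inl (e ▸ b)
      · clear * - this b e hg; simp only [cov] at b; grind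
    · clear * - b; simp only [bn] at b; grind
    · exact Or.inr (Or.inr b.1.symm)
  have EL : ∀ v, val k φ.length v → 2 ≤ v.1 → v.1 < 7 → 12 ≤ (τ (k + 1)).1 →
      lock φ (τ (k + 1)) v → (∃ g ≤ k, cov k φ (τ g) v) ∨ ∃ j ≤ k, j ∉ A ∧ v = bn j (bu j) :=
    fun v a v2 c d e => by
      rcases t4 v a c with ⟨g', a, b⟩ | b | b
      · by_cases e' : g' = k + 1
        · subst e'
          clear * - b d e v2
          simp only [cov] at b; grind
        · exact Or.inl ⟨g', by omega, b⟩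
      · exact Or.inr b
      · omega
  have E2 : ∀ t ≤ 2 * k + 1, ∀ c < 2, 12 ≤ (τ (k + 1)).1 → lock φ (τ (k + 1)) (2, t, c) →
      (τ (t / 2)).1 = 7 ∧ ((t % 2 = 0 ∧ c = (τ (t / 2)).2.2 % 2) ∨
        (t % 2 = 1 ∧ c = (τ (t / 2)).2.2 / 2)) := fun t ht c hc d e => by
    rcases EL (2, t, c) (by simp [val]; omega) (by simp) (by simp) d e with ⟨g, a, b⟩ | ⟨j, -, y, b⟩
    · have := X g (by omega)
      clear * - this a b
      obtain rfl : g = t / 2 := by simp only [cov] at b; grind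
      simp only [cov] at b; grind
    · clear * - b y; simp only [bn] at b; grind
  have E3 : ∀ j ≤ k, ∀ c < 2, (j = 0 → c = 0) → 12 ≤ (τ (k + 1)).1 → lock φ (τ (k + 1)) (3, j, c) →
      (1 ≤ j ∧ (τ (j - 1)).1 = 7 ∧ (τ (j - 1)).2.2 < 4 ∧ c = 1 - (τ (j - 1)).2.2 / 2) ∨
        (j ∉ A ∧ bu j = c) := fun t ht c hc z d e => by
    rcases EL (3, t, c) (by simp [val]; omega) (by simp) (by simp) d e with ⟨g, a, b⟩ | ⟨j, -, y, b⟩
    · have := X g (by omega)
      clear * - this a b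
      obtain rfl : t = g + 1 := by simp only [cov] at b; grind
      simp only [cov] at b; grind
    · clear * - b y; simp only [bn] at b; grind
  have E4 : ∀ j ≤ k, 1 ≤ j → 12 ≤ (τ (k + 1)).1 → lock φ (τ (k + 1)) (4, j, 0) →
      j ∉ A ∧ bu j = 2 := fun t ht z d e => by
    rcases EL (4, t, 0) (by simp [val]; omega) (by simp) (by simp) d e with ⟨g, a, b⟩ | ⟨j, -, y, b⟩
    · have := X g (by omega)
      clear * - this a b
      simp only [cov] at b; grind
    · clear * - b y; simp only [bn] at b; grind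
  have E5 : ∀ j ≤ k, 12 ≤ (τ (k + 1)).1 → lock φ (τ (k + 1)) (5, j, 0) → (τ j).1 = 8 :=
    fun t ht d e => by
    rcases EL (5, t, 0) (by simp [val]; omega) (by simp) (by simp) d e with ⟨g, a, b⟩ | ⟨j, -, y, b⟩
    · have := X g (by omega)
      clear * - this a b
      simp only [cov] at b; grind
    · clear * - b y; simp only [bn] at b; grind
  have E6 : ∀ c < 2, 12 ≤ (τ (k + 1)).1 → lock φ (τ (k + 1)) (6, 0, c) →
      ∃ g ≤ k, (τ g).1 = 9 + c := fun c hc d e => by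
    rcases EL (6, 0, c) (by simp [val]; omega) (by simp) (by simp) d e with ⟨g, a, b⟩ | ⟨j, -, y, b⟩
    · have := X g (by omega)
      clear * - this a b
      exact ⟨g, a, by simp only [cov] at b; grind⟩
    · clear * - b y; simp only [bn] at b; grind
  clear EL t4
  by_cases f14 : (τ (k + 1)).1 = 14
  · obtain ⟨p, i, c, e⟩ : ∃ p i c, τ (k + 1) = (p, i, c) := ⟨_, _, _, rfl⟩
    rw [e] at hf f14 E2 E3 E4 E5
    obtain rfl : p = 14 := f14
    simp [val] at hf
    have a := E5 i hf.1 (by simp) (by simp [lock])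
    have iA : i ∈ A := by_contra fun z => by simp [t2 i z] at a
    obtain z | rfl | rfl : c < 2 ∨ c = 2 ∨ c = 3 := by omega
    · have := E2 (2 * i) (by omega) c z (by simp) (by simp [lock])
      rw [show 2 * i / 2 = i by omega] at this
      omega
    · have x := E3 i hf.1 0 (by omega) (by simp) (by simp) (by simp [lock])
      have y := fun z => E3 i hf.1 1 (by omega) z (by simp) (by simp [lock])
      clear * - x y iA
      grind
    · have := E4 (i + 1) (by omega) (by omega) (by simp) (by simp [lock])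
      exact ((h.b (i + 1) (by omega) this.1).2.2 this.2).2 iA
  have uf : τ (k + 1) = u := by
    by_contra ne
    have : gp k u ≠ k + 1 := fun e => ne (e ▸ t1)
    have a := X _ (h.a1 _ ua)
    have b := E0 _ (h.a1 _ ua) u.2.2
    have c := E1 (gp k u) (by omega) u.2.2
    have d := E1 (gp k u) (by omega) 0 (by omega)
    rw [t1] at a b c d
    have s0 : s = 0 := by
      rcases hs with ⟨-, rfl⟩ | hs
      · simp [gp] at this
      · exact hs.1
    generalize gp k u = g at *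
    clear * - a b c d s0 f14 u8 this
    simp only [cov] at b c d
    obtain e | e | e : u.1 = 8 ∨ u.1 = 9 ∨ u.1 = 10 := by omega
    all_goals (simp [e, f14, s0] at b c d <;> omega)
  have gu : gp k u = k + 1 := by rw [← uf]; exact (t3 _ le_rfl).2.2
  have E0' := E0 _ le_rfl
  rw [uf] at f11 f14 E0' E1 E2 E3 E4 E5 E6
  obtain ⟨p, i, c⟩ := u
  have : p ≤ 16 := by simp only [val] at hu; omega
  simp only at f11 f14
  interval_cases p <;> simp [val] at hu
  · have := E0' c hu.2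
    simp [cov, gu] at this
  · have E3' := fun j a c b (z : 1 ≤ j) =>
      E3 j a c b (by omega) (by simp) (Or.inl ⟨rfl, z, Or.inl rfl⟩)
    rcases st with ⟨j, a, b, x, y⟩ | ⟨n, a, b, x, y, z⟩
    · have q := h.b (j - 1) (by omega) x
      have := E3' j b (ch (j - 1) / 2) (by omega) a
      rw [t2 _ x] at this
      exact this.elim (fun z => by simp only at z; omega) y
    by_cases e : 2 ≤ n
    · have q := (x (n - 1) (by omega)).2 (by omega)
      have := (E3' (n - 1) (by omega) 0 (by omega) (by omega)).resolve_right fun z => z.1 q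
      have := (E3' (n - 1) (by omega) 1 (by omega) (by omega)).resolve_right fun z => z.1 q
      omega
    rw [show n - 1 = 0 by omega] at y
    obtain ⟨⟨v, r⟩, l1, l2⟩ := y _ (List.getElem_mem hu.1)
    have := hφ _ (List.getElem_mem hu.1) _ l1
    have w := E2 (v + 1) (by omega) (!r).toNat (by cases r <;> simp) (by simp) (Or.inl ⟨rfl,
      by simp, Or.inr ⟨rfl, by rw [List.getD_eq_getElem _ _ hu.1]; cases r <;> simpa using l1⟩⟩)
    simp only at l2 this
    rcases w with ⟨w0, ⟨w1, w2⟩ | ⟨w1, w2⟩⟩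
    · have q := z ((v + 1) / 2) (by omega) (by omega) (by omega)
      rw [t2 _ (fun e => by have := (x _ (by omega)).1 e; omega)] at w2
      rw [show 2 * ((v + 1) / 2) - 1 = v by omega, l2] at q
      cases r <;> simp at q w2 <;> omega
    · have q := (z ((v + 1) / 2 + 1) (by omega) (by omega) (by omega)).2
      rw [show 2 * ((v + 1) / 2 + 1) - 2 = v by omega, l2] at q
      have := E3' ((v + 1) / 2 + 1) (by omega) (!r).toNat (by cases r <;> simp) (by simp)
      rw [Nat.add_sub_cancel] at this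
      cases r <;> simp at q w2 this <;> omega
  · have := E2 i hu.1 0 (by omega) (by simp) (by simp [lock])
    have := E2 i hu.1 1 (by omega) (by simp) (by simp [lock])
    omega
  · exact absurd rfl f14
  · have a := E4 i hu.2.1 hu.1 (by simp) (by simp [lock])
    have b := ((h.b i hu.2.1 a.1).2.2 a.2).2
    have := h.b (i - 1) (by omega) b
    have := E3 i hu.2.1 (ch (i - 1) / 2) (by omega) (by omega) (by simp) (by simp [lock])
    rw [t2 _ b] at this
    simp only at this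
    omega
  · obtain ⟨g, a, b⟩ := E6 c (by omega) (by simp) (by simp [lock])
    have := X g (by omega)
    have x := E0 g (by omega) (τ g).2.2 (by omega)
    have y := E1 g a (τ g).2.2 (by omega)
    clear * - x y this a b hs hu
    simp only [cov] at x y
    grind

end Pool.Agent.H22.GD
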