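import Pool.Agent.H22.GD3

/-! Game domination on split graphs is PSPACE-hard. -/

namespace Pool.Agent.H22.GD

open Pool.Agent.H38.NP Pool.Agent.H36.PSpace Pool.Agent.H22.QB Function

variable {k : ℕ} {φ : CNF ℕ} {A : Finset ℕ} {ch bu : ℕ → ℕ} {C : Vt → Prop}

theorem Mn.big (h : Mn k φ A ch bu C) {s g r} (hg : g ∈ A) (hs : s = 0 ∨ (s = 1 ∧ g ≠ k + 1))
    (hr : r ≤ 2 * k + 9) : Big k s g r C := by
  have := h.a1 g hg
  have z : ∀ c < 2 * k + 9, ¬ C (s, g, c) := fun c hc e => by
    have v : val k φ.length (s, g, c) := by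
      rcases hs with rfl | ⟨rfl, hs⟩ <;> simp [val] <;> omega
    have s7 : s < 7 := by omega
    obtain ⟨j, -, b, e⟩ := (h.c (s, g, c) v s7).1 e
    have : j ≠ g := fun e => b (e ▸ hg)
    clear * - this e hs
    unfold bn at e
    rcases hs with rfl | ⟨rfl, hs⟩ <;> split_ifs at e <;> simp [cov] at e <;> omega
  refine hr.trans ((Finset.card_range _).ge.trans (Finset.card_le_card fun c hc => ?_))
  simpa using ⟨Finset.mem_range.1 hc, z c (Finset.mem_range.1 hc)⟩

theorem Mn.next (h : Mn k φ A ch bu C) {j c b} (hj : j ≤ k) (ja : j ∈ A) (hc : c < 4) (hb : b ≤ 2)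
    (h2 : b = 2 → 1 ≤ j ∧ j - 1 ∉ A) : Mn k φ (A.erase j) (update ch j c) (update bu j b)
      fun v => (C v ∨ nb (EE k φ) (7, j, c) v) ∨ nb (EE k φ) (bn j b) v := by
  refine ⟨Finset.mem_erase.2 ⟨by omega, h.a0⟩, fun g hg => h.a1 g (Finset.mem_of_mem_erase hg),
    fun v a b' => ?_, fun i hi a => ?_⟩
  · rw [nb_set (by simp [mem_LL, val]; omega) (mem_LL.2 a) (by simp),
      nb_el (by unfold bn; split_ifs <;> simp) b', h.c v a b']
    constructor
    · rintro ((⟨i, x, y, z⟩ | z | z) | z)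
      · have : i ≠ j := fun e => y (e ▸ ja)
        exact ⟨i, x, by simp [y], by rwa [update_of_ne this, update_of_ne this]⟩
      · omega
      · exact ⟨j, hj, by simp, by simp [z]⟩
      · exact ⟨j, hj, by simp, by simp [z]⟩
    · rintro ⟨i, x, y, z⟩
      by_cases e : i = j
      · subst e
        simp only [update_self] at z
        exact z.elim (fun z => Or.inl (Or.inr (Or.inr z))) fun z => Or.inr z.symm
      · rw [update_of_ne e, update_of_ne e] at z
        exact Or.inl (Or.inl ⟨i, x, by simpa [e] using y, z⟩)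
  · by_cases e : i = j
    · subst e
      simp only [update_self]
      exact ⟨hc, hb, fun e => ⟨(h2 e).1, fun z => (h2 e).2 (Finset.mem_of_mem_erase z)⟩⟩
    · have := h.b i hi (by simpa [e] using a)
      rw [update_of_ne e, update_of_ne e]
      exact ⟨this.1, this.2.1, fun e => ⟨(this.2.2 e).1, fun z =>
        (this.2.2 e).2 (Finset.mem_of_mem_erase z)⟩⟩

theorem stal (hφ : ∀ C ∈ φ, ∀ l ∈ C, l.1 < 2 * k) (d : ℕ) : ∀ A ch bu C, A.card = d + 1 →
    Mn k φ A ch bu C → Br k A ch bu ∨ Gd k φ A ch bu →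
    ¬ DW (LL k φ.length) (EE k φ) (2 * d + 1) true C := by
  induction d using Nat.strong_induction_on with
  | _ d ih =>
  intro A ch bu C ca h st w
  have dk : d + 1 ≤ k + 2 := by
    rw [← ca, ← Finset.card_range (k + 2)]
    exact Finset.card_le_card fun g hg => Finset.mem_range.2 (by have := h.a1 g hg; omega)
  have bg := fun g hg => h.big (s := 0) (g := g) (r := 2 * d + 1 + 1) hg (Or.inl rfl) (by omega)
  rcases w with w | ⟨u, hu, -, w⟩
  · obtain ⟨c, x, y⟩ := (bg _ h.a0).ex
    exact y (w _ (by simp [mem_LL, val]; omega))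
  by_cases e : u.1 < 7 ∨ gp k u ∉ A
  · exact dead (s := 0) (by omega) d A _ (fun g hg => ⟨h.a1 g hg, (bg g hg).mv (by omega)
      (e.imp_right fun e => ⟨fun z => e (z ▸ hg), h.a1 g hg, by omega⟩)⟩) (Or.inl (by omega)) w
  push Not at e
  have ce := Finset.card_erase_of_mem e.2
  by_cases u8 : 8 ≤ u.1
  · obtain ⟨s, hs⟩ : ∃ s, (s = 1 ∧ u = (16, 0, 0)) ∨ (s = 0 ∧ u ≠ (16, 0, 0)) := by
      by_cases z : u = (16, 0, 0)
      exacts [⟨1, Or.inl ⟨rfl, z⟩⟩, ⟨0, Or.inr ⟨rfl, z⟩⟩]
    refine dead (s := s) (by omega) d (A.erase (gp k u)) _ (fun g hg => ⟨h.a1 g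
      (Finset.mem_of_mem_erase hg), (bg g (Finset.mem_of_mem_erase hg)).mv (by omega) (Or.inr
        ⟨(Finset.ne_of_mem_erase hg).symm, h.a1 g (Finset.mem_of_mem_erase hg), by omega⟩)⟩)
      (Or.inr ⟨by omega, fun s1 => ?_, static hφ h st (mem_LL.1 hu) u8 e.2 hs⟩) w
    obtain rfl : u = (16, 0, 0) := (hs.resolve_right (by omega)).2
    refine ⟨by simp [gp], fun g hg => (h.big (s := 1) (r := 2 * d + 1 + 1)
      (Finset.mem_of_mem_erase hg) (Or.inr ⟨rfl, by
        simpa [gp] using Finset.ne_of_mem_erase hg⟩) (by omega)).step 0 fun c a =>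
      Or.inl (a.resolve_right fun a => by simp [nb, mem_EE, ad, cov] at a)⟩
  obtain ⟨p, j, c⟩ := u
  obtain rfl : p = 7 := by simp only at e u8; omega
  have hj : j ≤ k ∧ c < 4 := by simpa [mem_LL, val] using hu
  have ja : j ∈ A := by simpa [gp] using e.2
  obtain ⟨d, rfl⟩ : ∃ d', d = d' + 1 := ⟨d - 1, by
    have := Finset.card_pos.2 ⟨k + 1, Finset.mem_erase.2 ⟨show k + 1 ≠ j by omega, h.a0⟩⟩
    rw [Finset.card_erase_of_mem ja] at this
    omega⟩
  have go : ∀ b ≤ 2, (b = 2 ↔ 1 ≤ j ∧ j - 1 ∉ A) → (j = 0 → b = 0) →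
      Br k (A.erase j) (update ch j c) (update bu j b) ∨
        Gd k φ (A.erase j) (update ch j c) (update bu j b) → False := fun b hb h2 h0 st => by
    have v : val k φ.length (bn j b) := by unfold bn; split_ifs <;> simp [val] <;> omega
    refine ih d (by omega) _ _ _ _ (by rw [Finset.card_erase_of_mem ja]; omega)
      (h.next hj.1 ja hj.2 hb h2.1) st (w _ (mem_LL.2 v) ⟨_, mem_LL.2 v, Or.inl rfl, ?_⟩)
    have v7 : (bn j b).1 < 7 := by unfold bn; split_ifs <;> simp
    beta_reduce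
    rw [nb_set hu (mem_LL.2 v) (by simp), h.c _ v v7]
    rintro (⟨i, x, y, z⟩ | z | z)
    · have ij : i ≠ j := fun e => y (e ▸ ja)
      have : j = i + 1 → b = 2 := fun e => h2.2 ⟨by omega, by simpa [e] using y⟩
      clear * - z this ij
      unfold bn at z
      split_ifs at z <;> simp [cov] at z <;> omega
    · omega
    · clear * - z
      unfold bn at z
      split_ifs at z <;> simp [cov] at z <;> omega
  have br : ∀ i, 1 ≤ i → i ≤ k → i - 1 ∉ A → ¬ (i ∉ A ∧ bu i = ch (i - 1) / 2) → False :=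
    fun i x y z t => by
      have := h.b (i - 1) (by omega) z
      have ne : i - 1 ≠ j := fun e => z (e ▸ ja)
      refine go (if 1 ≤ j ∧ j - 1 ∉ A then 2 else 0) (by split_ifs <;> omega)
        (by split_ifs with e <;> simp [e]) (by rintro rfl; simp)
        (Or.inl ⟨i, x, y, by simp [z], ?_⟩)
      rw [update_of_ne ne]
      by_cases e : i = j
      · subst e
        simp [x, z]; omega
      · simpa [e] using t
  rcases st with ⟨i, x, y, z, t⟩ | ⟨i, a, x, y, z, t⟩
  · exact br i x y z t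
  have ji := (y j hj.1).1 ja
  have j1 : ¬ (1 ≤ j ∧ j - 1 ∉ A) := fun e => e.2 ((y _ (by omega)).2 (by omega))
  by_cases e' : j + 1 < i
  · exact go 0 (by omega) (by simp [j1]) (by simp) (Or.inl ⟨j + 1, by omega, by omega, by simp,
      fun e => e.1 (Finset.mem_erase.2 ⟨by omega, (y _ (by omega)).2 e'⟩)⟩)
  obtain rfl : i = j + 1 := by omega
  have mA : ∀ g ≤ k, g ∈ A.erase j ↔ g < j := fun g hg => by
    rw [Finset.mem_erase, y g hg]; omega
  rcases j with _ | j
  · exact go 0 (by omega) (by simp) (by simp) (Or.inr ⟨0, a, by omega, mA, z, fun i _ b c => by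
      rw [update_of_ne (by omega), update_of_ne (by omega)]; exact t i c b c⟩)
  obtain ⟨r, z⟩ := z (decide (c % 2 = 1))
  have := r.toNat_le
  refine go r.toNat (by omega) ⟨by omega, fun e => (j1 e).elim⟩ (by omega)
    (Or.inr ⟨j + 1, _, by omega, mA, z, fun i p q _ => ?_⟩)
  by_cases e : i = j + 1
  · subst e
    rw [update_self, update_self, show 2 * (j + 1) - 1 = 2 * j + 1 by omega,
      show 2 * (j + 1) - 2 = 2 * j by omega, update_self, update_of_ne (by omega), update_self]
    rcases Nat.mod_two_eq_zero_or_one c with e | e <;> simp [e]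
  · rw [update_of_ne e, update_of_ne e, update_of_ne (by omega), update_of_ne (by omega),
      update_of_ne (by omega), update_of_ne (by omega)]
    exact t i (by omega) q (by omega)

theorem gd_psh : PSH Split GameDom := by
  have a : PT fun p : ℕ × ℕ × Vt => decide (val p.1 p.2.1 p.2.2) := by
    simp only [val, imp_iff_not_or]; fun_prop
  have b : PT fun p : ℕ × ℕ => LL p.1 p.2 := PT.filter (a.comp
    (g := fun q : (ℕ × ℕ) × Vt => (q.1.1, q.1.2, q.2)) (by fun_prop)) (by fun_prop)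
  have c : PT fun p : (ℕ × CNF ℕ) × Vt × Vt => decide (ad p.1.1 p.1.2 p.2.1 p.2.2) := by
    unfold ad cov lock; fun_prop
  have b' : PT fun p : ℕ × CNF ℕ => LL p.1 p.2.length :=
    b.comp (g := fun p : ℕ × CNF ℕ => (p.1, p.2.length)) (by fun_prop)
  refine tq_psh.compl.reduce (fun p => (LL p.1 p.2.length, EE p.1 p.2, 2 * p.1 + 3))
    (PT.mk b' (PT.mk (PT.filter c (PT.product b' b')) (by fun_prop))) fun ⟨k, φ⟩ hφ => ⟨⟨
      (List.nodup_range.product (List.nodup_range.product List.nodup_range)).filter _,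
      fun e he => ⟨(mem_EE.1 he).1, (mem_EE.1 he).2.1, (mem_EE.1 he).2.2.1⟩, fun v => 7 ≤ v.1,
      fun u hu v hv a b => (nb_set hu hv a).2 (Or.inl b), fun e he => Or.inl (mem_EE.1 he).2.2.2.1⟩,
      fun q => ?_, fun w q => ?_⟩
  · exact mono (C := fun v => k < v.2.1 ∧ v.1 = 3) (fun v hv h => by
      have := ve (mem_LL.1 hv); simp only [Ve] at this; omega) (dom hφ k _ _ le_rfl
      ⟨by omega, by omega, fun j a => by simp; omega, by omega⟩ (by simp) q)
  · exact stal hφ (k + 1) (Finset.range (k + 2)) id id _ (by simp) ⟨by simp, by simp; omega,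
      fun v _ _ => by simp; omega, fun j a b => by simp at b; omega⟩
      (Or.inr ⟨k + 1, _, le_rfl, by simp; omega, q, by omega⟩) w

end Pool.Agent.H22.GD
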