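import Pool.Agent.H36.PSpaceDefs

namespace Pool.Agent.H22.GD

/-- vertices are named by triples of numbers -/
abbrev Vt := ℕ × ℕ × ℕ

/-- `v` lies in the closed neighbourhood of `u` -/
def nb (E : List (Vt × Vt)) (u v : Vt) : Prop := u = v ∨ (u, v) ∈ E ∨ (v, u) ∈ E

/-- With `C` the set of dominated vertices, Dominator can force the domination game to end within
the given number of moves; the flag says that Dominator is to move. -/
def DW (L : List Vt) (E : List (Vt × Vt)) : ℕ → Bool → (Vt → Prop) → Prop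
  | 0, _, C => ∀ v ∈ L, C v
  | b + 1, true, C => (∀ v ∈ L, C v) ∨
      ∃ u ∈ L, (∃ v ∈ L, nb E u v ∧ ¬ C v) ∧ DW L E b false fun v => C v ∨ nb E u v
  | b + 1, false, C =>
      ∀ u ∈ L, (∃ v ∈ L, nb E u v ∧ ¬ C v) → DW L E b true fun v => C v ∨ nb E u v

/-- input: vertices, edges, bound -/
abbrev Inp := List Vt × List (Vt × Vt) × ℕ

/-- the game domination number is at most the bound -/
def GameDom (I : Inp) : Prop := DW I.1 I.2.1 I.2.2 true fun _ => False

/-- a simple graph whose vertices split into a clique and an independent set -/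
def Split (I : Inp) : Prop :=
  I.1.Nodup ∧ (∀ e ∈ I.2.1, e.1 ∈ I.1 ∧ e.2 ∈ I.1 ∧ e.1 ≠ e.2) ∧ ∃ K : Vt → Prop,
    (∀ u ∈ I.1, ∀ v ∈ I.1, K u → K v → nb I.2.1 u v) ∧ ∀ e ∈ I.2.1, K e.1 ∨ K e.2

end Pool.Agent.H22.GD
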