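import Pool.Agent.H22.Claw1

/-! A generic reduction to `H`-free contraction. -/

namespace Pool.Agent.H22.CT

open Pool.Agent.H38.NP Pool.Agent.H36.Par SimpleGraph Function

def OK {m : ℕ} (H : SimpleGraph (Fin m)) (u : Fin m) (T : Fin m → Prop) (ξ : Prop) : Prop :=
  ∀ (ρ : Fin m → ℕ) (p : Fin m → Fin m) (s : Fin m → ℕ × ℕ) (inc : Fin m → ℕ × ℕ → Prop),
    (∀ i, ρ i = 0 ∨ ρ i = 1 ∨ ρ i = 2) → (∀ i, ρ i = 2 → p i ≠ u) →
    (∀ i j, i ≠ j → ρ i = 0 → ρ j ≠ 0) →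
    (∀ i j, i ≠ j → ρ i = 2 → ρ j = 2 → s i = s j → p i ≠ p j) →
    (∀ i j, ρ i = 0 → ρ j = 1 → H.Adj i j) →
    (∀ i j, ρ i = 0 → ρ j = 2 → (H.Adj i j ↔ H.Adj u (p j) ∨ T (p j))) →
    (∀ i j, i ≠ j → ρ i = 1 → ρ j = 1 → (H.Adj i j ↔ ξ)) →
    (∀ i j, ρ i = 1 → ρ j = 2 → (H.Adj i j ↔ T (p j) ∧ inc i (s j))) →
    (∀ i j, i ≠ j → ρ i = 2 → ρ j = 2 → (H.Adj i j ↔ s i = s j ∧ H.Adj (p i) (p j))) → False

def L4 (m u : ℕ) (x : GK) : List T3 :=
  (0, 0, 0) :: ((List.range x.1).map (fun v => (1, v, 0)) ++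
    (((List.range m).filter fun p => !decide (p = u)).map (· + 2)).product
      ((List.range x.1).product (List.range (2 * x.2.2 + 1))))

theorem mem_L4 {m u x} {a : T3} : a ∈ L4 m u x ↔ (a.1 = 0 ∧ a.2.1 = 0 ∧ a.2.2 = 0) ∨
    (a.1 = 1 ∧ a.2.1 < x.1 ∧ a.2.2 = 0) ∨
    (2 ≤ a.1 ∧ a.1 < m + 2 ∧ a.1 ≠ u + 2 ∧ a.2.1 < x.1 ∧ a.2.2 < 2 * x.2.2 + 1) := by
  obtain ⟨t, v, j⟩ := a
  simp only [L4, List.mem_cons, List.mem_append, List.mem_map, List.mem_range, Prod.mk.injEq,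
    List.pair_mem_product, List.mem_filter, Bool.not_eq_true', decide_eq_false_iff_not]
  constructor
  · rintro (h | ⟨a, h, rfl, rfl, rfl⟩ | ⟨⟨a, h, rfl⟩, h'⟩) <;> omega
  · rintro (h | ⟨rfl, h, rfl⟩ | h)
    · exact Or.inl h
    · exact Or.inr (Or.inl ⟨v, h, rfl, rfl, rfl⟩)
    · exact Or.inr (Or.inr ⟨⟨t - 2, by omega, by omega⟩, by omega⟩)

def r4 (Lh : Ed) (Tl : List ℕ) (ξ : Bool) (u : ℕ) (x : GK) (a b : T3) : Bool :=
  (decide (a.1 = 0) && decide (b.1 = 1)) ||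
  (decide (a.1 = 0) && decide (2 ≤ b.1) && decide ((u, b.1 - 2) ∈ Lh)) ||
  (decide (a.1 = 1) && decide (b.1 = 1) && ξ) ||
  (decide (a.1 = 1) && decide (2 ≤ b.1) && decide (b.1 - 2 ∈ Tl) && cov x a.2.1 b.2.1) ||
  (decide (2 ≤ a.1) && decide (2 ≤ b.1) && decide (a.2 = b.2) && decide ((a.1 - 2, b.1 - 2) ∈ Lh))

def R4 (Lh : Ed) (Tl : List ℕ) (ξ : Bool) (u : ℕ) (x : GK) (a b : T3) : Prop :=
  (a.1 = 0 ∧ b.1 = 1) ∨ (a.1 = 0 ∧ 2 ≤ b.1 ∧ (u, b.1 - 2) ∈ Lh) ∨ (a.1 = 1 ∧ b.1 = 1 ∧ ξ = true) ∨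
  (a.1 = 1 ∧ 2 ≤ b.1 ∧ b.1 - 2 ∈ Tl ∧ cov x a.2.1 b.2.1 = true) ∨
  (2 ≤ a.1 ∧ 2 ≤ b.1 ∧ a.2 = b.2 ∧ (a.1 - 2, b.1 - 2) ∈ Lh)

theorem TA4 {Lh Tl ξ u x} {a b : T3} :
    TA (r4 Lh Tl ξ u x) a b ↔ a ≠ b ∧ (R4 Lh Tl ξ u x a b ∨ R4 Lh Tl ξ u x b a) := by
  simp only [TA, r4, R4, Bool.or_eq_true, Bool.and_eq_true, decide_eq_true_eq, and_assoc, or_assoc]

section
variable {Lh : Ed} {Tl : List ℕ} {ξ : Bool} {u : ℕ} {x : GK} {a b : T3}

theorem R01 (h : a.1 = 0) (h' : b.1 = 1) : TA (r4 Lh Tl ξ u x) a b :=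
  TA4.2 ⟨fun e => by rw [e] at h; omega, Or.inl (Or.inl ⟨h, h'⟩)⟩

theorem R02 (h : a.1 = 0) (h' : 2 ≤ b.1) : TA (r4 Lh Tl ξ u x) a b ↔ (u, b.1 - 2) ∈ Lh := by
  have : a ≠ b := fun e => by rw [e] at h; omega
  have : b.1 ≠ 0 := by omega
  have : b.1 ≠ 1 := by omega
  simp [TA4, R4, *]

theorem R11 (h : a.1 = 1) (h' : b.1 = 1) (e : a ≠ b) : TA (r4 Lh Tl ξ u x) a b ↔ ξ = true := by
  simp [TA4, R4, *]

theorem R12 (h : a.1 = 1) (h' : 2 ≤ b.1) :
    TA (r4 Lh Tl ξ u x) a b ↔ b.1 - 2 ∈ Tl ∧ cov x a.2.1 b.2.1 = true := by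
  have : a ≠ b := fun e => by rw [e] at h; omega
  have : b.1 ≠ 0 := by omega
  have : b.1 ≠ 1 := by omega
  simp [TA4, R4, *]

theorem R22 (h : 2 ≤ a.1) (h' : 2 ≤ b.1) (e : a ≠ b) : TA (r4 Lh Tl ξ u x) a b ↔
    a.2 = b.2 ∧ ((a.1 - 2, b.1 - 2) ∈ Lh ∨ (b.1 - 2, a.1 - 2) ∈ Lh) := by
  have : b.1 ≠ 0 := by omega
  have : b.1 ≠ 1 := by omega
  have : a.1 ≠ 0 := by omega
  have : a.1 ≠ 1 := by omega
  simp only [TA4, R4, ne_eq, not_false_eq_true, false_and, false_or, true_and, and_false, *]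
  rw [eq_comm (a := b.2), and_or_left]

end

def red4 (m : ℕ) (Lh : Ed) (Tl : List ℕ) (ξ : Bool) (u : ℕ) (x : GK) : GK :=
  ((dd (L4 m u x)).length, tgE (dd (L4 m u x)) (r4 Lh Tl ξ u x) (0, 0, 0), x.2.2)

theorem red4_iff {m : ℕ} (H : SimpleGraph (Fin m)) (u : Fin m) (T : Fin m → Prop) (ξ : Bool)
    (Lh : Ed) (Tl : List ℕ) (hL : ∀ i j : Fin m, (i.val, j.val) ∈ Lh ↔ H.Adj i j)
    (hT : ∀ i : Fin m, i.val ∈ Tl ↔ T i) (ok : OK H u T (ξ = true)) (x : GK) :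
    DomSet x ↔ Con₁ H (red4 m Lh Tl ξ u x) := by
  rw [red4, tg_bridge1 (L4 m u x) (r4 Lh Tl ξ u x) (0, 0, 0) x.2.2 u.pos H
    (fun i j => decide ((i, j) ∈ Lh)) (fun i j _ => by simp [hL]), dom_iff]
  set ad : T3 → T3 → Prop := fun a b => a ∈ L4 m u x ∧ b ∈ L4 m u x ∧ TA (r4 Lh Tl ξ u x) a b
    with had
  have hsy : ∀ a b, ad a b → ad b a := fun a b h => ⟨h.2.1, h.1, h.2.2.symm⟩
  have hz : ((0, 0, 0) : T3) ∈ L4 m u x := mem_L4.2 (by simp)
  have z0 : ∀ a ∈ L4 m u x, a.1 = 0 → a = (0, 0, 0) := fun a ha h => by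
    have := mem_L4.1 ha
    exact Prod.ext h (Prod.ext (by simp; omega) (by simp; omega))
  constructor
  · rintro ⟨S, h1, h2, h3⟩
    classical
    set S' : List T3 := S.toList.map fun u => (1, u, 0) with hS'
    have hS : ∀ s ∈ S', s.1 = 1 ∧ s ∈ L4 m u x := fun s hs => by
      obtain ⟨v, hv, rfl⟩ := List.mem_map.1 hs
      have := h2 v (Finset.mem_toList.1 hv)
      exact ⟨rfl, mem_L4.2 (by simp; omega)⟩
    refine ⟨S'.map fun s => ((0, 0, 0), s), ?_, by simpa [hS'] using h1, ?_⟩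
    · intro p hp
      obtain ⟨s, hs, rfl⟩ := List.mem_map.1 hp
      exact ⟨hz, (hS s hs).2, R01 rfl (hS s hs).1⟩
    · rintro ⟨f, hd, hf⟩
      set F0 := S'.map fun s => (((0, 0, 0) : T3), s) with hF0
      let W : T3 → Prop := fun a => a = (0, 0, 0) ∨ a ∈ S'
      let ρ : Fin m → ℕ := fun i => if W (f i) then 0 else min (f i).1 2
      let p : Fin m → Fin m := fun i => ⟨((f i).1 - 2) % m, Nat.mod_lt _ u.pos⟩
      have hd' : ∀ i : Fin m, f i ∈ L4 m u x := fun i => hd i i.2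
      have hf' : ∀ i j : Fin m, i ≠ j → ¬ E F0 (f i) (f j) ∧ (QA ad F0 (f i) (f j) ↔ H.Adj i j) :=
        fun i j h => by
          have := hf i i.2 j j.2 fun e => h (Fin.ext e)
          rwa [decide_eq_true_eq, hL] at this
      have r0 : ∀ i, ρ i = 0 → W (f i) := fun i h => by
        by_contra e
        simp only [ρ, e, if_false] at h
        exact e (Or.inl (z0 _ (hd' i) (by omega)))
      have r1 : ∀ i, ρ i = 1 → ¬ W (f i) ∧ (f i).1 = 1 := fun i h => by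
        simp only [ρ] at h; split_ifs at h with e
        exact ⟨e, by omega⟩
      have r2 : ∀ i, ρ i = 2 → ¬ W (f i) ∧ 2 ≤ (f i).1 ∧ (p i).val = (f i).1 - 2 ∧
          (f i).1 ≠ u + 2 ∧ (f i).2.1 < x.1 := fun i h => by
        have := mem_L4.1 (hd' i)
        simp only [ρ] at h; split_ifs at h with e
        exact ⟨e, by omega, Nat.mod_eq_of_lt (by omega), by omega, by omega⟩
      have sg : ∀ a, ¬ W a → ¬ Tch F0 a := by
        rintro a h ⟨y, h' | h'⟩ <;> obtain ⟨s, hs, e⟩ := List.mem_map.1 h'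
        · exact h (Or.inl (Prod.mk.inj e).1.symm)
        · exact h (Or.inr ((Prod.mk.inj e).2 ▸ hs))
      have qs : ∀ i j : Fin m, i ≠ j → ¬ W (f i) → ¬ W (f j) →
          f i ≠ f j ∧ (H.Adj i j ↔ TA (r4 Lh Tl ξ u x) (f i) (f j)) := fun i j h a b => by
        refine ⟨fun e => (hf' i j h).1 (e ▸ E.refl _ _), ?_⟩
        rw [← (hf' i j h).2, QA_single (sg _ a) (sg _ b)]
        exact ⟨fun h => h.2.2, fun h => ⟨hd' i, hd' j, h⟩⟩
      refine ok ρ p (fun i => (f i).2) (fun i s => cov x (f i).2.1 s.1 = true) (fun i => ?_)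
        (fun i h e => ?_) (fun i j h a b => ?_) (fun i j h a b e e' => ?_) (fun i j a b => ?_)
        (fun i j a b => ?_) (fun i j h a b => ?_) (fun i j a b => ?_) (fun i j h a b => ?_)
      · simp only [ρ]; split_ifs <;> omega
      · have := r2 i h
        have := congrArg Fin.val e
        omega
      · exact (hf' i j h).1 (star_E' _ _ (r0 i a) (r0 j b))
      · have h4 := r2 i a
        have h5 := r2 j b
        have := congrArg Fin.val e'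
        exact (qs i j h h4.1 h5.1).1 (Prod.ext (by omega) e)
      · have h : i ≠ j := fun e => by rw [e] at a; omega
        exact (hf' i j h).2.1 ⟨(0, 0, 0), f j, star_E' _ _ (r0 i a) (Or.inl rfl), E.refl _ _, hz,
          hd' j, R01 rfl (r1 j b).2⟩
      · have h : i ≠ j := fun e => by rw [e] at a; omega
        have h5 := r2 j b
        rw [← (hf' i j h).2, QA_single' (sg _ h5.1), ← hL, ← hT, h5.2.2.1]
        constructor
        · rintro ⟨w, e, hw⟩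
          rcases (star_E _ _ e).elim (fun e => e ▸ r0 i a) fun h => h.2 with rfl | h6
          · exact Or.inl ((R02 rfl h5.2.1).1 hw.2.2)
          · exact Or.inr ((R12 (hS _ h6).1 h5.2.1).1 hw.2.2).1
        · rintro (h6 | h6)
          · exact ⟨(0, 0, 0), star_E' _ _ (r0 i a) (Or.inl rfl), hz, hd' j,
              (R02 rfl h5.2.1).2 h6⟩
          · obtain ⟨v, hv, hc⟩ := h3 _ h5.2.2.2.2
            have hm : ((1, v, 0) : T3) ∈ S' := List.mem_map.2 ⟨v, Finset.mem_toList.2 hv, rfl⟩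
            exact ⟨(1, v, 0), star_E' _ _ (r0 i a) (Or.inr hm), (hS _ hm).2, hd' j,
              (R12 rfl h5.2.1).2 ⟨h6, hc⟩⟩
      · have := qs i j h (r1 i a).1 (r1 j b).1
        rw [this.2, R11 (r1 i a).2 (r1 j b).2 this.1]
      · have h : i ≠ j := fun e => by rw [e] at a; omega
        rw [(qs i j h (r1 i a).1 (r2 j b).1).2, R12 (r1 i a).2 (r2 j b).2.1, ← hT, (r2 j b).2.2.1]
      · have := qs i j h (r2 i a).1 (r2 j b).1
        rw [this.2, R22 (r2 i a).2.1 (r2 j b).2.1 this.1, ← (r2 i a).2.2.1, ← (r2 j b).2.2.1, hL, hL,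
          H.adj_comm (p j), or_self]
  · rintro ⟨F, h1, h2, h3⟩
    classical
    refine ⟨(Finset.range x.1).filter fun u => E F (0, 0, 0) (1, u, 0),
      (sets_card F (0, 0, 0) (fun u => (1, u, 0)) (fun a b h => by simpa using h) (by simp) _
        fun u hu => (Finset.mem_filter.1 hu).2).trans h2,
      fun u hu => Finset.mem_range.1 (Finset.mem_filter.1 hu).1, fun v hv => ?_⟩
    obtain ⟨j, hj, hj'⟩ := avoid F h2 fun t => t.2.2
    have ut : ∀ t u, ¬ Tch F (t, u, j) := fun t u h => hj' _ h rfl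
    have mc : ∀ i < m, i ≠ u → ((i + 2, v, j) : T3) ∈ L4 m u x := fun i h h' =>
      mem_L4.2 (by simp; omega)
    by_contra hc
    have q0 : ∀ i < m, i ≠ u → ¬ E F (0, 0, 0) (i + 2, v, j) ∧
        (QA ad F (0, 0, 0) (i + 2, v, j) ↔ (u.val, i) ∈ Lh) := fun i h h' => by
      refine ⟨fun e => ut _ _ (e.symm.tch' (by simp)), ?_⟩
      rw [QA_single' (ut _ _)]
      refine ⟨fun ⟨w, e, hw⟩ => ?_, fun h4 => ⟨_, E.refl _ _, hz, mc i h h', (R02 rfl (by simp)).2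
        (by simpa using h4)⟩⟩
      have h4 := mem_L4.1 hw.1
      rcases h4 with h4 | h4 | h4
      · simpa using (R02 h4.1 (by simp)).1 hw.2.2
      · refine absurd ⟨w.2.1, Finset.mem_filter.2 ⟨Finset.mem_range.2 h4.2.1, ?_⟩,
          ((R12 h4.1 (by simp)).1 hw.2.2).2⟩ hc
        have : w = (1, w.2.1, 0) := Prod.ext h4.1 (Prod.ext rfl h4.2.2)
        rwa [this] at e
      · have h5 := ((R22 h4.1 (by simp) hw.2.2.1).1 hw.2.2).1
        have h6 : w = (w.1, v, j) := Prod.ext rfl h5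
        exact absurd (e.symm.tch' fun e => by rw [e] at h4; simp at h4) (h6 ▸ ut _ _)
    have hsL : ∀ a < m, ∀ b < m, ((a, b) ∈ Lh ↔ (b, a) ∈ Lh) := fun a ha b hb =>
      (hL ⟨a, ha⟩ ⟨b, hb⟩).trans ((H.adj_comm _ _).trans (hL ⟨b, hb⟩ ⟨a, ha⟩).symm)
    refine h3 ⟨fun i => if i = u then (0, 0, 0) else (i + 2, v, j), fun i hi => ?_,
      fun a ha b hb hab => ?_⟩
    · by_cases e : i = u <;> simp only [e, if_true, if_false]
      exacts [hz, mc i hi e]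
    · rw [decide_eq_true_eq]
      by_cases e1 : a = u <;> by_cases e2 : b = u <;> simp only [e1, e2, if_true, if_false]
      · omega
      · exact q0 b hb e2
      · have := q0 a ha e1
        rw [← hsL _ u.2 _ ha]
        exact ⟨fun e => this.1 e.symm,
          ⟨fun q => this.2.1 (q.symm hsy), fun q => (this.2.2 q).symm hsy⟩⟩
      · have hne : ((a + 2, v, j) : T3) ≠ (b + 2, v, j) := by simp [hab]
        refine ⟨fun e => ut _ _ (e.tch' hne), ?_⟩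
        rw [QA_single (ut _ _) (ut _ _)]
        simp only [had, mc a ha e1, mc b hb e2, true_and]
        rw [R22 (by simp) (by simp) hne]
        simp [hsL b hb a ha]

theorem gen_hard {m : ℕ} (H : SimpleGraph (Fin m)) (u : Fin m) (T : Fin m → Prop) (ξ : Bool)
    (ok : OK H u T (ξ = true)) : W2Hard (Con₁ H) := by
  classical
  let Lh : Ed := (Finset.univ.filter fun q : Fin m × Fin m => H.Adj q.1 q.2).toList.map
    fun q => (q.1.val, q.2.val)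
  let Tl : List ℕ := (Finset.univ.filter T).toList.map Fin.val
  have pt : PT (red4 m Lh Tl ξ u) := by
    have h : PT fun x => dd (L4 m u x) := by unfold L4; fun_prop
    exact h.length.mk ((PT.tgE _ h (by unfold r4 cov; fun_prop)).mk (by fun_prop))
  exact freduces_of_ft (FT.of_pt pt) fun x => ⟨red4_iff H u T ξ Lh Tl
    (fun i j => by simp [Lh, Fin.val_inj]) (fun i => by simp [Tl, Fin.val_inj]) ok x, le_rfl⟩

end Pool.Agent.H22.CT
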