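import Pool.Agent.H22.CTDefs

namespace Pool.Agent.H22.CT

/-- `w` is adjacent to every other vertex. -/
def Univ {V : Type} (H : SimpleGraph V) (w : V) : Prop := ∀ v, v ≠ w → H.Adj w v

/-- Some set of at most two universal vertices (possibly empty) leaves a graph that is not
connected when it is removed. -/
def Cone {V : Type} (H : SimpleGraph V) : Prop :=
  ∃ U : Set V, U.ncard ≤ 2 ∧ (∀ w ∈ U, Univ H w) ∧ ¬ (H.induce Uᶜ).Connected

/-- `H` arises from the path `d - q - k - l` by substituting an arbitrary nonempty graph `D` for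
`d`, a clique `K` for `k` and an independent set `L` for `l`, and adding at most one universal
vertex (the set `U`). -/
def Broom {V : Type} (H : SimpleGraph V) : Prop :=
  ∃ (q : V) (U D K L : Set V), U.Subsingleton ∧ (∀ w ∈ U, Univ H w) ∧
    (∀ v, v ∈ U ∨ v ∈ D ∨ v = q ∨ v ∈ K ∨ v ∈ L) ∧ D.Nonempty ∧ K.Nonempty ∧ L.Nonempty ∧
    q ∉ L ∧ H.IsClique K ∧ (∀ d ∈ D, H.Adj q d) ∧ (∀ k ∈ K, H.Adj q k) ∧
    (∀ k ∈ K, ∀ l ∈ L, H.Adj k l) ∧ (∀ l ∈ L, ¬ H.Adj q l) ∧ (∀ l ∈ L, ∀ l' ∈ L, ¬ H.Adj l l') ∧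
    (∀ d ∈ D, ∀ k ∈ K, ¬ H.Adj d k) ∧ ∀ d ∈ D, ∀ l ∈ L, ¬ H.Adj d l

end Pool.Agent.H22.CT
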