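import Pool.Agent.H22.Gen1
import Pool.Agent.H22.GenDefs

namespace Pool.Agent.H22.CT

open SimpleGraph Function

variable {m : ℕ} {H : SimpleGraph (Fin m)}

structure St (H : SimpleGraph (Fin m)) (Z : Fin m → Prop) (g : Fin m → ℕ × ℕ) : Prop where
  f1 : ∀ a b, ¬ Z a → ¬ Z b → H.Adj a b → g a = g b
  f2 : ∀ z a b, Z z → ¬ Z a → ¬ Z b → g a = g b → H.Adj z a → H.Adj z b
  f3 : ¬ ∃ c, ∀ a, ¬ Univ H a → ¬ Z a ∧ g a = c

theorem nu (a : Fin m) : ¬ Univ H a ↔ ∃ b, b ≠ a ∧ ¬ H.Adj a b := by simp [Univ]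

theorem st_of_not_ok {u : Fin m} (hu : ¬ Univ H u) {ξ : Prop} (h : ¬ OK H u (fun _ => True) ξ) :
    ∃ (W I : Fin m → Prop) (g : Fin m → ℕ × ℕ), St H (fun a => W a ∨ I a) g ∧
      (∀ a b, W a → W b → a = b) ∧ (∀ a, W a → Univ H a) ∧
      ∀ a b, a ≠ b → I a → I b → (H.Adj a b ↔ ξ) := by
  classical
  unfold OK at h
  push Not at h
  obtain ⟨ρ, p, s, inc, h0, h1, h2, h3, h4, h5, h6, h7, h8, -⟩ := h
  have r2 : ∀ a, ¬ (ρ a = 0 ∨ ρ a = 1) → ρ a = 2 := fun a h => by have := h0 a; omega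
  have hw : ∀ a, ρ a = 0 → Univ H a := fun a ha b hb => by
    rcases h0 b with e | e | e
    · exact absurd e (h2 a b hb.symm ha)
    · exact h4 a b ha e
    · exact (h5 a b ha e).2 (Or.inr trivial)
  refine ⟨fun a => ρ a = 0, fun a => ρ a = 1, s, ⟨fun a b ha hb e =>
    ((h8 a b e.ne (r2 a ha) (r2 b hb)).1 e).1, fun z a b hz ha hb e e' => ?_, ?_⟩,
    fun a b ha hb => by_contra fun e => h2 a b e ha hb, hw, h6⟩
  · rcases hz with hz | hz
    · exact (h5 z b hz (r2 b hb)).2 (Or.inr trivial)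
    · exact (h7 z b hz (r2 b hb)).2 ⟨trivial, e ▸ ((h7 z a hz (r2 a ha)).1 e').2⟩
  · rintro ⟨c, hc⟩
    have inj : ∀ a b, ¬ Univ H a → ¬ Univ H b → p a = p b → a = b := fun a b ha hb e =>
      by_contra fun e' => h3 a b e' (r2 a (hc a ha).1) (r2 b (hc b hb).1)
        ((hc a ha).2.trans (hc b hb).2.symm) e
    have := Finset.card_le_card_of_injOn (s := Finset.univ.filter fun a => ¬ Univ H a)
      (t := (Finset.univ.filter fun a => ¬ Univ H a).erase u) p (fun a ha => by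
        have ha' : ¬ Univ H a := by simpa using ha
        obtain ⟨b, hb, hb'⟩ := (nu a).1 ha'
        have hb2 : ¬ Univ H b := (nu b).2 ⟨a, hb.symm, fun e => hb' e.symm⟩
        have : ¬ Univ H (p a) := (nu _).2 ⟨p b, fun e => hb (inj _ _ hb2 ha' e), fun e => hb'
          ((h8 a b hb.symm (r2 a (hc a ha').1) (r2 b (hc b hb2).1)).2
            ⟨(hc a ha').2.trans (hc b hb2).2.symm, e⟩)⟩
        simp [this, h1 a (r2 a (hc a ha').1)])
      (fun a ha b hb => inj a b (by simpa using ha) (by simpa using hb))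
    have hm : u ∈ Finset.univ.filter fun a => ¬ Univ H a := by simpa using hu
    rw [Finset.card_erase_of_mem hm] at this
    have := Finset.card_pos.2 ⟨u, hm⟩
    omega

theorem okIII {u v w1 w2 w3 : Fin m} (huv : v ≠ u) (hn : ¬ H.Adj u v) (u1 : Univ H w1)
    (u2 : Univ H w2) (u3 : Univ H w3) (e12 : w1 ≠ w2) (e13 : w1 ≠ w3) (e23 : w2 ≠ w3) :
    OK H u (· = v) (false = true) := by
  classical
  intro ρ p s inc h0 h1 h2 h3 h4 h5 h6 h7 h8
  have hu : ∀ w, Univ H w → u ≠ w := fun w h e => hn (e ▸ h v (e ▸ huv))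
  have k3 : ∀ i a b c, H.Adj i a → H.Adj i b → H.Adj i c → H.Adj a b → H.Adj a c → H.Adj b c →
      ρ i ≠ 1 := fun i a b c ia ib ic ab ac bc hi => by
    have t : ∀ a, H.Adj i a → ρ a = 0 ∨ (ρ a = 2 ∧ p a = v) := fun a e => by
      rcases h0 a with h | h | h
      · exact Or.inl h
      · simpa using (h6 i a e.ne hi h).1 e
      · exact Or.inr ⟨h, ((h7 i a hi h).1 e).1⟩
    have t2 : ∀ a b, H.Adj a b → ρ a = 2 ∧ p a = v → ρ b = 2 ∧ p b = v → False :=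
      fun a b e h h' => by simpa [h.2, h'.2] using ((h8 a b e.ne h.1 h'.1).1 e).2
    rcases t a ia with a1 | a1 <;> rcases t b ib with b1 | b1 <;> rcases t c ic with c1 | c1 <;>
      first
        | exact h2 _ _ ab.ne a1 b1
        | exact h2 _ _ ac.ne a1 c1
        | exact h2 _ _ bc.ne b1 c1
        | exact t2 _ _ ab a1 b1
        | exact t2 _ _ bc b1 c1
        | exact t2 _ _ ac a1 c1
  have a12 := u1 w2 e12.symm
  have a13 := u1 w3 e13.symm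
  have a23 := u2 w3 e23.symm
  have n1 : ∀ i, ρ i ≠ 1 := fun i => by
    by_cases c1 : i = w1
    · exact c1 ▸ k3 w1 w2 w3 u a12 a13 (u1 u (hu _ u1)) a23 (u2 u (hu _ u2)) (u3 u (hu _ u3))
    by_cases c2 : i = w2
    · exact c2 ▸ k3 w2 w1 w3 u a12.symm a23 (u2 u (hu _ u2)) a13 (u1 u (hu _ u1)) (u3 u (hu _ u3))
    by_cases c3 : i = w3
    · exact c3 ▸ k3 w3 w1 w2 u a13.symm a23.symm (u3 u (hu _ u3)) a12 (u1 u (hu _ u1))
        (u2 u (hu _ u2))
    exact k3 i w1 w2 w3 (u1 i c1).symm (u2 i c2).symm (u3 i c3).symm a12 a13 a23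
  obtain ⟨w, hw, hw2⟩ : ∃ w, Univ H w ∧ ρ w = 2 := by
    rcases h0 w1 with h | h | h
    · have := h2 _ _ e12 h
      have := n1 w2
      have := h0 w2
      exact ⟨w2, u2, by omega⟩
    · exact absurd h (n1 _)
    · exact ⟨w1, u1, h⟩
  have sg : ∀ a, ρ a = 2 → s a = s w := fun a ha => by
    by_cases e : a = w
    · rw [e]
    · exact ((h8 w a (Ne.symm e) hw2 ha).1 (hw a e)).1.symm
  have r02 : ∀ a, ρ a = 0 ∨ ρ a = 2 := fun a => by have := h0 a; have := n1 a; omega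
  let ψ : Fin m → Fin m := fun a => if ρ a = 0 then u else p a
  have ψ0 : ∀ a, ρ a = 0 → ψ a = u := fun a h => if_pos h
  have ψ2 : ∀ a, ρ a = 2 → ψ a = p a := fun a h => if_neg (by omega)
  have inj : Injective ψ := fun a b e => by_contra fun e' => by
    rcases r02 a with ha | ha <;> rcases r02 b with hb | hb
    · exact h2 a b e' ha hb
    · rw [ψ0 a ha, ψ2 b hb] at e; exact h1 b hb e.symm
    · rw [ψ0 b hb, ψ2 a ha] at e; exact h1 a ha e
    · rw [ψ2 a ha, ψ2 b hb] at e; exact h3 a b e' ha hb ((sg a ha).trans (sg b hb).symm) e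
  have := Finset.card_le_card_of_injOn
    (s := Finset.univ.filter fun q : Fin m × Fin m => q.1 ≠ q.2 ∧ ¬ H.Adj q.1 q.2)
    (t := (Finset.univ.filter fun q : Fin m × Fin m => q.1 ≠ q.2 ∧ ¬ H.Adj q.1 q.2).erase (u, v))
    (Prod.map ψ ψ) (fun ⟨a, b⟩ hq => by
      have hq' : a ≠ b ∧ ¬ H.Adj a b := by simpa using hq
      simp only [Finset.coe_erase, Finset.coe_filter, Set.mem_diff, Set.mem_setOf_eq, Prod.map,
        Finset.mem_univ, true_and, Set.mem_singleton_iff, Prod.mk.injEq, ne_eq, inj.eq_iff, hq'.1,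
        not_false_eq_true]
      rcases r02 a with ha | ha <;> rcases r02 b with hb | hb
      · exact absurd hb (h2 a b hq'.1 ha)
      · rw [ψ0 a ha, ψ2 b hb]
        exact ⟨fun e => hq'.2 ((h5 a b ha hb).2 (Or.inl e)),
          fun e => hq'.2 ((h5 a b ha hb).2 (Or.inr e.2))⟩
      · rw [ψ0 b hb, ψ2 a ha]
        exact ⟨fun e => hq'.2 ((h5 b a hb ha).2 (Or.inl e.symm)).symm, fun e => h1 a ha e.1⟩
      · rw [ψ2 a ha, ψ2 b hb]
        exact ⟨fun e => hq'.2 ((h8 a b hq'.1 ha hb).2 ⟨(sg a ha).trans (sg b hb).symm, e⟩),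
          fun e => h1 a ha e.1⟩)
    (inj.prodMap inj).injOn
  have hm : (u, v) ∈ Finset.univ.filter fun q : Fin m × Fin m => q.1 ≠ q.2 ∧ ¬ H.Adj q.1 q.2 := by
    simp [huv.symm, hn]
  rw [Finset.card_erase_of_mem hm] at this
  have := Finset.card_pos.2 ⟨_, hm⟩
  omega

theorem sep (hc : ¬ Cone H) (hU : {w | Univ H w}.ncard ≤ 2) (P : Fin m → Prop) {a b : Fin m}
    (ha : ¬ Univ H a) (hb : ¬ Univ H b) (pa : P a) (pb : ¬ P b) :
    ∃ a b, ¬ Univ H a ∧ ¬ Univ H b ∧ P a ∧ ¬ P b ∧ H.Adj a b := by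
  have h : (H.induce {w | Univ H w}ᶜ).Connected := by_contra fun h => hc ⟨_, hU, fun _ h => h, h⟩
  have r := (reachable_iff_reflTransGen _ _).1 (h.preconnected ⟨a, ha⟩ ⟨b, hb⟩)
  by_contra hn
  push Not at hn
  have : ∀ y : ({w | Univ H w}ᶜ : Set (Fin m)),
      Relation.ReflTransGen (H.induce {w | Univ H w}ᶜ).Adj ⟨a, ha⟩ y → P y := fun y r => by
    induction r with
    | refl => exact pa
    | @tail x y _ e ih => exact by_contra fun hy => hn x y x.2 y.2 ih hy e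
  exact pb (this _ r)

theorem classify (hc : ¬ Cone H) (hb : ¬ Broom H) {Q W I : Fin m → Prop} {g g' : Fin m → ℕ × ℕ}
    (s1 : St H Q g) (hQ : ∀ a b, a ≠ b → Q a → Q b → H.Adj a b)
    (s2 : St H (fun a => W a ∨ I a) g') (hW : ∀ a b, W a → W b → a = b)
    (hWu : ∀ a, W a → Univ H a) (hI : ∀ a b, I a → I b → ¬ H.Adj a b) :
    2 < {w | Univ H w}.ncard := by
  by_contra hU
  rw [not_lt] at hU
  have sp := sep hc hU
  have all : ∀ d, ¬ Q d → (∀ a, ¬ Q a → g a = g d) → (∀ q, Q q → H.Adj q d) → False :=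
    fun d hd h1 h2 => s1.f3 ⟨g d, fun a ha => by
      have : ¬ Q a := fun hq => ha fun b hb => by
        by_cases e : Q b
        · exact hQ _ _ hb.symm hq e
        · exact s1.f2 a d b hq hd e (h1 b e).symm (h2 a hq)
      exact ⟨this, h1 a this⟩⟩
  have uQ : ∀ w, Univ H w → Q w := fun w hw => by_contra fun h => all w h (fun a ha => by
    by_cases e : a = w
    · rw [e]
    · exact (s1.f1 w a h ha (hw a e)).symm) fun q hq => (hw q fun e => h (e ▸ hq)).symm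
  obtain ⟨i0, hi0, hi0'⟩ : ∃ i, I i ∧ ¬ Univ H i := by
    by_contra h
    push Not at h
    have hz : ∀ a, ¬ Univ H a → ¬ (W a ∨ I a) := fun a ha e => ha (e.elim (hWu a) (h a))
    have h3 := s2.f3
    push Not at h3
    obtain ⟨a, ha, -⟩ := h3 (0, 0)
    obtain ⟨b, hb', e⟩ := h3 (g' a)
    obtain ⟨c, d, h4, h5, h6, h7, h8⟩ := sp (fun y => g' y = g' a) ha hb' rfl (e (not_or.1 (hz b hb')))
    exact h7 ((s2.f1 c d (hz c h4) (hz d h5) h8).symm.trans h6)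
  have iU : ∀ i, I i → ¬ Univ H i := fun i hi h =>
    hI i i0 hi hi0 (h i0 fun e => hi0' (e ▸ h))
  have nbI : ∀ i, I i → ∃ r, ¬ Univ H r ∧ ¬ (W r ∨ I r) ∧ H.Adj i r := fun i hi => by
    obtain ⟨b, hb1, hb2⟩ := (nu i).1 (iU i hi)
    obtain ⟨c, d, -, h5, rfl, -, h8⟩ := sp (fun y => y = i) (iU i hi)
      ((nu b).2 ⟨i, hb1.symm, fun e => hb2 e.symm⟩) rfl hb1
    exact ⟨d, h5, fun e => e.elim (fun e => h5 (hWu d e)) fun e => hI _ _ hi e h8, h8⟩
  have nbQ : ∀ d, ¬ Q d → ∃ q, Q q ∧ ¬ Univ H q ∧ H.Adj q d := fun d hd => by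
    have h3 := s1.f3
    push Not at h3
    obtain ⟨b, hb', e⟩ := h3 (g d)
    obtain ⟨c, q, -, h5, h6, h7, h8⟩ := sp (fun y => ¬ Q y ∧ g y = g d) (fun h => hd (uQ d h)) hb'
      ⟨hd, rfl⟩ fun h => e h.1 h.2
    have hq : Q q := by_contra fun h => h7 ⟨h, (s1.f1 c q h6.1 h h8).symm.trans h6.2⟩
    exact ⟨q, hq, h5, s1.f2 q c d hq h6.1 hd h6.2 h8.symm⟩
  have nnQ : ∀ q, Q q → ¬ Univ H q → ∃ d, ¬ Q d ∧ ¬ H.Adj q d := fun q hq h => by
    obtain ⟨d, h1, h2⟩ := (nu q).1 h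
    exact ⟨d, fun e => h2 (hQ _ _ h1.symm hq e), h2⟩
  have one : (∀ i r, I i → ¬ (W r ∨ I r) → H.Adj i r) → False := fun h => by
    by_cases e : ∀ i, I i → Q i
    · refine hi0' fun b hb => ?_
      by_cases e1 : W b
      · exact (hWu b e1 i0 hb.symm).symm
      by_cases e2 : I b
      · exact hQ _ _ hb.symm (e _ hi0) (e _ e2)
      · exact h _ _ hi0 (not_or.2 ⟨e1, e2⟩)
    push Not at e
    obtain ⟨i, hi, hi'⟩ := e
    obtain ⟨q, hq, hq1, hq2⟩ := nbQ i hi'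
    obtain ⟨d, hd, hd'⟩ := nnQ q hq hq1
    have hqz : ¬ (W q ∨ I q) := fun e => e.elim (fun e => hq1 (hWu q e)) fun e => hI _ _ e hi hq2
    have hdz : ¬ (W d ∨ I d) := fun e => e.elim (fun e => hd (uQ d (hWu d e)))
      fun e => hd' (h d q e hqz).symm
    exact hd' (s1.f2 q i d hq hi' hd (s1.f1 i d hi' hd (h i d hi hdz)) hq2)
  have uW : ∀ w, Univ H w → W w := fun w hw => by_contra fun h => by
    have hz : ¬ (W w ∨ I w) := fun e => e.elim h fun e => iU w e hw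
    refine one fun i r hi hr => s2.f2 i w r (Or.inr hi) hz hr ?_ (hw i fun e => iU i hi (e ▸ hw)).symm
    by_cases e : r = w
    · rw [e]
    · exact s2.f1 w r hz hr (hw r e)
  obtain ⟨q, hq, hqI⟩ : ∃ q, Q q ∧ I q := by
    by_contra h
    push Not at h
    have qz : ∀ q, Q q → ¬ Univ H q → ¬ (W q ∨ I q) := fun q hq h' e =>
      e.elim (fun e => h' (hWu q e)) (h q hq)
    obtain ⟨q0, h1, h2, -⟩ := nbQ i0 fun e => h _ e hi0
    have gq : ∀ q, Q q → ¬ Univ H q → g' q = g' q0 := fun q hq h' => by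
      by_cases e : q = q0
      · rw [e]
      · exact s2.f1 _ _ (qz q hq h') (qz q0 h1 h2) (hQ _ _ e hq h1)
    have gr : ∀ r, ¬ (W r ∨ I r) → g' r = g' q0 := fun r hr => by
      by_cases e : Q r
      · exact gq r e fun h => hr (Or.inl (uW r h))
      · obtain ⟨q, h3, h4, h5⟩ := nbQ r e
        exact (s2.f1 _ _ (qz q h3 h4) hr h5).symm.trans (gq q h3 h4)
    refine one fun i r hi hr => ?_
    obtain ⟨r', -, h4, h5⟩ := nbI i hi
    exact s2.f2 i r' r (Or.inr hi) h4 hr ((gr _ h4).trans (gr _ hr).symm) h5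
  have kz : ∀ k, Q k ∧ ¬ Univ H k ∧ k ≠ q → ¬ (W k ∨ I k) := fun k h e =>
    e.elim (fun e => h.2.1 (hWu k e)) fun e => hI _ _ e hqI (hQ _ _ h.2.2 h.1 hq)
  have kg : ∀ k, Q k ∧ ¬ Univ H k ∧ k ≠ q → ∀ k', Q k' ∧ ¬ Univ H k' ∧ k' ≠ q → g' k = g' k' :=
    fun k h k' h' => by
      by_cases e : k = k'
      · rw [e]
      · exact s2.f1 _ _ (kz k h) (kz k' h') (hQ _ _ e h.1 h'.1)
  have hL : ∀ l, ¬ Q l ∧ ¬ H.Adj q l → I l ∧ ∃ k, (Q k ∧ ¬ Univ H k ∧ k ≠ q) ∧ H.Adj k l :=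
    fun l h => by
      obtain ⟨k, h1, h2, h3⟩ := nbQ l h.1
      have hk : Q k ∧ ¬ Univ H k ∧ k ≠ q := ⟨h1, h2, fun e => h.2 (e ▸ h3)⟩
      refine ⟨by_contra fun e => h.2 ?_, k, hk, h3⟩
      have hz : ¬ (W l ∨ I l) := fun e' => e'.elim (fun e' => h.1 (uQ l (hWu l e'))) e
      exact s2.f2 q k l (Or.inr hqI) (kz k hk) hz (s2.f1 _ _ (kz k hk) hz h3)
        (hQ _ _ hk.2.2.symm hq h1)
  have hKL : ∀ l, ¬ Q l ∧ ¬ H.Adj q l → ∀ k, Q k ∧ ¬ Univ H k ∧ k ≠ q → ∀ r, ¬ (W r ∨ I r) →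
      g' k = g' r → H.Adj l r := fun l h k hk r hr e => by
    obtain ⟨h1, k', h2, h3⟩ := hL l h
    exact s2.f2 l k' r (Or.inr h1) (kz _ h2) hr ((kg _ h2 _ hk).trans e) h3.symm
  have hDL : ∀ d, ¬ Q d ∧ H.Adj q d → ∀ l, ¬ Q l ∧ ¬ H.Adj q l → ¬ H.Adj d l :=
    fun d h l h' e => h'.2 (s1.f2 q d l hq h.1 h'.1 (s1.f1 d l h.1 h'.1 e) h.2)
  obtain ⟨l0, hl0⟩ := nnQ q hq (iU q hqI)
  obtain ⟨-, k0, hk0, -⟩ := hL l0 hl0
  refine hb ⟨q, {w | Univ H w}, {d | ¬ Q d ∧ H.Adj q d}, {k | Q k ∧ ¬ Univ H k ∧ k ≠ q},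
    {l | ¬ Q l ∧ ¬ H.Adj q l}, fun a ha b hb => hW a b (uW a ha) (uW b hb), fun _ h => h,
    fun v => ?_, ?_, ⟨k0, hk0⟩, ⟨l0, hl0⟩, fun h => h.1 hq, fun a ha b hb e => hQ a b e ha.1 hb.1,
    fun d h => h.2, fun k h => hQ _ _ h.2.2.symm hq h.1,
    fun k h l h' => (hKL l h' k h k (kz k h) rfl).symm, fun l h => h.2,
    fun l h l' h' => hI _ _ (hL l h).1 (hL l' h').1, fun d h k h' e => ?_, hDL⟩
  · simp only [Set.mem_setOf_eq]; tauto
  · obtain ⟨d, h1, h2⟩ := nnQ k0 hk0.1 hk0.2.1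
    exact ⟨d, h1, by_contra fun e => h2 (hKL d ⟨h1, e⟩ k0 hk0 k0 (kz _ hk0) rfl).symm⟩
  · have hz : ¬ (W d ∨ I d) := fun e' => e'.elim (fun e' => h.1 (uQ d (hWu d e')))
      fun e' => hI _ _ hqI e' h.2
    exact hDL d h l0 hl0 (hKL l0 hl0 k h' d hz (s2.f1 _ _ (kz k h') hz e.symm)).symm

theorem hard_gen (hn : H ≠ ⊤) (hc : ¬ Cone H) (hb : ¬ Broom H) : W2Hard (Con₁ H) := by
  obtain ⟨u, v, huv, h⟩ : ∃ u v, v ≠ u ∧ ¬ H.Adj u v := by
    by_contra h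
    push Not at h
    exact hn (by ext a b; exact ⟨fun e => e.ne, fun e => h a b (Ne.symm e)⟩)
  have hu : ¬ Univ H u := (nu u).2 ⟨v, huv, h⟩
  by_cases o1 : OK H u (fun _ => True) (true = true)
  · exact gen_hard H u _ true o1
  by_cases o2 : OK H u (fun _ => True) (false = true)
  · exact gen_hard H u _ false o2
  obtain ⟨W1, I1, g, s1, -, a1, a2⟩ := st_of_not_ok hu o1
  obtain ⟨W, I, g', s2, b1, b2, b3⟩ := st_of_not_ok hu o2
  have := classify hc hb s1 (fun a b e ha hb => by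
    rcases ha with ha | ha
    · exact a1 a ha b e.symm
    · rcases hb with hb | hb
      · exact (a1 b hb a e).symm
      · exact (a2 a b e ha hb).2 rfl) s2 b1 b2 fun a b ha hb e => by
          simpa using (b3 a b e.ne ha hb).1 e
  obtain ⟨w1, w2, w3, h1, h2, h3, e1, e2, e3⟩ := (Set.two_lt_ncard_iff (Set.toFinite _)).1 this
  exact gen_hard H u _ false (okIII huv h h1 h2 h3 e1 e2 e3)

end Pool.Agent.H22.CT
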