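import Mathlib

set_option autoImplicit false
set_option maxRecDepth 100000
set_option synthInstance.maxSize 100000

namespace Pool.Agent.H22.Groetzsch
open Finset

/-- Groetzsch graph on 0..10 together with the edge 11 12 -/
def ha (a b : Fin 13) : Bool :=
  (([594, 165, 330, 660, 297, 1042, 1029, 1034, 1044, 1033, 992, 4096, 2048] : List ℕ).getD a 0).testBit b

def H : SimpleGraph (Fin 13) where
  Adj a b := ha a b = true
  symm := ⟨by decide +kernel⟩
  loopless := ⟨by decide +kernel⟩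

instance : DecidableRel H.Adj := fun a b => inferInstanceAs (Decidable (ha a b = true))

lemma free : H.CliqueFree 3 := by
  intro s hs
  rw [SimpleGraph.is3Clique_iff] at hs
  obtain ⟨a, b, c, h1, h2, h3, -⟩ := hs
  clear s
  revert a b c
  decide +kernel

lemma deg (v : Fin 13) : 1 ≤ (H.neighborSet v).ncard := by
  have : ∀ v, ∃ w, H.Adj v w := by decide +kernel
  obtain ⟨w, hw⟩ := this v
  exact (Set.ncard_pos (Set.toFinite _)).2 ⟨w, hw⟩

lemma deg11 : (H.neighborSet 11).ncard = 1 := by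
  rw [Set.ncard_eq_one]
  refine ⟨12, ?_⟩
  ext x
  simp only [SimpleGraph.mem_neighborSet, Set.mem_singleton_iff]
  revert x
  decide +kernel

lemma col3 : ∀ a0 a1 : Fin 3, a0 ≠ a1 → ∀ a2 : Fin 3, a1 ≠ a2 → ∀ a3 : Fin 3, a2 ≠ a3 → ∀ a4 : Fin 3, a3 ≠ a4 →
    a0 ≠ a4 → ∀ a10 a5 : Fin 3, a5 ≠ a1 → a5 ≠ a4 → a5 ≠ a10 → ∀ a6 : Fin 3, a6 ≠ a0 → a6 ≠ a2 → a6 ≠ a10 →
    ∀ a7 : Fin 3, a7 ≠ a1 → a7 ≠ a3 → a7 ≠ a10 → ∀ a8 : Fin 3, a8 ≠ a2 → a8 ≠ a4 → a8 ≠ a10 →
    ∀ a9 : Fin 3, a9 ≠ a0 → a9 ≠ a3 → a9 ≠ a10 → False := by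
  decide +kernel

lemma no_col (p : Fin 13 → Fin 3) (h : ∀ a b, H.Adj a b → p a ≠ p b) : False :=
  col3 (p 0) (p 1) (h _ _ (by decide)) (p 2) (h _ _ (by decide)) (p 3) (h _ _ (by decide)) (p 4)
    (h _ _ (by decide)) (h _ _ (by decide)) (p 10) (p 5) (h _ _ (by decide)) (h _ _ (by decide))
    (h _ _ (by decide)) (p 6) (h _ _ (by decide)) (h _ _ (by decide)) (h _ _ (by decide)) (p 7)
    (h _ _ (by decide)) (h _ _ (by decide)) (h _ _ (by decide)) (p 8) (h _ _ (by decide)) (h _ _ (by decide))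
    (h _ _ (by decide)) (p 9) (h _ _ (by decide)) (h _ _ (by decide)) (h _ _ (by decide))

lemma const {α : Type} (p : Fin 13 → α) (h : ∀ a b, H.Adj a b → p a = p b) (i : Fin 11) :
    p (i.castLE (by norm_num)) = p 0 := by
  have e1 := h 1 0 (by decide)
  have e2 := h 2 1 (by decide)
  have e3 := h 3 2 (by decide)
  have e4 := h 4 0 (by decide)
  have e5 := h 5 1 (by decide)
  have e6 := h 6 0 (by decide)
  have e7 := h 7 1 (by decide)
  have e8 := h 8 2 (by decide)
  have e9 := h 9 0 (by decide)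
  have e10 := h 10 6 (by decide)
  fin_cases i
  · rfl
  · exact e1
  · exact e2.trans e1
  · exact e3.trans (e2.trans e1)
  · exact e4
  · exact e5.trans e1
  · exact e6
  · exact e7.trans e1
  · exact e8.trans (e2.trans e1)
  · exact e9
  · exact e10.trans e6

def Arrow {m : ℕ} (G : SimpleGraph (Fin m)) : Prop :=
  ∀ c : Fin m → Fin m → Bool, (∀ x y : Fin m, c x y = c y x) →
    ∃ b : Bool, ∃ f : Fin 13 → Fin m, Function.Injective f ∧
      ∀ u v : Fin 13, H.Adj u v → G.Adj (f u) (f v) ∧ c (f u) (f v) = b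

lemma small_cover {m : ℕ} (G : SimpleGraph (Fin m)) (S : Finset (Fin m)) (hS : S.card ≤ 23)
    (hc : ∀ x y, G.Adj x y → x ∈ S ∨ y ∈ S) : ¬ Arrow G := by
  intro h
  let e := S.equivFin
  let g : Fin m → ℕ := fun x => if hx : x ∈ S then (e ⟨x, hx⟩ : ℕ) else 100
  have g1 : ∀ x, x ∈ S → g x < 23 := fun x hx => by
    simp only [g, dif_pos hx]; exact lt_of_lt_of_le (e _).2 hS
  have g2 : ∀ x, x ∉ S → g x = 100 := fun x hx => by simp only [g, dif_neg hx]
  have g3 : ∀ x y, g x < 23 → g x = g y → x = y := by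
    intro x y h1 h2
    have hx : x ∈ S := by by_contra hh; rw [g2 x hh] at h1; omega
    have hy : y ∈ S := by by_contra hh; rw [h2, g2 y hh] at h1; omega
    simp only [g, dif_pos hx, dif_pos hy] at h2
    exact congrArg Subtype.val (e.injective (Fin.ext h2))
  have g4 : ∀ x, g x < 23 ∨ g x = 100 := fun x => by
    by_cases hx : x ∈ S
    · exact Or.inl (g1 x hx)
    · exact Or.inr (g2 x hx)
  let p : Fin m → Fin 3 := fun x => ⟨min (g x / 10) 2, by omega⟩
  obtain ⟨b, f, f1, f2⟩ := h (fun x y => decide (p x = p y)) (fun x y => decide_eq_decide.2 eq_comm)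
  cases b
  · exact no_col (fun a => p (f a)) (fun a b hab => by simpa using (f2 a b hab).2)
  · have hk := const (fun a => p (f a)) (fun a b hab => by simpa using (f2 a b hab).2)
    have hk' : ∀ i : Fin 11, min (g (f (i.castLE (by norm_num))) / 10) 2 = min (g (f 0) / 10) 2 :=
      fun i => congrArg Fin.val (hk i)
    by_cases h2 : min (g (f 0) / 10) 2 = 2
    · have a0 := hk' 0
      have a1 := hk' 1
      have a2 := hk' 2
      have a3 := hk' 3
      have a4 := hk' 4
      have a5 := hk' 5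
      have a6 := hk' 6
      have a10 := hk' 10
      rw [h2] at a0 a1 a2 a3 a4 a5 a6 a10
      have ed : ∀ a b, H.Adj a b → g (f a) < 23 ∨ g (f b) < 23 := fun a b hab =>
        (hc _ _ (f2 a b hab).1).imp (g1 _) (g1 _)
      have ne : ∀ a b, a ≠ b → g (f a) < 23 → g (f a) ≠ g (f b) := fun a b hab h1 h2 => hab (f1 (g3 _ _ h1 h2))
      have pick : ∀ k : Fin 4, ∃ a : Fin 11, (![0, 0, 1, 1, 2, 2, 3, 4, 4, 4, 3] : Fin 11 → Fin 5) a = k.castSucc ∧
          g (f (a.castLE (by norm_num))) < 23 := by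
        intro k
        fin_cases k
        · rcases ed 0 1 (by decide) with h | h
          · exact ⟨0, rfl, h⟩
          · exact ⟨1, rfl, h⟩
        · rcases ed 2 3 (by decide) with h | h
          · exact ⟨2, rfl, h⟩
          · exact ⟨3, rfl, h⟩
        · rcases ed 4 5 (by decide) with h | h
          · exact ⟨4, rfl, h⟩
          · exact ⟨5, rfl, h⟩
        · rcases ed 6 10 (by decide) with h | h
          · exact ⟨6, rfl, h⟩
          · exact ⟨10, rfl, h⟩
      choose a ha1 ha2 using pick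
      have hi : Function.Injective (fun k : Fin 4 => (⟨g (f ((a k).castLE (by norm_num))) - 20, by
          have := ha2 k; omega⟩ : Fin 3)) := by
        intro k k' hh
        simp only [Fin.mk.injEq] at hh
        have b1 := hk' (a k)
        have b2 := hk' (a k')
        have b3 := ha2 k
        have b4 := ha2 k'
        have := Fin.castLE_injective _ (f1 (g3 _ _ b3 (show _ = g (f ((a k').castLE (by norm_num))) by omega)))
        apply Fin.castSucc_injective
        rw [← ha1, ← ha1, this]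
      have := Fintype.card_le_of_injective _ hi
      simp at this
    · have hi : Function.Injective (fun i : Fin 11 => (⟨g (f (i.castLE (by norm_num))) % 10, by omega⟩ : Fin 10)) := by
        intro k k' hh
        simp only [Fin.mk.injEq] at hh
        have b1 := hk' k
        have b2 := hk' k'
        exact Fin.castLE_injective _ (f1 (g3 _ _ (by omega) (show _ = g (f (k'.castLE (by norm_num))) by omega)))
      have := Fintype.card_le_of_injective _ hi
      simp at this

lemma side {m : ℕ} (G : SimpleGraph (Fin m)) (hG : Arrow G) (u w : Fin m) (hu : ∀ x, G.Adj u x ↔ x = w)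
    (c : Fin m → Fin m → Bool) (hc : ∀ x y, c x y = c y x)
    (hno : ∀ (b : Bool) (f : Fin 13 → Fin m), Function.Injective f →
      ¬ ∀ x y : Fin 13, H.Adj x y → (G.deleteEdges {s(u, w)}).Adj (f x) (f y) ∧ c (f x) (f y) = b) (b : Bool) :
    ∃ T : Finset (Fin m), T.card ≤ 11 ∧ ∀ x y, (G.deleteEdges {s(u, w)}).Adj x y → c x y = b → x ∈ T ∨ y ∈ T := by
  obtain ⟨b', f, f1, f2⟩ := hG (fun x y => if s(x, y) = s(u, w) then b else c x y)
    (fun x y => by rw [Sym2.eq_swap, hc])
  have h1 : ∃ x y, H.Adj x y ∧ s(f x, f y) = s(u, w) := by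
    by_contra hh
    push Not at hh
    refine hno b' f f1 (fun x y hxy => ?_)
    obtain ⟨a1, a2⟩ := f2 x y hxy
    rw [if_neg (hh x y hxy)] at a2
    exact ⟨by simp only [SimpleGraph.deleteEdges_adj, Set.mem_singleton_iff]; exact ⟨a1, hh x y hxy⟩, a2⟩
  obtain ⟨x0, y0, hxy0, h0⟩ := h1
  have hb : b' = b := by
    have := (f2 x0 y0 hxy0).2
    rw [if_pos h0] at this
    exact this.symm
  subst hb
  have hX : ∀ x : Fin 13, x.1 < 11 → f x ≠ u := by
    intro x hx hfx
    have : ∀ x : Fin 13, x.1 < 11 → ∃ y z, y ≠ z ∧ H.Adj x y ∧ H.Adj x z := by decide +kernel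
    obtain ⟨y, z, a1, a2, a3⟩ := this x hx
    have b2 := (f2 x y a2).1
    have b3 := (f2 x z a3).1
    rw [hfx, hu] at b2 b3
    exact a1 (f1 (b2.trans b3.symm))
  refine ⟨univ.image (fun i : Fin 11 => f (i.castLE (by norm_num))), card_image_le.trans (by simp), ?_⟩
  intro x y hxy hcb
  by_contra hh
  simp only [mem_image, mem_univ, true_and, not_or, not_exists] at hh
  have hh1 : ∀ a : Fin 13, a.1 < 11 → f a ≠ x := fun a ha => hh.1 ⟨a.1, ha⟩
  have hh2 : ∀ a : Fin 13, a.1 < 11 → f a ≠ y := fun a ha => hh.2 ⟨a.1, ha⟩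
  refine hno b' (fun a => if a.1 < 11 then f a else if a.1 = 11 then x else y) ?_ ?_
  · intro a a' h
    simp only at h
    have := hxy.ne
    have := a.2
    have := a'.2
    split_ifs at h with c1 c2 c3 c4 c5 c6 c7 c8
    · exact f1 h
    · exact absurd h (hh1 a c1)
    · exact absurd h (hh2 a c1)
    · exact absurd h.symm (hh1 a' c5)
    · exact Fin.ext (by omega)
    · exact absurd h hxy.ne
    · exact absurd h.symm (hh2 a' c7)
    · exact absurd h.symm hxy.ne
    · exact Fin.ext (by omega)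
  · intro a a' h
    have : ∀ a a' : Fin 13, H.Adj a a' → (a.1 < 11 ∧ a'.1 < 11) ∨ (a = 11 ∧ a' = 12) ∨ (a = 12 ∧ a' = 11) := by
      decide +kernel
    rcases this a a' h with ⟨c1, c2⟩ | ⟨rfl, rfl⟩ | ⟨rfl, rfl⟩
    · simp only [if_pos c1, if_pos c2]
      obtain ⟨a1, a2⟩ := f2 a a' h
      have hne : s(f a, f a') ≠ s(u, w) := by
        intro hh
        rcases Sym2.eq_iff.1 hh with h' | h'
        · exact hX a c1 h'.1
        · exact hX a' c2 h'.2
      rw [if_neg hne] at a2
      exact ⟨by simp only [SimpleGraph.deleteEdges_adj, Set.mem_singleton_iff]; exact ⟨a1, hne⟩, a2⟩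
    · exact ⟨hxy, hcb⟩
    · exact ⟨hxy.symm, hc y x ▸ hcb⟩

theorem main {m : ℕ} (G : SimpleGraph (Fin m)) (hG : Arrow G) (hmin : ∀ G' < G, ¬ Arrow G') (u : Fin m)
    (hu : (G.neighborSet u).ncard = 1) : False := by
  obtain ⟨w, hw⟩ := Set.ncard_eq_one.1 hu
  have hu' : ∀ x, G.Adj u x ↔ x = w := fun x => by
    rw [← SimpleGraph.mem_neighborSet, hw]; rfl
  have hlt : G.deleteEdges {s(u, w)} < G := by
    refine lt_of_le_of_ne (SimpleGraph.deleteEdges_le _) (fun h => ?_)
    have := (hu' w).2 rfl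
    rw [← h] at this
    simp at this
  have := hmin _ hlt
  unfold Arrow at this
  push Not at this
  obtain ⟨c, hc, hno⟩ := this
  have hno' : ∀ (b : Bool) (f : Fin 13 → Fin m), Function.Injective f →
      ¬ ∀ x y : Fin 13, H.Adj x y → (G.deleteEdges {s(u, w)}).Adj (f x) (f y) ∧ c (f x) (f y) = b := by
    intro b f hf hh
    obtain ⟨x, y, a1, a2⟩ := hno b f hf
    exact a2 (hh x y a1).1 (hh x y a1).2
  obtain ⟨T1, t1, t2⟩ := side G hG u w hu' c hc hno' true
  obtain ⟨T2, t3, t4⟩ := side G hG u w hu' c hc hno' false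
  refine small_cover G (insert w (T1 ∪ T2)) ?_ ?_ hG
  · have := card_insert_le w (T1 ∪ T2)
    have := card_union_le T1 T2
    omega
  · intro x y hxy
    by_cases he : s(x, y) = s(u, w)
    · rcases Sym2.eq_iff.1 he with h' | h'
      · right; simp [h'.2]
      · left; simp [h'.1]
    · have : (G.deleteEdges {s(u, w)}).Adj x y := by
        simp only [SimpleGraph.deleteEdges_adj, Set.mem_singleton_iff]; exact ⟨hxy, he⟩
      cases hcb : c x y
      · rcases t4 x y this hcb with h | h <;> simp [h]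
      · rcases t2 x y this hcb with h | h <;> simp [h]

end Pool.Agent.H22.Groetzsch
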