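import Mathlib

set_option autoImplicit false

namespace Pool.Agent.H22.HamSpace

/-- `K` universal vertices (even, below `2K`), `K - 1` further vertices joined only to them (odd,
below `2K - 1`), and a clique on the remaining vertices. -/
def GG (n K : ℕ) : SimpleGraph (Fin n) where
  Adj u v := u ≠ v ∧ ((u.val % 2 = 0 ∧ u.val < 2 * K) ∨ (v.val % 2 = 0 ∧ v.val < 2 * K) ∨
    (2 * K ≤ u.val + 1 ∧ 2 * K ≤ v.val + 1))
  symm := ⟨by
    rintro a b ⟨h1, h2⟩
    exact ⟨h1.symm, by omega⟩⟩
  loopless := ⟨fun a h => h.1 rfl⟩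

theorem seq_lemma (n K : ℕ) (hK : 1 ≤ K) (hn : 2 * K + 1 ≤ n) (v : ℕ → Fin n) (h0 : v n = v 0)
    (hinj : Set.InjOn v {i | i ≤ n - 1}) (hsurj : ∀ x, ∃ i, i < n ∧ v (i + 1) = x)
    (hadj : ∀ i, i < n → (GG n K).Adj (v i) (v (i + 1))) (i1 : ℕ) (hi1 : i1 < n)
    (ha : (v i1).val % 2 = 0 ∧ (v i1).val < 2 * K)
    (hb : (v (i1 + 1)).val % 2 = 0 ∧ (v (i1 + 1)).val < 2 * K) : False := by
  obtain ⟨i0, hi0, hq1, hq0⟩ : ∃ i, i < n ∧ 2 * K ≤ (v (i + 1)).val + 1 ∧
      ¬ 2 * K ≤ (v i).val + 1 := by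
    by_contra hh
    have down : ∀ i, i ≤ n → 2 * K ≤ (v i).val + 1 → ∀ j, j ≤ i → 2 * K ≤ (v j).val + 1 := by
      intro i
      induction i with
      | zero => intro _ h j hj; rwa [Nat.le_zero.mp hj]
      | succ i ih =>
        intro hi h j hj
        rcases Nat.lt_or_ge j (i + 1) with h1 | h1
        · refine ih (by omega) ?_ j (by omega)
          by_contra h2
          exact hh ⟨i, by omega, h, h2⟩
        · rwa [show j = i + 1 by omega]
    obtain ⟨b, hb1, hb2⟩ := hsurj ⟨2 * K, by omega⟩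
    have e0 := down (b + 1) (by omega) (by rw [hb2]; simp) 0 (by omega)
    have e1 := down n le_rfl (by rw [h0]; exact e0) i1 (by omega)
    omega
  set A := (Finset.range n).filter (fun i => (v i).val % 2 = 0 ∧ (v i).val < 2 * K) with hA
  set B := (Finset.range n).filter
    (fun i => (v (i + 1)).val % 2 = 1 ∧ (v (i + 1)).val + 1 < 2 * K) with hB
  have cA : A.card ≤ (Finset.range K).card := by
    apply Finset.card_le_card_of_injOn (fun i => (v i).val / 2)
    · intro i hi
      simp only [hA, Finset.coe_filter, Finset.mem_range, Set.mem_setOf_eq, Finset.coe_range,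
        Set.mem_Iio] at hi ⊢
      omega
    · intro i hi j hj e
      simp only [hA, Finset.coe_filter, Finset.mem_range, Set.mem_setOf_eq] at hi hj e
      exact hinj (show i ≤ n - 1 by omega) (show j ≤ n - 1 by omega) (Fin.ext (by omega))
  have cB : (Finset.range (K - 1)).card ≤ B.card := by
    apply Finset.card_le_card_of_surjOn (fun i => (v (i + 1)).val / 2)
    intro j hj
    simp only [Finset.coe_range, Set.mem_Iio] at hj
    obtain ⟨i, hi, e⟩ := hsurj ⟨2 * j + 1, by omega⟩
    refine ⟨i, ?_, ?_⟩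
    · simp only [hB, Finset.coe_filter, Finset.mem_range, Set.mem_setOf_eq, e]
      omega
    · simp only [e]
      omega
  have sub : insert i0 (insert i1 B) ⊆ A := by
    intro i hi
    simp only [Finset.mem_insert, hA, hB, Finset.mem_filter, Finset.mem_range] at hi ⊢
    rcases hi with rfl | rfl | hi
    · have := (hadj i hi0).2
      omega
    · exact ⟨hi1, ha⟩
    · have := (hadj i hi.1).2
      omega
  have c1 : (insert i0 (insert i1 B)).card = B.card + 2 := by
    rw [Finset.card_insert_of_notMem, Finset.card_insert_of_notMem]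
    · simp only [hB, Finset.mem_filter, Finset.mem_range]
      omega
    · simp only [hB, Finset.mem_insert, Finset.mem_filter, Finset.mem_range, not_or]
      refine ⟨?_, by omega⟩
      rintro rfl
      omega
  have c2 := Finset.card_le_card sub
  simp only [Finset.card_range] at cA cB
  omega

theorem ham_avoid (n K : ℕ) (hK : 1 ≤ K) (hn : 2 * K + 1 ≤ n) (u : Fin n)
    (p : (GG n K).Walk u u) (hp : p.IsHamiltonianCycle) (a b : Fin n)
    (ha : a.val % 2 = 0 ∧ a.val < 2 * K) (hb : b.val % 2 = 0 ∧ b.val < 2 * K) :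
    s(a, b) ∉ p.edges := by
  intro he
  have hl : p.length = n := by simpa using hp.length_eq
  obtain ⟨i, hi, e⟩ := (SimpleGraph.Walk.mk_mem_edges_iff_exists p).mp he
  rw [hl] at hi
  refine seq_lemma n K hK hn p.getVert ?_ ?_ ?_ ?_ i hi ?_ ?_
  · rw [SimpleGraph.Walk.getVert_zero]
    exact p.getVert_of_length_le (by omega)
  · have := hp.isCycle.getVert_injOn'
    rwa [hl] at this
  · intro x
    obtain ⟨j, hj1, hj2⟩ := SimpleGraph.Walk.mem_support_iff_exists_getVert.mp (hp.mem_support x)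
    rcases j with _ | j
    · refine ⟨n - 1, by omega, ?_⟩
      rw [← hj1, SimpleGraph.Walk.getVert_zero]
      exact p.getVert_of_length_le (by omega)
    · exact ⟨j, by omega, hj1⟩
  · intro j hj
    exact p.adj_getVert_succ (by omega)
  · rcases Sym2.eq_iff.mp e with ⟨e1, _⟩ | ⟨e1, _⟩ <;> rw [e1] <;> assumption
  · rcases Sym2.eq_iff.mp e with ⟨_, e1⟩ | ⟨_, e1⟩ <;> rw [e1] <;> assumption

theorem gg_ham (N K : ℕ) (hK : 1 ≤ K) (hn : 2 * K + 1 ≤ N + 3) : (GG (N + 3) K).IsHamiltonian := by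
  have h1 : (SimpleGraph.cycleGraph (N + 3)).IsHamiltonian := fun _ =>
    ⟨0, SimpleGraph.cycleGraph.cycle N,
      SimpleGraph.Walk.isHamiltonianCycle_iff_isCycle_and_length_eq.mpr
        ⟨SimpleGraph.cycleGraph.isCycle_cycle, by simp⟩⟩
  refine h1.mono ?_
  have key : ∀ u v : Fin (N + 3), (u - v).val = 1 →
      (u.val = v.val + 1 ∨ (u.val = 0 ∧ v.val = N + 2)) := by
    intro u v h
    rcases le_or_gt v u with h1 | h1
    · rw [Fin.sub_val_of_le h1] at h
      omega
    · rw [Fin.coe_sub_iff_lt.mpr h1] at h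
      omega
  intro u v h
  refine ⟨h.ne, ?_⟩
  rcases SimpleGraph.cycleGraph_adj'.mp h with h | h
  · have := key u v h
    omega
  · have := key v u h
    omega

theorem gg_indep (n K : ℕ) : (GG n K).indepNum ≤ K + 1 := by
  obtain ⟨s, hs⟩ := (GG n K).exists_isNIndepSet_indepNum
  rw [← hs.card_eq]
  have : s.card ≤ (Finset.range (K + 1)).card := by
    apply Finset.card_le_card_of_injOn
      (fun v => if v.val % 2 = 1 ∧ v.val + 1 < 2 * K then v.val / 2 else K)
    · intro v _
      simp only [Finset.coe_range, Set.mem_Iio]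
      split_ifs <;> omega
    · intro a ha b hb e
      by_contra hne
      have hn := hs.isIndepSet ha hb hne
      simp only [GG, ne_eq, hne, not_false_eq_true, true_and] at hn
      have : a.val ≠ b.val := fun h => hne (Fin.ext h)
      simp only at e
      split_ifs at e <;> omega
  simpa using this

theorem gg_conn (n K : ℕ) (hn : 2 * K + 1 ≤ n) (S : Finset (Fin n)) (hS : S.card < K) :
    ((GG n K).induce ((↑S : Set (Fin n))ᶜ)).Connected := by
  obtain ⟨j, hj⟩ : ∃ j : Fin K, (⟨2 * j.val, by omega⟩ : Fin n) ∉ S := by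
    by_contra hh
    have : (Finset.univ : Finset (Fin K)).card ≤ S.card := by
      apply Finset.card_le_card_of_injOn (fun j : Fin K => (⟨2 * j.val, by omega⟩ : Fin n))
      · intro j _
        by_contra h
        exact hh ⟨j, h⟩
      · intro a _ b _ e
        simp only [Fin.mk.injEq] at e
        exact Fin.ext (by omega)
    simp at this
    omega
  rw [SimpleGraph.connected_iff_exists_forall_reachable]
  refine ⟨⟨_, hj⟩, fun w => ?_⟩
  by_cases e : (⟨_, hj⟩ : ((↑S : Set (Fin n))ᶜ : Set (Fin n))) = w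
  · rw [e]
  · apply SimpleGraph.Adj.reachable
    refine ⟨fun h => e (Subtype.ext h), Or.inl ⟨?_, ?_⟩⟩
    · show 2 * j.val % 2 = 0
      omega
    · show 2 * j.val < 2 * K
      omega

theorem tri_cycle {V : Type} (G : SimpleGraph V) (a b c : V) (h1 : G.Adj a b) (h2 : G.Adj b c)
    (h3 : G.Adj c a) :
    (SimpleGraph.Walk.cons h1 (SimpleGraph.Walk.cons h2
      (SimpleGraph.Walk.cons h3 SimpleGraph.Walk.nil))).IsCycle := by
  have e1 := h1.ne
  have e2 := h2.ne
  have e3 := h3.ne
  rw [SimpleGraph.Walk.isCycle_iff_isPath_tail_and_le_length]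
  refine ⟨?_, by simp⟩
  simp [SimpleGraph.Walk.isPath_def, e1.symm, e2, e3]

theorem main :
    ¬ (∃ k : ℕ, ∃ f : ℕ → ℕ,
      ∀ (V : Type) [Fintype V] [DecidableEq V] (G : SimpleGraph V),
        Odd (Fintype.card V) →
        (k < Fintype.card V ∧
          ∀ S : Finset V, S.card < k → (G.induce ((↑S : Set V)ᶜ)).Connected) →
        G.IsHamiltonian →
        f G.indepNum ≤ Fintype.card V →
        Submodule.span (ZMod 2)
            {x : Sym2 V → ZMod 2 | ∃ (u : V) (p : G.Walk u u),
              p.IsHamiltonianCycle ∧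
                x = Set.indicator {e : Sym2 V | e ∈ p.edges} (fun _ => (1 : ZMod 2))} =
          Submodule.span (ZMod 2)
            {x : Sym2 V → ZMod 2 | ∃ (u : V) (p : G.Walk u u),
              p.IsCycle ∧
                x = Set.indicator {e : Sym2 V | e ∈ p.edges} (fun _ => (1 : ZMod 2))}) := by
  rintro ⟨k, f, h⟩
  set K := k + 2 with hK
  set M := ∑ a ∈ Finset.range (K + 2), f a with hM
  set N := 2 * (K + M) with hN
  have hf : f (GG (N + 3) K).indepNum ≤ M :=
    Finset.single_le_sum (f := f) (fun _ _ => Nat.zero_le _)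
      (Finset.mem_range.mpr (Nat.lt_succ_of_le (gg_indep _ _)))
  have hs := h (Fin (N + 3)) (GG (N + 3) K) (by simp; exact ⟨K + M + 1, by omega⟩)
    ⟨by simp; omega, fun S hS => gg_conn _ K (by omega) S (by omega)⟩
    (gg_ham N K (by omega) (by omega)) (by simp; omega)
  let a : Fin (N + 3) := ⟨0, by omega⟩
  let b : Fin (N + 3) := ⟨2, by omega⟩
  let c : Fin (N + 3) := ⟨1, by omega⟩
  have ha : a.val % 2 = 0 ∧ a.val < 2 * K := ⟨rfl, by show 0 < 2 * K; omega⟩
  have hb : b.val % 2 = 0 ∧ b.val < 2 * K := ⟨by show 2 % 2 = 0; rfl, by show 2 < 2 * K; omega⟩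
  have h1 : (GG (N + 3) K).Adj a b := ⟨by simp [a, b], Or.inl ha⟩
  have h2 : (GG (N + 3) K).Adj b c := ⟨by simp [b, c], Or.inl hb⟩
  have h3 : (GG (N + 3) K).Adj c a := ⟨by simp [a, c], Or.inr (Or.inl ha)⟩
  have hker : Submodule.span (ZMod 2)
      {x : Sym2 (Fin (N + 3)) → ZMod 2 | ∃ (u : Fin (N + 3)) (p : (GG (N + 3) K).Walk u u),
        p.IsHamiltonianCycle ∧
          x = Set.indicator {e | e ∈ p.edges} (fun _ => (1 : ZMod 2))} ≤
      LinearMap.ker (LinearMap.proj (R := ZMod 2) (φ := fun _ => ZMod 2) s(a, b)) := by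
    rw [Submodule.span_le]
    rintro x ⟨u, p, hp, rfl⟩
    have := ham_avoid (N + 3) K (by omega) (by omega) u p hp a b ha hb
    simp [this]
  rw [hs] at hker
  have := hker (Submodule.subset_span ⟨a, _, tri_cycle _ a b c h1 h2 h3, rfl⟩)
  simp at this

end Pool.Agent.H22.HamSpace
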