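import Pool.Agent.H22.HiDefs
import Pool.Agent.H22.An2

/-! Hit simulates the round game. -/

namespace Pool.Agent.H22.EX.Hi

open Pool.Agent.H38.NP Function

def CE (n : ℕ) (L : List Q) (ins : Q → In) (u v : Vt) : Prop :=
  (∃ q ∈ L, u = cV q ∧ ((∃ i < (ins q).2.length, v = oV i q) ∨ v = sV 1 ∨ v = sV 2 ∨
    ∃ x < n, v = mV 5 x ∨ ∃ b, (ins q).1 ≠ some (x, b) ∧ v = mV (2 + b.toNat) x)) ∨
  (∃ q ∈ L, ∃ i < (ins q).2.length, u = oV i q ∧ ((∃ q' ∈ (opt ins q i).2, v = cV q') ∨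
    (∃ g ∈ (opt ins q i).1, v = mV (!g.2).toNat g.1) ∨ v = sV 1 ∨
    ∃ x < n, v = mV 2 x ∨ v = mV 3 x)) ∨
  (∃ x < n, ∃ e < 6, u = mV e x ∧ (v = sV 0 ∨ v = sV 3)) ∨ ∃ i < 4, ∃ j < i, u = sV i ∧ v = sV j

def ME (e e' : ℕ) : Prop :=
  (e, e') ∈ [(0, 3), (1, 2), (0, 4), (1, 4), (2, 0), (3, 1), (2, 4), (3, 4), (2, 5), (3, 5), (5, 4)]

inductive AM (n : ℕ) (L : List Q) (ins : Q → In) : Ab → Ab → Prop
  | cap {u st e x} : CE n L ins u (mV e x) → x < n → st x = e → e < 6 →
      AM n L ins (some u, st) (some (mV e x), update st x 6)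
  | go {u v st} : CE n L ins u v → (∀ x < n, st x < 6 → v ≠ mV (st x) x) →
      AM n L ins (some u, st) (some v, st)
  | hit {st e x} : ME (st x) e → x < n → AM n L ins (some (mV e x), st) (none, update st x e)
  | mem {c st e x} : ME (st x) e → x < n → c ≠ some (mV e x) →
      AM n L ins (c, st) (c, update st x e)

def Oc (n : ℕ) (st : ℕ → ℕ) : ℕ := ((Finset.range n).filter fun y => st y ≤ 1 ∨ st y = 5).card

variable {n : ℕ} {L : List Q} {ins : Q → In} {st : ℕ → ℕ} {x e : ℕ}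

theorem Oc_upd (hx : x < n) (e) : Oc n (update st x e) + (if st x ≤ 1 ∨ st x = 5 then 1 else 0) =
    Oc n st + if e ≤ 1 ∨ e = 5 then 1 else 0 := cnt_upd (fun z => z ≤ 1 ∨ z = 5) hx

/-- `c` is a private place of value `v` and weight `w` -/
def En (n : ℕ) (st : ℕ → ℕ) (c : Option Vt) (v w : ℕ) : Prop :=
  (v < 4 ∧ w = v ∧ c = some (sV v)) ∨ (v = 1 ∧ w = 4 ∧ ∃ x < n, ∃ e < 6, c = some (mV e x) ∧ st x = 6)

def Z (n : ℕ) (st : ℕ → ℕ) (v : ℕ) : Prop := (Oc n st + v) % 2 = 0 ∧ (Mc n st + v / 2) % 2 = 0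

theorem me_iff {e e'} : ME e e' ↔ (e ≤ 1 ∧ (e' = 3 - e ∨ e' = 4)) ∨
    ((e = 2 ∨ e = 3) ∧ (e' = e - 2 ∨ e' = 4 ∨ e' = 5)) ∨ (e = 5 ∧ e' = 4) := by
  simp only [ME, List.mem_cons, Prod.mk.injEq, List.not_mem_nil, or_false]
  constructor
  · rintro (h | h | h | h | h | h | h | h | h | h | h) <;> obtain ⟨rfl, rfl⟩ := h <;> simp
  · rintro (⟨h, rfl | rfl⟩ | ⟨rfl | rfl, rfl | rfl | rfl⟩ | ⟨rfl, rfl⟩)
    any_goals simp; done
    all_goals interval_cases e <;> simp

theorem ME.el {e e'} (h : ME e e') : (e ≤ 1 ∧ (e' = 3 - e ∨ e' = 4)) ∨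
    ((e = 2 ∨ e = 3) ∧ (e' = e - 2 ∨ e' = 4 ∨ e' = 5)) ∨ (e = 5 ∧ e' = 4) := me_iff.1 h

theorem En.upd {c v w} (a : En n st c v w) (h : ME (st x) e) : En n (update st x e) c v w := by
  have := h.el
  rcases a with a | ⟨a, b, y, hy, f, hf, c, d⟩
  · exact Or.inl a
  · exact Or.inr ⟨a, b, y, hy, f, hf, c, by rw [update_of_ne (by rintro rfl; omega), d]⟩

theorem en_step {c v w q} (a : En n st c v w) (hq : AM n L ins (c, st) q) (d : Z n st v) :
    ∃ v' w', En n q.2 q.1 v' w' ∧ ¬ Z n q.2 v' ∧ Lc n q.2 + (Oc n q.2 + Mc n q.2) + w' ≤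
        Lc n st + (Oc n st + Mc n st) + w := by
  cases hq with
  | cap h => simp only [En, CE] at a h; grind
  | @go u v' _ h =>
    obtain ⟨j, rfl, h1, h2⟩ : ∃ j, v' = sV j ∧ j < w ∧ j ≠ v := by simp only [En, CE] at a h; grind
    have : v < 4 ∧ w ≤ 4 := by simp only [En] at a; omega
    exact ⟨j, j, Or.inl ⟨by omega, rfl, rfl⟩, by simp only [Z] at d ⊢; omega, by
      simp only; omega⟩
  | hit h => have := h.el; simp only [En] at a; grind
  | @mem _ _ e x h hx =>
    have := Mc_upd (st := st) hx e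
    have := Lc_upd (st := st) hx e
    have := Oc_upd (st := st) hx e
    have := h.el
    exact ⟨v, w, a.upd h, by simp only [Z] at d ⊢; grind, by grind⟩

theorem endW' (k : ℕ) : ∀ c st v w, En n st c v w → Lc n st + (Oc n st + Mc n st) + w ≤ k →
    ¬ Z n st v → W (AM n L ins) (c, st) := by
  induction k using Nat.strong_induction_on with
  | _ k ih =>
  intro c st v w hc hk ho
  have key : ∀ c' st' v' w', En n st' c' v' w' → Lc n st' + (Oc n st' + Mc n st') + w' < k →
      Z n st' v' → Lo (AM n L ins) (c', st') := fun c' st' v' w' a b d q hq =>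
    let ⟨_, _, a1, a2, a3⟩ := en_step a hq d
    ih _ b _ _ _ _ a1 a3 a2
  have ctl : ∀ j, j < w → (w = 4 → j = 0) → Z n st j → W (AM n L ins) (c, st) := fun j a b d => by
    have hj : j < 4 := by simp only [En] at hc; omega
    obtain ⟨u, rfl, h⟩ : ∃ u, c = some u ∧ CE n L ins u (sV j) := by
      rcases hc with ⟨h1, h2, rfl⟩ | ⟨-, h2, x, hx, e, he, rfl, -⟩
      · exact ⟨_, rfl, Or.inr (Or.inr (Or.inr ⟨v, h1, j, by omega, rfl, rfl⟩))⟩
      · exact ⟨_, rfl, Or.inr (Or.inr (Or.inl ⟨x, hx, e, he, rfl, Or.inl (by rw [b h2])⟩))⟩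
    exact .mk _ _ (.go h (by simp)) (key _ _ j j (Or.inl ⟨hj, rfl, rfl⟩) (by omega) d)
  have mv : ∀ x < n, ∀ e, ME (st x) e → 4 ≤ e → Z n (update st x e) v →
      W (AM n L ins) (c, st) := fun x hx e h he d => by
    have := Mc_upd (st := st) hx e
    have := Lc_upd (st := st) hx e
    have := Oc_upd (st := st) hx e
    have := h.el
    exact .mk _ _ (.mem h hx (by simp only [En] at hc; grind))
      (key _ _ v w (hc.upd h) (by grind) d)
  have hv : v < 4 ∧ (w = v ∨ (v = 1 ∧ w = 4)) := by simp only [En] at hc; omega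
  by_cases e2 : (Mc n st + v / 2) % 2 = 0
  · by_cases e1 : v % 2 = 1
    · exact ctl (v - 1) (by omega) (by omega) (by simp only [Z] at ho ⊢; omega)
    obtain ⟨x, hx⟩ := Finset.card_pos.1 (show 0 < Oc n st by simp only [Z] at ho; omega)
    simp only [Finset.mem_filter, Finset.mem_range] at hx
    have := Mc_upd (st := st) hx.1 4
    have := Oc_upd (st := st) hx.1 4
    exact mv x hx.1 4 (me_iff.2 (by omega)) le_rfl (by simp only [Z] at ho ⊢; grind)
  by_cases e1 : 2 ≤ v
  · exact ctl (Oc n st % 2) (by omega) (by omega) (by simp only [Z]; omega)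
  obtain ⟨x, hx⟩ := Finset.card_pos.1 (show 0 < Mc n st by omega)
  simp only [Finset.mem_filter, Finset.mem_range] at hx
  have := Mc_upd (st := st) hx.1 (4 + (Oc n st + v) % 2)
  have := Oc_upd (st := st) hx.1 (4 + (Oc n st + v) % 2)
  exact mv x hx.1 (4 + (Oc n st + v) % 2) (me_iff.2 (by omega)) (by omega)
    (by simp only [Z]; grind)

theorem endW {c v w} (hc : En n st c v w) (ho : ¬ Z n st v) : W (AM n L ins) (c, st) :=
  endW' _ c st v w hc le_rfl ho

theorem endL {c v w} (a : En n st c v w) (d : Z n st v) : Lo (AM n L ins) (c, st) := fun _ hq =>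
  let ⟨_, _, a1, a2, _⟩ := en_step a hq d
  endW a1 a2

theorem goW {u j} (h : CE n L ins u (sV j)) (hj : j < 4) (d : Z n st j) :
    W (AM n L ins) (some u, st) :=
  .mk _ _ (.go h (by simp)) (endL (Or.inl ⟨hj, rfl, rfl⟩) d)

theorem sW {j} (hj : j < 4) (d : ¬ Z n st j) : W (AM n L ins) (some (sV j), st) :=
  endW (Or.inl ⟨hj, rfl, rfl⟩) d

theorem trapW (hx : x < n) (he : e < 6) (d : Z n st 0 ∨ Z n st 3) :
    W (AM n L ins) (some (mV e x), st) :=
  d.elim (goW (Or.inr (Or.inr (Or.inl ⟨x, hx, e, he, rfl, Or.inl rfl⟩))) (by omega))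
    (goW (Or.inr (Or.inr (Or.inl ⟨x, hx, e, he, rfl, Or.inr rfl⟩))) (by omega))

theorem capW {u} (h : CE n L ins u (mV (st x) x)) (hx : x < n) (he : st x < 6)
    (hp : ((st x ≤ 1 ∨ st x = 5) ∧ Z n st 0) ∨ ((st x = 2 ∨ st x = 3) ∧ Z n st 3)) :
    W (AM n L ins) (some u, st) := by
  have := Mc_upd (st := st) hx 6
  have := Oc_upd (st := st) hx 6
  exact .mk _ _ (.cap h hx rfl he) (endL (Or.inr ⟨rfl, rfl, x, hx, _, he, rfl, by simp⟩)
    (by simp only [Z] at hp ⊢; grind))

theorem ce_c {q v} : CE n L ins (cV q) v ↔ q ∈ L ∧ ((∃ i < (ins q).2.length, v = oV i q) ∨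
    v = sV 1 ∨ v = sV 2 ∨
    ∃ x < n, v = mV 5 x ∨ ∃ b, (ins q).1 ≠ some (x, b) ∧ v = mV (2 + b.toNat) x) := by
  simp only [CE, Prod.mk.injEq]
  grind

theorem ce_o {q i v} : CE n L ins (oV i q) v ↔ q ∈ L ∧ i < (ins q).2.length ∧
    ((∃ q' ∈ (opt ins q i).2, v = cV q') ∨ (∃ g ∈ (opt ins q i).1, v = mV (!g.2).toNat g.1) ∨
      v = sV 1 ∨ ∃ x < n, v = mV 2 x ∨ v = mV 3 x) := by
  simp only [CE, Prod.mk.injEq]
  grind

theorem oneW {q y} (hq : q ∈ L) (hy : y < n) (h : st y = 5) (d : Z n st 0) :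
    W (AM n L ins) (some (cV q), st) :=
  capW (x := y) (ce_c.2 ⟨hq, Or.inr (Or.inr (Or.inr ⟨y, hy, Or.inl (by rw [h])⟩))⟩) hy (by omega)
    (Or.inl ⟨Or.inr h, d⟩)

theorem midL {q b} (hq : q ∈ L) (h1 : (ins q).1 = some (x, b)) (hx : x < n)
    (h2 : st x = 2 + b.toNat) (h3 : Z n st 3) (h4 : ∀ y < n, y ≠ x → st y ≠ 2 ∧ st y ≠ 3)
    (h5 : W (AM n L ins) (some (cV q), update st x b.toNat))
    (h6 : ∀ y < n, y ≠ x → st y ≤ 1 → W (AM n L ins) (some (cV q), update st y (3 - st y))) :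
    Lo (AM n L ins) (some (cV q), st) := by
  have hb := b.toNat_le
  intro p hp
  generalize hc : some (cV q) = c at hp
  cases hp with
  | @cap u _ e y h hy h' he =>
    cases hc
    have := Mc_upd (st := st) hy 6
    have := Oc_upd (st := st) hy 6
    obtain ⟨-, h | h | h | ⟨z, -, h | ⟨b', h7, h⟩⟩⟩ := ce_c.1 h
    any_goals simp at h; done
    · exact endW (Or.inr ⟨rfl, rfl, y, hy, e, he, rfl, by simp⟩) (by simp only [Z] at h3 ⊢; grind)
    · have := b'.toNat_le
      have := h4 y hy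
      cases b <;> cases b' <;> grind
  | @go u v _ h =>
    cases hc
    obtain ⟨-, ⟨i, hi, rfl⟩ | rfl | rfl | ⟨z, hz, rfl | ⟨b', h7, rfl⟩⟩⟩ := ce_c.1 h
    · exact capW (ce_o.2 ⟨hq, hi, Or.inr (Or.inr (Or.inr ⟨x, hx, by grind⟩))⟩) hx
        (by omega) (Or.inr ⟨by omega, h3⟩)
    · exact sW (by omega) (by simp only [Z] at h3 ⊢; omega)
    · exact sW (by omega) (by simp only [Z] at h3 ⊢; omega)
    · exact trapW hz (by omega) (Or.inr h3)
    · exact trapW hz (by have := b'.toNat_le; omega) (Or.inr h3)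
  | hit => simp at hc
  | @mem _ _ e y h hy =>
    subst hc
    have := Mc_upd (st := st) hy e
    have := Oc_upd (st := st) hy e
    have := h.el
    have := h4 y hy
    by_cases e4 : e = 4
    · by_cases e' : y = x
      · exact goW (j := 1) (ce_c.2 ⟨hq, by simp⟩) (by omega) (by simp only [Z] at h3 ⊢; grind)
      · exact goW (j := 2) (ce_c.2 ⟨hq, by simp⟩) (by omega) (by simp only [Z] at h3 ⊢; grind)
    by_cases e' : y = x
    · subst e'
      obtain rfl | rfl : e = b.toNat ∨ e = 5 := by omega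
      · exact h5
      · exact oneW hq hy (by simp) (by simp only [Z] at h3 ⊢; grind)
    · obtain rfl : e = 3 - st y := by grind
      exact h6 y hy e' (by grind)

theorem midL' {q b} (hq : q ∈ L) (h1 : (ins q).1 = some (x, b)) (hx : x < n)
    (h2 : st x = 2 + b.toNat) (h3 : Z n st 3) (h4 : ∀ y < n, y ≠ x → st y ≠ 2 ∧ st y ≠ 3)
    {y} (hy : y < n) (e' : y ≠ x) (h : st y ≤ 1) :
    W (AM n L ins) (some (cV q), update st y (3 - st y)) := by
  have hb := b.toNat_le
  have a1 := Mc_upd (st := st) hy 5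
  have a2 := Oc_upd (st := st) hy 5
  have a3 : Z n (update st y 5) 3 := by simp only [Z] at h3 ⊢; grind
  refine .mk _ _ (.mem (e := 5) (x := y) (me_iff.2 (by rw [update_self]; omega)) hy (by simp)) ?_
  rw [update_idem]
  refine midL hq h1 hx (by grind) a3 (by grind) (oneW hq hy (by grind) ?_)
    fun z hz ne h' => oneW hq hy (by grind) ?_
  · have := Mc_upd (st := update st y 5) hx b.toNat
    have := Oc_upd (st := update st y 5) hx b.toNat
    simp only [Z] at a3 ⊢
    grind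
  · have := Mc_upd (st := update st y 5) hz (3 - update st y 5 z)
    have := Oc_upd (st := update st y 5) hz (3 - update st y 5 z)
    simp only [Z] at a3 ⊢
    grind

theorem z_rs (hn : n % 2 = 0) (m) : Z n (rs m) 0 := by
  have : Oc n (rs m) = n := by
    rw [Oc, Finset.filter_true_of_mem fun x _ => Or.inl (rs_le m x), Finset.card_range]
  simp [Z, this, Mc_rs, hn]

variable (w : WF n L ins) (hn : n % 2 = 0)
include w hn

theorem optL {q i m} (hq : q ∈ L) (hi : i < (ins q).2.length) :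
    Lo (AM n L ins) (some (oV i q), rs m) ↔ (∀ g ∈ (opt ins q i).1, m g.1 = g.2) ∧
      ∀ q' ∈ (opt ins q i).2, W (AM n L ins) (some (cV q'), rs m) := by
  have ho := w.h2 q hq (opt ins q i) (by
    rw [opt, List.getD_eq_getElem _ _ hi]; exact List.getElem_mem _)
  have z := z_rs hn m
  have r := rs_le m
  refine ⟨fun h => ⟨fun g hg => by_contra fun e => W.excl (capW (x := g.1) (ce_o.2 ⟨hq, hi,
    Or.inr (Or.inl ⟨g, hg, by simp [rs, Bool.eq_not.2 e]⟩)⟩) (ho.1 g hg) (by grind)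
      (Or.inl ⟨Or.inl (r _), z⟩)) h,
    fun q' h' => h _ (.go (ce_o.2 ⟨hq, hi, Or.inl ⟨q', h', rfl⟩⟩) (by simp))⟩, fun h p hp => ?_⟩
  generalize hc : some (oV i q) = c at hp
  cases hp with
  | @cap u _ e y h1 hy h' =>
    cases hc
    obtain ⟨-, -, h1 | ⟨g, hg, h1⟩ | h1 | h1⟩ := ce_o.1 h1
    · simp at h1
    · have := h.1 g hg
      simp only [Prod.mk.injEq, rs] at h1 h'
      cases e : g.2 <;> grind
    · simp at h1
    · grind
  | @go u v _ h1 =>
    cases hc
    obtain ⟨-, -, ⟨q', a, rfl⟩ | ⟨g, hg, rfl⟩ | rfl | ⟨z', hz, rfl | rfl⟩⟩ := ce_o.1 h1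
    · exact h.2 q' a
    · exact trapW (ho.1 g hg) (by have := (!g.2).toNat_le; omega) (Or.inl z)
    · exact sW (by omega) (by simp only [Z] at z ⊢; omega)
    · exact trapW hz (by omega) (Or.inl z)
    · exact trapW hz (by omega) (Or.inl z)
  | hit => simp at hc
  | @mem _ _ e y h1 hy =>
    subst hc
    have := Mc_upd (st := rs m) hy e
    have := Oc_upd (st := rs m) hy e
    have := r y
    have := h1.el
    by_cases e4 : e = 4
    · exact goW (j := 1) (ce_o.2 ⟨hq, hi, by simp⟩) (by omega) (by simp only [Z] at z ⊢; grind)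
    exact capW (x := y) (ce_o.2 ⟨hq, hi, Or.inr (Or.inr (Or.inr ⟨y, hy, by grind⟩))⟩) hy
      (by grind) (Or.inr ⟨by grind, by simp only [Z] at z ⊢; grind⟩)

theorem hi_win {q m} (hq : q ∈ L) : W (AM n L ins) (some (cV q), rs m) ↔ Win ins q m := by
  constructor
  · intro h
    generalize hp : (some (cV q), rs m) = p at h
    induction h generalizing q m with
    | mk p p' a b ih =>
    subst hp
    have z := z_rs hn m
    have r := rs_le m
    generalize hc : some (cV q) = c at a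
    cases a with
    | @cap u _ e y h1 hy h' =>
      cases hc
      have := ce_c.1 h1
      grind
    | @go u v _ h1 =>
      cases hc
      obtain ⟨-, ⟨i, hi, rfl⟩ | rfl | rfl | ⟨z', hz, rfl | ⟨b', h7, rfl⟩⟩⟩ := ce_c.1 h1
      · have ho : opt ins q i ∈ (ins q).2 := by
          rw [opt, List.getD_eq_getElem _ _ hi]; exact List.getElem_mem _
        exact .mk _ _ m _ (Or.inl rfl) ho ((optL w hn hq hi).1 b).1 fun q' h' =>
          ih _ (.go (ce_o.2 ⟨hq, hi, Or.inl ⟨q', h', rfl⟩⟩) (by simp)) ((w.h2 q hq _ ho).2 q' h') rfl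
      · exact (W.excl (sW (by omega) (by simp only [Z] at z ⊢; omega)) b).elim
      · exact (W.excl (sW (by omega) (by simp only [Z] at z ⊢; omega)) b).elim
      · exact (W.excl (trapW hz (by omega) (Or.inl z)) b).elim
      · exact (W.excl (trapW hz (by have := b'.toNat_le; omega) (Or.inl z)) b).elim
    | hit => simp at hc
    | @mem _ _ e y h1 hy =>
      subst hc
      have := Mc_upd (st := rs m) hy e
      have := Oc_upd (st := rs m) hy e
      have := r y
      have := h1.el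
      by_cases e4 : e = 4
      · exact (W.excl (goW (j := 1) (ce_c.2 ⟨hq, by simp⟩) (by omega)
          (by simp only [Z] at z ⊢; grind)) b).elim
      obtain rfl : e = 2 + (!m y).toNat := by
        simp only [rs] at *
        cases e : m y <;> grind
      have hb := (!m y).toNat_le
      by_cases l : (ins q).1 = some (y, !m y)
      · have := ih _ (.mem (e := (!m y).toNat) (x := y) (me_iff.2 (by rw [update_self]; omega)) hy
          (by simp)) hq
          (by rw [update_idem, rs_upd])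
        obtain ⟨m', a, c⟩ := win_iff.1 this
        refine win_iff.2 ⟨m', Or.inr ⟨_, _, l, ?_⟩, c⟩
        rcases a with a | ⟨_, _, a, rfl⟩
        · exact a
        · cases l.symm.trans a
          exact update_idem ..
      · exact (W.excl (capW (x := y) (ce_c.2 ⟨hq, Or.inr (Or.inr (Or.inr
          ⟨y, hy, Or.inr ⟨_, l, by simp⟩⟩))⟩) hy
          (by grind) (Or.inr ⟨by grind, by simp only [Z] at z ⊢; grind⟩)) b).elim
  · intro h
    induction h with
    | mk q m m' o a b c d ih =>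
    obtain ⟨i, hi, rfl⟩ := List.getElem_of_mem b
    have e : opt ins q i = (ins q).2[i] := List.getD_eq_getElem _ _ hi
    have k : W (AM n L ins) (some (cV q), rs m') := .mk _ _
      (.go (ce_c.2 ⟨hq, Or.inl ⟨i, hi, rfl⟩⟩) (by simp)) ((optL w hn hq hi).2
        ⟨e ▸ c, e ▸ fun q' h' => ih q' h' ((w.h2 q hq _ b).2 q' h')⟩)
    rcases a with rfl | ⟨x, v, a, rfl⟩
    · exact k
    by_cases e' : m x = v
    · rwa [← e', update_eq_self] at k
    have hx := w.h1 q hq x v a
    have z := z_rs hn m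
    have r := rs_le m
    have := Mc_upd (st := rs m) hx (2 + v.toNat)
    have := Oc_upd (st := rs m) hx (2 + v.toNat)
    have hb := v.toNat_le
    have z3 : Z n (update (rs m) x (2 + v.toNat)) 3 := by simp only [Z] at z ⊢; grind
    refine .mk _ _ (.mem (e := 2 + v.toNat) (x := x) (by
      simp only [ME, rs, Bool.eq_not.2 e']; cases v <;> simp) hx (by simp))
      (midL hq a hx (by simp) z3 (by grind) (by rwa [update_idem, rs_upd])
        fun y hy ne h => midL' hq a hx (by simp) z3 (by grind) hy ne h)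

end Pool.Agent.H22.EX.Hi
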