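import Pool.Agent.H22.Hi1

/-! Hit is EXPTIME-hard. -/

namespace Pool.Agent.H22.EX.Hi

open Pool.Agent.H38.NP Function

def CL (n : ℕ) (L : List Q) (ins : Q → In) : List (Vt × Vt) :=
  L.flatMap (fun q => ((List.range (ins q).2.length).map fun i => (cV q, oV i q)) ++
    (cV q, sV 1) :: (cV q, sV 2) :: (List.range n).flatMap fun x => (cV q, mV 5 x) ::
      ([false, true].filter fun b => decide ((ins q).1 ≠ some (x, b))).map fun b =>
        (cV q, mV (2 + b.toNat) x)) ++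
  (L.flatMap (fun q => (List.range (ins q).2.length).flatMap fun i =>
    ((opt ins q i).2.map fun q' => (oV i q, cV q')) ++
    (((opt ins q i).1.map fun g => (oV i q, mV (!g.2).toNat g.1)) ++
    (oV i q, sV 1) :: (List.range n).flatMap fun x => [(oV i q, mV 2 x), (oV i q, mV 3 x)])) ++
  ((List.range n).flatMap (fun x => (List.range 6).flatMap fun e =>
    [(mV e x, sV 0), (mV e x, sV 3)]) ++
    (List.range 4).flatMap fun i => (List.range i).map fun j => (sV i, sV j)))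

def ML (n : ℕ) : List (Vt × Vt) := (List.range n).flatMap fun x =>
  [(0, 3), (1, 2), (0, 4), (1, 4), (2, 0), (3, 1), (2, 4), (3, 4), (2, 5), (3, 5), (5, 4)].map
    fun e : ℕ × ℕ => (mV e.1 x, mV e.2 x)

def EV (n : ℕ) (L : List Q) (ins : Q → In) : List (ℕ × Vt × Vt) :=
  (CL n L ins).map (fun e => (0, e)) ++ (ML n).map fun e => (1, e)

variable {n : ℕ} {L : List Q} {ins : Q → In}

theorem mem_CL {u v} : (u, v) ∈ CL n L ins ↔ CE n L ins u v := by
  have : ∀ b : Bool, b ∈ [false, true] := fun b => by cases b <;> simp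
  simp only [CL, CE, List.mem_append, List.mem_flatMap, List.mem_map, List.mem_range,
    List.mem_cons (a := (u, v)), List.mem_filter, this, true_and, decide_eq_true_eq,
    Prod.mk.injEq (fst := u), List.not_mem_nil, or_false, @eq_comm _ _ (u, v)]
  refine or_congr (exists_congr fun q => and_congr Iff.rfl ?_) (or_congr (exists_congr fun q =>
    and_congr Iff.rfl (exists_congr fun i => and_congr Iff.rfl ?_)) (or_congr ?_ Iff.rfl))
  · by_cases e : u = cV q <;> simp only [e, true_and, false_and, and_false, exists_false, or_self]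
  · by_cases e : u = oV i q <;> simp only [e, true_and, false_and, and_false, exists_false, or_self]
  · simp only [and_or_left]

theorem mem_EV {i u v} : (i, u, v) ∈ EV n L ins ↔ (i = 0 ∧ CE n L ins u v) ∨
    (i = 1 ∧ ∃ x < n, ∃ e e', ME e e' ∧ u = mV e x ∧ v = mV e' x) := by
  simp only [EV, List.mem_append, List.mem_map, ML, List.mem_flatMap, List.mem_range, ME,
    ← mem_CL]
  refine or_congr ⟨?_, ?_⟩ ⟨?_, ?_⟩
  · rintro ⟨_, h, ⟨⟩⟩
    exact ⟨rfl, h⟩
  · rintro ⟨rfl, h⟩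
    exact ⟨_, h, rfl⟩
  · rintro ⟨_, ⟨x, hx, e, h, rfl⟩, ⟨⟩⟩
    exact ⟨rfl, x, hx, e.1, e.2, h, rfl, rfl⟩
  · rintro ⟨rfl, x, hx, e, e', h, rfl, rfl⟩
    exact ⟨_, ⟨x, hx, (e, e'), h, rfl⟩, rfl⟩

theorem CE.ne {u v} (h : CE n L ins u v) : u ≠ v := by
  simp only [CE] at h
  grind

theorem ME.ne {e e'} (h : ME e e') : e ≠ e' ∧ e < 6 ∧ e' < 6 := by
  have := h.el
  omega

def occ (n : ℕ) (st : ℕ → ℕ) (v : Vt) : Prop :=
  v.1 = 3 ∧ v.2.2.1 < n ∧ v.2.2.2 = (0, 0, 0, 0) ∧ st v.2.2.1 = v.2.1 ∧ v.2.1 < 6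

theorem occ_iff {st v} : occ n st v ↔ ∃ x < n, st x < 6 ∧ v = mV (st x) x := by
  obtain ⟨a, b, c, d⟩ := v
  refine ⟨fun h => ⟨c, ?_⟩, fun ⟨x, h⟩ => ?_⟩ <;> simp only [occ, Prod.mk.injEq] at h ⊢ <;> grind

open Classical in
noncomputable def plc (n : ℕ) (a : Ab) (v : Vt) : Option ℕ :=
  if a.1 = some v then some 0 else if occ n a.2 v then some 1 else none

open Classical in
theorem p_ctl {u v st} (h : u ≠ v) (ha : ¬ occ n st u) :
    update (update (plc n (some u, st)) u none) v (some 0) =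
    plc n (some v, if occ n st v then update st v.2.2.1 6 else st) := by
  funext z
  obtain ⟨a, b, c, d⟩ := v
  obtain ⟨a', b', c', d'⟩ := z
  by_cases o : occ n st (a, b, c, d) <;>
    simp only [o, if_true, if_false] <;>
    simp only [plc, update_apply, occ] at ha o ⊢ <;> grind

theorem p_mem {c st e x} (h : ME (st x) e) (hx : x < n) (ha : c ≠ some (mV (st x) x)) :
    update (update (plc n (c, st)) (mV (st x) x) none) (mV e x) (some 1) =
    plc n (if c = some (mV e x) then none else c, update st x e) := by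
  funext z
  have := h.ne
  obtain ⟨a', b', c', d'⟩ := z
  by_cases o : c = some (mV e x) <;> simp only [o, if_true, if_false] <;>
    simp only [plc, update_apply, occ] at ha o ⊢ <;> grind

theorem hi_bisim {a : Ab} (ha : ∀ x < n, a.2 x < 6 → a.1 ≠ some (mV (a.2 x) x)) :
    W (AM n L ins) a ↔ W (HitMove (EV n L ins)) (plc n a) := by
  have oc : ∀ {u} {st : ℕ → ℕ}, (∀ x < n, st x < 6 → some u ≠ some (mV (st x) x)) → ¬ occ n st u :=
    fun h e => let ⟨x, a, b, c⟩ := occ_iff.1 e; h x a b (congrArg _ c)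
  refine W.bisim (plc n) (fun a => ∀ x < n, a.2 x < 6 → a.1 ≠ some (mV (a.2 x) x))
    (fun a b ha h => ?_) (fun a b ha h => ?_) ?_ ha
  · cases h <;> simp only [update_apply] at ha ⊢ <;> grind
  · cases h with
    | @cap u st e x h hx h1 h2 =>
      refine ⟨0, u, mV e x, mem_EV.2 (Or.inl ⟨rfl, h⟩), by simp [plc], ?_⟩
      rw [p_ctl h.ne (oc ha), if_pos (by simp [occ, *])]
    | @go u v st h h1 =>
      refine ⟨0, u, v, mem_EV.2 (Or.inl ⟨rfl, h⟩), by simp [plc], ?_⟩
      rw [p_ctl h.ne (oc ha), if_neg (by simpa [occ_iff] using h1)]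
    | @hit st e x h hx =>
      refine ⟨1, _, _, mem_EV.2 (Or.inr ⟨rfl, x, hx, _, _, h, rfl, rfl⟩), by
        simp [plc, occ, hx, h.ne, h.ne.1.symm], ?_⟩
      rw [p_mem h hx (ha x hx h.ne.2.1), if_pos rfl]
    | @mem c st e x h hx h1 =>
      refine ⟨1, _, _, mem_EV.2 (Or.inr ⟨rfl, x, hx, _, _, h, rfl, rfl⟩), by
        simp [plc, occ, hx, h.ne, show ¬ c = _ from ha x hx h.ne.2.1], ?_⟩
      rw [p_mem h hx (ha x hx h.ne.2.1), if_neg h1]
  · rintro ⟨c, st⟩ q ha ⟨i, u, v, h0, h2, rfl⟩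
    rcases mem_EV.1 h0 with ⟨rfl, h⟩ | ⟨rfl, x, hx, e, e', h, rfl, rfl⟩
    · obtain rfl : c = some u := by simp only [plc] at h2; grind
      rw [p_ctl h.ne (oc ha)]
      refine ⟨_, ?_, rfl⟩
      by_cases o : occ n st v
      · rw [if_pos o]
        obtain ⟨x, hx, h3, rfl⟩ := occ_iff.1 o
        exact .cap h hx rfl h3
      · rw [if_neg o]
        exact .go h fun x a b c => o (occ_iff.2 ⟨x, a, b, c⟩)
    · obtain rfl : st x = e := by simp only [plc, occ] at h2; grind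
      rw [p_mem h hx (ha x hx h.ne.2.1)]
      refine ⟨_, ?_, rfl⟩
      split_ifs with o
      · cases o
        exact .hit h hx
      · exact .mem h hx o

theorem hi_code {E : List (ℕ × Vt × Vt)} (p : ℕ → Option ℕ) :
    W (HitMove (cdE E)) p ↔ W (HitMove E) (p ∘ codeV) := by
  refine W.bisim (· ∘ codeV) (fun _ => True) (fun _ _ _ _ => trivial) ?_ ?_ trivial
  · rintro a _ - ⟨i, u, v, h0, h1, rfl⟩
    obtain ⟨⟨i', u', v'⟩, h, e⟩ := List.mem_map.1 h0
    cases e
    exact ⟨_, _, _, h, h1, by simp only [update_comp_eq_of_injective _ codeV_inj]⟩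
  · rintro a _ - ⟨i, u, v, h, h1, rfl⟩
    exact ⟨_, ⟨i, _, _, List.mem_map_of_mem h, h1, rfl⟩,
      by simp only [update_comp_eq_of_injective _ codeV_inj]⟩

theorem hi_hard : EXPTIMEHardOn TwoTypes HitWin := by
  intro A hA
  obtain ⟨n, L, ins, p1, p2, p3, h⟩ := rg_hard hA
  have p0 : PT fun x => n x + n x := by fun_prop
  have p4 : PT fun x => EV (n x + n x) (L x) (ins x) := by
    unfold EV CL ML opt
    fun_prop
  have p5 : PT fun x => (cdE (EV (n x + n x) (L x) (ins x)), toks (n x + n x) 0) :=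
    PT.mk (pt_cdE.comp p4) ((pt_toks 0).comp p0)
  refine ⟨_, PT.polyTime p5.raw, fun x => ⟨_, rfl, ⟨List.forall_mem_map.2 ?_, toks_ok⟩, ?_⟩⟩
  · rintro ⟨i, u, v⟩ h0
    rcases mem_EV.1 h0 with ⟨rfl, h⟩ | ⟨rfl, x, hx, e, e', h, rfl, rfl⟩
    · exact ⟨by simp, codeV_inj.ne h.ne⟩
    · exact ⟨le_rfl, codeV_inj.ne (by simpa using h.ne.1)⟩
  · obtain ⟨w, e⟩ := h ⟨x⟩
    have w' : WF (n ⟨x⟩ + n ⟨x⟩) (L ⟨x⟩) (ins ⟨x⟩) := ⟨w.h0, fun q hq y b h =>
      (w.h1 q hq y b h).trans_le (Nat.le_add_right _ _), fun q hq o ho =>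
      ⟨fun g hg => ((w.h2 q hq o ho).1 g hg).trans_le (Nat.le_add_right _ _), (w.h2 q hq o ho).2⟩⟩
    rw [e, ← hi_win w' (by omega) w.h0, hi_bisim (by simp), HitWin, hi_code]
    refine iff_of_eq (congrArg _ (funext fun v => ?_))
    simp only [comp, place_toks, plc, rs, List.mem_map, List.mem_range, occ_iff, Option.some.injEq,
      eq_comm (a := v)]
    simp

end Pool.Agent.H22.EX.Hi
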