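import Pool.Agent.H22.AnDefs

namespace Pool.Agent.H22.EX

/-- A move of Hit. `E` lists the triples `(i, u, v)` with `(u, v) ∈ E_i`; a placement gives the
type of the token on a vertex, if any. A token of type `i` slides from `u` to `v` and stays
there; a token that was on `v` is deleted. -/
def HitMove {V : Type} [DecidableEq V] (E : List (ℕ × V × V)) (p p' : V → Option ℕ) : Prop :=
  ∃ i u v, (i, u, v) ∈ E ∧ p u = some i ∧
    p' = Function.update (Function.update p u none) v (some i)

/-- the player to move wins the Hit position -/
def HitWin (I : TokPos) : Prop := W (HitMove I.1) (place I.2)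

end Pool.Agent.H22.EX
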