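import Mathlib

set_option autoImplicit false

namespace Pool.Agent.H22.IGraph

/-- independent dominating set -/
def IsIndDom {V : Type} (G : SimpleGraph V) (S : Set V) : Prop :=
  (∀ u ∈ S, ∀ v ∈ S, ¬ G.Adj u v) ∧ ∀ v, v ∉ S → ∃ u ∈ S, G.Adj v u

/-- independent dominating set of minimum size -/
def IsISet {V : Type} (G : SimpleGraph V) (S : Set V) : Prop :=
  IsIndDom G S ∧ ∀ T, IsIndDom G T → S.ncard ≤ T.ncard

/-- the i-graph of a seed graph: one token slides along an edge -/
def iGraph {V : Type} (G : SimpleGraph V) : SimpleGraph {S : Set V // IsISet G S} :=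
  SimpleGraph.fromRel (fun X Y => ∃ u v, u ∈ X.1 ∧ v ∉ X.1 ∧ G.Adj u v ∧ Y.1 = insert v (X.1 \ {u}))

/-- H is isomorphic to the i-graph of a finite seed graph -/
def IsIGraph {W : Type} (H : SimpleGraph W) : Prop :=
  ∃ (V : Type) (_ : Finite V) (G : SimpleGraph V), Nonempty (H ≃g iGraph G)

end Pool.Agent.H22.IGraph
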