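import Mathlib
import Pool.Agent.H22.IGraphDefs

set_option autoImplicit false

namespace Pool.Agent.H22.IGraph

def Sw {V : Type} (X Y : Set V) (u v : V) : Prop := u ∈ X ∧ v ∉ X ∧ Y = insert v (X \ {u})

lemma Sw.mem {V : Type} {X Y : Set V} {u v : V} (h : Sw X Y u v) (z : V) :
    z ∈ Y ↔ z = v ∨ (z ∈ X ∧ z ≠ u) := by
  rw [h.2.2]; simp

lemma Sw.mk' {V : Type} {X Y : Set V} {u v : V} (h1 : u ∈ X) (h2 : v ∉ X)
    (h : ∀ z, z ∈ Y ↔ z = v ∨ (z ∈ X ∧ z ≠ u)) : Sw X Y u v :=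
  ⟨h1, h2, by ext z; rw [h]; simp⟩

lemma Sw.symm {V : Type} {X Y : Set V} {u v : V} (h : Sw X Y u v) : Sw Y X v u := by
  have m := h.mem
  have h1 := h.1
  have h2 := h.2.1
  refine Sw.mk' ((m v).2 (Or.inl rfl)) ?_ ?_
  · rw [m]; grind
  · intro z; rw [m]; grind

lemma adj_iff {V : Type} (G : SimpleGraph V) (X Y : {S : Set V // IsISet G S}) :
    (iGraph G).Adj X Y ↔ ∃ u v, Sw X.1 Y.1 u v := by
  simp only [iGraph, SimpleGraph.fromRel_adj]
  constructor
  · rintro ⟨_, ⟨u, v, h1, h2, _, h3⟩ | ⟨u, v, h1, h2, _, h3⟩⟩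
    · exact ⟨u, v, h1, h2, h3⟩
    · exact ⟨v, u, Sw.symm ⟨h1, h2, h3⟩⟩
  · rintro ⟨u, v, h⟩
    refine ⟨?_, Or.inl ⟨u, v, h.1, h.2.1, ?_, h.2.2⟩⟩
    · rintro rfl
      exact h.2.1 ((h.mem v).2 (Or.inl rfl))
    · obtain ⟨w, hw, ha⟩ := X.2.1.2 v h.2.1
      by_cases hwu : w = u
      · rw [← hwu]; exact ha.symm
      · exact absurd ha (Y.2.1.1 v ((h.mem v).2 (Or.inl rfl)) w ((h.mem w).2 (Or.inr ⟨hw, hwu⟩)))

lemma square {V : Type} {A B C D : Set V} {a b d c p q r s : V} (h1 : Sw A B a b) (h2 : Sw D C d c)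
    (h3 : Sw A D p q) (h4 : Sw B C r s) (n1 : ¬ ∃ u v, Sw A C u v) (n2 : ¬ ∃ u v, Sw B D u v)
    (e1 : A ≠ C) (e2 : B ≠ D) : a = d := by
  have m1 := h1.mem
  have m2 := h2.mem
  have m3 := h3.mem
  have m4 := h4.mem
  have a1 := h1.1
  have a2 := h1.2.1
  have c1 := h3.1
  have c2 := h3.2.1
  have d1 := h4.1
  have d2 := h4.2.1
  have hp : a ≠ p := by
    rintro rfl
    by_cases hb : b = q
    · subst hb; exact e2 (by rw [h1.2.2, h3.2.2])
    · refine n2 ⟨b, q, Sw.mk' ((m1 b).2 (Or.inl rfl)) ?_ ?_⟩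
      · rw [m1]; grind
      · intro z; rw [m1, m3]; grind
  have hs : a ≠ s := by
    rintro rfl
    by_cases hb : r = b
    · subst hb; apply e1; ext z; rw [m4, m1]; grind
    · rw [m1] at d1
      refine n1 ⟨r, b, Sw.mk' (by grind) a2 ?_⟩
      intro z; rw [m4, m1]; grind
  have x1 : a ∈ D := (m3 a).2 (Or.inr ⟨a1, hp⟩)
  have x2 : a ∉ C := by rw [m4, m1]; grind
  by_contra hne
  exact x2 ((m2 a).2 (Or.inr ⟨x1, hne⟩))

def madj (n x y : ℕ) : Prop :=
  x + 1 = y ∨ y + 1 = x ∨ (x = 0 ∧ y + 1 = 2 * n) ∨ (y = 0 ∧ x + 1 = 2 * n) ∨ x + n = y ∨ y + n = x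

lemma no_mob {V : Type} (n : ℕ) (hn : 3 ≤ n) (X : ℕ → Set V)
    (h : ∀ i j, i < 2 * n → j < 2 * n → (madj n i j ↔ ∃ u v, Sw (X i) (X j) u v))
    (hi : ∀ i j, i < 2 * n → j < 2 * n → X i = X j → i = j) : False := by
  obtain ⟨a, b, h0⟩ := (h 0 n (by omega) (by omega)).1 (by unfold madj; omega)
  have sq : ∀ i j k l, i < 2 * n → j < 2 * n → k < 2 * n → l < 2 * n → madj n l k → madj n i l → madj n j k →
      ¬ madj n i k → ¬ madj n j l → i ≠ k → j ≠ l → (∃ b, Sw (X i) (X j) a b) → ∃ b, Sw (X l) (X k) a b := by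
    rintro i j k l hi' hj hk hl m1 m2 m3 m4 m5 e1 e2 ⟨b, hb⟩
    obtain ⟨d, c, h2⟩ := (h _ _ hl hk).1 m1
    obtain ⟨p, q, h3⟩ := (h _ _ hi' hl).1 m2
    obtain ⟨r, s, h4⟩ := (h _ _ hj hk).1 m3
    have := square hb h2 h3 h4 (fun x => m4 ((h _ _ hi' hk).2 x)) (fun x => m5 ((h _ _ hj hl).2 x))
      (fun x => e1 (hi _ _ hi' hk x)) (fun x => e2 (hi _ _ hj hl x))
    exact ⟨c, this ▸ h2⟩
  have key : ∀ i, i < n → ∃ b, Sw (X i) (X (i + n)) a b := by
    intro i
    induction i with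
    | zero => intro _; exact ⟨b, by simpa using h0⟩
    | succ i ih =>
      intro hi'
      refine sq i (i + n) (i + 1 + n) (i + 1) ?_ ?_ ?_ ?_ ?_ ?_ ?_ ?_ ?_ ?_ ?_ (ih (by omega)) <;>
        first | omega | (unfold madj; omega)
  obtain ⟨c, hc⟩ := sq (n - 1) (n - 1 + n) 0 n (by omega) (by omega) (by omega) (by omega)
    (by unfold madj; omega) (by unfold madj; omega) (by unfold madj; omega) (by unfold madj; omega)
    (by unfold madj; omega) (by omega) (by omega) (key (n - 1) (by omega))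
  exact h0.symm.2.1 hc.1

def mob (n : ℕ) (hn : 3 ≤ n) : SimpleGraph (Fin (2 * n)) where
  Adj x y := madj n x y
  symm := ⟨fun x y h => by unfold madj at *; omega⟩
  loopless := ⟨fun x h => by unfold madj at *; omega⟩

lemma mob_not (n : ℕ) (hn : 3 ≤ n) : ¬ IsIGraph (mob n hn) := by
  rintro ⟨V, _, G, ⟨e⟩⟩
  refine no_mob n hn (fun k => if h : k < 2 * n then (e ⟨k, h⟩).1 else ∅) ?_ ?_
  · intro i j hi hj
    simp only [dif_pos hi, dif_pos hj]
    rw [← adj_iff, e.map_adj_iff]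
    rfl
  · intro i j hi hj h
    simp only [dif_pos hi, dif_pos hj] at h
    have := e.injective (Subtype.ext h)
    simpa using this

lemma mob_conn (n : ℕ) (hn : 3 ≤ n) : (mob n hn).Connected := by
  have : Nonempty (Fin (2 * n)) := ⟨⟨0, by omega⟩⟩
  have key : ∀ k (h : k < 2 * n), (mob n hn).Reachable ⟨0, by omega⟩ ⟨k, h⟩ := by
    intro k
    induction k with
    | zero => intro _; exact SimpleGraph.Reachable.refl _
    | succ k ih =>
      intro h
      refine (ih (by omega)).trans (SimpleGraph.Adj.reachable ?_)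
      exact Or.inl rfl
  exact ⟨fun a b => (key a.1 a.2).symm.trans (key b.1 b.2)⟩

def ladj (i j : ℕ) (a b : Bool) : Prop := (a = b ∧ (i + 1 = j ∨ j + 1 = i)) ∨ (i = j ∧ a ≠ b)

def lad (m : ℕ) : SimpleGraph (Fin m × Bool) where
  Adj x y := ladj x.1 y.1 x.2 y.2
  symm := ⟨fun x y h => by unfold ladj at *; grind⟩
  loopless := ⟨fun x h => by unfold ladj at *; grind⟩

lemma lad_conn (m : ℕ) (hm : 1 ≤ m) : (lad m).Connected := by
  have : Nonempty (Fin m × Bool) := ⟨(⟨0, by omega⟩, true)⟩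
  have key : ∀ k (h : k < m) (a : Bool), (lad m).Reachable (⟨0, by omega⟩, true) (⟨k, h⟩, a) := by
    intro k
    induction k with
    | zero =>
      intro _ a
      cases a
      · exact SimpleGraph.Adj.reachable (Or.inr ⟨rfl, by simp⟩)
      · exact SimpleGraph.Reachable.refl _
    | succ k ih =>
      intro h a
      refine (ih (by omega) a).trans (SimpleGraph.Adj.reachable ?_)
      exact Or.inl ⟨rfl, Or.inl rfl⟩
  exact ⟨fun a b => (key a.1.1 a.1.2 a.2).symm.trans (key b.1.1 b.1.2 b.2)⟩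

def sadj (m : ℕ) : Bool ⊕ Fin (m + 1) → Bool ⊕ Fin (m + 1) → Prop
  | .inl a, .inl b => a ≠ b
  | .inr i, .inr j => i.1 ≠ j.1 ∧ i.1 + 1 ≠ j.1 ∧ j.1 + 1 ≠ i.1
  | _, _ => False

def seed (m : ℕ) : SimpleGraph (Bool ⊕ Fin (m + 1)) where
  Adj := sadj m
  symm := ⟨fun x y h => by rcases x with x | x <;> rcases y with y | y <;> simp only [sadj] at * <;> grind⟩
  loopless := ⟨fun x h => by rcases x with x | x <;> simp only [sadj] at * <;> grind⟩

def phi (m : ℕ) (x : Fin m × Bool) : Set (Bool ⊕ Fin (m + 1)) :=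
  {.inl x.2, .inr x.1.castSucc, .inr x.1.succ}

lemma inl_mem (m : ℕ) (x : Fin m × Bool) (a : Bool) : .inl a ∈ phi m x ↔ a = x.2 := by simp [phi]
lemma inr_mem (m : ℕ) (x : Fin m × Bool) (j : Fin (m + 1)) :
    .inr j ∈ phi m x ↔ (j.1 = x.1.1 ∨ j.1 = x.1.1 + 1) := by simp [phi, Fin.ext_iff]

lemma phi_card (m : ℕ) (x : Fin m × Bool) : (phi m x).ncard = 3 := by
  rw [Set.ncard_eq_three]
  exact ⟨_, _, _, by simp, by simp, by simp [Fin.ext_iff], rfl⟩

lemma phi_ind (m : ℕ) (x : Fin m × Bool) : IsIndDom (seed m) (phi m x) := by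
  constructor
  · rintro (u | u) hu (v | v) hv h <;> simp only [seed, sadj, inl_mem, inr_mem] at * <;> grind
  · rintro (v | v) hv
    · refine ⟨.inl x.2, by simp [phi], ?_⟩
      simpa [seed, sadj, inl_mem] using hv
    · rw [inr_mem] at hv
      by_cases h : v.1 < x.1.1
      · refine ⟨.inr x.1.succ, by simp [phi], ?_⟩
        simp only [seed, sadj, Fin.val_succ]; omega
      · refine ⟨.inr x.1.castSucc, by simp [phi], ?_⟩
        simp only [seed, sadj, Fin.val_castSucc]; omega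

lemma ind_phi (m : ℕ) (hm : 1 ≤ m) (S : Set (Bool ⊕ Fin (m + 1))) (h : IsIndDom (seed m) S) :
    ∃ x, S = phi m x := by
  classical
  have h1 : ∃ a, .inl a ∈ S := by
    by_cases h0 : .inl true ∈ S
    · exact ⟨_, h0⟩
    · obtain ⟨u | u, hu, ha⟩ := h.2 _ h0
      · exact ⟨_, hu⟩
      · exact absurd ha (by simp [seed, sadj])
  have h2 : ∃ k, ∃ hk : k < m + 1, .inr ⟨k, hk⟩ ∈ S := by
    by_cases h0 : .inr 0 ∈ S
    · exact ⟨0, by omega, h0⟩
    · obtain ⟨u | u, hu, ha⟩ := h.2 _ h0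
      · exact absurd ha (by simp [seed, sadj])
      · exact ⟨u.1, u.2, hu⟩
  obtain ⟨a, ha⟩ := h1
  obtain ⟨hj, hjS⟩ := Nat.find_spec h2
  set j := Nat.find h2 with hjd
  have hmin : ∀ u : Fin (m + 1), .inr u ∈ S → (u.1 = j ∨ u.1 = j + 1) := by
    intro u hu
    have b1 : j ≤ u.1 := Nat.find_min' h2 ⟨u.2, hu⟩
    have b2 := h.1 _ hu _ hjS
    simp only [seed, sadj] at b2
    omega
  have hjm : j < m := by
    by_contra hc
    have : (.inr ⟨j - 1, by omega⟩ : Bool ⊕ Fin (m + 1)) ∉ S := fun x => by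
      have := hmin _ x
      simp only at this; omega
    obtain ⟨u | u, hu, hb⟩ := h.2 _ this
    · exact absurd hb (by simp [seed, sadj])
    · have := hmin _ hu
      have := u.2
      simp only [seed, sadj] at hb
      omega
  have hj1 : (.inr ⟨j + 1, by omega⟩ : Bool ⊕ Fin (m + 1)) ∈ S := by
    by_contra hc
    obtain ⟨u | u, hu, hb⟩ := h.2 _ hc
    · exact absurd hb (by simp [seed, sadj])
    · have := hmin _ hu
      simp only [seed, sadj] at hb
      omega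
  refine ⟨(⟨j, hjm⟩, a), ?_⟩
  ext (b | u)
  · rw [inl_mem]
    constructor
    · intro hb
      have := h.1 _ hb _ ha
      simpa [seed, sadj] using this
    · rintro rfl; exact ha
  · rw [inr_mem]
    refine ⟨hmin u, ?_⟩
    rintro (h' | h')
    · have : u = ⟨j, hj⟩ := Fin.ext h'
      rw [this]; exact hjS
    · have : u = ⟨j + 1, by omega⟩ := Fin.ext h'
      rw [this]; exact hj1

lemma phi_iset (m : ℕ) (hm : 1 ≤ m) (x : Fin m × Bool) : IsISet (seed m) (phi m x) := by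
  refine ⟨phi_ind m x, fun T hT => ?_⟩
  obtain ⟨y, rfl⟩ := ind_phi m hm T hT
  rw [phi_card, phi_card]

lemma phi_inj (m : ℕ) (x y : Fin m × Bool) (h : phi m x = phi m y) : x = y := by
  have a1 : .inl x.2 ∈ phi m y := h ▸ (by simp [phi])
  have a2 : .inr x.1.castSucc ∈ phi m y := h ▸ (by simp [phi])
  have a3 : .inr x.1.succ ∈ phi m y := h ▸ (by simp [phi])
  rw [inl_mem] at a1
  rw [inr_mem] at a2 a3
  simp only [Fin.val_succ, Fin.val_castSucc] at a2 a3
  exact Prod.ext (Fin.ext (by omega)) a1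

lemma phi_adj (m : ℕ) (x y : Fin m × Bool) : (∃ u v, Sw (phi m x) (phi m y) u v) ↔ (lad m).Adj x y := by
  constructor
  · rintro ⟨u, v, h⟩
    have hne : x ≠ y := by
      rintro rfl
      exact h.2.1 ((h.mem v).2 (Or.inl rfl))
    have hne' : ¬ (x.1.1 = y.1.1 ∧ x.2 = y.2) := fun hh => hne (Prod.ext (Fin.ext hh.1) hh.2)
    have a1 := (h.mem (.inl x.2)).2
    have a2 := (h.mem (.inr x.1.castSucc)).2
    have a3 := (h.mem (.inr x.1.succ)).2
    simp only [inl_mem, inr_mem, Fin.val_succ, Fin.val_castSucc, true_or, or_true, true_and] at a1 a2 a3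
    show ladj _ _ _ _
    unfold ladj
    rcases u with u | u
    · have b2 := a2 (Or.inr (by simp))
      have b3 := a3 (Or.inr (by simp))
      right
      refine ⟨by omega, fun hh => hne' ⟨by omega, hh⟩⟩
    · have b1 := a1 (Or.inr (by simp))
      left
      refine ⟨b1, ?_⟩
      have : x.1.1 ≠ y.1.1 := fun hh => hne' ⟨hh, b1⟩
      by_cases hu : x.1.castSucc = u
      · have b3 := a3 (Or.inr (by rw [← hu]; simp [Fin.ext_iff]))
        omega
      · have b2 := a2 (Or.inr (by simpa using hu))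
        omega
  · have one : ∀ x y : Fin m × Bool, x.2 = y.2 → x.1.1 + 1 = y.1.1 →
        Sw (phi m x) (phi m y) (.inr x.1.castSucc) (.inr y.1.succ) := by
      intro x y h1 h2
      refine Sw.mk' (by simp [phi]) (by rw [inr_mem]; simp only [Fin.val_succ]; omega) ?_
      rintro (z | z)
      · simp [inl_mem, h1]
      · simp only [inr_mem, ne_eq, Sum.inr.injEq, Fin.ext_iff, Fin.val_succ, Fin.val_castSucc]; omega
    rintro (⟨h1, h2 | h2⟩ | ⟨h1, h2⟩)
    · exact ⟨_, _, one x y h1 h2⟩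
    · exact ⟨_, _, (one y x h1.symm h2).symm⟩
    · refine ⟨.inl x.2, .inl y.2, Sw.mk' (by simp [phi]) (by rw [inl_mem]; exact fun h => h2 h.symm) ?_⟩
      rintro (z | z)
      · simp only [inl_mem, ne_eq, Sum.inl.injEq]; grind
      · simp [inr_mem, h1]

lemma lad_is (m : ℕ) (hm : 1 ≤ m) : IsIGraph (lad m) := by
  refine ⟨_, inferInstance, seed m, ⟨?_⟩⟩
  refine ⟨Equiv.ofBijective (fun x => ⟨phi m x, phi_iset m hm x⟩) ⟨?_, ?_⟩, ?_⟩
  · intro x y h
    exact phi_inj m x y (congrArg Subtype.val h)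
  · rintro ⟨S, hS⟩
    obtain ⟨x, rfl⟩ := ind_phi m hm S hS.1
    exact ⟨x, rfl⟩
  · intro x y
    rw [adj_iff]
    exact phi_adj m x y

def pos (n r x : ℕ) : ℕ := if x < r then x + n - r - 1 else if x < r + n then x - r - 1 else x - r - n - 1
def side (n r x : ℕ) : Bool := decide (x < r ∨ r + n ≤ x)

lemma unroll (n r x y : ℕ) (hn : 3 ≤ n) (hr : r < n) (hx : x < 2 * n) (hy : y < 2 * n) (x1 : x ≠ r) (x2 : x ≠ r + n)
    (y1 : y ≠ r) (y2 : y ≠ r + n) :
    pos n r x < n - 1 ∧ (pos n r x = pos n r y → side n r x = side n r y → x = y) ∧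
    (ladj (pos n r x) (pos n r y) (side n r x) (side n r y) ↔ madj n x y) := by
  unfold ladj madj pos side
  simp only [ne_eq, decide_eq_decide]
  split_ifs <;> omega

lemma embed {k n : ℕ} (hn : 3 ≤ n) (hk : k < n) (A : SimpleGraph (Fin k)) (f : A ↪g mob n hn) :
    Nonempty (A ↪g lad (n - 1)) := by
  have : ∃ r : Fin n, ∀ x, (f x).1 ≠ r.1 ∧ (f x).1 ≠ r.1 + n := by
    by_contra hc
    push Not at hc
    have hs : Function.Surjective (fun x : Fin k => (⟨(f x).1 % n, Nat.mod_lt _ (by omega)⟩ : Fin n)) := by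
      intro r
      obtain ⟨x, hx⟩ := hc r
      refine ⟨x, Fin.ext ?_⟩
      by_cases h : (f x).1 = r.1
      · simp [h, Nat.mod_eq_of_lt r.2]
      · simp [hx h, Nat.mod_eq_of_lt r.2]
    have := Fintype.card_le_of_surjective _ hs
    simp at this; omega
  obtain ⟨r, hr⟩ := this
  have u := fun x y : Fin k => unroll n r (f x) (f y) hn r.2 (f x).2 (f y).2 (hr x).1 (hr x).2 (hr y).1 (hr y).2
  refine ⟨⟨⟨fun x => (⟨pos n r (f x), (u x x).1⟩, side n r (f x)), ?_⟩, ?_⟩⟩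
  · intro x y h
    simp only [Prod.mk.injEq, Fin.mk.injEq] at h
    exact f.injective (Fin.ext ((u x y).2.1 h.1 h.2))
  · intro x y
    rw [← f.map_adj_iff]
    exact (u x y).2.2

theorem main (F : Set (Σ k : ℕ, SimpleGraph (Fin k))) (hF : F.Finite) :
    ∃ (W : Type) (_ : Finite W) (H : SimpleGraph W), H.Connected ∧
      ¬ (IsIGraph H ↔ ∀ A ∈ F, IsEmpty (A.2 ↪g H)) := by
  by_contra hc
  push Not at hc
  obtain ⟨N, hN⟩ := (hF.image (fun A => A.1)).bddAbove
  have hn : 3 ≤ N + 3 := by omega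
  have h1 := hc _ inferInstance _ (mob_conn (N + 3) hn)
  have h2 := (hc _ inferInstance _ (lad_conn (N + 3 - 1) (by omega))).1 (lad_is _ (by omega))
  apply mob_not (N + 3) hn
  refine h1.2 (fun A hA => ⟨fun f => ?_⟩)
  have : A.1 ≤ N := hN ⟨A, hA, rfl⟩
  exact (h2 A hA).false (embed hn (by omega) A.2 f).some

end Pool.Agent.H22.IGraph
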