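import Pool.Agent.H22.KuhnLeb

set_option autoImplicit false

namespace Pool.Agent.H22.Kuhn

theorem no_good {X : Type} (n : ℕ) (H : SimpleGraph X) (Φ : (Fin n → ℕ) → X)
    (hΦ : ∀ v w, Step v w → Φ v = Φ w ∨ H.Adj (Φ v) (Φ w))
    (h : X → Fin n → ℤ) (D C : ℕ) (hD : ∀ a b, H.Adj a b → ∀ i, |h a i - h b i| ≤ D)
    (hC : ∀ v i, |h (Φ v) i - v i| ≤ C) (k : ℕ) :
    ∃ B : Finset X, ¬ ∃ c : ↥(B : Set X) → ℕ,
      (∀ s : Finset ↥(B : Set X), (H.induce (B : Set X)).IsNClique (n + 1) s →
        ∃ x ∈ s, ∃ y ∈ s, x ≠ y ∧ c x = c y) ∧ ∀ i : ℕ, {v | c v = i}.ncard ≤ k := by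
  classical
  set N := k * D + 2 * C + 1 with hN
  let Z : Finset (Fin n → ℕ) := Fintype.piFinset fun _ => Finset.range (N + 1)
  have hZ : ∀ v : Fin n → ℕ, (∀ i, v i ≤ N) → Φ v ∈ Z.image Φ := fun v hv =>
    Finset.mem_image_of_mem _ (Fintype.mem_piFinset.2 fun i =>
      Finset.mem_range.2 (Nat.lt_succ_of_le (hv i)))
  refine ⟨Z.image Φ, ?_⟩
  rintro ⟨c, hc1, hc2⟩
  let B : Set X := ((Z.image Φ : Finset X) : Set X)
  let G' : SimpleGraph B :=
    { Adj := fun a b => H.Adj a b ∧ c a = c b
      symm := ⟨fun a b hab => ⟨hab.1.symm, hab.2.symm⟩⟩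
      loopless := ⟨fun a ha => H.loopless.irrefl _ ha.1⟩ }
  have hw : ∀ (a b : B) (p : G'.Walk a b), (∀ i, |h a i - h b i| ≤ p.length * D) ∧
      ∀ x ∈ p.support, c x = c a := by
    intro a b p
    induction p with
    | nil => simp
    | @cons u v w huv p ih =>
      refine ⟨fun i => ?_, ?_⟩
      · have e1 := hD _ _ huv.1 i
        have e2 := ih.1 i
        have e3 := abs_sub_le (h u i) (h v i) (h w i)
        simp only [SimpleGraph.Walk.length_cons]
        push_cast
        linarith
      · intro x hx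
        simp only [SimpleGraph.Walk.support_cons, List.mem_cons] at hx
        rcases hx with rfl | hx
        · rfl
        · rw [ih.2 x hx, huv.2]
  let U : (Fin n → ℕ) → Option G'.ConnectedComponent := fun v =>
    if hv : Φ v ∈ B then some (G'.connectedComponentMk ⟨Φ v, hv⟩) else none
  have hU : ∀ v (hv : Φ v ∈ B), U v = some (G'.connectedComponentMk ⟨Φ v, hv⟩) :=
    fun v hv => dif_pos hv
  apply lebesgue_kuhn n N (by omega) U
  · intro v w hv hw' e i
    rw [hU v (hZ v hv), hU w (hZ w hw'), Option.some_inj,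
      SimpleGraph.ConnectedComponent.eq] at e
    obtain ⟨p, hp⟩ := e.exists_isPath
    have h1 := (hw _ _ p).1 i
    have h2 : p.length + 1 ≤ k := by
      refine le_trans ?_ (hc2 (c ⟨Φ v, hZ v hv⟩))
      have : p.length + 1 = (p.support.toFinset : Set B).ncard := by
        rw [Set.ncard_coe_finset, List.toFinset_card_of_nodup hp.support_nodup,
          SimpleGraph.Walk.length_support]
      rw [this]
      apply Set.ncard_le_ncard _ (Set.toFinite _)
      intro x hx
      exact (hw _ _ p).2 x (by simpa using hx)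
    have h3 : (p.length : ℤ) * D ≤ k * D :=
      mul_le_mul_of_nonneg_right (by exact_mod_cast (by omega : p.length ≤ k)) (by positivity)
    have h4 := abs_le.1 (hC v i)
    have h5 := abs_le.1 (hC w i)
    have h6 := abs_le.1 (h1.trans h3)
    have : (v i : ℤ) < w i + N := by
      rw [hN]; push_cast
      simp only at h6
      linarith
    exact_mod_cast this
  · intro S hS hst
    by_contra hcon
    push Not at hcon
    let S' : Set B := {b | ∃ v ∈ S, Φ v = b}
    let F : B → Option G'.ConnectedComponent := fun b => some (G'.connectedComponentMk b)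
    have him : U '' S = F '' S' := by
      ext a
      constructor
      · rintro ⟨v, hv, rfl⟩
        exact ⟨⟨Φ v, hZ v (hS v hv)⟩, ⟨v, hv, rfl⟩, (hU v _).symm⟩
      · rintro ⟨b, ⟨v, hv, e⟩, rfl⟩
        refine ⟨v, hv, ?_⟩
        rw [hU v (hZ v (hS v hv))]
        simp only [F]
        congr 2
        exact Subtype.ext e
    obtain ⟨T, hT, hbij⟩ := Set.exists_subset_bijOn S' F
    have hcard : ((n + 1 : ℕ) : ℕ∞) ≤ T.encard := by
      rw [← hbij.injOn.encard_image, hbij.image_eq, ← him]
      exact Order.add_one_le_of_lt hcon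
    obtain ⟨T', hT', hc'⟩ := Set.exists_subset_encard_eq hcard
    have hfin : T'.Finite := Set.toFinite _
    obtain ⟨x, hx, y, hy, hxy, hcxy⟩ := hc1 hfin.toFinset (by
      constructor
      · intro a ha b hb hab
        simp only [Set.Finite.coe_toFinset] at ha hb
        obtain ⟨v, hv, e1⟩ := hT (hT' ha)
        obtain ⟨w, hw', e2⟩ := hT (hT' hb)
        have hne : Φ v ≠ Φ w := by
          intro e; apply hab; apply Subtype.ext; rw [← e1, ← e2, e]
        show H.Adj a b
        rw [← e1, ← e2]
        rcases hst v hv w hw' with s | s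
        · exact (hΦ _ _ s).resolve_left hne
        · exact ((hΦ _ _ s).resolve_left hne.symm).symm
      · have := hfin.encard_eq_coe_toFinset_card
        rw [hc'] at this
        exact_mod_cast this.symm)
    simp only [Set.Finite.mem_toFinset] at hx hy
    obtain ⟨v, hv, e1⟩ := hT (hT' hx)
    obtain ⟨w, hw', e2⟩ := hT (hT' hy)
    have hne : Φ v ≠ Φ w := by
      intro e; apply hxy; apply Subtype.ext; rw [← e1, ← e2, e]
    have hadj : H.Adj x y := by
      rw [← e1, ← e2]
      rcases hst v hv w hw' with s | s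
      · exact (hΦ _ _ s).resolve_left hne
      · exact ((hΦ _ _ s).resolve_left hne.symm).symm
    apply hxy
    apply hbij.injOn (hT' hx) (hT' hy)
    simp only [F, Option.some_inj, SimpleGraph.ConnectedComponent.eq]
    exact SimpleGraph.Adj.reachable (G := G') ⟨hadj, hcxy⟩

end Pool.Agent.H22.Kuhn
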