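import Mathlib
import Pool.Agent.H51.LebN

set_option autoImplicit false

namespace Pool.Agent.H22.Kuhn

open Finset Pool.Agent.H51.LebN

def Step {n : ℕ} (v w : Fin n → ℕ) : Prop := ∀ i, v i ≤ w i ∧ w i ≤ v i + 1

/-- Lebesgue covering theorem for the Kuhn triangulation of a box, label form. -/
theorem lebesgue_kuhn {α : Type} (n N : ℕ) (hN : 0 < N) (U : (Fin n → ℕ) → α)
    (hb : ∀ v w, (∀ i, v i ≤ N) → (∀ i, w i ≤ N) → U v = U w → ∀ i, v i < w i + N)
    (hm : ∀ S : Set (Fin n → ℕ), (∀ v ∈ S, ∀ i, v i ≤ N) →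
      (∀ v ∈ S, ∀ w ∈ S, Step v w ∨ Step w v) → (U '' S).encard ≤ n) : False := by
  classical
  obtain ⟨t, ht, t0, t1⟩ : ∃ t : ℝ, ¬ IsAlgebraic ℚ t ∧ 0 < t ∧ t < 1 := by
    obtain ⟨t, h1, h2⟩ := ((Algebraic.countable ℚ ℝ).dense_compl ℝ).exists_mem_open
      (isOpen_Ioo (a := (0 : ℝ)) (b := 1)) ⟨1 / 2, by norm_num, by norm_num⟩
    exact ⟨t, h1, h2.1, h2.2⟩
  let f : α → Fin n → ℚ := fun a i => if ∃ w, (∀ j, w j ≤ N) ∧ U w = a ∧ w i = 0 then 0 else 1
  let Z : Finset (Fin n → ℕ) := Fintype.piFinset fun _ => range (N + 1)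
  have hZ : ∀ z ∈ Z, ∀ i, z i ≤ N := fun z hz i => by
    have := mem_range.1 (Fintype.mem_piFinset.1 hz i)
    omega
  let wt : (Fin n → ℕ) → (Fin n → ℝ) → ℝ := fun z x =>
    max 0 (1 - ‖fun i => max 0 (x i - z i)‖ - ‖fun i => max 0 (z i - x i)‖)
  have wt0 : ∀ z x, 0 ≤ wt z x := fun z x => le_max_left _ _
  have wt2 : ∀ z x, wt z x ≠ 0 → ∀ i j, max 0 (x i - z i) + max 0 (z j - x j) < 1 := by
    intro z x h i j
    have a := norm_le_pi_norm (fun i => max 0 (x i - z i)) i
    have b := norm_le_pi_norm (fun i => max 0 ((z i : ℝ) - x i)) j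
    rw [Real.norm_of_nonneg (le_max_left _ _)] at a b
    by_contra hc
    exact h (max_eq_left (by linarith))
  have wt1 : ∀ z x, wt z x ≠ 0 → ∀ i, |x i - z i| < 1 := by
    intro z x h i
    have := wt2 z x h i i
    have a := le_max_left 0 (x i - z i)
    have b := le_max_right 0 (x i - z i)
    have c := le_max_left 0 ((z i : ℝ) - x i)
    have d := le_max_right 0 ((z i : ℝ) - x i)
    rw [abs_lt]; constructor <;> linarith
  have tp : ∀ k : ℕ, 0 < t ^ (k + 1) ∧ t ^ (k + 1) < 1 := fun k =>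
    ⟨by positivity, pow_lt_one₀ t0.le t1 (by omega)⟩
  obtain ⟨x, hx, hz⟩ := miranda n N (by exact_mod_cast hN)
    (fun x i => ∑ z ∈ Z, wt z x * ((f (U z) i : ℝ) - t ^ (i.1 + 1)))
    (by simp only [wt]; fun_prop)
    (fun x i hi => sum_nonpos fun z hzZ => by
      by_cases h : wt z x = 0
      · simp [h]
      · have h1 := wt1 z x h i
        rw [hi, zero_sub, abs_neg, Nat.abs_cast] at h1
        have h2 : z i = 0 := by
          have : z i < 1 := by exact_mod_cast h1
          omega
        have h3 : f (U z) i = 0 := if_pos ⟨z, hZ z hzZ, rfl, h2⟩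
        rw [h3]
        exact mul_nonpos_of_nonneg_of_nonpos (wt0 z x) (by have := tp i.1; push_cast; linarith))
    (fun x i hi => sum_nonneg fun z hzZ => by
      by_cases h : wt z x = 0
      · simp [h]
      · have h1 := (abs_lt.1 (wt1 z x h i)).2
        rw [hi] at h1
        have h2 : N ≤ z i := by
          have : (N : ℝ) < z i + 1 := by linarith
          have : N < z i + 1 := by exact_mod_cast this
          omega
        have h3 : f (U z) i = 1 := if_neg (by
          rintro ⟨w, hwN, hw, hw0⟩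
          have := hb z w (hZ z hzZ) hwN hw.symm i
          omega)
        rw [h3]
        exact mul_nonneg (wt0 z x) (by have := tp i.1; push_cast; linarith))
  let v : Fin n → ℕ := fun i => ⌊x i⌋₊
  have hv : ∀ i, (v i : ℝ) ≤ x i ∧ x i < v i + 1 := fun i =>
    ⟨Nat.floor_le (hx i).1, Nat.lt_floor_add_one _⟩
  let g : α → Fin (n + 1) → ℚ := fun a => Fin.cons 1 (f a)
  have hS := hm {z | z ∈ Z ∧ wt z x ≠ 0} (fun z hz => hZ z hz.1) (by
    intro z hz w hw
    have key : ∀ i j, (w i : ℤ) - z i - (w j - z j) ≤ 1 := by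
      intro i j
      have a := wt2 z x hz.2 i j
      have b := wt2 w x hw.2 j i
      have a1 := le_max_right 0 (x i - z i)
      have a2 := le_max_right 0 ((z j : ℝ) - x j)
      have b1 := le_max_right 0 (x j - w j)
      have b2 := le_max_right 0 ((w i : ℝ) - x i)
      have : (w i : ℝ) - z i - (w j - z j) < 2 := by linarith
      have : (w i : ℤ) - z i - (w j - z j) < 2 := by exact_mod_cast this
      omega
    have key2 : ∀ i, (w i : ℤ) - z i ≤ 1 ∧ (z i : ℤ) - w i ≤ 1 := by
      intro i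
      have a := abs_lt.1 (wt1 z x hz.2 i)
      have b := abs_lt.1 (wt1 w x hw.2 i)
      have c : (w i : ℝ) - z i < 2 := by linarith
      have d : (z i : ℝ) - w i < 2 := by linarith
      have c' : (w i : ℤ) - z i < 2 := by exact_mod_cast c
      have d' : (z i : ℤ) - w i < 2 := by exact_mod_cast d
      omega
    by_cases h : ∀ i, z i ≤ w i
    · left; intro i
      have := key2 i
      have := h i
      omega
    · right
      push Not at h
      obtain ⟨j, hj⟩ := h
      intro i
      have := key i j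
      have := key2 i
      have := key2 j
      omega)
  obtain ⟨c, hc0, hc⟩ := exists_functional n (g '' (U '' {z | z ∈ Z ∧ wt z x ≠ 0}))
    ((Set.encard_image_le _ _).trans hS)
  have hW : 0 < ∑ z ∈ Z, wt z x := by
    refine sum_pos' (fun z _ => wt0 z x) ⟨v, ?_, ?_⟩
    · refine Fintype.mem_piFinset.2 fun i => mem_range.2 ?_
      have : (v i : ℝ) ≤ N := (hv i).1.trans (hx i).2
      have : v i ≤ N := by exact_mod_cast this
      omega
    · refine lt_max_of_lt_right ?_
      have a : (fun i => max 0 ((v i : ℝ) - x i)) = 0 := by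
        funext i
        exact max_eq_left (by linarith [(hv i).1])
      have b : ‖fun i => max 0 (x i - v i)‖ < 1 := by
        rw [pi_norm_lt_iff one_pos]
        intro i
        rw [Real.norm_of_nonneg (le_max_left _ _)]
        exact max_lt one_pos (by linarith [(hv i).2])
      rw [a, norm_zero]; linarith
  have e1 : ∀ z ∈ Z, wt z x * ∑ j, (c j : ℝ) * g (U z) j = 0 := by
    intro z hzZ
    by_cases h : wt z x = 0
    · simp [h]
    · have := hc (g (U z)) ⟨U z, ⟨z, ⟨hzZ, h⟩, rfl⟩, rfl⟩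
      have h2 : ∑ j, (c j : ℝ) * g (U z) j = 0 := by exact_mod_cast this
      rw [h2, mul_zero]
  have e2 : ∀ j : Fin (n + 1), ∑ z ∈ Z, wt z x * g (U z) j = (∑ z ∈ Z, wt z x) * t ^ j.1 := by
    intro j
    refine Fin.cases ?_ (fun i => ?_) j
    · simp [g]
    · have := congrFun hz i
      simp only [Pi.zero_apply, mul_sub, sum_sub_distrib, sub_eq_zero] at this
      simp only [g, Fin.cons_succ, Fin.val_succ, this, sum_mul]
  have e3 : (∑ z ∈ Z, wt z x) * ∑ j, (c j : ℝ) * t ^ j.1 = 0 := by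
    rw [← sum_eq_zero e1, mul_sum]
    simp only [mul_sum]
    rw [sum_comm]
    refine sum_congr rfl fun j _ => ?_
    rw [mul_left_comm, ← e2, mul_sum]
    exact sum_congr rfl fun z _ => by ring
  have e4 : ∑ j, (c j : ℝ) * t ^ j.1 = 0 := (mul_eq_zero.1 e3).resolve_left hW.ne'
  refine ht ⟨Polynomial.ofFn (n + 1) c, fun h => hc0 ?_, ?_⟩
  · exact Polynomial.injective_ofFn (n + 1) (by rw [h, map_zero])
  · rw [Polynomial.ofFn_eq_sum_monomial, map_sum, ← e4]
    exact sum_congr rfl fun j _ => by simp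

end Pool.Agent.H22.Kuhn
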