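import Pool.Agent.H22.MSRDefs
import Pool.Agent.H36.Ilp

namespace Pool.Agent.H22.MSR

open Pool.Agent.H38.NP Pool.Agent.H36.Par Function

def Y (x : Inst) (i : ℕ) : ℕ := x.2.1.idxOf (x.1.getD i 0)

def PosSol (x : Inst) (B₁ B₂ : List (List ℕ)) : Prop :=
  B₁.Perm B₂ ∧ (∀ b ∈ B₁, 2 ≤ b.length) ∧ (∀ i ∈ B₁.flatten, i < x.1.length) ∧
    B₁.flatten.Pairwise (· < ·) ∧ B₂.flatten.Pairwise (fun i j => Y x i < Y x j) ∧
    x.2.2 ≤ B₁.flatten.length

theorem sub_of_inc (G : List ℕ) (P : List ℕ) (h : P.Pairwise (· < ·)) (hl : ∀ i ∈ P, i < G.length) :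
    (P.map fun i => G.getD i 0).Sublist G := by
  have h1 : P.Sublist (List.range G.length) := by
    refine List.sublist_of_subperm_of_pairwise (r := (· < ·)) ?_ h List.pairwise_lt_range
    exact List.Nodup.subperm (List.Pairwise.imp (fun h => Nat.ne_of_lt h) h)
      fun i hi => List.mem_range.2 (hl i hi)
  have h2 : (List.range G.length).map (fun i => G.getD i 0) = G := by
    apply List.ext_getElem <;> simp
    intro i h; simp [h]
  have := h1.map fun i => G.getD i 0
  rwa [h2] at this

theorem inc_of_sub {G S : List ℕ} (hG : G.Nodup) (h : S.Sublist G) :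
    S.Pairwise fun a b => G.idxOf a < G.idxOf b := by
  refine List.Pairwise.sublist h ?_
  rw [List.pairwise_iff_getElem]
  intro i j hi hj hij
  rw [hG.idxOf_getElem, hG.idxOf_getElem]; exact hij

theorem getD_idxOf {G : List ℕ} {a} (h : a ∈ G) : G.getD (G.idxOf a) 0 = a := by
  have := List.idxOf_lt_length_of_mem h
  simp [List.getD_eq_getElem?_getD, this]

theorem msr_iff {x : Inst} (hx : IsPermInst x) : MSR x ↔ ∃ B₁ B₂, PosSol x B₁ B₂ := by
  obtain ⟨hn, hp⟩ := hx
  have hn2 := hp.nodup_iff.1 hn
  constructor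
  · rintro ⟨S1, S2, h1, h2, ⟨B1, B2, rfl, rfl, hb, hB⟩, hk⟩
    refine ⟨B1.map (List.map fun a => x.1.idxOf a), B2.map (List.map fun a => x.1.idxOf a),
      hB.map _, ?_, ?_, ?_, ?_, ?_⟩
    · intro b hb'
      obtain ⟨c, hc, rfl⟩ := List.mem_map.1 hb'
      simpa using hb c hc
    · rw [← List.map_flatten]
      intro i hi
      obtain ⟨a, ha, rfl⟩ := List.mem_map.1 hi
      exact List.idxOf_lt_length_of_mem (h1.subset ha)
    · rw [← List.map_flatten, List.pairwise_map]; exact inc_of_sub hn h1
    · rw [← List.map_flatten, List.pairwise_map]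
      refine (inc_of_sub hn2 h2).imp_of_mem fun {a b} ha hb h => ?_
      unfold Y
      rwa [getD_idxOf (hp.symm.subset (h2.subset ha)), getD_idxOf (hp.symm.subset (h2.subset hb))]
    · rw [← List.map_flatten, List.length_map]; exact hk
  · rintro ⟨B1, B2, hB, hb, hl, h1, h2, hk⟩
    have hl2 : ∀ i ∈ B2.flatten, x.1.getD i 0 ∈ x.2.1 := fun i hi => by
      have := hl i (hB.flatten.symm.subset hi)
      exact hp.subset (by simp [List.getD_eq_getElem?_getD, this])
    refine ⟨B1.flatten.map fun i => x.1.getD i 0, B2.flatten.map fun i => x.1.getD i 0,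
      sub_of_inc _ _ h1 hl, ?_, ⟨B1.map (List.map fun i => x.1.getD i 0),
        B2.map (List.map fun i => x.1.getD i 0), by rw [List.map_flatten],
        by rw [List.map_flatten], ?_, hB.map _⟩, by rw [List.length_map]; exact hk⟩
    · have := sub_of_inc x.2.1 (B2.flatten.map (Y x)) (List.pairwise_map.2 h2) (by
        intro i hi
        obtain ⟨j, hj, rfl⟩ := List.mem_map.1 hi
        exact List.idxOf_lt_length_of_mem (hl2 j hj))
      rw [List.map_map] at this
      rwa [List.map_congr_left (f := (fun i => x.2.1.getD i 0) ∘ Y x) (g := fun i => x.1.getD i 0)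
        fun i hi => getD_idxOf (hl2 i hi)] at this
    · intro b hb'
      obtain ⟨c, hc, rfl⟩ := List.mem_map.1 hb'
      simpa using hb c hc

theorem shrink (x : Inst) : ∀ (N : ℕ) (B₁ B₂ : List (List ℕ)), B₁.flatten.length ≤ N →
    PosSol x B₁ B₂ → ∃ C₁ C₂, PosSol x C₁ C₂ ∧ C₁.flatten.length ≤ x.2.2 + 1 := by
  intro N
  induction N with
  | zero => intro B1 B2 h hs; exact ⟨B1, B2, hs, by omega⟩
  | succ N ih =>
    intro B1 B2 h hs
    by_cases hk : B1.flatten.length ≤ x.2.2 + 1
    · exact ⟨B1, B2, hs, hk⟩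
    obtain ⟨hB, hb, hl, h1, h2, hk'⟩ := hs
    obtain _ | ⟨b, B⟩ := B1
    · simp at hk
    have hb2 := hb b (by simp)
    obtain ⟨P, Q, rfl⟩ := List.append_of_mem (hB.subset (List.mem_cons_self))
    have hB' : B.Perm (P ++ Q) := (hB.trans List.perm_middle).cons_inv
    simp only [List.flatten_cons, List.length_append] at h hk hk'
    by_cases e : b.length = 2
    · refine ih B (P ++ Q) (by omega) ⟨hB', fun c hc => hb c (by simp [hc]),
        fun i hi => hl i (by simp only [List.flatten_cons]; exact List.mem_append_right _ hi),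
        h1.sublist (by simp), h2.sublist ?_, by omega⟩
      simp only [List.flatten_append, List.flatten_cons]
      exact (List.Sublist.refl _).append (List.sublist_append_right _ _)
    · have hs : (b.tail :: B).flatten.Sublist (b :: B).flatten := by
        simp only [List.flatten_cons]
        exact (List.tail_sublist b).append (List.Sublist.refl _)
      refine ih (b.tail :: B) (P ++ b.tail :: Q) (by simp at h ⊢; omega)
        ⟨(hB'.cons _).trans List.perm_middle.symm, ?_, fun i hi => hl i (hs.subset hi),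
          h1.sublist hs, h2.sublist ?_, by simp at hk ⊢; omega⟩
      · intro c hc
        rcases List.mem_cons.1 hc with rfl | hc
        · simp; omega
        · exact hb c (by simp [hc])
      · simp only [List.flatten_append, List.flatten_cons]
        exact (List.Sublist.refl _).append ((List.tail_sublist b).append (List.Sublist.refl _))

/-! ### layers -/

def rstep (x : Inst) (L : List ℕ) : List ℕ :=
  (List.range x.1.length).filter fun i => L.any fun j => decide (j < i) && decide (Y x j < Y x i)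

def R (x : Inst) (r : ℕ) : List ℕ := (rstep x)^[r] (List.range x.1.length)

theorem R_sub (x : Inst) (r : ℕ) : (R x r).Sublist (List.range x.1.length) := by
  cases r with
  | zero => exact List.Sublist.refl _
  | succ r => rw [R, iterate_succ_apply']; exact List.filter_sublist

theorem mem_R {x : Inst} {r i} :
    i ∈ R x (r + 1) ↔ i < x.1.length ∧ ∃ j ∈ R x r, j < i ∧ Y x j < Y x i := by
  rw [R, iterate_succ_apply', ← R]; simp [rstep]

theorem chain_R (x : Inst) : ∀ r i, i ∈ R x r → ∃ S : List ℕ, S.length = r ∧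
    (S ++ [i]).Pairwise fun a b => a < b ∧ Y x a < Y x b := by
  intro r
  induction r with
  | zero => intro i _; exact ⟨[], rfl, by simp⟩
  | succ r ih =>
    intro i hi
    obtain ⟨-, j, hj, h1, h2⟩ := mem_R.1 hi
    obtain ⟨S, hS, hp⟩ := ih j hj
    refine ⟨S ++ [j], by simp [hS], List.pairwise_append.2 ⟨hp, by simp, ?_⟩⟩
    intro a ha b hb
    rw [List.mem_singleton.1 hb]
    rcases List.mem_append.1 ha with ha | ha
    · have := (List.pairwise_append.1 hp).2.2 a ha j (by simp)
      omega
    · rw [List.mem_singleton.1 ha]; exact ⟨h1, h2⟩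

theorem big {x : Inst} {i} (h : i ∈ R x (x.2.2 + 1)) : ∃ B₁ B₂, PosSol x B₁ B₂ := by
  obtain ⟨S, hS, hp⟩ := chain_R x _ i h
  have hi := (mem_R.1 h).1
  refine ⟨[S ++ [i]], [S ++ [i]], List.Perm.refl _, by simp [hS], ?_, ?_, ?_, by simp [hS]; omega⟩
  · intro a ha
    simp only [List.flatten_cons, List.flatten_nil, List.append_nil] at ha
    rcases List.mem_append.1 ha with ha | ha
    · have := (List.pairwise_append.1 hp).2.2 a ha i (by simp)
      omega
    · rw [List.mem_singleton.1 ha]; exact hi
  · simpa using hp.imp fun h => h.1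
  · simpa using hp.imp fun h => h.2

def cls (x : Inst) (c i : ℕ) : Bool := decide (i ∈ R x c) && !decide (i ∈ R x (c + 1))

theorem cls_anti {x : Inst} {c i j} (hi : cls x c i = true) (hj : cls x c j = true) (h : i ≤ j) :
    Y x j ≤ Y x i := by
  simp only [cls, Bool.and_eq_true, decide_eq_true_eq, Bool.not_eq_true', decide_eq_false_iff_not]
    at hi hj
  rcases h.eq_or_lt with rfl | h
  · exact le_rfl
  · by_contra hc
    exact hj.2 (mem_R.2 ⟨List.mem_range.1 ((R_sub x c).subset hj.1), i, hi.1, h, by omega⟩)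

theorem cls_ex {x : Inst} {i} (hi : i < x.1.length) :
    ∀ K, i ∉ R x K → ∃ c < K, cls x c i = true := by
  intro K
  induction K with
  | zero => intro h; exact absurd (List.mem_range.2 hi) h
  | succ K ih =>
    intro h
    by_cases e : i ∈ R x K
    · exact ⟨K, by omega, by simp [cls, e, h]⟩
    · obtain ⟨c, hc, h'⟩ := ih e
      exact ⟨c, by omega, h'⟩

/-! ### ordered pairs of a list -/

def prs (l : List ℕ) : List (ℕ × ℕ) :=
  (List.range l.length).flatMap fun j => (l.take j).map fun a => (a, l.getD j 0)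

theorem prs_iff {l : List ℕ} {r : ℕ → ℕ → Prop} : l.Pairwise r ↔ ∀ p ∈ prs l, r p.1 p.2 := by
  rw [List.pairwise_iff_getElem]
  simp only [prs, List.mem_flatMap, List.mem_range, List.mem_map]
  constructor
  · rintro h p ⟨j, hj, a, ha, rfl⟩
    obtain ⟨i, hi, rfl⟩ := List.mem_take_iff_getElem.1 ha
    have := h i j (by omega) hj (by omega)
    simpa [List.getD_eq_getElem?_getD, hj] using this
  · intro h i j hi hj hij
    have := h (l[i], l.getD j 0) ⟨j, hj, l[i], List.mem_take_iff_getElem.2 ⟨i, by omega, rfl⟩, rfl⟩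
    simpa [List.getD_eq_getElem?_getD, hj] using this

theorem prs_mem {l : List ℕ} {p} (h : p ∈ prs l) : p.1 ∈ l ∧ p.2 ∈ l := by
  have : l.Pairwise fun a b => a ∈ l ∧ b ∈ l :=
    List.pairwise_of_forall_mem_list fun a ha b hb => ⟨ha, hb⟩
  exact prs_iff.1 this p h

theorem fix_iter {σ : Type} (f : σ → σ) (Φ : σ → ℕ) (I : σ → Prop) (B : ℕ) (s : σ) (h0 : I s)
    (hI : ∀ s, I s → I (f s)) (hΦ : ∀ s, I s → f s = s ∨ Φ s < Φ (f s))
    (hB : ∀ s, I s → Φ s ≤ B) : I (f^[B + 1] s) ∧ f (f^[B + 1] s) = f^[B + 1] s := by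
  have h1 : ∀ i, I (f^[i] s) := fun i => by
    induction i with
    | zero => exact h0
    | succ i ih => rw [iterate_succ_apply']; exact hI _ ih
  have h2 : ∀ i, f (f^[i] s) = f^[i] s ∨ i ≤ Φ (f^[i] s) := fun i => by
    induction i with
    | zero => exact Or.inr (Nat.zero_le _)
    | succ i ih =>
      rw [iterate_succ_apply']
      rcases hΦ _ (h1 i) with e | e
      · left; rw [e, e]
      · rcases ih with ih | ih
        · left; rw [ih, ih]
        · right; omega
  refine ⟨h1 _, (h2 _).resolve_right ?_⟩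
  have := hB _ (h1 (B + 1)); omega

end Pool.Agent.H22.MSR
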