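import Pool.Agent.H36.ParDefs

/-!
Maximal strip recovery on two permutations (unsigned model).
-/

namespace Pool.Agent.H22.MSR

/-- the two genomes and the number `k` -/
abbrev Inst := List ℕ × List ℕ × ℕ

/-- Both genomes list the same characters, each exactly once. -/
def IsPermInst (x : Inst) : Prop := x.1.Nodup ∧ x.1.Perm x.2.1

/-- `S₁` and `S₂` can be cut into consecutive blocks of length at least two so that both
sequences have the same blocks, possibly in another order. -/
def CommonStrip (S₁ S₂ : List ℕ) : Prop :=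
  ∃ B₁ B₂ : List (List ℕ), B₁.flatten = S₁ ∧ B₂.flatten = S₂ ∧ (∀ b ∈ B₁, 2 ≤ b.length) ∧
    B₁.Perm B₂

/-- MSR: subsequences of the two genomes with a common strip partition and length at least `k`. -/
def MSR (x : Inst) : Prop :=
  ∃ S₁ S₂ : List ℕ, S₁.Sublist x.1 ∧ S₂.Sublist x.2.1 ∧ CommonStrip S₁ S₂ ∧ x.2.2 ≤ S₁.length

/-- the parameter: the number `k` of retained characters -/
def kOf (x : Inst) : ℕ := x.2.2

end Pool.Agent.H22.MSR
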