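import Pool.Agent.H22.QB2

/-! Connectivity of the solution graph of a formula to the zero solution. -/

namespace Pool.Agent.H22.MX

open Pool.Agent.H38.NP Pool.Agent.H36.PSpace Pool.Agent.H22.QB Function

abbrev T3 := ℕ × ℕ × ℕ
abbrev Cz := T3 × T3 × T3 × Bool

def ok (s : T3 → Bool) (c : Cz) : Prop := s c.1 = true → s c.2.1 = true ∨ s c.2.2.1 = !c.2.2.2

def Sol (Cs : List Cz) (s : T3 → Bool) : Prop := s (0, 0, 0) = false ∧ ∀ c ∈ Cs, ok s c

def St (Vs : List T3) (Cs : List Cz) (s s' : T3 → Bool) : Prop :=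
  Sol Cs s ∧ Sol Cs s' ∧ ∃ x, ∀ y ∈ Vs, y ≠ x → s y = s' y

def Cn (Vs : List T3) (Cs : List Cz) := Relation.ReflTransGen (St Vs Cs)

section
variable {Vs : List T3} {Cs : List Cz} {s s' : T3 → Bool}

theorem Cn.symm (h : Cn Vs Cs s s') : Cn Vs Cs s' s := by
  induction h with
  | refl => exact .refl
  | tail _ h ih =>
    obtain ⟨a, b, x, h⟩ := h
    exact .head ⟨b, a, x, fun y h1 h2 => (h y h1 h2).symm⟩ ih

theorem Cn.trans {s''} (h : Cn Vs Cs s s') (h' : Cn Vs Cs s' s'') : Cn Vs Cs s s'' :=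
  Relation.ReflTransGen.trans h h'

theorem Cn.upd {x b} (h : Sol Cs s) (h' : Sol Cs (update s x b)) : Cn Vs Cs s (update s x b) :=
  .single ⟨h, h', x, fun _ _ e => (update_of_ne e _ _).symm⟩

theorem down (ρ : T3 → ℕ ×ₗ ℕ) (hV : ∀ c ∈ Cs, c.1 ∈ Vs ∧ c.2.1 ∈ Vs ∧ c.2.2.1 ∈ Vs)
    (hN : ∀ c ∈ Cs, c.2.2.2 = true → c.2.1 = (0, 0, 0)) (h' : Sol Cs s') (n : ℕ) :
    ∀ s, (Vs.toFinset.filter fun x => s x ≠ s' x).card = n → Sol Cs s →
      (∀ x ∈ Vs, s' x = true → s x = true) →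
      (∀ c ∈ Cs, s c.1 ≠ s' c.1 → (s c.2.1 ≠ s' c.2.1 → ρ c.2.1 < ρ c.1) ∧
        (c.2.2.2 = false → s c.2.2.1 ≠ s' c.2.2.1 → ρ c.2.2.1 < ρ c.1)) → Cn Vs Cs s s' := by
  induction n with
  | zero =>
    intro s h0 h _ _
    refine .single ⟨h, h', (0, 0, 0), fun y hy _ => ?_⟩
    simpa using Finset.filter_eq_empty_iff.1 (Finset.card_eq_zero.1 h0) (List.mem_toFinset.2 hy)
  | succ n ih =>
    intro s h0 h h1 h2
    obtain ⟨x, hx, hm⟩ := Finset.exists_max_image (Vs.toFinset.filter fun x => s x ≠ s' x) ρ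
      (Finset.card_pos.1 (by rw [h0]; exact n.succ_pos))
    simp only [Finset.mem_filter, List.mem_toFinset, and_imp] at hx hm
    have x0 : s' x = false := by
      by_contra e
      have e : s' x = true := by simpa using e
      exact hx.2 (by rw [e, h1 x hx.1 e])
    have ne : ∀ y, update s x false y ≠ s' y → s y ≠ s' y := fun y hy => by
      by_cases e : y = x
      · exact e ▸ hx.2
      · rwa [update_of_ne e] at hy
    have le : ∀ y, update s x false y = true → s y = true ∧ y ≠ x := fun y hy => by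
      by_cases e : y = x
      · simp [e] at hy
      · exact ⟨by rwa [update_of_ne e] at hy, e⟩
    have ge : ∀ y ∈ Vs, s' y = true → update s x false y = true := fun y hy h => by
      rw [update_of_ne fun e => by simp [e, x0] at h, h1 y hy h]
    have sol : Sol Cs (update s x false) := by
      refine ⟨by by_contra e; exact absurd (le _ (by simpa using e)).1 (by simp [h.1]),
        fun c hc e => ?_⟩
      obtain ⟨e1, e2⟩ := le _ e
      obtain ⟨v1, v2, v3⟩ := hV c hc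
      cases hb : c.2.2.2
      · by_cases e3 : s c.1 = s' c.1
        · exact (h'.2 c hc (e3 ▸ e1)).imp (ge _ v2) fun h => ge _ v3 (by simpa [hb] using h)
        · refine (h.2 c hc e1).imp (fun h3 => ?_) fun h3 => ?_
          · rw [update_of_ne fun e => ?_, h3]
            exact ((h2 c hc e3).1 (e ▸ hx.2)).not_ge (e ▸ hm _ v1 e3)
          · rw [update_of_ne fun e => ?_, h3, hb]
            exact ((h2 c hc e3).2 hb (e ▸ hx.2)).not_ge (e ▸ hm _ v1 e3)
      · have := (h.2 c hc e1).resolve_left (by rw [hN c hc hb, h.1]; simp)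
        refine Or.inr ?_
        by_contra e3
        exact absurd (le _ (by simpa using e3)).1 (by simp [this, hb])
    refine (Cn.upd h sol).trans (ih _ ?_ sol ge fun c hc e => ⟨fun e' => (h2 c hc (ne _ e)).1
      (ne _ e'), fun hb e' => (h2 c hc (ne _ e)).2 hb (ne _ e')⟩)
    have : (Vs.toFinset.filter fun y => update s x false y ≠ s' y) =
        (Vs.toFinset.filter fun y => s y ≠ s' y).erase x := by
      ext y
      by_cases e : y = x <;> simp [e, x0]
    rw [this, Finset.card_erase_of_mem (by simpa using hx), h0]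
    rfl

end

def od (k : ℕ) : Bool := decide (k % 2 = 1)

def levC (k : ℕ) : List Cz :=
  [((7, k, 1), (0, 0, 0), (7, k, 0), true), ((4, k, 0), (0, 0, 0), (4, k + 1, 0), false),
   ((4, k, 0), (7, k, 1), (7, k, 0), false),
   ((5, k + 1, 0), (0, 0, 0), (5, k, 0), false), ((5, k + 1, 1), (0, 0, 0), (5, k, 1), false),
   ((5, k + 1, k % 2), (0, 0, 0), (7, k, 1), false), ((5, k + 1, k % 2), (0, 0, 0), (9, k, 0), false),
   ((8, k, 0), (0, 0, 0), (9, k, 0), true), ((9, k, 0), (0, 0, 0), (4, k + 1, 0), false),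
   ((1, 0, 0), (8, k, 0), (10, k, 0), false), ((10, k, 0), (9, k, 0), (11, k, 0), false),
   ((11, k, 0), (0, 0, 0), (5, k, k % 2), false), ((11, k, 0), (0, 0, 0), (7, k, 0), false),
   ((6, k + 1, 0), (6, k, 0), (12, k, 0), false), ((12, k, 0), (0, 0, 0), (9, k, 0), false),
   ((12, k, 0), (0, 0, 0), (7, k, 0), false), ((12, k, 0), (0, 0, 0), (5, k, 1 - k % 2), false)]

def lit (φ : CNF ℕ) (j i : ℕ) : ℕ × Bool := (φ.getD j []).getD i (0, false)

def matC (φ : CNF ℕ) (j : ℕ) : List Cz :=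
  [((5, 0, 1), (0, 0, 0), (13, j, (φ.getD j []).length), false),
   ((15, j + 1, 0), (15, j, 0), (14, j, 0), false), ((13, j, 0), (0, 0, 0), (0, 0, 0), false)] ++
  (List.range (φ.getD j []).length).flatMap fun i =>
    [((13, j, i + 1), (13, j, i), (7, (lit φ j i).1, (lit φ j i).2.toNat), false),
     ((14, j, 0), (0, 0, 0), (7, (lit φ j i).1, (!(lit φ j i).2).toNat), false)]

def CC (n : ℕ) (φ : CNF ℕ) : List Cz :=
  [((1, 0, 0), (0, 0, 0), (2, 0, 0), false), ((2, 0, 0), (1, 0, 0), (3, 0, 0), false),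
   ((3, 0, 0), (5, n, 1), (6, n, 0), false), ((6, 0, 0), (0, 0, 0), (0, 0, 0), false),
   ((5, 0, 0), (0, 0, 0), (4, 0, 0), false), ((5, 0, 1), (0, 0, 0), (4, 0, 0), false),
   ((5, 0, 0), (0, 0, 0), (15, φ.length, 0), false), ((15, 0, 0), (0, 0, 0), (0, 0, 0), false)] ++
  (List.range φ.length).flatMap (matC φ) ++ (List.range n).flatMap levC

def bnd (n : ℕ) (φ : CNF ℕ) : ℕ := n + φ.length + φ.flatten.length + 2

def VV (n : ℕ) (φ : CNF ℕ) : List T3 :=
  (List.range 16).product ((List.range (bnd n φ)).product (List.range (bnd n φ)))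

theorem mem_VV {n φ} {x : T3} : x ∈ VV n φ ↔ x.1 < 16 ∧ x.2.1 < bnd n φ ∧ x.2.2 < bnd n φ := by
  obtain ⟨a, b, c⟩ := x
  simp [VV, List.pair_mem_product]

theorem all_CC {n φ} {P : Cz → Prop} : (∀ c ∈ CC n φ, P c) ↔
    (P ((1, 0, 0), (0, 0, 0), (2, 0, 0), false) ∧ P ((2, 0, 0), (1, 0, 0), (3, 0, 0), false) ∧
    P ((3, 0, 0), (5, n, 1), (6, n, 0), false) ∧ P ((6, 0, 0), (0, 0, 0), (0, 0, 0), false) ∧
    P ((5, 0, 0), (0, 0, 0), (4, 0, 0), false) ∧ P ((5, 0, 1), (0, 0, 0), (4, 0, 0), false) ∧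
    P ((5, 0, 0), (0, 0, 0), (15, φ.length, 0), false) ∧
    P ((15, 0, 0), (0, 0, 0), (0, 0, 0), false)) ∧
    (∀ j < φ.length, (P ((5, 0, 1), (0, 0, 0), (13, j, (φ.getD j []).length), false) ∧
      P ((15, j + 1, 0), (15, j, 0), (14, j, 0), false) ∧
      P ((13, j, 0), (0, 0, 0), (0, 0, 0), false)) ∧ ∀ i < (φ.getD j []).length,
      P ((13, j, i + 1), (13, j, i), (7, (lit φ j i).1, (lit φ j i).2.toNat), false) ∧
      P ((14, j, 0), (0, 0, 0), (7, (lit φ j i).1, (!(lit φ j i).2).toNat), false)) ∧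
    ∀ k < n, ∀ c ∈ levC k, P c := by
  simp only [CC, matC, List.forall_mem_append, List.forall_mem_cons, List.forall_mem_flatMap,
    List.mem_range, List.not_mem_nil, false_imp_iff, implies_true, and_true, and_assoc]

def rk (n : ℕ) (x : T3) : ℕ ×ₗ ℕ := toLex
  (if x.1 = 4 then (1, n - x.2.1) else if x.1 = 9 then (2, 0) else if x.1 = 13 then (3, x.2.2)
  else if x.1 = 14 then (3, 0) else if x.1 = 15 then (4, x.2.1) else if x.1 = 5 then (5, x.2.1)
  else if x.1 = 11 ∨ x.1 = 12 then (6, 0) else if x.1 = 10 then (7, 0)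
  else if x.1 = 6 then (8, x.2.1) else if x.1 = 3 then (9, 0) else if x.1 = 1 then (10, 0)
  else if x.1 = 2 then (11, 0) else (0, 0))

variable {n : ℕ} {φ : CNF ℕ} {s s' : T3 → Bool}

theorem lit_mem {j i} (hj : j < φ.length) (hi : i < (φ.getD j []).length) : lit φ j i ∈ φ[j] := by
  simp only [lit, List.getD_eq_getElem _ _ hj] at hi ⊢
  rw [List.getD_eq_getElem _ _ hi]
  exact List.getElem_mem _

theorem len_le {j} (hj : j < φ.length) : (φ.getD j []).length ≤ φ.flatten.length := by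
  rw [List.getD_eq_getElem _ _ hj]
  exact (List.sublist_flatten_of_mem (List.getElem_mem hj)).length_le

theorem wfV (hφ : ∀ C ∈ φ, ∀ l ∈ C, l.1 < n) :
    ∀ c ∈ CC n φ, c.1 ∈ VV n φ ∧ c.2.1 ∈ VV n φ ∧ c.2.2.1 ∈ VV n φ := by
  simp only [all_CC, mem_VV, bnd, levC, List.forall_mem_cons]
  refine ⟨by omega, fun j hj => ?_, fun k hk => by simp; omega⟩
  have := len_le hj
  refine ⟨by omega, fun i hi => ?_⟩
  have := hφ _ (List.getElem_mem hj) _ (lit_mem hj hi)
  have := Bool.toNat_le (lit φ j i).2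
  have := Bool.toNat_le (!(lit φ j i).2)
  omega

theorem wfN : ∀ c ∈ CC n φ, c.2.2.2 = true → c.2.1 = (0, 0, 0) := by
  simp only [all_CC, levC, List.forall_mem_cons]
  simp

theorem wfR : ∀ c ∈ CC n φ, (c.2.1 = (0, 0, 0) ∨ rk n c.2.1 < rk n c.1) ∧
    (c.2.2.2 = true ∨ c.2.2.1 = (0, 0, 0) ∨ rk n c.2.2.1 < rk n c.1 ∨
      (c.1 = (1, 0, 0) ∧ c.2.2.1 = (2, 0, 0))) := by
  simp only [all_CC, levC, List.forall_mem_cons]
  simp [rk, Prod.Lex.toLex_lt_toLex]
  omega

theorem dn (hφ : ∀ C ∈ φ, ∀ l ∈ C, l.1 < n) (h : Sol (CC n φ) s) (h' : Sol (CC n φ) s')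
    (h1 : ∀ x, s' x = true → s x = true) (h2 : s (1, 0, 0) = s' (1, 0, 0)) :
    Cn (VV n φ) (CC n φ) s s' := by
  refine down (rk n) (wfV hφ) wfN h' _ s rfl h (fun x _ => h1 x) fun c hc e => ⟨fun e' => ?_,
    fun hb e' => ?_⟩
  · exact (wfR c hc).1.resolve_left fun e => e' (by rw [e, h.1, h'.1])
  · rcases (wfR c hc).2 with h3 | h3 | h3 | h3
    · simp [hb] at h3
    · exact absurd (by rw [h3, h.1, h'.1]) e'
    · exact h3
    · exact absurd (by rw [h3.1, h2]) e

def VQ (φ : CNF ℕ) (k : ℕ) (α : ℕ → Bool) : Prop := QK od (fun a => Md a φ) k α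

theorem qa_vq (k : ℕ) (a : ℕ → Bool) : QA φ k a ↔ VQ φ (2 * k) a := by
  induction k generalizing a with
  | zero => rfl
  | succ k ih =>
    have e1 : od (2 * k + 1) = true := by simp [od]
    have e2 : od (2 * k) = false := by simp [od]
    simp only [QA, ih, VQ, show 2 * (k + 1) = 2 * k + 1 + 1 by omega, QK, e1, e2]
    simp

theorem vq_congr {k : ℕ} {a b : ℕ → Bool} (h : ∀ j, k ≤ j → a j = b j) : VQ φ k a ↔ VQ φ k b := by
  induction k generalizing a b with
  | zero => rw [show a = b from funext fun j => h j (by omega)]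
  | succ k ih =>
    have : ∀ c, VQ φ k (update a k c) ↔ VQ φ k (update b k c) := fun c => ih fun j hj => by
      by_cases e : j = k
      · simp [e]
      · rw [update_of_ne e, update_of_ne e, h j (by omega)]
    unfold VQ at this ⊢
    simp only [QK, this]

theorem vq_and {k : ℕ} {a : ℕ → Bool} : (VQ φ (k + 1) a ↔ k % 2 = 1) ↔
    (VQ φ k (update a k false) ↔ k % 2 = 1) ∧ (VQ φ k (update a k true) ↔ k % 2 = 1) := by
  unfold VQ
  by_cases h : k % 2 = 1 <;> simp [QK, od, h]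

end Pool.Agent.H22.MX
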