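import Pool.Agent.H22.MX1

/-! Soundness of the formula, and local edits of solutions. -/

namespace Pool.Agent.H22.MX

open Pool.Agent.H38.NP Pool.Agent.H36.PSpace Pool.Agent.H22.QB Function

structure Loc where
  (t a b u v h y e p q E : Bool)

def loc (k : ℕ) (s : T3 → Bool) : Loc :=
  ⟨s (4, k, 0), s (7, k, 1), s (7, k, 0), s (8, k, 0), s (9, k, 0), s (10, k, 0), s (11, k, 0),
    s (12, k, 0), s (5, k + 1, 0), s (5, k + 1, 1), s (6, k + 1, 0)⟩

/-- the clauses of one level; `A` is the lower signal of the polarity `o`, `B` the other one -/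
def LOK (r : Loc) (o T t' A B E : Bool) : Prop :=
  (r.a → r.b = false) ∧ (r.t → t') ∧ (r.t → r.a ∨ r.b) ∧ (cond o r.q r.p → A ∧ r.a ∧ r.v) ∧
  (cond o r.p r.q → B) ∧ (r.u → r.v = false) ∧ (r.v → t') ∧ (T → r.u ∨ r.h) ∧
  (r.h → r.v ∨ r.y) ∧ (r.y → A ∧ r.b) ∧ (r.E → E ∨ r.e) ∧ (r.e → r.v ∧ r.b ∧ B)

def LvOK (s : T3 → Bool) (k : ℕ) : Prop :=
  LOK (loc k s) (od k) (s (1, 0, 0)) (s (4, k + 1, 0)) (s (5, k, k % 2)) (s (5, k, 1 - k % 2))
    (s (6, k, 0))

def MatOK (φ : CNF ℕ) (s : T3 → Bool) (j : ℕ) : Prop :=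
  (s (5, 0, 1) → s (13, j, (φ.getD j []).length)) ∧ (s (15, j + 1, 0) → s (15, j, 0) ∨ s (14, j, 0)) ∧
  s (13, j, 0) = false ∧ ∀ i < (φ.getD j []).length,
    (s (13, j, i + 1) → s (13, j, i) ∨ s (7, (lit φ j i).1, (lit φ j i).2.toNat)) ∧
    (s (14, j, 0) → s (7, (lit φ j i).1, (!(lit φ j i).2).toNat))

def GlOK (n m : ℕ) (s : T3 → Bool) : Prop :=
  s (0, 0, 0) = false ∧ (s (1, 0, 0) → s (2, 0, 0)) ∧ (s (2, 0, 0) → s (1, 0, 0) ∨ s (3, 0, 0)) ∧
  (s (3, 0, 0) → s (5, n, 1) ∨ s (6, n, 0)) ∧ s (6, 0, 0) = false ∧ (s (5, 0, 0) → s (4, 0, 0)) ∧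
  (s (5, 0, 1) → s (4, 0, 0)) ∧ (s (5, 0, 0) → s (15, m, 0)) ∧ s (15, 0, 0) = false

variable {n : ℕ} {φ : CNF ℕ} {s s' : T3 → Bool} {k : ℕ}

theorem sol_iff : Sol (CC n φ) s ↔
    GlOK n φ.length s ∧ (∀ j < φ.length, MatOK φ s j) ∧ ∀ k < n, LvOK s k := by
  unfold Sol GlOK
  rw [all_CC, and_assoc (a := s (0, 0, 0) = false)]
  refine and_congr_right fun h => ?_
  simp only [ok, h, Bool.false_eq_true, false_or, Bool.not_false, imp_false, Bool.not_eq_true,
    MatOK, and_assoc, LvOK, LOK, loc, levC, List.forall_mem_cons, or_self, Bool.not_true,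
    List.not_mem_nil, false_imp_iff, implies_true, and_true]
  iterate 9 refine and_congr Iff.rfl ?_
  refine forall₂_congr fun k _ => ?_
  rcases Nat.mod_two_eq_zero_or_one k with e | e <;> simp [od, e] <;> grind

def al (n : ℕ) (s : T3 → Bool) (j : ℕ) : Bool := decide (j < n) && s (7, j, 1)

theorem rails (h : Sol (CC n φ) s) (ht : s (4, k, 0) = true) {j} (h1 : k ≤ j) (h2 : j < n) :
    s (4, j, 0) = true ∧ s (7, j, 0) = !s (7, j, 1) := by
  have : s (4, j, 0) = true := by
    induction h1 with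
    | refl => exact ht
    | step h1 ih => exact ((sol_iff.1 h).2.2 _ (by omega)).2.1 (ih (by omega))
  have h3 := (sol_iff.1 h).2.2 j h2
  simp only [LvOK, LOK, loc] at h3
  grind

theorem rail (h : Sol (CC n φ) s) (ht : s (4, 0, 0) = true) {j} (h2 : j < n) (b : Bool) :
    s (7, j, b.toNat) = true ↔ al n s j = b := by
  have := (rails h ht (Nat.zero_le j) h2).2
  cases b <;> simp [al, h2, this]

theorem getD_mem {j} (hj : j < φ.length) : φ.getD j [] ∈ φ := by
  rw [List.getD_eq_getElem _ _ hj]; exact List.getElem_mem _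

theorem md_iff {a} : Md a φ ↔ ∀ j < φ.length, ∃ i < (φ.getD j []).length,
    a (lit φ j i).1 = (lit φ j i).2 := by
  constructor
  · intro h j hj
    obtain ⟨l, h1, h2⟩ := h _ (getD_mem hj)
    obtain ⟨i, hi, rfl⟩ := List.getElem_of_mem h1
    exact ⟨i, hi, by rwa [lit, List.getD_eq_getElem _ _ hi]⟩
  · intro h C hC
    obtain ⟨j, hj, rfl⟩ := List.getElem_of_mem hC
    obtain ⟨i, hi, h⟩ := h j hj
    exact ⟨_, lit_mem hj hi, h⟩

def Iv (n : ℕ) (φ : CNF ℕ) (s : T3 → Bool) : Prop :=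
  s (1, 0, 0) = true ∧ ∀ k < n, s (9, k, 0) = true →
    (VQ φ k (update (al n s) k false) ↔ k % 2 = 1)

theorem static (hφ : ∀ C ∈ φ, ∀ l ∈ C, l.1 < n) (h : Sol (CC n φ) s) (hi : Iv n φ s) (k : ℕ)
    (hk : k ≤ n) : (s (5, k, 1) = true → s (4, k, 0) = true ∧ VQ φ k (al n s)) ∧
      (s (5, k, 0) = true → s (4, k, 0) = true ∧ ¬ VQ φ k (al n s)) ∧ s (6, k, 0) = false := by
  obtain ⟨g, hm, hl⟩ := sol_iff.1 h
  have lt : ∀ j < φ.length, ∀ i < (φ.getD j []).length, (lit φ j i).1 < n := fun j hj i hi =>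
    hφ _ (List.getElem_mem hj) _ (lit_mem hj hi)
  induction k with
  | zero =>
    refine ⟨fun e => ⟨g.2.2.2.2.2.2.1 e, md_iff.2 fun j hj => ?_⟩,
      fun e => ⟨g.2.2.2.2.2.1 e, fun h' => ?_⟩, g.2.2.2.2.1⟩
    · have : ∀ m ≤ (φ.getD j []).length, s (13, j, m) = true → ∃ i < (φ.getD j []).length,
          al n s (lit φ j i).1 = (lit φ j i).2 := by
        intro m
        induction m with
        | zero => simp [(hm j hj).2.2.1]
        | succ m ih =>
          exact fun h1 h2 => (((hm j hj).2.2.2 m h1).1 h2).elim (ih (by omega)) fun h3 =>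
            ⟨m, h1, (rail h (g.2.2.2.2.2.2.1 e) (lt j hj m h1) _).1 h3⟩
      exact this _ le_rfl ((hm j hj).1 e)
    · have : ∀ m ≤ φ.length, s (15, m, 0) = false := by
        intro m
        induction m with
        | zero => simp [g.2.2.2.2.2.2.2.2]
        | succ m ih =>
          intro h1
          by_contra h2
          refine ((hm m h1).2.1 (by simpa using h2)).elim (by simp [ih (by omega)]) fun h3 => ?_
          obtain ⟨i, hi, h4⟩ := md_iff.1 h' m h1
          have := (rail h (g.2.2.2.2.2.1 e) (lt m h1 i hi) _).1 (((hm m h1).2.2.2 i hi).2 h3)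
          simp [h4] at this
      simpa [this _ le_rfl] using g.2.2.2.2.2.2.2.1 e
  | succ k ih =>
    obtain ⟨i1, i2, i3⟩ := ih (by omega)
    have h1 := hl k hk
    have h2 := hi.2 k hk
    have h3 := @vq_and φ k (al n s)
    have h4 : ∀ b, s (7, k, 1) = b → update (al n s) k b = al n s := fun b e =>
      update_eq_self_iff.2 (by simp [al, e, show k < n by omega])
    have h5 := h4 true
    have h6 := h4 false
    simp only [LvOK, LOK, loc, od] at h1
    rcases Nat.mod_two_eq_zero_or_one k with e | e <;> simp only [e] at h1 h2 h3 <;>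
      cases e7 : s (7, k, 1) <;> simp only [e7, forall_const] at h5 h6 <;>
      simp only [h5, h6] at h2 h3 <;> grind

theorem iv_step (hφ : ∀ C ∈ φ, ∀ l ∈ C, l.1 < n) (hq : ¬ VQ φ n fun _ => false)
    (h : St (VV n φ) (CC n φ) s s') (hi : Iv n φ s) : Iv n φ s' := by
  obtain ⟨h, h', x, hx⟩ := h
  have hx : ∀ a b c, a < 16 → b ≤ n → c ≤ 1 → (a, b, c) ≠ x → s (a, b, c) = s' (a, b, c) :=
    fun a b c _ _ _ => hx _ (mem_VV.2 (by simp only [bnd]; omega))
  obtain ⟨g, -, hl⟩ := sol_iff.1 h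
  obtain ⟨g', -, hl'⟩ := sol_iff.1 h'
  have k0 : s (3, 0, 0) = false := by
    obtain ⟨i1, -, i3⟩ := static hφ h hi n le_rfl
    by_contra e
    refine (g.2.2.2.1 (by simpa using e)).elim (fun e => hq ?_) (by simp [i3])
    exact (vq_congr fun j hj => by simp [al]; omega).1 (i1 e).2
  refine ⟨?_, fun k hk e => ?_⟩
  · by_cases e : (1, 0, 0) = x
    · subst e
      have := hx 2 0 0 (by omega) (by omega) (by omega) (by simp)
      have := hx 3 0 0 (by omega) (by omega) (by omega) (by simp)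
      have := g.2.1 hi.1
      have := g'.2.2.1
      grind
    · rw [← hx 1 0 0 (by omega) (by omega) (by omega) e, hi.1]
  by_cases e0 : s (9, k, 0) = true
  · refine (vq_congr fun j hj => ?_).trans (hi.2 k hk e0)
    by_cases e1 : j = k
    · simp [e1]
    rw [update_of_ne e1, update_of_ne e1]
    by_cases e2 : j < n
    · have a1 := (rails h ((hl k hk).2.2.2.2.2.2.1 e0) (j := j) (by omega) e2).2
      have a2 := (rails h' ((hl' k hk).2.2.2.2.2.2.1 e) (j := j) (by omega) e2).2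
      have a3 := hx 7 j 0 (by omega) (by omega) (by omega)
      have a4 := hx 7 j 1 (by omega) (by omega) (by omega)
      simp only [al]
      grind
    · simp [al, e2]
  · obtain rfl : (9, k, 0) = x := by
      by_contra e1
      exact e0 (by rw [hx 9 k 0 (by omega) (by omega) (by omega) e1, e])
    have a1 := hx 8 k 0 (by omega) (by omega) (by omega) (by simp)
    have a2 : al n s' = al n s := funext fun j => by
      by_cases e2 : j < n
      · simp only [al, hx 7 j 1 (by omega) (by omega) (by omega) (by simp)]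
      · simp [al, e2]
    obtain ⟨i1, i2, -⟩ := static hφ h hi k hk.le
    have h1 := hl k hk
    have h2 := hl' k hk
    have h3 := hi.1
    have h4 : s (7, k, 1) = false → update (al n s) k false = al n s := fun e =>
      update_eq_self_iff.2 (by simp [al, e])
    simp only [LvOK, LOK, loc, od] at h1 h2
    rw [a2]
    rcases Nat.mod_two_eq_zero_or_one k with e | e <;> simp only [e] at h1 h2 ⊢ <;> grind

def start : T3 → Bool := fun x => decide (x = (1, 0, 0) ∨ x = (2, 0, 0) ∨ x.1 = 8)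

theorem sol_start : Sol (CC n φ) start := by
  simp [sol_iff, GlOK, MatOK, LvOK, LOK, loc, start]

theorem sound (hφ : ∀ C ∈ φ, ∀ l ∈ C, l.1 < n) (hq : ¬ VQ φ n fun _ => false)
    (h : Cn (VV n φ) (CC n φ) start s) : s (1, 0, 0) = true := by
  have : Iv n φ s := by
    induction h with
    | refl => simp [Iv, start]
    | tail _ h ih => exact iv_step hφ hq h ih
  exact this.1

end Pool.Agent.H22.MX
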