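import Pool.Agent.H22.MXDefs
import Pool.Agent.H38.NP.TG

/-! Recolouring on listed graphs. -/

namespace Pool.Agent.H22.MX

open Pool.Agent.H38.NP Function Classical

variable {V : Type} [DecidableEq V]

def Pr (L : List V) (E : List (V × V)) (k : ℕ) (c : V → ℕ) : Prop :=
  (∀ v ∈ L, c v < k) ∧ ∀ e ∈ E, c e.1 ≠ c e.2

def Sp (L : List V) (E : List (V × V)) (k : ℕ) (c c' : V → ℕ) : Prop :=
  Pr L E k c ∧ Pr L E k c' ∧ ∃ x, ∀ y ∈ L, y ≠ x → c y = c' y

def Co (L : List V) (E : List (V × V)) (k : ℕ) := Relation.ReflTransGen (Sp L E k)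

variable {L : List V} {E : List (V × V)} {k : ℕ} {c c' : V → ℕ}

omit [DecidableEq V] in
theorem Co.symm (h : Co L E k c c') : Co L E k c' c := by
  induction h with
  | refl => exact .refl
  | tail _ h ih =>
    obtain ⟨a, b, x, h⟩ := h
    exact .head ⟨b, a, x, fun y h1 h2 => (h y h1 h2).symm⟩ ih

omit [DecidableEq V] in
theorem Co.trans {c''} (h : Co L E k c c') (h' : Co L E k c' c'') : Co L E k c c'' :=
  Relation.ReflTransGen.trans h h'

omit [DecidableEq V] in
theorem Pr.map {τ : ℕ → ℕ} (hE : ∀ e ∈ E, e.1 ∈ L ∧ e.2 ∈ L) (h1 : ∀ a < k, τ a < k)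
    (h2 : ∀ a < k, ∀ b < k, τ a = τ b → a = b) (h : Pr L E k c) : Pr L E k (τ ∘ c) :=
  ⟨fun v hv => h1 _ (h.1 v hv), fun e he h3 =>
    h.2 e he (h2 _ (h.1 _ (hE e he).1) _ (h.1 _ (hE e he).2) h3)⟩

omit [DecidableEq V] in
theorem Co.map {τ : ℕ → ℕ} (hE : ∀ e ∈ E, e.1 ∈ L ∧ e.2 ∈ L) (h1 : ∀ a < k, τ a < k)
    (h2 : ∀ a < k, ∀ b < k, τ a = τ b → a = b) (h : Co L E k c c') :
    Co L E k (τ ∘ c) (τ ∘ c') := by
  induction h with
  | refl => exact .refl
  | tail _ h ih =>
    obtain ⟨a, b, x, h⟩ := h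
    exact .tail ih ⟨a.map hE h1 h2, b.map hE h1 h2, x, fun y h1 h2 => congrArg τ (h y h1 h2)⟩

theorem seq (hE : ∀ e ∈ E, e.1 ∈ L ∧ e.2 ∈ L) (d : V) (ρ : V → ℕ) (h : Pr L E k c)
    (h' : Pr L E k c') (hρ : ∀ e ∈ E, c e.1 ≠ c' e.1 → c e.2 ≠ c' e.2 →
      (c' e.1 = c e.2 → ρ e.2 < ρ e.1) ∧ (c' e.2 = c e.1 → ρ e.1 < ρ e.2)) : Co L E k c c' := by
  induction hn : (L.toFinset.filter fun x => c x ≠ c' x).card generalizing c with
  | zero =>
    refine .single ⟨h, h', d, fun y hy _ => ?_⟩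
    simpa using Finset.filter_eq_empty_iff.1 (Finset.card_eq_zero.1 hn) (List.mem_toFinset.2 hy)
  | succ n ih =>
    obtain ⟨x, hx, hm⟩ := Finset.exists_min_image (L.toFinset.filter fun x => c x ≠ c' x) ρ
      (Finset.card_pos.1 (by rw [hn]; exact n.succ_pos))
    simp only [Finset.mem_filter, List.mem_toFinset, and_imp] at hx hm
    have p : Pr L E k (update c x (c' x)) := by
      refine ⟨fun v hv => ?_, fun e he => ?_⟩
      · have := h.1 v hv
        have := h'.1 x hx.1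
        grind
      · have := h.2 e he
        have := h'.2 e he
        have := hρ e he
        have := hm _ (hE e he).1
        have := hm _ (hE e he).2
        grind
    refine .head ⟨h, p, x, fun y _ e => (update_of_ne e _ _).symm⟩ (ih p (fun e he => ?_) ?_)
    · have := hρ e he
      grind
    have : (L.toFinset.filter fun y => update c x (c' x) y ≠ c' y) =
        (L.toFinset.filter fun y => c y ≠ c' y).erase x := by
      ext y
      by_cases e : y = x <;> simp [e]
    rw [this, Finset.card_erase_of_mem (by simpa using hx), hn]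
    rfl

def GI (I : Finset ℕ) (k : ℕ) (f : ℕ → ℕ) : Prop :=
  (∀ i ∈ I, f i < k) ∧ ∀ i ∈ I, ∀ j ∈ I, f i = f j → i = j

section
variable {I : Finset ℕ} {pt : V → ℕ} (hE : ∀ e ∈ E, e.1 ∈ L ∧ e.2 ∈ L) (d : V)
  (h1 : ∀ v ∈ L, pt v ∈ I) (h2 : ∀ e ∈ E, pt e.1 ≠ pt e.2)
include hE h1 h2

omit [DecidableEq V] in
theorem GI.pr {f} (h : GI I k f) : Pr L E k (f ∘ pt) :=
  ⟨fun v hv => h.1 _ (h1 v hv), fun e he h3 =>
    h2 e he (h.2 _ (h1 _ (hE e he).1) _ (h1 _ (hE e he).2) h3)⟩

include d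

theorem mv {f} (h : GI I k f) (i) {a} (ha : a < k) (hf : ∀ j ∈ I, f j ≠ a) :
    GI I k (update f i a) ∧ Co L E k (f ∘ pt) (update f i a ∘ pt) := by
  have : GI I k (update f i a) := by
    unfold GI at h ⊢
    grind
  refine ⟨this, seq hE d (fun _ => 0) (h.pr hE h1 h2) (this.pr hE h1 h2) fun e he => ?_⟩
  have := h2 e he
  simp only [comp]
  grind

theorem pc (hI : I.card < k) {f g} (hf : GI I k f) (hg : GI I k g) :
    Co L E k (f ∘ pt) (g ∘ pt) := by
  induction hn : (I.filter fun i => f i ≠ g i).card using Nat.strong_induction_on generalizing f with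
  | _ n ih =>
  by_cases e : ∀ i ∈ I, f i = g i
  · exact .single ⟨hf.pr hE h1 h2, hg.pr hE h1 h2, d, fun y hy _ => e _ (h1 y hy)⟩
  push Not at e
  obtain ⟨i, hi, e⟩ := e
  have key : ∀ f', GI I k f' → (∀ j ∈ I, f j = g j → f' j = g j) → (∀ j ∈ I, f' j ≠ g i) →
      Co L E k (f' ∘ pt) (g ∘ pt) := fun f' a b c => by
    obtain ⟨m1, m2⟩ := mv hE d h1 h2 a i (hg.1 i hi) c
    refine m2.trans (ih _ ?_ m1 rfl)
    rw [← hn]
    refine Finset.card_lt_card ⟨fun j => ?_, fun h => ?_⟩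
    · have := b j
      simp only [Finset.mem_filter]
      grind
    · simpa using h (Finset.mem_filter.2 ⟨hi, e⟩)
  by_cases e' : ∀ j ∈ I, f j ≠ g i
  · exact key f hf (fun _ _ h => h) e'
  push Not at e'
  obtain ⟨j, hj, e'⟩ := e'
  obtain ⟨a, ha, ha'⟩ := Finset.exists_mem_notMem_of_card_lt_card (s := I.image f)
    (t := Finset.range k) (by simpa using Finset.card_image_le.trans_lt hI)
  simp only [Finset.mem_image, not_exists, not_and, Finset.mem_range] at ha ha'
  obtain ⟨m1, m2⟩ := mv hE d h1 h2 hf j ha ha'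
  refine m2.trans (key _ m1 (fun l hl => ?_) fun l hl => ?_)
  · have := hg.2 i hi j hj
    grind
  · have := hf.2 l hl j hj
    have := ha' j hj
    grind

end

theorem bridge (hn : L.Nodup) (hE : ∀ e ∈ E, e.1 ∈ L ∧ e.2 ∈ L) (hl : ∀ e ∈ E, e.1 ≠ e.2) (d : V)
    {r : V → V → Bool} (hr : ∀ v w, r v w = true ↔ (v, w) ∈ E) :
    ColourMixing k (L.length, tgE L r d) ↔
      ∀ c c', Pr L E k c → Pr L E k c' → Co L E k c c' := by
  obtain ⟨e, inj, sur, adj⟩ := tg_spec hn r d
  unfold ColourMixing Mixing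
  set G := graphOf L.length (tgE L r d)
  have eL : ∀ u, e u ∈ L := fun u => (sur _).2 ⟨u, rfl⟩
  let res : ∀ c, Pr L E k c → G.Coloring (Fin k) := fun c h =>
    SimpleGraph.Coloring.mk (fun u => ⟨c (e u), h.1 _ (eL u)⟩) fun {u v} a b => by
      have b : c (e u) = c (e v) := congrArg Fin.val b
      rcases ((adj u v).1 a).2 with a | a
      · exact h.2 _ ((hr _ _).1 a) b
      · exact h.2 _ ((hr _ _).1 a) b.symm
  have rv : ∀ c h u, (res c h u : ℕ) = c (e u) := fun _ _ _ => rfl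
  let lift : G.Coloring (Fin k) → V → ℕ := fun C => extend e (fun u => (C u : ℕ)) 0
  have lv : ∀ C u, lift C (e u) = C u := fun C u => inj.extend_apply _ _ _
  have lp : ∀ C, Pr L E k (lift C) := fun C => ⟨fun v hv => by
      obtain ⟨u, rfl⟩ := (sur v).1 hv
      rw [lv]; exact (C u).2, fun ⟨x, y⟩ he => by
      obtain ⟨u, rfl⟩ := (sur x).1 (hE _ he).1
      obtain ⟨v, rfl⟩ := (sur y).1 (hE _ he).2
      simp only [lv]
      exact fun h => C.valid ((adj u v).2 ⟨hl _ he, Or.inl ((hr _ _).2 he)⟩) (Fin.ext h)⟩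
  constructor
  · intro H c c' h h'
    have s : ∀ c h, Co L E k c (lift (res c h)) := fun c h =>
      .single ⟨h, lp _, d, fun y hy _ => by obtain ⟨u, rfl⟩ := (sur y).1 hy; exact (lv (res c h) u).symm⟩
    refine (s c h).trans (.trans ?_ (s c' h').symm)
    have := (SimpleGraph.reachable_iff_reflTransGen _ _).1 (H (res c h) (res c' h'))
    generalize res c' h' = D at this
    induction this with
    | refl => exact .refl
    | tail _ a ih =>
      obtain ⟨u, -, a⟩ := a
      refine .tail ih ⟨lp _, lp _, e u, fun y hy ne => ?_⟩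
      obtain ⟨v, rfl⟩ := (sur y).1 hy
      rw [lv, lv]
      by_contra h
      exact ne (congrArg e (a v fun h' => h (congrArg _ h')))
  · intro H C D
    have s : ∀ C, res (lift C) (lp C) = C := fun C =>
      DFunLike.ext _ _ fun u => Fin.ext (lv C u)
    rw [← s C, ← s D]
    have := H _ _ (lp C) (lp D)
    generalize lp D = hD
    generalize lift D = c' at this hD
    induction this with
    | refl => rfl
    | @tail b c _ a ih =>
      obtain ⟨a1, a2, x, a⟩ := a
      refine (ih a1).trans ?_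
      by_cases q : ∃ u, res b a1 u ≠ res c hD u
      · obtain ⟨u, q⟩ := q
        have : ∀ v, res b a1 v ≠ res c hD v → e v = x := fun v hv => by
          by_contra h
          exact hv (Fin.ext (a _ (eL v) h))
        exact SimpleGraph.Adj.reachable ⟨u, q, fun v hv => inj ((this v hv).trans (this u q).symm)⟩
      · push Not at q
        rw [DFunLike.ext _ _ q]

end Pool.Agent.H22.MX
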