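import Pool.Agent.H22.MX4
import Pool.Agent.H22.MX1

/-! The graph built from a formula. -/

namespace Pool.Agent.H22.MX

open Function

abbrev Vx := ℕ × T3

abbrev P (j : ℕ) : Vx := (11, j, 0, 0)
abbrev g3 : Vx := (12, 0, 0, 0)
abbrev g0 : Vx := (13, 0, 0, 0)
def dC : Cz := ((0, 0, 0), (0, 0, 0), (0, 0, 0), false)

def VL (k : ℕ) (Vs : List T3) (m : ℕ) : List Vx :=
  (List.range 10).product Vs ++ ((List.range m).map (fun j => (10, j, 0, 0)) ++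
    ((List.range k).map P ++ [g3, g0]))

def varE (i : T3) : List (Vx × Vx) :=
  [((0, i), g3), ((0, i), g0), ((0, i), (1, i)), ((0, i), (2, i)),
   ((1, i), P 1), ((1, i), P 3), ((2, i), P 2), ((2, i), P 3),
   ((3, i), P 1), ((3, i), g3), ((3, i), (2, i)), ((3, i), (4, i)), ((3, i), (5, i)),
   ((4, i), P 0), ((4, i), P 3), ((5, i), P 0), ((5, i), P 1),
   ((6, i), g3), ((6, i), g0), ((6, i), (7, i)), ((6, i), (8, i)),
   ((7, i), P 0), ((7, i), P 1), ((8, i), P 0), ((8, i), P 2),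
   ((9, i), P 1), ((9, i), P 2), ((9, i), (1, i)), ((9, i), (8, i))]

def clE (j : ℕ) (c : Cz) : List (Vx × Vx) :=
  [((10, j, 0, 0), P 2), ((10, j, 0, 0), (4, c.1)), ((10, j, 0, 0), (1, c.2.1)),
   ((10, j, 0, 0), (cond c.2.2.2 5 7, c.2.2.1))]

def conE : List (Vx × Vx) :=
  [(g3, P 0), (g3, P 2), (g0, P 2), (g0, P 3), ((0, 0, 0, 0), P 1),
   (P 0, P 1), (P 0, P 2), (P 1, P 2), (P 3, P 1), (P 3, P 2)]

def EL (k : ℕ) (Vs : List T3) (Cs : List Cz) : List (Vx × Vx) :=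
  conE ++ Vs.flatMap varE ++ (List.range Cs.length).flatMap (fun j => clE j (Cs.getD j dC)) ++
    (List.range' 4 (k - 4)).flatMap fun j =>
      ((VL k Vs Cs.length).filter fun v => decide (v ≠ P j)).map fun v => (v, P j)

variable {k : ℕ} {Vs : List T3} {Cs : List Cz} {c c' : Vx → ℕ}

theorem mem_VL {m} {v : Vx} : v ∈ VL k Vs m ↔ (v.1 < 10 ∧ v.2 ∈ Vs) ∨
    (v.1 = 10 ∧ v.2.1 < m ∧ v.2.2 = (0, 0)) ∨ (v.1 = 11 ∧ v.2.1 < k ∧ v.2.2 = (0, 0)) ∨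
    v = g3 ∨ v = g0 := by
  obtain ⟨a, b, c, d⟩ := v
  simp only [VL, List.mem_append, List.pair_mem_product, List.mem_range, List.mem_map,
    Prod.mk.injEq, List.mem_cons, List.not_mem_nil, or_false]
  grind

theorem all_VL {m} {Q : Vx → Prop} : (∀ v ∈ VL k Vs m, Q v) ↔ (∀ i ∈ Vs, ∀ a < 10, Q (a, i)) ∧
    (∀ j < m, Q (10, j, 0, 0)) ∧ (∀ j < k, Q (P j)) ∧ Q g3 ∧ Q g0 := by
  simp only [mem_VL]
  refine ⟨fun h => ⟨fun i hi a ha => h _ (by simp [*]), fun j hj => h _ (by simp [*]),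
    fun j hj => h _ (by simp [*]), h _ (by simp), h _ (by simp)⟩, ?_⟩
  rintro ⟨h1, h2, h3, h4, h5⟩ ⟨a, b, c⟩ (h | ⟨rfl, h, rfl⟩ | ⟨rfl, h, rfl⟩ | h | h)
  exacts [h1 _ h.2 _ h.1, h2 _ h, h3 _ h, h ▸ h4, h ▸ h5]

theorem VL_nodup {m} (h : Vs.Nodup) : (VL k Vs m).Nodup := by
  unfold VL
  refine List.Nodup.append (List.nodup_range.product h) (List.Nodup.append
    (List.nodup_range.map fun a b h => by simpa using h) (List.Nodup.append
    (List.nodup_range.map fun a b h => by simpa using h) (by simp) ?_) ?_) ?_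
  all_goals
    rintro ⟨a, b⟩ h1 h2
    simp only [List.mem_append, List.pair_mem_product, List.mem_range, List.mem_map,
      Prod.mk.injEq, List.mem_cons, List.not_mem_nil, or_false] at h1 h2
    grind

theorem all_EL {Q : Vx × Vx → Prop} : (∀ e ∈ EL k Vs Cs, Q e) ↔ (∀ e ∈ conE, Q e) ∧
    (∀ i ∈ Vs, ∀ e ∈ varE i, Q e) ∧ (∀ j < Cs.length, ∀ e ∈ clE j (Cs.getD j dC), Q e) ∧
    ∀ j, 4 ≤ j → j < k → ∀ v ∈ VL k Vs Cs.length, v ≠ P j → Q (v, P j) := by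
  simp only [EL, List.forall_mem_append, List.forall_mem_flatMap, List.mem_range, and_assoc,
    List.forall_mem_map, List.mem_filter, decide_eq_true_eq, List.mem_range'_1, and_imp]
  refine and_congr Iff.rfl (and_congr Iff.rfl (and_congr Iff.rfl
    ⟨fun h j a b => h j a (by omega), fun h j a b => h j a (by omega)⟩))

structure WF (k : ℕ) (Vs : List T3) (Cs : List Cz) : Prop where
  k4 : 4 ≤ k
  hD : (0, 0, 0) ∈ Vs
  hV : ∀ c ∈ Cs, c.1 ∈ Vs ∧ c.2.1 ∈ Vs ∧ c.2.2.1 ∈ Vs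
  nt : ∀ c ∈ Cs, c.1 ≠ c.2.1 ∧ cond c.2.2.2 c.2.1 c.1 ≠ c.2.2.1

theorem gm {j} (hj : j < Cs.length) : Cs.getD j dC ∈ Cs := by
  rw [List.getD_eq_getElem _ _ hj]; exact List.getElem_mem _

theorem all_C {Q : Cz → Prop} : (∀ c ∈ Cs, Q c) ↔ ∀ j < Cs.length, Q (Cs.getD j dC) :=
  ⟨fun h _ hj => h _ (gm hj), fun h c hc => by
    obtain ⟨j, hj, rfl⟩ := List.getElem_of_mem hc
    simpa [hj] using h j hj⟩

def Can (k : ℕ) (c : Vx → ℕ) : Prop := ∀ j < k, c (P j) = j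

def VarOK (c : Vx → ℕ) (i : T3) : Prop :=
  c (0, i) < 4 ∧ (c (1, i) = 0 ∨ c (1, i) = 2) ∧ (c (2, i) = 0 ∨ c (2, i) = 1) ∧
  (c (3, i) = 0 ∨ c (3, i) = 2 ∨ c (3, i) = 3) ∧ (c (4, i) = 1 ∨ c (4, i) = 2) ∧
  (c (5, i) = 2 ∨ c (5, i) = 3) ∧ c (6, i) < 4 ∧ (c (7, i) = 2 ∨ c (7, i) = 3) ∧
  (c (8, i) = 1 ∨ c (8, i) = 3) ∧ (c (9, i) = 0 ∨ c (9, i) = 3) ∧
  c (0, i) ≠ c g3 ∧ c (0, i) ≠ c g0 ∧ c (0, i) ≠ c (1, i) ∧ c (0, i) ≠ c (2, i) ∧
  c (3, i) ≠ c g3 ∧ c (3, i) ≠ c (2, i) ∧ c (3, i) ≠ c (4, i) ∧ c (3, i) ≠ c (5, i) ∧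
  c (6, i) ≠ c g3 ∧ c (6, i) ≠ c g0 ∧ c (6, i) ≠ c (7, i) ∧ c (6, i) ≠ c (8, i) ∧
  c (9, i) ≠ c (1, i) ∧ c (9, i) ≠ c (8, i)

def ClOK (c : Vx → ℕ) (j : ℕ) (C : Cz) : Prop :=
  (c (10, j, 0, 0) = 0 ∨ c (10, j, 0, 0) = 1 ∨ c (10, j, 0, 0) = 3) ∧
  c (10, j, 0, 0) ≠ c (4, C.1) ∧ c (10, j, 0, 0) ≠ c (1, C.2.1) ∧
  c (10, j, 0, 0) ≠ c (cond C.2.2.2 5 7, C.2.2.1)

def Pr4 (Vs : List T3) (Cs : List Cz) (c : Vx → ℕ) : Prop :=
  ((c g3 = 1 ∨ c g3 = 3) ∧ (c g0 = 0 ∨ c g0 = 1) ∧ c (0, 0, 0, 0) ≠ 1) ∧ (∀ i ∈ Vs, VarOK c i) ∧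
    ∀ j < Cs.length, ClOK c j (Cs.getD j dC)

abbrev PR (k : ℕ) (Vs : List T3) (Cs : List Cz) := Pr (VL k Vs Cs.length) (EL k Vs Cs) k
abbrev CO (k : ℕ) (Vs : List T3) (Cs : List Cz) := Co (VL k Vs Cs.length) (EL k Vs Cs) k

variable (w : WF k Vs Cs)
include w

theorem WF.hE : ∀ e ∈ EL k Vs Cs, e.1 ∈ VL k Vs Cs.length ∧ e.2 ∈ VL k Vs Cs.length := by
  have := w.k4
  refine all_EL.2 ⟨?_, fun i hi => ?_, fun j hj => ?_, fun j a b v hv _ => ⟨hv, by simp [mem_VL, b]⟩⟩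
  · simp [conE, mem_VL, w.hD]
    omega
  · simp [varE, mem_VL, hi]
    omega
  · obtain ⟨h1, h2, h3⟩ := w.hV _ (gm hj)
    simp only [clE, List.forall_mem_cons, mem_VL, h1, h2, h3, hj]
    cases (Cs.getD j dC).2.2.2 <;> simp <;> omega

theorem pr4 (hc : Can k c) : PR k Vs Cs c ↔ Pr4 Vs Cs c := by
  have k4 := w.k4
  have c0 := hc 0 (by omega)
  have c1 := hc 1 (by omega)
  have c2 := hc 2 (by omega)
  have c3 := hc 3 (by omega)
  constructor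
  · rintro ⟨h, h'⟩
    obtain ⟨e1, e2, e3, e4⟩ := all_EL.1 h'
    have b : ∀ v ∈ VL k Vs Cs.length, v.1 ≠ 11 → c v < 4 := fun v hv e => by
      by_contra h4
      exact e4 (c v) (by omega) (h v hv) v hv (fun e' => e (by rw [e'])) (hc _ (h v hv)).symm
    obtain ⟨b1, b2, -, b4, b5⟩ := all_VL.1 b
    refine ⟨?_, fun i hi => ?_, fun j hj => ?_⟩
    · simp only [conE, List.forall_mem_cons, c0, c1, c2, c3] at e1
      obtain ⟨a1, a2, a3, a4, a5, -⟩ := e1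
      have := b4 (by simp)
      have := b5 (by simp)
      exact ⟨by omega, by omega, a5⟩
    · have := e2 i hi
      have b1 := fun a ha => b1 i hi a ha (by simp only; omega)
      simp only [varE, List.forall_mem_cons, c0, c1, c2, c3] at this
      obtain ⟨a1, a2, a3, a4, a5, a6, a7, a8, a9, a10, a11, a12, a13, a14, a15, a16, a17, a18, a19,
        a20, a21, a22, a23, a24, a25, a26, a27, a28, a29, -⟩ := this
      have t : ∀ {x a b p q : ℕ}, x < 4 → x ≠ a → x ≠ b →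
          (∀ y < 4, y ≠ a → y ≠ b → y = p ∨ y = q) → x = p ∨ x = q := fun h h1 h2 h3 => h3 _ h h1 h2
      exact ⟨b1 0 (by omega), t (b1 1 (by omega)) a5 a6 (by decide),
        t (b1 2 (by omega)) a7 a8 (by decide),
        (by decide : ∀ y < 4, y ≠ 1 → y = 0 ∨ y = 2 ∨ y = 3) _ (b1 3 (by omega)) a9,
        t (b1 4 (by omega)) a14 a15 (by decide), t (b1 5 (by omega)) a16 a17 (by decide),
        b1 6 (by omega), t (b1 7 (by omega)) a22 a23 (by decide),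
        t (b1 8 (by omega)) a24 a25 (by decide), t (b1 9 (by omega)) a26 a27 (by decide),
        a1, a2, a3, a4, a10, a11, a12, a13, a18, a19, a20, a21, a28, a29⟩
    · have := e3 j hj
      have b2 := b2 j hj (by simp)
      simp only [clE, List.forall_mem_cons, c2] at this
      exact ⟨by have := this.1; omega, this.2.1, this.2.2.1, this.2.2.2.1⟩
  · rintro ⟨h1, h2, h3⟩
    have b : ∀ v ∈ VL k Vs Cs.length, v.1 ≠ 11 → c v < 4 :=
      all_VL.2 ⟨fun i hi a ha _ => by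
        obtain ⟨a0, a1, a2, a3, a4, a5, a6, a7, a8, a9, -⟩ := h2 i hi
        interval_cases a <;> grind, fun j hj _ => by have := (h3 j hj).1; omega, by simp,
        fun _ => by have := h1.1; omega, fun _ => by have := h1.2.1; omega⟩
    have b' : ∀ v ∈ VL k Vs Cs.length, v.1 = 11 → v = P (c v) ∧ c v < k := all_VL.2
      ⟨fun _ _ _ _ _ => by omega, by simp, fun j hj _ => by simp [hc j hj, hj], by simp, by simp⟩
    refine ⟨fun v hv => ?_, all_EL.2 ⟨?_, fun i hi => ?_, fun j hj => ?_, fun j a a' v hv e => ?_⟩⟩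
    · have := b v hv
      have := b' v hv
      omega
    · simp only [conE, List.forall_mem_cons, c0, c1, c2, c3]
      simp
      omega
    · have := h2 i hi
      unfold VarOK at this
      simp only [varE, List.forall_mem_cons, c0, c1, c2, c3]
      simp only [this, ne_eq, not_false_eq_true, true_and, List.not_mem_nil, false_imp_iff,
        implies_true, and_true]
      obtain ⟨-, a1, a2, a3, a4, a5, -, a7, a8, a9, -⟩ := this
      refine ⟨?_, ?_, ?_, ?_, ?_, ?_, ?_, ?_, ?_, ?_, ?_, ?_, ?_, ?_, ?_⟩ <;> grind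
    · have := h3 j hj
      unfold ClOK at this
      simp only [clE, List.forall_mem_cons, c2]
      grind
    · have := b v hv
      have := b' v hv
      have := hc j a'
      grind

theorem seq4 (ρ : Vx → ℕ) (hc : Can k c) (hc' : Can k c') (h : Pr4 Vs Cs c) (h' : Pr4 Vs Cs c')
    (h1 : ∀ i ∈ Vs, ∀ e ∈ [((0, i), g3), ((0, i), g0), ((0, i), (1, i)), ((0, i), (2, i)),
      ((3, i), g3), ((3, i), (2, i)), ((3, i), (4, i)), ((3, i), (5, i)),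
      ((6, i), g3), ((6, i), g0), ((6, i), (7, i)), ((6, i), (8, i)),
      ((9, i), (1, i)), ((9, i), (8, i))], c e.1 ≠ c' e.1 → c e.2 ≠ c' e.2 →
      (c' e.1 = c e.2 → ρ e.2 < ρ e.1) ∧ (c' e.2 = c e.1 → ρ e.1 < ρ e.2))
    (h2 : ∀ j < Cs.length, ∀ v ∈ [(4, (Cs.getD j dC).1), (1, (Cs.getD j dC).2.1),
      (cond (Cs.getD j dC).2.2.2 5 7, (Cs.getD j dC).2.2.1)],
      c v ≠ c' v → ρ v < ρ (10, j, 0, 0) ∧ c' v = 2) : CO k Vs Cs c c' := by
  have k4 := w.k4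
  have e : ∀ j < k, c (P j) = c' (P j) := fun j hj => by rw [hc j hj, hc' j hj]
  have c0 := e 0 (by omega)
  have c1 := e 1 (by omega)
  have c2 := e 2 (by omega)
  have c3 := e 3 (by omega)
  refine seq w.hE g0 ρ ((pr4 w hc).2 h) ((pr4 w hc').2 h') (all_EL.2 ⟨?_, fun i hi => ?_,
    fun j hj => ?_, fun j _ a v _ _ _ h => absurd (e j a) h⟩)
  · simp [conE, c0, c1, c2, c3]
  · have := h1 i hi
    simp only [varE, List.forall_mem_cons, c0, c1, c2, c3] at this ⊢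
    simpa using this
  · have a := h2 j hj
    have b := (h.2.2 j hj).1
    clear h1 h2
    simp only [clE, List.forall_mem_cons, c2] at a ⊢
    obtain ⟨a1, a2, a3, -⟩ := a
    refine ⟨by simp, ?_, ?_, ?_, by simp⟩ <;> grind

end Pool.Agent.H22.MX
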