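import Pool.Agent.H22.MX5

/-! Recolouring simulates the solution graph. -/

namespace Pool.Agent.H22.MX

open Function

def gen (Cs : List Cz) (s p q : T3 → Bool) (v : Vx) : ℕ :=
  if v.1 = 0 then cond (s v.2) 1 2 else if v.1 = 1 then cond (q v.2) 0 2
  else if v.1 = 2 then cond (p v.2) 0 1 else if v.1 = 3 then cond (p v.2) 2 0
  else if v.1 = 4 then cond (p v.2) 1 2 else if v.1 = 5 then cond (p v.2) 3 2
  else if v.1 = 6 then cond (q v.2) 2 1 else if v.1 = 7 then cond (q v.2) 3 2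
  else if v.1 = 8 then cond (q v.2) 1 3 else if v.1 = 9 then cond (q v.2) 3 0
  else if v.1 = 10 then cond (p (Cs.getD v.2.1 dC).1) (cond (q (Cs.getD v.2.1 dC).2.1) 3 0) 1
  else if v.1 = 11 then v.2.1 else if v.1 = 12 then 3 else 0

def std (Cs : List Cz) (s : T3 → Bool) : Vx → ℕ := gen Cs s s fun i => !s i

def dec (c : Vx → ℕ) (i : T3) : Bool := decide (c (0, i) = 1)

variable {k : ℕ} {Vs : List T3} {Cs : List Cz} {c c' : Vx → ℕ} {s s' p q : T3 → Bool}

theorem can_gen : Can k (gen Cs s p q) := fun _ _ => by simp [gen]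

theorem dec_gen : dec (gen Cs s p q) = s := funext fun i => by cases h : s i <;> simp [dec, gen, h]

theorem pr_gen (h0 : s (0, 0, 0) = false) (h1 : ∀ i ∈ Vs, cond (s i) (p i) (q i) = true)
    (h2 : ∀ C ∈ Cs, p C.1 = true → q C.2.1 = true → cond C.2.2.2 p q C.2.2.1 = false) :
    Pr4 Vs Cs (gen Cs s p q) := by
  refine ⟨by simp [gen, h0], fun i hi => ?_, fun j hj => ?_⟩
  · have := h1 i hi
    simp only [VarOK, gen]
    generalize s i = a at *
    generalize p i = b at *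
    generalize q i = d at *
    cases a <;> cases b <;> cases d <;> simp at this ⊢
  · have := h2 _ (gm hj)
    simp only [ClOK, gen]
    generalize Cs.getD j dC = C at *
    obtain ⟨X, Y, Z, b⟩ := C
    cases b <;> cases h : p X <;> cases h' : q Y <;> cases h3 : p Z <;> cases h4 : q Z <;>
      simp [h, h', h3, h4] at this ⊢

theorem pr_std (h : Sol Cs s) : Pr4 Vs Cs (std Cs s) :=
  pr_gen h.1 (fun i _ => by cases s i <;> rfl) fun C hC => by
    have := h.2 C hC
    unfold ok at this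
    cases e : C.2.2.2 <;> grind

theorem forced {i} (h : VarOK c i) (h3 : c g3 = 3) (h0 : c g0 = 0) :
    (c (0, i) = 1 ∧ c (2, i) = 0 ∧ c (3, i) = 2 ∧ c (4, i) = 1 ∧ c (5, i) = 3) ∨
    (c (0, i) = 2 ∧ c (1, i) = 0 ∧ c (9, i) = 3 ∧ c (8, i) = 1 ∧ c (6, i) = 2 ∧ c (7, i) = 3) := by
  unfold VarOK at h
  grind

def rho (v : Vx) : ℕ :=
  if v.1 = 3 ∨ v.1 = 9 then 1 else if v.1 = 4 ∨ v.1 = 5 ∨ v.1 = 8 then 2 else if v.1 = 6 then 3
  else if v.1 = 7 then 4 else if v.1 = 10 then 5 else 0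

def mlt (c : Vx → ℕ) (v : Vx) : ℕ :=
  if v.1 = 12 ∨ v.1 = 13 ∨ v.1 = 2 ∨ v.1 = 8 then 1 else if v.1 = 0 then 3
  else if v.1 = 1 then 2 else c v

def pt (v : Vx) : ℕ :=
  if v.1 = 11 then (if v.2.1 = 3 then 0 else v.2.1)
  else if v.1 = 1 ∨ v.1 = 5 ∨ v.1 = 7 then 2
  else if v.1 = 2 ∨ v.1 = 4 ∨ v.1 = 8 ∨ v.1 = 12 ∨ v.1 = 13 then 1 else 0

variable (w : WF k Vs Cs)
include w

theorem sol_dec (h : Pr4 Vs Cs c) (h3 : c g3 = 3) (h0 : c g0 = 0) : Sol Cs (dec c) := by
  refine ⟨by simp [dec, h.1.2.2], all_C.2 fun j hj => ?_⟩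
  obtain ⟨v1, v2, v3⟩ := w.hV _ (gm hj)
  have a1 := forced (h.2.1 _ v1) h3 h0
  have a2 := forced (h.2.1 _ v2) h3 h0
  have a3 := forced (h.2.1 _ v3) h3 h0
  have := h.2.2 j hj
  simp only [ClOK, ok, dec] at this ⊢
  generalize Cs.getD j dC = C at *
  obtain ⟨X, Y, Z, b⟩ := C
  cases b <;> grind

theorem toStd (hc : Can k c) (h : Pr4 Vs Cs c) (h3 : c g3 = 3) (h0 : c g0 = 0) :
    CO k Vs Cs c (std Cs (dec c)) := by
  refine seq4 w rho hc can_gen h (pr_std (sol_dec w h h3 h0)) (fun i hi => ?_) fun j hj => ?_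
  · have a := forced (h.2.1 _ hi) h3 h0
    obtain ⟨-, a1, a2, a3, a4, a5, -, a7, a8, a9, b1, b2, -, -, -, -, -, -, b3, b4, -⟩ := h.2.1 _ hi
    simp only [List.forall_mem_cons, std, gen, rho, dec, h3, h0]
    rcases a with a | a <;> simp [a] <;> grind
  · obtain ⟨v1, v2, v3⟩ := w.hV _ (gm hj)
    have a1 := forced (h.2.1 _ v1) h3 h0
    have a2 := forced (h.2.1 _ v2) h3 h0
    have a3 := forced (h.2.1 _ v3) h3 h0
    generalize Cs.getD j dC = C at *
    obtain ⟨X, Y, Z, b⟩ := C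
    simp only [List.forall_mem_cons, std, gen, rho, dec]
    refine ⟨?_, ?_, ?_, by simp⟩
    · rcases a1 with a | a <;> simp [a]
    · rcases a2 with a | a <;> simp [a]
    · cases b <;> rcases a3 with a | a <;> simp [a]

theorem flip (h : St Vs Cs s s') : CO k Vs Cs (std Cs s) (std Cs s') := by
  obtain ⟨h, h', x, hx⟩ := h
  obtain ⟨p, q, a, a', b⟩ : ∃ p q : T3 → Bool, (∀ i ∈ Vs, cond (s i) (p i) (q i) = true) ∧
      (∀ i ∈ Vs, cond (s' i) (p i) (q i) = true) ∧
      ∀ C ∈ Cs, p C.1 = true → q C.2.1 = true → cond C.2.2.2 p q C.2.2.1 = false := by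
    refine ⟨fun i => s i || s' i, fun i => !s i || !s' i, fun i _ => by cases e : s i <;> simp [e],
      fun i _ => by cases e : s' i <;> simp [e], fun C hC => ?_⟩
    have a1 := h.2 C hC
    have a2 := h'.2 C hC
    obtain ⟨v1, v2, v3⟩ := w.hV C hC
    have := hx _ v1
    have := hx _ v2
    have := hx _ v3
    have := w.nt C hC
    obtain ⟨X, Y, Z, b⟩ := C
    simp only [ok] at a1 a2
    cases b <;> grind
  have p1 := pr_gen h.1 a b
  have p2 := pr_gen h'.1 a' b
  have t1 := toStd w can_gen p1 (by simp [gen]) (by simp [gen])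
  have t2 := toStd w can_gen p2 (by simp [gen]) (by simp [gen])
  rw [dec_gen] at t1 t2
  refine t1.symm.trans (.head ⟨(pr4 w can_gen).2 p1, (pr4 w can_gen).2 p2, (0, x), ?_⟩ t2)
  refine all_VL.2 ⟨fun i hi a _ e => ?_, by simp [gen], by simp [gen], by simp [gen], by simp [gen]⟩
  by_cases e' : a = 0
  · simp [gen, e', hx i hi (by simpa [e'] using e)]
  · simp [gen, e']

theorem melt (hc : Can k c) (h : Pr4 Vs Cs c) (h1 : ∀ i ∈ Vs, c (0, i) ≠ 1 ∧ c (6, i) ≠ 1) :
    ∃ c', PR k Vs Cs c' ∧ CO k Vs Cs c c' ∧ c' (P 0) = c' (P 3) := by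
  have k4 := w.k4
  have hm : Can k (mlt c) := fun j hj => by simpa [mlt] using hc j hj
  have pm : Pr4 Vs Cs (mlt c) := by
    refine ⟨by simp [mlt], fun i hi => ?_, fun j hj => ?_⟩
    · have := h.2.1 i hi
      have := h1 i hi
      simp only [VarOK, mlt] at *
      simp
      grind
    · have := h.2.2 j hj
      simp only [ClOK, mlt] at this ⊢
      cases e : (Cs.getD j dC).2.2.2 <;> simp only [e] at this <;> simp at this ⊢ <;> grind
  have a := (pr4 w hm).2 pm
  have b : PR k Vs Cs (update (mlt c) (P 3) 0) := by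
    refine ⟨fun v hv => by have := a.1 v hv; grind, fun e he => ?_⟩
    have : ∀ e ∈ EL k Vs Cs, (e.1 = P 3 → mlt c e.2 ≠ 0 ∧ e.2 ≠ P 3) ∧
        (e.2 = P 3 → mlt c e.1 ≠ 0) := by
      refine all_EL.2 ⟨?_, fun i hi => ?_, fun j hj => ?_, fun j _ hj v _ _ => ?_⟩
      · simp [conE, hm 1 (by omega), hm 2 (by omega), show mlt c g0 = 1 by simp [mlt]]
      · have := (h.2.1 i hi).2.2.2.2.1
        simp [varE, mlt]
        omega
      · cases e : (Cs.getD j dC).2.2.2 <;> simp only [clE, e] <;> simp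
      · simp [hm j hj]
        omega
    have := this e he
    have := a.2 e he
    grind
  refine ⟨_, b, .tail (seq4 w (fun v => if v.1 = 0 then 1 else if v.1 = 1 then 2 else
    if v.1 = 10 then 3 else 0) hc hm h pm (fun i hi => ?_) fun j hj => ?_)
    ⟨a, b, P 3, fun y _ e => (update_of_ne e _ _).symm⟩, by simp [hm 0 (by omega)]⟩
  · have := h1 i hi
    obtain ⟨-, a1, a2, -⟩ := h.2.1 _ hi
    simp [mlt]
    grind
  · cases e : (Cs.getD j dC).2.2.2 <;> simp [mlt, e]

theorem pt1 : ∀ v ∈ VL k Vs Cs.length, pt v ∈ (Finset.range k).erase 3 := by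
  have := w.k4
  refine all_VL.2 ⟨fun i _ a ha => ?_, ?_, ?_, ?_, ?_⟩ <;> simp only [pt, Finset.mem_erase,
    Finset.mem_range] <;> grind

omit w in
theorem pt2 : ∀ e ∈ EL k Vs Cs, pt e.1 ≠ pt e.2 := by
  refine all_EL.2 ⟨by simp [conE, pt], by simp [varE, pt], fun j _ => ?_, fun j _ _ => ?_⟩
  · cases e : (Cs.getD j dC).2.2.2 <;> simp only [clE, e] <;> simp [pt]
  · refine all_VL.2 ⟨fun i _ a ha => ?_, ?_, ?_, ?_, ?_⟩ <;> simp only [pt] <;> grind

theorem pal (h : PR k Vs Cs c) {i j} (hi : i < k) (hj : j < k) (e : c (P i) = c (P j)) :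
    i = j ∨ (i = 0 ∧ j = 3) ∨ (i = 3 ∧ j = 0) := by
  obtain ⟨e1, -, -, e4⟩ := all_EL.1 h.2
  have a := fun h => e4 i h hi (P j) (by simp [mem_VL, hj])
  have b := fun h => e4 j h hj (P i) (by simp [mem_VL, hi])
  simp only [conE, List.forall_mem_cons] at e1
  obtain ⟨-, -, -, -, -, a1, a2, a3, a4, a5, -⟩ := e1
  by_cases h4 : i < 4 ∧ j < 4
  · obtain ⟨h4, h5⟩ := h4
    interval_cases i <;> interval_cases j <;> grind
  · grind

theorem wild (h : PR k Vs Cs c) (e : c (P 0) = c (P 3)) : CO k Vs Cs c (id ∘ pt) := by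
  have k4 := w.k4
  have gi : GI ((Finset.range k).erase 3) k fun j => c (P j) := by
    simp only [GI, Finset.mem_erase, Finset.mem_range]
    exact ⟨fun i hi => h.1 _ (by simp [mem_VL, hi]), fun i hi j hj e => by
      have := pal w h hi.2 hj.2 e; omega⟩
  refine (seq w.hE g0 (fun v => if pt v = 0 then 0 else 1) h (gi.pr w.hE (pt1 w) pt2) ?_).trans
    (pc w.hE g0 (pt1 w) pt2 (by simp [show 3 < k by omega]; omega) gi
      ⟨by simp, fun _ _ _ _ h => h⟩)
  obtain ⟨e1, e2, -, -⟩ := all_EL.1 h.2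
  simp only [conE, List.forall_mem_cons] at e1
  obtain ⟨a1, -, -, a4, -⟩ := e1
  have t : ∀ i ∈ Vs, c (1, i) ≠ c (P 0) ∧ c (2, i) ≠ c (P 0) ∧ c (4, i) ≠ c (P 0) ∧
      c (5, i) ≠ c (P 0) ∧ c (7, i) ≠ c (P 0) ∧ c (8, i) ≠ c (P 0) := fun i hi => by
    have := e2 i hi
    simp only [varE, List.forall_mem_cons, ← e] at this
    simp [this]
  refine all_EL.2 ⟨by simp [conE, pt, e], fun i hi => ?_, fun j hj => ?_, fun j _ hj v _ _ => ?_⟩
  · have := t i hi
    simp [varE, pt, e]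
    grind
  · obtain ⟨v1, v2, v3⟩ := w.hV _ (gm hj)
    have := t _ v1
    have := t _ v2
    have := t _ v3
    cases e : (Cs.getD j dC).2.2.2 <;> simp only [clE, e] <;> simp [pt] <;> grind
  · simp [pt, show j ≠ 3 by omega]

theorem cn_co (h : Cn Vs Cs s s') : CO k Vs Cs (std Cs s) (std Cs s') := by
  induction h with
  | refl => exact .refl
  | tail _ h ih => exact ih.trans (flip w h)

theorem yes (H : ∀ s, Sol Cs s → Cn Vs Cs s fun _ => false) (h : PR k Vs Cs c) :
    CO k Vs Cs c (id ∘ pt) := by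
  have can : ∀ c, Can k c → Pr4 Vs Cs c →
      ∃ c', PR k Vs Cs c' ∧ CO k Vs Cs c c' ∧ c' (P 0) = c' (P 3) := fun c hc h => by
    by_cases e : c g3 = 3 ∧ c g0 = 0
    · have s := sol_dec w h e.1 e.2
      have s0 : Sol Cs fun _ => false := ⟨rfl, fun _ _ h => by simp at h⟩
      obtain ⟨c', a, b, d⟩ := melt w can_gen (pr_std s0) (by simp [gen])
      exact ⟨c', a, (toStd w hc h e.1 e.2).trans ((cn_co w (H _ s)).trans b), d⟩
    · refine melt w hc h fun i hi => ?_
      obtain ⟨-, -, -, -, -, -, -, -, -, -, b1, b2, -, -, -, -, -, -, b3, b4, -⟩ := h.2.1 _ hi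
      have := h.1
      grind
  by_cases e : c (P 0) = c (P 3)
  · exact wild w h e
  have lt : ∀ i < k, c (P i) < k := fun i hi => h.1 _ (by simp [mem_VL, hi])
  have inj : ∀ i < k, ∀ j < k, c (P i) = c (P j) → i = j := fun i hi j hj e' => by
    have := pal w h hi hj e'
    grind
  have sur : ∀ a < k, ∃ i, i < k ∧ c (P i) = a := fun a ha => by
    simpa using Finset.surjOn_of_injOn_of_card_le (s := Finset.range k) (t := Finset.range k)
      (fun i => c (P i)) (fun i hi => by simpa using lt i (by simpa using hi))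
      (fun i hi j hj => inj i (by simpa using hi) j (by simpa using hj)) le_rfl
      (show a ∈ _ by simpa using ha)
  choose! σ s1 s2 using sur
  have hc : Can k (σ ∘ c) := fun j hj => inj _ (s1 _ (lt j hj)) _ hj (s2 _ (lt j hj))
  have p0 : PR k Vs Cs (σ ∘ c) := h.map w.hE s1 fun a ha b hb e => by rw [← s2 a ha, e, s2 b hb]
  obtain ⟨c', a, b, d⟩ := can _ hc ((pr4 w hc).1 p0)
  refine .head ⟨h, p0.map (τ := fun i => c (P i)) w.hE lt inj, g0, fun y hy _ =>
    (s2 _ (h.1 y hy)).symm⟩ ((b.map w.hE lt inj).trans (wild w (a.map w.hE lt inj) ?_))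
  simp [d]

theorem no {T} (hT : T ∈ Vs) (hs : Sol Cs s) (H : ∀ s', Cn Vs Cs s s' → s' T = true)
    (h : CO k Vs Cs (std Cs s) c) : c (P 0) ≠ c (P 3) := by
  have k4 := w.k4
  have : Can k c ∧ c g3 = 3 ∧ c g0 = 0 ∧ Cn Vs Cs s (dec c) := by
    induction h with
    | refl => exact ⟨can_gen, by simp [std, gen], by simp [std, gen], by rw [std, dec_gen]; exact .refl⟩
    | @tail c c' _ h ih =>
      obtain ⟨i1, i2, i3, i4⟩ := ih
      obtain ⟨h, h', x, hx⟩ := h
      have z : c (0, T) = 1 := by simpa [dec] using H _ i4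
      obtain ⟨e1, e2, -, e4⟩ := all_EL.1 h'.2
      have e2 := e2 T hT
      simp only [conE, varE, List.forall_mem_cons] at e1 e2
      obtain ⟨a1, a2, a3, a4, -, a6, a7, a8, a9, a10, -⟩ := e1
      obtain ⟨b1, b2, -⟩ := e2
      obtain ⟨x1, -, x3, x4, x5⟩ := all_VL.1 hx
      have x1 := x1 T hT 0 (by omega)
      have mP : ∀ j < k, P j ∈ VL k Vs Cs.length := fun j hj => by simp [mem_VL, hj]
      have hc : Can k c' := fun j hj => by
        by_cases e : P j = x
        swap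
        · rw [← x3 j hj e, i1 j hj]
        subst e
        have l := h'.1 _ (mP j hj)
        by_contra ne
        have := x3 _ l (by simpa using ne)
        rw [i1 _ l] at this
        have := pal w h' l hj this.symm
        grind
      have c0 := hc 0 (by omega)
      have c2 := hc 2 (by omega)
      have c3 := hc 3 (by omega)
      have p := (pr4 w hc).1 h'
      have y3 : c' g3 = 3 := by have := p.1; grind
      have y0 : c' g0 = 0 := by have := p.1; grind
      refine ⟨hc, y3, y0, i4.tail ⟨sol_dec w ((pr4 w i1).1 h) i2 i3, sol_dec w p y3 y0, x.2,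
        fun y hy e => ?_⟩⟩
      rw [dec, dec, hx (0, y) (by simp [mem_VL, hy]) fun e' => e (by rw [← e'])]
  rw [this.1 0 (by omega), this.1 3 (by omega)]
  simp

end Pool.Agent.H22.MX
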