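import Pool.Agent.H36.PSpaceDefs
import Pool.Agent.H38.NP.Api

/-! Membership in PSPACE: loops with bounded states, and and-or trees of polynomial depth. -/

namespace Pool.Agent.H22.PS

open Pool.Agent.H38.NP Pool.Agent.H36.PSpace Function Turing

inductive RB {L : Type} (M : L → Ins (Option L)) (B : ℕ) :
    Option L → Store → Option L → Store → Prop
  | refl (a s) : RB M B a s a s
  | step {l s b s'} : (∀ r, (s r).length ≤ B) → RB M B ((M l).run s).1 ((M l).run s).2 b s' →
      RB M B (some l) s b s'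

section
variable {L L' : Type} {M : L → Ins (Option L)} {B : ℕ}

theorem RB.trans {a s b s' c s''} (h : RB M B a s b s') (h' : RB M B b s' c s'') :
    RB M B a s c s'' := by
  induction h with
  | refl => exact h'
  | step h _ ih => exact .step h (ih h')

theorem RB.embed {M' : L' → Ins (Option L')}
    (φ : Option L → Option L') (g : L → L') (hφ : ∀ l, φ (some l) = some (g l))
    (hM : ∀ l, M' (g l) = (M l).map φ) {a s b s'} (h : RB M B a s b s') :
    RB M' B (φ a) s (φ b) s' := by
  induction h with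
  | refl => exact .refl _ _
  | step h _ ih =>
    rw [hφ]
    refine .step h ?_
    rw [hM, Ins.run_map]
    exact ih

theorem RB.ofReach {a s b s' n} (h : Reach M a s b s' n) (hB : ∀ r, (s r).length + n ≤ B) :
    RB M B a s b s' := by
  induction h with
  | refl => exact .refl _ _
  | @step l s b s' n _ ih =>
    refine .step (fun r => by have := hB r; omega) (ih fun r => ?_)
    have := hB r
    cases M l with
    | push r' b n => by_cases e : r = r' <;> simp [Ins.run, e] at this ⊢ <;> omega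
    | pop r' n => by_cases e : r = r' <;> simp [Ins.run, e] at this ⊢ <;> omega
    | test r' g => simp only [Ins.run]; omega

theorem RB.reach {a s b s'} (h : RB M B a s b s') : ∃ n, Reach M a s b s' n := by
  induction h with
  | refl => exact ⟨0, .refl _ _⟩
  | step _ _ ih => exact ih.elim fun n h => ⟨n + 1, .step h⟩

theorem RB.bound {N : ℕ} (hM : ∀ l, (M l).reg ≤ N) {a s b s'} (h : RB M B a s b s') (hb : b = none)
    (hs : ∀ r, (s' r).length ≤ B) {c} (hc : Relation.ReflTransGen (fun a b => TM2.step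
      (fun l => (insS (M l) : TM2.Stmt (fun _ : Fin (N + 1) => Bool) L (Option Bool))) a = some b)
      (cfgOf a s) c) (k) : (c.stk k).length ≤ B := by
  induction h with
  | refl =>
    subst hb
    rcases hc.cases_head with rfl | ⟨_, h, _⟩
    · exact hs _
    · simp [cfgOf, TM2.step] at h
  | step h _ ih =>
    rcases hc.cases_head with rfl | ⟨_, h', hc⟩
    · exact h _
    · simp only [cfgOf, TM2.step, Option.some.injEq] at h'
      rw [stepAux_insS _ (hM _)] at h'
      exact ih hb hs (h' ▸ hc)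

end

def XB (B : ℕ) (p : Prog) (x y : List Bool) : Prop :=
  RB (ins p) B (some (start p)) (sc x E) none (sc y E)

theorem sc_le {x : List Bool} {n B : ℕ} (h : x.length + n ≤ B) (r) : (sc x E r).length + n ≤ B := by
  cases r <;> simp <;> omega

theorem XB.ofComp {B p x y T} (h : Comp p x y T) (hB : x.length + T ≤ B) : XB B p x y :=
  let ⟨_, ht, e⟩ := h; .ofReach e.reach (sc_le (by omega))

theorem XB.seq {B p q x y z} (h : XB B p x y) (h' : XB B q y z) : XB B (.seq p q) x z :=
  (RB.embed (M' := ins (.seq p q)) (seqL p q) Sum.inl (fun _ => rfl) (fun _ => rfl) h).trans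
    (RB.embed (M' := ins (.seq p q)) (Option.map Sum.inr) Sum.inr (fun _ => rfl) (fun _ => rfl) h')

theorem XB.loopN {B p x} (hB : x.length + 1 ≤ B) :
    XB B (.loop 0 (·.getD false) p) (false :: x) (false :: x) :=
  .step (sc_le (n := 0) hB) (.refl _ _)

theorem XB.loopY {B p x y z} (hB : x.length + 1 ≤ B) (h : XB B p (true :: x) y)
    (h' : XB B (.loop 0 (·.getD false) p) y z) : XB B (.loop 0 (·.getD false) p) (true :: x) z :=
  .step (sc_le (n := 0) hB) ((RB.embed (M' := ins (.loop 0 (·.getD false) p)) (loopL p) some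
    (fun _ => rfl) (fun _ => rfl) h).trans h')

theorem inPSPACE_of_prog {A : Set (List Bool)} (p : Prog) (q : Polynomial ℕ)
    (h : ∀ x : List Bool, ∃ b : Bool, XB (q.eval x.length) p x [b] ∧ 1 ≤ q.eval x.length ∧
      (x ∈ A ↔ b = true)) : InPSPACE A := by
  classical
  let N := Finset.univ.sup fun l : Lab p => (ins p l).reg
  have hN : ∀ l, (ins p l).reg ≤ N := fun l =>
    Finset.le_sup (f := fun l : Lab p => (ins p l).reg) (Finset.mem_univ l)
  choose f h1 h2 h3 using h
  choose t ht using fun x => (h1 x).reach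
  have hi : ∀ x, initList (machine p N) x = cfgOf (N := N) (some (start p)) (sc x E) := by
    intro x
    simp only [initList, cfgOf, machine]
    congr 1
    funext k
    refine Fin.cases ?_ (fun k => ?_) k
    · rfl
    · simp [sc, E]
  have hh : ∀ x, haltList (machine p N) x = cfgOf (N := N) none (sc x E) := by
    intro x
    simp only [haltList, cfgOf, machine]
    congr 1
    funext k
    refine Fin.cases ?_ (fun k => ?_) k
    · rfl
    · simp [sc, E]
  refine ⟨fun x => [f x], ⟨⟨machine p N, Equiv.refl _, Equiv.refl _⟩, fun x => ⟨t x, ?_⟩⟩, q,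
    fun x => by simp [h3], fun x c hc k => ?_⟩
  · have := Reach.iter hN (ht x)
    simp only [id, Equiv.refl, List.map_id, Option.map_some]
    erw [List.map_id, List.map_id, hi, hh]
    exact this
  · simp only [Equiv.refl] at hc
    erw [List.map_id, hi] at hc
    exact (h1 x).bound hN rfl (sc_le (n := 0) (h2 x)) hc k

variable {σ ν : Type} [Enc σ] [Enc ν]

inductive Rn (step : σ → σ) (run : σ → Bool) (B : ℕ) : σ → σ → Prop
  | refl (s) : Rn step run B s s
  | step {s s'} : run s = true → sz s ≤ B → Rn step run B (step s) s' → Rn step run B s s'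

theorem Rn.trans {step : σ → σ} {run B s s' s''} (h : Rn step run B s s')
    (h' : Rn step run B s' s'') : Rn step run B s s'' := by
  induction h with
  | refl => exact h'
  | step a b _ ih => exact .step a b (ih h')

theorem inPSPACE_of_loop {A : Set (List Bool)} {init : Bits → σ} {step : σ → σ}
    {run out : σ → Bool} (h0 : PT init) (h1 : PT step) (h2 : PT run) (h3 : PT out)
    {B : Bits → ℕ} (hB : PB B) (h : ∀ x, ∃ s, Rn step run (B x) (init x) s ∧ run s = false ∧
      sz s ≤ B x ∧ (x.val ∈ A ↔ out s = true)) : InPSPACE A := by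
  have a0 : PT fun x => (raw (run (init x))).app (raw (init x)) := by fun_prop
  have a1 : PT fun s => (raw (run (step s))).app (raw (step s)) := by fun_prop
  obtain ⟨p0, q0, a0⟩ := a0
  obtain ⟨p1, q1, a1⟩ := a1
  obtain ⟨p3, q3, a3⟩ := h3
  obtain ⟨q, hq⟩ := ((PB.sz.add (PB.sz.eval q0)).add (hB.add (PB.const 2))).add
    ((hB.eval q1).add (hB.eval q3))
  refine inPSPACE_of_prog (.seq p0 (.seq (.loop 0 (·.getD false) (.seq (.pop 0) p1))
    (.seq (.pop 0) p3))) q fun x => ?_
  obtain ⟨s, b1, b2, b3, b4⟩ := h ⟨x⟩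
  have hq : x.length + q0.eval x.length + (B ⟨x⟩ + 2) + (q1.eval (B ⟨x⟩) + q3.eval (B ⟨x⟩)) ≤
    q.eval x.length := hq ⟨x⟩
  refine ⟨out s, .seq (.ofComp (a0 ⟨x⟩) (by simp only [sz, enc_bits]; omega)) (.seq
    (y := false :: enc s) ?_ (.seq (.ofComp (comp_pop _) (by simp only [sz] at b3; simp; omega))
      (.ofComp (a3 s) ?_))), by omega, b4⟩
  · change XB _ _ (run (init ⟨x⟩) :: enc (init ⟨x⟩)) _
    generalize init ⟨x⟩ = s0 at b1
    induction b1 with
    | refl => rw [b2]; exact .loopN (by simp only [sz] at b3; omega)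
    | @step s0 s c1 c2 _ ih =>
      have := eval_mono q1 c2
      simp only [sz] at c2 this
      exact c1 ▸ .loopY (by omega) (.seq (.ofComp (comp_pop _) (by simp; omega))
        (.ofComp (a1 s0) (by simp only [sz, List.tail_cons]; omega))) (ih b2 b3 b4)
  · have := eval_mono q3 b3
    simp only [sz, List.tail_cons] at b3 this ⊢
    omega

abbrev Sk (ν : Type) := List (Bool × List ν) × Option Bool

def stp (op : ν → Bool) (ch : ν → List ν) (s : Sk ν) : Sk ν :=
  let f := s.1.headD (true, [])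
  s.2.elim (f.2.head?.elim (s.1.tail, some f.1)
      fun μ => ((op μ, ch μ) :: (f.1, f.2.tail) :: s.1.tail, none))
    fun b => if b = f.1 then (s.1, none) else (s.1.tail, some b)

open Classical in
theorem dfs {op : ν → Bool} {ch : ν → List ν} {v I : ν → Prop} {rk : ν → ℕ} {B H : ℕ}
    (hv : ∀ μ, I μ → (v μ ↔ if op μ then ∀ μ' ∈ ch μ, v μ' else ∃ μ' ∈ ch μ, v μ'))
    (hI : ∀ μ, I μ → sz (ch μ) ≤ B ∧ ∀ μ' ∈ ch μ, I μ' ∧ rk μ' < rk μ) (d : ℕ) :
    ∀ o l S, (∀ μ ∈ l, I μ ∧ rk μ < d) → sz l ≤ B → (∀ f ∈ S, sz f.2 ≤ B) → S.length + d < H →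
      Rn (stp op ch) (fun s => !s.1.isEmpty) (2 * (H * (2 * (B + 3) + 1)) + 4) ((o, l) :: S, none)
        (S, some (decide (if o then ∀ μ ∈ l, v μ else ∃ μ ∈ l, v μ))) := by
  have bd : ∀ (S : List (Bool × List ν)) (r : Option Bool), (∀ f ∈ S, sz f.2 ≤ B) →
      S.length ≤ H → sz (S, r) ≤ 2 * (H * (2 * (B + 3) + 1)) + 4 := fun S r h1 h2 => by
    have := sz_le_of_forall (l := S) (B := B + 3) fun f hf => by
      have := h1 f hf
      rw [sz_prod, sz_bool]; omega
    have := Nat.mul_le_mul_right (2 * (B + 3) + 1) h2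
    have : sz r ≤ 3 := by cases r <;> simp [sz]
    rw [sz_prod]
    simp only
    omega
  induction d using Nat.strong_induction_on with
  | _ d ih =>
  intro o l S
  induction l with
  | nil =>
    intro _ h1 h2 h3
    refine .step rfl (bd _ _ (by simpa using h2) (by simp; omega)) ?_
    cases o <;> simpa [stp] using Rn.refl _
  | cons μ l ihl =>
    intro h0 h1 h2 h3
    obtain ⟨⟨m1, m2⟩, h0⟩ := List.forall_mem_cons.1 h0
    have h4 : sz l ≤ B := by rw [sz_cons] at h1; omega
    refine .step rfl (bd _ _ (List.forall_mem_cons.2 ⟨h1, h2⟩) (by simp; omega))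
      ((ih (rk μ) m2 (op μ) (ch μ) ((o, l) :: S) (hI μ m1).2 (hI μ m1).1
        (List.forall_mem_cons.2 ⟨h4, h2⟩) (by simp; omega)).trans
      (.step rfl (bd _ _ (List.forall_mem_cons.2 ⟨h4, h2⟩) (by simp; omega)) ?_))
    have := ihl h0 h4 h2 h3
    simp only [← hv μ m1]
    by_cases e : v μ <;> cases o <;> simp [stp, e] at this ⊢ <;> first | exact this | exact .refl _

/-- the value of an and-or tree of polynomial depth with polynomial nodes -/
theorem inPSPACE_of_tree {A : Set (List Bool)} {root : Bits → ν} {op : ν → Bool}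
    {ch : ν → List ν} (h0 : PT root) (h1 : PT op) (h2 : PT ch) {v : ν → Prop}
    {I : Bits → ν → Prop} {rk : ν → ℕ} {B : Bits → ℕ} (hB : PB B)
    (hv : ∀ x μ, I x μ → (v μ ↔ if op μ then ∀ μ' ∈ ch μ, v μ' else ∃ μ' ∈ ch μ, v μ'))
    (hI : ∀ x μ, I x μ → sz (ch μ) ≤ B x ∧ ∀ μ' ∈ ch μ, I x μ' ∧ rk μ' < rk μ)
    (hr : ∀ x, I x (root x) ∧ rk (root x) ≤ B x ∧ (x.val ∈ A ↔ v (root x))) : InPSPACE A := by
  refine inPSPACE_of_loop (init := fun x => ([(op (root x), ch (root x))], none))
    (step := stp op ch) (run := fun s => !s.1.isEmpty) (out := fun s => s.2.getD false)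
    (by fun_prop) (by unfold stp; fun_prop) (by fun_prop) (by fun_prop)
    (((PB.const 2).mul ((hB.add (PB.const 1)).mul (((PB.const 2).mul (hB.add (PB.const 3))).add
      (PB.const 1)))).add (PB.const 4)) fun x => ?_
  obtain ⟨a, b, c⟩ := hr x
  refine ⟨_, dfs (hv x) (hI x) (rk (root x)) _ _ [] (hI x _ a).2 (hI x _ a).1 (by simp)
    (by simp; omega), rfl, by simp [sz], ?_⟩
  simp [c, hv x _ a]

theorem inPSPACE_lang {α : Type} [Enc α] [Dec α] {P : α → Prop} {root : α → ν} {op : ν → Bool}
    {ch : ν → List ν} (h0 : PT root) (h1 : PT op) (h2 : PT ch) {v : ν → Prop}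
    {I : α → ν → Prop} {rk : ν → ℕ} {B : α → ℕ} (hB : PB B)
    (hv : ∀ x μ, I x μ → (v μ ↔ if op μ then ∀ μ' ∈ ch μ, v μ' else ∃ μ' ∈ ch μ, v μ'))
    (hI : ∀ x μ, I x μ → sz (ch μ) ≤ B x ∧ ∀ μ' ∈ ch μ, I x μ' ∧ rk μ' < rk μ)
    (hr : ∀ x, I x (root x) ∧ rk (root x) ≤ B x ∧ (P x ↔ v (root x))) : InPSPACE (lang P) := by
  obtain ⟨q, hq⟩ := hB
  have hd : PB fun x : Bits => q.eval (sz (dec x : α)) := (Dec.pt.pb).eval q
  refine inPSPACE_of_tree (root := fun x => (decide (raw (dec x : α) = x), root (dec x)))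
    (op := fun p => p.1 && op p.2) (ch := fun p => if p.1 then (ch p.2).map fun μ => (true, μ) else [])
    (by fun_prop) (by fun_prop) (by fun_prop) (v := fun p => p.1 = true ∧ v p.2)
    (I := fun x p => I (dec x) p.2) (rk := fun p => rk p.2)
    (B := fun x => q.eval (sz (dec x : α)) * (2 * (3 + q.eval (sz (dec x : α))) + 1))
    (hd.mul (((PB.const 2).mul ((PB.const 3).add hd)).add (PB.const 1))) ?_ ?_ fun x => ?_
  · rintro x ⟨_ | _, μ⟩ h <;> simp [hv _ _ h]
  · rintro x ⟨_ | _, μ⟩ h
    · simp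
    obtain ⟨a, b⟩ := hI _ _ h
    have a := a.trans (hq _)
    refine ⟨(sz_le_of_forall (B := 3 + q.eval (sz (dec x : α))) ?_).trans
      (Nat.mul_le_mul_right _ (by simpa using (length_le_sz _).trans a)), by simpa using b⟩
    simp only [if_true, List.forall_mem_map, sz_prod, sz_bool]
    exact fun μ h => by have := (sz_le_of_mem h).trans a; omega
  · obtain ⟨a, b, c⟩ := hr (dec x)
    exact ⟨a, (b.trans (hq _)).trans (Nat.le_mul_of_pos_right _ (by omega)),
      by simp [mem_lang_iff, c]⟩

end Pool.Agent.H22.PS
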