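import Pool.Agent.H22.MX7
import Pool.Agent.H22.PS1

/-! Colour mixing is in PSPACE. -/

namespace Pool.Agent.H22.MX

open Pool.Agent.H38.NP Pool.Agent.H36.PSpace Pool.Agent.H22.QB Pool.Agent.H22.PS Function

abbrev GI' := ℕ × List (ℕ × ℕ)
abbrev Nd := GI' × ℕ × ℕ × List ℕ × List ℕ × List ℕ

def prp (I : GI') (a : List ℕ) : Bool := I.2.all fun e =>
  decide (e.1 = e.2) || decide (I.1 ≤ e.1) || decide (I.1 ≤ e.2) ||
    decide (a.getD e.1 0 ≠ a.getD e.2 0)

def rl (I : GI') (a b : List ℕ) : Bool := decide (a = b) || (prp I a && prp I b &&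
  (List.range I.1).any fun i => (List.range I.1).all fun j =>
    decide (j = i) || decide (a.getD j 0 = b.getD j 0))

def Lk (n k : ℕ) (a : List ℕ) : Prop := a.length = n ∧ ∀ c ∈ a, c < k

def PL (k : ℕ) (I : GI') : ℕ → List ℕ → List ℕ → Prop
  | 0, a, b => rl I a b = true
  | d + 1, a, b => ∃ m, Lk I.1 k m ∧ PL k I d a m ∧ PL k I d m b

def chN (k : ℕ) (p : Nd) : List Nd :=
  if p.2.1 = 0 then
    if p.2.2.2.1.length < p.1.1 then
      (List.range k).map fun c => (p.1, 0, p.2.2.1, c :: p.2.2.2.1, p.2.2.2.2)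
    else if p.2.2.2.2.1.length < p.1.1 then
      (List.range k).map fun c => (p.1, 0, p.2.2.1, p.2.2.2.1, c :: p.2.2.2.2.1, p.2.2.2.2.2)
    else if prp p.1 p.2.2.2.1 && prp p.1 p.2.2.2.2.1 then
      [(p.1, 1, p.2.2.1, p.2.2.2.1, p.2.2.2.2.1, [])] else []
  else if p.2.2.1 = 0 then []
  else if p.2.2.2.2.2.length < p.1.1 then
    (List.range k).map fun c => (p.1, 1, p.2.2.1, p.2.2.2.1, p.2.2.2.2.1, c :: p.2.2.2.2.2)
  else [(p.1, 1, p.2.2.1 - 1, p.2.2.2.1, p.2.2.2.2.2, []),
    (p.1, 1, p.2.2.1 - 1, p.2.2.2.2.2, p.2.2.2.2.1, [])]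

def opN (p : Nd) : Bool :=
  if p.2.1 = 0 then true else if p.2.2.1 = 0 then rl p.1 p.2.2.2.1 p.2.2.2.2.1
  else decide (p.1.1 ≤ p.2.2.2.2.2.length)

def vN (k : ℕ) : Nd → Prop := fun (I, t, d, a, b, m) =>
  if t = 0 then ∀ a', Lk I.1 k a' → a <:+ a' → ∀ b', Lk I.1 k b' → b <:+ b' → prp I a' = true →
    prp I b' = true → PL k I d a' b'
  else if d = 0 then rl I a b = true
  else ∃ m', (Lk I.1 k m' ∧ m <:+ m') ∧ PL k I (d - 1) a m' ∧ PL k I (d - 1) m' b

def rkN : Nd → ℕ := fun (I, t, d, a, b, m) =>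
  if t = 0 then (d + 1) * (I.1 + 1) + (I.1 - a.length) + (I.1 - b.length)
  else d * (I.1 + 1) + (I.1 - m.length)

def Sm (n k : ℕ) (a : List ℕ) : Prop := a.length ≤ n ∧ ∀ c ∈ a, c < k

def InN (k : ℕ) (J : GI') : Nd → Prop := fun (I, t, d, a, b, m) =>
  I = J ∧ t ≤ 1 ∧ d ≤ k * J.1 ∧ Sm J.1 k a ∧ Sm J.1 k b ∧ Sm J.1 k m

variable {n k : ℕ} {a : List ℕ}

theorem ext1 (h : a.length < n) {Q : List ℕ → Prop} : (∀ a', Lk n k a' → a <:+ a' → Q a') ↔
    ∀ c < k, ∀ a', Lk n k a' → c :: a <:+ a' → Q a' := by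
  refine ⟨fun H c _ a' h1 h2 => H a' h1 ((List.suffix_cons c a).trans h2), ?_⟩
  rintro H _ h1 ⟨t, rfl⟩
  rcases t.eq_nil_or_concat with rfl | ⟨t, c, rfl⟩
  · exact absurd h1.1 h.ne
  · exact H c (h1.2 c (by simp)) _ h1 ⟨t, by simp⟩

theorem ext2 (h : Sm n k a) (h' : ¬ a.length < n) {a'} : Lk n k a' ∧ a <:+ a' ↔ a' = a :=
  ⟨fun ⟨h1, h2⟩ => (h2.eq_of_length (by have := h1.1; have := h.1; omega)).symm,
    fun e => by subst e; exact ⟨⟨by have := h.1; omega, h.2⟩, List.suffix_refl _⟩⟩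

theorem v1 {I d a b} : vN k (I, 1, d, a, b, []) ↔ PL k I d a b := by
  cases d <;> simp [vN, PL]

theorem hvN {J p} (h : InN k J p) :
    vN k p ↔ if opN p then ∀ μ ∈ chN k p, vN k μ else ∃ μ ∈ chN k p, vN k μ := by
  obtain ⟨I, t, d, a, b, m⟩ := p
  obtain ⟨rfl, h1, -, ha, hb, hm⟩ := h
  by_cases e : t = 0
  · subst e
    simp only [opN, chN, if_true]
    split_ifs with e1 e2 e3
    · simp only [vN, if_true, List.forall_mem_map, List.mem_range]
      exact ext1 e1
    · simp only [vN, if_true, List.forall_mem_map, List.mem_range, ext1 e2]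
      exact ⟨fun H c hc a' x y => H a' x y c hc, fun H a' x y c hc => H c hc a' x y⟩
    · simp only [List.forall_mem_singleton, v1]
      simp only [vN, if_true, ← and_imp, ext2 ha e1, forall_eq]
      simp only [and_imp] at *
      simp only [← and_imp, and_assoc, ← and_assoc (a := Lk _ _ _), ext2 hb e2]
      simp only [Bool.and_eq_true] at e3
      simp [e3]
    · simp only [vN, if_true, List.not_mem_nil, false_imp_iff, implies_true, iff_true]
      intro a' x y b' x' y' p q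
      rw [(ext2 ha e1).1 ⟨x, y⟩] at p
      rw [(ext2 hb e2).1 ⟨x', y'⟩] at q
      simp [p, q] at e3
  obtain rfl : t = 1 := by omega
  by_cases e0 : d = 0
  · simp [vN, opN, chN, e0]
  by_cases e1 : m.length < I.1
  · simp only [opN, chN, e0, e1, one_ne_zero, if_false, if_true, decide_eq_true_eq,
      not_le.2 e1, List.mem_map, List.mem_range, exists_exists_and_eq_and]
    simp only [vN, e0, one_ne_zero, if_false]
    have := (ext1 (k := k) e1 (Q := fun m' => ¬ (PL k I (d - 1) a m' ∧ PL k I (d - 1) m' b))).not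
    push Not at this
    simpa only [and_assoc] using this
  · simp only [opN, chN, e0, e1, one_ne_zero, if_false, decide_eq_true_eq, not_lt.1 e1, if_true,
      List.forall_mem_cons, v1]
    simp [vN, e0, ext2 hm e1]

def szN (k : ℕ) (I : GI') : ℕ := 2 * sz I + 2 * (k * I.1) + 5 * (I.1 * (2 * k + 1)) + 7

theorem szN_le {J p} (h : InN k J p) : sz p ≤ szN k J := by
  obtain ⟨I, t, d, a, b, m⟩ := p
  obtain ⟨rfl, h1, h2, ha, hb, hm⟩ := h
  have : ∀ a, Sm I.1 k a → sz a ≤ I.1 * (2 * k + 1) := fun a h =>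
    (sz_le_of_forall (B := k) fun c hc => by simpa using (h.2 c hc).le).trans
      (Nat.mul_le_mul_right _ h.1)
  have a1 := this a ha
  have a2 := this b hb
  have a3 := this m hm
  simp only [szN, sz_prod (I, _), sz_prod (t, _), sz_prod (d, _), sz_prod (a, _), sz_prod (b, _),
    sz_nat]
  omega

theorem hIN {J p} (h : InN k J p) : (chN k p).length ≤ k + 2 ∧
    ∀ μ ∈ chN k p, InN k J μ ∧ rkN μ < rkN p := by
  obtain ⟨I, t, d, a, b, m⟩ := p
  obtain ⟨rfl, h1, h2, ha, hb, hm⟩ := h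
  have c : ∀ a, Sm I.1 k a → a.length < I.1 → ∀ c < k, Sm I.1 k (c :: a) := fun a h h' c hc =>
    ⟨h', List.forall_mem_cons.2 ⟨hc, h.2⟩⟩
  have n0 : Sm I.1 k [] := by simp [Sm]
  simp only [chN]
  split_ifs with e e1 e2 e3 e4 e5
  · simp only [List.forall_mem_map, List.mem_range, InN, rkN, e]
    exact ⟨by simp, fun x hx => ⟨by simp [c a ha e1 x hx, *], by simp; omega⟩⟩
  · simp only [List.forall_mem_map, List.mem_range, InN, rkN, e]
    exact ⟨by simp, fun x hx => ⟨by simp [c b hb e2 x hx, *], by simp; omega⟩⟩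
  · simp [InN, rkN, add_mul, *]
    omega
  · simp
  · simp
  · simp only [List.forall_mem_map, List.mem_range, InN, rkN, e]
    exact ⟨by simp, fun x hx => ⟨by simp [c m hm e5 x hx, *], by simp; omega⟩⟩
  · obtain ⟨d, rfl⟩ := Nat.exists_eq_succ_of_ne_zero e4
    simp [InN, rkN, add_mul, *]
    omega

def Pf {V : Type} (G : SimpleGraph V) (x : V → Fin k) : Prop := ∀ u v, G.Adj u v → x u ≠ x v

def rf {V : Type} (G : SimpleGraph V) (x y : V → Fin k) : Prop :=
  Pf G x ∧ Pf G y ∧ ∃ i, ∀ j, j ≠ i → x j = y j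

theorem mix_iff {V : Type} {G : SimpleGraph V} : Mixing G k ↔
    ∀ x y : V → Fin k, Pf G x → Pf G y → Relation.ReflTransGen (rf G) x y := by
  constructor
  · intro H x y hx hy
    have : ∀ C D : G.Coloring (Fin k), Relation.ReflTransGen (colGraph G k).Adj C D →
        Relation.ReflTransGen (rf G) C D := fun C D h => by
      induction h with
      | refl => exact .refl
      | @tail b c _ a ih =>
        obtain ⟨u, -, a⟩ := a
        exact ih.tail ⟨fun _ _ => b.valid, fun _ _ => c.valid, u, fun j hj =>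
          by_contra fun h => hj (a j h)⟩
    exact this (.mk x fun h => hx _ _ h) (.mk y fun h => hy _ _ h)
      ((SimpleGraph.reachable_iff_reflTransGen _ _).1 (H _ _))
  · intro H C D
    have : ∀ y, Relation.ReflTransGen (rf G) C y → ∀ D : G.Coloring (Fin k), ⇑D = y →
        (colGraph G k).Reachable C D := fun y h => by
      induction h with
      | refl => exact fun D e => by rw [DFunLike.coe_injective e]
      | @tail b c _ a ih =>
        rintro D rfl
        obtain ⟨a1, -, x, a⟩ := a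
        refine (ih (.mk b fun h => a1 _ _ h) rfl).trans ?_
        by_cases q : b x = D x
        · rw [show SimpleGraph.Coloring.mk b (fun h => a1 _ _ h) = D from DFunLike.ext _ D fun j =>
            (em (j = x)).elim (fun h => by subst h; exact q) (a j)]
        · exact SimpleGraph.Adj.reachable ⟨x, q, fun v hv => by_contra fun h => hv (a v h)⟩
    exact this _ (H C D (fun _ _ => C.valid) fun _ _ => D.valid) D rfl

def eL (x : Fin n → Fin k) : List ℕ := List.ofFn fun i => (x i : ℕ)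

theorem eL_get (x : Fin n → Fin k) (i : Fin n) : (eL x).getD i 0 = x i := by simp [eL]

theorem lk_iff : Lk n k a ↔ ∃ x : Fin n → Fin k, eL x = a := by
  constructor
  · rintro ⟨rfl, h⟩
    exact ⟨fun i => ⟨a[i], h _ (List.getElem_mem _)⟩, by simp [eL]⟩
  · rintro ⟨x, rfl⟩
    simp [Lk, eL, List.mem_ofFn]

theorem prp_iff {E} (x : Fin n → Fin k) : prp (n, E) (eL x) = true ↔ Pf (graphOf n E) x := by
  simp only [prp, List.all_eq_true, Bool.or_eq_true, decide_eq_true_eq, Pf, graphOf_adj]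
  constructor
  · rintro H u v ⟨h, h' | h'⟩ e
    all_goals
      have := H _ h'
      have := u.2
      have := v.2
      simp only [eL_get, e, ← Fin.ext_iff] at *
      grind
  · rintro H ⟨u, v⟩ h
    by_contra e
    simp only [not_or, not_le, not_not] at e
    obtain ⟨⟨⟨e1, e2⟩, e3⟩, e4⟩ := e
    exact H ⟨u, e2⟩ ⟨v, e3⟩ ⟨by simpa using e1, Or.inl h⟩
      (Fin.ext (by rw [← eL_get, ← eL_get]; exact e4))

theorem pl_iff {E} (d : ℕ) (x y : Fin n → Fin k) :
    PL k (n, E) d (eL x) (eL y) ↔ PP (rf (graphOf n E)) d x y := by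
  induction d generalizing x y with
  | zero =>
    simp only [PL, PP, rl, Bool.or_eq_true, decide_eq_true_eq, Bool.and_eq_true, prp_iff, rf,
      and_assoc, List.any_eq_true, List.all_eq_true, List.mem_range]
    refine or_congr ⟨fun h => funext fun i => Fin.ext (by rw [← eL_get, h, eL_get]), congrArg _⟩
      (and_congr Iff.rfl (and_congr Iff.rfl ⟨fun ⟨i, hi, h⟩ => ⟨⟨i, hi⟩, fun j hj => Fin.ext ?_⟩,
        fun ⟨i, h⟩ => ⟨i, i.2, fun j hj => ?_⟩⟩))
    · simpa only [eL_get] using (h j j.2).resolve_left fun e => hj (Fin.ext e)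
    · refine or_iff_not_imp_left.2 fun e => ?_
      rw [eL_get x ⟨j, hj⟩, eL_get y ⟨j, hj⟩, h _ fun e' => e (congrArg Fin.val e')]
  | succ d ih => simp only [PL, PP, lk_iff, exists_exists_eq_and, ih]

theorem RN.mono {α : Type} {r : α → α → Prop} {a b x y} (h : RN r a x y) (e : a ≤ b) :
    RN r b x y := by
  induction e with
  | refl => exact h
  | step _ ih => exact Or.inl ih

theorem mix_mem (k : ℕ) : InPSPACE (lang (ColourMixing k)) := by
  have p1 : PT fun p : GI' × List ℕ => prp p.1 p.2 := by unfold prp; fun_prop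
  have p2 : PT fun p : GI' × List ℕ × List ℕ => rl p.1 p.2.1 p.2.2 := by unfold rl prp; fun_prop
  refine inPSPACE_lang (root := fun I : GI' => ((I, 0, k * I.1, [], [], []) : Nd)) (op := opN)
    (ch := chN k) (by fun_prop) (by unfold opN rl prp; fun_prop) (by unfold chN prp; fun_prop)
    (v := vN k) (I := InN k) (rk := rkN)
    (B := fun I => (k + 2) * (2 * szN k I + 1) + ((k * I.1 + 1) * (I.1 + 1) + I.1 + I.1))
    (PT.nat_pb (by unfold szN; fun_prop)) (fun _ _ => hvN) (fun x μ h => ⟨?_, (hIN h).2⟩)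
    fun ⟨n, E⟩ => ⟨by simp [InN, Sm], by simp [rkN], ?_⟩
  · exact ((sz_le_of_forall fun a ha => szN_le ((hIN h).2 a ha).1).trans
      (Nat.mul_le_mul_right _ (hIN h).1)).trans (Nat.le_add_right _ _)
  · simp only [ColourMixing, mix_iff, vN, if_true, lk_iff, List.nil_suffix, forall_const,
      forall_exists_index, forall_apply_eq_imp_iff, prp_iff, pl_iff]
    refine forall₄_congr fun x y _ _ => ⟨fun h => (RN.mono (rn_card h) ?_).pp, PP.rtg⟩
    simpa [pow_mul] using Nat.pow_le_pow_left Nat.lt_two_pow_self.le n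

end Pool.Agent.H22.MX
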