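import Pool.Agent.H36.PSpaceDefs

namespace Pool.Agent.H22.MX

open Pool.Agent.H38.NP

/-- The `k`-colouring graph of `G`: its vertices are the proper `k`-colourings of `G`, and two
colourings are adjacent when they differ at exactly one vertex. -/
def colGraph {V : Type} (G : SimpleGraph V) (k : ℕ) : SimpleGraph (G.Coloring (Fin k)) where
  Adj c d := ∃! v, c v ≠ d v
  symm := ⟨fun _ _ ⟨v, h, h'⟩ => ⟨v, h.symm, fun w hw => h' w hw.symm⟩⟩
  loopless := ⟨fun _ ⟨_, h, _⟩ => h rfl⟩

/-- `G` is `k`-mixing: any two `k`-colourings are joined by a path in the `k`-colouring graph. -/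
def Mixing {V : Type} (G : SimpleGraph V) (k : ℕ) : Prop := (colGraph G k).Preconnected

/-- `k`-COLOUR-MIXING; the input is the number of vertices and an edge list. -/
def ColourMixing (k : ℕ) (p : ℕ × List (ℕ × ℕ)) : Prop := Mixing (graphOf p.1 p.2) k

end Pool.Agent.H22.MX
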