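import Mathlib

set_option autoImplicit false
set_option maxRecDepth 100000
set_option synthInstance.maxSize 100000

namespace Pool.Agent.H22.Mader

def tl (e : Fin 32) : Fin 8 := ⟨e.1 / 4, by omega⟩
def hd (e : Fin 32) : Fin 8 := ([7, 1, 7, 1, 0, 0, 7, 0, 5, 3, 7, 5, 2, 7, 7, 2, 6, 5, 6, 6, 3, 2, 4, 2, 5, 4, 5, 4, 3, 3, 1, 2] : List (Fin 8)).getD e 0
def cut (x y v : Fin 8) : Bool := (([0, 253, 3, 3, 175, 143, 175, 3, 254, 0, 3, 3, 175, 143, 175, 3, 252, 252, 0, 116, 175, 143, 175, 116, 252, 252, 139, 0, 175, 143, 175, 124, 252, 252, 80, 80, 0, 80, 191, 80, 252, 252, 112, 112, 175, 0, 175, 112, 252, 252, 80, 80, 239, 80, 0, 80, 252, 252, 131, 131, 175, 143, 175, 0] : List ℕ).getD (8 * x.1 + y.1) 0).testBit v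

lemma loopless : ∀ e, tl e ≠ hd e := by decide +kernel

lemma outdeg (v : Fin 8) : 4 ≤ Nat.card {e : Fin 32 // tl e = v} := by
  rw [Nat.card_eq_fintype_card, Fintype.card_subtype]
  revert v
  decide +kernel

lemma cut_spec : ∀ x y, x ≠ y → cut x y x = true ∧ cut x y y = false ∧
    (Finset.univ.filter (fun e => cut x y (tl e) = true ∧ cut x y (hd e) = false)).card ≤ 3 := by
  decide +kernel

lemma cross {V E : Type} (tail head : E → V) (S : V → Bool) : ∀ (l : List E), l ≠ [] →
    (∀ e ∈ l.head?, S (tail e) = true) → (∀ e ∈ l.getLast?, S (head e) = false) →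
    (∀ (k : ℕ) (a b : E), l[k]? = some a → l[k+1]? = some b → head a = tail b) →
    ∃ e ∈ l, S (tail e) = true ∧ S (head e) = false
  | [], h, _, _, _ => absurd rfl h
  | [a], _, h1, h2, _ => ⟨a, by simp, h1 a (by simp), h2 a (by simp)⟩
  | a :: b :: l, _, h1, h2, h3 => by
    cases hs : S (head a)
    · exact ⟨a, by simp, h1 a (by simp), hs⟩
    · obtain ⟨e, he, h4⟩ := cross tail head S (b :: l) (by simp)
        (fun e he => by
          simp only [List.head?_cons, Option.mem_def, Option.some.injEq] at he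
          rw [← he, ← h3 0 a b rfl rfl]; exact hs)
        (fun e he => h2 e (by simpa [List.getLast?_cons_cons] using he))
        (fun k x y hx hy => h3 (k + 1) x y (by simpa using hx) (by simpa using hy))
      exact ⟨e, List.mem_cons_of_mem _ he, h4⟩

lemma main (x y : Fin 8) (hxy : x ≠ y) (P : Fin 4 → List (Fin 32))
    (h1 : ∀ i, P i ≠ [] ∧ (∀ e ∈ (P i).head?, tl e = x) ∧ (∀ e ∈ (P i).getLast?, hd e = y) ∧
      ∀ (k : ℕ) (a b : Fin 32), (P i)[k]? = some a → (P i)[k+1]? = some b → hd a = tl b)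
    (h2 : ∀ i j, i ≠ j → ∀ e ∈ P i, e ∉ P j) : False := by
  obtain ⟨c1, c2, c3⟩ := cut_spec x y hxy
  have := fun i => cross tl hd (cut x y) (P i) (h1 i).1 (fun e he => by rw [(h1 i).2.1 e he]; exact c1)
    (fun e he => by rw [(h1 i).2.2.1 e he]; exact c2) (h1 i).2.2.2
  choose f f1 f2 using this
  have := Finset.card_le_card_of_injOn (s := Finset.univ)
    (t := Finset.univ.filter (fun e => cut x y (tl e) = true ∧ cut x y (hd e) = false)) f
    (fun i _ => by simpa using f2 i)
    (fun i _ j _ hij => by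
      by_contra hne
      exact h2 i j hne _ (f1 i) (hij ▸ f1 j))
  simp only [Finset.card_univ, Fintype.card_fin] at this
  omega

end Pool.Agent.H22.Mader
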