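import Pool.Agent.H22.MonoPathDefs

set_option autoImplicit false
set_option maxRecDepth 100000
set_option synthInstance.maxSize 100000

namespace Pool.Agent.H22.MonoPath

abbrev P3 : Type := {p : Fin 4 × Fin 4 × Fin 4 // p.2.1 ≤ p.1 ∧ p.2.2 ≤ p.2.1}

instance : Nonempty P3 := ⟨⟨(0, 0, 0), by decide⟩⟩

instance leDec (p q : P3) : Decidable (p ≤ q) :=
  decidable_of_iff (p.1.1 ≤ q.1.1 ∧ p.1.2.1 ≤ q.1.2.1 ∧ p.1.2.2 ≤ q.1.2.2) Iff.rfl

def row (p : P3) (i : Fin 3) : ℕ :=
  if i = 0 then p.1.1.val else if i = 1 then p.1.2.1.val else p.1.2.2.val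

def mem (i j : Fin 3) (p : P3) : Prop := j.val < row p i

instance (i j : Fin 3) (p : P3) : Decidable (mem i j p) := by unfold mem; infer_instance

lemma le_iff (p p' : P3) : p ≤ p' ↔ ∀ i j, mem i j p → mem i j p' := by
  revert p p'; decide +kernel

lemma mem_lower (p : P3) (i j i' j' : Fin 3) (hi : i' ≤ i) (hj : j' ≤ j) (h : mem i j p) :
    mem i' j' p := by
  revert p i j i' j'; decide +kernel

lemma exists_bool : ∀ d : Fin 3 → Fin 3 → Bool,
    (∀ i j i' j', i' ≤ i → j' ≤ j → d i j = true → d i' j' = true) →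
    ∃ p : P3, ∀ i j, mem i j p ↔ d i j = true := by
  decide +kernel

lemma exists_p (Q : Fin 3 → Fin 3 → Prop)
    (h : ∀ i j i' j', i' ≤ i → j' ≤ j → Q i j → Q i' j') : ∃ p : P3, ∀ i j, mem i j p ↔ Q i j := by
  classical
  obtain ⟨p, hp⟩ := exists_bool (fun i j => decide (Q i j)) (by
    intro i j i' j' a b c
    simp only [decide_eq_true_eq] at c ⊢
    exact h i j i' j' a b c)
  exact ⟨p, fun i j => by simpa using hp i j⟩

abbrev T : Type := LowerSet P3

instance : Finite T := Finite.of_injective (fun s : T => (s : Set P3)) SetLike.coe_injective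

section upper
variable {N : ℕ} (c : Colouring 4 2 N)

def col (x y z w : Fin N) : Fin 2 := c ![x, y, z, w]

open Classical in
noncomputable def lev (i : Fin 2) (x y z : Fin N) : Fin 3 :=
  if ∃ u w, u < w ∧ w < x ∧ col c u w x y = i ∧ col c w x y z = i then 2
  else if ∃ w, w < x ∧ col c w x y z = i then 1 else 0

lemma step (h : ¬ HasMonoPath 3 c) {x y z w : Fin N} (h1 : x < y) (h2 : y < z) (h3 : z < w) :
    lev c (col c x y z w) x y z < lev c (col c x y z w) y z w := by
  generalize hi : col c x y z w = i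
  have n2 : ¬ ∃ u v, u < v ∧ v < x ∧ col c u v x y = i ∧ col c v x y z = i := by
    rintro ⟨u, v, a, b, e1, e2⟩
    apply h
    refine ⟨fun t => if t = 0 then u else if t = 1 then v else if t = 2 then x else if t = 3 then y
      else if t = 4 then z else w, i, ?_, ?_⟩
    · intro s t hs ht
      have : t < 6 := ht
      have hs' : s < 5 := by omega
      interval_cases t <;> interval_cases s <;> simp <;> omega
    · intro j hj
      interval_cases j
      · rw [← e1]; unfold col; refine congrArg c ?_; funext t; fin_cases t <;> rfl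
      · rw [← e2]; unfold col; refine congrArg c ?_; funext t; fin_cases t <;> rfl
      · rw [← hi]; unfold col; refine congrArg c ?_; funext t; fin_cases t <;> rfl
  unfold lev
  rw [if_neg n2]
  by_cases n1 : ∃ v, v < x ∧ col c v x y z = i
  · obtain ⟨v, a, b⟩ := n1
    rw [if_pos ⟨v, a, b⟩, if_pos ⟨v, x, a, h1, b, hi⟩]; decide
  · rw [if_neg n1]
    split_ifs with a b
    · decide
    · decide
    · exact absurd ⟨x, h1, hi⟩ b

lemma D_ex (y z : Fin N) : ∃ p : P3, ∀ i j, mem i j p ↔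
    ∃ x, x < y ∧ i ≤ lev c 0 x y z ∧ j ≤ lev c 1 x y z :=
  exists_p _ (by
    rintro i j i' j' a b ⟨x, h, h1, h2⟩
    exact ⟨x, h, a.trans h1, b.trans h2⟩)

noncomputable def D (y z : Fin N) : P3 := (D_ex c y z).choose

lemma D_spec (y z : Fin N) (i j : Fin 3) : mem i j (D c y z) ↔
    ∃ x, x < y ∧ i ≤ lev c 0 x y z ∧ j ≤ lev c 1 x y z := (D_ex c y z).choose_spec i j

lemma mem1 {x y : Fin N} (z : Fin N) (h1 : x < y) :
    mem (lev c 0 x y z) (lev c 1 x y z) (D c y z) := (D_spec c y z _ _).2 ⟨x, h1, le_rfl, le_rfl⟩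

lemma mem2 (h : ¬ HasMonoPath 3 c) {x y z : Fin N} (h1 : x < y) (h2 : y < z) :
    ¬ mem (lev c 0 x y z) (lev c 1 x y z) (D c x y) := by
  intro hm
  obtain ⟨w, a, b0, b1⟩ := (D_spec c x y _ _).1 hm
  have s := step c h a h1 h2
  generalize col c w x y z = i at s
  fin_cases i
  · exact absurd s (not_lt.2 b0)
  · exact absurd s (not_lt.2 b1)

noncomputable def A (z : Fin N) : T :=
  ⟨{o | ∃ y, y < z ∧ o ≤ D c y z}, by
    rintro a b hab ⟨y, h1, h2⟩
    exact ⟨y, h1, hab.trans h2⟩⟩

lemma memA1 {y z : Fin N} (h : y < z) : D c y z ∈ A c z := ⟨y, h, le_rfl⟩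

lemma memA2 (h : ¬ HasMonoPath 3 c) {y z : Fin N} (h2 : y < z) : D c y z ∉ A c y := by
  rintro ⟨x, h1, hle⟩
  exact mem2 c h h1 h2 ((le_iff _ _).1 hle _ _ (mem1 c z h1))

lemma A_inj (h : ¬ HasMonoPath 3 c) : Function.Injective (A c) := by
  intro x y e
  rcases lt_trichotomy x y with a | a | a
  · exact absurd (e ▸ memA1 c a) (memA2 c h a)
  · exact a
  · exact absurd (e.symm ▸ memA1 c a) (memA2 c h a)

lemma card_le (h : ¬ HasMonoPath 3 c) : N ≤ Nat.card T := by
  simpa using Nat.card_le_card_of_injective _ (A_inj c h)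

lemma tr (ht : Transitive c) {x y z w u : Fin N} (h1 : x < y) (h2 : y < z) (h3 : z < w)
    (h4 : w < u) (e : col c x y z w = col c y z w u) :
    col c x y z u = col c x y z w ∧ col c x z w u = col c x y z w := by
  have hm : StrictMono (![x, y, z, w, u] : Fin 5 → Fin N) := by
    rw [Fin.strictMono_iff_lt_succ]
    intro t; fin_cases t <;> assumption
  have a := ht _ hm (col c x y z w)
    (by unfold col; refine congrArg c ?_; funext t; fin_cases t <;> rfl)
    (by rw [e]; unfold col; refine congrArg c ?_; funext t; fin_cases t <;> rfl)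
  constructor
  · rw [← a 3]; unfold col; refine congrArg c ?_; funext t; fin_cases t <;> rfl
  · rw [← a 1]; unfold col; refine congrArg c ?_; funext t; fin_cases t <;> rfl

def mk (a b d : Fin 4) (h : b ≤ a ∧ d ≤ b) : P3 := ⟨(a, b, d), h⟩

def ty (L : List P3) : T :=
  ⟨{o | ∃ m ∈ L, o ≤ m}, by
    rintro a b hab ⟨y, h1, h2⟩
    exact ⟨y, h1, hab.trans h2⟩⟩

def Sub (L M : List P3) : Prop := (∀ m ∈ L, ∃ m' ∈ M, m ≤ m') ∧ ∃ m' ∈ M, ∀ m ∈ L, ¬ m' ≤ m

instance (L M : List P3) : Decidable (Sub L M) := by unfold Sub; infer_instance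

lemma lt_of (h : ¬ HasMonoPath 3 c) {x y : Fin N} {L M : List P3} (hx : A c x = ty L)
    (hy : A c y = ty M) (s : Sub L M) : x < y := by
  rcases lt_trichotomy x y with a | a | a
  · exact a
  · subst a
    obtain ⟨m', h1, h2⟩ := s.2
    have : m' ∈ ty M := ⟨m', h1, le_rfl⟩
    rw [← hy, hx] at this
    obtain ⟨m, h3, h4⟩ := this
    exact absurd h4 (h2 m h3)
  · have b := memA1 c a
    have d := memA2 c h a
    rw [hx] at b; rw [hy] at d
    obtain ⟨m, h1, h2⟩ := b
    obtain ⟨m', h3, h4⟩ := s.1 m h1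
    exact absurd ⟨m', h3, h2.trans h4⟩ d

def Diff (L M K : List P3) : Prop :=
  ∀ o : P3, (∃ m ∈ M, o ≤ m) → (¬ ∃ m ∈ L, o ≤ m) → o ∈ K

instance (L M K : List P3) : Decidable (Diff L M K) := by unfold Diff; infer_instance

lemma D_of (h : ¬ HasMonoPath 3 c) {x y : Fin N} {L M K : List P3} (hx : A c x = ty L)
    (hy : A c y = ty M) (a : x < y) (s : Diff L M K) : D c x y ∈ K := by
  have b := memA1 c a
  have d := memA2 c h a
  rw [hy] at b; rw [hx] at d
  exact s _ b d

def p111 : P3 := mk 1 1 1 (by decide)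
def p211 : P3 := mk 2 1 1 (by decide)
def p220 : P3 := mk 2 2 0 (by decide)
def p221 : P3 := mk 2 2 1 (by decide)
def p222 : P3 := mk 2 2 2 (by decide)
def p300 : P3 := mk 3 0 0 (by decide)
def p310 : P3 := mk 3 1 0 (by decide)
def p311 : P3 := mk 3 1 1 (by decide)
def p320 : P3 := mk 3 2 0 (by decide)
def p330 : P3 := mk 3 3 0 (by decide)

lemma lab (h : ¬ HasMonoPath 3 c) {x y z : Fin N} (h1 : x < y) (h2 : y < z) {p p' : P3}
    (e1 : D c x y = p) (e2 : D c y z = p') (R : Fin 3 → Fin 3 → Prop)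
    (hR : ∀ i j, mem i j p' → ¬ mem i j p → R i j) : R (lev c 0 x y z) (lev c 1 x y z) :=
  hR _ _ (e2 ▸ mem1 c z h1) (e1 ▸ mem2 c h h1 h2)

lemma stp (h : ¬ HasMonoPath 3 c) {x y z w : Fin N} (h1 : x < y) (h2 : y < z) (h3 : z < w) :
    (col c x y z w = 0 ∧ lev c 0 x y z < lev c 0 y z w) ∨
      (col c x y z w = 1 ∧ lev c 1 x y z < lev c 1 y z w) := by
  have s := step c h h1 h2 h3
  generalize col c x y z w = i at s
  fin_cases i
  · exact Or.inl ⟨rfl, s⟩
  · exact Or.inr ⟨rfl, s⟩

lemma upper (hN : N = Nat.card T) (ht : Transitive c) : HasMonoPath 3 c := by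
  by_contra h
  have surj : Function.Surjective (A c) := by
    have : Function.Bijective (A c) :=
      (Nat.bijective_iff_injective_and_card _).2 ⟨A_inj c h, by simpa using hN⟩
    exact this.2
  obtain ⟨a, ha⟩ := surj (ty [p310, p211])
  obtain ⟨b, hb⟩ := surj (ty [p310, p220, p211])
  obtain ⟨d, hd⟩ := surj (ty [p220, p311])
  obtain ⟨u1, hu1⟩ := surj (ty [p310])
  obtain ⟨u2, hu2⟩ := surj (ty [p310, p111])
  obtain ⟨v1, hv1⟩ := surj (ty [p211])
  obtain ⟨v2, hv2⟩ := surj (ty [p300, p211])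
  obtain ⟨s1, hs1⟩ := surj (ty [p311, p221])
  obtain ⟨s2, hs2⟩ := surj (ty [p311, p222])
  obtain ⟨t1, ht1⟩ := surj (ty [p320, p311])
  obtain ⟨t2, ht2⟩ := surj (ty [p330, p311])
  have ab := lt_of c h ha hb (by decide +kernel)
  have bd := lt_of c h hb hd (by decide +kernel)
  have u12 := lt_of c h hu1 hu2 (by decide +kernel)
  have u2a := lt_of c h hu2 ha (by decide +kernel)
  have v12 := lt_of c h hv1 hv2 (by decide +kernel)
  have v2a := lt_of c h hv2 ha (by decide +kernel)
  have ds1 := lt_of c h hd hs1 (by decide +kernel)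
  have s12 := lt_of c h hs1 hs2 (by decide +kernel)
  have dt1 := lt_of c h hd ht1 (by decide +kernel)
  have t12 := lt_of c h ht1 ht2 (by decide +kernel)
  have ad := ab.trans bd
  have Dab := List.mem_singleton.1 (D_of c h ha hb ab (K := [p220]) (by decide +kernel))
  have Dbd := List.mem_singleton.1 (D_of c h hb hd bd (K := [p311]) (by decide +kernel))
  have Du := List.mem_singleton.1 (D_of c h hu1 hu2 u12 (K := [p111]) (by decide +kernel))
  have Dua := List.mem_singleton.1 (D_of c h hu2 ha u2a (K := [p211]) (by decide +kernel))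
  have Dv := List.mem_singleton.1 (D_of c h hv1 hv2 v12 (K := [p300]) (by decide +kernel))
  have Dva := List.mem_singleton.1 (D_of c h hv2 ha v2a (K := [p310]) (by decide +kernel))
  have Dds := List.mem_singleton.1 (D_of c h hd hs1 ds1 (K := [p221]) (by decide +kernel))
  have Ds := List.mem_singleton.1 (D_of c h hs1 hs2 s12 (K := [p222]) (by decide +kernel))
  have Ddt := List.mem_singleton.1 (D_of c h hd ht1 dt1 (K := [p320]) (by decide +kernel))
  have Dt := List.mem_singleton.1 (D_of c h ht1 ht2 t12 (K := [p330]) (by decide +kernel))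
  have Dad := D_of c h ha hd ad (K := [p311, p220]) (by decide +kernel)
  have l0 := lab c h ab bd Dab Dbd (fun i j => (i = 0 ∧ j = 2) ∨ (i = 2 ∧ j = 0)) (by decide +kernel)
  rcases List.mem_pair.1 Dad with Dad | Dad
  · have l1 := lab c h u12 u2a Du Dua (fun i j => i = 0 ∧ j = 1) (by decide +kernel)
    have l2 := lab c h u2a ab Dua Dab (fun i j => i = 1 ∧ j = 1) (by decide +kernel)
    have l3 := lab c h u2a ad Dua Dad (fun i j => i = 0 ∧ j = 2) (by decide +kernel)
    have l4 := lab c h v12 v2a Dv Dva (fun i j => i = 1 ∧ j = 0) (by decide +kernel)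
    have l5 := lab c h v2a ab Dva Dab (fun i j => i = 1 ∧ j = 1) (by decide +kernel)
    have l6 := lab c h v2a ad Dva Dad (fun i j => i = 2 ∧ j = 0) (by decide +kernel)
    have c1 := stp c h u12 u2a ab
    have c2 := stp c h u2a ab bd
    have c3 := stp c h u12 u2a ad
    have c4 := stp c h v12 v2a ab
    have c5 := stp c h v2a ab bd
    have c6 := stp c h v12 v2a ad
    have r1 := fun e => (tr c ht u12 u2a ab bd e).1
    have r2 := fun e => (tr c ht v12 v2a ab bd e).1
    omega
  · have l1 := lab c h bd ds1 Dbd Dds (fun i j => i = 1 ∧ j = 1) (by decide +kernel)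
    have l2 := lab c h ds1 s12 Dds Ds (fun i j => i = 2 ∧ j = 1) (by decide +kernel)
    have l3 := lab c h ad ds1 Dad Dds (fun i j => i = 2 ∧ j = 0) (by decide +kernel)
    have l4 := lab c h bd dt1 Dbd Ddt (fun i j => i = 1 ∧ j = 1) (by decide +kernel)
    have l5 := lab c h dt1 t12 Ddt Dt (fun i j => i = 1 ∧ j = 2) (by decide +kernel)
    have l6 := lab c h ad dt1 Dad Ddt (fun i j => i = 0 ∧ j = 2) (by decide +kernel)
    have c1 := stp c h bd ds1 s12
    have c2 := stp c h ab bd ds1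
    have c3 := stp c h ad ds1 s12
    have c4 := stp c h bd dt1 t12
    have c5 := stp c h ab bd dt1
    have c6 := stp c h ad dt1 t12
    have r1 := fun e => (tr c ht ab bd ds1 s12 e).2
    have r2 := fun e => (tr c ht ab bd dt1 t12 e).2
    omega

end upper

lemma lower {N : ℕ} (hN : N ≤ Nat.card T) : ∃ c : Colouring 4 2 N, ¬ HasMonoPath 3 c := by
  have : Fintype (LinearExtension T) := Fintype.ofFinite T
  have hc : Fintype.card (LinearExtension T) = Nat.card T := by
    rw [← Nat.card_eq_fintype_card]; rfl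
  let e := monoEquivOfFin (LinearExtension T) hc
  let B : Fin N → T := fun x => e (Fin.castLE hN x)
  have hB : ∀ x y : Fin N, x < y → ∃ o, o ∈ B y ∧ o ∉ B x := by
    intro x y hxy
    by_contra hn
    push Not at hn
    have h1 : B y ≤ B x := fun o ho => hn o ho
    have h2 : e (Fin.castLE hN y) ≤ e (Fin.castLE hN x) := (toLinearExtension (α := T)).monotone h1
    rw [e.le_iff_le] at h2
    exact absurd hxy (not_lt.2 h2)
  choose! E hE using hB
  have hl : ∀ x y z : Fin N, x < y → y < z →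
      ∃ g : Fin 3 × Fin 3, mem g.1 g.2 (E y z) ∧ ¬ mem g.1 g.2 (E x y) := by
    intro x y z h1 h2
    by_contra hn
    push Not at hn
    have : E y z ≤ E x y := (le_iff _ _).2 fun i j hm => hn (i, j) hm
    exact (hE y z h2).2 ((B y).lower this (hE x y h1).1)
  choose! l hl using hl
  refine ⟨fun t => if (l (t 0) (t 1) (t 2)).1 < (l (t 1) (t 2) (t 3)).1 then 0 else 1, ?_⟩
  rintro ⟨x, i, hx, hc⟩
  have key : ∀ j < 3, (i = 0 ∧ (l (x j) (x (j + 1)) (x (j + 2))).1 <
      (l (x (j + 1)) (x (j + 2)) (x (j + 3))).1) ∨ (i = 1 ∧ (l (x j) (x (j + 1)) (x (j + 2))).2 <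
      (l (x (j + 1)) (x (j + 2)) (x (j + 3))).2) := by
    intro j hj
    have a : (if (l (x j) (x (j + 1)) (x (j + 2))).1 <
      (l (x (j + 1)) (x (j + 2)) (x (j + 3))).1 then (0 : Fin 2) else 1) = i := hc j hj
    have b1 := hx j (j + 1) (by omega) (by omega)
    have b2 := hx (j + 1) (j + 2) (by omega) (by omega)
    have b3 := hx (j + 2) (j + 3) (by omega) (by omega)
    split_ifs at a with hh
    · exact Or.inl ⟨a.symm, hh⟩
    · refine Or.inr ⟨a.symm, ?_⟩
      by_contra hn
      exact (hl _ _ _ b2 b3).2 (mem_lower _ _ _ _ _ (not_lt.1 hh) (not_lt.1 hn) (hl _ _ _ b1 b2).1)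
  have k0 := key 0 (by omega)
  have k1 := key 1 (by omega)
  have k2 := key 2 (by omega)
  simp only [zero_add, Nat.reduceAdd] at k0 k1 k2
  omega

theorem main : transPathRamsey 4 2 3 < pathRamsey 4 2 3 := by
  have h1 : transPathRamsey 4 2 3 ≤ Nat.card T :=
    Nat.sInf_le (fun c ht => upper c rfl ht)
  have h2 : pathRamsey 4 2 3 ∈ {N | ∀ c : Colouring 4 2 N, HasMonoPath 3 c} :=
    Nat.sInf_mem ⟨Nat.card T + 1, fun c => by
      by_contra h
      have := card_le c h
      omega⟩
  by_contra h3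
  obtain ⟨c, hc⟩ := lower (N := pathRamsey 4 2 3) (by omega)
  exact hc (h2 c)

end Pool.Agent.H22.MonoPath
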