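import Mathlib

set_option autoImplicit false

namespace Pool.Agent.H22.MonoPath

/-- A `q`-colouring of the `k`-subsets of the ordered set `Fin N`; a `k`-subset is written as its
increasing `k`-tuple, and only the values on strictly increasing tuples are ever used. -/
abbrev Colouring (k q N : ℕ) : Type := (Fin k → Fin N) → Fin q

/-- there are `x 0 < x 1 < ... < x (n + k - 2)` such that the `n` edges
`{x j, ..., x (j + k - 1)}`, `j < n`, all have the same colour -/
def HasMonoPath {k q N : ℕ} (n : ℕ) (c : Colouring k q N) : Prop :=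
  ∃ (x : ℕ → Fin N) (i : Fin q), (∀ a b, a < b → b < n + k - 1 → x a < x b) ∧
    ∀ j < n, c (fun t : Fin k => x (j + t)) = i

/-- if the first and the last `k`-subset of a `(k+1)`-set have colour `i`, all its `k`-subsets do -/
def Transitive {k q N : ℕ} (c : Colouring k q N) : Prop :=
  ∀ x : Fin (k + 1) → Fin N, StrictMono x → ∀ i : Fin q,
    c (fun t => x t.castSucc) = i → c (fun t => x t.succ) = i →
      ∀ s : Fin (k + 1), c (fun t => x (s.succAbove t)) = i

/-- `N_k(q,n)` -/
noncomputable def pathRamsey (k q n : ℕ) : ℕ :=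
  sInf {N | ∀ c : Colouring k q N, HasMonoPath n c}

/-- `N'_k(q,n)` -/
noncomputable def transPathRamsey (k q n : ℕ) : ℕ :=
  sInf {N | ∀ c : Colouring k q N, Transitive c → HasMonoPath n c}

end Pool.Agent.H22.MonoPath
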