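import Mathlib
import Pool.Agent.H22.NonRep

set_option autoImplicit false
set_option maxRecDepth 100000

namespace Pool.Agent.H22.NonRep
open Finset

section
variable (f : ℕ → St → ℕ) (pc : ℕ → ℕ) (c : ℕ) (l : ℕ → Finset ℕ)

open Classical in
noncomputable def S (k : ℕ) : Finset (ℕ → ℕ) := (U c l k).filter (fun W => ∀ j, j < k → cnd f pc c j W)
open Classical in
noncomputable def T (k : ℕ) : Finset (ℕ → ℕ) := (U c l (k+1)).filter (fun W => ∀ j, j < k → cnd f pc c j W)
open Classical in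
noncomputable def D (k : ℕ) : Finset (ℕ → ℕ) := (S f pc c l k).filter (fun W => W k = c)

variable {f pc c l}

lemma mem_S {k : ℕ} {W : ℕ → ℕ} : W ∈ S f pc c l k ↔ W ∈ U c l k ∧ ∀ j, j < k → cnd f pc c j W := by
  unfold S; simp only [Finset.mem_filter]
lemma mem_T {k : ℕ} {W : ℕ → ℕ} : W ∈ T f pc c l k ↔ W ∈ U c l (k+1) ∧ ∀ j, j < k → cnd f pc c j W := by
  unfold T; simp only [Finset.mem_filter]
lemma mem_D {k : ℕ} {W : ℕ → ℕ} : W ∈ D f pc c l k ↔ W ∈ S f pc c l k ∧ W k = c := by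
  unfold D; simp only [Finset.mem_filter]

lemma tr_mem {k K : ℕ} {W : ℕ → ℕ} (hU : W ∈ U c l K) (hk : k ≤ K)
    (hc : ∀ j, j < k → cnd f pc c j W) : tr k W ∈ S f pc c l k := by
  obtain ⟨h1, h2, _⟩ := (mem_U c l K W).1 hU
  refine mem_S.2 ⟨(mem_U c l k _).2 ⟨?_, fun t t1 t2 => ?_, fun t ht => ?_⟩, fun j hj => ?_⟩
  · rw [tr_le k W 0 (by omega)]; exact h1
  · rw [tr_le _ _ _ t2]; exact h2 t t1 (by omega)
  · simp only [tr]; rw [if_neg (by omega)]
  · exact cnd_congr f pc c j W _ (fun t ht => (tr_le k W t (by omega)).symm) (hc j hj)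

lemma not_blk {g : St → ℕ} {p j : ℕ} {W : ℕ → ℕ} (h : 0 < wv g p c j W (W (j+1))) :
    W (j+1) ≠ W j ∧ ¬ (2 ≤ j ∧ W (j+1) = W (j-1) ∧ W j = W (j-2)) ∧
      ¬ (4 ≤ j ∧ W (j+1) = W (j-2) ∧ W j = W (j-3) ∧ W (j-1) = W (j-4)) ∧
      wv g p c j W (W (j+1)) + (if W (j+1) = c then p else 0) = g (st c (j+1) W) := by
  unfold wv val at h ⊢
  by_cases hb : blk (st c j W) (decide (W (j+1) = W j)) (decide (1 ≤ j ∧ W (j+1) = W (j-1)))
      (decide (2 ≤ j ∧ W (j+1) = W (j-2))) = true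
  · rw [if_pos hb] at h; omega
  rw [if_neg hb] at h ⊢
  rw [← st_succ] at h ⊢
  refine ⟨?_, ?_, ?_, ?_⟩
  · intro e; apply hb; simp [blk, e]
  · rintro ⟨a, b, d⟩; apply hb
    have : 1 ≤ j := by omega
    simp [blk, st, a, b, d, this]
  · rintro ⟨a, b, d, e⟩; apply hb
    have t2 : 2 ≤ j := by omega
    have t3 : 3 ≤ j := by omega
    simp [blk, st, a, b, d, e, t2, t3]
  · by_cases e : W (j+1) = c
    · simp only [e, decide_true, if_true] at h ⊢; omega
    · simp only [e, decide_false, if_false, Bool.false_eq_true] at h ⊢; omega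

lemma wv_le {g : St → ℕ} {p j : ℕ} {W : ℕ → ℕ} (B : ℕ) (hB : ∀ s, g s ≤ B) (x : ℕ) :
    wv g p c j W x ≤ B := by
  unfold wv val
  split_ifs
  · omega
  · exact le_trans (Nat.sub_le _ _) (hB _)
  · exact le_trans (Nat.sub_le _ _) (hB _)

lemma sqfree {k : ℕ} {W : ℕ → ℕ} (hc : ∀ j, j < k → cnd f pc c j W) (s m : ℕ) (hm : 1 ≤ m)
    (hs : s + 2 * m ≤ k + 1) : ¬ ∀ i, i < m → W (s + i) = W (s + i + m) := by
  intro hq
  obtain ⟨j, hj⟩ : ∃ j, s + 2 * m = j + 2 := ⟨s + 2 * m - 2, by omega⟩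
  obtain ⟨h1, h2, -⟩ := hc j (by omega)
  obtain ⟨n1, n2, n3, -⟩ := not_blk h1
  have hq' : ∀ t, s + m ≤ t → t < s + 2 * m → W t = W (t - m) := fun t t1 t2 => by
    have := hq (t - m - s) (by omega)
    rw [show s + (t - m - s) = t - m by omega, show t - m + m = t by omega] at this
    exact this.symm
  rcases (by omega : m = 1 ∨ m = 2 ∨ m = 3 ∨ 4 ≤ m) with e | e | e | e
  · subst e
    exact n1 (by simpa using hq' (j+1) (by omega) (by omega))
  · subst e
    refine n2 ⟨by omega, ?_, hq' j (by omega) (by omega)⟩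
    have := hq' (j+1) (by omega) (by omega)
    rwa [show j + 1 - 2 = j - 1 by omega] at this
  · subst e
    refine n3 ⟨by omega, ?_, hq' j (by omega) (by omega), ?_⟩
    · have := hq' (j+1) (by omega) (by omega)
      rwa [show j + 1 - 3 = j - 2 by omega] at this
    · have := hq' (j-1) (by omega) (by omega)
      rwa [show j - 1 - 3 = j - 4 by omega] at this
  · refine h2 ⟨j + 1 - m, ⟨by omega, by omega⟩, fun t t1 t2 => ?_⟩
    rw [show j + 1 - (j + 1 - m) = m by omega]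
    exact hq' t (by omega) (by omega)

lemma banned {N k : ℕ} {W : ℕ → ℕ} (hban : ∀ i, 1 ≤ i → i ≤ 6 → i ≤ N → ∀ s, f i s ≤ pc i)
    (hc : ∀ j, j < k → cnd f pc c j W) (i : ℕ) (h1 : 1 ≤ i) (h2 : i ≤ k) (hN : i ≤ N)
    (hi : W i = c) : 7 ≤ i := by
  by_contra hh
  obtain ⟨j, rfl⟩ : ∃ j, i = j + 1 := ⟨i - 1, by omega⟩
  obtain ⟨a, -, -⟩ := hc j (by omega)
  obtain ⟨-, -, -, e⟩ := not_blk a
  rw [if_pos hi] at e
  have := hban (j+1) h1 (by omega) hN (st c (j+1) W)
  omega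

lemma pos_of_mem {k : ℕ} {W : ℕ → ℕ} (hpos : 0 < f 0 (true, false, false, false, false, false))
    (hW : W ∈ S f pc c l k) : 0 < f k (st c k W) := by
  obtain ⟨hU, hc⟩ := mem_S.1 hW
  cases k with
  | zero =>
    have h0 := ((mem_U c l 0 W).1 hU).1
    have : st c 0 W = (true, false, false, false, false, false) := by simp [st, h0]
    rw [this]; exact hpos
  | succ j =>
    obtain ⟨a, -, -⟩ := hc j (by omega)
    obtain ⟨-, -, -, e⟩ := not_blk a
    omega

lemma sum_pairs (k : ℕ) (g : St → ℕ) (p : ℕ) :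
    ∑ u ∈ S f pc c l k, ∑ x ∈ l (k+1), wv g p c k u x ≤
      ∑ W ∈ T f pc c l k, wv g p c k W (W (k+1)) := by
  classical
  rw [← Finset.sum_product']
  have inj : Set.InjOn (fun q : (ℕ → ℕ) × ℕ => Function.update q.1 (k+1) q.2)
      ↑(S f pc c l k ×ˢ l (k+1)) := by
    rintro ⟨u, x⟩ hu ⟨u', x'⟩ hu' e
    simp only [Finset.coe_product, Set.mem_prod, Finset.mem_coe] at hu hu'
    have z := ((mem_U c l k u).1 (mem_S.1 hu.1).1).2.2
    have z' := ((mem_U c l k u').1 (mem_S.1 hu'.1).1).2.2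
    have ex : x = x' := by simpa using congrFun e (k+1)
    refine Prod.ext ?_ ex
    funext t
    by_cases ht : t = k + 1
    · dsimp only; rw [z t (by omega), z' t (by omega)]
    · have := congrFun e t
      simpa [Function.update_of_ne ht] using this
  have e1 : ∑ q ∈ S f pc c l k ×ˢ l (k+1), wv g p c k q.1 q.2 =
      ∑ W ∈ (S f pc c l k ×ˢ l (k+1)).image (fun q : (ℕ → ℕ) × ℕ => Function.update q.1 (k+1) q.2),
        wv g p c k W (W (k+1)) := by
    rw [Finset.sum_image inj]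
    refine Finset.sum_congr rfl (fun q _ => ?_)
    rw [Function.update_self]
    exact wv_congr g p c k _ _ (fun t ht => by rw [Function.update_of_ne (by omega)]) _
  rw [e1]
  refine Finset.sum_le_sum_of_subset (fun W hW => ?_)
  obtain ⟨⟨u, x⟩, hq, rfl⟩ := Finset.mem_image.1 hW
  obtain ⟨hu, hx⟩ := Finset.mem_product.1 hq
  refine mem_T.2 ⟨?_, fun j hj => ?_⟩
  · unfold U
    exact Finset.mem_image.2 ⟨(u, x), Finset.mem_product.2 ⟨(mem_S.1 hu).1, hx⟩, rfl⟩
  · exact cnd_congr f pc c j u _ (fun t ht => by rw [Function.update_of_ne (by omega)])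
      ((mem_S.1 hu).2 j hj)

open Classical in
lemma card_lsq (N k : ℕ) (hk : k < N) :
    ((T f pc c l k).filter (fun W => lsq (k+1) W)).card ≤
      ∑ k0 ∈ range N, if k0 + 3 < k + 1 ∧ k + 1 ≤ 2 * k0 + 1 then (S f pc c l k0).card else 0 := by
  have sub : (T f pc c l k).filter (fun W => lsq (k+1) W) ⊆
      (range N).biUnion (fun k0 => (T f pc c l k).filter
        (fun W => (k0 + 3 < k + 1 ∧ k + 1 ≤ 2 * k0 + 1) ∧ lsqAt k0 (k+1) W)) := by
    intro W hW
    obtain ⟨h1, k0, h2, h3⟩ := Finset.mem_filter.1 hW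
    exact Finset.mem_biUnion.2 ⟨k0, Finset.mem_range.2 (by omega), Finset.mem_filter.2 ⟨h1, h2, h3⟩⟩
  refine le_trans (Finset.card_le_card sub) (le_trans Finset.card_biUnion_le ?_)
  refine Finset.sum_le_sum (fun k0 _ => ?_)
  split_ifs with h
  · refine card_le_of_det _ _ k0 (k+1) (fun t => t - (k + 1 - k0)) ?_ ?_ ?_ ?_
    · intro W hW
      obtain ⟨a, b⟩ := mem_T.1 (Finset.mem_filter.1 hW).1
      exact tr_mem a (by omega) (fun j hj => b j (by omega))
    · intro W hW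
      exact ((mem_U c l _ W).1 (mem_T.1 (Finset.mem_filter.1 hW).1).1).2.2
    · intro W hW
      exact (Finset.mem_filter.1 hW).2.2
    · intro t t1 t2; omega
  · rw [Nat.le_zero, Finset.card_eq_zero, Finset.filter_eq_empty_iff]
    intro W _ hh; exact h hh.1

open Classical in
lemma card_mrk (N k : ℕ) (hk : k < N) (hban : ∀ i, 1 ≤ i → i ≤ 6 → i ≤ N → ∀ s, f i s ≤ pc i) :
    ((T f pc c l k).filter (fun W => mrk (k+1) W)).card ≤
      ∑ k0 ∈ range N, if k0 + 3 = k ∧ 6 ≤ k0 then (D f pc c l (k0+1)).card else 0 := by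
  by_cases hne : ((T f pc c l k).filter (fun W => mrk (k+1) W)).Nonempty
  · obtain ⟨W0, hW0⟩ := hne
    have key : ∀ W ∈ (T f pc c l k).filter (fun W => mrk (k+1) W), W (k-2) = c ∧ 9 ≤ k := by
      intro W hW
      obtain ⟨h1, h2, h3⟩ := Finset.mem_filter.1 hW
      obtain ⟨a, b⟩ := mem_T.1 h1
      have e : W (k-2) = c := by
        have := h3 (k-2) (by omega) (by omega)
        rw [show k - 2 - (k + 1 - 3) = 0 by omega, ((mem_U c l _ W).1 a).1] at this
        exact this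
      have := banned hban b (k-2) (by omega) (by omega) (by omega) e
      exact ⟨e, by omega⟩
    have h9 := (key W0 hW0).2
    refine le_trans ?_ (Finset.single_le_sum (f := fun k0 =>
      if k0 + 3 = k ∧ 6 ≤ k0 then (D f pc c l (k0+1)).card else 0) (fun _ _ => Nat.zero_le _)
      (Finset.mem_range.2 (by omega : k - 3 < N)))
    rw [if_pos (by omega), show k - 3 + 1 = k - 2 by omega]
    refine card_le_of_det _ _ (k-2) (k+1) (fun t => t - (k + 1 - 3)) ?_ ?_ ?_ ?_
    · intro W hW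
      obtain ⟨a, b⟩ := mem_T.1 (Finset.mem_filter.1 hW).1
      refine mem_D.2 ⟨tr_mem a (by omega) (fun j hj => b j (by omega)), ?_⟩
      rw [tr_le _ _ _ le_rfl]; exact (key W hW).1
    · intro W hW
      exact ((mem_U c l _ W).1 (mem_T.1 (Finset.mem_filter.1 hW).1).1).2.2
    · intro W hW t t1 t2
      exact (Finset.mem_filter.1 hW).2.2 t (by omega) t2
    · intro t t1 t2; omega
  · rw [Finset.not_nonempty_iff_eq_empty.1 hne]; simp

open Classical in
lemma sum_T (k B : ℕ) (hB : 7 ≤ k + 1 → ∀ s, f (k+1) s ≤ B)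
    (h7 : ∀ W ∈ T f pc c l k, mrk (k+1) W → 7 ≤ k + 1) :
    ∑ W ∈ T f pc c l k, wv (f (k+1)) (pc (k+1)) c k W (W (k+1)) + pc (k+1) * (D f pc c l (k+1)).card ≤
      ∑ W ∈ S f pc c l (k+1), f (k+1) (st c (k+1) W) +
        B * (((T f pc c l k).filter (fun W => lsq (k+1) W)).card +
          ((T f pc c l k).filter (fun W => mrk (k+1) W)).card) := by
  have e1 : S f pc c l (k+1) = (T f pc c l k).filter (fun W => cnd f pc c k W) := by
    ext W
    rw [Finset.mem_filter, mem_S, mem_T]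
    constructor
    · rintro ⟨a, b⟩; exact ⟨⟨a, fun j hj => b j (by omega)⟩, b k (by omega)⟩
    · rintro ⟨⟨a, b⟩, d⟩
      refine ⟨a, fun j hj => ?_⟩
      by_cases e : j = k
      · rw [e]; exact d
      · exact b j (by omega)
  have e2 : ∑ W ∈ S f pc c l (k+1), f (k+1) (st c (k+1) W) =
      ∑ W ∈ S f pc c l (k+1), wv (f (k+1)) (pc (k+1)) c k W (W (k+1)) +
        pc (k+1) * (D f pc c l (k+1)).card := by
    unfold D
    rw [Finset.card_filter, Finset.mul_sum, ← Finset.sum_add_distrib]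
    refine Finset.sum_congr rfl (fun W hW => ?_)
    obtain ⟨a, -, -⟩ := (mem_S.1 hW).2 k (by omega)
    obtain ⟨-, -, -, e⟩ := not_blk a
    rw [← e]; split_ifs <;> simp
  have e3 : ∑ W ∈ T f pc c l k, wv (f (k+1)) (pc (k+1)) c k W (W (k+1)) ≤
      ∑ W ∈ S f pc c l (k+1), wv (f (k+1)) (pc (k+1)) c k W (W (k+1)) +
        B * (((T f pc c l k).filter (fun W => lsq (k+1) W)).card +
          ((T f pc c l k).filter (fun W => mrk (k+1) W)).card) := by
    rw [e1, Finset.sum_filter, Finset.card_filter, Finset.card_filter, ← Finset.sum_add_distrib,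
      Finset.mul_sum, ← Finset.sum_add_distrib]
    refine Finset.sum_le_sum (fun W hW => ?_)
    by_cases hc : cnd f pc c k W
    · rw [if_pos hc]; omega
    rw [if_neg hc]
    by_cases h0 : wv (f (k+1)) (pc (k+1)) c k W (W (k+1)) = 0
    · omega
    by_cases h1 : lsq (k+1) W
    · have : 7 ≤ k + 1 := by obtain ⟨k0, hk0, -⟩ := h1; omega
      have := wv_le (c := c) (p := pc (k+1)) (j := k) (W := W) B (hB this) (W (k+1))
      rw [if_pos h1]; nlinarith [Nat.zero_le (B * (if mrk (k+1) W then 1 else 0))]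
    by_cases h2 : mrk (k+1) W
    · have := wv_le (c := c) (p := pc (k+1)) (j := k) (W := W) B (hB (h7 W hW h2)) (W (k+1))
      rw [if_neg h1, if_pos h2]; omega
    · exact absurd ⟨by omega, h1, h2⟩ hc
  omega

lemma one_step (N k B w : ℕ) (hk : k < N) (hl : (l (k+1)).card = 4)
    (hpos : 0 < f 0 (true, false, false, false, false, false))
    (hok : Ok (f (k+1)) (f k) w (pc (k+1))) (hB : 7 ≤ k + 1 → ∀ s, f (k+1) s ≤ B)
    (hban : ∀ i, 1 ≤ i → i ≤ 6 → i ≤ N → ∀ s, f i s ≤ pc i) :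
    ∑ W ∈ S f pc c l k, f k (st c k W) + w * (S f pc c l k).card + pc (k+1) * (D f pc c l (k+1)).card ≤
      ∑ W ∈ S f pc c l (k+1), f (k+1) (st c (k+1) W) +
        B * ((∑ k0 ∈ range N, if k0 + 3 < k + 1 ∧ k + 1 ≤ 2 * k0 + 1 then (S f pc c l k0).card else 0) +
          ∑ k0 ∈ range N, if k0 + 3 = k ∧ 6 ≤ k0 then (D f pc c l (k0+1)).card else 0) := by
  classical
  have a1 : ∑ W ∈ S f pc c l k, f k (st c k W) + w * (S f pc c l k).card ≤
      ∑ u ∈ S f pc c l k, ∑ x ∈ l (k+1), wv (f (k+1)) (pc (k+1)) c k u x := by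
    rw [Finset.card_eq_sum_ones, Finset.mul_sum, ← Finset.sum_add_distrib]
    refine Finset.sum_le_sum (fun W hW => ?_)
    rw [mul_one]
    refine local_bound _ _ _ _ c k W hok (fun h2 e => ?_) _ hl (pos_of_mem hpos hW)
    refine sqfree (mem_S.1 hW).2 (k-2) 1 le_rfl (by omega) (fun i hi => ?_)
    rw [show k - 2 + i = k - 2 by omega, show k - 2 + 1 = k - 1 by omega]; exact e.symm
  have a2 := sum_pairs (f := f) (pc := pc) (c := c) (l := l) k (f (k+1)) (pc (k+1))
  have a3 := sum_T (f := f) (pc := pc) (c := c) (l := l) k B hB (fun W hW hm => by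
    obtain ⟨a, b⟩ := mem_T.1 hW
    obtain ⟨h2, h3⟩ := hm
    have e : W (k-2) = c := by
      have := h3 (k-2) (by omega) (by omega)
      rw [show k - 2 - (k + 1 - 3) = 0 by omega, ((mem_U c l _ W).1 a).1] at this
      exact this
    have := banned hban b (k-2) (by omega) (by omega) (by omega) e
    omega)
  have a4 := card_lsq (f := f) (pc := pc) (c := c) (l := l) N k hk
  have a5 := card_mrk (f := f) (pc := pc) (c := c) (l := l) N k hk hban
  have a6 := Nat.mul_le_mul_left B (Nat.add_le_add a4 a5)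
  omega

end
end Pool.Agent.H22.NonRep
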