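import Mathlib
import Pool.Agent.H22.NonRep2

set_option autoImplicit false
set_option maxRecDepth 100000

namespace Pool.Agent.H22.NonRep
open Finset

def Lp (a : ℕ) : ℕ := ∑ e ∈ range 3, if 7 ≤ a + 1 + e then 1 else 0

def cyc (N : ℕ) (W : ℕ → ℕ) : Prop :=
  ∃ s m, s ≤ N ∧ 1 ≤ m ∧ 2 * m ≤ N + 1 ∧ ∀ i, i < m → W ((s + i) % (N+1)) = W ((s + i + m) % (N+1))

def RR (c N k0 d : ℕ) (W : ℕ → ℕ) : Prop :=
  (6 ≤ k0 ∧ 2 * (N - k0) ≤ N + 1) ∧ W (k0+1) = c ∧
    ∀ t, k0 + 1 < t → t ≤ N → W t = W (if t + d < N + 1 then t - (k0 + 1) else t - (N - k0))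

def LL (N k e : ℕ) (W : ℕ → ℕ) : Prop :=
  (7 ≤ N - k + 1 + e ∧ 2 * (N - k + 1 + e) ≤ N + 1) ∧
    ∀ t, k < t → t ≤ N → W t = W (t + e - k)

section
variable {f : ℕ → St → ℕ} {pc : ℕ → ℕ} {c : ℕ} {l : ℕ → Finset ℕ}

lemma mod_lo (N x : ℕ) (h : x ≤ N) : x % (N+1) = x := Nat.mod_eq_of_lt (by omega)
lemma mod_hi (N x : ℕ) (h : N + 1 ≤ x) (h2 : x ≤ 2 * N + 1) : x % (N+1) = x - (N+1) := by
  rw [Nat.mod_eq_sub_mod h, Nat.mod_eq_of_lt (by omega)]

lemma cyc_cases (N : ℕ) (hban : ∀ i, 1 ≤ i → i ≤ 6 → i ≤ N → ∀ s, f i s ≤ pc i) (W : ℕ → ℕ)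
    (hW : W ∈ S f pc c l N) (h : cyc N W) :
    (∃ k0, k0 < N ∧ ∃ d, d < N - k0 ∧ RR c N k0 d W) ∨ (∃ k, k < N ∧ ∃ e, e < 3 ∧ LL N k e W) := by
  obtain ⟨s, m, hs, hm, h2, hq⟩ := h
  obtain ⟨hU, hc⟩ := mem_S.1 hW
  have h0 := ((mem_U c l N W).1 hU).1
  by_cases lin : s + 2 * m ≤ N + 1
  · exfalso
    refine sqfree hc s m hm lin (fun i hi => ?_)
    have := hq i hi
    rwa [mod_lo N _ (by omega), mod_lo N _ (by omega)] at this
  by_cases hR : s + m ≤ N + 1
  · left
    have e0 : W (N + 1 - m) = c := by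
      have := hq (N + 1 - m - s) (by omega)
      rw [mod_lo N _ (by omega), mod_hi N _ (by omega) (by omega),
        show s + (N + 1 - m - s) = N + 1 - m by omega,
        show N + 1 - m + m - (N + 1) = 0 by omega, h0] at this
      exact this
    have b := banned hban hc (N + 1 - m) (by omega) (by omega) (by omega) e0
    refine ⟨N - m, by omega, N + 1 - s - m, by omega, ⟨by omega, by omega⟩, ?_, fun t t1 t2 => ?_⟩
    · rw [show N - m + 1 = N + 1 - m by omega]; exact e0
    · split_ifs with ht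
      · have := hq (t - s) (by omega)
        rw [mod_lo N _ (by omega), mod_hi N _ (by omega) (by omega),
          show s + (t - s) = t by omega] at this
        rw [this]; congr 1; omega
      · have := hq (t - m - s) (by omega)
        rw [mod_lo N _ (by omega), mod_lo N _ (by omega),
          show s + (t - m - s) = t - m by omega, show t - m + m = t by omega] at this
        rw [← this]; congr 1; omega
  · right
    have rep : ∀ i, i + (N + 1 - s) < m → W (m + i) = W i := fun i hi => by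
      have := hq (i + (N + 1 - s)) hi
      rw [mod_hi N _ (by omega) (by omega), mod_hi N _ (by omega) (by omega),
        show s + (i + (N + 1 - s)) - (N + 1) = i by omega,
        show s + (i + (N + 1 - s)) + m - (N + 1) = m + i by omega] at this
      exact this.symm
    have e0 : W m = c := by
      have := rep 0 (by omega)
      rwa [Nat.add_zero, h0] at this
    have b := banned hban hc m (by omega) (by omega) (by omega) e0
    have e3 : m - (N + 1 - s) - 1 < 3 := by
      by_contra hh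
      obtain ⟨-, -, h3⟩ := hc (m + 2) (by omega)
      refine h3 ⟨by omega, fun t t1 t2 => ?_⟩
      have := rep (t - m) (by omega)
      rw [show m + (t - m) = t by omega] at this
      rw [this]; congr 1
    refine ⟨s - 1, by omega, m - (N + 1 - s) - 1, e3, ⟨by omega, by omega⟩, fun t t1 t2 => ?_⟩
    have := hq (t - s) (by omega)
    rw [mod_lo N _ (by omega), mod_hi N _ (by omega) (by omega),
      show s + (t - s) = t by omega] at this
    rw [this]; congr 1; omega

open Classical in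
lemma card_bad (N : ℕ) (hban : ∀ i, 1 ≤ i → i ≤ 6 → i ≤ N → ∀ s, f i s ≤ pc i) :
    ((S f pc c l N).filter (fun W => cyc N W)).card ≤
      ∑ k0 ∈ range N, (if 6 ≤ k0 then N - k0 else 0) * (D f pc c l (k0+1)).card +
        ∑ k ∈ range N, Lp (N - k) * (S f pc c l k).card := by
  have sub : (S f pc c l N).filter (fun W => cyc N W) ⊆
      (range N).biUnion (fun k0 => (range (N - k0)).biUnion (fun d =>
        (S f pc c l N).filter (fun W => RR c N k0 d W))) ∪
      (range N).biUnion (fun k => (range 3).biUnion (fun e =>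
        (S f pc c l N).filter (fun W => LL N k e W))) := by
    intro W hW
    obtain ⟨h1, h2⟩ := Finset.mem_filter.1 hW
    rcases cyc_cases N hban W h1 h2 with ⟨k0, a, d, b, r⟩ | ⟨k, a, e, b, r⟩
    · exact Finset.mem_union_left _ (Finset.mem_biUnion.2 ⟨k0, Finset.mem_range.2 a,
        Finset.mem_biUnion.2 ⟨d, Finset.mem_range.2 b, Finset.mem_filter.2 ⟨h1, r⟩⟩⟩)
    · exact Finset.mem_union_right _ (Finset.mem_biUnion.2 ⟨k, Finset.mem_range.2 a,
        Finset.mem_biUnion.2 ⟨e, Finset.mem_range.2 b, Finset.mem_filter.2 ⟨h1, r⟩⟩⟩)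
  refine le_trans (Finset.card_le_card sub) (le_trans (Finset.card_union_le _ _) (Nat.add_le_add ?_ ?_))
  · refine le_trans Finset.card_biUnion_le (Finset.sum_le_sum (fun k0 hk0 => ?_))
    have hk0' := Finset.mem_range.1 hk0
    refine le_trans Finset.card_biUnion_le ?_
    by_cases h : 6 ≤ k0 ∧ 2 * (N - k0) ≤ N + 1
    · rw [if_pos h.1]
      refine le_trans (Finset.sum_le_card_nsmul _ _ (D f pc c l (k0+1)).card (fun d _ => ?_))
        (by simp)
      refine card_le_of_det _ _ (k0+1) N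
        (fun t => if t + d < N + 1 then t - (k0 + 1) else t - (N - k0)) ?_ ?_ ?_ ?_
      · intro W hW
        obtain ⟨a, r⟩ := Finset.mem_filter.1 hW
        obtain ⟨a1, a2⟩ := mem_S.1 a
        refine mem_D.2 ⟨tr_mem a1 (by omega) (fun j hj => a2 j (by omega)), ?_⟩
        rw [tr_le _ _ _ le_rfl]; exact r.2.1
      · intro W hW
        exact ((mem_U c l _ W).1 (mem_S.1 (Finset.mem_filter.1 hW).1).1).2.2
      · intro W hW
        exact (Finset.mem_filter.1 hW).2.2.2
      · intro t t1 t2; split_ifs <;> omega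
    · refine le_trans (le_of_eq (Finset.sum_eq_zero (fun d _ => ?_))) (Nat.zero_le _)
      rw [Finset.card_eq_zero, Finset.filter_eq_empty_iff]
      intro W _ hh; exact h hh.1
  · refine le_trans Finset.card_biUnion_le (Finset.sum_le_sum (fun k hk => ?_))
    have hk' := Finset.mem_range.1 hk
    refine le_trans Finset.card_biUnion_le ?_
    unfold Lp
    rw [Finset.sum_mul]
    refine Finset.sum_le_sum (fun e _ => ?_)
    by_cases h : 7 ≤ N - k + 1 + e ∧ 2 * (N - k + 1 + e) ≤ N + 1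
    · rw [if_pos h.1, one_mul]
      refine card_le_of_det _ _ k N (fun t => t + e - k) ?_ ?_ ?_ ?_
      · intro W hW
        obtain ⟨a1, a2⟩ := mem_S.1 (Finset.mem_filter.1 hW).1
        exact tr_mem a1 (by omega) (fun j hj => a2 j (by omega))
      · intro W hW
        exact ((mem_U c l _ W).1 (mem_S.1 (Finset.mem_filter.1 hW).1).1).2.2
      · intro W hW
        exact (Finset.mem_filter.1 hW).2.2
      · intro t t1 t2; omega
    · refine le_trans (le_of_eq ?_) (Nat.zero_le _)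
      rw [Finset.card_eq_zero, Finset.filter_eq_empty_iff]
      intro W _ hh; exact h hh.1

theorem main (N : ℕ) (w B : ℕ → ℕ) (hl : ∀ t, 1 ≤ t → t ≤ N → (l t).card = 4)
    (h0 : ∀ s, f N s ≤ 1)
    (hok : ∀ k, k < N → Ok (f (k+1)) (f k) (w k) (pc (k+1)))
    (hB : ∀ k, 7 ≤ k → k ≤ N → ∀ s, f k s ≤ B k)
    (hw : ∀ k0, k0 < N → Lp (N - k0) +
      (∑ k ∈ range N, if k0 + 3 < k + 1 ∧ k + 1 ≤ 2 * k0 + 1 then B (k+1) else 0) ≤ w k0)
    (hpc : ∀ k0, k0 < N → (if 6 ≤ k0 then N - k0 else 0) +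
      (∑ k ∈ range N, if k0 + 3 = k ∧ 6 ≤ k0 then B (k+1) else 0) ≤ pc (k0+1))
    (hban : ∀ i, 1 ≤ i → i ≤ 6 → i ≤ N → ∀ s, f i s ≤ pc i)
    (hpos : 0 < f 0 (true, false, false, false, false, false)) :
    ∃ W : ℕ → ℕ, W 0 = c ∧ (∀ t, 1 ≤ t → t ≤ N → W t ∈ l t) ∧ ¬ cyc N W := by
  classical
  set C : ℕ → ℕ := fun k => (S f pc c l k).card with hC
  set E : ℕ → ℕ := fun k => (D f pc c l k).card with hE
  set Φ : ℕ → ℕ := fun k => ∑ W ∈ S f pc c l k, f k (st c k W) with hΦ
  set R : ℕ → ℕ := fun k => B (k+1) *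
    ((∑ k0 ∈ range N, if k0 + 3 < k + 1 ∧ k + 1 ≤ 2 * k0 + 1 then C k0 else 0) +
      ∑ k0 ∈ range N, if k0 + 3 = k ∧ 6 ≤ k0 then E (k0+1) else 0) with hR
  have tele : ∀ K, K ≤ N → Φ 0 + ∑ k ∈ range K, (w k * C k + pc (k+1) * E (k+1)) ≤
      Φ K + ∑ k ∈ range K, R k := by
    intro K
    induction K with
    | zero => intro _; simp
    | succ K ih =>
      intro hK
      have a := ih (by omega)
      have b : Φ K + w K * C K + pc (K+1) * E (K+1) ≤ Φ (K+1) + R K :=
        one_step N K (B (K+1)) (w K) (by omega) (hl _ (by omega) hK) hpos (hok K (by omega))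
          (fun h7 => hB _ h7 hK) hban
      rw [Finset.sum_range_succ, Finset.sum_range_succ]
      omega
  have swap : ∑ k ∈ range N, R k =
      ∑ k0 ∈ range N, ((∑ k ∈ range N, if k0 + 3 < k + 1 ∧ k + 1 ≤ 2 * k0 + 1 then B (k+1) else 0) * C k0 +
        (∑ k ∈ range N, if k0 + 3 = k ∧ 6 ≤ k0 then B (k+1) else 0) * E (k0+1)) := by
    simp only [hR, Finset.mul_sum, Finset.sum_mul, mul_add, Finset.sum_add_distrib]
    congr 1
    · rw [Finset.sum_comm]
      refine Finset.sum_congr rfl (fun a _ => Finset.sum_congr rfl (fun b _ => ?_))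
      split_ifs <;> simp
    · rw [Finset.sum_comm]
      refine Finset.sum_congr rfl (fun a _ => Finset.sum_congr rfl (fun b _ => ?_))
      split_ifs <;> simp
  have low : ∑ k0 ∈ range N, (if 6 ≤ k0 then N - k0 else 0) * E (k0+1) +
      ∑ k ∈ range N, Lp (N - k) * C k + ∑ k ∈ range N, R k ≤
      ∑ k ∈ range N, (w k * C k + pc (k+1) * E (k+1)) := by
    rw [swap, ← Finset.sum_add_distrib, ← Finset.sum_add_distrib]
    refine Finset.sum_le_sum (fun k hk => ?_)
    have a := Nat.mul_le_mul_right (C k) (hw k (Finset.mem_range.1 hk))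
    have b := Nat.mul_le_mul_right (E (k+1)) (hpc k (Finset.mem_range.1 hk))
    rw [add_mul] at a b
    omega
  have top : Φ N ≤ C N := by
    simp only [hΦ, hC]
    rw [Finset.card_eq_sum_ones]
    exact Finset.sum_le_sum (fun W _ => h0 _)
  have bot : 0 < Φ 0 := by
    have m0 : (fun t => if t = 0 then c else 0) ∈ S f pc c l 0 :=
      mem_S.2 ⟨by simp [U], fun j hj => by omega⟩
    exact lt_of_lt_of_le (pos_of_mem hpos m0)
      (Finset.single_le_sum (f := fun W => f 0 (st c 0 W)) (fun _ _ => Nat.zero_le _) m0)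
  have bad : ((S f pc c l N).filter (fun W => cyc N W)).card ≤
      ∑ k0 ∈ range N, (if 6 ≤ k0 then N - k0 else 0) * E (k0+1) +
        ∑ k ∈ range N, Lp (N - k) * C k := card_bad N hban
  have t := tele N le_rfl
  have lt : ((S f pc c l N).filter (fun W => cyc N W)).card < (S f pc c l N).card := by
    have : C N = (S f pc c l N).card := rfl
    omega
  obtain ⟨W, hW, hn⟩ := Finset.exists_mem_notMem_of_card_lt_card lt
  obtain ⟨h1, h2, -⟩ := (mem_U c l N W).1 (mem_S.1 hW).1
  exact ⟨W, h1, h2, fun hh => hn (Finset.mem_filter.2 ⟨hW, hh⟩)⟩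

end
end Pool.Agent.H22.NonRep
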