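import Mathlib
import Pool.Agent.H22.NonRep3
import Pool.Agent.H22.NonRepData

set_option autoImplicit false
set_option maxRecDepth 100000

namespace Pool.Agent.H22.NonRep
open Finset

def bit (b : Bool) (n : ℕ) : ℕ := if b then n else 0
def code (s : St) : ℕ :=
  bit s.1 1 + bit s.2.1 2 + bit s.2.2.1 4 + bit s.2.2.2.1 8 + bit s.2.2.2.2.1 16 + bit s.2.2.2.2.2 32
def tb (n : ℕ) (s : St) : ℕ := n / 2 ^ (12 * code s) % 4096

lemma tb_le (n : ℕ) (s : St) : tb n s ≤ 4096 := le_of_lt (Nat.mod_lt _ (by norm_num))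

def okT (f g : St → ℕ) (w pc : ℕ) (s : St) (θ : ℕ) : Bool :=
  decide (θ ≤ vf f pc s) && decide (g s + w + defs f pc s θ ≤ 4 * θ)
def okS (f g : St → ℕ) (w pc : ℕ) (s : St) : Bool :=
  decide (g s = 0) || okT f g w pc s (vc f pc s) || okT f g w pc s (v1 f pc s) ||
    okT f g w pc s (v2 f pc s) || okT f g w pc s (vf f pc s)
def OkB (f g : St → ℕ) (w pc : ℕ) : Prop := ∀ a b c d e h : Bool, okS f g w pc (a, b, c, d, e, h) = true

instance (f g : St → ℕ) (w pc : ℕ) : Decidable (OkB f g w pc) := by unfold OkB; infer_instance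

lemma OkB.ok {f g : St → ℕ} {w pc : ℕ} (h : OkB f g w pc) : Ok f g w pc := by
  rintro ⟨a, b, c, d, e, i⟩
  have := h a b c d e i
  simp only [okS, okT, Bool.or_eq_true, Bool.and_eq_true, decide_eq_true_eq] at this
  rcases this with (((h0 | h1) | h1) | h1) | h1
  · exact Or.inl h0
  all_goals exact Or.inr ⟨_, h1⟩

def Fj (j : ℕ) (s : St) : ℕ := if j < 6 then tb (tF.getD j 0) s else 2 ^ (j - 6) * tb (tF.getD 6 0) s
def Bj (j : ℕ) : ℕ := if j < 6 then [1, 3, 6, 12, 22, 45].getD j 0 else 2 ^ (j - 6) * 96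
def wj (j : ℕ) : ℕ := if j < 7 then [0, 0, 0, 0, 2, 6, 13].getD j 0 else 2 ^ (j - 7) * 27
def pj (j : ℕ) : ℕ := if j < 6 then [1, 2, 3, 5, 8, 12].getD j 0 else 2 ^ (j - 6) * 19
def wi (k0 : ℕ) : ℕ :=
  3 + ∑ k ∈ range 12, if k0 + 3 < k + 1 ∧ k + 1 ≤ 2 * k0 + 1 then 3 * 2 ^ (10 - k) else 0
def Gi (k : ℕ) (s : St) : ℕ := if k < 6 then tb (tGi.getD k 0) s else tb (tF.getD 6 0) s

def ff (N k : ℕ) (s : St) : ℕ :=
  if 6 ≤ k then Fj (N - k) s else if N ≤ 11 then tb (tGs.getD (6 * N + k) 0) s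
  else 2 ^ (N - 12) * Gi k s
def ww (N k : ℕ) : ℕ :=
  if 6 ≤ k then wj (N - k) else if N ≤ 11 then tws.getD (6 * N + k) 0 else 2 ^ (N - 12) * wi k
def pp (N i : ℕ) : ℕ := if 7 ≤ i then pj (N - i) else 2 ^ (N - 12) * 4096
def BB (N k : ℕ) : ℕ := Bj (N - k)

lemma okF : ∀ j, j < 6 → OkB (Fj j) (Fj (j+1)) (wj (j+1)) (pj j) := by decide +kernel
lemma okSteady : OkB (tb (tF.getD 6 0)) (fun s => 2 * tb (tF.getD 6 0) s) 27 19 := by decide +kernel
lemma okGi : ∀ k, k < 6 → OkB (Gi (k+1)) (Gi k) (wi k) 4096 := by decide +kernel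
lemma okGs : ∀ N, N < 12 → 2 ≤ N → ∀ k, k < 6 → k < N →
    OkB (ff N (k+1)) (ff N k) (ww N k) (pp N (k+1)) := by decide +kernel
lemma posGs : ∀ N, N < 12 → 2 ≤ N → 0 < ff N 0 (true, false, false, false, false, false) := by
  decide +kernel
lemma posGi : 0 < Gi 0 (true, false, false, false, false, false) := by decide +kernel
lemma topGs : ∀ N, N < 12 → 2 ≤ N → ∀ a b c d e h : Bool, ff N N (a, b, c, d, e, h) ≤ 1 := by
  decide +kernel
lemma topF : ∀ a b c d e h : Bool, Fj 0 (a, b, c, d, e, h) ≤ 1 := by decide +kernel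
lemma leF : ∀ j, j < 7 → ∀ a b c d e h : Bool, tb (tF.getD j 0) (a, b, c, d, e, h) ≤ Bj j := by
  decide +kernel
lemma hwGs : ∀ N, N < 12 → 2 ≤ N → ∀ k0, k0 < 6 → k0 < N → Lp (N - k0) +
    (∑ k ∈ range N, if k0 + 3 < k + 1 ∧ k + 1 ≤ 2 * k0 + 1 then BB N (k+1) else 0) ≤ ww N k0 := by
  decide +kernel

lemma Fj_le (j : ℕ) (s : St) : Fj j s ≤ Bj j := by
  obtain ⟨a, b, c, d, e, h⟩ := s
  by_cases hj : j < 6
  · have := leF j (by omega) a b c d e h
    unfold Fj; rwa [if_pos hj]
  · have := leF 6 (by omega) a b c d e h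
    unfold Fj Bj at *
    rw [if_neg hj, if_neg hj]
    exact Nat.mul_le_mul_left _ (by simpa using this)

lemma Bj_le (j : ℕ) : 2 * Bj j ≤ 3 * 2 ^ j := by
  by_cases hj : j < 6
  · interval_cases j <;> decide
  · obtain ⟨n, rfl⟩ : ∃ n, j = n + 6 := ⟨j - 6, by omega⟩
    unfold Bj
    rw [if_neg hj, Nat.add_sub_cancel, pow_add]; omega

lemma Lp_le (a : ℕ) : Lp a ≤ 3 := by
  unfold Lp
  simp only [Finset.sum_range_succ, Finset.sum_range_zero]
  split_ifs <;> omega

lemma SB_le (n : ℕ) : ∑ j ∈ range (n + 4), Bj j ≤ 24 * 2 ^ n := by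
  induction n with
  | zero => decide
  | succ n ih =>
    rw [show n + 1 + 4 = (n + 4) + 1 by omega, Finset.sum_range_succ]
    have := Bj_le (n + 4)
    rw [pow_add] at this
    rw [pow_succ]; omega

lemma wj_ge (j : ℕ) : Lp j + ∑ i ∈ range (j - 3), Bj i ≤ wj j := by
  by_cases hj : j < 7
  · interval_cases j <;> decide
  · obtain ⟨n, rfl⟩ : ∃ n, j = n + 7 := ⟨j - 7, by omega⟩
    have a := SB_le n
    have b := Lp_le (n + 7)
    have d : 1 ≤ 2 ^ n := Nat.one_le_two_pow
    unfold wj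
    rw [if_neg hj, Nat.add_sub_cancel, show n + 7 - 3 = n + 4 by omega]; omega

lemma pj_ge (j : ℕ) : j + 1 + (if 3 ≤ j then Bj (j - 3) else 0) ≤ pj j := by
  by_cases hj : j < 6
  · interval_cases j <;> decide
  · obtain ⟨n, rfl⟩ : ∃ n, j = n + 6 := ⟨j - 6, by omega⟩
    have a := Bj_le (n + 3)
    have d : n < 2 ^ n := Nat.lt_two_pow_self
    rw [pow_add] at a
    unfold pj
    rw [if_neg hj, if_pos (by omega), Nat.add_sub_cancel, show n + 6 - 3 = n + 3 by omega]; omega

lemma sum_reflect_le (N a : ℕ) (P : ℕ → Prop) [DecidablePred P] (hP : ∀ k, P k → a ≤ k) :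
    (∑ k ∈ range N, if P k then Bj (N - (k+1)) else 0) ≤ ∑ j ∈ range (N - a), Bj j := by
  rw [← Finset.sum_range_reflect]
  calc (∑ j ∈ range N, if P (N - 1 - j) then Bj (N - (N - 1 - j + 1)) else 0)
      ≤ ∑ j ∈ range N, if j < N - a then Bj j else 0 := by
        refine Finset.sum_le_sum (fun j hj => ?_)
        have hj' := Finset.mem_range.1 hj
        split_ifs with h1 h2
        · rw [show N - (N - 1 - j + 1) = j by omega]
        · have := hP _ h1; omega
        · omega
        · omega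
    _ ≤ ∑ j ∈ range (N - a), Bj j := by
        rw [← Finset.sum_filter]
        exact Finset.sum_le_sum_of_subset (fun j hj => Finset.mem_range.2 (Finset.mem_filter.1 hj).2)

theorem exists_word (N c : ℕ) (l : ℕ → Finset ℕ) (hN : 2 ≤ N)
    (hl : ∀ t, 1 ≤ t → t ≤ N → (l t).card = 4) :
    ∃ W : ℕ → ℕ, W 0 = c ∧ (∀ t, 1 ≤ t → t ≤ N → W t ∈ l t) ∧ ¬ cyc N W := by
  refine main (f := ff N) (pc := pp N) N (ww N) (BB N) hl ?_ ?_ ?_ ?_ ?_ ?_ ?_
  · rintro ⟨a, b, c, d, e, h⟩
    by_cases h12 : N < 12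
    · exact topGs N h12 hN a b c d e h
    · unfold ff; rw [if_pos (by omega), Nat.sub_self]; exact topF a b c d e h
  · intro k hk
    by_cases h6 : 6 ≤ k
    · have e1 : ff N (k+1) = Fj (N - k - 1) := by
        funext s; unfold ff; rw [if_pos (by omega)]; congr 1
      have e2 : ff N k = Fj (N - k - 1 + 1) := by
        funext s; unfold ff; rw [if_pos h6]; congr 1; omega
      have e3 : ww N k = wj (N - k - 1 + 1) := by unfold ww; rw [if_pos h6]; congr 1; omega
      have e4 : pp N (k+1) = pj (N - k - 1) := by unfold pp; rw [if_pos (by omega)]; congr 1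
      rw [e1, e2, e3, e4]
      generalize N - k - 1 = j
      by_cases hj : j < 6
      · exact (okF j hj).ok
      · have := okSteady.ok.scale (2 ^ (j - 6))
        have a1 : Fj j = fun s => 2 ^ (j - 6) * tb (tF.getD 6 0) s := by
          funext s; unfold Fj; rw [if_neg hj]
        have a2 : Fj (j+1) = fun s => 2 ^ (j - 6) * (2 * tb (tF.getD 6 0) s) := by
          funext s; unfold Fj
          rw [if_neg (by omega), show j + 1 - 6 = (j - 6) + 1 by omega, pow_succ]; ring
        have a3 : wj (j+1) = 2 ^ (j - 6) * 27 := by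
          unfold wj; rw [if_neg (by omega), show j + 1 - 7 = j - 6 by omega]
        have a4 : pj j = 2 ^ (j - 6) * 19 := by unfold pj; rw [if_neg hj]
        rw [a1, a2, a3, a4]; exact this
    by_cases h12 : N < 12
    · exact (okGs N h12 hN k (by omega) hk).ok
    · have := (okGi k (by omega)).ok.scale (2 ^ (N - 12))
      have a1 : ff N (k+1) = fun s => 2 ^ (N - 12) * Gi (k+1) s := by
        funext s; unfold ff
        by_cases h5 : 6 ≤ k + 1
        · rw [if_pos h5]; unfold Fj Gi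
          rw [if_neg (by omega), if_neg (by omega), show N - (k+1) - 6 = N - 12 by omega]
        · rw [if_neg h5, if_neg (by omega)]
      have a2 : ff N k = fun s => 2 ^ (N - 12) * Gi k s := by
        funext s; unfold ff; rw [if_neg h6, if_neg (by omega)]
      have a3 : ww N k = 2 ^ (N - 12) * wi k := by unfold ww; rw [if_neg h6, if_neg (by omega)]
      have a4 : pp N (k+1) = 2 ^ (N - 12) * 4096 := by unfold pp; rw [if_neg (by omega)]
      rw [a1, a2, a3, a4]; exact this
  · intro k h7 _ s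
    unfold ff BB; rw [if_pos (by omega)]; exact Fj_le _ s
  · intro k0 hk0
    by_cases h6 : 6 ≤ k0
    · have a := sum_reflect_le N (k0 + 3) (fun k => k0 + 3 < k + 1 ∧ k + 1 ≤ 2 * k0 + 1)
        (fun k hk => by omega)
      have b := wj_ge (N - k0)
      rw [show N - k0 - 3 = N - (k0 + 3) by omega] at b
      unfold ww BB; rw [if_pos h6]; omega
    by_cases h12 : N < 12
    · exact hwGs N h12 hN k0 (by omega) hk0
    · obtain ⟨n, rfl⟩ : ∃ n, N = n + 12 := ⟨N - 12, by omega⟩
      unfold ww wi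
      rw [if_neg h6, if_neg (by omega), Nat.add_sub_cancel, mul_add, Finset.mul_sum]
      have d : 1 ≤ 2 ^ n := Nat.one_le_two_pow
      have b := Lp_le (n + 12 - k0)
      have e : (∑ k ∈ range (n + 12), if k0 + 3 < k + 1 ∧ k + 1 ≤ 2 * k0 + 1 then BB (n+12) (k+1) else 0) ≤
          ∑ k ∈ range 12, 2 ^ n * (if k0 + 3 < k + 1 ∧ k + 1 ≤ 2 * k0 + 1 then 3 * 2 ^ (10 - k) else 0) := by
        rw [← Finset.sum_subset (Finset.range_subset_range.2 (by omega : 12 ≤ n + 12))]
        · refine Finset.sum_le_sum (fun k _ => ?_)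
          split_ifs with h
          · have := Bj_le (n + 12 - (k+1))
            rw [show n + 12 - (k+1) = n + (10 - k) + 1 by omega, pow_succ, pow_add] at this
            unfold BB
            rw [show n + 12 - (k+1) = n + (10 - k) + 1 by omega]
            nlinarith
          · simp
        · intro k _ hk
          rw [if_neg]
          intro h
          exact hk (Finset.mem_range.2 (by omega))
      omega
  · intro k0 hk0
    by_cases h6 : 6 ≤ k0
    · have b := pj_ge (N - (k0 + 1))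
      have e : (∑ k ∈ range N, if k0 + 3 = k ∧ 6 ≤ k0 then BB N (k+1) else 0) =
          if 3 ≤ N - (k0 + 1) then Bj (N - (k0 + 1) - 3) else 0 := by
        simp only [h6, and_true]
        rw [Finset.sum_ite_eq]
        unfold BB
        by_cases h3 : 3 ≤ N - (k0 + 1)
        · rw [if_pos (Finset.mem_range.2 (by omega)), if_pos h3]; congr 1
        · rw [if_neg (fun hh => h3 (by have := Finset.mem_range.1 hh; omega)), if_neg h3]
      have e2 : pp N (k0+1) = pj (N - (k0+1)) := by unfold pp; rw [if_pos (by omega)]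
      rw [e, if_pos h6, e2]; omega
    · simp [h6]
  · intro i h1 h6 hN' s
    have e2 : pp N i = 2 ^ (N - 12) * 4096 := by unfold pp; rw [if_neg (by omega)]
    rw [e2]
    unfold ff
    have d : 1 ≤ 2 ^ (N - 12) := Nat.one_le_two_pow
    split_ifs with a b
    · unfold Fj
      split_ifs with a2
      · have := tb_le (tF.getD (N - i) 0) s; omega
      · rw [show N - i - 6 = N - 12 by omega]; exact Nat.mul_le_mul_left _ (tb_le _ _)
    · have := tb_le (tGs.getD (6 * N + i) 0) s; omega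
    · refine Nat.mul_le_mul_left _ ?_
      unfold Gi; split_ifs <;> exact tb_le _ _
  · by_cases h12 : N < 12
    · exact posGs N h12 hN
    · unfold ff; rw [if_neg (by omega), if_neg (by omega)]
      exact Nat.mul_pos (by positivity) posGi

end Pool.Agent.H22.NonRep
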