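import Mathlib
import Pool.Agent.H22.NonRep4

set_option autoImplicit false
set_option maxRecDepth 100000

namespace Pool.Agent.H22.NonRep
open Finset SimpleGraph

lemma fwd {M : ℕ} (g : ℕ → Fin (M+2)) (len : ℕ) (h : ∀ i, i < len → g (i+1) = g i + 1) :
    ∀ i, i ≤ len → (g i).val = ((g 0).val + i) % (M+2) := by
  intro i
  induction i with
  | zero => intro _; exact (Nat.mod_eq_of_lt (g 0).isLt).symm
  | succ i ih =>
    intro hi
    rw [h i (by omega), Fin.val_add, ih (by omega), Fin.val_one, Nat.mod_add_mod, Nat.add_assoc]

lemma dir {M : ℕ} {u v : Fin (M+2)} (p : (cycleGraph (M+2)).Walk u v) (hp : p.IsPath) :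
    (∀ i, i < p.length → p.getVert (i+1) = p.getVert i + 1) ∨
      (∀ i, i < p.length → p.getVert i = p.getVert (i+1) + 1) := by
  have adj : ∀ i, i < p.length →
      p.getVert (i+1) = p.getVert i + 1 ∨ p.getVert i = p.getVert (i+1) + 1 := by
    intro i hi
    rcases cycleGraph_adj.1 (p.adj_getVert_succ hi) with h | h
    · right; rw [← h]; abel
    · left; rw [← h]; abel
  have inj : ∀ i, i + 2 ≤ p.length → p.getVert i ≠ p.getVert (i+2) := by
    intro i hi e
    have := hp.getVert_injOn (by simp only [Set.mem_ofPred_eq]; omega)
      (by simp only [Set.mem_ofPred_eq]; omega) e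
    omega
  by_cases h0 : p.length = 0
  · left; intro i hi; omega
  rcases adj 0 (by omega) with a | a
  · left
    intro i
    induction i with
    | zero => intro _; exact a
    | succ i ih =>
      intro hi
      rcases adj (i+1) hi with b | b
      · exact b
      · exact absurd (add_right_cancel ((ih (by omega)).symm.trans b)) (inj i (by omega))
  · right
    intro i
    induction i with
    | zero => intro _; exact a
    | succ i ih =>
      intro hi
      rcases adj (i+1) hi with b | b
      · exact absurd ((ih (by omega)).trans b.symm) (inj i (by omega))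
      · exact b

theorem cycles (n : ℕ) (hn : 3 ≤ n) (L : Fin n → Finset ℕ) (hL : ∀ v, 4 ≤ (L v).card) :
    ∃ c : Fin n → ℕ, (∀ v, c v ∈ L v) ∧
      ∀ (u v : Fin n) (p : (SimpleGraph.cycleGraph n).Walk u v),
        p.IsPath → Even p.support.length →
          (p.support.map c).take (p.support.length / 2) ≠
            (p.support.map c).drop (p.support.length / 2) := by
  obtain ⟨M, rfl⟩ : ∃ M, n = M + 2 := ⟨n - 2, by omega⟩
  choose L' hL1 hL2 using fun v => Finset.exists_subset_card_eq (hL v)
  obtain ⟨c0, hc0⟩ : (L' 0).Nonempty := Finset.card_pos.1 (by rw [hL2]; norm_num)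
  obtain ⟨W, w0, w1, w2⟩ := exists_word (M+1) c0
    (fun t => if h : t < M + 2 then L' ⟨t, h⟩ else ∅) (by omega)
    (fun t _ t2 => by rw [dif_pos (by omega)]; exact hL2 _)
  refine ⟨fun v => W v.val, fun v => ?_, fun u v p hp he hq => w2 ?_⟩
  · by_cases h0 : v = 0
    · subst h0; exact hL1 0 (by simpa [w0] using hc0)
    · have h1 : 1 ≤ v.val := Nat.pos_of_ne_zero (fun e => h0 (Fin.ext e))
      have := w1 v.val h1 (by omega)
      rw [dif_pos v.isLt] at this
      exact hL1 v this
  obtain ⟨m, hm⟩ := he
  have hlen := p.length_support
  have hlt := hp.length_lt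
  rw [Fintype.card_fin] at hlt
  have h2 : p.support.length / 2 = m := by omega
  rw [h2] at hq
  have sq : ∀ i, i < m → W (p.getVert i).val = W (p.getVert (i + m)).val := by
    intro i hi
    have := congrArg (fun z => z[i]?) hq
    simp only [List.getElem?_take, List.getElem?_drop, List.getElem?_map, if_pos hi] at this
    rw [List.getElem?_eq_getElem (by omega), List.getElem?_eq_getElem (by omega),
      Walk.support_getElem_eq_getVert, Walk.support_getElem_eq_getVert] at this
    rw [Nat.add_comm i m]
    simpa using this
  rcases dir p hp with d | d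
  · have f := fwd p.getVert p.length d
    refine ⟨(p.getVert 0).val, m, by omega, by omega, by omega, fun i hi => ?_⟩
    have f1 := f i (by omega)
    have f2 := f (i + m) (by omega)
    rw [← Nat.add_assoc] at f2
    have := sq i hi
    rw [f1, f2] at this
    exact this
  · have f := fwd (fun i => p.getVert (p.length - i)) p.length (fun i hi => by
      have := d (p.length - (i+1)) (by omega)
      rw [show p.length - (i+1) + 1 = p.length - i by omega] at this
      exact this)
    refine ⟨(p.getVert (p.length - 0)).val, m, by omega, by omega, by omega, fun i hi => ?_⟩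
    have f1 := f i (by omega)
    have f2 := f (i + m) (by omega)
    rw [← Nat.add_assoc] at f2
    have := sq (p.length - (i + m)) (by omega)
    rw [show p.length - (i + m) + m = p.length - i by omega] at this
    rw [f1, f2] at this
    exact this.symm

end Pool.Agent.H22.NonRep
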