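import Pool.Agent.H38.NP.Defs

/-!
Preemptive scheduling of jobs of equal length on two identical machines, total weighted tardiness.
-/

namespace Pool.Agent.H22.P2

open Pool.Agent.H38.NP

/-- A piece of work: job, machine, start time, end time. -/
abbrev Piece := ℕ × Bool × ℝ × ℝ

/-- A preemptive schedule of the jobs `0, ..., n - 1` of length `p` on two machines: a finite set
of pieces; pieces of one job, and pieces on one machine, do not overlap in time; the pieces of
each job have total length `p`. -/
def Sched (n p : ℕ) (S : Finset Piece) : Prop :=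
  (∀ x ∈ S, x.1 < n ∧ 0 ≤ x.2.2.1 ∧ x.2.2.1 < x.2.2.2) ∧
  (∀ x ∈ S, ∀ y ∈ S, x ≠ y → (x.1 = y.1 ∨ x.2.1 = y.2.1) →
    x.2.2.2 ≤ y.2.2.1 ∨ y.2.2.2 ≤ x.2.2.1) ∧
  ∀ j < n, ∑ x ∈ S with x.1 = j, (x.2.2.2 - x.2.2.1) = (p : ℝ)

/-- Completion time of job `j`: the largest end time of its pieces. -/
noncomputable def compl (S : Finset Piece) (j : ℕ) : ℝ :=
  (S.filter fun x => x.1 = j).fold max 0 fun x => x.2.2.2

/-- Total weighted tardiness; the jobs are given as pairs (weight, due date) in binary. -/
noncomputable def cost (J : List (Bin × Bin)) (S : Finset Piece) : ℝ :=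
  ∑ j : Fin J.length, (J[j].1.val : ℝ) * max 0 (compl S j - J[j].2.val)

/-- The values of the objective over all preemptive schedules. -/
def Values (p : ℕ) (J : List (Bin × Bin)) : Set ℝ := {c | ∃ S, Sched J.length p S ∧ cost J S = c}

/-- The decision problem for processing time `p`. -/
def Yes (p : ℕ) (I : List (Bin × Bin) × Bin) : Prop := ∃ c ∈ Values p I.1, c ≤ (I.2.val : ℝ)

end Pool.Agent.H22.P2
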