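import Pool.Agent.H22.P2Defs

/-!
Completion times of two-machine preemptive schedules, and their rounding.
-/

namespace Pool.Agent.H22.P2

open Finset Pool.Agent.H38.NP

theorem len_le (g : ℝ → ℝ) (hg : Monotone g) (T : Finset Piece) (a : ℝ)
    (h1 : ∀ x ∈ T, a ≤ x.2.2.1 ∧ x.2.2.1 < x.2.2.2)
    (h2 : ∀ x ∈ T, ∀ y ∈ T, x ≠ y → x.2.2.2 ≤ y.2.2.1 ∨ y.2.2.2 ≤ x.2.2.1) :
    ∀ b, a ≤ b → (∀ x ∈ T, x.2.2.2 ≤ b) → ∑ x ∈ T, (g x.2.2.2 - g x.2.2.1) ≤ g b - g a := by
  classical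
  induction T using Finset.induction_on_max_value (fun x : Piece => x.2.2.2) with
  | empty => intro b hb _; simpa using hg hb
  | insert x T hx hm ih =>
    intro b _ h3
    rw [sum_insert hx]
    have := ih (fun y hy => h1 y (mem_insert_of_mem hy))
      (fun y hy z hz => h2 y (mem_insert_of_mem hy) z (mem_insert_of_mem hz)) x.2.2.1
      (h1 x (mem_insert_self _ _)).1 fun y hy => by
        rcases h2 y (mem_insert_of_mem hy) x (mem_insert_self _ _)
          (by rintro rfl; exact hx hy) with h | h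
        · exact h
        · have := (h1 y (mem_insert_of_mem hy)).2
          have := hm y hy
          linarith
    have := hg (h3 x (mem_insert_self _ _))
    linarith

theorem le_compl {S : Finset Piece} {x : Piece} (hx : x ∈ S) : x.2.2.2 ≤ compl S x.1 :=
  (Finset.le_fold_max _).2 (Or.inr ⟨x, mem_filter.2 ⟨hx, rfl⟩, le_rfl⟩)

theorem compl_nonneg (S : Finset Piece) (j : ℕ) : 0 ≤ compl S j :=
  (Finset.le_fold_max _).2 (Or.inl le_rfl)

theorem work_le {n p : ℕ} {S : Finset Piece} (hS : Sched n p S) (J : Finset ℕ)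
    (hJ : ∀ j ∈ J, j < n) (k : ℕ) {T1 T2 : ℝ} (h0 : 0 ≤ T1) (h12 : T1 ≤ T2)
    (hk : compl S k ≤ T2) (h1 : ∀ j ∈ J, j ≠ k → compl S j ≤ T1) :
    (J.card : ℝ) * p ≤ T1 + T2 := by
  classical
  obtain ⟨s1, s2, s3⟩ := hS
  have e1 : (J.card : ℝ) * p = ∑ x ∈ S with x.1 ∈ J, (x.2.2.2 - x.2.2.1) := by
    rw [← sum_fiberwise_of_maps_to (s := S.filter fun x => x.1 ∈ J) (t := J) (g := fun x => x.1)
      fun x hx => (mem_filter.1 hx).2, ← nsmul_eq_mul, ← sum_const]
    refine sum_congr rfl fun j hj => ?_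
    rw [← s3 j (hJ j hj), filter_filter]
    refine sum_congr (filter_congr fun x _ => ⟨fun h => ⟨h ▸ hj, h⟩, fun h => h.2⟩) fun _ _ => rfl
  have hb : ∀ x ∈ S, x.1 ∈ J → x.2.2.2 ≤ T2 := fun x hx hj => by
    by_cases e : x.1 = k
    · exact (le_compl hx).trans (e ▸ hk)
    · exact (le_compl hx).trans ((h1 _ hj e).trans h12)
  have a1 : ∀ m : Bool, ∑ x ∈ S with x.1 ∈ J ∧ x.2.1 = m,
      (min x.2.2.2 T1 - min x.2.2.1 T1) ≤ T1 := by
    intro m
    have := len_le (fun t => min t T1) (fun _ _ h => min_le_min_right _ h)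
      (S.filter fun x => x.1 ∈ J ∧ x.2.1 = m) 0
      (fun x hx => (s1 x (mem_filter.1 hx).1).2)
      (fun x hx y hy hne => s2 x (mem_filter.1 hx).1 y (mem_filter.1 hy).1 hne
        (Or.inr ((mem_filter.1 hx).2.2.trans (mem_filter.1 hy).2.2.symm))) T2 (h0.trans h12)
      fun x hx => hb x (mem_filter.1 hx).1 (mem_filter.1 hx).2.1
    simpa [min_eq_right h12, min_eq_left h0] using this
  have a2 : ∑ x ∈ S with x.1 ∈ J ∧ x.1 = k, (max x.2.2.2 T1 - max x.2.2.1 T1) ≤ T2 - T1 := by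
    have := len_le (fun t => max t T1) (fun _ _ h => max_le_max_right _ h)
      (S.filter fun x => x.1 ∈ J ∧ x.1 = k) 0
      (fun x hx => (s1 x (mem_filter.1 hx).1).2)
      (fun x hx y hy hne => s2 x (mem_filter.1 hx).1 y (mem_filter.1 hy).1 hne
        (Or.inl ((mem_filter.1 hx).2.2.trans (mem_filter.1 hy).2.2.symm))) T2 (h0.trans h12)
      fun x hx => hb x (mem_filter.1 hx).1 (mem_filter.1 hx).2.1
    simpa [max_eq_left h12, max_eq_right h0] using this
  have a3 : ∑ x ∈ S with x.1 ∈ J, (x.2.2.2 - x.2.2.1) =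
      ∑ x ∈ S with x.1 ∈ J ∧ x.2.1 = true, (min x.2.2.2 T1 - min x.2.2.1 T1) +
      ∑ x ∈ S with x.1 ∈ J ∧ x.2.1 = false, (min x.2.2.2 T1 - min x.2.2.1 T1) +
      ∑ x ∈ S with x.1 ∈ J ∧ x.1 = k, (max x.2.2.2 T1 - max x.2.2.1 T1) := by
    simp only [sum_filter, ← sum_add_distrib]
    refine sum_congr rfl fun x hx => ?_
    by_cases hj : x.1 ∈ J
    swap
    · simp [hj]
    have b1 := min_add_max x.2.2.2 T1
    have b2 := min_add_max x.2.2.1 T1
    by_cases e : x.1 = k
    · cases hm : x.2.1 <;> simp [e ▸ hj, e] <;> linarith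
    · have b3 := (le_compl hx).trans (h1 _ hj e)
      have b4 := (s1 x hx).2.2.le.trans b3
      cases hm : x.2.1 <;> simp [hj, e, min_eq_left b3, min_eq_left b4]
  have := a1 true
  have := a1 false
  linarith

theorem sum_div (N : ℕ) (hN : 0 < N) (a : ℕ) : ∑ t ∈ range N, (a + t) / N = a := by
  induction a with
  | zero => exact sum_eq_zero fun t ht => by simpa using Or.inr (mem_range.1 ht)
  | succ a ih =>
    have h1 := sum_range_succ (fun t => (a + t) / N) N
    have h2 := sum_range_succ' (fun t => (a + t) / N) N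
    rw [Nat.add_div_right _ hN] at h1
    simp only [add_zero] at h2
    have h3 : ∑ t ∈ range N, (a + 1 + t) / N = ∑ t ∈ range N, (a + (t + 1)) / N :=
      sum_congr rfl fun t _ => by rw [Nat.add_assoc, Nat.add_comm 1]
    omega

theorem sum_div_le (N : ℕ) (hN : 0 < N) (a P D : ℕ) :
    ∑ t ∈ range N, (P + (a + t) / N - D) ≤ N * P + a - N * D := by
  by_cases h : D ≤ P + a / N
  · have h1 : ∑ t ∈ range N, (P + (a + t) / N - D + D) = ∑ t ∈ range N, (P + (a + t) / N) :=
      sum_congr rfl fun t _ => by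
        have := Nat.div_le_div_right (c := N) (Nat.le_add_right a t); omega
    simp only [sum_add_distrib, sum_const, card_range, smul_eq_mul, sum_div N hN] at h1
    omega
  · rw [sum_eq_zero]
    · exact Nat.zero_le _
    · intro t ht
      have := Nat.div_le_div_right (c := N) (show a + t ≤ a + N from
        Nat.add_le_add_left (mem_range.1 ht).le _)
      rw [Nat.add_div_right _ hN] at this
      omega

/-- integer slot offsets -/
def Slots (p n : ℕ) (u : ℕ → ℕ) : Prop :=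
  (∀ i, u i ≤ p) ∧ u 0 = 0 ∧ ∀ i < n, p ≤ u i + u (i + 1)

theorem round {p n M : ℕ} (w d : ℕ → ℕ) (c : ℕ → ℝ) (h0 : c 0 = 0)
    (h1 : ∀ i < n, c i ≤ c (i + 1)) (h2 : ∀ i < n, ((i + 1 : ℕ) : ℝ) * p ≤ c i + c (i + 1))
    (h3 : 2 * ∑ i ∈ range n, (w i : ℝ) * max 0 (c (i + 1) - d i) < M + 1) :
    ∃ u, Slots p n u ∧ ∑ i ∈ range n, w i * ((i + 1) * p + u (i + 1) - 2 * d i) ≤ M := by
  set F := 2 * ∑ i ∈ range n, (w i : ℝ) * max 0 (c (i + 1) - d i) with hF
  obtain ⟨N, hN⟩ := exists_nat_gt ((∑ i ∈ range n, (w i : ℝ)) / (M + 1 - F))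
  have hW : 0 ≤ ∑ i ∈ range n, (w i : ℝ) := sum_nonneg fun _ _ => by positivity
  have hN0 : 0 < N := by
    have := (div_nonneg hW (by linarith : 0 ≤ M + 1 - F)).trans_lt hN
    exact_mod_cast this
  rw [div_lt_iff₀ (by linarith)] at hN
  let a : ℕ → ℕ := fun i => min (N * p) ⌈N * (2 * c i - i * p)⌉₊
  let u : ℕ → ℕ → ℕ := fun t i => (a i + if i % 2 = 0 then t else N - 1 - t) / N
  have hpos : ∀ i ≤ n, 0 ≤ 2 * c i - i * p := by
    intro i hi
    cases i with
    | zero => simp [h0]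
    | succ i => have := h1 i hi; have := h2 i hi; linarith
  have ha : ∀ i < n, N * p ≤ a i + a (i + 1) := by
    intro i hi
    have b1 := Nat.le_ceil (N * (2 * c i - i * p))
    have b2 := Nat.le_ceil (N * (2 * c (i + 1) - ((i + 1 : ℕ) : ℝ) * p))
    have b3 := mul_le_mul_of_nonneg_left (h2 i hi) (show (0 : ℝ) ≤ N by positivity)
    have : N * p ≤ ⌈N * (2 * c i - i * p)⌉₊ + ⌈N * (2 * c (i + 1) - ((i + 1 : ℕ) : ℝ) * p)⌉₊ := by
      have : ((N * p : ℕ) : ℝ) ≤ ⌈N * (2 * c i - i * p)⌉₊ +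
          ⌈N * (2 * c (i + 1) - ((i + 1 : ℕ) : ℝ) * p)⌉₊ := by
        push_cast at b2 b3 ⊢; nlinarith
      exact_mod_cast this
    simp only [a]; omega
  have hs : ∀ t < N, Slots p n (u t) := by
    intro t ht
    refine ⟨fun i => ?_, ?_, fun i hi => ?_⟩
    · refine Nat.lt_succ_iff.1 ((Nat.div_lt_iff_lt_mul hN0).2 ?_)
      have : a i ≤ N * p := min_le_left _ _
      rw [Nat.succ_mul, mul_comm p]
      split_ifs <;> omega
    · simp [u, a, h0, ht]
    · have b0 := ha i hi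
      have b1 := Nat.lt_div_mul_add (a := a i + if i % 2 = 0 then t else N - 1 - t) hN0
      have b2 := Nat.lt_div_mul_add
        (a := a (i + 1) + if (i + 1) % 2 = 0 then t else N - 1 - t) hN0
      change _ < u t i * N + N at b1
      change _ < u t (i + 1) * N + N at b2
      by_contra hc
      have b3 := Nat.mul_le_mul_right N (show u t i + u t (i + 1) + 1 ≤ p by omega)
      rw [Nat.add_mul, Nat.add_mul, mul_comm p] at b3
      split_ifs at b1 b2 <;> omega
  by_contra hc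
  push Not at hc
  have k1 : ∑ t ∈ range N, (M + 1) ≤
      ∑ t ∈ range N, ∑ i ∈ range n, w i * ((i + 1) * p + u t (i + 1) - 2 * d i) :=
    sum_le_sum fun t ht => hc _ (hs t (mem_range.1 ht))
  rw [sum_comm, sum_const, card_range, smul_eq_mul] at k1
  have k2 : ∀ i ∈ range n, ((∑ t ∈ range N, w i * ((i + 1) * p + u t (i + 1) - 2 * d i) : ℕ) : ℝ) ≤
      N * (2 * (w i * max 0 (c (i + 1) - d i))) + w i := by
    intro i hi
    have b1 : ∑ t ∈ range N, ((i + 1) * p + u t (i + 1) - 2 * d i) ≤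
        N * ((i + 1) * p) + a (i + 1) - N * (2 * d i) := by
      refine le_trans (le_of_eq ?_) (sum_div_le N hN0 _ _ _)
      by_cases e : (i + 1) % 2 = 0
      · simp only [u, e, if_true]
      · simp only [u, e, if_false]
        exact sum_range_reflect (fun t => (i + 1) * p + (a (i + 1) + t) / N - 2 * d i) N
    have b2 : (a (i + 1) : ℝ) ≤ N * (2 * c (i + 1) - ((i + 1 : ℕ) : ℝ) * p) + 1 :=
      (Nat.cast_le.2 (min_le_right _ _)).trans
        (Nat.ceil_lt_add_one (mul_nonneg (by positivity) (hpos _ (mem_range.1 hi)))).le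
    have b3 : ((N * ((i + 1) * p) + a (i + 1) - N * (2 * d i) : ℕ) : ℝ) ≤
        N * (2 * max 0 (c (i + 1) - d i)) + 1 := by
      have b4 := mul_le_mul_of_nonneg_left (le_max_left 0 (c (i + 1) - d i))
        (show (0 : ℝ) ≤ N by positivity)
      have b5 := mul_le_mul_of_nonneg_left (le_max_right 0 (c (i + 1) - d i))
        (show (0 : ℝ) ≤ N by positivity)
      rcases le_total (N * (2 * d i)) (N * ((i + 1) * p) + a (i + 1)) with h | h
      · rw [Nat.cast_sub h]; push_cast at b2 ⊢; linarith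
      · rw [Nat.sub_eq_zero_of_le h]; push_cast; linarith
    rw [← mul_sum]
    have b6 := mul_le_mul_of_nonneg_left ((Nat.cast_le.2 b1).trans b3)
      (show (0 : ℝ) ≤ w i by positivity)
    push_cast at b6 ⊢
    linarith
  have k3 := sum_le_sum k2
  rw [← Nat.cast_sum, sum_add_distrib, ← mul_sum, ← mul_sum, ← hF] at k3
  have k4 : ((N * (M + 1) : ℕ) : ℝ) ≤ _ := (Nat.cast_le.2 k1).trans k3
  push_cast at k4
  linarith

end Pool.Agent.H22.P2
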