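import Pool.Agent.H22.P2a

/-!
Preemptive schedules versus orders of the jobs with integer slots.
-/

namespace Pool.Agent.H22.P2

open Finset Pool.Agent.H38.NP

/-- weight in binary, doubled due date -/
abbrev Job := Bin × ℕ

def cst (z : ℕ → ℕ) : ℕ → List Job → ℕ
  | _, [] => 0
  | s, j :: l => j.1.val * (z s - j.2) + cst z (s + 1) l

def zz (p : ℕ) (u : ℕ → ℕ) (i : ℕ) : ℕ := (i + 1) * p + u (i + 1)

theorem sum_getD {M : Type} [AddCommMonoid M] (g : ℕ → M) (σ : List ℕ) :
    (σ.map g).sum = ∑ i ∈ range σ.length, g (σ.getD i 0) := by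
  induction σ with
  | nil => simp
  | cons a σ ih => rw [List.length_cons, sum_range_succ', List.map_cons, List.sum_cons, ih, add_comm]; rfl

theorem sum_perm {M : Type} [AddCommMonoid M] (g : ℕ → M) {σ : List ℕ} {n : ℕ}
    (h : σ.Perm (List.range n)) : ∑ j ∈ range n, g j = ∑ i ∈ range n, g (σ.getD i 0) := by
  have := sum_getD g σ
  rw [h.length_eq, List.length_range, (h.map g).sum_eq] at this
  exact this

theorem cst_eq (z : ℕ → ℕ) (f : ℕ → Job) (σ : List ℕ) (s : ℕ) : cst z s (σ.map f) =
    ∑ i ∈ range σ.length, (f (σ.getD i 0)).1.val * (z (s + i) - (f (σ.getD i 0)).2) := by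
  induction σ generalizing s with
  | nil => simp [cst]
  | cons a σ ih =>
    rw [List.length_cons, sum_range_succ', List.map_cons, cst, ih, add_comm]
    congr 1
    exact sum_congr rfl fun i _ => by rw [Nat.add_assoc, Nat.add_comm 1]; rfl

def conv (B : ℕ) (j : Bin × Bin) : Job := (j.1, min B (2 * j.2.val))

def jb (J : List (Bin × Bin)) (j : ℕ) : Bin × Bin := J.getD j (⟨0⟩, ⟨0⟩)

theorem cost_eq (J : List (Bin × Bin)) (S : Finset Piece) : cost J S =
    ∑ j ∈ range J.length, ((jb J j).1.val : ℝ) * max 0 (compl S j - (jb J j).2.val) := by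
  rw [cost, sum_range]
  exact sum_congr rfl fun j _ => by simp [jb]

theorem map_jb (J : List (Bin × Bin)) : (List.range J.length).map (jb J) = J := by
  refine List.ext_getElem (by simp) fun i h1 h2 => ?_
  simp [jb, h2]

theorem map_conv (B : ℕ) (J : List (Bin × Bin)) :
    J.map (conv B) = (List.range J.length).map fun i => conv B (jb J i) := by
  conv_lhs => rw [← map_jb J, List.map_map]
  rfl

/-- the discrete problem -/
def Disc (p : ℕ) (J : List (Bin × Bin)) (M : ℕ) : Prop :=
  ∃ l : List Job, l.Perm (J.map (conv ((J.length + 1) * p))) ∧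
    ∃ u, Slots p J.length u ∧ cst (zz p u) 0 l ≤ M

theorem zz_clip {p n : ℕ} {u : ℕ → ℕ} (hu : ∀ i, u i ≤ p) {i : ℕ} (hi : i < n) (d : ℕ) :
    zz p u i - min ((n + 1) * p) d = (i + 1) * p + u (i + 1) - d := by
  have h1 := Nat.mul_le_mul_right p (show i + 1 + 1 ≤ n + 1 by omega)
  have h2 := hu (i + 1)
  rw [Nat.succ_mul (i + 1)] at h1
  unfold zz; omega

theorem disc_of_sched {p M : ℕ} {J : List (Bin × Bin)} {S : Finset Piece}
    (hS : Sched J.length p S) (hc : 2 * cost J S < M + 1) : Disc p J M := by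
  classical
  set n := J.length with hn
  let σ := (List.range n).mergeSort fun a b => decide (compl S a ≤ compl S b)
  have hp : σ.Perm (List.range n) := List.mergeSort_perm _ _
  have hl : σ.length = n := by rw [hp.length_eq, List.length_range]
  have hs : σ.Pairwise fun a b => compl S a ≤ compl S b := by
    have := List.pairwise_mergeSort (le := fun a b => decide (compl S a ≤ compl S b))
      (fun a b c => by simp only [decide_eq_true_eq]; exact le_trans)
      (fun a b => by simp only [Bool.or_eq_true, decide_eq_true_eq]; exact le_total _ _)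
      (List.range n)
    simpa using this
  have hmono : ∀ i j, i ≤ j → j < n → compl S (σ.getD i 0) ≤ compl S (σ.getD j 0) := by
    intro i j hij hj
    rw [List.getD_eq_getElem _ _ (by omega), List.getD_eq_getElem _ _ (by omega)]
    rcases hij.lt_or_eq with h | rfl
    · exact List.pairwise_iff_getElem.1 hs i j _ _ h
    · exact le_rfl
  let c : ℕ → ℝ := fun i => if i = 0 then 0 else compl S (σ.getD (i - 1) 0)
  have h1 : ∀ i < n, c i ≤ c (i + 1) := by
    intro i hi
    simp only [c, Nat.add_one_ne_zero, if_false, Nat.add_sub_cancel]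
    split_ifs
    · exact compl_nonneg _ _
    · exact hmono _ _ (by omega) hi
  have hnd : σ.Nodup := hp.nodup_iff.2 List.nodup_range
  obtain ⟨u, hu, hM⟩ := round (p := p) (n := n) (M := M) (fun i => (jb J (σ.getD i 0)).1.val)
    (fun i => (jb J (σ.getD i 0)).2.val) c (by simp [c]) h1 (fun i hi => by
      have := work_le hS (σ.take (i + 1)).toFinset (fun j hj => List.mem_range.1
        (hp.subset (List.mem_of_mem_take (List.mem_toFinset.1 hj)))) (σ.getD i 0)
        (T1 := c i) (T2 := c (i + 1)) (by simp only [c]; split_ifs; exacts [le_rfl, compl_nonneg _ _])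
        (h1 i hi) (by simp [c]) fun j hj hne => by
          obtain ⟨t, ht, rfl⟩ := List.mem_take_iff_getElem.1 (List.mem_toFinset.1 hj)
          have h2 : t ≠ i := by
            rintro rfl; exact hne (List.getD_eq_getElem _ _ (by omega)).symm
          simp only [c]
          rw [if_neg (by omega), ← List.getD_eq_getElem _ 0]
          exact hmono _ _ (by omega) (by omega)
      rwa [List.toFinset_card_of_nodup (hnd.sublist (List.take_sublist _ _)), List.length_take,
        min_eq_left (by omega)] at this)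
    (by
      rw [cost_eq, sum_perm _ hp] at hc
      simpa [c] using hc)
  refine ⟨σ.map fun j => conv ((n + 1) * p) (jb J j), ?_, u, hu, ?_⟩
  · rw [map_conv]
    exact hp.map _
  · rw [cst_eq, hl]
    refine le_trans (le_of_eq (sum_congr rfl fun i hi => ?_)) hM
    simp only [conv, zero_add, zz_clip hu.1 (mem_range.1 hi)]

theorem sched_of_disc {p M : ℕ} {J : List (Bin × Bin)} (h : Disc p J M) :
    ∃ S, Sched J.length p S ∧ 2 * cost J S ≤ M := by
  classical
  obtain ⟨l, hl, u, ⟨u1, u2, u3⟩, hM⟩ := h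
  set n := J.length with hn
  have h1 : List.Forall₂ (fun (a : Job) (i : ℕ) => a = conv ((n + 1) * p) (jb J i))
      (J.map (conv ((n + 1) * p))) (List.range n) := by
    conv_lhs => rw [← map_jb J, List.map_map]
    rw [List.forall₂_map_left_iff]; exact List.forall₂_same.2 fun _ _ => rfl
  obtain ⟨σ, h2, hp⟩ := List.perm_comp_forall₂ hl h1
  have h4 : l = σ.map fun i => conv ((n + 1) * p) (jb J i) := by
    rw [← List.forall₂_eq_eq_eq, List.forall₂_map_right_iff]; exact h2
  have hlen : σ.length = n := by rw [hp.length_eq, List.length_range]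
  have hnd : σ.Nodup := hp.nodup_iff.2 List.nodup_range
  let c : ℕ → ℝ := fun i => ((i : ℝ) * p + u i) / 2
  let x : ℕ → ℝ := fun i => ((i : ℝ) * p - u i) / 2
  have hu : ∀ i, (0 : ℝ) ≤ u i ∧ (u i : ℝ) ≤ p := fun i => ⟨by positivity, by exact_mod_cast u1 i⟩
  have hc : Monotone c := monotone_nat_of_le_succ fun i => by
    have := hu i; have := hu (i + 1); simp only [c]; push_cast; linarith
  have hx : Monotone x := monotone_nat_of_le_succ fun i => by
    have := hu i; have := hu (i + 1); simp only [x]; push_cast; linarith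
  have hxc : ∀ i < n, x (i + 1) ≤ c i := fun i hi => by
    have : (p : ℝ) ≤ u i + u (i + 1) := by exact_mod_cast u3 i hi
    simp only [x, c]; push_cast; linarith
  have hx0 : x 0 = 0 := by simp [x, u2]
  have hc0 : c 0 = 0 := by simp [c, u2]
  let pos : ℕ → ℕ := fun j => σ.idxOf j
  have hpos : ∀ j < n, pos j < n := fun j hj =>
    hlen ▸ List.idxOf_lt_length_of_mem (hp.symm.subset (List.mem_range.2 hj))
  have hinj : ∀ j < n, ∀ j', pos j = pos j' → j = j' := fun j hj j' e =>
    (List.idxOf_inj (hp.symm.subset (List.mem_range.2 hj))).1 e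
  let P : ℕ → Finset Piece := fun j =>
    {(j, false, c (pos j), c (pos j + 1)), (j, true, x (pos j), x (pos j + 1))}
  let S : Finset Piece := ((range n).biUnion P).filter fun y => y.2.2.1 < y.2.2.2
  have hmem : ∀ y ∈ S, y.1 < n ∧ y.2.2.1 < y.2.2.2 ∧
      (y = (y.1, false, c (pos y.1), c (pos y.1 + 1)) ∨
        y = (y.1, true, x (pos y.1), x (pos y.1 + 1))) := by
    intro y hy
    obtain ⟨b1, b2⟩ := mem_filter.1 hy
    obtain ⟨j, hj, b3⟩ := mem_biUnion.1 b1
    simp only [P, mem_insert, mem_singleton] at b3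
    have : y.1 = j := by rcases b3 with e | e <;> rw [e]
    rw [this]
    exact ⟨mem_range.1 hj, b2, b3⟩
  have hdis : ∀ g : ℕ → ℝ, Monotone g → ∀ j < n, ∀ j', j ≠ j' →
      g (pos j + 1) ≤ g (pos j') ∨ g (pos j' + 1) ≤ g (pos j) := by
    intro g hg j hj j' hne
    rcases lt_trichotomy (pos j) (pos j') with h | h | h
    exacts [Or.inl (hg h), absurd (hinj j hj j' h) hne, Or.inr (hg h)]
  refine ⟨S, ⟨fun y hy => ?_, fun y hy y' hy' hne h => ?_, fun j hj => ?_⟩, ?_⟩
  · obtain ⟨b1, b2, b3⟩ := hmem y hy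
    refine ⟨b1, ?_, b2⟩
    rcases b3 with e | e <;> rw [e]
    · exact hc0 ▸ hc (Nat.zero_le _)
    · exact hx0 ▸ hx (Nat.zero_le _)
  · obtain ⟨b1, -, b3⟩ := hmem y hy
    obtain ⟨b4, -, b6⟩ := hmem y' hy'
    by_cases e0 : y.1 = y'.1
    · have b7 := hxc _ (hpos _ b4)
      rw [e0] at b3
      rcases b3 with e | e <;> rcases b6 with e' | e'
      · exact absurd (e.trans e'.symm) hne
      · rw [e, e']; exact Or.inr b7
      · rw [e, e']; exact Or.inl b7
      · exact absurd (e.trans e'.symm) hne
    · have b7 := h.resolve_left e0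
      rcases b3 with e | e <;> rcases b6 with e' | e'
      · rw [e, e']; exact hdis c hc _ b1 _ e0
      · rw [e, e'] at b7; simp at b7
      · rw [e, e'] at b7; simp at b7
      · rw [e, e']; exact hdis x hx _ b1 _ e0
  · have e : S.filter (fun y => y.1 = j) = (P j).filter fun y => y.2.2.1 < y.2.2.2 := by
      ext y
      simp only [mem_filter]
      constructor
      · rintro ⟨hy, rfl⟩
        obtain ⟨-, b2, b3⟩ := hmem y hy
        exact ⟨by simpa only [P, mem_insert, mem_singleton] using b3, b2⟩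
      · rintro ⟨b1, b2⟩
        refine ⟨mem_filter.2 ⟨mem_biUnion.2 ⟨j, mem_range.2 hj, b1⟩, b2⟩, ?_⟩
        simp only [P, mem_insert, mem_singleton] at b1
        rcases b1 with e | e <;> rw [e]
    rw [e, sum_filter, sum_pair (by simp)]
    have b1 := hc (Nat.le_succ (pos j))
    have b2 := hx (Nat.le_succ (pos j))
    have b3 : c (pos j + 1) - c (pos j) + (x (pos j + 1) - x (pos j)) = p := by
      simp only [c, x]; push_cast; ring
    simp only [Nat.succ_eq_add_one] at b1 b2 ⊢
    split_ifs <;> linarith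
  · rw [cost_eq, sum_perm _ hp, mul_sum]
    rw [h4, cst_eq, hlen] at hM
    refine le_trans (sum_le_sum fun i hi => ?_) (Nat.cast_sum (R := ℝ) _ _ ▸ Nat.cast_le.2 hM)
    have hi' := mem_range.1 hi
    have b0 : pos (σ.getD i 0) = i := by
      rw [List.getD_eq_getElem _ _ (by omega)]; exact hnd.idxOf_getElem _ _
    have b1 : compl S (σ.getD i 0) ≤ c (i + 1) := by
      refine (Finset.fold_max_le _).2 ⟨hc0 ▸ hc (Nat.zero_le _), fun y hy => ?_⟩
      obtain ⟨b2, b3⟩ := mem_filter.1 hy
      obtain ⟨-, -, b4⟩ := hmem y b2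
      rw [b3, b0] at b4
      rcases b4 with e | e <;> rw [e]
      exact (hxc i hi').trans (hc (Nat.le_succ i))
    simp only [conv, zero_add, zz_clip u1 hi']
    rw [mul_left_comm, Nat.cast_mul]
    refine mul_le_mul_of_nonneg_left ?_ (by positivity)
    have b5 : (((i + 1) * p + u (i + 1) : ℕ) : ℝ) - (2 * (jb J (σ.getD i 0)).2.val : ℕ) ≤
        (((i + 1) * p + u (i + 1) - 2 * (jb J (σ.getD i 0)).2.val : ℕ) : ℝ) := by
      rw [sub_le_iff_le_add, ← Nat.cast_add, Nat.cast_le]; omega
    have b6 : (0 : ℝ) ≤ (((i + 1) * p + u (i + 1) - 2 * (jb J (σ.getD i 0)).2.val : ℕ) : ℝ) := by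
      positivity
    simp only [c] at b1
    push_cast at b1 b5
    rcases le_total 0 (compl S (σ.getD i 0) - (jb J (σ.getD i 0)).2.val) with h | h
    · rw [max_eq_right h]; linarith
    · rw [max_eq_left h]; linarith

end Pool.Agent.H22.P2
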