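import Pool.Agent.H22.P2b

/-!
Decomposition at the lightest job.
-/

namespace Pool.Agent.H22.P2

open Pool.Agent.H38.NP

theorem cst_append (z : ℕ → ℕ) (s : ℕ) (A B : List Job) :
    cst z s (A ++ B) = cst z s A + cst z (s + A.length) B := by
  induction A generalizing s with
  | nil => simp [cst]
  | cons a A ih =>
    rw [List.cons_append, cst, cst, ih, List.length_cons, Nat.add_assoc s, Nat.add_comm 1, Nat.add_assoc]

theorem cst_congr {z z' : ℕ → ℕ} (s : ℕ) (A : List Job)
    (h : ∀ i, s ≤ i → i < s + A.length → z i = z' i) : cst z s A = cst z' s A := by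
  induction A generalizing s with
  | nil => rfl
  | cons a A ih =>
    rw [cst, cst, h s le_rfl (by simp), ih (s + 1) fun i h1 h2 => h i (by omega) (by simp; omega)]

theorem cst_sub {z : ℕ → ℕ} (hz : Monotone z) {A B : List Job} (h : A.Sublist B) :
    ∀ s s', s ≤ s' → cst z s A ≤ cst z s' B := by
  induction h with
  | slnil => intro _ _ _; exact le_rfl
  | cons a _ ih => intro s s' h; rw [cst]; exact (ih s (s' + 1) (by omega)).trans (Nat.le_add_left _ _)
  | cons_cons a _ ih =>
    intro s s' h
    rw [cst, cst]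
    exact Nat.add_le_add (Nat.mul_le_mul_left _ (Nat.sub_le_sub_right (hz h) _))
      (ih _ _ (by omega))

theorem cst_zero {z : ℕ → ℕ} (hz : Monotone z) (A : List Job) (s t : ℕ) (ht : s + A.length ≤ t + 1)
    (h : ∀ j ∈ A, z t ≤ j.2) : cst z s A = 0 := by
  induction A generalizing s with
  | nil => rfl
  | cons a A ih =>
    rw [List.length_cons] at ht
    rw [cst, ih (s + 1) (by omega) fun j hj => h j (List.mem_cons_of_mem _ hj),
      Nat.sub_eq_zero_of_le ((hz (by omega)).trans (h a List.mem_cons_self))]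
    rfl

theorem swap_le {wk wj dk dj t t' : ℕ} (hw : wk ≤ wj) (ht : t ≤ t') (hd : dj ≤ max dk t) :
    wj * (t - dj) + wk * (t' - dk) ≤ wk * (t - dk) + wj * (t' - dj) := by
  obtain ⟨a, ha⟩ : ∃ a, t' - dk = t - dk + a := ⟨t' - dk - (t - dk), by omega⟩
  obtain ⟨b, hb⟩ : ∃ b, t' - dj = t - dj + b := ⟨t' - dj - (t - dj), by omega⟩
  have := Nat.mul_le_mul hw (show a ≤ b by omega)
  rw [ha, hb, mul_add, mul_add]
  omega

theorem lawler {z : ℕ → ℕ} (hz : Monotone z) (k : Job) (s : ℕ) (r : ℕ) :
    ∀ A B : List Job, B.length ≤ r → (∀ j ∈ A ++ B, k.1.val ≤ j.1.val) →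
      ∃ e A' B', k.2 ≤ e ∧ A'.Perm ((A ++ B).filter fun j => j.2 ≤ e) ∧
        B'.Perm ((A ++ B).filter fun j => e < j.2) ∧
        cst z s (A' ++ k :: B') ≤ cst z s (A ++ k :: B) := by
  have fin : ∀ A B : List Job, (∀ j ∈ B, max k.2 (z (s + A.length)) < j.2) →
      ∃ e A' B', k.2 ≤ e ∧ A'.Perm ((A ++ B).filter fun j => j.2 ≤ e) ∧
        B'.Perm ((A ++ B).filter fun j => e < j.2) ∧
        cst z s (A' ++ k :: B') ≤ cst z s (A ++ k :: B) := by
    intro A B h
    set e := max k.2 (z (s + A.length)) with he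
    refine ⟨e, A.filter (fun j => j.2 ≤ e), A.filter (fun j => e < j.2) ++ B, le_max_left _ _,
      ?_, ?_, ?_⟩
    · rw [List.filter_append, (List.filter_eq_nil_iff (l := B)).2 fun j hj => by
        simpa using h j hj, List.append_nil]
    · rw [List.filter_append, (List.filter_eq_self (l := B)).2 fun j hj => by simpa using h j hj]
    · have h1 : (A.filter fun j => j.2 ≤ e).length + (A.filter fun j => e < j.2).length =
          A.length := by
        have := List.length_eq_length_filter_add (l := A) fun j => decide (j.2 ≤ e)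
        simp only [← decide_not, not_le] at this
        exact this.symm
      have h2 := cst_sub hz ((List.filter_sublist (l := A)
        (p := fun j => decide (j.2 ≤ e))).append_right [k]) s s le_rfl
      have h3 := cst_zero hz (A.filter fun j => e < j.2)
        (s + (A.filter fun j => j.2 ≤ e).length + 1) (s + A.length) (by omega) fun j hj => by
          have := (List.mem_filter.1 hj).2
          simp only [decide_eq_true_eq] at this
          omega
      simp only [cst_append, cst] at h2 ⊢
      rw [h3, show s + (A.filter fun j => j.2 ≤ e).length + 1 +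
        (A.filter fun j => e < j.2).length = s + A.length + 1 by omega]
      omega
  induction r with
  | zero =>
    intro A B hB _
    exact fin A B fun j hj => by rw [List.length_eq_zero_iff.1 (Nat.le_zero.1 hB)] at hj; simp at hj
  | succ r ih =>
    intro A B hB hw
    by_cases h : ∀ j ∈ B, max k.2 (z (s + A.length)) < j.2
    · exact fin A B h
    push Not at h
    obtain ⟨j, hj, hd⟩ := h
    obtain ⟨B1, B2, rfl⟩ := List.append_of_mem hj
    have hp : (A ++ j :: B1 ++ B2).Perm (A ++ (B1 ++ j :: B2)) := by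
      rw [List.append_assoc]
      exact List.Perm.append_left _ List.perm_middle.symm
    obtain ⟨e, A', B', h1, h2, h3, h4⟩ := ih (A ++ j :: B1) B2 (by simp at hB; omega)
      fun i hi => hw i (hp.subset hi)
    refine ⟨e, A', B', h1, h2.trans (hp.filter _), h3.trans (hp.filter _), h4.trans ?_⟩
    have := swap_le (hw j (by simp)) (hz (show s + A.length ≤ s + A.length + 1 + B1.length by omega)) hd
    simp only [cst_append, cst, List.length_append, List.length_cons]
    rw [show s + (A.length + (B1.length + 1)) = s + A.length + 1 + B1.length by omega]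
    omega

/-- the jobs of `S` can be placed after position `s`, from offset `x` to offset `y`, at cost `c` -/
def Val (p : ℕ) (S : List Job) (s x y c : ℕ) : Prop :=
  ∃ l : List Job, l.Perm S ∧ ∃ u : ℕ → ℕ, (∀ i, u i ≤ p) ∧ u s = x ∧ u (s + S.length) = y ∧
    (∀ i, s ≤ i → i < s + S.length → p ≤ u i + u (i + 1)) ∧ cst (zz p u) s l ≤ c

theorem zz_mono {p : ℕ} {u : ℕ → ℕ} (hu : ∀ i, u i ≤ p) : Monotone (zz p u) :=
  monotone_nat_of_le_succ fun i => by
    have := hu (i + 1); unfold zz; rw [Nat.succ_mul (i + 1)]; omega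

theorem Val.perm {p S S' s x y c} (h : Val p S s x y c) (e : S.Perm S') : Val p S' s x y c := by
  obtain ⟨l, h1, h2⟩ := h
  exact ⟨l, h1.trans e, e.length_eq ▸ h2⟩

theorem Val.mono {p S s x y c c'} (h : Val p S s x y c) (e : c ≤ c') : Val p S s x y c' := by
  obtain ⟨l, h1, u, h2, h3, h4, h5, h6⟩ := h
  exact ⟨l, h1, u, h2, h3, h4, h5, h6.trans e⟩

theorem val_nil {p s x y c} (hx : x ≤ p) : Val p [] s x y c ↔ x = y := by
  constructor
  · rintro ⟨l, -, u, -, h3, h4, -⟩
    exact h3.symm.trans h4
  · rintro rfl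
    exact ⟨[], List.Perm.refl _, fun _ => x, fun _ => hx, rfl, rfl, fun i h1 h2 => by
      simp at h2; omega, Nat.zero_le _⟩

theorem Val.glue {p S1 S2 s x x1 x2 y c1 c2} (k : Job) (h1 : Val p S1 s x x1 c1)
    (h2 : Val p S2 (s + S1.length + 1) x2 y c2) (h : p ≤ x1 + x2) :
    Val p (k :: (S1 ++ S2)) s x y
      (c1 + k.1.val * ((s + S1.length + 1) * p + x2 - k.2) + c2) := by
  obtain ⟨l1, a1, u1, a2, a3, a4, a5, a6⟩ := h1
  obtain ⟨l2, b1, u2, b2, b3, b4, b5, b6⟩ := h2
  refine ⟨l1 ++ k :: l2, List.perm_middle.trans ((a1.append b1).cons k),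
    fun i => if i ≤ s + S1.length then u1 i else u2 i, fun i => ?_, by simp [a3], ?_,
    fun i e1 e2 => ?_, ?_⟩
  · beta_reduce; split_ifs; exacts [a2 i, b2 i]
  · simp only [List.length_cons, List.length_append]
    rw [if_neg (by omega), ← b4]; congr 1; omega
  · simp only [List.length_cons, List.length_append] at e2
    beta_reduce
    split_ifs with c1 c2 c2
    · exact a5 i e1 (by omega)
    · rw [show i = s + S1.length by omega, a4, b3]; exact h
    · omega
    · exact b5 i (by omega) (by omega)
  · rw [cst_append, cst, a1.length_eq, cst_congr (z' := zz p u1) s l1 fun i _ e => by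
      rw [a1.length_eq] at e; simp only [zz]; rw [if_pos (by omega)],
      cst_congr (z' := zz p u2) _ l2 fun i e _ => by simp only [zz]; rw [if_neg (by omega)]]
    simp only [zz]
    rw [if_neg (by omega), b3]
    omega

theorem Val.split {p S s x y c} {k : Job} (h : Val p (k :: S) s x y c)
    (hw : ∀ j ∈ S, k.1.val ≤ j.1.val) :
    ∃ e x1 x2 c1 c2, k.2 ≤ e ∧ x1 ≤ p ∧ x2 ≤ p ∧ p ≤ x1 + x2 ∧
      Val p (S.filter fun j => j.2 ≤ e) s x x1 c1 ∧
      Val p (S.filter fun j => e < j.2) (s + (S.filter fun j => j.2 ≤ e).length + 1) x2 y c2 ∧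
      c1 + k.1.val * ((s + (S.filter fun j => j.2 ≤ e).length + 1) * p + x2 - k.2) + c2 ≤ c := by
  obtain ⟨l, a1, u, a2, a3, a4, a5, a6⟩ := h
  obtain ⟨A, B, rfl⟩ := List.append_of_mem (a1.symm.subset List.mem_cons_self)
  have hp : (A ++ B).Perm S := (List.perm_middle.symm.trans a1).cons_inv
  obtain ⟨e, A', B', h1, h2, h3, h4⟩ := lawler (zz_mono a2) k s _ A B le_rfl
    fun j hj => hw j (hp.subset hj)
  have h2' := h2.trans (hp.filter _)
  have h3' := h3.trans (hp.filter _)
  have h5 : (S.filter fun j => j.2 ≤ e).length + (S.filter fun j => e < j.2).length =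
      S.length := by
    have := List.length_eq_length_filter_add (l := S) fun j => decide (j.2 ≤ e)
    simp only [← decide_not, not_le] at this
    exact this.symm
  rw [List.length_cons] at a4 a5
  refine ⟨e, u (s + (S.filter fun j => j.2 ≤ e).length),
    u (s + (S.filter fun j => j.2 ≤ e).length + 1), _, _, h1, a2 _, a2 _,
    a5 _ (by omega) (by omega), ⟨A', h2', u, a2, a3, rfl, fun i e1 e2 => a5 i e1 (by omega), le_rfl⟩,
    ⟨B', h3', u, a2, rfl, by rw [← a4]; congr 1; omega,
      fun i e1 e2 => a5 i (by omega) (by omega), le_rfl⟩, ?_⟩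
  refine le_trans (le_of_eq ?_) (h4.trans a6)
  rw [cst_append, cst, h2'.length_eq, Nat.add_assoc]
  rfl

end Pool.Agent.H22.P2
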