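import Pool.Agent.H22.P2c
import Pool.Agent.H38.ER.Big

/-!
The dynamic program.
-/

namespace Pool.Agent.H22.P2

open Pool.Agent.H38.NP Pool.Agent.H38.ER

abbrev Tab := List (List (List (List (List Bin))))

def mkT (D : ℕ) (f : ℕ → ℕ → ℕ → ℕ → ℕ → Bin) : Tab :=
  (List.range D).map fun a => (List.range D).map fun b => (List.range D).map fun s =>
    (List.range D).map fun x => (List.range D).map fun y => f a b s x y

def look (T : Tab) (cap : Bin) (a b s x y : ℕ) : Bin :=
  ((((T.getD a []).getD b []).getD s []).getD x []).getD y cap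

def sel (R : List Job) (a b : ℕ) : List Job := R.filter fun j => decide (a ≤ j.2 ∧ j.2 < b)

def ble (x y : Bin) : Bool := decide (x.val ≤ y.val)
def badd (x y : Bin) : Bin := ⟨x.val + y.val⟩
def bmul (x : Bin) (n : ℕ) : Bin := ⟨x.val * n⟩

def lmin (cap : Bin) (L : List Bin) : Bin :=
  ((cap :: L).find? fun x => (cap :: L).all fun y => ble x y).getD cap

def cand (p : ℕ) (cap : Bin) (k : Job) (R : List Job) (T : Tab) (a b s x y c x1 x2 : ℕ) : Bin :=
  badd (badd (look T cap a c s x x1) (bmul k.1 ((s + (sel R a c).length + 1) * p + x2 - k.2)))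
    (look T cap c b (s + (sel R a c).length + 1) x2 y)

def ent (p : ℕ) (cap : Bin) (k : Job) (R : List Job) (T : Tab) (a b s x y : ℕ) : Bin :=
  lmin cap (if a ≤ k.2 ∧ k.2 < b then
    (List.range (b + 1)).flatMap fun c => (List.range (p + 1)).flatMap fun x1 =>
      (List.range (p + 1)).flatMap fun x2 =>
        if a ≤ c ∧ p ≤ x1 + x2 then [cand p cap k R T a b s x y c x1 x2] else []
  else [look T cap a b s x y])

def tabs (p D : ℕ) (cap : Bin) (L : List Job) : List Job × Tab :=
  L.foldr (fun k st => (k :: st.1, mkT D (ent p cap k st.1 st.2)))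
    ([], mkT D fun _ _ _ x y => lmin cap (if x = y then [⟨0⟩] else []))

theorem look_mkT {D f cap a b s x y} (ha : a < D) (hb : b < D) (hs : s < D) (hx : x < D)
    (hy : y < D) : look (mkT D f) cap a b s x y = f a b s x y := by
  simp [look, mkT, List.getD_eq_getElem?_getD, *]

theorem lmin_spec (cap : Bin) (L : List Bin) :
    lmin cap L ∈ cap :: L ∧ ∀ y ∈ cap :: L, (lmin cap L).val ≤ y.val := by
  obtain ⟨m, h1, h2⟩ := Set.exists_min_image {x | x ∈ cap :: L} Bin.val (List.finite_toSet _)
    ⟨cap, List.mem_cons_self⟩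
  unfold lmin
  cases e : (cap :: L).find? fun x => (cap :: L).all fun y => ble x y with
  | none =>
    have := List.find?_eq_none.1 e m h1
    simp only [List.all_eq_true, ble, decide_eq_true_eq] at this
    exact absurd h2 this
  | some x =>
    have h3 := List.find?_some e
    simp only [List.all_eq_true, ble, decide_eq_true_eq] at h3
    exact ⟨List.mem_of_find?_eq_some e, h3⟩

theorem lmin_le {cap : Bin} {L : List Bin} {c : ℕ} (hc : c < cap.val) :
    (lmin cap L).val ≤ c ↔ ∃ x ∈ L, x.val ≤ c := by
  obtain ⟨h1, h2⟩ := lmin_spec cap L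
  constructor
  · intro h
    rcases List.mem_cons.1 h1 with e | e
    · rw [e] at h; omega
    · exact ⟨_, e, h⟩
  · rintro ⟨x, hx, h⟩
    exact (h2 x (List.mem_cons_of_mem _ hx)).trans h

theorem sel_split (R : List Job) {a b c : ℕ} (h1 : a ≤ c) (h2 : c ≤ b) :
    (sel R a c ++ sel R c b).Perm (sel R a b) := by
  have := List.filter_append_perm (fun j : Job => decide (j.2 < c)) (sel R a b)
  unfold sel at *
  rw [List.filter_filter, List.filter_filter] at this
  convert this using 2 <;> refine List.filter_congr fun j _ => ?_ <;>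
    rw [Bool.eq_iff_iff] <;> simp <;> omega

theorem tabs_spec {p D : ℕ} (cap : Bin) (hp : p < D) (L : List Job)
    (hL : L.Pairwise fun i j => i.1.val ≤ j.1.val) : (tabs p D cap L).1 = L ∧
    ∀ a < D, ∀ b < D, ∀ s, s + (sel L a b).length < D → ∀ x ≤ p, ∀ y ≤ p, ∀ c < cap.val,
      ((look (tabs p D cap L).2 cap a b s x y).val ≤ c ↔ Val p (sel L a b) s x y c) := by
  induction L with
  | nil =>
    refine ⟨rfl, fun a ha b hb s hs x hx y hy c hc => ?_⟩
    change (look (mkT D _) cap a b s x y).val ≤ c ↔ Val p [] s x y c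
    rw [look_mkT ha hb (by omega) (by omega) (by omega), lmin_le hc, val_nil hx]
    split_ifs with h <;> simp [h]
  | cons k R ih =>
    obtain ⟨hk, hR⟩ := List.pairwise_cons.1 hL
    obtain ⟨e, ih⟩ := ih hR
    refine ⟨congrArg (k :: ·) e, fun a ha b hb s hs x hx y hy c hc => ?_⟩
    change (look (mkT D (ent p cap k (tabs p D cap R).1 (tabs p D cap R).2)) cap a b s x y).val ≤ c ↔ _
    rw [look_mkT ha hb (by omega) (by omega) (by omega), e, ent, lmin_le hc]
    generalize (tabs p D cap R).2 = T at ih
    split_ifs with h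
    · have e1 : sel (k :: R) a b = k :: sel R a b := by simp [sel, h]
      rw [e1] at hs ⊢
      rw [List.length_cons] at hs
      simp only [List.mem_flatMap, List.mem_range, List.mem_ite_nil_right, List.mem_singleton]
      constructor
      · rintro ⟨_, ⟨t, ht, x1, h1, x2, h2, ⟨h3, h4⟩, rfl⟩, h5⟩
        have h6 := sel_split R h3 (Nat.le_of_lt_succ ht)
        have h7 := h6.length_eq
        rw [List.length_append] at h7
        simp only [cand, badd, bmul] at h5
        exact ((Val.glue k
          ((ih a ha t (by omega) s (by omega) x hx x1 (by omega) _ (by omega)).1 le_rfl)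
          ((ih t (by omega) b hb _ (by omega) x2 (by omega) y hy _ (by omega)).1 le_rfl)
          h4).perm (h6.cons k)).mono h5
      · intro hv
        obtain ⟨d, x1, x2, c1, c2, h1, h2, h3, h4, h5, h6, h7⟩ :=
          hv.split fun j hj => hk j (List.mem_of_mem_filter hj)
        have e2 : (sel R a b).filter (fun j => j.2 ≤ d) = sel R a (min (d + 1) b) := by
          unfold sel; rw [List.filter_filter]
          refine List.filter_congr fun j _ => ?_
          rw [Bool.eq_iff_iff]; simp; omega
        have e3 : (sel R a b).filter (fun j => d < j.2) = sel R (min (d + 1) b) b := by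
          unfold sel; rw [List.filter_filter]
          refine List.filter_congr fun j _ => ?_
          rw [Bool.eq_iff_iff]; simp; omega
        rw [e2] at h5 h6 h7
        rw [e3] at h6
        have h8 := (sel_split R (show a ≤ min (d + 1) b by omega) (min_le_right _ _)).length_eq
        rw [List.length_append] at h8
        refine ⟨_, ⟨min (d + 1) b, by omega, x1, by omega, x2, by omega, ⟨by omega, h4⟩, rfl⟩, ?_⟩
        have b1 := (ih a ha _ (by omega) s (by omega) x hx x1 h2 _ (by omega)).2 h5
        have b2 := (ih _ (by omega) b hb _ (by omega) x2 h3 y hy _ (by omega)).2 h6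
        simp only [cand, badd, bmul]
        omega
    · have e1 : sel (k :: R) a b = sel R a b := by
        unfold sel; rw [List.filter_cons_of_neg (by simpa using h)]
      rw [e1] at hs ⊢
      simpa using ih a ha b hb s hs x hx y hy c hc

def ins (k : Job) (R : List Job) : List Job :=
  R.filter (fun j => !ble k.1 j.1) ++ k :: R.filter fun j => ble k.1 j.1

def srt (L : List Job) : List Job := L.foldr ins []

theorem ins_perm (k : Job) (R : List Job) : (ins k R).Perm (k :: R) :=
  List.perm_middle.trans ((List.perm_append_comm.trans (List.filter_append_perm _ R)).cons k)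

theorem srt_spec (L : List Job) :
    (srt L).Perm L ∧ (srt L).Pairwise fun i j => i.1.val ≤ j.1.val := by
  induction L with
  | nil => exact ⟨List.Perm.refl _, List.Pairwise.nil⟩
  | cons k L ih =>
    refine ⟨(ins_perm k _).trans (ih.1.cons k), ?_⟩
    change (ins k (srt L)).Pairwise _
    unfold ins
    refine List.pairwise_append.2 ⟨ih.2.filter _, List.pairwise_cons.2 ⟨fun j hj => ?_,
      ih.2.filter _⟩, fun i hi j hj => ?_⟩
    · simpa [ble] using (List.mem_filter.1 hj).2
    · have h1 := (List.mem_filter.1 hi).2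
      simp only [ble, Bool.not_eq_true', decide_eq_false_iff_not] at h1
      rcases List.mem_cons.1 hj with rfl | hj
      · omega
      · have h2 := (List.mem_filter.1 hj).2
        simp only [ble, decide_eq_true_eq] at h2
        omega

def capOf (p : ℕ) (J : List (Bin × Bin)) : Bin :=
  badd (bmul ⟨(J.map fun j => (j.1.val : ℤ)).sum.toNat⟩ ((J.length + 1) * p)) ⟨1⟩

def dd (p : ℕ) (J : List (Bin × Bin)) : ℕ := (J.length + 1) * p + J.length + p + 1

/-- twice the optimum -/
def opt2 (p : ℕ) (J : List (Bin × Bin)) : Bin :=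
  lmin (capOf p J) ((List.range (p + 1)).map fun y =>
    look (tabs p (dd p J + 1) (capOf p J) (srt (J.map (conv ((J.length + 1) * p))))).2
      (capOf p J) 0 (dd p J) 0 0 y)

theorem cst_le {z : ℕ → ℕ} {B : ℕ} (l : List Job) (s : ℕ) (h : ∀ i < s + l.length, z i ≤ B) :
    cst z s l ≤ (l.map fun j => j.1.val).sum * B := by
  induction l generalizing s with
  | nil => simp [cst]
  | cons j l ih =>
    rw [List.length_cons] at h
    rw [cst, List.map_cons, List.sum_cons, add_mul]
    exact Nat.add_le_add (Nat.mul_le_mul_left _ ((Nat.sub_le _ _).trans (h s (by omega))))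
      (ih _ fun i hi => h i (by omega))

theorem opt2_spec (p : ℕ) (J : List (Bin × Bin)) (M : ℕ) : (opt2 p J).val ≤ M ↔ Disc p J M := by
  obtain ⟨h1, h2⟩ := srt_spec (J.map (conv ((J.length + 1) * p)))
  have key : ∀ M < (capOf p J).val, (opt2 p J).val ≤ M ↔ Disc p J M := by
    intro M hM
    set L := srt (J.map (conv ((J.length + 1) * p)))
    have hl : L.length = J.length := by rw [h1.length_eq, List.length_map]
    have e : sel L 0 (dd p J) = L := List.filter_eq_self.2 fun j hj => by
      obtain ⟨i, -, rfl⟩ := List.mem_map.1 (h1.subset hj)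
      have := min_le_left ((J.length + 1) * p) (2 * i.2.val)
      simp only [conv, dd, decide_eq_true_eq]; omega
    have h3 := (tabs_spec (p := p) (D := dd p J + 1) (capOf p J) (by unfold dd; omega) L h2).2
      0 (by omega) (dd p J) (by omega) 0 (by rw [e, hl]; unfold dd; omega) 0 (by omega)
    rw [e] at h3
    rw [opt2, lmin_le hM]
    simp only [List.mem_map, List.mem_range, exists_exists_and_eq_and]
    constructor
    · rintro ⟨y, hy, h⟩
      obtain ⟨l, a1, u, a2, a3, -, a5, a6⟩ := (h3 y (by omega) M hM).1 h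
      exact ⟨l, a1.trans h1, u, ⟨a2, a3, fun i hi => a5 i (by omega) (by omega)⟩, a6⟩
    · rintro ⟨l, a1, u, ⟨a2, a3, a4⟩, a6⟩
      exact ⟨_, Nat.lt_succ_of_le (a2 _), (h3 _ (a2 _) M hM).2
        ⟨l, a1.trans h1.symm, u, a2, a3, rfl, fun i _ hi => a4 i (by omega), a6⟩⟩
  have hcap : (capOf p J).val = (J.map fun j => j.1.val).sum * ((J.length + 1) * p) + 1 := by
    have : (J.map fun j => (j.1.val : ℤ)).sum = ((J.map fun j => j.1.val).sum : ℕ) := by
      rw [Nat.cast_list_sum, List.map_map]; rfl
    simp only [capOf, badd, bmul, this, Int.toNat_natCast]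
  have h0 : Disc p J ((capOf p J).val - 1) := by
    refine ⟨_, List.Perm.refl _, fun i => if i = 0 then 0 else p,
      ⟨fun i => by beta_reduce; split_ifs <;> omega, rfl, fun i _ => by simp⟩, ?_⟩
    rw [hcap, Nat.add_sub_cancel]
    refine (cst_le (B := (J.length + 1) * p) _ 0 fun i hi => ?_).trans (le_of_eq ?_)
    · have := Nat.mul_le_mul_right p (show i + 1 + 1 ≤ J.length + 1 by simp at hi; omega)
      rw [Nat.succ_mul (i + 1)] at this
      simpa [zz] using this
    · rw [List.map_map]; rfl
  by_cases hM : M < (capOf p J).val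
  · exact key M hM
  have h3 := (key _ (by omega)).2 h0
  obtain ⟨l, a1, u, a2, a3⟩ := h0
  exact ⟨fun _ => ⟨l, a1, u, a2, by omega⟩, fun _ => by omega⟩

theorem opt2_least (p : ℕ) (J : List (Bin × Bin)) :
    IsLeast (Values p J) (((opt2 p J).val : ℝ) / 2) := by
  have low : ∀ c ∈ Values p J, ((opt2 p J).val : ℝ) / 2 ≤ c := by
    rintro _ ⟨S, hS, rfl⟩
    have h1 := (opt2_spec p J _).2 (disc_of_sched hS (Nat.lt_floor_add_one (2 * cost J S)))
    have h0 : 0 ≤ cost J S := Finset.sum_nonneg fun j _ =>
      mul_nonneg (by positivity) (le_max_left _ _)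
    have h2 := Nat.floor_le (show 0 ≤ 2 * cost J S by positivity)
    have h3 : ((opt2 p J).val : ℝ) ≤ _ := (Nat.cast_le.2 h1).trans h2
    linarith
  obtain ⟨S, hS, h⟩ := sched_of_disc ((opt2_spec p J _).1 le_rfl)
  exact ⟨⟨S, hS, le_antisymm (by linarith) (low _ ⟨S, hS, rfl⟩)⟩, low⟩

end Pool.Agent.H22.P2
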