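import Pool.Agent.H22.P2d

/-!
The dynamic program runs in polynomial time.
-/

namespace Pool.Agent.H22.P2

open Pool.Agent.H38.NP Pool.Agent.H38.ER

instance decBin : Dec Bin := ⟨fun x => ⟨bval x.val⟩, pt_ofBits (PT.bval PT.id'), fun x => by
  simp [raw, enc, bval_bits]⟩

section
variable {α : Type} [Enc α]

@[fun_prop] theorem pt_ble' {f g : α → Bin} (hf : PT f) (hg : PT g) : PT fun a => ble (f a) (g a) :=
  pt_ble hf hg
@[fun_prop] theorem pt_badd' {f g : α → Bin} (hf : PT f) (hg : PT g) :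
    PT fun a => badd (f a) (g a) := pt_badd hf hg
@[fun_prop] theorem pt_bmul' {f : α → Bin} {g : α → ℕ} (hf : PT f) (hg : PT g) :
    PT fun a => bmul (f a) (g a) := pt_bmul hf (pt_bin hg)
@[fun_prop] theorem pt_lmin {f : α → Bin} {g : α → List Bin} (hf : PT f) (hg : PT g) :
    PT fun a => lmin (f a) (g a) := by unfold lmin; fun_prop
@[fun_prop] theorem pt_sel {R : α → List Job} {f g : α → ℕ} (hR : PT R) (hf : PT f) (hg : PT g) :
    PT fun a => sel (R a) (f a) (g a) := by unfold sel; fun_prop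
@[fun_prop] theorem pt_look {T : α → Tab} {cap : α → Bin} {a b s x y : α → ℕ} (hT : PT T)
    (hc : PT cap) (ha : PT a) (hb : PT b) (hs : PT s) (hx : PT x) (hy : PT y) :
    PT fun i => look (T i) (cap i) (a i) (b i) (s i) (x i) (y i) := by unfold look; fun_prop
@[fun_prop] theorem pt_ent {T : α → Tab} {cap : α → Bin} {k : α → Job} {R : α → List Job}
    {p a b s x y : α → ℕ} (hp : PT p) (hc : PT cap) (hk : PT k) (hR : PT R) (hT : PT T)
    (ha : PT a) (hb : PT b) (hs : PT s) (hx : PT x) (hy : PT y) :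
    PT fun i => ent (p i) (cap i) (k i) (R i) (T i) (a i) (b i) (s i) (x i) (y i) := by
  unfold ent cand; fun_prop

theorem sz_lmin (cap : Bin) (L : List Bin) : sz (lmin cap L) ≤ sz cap := by
  have := (lmin_spec cap L).2 cap List.mem_cons_self
  generalize lmin cap L = x at this
  obtain ⟨x⟩ := x
  obtain ⟨c⟩ := cap
  rw [sz_bin, sz_bin]
  exact Nat.size_le_size this

def bnd (D B : ℕ) : ℕ := D * (2 * B + 1)

theorem sz_map {β : Type} [Enc β] {D B : ℕ} {f : ℕ → β} (h : ∀ i, sz (f i) ≤ B) :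
    sz ((List.range D).map f) ≤ bnd D B := by
  have := sz_le_of_forall (l := (List.range D).map f) (B := B) fun a ha => by
    obtain ⟨i, -, rfl⟩ := List.mem_map.1 ha; exact h i
  simpa [bnd] using this

theorem sz_mkT {D B f} (h : ∀ a b s x y, sz (f a b s x y) ≤ B) :
    sz (mkT D f) ≤ bnd D (bnd D (bnd D (bnd D (bnd D B)))) :=
  sz_map fun a => sz_map fun b => sz_map fun s => sz_map fun x => sz_map fun y => h a b s x y

theorem pb_bnd {f g : α → ℕ} (hf : PB f) (hg : PB g) : PB fun a => bnd (f a) (g a) :=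
  hf.mul (((PB.const 2).mul hg).add (PB.const 1))

theorem tabs_sz (p D : ℕ) (cap : Bin) (L : List Job) : (tabs p D cap L).1 = L ∧
    sz (tabs p D cap L).2 ≤ bnd D (bnd D (bnd D (bnd D (bnd D (sz cap))))) := by
  induction L with
  | nil => exact ⟨rfl, sz_mkT fun _ _ _ _ _ => sz_lmin _ _⟩
  | cons k L ih => exact ⟨congrArg (k :: ·) ih.1, sz_mkT fun _ _ _ _ _ => sz_lmin _ _⟩

@[fun_prop] theorem pt_tabs {p D : α → ℕ} {cap : α → Bin} {L : α → List Job} (hp : PT p)
    (hD : PT D) (hc : PT cap) (hL : PT L) : PT fun a => tabs (p a) (D a) (cap a) (L a) := by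
  have h := hD.nat_pb
  refine PT.foldr (f := fun a (k : Job) (st : List Job × Tab) =>
    (k :: st.1, mkT (D a) (ent (p a) (cap a) k st.1 st.2))) (by unfold mkT; fun_prop) hL
    (by unfold mkT; fun_prop)
    ((((PB.const 2).mul hL.pb).add (PB.const 1)).add
      (pb_bnd h (pb_bnd h (pb_bnd h (pb_bnd h (pb_bnd h hc.pb)))))) fun a k => ?_
  obtain ⟨h1, h2⟩ := tabs_sz (p a) (D a) (cap a) ((L a).drop k)
  have h3 := sz_le_of_sublist (List.drop_sublist k (L a))
  change sz (tabs (p a) (D a) (cap a) ((L a).drop k)) ≤ _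
  rw [sz_prod, h1]
  omega

theorem sz_perm {β : Type} [Enc β] {l l' : List β} (h : l.Perm l') : sz l = sz l' := by
  induction h with
  | nil => rfl
  | cons a _ ih => rw [sz_cons, sz_cons, ih]
  | swap a b l => simp only [sz_cons]; omega
  | trans _ _ h1 h2 => exact h1.trans h2

@[fun_prop] theorem pt_srt {L : α → List Job} (hL : PT L) : PT fun a => srt (L a) :=
  PT.foldr (f := fun _ => ins) (by unfold ins; fun_prop) hL (PT.const _) hL.pb fun a k =>
    (sz_perm (srt_spec _).1).trans_le (sz_le_of_sublist (List.drop_sublist k (L a)))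

@[fun_prop] theorem pt_conv {B : α → ℕ} {j : α → Bin × Bin} (hB : PT B) (hj : PT j) :
    PT fun a => conv (B a) (j a) := by
  have h1 : PT fun q : α × ℕ => ble (Bin.mk (q.2 + 1)) (bmul (j q.1).2 2) :=
    pt_ble' (pt_bin (by fun_prop)) (by fun_prop)
  have h2 := PT.countP (f := fun a (i : ℕ) => ble (Bin.mk (i + 1)) (bmul (j a).2 2)) h1 hB.range
  refine (hj.fst.mk h2).of_eq fun a => ?_
  unfold conv
  congr 1
  generalize B a = n
  induction n with
  | zero => simp
  | succ n ih =>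
    rw [List.range_succ, List.countP_append, ih]
    simp only [List.countP_singleton, ble, bmul, decide_eq_true_eq]
    split_ifs <;> omega

@[fun_prop] theorem pt_capOf {p : α → ℕ} {J : α → List (Bin × Bin)} (hp : PT p) (hJ : PT J) :
    PT fun a => capOf (p a) (J a) := by
  have h1 : PT fun q : α × (Bin × Bin) => (q.2.1.val : ℤ) :=
    (pt_diff (f := fun q : α × (Bin × Bin) => q.2.1) (by fun_prop) (PT.const ⟨0⟩)).of_eq
      fun a => by simp
  exact pt_badd' (pt_bmul' (pt_pos (pt_zsum (PT.map (f := fun _ (j : Bin × Bin) => (j.1.val : ℤ))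
    h1 hJ))) (by fun_prop)) (PT.const _)

@[fun_prop] theorem pt_opt2 {p : α → ℕ} {J : α → List (Bin × Bin)} (hp : PT p) (hJ : PT J) :
    PT fun a => opt2 (p a) (J a) := by
  unfold opt2 dd; fun_prop

end

theorem yes_iff (p : ℕ) (I : List (Bin × Bin) × Bin) :
    Yes p I ↔ ble (opt2 p I.1) (bmul I.2 2) = true := by
  obtain ⟨h1, h2⟩ := opt2_least p I.1
  simp only [ble, bmul, decide_eq_true_eq]
  rw [← Nat.cast_le (α := ℝ)]
  push_cast
  exact ⟨fun ⟨c, hc, h⟩ => by have := h2 hc; linarith, fun h => ⟨_, h1, by linarith⟩⟩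

end Pool.Agent.H22.P2
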