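import Pool.Agent.H22.PDPDefs
import Pool.Agent.H38.NP.Graphs

/-!
A list colouring problem with three classes of vertices is NP-hard.
-/

namespace Pool.Agent.H22.PDP

open Pool.Agent.H38.NP

abbrev F3 := List (Lit × Lit × Lit)

/-- class of an index: 0 (colours 0,1), 1 (colours 1,2), 2 (all three colours) -/
def cls (i : ℕ) : ℕ :=
  if i < 2 then 0 else if i = 2 then 1 else
  if (i - 3) % 9 < 2 then 1 else if (i - 3) % 9 = 2 ∨ (i - 3) % 9 = 5 ∨ (i - 3) % 9 = 7 then 0 else 2

theorem cls_lt (i : ℕ) : cls i < 3 := by unfold cls; split_ifs <;> omega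

/-- admissible colours -/
def Ok (i c : ℕ) : Prop :=
  c < 3 ∧ (i < 3 → c = i) ∧ (cls i = 0 → c ≠ 2) ∧ (cls i = 1 → c ≠ 0)

def X (q r : ℕ) : ℕ := 3 + 9 * q + r

def L (l : Lit) : ℕ := X l.1 (!l.2).toNat

def bnd (φ : F3) : ℕ :=
  φ.length + ((List.range (3 * φ.length)).map fun u => (litAt φ u).1 + 1).sum

def edges (φ : F3) : List (ℕ × ℕ) :=
  (List.range (bnd φ)).flatMap (fun q => [(X q 0, X q 2), (X q 2, X q 3), (X q 3, X q 1), (X q 3, 2)]) ++
  (List.range φ.length).flatMap fun c => [(X c 4, X c 5), (X c 5, X c 6), (X c 6, 0),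
    (X c 6, L (litAt φ (3 * c))), (X c 4, X c 7), (X c 7, X c 8), (X c 8, 1),
    (X c 8, L (litAt φ (3 * c + 1))), (X c 4, L (litAt φ (3 * c + 2)))]

def kk (φ : F3) : ℕ := 3 + 9 * bnd φ

theorem lit_lt (φ : F3) {u : ℕ} (hu : u < 3 * φ.length) : (litAt φ u).1 < bnd φ := by
  have : (litAt φ u).1 + 1 ≤ ((List.range (3 * φ.length)).map fun u => (litAt φ u).1 + 1).sum :=
    List.single_le_sum (fun _ _ => Nat.zero_le _) _ (List.mem_map.2 ⟨u, List.mem_range.2 hu, rfl⟩)
  unfold bnd; omega

theorem cls_X (q r : ℕ) (hr : r < 9) : cls (X q r) =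
    if r < 2 then 1 else if r = 2 ∨ r = 5 ∨ r = 7 then 0 else 2 := by
  have e : (X q r - 3) % 9 = r := by unfold X; omega
  unfold cls
  rw [e, if_neg (by unfold X; omega), if_neg (by unfold X; omega)]

theorem cls_L (l : Lit) : cls (L l) = 1 := by
  unfold L; rw [cls_X _ _ (by cases l.2 <;> simp)]; cases l.2 <;> simp

theorem L_lt (φ : F3) {u : ℕ} (hu : u < 3 * φ.length) : L (litAt φ u) < kk φ := by
  have := lit_lt φ hu
  unfold L X kk; cases (litAt φ u).2 <;> simp <;> omega

theorem edges_ok (φ : F3) : ∀ e ∈ edges φ, e.1 < kk φ ∧ e.2 < kk φ ∧ cls e.1 ≠ cls e.2 := by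
  have hb : φ.length ≤ bnd φ := by unfold bnd; omega
  simp only [edges, List.forall_mem_append, List.forall_mem_flatMap, List.forall_mem_cons,
    List.mem_range, List.not_mem_nil, IsEmpty.forall_iff, implies_true, and_true]
  refine ⟨fun q hq => ?_, fun c hc => ?_⟩
  · simp only [cls_X _ _ (show 0 < 9 by omega), cls_X _ _ (show 1 < 9 by omega),
      cls_X _ _ (show 2 < 9 by omega), cls_X _ _ (show 3 < 9 by omega)]
    simp [X, kk, cls]; omega
  · have h0 := L_lt φ (show 3 * c < 3 * φ.length by omega)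
    have h1 := L_lt φ (show 3 * c + 1 < 3 * φ.length by omega)
    have h2 := L_lt φ (show 3 * c + 2 < 3 * φ.length by omega)
    simp only [cls_X _ _ (show 4 < 9 by omega), cls_X _ _ (show 5 < 9 by omega),
      cls_X _ _ (show 6 < 9 by omega), cls_X _ _ (show 7 < 9 by omega),
      cls_X _ _ (show 8 < 9 by omega), cls_L, h0, h1, h2]
    simp [X, kk, cls]; omega

def LCol (φ : F3) : Prop :=
  ∃ col : ℕ → ℕ, (∀ i < kk φ, Ok i (col i)) ∧ ∀ e ∈ edges φ, col e.1 ≠ col e.2

/-- colours of the gadgets -/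
def gcol (t0 x y z : Bool) (r : ℕ) : ℕ :=
  if r = 0 then (if t0 then 1 else 2) else if r = 1 then (if t0 then 2 else 1) else
  if r = 2 then (if t0 then 0 else 1) else if r = 3 then (if t0 then 1 else 0) else
  if r = 4 then (if z then 2 else if x then 0 else 1) else
  if r = 5 then (if !z && x then 1 else 0) else
  if r = 6 then (if x then 2 else 1) else
  if r = 7 then (if !z && !x then 0 else 1) else (if !z && !x && y then 2 else 0)

theorem sat_iff (φ : F3) : Sat3 φ ↔ LCol φ := by
  have hb : φ.length ≤ bnd φ := by unfold bnd; omega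
  rw [sat3_iff_litAt]
  simp only [LCol, edges, List.forall_mem_append, List.forall_mem_flatMap, List.forall_mem_cons,
    List.mem_range, List.not_mem_nil, IsEmpty.forall_iff, implies_true, and_true]
  constructor
  · rintro ⟨a, ha⟩
    let tv : ℕ → Bool := fun u => a (litAt φ u).1 == (litAt φ u).2
    let col : ℕ → ℕ := fun i => if i < 3 then i else
      gcol (a ((i - 3) / 9)) (tv (3 * ((i - 3) / 9))) (tv (3 * ((i - 3) / 9) + 1))
        (tv (3 * ((i - 3) / 9) + 2)) ((i - 3) % 9)
    have h1 : ∀ q r, r < 9 → col (X q r) =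
        gcol (a q) (tv (3 * q)) (tv (3 * q + 1)) (tv (3 * q + 2)) r := fun q r hr => by
      have e1 : (X q r - 3) / 9 = q := by unfold X; omega
      have e2 : (X q r - 3) % 9 = r := by unfold X; omega
      simp only [col, e1, e2]
      rw [if_neg (by unfold X; omega)]
    have h2 : ∀ u, col (L (litAt φ u)) = if tv u then 1 else 2 := fun u => by
      unfold L
      rw [h1 _ _ (by cases (litAt φ u).2 <;> simp)]
      have : tv u = (a (litAt φ u).1 == (litAt φ u).2) := rfl
      rw [this]
      generalize tv (3 * (litAt φ u).1) = x, tv (3 * (litAt φ u).1 + 1) = y,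
        tv (3 * (litAt φ u).1 + 2) = z
      generalize a (litAt φ u).1 = s
      generalize (litAt φ u).2 = t
      cases s <;> cases t <;> simp [gcol]
    have h3 : col 0 = 0 ∧ col 1 = 1 ∧ col 2 = 2 := by simp [col]
    refine ⟨col, fun i _ => ?_, fun q _ => ?_, fun c hc => ?_⟩
    · by_cases h : i < 3
      · interval_cases i <;> simp [Ok, col, cls]
      · obtain ⟨q, r, hr, rfl⟩ : ∃ q r, r < 9 ∧ i = X q r :=
          ⟨(i - 3) / 9, (i - 3) % 9, by omega, by unfold X; omega⟩
        unfold Ok
        rw [h1 _ _ hr, cls_X _ _ hr]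
        generalize a q = t0, tv (3 * q) = x, tv (3 * q + 1) = y, tv (3 * q + 2) = z
        refine ⟨?_, fun h' => absurd h' h, ?_⟩ <;>
        interval_cases r <;> cases t0 <;> cases x <;> cases y <;> cases z <;> simp [gcol]
    · simp only [h1 _ _ (show 0 < 9 by omega), h1 _ _ (show 1 < 9 by omega),
        h1 _ _ (show 2 < 9 by omega), h1 _ _ (show 3 < 9 by omega), h3]
      cases a q <;> simp [gcol]
    · simp only [h1 _ _ (show 4 < 9 by omega), h1 _ _ (show 5 < 9 by omega),
        h1 _ _ (show 6 < 9 by omega), h1 _ _ (show 7 < 9 by omega),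
        h1 _ _ (show 8 < 9 by omega), h2, h3]
      have h4 : tv (3 * c) = true ∨ tv (3 * c + 1) = true ∨ tv (3 * c + 2) = true := by
        obtain ⟨j, hj, e⟩ := ha c hc
        interval_cases j
        · left; simpa [tv] using e
        · right; left; simpa [tv] using e
        · right; right; simpa [tv] using e
      revert h4
      generalize tv (3 * c) = x, tv (3 * c + 1) = y, tv (3 * c + 2) = z
      cases x <;> cases y <;> cases z <;> simp [gcol]
  · rintro ⟨col, h0, h1, h2⟩
    have c0 : col 0 = 0 := (h0 0 (by unfold kk; omega)).2.1 (by omega)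
    have c1 : col 1 = 1 := (h0 1 (by unfold kk; omega)).2.1 (by omega)
    have c2 : col 2 = 2 := (h0 2 (by unfold kk; omega)).2.1 (by omega)
    have hx : ∀ q < bnd φ, ∀ r < 9, col (X q r) < 3 ∧ (r < 2 → col (X q r) ≠ 0) ∧
        (r = 2 ∨ r = 5 ∨ r = 7 → col (X q r) ≠ 2) := fun q hq r hr => by
      have := h0 (X q r) (by unfold X kk; omega)
      unfold Ok at this
      rw [cls_X _ _ hr] at this
      refine ⟨this.1, fun h => this.2.2.2 (by rw [if_pos h]), fun h => this.2.2.1 ?_⟩
      rw [if_neg (by omega), if_pos h]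
    refine ⟨fun v => decide (col (X v 0) = 1), fun c hc => ?_⟩
    have key : ∀ u < 3 * φ.length, col (L (litAt φ u)) = 1 →
        decide (col (X (litAt φ u).1 0) = 1) = (litAt φ u).2 := fun u hu h => by
      have hq := lit_lt φ hu
      unfold L at h
      cases e : (litAt φ u).2 <;> rw [e] at h
      · have := h1 _ hq
        have a2 := hx _ hq 2 (by omega)
        have a3 := hx _ hq 3 (by omega)
        simp only [Bool.not_false, Bool.toNat_true] at h
        simp only [decide_eq_false_iff_not]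
        omega
      · simpa using h
    have hl : ∀ u < 3 * φ.length, col (L (litAt φ u)) < 3 ∧ col (L (litAt φ u)) ≠ 0 := fun u hu => by
      have := h0 _ (L_lt φ hu)
      exact ⟨this.1, this.2.2.2 (cls_L _)⟩
    have hq : c < bnd φ := by omega
    have := h2 c hc
    have a4 := hx _ hq 4 (by omega)
    have a5 := hx _ hq 5 (by omega)
    have a6 := hx _ hq 6 (by omega)
    have a7 := hx _ hq 7 (by omega)
    have a8 := hx _ hq 8 (by omega)
    have l0 := hl (3 * c) (by omega)
    have l1 := hl (3 * c + 1) (by omega)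
    have l2 := hl (3 * c + 2) (by omega)
    have : col (L (litAt φ (3 * c))) = 1 ∨ col (L (litAt φ (3 * c + 1))) = 1 ∨
        col (L (litAt φ (3 * c + 2))) = 1 := by omega
    rcases this with h | h | h
    · exact ⟨0, by omega, key _ (by omega) h⟩
    · exact ⟨1, by omega, key _ (by omega) h⟩
    · exact ⟨2, by omega, key _ (by omega) h⟩

end Pool.Agent.H22.PDP
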