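import Pool.Agent.H22.PDP1

/-!
The plane digraph of the reduction and its embedding.
-/

namespace Pool.Agent.H22.PDP

open Pool.Agent.H38.NP

def xo (k c : ℕ) : ℕ := if c = 0 then k + 2 else if c = 1 then 5 * k + 6 else 0

def pos (k v : ℕ) : ℕ × ℕ :=
  if v < 9 then [(0, 7), (4 * k + 4, 7), (8 * k + 8, 7), (2 * k + 2, 9), (2 * k + 2, 5),
    (6 * k + 6, 9), (6 * k + 6, 5), (4 * k + 4, 13), (4 * k + 4, 1)].getD v (0, 0)
  else (xo k (cls ((v - 9) / 2)) + (v - 9) / 2,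
    if (v - 9) % 2 = 0 then (if cls ((v - 9) / 2) = 2 then 14 else 8)
    else (if cls ((v - 9) / 2) = 2 then 0 else 6))

def core : List (ℕ × ℕ) := [(3, 0), (3, 1), (0, 4), (1, 4), (5, 1), (5, 2), (1, 6), (2, 6),
  (7, 0), (7, 1), (7, 2), (0, 8), (1, 8), (2, 8)]

def arcs (k : ℕ) : List (ℕ × ℕ) :=
  core ++ (List.range k).flatMap fun i => [(9 + 2 * i, 3 + 2 * cls i), (4 + 2 * cls i, 10 + 2 * i)]

def term (i : ℕ) : ℕ × ℕ := (if i < 3 then i else 9 + 2 * i, 10 + 2 * i)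

def mk (k : ℕ) (E : List (ℕ × ℕ)) : Inst :=
  ((List.range (9 + 2 * k)).map (pos k), arcs k, (List.range k).map term, E)

theorem mem_arcs {k : ℕ} {e : ℕ × ℕ} : e ∈ arcs k ↔ e ∈ core ∨
    ∃ i < k, e = (9 + 2 * i, 3 + 2 * cls i) ∨ e = (4 + 2 * cls i, 10 + 2 * i) := by
  simp [arcs]

theorem pos_src (k i : ℕ) : pos k (9 + 2 * i) = (xo k (cls i) + i, if cls i = 2 then 14 else 8) := by
  have e1 : (9 + 2 * i - 9) / 2 = i := by omega
  have e2 : (9 + 2 * i - 9) % 2 = 0 := by omega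
  unfold pos; rw [if_neg (by omega), e1, e2]; simp

theorem pos_snk (k i : ℕ) : pos k (10 + 2 * i) = (xo k (cls i) + i, if cls i = 2 then 0 else 6) := by
  have e1 : (10 + 2 * i - 9) / 2 = i := by omega
  have e2 : (10 + 2 * i - 9) % 2 = 1 := by omega
  unfold pos; rw [if_neg (by omega), e1, e2]; simp

/-- all vertices with their positions -/
def VC (k i v : ℕ) (P : ℕ × ℕ) : Prop :=
  (v = 0 ∧ P = (0, 7)) ∨ (v = 1 ∧ P = (4 * k + 4, 7)) ∨ (v = 2 ∧ P = (8 * k + 8, 7)) ∨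
  (v = 3 ∧ P = (2 * k + 2, 9)) ∨ (v = 4 ∧ P = (2 * k + 2, 5)) ∨ (v = 5 ∧ P = (6 * k + 6, 9)) ∨
  (v = 6 ∧ P = (6 * k + 6, 5)) ∨ (v = 7 ∧ P = (4 * k + 4, 13)) ∨ (v = 8 ∧ P = (4 * k + 4, 1)) ∨
  (v = 9 + 2 * i ∧ P = (k + 2 + i, 8)) ∨ (v = 9 + 2 * i ∧ P = (5 * k + 6 + i, 8)) ∨
  (v = 9 + 2 * i ∧ P = (i, 14)) ∨ (v = 10 + 2 * i ∧ P = (k + 2 + i, 6)) ∨
  (v = 10 + 2 * i ∧ P = (5 * k + 6 + i, 6)) ∨ (v = 10 + 2 * i ∧ P = (i, 0))

theorem vert_cases {k v : ℕ} (hk : 0 < k) (hv : v < 9 + 2 * k) : ∃ i < k, VC k i v (pos k v) := by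
  by_cases h : v < 9
  · refine ⟨0, hk, ?_⟩
    interval_cases v <;> simp [VC, pos]
  · obtain ⟨i, hi, e⟩ : ∃ i < k, v = 9 + 2 * i ∨ v = 10 + 2 * i := ⟨(v - 9) / 2, by omega, by omega⟩
    refine ⟨i, hi, ?_⟩
    have := cls_lt i
    rcases e with rfl | rfl
    · rw [pos_src]; generalize cls i = c at this; interval_cases c <;> simp [VC, xo]
    · rw [pos_snk]; generalize cls i = c at this; interval_cases c <;> simp [VC, xo]

/-- all arcs with the positions of their ends -/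
def AC (k i : ℕ) (e P Q : ℕ × ℕ) : Prop :=
  (e = (3, 0) ∧ P = (2 * k + 2, 9) ∧ Q = (0, 7)) ∨
  (e = (3, 1) ∧ P = (2 * k + 2, 9) ∧ Q = (4 * k + 4, 7)) ∨
  (e = (0, 4) ∧ P = (0, 7) ∧ Q = (2 * k + 2, 5)) ∨
  (e = (1, 4) ∧ P = (4 * k + 4, 7) ∧ Q = (2 * k + 2, 5)) ∨
  (e = (5, 1) ∧ P = (6 * k + 6, 9) ∧ Q = (4 * k + 4, 7)) ∨
  (e = (5, 2) ∧ P = (6 * k + 6, 9) ∧ Q = (8 * k + 8, 7)) ∨
  (e = (1, 6) ∧ P = (4 * k + 4, 7) ∧ Q = (6 * k + 6, 5)) ∨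
  (e = (2, 6) ∧ P = (8 * k + 8, 7) ∧ Q = (6 * k + 6, 5)) ∨
  (e = (7, 0) ∧ P = (4 * k + 4, 13) ∧ Q = (0, 7)) ∨
  (e = (7, 1) ∧ P = (4 * k + 4, 13) ∧ Q = (4 * k + 4, 7)) ∨
  (e = (7, 2) ∧ P = (4 * k + 4, 13) ∧ Q = (8 * k + 8, 7)) ∨
  (e = (0, 8) ∧ P = (0, 7) ∧ Q = (4 * k + 4, 1)) ∨
  (e = (1, 8) ∧ P = (4 * k + 4, 7) ∧ Q = (4 * k + 4, 1)) ∨
  (e = (2, 8) ∧ P = (8 * k + 8, 7) ∧ Q = (4 * k + 4, 1)) ∨
  (e = (9 + 2 * i, 3) ∧ P = (k + 2 + i, 8) ∧ Q = (2 * k + 2, 9)) ∨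
  (e = (9 + 2 * i, 5) ∧ P = (5 * k + 6 + i, 8) ∧ Q = (6 * k + 6, 9)) ∨
  (e = (9 + 2 * i, 7) ∧ P = (i, 14) ∧ Q = (4 * k + 4, 13)) ∨
  (e = (4, 10 + 2 * i) ∧ P = (2 * k + 2, 5) ∧ Q = (k + 2 + i, 6)) ∨
  (e = (6, 10 + 2 * i) ∧ P = (6 * k + 6, 5) ∧ Q = (5 * k + 6 + i, 6)) ∨
  (e = (8, 10 + 2 * i) ∧ P = (4 * k + 4, 1) ∧ Q = (i, 0))

theorem arc_cases {k : ℕ} {e : ℕ × ℕ} (hk : 0 < k) (he : e ∈ arcs k) :
    ∃ i < k, AC k i e (pos k e.1) (pos k e.2) := by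
  rcases mem_arcs.1 he with h | ⟨i, hi, h⟩
  · refine ⟨0, hk, ?_⟩
    simp only [core, List.mem_cons, List.not_mem_nil, or_false] at h
    rcases h with rfl | rfl | rfl | rfl | rfl | rfl | rfl | rfl | rfl | rfl | rfl | rfl | rfl | rfl <;>
      simp [AC, pos]
  · refine ⟨i, hi, ?_⟩
    have := cls_lt i
    rcases h with rfl | rfl
    · rw [pos_src]; generalize cls i = c at this; interval_cases c <;> simp [AC, xo, pos]
    · rw [pos_snk]; generalize cls i = c at this; interval_cases c <;> simp [AC, xo, pos]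

def cr (P : ℕ × ℕ) : ℝ × ℝ := ((P.1 : ℝ), (P.2 : ℝ))

theorem pt_mk {k v : ℕ} (E) (hv : v < 9 + 2 * k) : pt (mk k E) v = cr (pos k v) := by
  simp [pt, mk, cr, List.getD_eq_getElem?_getD, hv]

theorem disj_of_fun (a b c : ℝ) {P Q R S : ℝ × ℝ} (h1 : c ≤ a * P.1 + b * P.2)
    (h2 : c ≤ a * Q.1 + b * Q.2) (h3 : a * R.1 + b * R.2 ≤ c) (h4 : a * S.1 + b * S.2 ≤ c)
    (h5 : a * R.1 + b * R.2 + (a * S.1 + b * S.2) < a * P.1 + b * P.2 + (a * Q.1 + b * Q.2)) :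
    Disjoint (openSegment ℝ P Q) (openSegment ℝ R S) := by
  rw [Set.disjoint_left]
  rintro p ⟨t1, t2, ht1, ht2, ht, rfl⟩ ⟨s1, s2, hs1, hs2, hs, e⟩
  have ex := congrArg Prod.fst e
  have ey := congrArg Prod.snd e
  simp only [Prod.fst_add, Prod.smul_fst, smul_eq_mul, Prod.snd_add, Prod.smul_snd] at ex ey
  have h : t1 * (a * P.1 + b * P.2 - c) + t2 * (a * Q.1 + b * Q.2 - c) +
      s1 * (c - (a * R.1 + b * R.2)) + s2 * (c - (a * S.1 + b * S.2)) = 0 := by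
    linear_combination (-a) * ex - b * ey - c * ht + c * hs
  have n1 := mul_nonneg ht1.le (sub_nonneg.2 h1)
  have n2 := mul_nonneg ht2.le (sub_nonneg.2 h2)
  have n3 := mul_nonneg hs1.le (sub_nonneg.2 h3)
  have n4 := mul_nonneg hs2.le (sub_nonneg.2 h4)
  have z1 := (mul_eq_zero.1 (show t1 * (a * P.1 + b * P.2 - c) = 0 by linarith)).resolve_left ht1.ne'
  have z2 := (mul_eq_zero.1 (show t2 * (a * Q.1 + b * Q.2 - c) = 0 by linarith)).resolve_left ht2.ne'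
  have z3 := (mul_eq_zero.1 (show s1 * (c - (a * R.1 + b * R.2)) = 0 by linarith)).resolve_left hs1.ne'
  have z4 := (mul_eq_zero.1 (show s2 * (c - (a * S.1 + b * S.2)) = 0 by linarith)).resolve_left hs2.ne'
  linarith

/-- orientation determinant -/
def ori (P Q R : ℕ × ℕ) : ℤ :=
  ((Q.1 : ℤ) - P.1) * ((R.2 : ℤ) - P.2) - ((R.1 : ℤ) - P.1) * ((Q.2 : ℤ) - P.2)

def Sep1 (P Q R S : ℕ × ℕ) : Prop :=
  (0 ≤ ori P Q R ∧ 0 ≤ ori P Q S ∧ 0 < ori P Q R + ori P Q S) ∨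
  (ori P Q R ≤ 0 ∧ ori P Q S ≤ 0 ∧ ori P Q R + ori P Q S < 0) ∨
  (R.2 ≤ P.2 ∧ R.2 ≤ Q.2 ∧ S.2 ≤ P.2 ∧ S.2 ≤ Q.2 ∧ R.2 + S.2 < P.2 + Q.2)

theorem Sep1.disj {P Q R S : ℕ × ℕ} (h : Sep1 P Q R S) :
    Disjoint (openSegment ℝ (cr P) (cr Q)) (openSegment ℝ (cr R) (cr S)) := by
  rcases h with ⟨h1, h2, h3⟩ | ⟨h1, h2, h3⟩ | ⟨h1, h2, h3, h4, h5⟩
  · unfold ori at h1 h2 h3
    have h1' := (Int.cast_le (R := ℝ)).2 h1
    have h2' := (Int.cast_le (R := ℝ)).2 h2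
    have h3' := (Int.cast_lt (R := ℝ)).2 h3
    push_cast at h1' h2' h3'
    refine disj_of_fun ((Q.2 : ℝ) - P.2) (-((Q.1 : ℝ) - P.1))
      (((Q.2 : ℝ) - P.2) * P.1 - ((Q.1 : ℝ) - P.1) * P.2) ?_ ?_ ?_ ?_ ?_ <;> simp only [cr] <;> linarith
  · unfold ori at h1 h2 h3
    have h1' := (Int.cast_le (R := ℝ)).2 h1
    have h2' := (Int.cast_le (R := ℝ)).2 h2
    have h3' := (Int.cast_lt (R := ℝ)).2 h3
    push_cast at h1' h2' h3'
    refine disj_of_fun (-((Q.2 : ℝ) - P.2)) ((Q.1 : ℝ) - P.1)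
      (-((Q.2 : ℝ) - P.2) * P.1 + ((Q.1 : ℝ) - P.1) * P.2) ?_ ?_ ?_ ?_ ?_ <;> simp only [cr] <;> linarith
  · have h1' := (Nat.cast_le (α := ℝ)).2 h1
    have h2' := (Nat.cast_le (α := ℝ)).2 h2
    have h3' := (Nat.cast_le (α := ℝ)).2 h3
    have h4' := (Nat.cast_le (α := ℝ)).2 h4
    have h5' := (Nat.cast_lt (α := ℝ)).2 h5
    push_cast at h5'
    refine disj_of_fun 0 1 (min (P.2 : ℝ) Q.2) ?_ ?_ ?_ ?_ ?_ <;> simp [cr, *]

theorem sep_disj {P Q R S : ℕ × ℕ} (h : Sep1 P Q R S ∨ Sep1 R S P Q) :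
    Disjoint (openSegment ℝ (cr P) (cr Q)) (openSegment ℝ (cr R) (cr S)) :=
  h.elim Sep1.disj fun h => h.disj.symm

theorem AC.sep {k i j : ℕ} (hi : i < k) (hj : j < k) {e f P Q R S : ℕ × ℕ} (he : AC k i e P Q)
    (hf : AC k j f R S) (h : e ≠ f) : Sep1 P Q R S ∨ Sep1 R S P Q := by
  unfold AC at he hf
  rcases he with he | he | he | he | he | he | he | he | he | he | he | he | he | he | he | he | he |
    he | he | he <;>
  rcases hf with hf | hf | hf | hf | hf | hf | hf | hf | hf | hf | hf | hf | hf | hf | hf | hf | hf |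
    hf | hf | hf <;>
  obtain ⟨rfl, rfl, rfl⟩ := he <;> obtain ⟨rfl, rfl, rfl⟩ := hf <;>
  simp only [ne_eq, Prod.mk.injEq, not_true_eq_false, and_true, true_and] at h <;>
  simp only [Sep1, ori] <;> omega

theorem AC.sepv {k i j : ℕ} (hi : i < k) (hj : j < k) {e P Q R : ℕ × ℕ} {v : ℕ} (he : AC k i e P Q)
    (hf : VC k j v R) : Sep1 P Q R R ∨ Sep1 R R P Q := by
  unfold AC at he
  unfold VC at hf
  rcases he with he | he | he | he | he | he | he | he | he | he | he | he | he | he | he | he | he |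
    he | he | he <;>
  rcases hf with hf | hf | hf | hf | hf | hf | hf | hf | hf | hf | hf | hf | hf | hf | hf <;>
  obtain ⟨rfl, rfl, rfl⟩ := he <;> obtain ⟨rfl, rfl⟩ := hf <;>
  simp only [Sep1, ori] <;> omega

theorem arcs_lt {k : ℕ} : ∀ e ∈ arcs k, e.1 < 9 + 2 * k ∧ e.2 < 9 + 2 * k ∧ e.1 ≠ e.2 := by
  intro e he
  rcases mem_arcs.1 he with h | ⟨i, hi, h⟩
  · have : ∀ e ∈ core, e.1 < 9 ∧ e.2 < 9 ∧ e.1 ≠ e.2 := by decide
    have := this e h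
    omega
  · have := cls_lt i
    rcases h with rfl | rfl <;> simp only <;> omega

theorem plane_mk {k : ℕ} (hk : 0 < k) (E) : Plane (mk k E) := by
  have hl : (mk k E).1.length = 9 + 2 * k := by simp [mk]
  refine ⟨?_, ?_, ?_, ?_, ?_⟩
  · refine List.Nodup.map_on (fun u hu v hv h => ?_) List.nodup_range
    obtain ⟨i, hi, h1⟩ := vert_cases hk (List.mem_range.1 hu)
    obtain ⟨j, hj, h2⟩ := vert_cases hk (List.mem_range.1 hv)
    rw [h] at h1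
    generalize pos k v = P at h1 h2
    obtain ⟨x, y⟩ := P
    simp only [VC, Prod.mk.injEq] at h1 h2
    omega
  · change (arcs k).Nodup
    unfold arcs
    refine List.Nodup.append (by decide) ?_ ?_
    · refine List.nodup_flatMap.2 ⟨fun i _ => ?_, List.nodup_range.imp_of_mem ?_⟩
      · have := cls_lt i
        simp; omega
      · intro i j _ _ hij
        have := cls_lt i
        have := cls_lt j
        simp [Function.onFun, List.disjoint_left]; omega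
    · intro e h1 h2
      have : ∀ e ∈ core, e.1 < 9 ∧ e.2 < 9 := by decide
      have := this e h1
      simp only [List.mem_flatMap, List.mem_cons, List.not_mem_nil, or_false] at h2
      obtain ⟨i, -, rfl | rfl⟩ := h2 <;> simp only at this <;> omega
  · rw [hl]; exact arcs_lt
  · intro e he v hv
    rw [hl] at hv
    obtain ⟨h1, h2, -⟩ := arcs_lt e he
    rw [pt_mk E h1, pt_mk E h2, pt_mk E hv]
    obtain ⟨i, hi, a⟩ := arc_cases hk he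
    obtain ⟨j, hj, b⟩ := vert_cases hk hv
    have := sep_disj (a.sepv hi hj b)
    rw [openSegment_same] at this
    exact fun h => Set.disjoint_left.1 this h rfl
  · intro e he f hf hef
    obtain ⟨h1, h2, -⟩ := arcs_lt e he
    obtain ⟨h3, h4, -⟩ := arcs_lt f hf
    rw [pt_mk E h1, pt_mk E h2, pt_mk E h3, pt_mk E h4]
    obtain ⟨i, hi, a⟩ := arc_cases hk he
    obtain ⟨j, hj, b⟩ := arc_cases hk hf
    exact sep_disj (a.sep hi hj b hef)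

end Pool.Agent.H22.PDP
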