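import Pool.Agent.H22.PDP2

/-!
Faces of the embedding.
-/

namespace Pool.Agent.H22.PDP

open Pool.Agent.H38.NP

/-- open half-plane -/
def HP (h : ℤ × ℤ × ℤ) : Set (ℝ × ℝ) := {p | (h.1 : ℝ) * p.1 + h.2.1 * p.2 < h.2.2}

theorem HP_convex (h) : Convex ℝ (HP h) := by
  intro p hp q hq s t hs ht hst
  simp only [HP, Set.mem_setOf_eq, Prod.fst_add, Prod.smul_fst, smul_eq_mul, Prod.snd_add,
    Prod.smul_snd] at *
  rcases hs.eq_or_lt with rfl | hs'
  · have : t = 1 := by linarith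
    subst this; linarith
  · have h1 := mul_lt_mul_of_pos_left hp hs'
    have h2 := mul_le_mul_of_nonneg_left hq.le ht
    have h3 : (h.2.2 : ℝ) = s * h.2.2 + t * h.2.2 := by rw [← add_mul, hst, one_mul]
    linarith

def ev (h : ℤ × ℤ × ℤ) (P : ℕ × ℕ) : ℤ := h.1 * P.1 + h.2.1 * P.2 - h.2.2

theorem seg_not_HP {h} {P Q : ℕ × ℕ} (h1 : 0 ≤ ev h P) (h2 : 0 ≤ ev h Q) :
    ∀ p ∈ segment ℝ (cr P) (cr Q), p ∉ HP h := by
  rintro p ⟨s, t, hs, ht, hst, rfl⟩
  unfold ev at h1 h2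
  have h1' := (Int.cast_le (R := ℝ)).2 h1
  have h2' := (Int.cast_le (R := ℝ)).2 h2
  push_cast at h1' h2'
  simp only [HP, cr, Set.mem_setOf_eq, Prod.fst_add, Prod.smul_fst, smul_eq_mul, Prod.snd_add,
    Prod.smul_snd, not_lt]
  have h1 := mul_nonneg hs h1'
  have h2 := mul_nonneg ht h2'
  have h3 : (h.2.2 : ℝ) = s * h.2.2 + t * h.2.2 := by rw [← add_mul, hst, one_mul]
  linarith

theorem mem_HP {h} {P : ℕ × ℕ} (h1 : ev h P < 0) : cr P ∈ HP h := by
  unfold ev at h1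
  have h1' := (Int.cast_lt (R := ℝ)).2 h1
  push_cast at h1'
  simp only [HP, cr, Set.mem_setOf_eq]; linarith

/-- intersection of open half-planes -/
def Reg (H : List (ℤ × ℤ × ℤ)) : Set (ℝ × ℝ) := {p | ∀ h ∈ H, p ∈ HP h}

theorem Reg_convex (H) : Convex ℝ (Reg H) := fun _ hp _ hq _ _ hs ht hst h hh =>
  HP_convex h (hp h hh) (hq h hh) hs ht hst

theorem mem_closure_Reg {H} {z : ℝ × ℝ} (hz : z ∈ Reg H) {P : ℕ × ℕ} (hP : ∀ h ∈ H, ev h P ≤ 0) :
    cr P ∈ closure (Reg H) := by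
  refine closure_mono ?_ (segment_subset_closure_openSegment (right_mem_segment ℝ z (cr P)))
  rintro p ⟨s, t, hs, ht, hst, rfl⟩ h hh
  have h1 := hz h hh
  have h2 := hP h hh
  unfold ev at h2
  have h2' := (Int.cast_le (R := ℝ)).2 h2
  push_cast at h2'
  simp only [HP, cr, Set.mem_setOf_eq, Prod.fst_add, Prod.smul_fst, smul_eq_mul, Prod.snd_add,
    Prod.smul_snd] at *
  have h3 := mul_lt_mul_of_pos_left h1 hs
  have h4 := mul_le_mul_of_nonneg_left h2' ht.le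
  have h5 : (h.2.2 : ℝ) = s * h.2.2 + t * h.2.2 := by rw [← add_mul, hst, one_mul]
  linarith

theorem Reg_sub {k : ℕ} (hk : 0 < k) (E) {H : List (ℤ × ℤ × ℤ)}
    (h1 : ∀ i < k, ∀ v P, VC k i v P → ∃ h ∈ H, 0 ≤ ev h P)
    (h2 : ∀ i < k, ∀ e P Q, AC k i e P Q → ∃ h ∈ H, 0 ≤ ev h P ∧ 0 ≤ ev h Q) :
    Reg H ⊆ (drawing (mk k E))ᶜ := by
  have hl : (mk k E).1.length = 9 + 2 * k := by simp [mk]
  rintro p hp (⟨v, hv, rfl⟩ | ⟨e, he, hs⟩)
  · rw [hl] at hv
    obtain ⟨i, hi, a⟩ := vert_cases hk hv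
    obtain ⟨h, hh, b⟩ := h1 i hi _ _ a
    rw [pt_mk E hv] at hp
    exact seg_not_HP b b _ (left_mem_segment ℝ _ _) (hp h hh)
  · obtain ⟨h3, h4, -⟩ := arcs_lt e he
    rw [pt_mk E h3, pt_mk E h4] at hs
    obtain ⟨i, hi, a⟩ := arc_cases hk he
    obtain ⟨h, hh, b, c⟩ := h2 i hi _ _ _ a
    exact seg_not_HP b c _ hs (hp h hh)

/-- the middle part of the hole with left corner at `x = a` -/
def hole (k : ℕ) (a : ℤ) : List (ℤ × ℤ × ℤ) :=
  [(0, 1, 8), (0, -1, -6), (-1, 0, -a), (1, 0, a + 4 * k + 4),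
    (-1, k + 1, 7 * k + 7 - a), (-1, -(k + 1), -(7 * k + 7) - a),
    (1, k + 1, 11 * k + 11 + a), (1, -(k + 1), -(3 * k + 3) + a)]

theorem sub_gen {k : ℕ} (hk : 0 < k) (E) (H : List (ℤ × ℤ × ℤ))
    (hH : H = hole k 0 ∨ H = hole k (4 * k + 4) ∨ H = [(0, -1, -14)] ∨ H = [(1, 0, 0)] ∨
      H = [(0, 1, 0)]) : Reg H ⊆ (drawing (mk k E))ᶜ := by
  refine Reg_sub hk E (fun i hi v P h => ?_) fun i hi e P Q h => ?_
  · unfold VC at h
    rcases h with h | h | h | h | h | h | h | h | h | h | h | h | h | h | h <;>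
    obtain ⟨rfl, rfl⟩ := h <;> rcases hH with rfl | rfl | rfl | rfl | rfl <;>
    simp only [hole, List.mem_cons, List.not_mem_nil, or_false, exists_eq_or_imp, exists_eq_left,
      ev] <;> omega
  · unfold AC at h
    rcases h with h | h | h | h | h | h | h | h | h | h | h | h | h | h | h | h | h | h | h | h <;>
    obtain ⟨rfl, rfl, rfl⟩ := h <;> rcases hH with rfl | rfl | rfl | rfl | rfl <;>
    simp only [hole, List.mem_cons, List.not_mem_nil, or_false, exists_eq_or_imp, exists_eq_left,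
      ev] <;> omega

theorem front {D U : Set (ℝ × ℝ)} {z p : ℝ × ℝ} (hU : IsPreconnected U) (hz : z ∈ U)
    (hD : U ⊆ Dᶜ) (hp : p ∈ closure U) (hp' : p ∈ D) : p ∈ frontier (connectedComponentIn Dᶜ z) :=
  ⟨closure_mono (hU.subset_connectedComponentIn hz hD) hp,
    fun h => connectedComponentIn_subset _ _ (interior_subset h) hp'⟩

theorem mem_terminals {k t : ℕ} {E} : t ∈ terminals (mk k E) ↔
    ∃ i < k, t = (if i < 3 then i else 9 + 2 * i) ∨ t = 10 + 2 * i := by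
  simp [terminals, mk, term, List.mem_flatMap]

theorem onFaces_mk {k : ℕ} (hk : 0 < k) (E) : OnFaces 3 (mk k E) := by
  have hl : (mk k E).1.length = 9 + 2 * k := by simp [mk]
  have z1 : cr (1, 7) ∈ Reg (hole k 0) := fun h hh => mem_HP (by
    simp only [hole, List.mem_cons, List.not_mem_nil, or_false] at hh
    rcases hh with rfl | rfl | rfl | rfl | rfl | rfl | rfl | rfl <;> simp only [ev] <;> omega)
  have z2 : cr (4 * k + 5, 7) ∈ Reg (hole k (4 * k + 4)) := fun h hh => mem_HP (by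
    simp only [hole, List.mem_cons, List.not_mem_nil, or_false] at hh
    rcases hh with rfl | rfl | rfl | rfl | rfl | rfl | rfl | rfl <;> simp only [ev] <;> omega)
  let U : Set (ℝ × ℝ) := (Reg [(0, -1, -14)] ∪ Reg [(1, 0, 0)]) ∪ Reg [(0, 1, 0)]
  have z3 : ((-1, 15) : ℝ × ℝ) ∈ Reg [(0, -1, -14)] := by simp [Reg, HP]; norm_num
  have z4 : ((-1, 15) : ℝ × ℝ) ∈ Reg [(1, 0, 0)] := by simp [Reg, HP]
  have z5 : ((-1, -1) : ℝ × ℝ) ∈ Reg [(1, 0, 0)] := by simp [Reg, HP]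
  have z6 : ((-1, -1) : ℝ × ℝ) ∈ Reg [(0, 1, 0)] := by simp [Reg, HP]
  have hU : IsPreconnected U :=
    IsPreconnected.union _ (Or.inr z5) z6
      (IsPreconnected.union _ z3 z4 (Reg_convex _).isPreconnected (Reg_convex _).isPreconnected)
      (Reg_convex _).isPreconnected
  have hD : U ⊆ (drawing (mk k E))ᶜ :=
    Set.union_subset (Set.union_subset (sub_gen hk E _ (by simp)) (sub_gen hk E _ (by simp)))
      (sub_gen hk E _ (by simp))
  have hD1 := sub_gen hk E (hole k 0) (by simp)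
  have hD2 := sub_gen hk E (hole k (4 * k + 4)) (by simp)
  refine ⟨![cr (1, 7), cr (4 * k + 5, 7), (-1, 15)], fun j => ?_, fun t ht => ?_⟩
  · fin_cases j
    · exact hD1 z1
    · exact hD2 z2
    · exact hD (Or.inl (Or.inl z3))
  obtain ⟨i, hi, ht⟩ := mem_terminals.1 ht
  have hv : t < 9 + 2 * k := by split_ifs at ht <;> omega
  have hp : pt (mk k E) t ∈ drawing (mk k E) := Or.inl ⟨t, hl ▸ hv, rfl⟩
  obtain ⟨j, hj, a⟩ := vert_cases hk hv
  have key : (∀ h ∈ hole k 0, ev h (pos k t) ≤ 0) ∨ (∀ h ∈ hole k (4 * k + 4), ev h (pos k t) ≤ 0) ∨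
      (∀ h ∈ [((0 : ℤ), (-1 : ℤ), (-14 : ℤ))], ev h (pos k t) ≤ 0) ∨
      (∀ h ∈ [((0 : ℤ), (1 : ℤ), (0 : ℤ))], ev h (pos k t) ≤ 0) := by
    have ht' : t < 3 ∨ 9 ≤ t := by split_ifs at ht <;> omega
    generalize pos k t = P at a
    unfold VC at a
    rcases a with h | h | h | h | h | h | h | h | h | h | h | h | h | h | h <;>
    obtain ⟨rfl, rfl⟩ := h <;>
    simp only [hole, List.forall_mem_cons, List.not_mem_nil, IsEmpty.forall_iff, implies_true,
      and_true, ev] <;> omega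
  rw [pt_mk E hv] at hp ⊢
  rcases key with h | h | h | h
  · exact ⟨0, front (Reg_convex _).isPreconnected z1 hD1 (mem_closure_Reg z1 h) hp⟩
  · exact ⟨1, front (Reg_convex _).isPreconnected z2 hD2 (mem_closure_Reg z2 h) hp⟩
  · exact ⟨2, front hU (Or.inl (Or.inl z3)) hD (closure_mono
      (Set.subset_union_left.trans Set.subset_union_left) (mem_closure_Reg z3 h)) hp⟩
  · exact ⟨2, front hU (Or.inl (Or.inl z3)) hD (closure_mono
      Set.subset_union_right (mem_closure_Reg z6 h)) hp⟩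

end Pool.Agent.H22.PDP
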