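import Pool.Agent.H22.PDP3

/-!
Paths and the hardness theorem.
-/

namespace Pool.Agent.H22.PDP

open Pool.Agent.H38.NP

theorem valid_mk {k : ℕ} (hk : 0 < k) {E : List (ℕ × ℕ)}
    (hE : ∀ e ∈ E, e.1 < k ∧ e.2 < k ∧ cls e.1 ≠ cls e.2) : Valid (mk k E) := by
  have hl : (mk k E).1.length = 9 + 2 * k := by simp [mk]
  refine ⟨plane_mk hk E, ?_, fun t ht => ?_, ?_, fun f hf => ?_⟩
  · simp [mk]; omega
  · obtain ⟨i, hi, ht⟩ := mem_terminals.1 ht
    rw [hl]; split_ifs at ht <;> omega
  · simp only [terminals, mk, List.flatMap_map]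
    refine List.nodup_flatMap.2 ⟨fun i _ => ?_, List.nodup_range.imp_of_mem ?_⟩
    · simp only [term, List.nodup_cons, List.mem_singleton, List.not_mem_nil, not_false_eq_true,
        List.nodup_nil, and_true]
      split_ifs <;> omega
    · intro i j _ _ hij
      simp only [Function.onFun, term, List.disjoint_left, List.mem_cons, List.not_mem_nil,
        or_false, forall_eq_or_imp, forall_eq]
      split_ifs <;> omega
  · obtain ⟨h1, h2, h3⟩ := hE f hf
    simp only [mk, List.length_map, List.length_range]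
    exact ⟨h1, h2, fun h => h3 (by rw [h])⟩

theorem out_src {k i v : ℕ} (h : (9 + 2 * i, v) ∈ arcs k) : v = 3 + 2 * cls i := by
  rcases mem_arcs.1 h with h | ⟨j, -, h | h⟩
  · have : ∀ e ∈ core, e.1 < 9 := by decide
    have := this _ h
    simp only at this; omega
  · simp only [Prod.mk.injEq] at h
    obtain rfl : i = j := by omega
    exact h.2
  · have := cls_lt j
    simp only [Prod.mk.injEq] at h; omega

theorem out_mid {k c v : ℕ} (hc : c < 3) (h : (3 + 2 * c, v) ∈ arcs k) :
    v < 3 ∧ (c = 0 → v ≠ 2) ∧ (c = 1 → v ≠ 0) := by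
  rcases mem_arcs.1 h with h | ⟨j, -, h | h⟩
  · simp only [core, List.mem_cons, Prod.mk.injEq, List.not_mem_nil, or_false] at h; omega
  · simp only [Prod.mk.injEq] at h; omega
  · simp only [Prod.mk.injEq] at h; omega

theorem solvable_mk {k : ℕ} {E : List (ℕ × ℕ)}
    (hE : ∀ e ∈ E, e.1 < k ∧ e.2 < k ∧ cls e.1 ≠ cls e.2) :
    (∃ col : ℕ → ℕ, (∀ i < k, Ok i (col i)) ∧ ∀ e ∈ E, col e.1 ≠ col e.2) ↔ Solvable (mk k E) := by
  have ht : ∀ i (h : i < (mk k E).2.2.1.length), (mk k E).2.2.1[i] = term i := by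
    intro i h; simp [mk]
  have hl : (mk k E).2.2.1.length = k := by simp [mk]
  constructor
  · rintro ⟨col, h1, h2⟩
    refine ⟨fun i => (if i < 3 then [] else [9 + 2 * i, 3 + 2 * cls i]) ++
      [col i, 4 + 2 * cls i, 10 + 2 * i], fun i h => ?_, fun f hf => ?_⟩
    · rw [ht]
      rw [hl] at h
      obtain ⟨a1, a2, a3, a4⟩ := h1 i h
      have hc := cls_lt i
      have b1 : (9 + 2 * i, 3 + 2 * cls i) ∈ arcs k := mem_arcs.2 (Or.inr ⟨i, h, Or.inl rfl⟩)
      have b2 : (4 + 2 * cls i, 10 + 2 * i) ∈ arcs k := mem_arcs.2 (Or.inr ⟨i, h, Or.inr rfl⟩)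
      have b3 : (3 + 2 * cls i, col i) ∈ arcs k ∧ (col i, 4 + 2 * cls i) ∈ arcs k := by
        simp only [mem_arcs, core, List.mem_cons, Prod.mk.injEq, List.not_mem_nil, or_false]
        exact ⟨Or.inl (by omega), Or.inl (by omega)⟩
      unfold IsPath term
      change _ ∧ _ ∧ _ ∧ List.IsChain (fun u v => (u, v) ∈ arcs k) _
      beta_reduce
      split_ifs with h3
      · refine ⟨by simp [a2 h3], by simp, by simp; omega, by simp [b2, b3]⟩
      · refine ⟨by simp, by simp, by simp; omega, by simp [b1, b2, b3]⟩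
    · obtain ⟨a1, a2, a3⟩ := hE f hf
      have a4 := h2 f hf
      have a5 := (h1 _ a1).1
      have a6 := (h1 _ a2).1
      have a7 := cls_lt f.1
      have a8 := cls_lt f.2
      have a9 : f.1 ≠ f.2 := fun h => a3 (by rw [h])
      rw [List.disjoint_left]
      intro x
      beta_reduce
      split_ifs <;> simp only [List.nil_append, List.cons_append, List.mem_cons, List.not_mem_nil,
        or_false] <;> omega
  · rintro ⟨P, h1, h2⟩
    have : ∀ i < k, ∃ c, Ok i c ∧ c ∈ P i := by
      intro i hi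
      obtain ⟨a1, a2, -, a3⟩ := h1 i (hl.symm ▸ hi)
      rw [ht] at a1 a2
      change List.IsChain (fun u v => (u, v) ∈ arcs k) _ at a3
      have hc := cls_lt i
      unfold term at a1 a2
      by_cases h3 : i < 3
      · refine ⟨i, ?_, List.mem_of_head? (by simpa [h3] using a1)⟩
        interval_cases i <;> simp [Ok, cls]
      · rw [if_neg h3] at a1
        generalize P i = Q at a1 a2 a3
        match Q, a1, a2, a3 with
        | [], a1, _, _ => simp at a1
        | [x], a1, a2, _ => simp at a1 a2; omega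
        | [x, y], a1, a2, a3 =>
          simp at a1 a2 a3
          subst a1 a2
          have := out_src a3
          omega
        | x :: y :: z :: r, a1, _, a3 =>
          simp only [List.head?_cons, Option.some.injEq] at a1
          simp only [List.isChain_cons_cons] at a3
          subst a1
          obtain rfl := out_src a3.1
          obtain ⟨b1, b2, b3⟩ := out_mid hc a3.2.1
          exact ⟨z, ⟨b1, fun h => absurd h h3, b2, b3⟩, by simp⟩
    choose! col hcol using this
    refine ⟨col, fun i hi => (hcol i hi).1, fun e he h => ?_⟩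
    obtain ⟨a1, a2, -⟩ := hE e he
    exact List.disjoint_left.1 (h2 e he) (hcol _ a1).2 (h ▸ (hcol _ a2).2)

@[fun_prop] theorem pt_cls {α : Type} [Enc α] {f : α → ℕ} (hf : PT f) : PT fun a => cls (f a) := by
  unfold cls; fun_prop

@[fun_prop] theorem pt_bnd {α : Type} [Enc α] {f : α → F3} (hf : PT f) : PT fun a => bnd (f a) := by
  unfold bnd; fun_prop

theorem main : NPHardOn (fun I => Valid I ∧ OnFaces 3 I) Solvable := by
  refine (sat3_nph.reduce (fun φ => mk (kk φ) (edges φ)) ?_ fun φ _ => ?_).npHardOn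
  · unfold mk arcs term pos xo edges kk L X; fun_prop
  · have hk : 0 < kk φ := by unfold kk; omega
    exact ⟨⟨valid_mk hk (edges_ok φ), onFaces_mk hk _⟩, (sat_iff φ).trans (solvable_mk (edges_ok φ))⟩

end Pool.Agent.H22.PDP
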