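import Pool.Agent.H22.PDP4

/-!
The list colouring problem with a disjointness graph of maximum degree four.
-/

namespace Pool.Agent.H22.PDP

open Pool.Agent.H38.NP

def TT (φ : F3) : ℕ := 3 * φ.length + 1
def SS (φ : F3) : ℕ := bnd φ * TT φ
def Mn (s r : ℕ) : ℕ := X (2 * s + 2) r
def Cn (s r : ℕ) : ℕ := X (2 * s + 1) r
def LL (φ : F3) (u : ℕ) : ℕ := Mn ((litAt φ u).1 * TT φ + u) (!(litAt φ u).2).toNat

def edges2 (φ : F3) : List (ℕ × ℕ) :=
  [(Cn 0 3, 1), (Cn 0 3, 2), (Cn 0 4, 0), (Cn 0 4, 2)] ++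
  (List.range (SS φ)).flatMap (fun s => [(Mn s 0, Mn s 2), (Mn s 2, Mn s 3), (Mn s 3, Mn s 1),
    (Mn s 3, Cn (s + 1) 0), (Cn s 3, Cn (s + 1) 2), (Cn s 4, Cn (s + 1) 5),
    (Cn (s + 1) 2, Cn (s + 1) 0), (Cn (s + 1) 2, Cn (s + 1) 3), (Cn (s + 1) 0, Cn (s + 1) 3),
    (Cn (s + 1) 5, Cn (s + 1) 4), (Cn (s + 1) 0, Cn (s + 1) 4), (Cn (s + 1) 6, Cn (s + 1) 5),
    (Cn (s + 1) 6, Mn s 0),
    (Cn (s + 1) 6, Mn (if (s + 1) % TT φ = 0 then s else s + 1) 0)]) ++
  (List.range φ.length).flatMap fun c => [(Mn c 4, Mn c 5), (Mn c 5, Mn c 6),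
    (Mn c 6, Cn (c + 1) 5), (Mn c 6, LL φ (3 * c)), (Mn c 4, Mn c 7), (Mn c 7, Mn c 8),
    (Mn c 8, Cn (c + 1) 2), (Mn c 8, LL φ (3 * c + 1)), (Mn c 4, LL φ (3 * c + 2))]

def kk2 (φ : F3) : ℕ := 3 + 9 * (2 * SS φ + 3)

theorem idx_lt (φ : F3) {u : ℕ} (hu : u < 3 * φ.length) : (litAt φ u).1 * TT φ + u < SS φ := by
  have h1 := Nat.mul_le_mul_right (TT φ) (Nat.succ_le_of_lt (lit_lt φ hu))
  rw [Nat.succ_mul] at h1
  unfold SS; unfold TT at *; omega

theorem len_le (φ : F3) : φ.length ≤ SS φ :=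
  (show φ.length ≤ bnd φ by unfold bnd; omega).trans
    (Nat.le_mul_of_pos_right _ (by unfold TT; omega))

theorem cls_LL (φ : F3) (u : ℕ) : cls (LL φ u) = 1 := by
  unfold LL Mn; rw [cls_X _ _ (by cases (litAt φ u).2 <;> simp)]; cases (litAt φ u).2 <;> simp

theorem LL_lt (φ : F3) {u : ℕ} (hu : u < 3 * φ.length) : LL φ u < kk2 φ := by
  have := idx_lt φ hu
  unfold LL Mn X kk2; cases (litAt φ u).2 <;> simp <;> omega

theorem edges2_ok (φ : F3) : ∀ e ∈ edges2 φ, e.1 < kk2 φ ∧ e.2 < kk2 φ ∧ cls e.1 ≠ cls e.2 := by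
  have hb := len_le φ
  simp only [edges2, List.forall_mem_append, List.forall_mem_flatMap, List.forall_mem_cons,
    List.mem_range, List.not_mem_nil, IsEmpty.forall_iff, implies_true, and_true]
  refine ⟨⟨?_, fun q hq => ?_⟩, fun c hc => ?_⟩
  · simp [Cn, X, kk2, cls]; omega
  · simp only [Mn, Cn, cls_X _ _ (show 0 < 9 by omega), cls_X _ _ (show 1 < 9 by omega),
      cls_X _ _ (show 2 < 9 by omega), cls_X _ _ (show 3 < 9 by omega),
      cls_X _ _ (show 4 < 9 by omega), cls_X _ _ (show 5 < 9 by omega),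
      cls_X _ _ (show 6 < 9 by omega)]
    simp [X, kk2]; split_ifs <;> omega
  · have h0 := LL_lt φ (show 3 * c < 3 * φ.length by omega)
    have h1 := LL_lt φ (show 3 * c + 1 < 3 * φ.length by omega)
    have h2 := LL_lt φ (show 3 * c + 2 < 3 * φ.length by omega)
    simp only [Mn, Cn, cls_X _ _ (show 4 < 9 by omega), cls_X _ _ (show 5 < 9 by omega),
      cls_X _ _ (show 6 < 9 by omega), cls_X _ _ (show 7 < 9 by omega),
      cls_X _ _ (show 8 < 9 by omega), cls_X _ _ (show 2 < 9 by omega), cls_LL, h0, h1, h2]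
    simp [X, kk2]; omega

/-- colours of the constant blocks -/
def ccol (t : Bool) (r : ℕ) : ℕ :=
  if r = 0 then 2 else if r = 2 then 1 else if r = 3 then 0 else if r = 4 then 1 else
  if r = 5 then 0 else if r = 6 then (if t then 2 else 1) else 1

theorem sat_iff2 (φ : F3) : Sat3 φ ↔
    ∃ col : ℕ → ℕ, (∀ i < kk2 φ, Ok i (col i)) ∧ ∀ e ∈ edges2 φ, col e.1 ≠ col e.2 := by
  have hb := len_le φ
  have hT : 0 < TT φ := by unfold TT; omega
  rw [sat3_iff_litAt]
  simp only [edges2, List.forall_mem_append, List.forall_mem_flatMap, List.forall_mem_cons,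
    List.mem_range, List.not_mem_nil, IsEmpty.forall_iff, implies_true, and_true]
  constructor
  · rintro ⟨a, ha⟩
    let tv : ℕ → Bool := fun u => a (litAt φ u).1 == (litAt φ u).2
    let bc : ℕ → ℕ → ℕ := fun q r => if q % 2 = 0 then
      gcol (a ((q / 2 - 1) / TT φ)) (tv (3 * (q / 2 - 1))) (tv (3 * (q / 2 - 1) + 1))
        (tv (3 * (q / 2 - 1) + 2)) r else ccol (a ((q / 2 - 1) / TT φ)) r
    let col : ℕ → ℕ := fun i => if i < 3 then i else bc ((i - 3) / 9) ((i - 3) % 9)
    have h0 : ∀ q r, r < 9 → col (X q r) = bc q r := fun q r hr => by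
      have e1 : (X q r - 3) / 9 = q := by unfold X; omega
      have e2 : (X q r - 3) % 9 = r := by unfold X; omega
      simp only [col, e1, e2]
      rw [if_neg (by unfold X; omega)]
    have h1 : ∀ s r, r < 9 → col (Mn s r) =
        gcol (a (s / TT φ)) (tv (3 * s)) (tv (3 * s + 1)) (tv (3 * s + 2)) r := fun s r hr => by
      rw [Mn, h0 _ _ hr]
      simp only [bc, show (2 * s + 2) % 2 = 0 by omega, show (2 * s + 2) / 2 - 1 = s by omega, if_true]
    have h1' : ∀ s r, r < 9 → col (Cn s r) = ccol (a ((s - 1) / TT φ)) r := fun s r hr => by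
      rw [Cn, h0 _ _ hr]
      simp only [bc, show (2 * s + 1) / 2 = s by omega]
      rw [if_neg (by omega)]
    have h2 : ∀ u < 3 * φ.length, col (LL φ u) = if tv u then 1 else 2 := fun u hu => by
      unfold LL
      rw [h1 _ _ (by cases (litAt φ u).2 <;> simp), mul_comm _ (TT φ), Nat.mul_add_div hT,
        Nat.div_eq_of_lt (show u < TT φ by unfold TT; omega), add_zero]
      have : tv u = (a (litAt φ u).1 == (litAt φ u).2) := rfl
      rw [this]
      generalize tv (3 * (TT φ * (litAt φ u).1 + u)) = x, tv (3 * (TT φ * (litAt φ u).1 + u) + 1) = y,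
        tv (3 * (TT φ * (litAt φ u).1 + u) + 2) = z
      generalize a (litAt φ u).1 = s
      generalize (litAt φ u).2 = t
      cases s <;> cases t <;> simp [gcol]
    have h3 : col 0 = 0 ∧ col 1 = 1 ∧ col 2 = 2 := by simp [col]
    refine ⟨col, fun i _ => ?_, ⟨?_, fun q _ => ?_⟩, fun c hc => ?_⟩
    · by_cases h : i < 3
      · interval_cases i <;> simp [Ok, col, cls]
      · obtain ⟨q, r, hr, rfl⟩ : ∃ q r, r < 9 ∧ i = X q r :=
          ⟨(i - 3) / 9, (i - 3) % 9, by omega, by unfold X; omega⟩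
        unfold Ok
        rw [h0 _ _ hr, cls_X _ _ hr]
        simp only [bc]
        generalize a ((q / 2 - 1) / TT φ) = t0, tv (3 * (q / 2 - 1)) = x,
          tv (3 * (q / 2 - 1) + 1) = y, tv (3 * (q / 2 - 1) + 2) = z
        by_cases hq : q % 2 = 0
        · rw [if_pos hq]
          refine ⟨?_, fun h' => absurd h' h, ?_⟩ <;>
          interval_cases r <;> cases t0 <;> cases x <;> cases y <;> cases z <;> simp [gcol]
        · rw [if_neg hq]
          refine ⟨?_, fun h' => absurd h' h, ?_⟩ <;>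
          interval_cases r <;> cases t0 <;> simp [ccol]
    · simp [h1' _ _ (show 3 < 9 by omega), h1' _ _ (show 4 < 9 by omega), h3, ccol]
    · have e : (if (q + 1) % TT φ = 0 then q else q + 1) / TT φ = q / TT φ := by
        split_ifs with h
        · rfl
        · exact Nat.succ_div_of_not_dvd fun h' => h (Nat.mod_eq_zero_of_dvd h')
      simp only [h1 _ _ (show 0 < 9 by omega), h1 _ _ (show 1 < 9 by omega),
        h1 _ _ (show 2 < 9 by omega), h1 _ _ (show 3 < 9 by omega),
        h1' _ _ (show 0 < 9 by omega), h1' _ _ (show 2 < 9 by omega),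
        h1' _ _ (show 3 < 9 by omega), h1' _ _ (show 4 < 9 by omega),
        h1' _ _ (show 5 < 9 by omega), h1' _ _ (show 6 < 9 by omega), e, Nat.add_sub_cancel]
      cases a (q / TT φ) <;> simp [gcol, ccol]
    · simp only [h1 _ _ (show 4 < 9 by omega), h1 _ _ (show 5 < 9 by omega),
        h1 _ _ (show 6 < 9 by omega), h1 _ _ (show 7 < 9 by omega),
        h1 _ _ (show 8 < 9 by omega), h1' _ _ (show 2 < 9 by omega),
        h1' _ _ (show 5 < 9 by omega), h2 (3 * c) (by omega), h2 (3 * c + 1) (by omega),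
        h2 (3 * c + 2) (by omega)]
      have h4 : tv (3 * c) = true ∨ tv (3 * c + 1) = true ∨ tv (3 * c + 2) = true := by
        obtain ⟨j, hj, e⟩ := ha c hc
        interval_cases j
        · left; simpa [tv] using e
        · right; left; simpa [tv] using e
        · right; right; simpa [tv] using e
      revert h4
      generalize tv (3 * c) = x, tv (3 * c + 1) = y, tv (3 * c + 2) = z
      cases x <;> cases y <;> cases z <;> simp [gcol, ccol]
  · rintro ⟨col, h0, ⟨hi, h1⟩, h2⟩
    have c0 : col 0 = 0 := (h0 0 (by unfold kk2; omega)).2.1 (by omega)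
    have c1 : col 1 = 1 := (h0 1 (by unfold kk2; omega)).2.1 (by omega)
    have c2 : col 2 = 2 := (h0 2 (by unfold kk2; omega)).2.1 (by omega)
    have hx : ∀ q < 2 * SS φ + 3, ∀ r < 9, col (X q r) < 3 ∧ (r < 2 → col (X q r) ≠ 0) ∧
        (r = 2 ∨ r = 5 ∨ r = 7 → col (X q r) ≠ 2) := fun q hq r hr => by
      have := h0 (X q r) (by unfold X kk2; omega)
      unfold Ok at this
      rw [cls_X _ _ hr] at this
      refine ⟨this.1, fun h => this.2.2.2 (by rw [if_pos h]), fun h => this.2.2.1 ?_⟩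
      rw [if_neg (by omega), if_pos h]
    have hm : ∀ s ≤ SS φ, ∀ r < 9, col (Mn s r) < 3 ∧ (r < 2 → col (Mn s r) ≠ 0) ∧
        (r = 2 ∨ r = 5 ∨ r = 7 → col (Mn s r) ≠ 2) := fun s hs => hx _ (by omega)
    have hc : ∀ s ≤ SS φ, ∀ r < 9, col (Cn s r) < 3 ∧ (r < 2 → col (Cn s r) ≠ 0) ∧
        (r = 2 ∨ r = 5 ∨ r = 7 → col (Cn s r) ≠ 2) := fun s hs => hx _ (by omega)
    have step : ∀ s < SS φ, col (Cn s 3) = 0 ∧ col (Cn s 4) = 1 → col (Cn (s + 1) 2) = 1 ∧
        col (Cn (s + 1) 5) = 0 ∧ col (Cn (s + 1) 0) = 2 ∧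
        col (Cn (s + 1) 3) = 0 ∧ col (Cn (s + 1) 4) = 1 := by
      intro s hs h
      have := h1 s hs
      have a0 := hc (s + 1) hs 0 (by omega)
      have a2 := hc (s + 1) hs 2 (by omega)
      have a3 := hc (s + 1) hs 3 (by omega)
      have a4 := hc (s + 1) hs 4 (by omega)
      have a5 := hc (s + 1) hs 5 (by omega)
      omega
    have cst : ∀ s ≤ SS φ, col (Cn s 3) = 0 ∧ col (Cn s 4) = 1 := by
      intro s hs
      induction s with
      | zero =>
        have a3 := hc 0 hs 3 (by omega)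
        have a4 := hc 0 hs 4 (by omega)
        omega
      | succ s ih => exact (step s hs (ih (by omega))).2.2.2
    have chain : ∀ v u, u < TT φ → v * TT φ + u < SS φ →
        col (Mn (v * TT φ + u) 0) = col (Mn (v * TT φ) 0) := by
      intro v u hu hs
      induction u with
      | zero => rfl
      | succ u ih =>
        have a1 := h1 (v * TT φ + u) (by omega)
        have a2 := step _ (show v * TT φ + u < SS φ by omega) (cst _ (by omega))
        have a3 := hc (v * TT φ + u + 1) (by omega) 6 (by omega)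
        have a4 := hm (v * TT φ + u) (by omega) 0 (by omega)
        have a5 := hm (v * TT φ + u + 1) (by omega) 0 (by omega)
        rw [if_neg (by
          rw [Nat.add_assoc, mul_comm, Nat.mul_add_mod, Nat.mod_eq_of_lt hu]; omega)] at a1
        rw [← ih (by omega) (by omega), ← Nat.add_assoc]
        omega
    refine ⟨fun v => decide (col (Mn (v * TT φ) 0) = 1), fun c hc' => ?_⟩
    have key : ∀ u < 3 * φ.length, col (LL φ u) = 1 →
        decide (col (Mn ((litAt φ u).1 * TT φ) 0) = 1) = (litAt φ u).2 := fun u hu h => by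
      have hq := idx_lt φ hu
      rw [← chain _ u (by unfold TT; omega) hq]
      unfold LL at h
      cases e : (litAt φ u).2 <;> rw [e] at h
      · have := h1 _ hq
        have a1 := step _ hq (cst _ hq.le)
        have a2 := hm _ hq.le 2 (by omega)
        have a3 := hm _ hq.le 3 (by omega)
        simp only [Bool.not_false, Bool.toNat_true] at h
        simp only [decide_eq_false_iff_not]
        omega
      · simpa using h
    have hl : ∀ u < 3 * φ.length, col (LL φ u) < 3 ∧ col (LL φ u) ≠ 0 := fun u hu => by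
      have := h0 _ (LL_lt φ hu)
      exact ⟨this.1, this.2.2.2 (cls_LL _ _)⟩
    have hq : c < SS φ := by omega
    have := h2 c hc'
    have a1 := step _ hq (cst _ hq.le)
    have a4 := hm _ hq.le 4 (by omega)
    have a5 := hm _ hq.le 5 (by omega)
    have a6 := hm _ hq.le 6 (by omega)
    have a7 := hm _ hq.le 7 (by omega)
    have a8 := hm _ hq.le 8 (by omega)
    have l0 := hl (3 * c) (by omega)
    have l1 := hl (3 * c + 1) (by omega)
    have l2 := hl (3 * c + 2) (by omega)
    have : col (LL φ (3 * c)) = 1 ∨ col (LL φ (3 * c + 1)) = 1 ∨ col (LL φ (3 * c + 2)) = 1 := by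
      omega
    rcases this with h | h | h
    · exact ⟨0, by omega, key _ (by omega) h⟩
    · exact ⟨1, by omega, key _ (by omega) h⟩
    · exact ⟨2, by omega, key _ (by omega) h⟩

end Pool.Agent.H22.PDP
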