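import Pool.Agent.H22.PDP5

/-!
Degrees of the disjointness graph.
-/

namespace Pool.Agent.H22.PDP

open Pool.Agent.H38.NP

/-- the clause vertex joined to the occurrence `u` -/
def gg (u : ℕ) : ℕ := Mn (u / 3) (if u % 3 = 0 then 6 else if u % 3 = 1 then 8 else 4)

def nbM (φ : F3) (s r : ℕ) : List ℕ :=
  [[Mn s 2, Cn (s + 1) 6, Cn s 6, gg (s % TT φ)], [Mn s 3, gg (s % TT φ)], [Mn s 0, Mn s 3],
    [Mn s 2, Mn s 1, Cn (s + 1) 0], [Mn s 5, Mn s 7, LL φ (3 * s + 2)], [Mn s 4, Mn s 6],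
    [Mn s 5, Cn (s + 1) 5, LL φ (3 * s)], [Mn s 4, Mn s 8],
    [Mn s 7, Cn (s + 1) 2, LL φ (3 * s + 1)]].getD r []

def nbC (s r : ℕ) : List ℕ :=
  if s = 0 then [0, 1, 2, Cn 1 (if r = 3 then 2 else 5)] else
  [[Mn (s - 1) 3, Cn s 2, Cn s 3, Cn s 4], [], [Cn (s - 1) 3, Cn s 0, Cn s 3, Mn (s - 1) 8],
    [Cn (s + 1) 2, Cn s 2, Cn s 0], [Cn (s + 1) 5, Cn s 5, Cn s 0],
    [Cn (s - 1) 4, Cn s 4, Cn s 6, Mn (s - 1) 6], [Cn s 5, Mn (s - 1) 0, Mn s 0]].getD r []

def nb (φ : F3) (i : ℕ) : List ℕ :=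
  if i < 3 then [Cn 0 3, Cn 0 4] else if (i - 3) / 9 % 2 = 0 then
    nbM φ ((i - 3) / 9 / 2 - 1) ((i - 3) % 9) else nbC ((i - 3) / 9 / 2) ((i - 3) % 9)

theorem nb_len (φ : F3) (i : ℕ) : (nb φ i).length ≤ 4 := by
  have := Nat.mod_lt (i - 3) (show 0 < 9 by omega)
  unfold nb nbM nbC
  generalize (i - 3) % 9 = r at *
  split_ifs <;> interval_cases r <;> simp

theorem nb_M (φ : F3) (s : ℕ) {r : ℕ} (hr : r < 9) : nb φ (Mn s r) = nbM φ s r := by
  unfold nb Mn X
  rw [if_neg (by omega), if_pos (by omega)]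
  congr 1 <;> omega

theorem nb_C (φ : F3) (s : ℕ) {r : ℕ} (hr : r < 9) : nb φ (Cn s r) = nbC s r := by
  unfold nb Cn X
  rw [if_neg (by omega), if_neg (by omega)]
  congr 1 <;> omega

theorem nb_L (φ : F3) {u : ℕ} (hu : u < 3 * φ.length) : gg u ∈ nb φ (LL φ u) := by
  unfold LL
  have e : ((litAt φ u).1 * TT φ + u) % TT φ = u := by
    rw [mul_comm, Nat.mul_add_mod, Nat.mod_eq_of_lt (by unfold TT; omega)]
  rw [nb_M _ _ (by cases (litAt φ u).2 <;> simp)]
  cases (litAt φ u).2 <;> simp [nbM, e]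

theorem edges2_nb (φ : F3) : ∀ e ∈ edges2 φ, e.2 ∈ nb φ e.1 ∧ e.1 ∈ nb φ e.2 := by
  simp only [edges2, List.forall_mem_append, List.forall_mem_flatMap, List.forall_mem_cons,
    List.mem_range, List.not_mem_nil, IsEmpty.forall_iff, implies_true, and_true]
  refine ⟨⟨?_, fun q hq => ?_⟩, fun c hc => ?_⟩
  · simp only [nb_C φ _ (show 3 < 9 by omega), nb_C φ _ (show 4 < 9 by omega)]
    simp [nb, nbC]
  · simp only [nb_M φ _ (show 0 < 9 by omega), nb_M φ _ (show 1 < 9 by omega),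
      nb_M φ _ (show 2 < 9 by omega), nb_M φ _ (show 3 < 9 by omega),
      nb_C φ _ (show 0 < 9 by omega), nb_C φ _ (show 2 < 9 by omega),
      nb_C φ _ (show 3 < 9 by omega), nb_C φ _ (show 4 < 9 by omega),
      nb_C φ _ (show 5 < 9 by omega), nb_C φ _ (show 6 < 9 by omega)]
    split_ifs with h <;> by_cases h' : q = 0 <;> simp [nbM, nbC, h']
  · have h0 := nb_L φ (show 3 * c < 3 * φ.length by omega)
    have h1 := nb_L φ (show 3 * c + 1 < 3 * φ.length by omega)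
    have h2 := nb_L φ (show 3 * c + 2 < 3 * φ.length by omega)
    have e0 : gg (3 * c) = Mn c 6 := by simp [gg]
    have e1 : gg (3 * c + 1) = Mn c 8 := by
      simp [gg, show (3 * c + 1) / 3 = c by omega]
    have e2 : gg (3 * c + 2) = Mn c 4 := by
      simp [gg, show (3 * c + 2) / 3 = c by omega]
    rw [e0] at h0; rw [e1] at h1; rw [e2] at h2
    simp only [nb_M φ _ (show 4 < 9 by omega), nb_M φ _ (show 5 < 9 by omega),
      nb_M φ _ (show 6 < 9 by omega), nb_M φ _ (show 7 < 9 by omega),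
      nb_M φ _ (show 8 < 9 by omega), nb_C φ _ (show 2 < 9 by omega),
      nb_C φ _ (show 5 < 9 by omega), h0, h1, h2]
    simp [nbM, nbC]

@[fun_prop] theorem pt_TT {α : Type} [Enc α] {f : α → F3} (hf : PT f) : PT fun a => TT (f a) := by
  unfold TT; fun_prop
@[fun_prop] theorem pt_SS {α : Type} [Enc α] {f : α → F3} (hf : PT f) : PT fun a => SS (f a) := by
  unfold SS; fun_prop
@[fun_prop] theorem pt_Mn {α : Type} [Enc α] {f g : α → ℕ} (hf : PT f) (hg : PT g) :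
    PT fun a => Mn (f a) (g a) := by unfold Mn X; fun_prop
@[fun_prop] theorem pt_Cn {α : Type} [Enc α] {f g : α → ℕ} (hf : PT f) (hg : PT g) :
    PT fun a => Cn (f a) (g a) := by unfold Cn X; fun_prop
@[fun_prop] theorem pt_LL {α : Type} [Enc α] {f : α → F3} {g : α → ℕ} (hf : PT f) (hg : PT g) :
    PT fun a => LL (f a) (g a) := by unfold LL; fun_prop
theorem pt_mk2 {α : Type} [Enc α] {f : α → ℕ} {g : α → List (ℕ × ℕ)} (hf : PT f) (hg : PT g) :
    PT fun a => mk (f a) (g a) := by unfold mk arcs term pos xo; fun_prop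

theorem main2 : NPH (fun I : Inst => Valid I ∧
    (∀ v, ((graphOf I.2.2.1.length I.2.2.2).neighborSet v).ncard ≤ 4) ∧
    (graphOf I.2.2.1.length I.2.2.2).Colorable 3) Solvable := by
  refine sat3_nph.reduce (fun φ => mk (kk2 φ) (edges2 φ)) ?_ fun φ _ => ?_
  · exact pt_mk2 (by unfold kk2; fun_prop) (by unfold edges2; fun_prop)
  · have hk : 0 < kk2 φ := by unfold kk2; omega
    refine ⟨⟨valid_mk hk (edges2_ok φ), fun v => ?_, ?_⟩,
      (sat_iff2 φ).trans (solvable_mk (edges2_ok φ))⟩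
    · rw [← Set.ncard_image_of_injective _ Fin.val_injective]
      refine le_trans (Set.ncard_le_ncard (t := ((nb φ v).toFinset : Set ℕ)) ?_
        (Finset.finite_toSet _)) ?_
      · rintro _ ⟨w, hw, rfl⟩
        rcases (graphOf_adj.1 hw).2 with h | h
        · simpa using (edges2_nb φ _ h).1
        · simpa using (edges2_nb φ _ h).2
      · rw [Set.ncard_coe_finset]
        exact (List.toFinset_card_le _).trans (nb_len φ v)
    · refine ⟨SimpleGraph.Coloring.mk (fun v => ⟨cls v, cls_lt v⟩) fun {v w} h e => ?_⟩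
      have e' : cls v = cls w := congrArg Fin.val e
      rcases (graphOf_adj.1 h).2 with h | h
      · exact (edges2_ok φ _ h).2.2 e'
      · exact (edges2_ok φ _ h).2.2 e'.symm

end Pool.Agent.H22.PDP
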