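import Pool.Agent.H38.NP.Defs

/-!
The partially disjoint paths problem in directed plane graphs, with straight-line embeddings.
-/

namespace Pool.Agent.H22.PDP

/-- An instance: positions of the vertices `0, 1, ...` (integer points), arcs, terminal pairs
`(r i, s i)`, and the pairs of indices whose paths must be disjoint. -/
abbrev Inst := List (ℕ × ℕ) × List (ℕ × ℕ) × List (ℕ × ℕ) × List (ℕ × ℕ)

/-- the point of the plane at which vertex `v` is drawn -/
def pt (I : Inst) (v : ℕ) : ℝ × ℝ := (((I.1.getD v (0, 0)).1 : ℝ), ((I.1.getD v (0, 0)).2 : ℝ))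

/-- the drawing: all vertices and all arcs, drawn as straight segments -/
def drawing (I : Inst) : Set (ℝ × ℝ) :=
  {p | ∃ v < I.1.length, p = pt I v} ∪ {p | ∃ e ∈ I.2.1, p ∈ segment ℝ (pt I e.1) (pt I e.2)}

/-- The drawing is a plane embedding: distinct points, arcs join distinct vertices, no vertex lies
inside an arc, and the interiors of different arcs are disjoint. -/
def Plane (I : Inst) : Prop :=
  I.1.Nodup ∧ I.2.1.Nodup ∧ (∀ e ∈ I.2.1, e.1 < I.1.length ∧ e.2 < I.1.length ∧ e.1 ≠ e.2) ∧
  (∀ e ∈ I.2.1, ∀ v < I.1.length, pt I v ∉ openSegment ℝ (pt I e.1) (pt I e.2)) ∧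
  ∀ e ∈ I.2.1, ∀ f ∈ I.2.1, e ≠ f →
    Disjoint (openSegment ℝ (pt I e.1) (pt I e.2)) (openSegment ℝ (pt I f.1) (pt I f.2))

/-- the list `r 0, s 0, r 1, s 1, ...` of all terminals -/
def terminals (I : Inst) : List ℕ := I.2.2.1.flatMap fun t => [t.1, t.2]

/-- A well-formed instance: plane embedding, at least one terminal pair, all terminals are
vertices and are pairwise different, and the pairs of indices are pairs of distinct indices. -/
def Valid (I : Inst) : Prop :=
  Plane I ∧ I.2.2.1 ≠ [] ∧ (∀ t ∈ terminals I, t < I.1.length) ∧ (terminals I).Nodup ∧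
  ∀ f ∈ I.2.2.2, f.1 < I.2.2.1.length ∧ f.2 < I.2.2.1.length ∧ f.1 ≠ f.2

/-- All terminals lie on the boundaries of at most `p` faces; a face is a connected component of
the complement of the drawing. -/
def OnFaces (p : ℕ) (I : Inst) : Prop :=
  ∃ z : Fin p → ℝ × ℝ, (∀ j, z j ∉ drawing I) ∧
    ∀ t ∈ terminals I, ∃ j, pt I t ∈ frontier (connectedComponentIn (drawing I)ᶜ (z j))

/-- `P` is the vertex sequence of a directed path from `r` to `s` -/
def IsPath (I : Inst) (r s : ℕ) (P : List ℕ) : Prop :=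
  P.head? = some r ∧ P.getLast? = some s ∧ P.Nodup ∧ P.IsChain fun u v => (u, v) ∈ I.2.1

/-- there are directed paths `P i` from `r i` to `s i`, vertex-disjoint for the given pairs -/
def Solvable (I : Inst) : Prop :=
  ∃ P : ℕ → List ℕ, (∀ i (h : i < I.2.2.1.length), IsPath I I.2.2.1[i].1 I.2.2.1[i].2 (P i)) ∧
    ∀ f ∈ I.2.2.2, (P f.1).Disjoint (P f.2)

end Pool.Agent.H22.PDP
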