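import Pool.Agent.H22.PomDefs
import Pool.Agent.H22.QB2

namespace Pool.Agent.H22.Pom

open Finset

section
variable {α : Type} [DecidableEq α] {col : α → Bool → Prop} {lt : α → α → Prop} {p : Bool}

theorem MW.not_sw {S : Finset α} (h : MW col lt p S) : ¬ SW col lt (!p) S := by
  induction h with
  | mk S x hx _ ih =>
    intro h
    obtain ⟨_, y, hy, h'⟩ := h x (by simpa using hx)
    exact ih y hy h'

def Cond (col : α → Bool → Prop) (lt : α → α → Prop) (p : Bool) (S A R : Finset α) : Prop :=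
  ∀ S' ⊆ S, (∀ z ∈ S, z ∈ S' ∨ z ∈ A ∨ (z ∈ R ∧ col z (!p))) →
    ∀ y, Legal col lt (!p) S' y → y ∈ R ∨ MW col lt p (S'.erase y)

theorem freeM (n : ℕ) : ∀ S A R : Finset α, (R ∩ S).card ≤ n → (∀ x ∈ A ∩ S, Legal col lt p S x) →
    Disjoint A R → (R ∩ S).card < (A ∩ S).card → Cond col lt p S A R → MW col lt p S := by
  induction n using Nat.strong_induction_on with
  | _ n ih =>
    intro S A R h0 h1 h2 h3 h4
    obtain ⟨x, hx⟩ := card_pos.1 (Nat.zero_lt_of_lt h3)
    have hxA := (mem_inter.1 hx).1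
    refine .mk S x (h1 x hx) fun y hy => ?_
    rcases h4 _ (erase_subset x S) (fun z hz => by
      by_cases e : z = x
      · exact Or.inr (Or.inl (e ▸ hxA))
      · exact Or.inl (mem_erase.2 ⟨e, hz⟩)) y hy with hR | h
    swap
    · exact h
    have yS := mem_of_mem_erase hy.1
    have e1 : R ∩ (S.erase x).erase y = (R ∩ S).erase y := by
      ext z
      have := fun h => disjoint_left.1 h2 hxA h
      simp only [mem_inter, mem_erase]
      exact ⟨fun h => ⟨h.2.1, h.1, h.2.2.2⟩, fun h => ⟨h.2.1, h.1, fun e => this (e ▸ h.2.1), h.2.2⟩⟩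
    have e2 : A ∩ (S.erase x).erase y = (A ∩ S).erase x := by
      ext z
      have := fun h => disjoint_left.1 h2 h hR
      simp only [mem_inter, mem_erase]
      exact ⟨fun h => ⟨h.2.2.1, h.1, h.2.2.2⟩, fun h => ⟨h.2.1, fun e => this (e ▸ h.2.1), h.1, h.2.2⟩⟩
    have c1 := card_erase_add_one (mem_inter.2 ⟨hR, yS⟩)
    have c2 := card_erase_add_one hx
    have sub : (S.erase x).erase y ⊆ S := (erase_subset _ _).trans (erase_subset _ _)
    refine ih (n - 1) (by omega) _ A R (by rw [e1]; omega) (fun z hz => ?_) h2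
      (by rw [e1, e2]; omega) fun S' a1 a2 => h4 S' (a1.trans sub) fun z hz => ?_
    · have := h1 z (mem_inter.2 ⟨(mem_inter.1 hz).1, sub (mem_inter.1 hz).2⟩)
      exact ⟨(mem_inter.1 hz).2, this.2.1, fun w hw => this.2.2 w (sub hw)⟩
    · by_cases e : z = x
      · exact Or.inr (Or.inl (e ▸ hxA))
      by_cases e' : z = y
      · exact Or.inr (Or.inr (e' ▸ ⟨hR, hy.2.1⟩))
      · exact a2 z (by simp [*])

theorem free {S A R : Finset α} (h1 : ∀ x ∈ A, Legal col lt p S x) (h2 : Disjoint A R)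
    (h3 : R.card < A.card) (h4 : Cond col lt p S A R) : MW col lt p S ∧ SW col lt p S := by
  have k : ∀ S', (∀ x ∈ A, Legal col lt p S' x) → Cond col lt p S' A R → MW col lt p S' :=
    fun S' a b => freeM _ S' A R le_rfl (fun x hx => a x (mem_inter.1 hx).1) h2 (by
      rw [inter_eq_left.2 fun x hx => (a x hx).1]
      exact (card_le_card inter_subset_left).trans_lt h3) b
  refine ⟨k S h1 h4, fun y hy => ?_⟩
  rcases h4 S subset_rfl (fun z hz => Or.inl hz) y hy with hR | h
  · refine k _ (fun x hx => ⟨mem_erase.2 ⟨fun e => disjoint_left.1 h2 hx (e ▸ hR), (h1 x hx).1⟩,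
      (h1 x hx).2.1, fun w hw => (h1 x hx).2.2 w (mem_of_mem_erase hw)⟩)
      fun S' a1 a2 => h4 S' (a1.trans (erase_subset _ _)) fun z hz => ?_
    by_cases e' : z = y
    · exact Or.inr (Or.inr (e' ▸ ⟨hR, hy.2.1⟩))
    · exact a2 z (by simp [*])
  · exact h

variable {β : Type} [DecidableEq β] {col' : β → Bool → Prop} {lt' : β → β → Prop} (f : α ↪ β)
  (hc : ∀ x c, col' (f x) c ↔ col x c) (hl : ∀ x y, lt' (f x) (f y) ↔ lt x y)
include hc hl

theorem legal_map {S : Finset α} {x : α} : Legal col' lt' p (S.map f) (f x) ↔ Legal col lt p S x := by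
  simp [Legal, hc, hl]

theorem mw_map (S : Finset α) : MW col' lt' p (S.map f) ↔ MW col lt p S := by
  constructor
  · generalize e : S.map f = T
    intro h
    induction h generalizing S with
    | mk T x hx _ ih =>
      subst e
      obtain ⟨x, _, rfl⟩ := mem_map.1 hx.1
      refine .mk S x ((legal_map f hc hl).1 hx) fun y hy => ih (f y) ?_ _ (by simp [map_erase])
      rw [← map_erase]
      exact (legal_map f hc hl).2 hy
  · intro h
    induction h with
    | mk S x hx _ ih =>
      refine .mk _ (f x) ((legal_map f hc hl).2 hx) fun y hy => ?_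
      rw [← map_erase] at hy ⊢
      obtain ⟨y, _, rfl⟩ := mem_map.1 hy.1
      rw [← map_erase]
      exact ih y ((legal_map f hc hl).1 hy)

theorem sw_map (S : Finset α) : SW col' lt' p (S.map f) ↔ SW col lt p S := by
  refine ⟨fun h y hy => (mw_map f hc hl _).1 ?_, fun h y hy => ?_⟩
  · rw [map_erase]; exact h _ ((legal_map f hc hl).2 hy)
  · obtain ⟨y, _, rfl⟩ := mem_map.1 hy.1
    rw [← map_erase]
    exact (mw_map f hc hl _).2 (h y ((legal_map f hc hl).1 hy))

end

end Pool.Agent.H22.Pom
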