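import Pool.Agent.H22.Pom1

namespace Pool.Agent.H22.Pom

open Finset Pool.Agent.H38.NP Pool.Agent.H36.PSpace Pool.Agent.H22.QB Function

abbrev T4 := ℕ × ℕ × ℕ × ℕ

def grp (t v c w : ℕ) : List T4 := (List.range w).map fun i => (t, v, c, i)
def tops (N : ℕ) : List T4 := (List.range N).flatMap fun v => (List.range 3).map fun c => (0, v, c, 0)
def r0 (N m : ℕ) : List T4 := tops N ++ (List.range m).map fun j => (4, j, 0, 0)
def KK (N m : ℕ) : ℕ := (r0 N m).length + 1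
def rest (N m : ℕ) : List T4 := r0 N m ++
  ((List.range (N - 1)).flatMap fun u => (List.range 2).flatMap fun c => grp 2 u c (KK N m)) ++
  (List.range N).flatMap fun v => grp 3 v 0 (KK N m * (v + 1))
def LL (N m : ℕ) : List T4 := rest N m ++
  (List.range N).flatMap fun v => (List.range 3).flatMap fun c => grp 1 v c ((rest N m).length + 1)

def own (v : ℕ) : Bool := decide (v % 2 = 0)
def colT (x : T4) : Bool := if x.1 = 0 then own x.2.1 else if x.1 = 4 then false else !own x.2.1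

def Cov (φ : CNF ℕ) (x : T4) (w d : ℕ) : Prop :=
  (x.1 = 1 ∧ w = x.2.1 ∧ d ≠ x.2.2.1) ∨
  (x.1 = 2 ∧ ((w = x.2.1 + 1 ∧ d = 2) ∨ (w = x.2.1 ∧ d = x.2.2.1))) ∨
  (x.1 = 3 ∧ d = 2 ∧ (w = x.2.1 ∨ w = x.2.1 - 1)) ∨
  (x.1 = 4 ∧ (w, d) ∈ (φ.getD x.2.1 []).map fun l => (l.1, (!l.2).toNat))

instance (φ x w d) : Decidable (Cov φ x w d) := by unfold Cov; infer_instance

def cT (N : ℕ) (φ : CNF ℕ) (x : T4) (p : Bool) : Prop := x ∈ LL N φ.length ∧ colT x = p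
def lT (N : ℕ) (φ : CNF ℕ) (x y : T4) : Prop :=
  x ∈ LL N φ.length ∧ y ∈ tops N ∧ Cov φ x y.2.1 y.2.2.1

theorem mem_grp {t v c w} {x : T4} :
    x ∈ grp t v c w ↔ x.1 = t ∧ x.2.1 = v ∧ x.2.2.1 = c ∧ x.2.2.2 < w := by
  obtain ⟨a, b, d, e⟩ := x
  simp only [grp, List.mem_map, List.mem_range, Prod.mk.injEq]
  exact ⟨fun ⟨_, h, h1, h2, h3, h4⟩ => by omega, fun h => ⟨e, by omega⟩⟩

theorem card_grp (t v c w) : (grp t v c w).toFinset.card = w := by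
  rw [grp, List.toFinset_card_of_nodup (List.nodup_range.map fun a b h => by simpa using h)]
  simp

theorem mem_tops {N} {x : T4} : x ∈ tops N ↔ x.1 = 0 ∧ x.2.1 < N ∧ x.2.2.1 < 3 ∧ x.2.2.2 = 0 := by
  obtain ⟨a, b, d, e⟩ := x
  simp only [tops, List.mem_flatMap, List.mem_map, List.mem_range, Prod.mk.injEq]
  exact ⟨fun ⟨_, h, _, h1, h2⟩ => by omega, fun h => ⟨b, by omega, d, by omega⟩⟩

theorem mem_r0 {N m} {x : T4} : x ∈ r0 N m ↔ (x.1 = 0 ∧ x.2.1 < N ∧ x.2.2.1 < 3 ∧ x.2.2.2 = 0) ∨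
    (x.1 = 4 ∧ x.2.1 < m ∧ x.2.2.1 = 0 ∧ x.2.2.2 = 0) := by
  obtain ⟨a, b, d, e⟩ := x
  simp only [r0, List.mem_append, mem_tops, List.mem_map, List.mem_range, Prod.mk.injEq]
  exact or_congr_right ⟨fun ⟨_, h, h1⟩ => by omega, fun h => ⟨b, by omega⟩⟩

theorem mem_rest {N m} {x : T4} : x ∈ rest N m ↔ x ∈ r0 N m ∨
    (x.1 = 2 ∧ x.2.1 + 1 < N ∧ x.2.2.1 < 2 ∧ x.2.2.2 < KK N m) ∨
    (x.1 = 3 ∧ x.2.1 < N ∧ x.2.2.1 = 0 ∧ x.2.2.2 < KK N m * (x.2.1 + 1)) := by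
  simp only [rest, List.mem_append, List.mem_flatMap, List.mem_range, mem_grp, or_assoc]
  exact or_congr_right (or_congr ⟨fun ⟨_, h, _, h1, h2⟩ => by omega, fun h => ⟨x.2.1, by omega,
    x.2.2.1, by omega⟩⟩ ⟨fun ⟨_, h, h1, h2, h3⟩ => by subst h2; omega, fun h => ⟨x.2.1, by omega⟩⟩)

theorem mem_LL {N m} {x : T4} : x ∈ LL N m ↔ x ∈ rest N m ∨
    (x.1 = 1 ∧ x.2.1 < N ∧ x.2.2.1 < 3 ∧ x.2.2.2 < (rest N m).length + 1) := by
  simp only [LL, List.mem_append, List.mem_flatMap, List.mem_range, mem_grp]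
  exact or_congr_right ⟨fun ⟨_, h, _, h1, h2⟩ => by omega, fun h => ⟨x.2.1, by omega,
    x.2.2.1, by omega⟩⟩

variable {N : ℕ} {φ : CNF ℕ} {p : Bool} {S : Finset T4}

theorem top_mem {v c} (hv : v < N) (hc : c < 3) : ((0, v, c, 0) : T4) ∈ LL N φ.length :=
  mem_LL.2 (Or.inl (mem_rest.2 (Or.inl (mem_r0.2 (Or.inl ⟨rfl, hv, hc, rfl⟩)))))

theorem legal_iff {x : T4} : Legal (cT N φ) (lT N φ) p S x ↔ x ∈ S ∧ x ∈ LL N φ.length ∧
    colT x = p ∧ ∀ w < N, ∀ d < 3, Cov φ x w d → (0, w, d, 0) ∉ S := by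
  refine and_congr_right fun _ => ⟨fun ⟨h1, h2⟩ => ⟨h1.1, h1.2, fun w hw d hd hc hs =>
    h2 _ hs ⟨h1.1, mem_tops.2 ⟨rfl, hw, hd, rfl⟩, hc⟩⟩, fun ⟨h1, h2, h3⟩ => ⟨⟨h1, h2⟩, ?_⟩⟩
  rintro ⟨a, b, c, d⟩ hy ⟨_, h4, h5⟩
  obtain ⟨rfl, h6, h7, rfl⟩ := mem_tops.1 h4
  exact h3 _ h6 _ h7 h5 hy

def Sg (N : ℕ) (p : Bool) (S : Finset T4) : Prop :=
  ∀ v < N, own v = p → ∀ c < 3, ∀ c' < 3, c ≠ c' → (0, v, c, 0) ∈ S ∨ (0, v, c', 0) ∈ S

theorem blocked {y : T4} (hP : Sg N p S) (hy : Legal (cT N φ) (lT N φ) (!p) S y) : y.1 ≠ 1 := by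
  intro e
  obtain ⟨_, h1, h2, h3⟩ := legal_iff.1 hy
  simp only [mem_LL, mem_rest, mem_r0] at h1
  have := hP y.2.1 (by omega) (by simpa [colT, e] using h2) ((y.2.2.1 + 1) % 3) (by omega)
    ((y.2.2.1 + 2) % 3) (by omega) (by omega)
  rcases this with h | h <;> exact h3 _ (by omega) _ (by omega) (Or.inl ⟨e, rfl, by omega⟩) h

theorem keep {A R S' : Finset T4} (hA : ∀ z ∈ A, z.1 ≠ 0)
    (h : ∀ z ∈ S, z ∈ S' ∨ z ∈ A ∨ (z ∈ R ∧ cT N φ z (!p))) {v c} (hv : own v = p)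
    (hs : (0, v, c, 0) ∈ S) : (0, v, c, 0) ∈ S' := by
  rcases h _ hs with h | h | h
  · exact h
  · exact absurd rfl (hA _ h)
  · simpa [colT, hv] using h.2.2

theorem dbl (hD : ∀ x ∈ LL N φ.length, x.1 = 1 → x ∈ S) (hP : Sg N p S) {v c c'} (hv : v < N)
    (ho : own v = !p) (hc : c < 3) (hc' : c' < 3) (hn : c ≠ c') (h1 : (0, v, c, 0) ∉ S)
    (h2 : (0, v, c', 0) ∉ S) : MW (cT N φ) (lT N φ) p S := by
  refine (free (A := (grp 1 v (3 - c - c') ((rest N φ.length).length + 1)).toFinset)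
    (R := (rest N φ.length).toFinset) (fun x hx => ?_) (disjoint_left.2 fun x hx hx' => ?_)
    ?_ fun S' _ a2 y hy => Or.inl ?_).1
  · obtain ⟨a, b, d, e⟩ := mem_grp.1 (List.mem_toFinset.1 hx)
    have : x ∈ LL N φ.length := mem_LL.2 (Or.inr (by omega))
    refine legal_iff.2 ⟨hD x this a, this, by simp [colT, a, b, ho], fun w _ d hd h => ?_⟩
    obtain ⟨rfl, h3⟩ : w = v ∧ (d = c ∨ d = c') := by simp only [Cov, a] at h; omega
    rcases h3 with rfl | rfl <;> assumption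
  · have := mem_grp.1 (List.mem_toFinset.1 hx)
    simp only [List.mem_toFinset, mem_rest, mem_r0] at hx'
    omega
  · rw [card_grp]; exact Nat.lt_succ_of_le (List.toFinset_card_le _)
  · have k := fun v c => keep (v := v) (c := c) (fun z hz => by
      rw [(mem_grp.1 (List.mem_toFinset.1 hz)).1]; omega) a2
    have := blocked (S := S') (fun v hv ho c hc c' hc' hn => (hP v hv ho c hc c' hc' hn).imp
      (k _ _ ho) (k _ _ ho)) hy
    exact List.mem_toFinset.2 ((mem_LL.1 hy.2.1.1).resolve_right fun h => this h.1)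

theorem gw (hD : ∀ x ∈ LL N φ.length, x.1 ≠ 0 → x.1 ≠ 4 → x ∈ S) (hP : Sg N p S)
    {t v c w l w' : ℕ} (ht : t = 2 ∨ (t = 3 ∧ (v ≠ l ∨ w' = 0))) (hw : KK N φ.length + w' ≤ w)
    (hA : ∀ x ∈ grp t v c w, x ∈ LL N φ.length ∧ ∀ u d, Cov φ x u d → (0, u, d, 0) ∉ S)
    (ho : own v = !p)
    (h2 : ∀ u, ∀ c ≤ 1, own u = p → (0, u, c, 0) ∉ S → u + 1 < N → ∃ c' ≤ 1, (0, u + 1, c', 0) ∉ S)
    (h3 : ∀ u < N, own u = p → (0, u, 2, 0) ∉ S → (u = l ∧ KK N φ.length * (u + 1) ≤ w') ∨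
      (1 ≤ u ∧ ∃ c' ≤ 1, (0, u - 1, c', 0) ∉ S)) :
    MW (cT N φ) (lT N φ) p S ∧ SW (cT N φ) (lT N φ) p S := by
  refine free (A := (grp t v c w).toFinset)
    (R := (r0 N φ.length).toFinset ∪ (grp 3 l 0 w').toFinset) (fun x hx => ?_)
    (disjoint_left.2 fun x hx hx' => ?_) ?_ fun S' a1 a2 y hy => ?_
  · have hx := List.mem_toFinset.1 hx
    obtain ⟨a, b, d, e⟩ := mem_grp.1 hx
    refine legal_iff.2 ⟨hD x (hA x hx).1 (by omega) (by omega), (hA x hx).1, ?_,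
      fun w _ d _ h => (hA x hx).2 _ _ h⟩
    rw [colT, if_neg (by omega), if_neg (by omega), b, ho, Bool.not_not]
  · simp only [List.mem_toFinset, mem_grp, mem_r0, mem_union] at hx hx'
    omega
  · have := card_union_le (r0 N φ.length).toFinset (grp 3 l 0 w').toFinset
    have := List.toFinset_card_le (r0 N φ.length)
    simp only [card_grp, KK] at *
    omega
  have k := fun v c => keep (v := v) (c := c) (fun z hz => by
    rw [(mem_grp.1 (List.mem_toFinset.1 hz)).1]; omega) a2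
  have sg : Sg N p S' := fun v hv ho c hc c' hc' hn => (hP v hv ho c hc c' hc' hn).imp
    (k _ _ ho) (k _ _ ho)
  have b1 := blocked sg hy
  obtain ⟨_, c1, c2, c3⟩ := legal_iff.1 hy
  have dd : y.1 ≠ 0 → ∀ u < N, own u = !p → ∀ c ≤ 1, (0, u, c, 0) ∉ S → (0, u, 2, 0) ∉ S' →
      MW (cT N φ) (lT N φ) p (S'.erase y) := fun y0 u hu ho c hc h1 h2 =>
    dbl (c := c) (c' := 2) (fun x hx e => mem_erase.2 ⟨fun e' => b1 (e' ▸ e), by
      rcases a2 x (hD x hx (by omega) (by omega)) with h | h | h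
      · exact h
      · have := mem_grp.1 (List.mem_toFinset.1 h); omega
      · have := h.1
        simp only [List.mem_toFinset, mem_grp, mem_r0, mem_union] at this
        omega⟩)
      (fun v hv ho c hc c' hc' hn => (sg v hv ho c hc c' hc' hn).imp
        (fun h => mem_erase.2 ⟨fun e => y0 (e ▸ rfl), h⟩)
        fun h => mem_erase.2 ⟨fun e => y0 (e ▸ rfl), h⟩) hu ho (by omega) (by omega) (by omega)
      (fun h => h1 (a1 (mem_of_mem_erase h))) fun h => h2 (mem_of_mem_erase h)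
  have ow : ∀ u, own (u + 1) = !own u := fun u => by
    unfold own; rcases Nat.mod_two_eq_zero_or_one u with h | h <;> simp [Nat.add_mod, h]
  rcases mem_LL.1 c1 with h | h
  swap
  · exact absurd h.1 b1
  rcases mem_rest.1 h with h | h | h
  · exact Or.inl (mem_union_left _ (List.mem_toFinset.2 h))
  · have o : own y.2.1 = p := by simpa [colT, h.1] using c2
    obtain ⟨c', d1, d2⟩ := h2 y.2.1 y.2.2.1 (by omega) o (fun h' => c3 _ (by omega) _ (by omega)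
      (Or.inr (Or.inl ⟨h.1, Or.inr ⟨rfl, rfl⟩⟩)) (k _ _ o h')) h.2.1
    exact Or.inr (dd (by omega) _ h.2.1 (by rw [ow, o]) c' d1 d2
      (c3 _ h.2.1 _ (by omega) (Or.inr (Or.inl ⟨h.1, Or.inl ⟨rfl, rfl⟩⟩))))
  · have o : own y.2.1 = p := by simpa [colT, h.1] using c2
    rcases h3 y.2.1 h.2.1 o (fun h' => c3 _ (by omega) _ (by omega)
      (Or.inr (Or.inr (Or.inl ⟨h.1, rfl, Or.inl rfl⟩))) (k _ _ o h')) with d | ⟨d0, c', d1, d2⟩
    · exact Or.inl (mem_union_right _ (List.mem_toFinset.2 (mem_grp.2 (by omega))))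
    · refine Or.inr (dd (by omega) _ (by omega) ?_ c' d1 d2
        (c3 _ (by omega) _ (by omega) (Or.inr (Or.inr (Or.inl ⟨h.1, rfl, Or.inr rfl⟩)))))
      have := ow (y.2.1 - 1)
      rw [Nat.sub_add_cancel d0, o] at this
      simp [this]

end Pool.Agent.H22.Pom
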