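import Pool.Agent.H22.Pom2

namespace Pool.Agent.H22.Pom

open Finset Pool.Agent.H38.NP Pool.Agent.H36.PSpace Pool.Agent.H22.QB Function

variable {N : ℕ} {φ : CNF ℕ} {p : Bool} {S : Finset T4} {j : ℕ} {a : ℕ → Bool}

def Base (N : ℕ) (φ : CNF ℕ) (j : ℕ) (a : ℕ → Bool) (S : Finset T4) : Prop :=
  (∀ x ∈ LL N φ.length, x.1 ≠ 0 → x.1 ≠ 4 → x ∈ S) ∧
  ∀ v < N, ∀ c < 3, ((0, v, c, 0) ∉ S ↔ j ≤ v ∧ c = (a v).toNat)

theorem own_succ (u : ℕ) : own (u + 1) = !own u := by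
  unfold own; rcases Nat.mod_two_eq_zero_or_one u with h | h <;> simp [Nat.add_mod, h]

theorem top_legal {v c} (hv : v < N) (hc : c < 3) (h : (0, v, c, 0) ∈ S) :
    Legal (cT N φ) (lT N φ) (own v) S (0, v, c, 0) :=
  legal_iff.2 ⟨h, top_mem hv hc, rfl, fun _ _ _ _ h => by simp [Cov] at h⟩

theorem dev (h : Base N φ j a S) (hj : j ≤ N) {y : T4} (hy : Legal (cT N φ) (lT N φ) (!p) S y) :
    (∃ c ≤ 1, y = (0, j - 1, c, 0) ∧ 1 ≤ j ∧ own (j - 1) = !p) ∨ y.1 = 4 ∨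
      MW (cT N φ) (lT N φ) p (S.erase y) := by
  obtain ⟨h1, h2⟩ := h
  obtain ⟨yS, c1, c2, c3⟩ := legal_iff.1 hy
  have tb : ∀ v, (a v).toNat ≤ 1 := fun v => Bool.toNat_le _
  have n2 : ∀ v < N, (0, v, 2, 0) ∈ S := fun v hv => by
    by_contra h; have := ((h2 v hv 2 (by omega)).1 h).2; have := tb v; omega
  have sg : ∀ q, Sg N q S := fun q v hv _ c hc c' hc' hn => by
    by_contra h
    push Not at h
    have := (h2 v hv c hc).1 h.1
    have := (h2 v hv c' hc').1 h.2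
    omega
  have b1 := blocked (sg p) hy
  by_cases y4 : y.1 = 4
  · exact Or.inr (Or.inl y4)
  obtain ⟨t, l, c, i⟩ := y
  obtain ⟨rfl, hl, hc, rfl⟩ : t = 0 ∧ l < N ∧ c < 3 ∧ i = 0 := by
    simp only [mem_LL, mem_rest, mem_r0] at c1
    rcases c1 with ((h | h) | h | h) | h
    · exact h
    · exact absurd h.1 y4
    · exact absurd (n2 _ h.2.1)
        (c3 _ h.2.1 _ (by omega) (Or.inr (Or.inl ⟨h.1, Or.inl ⟨rfl, rfl⟩⟩)))
    · exact absurd (n2 _ h.2.1)
        (c3 _ h.2.1 _ (by omega) (Or.inr (Or.inr (Or.inl ⟨h.1, rfl, Or.inl rfl⟩))))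
    · exact absurd h.1 b1
  have o : own l = !p := c2
  have ne : ∀ u c' c'', own u = p → ((0, u, c', 0) : T4) ≠ (0, l, c'', 0) := fun u c' c'' hu e => by
    obtain rfl : u = l := by simpa using congrArg (·.2.1) e
    simp [hu] at o
  have hD : ∀ x ∈ LL N φ.length, x.1 ≠ 0 → x.1 ≠ 4 → x ∈ S.erase (0, l, c, 0) := fun x hx a b =>
    mem_erase.2 ⟨fun e => a (e ▸ rfl), h1 x hx a b⟩
  have sg' : Sg N p (S.erase (0, l, c, 0)) := fun v hv ho c hc c' hc' hn =>
    (sg p v hv ho c hc c' hc' hn).imp (fun h => mem_erase.2 ⟨ne _ _ _ ho, h⟩)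
      fun h => mem_erase.2 ⟨ne _ _ _ ho, h⟩
  by_cases hl' : j ≤ l
  · refine Or.inr (Or.inr (dbl (c := c) (c' := (a l).toNat) (fun x hx e => hD x hx (by omega)
      (by omega)) sg' hl o hc (by have := tb l; omega) (fun e => (h2 l hl c hc).2 ⟨hl', e⟩ yS)
      (notMem_erase _ _) fun h => (h2 l hl _ (by have := tb l; omega)).2 ⟨hl', rfl⟩
        (mem_of_mem_erase h)))
  have H2 : ∀ S' ⊆ S, (∀ u, ∀ c ≤ 1, own u = p → (0, u, c, 0) ∈ S → (0, u, c, 0) ∈ S') →
      ∀ u, ∀ c ≤ 1, own u = p → (0, u, c, 0) ∉ S' → u + 1 < N →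
        ∃ c' ≤ 1, (0, u + 1, c', 0) ∉ S' := fun S' s1 s2 u c hc ho h hu =>
    ⟨_, tb (u + 1), fun h' => (h2 (u + 1) hu _ (by have := tb (u + 1); omega)).2 ⟨by
      have := ((h2 u (by omega) c (by omega)).1 fun h3 => h (s2 u c hc ho h3)).1
      omega, rfl⟩ (s1 h')⟩
  have reply : ∀ u < j, own u = p → SW (cT N φ) (lT N φ) p ((S.erase (0, l, c, 0)).erase (0, u, 2, 0)) →
      MW (cT N φ) (lT N φ) p (S.erase (0, l, c, 0)) := fun u hu ho h =>
    .mk _ (0, u, 2, 0) (ho ▸ top_legal (by omega) (by omega)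
      (mem_erase.2 ⟨ne _ _ _ ho, n2 u (by omega)⟩)) h
  have hD' : ∀ u, ∀ x ∈ LL N φ.length, x.1 ≠ 0 → x.1 ≠ 4 →
      x ∈ (S.erase (0, l, c, 0)).erase (0, u, 2, 0) := fun u x hx a b =>
    mem_erase.2 ⟨fun e => a (e ▸ rfl), hD x hx a b⟩
  have sg2 : ∀ u < j, Sg N p ((S.erase (0, l, c, 0)).erase (0, u, 2, 0)) := by
    intro u hu v hv ho d hd d' hd' hn
    by_contra h
    simp only [mem_erase, ne_eq, ne _ _ _ ho, not_false_eq_true, true_and, Prod.mk.injEq,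
      and_true, not_or, ← imp_iff_not_or, not_and_or, not_not, h2 v hv d hd, h2 v hv d' hd'] at h
    omega
  have H2' := fun u => H2 ((S.erase (0, l, c, 0)).erase (0, u, 2, 0))
    ((erase_subset _ _).trans (erase_subset _ _)) fun v d hd ho h =>
      mem_erase.2 ⟨by simp; omega, mem_erase.2 ⟨ne _ _ _ ho, h⟩⟩
  have n2' : ∀ u, ∀ v < N, own v = p → (0, v, 2, 0) ∉ (S.erase (0, l, c, 0)).erase (0, u, 2, 0) →
      v = u := fun u v hv ho h => by
    by_contra e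
    exact h (mem_erase.2 ⟨by simpa using e, mem_erase.2 ⟨ne _ _ _ ho, n2 v hv⟩⟩)
  by_cases hc2 : c ≤ 1
  · by_cases e : l = j - 1
    · exact Or.inl ⟨c, hc2, by rw [e], by omega, e ▸ o⟩
    have o1 : own (l + 1) = p := by rw [own_succ, o, Bool.not_not]
    refine Or.inr (Or.inr (reply (l + 1) (by omega) o1 (gw (t := 2) (v := l) (c := c)
      (w := KK N φ.length) (l := 0) (w' := 0) (hD' _) (sg2 _ (by omega)) (Or.inl rfl) le_rfl
      (fun x hx => ?_) o (H2' _) fun u hu ho h => Or.inr ?_).2))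
    · have := mem_grp.1 hx
      refine ⟨mem_LL.2 (Or.inl (mem_rest.2 (Or.inr (Or.inl (by omega))))), fun u d h => ?_⟩
      obtain ⟨rfl, rfl⟩ | ⟨rfl, rfl⟩ : (u = l + 1 ∧ d = 2) ∨ (u = l ∧ d = c) := by
        simp only [Cov, this.1] at h; omega
      all_goals simp
    · rw [n2' _ u hu ho h]
      exact ⟨by omega, c, hc2, by simp⟩
  obtain rfl : c = 2 := by omega
  refine Or.inr (Or.inr ?_)
  rcases l with _ | l
  · refine (gw (t := 3) (v := 0) (c := 0) (w := KK N φ.length) (l := 0) (w' := 0) hD sg'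
      (Or.inr ⟨rfl, Or.inr rfl⟩) le_rfl (fun x hx => ?_) o
      (H2 _ (erase_subset _ _) fun v d _ ho h => mem_erase.2 ⟨ne _ _ _ ho, h⟩)
      fun u hu ho h => absurd (mem_erase.2 ⟨ne _ _ _ ho, n2 u hu⟩) h).1
    obtain ⟨b1, b2, b3, b4⟩ := mem_grp.1 hx
    refine ⟨mem_LL.2 (Or.inl (mem_rest.2 (Or.inr (Or.inr (by rw [b2]; omega))))), fun u d h => ?_⟩
    obtain ⟨rfl, rfl⟩ : u = 0 ∧ d = 2 := by simp only [Cov, b1] at h; omega
    simp
  · have o1 : own l = p := by simpa [own_succ] using o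
    refine reply l (by omega) o1 (gw (t := 3) (v := l + 1) (c := 0)
      (w := KK N φ.length * (l + 1 + 1)) (l := l) (w' := KK N φ.length * (l + 1)) (hD' _)
      (sg2 _ (by omega)) (Or.inr ⟨rfl, Or.inl (by omega)⟩) (by rw [Nat.mul_succ _ (l + 1)]; omega)
      (fun x hx => ?_) o (H2' _) fun u hu ho h => Or.inl ?_).2
    · obtain ⟨b1, b2, b3, b4⟩ := mem_grp.1 hx
      refine ⟨mem_LL.2 (Or.inl (mem_rest.2 (Or.inr (Or.inr (by rw [b2]; omega))))), fun u d h => ?_⟩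
      obtain ⟨rfl, rfl | rfl⟩ : d = 2 ∧ (u = l + 1 ∨ u = l) := by simp only [Cov, b1] at h; omega
      all_goals simp
    · rw [n2' _ u hu ho h]
      exact ⟨rfl, le_rfl⟩

theorem Base.upd (h : Base N φ (j + 1) a S) (b : Bool) :
    Base N φ j (update a j b) (S.erase (0, j, b.toNat, 0)) := by
  refine ⟨fun x hx a b => mem_erase.2 ⟨fun e => a (e ▸ rfl), h.1 x hx a b⟩, fun v hv c hc => ?_⟩
  have := h.2 v hv c hc
  simp only [mem_erase, ne_eq, Prod.mk.injEq, true_and, and_true, not_and_or, not_not, this]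
  by_cases e : v = j
  · subst e; simp
  · rw [update_of_ne e]; omega

theorem Base.top (h : Base N φ (j + 1) a S) (hj : j < N) (b : Bool) :
    Legal (cT N φ) (lT N φ) (own j) S (0, j, b.toNat, 0) := by
  have := Bool.toNat_le b
  refine top_legal hj (by omega) ?_
  by_contra h'
  have := (h.2 j hj _ (by omega)).1 h'
  omega

theorem qa_clause {k} (h : QA φ k a) {C} (hC : C ∈ φ) (h' : ∀ l ∈ C, 2 * k ≤ l.1 ∧ a l.1 ≠ l.2) :
    False := by
  induction k generalizing a with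
  | zero => obtain ⟨l, h1, h2⟩ := h C hC; exact (h' l h1).2 h2
  | succ k ih =>
    obtain ⟨c, h⟩ := h false
    refine ih h fun l hl => ?_
    have := h' l hl
    rw [update_of_ne (by omega), update_of_ne (by omega)]
    exact ⟨by omega, this.2⟩

theorem white (hφ : ∀ C ∈ φ, ∀ l ∈ C, l.1 < N) (k : ℕ) (hk : 2 * k ≤ N) (h : Base N φ (2 * k) a S)
    (q : QA φ k a) : SW (cT N φ) (lT N φ) true S := by
  induction k generalizing a S with
  | zero =>
    intro y hy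
    rcases dev h hk hy with ⟨c, _, _, h1, _⟩ | h1 | h1
    · omega
    · exact (cl hφ h hy h1 q).elim
    · exact h1
  | succ k ih =>
    intro y hy
    rcases dev h hk hy with ⟨c, h0, rfl, _⟩ | h1 | h1
    · obtain ⟨b, rfl⟩ : ∃ b : Bool, c = b.toNat := by
        interval_cases c; exacts [⟨false, rfl⟩, ⟨true, rfl⟩]
      obtain ⟨c, q'⟩ := q b
      have h1 := Base.upd (j := 2 * k + 1) h b
      have h2 := h1.top (by omega) c
      rw [show own (2 * k) = true by simp [own]] at h2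
      exact .mk _ _ h2 (ih (by omega) (h1.upd c) q')
    · exact (cl hφ h hy h1 q).elim
    · exact h1
where
  cl {k a S y} (hφ : ∀ C ∈ φ, ∀ l ∈ C, l.1 < N) (h : Base N φ (2 * k) a S)
      (hy : Legal (cT N φ) (lT N φ) (!true) S y) (h1 : y.1 = 4) (q : QA φ k a) : False := by
    obtain ⟨_, c1, _, c3⟩ := legal_iff.1 hy
    have : y.2.1 < φ.length := by simp only [mem_LL, mem_rest, mem_r0] at c1; omega
    have hC := List.getElem_mem this
    refine qa_clause q hC fun l hl => ?_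
    have h2 := (h.2 _ (hφ _ hC l hl) _ (by have := Bool.toNat_le (!l.2); omega)).1
      (c3 _ (hφ _ hC l hl) _ (by have := Bool.toNat_le (!l.2); omega) (Or.inr (Or.inr (Or.inr
        ⟨h1, List.mem_map.2 ⟨l, by simpa [this] using hl, rfl⟩⟩))))
    refine ⟨h2.1, fun e => ?_⟩
    have h3 := h2.2
    rw [e] at h3
    cases h4 : l.2 <;> simp [h4] at h3

theorem black (k : ℕ) (hk : 2 * k ≤ N) (h : Base N φ (2 * k) a S)
    (h4 : ∀ j < φ.length, (4, j, 0, 0) ∈ S) (q : ¬ QA φ k a) : MW (cT N φ) (lT N φ) false S := by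
  have nc : ∀ {S y}, Legal (cT N φ) (lT N φ) (!false) S y → y.1 ≠ 4 := fun hy e => by
    simpa [colT, e] using hy.2.1.2
  induction k generalizing a S with
  | zero =>
    simp only [QA, Md, By, not_forall, not_exists, not_and] at q
    obtain ⟨C, hC, q⟩ := q
    obtain ⟨j, hj, rfl⟩ := List.getElem_of_mem hC
    refine .mk _ (4, j, 0, 0) (legal_iff.2 ⟨h4 j hj, mem_LL.2 (Or.inl (mem_rest.2 (Or.inl
      (mem_r0.2 (Or.inr ⟨rfl, hj, rfl, rfl⟩))))), rfl, fun w hw d hd hc => ?_⟩) fun y hy => ?_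
    · simp only [Cov, List.getD_eq_getElem?_getD, List.getElem?_eq_getElem hj, Option.getD_some,
        List.mem_map, Prod.mk.injEq] at hc
      obtain ⟨l, h1, rfl, rfl⟩ := ((hc.resolve_left (by omega)).resolve_left
        (by omega)).resolve_left (by omega) |>.2
      refine (h.2 _ hw _ hd).2 ⟨by omega, ?_⟩
      have := q l h1
      revert this
      cases a l.1 <;> cases l.2 <;> simp
    · have h1 : Base N φ (2 * 0) a (S.erase (4, j, 0, 0)) :=
        ⟨fun x hx a b => mem_erase.2 ⟨fun e => b (e ▸ rfl), h.1 x hx a b⟩, fun v hv c hc => by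
          simpa using h.2 v hv c hc⟩
      rcases dev h1 hk hy with ⟨c, _, _, h1, _⟩ | h1 | h1
      · omega
      · exact absurd h1 (nc hy)
      · exact h1
  | succ k ih =>
    simp only [QA, not_forall, not_exists] at q
    obtain ⟨b, q⟩ := q
    have h1 := Base.upd (j := 2 * k + 1) h b
    refine .mk _ (0, 2 * k + 1, b.toNat, 0) (by
      simpa [own] using Base.top (j := 2 * k + 1) h (by omega) b) fun y hy => ?_
    rcases dev h1 (by omega) hy with ⟨c, h0, rfl, _⟩ | h2 | h2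
    · obtain ⟨b', rfl⟩ : ∃ b : Bool, c = b.toNat := by
        interval_cases c; exacts [⟨false, rfl⟩, ⟨true, rfl⟩]
      exact ih (by omega) (h1.upd b') (fun j hj => by simp [h4 j hj]) (q b')
    · exact absurd h2 (nc hy)
    · exact h2

theorem zero_iff {k : ℕ} (hφ : ∀ C ∈ φ, ∀ l ∈ C, l.1 < 2 * k) : TQ (k, φ) ↔
    ∀ p, SW (cT (2 * k) φ) (lT (2 * k) φ) p (LL (2 * k) φ.length).toFinset := by
  have b : Base (2 * k) φ (2 * k) (fun _ => false) (LL (2 * k) φ.length).toFinset :=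
    ⟨fun x hx _ _ => List.mem_toFinset.2 hx, fun v hv c hc => by simp [top_mem hv hc]; omega⟩
  refine ⟨fun q p => ?_, fun h => by_contra fun q => (black k le_rfl b (fun j hj =>
    List.mem_toFinset.2 (mem_LL.2 (Or.inl (mem_rest.2 (Or.inl
      (mem_r0.2 (Or.inr ⟨rfl, hj, rfl, rfl⟩))))))) q).not_sw (h _)⟩
  cases p
  · intro y hy
    rcases dev b le_rfl hy with ⟨c, _, _, h1, h2⟩ | h1 | h1
    · simp [own] at h2; omega
    · simpa [colT, h1] using hy.2.1.2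
    · exact h1
  · exact white hφ k le_rfl b q

def code (x : T4) : ℕ := Nat.pair x.1 (Nat.pair x.2.1 (Nat.pair x.2.2.1 x.2.2.2))

theorem code_inj : Injective code := fun ⟨_, _, _, _⟩ ⟨_, _, _, _⟩ h => by simpa [code] using h

def red (I : ℕ × CNF ℕ) : CP :=
  ((LL (2 * I.1) I.2.length).map fun x => (code x, colT x),
    (((LL (2 * I.1) I.2.length).product (tops (2 * I.1))).filter fun q =>
      decide (Cov I.2 q.1 q.2.2.1 q.2.2.2.1)).map fun q => (code q.1, code q.2))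

theorem pt_red : PT red := by
  have h1 : PT fun I : ℕ × CNF ℕ => LL (2 * I.1) I.2.length := by
    unfold LL rest KK r0 tops grp; fun_prop
  have h2 : PT fun I : ℕ × CNF ℕ => tops (2 * I.1) := by unfold tops; fun_prop
  unfold red Cov code colT own
  fun_prop

theorem pom_psh : PSH Height2 Zero := by
  refine tq_psh.reduce red pt_red fun ⟨k, φ⟩ hφ => ?_
  have hc : ∀ x c, (code x, c) ∈ (red (k, φ)).1 ↔ cT (2 * k) φ x c := fun x c => by
    simp only [red, cT, List.mem_map, Prod.mk.injEq, code_inj.eq_iff]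
    exact ⟨fun ⟨_, h, h1, h2⟩ => h1 ▸ ⟨h, h2⟩, fun h => ⟨x, h.1, rfl, h.2⟩⟩
  have hl : ∀ x y, (code x, code y) ∈ (red (k, φ)).2 ↔ lT (2 * k) φ x y := fun x y => by
    simp only [red, lT, List.mem_map, List.mem_filter, Prod.mk.injEq, code_inj.eq_iff,
      decide_eq_true_eq, Prod.exists, List.pair_mem_product]
    exact ⟨fun ⟨_, _, _, _, _, _, _, _, h, h1, h2⟩ => h1 ▸ h2 ▸ ⟨h.1.1, h.1.2, h.2⟩,
      fun h => ⟨_, _, _, _, _, _, _, _, ⟨⟨h.1, h.2.1⟩, h.2.2⟩, rfl, rfl⟩⟩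
  have he : elems (red (k, φ)) = (LL (2 * k) φ.length).toFinset.map ⟨code, code_inj⟩ := by
    ext x; simp [elems, red]
  have hr : ∀ u v, (u, v) ∈ (red (k, φ)).2 → ∃ x y, u = code x ∧ v = code y ∧ lT (2 * k) φ x y :=
    fun u v h => by
      obtain ⟨⟨x, y⟩, _, e⟩ := List.mem_map.1 h
      obtain ⟨rfl, rfl⟩ := Prod.mk.inj e
      exact ⟨x, y, rfl, rfl, (hl x y).1 h⟩
  have nc : ∀ x y z, ¬ ((x, y) ∈ (red (k, φ)).2 ∧ (y, z) ∈ (red (k, φ)).2) := by
    rintro _ _ _ ⟨h1, h2⟩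
    obtain ⟨x, y, rfl, rfl, h3⟩ := hr _ _ h1
    obtain ⟨y', z, e, rfl, h4⟩ := hr _ _ h2
    obtain rfl := code_inj e
    have := (mem_tops.1 h3.2.1).1
    simpa [Cov, this] using h4.2.2
  refine ⟨⟨fun x h => ?_, fun q h => ?_, fun x h => nc x x x ⟨h, h⟩,
    fun x y z h h' => (nc x y z ⟨h, h'⟩).elim, nc⟩, ?_⟩
  · obtain ⟨y, _, e⟩ := List.mem_map.1 h.1
    obtain ⟨rfl, -⟩ := Prod.mk.inj e
    simpa using ((hc _ _).1 h.1).2.symm.trans ((hc _ _).1 h.2).2
  · obtain ⟨x, y, e1, e2, h3⟩ := hr q.1 q.2 h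
    obtain ⟨a, b, c, d⟩ := y
    obtain ⟨rfl, h5, h6, rfl⟩ := mem_tops.1 h3.2.1
    rw [he, e1, e2]
    exact ⟨mem_map.2 ⟨x, List.mem_toFinset.2 h3.1, rfl⟩,
      mem_map.2 ⟨_, List.mem_toFinset.2 (top_mem h5 h6), rfl⟩⟩
  · rw [zero_iff hφ, Zero, he]
    exact forall_congr' fun p => (sw_map ⟨code, code_inj⟩ hc hl _).symm

end Pool.Agent.H22.Pom
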