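import Pool.Agent.H36.PSpaceDefs

/-!
Pomax games on coloured posets.  The players are `true` (White) and `false` (Black).
-/

namespace Pool.Agent.H22.Pom

section
variable {α : Type} [DecidableEq α] (col : α → Bool → Prop) (lt : α → α → Prop)

/-- `x` is an element of colour `p` that is maximal among the remaining elements `S`. -/
def Legal (p : Bool) (S : Finset α) (x : α) : Prop := x ∈ S ∧ col x p ∧ ∀ y ∈ S, ¬ lt x y

/-- Player `p` moves first on the remaining elements `S` and wins: `p` has a legal move such that
after every legal reply `p` wins again (a player without legal move loses). -/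
inductive MW (p : Bool) : Finset α → Prop
  | mk (S : Finset α) (x : α) : Legal col lt p S x →
      (∀ y, Legal col lt (!p) (S.erase x) y → MW p ((S.erase x).erase y)) → MW p S

/-- Player `p` moves second on `S` and wins. -/
def SW (p : Bool) (S : Finset α) : Prop := ∀ y, Legal col lt (!p) S y → MW col lt p (S.erase y)

end

/-- A coloured poset: the elements with their colours, and the pairs `(x, y)` with `x < y`. -/
abbrev CP := List (ℕ × Bool) × List (ℕ × ℕ)

/-- the set of elements -/
def elems (I : CP) : Finset ℕ := (I.1.map Prod.fst).toFinset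

/-- Every element has one colour, the pairs form a strict partial order on the elements, and
there is no chain `x < y < z`. -/
def Height2 (I : CP) : Prop :=
  (∀ x, ¬ ((x, true) ∈ I.1 ∧ (x, false) ∈ I.1)) ∧ (∀ q ∈ I.2, q.1 ∈ elems I ∧ q.2 ∈ elems I) ∧
  (∀ x, (x, x) ∉ I.2) ∧ (∀ x y z, (x, y) ∈ I.2 → (y, z) ∈ I.2 → (x, z) ∈ I.2) ∧
  ∀ x y z, ¬ ((x, y) ∈ I.2 ∧ (y, z) ∈ I.2)

/-- The pomax game equals `0`: the second player wins, whoever starts. -/
def Zero (I : CP) : Prop :=
  ∀ p, SW (fun x c => (x, c) ∈ I.1) (fun x y => (x, y) ∈ I.2) p (elems I)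

end Pool.Agent.H22.Pom
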