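import Pool.Agent.H36.PSpace

/-! Quantified Boolean formulas are PSPACE-hard. -/

namespace Pool.Agent.H22.QB

open Pool.Agent.H38.NP Pool.Agent.H36.PSpace Function

section
variable {α : Type} (r : α → α → Prop)

def RN : ℕ → α → α → Prop
  | 0, x, y => x = y
  | k + 1, x, y => RN k x y ∨ ∃ z, RN k x z ∧ r z y

def PP : ℕ → α → α → Prop
  | 0, x, y => x = y ∨ r x y
  | k + 1, x, y => ∃ m, PP k x m ∧ PP k m y

variable {r}

theorem RN.refl (k : ℕ) (x : α) : RN r k x x := by
  induction k with
  | zero => rfl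
  | succ k ih => exact Or.inl ih

theorem RN.split {a b : ℕ} {x y : α} (h : RN r (a + b) x y) : ∃ m, RN r a x m ∧ RN r b m y := by
  induction b generalizing y with
  | zero => exact ⟨y, h, rfl⟩
  | succ b ih =>
    rcases h with h | ⟨z, h, hz⟩
    · obtain ⟨m, h1, h2⟩ := ih h
      exact ⟨m, h1, Or.inl h2⟩
    · obtain ⟨m, h1, h2⟩ := ih h
      exact ⟨m, h1, Or.inr ⟨z, h2, hz⟩⟩

theorem RN.pp {k : ℕ} {x y : α} (h : RN r (2 ^ k) x y) : PP r k x y := by
  induction k generalizing x y with
  | zero =>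
    rcases h with h | ⟨z, h, hz⟩
    · exact Or.inl h
    · exact Or.inr (h ▸ hz)
  | succ k ih =>
    rw [pow_succ, mul_two] at h
    obtain ⟨m, h1, h2⟩ := h.split
    exact ⟨m, ih h1, ih h2⟩

theorem PP.rtg {k : ℕ} {x y : α} (h : PP r k x y) : Relation.ReflTransGen r x y := by
  induction k generalizing x y with
  | zero => exact h.elim (fun e => e ▸ .refl) .single
  | succ k ih => obtain ⟨m, h1, h2⟩ := h; exact (ih h1).trans (ih h2)

theorem rn_card [Fintype α] {x y : α} (h : Relation.ReflTransGen r x y) :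
    RN r (Fintype.card α) x y := by
  classical
  let A : ℕ → Finset α := fun k => Finset.univ.filter (RN r k x)
  have mem : ∀ k y, y ∈ A k ↔ RN r k x y := fun k y => by simp [A]
  have key : ∀ k, A (k + 1) ⊆ A k ∨ k < (A k).card := by
    intro k
    induction k with
    | zero => exact Or.inr (Finset.card_pos.2 ⟨x, (mem _ _).2 rfl⟩)
    | succ k ih =>
      by_cases h : A (k + 1) ⊆ A k
      · refine Or.inl fun y hy => ?_
        rcases (mem _ _).1 hy with h1 | ⟨z, h1, hz⟩
        · exact (mem _ _).2 h1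
        · exact (mem _ _).2 (Or.inr ⟨z, (mem _ _).1 (h ((mem _ _).2 h1)), hz⟩)
      · have := Finset.card_lt_card (s := A k) (t := A (k + 1))
          ⟨fun y hy => (mem _ _).2 (Or.inl ((mem _ _).1 hy)), h⟩
        have := ih.resolve_left h
        omega
  have cl := (key (Fintype.card α)).resolve_right (not_lt.2 (Finset.card_le_univ _))
  induction h with
  | refl => exact RN.refl _ _
  | tail _ hz ih => exact (mem _ _).1 (cl ((mem _ _).2 (Or.inr ⟨_, ih, hz⟩)))

end

theorem rtg_iff {n : ℕ} {r : (Fin n → Bool) → (Fin n → Bool) → Prop} {x y} :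
    Relation.ReflTransGen r x y ↔ PP r n x y :=
  ⟨fun h => RN.pp (by simpa using rn_card h), PP.rtg⟩

def QK (q : ℕ → Bool) (M : (ℕ → Bool) → Prop) : ℕ → (ℕ → Bool) → Prop
  | 0, a => M a
  | k + 1, a => if q k then ∀ b, QK q M k (update a k b) else ∃ b, QK q M k (update a k b)

theorem qk_block {q M} {k r : ℕ} (h : ∀ j, k ≤ j → j < k + r → q j = false) (a : ℕ → Bool) :
    QK q M (k + r) a ↔ ∃ a', (∀ j, (j < k ∨ k + r ≤ j) → a' j = a j) ∧ QK q M k a' := by
  induction r generalizing a with
  | zero =>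
    refine ⟨fun h => ⟨a, fun _ _ => rfl, h⟩, fun ⟨a', h1, h2⟩ => ?_⟩
    rwa [show a' = a from funext fun j => h1 j (by omega)] at h2
  | succ r ih =>
    rw [← add_assoc, QK, h (k + r) (by omega) (by omega)]
    simp only [Bool.false_eq_true, if_false, ih fun j h1 h2 => h j h1 (by omega)]
    constructor
    · rintro ⟨b, a', h1, h2⟩
      exact ⟨a', fun j hj => by rw [h1 j (by omega), update_of_ne (by omega)], h2⟩
    · rintro ⟨a', h1, h2⟩
      refine ⟨a' (k + r), a', fun j hj => ?_, h2⟩
      by_cases e : j = k + r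
      · rw [e, update_self]
      · rw [update_of_ne e, h1 j (by omega)]

variable {n : ℕ}

def ext (x : Fin n → Bool) (j : ℕ) : Bool := if h : j < n then x ⟨j, h⟩ else false

def blk (n : ℕ) (a : ℕ → Bool) (o : ℕ) : Fin n → Bool := fun j => a (o + j)

def put (a : ℕ → Bool) (o : ℕ) (x : Fin n → Bool) : ℕ → Bool :=
  fun j => if o ≤ j ∧ j < o + n then ext x (j - o) else a j

theorem put_out {a : ℕ → Bool} {o j : ℕ} (x : Fin n → Bool) (h : j < o ∨ o + n ≤ j) :
    put a o x j = a j := if_neg (by omega)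

theorem blk_put (a : ℕ → Bool) (o : ℕ) (x : Fin n → Bool) : blk n (put a o x) o = x := by
  funext j
  simp [blk, put, ext]

theorem blk_congr {a a' : ℕ → Bool} {o : ℕ} (h : ∀ j, o ≤ j → j < o + n → a j = a' j) :
    blk n a o = blk n a' o := funext fun j => h _ (by omega) (by omega)

theorem ext_blk {a : ℕ → Bool} {o j : ℕ} (h : j < n) : ext (blk n a o) j = a (o + j) := by
  simp [ext, blk, h]

theorem qk_put {q M} {k : ℕ} (h : ∀ j, k ≤ j → j < k + n → q j = false) (a : ℕ → Bool) :
    QK q M (k + n) a ↔ ∃ x : Fin n → Bool, QK q M k (put a k x) := by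
  rw [qk_block h]
  refine ⟨fun ⟨a', h1, h2⟩ => ⟨blk n a' k, ?_⟩, fun ⟨x, h⟩ => ⟨_, fun j hj => put_out x hj, h⟩⟩
  have : put a k (blk n a' k) = a' := funext fun j => by
    by_cases e : k ≤ j ∧ j < k + n
    · rw [put, if_pos e, ext_blk (by omega)]; congr 1; omega
    · rw [put_out _ (by omega), h1 j (by omega)]
  rwa [this]

def off (n l : ℕ) : ℕ := 1 + l * (3 * n + 1)

theorem off_succ (n l : ℕ) : off n (l + 1) = off n l + 3 * n + 1 := by
  simp [off, Nat.succ_mul]; omega

theorem off_mono {l l' : ℕ} (h : l ≤ l') : off n l ≤ off n l' :=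
  Nat.add_le_add_left (Nat.mul_le_mul_right _ h) _

def qq (n j : ℕ) : Bool := decide (1 ≤ j ∧ (j - 1) % (3 * n + 1) = 2 * n)

theorem qq_off {l j : ℕ} (h1 : off n l ≤ j) (h2 : j ≤ off n l + 3 * n) :
    qq n j = decide (j = off n l + 2 * n) := by
  obtain ⟨t, rfl⟩ := Nat.exists_eq_add_of_le h1
  have : (off n l + t - 1) % (3 * n + 1) = t := by
    rw [off, show 1 + l * (3 * n + 1) + t - 1 = (3 * n + 1) * l + t by rw [mul_comm]; omega,
      Nat.mul_add_mod, Nat.mod_eq_of_lt (by omega)]
  simp only [qq, this, decide_eq_decide]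
  unfold off; omega

def Link (n l : ℕ) (a : ℕ → Bool) : Prop :=
  blk n a (off n l + n) = (if a (off n l + 2 * n) then blk n a (off n (l + 1) + n)
    else blk n a (off n l + 2 * n + 1)) ∧
  blk n a (off n l) = (if a (off n l + 2 * n) then blk n a (off n l + 2 * n + 1)
    else blk n a (off n (l + 1)))

def Up (I F : (Fin n → Bool) → Prop) (i : ℕ) (a : ℕ → Bool) : Prop :=
  I (blk n a (off n n + n)) ∧ F (blk n a (off n n)) ∧ ∀ l, i ≤ l → l < n → Link n l a

def Mx (I F : (Fin n → Bool) → Prop) (r : (Fin n → Bool) → (Fin n → Bool) → Prop)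
    (a : ℕ → Bool) : Prop :=
  Up I F 0 a ∧ (a 0 = true → blk n a (off n 0 + n) = blk n a (off n 0)) ∧
    (a 0 = false → r (blk n a (off n 0 + n)) (blk n a (off n 0)))

theorem Up.congr {I F : (Fin n → Bool) → Prop} {i a a'} (hi : i ≤ n)
    (h : ∀ j, off n i ≤ j → a j = a' j) : Up I F i a ↔ Up I F i a' := by
  have b : ∀ o, off n i ≤ o → blk n a o = blk n a' o := fun o ho => blk_congr fun j _ _ =>
    h j (by omega)
  have := off_mono (n := n) hi
  unfold Up
  rw [b _ this, b _ (by omega)]
  refine and_congr_right fun _ => and_congr_right fun _ => forall₃_congr fun l h1 _ => ?_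
  have := off_mono (n := n) h1
  have := off_succ n l
  unfold Link
  rw [b (off n l) (by omega), b (off n l + n) (by omega), b (off n (l + 1)) (by omega),
    b (off n (l + 1) + n) (by omega), b (off n l + 2 * n + 1) (by omega), h _ (by omega)]

theorem lev {I F : (Fin n → Bool) → Prop} {r} (i : ℕ) (hi : i ≤ n) (a : ℕ → Bool) :
    QK (qq n) (Mx I F r) (off n i) a ↔
      Up I F i a ∧ PP r i (blk n a (off n i + n)) (blk n a (off n i)) := by
  induction i generalizing a with
  | zero =>
    have e : off n 0 = 0 + 1 := by simp [off]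
    have b : ∀ c o, 1 ≤ o → blk n (update a 0 c) o = blk n a o := fun c o h =>
      blk_congr fun j _ _ => update_of_ne (by omega) _ _
    have u : ∀ c, Up I F 0 (update a 0 c) ↔ Up I F 0 a := fun c =>
      Up.congr hi fun j hj => update_of_ne (by omega) _ _
    conv_lhs => rw [e, QK]
    simp only [qq, QK, Mx, u, b _ _ (show 1 ≤ off n 0 by omega),
      b _ _ (show 1 ≤ off n 0 + n by omega), PP]
    simp [and_or_left, or_comm]
  | succ i ih =>
    have e := off_succ n i
    set o := off n i with ho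
    have qf : ∀ j, o ≤ j → j ≤ o + 3 * n → j ≠ o + 2 * n → qq n j = false := fun j h1 h2 h3 => by
      rw [qq_off h1 h2]; simpa using h3
    conv_lhs => rw [show off n (i + 1) = o + 2 * n + 1 + n by omega]
    rw [qk_put fun j _ _ => qf j (by omega) (by omega) (by omega)]
    have qt : qq n (o + 2 * n) = true := by
      rw [qq_off (n := n) (l := i) (by omega) (by omega)]; simp [ho]
    simp only [QK, qt, if_true]
    have k : ∀ (m : Fin n → Bool) (b : Bool),
        QK (qq n) (Mx I F r) (o + 2 * n) (update (put a (o + 2 * n + 1) m) (o + 2 * n) b) ↔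
        Up I F (i + 1) a ∧ PP r i (if b then blk n a (off n (i + 1) + n) else m)
          (if b then m else blk n a (off n (i + 1))) := fun m b => by
      set a1 := update (put a (o + 2 * n + 1) m) (o + 2 * n) b with ha1
      conv_lhs => rw [show o + 2 * n = o + n + n by omega]
      rw [qk_put fun j _ _ => qf j (by omega) (by omega) (by omega)]
      simp only [qk_put (n := n) (k := o) fun j _ _ => qf j (by omega) (by omega) (by omega),
        ih (by omega)]
      have k2 : ∀ x y : Fin n → Bool, (Up I F i (put (put a1 (o + n) x) o y) ↔ Up I F (i + 1) a ∧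
          x = (if b then blk n a (off n (i + 1) + n) else m) ∧
          y = (if b then m else blk n a (off n (i + 1)))) ∧
          blk n (put (put a1 (o + n) x) o y) (o + n) = x := fun x y => by
        have c1 : blk n (put (put a1 (o + n) x) o y) (o + n) = x :=
          (blk_congr fun j _ _ => put_out _ (by omega)).trans (blk_put _ _ _)
        have c2 : ∀ j, o + 2 * n ≤ j → put (put a1 (o + n) x) o y j = a1 j := fun j hj => by
          rw [put_out _ (by omega), put_out _ (by omega)]
        have c3 : ∀ j, off n (i + 1) ≤ j → put (put a1 (o + n) x) o y j = a j := fun j hj => by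
          rw [c2 j (by omega), ha1, update_of_ne (by omega), put_out _ (by omega)]
        have c4 : blk n (put (put a1 (o + n) x) o y) (o + 2 * n + 1) = m :=
          (blk_congr fun j _ _ => by
            rw [c2 j (by omega), ha1, update_of_ne (by omega)]).trans (blk_put _ _ _)
        have c5 : ∀ p, off n (i + 1) ≤ p → blk n (put (put a1 (o + n) x) o y) p = blk n a p :=
          fun p hp => blk_congr fun j _ _ => c3 j (by omega)
        refine ⟨?_, c1⟩
        rw [← Up.congr hi c3]
        have : Link n i (put (put a1 (o + n) x) o y) ↔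
            x = (if b then blk n a (off n (i + 1) + n) else m) ∧
            y = (if b then m else blk n a (off n (i + 1))) := by
          rw [Link, ← ho, c1, c4, blk_put, c5 _ le_rfl, c5 _ (Nat.le_add_right _ _), c2 _ le_rfl,
            ha1, update_self]
        rw [← this]
        exact ⟨fun h => ⟨⟨h.1, h.2.1, fun l _ h2 => h.2.2 l (by omega) h2⟩, h.2.2 i le_rfl hi⟩,
          fun h => ⟨h.1.1, h.1.2.1, fun l h1 h2 => (Nat.eq_or_lt_of_le h1).elim
            (fun e => e ▸ h.2) fun e => h.1.2.2 l e h2⟩⟩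
      simp only [(k2 _ _).1, (k2 _ _).2, blk_put]
      exact ⟨fun ⟨x, y, ⟨h1, h2, h3⟩, h4⟩ => ⟨h1, h2 ▸ h3 ▸ h4⟩, fun h => ⟨_, _, ⟨h.1, rfl, rfl⟩, h.2⟩⟩
    simp only [k, PP, Bool.forall_bool, if_true, Bool.false_eq_true, if_false]
    exact ⟨fun ⟨m, h1, h2⟩ => ⟨h1.1, m, h2.2, h1.2⟩, fun ⟨h, m, h1, h2⟩ => ⟨m, ⟨h, h2⟩, h, h1⟩⟩

theorem top {I F : (Fin n → Bool) → Prop} {r} (a : ℕ → Bool) :
    QK (qq n) (Mx I F r) (off n n + n + n) a ↔
      ∃ x y, I x ∧ F y ∧ Relation.ReflTransGen r x y := by
  have qf : ∀ j, off n n ≤ j → j < off n n + n + n → qq n j = false := fun j h1 h2 => by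
    rw [qq_off h1 (by omega)]; simp; omega
  rw [qk_put fun j _ _ => qf j (by omega) (by omega)]
  simp only [qk_put (n := n) (k := off n n) fun j _ _ => qf j (by omega) (by omega), lev n le_rfl, Up,
    blk_put, rtg_iff]
  refine exists₂_congr fun x y => ?_
  rw [show blk n (put (put a (off n n + n) x) (off n n) y) (off n n + n) = x from
    (blk_congr fun j _ _ => put_out _ (by omega)).trans (blk_put _ _ _)]
  exact ⟨fun h => ⟨h.1.1, h.1.2.1, h.2⟩, fun h => ⟨⟨h.1, h.2.1, fun l _ _ => by omega⟩, h.2.2⟩⟩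

end Pool.Agent.H22.QB
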