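import Mathlib
import Pool.Agent.H22.EL
import Pool.Agent.H22.Cyc

set_option autoImplicit false
set_option maxRecDepth 100000
set_option synthInstance.maxSize 100000

namespace Pool.Agent.H22.SCC3
open Pool.Agent.H22.EL Pool.Agent.H22.Cyc

def s (e : Fin 60) : Fin 30 := ([0, 6, 11, 16, 21, 25, 26, 27, 28, 29, 2, 7, 12, 17, 22, 0, 1, 0, 0, 1, 1, 2, 2, 3, 5, 6, 5, 5, 6, 6, 7, 7, 8, 10, 11, 10, 10, 11, 11, 12, 12, 13, 15, 16, 15, 15, 16, 16, 17, 17, 18, 20, 21, 20, 20, 21, 21, 22, 22, 23] : List (Fin 30)).getD e 0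
def t (e : Fin 60) : Fin 30 := ([5, 10, 15, 20, 1, 27, 28, 29, 25, 26, 25, 26, 27, 28, 29, 2, 2, 3, 4, 3, 4, 3, 4, 4, 7, 7, 8, 9, 8, 9, 8, 9, 9, 12, 12, 13, 14, 13, 14, 13, 14, 14, 17, 17, 18, 19, 18, 19, 18, 19, 19, 22, 22, 23, 24, 23, 24, 23, 24, 24] : List (Fin 30)).getD e 0
def inc (v : Fin 30) : List (Fin 60) := ([[0, 15, 17, 18], [4, 16, 19, 20], [10, 15, 16, 21, 22], [17, 19, 21, 23], [18, 20, 22, 23], [0, 24, 26, 27], [1, 25, 28, 29], [11, 24, 25, 30, 31], [26, 28, 30, 32], [27, 29, 31, 32], [1, 33, 35, 36], [2, 34, 37, 38], [12, 33, 34, 39, 40], [35, 37, 39, 41], [36, 38, 40, 41], [2, 42, 44, 45], [3, 43, 46, 47], [13, 42, 43, 48, 49], [44, 46, 48, 50], [45, 47, 49, 50], [3, 51, 53, 54], [4, 52, 55, 56], [14, 51, 52, 57, 58], [53, 55, 57, 59], [54, 56, 58, 59], [5, 8, 10], [6, 9, 11], [5, 7, 12], [6, 8, 13],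 [7, 9, 14]] : List (List (Fin 60))).getD v []
def adj (v : ℕ) : ℕ := ([60, 2097180, 33554459, 23, 15, 897, 1920, 67109728, 736, 480, 28736, 61440, 134245376, 23552, 15360, 919552, 1966080, 269320192, 753664, 491520, 29425664, 29360130, 565182464, 24117248, 15728640, 402653188, 805306496, 570429440, 100794368, 205520896] : List ℕ).getD v 0

lemma loopless : ∀ e, s e ≠ t e := by decide +kernel
lemma inj : Function.Injective (ends s t) := ends_inj s t (by decide +kernel)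
lemma inc_spec : ∀ v e, (s e = v ∨ t e = v) ↔ e ∈ inc v := by decide +kernel
lemma inc_nodup : ∀ v, (inc v).Nodup := by decide +kernel

lemma conn (S : Finset (Fin 30)) (hS : S.card < 3) : ((gr s t).induce ((↑S : Set (Fin 30))ᶜ)).Connected :=
  three_connected (by norm_num) _ adj (hadj_of _ adj (by decide +kernel) (by decide +kernel)) 8
    (by decide +kernel) S hS

def cover : List (Fin 30 × List (Fin 30)) := [(2, [0, 5, 7, 26, 28, 17, 15, 11, 12, 27, 25]), (2, [1, 21, 22, 29, 26, 7, 6, 10, 12, 27, 25]), (17, [16, 20, 22, 29, 27, 25, 28]), (0, [3, 1, 4]), (2, [3, 4]), (5, [8, 6, 9]), (7, [8, 9]), (10, [13, 11, 14]), (12, [13, 14]), (15, [18, 16, 19]), (17, [18, 19]), (20, [23, 21, 24]), (22, [23, 24])]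

lemma gadget (a b c x0 x1 x2 x3 x4 x5 x6 x7 x8 : ℕ) (ha : 1 ≤ a ∧ a ≤ 2) (hb : 1 ≤ b ∧ b ≤ 2) (hc : 1 ≤ c ∧ c ≤ 2)
    (h0 : 1 ≤ x0 ∧ x0 ≤ 2) (h1 : 1 ≤ x1 ∧ x1 ≤ 2) (h2 : 1 ≤ x2 ∧ x2 ≤ 2) (h3 : 1 ≤ x3 ∧ x3 ≤ 2)
    (h4 : 1 ≤ x4 ∧ x4 ≤ 2) (h5 : 1 ≤ x5 ∧ x5 ≤ 2) (h6 : 1 ≤ x6 ∧ x6 ≤ 2) (h7 : 1 ≤ x7 ∧ x7 ≤ 2)
    (h8 : 1 ≤ x8 ∧ x8 ≤ 2)
    (pa : (a + (x0 + (x2 + (x3 + 0)))) % 2 = 0) (pb : (b + (x1 + (x4 + (x5 + 0)))) % 2 = 0)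
    (pc : (c + (x0 + (x1 + (x6 + (x7 + 0))))) % 2 = 0) :
    9 + pen (decide (a = 2)) (decide (b = 2)) (decide (c = 2)) ≤ x0 + x1 + x2 + x3 + x4 + x5 + x6 + x7 + x8 := by
  by_cases h : 10 ≤ x0 + x1 + x2 + x3 + x4 + x5 + x6 + x7 + x8
  · have := pen_le (decide (a = 2)) (decide (b = 2)) (decide (c = 2)); omega
  · have e1 : a = 1 := by omega
    have e2 : b = 1 := by omega
    have e3 : c = 2 := by omega
    subst e1 e2 e3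
    simp [pen]; omega

lemma cut (a b c x0 x1 x2 x3 x4 x5 x6 x7 x8 : ℕ)
    (pa : (a + (x0 + (x2 + (x3 + 0)))) % 2 = 0) (pb : (b + (x1 + (x4 + (x5 + 0)))) % 2 = 0)
    (pc : (c + (x0 + (x1 + (x6 + (x7 + 0))))) % 2 = 0)
    (px : (x2 + (x4 + (x6 + (x8 + 0)))) % 2 = 0) (py : (x3 + (x5 + (x7 + (x8 + 0)))) % 2 = 0) :
    (a + (b + (c + 0))) % 2 = 0 := by omega

lemma outer : ∀ b0 b1 b2 b3 b4 b5 b6 b7 b8 b9 b10 b11 b12 b13 b14 : Bool, (N b0 + (N b4 + (N b10 + 0))) % 2 = 0 → (N b0 + (N b1 + (N b11 + 0))) % 2 = 0 → (N b1 + (N b2 + (N b12 + 0))) % 2 = 0 → (N b2 + (N b3 + (N b13 + 0))) % 2 = 0 → (N b3 + (N b4 + (N b14 + 0))) % 2 = 0 → (N b5 + (N b8 + (N b10 + 0))) % 2 = 0 → (N b6 + (N b9 + (N b11 + 0))) % 2 = 0 → (N b5 + (N b7 + (N b12 + 0))) % 2 = 0 → (N b6 + (N b8 + (N b13 + 0))) % 2 = 0 → (N b7 + (N b9 + (N b14 + 0))) % 2 =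 0 → N b0 + N b1 + N b2 + N b3 + N b4 + N b5 + N b6 + N b7 + N b8 + N b9 + N b10 + N b11 + N b12 + N b13 + N b14 + pen b0 b4 b10 + pen b0 b1 b11 + pen b1 b2 b12 + pen b2 b3 b13 + pen b3 b4 b14 ≤ 22 → N b0 = 1 ∧ N b1 = 1 ∧ N b2 = 1 ∧ N b3 = 1 ∧ N b4 = 1 ∧ N b5 = 1 ∧ N b6 = 1 ∧ N b7 = 1 ∧ N b8 = 1 ∧ N b9 = 1 ∧ N b10 = 2 ∧ N b11 = 2 ∧ N b12 = 2 ∧ N b13 = 2 ∧ N b14 = 2 := by
  decide +kernel

lemma petpar (f : Fin 60 → ℕ) (hp : ∀ v, ((inc v).map f).sum % 2 = 0) :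
    (f 0 + (f 4 + (f 10 + 0))) % 2 = 0 ∧ (f 0 + (f 1 + (f 11 + 0))) % 2 = 0 ∧ (f 1 + (f 2 + (f 12 + 0))) % 2 = 0 ∧ (f 2 + (f 3 + (f 13 + 0))) % 2 = 0 ∧ (f 3 + (f 4 + (f 14 + 0))) % 2 = 0 ∧ (f 5 + (f 8 + (f 10 + 0))) % 2 = 0 ∧ (f 6 + (f 9 + (f 11 + 0))) % 2 = 0 ∧ (f 5 + (f 7 + (f 12 + 0))) % 2 = 0 ∧ (f 6 + (f 8 + (f 13 + 0))) % 2 = 0 ∧ (f 7 + (f 9 + (f 14 + 0))) % 2 = 0 := by
  refine ⟨cut _ _ _ _ _ _ _ _ _ _ _ _ (hp 0) (hp 1) (hp 2) (hp 3) (hp 4), cut _ _ _ _ _ _ _ _ _ _ _ _ (hp 5) (hp 6) (hp 7) (hp 8) (hp 9), cut _ _ _ _ _ _ _ _ _ _ _ _ (hp 10) (hp 11) (hp 12) (hp 13) (hp 14), cut _ _ _ _ _ _ _ _ _ _ _ _ (hp 15) (hp 16) (hp 17) (hp 18) (hp 19), cut _ _ _ _ _ _ _ _ _ _ _ _ (hp 20) (hp 21) (hp 22) (hp 23) (hp 24), hp 25, hp 26, hp 27, hp 28, hp 29⟩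

lemma sum60 (d : Fin 60 → ℕ) : ∑ e, d e = d 0 + d 1 + d 2 + d 3 + d 4 + d 5 + d 6 + d 7 + d 8 + d 9 + d 10 + d 11 + d 12 + d 13 + d 14 + d 15 + d 16 + d 17 + d 18 + d 19 + d 20 + d 21 + d 22 + d 23 + d 24 + d 25 + d 26 + d 27 + d 28 + d 29 + d 30 + d 31 + d 32 + d 33 + d 34 + d 35 + d 36 + d 37 + d 38 + d 39 + d 40 + d 41 + d 42 + d 43 + d 44 + d 45 + d 46 + d 47 + d 48 + d 49 + d 50 + d 51 + d 52 + d 53 + d 54 + d 55 + d 56 + d 57 + d 58 + d 59 := by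
  rw [Fin.sum_univ_def, show List.finRange 60 = [0, 1, 2, 3, 4, 5, 6, 7, 8, 9, 10, 11, 12, 13, 14, 15, 16, 17, 18, 19, 20, 21, 22, 23, 24, 25, 26, 27, 28, 29, 30, 31, 32, 33, 34, 35, 36, 37, 38, 39, 40, 41, 42, 43, 44, 45, 46, 47, 48, 49, 50, 51, 52, 53, 54, 55, 56, 57, 58, 59] by decide +kernel]
  simp only [List.map_cons, List.map_nil, List.sum_cons, List.sum_nil, add_zero, add_assoc]

lemma comb2 (d : Fin 60 → ℕ) (hd' : ∀ e, 1 ≤ d e ∧ d e ≤ 2) (hpd : ∀ v, ((inc v).map d).sum % 2 = 0)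
    (hs : ∑ e, d e ≤ 67) : d 0 = 1 ∧ d 1 = 1 ∧ d 2 = 1 ∧ d 3 = 1 ∧ d 4 = 1 ∧ d 5 = 1 ∧ d 6 = 1 ∧ d 7 = 1 ∧ d 8 = 1 ∧ d 9 = 1 ∧ d 10 = 2 ∧ d 11 = 2 ∧ d 12 = 2 ∧ d 13 = 2 ∧ d 14 = 2 := by
  have hN : ∀ e, N (decide (d e = 2)) = d e := fun e => N_eq _ (hd' e)
  obtain ⟨p0, p1, p2, p3, p4, p5, p6, p7, p8, p9⟩ := petpar d hpd
  have g0 := gadget (d 0) (d 4) (d 10) (d 15) (d 16) (d 17) (d 18) (d 19) (d 20) (d 21) (d 22) (d 23) (hd' 0) (hd' 4) (hd' 10) (hd' 15) (hd' 16) (hd' 17) (hd' 18) (hd' 19) (hd' 20) (hd' 21) (hd' 22) (hd' 23) (hpd 0) (hpd 1) (hpd 2)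
  have g1 := gadget (d 0) (d 1) (d 11) (d 24) (d 25) (d 26) (d 27) (d 28) (d 29) (d 30) (d 31) (d 32) (hd' 0) (hd' 1) (hd' 11) (hd' 24) (hd' 25) (hd' 26) (hd' 27) (hd' 28) (hd' 29) (hd' 30) (hd' 31) (hd' 32) (hpd 5) (hpd 6) (hpd 7)
  have g2 := gadget (d 1) (d 2) (d 12) (d 33) (d 34) (d 35) (d 36) (d 37) (d 38) (d 39) (d 40) (d 41) (hd' 1) (hd' 2) (hd' 12) (hd' 33) (hd' 34) (hd' 35) (hd' 36) (hd' 37) (hd' 38) (hd' 39) (hd' 40) (hd' 41) (hpd 10) (hpd 11) (hpd 12)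
  have g3 := gadget (d 2) (d 3) (d 13) (d 42) (d 43) (d 44) (d 45) (d 46) (d 47) (d 48) (d 49) (d 50) (hd' 2) (hd' 3) (hd' 13) (hd' 42) (hd' 43) (hd' 44) (hd' 45) (hd' 46) (hd' 47) (hd' 48) (hd' 49) (hd' 50) (hpd 15) (hpd 16) (hpd 17)
  have g4 := gadget (d 3) (d 4) (d 14) (d 51) (d 52) (d 53) (d 54) (d 55) (d 56) (d 57) (d 58) (d 59) (hd' 3) (hd' 4) (hd' 14) (hd' 51) (hd' 52) (hd' 53) (hd' 54) (hd' 55) (hd' 56) (hd' 57) (hd' 58) (hd' 59) (hpd 20) (hpd 21) (hpd 22)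
  rw [sum60] at hs
  have := outer (decide (d 0 = 2)) (decide (d 1 = 2)) (decide (d 2 = 2)) (decide (d 3 = 2)) (decide (d 4 = 2)) (decide (d 5 = 2)) (decide (d 6 = 2)) (decide (d 7 = 2)) (decide (d 8 = 2)) (decide (d 9 = 2)) (decide (d 10 = 2)) (decide (d 11 = 2)) (decide (d 12 = 2)) (decide (d 13 = 2)) (decide (d 14 = 2))
    (by simp only [hN]; exact p0) (by simp only [hN]; exact p1) (by simp only [hN]; exact p2)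
    (by simp only [hN]; exact p3) (by simp only [hN]; exact p4) (by simp only [hN]; exact p5)
    (by simp only [hN]; exact p6) (by simp only [hN]; exact p7) (by simp only [hN]; exact p8)
    (by simp only [hN]; exact p9) (by simp only [hN]; clear p0 p1 p2 p3 p4 p5 p6 p7 p8 p9 hN hd' hpd; omega)
  simp only [hN] at this
  exact this

lemma comb {k : ℕ} (X : Fin k → Fin 60 → ℕ) (h1 : ∀ j e, X j e ≤ 1)
    (hp : ∀ j v, ((inc v).map (X j)).sum % 2 = 0) (hd : ∀ e, 1 ≤ ∑ j, X j e ∧ ∑ j, X j e ≤ 2)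
    (hs : ∑ e, ∑ j, X j e ≤ 67) : False := by
  have hpd : ∀ v, ((inc v).map (fun e => ∑ j, X j e)).sum % 2 = 0 := fun v => sum_par X (inc v) (fun j => hp j v)
  obtain ⟨q0, q1, q2, q3, q4, q5, q6, q7, q8, q9, q10, q11, q12, q13, q14⟩ :=
    comb2 (fun e => ∑ j, X j e) hd hpd hs
  exact petersen (fun j => X j 0) (fun j => X j 1) (fun j => X j 2) (fun j => X j 3) (fun j => X j 4) (fun j => X j 5) (fun j => X j 6) (fun j => X j 7) (fun j => X j 8) (fun j => X j 9) (fun j => X j 10) (fun j => X j 11) (fun j => X j 12) (fun j => X j 13) (fun j => X j 14)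
    (fun j => h1 j 0) (fun j => h1 j 1) (fun j => h1 j 2) (fun j => h1 j 3) (fun j => h1 j 4) (fun j => h1 j 5) (fun j => h1 j 6) (fun j => h1 j 7) (fun j => h1 j 8) (fun j => h1 j 9) (fun j => h1 j 10) (fun j => h1 j 11) (fun j => h1 j 12) (fun j => h1 j 13) (fun j => h1 j 14)
    (fun j => petpar (X j) (hp j)) q0 q1 q2 q3 q4 q5 q6 q7 q8 q9 q10 q11 q12 q13 q14

lemma cover_ok : CoverOK s t cover := by decide +kernel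
lemma cover_len : (cover.map (fun c => c.2.length + 1)).sum = 67 := by decide +kernel

end Pool.Agent.H22.SCC3
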