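import Mathlib
import Pool.Agent.H22.NonRep

set_option autoImplicit false
set_option maxRecDepth 100000

namespace Pool.Agent.H22.Sub
open Finset

structure St where
  c0 : Bool
  c1 : Bool
  c2 : Bool
  c3 : Bool
  c4 : Bool
  e02 : Bool
  e03 : Bool
  e04 : Bool
  e13 : Bool
  e14 : Bool
  e24 : Bool
  h2 : Bool
  h3 : Bool
  g1 : Bool
  g2 : Bool
  g3 : Bool
  g4 : Bool
deriving DecidableEq

def nx (s : St) (bc b1 b2 b3 b4 : Bool) : St :=
  ⟨bc, s.c0, s.c1, s.c2, s.c3, b1, b2, b3, s.e02, s.e03, s.e13, b3 && s.e04, b3 && s.h2,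
   b4, b4 && s.g1, b4 && s.g2, b4 && s.g3⟩
def blk (s : St) (b0 b1 b2 b3 b4 : Bool) : Bool :=
  b0 || (b1 && s.e02) || (b2 && s.e03 && s.e14) || (b3 && s.h3) || (b4 && s.g4)
def val (f : St → ℕ) (al : Bool) (s : St) (bc b0 b1 b2 b3 b4 : Bool) : ℕ :=
  if blk s b0 b1 b2 b3 b4 || (bc && !al) then 0 else f (nx s bc b1 b2 b3 b4)
def vc (f : St → ℕ) (al : Bool) (s : St) : ℕ := val f al s true s.c0 s.c1 s.c2 s.c3 s.c4
def v1 (f : St → ℕ) (al : Bool) (s : St) : ℕ := val f al s false false true false s.e13 s.e14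
def v2 (f : St → ℕ) (al : Bool) (s : St) : ℕ := val f al s false false false true false s.e24
def v3 (f : St → ℕ) (al : Bool) (s : St) : ℕ := val f al s false false false false true false
def v4 (f : St → ℕ) (al : Bool) (s : St) : ℕ := val f al s false false false false false true
def vf (f : St → ℕ) (al : Bool) (s : St) : ℕ := val f al s false false false false false false
def x1 (s : St) : Bool := s.c1
def x2 (s : St) : Bool := s.c2 || s.e02
def x3 (s : St) : Bool := s.c3 || s.e03 || s.e13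
def x4 (s : St) : Bool := s.c4 || s.e04 || s.e14 || s.e24
def df (b : Bool) (θ v : ℕ) : ℕ := if b then 0 else θ - v
def defs (f : St → ℕ) (al : Bool) (s : St) (θ : ℕ) : ℕ :=
  (θ - vc f al s) + df s.c0 θ 0 + df (x1 s) θ (v1 f al s) + df (x2 s) θ (v2 f al s) +
    df (x3 s) θ (v3 f al s) + df (x4 s) θ (v4 f al s)

def Ok (f g w : St → ℕ) (al : St → Bool) : Prop :=
  ∀ s, g s = 0 ∨ ∃ θ, θ ≤ vf f (al s) s ∧ 7 * g s + w s + 4 * defs f (al s) s θ ≤ 16 * θ

def st (c k : ℕ) (W : ℕ → ℕ) : St :=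
  ⟨decide (W k = c), decide (1 ≤ k ∧ W (k-1) = c), decide (2 ≤ k ∧ W (k-2) = c),
   decide (3 ≤ k ∧ W (k-3) = c), decide (4 ≤ k ∧ W (k-4) = c),
   decide (2 ≤ k ∧ W k = W (k-2)), decide (3 ≤ k ∧ W k = W (k-3)), decide (4 ≤ k ∧ W k = W (k-4)),
   decide (3 ≤ k ∧ W (k-1) = W (k-3)), decide (4 ≤ k ∧ W (k-1) = W (k-4)),
   decide (4 ≤ k ∧ W (k-2) = W (k-4)),
   decide (4 ≤ k ∧ W k = W (k-4)) && decide (5 ≤ k ∧ W (k-1) = W (k-5)),
   decide (4 ≤ k ∧ W k = W (k-4)) && (decide (5 ≤ k ∧ W (k-1) = W (k-5)) &&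
     decide (6 ≤ k ∧ W (k-2) = W (k-6))),
   decide (5 ≤ k ∧ W k = W (k-5)),
   decide (5 ≤ k ∧ W k = W (k-5)) && decide (6 ≤ k ∧ W (k-1) = W (k-6)),
   decide (5 ≤ k ∧ W k = W (k-5)) && (decide (6 ≤ k ∧ W (k-1) = W (k-6)) &&
     decide (7 ≤ k ∧ W (k-2) = W (k-7))),
   decide (5 ≤ k ∧ W k = W (k-5)) && (decide (6 ≤ k ∧ W (k-1) = W (k-6)) &&
     (decide (7 ≤ k ∧ W (k-2) = W (k-7)) && decide (8 ≤ k ∧ W (k-3) = W (k-8))))⟩

def wv (f : St → ℕ) (al : Bool) (c k : ℕ) (W : ℕ → ℕ) (x : ℕ) : ℕ :=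
  val f al (st c k W) (decide (x = c)) (decide (x = W k)) (decide (1 ≤ k ∧ x = W (k-1)))
    (decide (2 ≤ k ∧ x = W (k-2))) (decide (3 ≤ k ∧ x = W (k-3))) (decide (4 ≤ k ∧ x = W (k-4)))

lemma st_succ (c k : ℕ) (W : ℕ → ℕ) :
    st c (k+1) W = nx (st c k W) (decide (W (k+1) = c)) (decide (1 ≤ k ∧ W (k+1) = W (k-1)))
      (decide (2 ≤ k ∧ W (k+1) = W (k-2))) (decide (3 ≤ k ∧ W (k+1) = W (k-3)))
      (decide (4 ≤ k ∧ W (k+1) = W (k-4))) := by
  have e1 : k + 1 - 1 = k := by omega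
  have e2 : k + 1 - 2 = k - 1 := by omega
  have e3 : k + 1 - 3 = k - 2 := by omega
  have e4 : k + 1 - 4 = k - 3 := by omega
  have e5 : k + 1 - 5 = k - 4 := by omega
  have e6 : k + 1 - 6 = k - 5 := by omega
  have e7 : k + 1 - 7 = k - 6 := by omega
  have e8 : k + 1 - 8 = k - 7 := by omega
  have a1 : (1 ≤ k + 1) = True := by simp
  have a2 : (2 ≤ k + 1) = (1 ≤ k) := by simp only [eq_iff_iff]; omega
  have a3 : (3 ≤ k + 1) = (2 ≤ k) := by simp only [eq_iff_iff]; omega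
  have a4 : (4 ≤ k + 1) = (3 ≤ k) := by simp only [eq_iff_iff]; omega
  have a5 : (5 ≤ k + 1) = (4 ≤ k) := by simp only [eq_iff_iff]; omega
  have a6 : (6 ≤ k + 1) = (5 ≤ k) := by simp only [eq_iff_iff]; omega
  have a7 : (7 ≤ k + 1) = (6 ≤ k) := by simp only [eq_iff_iff]; omega
  have a8 : (8 ≤ k + 1) = (7 ≤ k) := by simp only [eq_iff_iff]; omega
  unfold st nx
  simp only [e1, e2, e3, e4, e5, e6, e7, e8, a1, a2, a3, a4, a5, a6, a7, a8, true_and]

lemma st_congr (c k : ℕ) (W W' : ℕ → ℕ) (h : ∀ t, t ≤ k → W t = W' t) : st c k W = st c k W' := by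
  unfold st
  rw [h k le_rfl, h (k-1) (by omega), h (k-2) (by omega), h (k-3) (by omega), h (k-4) (by omega),
    h (k-5) (by omega), h (k-6) (by omega), h (k-7) (by omega), h (k-8) (by omega)]

lemma wv_congr (f : St → ℕ) (al : Bool) (c k : ℕ) (W W' : ℕ → ℕ) (h : ∀ t, t ≤ k → W t = W' t)
    (x : ℕ) : wv f al c k W x = wv f al c k W' x := by
  unfold wv
  rw [st_congr c k W W' h, h k le_rfl, h (k-1) (by omega), h (k-2) (by omega), h (k-3) (by omega),
    h (k-4) (by omega)]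

lemma wv_le {f : St → ℕ} {al : Bool} {c k : ℕ} {W : ℕ → ℕ} (B : ℕ) (hB : ∀ s, f s ≤ B) (x : ℕ) :
    wv f al c k W x ≤ B := by
  unfold wv val
  split_ifs
  · omega
  · exact hB _

lemma not_blk {g : St → ℕ} {al : Bool} {c j : ℕ} {W : ℕ → ℕ} (h : 0 < wv g al c j W (W (j+1))) :
    W (j+1) ≠ W j ∧ ¬ (2 ≤ j ∧ W (j+1) = W (j-1) ∧ W j = W (j-2)) ∧
      ¬ (4 ≤ j ∧ W (j+1) = W (j-2) ∧ W j = W (j-3) ∧ W (j-1) = W (j-4)) ∧
      ¬ (6 ≤ j ∧ W (j+1) = W (j-3) ∧ W j = W (j-4) ∧ W (j-1) = W (j-5) ∧ W (j-2) = W (j-6)) ∧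
      ¬ (8 ≤ j ∧ W (j+1) = W (j-4) ∧ W j = W (j-5) ∧ W (j-1) = W (j-6) ∧ W (j-2) = W (j-7) ∧
        W (j-3) = W (j-8)) ∧
      (W (j+1) = c → al = true) ∧ wv g al c j W (W (j+1)) = g (st c (j+1) W) := by
  unfold wv val at h ⊢
  split_ifs at h with hb
  · omega
  rw [if_neg hb, ← st_succ]
  refine ⟨?_, ?_, ?_, ?_, ?_, ?_, rfl⟩
  · intro e; apply hb; simp [blk, e]
  · rintro ⟨a, b, d⟩; apply hb
    have : 1 ≤ j := by omega
    simp [blk, st, a, b, d, this]
  · rintro ⟨a, b, d, e⟩; apply hb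
    have t2 : 2 ≤ j := by omega
    have t3 : 3 ≤ j := by omega
    simp [blk, st, a, b, d, e, t2, t3]
  · rintro ⟨a, b, d, e, f⟩; apply hb
    have t3 : 3 ≤ j := by omega
    have t4 : 4 ≤ j := by omega
    have t5 : 5 ≤ j := by omega
    simp [blk, st, a, b, d, e, f, t3, t4, t5]
  · rintro ⟨a, b, d, e, f, i⟩; apply hb
    have t4 : 4 ≤ j := by omega
    have t5 : 5 ≤ j := by omega
    have t6 : 6 ≤ j := by omega
    have t7 : 7 ≤ j := by omega
    simp [blk, st, a, b, d, e, f, i, t4, t5, t6, t7]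
  · intro e
    by_contra hh
    apply hb
    have : al = false := by simpa using hh
    simp [e, this]

lemma local_bound (f g w : St → ℕ) (al : St → Bool) (c k : ℕ) (W : ℕ → ℕ) (h : Ok f g w al)
    (q1 : 2 ≤ k → W (k-1) ≠ W (k-2)) (q2 : 3 ≤ k → W (k-2) ≠ W (k-3))
    (q3 : 4 ≤ k → W (k-3) ≠ W (k-4))
    (l : Finset ℕ) (hl : l.card = 4) (hg : 0 < g (st c k W)) :
    7 * g (st c k W) + w (st c k W) ≤ 4 * ∑ x ∈ l, wv f (al (st c k W)) c k W x := by
  rcases h (st c k W) with h0 | ⟨θ, h1, h2⟩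
  · omega
  set a := al (st c k W) with ha
  have key : ∀ x ∈ l, θ ≤ wv f a c k W x +
      ((if x = c then θ - vc f a (st c k W) else 0) + (if x = W k then df (st c k W).c0 θ 0 else 0) +
       (if x = W (k-1) then df (x1 (st c k W)) θ (v1 f a (st c k W)) else 0) +
       (if x = W (k-2) then df (x2 (st c k W)) θ (v2 f a (st c k W)) else 0) +
       (if x = W (k-3) then df (x3 (st c k W)) θ (v3 f a (st c k W)) else 0) +
       (if x = W (k-4) then df (x4 (st c k W)) θ (v4 f a (st c k W)) else 0)) := by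
    intro x _
    by_cases hc : x = c
    · have : wv f a c k W x = vc f a (st c k W) := by
        subst hc
        unfold wv vc
        simp only [st, decide_true, eq_comm]
      rw [this, if_pos hc]; omega
    by_cases h0 : x = W k
    · have : df (st c k W).c0 θ 0 = θ := by
        unfold df st
        have : ¬ W k = c := by rw [← h0]; exact hc
        simp [this]
      rw [if_pos h0, this]; omega
    by_cases hb1 : 1 ≤ k ∧ x = W (k-1)
    · have hb2 : ¬ (2 ≤ k ∧ x = W (k-2)) := fun hh => q1 hh.1 (by rw [← hb1.2, hh.2])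
      have e1 : wv f a c k W x = v1 f a (st c k W) := by
        unfold wv v1
        rw [decide_eq_false hc, decide_eq_false h0, decide_eq_true hb1, decide_eq_false hb2, hb1.2]
        rfl
      have e2 : x1 (st c k W) = false :=
        decide_eq_false (fun hh => hc (by rw [hb1.2, hh.2]))
      rw [e1, if_pos hb1.2, e2]; simp only [df, Bool.false_eq_true, if_false]; omega
    by_cases hb2 : 2 ≤ k ∧ x = W (k-2)
    · have hb3 : ¬ (3 ≤ k ∧ x = W (k-3)) := fun hh => q2 hh.1 (by rw [← hb2.2, hh.2])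
      have e1 : wv f a c k W x = v2 f a (st c k W) := by
        unfold wv v2
        rw [decide_eq_false hc, decide_eq_false h0, decide_eq_false hb1, decide_eq_true hb2,
          decide_eq_false hb3, hb2.2]
        rfl
      have e2 : x2 (st c k W) = false := by
        have t1 : ¬ (2 ≤ k ∧ W (k-2) = c) := fun hh => hc (by rw [hb2.2, hh.2])
        have t2 : ¬ (2 ≤ k ∧ W k = W (k-2)) := fun hh => h0 (by rw [hb2.2, hh.2])
        simp only [x2, st, decide_eq_false t1, decide_eq_false t2, Bool.or_false]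
      rw [e1, if_pos hb2.2, e2]; simp only [df, Bool.false_eq_true, if_false]; omega
    by_cases hb3 : 3 ≤ k ∧ x = W (k-3)
    · have hb4 : ¬ (4 ≤ k ∧ x = W (k-4)) := fun hh => q3 hh.1 (by rw [← hb3.2, hh.2])
      have e1 : wv f a c k W x = v3 f a (st c k W) := by
        unfold wv v3
        rw [decide_eq_false hc, decide_eq_false h0, decide_eq_false hb1, decide_eq_false hb2,
          decide_eq_true hb3, decide_eq_false hb4]
      have e2 : x3 (st c k W) = false := by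
        have t1 : ¬ (3 ≤ k ∧ W (k-3) = c) := fun hh => hc (by rw [hb3.2, hh.2])
        have t2 : ¬ (3 ≤ k ∧ W k = W (k-3)) := fun hh => h0 (by rw [hb3.2, hh.2])
        have t3 : ¬ (3 ≤ k ∧ W (k-1) = W (k-3)) := fun hh => hb1 ⟨by omega, by rw [hb3.2, hh.2]⟩
        simp only [x3, st, decide_eq_false t1, decide_eq_false t2, decide_eq_false t3, Bool.or_false]
      rw [e1, if_pos hb3.2, e2]; simp only [df, Bool.false_eq_true, if_false]; omega
    by_cases hb4 : 4 ≤ k ∧ x = W (k-4)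
    · have e1 : wv f a c k W x = v4 f a (st c k W) := by
        unfold wv v4
        rw [decide_eq_false hc, decide_eq_false h0, decide_eq_false hb1, decide_eq_false hb2,
          decide_eq_false hb3, decide_eq_true hb4]
      have e2 : x4 (st c k W) = false := by
        have t1 : ¬ (4 ≤ k ∧ W (k-4) = c) := fun hh => hc (by rw [hb4.2, hh.2])
        have t2 : ¬ (4 ≤ k ∧ W k = W (k-4)) := fun hh => h0 (by rw [hb4.2, hh.2])
        have t3 : ¬ (4 ≤ k ∧ W (k-1) = W (k-4)) := fun hh => hb1 ⟨by omega, by rw [hb4.2, hh.2]⟩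
        have t4 : ¬ (4 ≤ k ∧ W (k-2) = W (k-4)) := fun hh => hb2 ⟨by omega, by rw [hb4.2, hh.2]⟩
        simp only [x4, st, decide_eq_false t1, decide_eq_false t2, decide_eq_false t3,
          decide_eq_false t4, Bool.or_false]
      rw [e1, if_pos hb4.2, e2]; simp only [df, Bool.false_eq_true, if_false]; omega
    · have e1 : wv f a c k W x = vf f a (st c k W) := by
        unfold wv vf
        rw [decide_eq_false hc, decide_eq_false h0, decide_eq_false hb1, decide_eq_false hb2,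
          decide_eq_false hb3, decide_eq_false hb4]
      rw [e1]; omega
  have s1 := Finset.sum_le_sum key
  rw [Finset.sum_const, hl, Finset.sum_add_distrib, Finset.sum_add_distrib, Finset.sum_add_distrib,
    Finset.sum_add_distrib, Finset.sum_add_distrib, Finset.sum_add_distrib] at s1
  have b1 := NonRep.sum_ite_le l c (θ - vc f a (st c k W))
  have b2 := NonRep.sum_ite_le l (W k) (df (st c k W).c0 θ 0)
  have b3 := NonRep.sum_ite_le l (W (k-1)) (df (x1 (st c k W)) θ (v1 f a (st c k W)))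
  have b4 := NonRep.sum_ite_le l (W (k-2)) (df (x2 (st c k W)) θ (v2 f a (st c k W)))
  have b5 := NonRep.sum_ite_le l (W (k-3)) (df (x3 (st c k W)) θ (v3 f a (st c k W)))
  have b6 := NonRep.sum_ite_le l (W (k-4)) (df (x4 (st c k W)) θ (v4 f a (st c k W)))
  unfold defs at h2
  simp only [smul_eq_mul] at s1
  omega

end Pool.Agent.H22.Sub
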