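import Mathlib
import Pool.Agent.H22.Sub1
import Pool.Agent.H22.SubData

set_option autoImplicit false
set_option maxRecDepth 100000

namespace Pool.Agent.H22.Sub
open Finset

def cd (i : ℕ) : ℕ := Nat.shiftRight cdT (20 * i) % 1048576
def decode (n : ℕ) : St :=
  ⟨n.testBit 0, n.testBit 1, n.testBit 2, n.testBit 3, n.testBit 4, n.testBit 5, n.testBit 6,
   n.testBit 7, n.testBit 8, n.testBit 9, n.testBit 10, n.testBit 11, n.testBit 12, n.testBit 13,
   n.testBit 14, n.testBit 15, n.testBit 16⟩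
def bit (b : Bool) (n : ℕ) : ℕ := if b then n else 0
def code (s : St) : ℕ :=
  bit s.c0 1 + bit s.c1 2 + bit s.c2 4 + bit s.c3 8 + bit s.c4 16 + bit s.e02 32 + bit s.e03 64 +
  bit s.e04 128 + bit s.e13 256 + bit s.e14 512 + bit s.e24 1024 + bit s.h2 2048 + bit s.h3 4096 +
  bit s.g1 8192 + bit s.g2 16384 + bit s.g3 32768 + bit s.g4 65536
def dec (i : ℕ) : St := decode (cd i)
def trn (i cls : ℕ) : ℕ := Nat.shiftRight trT (8 * (7 * i + cls)) % 256
def tb (n i : ℕ) : ℕ := Nat.shiftRight n (12 * i) % 4096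

lemma code_dec : ∀ i, i < 218 → code (dec i) = cd i := by decide +kernel
lemma cd_lt : ∀ i, i < 218 → ∀ j, j < 218 → cd i = cd j → i = j := by decide +kernel
lemma dec_inj (i j : ℕ) (hi : i < 218) (hj : j < 218) (h : dec i = dec j) : i = j :=
  cd_lt i hi j hj (by rw [← code_dec i hi, ← code_dec j hj, h])

open Classical in
noncomputable def lift (F : ℕ → ℕ) (s : St) : ℕ :=
  if h : ∃ i, i < 218 ∧ dec i = s then F (Classical.choose h) else 0

lemma lift_dec (F : ℕ → ℕ) (i : ℕ) (hi : i < 218) : lift F (dec i) = F i := by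
  have h : ∃ j, j < 218 ∧ dec j = dec i := ⟨i, hi, rfl⟩
  unfold lift
  rw [dif_pos h, dec_inj _ _ (Classical.choose_spec h).1 hi (Classical.choose_spec h).2]

lemma lift_cases (F : ℕ → ℕ) (s : St) : lift F s = 0 ∨ ∃ i, i < 218 ∧ dec i = s := by
  by_cases h : ∃ i, i < 218 ∧ dec i = s
  · exact Or.inr h
  · left; unfold lift; rw [dif_neg h]

lemma lift_le (F : ℕ → ℕ) (B : ℕ) (h : ∀ i, i < 218 → F i ≤ B) (s : St) : lift F s ≤ B := by
  rcases lift_cases F s with e | ⟨i, hi, rfl⟩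
  · omega
  · rw [lift_dec F i hi]; exact h i hi

def clo (i cls : ℕ) (ex bc b0 b1 b2 b3 b4 : Bool) : Bool :=
  ex || blk (dec i) b0 b1 b2 b3 b4 ||
    (decide (trn i cls < 218) && decide (dec (trn i cls) = nx (dec i) bc b1 b2 b3 b4))

lemma closure : ∀ i, i < 218 →
    (clo i 0 false true (dec i).c0 (dec i).c1 (dec i).c2 (dec i).c3 (dec i).c4 &&
     clo i 2 (x1 (dec i)) false false true false (dec i).e13 (dec i).e14 &&
     clo i 3 (x2 (dec i)) false false false true false (dec i).e24 &&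
     clo i 4 (x3 (dec i)) false false false false true false &&
     clo i 5 (x4 (dec i)) false false false false false true &&
     clo i 6 false false false false false false false) = true := by decide +kernel

def valI (F : ℕ → ℕ) (al : Bool) (s : St) (i cls : ℕ) (bc b0 b1 b2 b3 b4 : Bool) : ℕ :=
  if blk s b0 b1 b2 b3 b4 || (bc && !al) then 0 else F (trn i cls)

lemma val_eq (F : ℕ → ℕ) (al : Bool) (i cls : ℕ) (bc b0 b1 b2 b3 b4 : Bool)
    (h : clo i cls false bc b0 b1 b2 b3 b4 = true) :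
    val (lift F) al (dec i) bc b0 b1 b2 b3 b4 = valI F al (dec i) i cls bc b0 b1 b2 b3 b4 := by
  unfold val valI
  split_ifs with hb
  · rfl
  · simp only [clo, Bool.false_or, Bool.or_eq_true, Bool.and_eq_true, decide_eq_true_eq] at h hb
    rcases h with h | h
    · exact absurd (Or.inl h) hb
    · rw [← h.2, lift_dec F _ h.1]

lemma df_eq (F : ℕ → ℕ) (al : Bool) (i cls θ : ℕ) (ex b0 b1 b2 b3 b4 : Bool)
    (h : clo i cls ex false b0 b1 b2 b3 b4 = true) :
    df ex θ (val (lift F) al (dec i) false b0 b1 b2 b3 b4) =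
      df ex θ (valI F al (dec i) i cls false b0 b1 b2 b3 b4) := by
  cases ex with
  | true => rfl
  | false => rw [val_eq F al i cls false b0 b1 b2 b3 b4 h]

def okT (s : St) (g w a b1 b2 b3 b4 f θ : ℕ) : Bool :=
  decide (θ ≤ f) && decide (7 * g + w + 4 * ((θ - a) + df s.c0 θ 0 + df (x1 s) θ b1 + df (x2 s) θ b2 +
    df (x3 s) θ b3 + df (x4 s) θ b4) ≤ 16 * θ)
def okU (s : St) (g w a b1 b2 b3 b4 f : ℕ) : Bool :=
  okT s g w a b1 b2 b3 b4 f f || okT s g w a b1 b2 b3 b4 f a || okT s g w a b1 b2 b3 b4 f b1 ||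
  okT s g w a b1 b2 b3 b4 f b2 || okT s g w a b1 b2 b3 b4 f b3 || okT s g w a b1 b2 b3 b4 f b4
def okS (F G : ℕ → ℕ) (w : St → ℕ) (al : St → Bool) (i : ℕ) (s : St) : Bool :=
  decide (G i = 0) || okU s (G i) (w s) (valI F (al s) s i 0 true s.c0 s.c1 s.c2 s.c3 s.c4)
    (valI F (al s) s i 2 false false true false s.e13 s.e14)
    (valI F (al s) s i 3 false false false true false s.e24)
    (valI F (al s) s i 4 false false false false true false)
    (valI F (al s) s i 5 false false false false false true)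
    (valI F (al s) s i 6 false false false false false false)
def OkI (F G : ℕ → ℕ) (w : St → ℕ) (al : St → Bool) : Prop :=
  ∀ i, i < 218 → okS F G w al i (dec i) = true

instance (F G : ℕ → ℕ) (w : St → ℕ) (al : St → Bool) : Decidable (OkI F G w al) := by
  unfold OkI; infer_instance

lemma OkI.ok {F G : ℕ → ℕ} {w : St → ℕ} {al : St → Bool} (h : OkI F G w al) :
    Ok (lift F) (lift G) w al := by
  intro s
  rcases lift_cases G s with e | ⟨i, hi, rfl⟩
  · exact Or.inl e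
  have c := closure i hi
  simp only [Bool.and_eq_true] at c
  obtain ⟨⟨⟨⟨⟨c0, c1⟩, c2⟩, c3⟩, c4⟩, c5⟩ := c
  have k := h i hi
  rw [lift_dec G i hi]
  have key : ∀ θ, okT (dec i) (G i) (w (dec i))
      (valI F (al (dec i)) (dec i) i 0 true (dec i).c0 (dec i).c1 (dec i).c2 (dec i).c3 (dec i).c4)
      (valI F (al (dec i)) (dec i) i 2 false false true false (dec i).e13 (dec i).e14)
      (valI F (al (dec i)) (dec i) i 3 false false false true false (dec i).e24)
      (valI F (al (dec i)) (dec i) i 4 false false false false true false)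
      (valI F (al (dec i)) (dec i) i 5 false false false false false true)
      (valI F (al (dec i)) (dec i) i 6 false false false false false false) θ = true →
      θ ≤ vf (lift F) (al (dec i)) (dec i) ∧
        7 * G i + w (dec i) + 4 * defs (lift F) (al (dec i)) (dec i) θ ≤ 16 * θ := by
    intro θ hθ
    simp only [okT, Bool.and_eq_true, decide_eq_true_eq] at hθ
    unfold defs vf vc v1 v2 v3 v4
    rw [val_eq F _ i 0 _ _ _ _ _ _ c0, val_eq F _ i 6 _ _ _ _ _ _ c5, df_eq F _ i 2 θ _ _ _ _ _ _ c1,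
      df_eq F _ i 3 θ _ _ _ _ _ _ c2, df_eq F _ i 4 θ _ _ _ _ _ _ c3, df_eq F _ i 5 θ _ _ _ _ _ _ c4]
    exact hθ
  simp only [okS, okU, Bool.or_eq_true, decide_eq_true_eq] at k
  rcases k with k | ((((k | k) | k) | k) | k) | k
  · exact Or.inl k
  all_goals exact Or.inr ⟨_, key _ k⟩

def rule (s : St) : Bool :=
  s.c0 || s.c1 || s.c2 || s.c3 || s.c4 || s.e02 || s.e13 || s.e04 || (s.e03 && s.e14)
def inP (s : St) : Bool := !(s.e24 || s.e13 || s.e04 || (s.e14 && s.e03))
def fl (s : St) (i : ℕ) : Bool :=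
  if i = 0 then s.c0 else if i = 1 then s.c1 else if i = 2 then s.c2 else if i = 3 then s.c3
  else if i = 4 then s.c4 else true
def cntX (j : ℕ) (s : St) : ℕ := (if s.c0 then j + 1 else 0) + (2 * j - 5)
def cntY (j : ℕ) (s : St) : ℕ :=
  ∑ m ∈ range (2 * j + 4), if (3 * j + 5 ≤ 2 * m ∧ 2 * m ≤ 3 * j + 7) ∧ fl s (m - j - 1) = true then 1 else 0
def cnt (ty : Bool) (j : ℕ) (s : St) : ℕ := if ty then cntX j s else cntY j s
def wE (ty : Bool) (j : ℕ) (s : St) : ℕ :=
  (if 6 ≤ j then 569 else 0) + (4000 * 4 ^ (j-1) * cnt ty j s / 7 ^ (j-1) + 1)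
def wG (k : ℕ) (_ : St) : ℕ := (if 5 ≤ k then 569 else 0) + 40
def wA (s : St) : ℕ := 609 + (if s.c0 then 1307 else 0)
def wB (_ : St) : ℕ := 679
def tE (ty : Bool) (j : ℕ) : ℕ := if ty then tX.getD j 0 else tY.getD j 0
def alE (ty : Bool) (j : ℕ) (_ : St) : Bool := if ty then decide (2 ≤ j) else decide (4 ≤ j)
def alG (k : ℕ) (s : St) : Bool := if k < 7 then false else rule s

lemma okG : ∀ k, k < 8 → OkI (tb (tG.getD (k+1) 0)) (tb (tG.getD k 0)) (wG k) (alG k) := by
  decide +kernel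
lemma tG8 : tG.getD 8 0 = tA := by decide +kernel
lemma okAA : OkI (tb tA) (tb tA) wA rule := by decide +kernel
lemma okA0 : OkI (tb tA0) (tb tA) wA rule := by decide +kernel
lemma ok00 : OkI (tb tA0) (tb tA0) wB (fun _ => true) := by decide +kernel
lemma okJ : ∀ ty : Bool, OkI (tb (tE ty 14)) (tb tA0) wB (fun _ => true) := by decide +kernel
lemma okE : ∀ ty : Bool, ∀ j, j < 14 →
    OkI (tb (tE ty j)) (tb (tE ty (j+1))) (wE ty (j+1)) (alE ty (j+1)) := by decide +kernel
lemma leG : ∀ k, k < 9 → ∀ i, i < 218 → tb (tG.getD k 0) i ≤ 1000 := by decide +kernel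
lemma leA0 : ∀ i, i < 218 → tb tA0 i ≤ 1000 := by decide +kernel
lemma leE : ∀ ty : Bool, ∀ j, j < 15 → ∀ i, i < 218 → tb (tE ty j) i ≤ 1000 := by decide +kernel
lemma posG : ∃ i, i < 218 ∧ dec i = ⟨true, false, false, false, false, false, false, false, false,
    false, false, false, false, false, false, false, false⟩ ∧ 0 < tb (tG.getD 0 0) i := by
  decide +kernel
lemma inG5 : ∀ i, i < 218 → 0 < tb (tG.getD 5 0) i → inP (dec i) = true := by decide +kernel

def wf (s : St) (a0 a1 a2 a3 a4 : Bool) : St := { s with c0 := a0, c1 := a1, c2 := a2, c3 := a3, c4 := a4 }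
def cons (s : St) : Bool :=
  !(s.c0 && s.c1) && !(s.c1 && s.c2) && !(s.c2 && s.c3) && !(s.c3 && s.c4) &&
  ((s.c0 && s.c2) == (s.c0 && s.e02)) && ((s.c0 && s.c2) == (s.c2 && s.e02)) &&
  ((s.c0 && s.c3) == (s.c0 && s.e03)) && ((s.c0 && s.c3) == (s.c3 && s.e03)) &&
  ((s.c0 && s.c4) == (s.c0 && s.e04)) && ((s.c0 && s.c4) == (s.c4 && s.e04)) &&
  ((s.c1 && s.c3) == (s.c1 && s.e13)) && ((s.c1 && s.c3) == (s.c3 && s.e13)) &&
  ((s.c1 && s.c4) == (s.c1 && s.e14)) && ((s.c1 && s.c4) == (s.c4 && s.e14)) &&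
  ((s.c2 && s.c4) == (s.c2 && s.e24)) && ((s.c2 && s.c4) == (s.c4 && s.e24))
def fli (i : ℕ) (a0 a1 a2 a3 a4 : Bool) : ℕ :=
  Nat.shiftRight flT (8 * (32 * i + bit a0 1 + bit a1 2 + bit a2 4 + bit a3 8 + bit a4 16)) % 256
lemma switch : ∀ i, i < 218 → ∀ a0 a1 a2 a3 a4 : Bool, cons (wf (dec i) a0 a1 a2 a3 a4) = true →
    fli i a0 a1 a2 a3 a4 < 218 ∧ dec (fli i a0 a1 a2 a3 a4) = wf (dec i) a0 a1 a2 a3 a4 ∧
      tb tA0 i ≤ tb tA0 (fli i a0 a1 a2 a3 a4) := by decide +kernel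

end Pool.Agent.H22.Sub
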