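import Mathlib
import Pool.Agent.H22.Sub2
import Pool.Agent.H22.Tree

set_option autoImplicit false
set_option maxRecDepth 100000

namespace Pool.Agent.H22.Sub
open Finset

structure Par where
  N : ℕ
  Z : ℕ
  ρ : ℕ
  h : ℕ
  nT : ℕ
  cu : ℕ
  cj : ℕ
  ty : Bool
  tm : ℕ → ℕ → ℕ
  Yw : ℕ → ℕ

structure Par.Valid (P : Par) : Prop where
  hZ : 10 ≤ P.Z
  hN : P.Z + P.ρ + 20 ≤ P.N
  hh : 15 ≤ P.h
  hT : ((P.nT : ℝ) + 2 * P.N) * (4/7) ^ (P.h - 1) ≤ 1 / 100

namespace Par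
variable (P : Par)

def sp (k : ℕ) : ℕ := if k ≤ P.Z then P.cu else P.cj
def TT (k : ℕ) : ℕ :=
  if k ≤ 8 then tG.getD k 0 else if k < P.Z then tA else if k + 15 ≤ P.N then tA0 else tE P.ty (P.N - k)
def al (k : ℕ) (s : St) : Bool :=
  if k < 8 then alG k s else if k < P.Z then rule s else if k + 15 ≤ P.N then true
  else alE P.ty (P.N - k) s
def ww (k : ℕ) (s : St) : ℕ :=
  if k < 8 then wG k s else if k < P.Z then wA s else if k + 15 ≤ P.N then wB s
  else wE P.ty (P.N - k) s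
noncomputable def ψ : ℕ → (ℕ → ℕ) → ℕ
  | 0, W => lift (tb (P.TT 0)) (st P.cu 0 W)
  | k+1, W => wv (lift (tb (P.TT (k+1)))) (P.al k (st (P.sp (k+1)) k W)) (P.sp (k+1)) k W (W (k+1))
noncomputable def φ (k : ℕ) (W : ℕ → ℕ) : ℝ := (4/7) ^ k * (P.ψ k W : ℝ) / 1000

def PP (k : ℕ) : ℕ → Finset ℕ
  | 0 => Ico 6 (min (k+2) (P.N - k + 1))
  | 1 => if 8 ≤ k ∧ k < P.Z then {0} else ∅
  | 2 => if k + P.h ≤ P.N then range P.nT else ∅
  | 3 => if k + P.h ≤ P.N then range P.N else ∅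
  | 4 => if k + P.h ≤ P.N then range P.N else ∅
  | 5 => if P.ty = true ∧ k < P.N ∧ P.N ≤ k + P.ρ then range (P.N + 1 - k) else ∅
  | 6 => if P.ty = true ∧ k < P.N ∧ P.N ≤ k + P.ρ then range (2 * (P.N - k) - 5) else ∅
  | _ => if P.ty = false ∧ k < P.N ∧ P.N ≤ k + P.ρ then (range (2 * (P.N - k) + 4)).filter
      (fun m => 3 * (P.N - k) + 5 ≤ 2 * m ∧ 2 * m ≤ 3 * (P.N - k) + 7) else ∅
def KK (k : ℕ) : ℕ → ℕ → ℕ
  | 0, m => k + m
  | 1, _ => k + 3
  | 2, _ => k + P.h
  | 3, _ => k + P.h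
  | 4, _ => k + P.h
  | _, _ => P.N
def pr (k : ℕ) : ℕ → ℕ → (ℕ → ℕ) → Prop
  | 1, _, u => u k = P.cu
  | 5, _, u => u k = P.cj
  | 7, m, u => u (P.N + 1 - m) = P.cj
  | _, _, _ => True
def ex (k : ℕ) : ℕ → ℕ → (ℕ → ℕ) → ℕ → ℕ
  | 0, m, u, t => u (t - m)
  | 1, _, u, t => u (t - k)
  | 2, p, _, t => P.tm p (t - k - 1)
  | 3, p, u, t => u (p + (t - k - 1))
  | 4, p, u, t => u (p + P.h - 1 - (t - k - 1))
  | 5, d, u, t => if t + d < P.N + 1 then P.Yw (2 * P.N + 2 - (t + (P.N + 1 - k))) else u (t - (P.N + 1 - k))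
  | 6, e, _, t => P.Yw (2 * P.N + 2 - (t + (P.N - k + 1 + e)))
  | _, m, u, t => u (t - m)
def EE (k : ℕ) : Finset ((_ : ℕ) × ℕ) := (range 8).sigma (fun tag => P.PP k tag)

lemma ψ_zero (W : ℕ → ℕ) : P.ψ 0 W = lift (tb (P.TT 0)) (st P.cu 0 W) := rfl
lemma ψ_succ (k : ℕ) (W : ℕ → ℕ) : P.ψ (k+1) W =
  wv (lift (tb (P.TT (k+1)))) (P.al k (st (P.sp (k+1)) k W)) (P.sp (k+1)) k W (W (k+1)) := rfl

variable {P}

lemma TT_le (k : ℕ) (s : St) : lift (tb (P.TT k)) s ≤ 1000 := by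
  refine lift_le _ _ (fun i hi => ?_) s
  unfold TT
  split_ifs with a b c
  · exact leG k (by omega) i hi
  · rw [← tG8]; exact leG 8 (by omega) i hi
  · exact leA0 i hi
  · exact leE _ _ (by omega) i hi

lemma ψ_le (k : ℕ) (W : ℕ → ℕ) : P.ψ k W ≤ 1000 := by
  cases k with
  | zero => exact TT_le 0 _
  | succ k => exact wv_le 1000 (TT_le (k+1)) _

lemma ψ_congr (k : ℕ) (W W' : ℕ → ℕ) (h : ∀ t, t ≤ k → W t = W' t) : P.ψ k W = P.ψ k W' := by
  cases k with
  | zero => rw [ψ_zero, ψ_zero, st_congr _ 0 W W' h]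
  | succ k =>
    rw [ψ_succ, ψ_succ, st_congr _ k W W' (fun t ht => h t (by omega)), h (k+1) le_rfl,
      wv_congr _ _ _ k W W' (fun t ht => h t (by omega))]

lemma ψ_eq {k : ℕ} {W : ℕ → ℕ} (h : 0 < P.ψ k W) :
    P.ψ k W = lift (tb (P.TT k)) (st (P.sp k) k W) := by
  cases k with
  | zero => rw [ψ_zero]; unfold sp; rw [if_pos (Nat.zero_le _)]
  | succ k => exact (not_blk h).2.2.2.2.2.2

lemma ok_level (hv : P.Valid) (k : ℕ) (hk : k < P.N) :
    Ok (lift (tb (P.TT (k+1)))) (lift (tb (P.TT k))) (P.ww k) (P.al k) := by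
  have hZ := hv.hZ
  have hN := hv.hN
  by_cases a : k < 8
  · have e1 : P.TT (k+1) = tG.getD (k+1) 0 := by unfold TT; rw [if_pos (by omega)]
    have e2 : P.TT k = tG.getD k 0 := by unfold TT; rw [if_pos (by omega)]
    have e3 : P.ww k = wG k := by funext s; unfold ww; rw [if_pos a]
    have e4 : P.al k = alG k := by funext s; unfold al; rw [if_pos a]
    rw [e1, e2, e3, e4]; exact (okG k a).ok
  by_cases b : k < P.Z
  · have e2 : P.TT k = tA := by
      unfold TT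
      split_ifs with c
      · rw [show k = 8 by omega]; exact tG8
      · rfl
    have e3 : P.ww k = wA := by funext s; unfold ww; rw [if_neg a, if_pos b]
    have e4 : P.al k = rule := by funext s; unfold al; rw [if_neg a, if_pos b]
    rw [e2, e3, e4]
    by_cases c : k + 1 < P.Z
    · have e1 : P.TT (k+1) = tA := by unfold TT; rw [if_neg (by omega), if_pos c]
      rw [e1]; exact okAA.ok
    · have e1 : P.TT (k+1) = tA0 := by unfold TT; rw [if_neg (by omega), if_neg c, if_pos (by omega)]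
      rw [e1]; exact okA0.ok
  by_cases c : k + 15 ≤ P.N
  · have e2 : P.TT k = tA0 := by unfold TT; rw [if_neg (by omega), if_neg b, if_pos c]
    have e3 : P.ww k = wB := by funext s; unfold ww; rw [if_neg a, if_neg b, if_pos c]
    have e4 : P.al k = fun _ => true := by funext s; unfold al; rw [if_neg a, if_neg b, if_pos c]
    rw [e2, e3, e4]
    by_cases d : k + 1 + 15 ≤ P.N
    · have e1 : P.TT (k+1) = tA0 := by unfold TT; rw [if_neg (by omega), if_neg (by omega), if_pos d]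
      rw [e1]; exact ok00.ok
    · have e1 : P.TT (k+1) = tE P.ty 14 := by
        unfold TT; rw [if_neg (by omega), if_neg (by omega), if_neg d]; congr 1; omega
      rw [e1]; exact (okJ P.ty).ok
  · have e1 : P.TT (k+1) = tE P.ty (P.N - k - 1) := by
      unfold TT; rw [if_neg (by omega), if_neg (by omega), if_neg (by omega)]; congr 1
    have e2 : P.TT k = tE P.ty (P.N - k - 1 + 1) := by
      unfold TT; rw [if_neg (by omega), if_neg b, if_neg c]; congr 1; omega
    have e3 : P.ww k = wE P.ty (P.N - k - 1 + 1) := by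
      funext s; unfold ww; rw [if_neg a, if_neg b, if_neg c]; congr 1; omega
    have e4 : P.al k = alE P.ty (P.N - k - 1 + 1) := by
      funext s; unfold al; rw [if_neg a, if_neg b, if_neg c]; congr 1; omega
    rw [e1, e2, e3, e4]; exact (okE P.ty _ (by omega)).ok

lemma adj_ne {k : ℕ} {W : ℕ → ℕ} (h : ∀ j, j ≤ k → 0 < P.ψ j W) (t : ℕ) (ht : t + 1 ≤ k) :
    W (t+1) ≠ W t := (not_blk (h (t+1) ht)).1

lemma cons_st (c k : ℕ) (W : ℕ → ℕ) (hk : 8 ≤ k) (h : ∀ t, t + 1 ≤ k → W (t+1) ≠ W t) :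
    cons (st c k W) = true := by
  have a0 : W k ≠ W (k-1) := by have := h (k-1) (by omega); rwa [show k - 1 + 1 = k by omega] at this
  have a1 : W (k-1) ≠ W (k-2) := by
    have := h (k-2) (by omega); rwa [show k - 2 + 1 = k - 1 by omega] at this
  have a2 : W (k-2) ≠ W (k-3) := by
    have := h (k-3) (by omega); rwa [show k - 3 + 1 = k - 2 by omega] at this
  have a3 : W (k-3) ≠ W (k-4) := by
    have := h (k-4) (by omega); rwa [show k - 4 + 1 = k - 3 by omega] at this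
  have t1 : 1 ≤ k := by omega
  have t2 : 2 ≤ k := by omega
  have t3 : 3 ≤ k := by omega
  have t4 : 4 ≤ k := by omega
  have l1 : ∀ x y : ℕ, ((decide (x = c) && decide (y = c)) == (decide (x = c) && decide (x = y))) = true := by
    intro x y
    by_cases a : x = c
    · subst a; by_cases b : y = x
      · simp [b]
      · simp [b, Ne.symm b]
    · simp [a]
  have l2 : ∀ x y : ℕ, ((decide (x = c) && decide (y = c)) == (decide (y = c) && decide (x = y))) = true := by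
    intro x y
    by_cases a : y = c
    · subst a; simp
    · simp [a]
  have l3 : ∀ x y : ℕ, x ≠ y → (!(decide (x = c) && decide (y = c))) = true := by
    intro x y hxy
    by_cases a : x = c
    · subst a; simp [Ne.symm hxy]
    · simp [a]
  simp only [cons, st, t1, t2, t3, t4, true_and, l1, l2, l3 _ _ a0, l3 _ _ a1, l3 _ _ a2, l3 _ _ a3,
    Bool.and_self]

lemma switch_le (hv : P.Valid) {k : ℕ} {W : ℕ → ℕ} (h : ∀ j, j ≤ k → 0 < P.ψ j W) :
    P.ψ k W ≤ lift (tb (P.TT k)) (st (P.sp (k+1)) k W) := by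
  have hZ := hv.hZ
  have hN := hv.hN
  have pos := h k le_rfl
  have e0 := ψ_eq pos
  rw [e0] at pos ⊢
  by_cases e : k = P.Z
  · have e2 : P.TT k = tA0 := by unfold TT; rw [if_neg (by omega), if_neg (by omega), if_pos (by omega)]
    rw [e2] at pos ⊢
    rcases lift_cases (tb tA0) (st (P.sp k) k W) with z | ⟨i, hi, hs⟩
    · omega
    have w : st (P.sp (k+1)) k W = wf (dec i) (st (P.sp (k+1)) k W).c0 (st (P.sp (k+1)) k W).c1
        (st (P.sp (k+1)) k W).c2 (st (P.sp (k+1)) k W).c3 (st (P.sp (k+1)) k W).c4 := by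
      rw [hs]; rfl
    have c := cons_st (P.sp (k+1)) k W (by omega) (fun t ht => adj_ne h t ht)
    rw [w] at c
    obtain ⟨s1, s2, s3⟩ := switch i hi _ _ _ _ _ c
    rw [w, ← s2, ← hs, lift_dec _ _ hi, lift_dec _ _ s1]
    exact s3
  · have : P.sp (k+1) = P.sp k := by unfold sp; split_ifs <;> first | rfl | omega
    rw [this]

end Par
end Pool.Agent.H22.Sub
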