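import Mathlib
import Pool.Agent.H22.Sub3

set_option autoImplicit false
set_option maxRecDepth 100000

namespace Pool.Agent.H22.Sub
open Finset

lemma tail (n : ℕ) : ((4:ℝ)/7) ^ (n + 14) * (3 * n + 41) ≤ 7 / 400 := by
  induction n with
  | zero => norm_num
  | succ n ih =>
    have p : 0 < ((4:ℝ)/7) ^ (n + 14) := by positivity
    have n0 : (0:ℝ) ≤ n := Nat.cast_nonneg n
    rw [show n + 1 + 14 = (n + 14) + 1 by omega, pow_succ]
    push_cast
    nlinarith [mul_nonneg p.le n0]

lemma fl_st (c k i : ℕ) (W : ℕ → ℕ) (hk : 4 ≤ k) (h : W (k - i) = c) : fl (st c k W) i = true := by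
  unfold fl
  split_ifs with a0 a1 a2 a3 a4
  · subst a0; exact decide_eq_true h
  · subst a1; exact decide_eq_true ⟨by omega, h⟩
  · subst a2; exact decide_eq_true ⟨by omega, h⟩
  · subst a3; exact decide_eq_true ⟨by omega, h⟩
  · subst a4; exact decide_eq_true ⟨by omega, h⟩
  · rfl

lemma cnt_le (ty : Bool) (j : ℕ) (hj : 8 ≤ j) (s : St) : cnt ty j s ≤ 3 * j - 4 := by
  unfold cnt
  split_ifs
  · unfold cntX; split_ifs <;> omega
  · unfold cntY
    refine le_trans (Finset.sum_le_card_nsmul _ _ 1 (fun m _ => by split_ifs <;> omega)) ?_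
    simp; omega

namespace Par
variable {P : Par}

open Classical in
noncomputable def ch (P : Par) (k tag : ℕ) (W : ℕ → ℕ) : ℝ :=
  ∑ p ∈ P.PP k tag, if P.pr k tag p W then ((4:ℝ)/7) ^ (P.KK k tag p) else 0

lemma ch0 (k : ℕ) (W : ℕ → ℕ) :
    P.ch k 0 W ≤ if 5 ≤ k ∧ k + 6 ≤ P.N then ((4:ℝ)/7) ^ (k+1) * (569 / 4000) else 0 := by
  unfold ch
  simp only [PP, KK, pr, if_true]
  split_ifs with h
  · simp only [pow_add]
    rw [← Finset.mul_sum]
    have := geom_sum_Ico_le_of_lt_one (x := (4:ℝ)/7) (m := 6) (n := min (k+2) (P.N - k + 1))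
      (by norm_num) (by norm_num)
    have p : 0 < ((4:ℝ)/7) ^ k := by positivity
    rw [mul_assoc]
    exact mul_le_mul_of_nonneg_left (le_trans this (by norm_num)) p.le
  · rw [Finset.Ico_eq_empty (by omega)]; simp

lemma ch1 (k : ℕ) (W : ℕ → ℕ) :
    P.ch k 1 W ≤ if (8 ≤ k ∧ k < P.Z) ∧ W k = P.cu then ((4:ℝ)/7) ^ (k+1) * (1307 / 4000) else 0 := by
  unfold ch
  simp only [PP, KK, pr]
  by_cases a : 8 ≤ k ∧ k < P.Z
  · by_cases b : W k = P.cu
    · rw [if_pos a, Finset.sum_singleton, if_pos b, if_pos (And.intro a b),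
        show k + 3 = (k + 1) + 2 by omega, pow_add]
      exact mul_le_mul_of_nonneg_left (by norm_num) (by positivity)
    · simp [b]
  · simp [a]

lemma ch234 (hv : P.Valid) (k : ℕ) (W : ℕ → ℕ) :
    P.ch k 2 W + P.ch k 3 W + P.ch k 4 W ≤
      if k + P.h ≤ P.N then ((4:ℝ)/7) ^ (k+1) * (40 / 4000) else 0 := by
  unfold ch
  simp only [PP, KK, pr, if_true]
  split_ifs with h
  · simp only [Finset.sum_const, Finset.card_range, nsmul_eq_mul]
    have hh := hv.hh
    have e : ((4:ℝ)/7) ^ (k + P.h) = (4/7) ^ (k+1) * (4/7) ^ (P.h - 1) := by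
      rw [← pow_add]; congr 1; omega
    have p : 0 < ((4:ℝ)/7) ^ (k+1) := by positivity
    have := mul_le_mul_of_nonneg_left hv.hT p.le
    rw [e]; nlinarith
  · simp

lemma ch567 (hv : P.Valid) (k : ℕ) (hk : k < P.N) (W : ℕ → ℕ) :
    P.ch k 5 W + P.ch k 6 W + P.ch k 7 W ≤
      if P.N ≤ k + P.ρ then ((4:ℝ)/7) ^ P.N * (cnt P.ty (P.N - k) (st P.cj k W) : ℕ) else 0 := by
  have hZ := hv.hZ
  have hN := hv.hN
  unfold ch
  simp only [PP, KK, pr, if_true]
  by_cases h : P.N ≤ k + P.ρ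
  · rw [if_pos h]
    have p : 0 < ((4:ℝ)/7) ^ P.N := by positivity
    cases hty : P.ty with
    | true =>
      simp only [hk, h, and_self, if_true, Bool.true_eq_false, false_and, if_false,
        Finset.sum_empty, Finset.sum_const, Finset.card_range, nsmul_eq_mul, add_zero, cnt, cntX]
      by_cases b : W k = P.cj
      · have : (st P.cj k W).c0 = true := decide_eq_true b
        rw [if_pos b, this, show P.N + 1 - k = P.N - k + 1 by omega]
        simp only [if_true]; push_cast; linarith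
      · have : (st P.cj k W).c0 = false := decide_eq_false b
        rw [if_neg b, this]
        simp only [Bool.false_eq_true, if_false]; push_cast; linarith
    | false =>
      simp only [hk, h, and_self, if_true, Bool.false_eq_true, false_and, if_false,
        Finset.sum_empty, zero_add, cnt, cntY]
      rw [Finset.sum_filter]
      push_cast
      rw [Finset.mul_sum]
      refine Finset.sum_le_sum (fun m _ => ?_)
      by_cases a : 3 * (P.N - k) + 5 ≤ 2 * m ∧ 2 * m ≤ 3 * (P.N - k) + 7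
      · rw [if_pos a]
        by_cases b : W (P.N + 1 - m) = P.cj
        · rw [if_pos b, if_pos ⟨a, fl_st _ _ _ _ (by omega) (by
            rw [show k - (m - (P.N - k) - 1) = P.N + 1 - m by omega]; exact b)⟩, mul_one]
        · rw [if_neg b]; split_ifs <;> positivity
      · rw [if_neg a, if_neg (fun hh => a hh.1), mul_zero]
  · simp [h]

lemma charge (hv : P.Valid) (k : ℕ) (hk : k < P.N) (W : ℕ → ℕ) :
    P.ch k 0 W + P.ch k 1 W + (P.ch k 2 W + P.ch k 3 W + P.ch k 4 W) +
      (P.ch k 5 W + P.ch k 6 W + P.ch k 7 W) ≤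
      ((4:ℝ)/7) ^ (k+1) * (P.ww k (st (P.sp (k+1)) k W) : ℕ) / 4000 := by
  have hZ := hv.hZ
  have hN := hv.hN
  have hh := hv.hh
  have a0 := ch0 (P := P) k W
  have a1 := ch1 (P := P) k W
  have a2 := ch234 hv k W
  have a3 := ch567 hv k hk W
  have p : 0 < ((4:ℝ)/7) ^ (k+1) := by positivity
  have b2 : P.ch k 2 W + P.ch k 3 W + P.ch k 4 W ≤ ((4:ℝ)/7) ^ (k+1) * (40 / 4000) :=
    le_trans a2 (by split_ifs; exacts [le_rfl, by positivity])
  have b0 : P.ch k 0 W ≤ ((4:ℝ)/7) ^ (k+1) * (569 / 4000) :=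
    le_trans a0 (by split_ifs; exacts [le_rfl, by positivity])
  unfold ww
  by_cases c1 : k < 8
  · rw [if_pos c1]
    rw [if_neg (by omega)] at a1 a3
    unfold wG
    by_cases c5 : 5 ≤ k
    · rw [if_pos c5]; push_cast; linarith
    · rw [if_neg (by omega)] at a0
      rw [if_neg c5]; push_cast; linarith
  rw [if_neg c1]
  by_cases c2 : k < P.Z
  · rw [if_pos c2]
    rw [if_neg (by omega)] at a3
    have e : P.sp (k+1) = P.cu := by unfold sp; rw [if_pos (by omega)]
    rw [e]
    unfold wA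
    by_cases b : W k = P.cu
    · have : (st P.cu k W).c0 = true := decide_eq_true b
      rw [if_pos ⟨by omega, b⟩] at a1
      rw [this]; simp only [if_true]; push_cast; linarith
    · have : (st P.cu k W).c0 = false := decide_eq_false b
      rw [if_neg (fun hh => b hh.2)] at a1
      rw [this]; simp only [Bool.false_eq_true, if_false]; push_cast; linarith
  rw [if_neg c2]
  rw [if_neg (by omega)] at a1
  have e : P.sp (k+1) = P.cj := by unfold sp; rw [if_neg (by omega)]
  rw [e]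
  have eN : ((4:ℝ)/7) ^ P.N = (4/7) ^ (k+1) * (4/7) ^ (P.N - k - 1) := by
    rw [← pow_add]; congr 1; omega
  have b3 : P.ch k 5 W + P.ch k 6 W + P.ch k 7 W ≤
      (4/7) ^ (k+1) * ((4/7) ^ (P.N - k - 1) * (cnt P.ty (P.N - k) (st P.cj k W) : ℕ)) := by
    refine le_trans a3 ?_
    split_ifs
    · rw [eN, mul_assoc]
    · positivity
  by_cases c3 : k + 15 ≤ P.N
  · rw [if_pos c3]
    obtain ⟨n, hn⟩ : ∃ n, P.N - k = n + 15 := ⟨P.N - k - 15, by omega⟩
    have t := tail n
    have cl : ((cnt P.ty (P.N - k) (st P.cj k W) : ℕ) : ℝ) ≤ 3 * n + 41 := by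
      have := cnt_le P.ty (P.N - k) (by omega) (st P.cj k W)
      have h2 : cnt P.ty (P.N - k) (st P.cj k W) ≤ 3 * n + 41 := by omega
      exact_mod_cast h2
    rw [show P.N - k - 1 = n + 14 by omega] at b3
    have p2 : 0 < ((4:ℝ)/7) ^ (n + 14) := by positivity
    have t2 := le_trans (mul_le_mul_of_nonneg_left cl p2.le) t
    have t3 := mul_le_mul_of_nonneg_left t2 p.le
    unfold wB; push_cast; linarith
  · rw [if_neg c3]
    rw [if_neg (by omega)] at a2
    unfold wE
    set n := cnt P.ty (P.N - k) (st P.cj k W) with hn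
    set j := P.N - k - 1 with hj
    have d : ((4:ℝ)/7) ^ j * n * 4000 ≤ ((4000 * 4 ^ j * n / 7 ^ j : ℕ) : ℝ) + 1 := by
      have h7 : (0:ℝ) < 7 ^ j := by positivity
      have := Nat.lt_div_mul_add (a := 4000 * 4 ^ j * n) (b := 7 ^ j) (by positivity)
      have h2 : ((4000 * 4 ^ j * n : ℕ) : ℝ) ≤ ((4000 * 4 ^ j * n / 7 ^ j * 7 ^ j + 7 ^ j : ℕ) : ℝ) := by
        exact_mod_cast this.le
      rw [Nat.cast_add, Nat.cast_mul (4000 * 4 ^ j * n / 7 ^ j)] at h2
      push_cast at h2
      rw [div_pow, div_mul_eq_mul_div, div_mul_eq_mul_div, div_le_iff₀ h7]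
      linarith
    have t3 := mul_le_mul_of_nonneg_left d p.le
    rw [Nat.cast_add, Nat.cast_add]
    by_cases c6 : 6 ≤ P.N - k
    · rw [if_pos c6]; push_cast at t3 ⊢; linarith
    · rw [if_neg (by omega)] at a0
      rw [if_neg c6]; push_cast at t3 ⊢; linarith

lemma KK_ok (hv : P.Valid) (k : ℕ) (p : (_ : ℕ) × ℕ) (hp : p ∈ P.EE k) :
    k < P.KK k p.1 p.2 ∧ P.KK k p.1 p.2 ≤ P.N := by
  have hZ := hv.hZ
  have hN := hv.hN
  have hh := hv.hh
  obtain ⟨tag, m⟩ := p
  obtain ⟨h1, h2⟩ := Finset.mem_sigma.1 hp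
  have h1' := Finset.mem_range.1 h1
  dsimp only at h1' h2 ⊢
  interval_cases tag <;> simp only [PP, KK] at h2 ⊢
  · have := Finset.mem_Ico.1 h2; omega
  all_goals
    split_ifs at h2 with a
    · omega
    · simp at h2

theorem exists_word (hv : P.Valid) (l : ℕ → Finset ℕ) (hl : ∀ t, 1 ≤ t → t ≤ P.N → (l t).card = 4) :
    ∃ W ∈ NonRep.U P.cu l P.N, (∀ j, j ≤ P.N → 0 < P.ψ j W) ∧
      ∀ k, k < P.N → ∀ tag, tag < 8 → ∀ p ∈ P.PP k tag, ¬ (P.pr k tag p (NonRep.tr k W) ∧
        ∀ t, k < t → t ≤ P.KK k tag p → W t = P.ex k tag p (NonRep.tr k W) t) := by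
  classical
  have pos : ∀ j W, 0 < P.φ j W ↔ 0 < P.ψ j W := by
    intro j W
    unfold φ
    have p : 0 < ((4:ℝ)/7) ^ j := by positivity
    constructor
    · intro h
      by_contra hh
      have : P.ψ j W = 0 := by omega
      rw [this] at h; simp at h
    · intro h
      have : (0:ℝ) < P.ψ j W := by exact_mod_cast h
      positivity
  obtain ⟨W, h1, h2, h3⟩ := Tree.tree (N := P.N) (c := P.cu) (l := l) (φ := P.φ) (E := P.EE)
    (K := fun k p => P.KK k p.1 p.2) (pre := fun k p => P.pr k p.1 p.2)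
    (ext := fun k p => P.ex k p.1 p.2) (fun k => ((4:ℝ)/7) ^ k)
    (fun k W W' h => by unfold φ; rw [ψ_congr k W W' h])
    (fun k W => by unfold φ; positivity)
    (fun k W => by
      unfold φ
      have p : 0 < ((4:ℝ)/7) ^ k := by positivity
      have : (P.ψ k W : ℝ) ≤ 1000 := by exact_mod_cast ψ_le k W
      nlinarith)
    (KK_ok hv)
    (fun k hk W _ hp => by
      have hp' : ∀ j, j ≤ k → 0 < P.ψ j W := fun j hj => (pos j W).1 (hp j hj)
      have c := charge hv k hk W
      have s := switch_le hv hp'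
      have ne := fun t ht => adj_ne hp' t ht
      have lb := local_bound _ _ _ _ (P.sp (k+1)) k W (ok_level hv k hk)
        (fun h => by have := ne (k-2) (by omega); rwa [show k - 2 + 1 = k - 1 by omega] at this)
        (fun h => by have := ne (k-3) (by omega); rwa [show k - 3 + 1 = k - 2 by omega] at this)
        (fun h => by have := ne (k-4) (by omega); rwa [show k - 4 + 1 = k - 3 by omega] at this)
        (l (k+1)) (hl _ (by omega) hk) (lt_of_lt_of_le (hp' k le_rfl) s)
      have e1 : ∑ x ∈ l (k+1), P.φ (k+1) (Function.update W (k+1) x) =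
          ((4:ℝ)/7) ^ (k+1) * ((∑ x ∈ l (k+1), wv (lift (tb (P.TT (k+1))))
            (P.al k (st (P.sp (k+1)) k W)) (P.sp (k+1)) k W x : ℕ) : ℝ) / 1000 := by
        push_cast
        rw [Finset.mul_sum, Finset.sum_div]
        refine Finset.sum_congr rfl (fun x _ => ?_)
        have ag : ∀ t, t ≤ k → Function.update W (k+1) x t = W t :=
          fun t ht => by rw [Function.update_of_ne (by omega)]
        unfold φ
        rw [ψ_succ, Function.update_self, st_congr _ k _ W ag, wv_congr _ _ _ k _ W ag]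
      have e2 : (∑ p ∈ P.EE k, if P.pr k p.1 p.2 W then ((4:ℝ)/7) ^ (P.KK k p.1 p.2) else 0) =
          P.ch k 0 W + P.ch k 1 W + (P.ch k 2 W + P.ch k 3 W + P.ch k 4 W) +
            (P.ch k 5 W + P.ch k 6 W + P.ch k 7 W) := by
        unfold EE
        rw [Finset.sum_sigma]
        simp only [Finset.sum_range_succ, Finset.sum_range_zero, ch]
        ring
      rw [e1, e2]
      have lb2 : 7 * P.ψ k W + P.ww k (st (P.sp (k+1)) k W) ≤ 4 * ∑ x ∈ l (k+1),
          wv (lift (tb (P.TT (k+1)))) (P.al k (st (P.sp (k+1)) k W)) (P.sp (k+1)) k W x := by omega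
      have lb3 : (7:ℝ) * (P.ψ k W : ℝ) + (P.ww k (st (P.sp (k+1)) k W) : ℕ) ≤ 4 * ((∑ x ∈ l (k+1),
          wv (lift (tb (P.TT (k+1)))) (P.al k (st (P.sp (k+1)) k W)) (P.sp (k+1)) k W x : ℕ) : ℝ) := by
        exact_mod_cast lb2
      have p : 0 < ((4:ℝ)/7) ^ k := by positivity
      have := mul_le_mul_of_nonneg_left lb3 p.le
      unfold φ
      rw [pow_succ] at c ⊢
      linarith)
    (by
      rw [pos, ψ_zero]
      obtain ⟨i, hi, e, hp⟩ := posG
      have e2 : st P.cu 0 (fun t => if t = 0 then P.cu else 0) = dec i := by rw [e]; simp [st]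
      rw [e2, lift_dec _ _ hi]
      exact hp)
  refine ⟨W, h1, fun j hj => (pos j W).1 (h2 j hj), fun k hk tag ht p hp => ?_⟩
  exact h3 k hk ⟨tag, p⟩ (Finset.mem_sigma.2 ⟨Finset.mem_range.2 ht, hp⟩)

end Par
end Pool.Agent.H22.Sub
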