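import Mathlib
import Pool.Agent.H22.Sub4

set_option autoImplicit false
set_option maxRecDepth 100000

namespace Pool.Agent.H22.Sub
open Finset NonRep

def Ew (N cj : ℕ) (X Y : ℕ → ℕ) (t : ℕ) : ℕ :=
  if t ≤ N then X t else if t = N + 1 then cj else Y (2 * N + 2 - t)

structure LegA (N Z h cu : ℕ) (l : ℕ → Finset ℕ) (X : ℕ → ℕ) : Prop where
  x0 : X 0 = cu
  mem : ∀ t, 1 ≤ t → t ≤ N → X t ∈ l t
  sq : ∀ s m, 1 ≤ m → s + 2 * m ≤ N + 1 → ¬ ∀ i, i < m → X (s + i) = X (s + i + m)
  ban : ∀ t, 1 ≤ t → t ≤ 7 → X t ≠ cu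
  pP : X 1 ≠ X 3 ∧ X 2 ≠ X 4 ∧ X 1 ≠ X 5 ∧ ¬ (X 1 = X 4 ∧ X 2 = X 5)
  rl : ∀ m, 8 ≤ m → m ≤ Z → X m = cu → X (m-1) = cu ∨ X (m-2) = cu ∨ X (m-3) = cu ∨ X (m-4) = cu ∨
    X (m-5) = cu ∨ X (m-1) = X (m-3) ∨ X (m-2) = X (m-4) ∨ X (m-1) = X (m-5) ∨
    (X (m-1) = X (m-4) ∧ X (m-2) = X (m-5))
  mr : ∀ i, 8 ≤ i → i < Z → X i = cu → ¬ (X (i+1) = X 1 ∧ X (i+2) = X 2 ∧ X (i+3) = X 3)
  b3 : ∀ α β, 1 ≤ β → β + h ≤ α → α + h ≤ N + 1 → ¬ ∀ j, j < h → X (α + j) = X (β + j)
  b4 : ∀ α β, 1 ≤ β → β + h ≤ α → α + h ≤ N + 1 → ¬ ∀ j, j < h → X (α + j) = X (β + h - 1 - j)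

def JX (N ρ cj : ℕ) (X Y : ℕ → ℕ) : Prop :=
  ∀ s m, 1 ≤ m → m < ρ → s ≤ N + 1 → N + 1 < s + 2 * m →
    (∀ i, i < m → Ew N cj X Y (s + i) = Ew N cj X Y (s + i + m)) →
    N + 1 < s + m ∧ 2 * (N + 1 - s) - 5 ≤ s + m - (N + 2)

def JY (N ρ cj : ℕ) (X : ℕ → ℕ) : Prop :=
  ∀ m e, 1 ≤ m → m < ρ → X (N + 1 - m) = cj →
    (∀ i, 1 ≤ i → i ≤ e → X (N + 1 - i) = X (N + 1 - i - m)) → 3 * e + 8 ≤ 2 * m

namespace Par
variable {P : Par}

theorem leg (hv : P.Valid) (l : ℕ → Finset ℕ) (hl : ∀ t, 1 ≤ t → t ≤ P.N → (l t).card = 4) :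
    ∃ X, LegA P.N P.Z P.h P.cu l X ∧
      (∀ p, p < P.nT → ∀ α, 1 ≤ α → α + P.h ≤ P.N + 1 → ¬ ∀ j, j < P.h → X (α + j) = P.tm p j) ∧
      (P.ty = true → JX P.N P.ρ P.cj X P.Yw) ∧ (P.ty = false → JY P.N P.ρ P.cj X) := by
  have hZ := hv.hZ
  have hN := hv.hN
  have hh := hv.hh
  obtain ⟨X, hU, hp, he⟩ := exists_word hv l hl
  obtain ⟨x0, xm, -⟩ := (mem_U _ _ _ _).1 hU
  have nb := fun j (hj : j + 1 ≤ P.N) => not_blk (hp (j+1) hj)
  refine ⟨X, ⟨x0, xm, ?_, ?_, ?_, ?_, ?_, ?_, ?_⟩, ?_, ?_, ?_⟩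
  · intro s m hm hs hq
    obtain ⟨j, hj⟩ : ∃ j, s + 2 * m = j + 2 := ⟨s + 2 * m - 2, by omega⟩
    obtain ⟨n1, n2, n3, n4, n5, -⟩ := nb j (by omega)
    have hq' : ∀ t t', s + m ≤ t → t < s + 2 * m → t' + m = t → X t = X t' := fun t t' t1 t2 t3 => by
      have := hq (t - m - s) (by omega)
      rw [show s + (t - m - s) = t' by omega, t3] at this
      exact this.symm
    rcases (by omega : m = 1 ∨ m = 2 ∨ m = 3 ∨ m = 4 ∨ m = 5 ∨ 6 ≤ m) with e | e | e | e | e | e
    · exact n1 (hq' _ _ (by omega) (by omega) (by omega))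
    · exact n2 ⟨by omega, hq' _ _ (by omega) (by omega) (by omega), hq' _ _ (by omega) (by omega) (by omega)⟩
    · exact n3 ⟨by omega, hq' _ _ (by omega) (by omega) (by omega), hq' _ _ (by omega) (by omega) (by omega),
        hq' _ _ (by omega) (by omega) (by omega)⟩
    · exact n4 ⟨by omega, hq' _ _ (by omega) (by omega) (by omega), hq' _ _ (by omega) (by omega) (by omega),
        hq' _ _ (by omega) (by omega) (by omega), hq' _ _ (by omega) (by omega) (by omega)⟩
    · exact n5 ⟨by omega, hq' _ _ (by omega) (by omega) (by omega), hq' _ _ (by omega) (by omega) (by omega),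
        hq' _ _ (by omega) (by omega) (by omega), hq' _ _ (by omega) (by omega) (by omega),
        hq' _ _ (by omega) (by omega) (by omega)⟩
    · refine he (j + 1 - m) (by omega) 0 (by omega) m (Finset.mem_Ico.2 (by omega))
        ⟨trivial, fun t t1 t2 => ?_⟩
      simp only [KK] at t2
      simp only [ex]
      rw [tr_le _ _ _ (by omega)]
      exact hq' _ _ (by omega) (by omega) (by omega)
  · intro t t1 t2 e
    obtain ⟨j, rfl⟩ : ∃ j, t = j + 1 := ⟨t - 1, by omega⟩
    have := (nb j (by omega)).2.2.2.2.2.1 (by rw [e]; unfold sp; rw [if_pos (by omega)])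
    unfold al alG at this
    rw [if_pos (by omega), if_pos (by omega)] at this
    exact absurd this (by simp)
  · have p5 := hp 5 (by omega)
    rw [ψ_eq (hp 5 (by omega))] at p5
    have e : P.TT 5 = tG.getD 5 0 := by unfold TT; rw [if_pos (by omega)]
    rw [e] at p5
    rcases lift_cases (tb (tG.getD 5 0)) (st (P.sp 5) 5 X) with z | ⟨i, hi, hs⟩
    · omega
    rw [← hs, lift_dec _ _ hi] at p5
    have := inG5 i hi p5
    rw [hs] at this
    simp [inP, st] at this
    obtain ⟨⟨⟨a, b⟩, c⟩, d⟩ := this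
    refine ⟨fun e => a e.symm, fun e => b e.symm, fun e => c e.symm, fun e => ?_⟩
    rcases d with d | d
    · exact d e.1.symm
    · exact d e.2.symm
  · intro m m1 m2 e
    obtain ⟨j, rfl⟩ : ∃ j, m = j + 1 := ⟨m - 1, by omega⟩
    have es : P.sp (j+1) = P.cu := by unfold sp; rw [if_pos m2]
    have := (nb j (by omega)).2.2.2.2.2.1 (by rw [e, es])
    have r : rule (st P.cu j X) = true := by
      rw [es] at this
      unfold al alG at this
      by_cases a : j < 8
      · rwa [if_pos a, if_neg (by omega)] at this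
      · rwa [if_neg a, if_pos (by omega)] at this
    simp only [rule, st, Bool.or_eq_true, Bool.and_eq_true, decide_eq_true_eq] at r
    rw [show j + 1 - 1 = j by omega, show j + 1 - 2 = j - 1 by omega, show j + 1 - 3 = j - 2 by omega,
      show j + 1 - 4 = j - 3 by omega, show j + 1 - 5 = j - 4 by omega]
    tauto
  · rintro i i1 i2 e ⟨a, b, c⟩
    refine he i (by omega) 1 (by omega) 0 (by simp only [PP]; rw [if_pos ⟨i1, i2⟩]; simp)
      ⟨by simp only [pr]; rw [tr_le _ _ _ le_rfl]; exact e, fun t t1 t2 => ?_⟩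
    simp only [KK] at t2
    simp only [ex]
    rw [tr_le _ _ _ (by omega)]
    rcases (by omega : t = i + 1 ∨ t = i + 2 ∨ t = i + 3) with r | r | r <;> subst r <;>
      simp only [Nat.add_sub_cancel_left] <;> assumption
  · intro α β b1 b2 b3 hq
    refine he (α - 1) (by omega) 3 (by omega) β
      (by simp only [PP]; rw [if_pos (by omega)]; exact Finset.mem_range.2 (by omega))
      ⟨trivial, fun t t1 t2 => ?_⟩
    simp only [KK] at t2
    simp only [ex]
    rw [tr_le _ _ _ (by omega)]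
    have := hq (t - α) (by omega)
    rw [show α + (t - α) = t by omega] at this
    rw [this]; congr 1; omega
  · intro α β b1 b2 b3 hq
    refine he (α - 1) (by omega) 4 (by omega) β
      (by simp only [PP]; rw [if_pos (by omega)]; exact Finset.mem_range.2 (by omega))
      ⟨trivial, fun t t1 t2 => ?_⟩
    simp only [KK] at t2
    simp only [ex]
    rw [tr_le _ _ _ (by omega)]
    have := hq (t - α) (by omega)
    rw [show α + (t - α) = t by omega] at this
    rw [this]; congr 1; omega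
  · intro p hp' α a1 a2 hq
    refine he (α - 1) (by omega) 2 (by omega) p
      (by simp only [PP]; rw [if_pos (by omega)]; exact Finset.mem_range.2 hp')
      ⟨trivial, fun t t1 t2 => ?_⟩
    simp only [KK] at t2
    simp only [ex]
    have := hq (t - α) (by omega)
    rw [show α + (t - α) = t by omega] at this
    rw [this]; congr 1; omega
  · intro hty s m m1 m2 s1 s2 hq
    have lo : ∀ t, t ≤ P.N → Ew P.N P.cj X P.Yw t = X t := fun t ht => by unfold Ew; rw [if_pos ht]
    have hi : ∀ t, P.N + 2 ≤ t → Ew P.N P.cj X P.Yw t = P.Yw (2 * P.N + 2 - t) := fun t ht => by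
      unfold Ew; rw [if_neg (by omega), if_neg (by omega)]
    have mid : Ew P.N P.cj X P.Yw (P.N + 1) = P.cj := by unfold Ew; rw [if_neg (by omega), if_pos rfl]
    have hq' : ∀ t, s ≤ t → t < s + m → Ew P.N P.cj X P.Yw t = Ew P.N P.cj X P.Yw (t + m) :=
      fun t t1 t2 => by
        have := hq (t - s) (by omega)
        rwa [show s + (t - s) = t by omega] at this
    have first : P.N + 1 < s + m := by
      by_contra hR
      have e0 : X (P.N + 1 - m) = P.cj := by
        have := hq' (P.N + 1 - m) (by omega) (by omega)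
        rwa [show P.N + 1 - m + m = P.N + 1 by omega, mid, lo _ (by omega)] at this
      by_cases m1' : m = 1
      · subst m1'
        obtain ⟨j, hj⟩ : ∃ j, P.N = j + 1 := ⟨P.N - 1, by omega⟩
        have es : P.sp (j+1) = P.cj := by unfold sp; rw [if_neg (by omega)]
        have := (nb j (by omega)).2.2.2.2.2.1 (by rw [es, ← e0]; congr 1; omega)
        unfold al alE at this
        rw [if_neg (by omega), if_neg (by omega), if_neg (by omega), if_pos hty] at this
        have := of_decide_eq_true this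
        omega
      refine he (P.N + 1 - m) (by omega) 5 (by omega) (P.N + 1 - s - m)
        (by simp only [PP]; rw [if_pos ⟨hty, by omega, by omega⟩]; exact Finset.mem_range.2 (by omega))
        ⟨by simp only [pr]; rw [tr_le _ _ _ le_rfl]; exact e0, fun t t1 t2 => ?_⟩
      simp only [KK] at t2
      simp only [ex]
      rw [show P.N + 1 - (P.N + 1 - m) = m by omega]
      split_ifs with a
      · have := hq' t (by omega) (by omega)
        rwa [lo _ t2, hi _ (by omega)] at this
      · have := hq' (t - m) (by omega) (by omega)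
        rw [lo _ (by omega), lo _ (by omega), show t - m + m = t by omega] at this
        rw [tr_le _ _ _ (by omega)]; exact this.symm
    refine ⟨first, ?_⟩
    by_contra hL
    refine he (s - 1) (by omega) 6 (by omega) (s + m - (P.N + 2))
      (by simp only [PP]; rw [if_pos ⟨hty, by omega, by omega⟩]; exact Finset.mem_range.2 (by omega))
      ⟨trivial, fun t t1 t2 => ?_⟩
    simp only [KK] at t2
    simp only [ex]
    have := hq' t (by omega) (by omega)
    rw [lo _ t2, hi _ (by omega)] at this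
    rw [this]; congr 1; omega
  · intro hty m e m1 m2 e0 hq
    by_cases m4 : m ≤ 3
    · exfalso
      obtain ⟨j, hj⟩ : ∃ j, P.N + 1 - m = j + 1 := ⟨P.N - m, by omega⟩
      have es : P.sp (j+1) = P.cj := by unfold sp; rw [if_neg (by omega)]
      have := (nb j (by omega)).2.2.2.2.2.1 (by rw [es, ← e0, hj])
      unfold al alE at this
      rw [if_neg (by omega), if_neg (by omega), if_neg (by omega), if_neg (by simp [hty])] at this
      have := of_decide_eq_true this
      omega
    by_contra hL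
    refine he (P.N - (2 * m - 5) / 3) (by omega) 7 (by omega) m
      (by
        simp only [PP]; rw [if_pos ⟨hty, by omega, by omega⟩]
        exact Finset.mem_filter.2 ⟨Finset.mem_range.2 (by omega), by omega⟩)
      ⟨by simp only [pr]; rw [tr_le _ _ _ (by omega)]; exact e0, fun t t1 t2 => ?_⟩
    simp only [KK] at t2
    simp only [ex]
    rw [tr_le _ _ _ (by omega)]
    have := hq (P.N + 1 - t) (by omega) (by omega)
    rwa [show P.N + 1 - (P.N + 1 - t) = t by omega] at this

end Par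

lemma junction {N ρ cj : ℕ} {X Y : ℕ → ℕ} (hρ : ρ ≤ N) (hx : JX N ρ cj X Y) (hy : JY N ρ cj Y)
    (s m : ℕ) (m1 : 1 ≤ m) (m2 : m < ρ) (s1 : s ≤ N + 1) (s2 : N + 1 < s + 2 * m) :
    ¬ ∀ i, i < m → Ew N cj X Y (s + i) = Ew N cj X Y (s + i + m) := by
  intro hq
  obtain ⟨a, b⟩ := hx s m m1 m2 s1 s2 hq
  have hi : ∀ t, N + 2 ≤ t → Ew N cj X Y t = Y (2 * N + 2 - t) := fun t ht => by
    unfold Ew; rw [if_neg (by omega), if_neg (by omega)]
  have mid : Ew N cj X Y (N + 1) = cj := by unfold Ew; rw [if_neg (by omega), if_pos rfl]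
  have := hy m (s + m - (N + 2)) m1 m2 (by
      have := hq (N + 1 - s) (by omega)
      rw [show s + (N + 1 - s) = N + 1 by omega, mid, hi _ (by omega)] at this
      rw [this]; congr 1; omega)
    (fun i i1 i2 => by
      have := hq (N + 1 - s + i) (by omega)
      rw [hi _ (by omega), hi _ (by omega)] at this
      rw [show N + 1 - i = 2 * N + 2 - (s + (N + 1 - s + i)) by omega, this]; congr 1; omega)
  omega

/-- No square of small period passes through the common origin of two legs with the origin in its first half. -/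
lemma vertex {N Z h cu : ℕ} {l l' : ℕ → Finset ℕ} {A B : ℕ → ℕ} (hA : LegA N Z h cu l A)
    (hB : LegA N Z h cu l' B) (m a : ℕ) (m2 : m < Z) (ha : a < m)
    (h1 : ∀ i, i ≤ a → A i = B (m - i)) (h2 : ∀ i, i + a < m → B (m + i) = B i) : False := by
  have e0 : B m = cu := by rw [← hA.x0, h1 0 (by omega)]; rfl
  have m8 : 8 ≤ m := by
    by_contra hh
    exact hB.ban m (by omega) (by omega) e0
  have a5 : 5 ≤ a := by
    by_contra hh
    exact hB.mr m m8 m2 e0 ⟨h2 1 (by omega), h2 2 (by omega), h2 3 (by omega)⟩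
  have r := hB.rl m m8 (by omega) e0
  rw [← h1 1 (by omega), ← h1 2 (by omega), ← h1 3 (by omega), ← h1 4 (by omega),
    ← h1 5 (by omega)] at r
  have b1 := hA.ban 1 (by omega) (by omega)
  have b2 := hA.ban 2 (by omega) (by omega)
  have b3 := hA.ban 3 (by omega) (by omega)
  have b4 := hA.ban 4 (by omega) (by omega)
  have b5 := hA.ban 5 (by omega) (by omega)
  have := hA.pP
  tauto

end Pool.Agent.H22.Sub
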