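import Mathlib
import Pool.Agent.H22.Sub5

set_option autoImplicit false

namespace Pool.Agent.H22.Sub

/-- Two blocks of length `h` differ, read forwards and read backwards. -/
def Dif (h : ℕ) (A B : ℕ → ℕ) (α β : ℕ) : Prop :=
  (¬ ∀ j, j < h → A (α + j) = B (β + j)) ∧ (¬ ∀ j, j < h → A (α + j) = B (β + h - 1 - j))

lemma Dif.symm {h : ℕ} {A B : ℕ → ℕ} {α β : ℕ} (H : Dif h A B α β) : Dif h B A β α := by
  refine ⟨fun q => H.1 (fun j hj => (q j hj).symm), fun q => H.2 (fun j hj => ?_)⟩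
  have := q (h - 1 - j) (by omega)
  rw [show β + (h - 1 - j) = β + h - 1 - j by omega, show α + h - 1 - (h - 1 - j) = α + j by omega] at this
  exact this.symm

structure Geo (D W : Type) (N h : ℕ) where
  pos : D → ℕ → W
  rev : D → D
  c : W → ℕ
  X : D → ℕ → ℕ
  cj : D → ℕ
  cu : D → ℕ
  l : D → ℕ → Finset ℕ
  hN : 6 * h + 20 ≤ N
  hh : 1 ≤ h
  rr : ∀ d, rev (rev d) = d
  p1 : ∀ d i, i ≤ 2 * N + 2 → pos (rev d) i = pos d (2 * N + 2 - i)
  p3 : ∀ d i d' i', 0 < i → i < 2 * N + 2 → i' ≤ 2 * N + 2 → pos d i = pos d' i' →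
    (d' = d ∧ i' = i) ∨ (d' = rev d ∧ i' = 2 * N + 2 - i)
  hc : ∀ d i, i ≤ 2 * N + 2 → c (pos d i) = Ew N (cj d) (X d) (X (rev d)) i
  hA : ∀ d, LegA N (3 * h) h (cu d) (l d) (X d)
  hJ : ∀ d, (JX N (3 * h) (cj d) (X d) (X (rev d)) ∧ JY N (3 * h) (cj d) (X (rev d))) ∨
    (JX N (3 * h) (cj (rev d)) (X (rev d)) (X d) ∧ JY N (3 * h) (cj (rev d)) (X d))
  hB : ∀ d d', d ≠ d' → ∀ α β, 1 ≤ α → α + h ≤ N + 1 → 1 ≤ β → β + h ≤ N + 1 → Dif h (X d) (X d') α β

namespace Geo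
variable {D W : Type} {N h : ℕ} (Γ : Geo D W N h)

lemma lo (d : D) (i : ℕ) (hi : i ≤ N) : Γ.c (Γ.pos d i) = Γ.X d i := by
  rw [Γ.hc d i (by omega)]; unfold Ew; rw [if_pos hi]

def Sq (d : D) (s m : ℕ) : Prop := ∀ i, i < m → Γ.c (Γ.pos d (s + i)) = Γ.c (Γ.pos d (s + i + m))

lemma rv {d : D} {s m : ℕ} (hs : s + 2 * m ≤ 2 * N + 3) (q : Γ.Sq d s m) :
    Γ.Sq (Γ.rev d) (2 * N + 3 - s - 2 * m) m := by
  intro i hi
  rw [Γ.p1 _ _ (by omega), Γ.p1 _ _ (by omega)]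
  have := q (m - 1 - i) (by omega)
  rw [show 2 * N + 2 - (2 * N + 3 - s - 2 * m + i) = s + (m - 1 - i) + m by omega,
    show 2 * N + 2 - (2 * N + 3 - s - 2 * m + i + m) = s + (m - 1 - i) by omega]
  exact this.symm

lemma insq (d : D) (s m : ℕ) (m1 : 1 ≤ m) (m2 : m < 3 * h) (hs : s + 2 * m ≤ 2 * N + 3) :
    ¬ Γ.Sq d s m := by
  have hN := Γ.hN
  have leg : ∀ d s, s + 2 * m ≤ N + 1 → ¬ Γ.Sq d s m := fun d s a q =>
    (Γ.hA d).sq s m m1 a (fun i hi => by
      have := q i hi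
      rwa [Γ.lo _ _ (by omega), Γ.lo _ _ (by omega)] at this)
  have jun : ∀ d s, s + 2 * m ≤ 2 * N + 3 → s ≤ N + 1 → N + 1 < s + 2 * m →
      JX N (3 * h) (Γ.cj d) (Γ.X d) (Γ.X (Γ.rev d)) → JY N (3 * h) (Γ.cj d) (Γ.X (Γ.rev d)) →
      ¬ Γ.Sq d s m := fun d s a0 a1 a2 x y q =>
    junction (by omega) x y s m m1 m2 a1 a2 (fun i hi => by
      have := q i hi
      rwa [Γ.hc _ _ (by omega), Γ.hc _ _ (by omega)] at this)
  intro q
  by_cases a : s + 2 * m ≤ N + 1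
  · exact leg d s a q
  by_cases b : N + 2 ≤ s
  · exact leg _ _ (by omega) (Γ.rv hs q)
  rcases Γ.hJ d with ⟨x, y⟩ | ⟨x, y⟩
  · exact jun d s hs (by omega) (by omega) x y q
  · exact jun (Γ.rev d) _ (by omega) (by omega) (by omega) (by rw [Γ.rr]; exact x) (by rw [Γ.rr]; exact y)
      (Γ.rv hs q)

section path
variable {w : ℕ → W} {n : ℕ} (inj : ∀ i j, i < n → j < n → w i = w j → i = j)
  (adj : ∀ i, i + 1 < n → ∃ d j, j < 2 * N + 2 ∧ w i = Γ.pos d j ∧ w (i + 1) = Γ.pos d (j + 1))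
include inj adj

lemma follow {s j : ℕ} {d : D} (e0 : w s = Γ.pos d j) (e1 : w (s + 1) = Γ.pos d (j + 1)) :
    ∀ k, j + k ≤ 2 * N + 2 → s + k < n → w (s + k) = Γ.pos d (j + k) := by
  have key : ∀ k, j + k + 1 ≤ 2 * N + 2 → s + k + 1 < n →
      w (s + k) = Γ.pos d (j + k) ∧ w (s + k + 1) = Γ.pos d (j + k + 1) := by
    intro k
    induction k with
    | zero => intro _ _; exact ⟨e0, e1⟩
    | succ k ih =>
      intro a b
      obtain ⟨i0, i1⟩ := ih (by omega) (by omega)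
      refine ⟨i1, ?_⟩
      obtain ⟨d', j', hj, f0, f1⟩ := adj (s + k + 1) (by omega)
      rcases Γ.p3 d (j + k + 1) d' j' (by omega) (by omega) (by omega) (i1.symm.trans f0) with
        ⟨rfl, rfl⟩ | ⟨rfl, rfl⟩
      · exact f1
      · exfalso
        rw [Γ.p1 _ _ (by omega), show 2 * N + 2 - (2 * N + 2 - (j + k + 1) + 1) = j + k by omega,
          ← i0] at f1
        have := inj _ _ (by omega) (by omega) f1
        omega
  intro k a b
  rcases k with _ | k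
  · exact e0
  · exact (key k (by omega) (by omega)).2

/-- after an original vertex the path follows a new dart from its start -/
lemma turn {q : ℕ} {d : D} (e : w q = Γ.pos d (2 * N + 2)) (hq : q + 1 < n) :
    ∃ d', Γ.cu d' = Γ.cu (Γ.rev d) ∧ ∀ k, k ≤ 2 * N + 2 → q + k < n → w (q + k) = Γ.pos d' k := by
  obtain ⟨d', j', hj, f0, f1⟩ := adj q hq
  have z : j' = 0 := by
    by_contra hz
    rcases Γ.p3 d' j' d (2 * N + 2) (by omega) hj le_rfl (f0.symm.trans e) with ⟨-, r⟩ | ⟨-, r⟩ <;> omega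
  subst z
  refine ⟨d', ?_, fun k a b => ?_⟩
  · rw [← (Γ.hA d').x0, ← (Γ.hA (Γ.rev d)).x0, ← Γ.lo _ _ (Nat.zero_le _), ← Γ.lo _ _ (Nat.zero_le _),
      ← f0, e, Γ.p1 _ _ (Nat.zero_le _)]
    rfl
  · have := Γ.follow inj adj f0 f1 k (by omega) b
    rwa [Nat.zero_add] at this

end path

lemma short {w : ℕ → W} {t : ℕ} (t1 : 0 < t) (t2 : t < 3 * h)
    (inj : ∀ i j, i < 2 * t → j < 2 * t → w i = w j → i = j)
    (adj : ∀ i, i + 1 < 2 * t → ∃ d j, j < 2 * N + 2 ∧ w i = Γ.pos d j ∧ w (i + 1) = Γ.pos d (j + 1)) :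
    ¬ ∀ i, i < t → Γ.c (w i) = Γ.c (w (i + t)) := by
  have hN := Γ.hN
  intro hq
  obtain ⟨d, j, hj, e0, e1⟩ := adj 0 (by omega)
  have fo := Γ.follow inj adj e0 e1
  simp only [Nat.zero_add] at fo
  by_cases a : j + 2 * t ≤ 2 * N + 3
  · refine Γ.insq d j t t1 t2 a (fun i hi => ?_)
    rw [← fo i (by omega) (by omega), Nat.add_assoc, ← fo (i + t) (by omega) (by omega)]
    exact hq i hi
  obtain ⟨q, hq0⟩ : ∃ q, j + q = 2 * N + 2 := ⟨2 * N + 2 - j, by omega⟩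
  have eq : w q = Γ.pos d (2 * N + 2) := by rw [← hq0]; exact fo q (by omega) (by omega)
  obtain ⟨d', ec, fo'⟩ := Γ.turn inj adj eq (by omega)
  have A : ∀ k i, k + i = q → Γ.c (w i) = Γ.X (Γ.rev d) k := fun k i e => by
    rw [fo i (by omega) (by omega), ← Γ.lo _ _ (by omega), Γ.p1 _ _ (by omega)]
    congr 2; omega
  have B : ∀ k i, q + k = i → i < 2 * t → Γ.c (w i) = Γ.X d' k := fun k i e b => by
    rw [← e, fo' k (by omega) (by omega), Γ.lo _ _ (by omega)]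
  have hB := Γ.hA d'
  rw [ec] at hB
  by_cases b : q < t
  · refine vertex (Γ.hA (Γ.rev d)) hB t q t2 b (fun i hi => ?_) (fun i hi => ?_)
    · rw [← A i (q - i) (by omega), ← B (t - i) (q - i + t) (by omega) (by omega)]
      exact hq _ (by omega)
    · rw [← B (t + i) (q + i + t) (by omega) (by omega), ← B i (q + i) rfl (by omega)]
      exact (hq _ (by omega)).symm
  · refine vertex hB (Γ.hA (Γ.rev d)) t (2 * t - 1 - q) t2 (by omega) (fun i hi => ?_) (fun i hi => ?_)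
    · rw [← A (t - i) (q + i - t) (by omega), ← B i (q + i - t + t) (by omega) (by omega)]
      exact (hq _ (by omega)).symm
    · rw [← A (t + i) (q - t - i) (by omega), ← A i (q - t - i + t) (by omega)]
      exact hq _ (by omega)

def Blk (w : ℕ → W) (s : ℕ) : Prop :=
  ∃ e α, 1 ≤ α ∧ α + h ≤ N + 1 ∧
    ((∀ k, k < h → w (s + k) = Γ.pos e (α + k)) ∨ (∀ k, k < h → w (s + k) = Γ.pos e (α + h - 1 - k)))

lemma window {w : ℕ → W} {n : ℕ} (inj : ∀ i j, i < n → j < n → w i = w j → i = j)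
    (adj : ∀ i, i + 1 < n → ∃ d j, j < 2 * N + 2 ∧ w i = Γ.pos d j ∧ w (i + 1) = Γ.pos d (j + 1))
    (s : ℕ) (hs : s + 3 * h ≤ n) :
    ∃ q, ∀ b, b ≤ 2 * h → (q < b ∨ b + h ≤ q) → Γ.Blk w (s + b) := by
  have hN := Γ.hN
  have hh := Γ.hh
  obtain ⟨d, j, hj, e0, e1⟩ := adj s (by omega)
  have fo := Γ.follow inj adj e0 e1
  have fw : ∀ b, b ≤ 2 * h → 1 ≤ j + b → j + b + h ≤ N + 1 → Γ.Blk w (s + b) := fun b b1 b2 b3 =>
    ⟨d, j + b, b2, b3, Or.inl (fun k hk => by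
      rw [Nat.add_assoc, fo _ (by omega) (by omega), Nat.add_assoc])⟩
  have bw : ∀ b, b ≤ 2 * h → N + 2 ≤ j + b → j + b + h ≤ 2 * N + 2 → Γ.Blk w (s + b) :=
    fun b b1 b2 b3 => ⟨Γ.rev d, 2 * N + 3 - (j + b + h), by omega, by omega, Or.inr (fun k hk => by
      rw [Nat.add_assoc, fo _ (by omega) (by omega), Γ.p1 _ _ (by omega)]
      congr 1; omega)⟩
  by_cases a : j = 0
  · exact ⟨0, fun b b1 b2 => fw b b1 (by omega) (by omega)⟩
  by_cases a' : j ≤ N + 1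
  · refine ⟨N + 1 - j, fun b b1 b2 => ?_⟩
    rcases b2 with b2 | b2
    · exact bw b b1 (by omega) (by omega)
    · exact fw b b1 (by omega) (by omega)
  refine ⟨2 * N + 2 - j, fun b b1 b2 => ?_⟩
  rcases b2 with b2 | b2
  · obtain ⟨q, hq0⟩ : ∃ q, j + q = 2 * N + 2 := ⟨2 * N + 2 - j, by omega⟩
    have eq : w (s + q) = Γ.pos d (2 * N + 2) := by rw [← hq0]; exact fo q (by omega) (by omega)
    obtain ⟨d', -, fo'⟩ := Γ.turn inj adj eq (by omega)
    refine ⟨d', b - q, by omega, by omega, Or.inl (fun k hk => ?_)⟩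
    rw [← fo' _ (by omega) (by omega)]
    congr 1; omega
  · exact bw b b1 (by omega) (by omega)

lemma long {w : ℕ → W} {t : ℕ} (t2 : 3 * h ≤ t)
    (inj : ∀ i j, i < 2 * t → j < 2 * t → w i = w j → i = j)
    (adj : ∀ i, i + 1 < 2 * t → ∃ d j, j < 2 * N + 2 ∧ w i = Γ.pos d j ∧ w (i + 1) = Γ.pos d (j + 1)) :
    ¬ ∀ i, i < t → Γ.c (w i) = Γ.c (w (i + t)) := by
  have hN := Γ.hN
  have hh := Γ.hh
  intro hq
  obtain ⟨q, hq1⟩ := Γ.window inj adj 0 (by omega)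
  obtain ⟨q', hq2⟩ := Γ.window inj adj t (by omega)
  obtain ⟨b, b1, b2, b3⟩ : ∃ b, b ≤ 2 * h ∧ (q < b ∨ b + h ≤ q) ∧ (q' < b ∨ b + h ≤ q') := by
    by_cases a : h ≤ q ∧ h ≤ q'
    · exact ⟨0, by omega, by omega, by omega⟩
    by_cases a' : (q < h ∨ 2 * h ≤ q) ∧ (q' < h ∨ 2 * h ≤ q')
    · exact ⟨h, by omega, by omega, by omega⟩
    exact ⟨2 * h, by omega, by omega, by omega⟩
  obtain ⟨e, α, a1, a2, ha⟩ := hq1 b b1 b2
  obtain ⟨e', β, c1, c2, hb⟩ := hq2 b b1 b3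
  simp only [Nat.zero_add] at ha
  have dif : Dif h (Γ.X e) (Γ.X e') α β := by
    by_cases ee : e = e'
    · subst ee
      by_cases o1 : β + h ≤ α
      · exact ⟨(Γ.hA e).b3 α β c1 o1 a2, (Γ.hA e).b4 α β c1 o1 a2⟩
      by_cases o2 : α + h ≤ β
      · exact Dif.symm ⟨(Γ.hA e).b3 β α a1 o2 c2, (Γ.hA e).b4 β α a1 o2 c2⟩
      exfalso
      obtain ⟨x, x1, x2, x3, x4⟩ : ∃ x, α ≤ x ∧ x < α + h ∧ β ≤ x ∧ x < β + h :=
        ⟨max α β, by omega, by omega, by omega, by omega⟩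
      obtain ⟨k, k1, k2⟩ : ∃ k, k < h ∧ w (b + k) = Γ.pos e x := by
        rcases ha with ha | ha
        · exact ⟨x - α, by omega, by rw [ha _ (by omega)]; congr 1; omega⟩
        · exact ⟨α + h - 1 - x, by omega, by rw [ha _ (by omega)]; congr 1; omega⟩
      obtain ⟨k', k1', k2'⟩ : ∃ k, k < h ∧ w (t + b + k) = Γ.pos e x := by
        rcases hb with hb | hb
        · exact ⟨x - β, by omega, by rw [hb _ (by omega)]; congr 1; omega⟩
        · exact ⟨β + h - 1 - x, by omega, by rw [hb _ (by omega)]; congr 1; omega⟩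
      have := inj _ _ (by omega) (by omega) (k2.trans k2'.symm)
      omega
    · exact Γ.hB e e' ee α β a1 a2 c1 c2
  have hq' : ∀ k, k < h → Γ.c (w (b + k)) = Γ.c (w (t + b + k)) := fun k hk => by
    rw [hq (b + k) (by omega)]; congr 2; omega
  rcases ha with ha | ha <;> rcases hb with hb | hb
  · refine dif.1 (fun k hk => ?_)
    have := hq' k hk
    rwa [ha k hk, hb k hk, Γ.lo _ _ (by omega), Γ.lo _ _ (by omega)] at this
  · refine dif.2 (fun k hk => ?_)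
    have := hq' k hk
    rwa [ha k hk, hb k hk, Γ.lo _ _ (by omega), Γ.lo _ _ (by omega)] at this
  · refine dif.symm.2 (fun k hk => ?_)
    have := hq' k hk
    rw [ha k hk, hb k hk, Γ.lo _ _ (by omega), Γ.lo _ _ (by omega)] at this
    exact this.symm
  · refine dif.1 (fun k hk => ?_)
    have := hq' (h - 1 - k) (by omega)
    rwa [ha _ (by omega), hb _ (by omega), Γ.lo _ _ (by omega), Γ.lo _ _ (by omega),
      show α + h - 1 - (h - 1 - k) = α + k by omega, show β + h - 1 - (h - 1 - k) = β + k by omega] at this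

theorem core {w : ℕ → W} {t : ℕ} (t1 : 0 < t)
    (inj : ∀ i j, i < 2 * t → j < 2 * t → w i = w j → i = j)
    (adj : ∀ i, i + 1 < 2 * t → ∃ d j, j < 2 * N + 2 ∧ w i = Γ.pos d j ∧ w (i + 1) = Γ.pos d (j + 1)) :
    ¬ ∀ i, i < t → Γ.c (w i) = Γ.c (w (i + t)) := by
  by_cases a : t < 3 * h
  · exact Γ.short t1 a inj adj
  · exact Γ.long (by omega) inj adj

end Geo

lemma seq {D T : Type} [Nonempty T] (rk : D → ℕ) (hinj : Function.Injective rk)
    (Q : D → T → (D → T) → Prop) (ex : ∀ d X, ∃ x, Q d x X)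
    (loc : ∀ d x X X', (∀ d', rk d' < rk d → X d' = X' d') → Q d x X → Q d x X') (k : ℕ) :
    ∃ X : D → T, ∀ d, rk d < k → Q d (X d) X := by
  classical
  induction k with
  | zero => exact ⟨fun _ => Classical.arbitrary T, fun d hd => by omega⟩
  | succ k ih =>
    obtain ⟨X, hX⟩ := ih
    by_cases a : ∃ d0, rk d0 = k
    · obtain ⟨d0, h0⟩ := a
      obtain ⟨x, hx⟩ := ex d0 X
      refine ⟨Function.update X d0 x, fun d hd => ?_⟩
      have ag : ∀ d', rk d' < rk d → X d' = Function.update X d0 x d' := fun d' hd' => by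
        rw [Function.update_of_ne (by rintro rfl; omega)]
      by_cases e : d = d0
      · subst e
        rw [Function.update_self]
        exact loc _ _ _ _ ag hx
      · rw [Function.update_of_ne e]
        exact loc _ _ _ _ ag (hX d (by
          have : rk d ≠ rk d0 := fun z => e (hinj z)
          omega))
    · exact ⟨X, fun d hd => hX d (by
        have : rk d ≠ k := fun z => a ⟨d, z⟩
        omega)⟩

lemma params (n : ℕ) : ∃ h : ℕ, 15 ≤ h ∧
    (((n * ((6 * h + 20) * 2) : ℕ) : ℝ) + 2 * ((6 * h + 20 : ℕ) : ℝ)) * (4/7) ^ (h - 1) ≤ 1 / 100 := by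
  have t := tendsto_self_mul_const_pow_of_lt_one (r := (4/7 : ℝ)) (by norm_num) (by norm_num)
  have p : (0:ℝ) < 1 / (1600 * (n + 1)) := by positivity
  obtain ⟨k, k1, k2⟩ := ((t.eventually (gt_mem_nhds p)).and (Filter.eventually_ge_atTop 14)).exists
  refine ⟨k + 1, by omega, ?_⟩
  rw [Nat.add_sub_cancel]
  have k3 : (14:ℝ) ≤ k := by exact_mod_cast k2
  have q : (0:ℝ) < (4/7) ^ k := by positivity
  have n0 : (0:ℝ) < n + 1 := by positivity
  rw [lt_div_iff₀ (by positivity)] at k1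
  push_cast
  have : ((n:ℝ) + 1) * (4/7) ^ k * (12 * k + 52) ≤ ((n:ℝ) + 1) * (4/7) ^ k * (16 * k) :=
    mul_le_mul_of_nonneg_left (by linarith) (by positivity)
  nlinarith

theorem legs {D : Type} [Fintype D] (rev : D → D) (ty : D → Bool) (hty : ∀ d, ty d = true → ty (rev d) = false) :
    ∃ h, 15 ≤ h ∧ ∀ (cu cj : D → ℕ) (l : D → ℕ → Finset ℕ), (∀ d t, (l d t).card = 4) →
      ∃ X : D → ℕ → ℕ, (∀ d, LegA (6 * h + 20) (3 * h) h (cu d) (l d) (X d) ∧
        (ty d = true → JX (6 * h + 20) (3 * h) (cj d) (X d) (X (rev d))) ∧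
        (ty d = false → JY (6 * h + 20) (3 * h) (cj d) (X d))) ∧
        ∀ d d', d ≠ d' → ∀ α β, 1 ≤ α → α + h ≤ 6 * h + 20 + 1 → 1 ≤ β → β + h ≤ 6 * h + 20 + 1 →
          Dif h (X d) (X d') α β := by
  classical
  obtain ⟨h, h1, h2⟩ := params (Fintype.card D)
  refine ⟨h, h1, fun cu cj l hl => ?_⟩
  set N := 6 * h + 20 with hN
  let en := Fintype.equivFin D
  let rk : D → ℕ := fun d => (en d).val + if ty d = true then Fintype.card D else 0
  have hinj : Function.Injective rk := by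
    intro d d' e
    have a := (en d).2
    have b := (en d').2
    apply en.injective
    apply Fin.ext
    simp only [rk] at e
    split_ifs at e <;> omega
  have hrk : ∀ d, ty d = true → rk (rev d) < rk d := fun d hd => by
    have a := (en (rev d)).2
    simp only [rk]
    rw [if_pos hd, if_neg (by simp [hty d hd])]
    omega
  let et := Fintype.equivFin (D × Fin N × Bool)
  obtain ⟨X, hX⟩ := seq rk hinj (fun d x X => LegA N (3 * h) h (cu d) (l d) x ∧
      (ty d = true → JX N (3 * h) (cj d) x (X (rev d))) ∧ (ty d = false → JY N (3 * h) (cj d) x) ∧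
      ∀ d', rk d' < rk d → ∀ α β, 1 ≤ α → α + h ≤ N + 1 → 1 ≤ β → β + h ≤ N + 1 → Dif h x (X d') α β)
    (fun d X => by
      let tm0 : D × Fin N × Bool → ℕ → ℕ := fun y j =>
        if y.2.2 = true then X y.1 (y.2.1.val + j) else X y.1 (y.2.1.val + h - 1 - j)
      let P : Par := ⟨N, 3 * h, 3 * h, h, Fintype.card (D × Fin N × Bool), cu d, cj d, ty d,
        fun p j => if hp : p < Fintype.card (D × Fin N × Bool) then tm0 (et.symm ⟨p, hp⟩) j else 0,
        X (rev d)⟩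
      have hv : P.Valid := ⟨by show 10 ≤ 3 * h; omega, by show 3 * h + 3 * h + 20 ≤ N; omega, h1, by
        show ((Fintype.card (D × Fin N × Bool) : ℝ) + 2 * (N : ℝ)) * (4/7) ^ (h - 1) ≤ 1 / 100
        rw [Fintype.card_prod, Fintype.card_prod, Fintype.card_fin, Fintype.card_bool]
        exact h2⟩
      obtain ⟨x, x1, x2, x3, x4⟩ := Par.leg hv (l d) (fun t _ _ => hl d t)
      refine ⟨x, x1, x3, x4, fun d' _ α β a1 a2 b1 b2 => ?_⟩
      have key : ∀ y, ¬ ∀ j, j < h → x (α + j) = tm0 y j := fun y q =>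
        x2 (et y).val (et y).2 α a1 a2 (fun j hj => by
          show x (α + j) = if hp : (et y).val < Fintype.card (D × Fin N × Bool) then
            tm0 (et.symm ⟨(et y).val, hp⟩) j else 0
          rw [dif_pos (et y).2, Fin.eta, Equiv.symm_apply_apply]
          exact q j hj)
      exact ⟨key (d', ⟨β, by omega⟩, true), key (d', ⟨β, by omega⟩, false)⟩)
    (fun d x X X' ag ⟨q1, q2, q3, q4⟩ => ⟨q1, fun z => ag _ (hrk d z) ▸ q2 z, q3,
      fun d' hd' => ag _ hd' ▸ q4 d' hd'⟩)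
    (2 * Fintype.card D)
  have hX' := fun d => hX d (by
    have a := (en d).2
    simp only [rk]
    split_ifs <;> omega)
  refine ⟨X, fun d => ⟨(hX' d).1, (hX' d).2.1, (hX' d).2.2.1⟩, fun d d' ne α β a1 a2 b1 b2 => ?_⟩
  have : rk d ≠ rk d' := fun z => ne (hinj z)
  rcases Nat.lt_or_gt_of_ne this with o | o
  · exact ((hX' d').2.2.2 d o β α b1 b2 a1 a2).symm
  · exact (hX' d).2.2.2 d' o α β a1 a2 b1 b2

end Pool.Agent.H22.Sub
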