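import Mathlib
import Pool.Agent.H22.Sub6

set_option autoImplicit false

namespace Pool.Agent.H22.Sub

section
variable {V : Type} (G : SimpleGraph V) (M : ℕ) (ty : G.Dart → Bool)

abbrev WW := V ⊕ (G.Dart × Fin (M + 1))

def pos (d : G.Dart) (i : ℕ) : WW G M :=
  if i = 0 then Sum.inl d.fst else if M ≤ i then Sum.inl d.snd
  else if ty d = true then Sum.inr (d, ⟨min i M, Nat.lt_succ_of_le (min_le_right _ _)⟩)
  else Sum.inr (d.symm, ⟨M - i, Nat.lt_succ_of_le (Nat.sub_le _ _)⟩)

variable {G M ty}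

lemma pos_zero (d : G.Dart) : pos G M ty d 0 = Sum.inl d.fst := by unfold pos; rw [if_pos rfl]
lemma pos_M (hM : 0 < M) (d : G.Dart) : pos G M ty d M = Sum.inl d.snd := by
  unfold pos; rw [if_neg (by omega), if_pos le_rfl]
lemma pos_t {d : G.Dart} {i : ℕ} (a : 0 < i) (b : i < M) (c : ty d = true) :
    pos G M ty d i = Sum.inr (d, ⟨i, by omega⟩) := by
  unfold pos; rw [if_neg (by omega), if_neg (by omega), if_pos c]
  congr 3; omega
lemma pos_f {d : G.Dart} {i : ℕ} (a : 0 < i) (b : i < M) (c : ¬ ty d = true) :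
    pos G M ty d i = Sum.inr (d.symm, ⟨M - i, by omega⟩) := by
  unfold pos; rw [if_neg (by omega), if_neg (by omega), if_neg c]

lemma pos_symm (hM : 0 < M) (hty : ∀ d, ty d.symm = !ty d) (d : G.Dart) (i : ℕ) (hi : i ≤ M) :
    pos G M ty d.symm i = pos G M ty d (M - i) := by
  by_cases a : i = 0
  · subst a; rw [pos_zero, Nat.sub_zero, pos_M hM]; rfl
  by_cases b : i = M
  · subst b; rw [pos_M hM, Nat.sub_self, pos_zero]; rfl
  by_cases c : ty d = true
  · rw [pos_f (by omega) (by omega) (by rw [hty, c]; simp), pos_t (by omega) (by omega) c]; rfl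
  · rw [pos_t (by omega) (by omega) (by rw [hty]; simpa using c), pos_f (by omega) (by omega) c]
    congr 3; omega

lemma pos_inl (hM : 0 < M) {d : G.Dart} {i : ℕ} {v : V} (hi : i ≤ M) (e : pos G M ty d i = Sum.inl v) :
    (i = 0 ∧ v = d.fst) ∨ (i = M ∧ v = d.snd) := by
  by_cases a : i = 0
  · subst a; rw [pos_zero] at e; exact Or.inl ⟨rfl, (Sum.inl.inj e).symm⟩
  by_cases b : i = M
  · subst b; rw [pos_M hM] at e; exact Or.inr ⟨rfl, (Sum.inl.inj e).symm⟩
  by_cases c : ty d = true
  · rw [pos_t (by omega) (by omega) c] at e; cases e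
  · rw [pos_f (by omega) (by omega) c] at e; cases e

lemma pos_eq (hM : 0 < M) (d : G.Dart) (i : ℕ) (d' : G.Dart) (i' : ℕ) (a : 0 < i) (b : i < M)
    (hi : i' ≤ M) (e : pos G M ty d i = pos G M ty d' i') :
    (d' = d ∧ i' = i) ∨ (d' = d.symm ∧ i' = M - i) := by
  have a' : i' ≠ 0 := by
    rintro rfl
    rw [pos_zero] at e
    rcases pos_inl hM b.le e with r | r <;> omega
  have b' : i' ≠ M := by
    rintro rfl
    rw [pos_M hM] at e
    rcases pos_inl hM b.le e with r | r <;> omega
  by_cases c : ty d = true <;> by_cases c' : ty d' = true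
  · rw [pos_t a b c, pos_t (by omega) (by omega) c'] at e
    simp only [Sum.inr.injEq, Prod.mk.injEq, Fin.mk.injEq] at e
    exact Or.inl ⟨e.1.symm, e.2.symm⟩
  · rw [pos_t a b c, pos_f (by omega) (by omega) c'] at e
    simp only [Sum.inr.injEq, Prod.mk.injEq, Fin.mk.injEq] at e
    exact Or.inr ⟨by rw [e.1]; rfl, by omega⟩
  · rw [pos_f a b c, pos_t (by omega) (by omega) c'] at e
    simp only [Sum.inr.injEq, Prod.mk.injEq, Fin.mk.injEq] at e
    exact Or.inr ⟨e.1.symm, e.2.symm⟩
  · rw [pos_f a b c, pos_f (by omega) (by omega) c'] at e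
    simp only [Sum.inr.injEq, Prod.mk.injEq, Fin.mk.injEq] at e
    exact Or.inl ⟨(SimpleGraph.Dart.symm_involutive.injective e.1).symm, by omega⟩

lemma pos_inj (hM : 0 < M) (d : G.Dart) (i i' : ℕ) (hi : i ≤ M) (hi' : i' ≤ M)
    (e : pos G M ty d i = pos G M ty d i') : i = i' := by
  have ne : d.fst ≠ d.snd := d.adj.ne
  by_cases a : i = 0
  · subst a; rw [pos_zero] at e
    rcases pos_inl hM hi' e.symm with r | r
    · exact r.1.symm
    · exact absurd r.2 ne
  by_cases b : i = M
  · subst b; rw [pos_M hM] at e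
    rcases pos_inl hM hi' e.symm with r | r
    · exact absurd r.2.symm ne
    · exact r.1.symm
  rcases pos_eq hM d i d i' (by omega) (by omega) hi' e with r | r
  · exact r.2.symm
  · exact absurd r.1.symm d.symm_ne

def HH (hM : 0 < M) (hty : ∀ d, ty d.symm = !ty d) : SimpleGraph (WW G M) where
  Adj x y := ∃ d j, j < M ∧ x = pos G M ty d j ∧ y = pos G M ty d (j + 1)
  symm := ⟨by
    rintro x y ⟨d, j, hj, rfl, rfl⟩
    refine ⟨d.symm, M - j - 1, by omega, ?_, ?_⟩
    · rw [pos_symm hM hty _ _ (by omega)]; congr 1; omega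
    · rw [pos_symm hM hty _ _ (by omega)]; congr 1; omega⟩
  loopless := ⟨by
    rintro x ⟨d, j, hj, e1, e2⟩
    have := pos_inj hM d j (j + 1) (by omega) (by omega) (e1.symm.trans e2)
    omega⟩

lemma walk (hM : 0 < M) (hty : ∀ d, ty d.symm = !ty d) (d : G.Dart) (k : ℕ) (hk : k ≤ M) :
    ∃ p : (HH hM hty).Walk (pos G M ty d 0) (pos G M ty d k),
      p.support = (List.range (k + 1)).map (pos G M ty d) := by
  induction k with
  | zero => exact ⟨SimpleGraph.Walk.nil, by simp⟩
  | succ k ih =>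
    obtain ⟨p, hp⟩ := ih (by omega)
    refine ⟨p.concat ⟨d, k, by omega, rfl, rfl⟩, ?_⟩
    rw [SimpleGraph.Walk.support_concat, hp, List.range_succ (n := k + 1)]
    simp

lemma walk2 (hM : 0 < M) (hty : ∀ d, ty d.symm = !ty d) (d : G.Dart) :
    ∃ p : (HH hM hty).Walk (Sum.inl d.fst) (Sum.inl d.snd), p.IsPath ∧
      ∀ w, w ∈ p.support → ∃ i, i ≤ M ∧ pos G M ty d i = w := by
  obtain ⟨p, hp⟩ := walk hM hty d M le_rfl
  refine ⟨p.copy (pos_zero d) (pos_M hM d), ?_, fun w hw => ?_⟩
  · rw [SimpleGraph.Walk.isPath_def, SimpleGraph.Walk.support_copy, hp]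
    refine List.Nodup.map_on (fun i hi j hj e => ?_) List.nodup_range
    exact pos_inj hM d i j (by have := List.mem_range.1 hi; omega) (by have := List.mem_range.1 hj; omega) e
  · rw [SimpleGraph.Walk.support_copy, hp] at hw
    obtain ⟨i, hi, e⟩ := List.mem_map.1 hw
    exact ⟨i, by have := List.mem_range.1 hi; omega, e⟩

end

lemma Ew_symm (N cj : ℕ) (X Y : ℕ → ℕ) (i : ℕ) (hi : i ≤ 2 * N + 2) :
    Ew N cj Y X (2 * N + 2 - i) = Ew N cj X Y i := by
  unfold Ew
  split_ifs <;> first | rfl | omega | (congr 1; omega)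

theorem colour {V : Type} [Fintype V] (G : SimpleGraph V) (ty : G.Dart → Bool)
    (hty : ∀ d, ty d.symm = !ty d) :
    ∃ M, ∃ hM : 0 < M, ∀ L : WW G M → Finset ℕ, (∀ w, 4 ≤ (L w).card) →
      ∃ c : WW G M → ℕ, (∀ w, c w ∈ L w) ∧
        ∀ (a b : WW G M) (p : (HH hM hty).Walk a b) (t : ℕ), p.IsPath → 0 < t →
          p.length = 2 * t - 1 → ∃ i < t, c (p.getVert i) ≠ c (p.getVert (i + t)) := by
  classical
  obtain ⟨h, h1, hl⟩ := legs (D := G.Dart) (fun d => d.symm) ty (fun d z => by rw [hty, z]; rfl)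
  set N := 6 * h + 20 with hN
  have hM : 0 < 2 * N + 2 := by omega
  refine ⟨2 * N + 2, hM, fun L hL => ?_⟩
  choose l4 l4s l4c using fun w => Finset.exists_subset_card_eq (hL w)
  choose pk hpk using fun w => Finset.card_pos.1 (lt_of_lt_of_le (by norm_num) (hL w))
  let ps := pos G (2 * N + 2) ty
  have p1 : ∀ d i, i ≤ 2 * N + 2 → ps d.symm i = ps d (2 * N + 2 - i) := pos_symm hM hty
  let cj : G.Dart → ℕ := fun d => pk (ps d (N + 1))
  have cjs : ∀ d, cj d.symm = cj d := fun d => by
    simp only [cj]; rw [p1 _ _ (by omega)]; congr 2; omega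
  obtain ⟨X, hX, hB⟩ := hl (fun d => pk (Sum.inl d.fst)) cj (fun d t => l4 (ps d t)) (fun d t => l4c _)
  let c : WW G (2 * N + 2) → ℕ := fun w => match w with
    | Sum.inl v => pk (Sum.inl v)
    | Sum.inr y => if ty y.1 = true ∧ 0 < y.2.val ∧ y.2.val < 2 * N + 2 then
        Ew N (cj y.1) (X y.1) (X y.1.symm) y.2.val else pk (Sum.inr y)
  have hc : ∀ d i, i ≤ 2 * N + 2 → c (ps d i) = Ew N (cj d) (X d) (X d.symm) i := by
    intro d i hi
    by_cases a : i = 0
    · subst a
      simp only [ps]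
      rw [pos_zero]
      unfold Ew
      rw [if_pos (Nat.zero_le _), (hX d).1.x0]
    by_cases b : i = 2 * N + 2
    · subst b
      simp only [ps]
      rw [pos_M hM]
      unfold Ew
      rw [if_neg (by omega), if_neg (by omega), Nat.sub_self, (hX d.symm).1.x0]
      rfl
    by_cases z : ty d = true
    · simp only [ps]
      rw [pos_t (by omega) (by omega) z]
      exact if_pos ⟨z, by show 0 < i; omega, by show i < 2 * N + 2; omega⟩
    · simp only [ps]
      rw [pos_f (by omega) (by omega) z, ← Ew_symm _ _ _ _ _ hi, ← cjs]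
      exact if_pos ⟨by show ty d.symm = true; rw [hty]; simpa using z,
        by show 0 < 2 * N + 2 - i; omega, by show 2 * N + 2 - i < 2 * N + 2; omega⟩
  let Γ : Geo G.Dart (WW G (2 * N + 2)) N h :=
    { pos := ps, rev := fun d => d.symm, c := c, X := X, cj := cj, cu := fun d => pk (Sum.inl d.fst),
      l := fun d t => l4 (ps d t), hN := le_rfl, hh := by omega, rr := fun d => d.symm_symm,
      p1 := p1, p3 := pos_eq hM, hc := hc, hA := fun d => (hX d).1,
      hJ := fun d => by
        by_cases z : ty d = true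
        · refine Or.inl ⟨(hX d).2.1 z, ?_⟩
          rw [← cjs]
          exact (hX d.symm).2.2 (by rw [hty, z]; rfl)
        · refine Or.inr ⟨(hX d.symm).2.1 (by rw [hty]; simpa using z), ?_⟩
          rw [cjs]
          exact (hX d).2.2 (by simpa using z)
      hB := hB }
  refine ⟨c, fun w => ?_, fun a b p t hp t1 hlen => ?_⟩
  · rcases w with v | ⟨d, i, hi⟩
    · exact hpk _
    by_cases z : ty d = true ∧ 0 < i ∧ i < 2 * N + 2
    · have e : ps d i = Sum.inr (d, ⟨i, hi⟩) := pos_t z.2.1 z.2.2 z.1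
      rw [← e, hc d i (by omega)]
      unfold Ew
      split_ifs with r1 r2
      · exact l4s _ ((hX d).1.mem i z.2.1 r1)
      · subst r2; exact hpk _
      · have := l4s _ ((hX d.symm).1.mem (2 * N + 2 - i) (by omega) (by omega))
        rwa [p1 _ _ (by omega), show 2 * N + 2 - (2 * N + 2 - i) = i by omega] at this
    · have : c (Sum.inr (d, ⟨i, hi⟩)) = pk (Sum.inr (d, ⟨i, hi⟩)) := if_neg z
      rw [this]; exact hpk _
  · by_contra hcon
    refine Γ.core (w := p.getVert) t1 (fun i j hi hj e => ?_) (fun i hi => ?_) (fun i hi => ?_)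
    · exact hp.getVert_injOn (by show i ≤ p.length; omega) (by show j ≤ p.length; omega) e
    · exact p.adj_getVert_succ (by omega)
    · by_contra ne
      exact hcon ⟨i, hi, ne⟩

theorem main (V : Type) [Fintype V] (G : SimpleGraph V) :
      ∃ (W : Type) (_ : Fintype W) (H : SimpleGraph W) (f : V → W)
        (P : ∀ u v : V, G.Adj u v → H.Walk (f u) (f v)),
        Function.Injective f ∧
        (∀ (u v : V) (h : G.Adj u v), (P u v h).IsPath) ∧
        (∀ (u v : V) (h : G.Adj u v) (x : V),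
            f x ∈ (P u v h).support → x = u ∨ x = v) ∧
        (∀ (u v : V) (h : G.Adj u v) (u' v' : V) (h' : G.Adj u' v') (w : W),
            w ∈ (P u v h).support → w ∈ (P u' v' h').support →
              (∃ x, f x = w) ∨ (u = u' ∧ v = v') ∨ (u = v' ∧ v = u')) ∧
        (∀ L : W → Finset ℕ, (∀ w, 4 ≤ (L w).card) →
          ∃ c : W → ℕ, (∀ w, c w ∈ L w) ∧
            ∀ (a b : W) (p : H.Walk a b) (t : ℕ), p.IsPath → 0 < t →
              p.length = 2 * t - 1 →
                ∃ i < t, c (p.getVert i) ≠ c (p.getVert (i + t))) := by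
  classical
  let r := Fintype.equivFin V
  let ty : G.Dart → Bool := fun d => decide (r d.fst < r d.snd)
  have hty : ∀ d, ty d.symm = !ty d := fun d => by
    have ne : r d.fst ≠ r d.snd := fun z => d.adj.ne (r.injective z)
    show decide (r d.snd < r d.fst) = !decide (r d.fst < r d.snd)
    rcases lt_or_gt_of_ne ne with o | o
    · simp [o, o.le]
    · simp [o, o.le]
  obtain ⟨M, hM, hcol⟩ := colour G ty hty
  choose p hp1 hp2 using walk2 hM hty
  refine ⟨WW G M, inferInstance, HH hM hty, Sum.inl, fun u v h => p ⟨(u, v), h⟩, Sum.inl_injective,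
    fun u v h => hp1 _, fun u v h x hx => ?_, fun u v h u' v' h' w h1 h2 => ?_, hcol⟩
  · obtain ⟨i, hi, e⟩ := hp2 _ _ hx
    rcases pos_inl hM hi e with o | o
    · exact Or.inl o.2
    · exact Or.inr o.2
  · obtain ⟨i, hi, e⟩ := hp2 _ _ h1
    obtain ⟨i', hi', e'⟩ := hp2 _ _ h2
    by_cases a : i = 0
    · subst a; rw [pos_zero] at e; exact Or.inl ⟨_, e⟩
    by_cases b : i = M
    · subst b; rw [pos_M hM] at e; exact Or.inl ⟨_, e⟩
    rcases pos_eq hM _ i _ i' (by omega) (by omega) hi' (e.trans e'.symm) with o | o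
    · have := congrArg SimpleGraph.Dart.toProd o.1
      simp only [Prod.mk.injEq] at this
      exact Or.inr (Or.inl ⟨this.1.symm, this.2.symm⟩)
    · have := congrArg SimpleGraph.Dart.toProd o.1
      simp only [SimpleGraph.Dart.symm_toProd, Prod.swap, Prod.mk.injEq] at this
      exact Or.inr (Or.inr ⟨this.2.symm, this.1.symm⟩)

end Pool.Agent.H22.Sub
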