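import Mathlib
import Pool.Agent.H22.EL
import Pool.Agent.H22.Cyc

set_option autoImplicit false
set_option maxRecDepth 100000
set_option synthInstance.maxSize 100000

namespace Pool.Agent.H22.Tietze
open Pool.Agent.H22.EL Pool.Agent.H22.Cyc

def s (e : Fin 18) : Fin 12 := ([0, 1, 2, 3, 4, 5, 6, 7, 8, 9, 11, 1, 2, 3, 4, 0, 0, 10] : List (Fin 12)).getD e 0
def t (e : Fin 18) : Fin 12 := ([1, 2, 3, 4, 10, 7, 8, 9, 5, 6, 5, 6, 7, 8, 9, 10, 11, 11] : List (Fin 12)).getD e 0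
def inc (v : Fin 12) : List (Fin 18) := ([[0, 15, 16], [0, 1, 11], [1, 2, 12], [2, 3, 13], [3, 4, 14], [5, 8, 10], [6, 9, 11], [5, 7, 12], [6, 8, 13], [7, 9, 14], [4, 15, 17], [10, 16, 17]] : List (List (Fin 18))).getD v []
def adj (v : ℕ) : ℕ := ([3074, 69, 138, 276, 1544, 2432, 770, 548, 104, 208, 2065, 1057] : List ℕ).getD v 0
def wt (e : Fin 18) : ℕ := ([1, 1, 1, 1, 1, 1, 1, 1, 1, 1, 2, 2, 2, 2, 2, 2, 1, 1] : List ℕ).getD e 0

lemma loopless : ∀ e, s e ≠ t e := by decide +kernel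
lemma inj : Function.Injective (ends s t) := ends_inj s t (by decide +kernel)
lemma inc_spec : ∀ v e, (s e = v ∨ t e = v) ↔ e ∈ inc v := by decide +kernel
lemma inc_nodup : ∀ v, (inc v).Nodup := by decide +kernel
lemma wt12 : ∀ e, wt e = 1 ∨ wt e = 2 := by decide +kernel

lemma conn (S : Finset (Fin 12)) (hS : S.card < 3) : ((gr s t).induce ((↑S : Set (Fin 12))ᶜ)).Connected :=
  three_connected (by norm_num) _ adj (hadj_of _ adj (by decide +kernel) (by decide +kernel)) 8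
    (by decide +kernel) S hS

def cover : List (Fin 12 × List (Fin 12)) :=
  [(0, [1, 2, 3, 4, 10]), (0, [1, 6, 8, 5, 11]), (2, [3, 8, 6, 9, 7]), (4, [10, 11, 5, 7, 9])]
lemma cover_ok : CoverOK s t cover := by decide +kernel
lemma cover_len : (cover.map (fun c => c.2.length + 1)).sum = 24 := by decide +kernel

def tour : List (Fin 12) := [11, 5, 11, 10, 4, 9, 7, 2, 3, 8, 5, 7, 9, 6, 8, 6, 1, 2, 3, 4, 10, 0, 1]
lemma tour_chain : List.IsChain (gr s t).Adj (0 :: (tour ++ [0])) := by decide +kernel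
lemma tour_cov : ∀ e, ends s t e ∈ pairs 0 0 tour := by decide +kernel

lemma sum18 (d : Fin 18 → ℕ) : ∑ e, d e = d 0 + d 1 + d 2 + d 3 + d 4 + d 5 + d 6 + d 7 + d 8 + d 9 + d 10 +
    d 11 + d 12 + d 13 + d 14 + d 15 + d 16 + d 17 := by
  rw [Fin.sum_univ_def, show List.finRange 18 = [0, 1, 2, 3, 4, 5, 6, 7, 8, 9, 10, 11, 12, 13, 14, 15, 16, 17] by
    decide +kernel]
  simp only [List.map_cons, List.map_nil, List.sum_cons, List.sum_nil, add_zero, add_assoc]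

lemma four (a b c : ℕ) (ha : 1 ≤ a) (hb : 1 ≤ b) (hc : 1 ≤ c) (h : (a + (b + (c + 0))) % 2 = 0) :
    4 ≤ a + b + c := by omega

lemma lower (d : Fin 18 → ℕ) (h1 : ∀ e, 1 ≤ d e) (hp : ∀ v, ((inc v).map d).sum % 2 = 0) : 24 ≤ ∑ e, d e := by
  have a0 := four (d 0) (d 15) (d 16) (h1 _) (h1 _) (h1 _) (hp 0)
  have a1 := four (d 0) (d 1) (d 11) (h1 _) (h1 _) (h1 _) (hp 1)
  have a2 := four (d 1) (d 2) (d 12) (h1 _) (h1 _) (h1 _) (hp 2)
  have a3 := four (d 2) (d 3) (d 13) (h1 _) (h1 _) (h1 _) (hp 3)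
  have a4 := four (d 3) (d 4) (d 14) (h1 _) (h1 _) (h1 _) (hp 4)
  have a5 := four (d 5) (d 8) (d 10) (h1 _) (h1 _) (h1 _) (hp 5)
  have a6 := four (d 6) (d 9) (d 11) (h1 _) (h1 _) (h1 _) (hp 6)
  have a7 := four (d 5) (d 7) (d 12) (h1 _) (h1 _) (h1 _) (hp 7)
  have a8 := four (d 6) (d 8) (d 13) (h1 _) (h1 _) (h1 _) (hp 8)
  have a9 := four (d 7) (d 9) (d 14) (h1 _) (h1 _) (h1 _) (hp 9)
  have a10 := four (d 4) (d 15) (d 17) (h1 _) (h1 _) (h1 _) (hp 10)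
  have a11 := four (d 10) (d 16) (d 17) (h1 _) (h1 _) (h1 _) (hp 11)
  rw [sum18]
  clear hp h1
  omega

lemma tri (a b c x y z : ℕ) (h1 : (a + (x + (y + 0))) % 2 = 0) (h2 : (b + (x + (z + 0))) % 2 = 0)
    (h3 : (c + (y + (z + 0))) % 2 = 0) : (a + (b + (c + 0))) % 2 = 0 := by omega

lemma nocover {k : ℕ} (X : Fin k → Fin 18 → ℕ) (h1 : ∀ j e, X j e ≤ 1)
    (hp : ∀ j v, ((inc v).map (X j)).sum % 2 = 0) (hd : ∀ e, ∑ j, X j e = wt e) : False :=
  petersen (fun j => X j 0) (fun j => X j 1) (fun j => X j 2) (fun j => X j 3) (fun j => X j 4)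
    (fun j => X j 5) (fun j => X j 6) (fun j => X j 7) (fun j => X j 8) (fun j => X j 9) (fun j => X j 10)
    (fun j => X j 11) (fun j => X j 12) (fun j => X j 13) (fun j => X j 14)
    (fun j => h1 j 0) (fun j => h1 j 1) (fun j => h1 j 2) (fun j => h1 j 3) (fun j => h1 j 4) (fun j => h1 j 5)
    (fun j => h1 j 6) (fun j => h1 j 7) (fun j => h1 j 8) (fun j => h1 j 9) (fun j => h1 j 10) (fun j => h1 j 11)
    (fun j => h1 j 12) (fun j => h1 j 13) (fun j => h1 j 14)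
    (fun j => ⟨tri _ _ _ _ _ _ (hp j 0) (hp j 10) (hp j 11), hp j 1, hp j 2, hp j 3, hp j 4, hp j 5, hp j 6,
      hp j 7, hp j 8, hp j 9⟩)
    (hd 0) (hd 1) (hd 2) (hd 3) (hd 4) (hd 5) (hd 6) (hd 7) (hd 8) (hd 9) (hd 10) (hd 11) (hd 12) (hd 13) (hd 14)

lemma parB : ∀ b0 b1 b2 b3 b4 b5 b6 b7 b8 b9 b10 b11 : Bool,
    ((if b0 != b1 then 1 else 0) + (if b1 != b2 then 1 else 0) + (if b2 != b3 then 1 else 0) +
    (if b3 != b4 then 1 else 0) + (if b4 != b10 then 1 else 0) + (if b5 != b7 then 1 else 0) +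
    (if b6 != b8 then 1 else 0) + (if b7 != b9 then 1 else 0) + (if b8 != b5 then 1 else 0) +
    (if b9 != b6 then 1 else 0) + (if b11 != b5 then 2 else 0) + (if b1 != b6 then 2 else 0) +
    (if b2 != b7 then 2 else 0) + (if b3 != b8 then 2 else 0) + (if b4 != b9 then 2 else 0) +
    (if b0 != b10 then 2 else 0) + (if b0 != b11 then 1 else 0) + (if b10 != b11 then 1 else 0)) % 2 = 0 := by
  decide +kernel

lemma cutpar (b : Fin 12 → Bool) : (∑ e, if b (s e) != b (t e) then wt e else 0) % 2 = 0 := by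
  rw [sum18]
  exact parB (b 0) (b 1) (b 2) (b 3) (b 4) (b 5) (b 6) (b 7) (b 8) (b 9) (b 10) (b 11)

def w (x : Sym2 (Fin 12)) : ℕ := if ∃ e, ends s t e = x ∧ wt e = 2 then 2 else 1

lemma w_ends (e : Fin 18) : w (ends s t e) = wt e := by
  unfold w
  split_ifs with h
  · obtain ⟨e', h1, h2⟩ := h
    rw [← inj h1, h2]
  · rcases wt12 e with h' | h'
    · exact h'.symm
    · exact absurd ⟨e, rfl, h'⟩ h

lemma cut_sum (S : Set (Fin 12)) (D : Finset (Sym2 (Fin 12)))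
    (hD : ∀ x, x ∈ D ↔ x ∈ (gr s t).edgeSet ∧ (∃ a ∈ x, a ∈ S) ∧ (∃ a ∈ x, a ∉ S)) :
    Even (∑ x ∈ D, w x) := by
  classical
  have h := cutpar (fun v => decide (v ∈ S))
  rw [← Finset.sum_filter] at h
  have : D = (Finset.univ.filter (fun e => (decide (s e ∈ S) != decide (t e ∈ S)) = true)).image (ends s t) := by
    ext x
    rw [hD, mem_edgeSet_gr s t loopless]
    simp only [Finset.mem_image, Finset.mem_filter, Finset.mem_univ, true_and]
    constructor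
    · rintro ⟨⟨e, rfl⟩, ⟨a, ha, ha'⟩, ⟨b, hb, hb'⟩⟩
      refine ⟨e, ?_, rfl⟩
      simp only [ends, Sym2.mem_iff] at ha hb
      rcases ha with rfl | rfl <;> rcases hb with rfl | rfl <;> simp_all
    · rintro ⟨e, he, rfl⟩
      refine ⟨⟨e, rfl⟩, ?_⟩
      simp only [ends, Sym2.mem_iff]
      by_cases h1 : s e ∈ S <;> by_cases h2 : t e ∈ S <;> simp_all
  rw [this, Finset.sum_image (fun a _ b _ hab => inj hab)]
  simp only [w_ends]
  exact Nat.even_iff.2 h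

lemma walk_lower (u : Fin 12) (p : (gr s t).Walk u u) (h : ∀ e ∈ (gr s t).edgeSet, e ∈ p.edges) :
    24 ≤ p.length := by
  rw [length_sum s t loopless inj]
  apply lower
  · intro e
    exact List.count_pos_iff.2 (h _ ((mem_edgeSet_gr s t loopless _).2 ⟨e, rfl⟩))
  · intro v
    rw [← sum_inc (fun e => s e = v ∨ t e = v) (inc v) (inc_nodup v) (inc_spec v)]
    exact closed_parity_sum s t loopless inj p v

lemma walk_exists : ∃ (u : Fin 12) (p : (gr s t).Walk u u), (∀ e ∈ (gr s t).edgeSet, e ∈ p.edges) ∧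
    p.length = 24 := by
  refine ⟨0, mkWalk _ 0 0 tour tour_chain, ?_, ?_⟩
  · intro x hx
    obtain ⟨e, rfl⟩ := (mem_edgeSet_gr s t loopless x).1 hx
    rw [mkWalk_edges]; exact tour_cov e
  · rw [mkWalk_length]; rfl

lemma fam_lower (F : List (Σ u : Fin 12, (gr s t).Walk u u)) (hc : ∀ c ∈ F, c.2.IsCycle)
    (hcov : ∀ e ∈ (gr s t).edgeSet, ∃ c ∈ F, e ∈ c.2.edges) : 24 ≤ (F.map (fun c => c.2.length)).sum := by
  obtain ⟨X, x1, x2, x3, x4⟩ := matrix_of s t loopless inj inc inc_spec inc_nodup F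
    (fun c hc' => (hc c hc').isTrail.edges_nodup) (fun c x => decide (x ∈ c.2.edges)) (fun c x => by simp)
  rw [← x4]
  apply lower
  · intro e
    rw [x3]
    obtain ⟨c, hc1, hc2⟩ := hcov _ ((mem_edgeSet_gr s t loopless _).2 ⟨e, rfl⟩)
    exact List.countP_pos_iff.2 ⟨c, hc1, by simpa using hc2⟩
  · intro v
    exact sum_par X (inc v) (fun j => x2 j v)

lemma no_wcover (F : List (Σ u : Fin 12, (gr s t).Walk u u)) (hc : ∀ c ∈ F, c.2.IsCycle)
    (P : ∀ (_ : Σ u : Fin 12, (gr s t).Walk u u), Sym2 (Fin 12) → Bool)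
    (hP : ∀ c x, P c x = true ↔ x ∈ c.2.edges)
    (h : ∀ e ∈ (gr s t).edgeSet, F.countP (fun c => P c e) = w e) : False := by
  obtain ⟨X, x1, x2, x3, _⟩ := matrix_of s t loopless inj inc inc_spec inc_nodup F
    (fun c hc' => (hc c hc').isTrail.edges_nodup) P hP
  refine nocover X x1 x2 (fun e => ?_)
  rw [x3, h _ ((mem_edgeSet_gr s t loopless _).2 ⟨e, rfl⟩), w_ends]

end Pool.Agent.H22.Tietze
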