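import Mathlib

set_option autoImplicit false
set_option maxRecDepth 100000
set_option synthInstance.maxSize 100000

namespace Pool.Agent.H22.TruncPet

def s (e : Fin 45) : Fin 30 := ([0, 4, 7, 10, 13, 15, 18, 22, 25, 28, 2, 5, 8, 11, 14, 1, 2, 0, 4, 5, 3, 7, 8, 6, 10, 11, 9, 13, 14, 12, 16, 17, 15, 19, 20, 18, 22, 23, 21, 25, 26, 24, 28, 29, 27] : List (Fin 30)).getD e 0
def t (e : Fin 45) : Fin 30 := ([3, 6, 9, 12, 1, 21, 24, 27, 16, 19, 17, 20, 23, 26, 29, 2, 0, 1, 5, 3, 4, 8, 6, 7, 11, 9, 10, 14, 12, 13, 17, 15, 16, 20, 18, 19, 23, 21, 22, 26, 24, 25, 29, 27, 28] : List (Fin 30)).getD e 0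
def i1 (v : Fin 30) : Fin 45 := ([0, 4, 10, 0, 1, 11, 1, 2, 12, 2, 3, 13, 3, 4, 14, 5, 8, 10, 6, 9, 11, 5, 7, 12, 6, 8, 13, 7, 9, 14] : List (Fin 45)).getD v 0
def i2 (v : Fin 30) : Fin 45 := ([16, 15, 15, 19, 18, 18, 22, 21, 21, 25, 24, 24, 28, 27, 27, 31, 30, 30, 34, 33, 33, 37, 36, 36, 40, 39, 39, 43, 42, 42] : List (Fin 45)).getD v 0
def i3 (v : Fin 30) : Fin 45 := ([17, 17, 16, 20, 20, 19, 23, 23, 22, 26, 26, 25, 29, 29, 28, 32, 32, 31, 35, 35, 34, 38, 38, 37, 41, 41, 40, 44, 44, 43] : List (Fin 45)).getD v 0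
def fl (e : Fin 45) : Fin 3 → ZMod 2 := ([![1,0,0], ![1,1,0], ![1,1,1], ![1,1,0], ![1,1,1], ![1,0,0], ![1,1,0], ![1,0,1], ![1,1,1], ![1,0,0], ![0,1,1], ![0,1,0], ![0,0,1], ![0,0,1], ![0,0,1], ![1,0,0], ![1,1,1], ![0,1,1], ![1,0,0], ![1,1,0], ![0,1,0], ![1,1,0], ![1,1,1], ![0,0,1], ![1,1,1], ![1,1,0], ![0,0,1], ![1,1,0], ![1,1,1], ![0,0,1], ![1,0,0], ![1,1,1], ![0,1,1], ![1,1,0], ![1,0,0], ![0,1,0], ![1,0,0], ![1,0,1], ![0,0,1], ![1,1,0], ![1,1,1], ![0,0,1], ![1,0,1], ![1,0,0], ![0,0,1]] : List (Fin 3 → ZMod 2)).getD e 0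

lemma inc_spec : ∀ (v : Fin 30) (e : Fin 45), (s e = v ∨ t e = v) ↔ (e = i1 v ∨ e = i2 v ∨ e = i3 v) := by
  decide +kernel

lemma inc_ne : ∀ v : Fin 30, i1 v ≠ i2 v ∧ i1 v ≠ i3 v ∧ i2 v ≠ i3 v := by decide +kernel

def I (b : Bool) : ℕ := if b then 1 else 0

lemma card_eq (C : Finset (Fin 45)) (v : Fin 30) :
    (C.filter (fun e : Fin 45 => s e = v ∨ t e = v)).card =
      I (decide (i1 v ∈ C)) + I (decide (i2 v ∈ C)) + I (decide (i3 v ∈ C)) := by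
  obtain ⟨h1, h2, h3⟩ := inc_ne v
  have : C.filter (fun e : Fin 45 => s e = v ∨ t e = v) =
      ({i1 v, i2 v, i3 v} : Finset (Fin 45)).filter (fun e => e ∈ C) := by
    ext e; simp only [Finset.mem_filter, inc_spec, Finset.mem_insert, Finset.mem_singleton]; tauto
  rw [this, Finset.card_filter, Finset.sum_insert (by simp [h1, h2]), Finset.sum_insert (by simp [h3]),
    Finset.sum_singleton]
  simp [I, add_assoc]

def ev (a b c : Bool) : Bool := !(xor a (xor b c))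

lemma tri1 : ∀ a b c x y z : Bool, I a + I y + I z = 2 → I b + I x + I z = 2 → I c + I x + I y = 2 →
    ev a b c = true := by decide
lemma tri2 : ∀ a b c x y z : Bool, Even (I a + I y + I z) → Even (I b + I x + I z) → Even (I c + I x + I y) →
    ev a b c = true := by decide

lemma core : ∀ b0 c0 : Bool, (b0 || c0) = true → ∀ b4 c4 : Bool, (b4 || c4) = true → ∀ b10 c10 : Bool, (b10 || c10) = true → ev b0 b4 b10 = true → ev c0 c4 c10 = true → ∀ b1 c1 : Bool, (b1 || c1) = true → ∀ b11 c11 : Bool, (b11 || c11) = true → ev b0 b1 b11 = true → ev c0 c1 c11 = true → ∀ b2 c2 : Bool, (b2 || c2) = true → ∀ b12 c12 : Bool, (b12 || c12) = true → ev b1 b2 b12 = true → ev c1 c2 c12 = true → ∀ b3 c3 : Bool, (b3 || c3) = true → ∀ b13 c13 : Bool, (b13 || c13) = true → ev b2 b3 b13 = true → ev c2 c3 c13 = true → ∀ b14 c14 : Bool, (b14 || c14) = true → ev b3 b4 b14 = true → ev c3 c4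 c14 = true → ∀ b5 c5 : Bool, (b5 || c5) = true → ∀ b8 c8 : Bool, (b8 || c8) = true → ev b5 b8 b10 = true → ev c5 c8 c10 = true → ∀ b7 c7 : Bool, (b7 || c7) = true → ev b5 b7 b12 = true → ev c5 c7 c12 = true → ∀ b9 c9 : Bool, (b9 || c9) = true → ev b7 b9 b14 = true → ev c7 c9 c14 = true → ∀ b6 c6 : Bool, (b6 || c6) = true → ev b6 b9 b11 = true → ev c6 c9 c11 = true → ev b6 b8 b13 = true → ev c6 c8 c13 = true → False := by
  decide +kernel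

def C0 : Finset (Fin 45) := Finset.univ.filter (fun e => 15 ≤ e.val)

lemma main (C1 C2 : Finset (Fin 45))
    (h1 : ∀ v : Fin 30, (C1.filter (fun e : Fin 45 => s e = v ∨ t e = v)).card = 2)
    (h2 : ∀ v : Fin 30, Even (C2.filter (fun e : Fin 45 => s e = v ∨ t e = v)).card)
    (h3 : C0 ∪ C1 ∪ C2 = Finset.univ) : False := by
  simp only [card_eq] at h1 h2
  have hc : ∀ e : Fin 45, e.val < 15 → (decide (e ∈ C1) || decide (e ∈ C2)) = true := by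
    intro e he
    have : e ∈ C0 ∪ C1 ∪ C2 := h3 ▸ Finset.mem_univ e
    simp only [C0, Finset.mem_union, Finset.mem_filter, Finset.mem_univ, true_and] at this
    rcases this with (h | h) | h
    · omega
    · simp [h]
    · simp [h]
  exact core (decide ((0 : Fin 45) ∈ C1)) (decide ((0 : Fin 45) ∈ C2)) (hc 0 (by decide))
    (decide ((4 : Fin 45) ∈ C1)) (decide ((4 : Fin 45) ∈ C2)) (hc 4 (by decide))
    (decide ((10 : Fin 45) ∈ C1)) (decide ((10 : Fin 45) ∈ C2)) (hc 10 (by decide))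
    (tri1 _ _ _ _ _ _ (h1 0) (h1 1) (h1 2)) (tri2 _ _ _ _ _ _ (h2 0) (h2 1) (h2 2))
    (decide ((1 : Fin 45) ∈ C1)) (decide ((1 : Fin 45) ∈ C2)) (hc 1 (by decide))
    (decide ((11 : Fin 45) ∈ C1)) (decide ((11 : Fin 45) ∈ C2)) (hc 11 (by decide))
    (tri1 _ _ _ _ _ _ (h1 3) (h1 4) (h1 5)) (tri2 _ _ _ _ _ _ (h2 3) (h2 4) (h2 5))
    (decide ((2 : Fin 45) ∈ C1)) (decide ((2 : Fin 45) ∈ C2)) (hc 2 (by decide))
    (decide ((12 : Fin 45) ∈ C1)) (decide ((12 : Fin 45) ∈ C2)) (hc 12 (by decide))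
    (tri1 _ _ _ _ _ _ (h1 6) (h1 7) (h1 8)) (tri2 _ _ _ _ _ _ (h2 6) (h2 7) (h2 8))
    (decide ((3 : Fin 45) ∈ C1)) (decide ((3 : Fin 45) ∈ C2)) (hc 3 (by decide))
    (decide ((13 : Fin 45) ∈ C1)) (decide ((13 : Fin 45) ∈ C2)) (hc 13 (by decide))
    (tri1 _ _ _ _ _ _ (h1 9) (h1 10) (h1 11)) (tri2 _ _ _ _ _ _ (h2 9) (h2 10) (h2 11))
    (decide ((14 : Fin 45) ∈ C1)) (decide ((14 : Fin 45) ∈ C2)) (hc 14 (by decide))
    (tri1 _ _ _ _ _ _ (h1 12) (h1 13) (h1 14)) (tri2 _ _ _ _ _ _ (h2 12) (h2 13) (h2 14))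
    (decide ((5 : Fin 45) ∈ C1)) (decide ((5 : Fin 45) ∈ C2)) (hc 5 (by decide))
    (decide ((8 : Fin 45) ∈ C1)) (decide ((8 : Fin 45) ∈ C2)) (hc 8 (by decide))
    (tri1 _ _ _ _ _ _ (h1 15) (h1 16) (h1 17)) (tri2 _ _ _ _ _ _ (h2 15) (h2 16) (h2 17))
    (decide ((7 : Fin 45) ∈ C1)) (decide ((7 : Fin 45) ∈ C2)) (hc 7 (by decide))
    (tri1 _ _ _ _ _ _ (h1 21) (h1 22) (h1 23)) (tri2 _ _ _ _ _ _ (h2 21) (h2 22) (h2 23))
    (decide ((9 : Fin 45) ∈ C1)) (decide ((9 : Fin 45) ∈ C2)) (hc 9 (by decide))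
    (tri1 _ _ _ _ _ _ (h1 27) (h1 28) (h1 29)) (tri2 _ _ _ _ _ _ (h2 27) (h2 28) (h2 29))
    (decide ((6 : Fin 45) ∈ C1)) (decide ((6 : Fin 45) ∈ C2)) (hc 6 (by decide))
    (tri1 _ _ _ _ _ _ (h1 18) (h1 19) (h1 20)) (tri2 _ _ _ _ _ _ (h2 18) (h2 19) (h2 20))
    (tri1 _ _ _ _ _ _ (h1 24) (h1 25) (h1 26)) (tri2 _ _ _ _ _ _ (h2 24) (h2 25) (h2 26))

lemma loopless : ∀ e, s e ≠ t e := by decide +kernel
lemma cubic : ∀ v : Fin 30, (Finset.univ.filter (fun e : Fin 45 => s e = v ∨ t e = v)).card = 3 := by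
  intro v; rw [card_eq]; simp [I]
lemma c0 : ∀ v : Fin 30, (C0.filter (fun e : Fin 45 => s e = v ∨ t e = v)).card = 2 := by
  decide +kernel
lemma f1 : ∀ e, fl e ≠ 0 := by decide +kernel
lemma f2 : ∀ v : Fin 30, ∑ e ∈ Finset.univ.filter (fun e : Fin 45 => s e = v ∨ t e = v), fl e = 0 := by
  decide +kernel
lemma f3 : ((Finset.univ : Finset (Fin 30)).image
          (fun v : Fin 30 => (Finset.univ.filter (fun e : Fin 45 => s e = v ∨ t e = v)).image fl)).card ≤ 5 := by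
  decide +kernel

end Pool.Agent.H22.TruncPet
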