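import Pool.Agent.H22.VBDefs
import Pool.Agent.H36.Ilp
import Pool.Agent.H38.NP.TG

namespace Pool.Agent.H22.VB

open Pool.Agent.H38.NP Pool.Agent.H36.Par Function

abbrev P := ℕ × List Bool
abbrev Bl := ℕ × List P
abbrev T := Bl × P

def rel (s t : T) : Bool := decide (s.1 = t.1) || (decide (s.1 = (0, [])) && decide (s.2 ∈ t.1.2))

def vs (Core : List P) (Bs : List Bl) (ws : List ℕ) : List T :=
  dd (Core.map (fun p => ((0, []), p)) ++
    Bs.flatMap fun b => (List.range (ws.getD b.1 0)).map fun j => (b, (j, [])))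

def gr (Core : List P) (Bs : List Bl) (ws : List ℕ) : ℕ × List (ℕ × ℕ) :=
  ((vs Core Bs ws).length, tgE (vs Core Bs ws) rel ((0, []), (0, [])))

def BT (Vs : List T) (S : Finset T) : Prop :=
  ∃ V₁ V₂ : Finset T, Disjoint V₁ V₂ ∧ Disjoint S V₁ ∧ Disjoint S V₂ ∧ S ∪ V₁ ∪ V₂ = Vs.toFinset ∧
    V₁.card ≤ V₂.card + 1 ∧ V₂.card ≤ V₁.card + 1 ∧ ∀ u ∈ V₁, ∀ v ∈ V₂, ¬ TA rel u v

theorem bis_iff {Vs : List T} (hn : Vs.Nodup) (d : T) (k : ℕ) :
    (∃ S, IsBis (graphOf Vs.length (tgE Vs rel d)) S ∧ S.card = k) ↔ ∃ S, BT Vs S ∧ S.card = k := by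
  classical
  obtain ⟨e, he, hm, ha⟩ := tg_spec hn rel d
  constructor
  · rintro ⟨S, ⟨V1, V2, h1, h2, h3, h4, h5⟩, rfl⟩
    have hS : ∀ u, u ∈ S ↔ ¬ (u ∈ V1 ∨ u ∈ V2) := fun u => by
      rw [← Finset.mem_union, h2]; simp
    refine ⟨S.image e, ⟨V1.image e, V2.image e, (Finset.disjoint_image he).2 h1,
      (Finset.disjoint_image he).2 (Finset.disjoint_left.2 fun u hu h => (hS u).1 hu (Or.inl h)),
      (Finset.disjoint_image he).2 (Finset.disjoint_left.2 fun u hu h => (hS u).1 hu (Or.inr h)),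
      ?_, by simpa [Finset.card_image_of_injective _ he] using h3,
      by simpa [Finset.card_image_of_injective _ he] using h4, ?_⟩,
      Finset.card_image_of_injective _ he⟩
    · ext x
      rw [← Finset.image_union, ← Finset.image_union, List.mem_toFinset, hm, Finset.mem_image]
      refine ⟨fun ⟨u, _, h⟩ => ⟨u, h⟩, fun ⟨u, h⟩ => ⟨u, ?_, h⟩⟩
      have := hS u
      simp only [Finset.mem_union]; tauto
    · intro x hx y hy
      obtain ⟨u, hu, rfl⟩ := Finset.mem_image.1 hx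
      obtain ⟨v, hv, rfl⟩ := Finset.mem_image.1 hy
      rw [← ha]; exact h5 u hu v hv
  · rintro ⟨S, ⟨V1, V2, h1, h2, h3, h4, h5, h6, h7⟩, rfl⟩
    have hc : ∀ A : Finset T, A ⊆ Vs.toFinset →
        (Finset.univ.filter fun u => e u ∈ A).card = A.card := fun A hA => by
      rw [← Finset.card_image_of_injective _ he]
      congr 1
      ext x
      simp only [Finset.mem_image, Finset.mem_filter, Finset.mem_univ, true_and]
      refine ⟨fun ⟨u, h, e⟩ => e ▸ h, fun h => ?_⟩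
      obtain ⟨u, rfl⟩ := (hm x).1 (List.mem_toFinset.1 (hA h))
      exact ⟨u, h, rfl⟩
    have c0 := hc S (by rw [← h4]; intro x hx; simp [hx])
    have c1 := hc V1 (by rw [← h4]; intro x hx; simp [hx])
    have c2 := hc V2 (by rw [← h4]; intro x hx; simp [hx])
    refine ⟨Finset.univ.filter fun u => e u ∈ S, ⟨Finset.univ.filter fun u => e u ∈ V1,
      Finset.univ.filter fun u => e u ∈ V2, ?_, ?_, by omega, by omega, ?_⟩, c0⟩
    · exact Finset.disjoint_left.2 fun u hu hv =>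
        Finset.disjoint_left.1 h1 (Finset.mem_filter.1 hu).2 (Finset.mem_filter.1 hv).2
    · ext u
      have h8 : e u ∈ S ∪ V1 ∪ V2 := by rw [h4, List.mem_toFinset, hm]; exact ⟨u, rfl⟩
      have h9 : e u ∈ S → e u ∉ V1 := fun h => Finset.disjoint_left.1 h2 h
      have h10 : e u ∈ S → e u ∉ V2 := fun h => Finset.disjoint_left.1 h3 h
      simp only [Finset.mem_union, Finset.mem_filter, Finset.mem_univ, true_and,
        Finset.mem_compl] at h8 ⊢
      tauto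
    · intro u hu v hv
      rw [ha]; exact h7 _ (Finset.mem_filter.1 hu).2 _ (Finset.mem_filter.1 hv).2

def blobs (ws : List ℕ) (I : Finset Bl) : Finset T :=
  (I.sigma fun b => Finset.range (ws.getD b.1 0)).image fun q => (q.1, (q.2, []))

theorem mem_blobs {ws I} {t : T} :
    t ∈ blobs ws I ↔ t.1 ∈ I ∧ t.2.1 < ws.getD t.1.1 0 ∧ t.2.2 = [] := by
  obtain ⟨b, j, l⟩ := t
  simp only [blobs, Finset.mem_image, Finset.mem_sigma, Finset.mem_range, Prod.mk.injEq]
  constructor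
  · rintro ⟨q, ⟨h1, h2⟩, rfl, rfl, rfl⟩; exact ⟨h1, h2, rfl⟩
  · rintro ⟨h1, h2, rfl⟩; exact ⟨⟨b, j⟩, ⟨h1, h2⟩, rfl, rfl, rfl⟩

theorem card_blobs (ws I) : (blobs ws I).card = ∑ b ∈ I, ws.getD b.1 0 := by
  rw [blobs, Finset.card_image_of_injective, Finset.card_sigma]
  · simp
  · rintro ⟨b, j⟩ ⟨b', j'⟩ h
    simp only [Prod.mk.injEq] at h
    obtain ⟨rfl, rfl, -⟩ := h; rfl

theorem mem_vs {Core Bs ws} {t : T} : t ∈ vs Core Bs ws ↔
    (t.1 = (0, []) ∧ t.2 ∈ Core) ∨ t ∈ blobs ws Bs.toFinset := by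
  obtain ⟨b, j, l⟩ := t
  rw [vs, (dd_spec _).2.2, mem_blobs]
  simp only [List.mem_append, List.mem_map, List.mem_flatMap, List.mem_range, Prod.mk.injEq,
    List.mem_toFinset]
  constructor
  · rintro (⟨p, hp, rfl, rfl⟩ | ⟨c, hc, i, hi, rfl, rfl, rfl⟩)
    · exact Or.inl ⟨rfl, hp⟩
    · exact Or.inr ⟨hc, hi, rfl⟩
  · rintro (⟨rfl, h⟩ | ⟨h1, h2, rfl⟩)
    · exact Or.inl ⟨_, h, rfl, rfl⟩
    · exact Or.inr ⟨b, h1, j, h2, rfl, rfl, rfl⟩

def core (A : Finset P) : Finset T := A.image fun p => ((0, []), p)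

theorem mem_core {A} {t : T} : t ∈ core A ↔ t.1 = (0, []) ∧ t.2 ∈ A := by
  obtain ⟨b, p⟩ := t
  simp only [core, Finset.mem_image, Prod.mk.injEq]
  exact ⟨fun ⟨q, h, e1, e2⟩ => ⟨e1.symm, e2 ▸ h⟩, fun ⟨e, h⟩ => ⟨p, h, e.symm, rfl⟩⟩

theorem card_core (A) : (core A).card = A.card :=
  Finset.card_image_of_injective _ fun _ _ h => (Prod.mk.inj h).2

theorem card_vs {Core Bs ws} (hB : ∀ b ∈ Bs, b.1 ≠ 0) : (vs Core Bs ws).toFinset.card =
    Core.toFinset.card + ∑ b ∈ Bs.toFinset, ws.getD b.1 0 := by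
  have : (vs Core Bs ws).toFinset = core Core.toFinset ∪ blobs ws Bs.toFinset := by
    ext t; simp [mem_vs, mem_core]
  rw [this, Finset.card_union_of_disjoint, card_core, card_blobs]
  refine Finset.disjoint_left.2 fun t h1 h2 => ?_
  have := hB _ (List.mem_toFinset.1 (mem_blobs.1 h2).1)
  rw [(mem_core.1 h1).1] at this
  exact this rfl

theorem bt_card {Vs S V₁ V₂ : Finset T} (h1 : Disjoint V₁ V₂) (h2 : Disjoint S V₁)
    (h3 : Disjoint S V₂) (h4 : S ∪ V₁ ∪ V₂ = Vs) : Vs.card = S.card + V₁.card + V₂.card := by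
  rw [← h4, Finset.card_union_of_disjoint (Finset.disjoint_union_left.2 ⟨h3, h1⟩),
    Finset.card_union_of_disjoint h2]

theorem complete1 {Core Bs ws} (hB : ∀ b ∈ Bs, b.1 ≠ 0) (S : Finset P) (hS : S ⊆ Core.toFinset)
    (I : Finset Bl) (hI : I ⊆ Bs.toFinset) (ht : ∀ b ∈ I, ∀ p ∈ b.2, p ∈ S)
    (hN : 2 * ∑ b ∈ I, ws.getD b.1 0 + S.card =
      Core.toFinset.card + ∑ b ∈ Bs.toFinset, ws.getD b.1 0) :
    BT (vs Core Bs ws) (core S) := by
  have hne : ∀ t ∈ blobs ws I, t.1 ≠ (0, []) := fun t h e => by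
    have := hB _ (List.mem_toFinset.1 (hI (mem_blobs.1 h).1))
    rw [e] at this; exact this rfl
  have d1 : Disjoint (core S) (blobs ws I) :=
    Finset.disjoint_left.2 fun t h1 h2 => hne t h2 (mem_core.1 h1).1
  have hsub : core S ∪ blobs ws I ⊆ (vs Core Bs ws).toFinset := by
    intro t h
    rw [List.mem_toFinset, mem_vs]
    rcases Finset.mem_union.1 h with h | h
    · exact Or.inl ⟨(mem_core.1 h).1, List.mem_toFinset.1 (hS (mem_core.1 h).2)⟩
    · exact Or.inr (mem_blobs.2 ⟨hI (mem_blobs.1 h).1, (mem_blobs.1 h).2⟩)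
  have d2 : Disjoint (blobs ws I) ((vs Core Bs ws).toFinset \ (core S ∪ blobs ws I)) :=
    Finset.disjoint_left.2 fun t h1 h2 => by simp [h1] at h2
  have d3 : Disjoint (core S) ((vs Core Bs ws).toFinset \ (core S ∪ blobs ws I)) :=
    Finset.disjoint_left.2 fun t h1 h2 => by simp [h1] at h2
  have hu := Finset.union_sdiff_of_subset hsub
  have hc := bt_card d2 d1 d3 hu
  rw [card_vs hB, card_core, card_blobs] at hc
  refine ⟨blobs ws I, _, d2, d1, d3, hu, by rw [card_blobs]; omega, by rw [card_blobs]; omega, ?_⟩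
  intro u hu v hv ⟨_, h⟩
  obtain ⟨hv1, hv2⟩ := Finset.mem_sdiff.1 hv
  rw [Finset.mem_union, not_or, mem_core, mem_blobs] at hv2
  rw [List.mem_toFinset, mem_vs, mem_blobs] at hv1
  have h0 := hne u hu
  have hu1 := (mem_blobs.1 hu).1
  simp only [rel, Bool.or_eq_true, decide_eq_true_eq, Bool.and_eq_true] at h
  have e : u.1 ≠ v.1 := fun e => by
    rcases hv1 with h | h
    · exact h0 (e.trans h.1)
    · exact hv2.2 ⟨e ▸ hu1, h.2⟩
  rcases h with (h | h) | h | h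
  · exact e h
  · exact h0 h.1
  · exact e h.symm
  · exact hv2.1 ⟨h.1, ht _ hu1 _ h.2⟩

theorem sound1 {Core Bs ws} (hB : ∀ b ∈ Bs, b.1 ≠ 0) {S : Finset T} (h : BT (vs Core Bs ws) S)
    (hc : S.card < Core.toFinset.card) : ∃ S' : Finset P, S'.card ≤ S.card ∧
      ∃ I ⊆ Bs.toFinset, (∀ b ∈ I, ∀ p ∈ b.2, p ∈ Core → p ∈ S') ∧
        2 * ∑ b ∈ I, ws.getD b.1 0 ≤
          Core.toFinset.card + ∑ b ∈ Bs.toFinset, ws.getD b.1 0 + S.card + 1 ∧
        Core.toFinset.card + ∑ b ∈ Bs.toFinset, ws.getD b.1 0 ≤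
          2 * ∑ b ∈ I, ws.getD b.1 0 + S.card + 1 := by
  obtain ⟨c, hc1, hc2⟩ : ∃ c ∈ core Core.toFinset, c ∉ S := by
    by_contra hh
    push Not at hh
    have := Finset.card_le_card (show core Core.toFinset ⊆ S from hh)
    rw [card_core] at this; omega
  rw [mem_core, List.mem_toFinset] at hc1
  have key : ∀ V1 V2 : Finset T, Disjoint V1 V2 → Disjoint S V1 → Disjoint S V2 →
      S ∪ V1 ∪ V2 = (vs Core Bs ws).toFinset → V1.card ≤ V2.card + 1 → V2.card ≤ V1.card + 1 →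
      (∀ u ∈ V1, ∀ v ∈ V2, ¬ TA rel u v) → c ∈ V2 → ∃ S' : Finset P, S'.card ≤ S.card ∧
      ∃ I ⊆ Bs.toFinset, (∀ b ∈ I, ∀ p ∈ b.2, p ∈ Core → p ∈ S') ∧
        2 * ∑ b ∈ I, ws.getD b.1 0 ≤
          Core.toFinset.card + ∑ b ∈ Bs.toFinset, ws.getD b.1 0 + S.card + 1 ∧
        Core.toFinset.card + ∑ b ∈ Bs.toFinset, ws.getD b.1 0 ≤
          2 * ∑ b ∈ I, ws.getD b.1 0 + S.card + 1 := by
    intro V1 V2 h1 h2 h3 h4 h5 h6 h7 hcV
    have hcard := bt_card h1 h2 h3 h4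
    rw [card_vs hB] at hcard
    have hall : ∀ t, t ∈ vs Core Bs ws ↔ t ∈ S ∨ t ∈ V1 ∨ t ∈ V2 := fun t => by
      rw [← List.mem_toFinset, ← h4]; simp
    have hr : ∀ u ∈ V1, ∀ v ∈ V2, ¬ (rel u v = true ∨ rel v u = true) := fun u hu v hv h =>
      h7 u hu v hv ⟨fun e => Finset.disjoint_left.1 h1 hu (e ▸ hv), h⟩
    have hb : ∀ u ∈ V1, u ∈ blobs ws Bs.toFinset := fun u hu =>
      (mem_vs.1 ((hall u).2 (Or.inr (Or.inl hu)))).resolve_left fun h =>
        hr u hu c hcV (Or.inl (by simp [rel, h.1, hc1.1]))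
    have s1 : V1 ⊆ blobs ws (V1.image Prod.fst) := fun u hu =>
      mem_blobs.2 ⟨Finset.mem_image_of_mem _ hu, (mem_blobs.1 (hb u hu)).2⟩
    have hI : V1.image Prod.fst ⊆ Bs.toFinset := fun b hb' => by
      obtain ⟨u, hu, rfl⟩ := Finset.mem_image.1 hb'
      exact (mem_blobs.1 (hb u hu)).1
    have s2 : blobs ws (V1.image Prod.fst) ⊆ S ∪ V1 := fun t ht => by
      obtain ⟨h8, h9⟩ := mem_blobs.1 ht
      obtain ⟨u, hu, e⟩ := Finset.mem_image.1 h8
      rcases (hall t).1 (mem_vs.2 (Or.inr (mem_blobs.2 ⟨hI h8, h9⟩))) with h | h | h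
      · simp [h]
      · simp [h]
      · exact absurd (Or.inl (by simp [rel, e])) (hr u hu t h)
    have c1 := Finset.card_le_card s1
    have c2 := (Finset.card_le_card s2).trans (Finset.card_union_le _ _)
    rw [card_blobs] at c1 c2
    refine ⟨(S.filter fun t => t.1 = (0, [])).image Prod.snd,
      Finset.card_image_le.trans (Finset.card_filter_le _ _), V1.image Prod.fst, hI, ?_,
      by omega, by omega⟩
    intro b hb' p hp hpC
    obtain ⟨u, hu, rfl⟩ := Finset.mem_image.1 hb'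
    rcases (hall ((0, []), p)).1 (mem_vs.2 (Or.inl ⟨rfl, hpC⟩)) with h | h | h
    · exact Finset.mem_image.2 ⟨_, Finset.mem_filter.2 ⟨h, rfl⟩, rfl⟩
    · exact absurd (Or.inl (by simp [rel, hc1.1])) (hr _ h c hcV)
    · exact absurd (Or.inr (by simp [rel, hp])) (hr u hu _ h)
  obtain ⟨V1, V2, h1, h2, h3, h4, h5, h6, h7⟩ := h
  have : c ∈ S ∪ V1 ∪ V2 := by rw [h4, List.mem_toFinset, mem_vs]; exact Or.inl hc1
  simp only [Finset.mem_union] at this
  rcases this with (h | h) | h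
  · exact absurd h hc2
  · exact key V2 V1 h1.symm h3 h2 (by rw [← h4]; ext; simp; tauto) h6 h5
      (fun u hu v hv h => h7 v hv u hu h.symm) h
  · exact key V1 V2 h1 h2 h3 h4 h5 h6 h7 h

theorem digits (B : ℕ) (hB : 2 ≤ B) : ∀ (D : ℕ) (n : ℕ → ℕ), (∀ d < D, n d < B) →
    ∑ d ∈ Finset.range D, n d * B ^ d = ∑ d ∈ Finset.range D, B ^ d → ∀ d < D, n d = 1 := by
  intro D
  induction D with
  | zero => intro n _ _ d hd; omega
  | succ D ih =>
    intro n hn h
    rw [Finset.sum_range_succ', Finset.sum_range_succ'] at h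
    have e1 : ∑ d ∈ Finset.range D, n (d + 1) * B ^ (d + 1) =
        B * ∑ d ∈ Finset.range D, n (d + 1) * B ^ d := by
      rw [Finset.mul_sum]; exact Finset.sum_congr rfl fun d _ => by ring
    have e2 : ∑ d ∈ Finset.range D, B ^ (d + 1) = B * ∑ d ∈ Finset.range D, B ^ d := by
      rw [Finset.mul_sum]; exact Finset.sum_congr rfl fun d _ => by ring
    rw [e1, e2, pow_zero, mul_one] at h
    have h0 : n 0 = 1 := by
      have := congrArg (· % B) h
      simp only [Nat.mul_add_mod] at this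
      rwa [Nat.mod_eq_of_lt (hn 0 (by omega)), Nat.mod_eq_of_lt (by omega : 1 < B)] at this
    rw [h0] at h
    have h1 := ih (fun d => n (d + 1)) (fun d hd => hn _ (by omega))
      (Nat.eq_of_mul_eq_mul_left (by omega : 0 < B) (Nat.add_right_cancel h))
    intro d hd
    cases d with
    | zero => exact h0
    | succ d => exact h1 d (by omega)

end Pool.Agent.H22.VB
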