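import Pool.Agent.H22.VB1

namespace Pool.Agent.H22.VB

open Pool.Agent.H38.NP Pool.Agent.H36.Par Function

def BB (K : ℕ) : ℕ := (2 * K) * (2 * K) * (2 * K) * (2 * K) + 2

def TL (Cs : List (List (List P))) : List Bl :=
  dd ((List.range Cs.length).flatMap fun d => (Cs.getD d []).map fun τ => (d + 2, τ))

def ws0 (K : ℕ) (pw : List ℕ) : List ℕ := pw.map fun a => (2 * K + 1) * a

def tot (Cs : List (List (List P))) (K : ℕ) (pw : List ℕ) : ℕ :=
  ((TL Cs).map fun b => (ws0 K pw).getD (b.1 - 2) 0).sum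

def wsf (U : List P) (Cs : List (List (List P))) (K : ℕ) (pw : List ℕ) : List ℕ :=
  0 :: (U.length + tot Cs K pw + 2 * K + 2) :: ws0 K pw

def coreL (U : List P) (X K : ℕ) (pw : List ℕ) : List P :=
  U ++ (List.range (2 * (ws0 K pw).sum + 3 * K + 2)).map fun j => (X + j, [])

theorem mem_TL {Cs} {b : Bl} :
    b ∈ TL Cs ↔ ∃ d < Cs.length, b.1 = d + 2 ∧ b.2 ∈ Cs.getD d [] := by
  obtain ⟨e, τ⟩ := b
  rw [TL, (dd_spec _).2.2]
  simp only [List.mem_flatMap, List.mem_range, List.mem_map, Prod.mk.injEq]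
  exact ⟨fun ⟨d, h, σ, h1, h2, h3⟩ => ⟨d, h, h2.symm, h3 ▸ h1⟩,
    fun ⟨d, h, h1, h2⟩ => ⟨d, h, τ, h2, h1.symm, rfl⟩⟩

section
variable {U : List P} {X K : ℕ} {Cs : List (List (List P))} {pw : List ℕ}
  (hU : U.Nodup) (hX : ∀ p ∈ U, p.1 < X)
  (hpw : pw = (List.range Cs.length).map fun d => BB K ^ d)

theorem bs_ne : ∀ b ∈ ((1, []) :: TL Cs : List Bl), b.1 ≠ 0 := by
  intro b hb
  rcases List.mem_cons.1 hb with rfl | hb
  · simp
  · obtain ⟨d, -, h, -⟩ := mem_TL.1 hb; omega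

theorem one_notMem : ((1, []) : Bl) ∉ (TL Cs).toFinset := by
  rw [List.mem_toFinset, mem_TL]; rintro ⟨d, -, h, -⟩; simp at h

include hU hX in
theorem card_coreL :
    (coreL U X K pw).toFinset.card = U.length + (2 * (ws0 K pw).sum + 3 * K + 2) := by
  rw [List.toFinset_card_of_nodup]
  · simp [coreL]
  · refine List.nodup_append.2 ⟨hU, List.nodup_range.map fun a b h => by simpa using h, ?_⟩
    intro a ha b hb e
    obtain ⟨j, -, rfl⟩ := List.mem_map.1 hb
    have := hX a ha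
    rw [e] at this; simp at this

include hpw in
theorem w_eq {d} (hd : d < Cs.length) :
    (wsf U Cs K pw).getD (d + 2) 0 = (2 * K + 1) * BB K ^ d := by
  simp [wsf, ws0, hpw, List.getD_eq_getElem?_getD, hd]

include hpw in
theorem W_eq : (ws0 K pw).sum = (2 * K + 1) * ∑ d ∈ Finset.range Cs.length, BB K ^ d := by
  rw [ws0, hpw, List.map_map, Finset.mul_sum, ← List.sum_toFinset _ List.nodup_range,
    List.toFinset_range]
  rfl

theorem tot_eq : ∑ b ∈ (TL Cs).toFinset, (wsf U Cs K pw).getD b.1 0 = tot Cs K pw := by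
  rw [tot, ← List.sum_toFinset _ (show (TL Cs).Nodup from (dd_spec _).2.1)]
  refine Finset.sum_congr rfl fun b hb => ?_
  obtain ⟨d, -, h, -⟩ := mem_TL.1 (List.mem_toFinset.1 hb)
  rw [h]; rfl

theorem all_eq : ∑ b ∈ ((1, []) :: TL Cs : List Bl).toFinset, (wsf U Cs K pw).getD b.1 0 =
    (U.length + tot Cs K pw + 2 * K + 2) + tot Cs K pw := by
  rw [List.toFinset_cons, Finset.sum_insert one_notMem, tot_eq]; rfl

include hU hX hpw in
theorem complete2 (S : Finset P) (hS : ∀ p ∈ S, p ∈ U) (hK : S.card = K)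
    (h : ∀ d < Cs.length, ∃ τ ∈ Cs.getD d [], ∀ p ∈ τ, p ∈ S) :
    ∃ S', BT (vs (coreL U X K pw) ((1, []) :: TL Cs) (wsf U Cs K pw)) S' ∧ S'.card = K := by
  choose! τ h1 h2 using h
  have hsub : (Finset.range Cs.length).image (fun d => ((d + 2, τ d) : Bl)) ⊆ (TL Cs).toFinset := by
    intro b hb
    obtain ⟨d, hd, rfl⟩ := Finset.mem_image.1 hb
    exact List.mem_toFinset.2 (mem_TL.2 ⟨d, Finset.mem_range.1 hd, rfl, h1 d (Finset.mem_range.1 hd)⟩)
  refine ⟨core S, complete1 bs_ne S (fun p hp => by simp [coreL, hS p hp])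
    (insert (1, []) ((Finset.range Cs.length).image fun d => (d + 2, τ d))) ?_ ?_ ?_,
    (card_core S).trans hK⟩
  · rw [List.toFinset_cons]; exact Finset.insert_subset_insert _ hsub
  · intro b hb
    rcases Finset.mem_insert.1 hb with rfl | hb
    · simp
    · obtain ⟨d, hd, rfl⟩ := Finset.mem_image.1 hb
      exact h2 d (Finset.mem_range.1 hd)
  · rw [Finset.sum_insert fun h => one_notMem (hsub h), Finset.sum_image (by
      intro a _ b _ h; simpa using (Prod.mk.inj h).1), all_eq, card_coreL hU hX,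
      Finset.sum_congr rfl fun d hd => w_eq hpw (Finset.mem_range.1 hd), ← Finset.mul_sum,
      ← W_eq hpw, hK]
    change 2 * (U.length + tot Cs K pw + 2 * K + 2 + _) + _ = _
    omega

include hU hX hpw in
theorem sound2 (hC : ∀ d < Cs.length, ∀ τ ∈ Cs.getD d [], τ.length = 4 ∧ ∀ p ∈ τ, p ∈ U)
    {S : Finset T} (h : BT (vs (coreL U X K pw) ((1, []) :: TL Cs) (wsf U Cs K pw)) S)
    (hK : S.card ≤ 2 * K) : ∃ S' : Finset P, S'.card ≤ S.card ∧
      ∀ d < Cs.length, ∃ τ ∈ Cs.getD d [], ∀ p ∈ τ, p ∈ S' := by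
  obtain ⟨S', h1, I, hI, h2, h3, h4⟩ := sound1 bs_ne h (by rw [card_coreL hU hX]; omega)
  refine ⟨S', h1, ?_⟩
  rw [all_eq, card_coreL hU hX] at h3 h4
  rw [List.toFinset_cons] at hI
  have hJ : I.erase (1, []) ⊆ (TL Cs).toFinset := Finset.subset_insert_iff.1 hI
  have hY : ((1, []) : Bl) ∈ I := by
    by_contra hY
    rw [Finset.erase_eq_of_notMem hY] at hJ
    have := Finset.sum_le_sum_of_subset (f := fun b : Bl => (wsf U Cs K pw).getD b.1 0) hJ
    rw [tot_eq] at this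
    omega
  rw [← Finset.add_sum_erase _ _ hY] at h3 h4
  set J := I.erase (1, []) with hJd
  have hm : ∀ b ∈ J, b.1 - 2 ∈ Finset.range Cs.length := fun b hb => by
    obtain ⟨d, hd, e, -⟩ := mem_TL.1 (List.mem_toFinset.1 (hJ hb))
    rw [Finset.mem_range]; omega
  have e1 : ∑ b ∈ J, (wsf U Cs K pw).getD b.1 0 = (2 * K + 1) *
      ∑ d ∈ Finset.range Cs.length, (J.filter fun b => b.1 - 2 = d).card * BB K ^ d := by
    rw [← Finset.sum_fiberwise_of_maps_to hm, Finset.mul_sum]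
    refine Finset.sum_congr rfl fun d hd => ?_
    rw [Finset.sum_congr rfl (g := fun _ => (2 * K + 1) * BB K ^ d) fun b hb => by
      obtain ⟨hb1, hb2⟩ := Finset.mem_filter.1 hb
      obtain ⟨d', hd', e, -⟩ := mem_TL.1 (List.mem_toFinset.1 (hJ hb1))
      rw [e, w_eq hpw hd', show d' = d by omega]]
    simp only [Finset.sum_const, smul_eq_mul]; ring
  have hw1 : (wsf U Cs K pw).getD ((1, []) : Bl).1 0 = U.length + tot Cs K pw + 2 * K + 2 := rfl
  rw [e1, W_eq hpw, hw1] at h3 h4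
  have e2 : ∑ d ∈ Finset.range Cs.length, (J.filter fun b => b.1 - 2 = d).card * BB K ^ d =
      ∑ d ∈ Finset.range Cs.length, BB K ^ d := by
    generalize ∑ d ∈ Finset.range Cs.length, (J.filter fun b => b.1 - 2 = d).card * BB K ^ d = M
      at h3 h4
    generalize ∑ d ∈ Finset.range Cs.length, BB K ^ d = M0 at h3 h4
    rcases lt_trichotomy M M0 with hlt | hlt | hlt
    · have := Nat.mul_le_mul_left (2 * K + 1) (show M + 1 ≤ M0 from hlt)
      rw [Nat.mul_add] at this; omega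
    · exact hlt
    · have := Nat.mul_le_mul_left (2 * K + 1) (show M0 + 1 ≤ M from hlt)
      rw [Nat.mul_add] at this; omega
  have hterm : ∀ b ∈ J, ∀ d, b.1 - 2 = d → b.1 = d + 2 ∧ b.2 ∈ Cs.getD d [] ∧ b.2.length = 4 ∧
      ∀ p ∈ b.2, p ∈ S' := fun b hb d e => by
    obtain ⟨d', hd', e', h5⟩ := mem_TL.1 (List.mem_toFinset.1 (hJ hb))
    obtain rfl : d' = d := by omega
    exact ⟨e', h5, (hC _ hd' _ h5).1, fun p hp => h2 b (Finset.mem_of_mem_erase hb) p hp
      (by simp [coreL, (hC _ hd' _ h5).2 p hp])⟩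
  have e3 := digits (BB K) (by unfold BB; omega) Cs.length _ (fun d hd => by
    have : (J.filter fun b => b.1 - 2 = d).card ≤ (words S'.toList 4).toFinset.card := by
      refine Finset.card_le_card_of_injOn Prod.snd (fun b hb => ?_) fun a ha b hb e => ?_
      · obtain ⟨hb1, hb2⟩ := Finset.mem_filter.1 hb
        obtain ⟨-, -, h6, h7⟩ := hterm b hb1 d hb2
        exact List.mem_toFinset.2 (mem_words.2 ⟨h6, fun p hp => Finset.mem_toList.2 (h7 p hp)⟩)
      · obtain ⟨ha1, ha2⟩ := Finset.mem_filter.1 ha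
        obtain ⟨hb1, hb2⟩ := Finset.mem_filter.1 hb
        exact Prod.ext ((hterm a ha1 d ha2).1.trans (hterm b hb1 d hb2).1.symm) e
    have h8 := this.trans (List.toFinset_card_le _)
    rw [length_words, Finset.length_toList] at h8
    have h9 := Nat.pow_le_pow_left (h1.trans hK) 4
    have : (2 * K) ^ 4 = (2 * K) * (2 * K) * (2 * K) * (2 * K) := by ring
    unfold BB; omega) e2
  intro d hd
  obtain ⟨b, hb⟩ := Finset.card_pos.1 ((e3 d hd).symm ▸ Nat.one_pos :
    0 < (J.filter fun b => b.1 - 2 = d).card)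
  obtain ⟨hb1, hb2⟩ := Finset.mem_filter.1 hb
  exact ⟨b.2, (hterm b hb1 d hb2).2.1, (hterm b hb1 d hb2).2.2.2⟩

end

end Pool.Agent.H22.VB
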