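import Pool.Agent.H22.VB2
import Pool.Agent.H22.FtSim

namespace Pool.Agent.H22.VB

open Pool.Agent.H38.NP Pool.Agent.H36.Par Function

abbrev Cube := List (List Bool)
abbrev Ix := ℕ × List Bool × ℕ × List Bool

def HH (k : ℕ) : Cube := dd (words [false, true] k)

def sb (k i : ℕ) (b : Bool) (α : List Bool) : List Bool :=
  (List.range k).map fun t => if t = i then b else α.getD t false

def adjb (E : List (ℕ × ℕ)) (u w : ℕ) : Bool :=
  decide (u ≠ w) && (decide ((u, w) ∈ E) || decide ((w, u) ∈ E))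

def terms (x : GK) (q : Ix) : List (List P) :=
  (List.range (x.2.2 * x.1 + 1)).flatMap fun a => (List.range (x.2.2 * x.1 + 1)).flatMap fun b =>
    (List.range x.1).flatMap fun u =>
      ((List.range x.1).filter fun w => decide (q.1 = q.2.2.1) || adjb x.2.1 u w).map fun w =>
        [(a, sb x.2.2 q.1 false q.2.1), (a + u, sb x.2.2 q.1 true q.2.1),
          (b, sb x.2.2 q.2.2.1 false q.2.2.2), (b + w, sb x.2.2 q.2.2.1 true q.2.2.2)]

def QQ (k : ℕ) (H : Cube) : List Ix :=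
  List.product (List.range k) (List.product H (List.product (List.range k) H))

def XX (x : GK) : ℕ := (x.2.2 + 1) * x.1 + 1

def UU (x : GK) (H : Cube) : List P := dd (List.product (List.range (XX x)) H)

def CC (x : GK) (H : Cube) : List (List (List P)) := (QQ x.2.2 H).map (terms x)

def red (x : GK) (H : Cube) (pw : List ℕ) : GK :=
  ((gr (coreL (UU x H) (XX x) H.length pw) ((1, []) :: TL (CC x H))
      (wsf (UU x H) (CC x H) H.length pw)).1,
   (gr (coreL (UU x H) (XX x) H.length pw) ((1, []) :: TL (CC x H))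
      (wsf (UU x H) (CC x H) H.length pw)).2, H.length)

theorem mem_HH {k α} : α ∈ HH k ↔ α.length = k := by
  rw [HH, (dd_spec _).2.2, mem_words]
  exact ⟨fun h => h.1, fun h => ⟨h, fun x _ => by cases x <;> simp⟩⟩

theorem sb_mem (k i b α) : sb k i b α ∈ HH k := mem_HH.2 (by simp [sb])

theorem sb_getD {k i b α t} (ht : t < k) :
    (sb k i b α).getD t false = if t = i then b else α.getD t false := by
  simp [sb, List.getD_eq_getElem?_getD, ht]

theorem sb_sb (k i b c α) : sb k i b (sb k i c α) = sb k i b α := by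
  unfold sb
  refine List.map_congr_left fun t ht => ?_
  split_ifs with h
  · rfl
  · have := sb_getD (i := i) (b := c) (α := α) (List.mem_range.1 ht)
    rw [if_neg h] at this; exact this

theorem sb_self {k α} (h : α ∈ HH k) (i) : sb k i (α.getD i false) α = α := by
  have hl := mem_HH.1 h
  apply List.ext_getElem (by simp [sb, hl])
  intro t h1 h2
  simp only [sb, List.getElem_map, List.getElem_range]
  split_ifs with e
  · subst e; simp [List.getD_eq_getElem?_getD, h2]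
  · simp [List.getD_eq_getElem?_getD, h2]

theorem mem_UU {x H} {p : P} : p ∈ UU x H ↔ p.1 < XX x ∧ p.2 ∈ H := by
  obtain ⟨a, α⟩ := p
  rw [UU, (dd_spec _).2.2]; simp [List.product]

theorem mem_QQ {k H} {q : Ix} : q ∈ QQ k H ↔ q.1 < k ∧ q.2.1 ∈ H ∧ q.2.2.1 < k ∧ q.2.2.2 ∈ H := by
  obtain ⟨i, α, j, β⟩ := q
  simp [QQ, List.product]

theorem mem_terms {x q τ} : τ ∈ terms x q ↔ ∃ a ≤ x.2.2 * x.1, ∃ b ≤ x.2.2 * x.1, ∃ u < x.1,
    ∃ w < x.1, (q.1 = q.2.2.1 ∨ adjb x.2.1 u w = true) ∧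
      τ = [(a, sb x.2.2 q.1 false q.2.1), (a + u, sb x.2.2 q.1 true q.2.1),
          (b, sb x.2.2 q.2.2.1 false q.2.2.2), (b + w, sb x.2.2 q.2.2.1 true q.2.2.2)] := by
  simp only [terms, List.mem_flatMap, List.mem_range, List.mem_map, List.mem_filter,
    Bool.or_eq_true, decide_eq_true_eq, Nat.lt_succ_iff]
  constructor
  · rintro ⟨a, h1, b, h2, u, h3, w, ⟨h4, h5⟩, rfl⟩; exact ⟨a, h1, b, h2, u, h3, w, h4, h5, rfl⟩
  · rintro ⟨a, h1, b, h2, u, h3, w, h4, h5, rfl⟩; exact ⟨a, h1, b, h2, u, h3, w, ⟨h4, h5⟩, rfl⟩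

theorem CC_iff {x H} {R : List (List P) → Prop} :
    (∀ d < (CC x H).length, R ((CC x H).getD d [])) ↔ ∀ q ∈ QQ x.2.2 H, R (terms x q) := by
  have : (∀ d < (CC x H).length, R ((CC x H).getD d [])) ↔ ∀ c ∈ CC x H, R c := by
    constructor
    · intro h c hc
      obtain ⟨d, hd, rfl⟩ := List.getElem_of_mem hc
      simpa [List.getD_eq_getElem?_getD, hd] using h d hd
    · intro h d hd
      simpa [List.getD_eq_getElem?_getD, hd] using h _ (List.getElem_mem hd)
  rw [this, CC, List.forall_mem_map]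

theorem clique_iff (x : GK) : Clique x ↔ ∃ v : ℕ → ℕ, (∀ i < x.2.2, v i < x.1) ∧
    ∀ i < x.2.2, ∀ j < x.2.2, i ≠ j → adjb x.2.1 (v i) (v j) = true := by
  have ha : ∀ u w : Fin x.1, (graphOf x.1 x.2.1).Adj u w ↔ adjb x.2.1 u w = true := fun u w => by
    simp [graphOf_adj, adjb, Fin.ext_iff]
  constructor
  · rintro ⟨S, hS, hc⟩
    let e := S.orderEmbOfFin hc
    refine ⟨fun i => if h : i < x.2.2 then (e ⟨i, h⟩).val else 0, fun i hi => by simp [hi],
      fun i hi j hj hij => ?_⟩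
    simp only [hi, hj, dite_true]
    exact (ha _ _).1 (hS (S.orderEmbOfFin_mem hc _) (S.orderEmbOfFin_mem hc _)
      fun h => hij (by simpa using e.injective h))
  · rintro ⟨v, h1, h2⟩
    let f : Fin x.2.2 → Fin x.1 := fun i => ⟨v i, h1 i i.2⟩
    have hf : ∀ i j, i ≠ j → (graphOf x.1 x.2.1).Adj (f i) (f j) := fun i j h =>
      (ha _ _).2 (h2 i i.2 j j.2 fun e => h (Fin.ext e))
    refine ⟨Finset.univ.image f, ?_, ?_⟩
    · intro a ha' b hb' hab
      obtain ⟨i, -, rfl⟩ := Finset.mem_image.1 ha'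
      obtain ⟨j, -, rfl⟩ := Finset.mem_image.1 hb'
      exact hf i j fun e => hab (e ▸ rfl)
    · rw [Finset.card_image_of_injective _ fun i j e => by
        by_contra h; exact (hf i j h).ne e]
      simp

def pot (k : ℕ) (v : ℕ → ℕ) (α : List Bool) : ℕ :=
  ∑ t ∈ Finset.range k, if α.getD t false = true then v t else 0

theorem pot_le {k n v} (h : ∀ i < k, v i < n) (α) : pot k v α ≤ k * n := by
  refine (Finset.sum_le_card_nsmul _ _ n fun t ht => ?_).trans (by simp)
  have := h t (Finset.mem_range.1 ht)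
  split_ifs <;> omega

theorem pot_up {k i} (hi : i < k) (v α) :
    pot k v (sb k i true α) = pot k v (sb k i false α) + v i := by
  unfold pot
  rw [← Finset.add_sum_erase _ _ (Finset.mem_range.2 hi),
    ← Finset.add_sum_erase _ _ (Finset.mem_range.2 hi), sb_getD hi, sb_getD hi,
    Finset.sum_congr rfl (g := fun t => if (sb k i false α).getD t false = true then v t else 0)
      fun t ht => by
        obtain ⟨h1, h2⟩ := Finset.mem_erase.1 ht
        rw [sb_getD (Finset.mem_range.1 h2), sb_getD (Finset.mem_range.1 h2), if_neg h1, if_neg h1]]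
  simp [Nat.add_comm]

theorem complete3 {x : GK} (h : Clique x) : ∃ S : Finset P, (∀ p ∈ S, p ∈ UU x (HH x.2.2)) ∧
    S.card = (HH x.2.2).length ∧
    ∀ q ∈ QQ x.2.2 (HH x.2.2), ∃ τ ∈ terms x q, ∀ p ∈ τ, p ∈ S := by
  obtain ⟨v, h1, h2⟩ := (clique_iff x).1 h
  refine ⟨(HH x.2.2).toFinset.image fun α => (pot x.2.2 v α, α), fun p hp => ?_, ?_, fun q hq => ?_⟩
  · obtain ⟨α, hα, rfl⟩ := Finset.mem_image.1 hp
    have := pot_le h1 α
    exact mem_UU.2 ⟨by simp only [XX]; nlinarith, List.mem_toFinset.1 hα⟩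
  · rw [Finset.card_image_of_injective _ fun a b e => (Prod.mk.inj e).2,
      List.toFinset_card_of_nodup (show (HH x.2.2).Nodup from (dd_spec _).2.1)]
  · obtain ⟨q1, -, q2, -⟩ := mem_QQ.1 hq
    refine ⟨_, mem_terms.2 ⟨_, pot_le h1 (sb x.2.2 q.1 false q.2.1), _,
      pot_le h1 (sb x.2.2 q.2.2.1 false q.2.2.2), _, h1 _ q1, _, h1 _ q2,
      (em _).imp id (h2 _ q1 _ q2), rfl⟩, ?_⟩
    rw [← pot_up q1, ← pot_up q2]
    intro p hp
    simp only [List.mem_cons, List.not_mem_nil, or_false] at hp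
    rcases hp with rfl | rfl | rfl | rfl <;>
      exact Finset.mem_image.2 ⟨_, List.mem_toFinset.2 (sb_mem _ _ _ _), rfl⟩

theorem sound3 {x : GK} (S : Finset P) (hS : 2 * S.card < 3 * (HH x.2.2).length)
    (h : ∀ q ∈ QQ x.2.2 (HH x.2.2), ∃ τ ∈ terms x q, ∀ p ∈ τ, p ∈ S) : Clique x := by
  classical
  rw [clique_iff]
  set k := x.2.2 with hk
  have h' : ∀ i < k, ∀ α ∈ HH k, ∀ j < k, ∀ β ∈ HH k, ∃ a b u w, u < x.1 ∧ w < x.1 ∧
      (i = j ∨ adjb x.2.1 u w = true) ∧ (a, sb k i false α) ∈ S ∧ (a + u, sb k i true α) ∈ S ∧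
      (b, sb k j false β) ∈ S ∧ (b + w, sb k j true β) ∈ S := by
    intro i hi α hα j hj β hβ
    obtain ⟨τ, h1, h2⟩ := h (i, α, j, β) (mem_QQ.2 ⟨hi, hα, hj, hβ⟩)
    obtain ⟨a, -, b, -, u, hu, w, hw, h3, rfl⟩ := mem_terms.1 h1
    exact ⟨a, b, u, w, hu, hw, h3, h2 _ (by simp [hk]), h2 _ (by simp [hk]), h2 _ (by simp [hk]),
      h2 _ (by simp [hk])⟩
  let Mu := (HH k).toFinset.filter fun α => ∃ a b, a ≠ b ∧ (a, α) ∈ S ∧ (b, α) ∈ S
  have hH : (HH k).toFinset.card = (HH k).length := List.toFinset_card_of_nodup (dd_spec _).2.1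
  have hex : ∀ i < k, ∃ α ∈ HH k, sb k i false α ∉ Mu ∧ sb k i true α ∉ Mu := by
    intro i hi
    have h1 : ∀ α ∈ HH k, ∃ a, (a, α) ∈ S := fun α hα => by
      obtain ⟨a, b, u, w, -, -, -, h1, h2, -⟩ := h' i hi α hα i hi α hα
      have := sb_self hα i
      cases e : α.getD i false <;> rw [e] at this
      · exact ⟨a, this ▸ h1⟩
      · exact ⟨a + u, this ▸ h2⟩
    have h2 : (HH k).length + Mu.card ≤ S.card := by
      have e1 := Finset.card_eq_sum_card_fiberwise (f := Prod.snd)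
        (s := S.filter fun p => p.2 ∈ (HH k).toFinset) (t := (HH k).toFinset)
        (fun p hp => (Finset.mem_filter.1 hp).2)
      refine le_trans ?_ (e1 ▸ Finset.card_filter_le S _)
      rw [← hH, Finset.card_filter, Finset.card_eq_sum_ones, ← Finset.sum_add_distrib]
      refine Finset.sum_le_sum fun α hα => ?_
      split_ifs with e
      · obtain ⟨a, b, hab, ha, hb⟩ := e
        refine Finset.one_lt_card.2 ⟨(a, α), ?_, (b, α), ?_, fun e => hab (Prod.mk.inj e).1⟩ <;>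
          simp_all
      · obtain ⟨a, ha⟩ := h1 α (List.mem_toFinset.1 hα)
        refine Finset.card_pos.2 ⟨(a, α), ?_⟩
        simp_all
    by_contra hc
    push Not at hc
    have h3 : (HH k).toFinset ⊆ Mu.image (sb k i false) ∪ Mu.image (sb k i true) := by
      intro α hα
      have hα' := List.mem_toFinset.1 hα
      have e := sb_self hα' i
      have : ∃ c, sb k i c α ∈ Mu := by
        by_cases e' : sb k i false α ∈ Mu
        · exact ⟨_, e'⟩
        · exact ⟨_, hc α hα' e'⟩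
      obtain ⟨c, hc'⟩ := this
      rw [Finset.mem_union, Finset.mem_image, Finset.mem_image]
      cases e2 : α.getD i false <;> rw [e2] at e
      · exact Or.inl ⟨_, hc', by rw [sb_sb, e]⟩
      · exact Or.inr ⟨_, hc', by rw [sb_sb, e]⟩
    have h4 := (Finset.card_le_card h3).trans ((Finset.card_union_le _ _).trans
      (Nat.add_le_add Finset.card_image_le Finset.card_image_le))
    omega
  choose! al h1 h2 h3 using hex
  have hu : ∀ α ∈ HH k, α ∉ Mu → ∀ a b, (a, α) ∈ S → (b, α) ∈ S → a = b := fun α hα hm a b ha hb => by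
    by_contra e
    exact hm (Finset.mem_filter.2 ⟨List.mem_toFinset.2 hα, a, b, e, ha, hb⟩)
  have hv : ∀ i < k, ∃ u < x.1, ∀ a u', (a, sb k i false (al i)) ∈ S →
      (a + u', sb k i true (al i)) ∈ S → u' = u := by
    intro i hi
    obtain ⟨a, b, u, w, hu', -, -, h4, h5, -⟩ := h' i hi _ (h1 i hi) i hi _ (h1 i hi)
    refine ⟨u, hu', fun a' u' h6 h7 => ?_⟩
    have := hu _ (sb_mem _ _ _ _) (h2 i hi) _ _ h4 h6
    have := hu _ (sb_mem _ _ _ _) (h3 i hi) _ _ h5 h7
    omega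
  choose! v hv1 hv2 using hv
  refine ⟨v, hv1, fun i hi j hj hij => ?_⟩
  obtain ⟨a, b, u, w, -, -, h4, h5, h6, h7, h8⟩ := h' i hi _ (h1 i hi) j hj _ (h1 j hj)
  rw [← hv2 i hi a u h5 h6, ← hv2 j hj b w h7 h8]
  exact h4.resolve_left hij

def pstep (B : ℕ) (l : List ℕ) : List ℕ := 1 :: l.map fun a => a * B

theorem pstep_iter (B D : ℕ) : (pstep B)^[D] [] = (List.range D).map fun d => B ^ d := by
  induction D with
  | zero => rfl
  | succ D ih =>
    rw [iterate_succ_apply', ih, List.range_succ_eq_map]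
    simp [pstep, pow_succ]

def RR (x : GK) : GK :=
  red x (HH x.2.2) ((pstep (BB (HH x.2.2).length))^[(QQ x.2.2 (HH x.2.2)).length] [])

theorem RR_spec (x : GK) :
    (Clique x → ∃ S, IsBis (graphOf (RR x).1 (RR x).2.1) S ∧ S.card = (RR x).2.2) ∧
    ∀ S, IsBis (graphOf (RR x).1 (RR x).2.1) S → 2 * S.card < 3 * (RR x).2.2 → Clique x := by
  have hU : (UU x (HH x.2.2)).Nodup := (dd_spec _).2.1
  have hX : ∀ p ∈ UU x (HH x.2.2), p.1 < XX x := fun p hp => (mem_UU.1 hp).1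
  have hpw : (pstep (BB (HH x.2.2).length))^[(QQ x.2.2 (HH x.2.2)).length] [] =
      (List.range (CC x (HH x.2.2)).length).map fun d => BB (HH x.2.2).length ^ d := by
    rw [pstep_iter]; simp [CC]
  constructor
  · intro h
    obtain ⟨S, h1, h2, h3⟩ := complete3 h
    exact (bis_iff (dd_spec _).2.1 _ _).2 (complete2 hU hX hpw S h1 h2
      ((CC_iff (R := fun c => ∃ τ ∈ c, ∀ p ∈ τ, p ∈ S)).2 h3))
  · intro S h1 h2
    obtain ⟨S1, h3, h4⟩ := (bis_iff (dd_spec _).2.1 _ S.card).1 ⟨S, h1, rfl⟩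
    replace h2 : 2 * S1.card < 3 * (HH x.2.2).length := h4 ▸ h2
    clear h4
    obtain ⟨S2, h5, h6⟩ := sound2 hU hX hpw
      ((CC_iff (R := fun c => ∀ τ ∈ c, τ.length = 4 ∧ ∀ p ∈ τ, p ∈ UU x (HH x.2.2))).2 (by
        intro q _ τ hτ
        obtain ⟨a, ha, b, hb, u, hu, w, hw, -, rfl⟩ := mem_terms.1 hτ
        refine ⟨rfl, fun p hp => ?_⟩
        simp only [List.mem_cons, List.not_mem_nil, or_false] at hp
        rcases hp with rfl | rfl | rfl | rfl <;>
          exact mem_UU.2 ⟨by simp only [XX]; nlinarith, sb_mem _ _ _ _⟩)) h3 (by omega)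
    exact sound3 S2 (by omega) ((CC_iff (R := fun c => ∃ τ ∈ c, ∀ p ∈ τ, p ∈ S2)).1 h6)

end Pool.Agent.H22.VB
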