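import Pool.Agent.H22.VB3

namespace Pool.Agent.H22.VB

open Pool.Agent.H38.NP Pool.Agent.H36.Par Function

variable {α : Type} [Enc α]

theorem pt_rel : PT fun p : T × T => rel p.1 p.2 := by unfold rel; fun_prop

theorem pt_vs : PT fun q : List P × List Bl × List ℕ => vs q.1 q.2.1 q.2.2 := by
  unfold vs; fun_prop

theorem pt_gr : PT fun q : List P × List Bl × List ℕ => gr q.1 q.2.1 q.2.2 := by
  unfold gr
  exact PT.mk pt_vs.length (PT.tgE (r := fun _ => rel) _ pt_vs
    (pt_rel.comp (g := fun p : (List P × List Bl × List ℕ) × T × T => p.2) (by fun_prop)))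

@[fun_prop] theorem pt_TL {C : α → List (List (List P))} (h : PT C) : PT fun a => TL (C a) := by
  unfold TL; fun_prop

@[fun_prop] theorem pt_ws0 {K : α → ℕ} {pw : α → List ℕ} (h : PT K) (h' : PT pw) :
    PT fun a => ws0 (K a) (pw a) := by unfold ws0; fun_prop

@[fun_prop] theorem pt_tot {C : α → List (List (List P))} {K : α → ℕ} {pw : α → List ℕ}
    (h0 : PT C) (h : PT K) (h' : PT pw) : PT fun a => tot (C a) (K a) (pw a) := by
  unfold tot; fun_prop

@[fun_prop] theorem pt_sb {k i : α → ℕ} {b : α → Bool} {l : α → List Bool} (h1 : PT k) (h2 : PT i)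
    (h3 : PT b) (h4 : PT l) : PT fun a => sb (k a) (i a) (b a) (l a) := by unfold sb; fun_prop

@[fun_prop] theorem pt_adjb {E : α → List (ℕ × ℕ)} {u w : α → ℕ} (h1 : PT E) (h2 : PT u)
    (h3 : PT w) : PT fun a => adjb (E a) (u a) (w a) := by unfold adjb; fun_prop

theorem pt_terms : PT fun p : GK × Ix => terms p.1 p.2 := by unfold terms; fun_prop

@[fun_prop] theorem pt_QQ {k : α → ℕ} {H : α → Cube} (h1 : PT k) (h2 : PT H) :
    PT fun a => QQ (k a) (H a) := by unfold QQ; fun_prop

theorem pt_CC : PT fun p : GK × Cube => CC p.1 p.2 := by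
  unfold CC
  exact PT.map (pt_terms.comp (g := fun r : (GK × Cube) × Ix => (r.1.1, r.2)) (by fun_prop))
    (by fun_prop)

theorem pt_UU : PT fun p : GK × Cube => UU p.1 p.2 := by unfold UU XX; fun_prop

theorem pt_red : PT fun p : (GK × Cube) × List ℕ => red p.1.1 p.1.2 p.2 := by
  have h1 : PT fun p : (GK × Cube) × List ℕ => CC p.1.1 p.1.2 := pt_CC.comp (by fun_prop)
  have h2 : PT fun p : (GK × Cube) × List ℕ => UU p.1.1 p.1.2 := pt_UU.comp (by fun_prop)
  have h3 : PT fun p : (GK × Cube) × List ℕ =>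
      coreL (UU p.1.1 p.1.2) (XX p.1.1) p.1.2.length p.2 := by
    unfold coreL XX; exact h2.append (by fun_prop)
  have h4 : PT fun p : (GK × Cube) × List ℕ =>
      wsf (UU p.1.1 p.1.2) (CC p.1.1 p.1.2) p.1.2.length p.2 := by
    unfold wsf
    exact (PT.const _).cons (PT.cons (((h2.length.add (pt_tot h1 (by fun_prop) (by fun_prop))).add
      (by fun_prop)).add (PT.const _)) (by fun_prop))
  have h5 := pt_gr.comp (h3.mk (((PT.const ((1, []) : Bl)).cons (pt_TL h1)).mk h4))
  exact h5.fst.mk (h5.snd.mk (by fun_prop))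

theorem len_HH (k : ℕ) : 0 < (HH k).length ∧ (HH k).length ≤ 2 ^ k :=
  ⟨List.length_pos_of_mem (sb_mem k 0 false []),
    ((dd_spec _).1.length_le).trans (length_words _ _).le⟩

theorem ft_RR : FT kOf RR := by
  have pd : PT fun l : Cube => dd l := by fun_prop
  have f0 : FT kOf fun x : GK => x.2.2 := FT.of_pt (by fun_prop)
  have f1 : FT kOf fun x : GK => HH x.2.2 :=
    (FT.comp pd (FT.words (FT.of_pt (PT.const _)) f0 (CB.const _) CB.par)).of_eq fun _ => rfl
  have c1 : CB kOf fun x : GK => sz (HH x.2.2) :=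
    CB.pt pd (g := fun x : GK => words [false, true] x.2.2) (CB.words (CB.const _) CB.par)
  have p2 : PT fun q : ℕ × Cube => (QQ q.1 q.2).length := by fun_prop
  have p3 : PT fun q : Cube => BB q.length := by unfold BB; fun_prop
  have f2 : FT kOf fun x : GK => (QQ x.2.2 (HH x.2.2)).length :=
    (FT.comp p2 (f0.mk f1)).of_eq fun _ => rfl
  have c2 : CB kOf fun x : GK => (QQ x.2.2 (HH x.2.2)).length :=
    (CB.pt p2 (g := fun x : GK => (x.2.2, HH x.2.2))
      (CB.pair (CB.par.mono fun a => by simp [kOf]) c1)).mono fun a => by simp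
  have f3 : FT kOf fun x : GK => BB (HH x.2.2).length := (FT.comp p3 f1).of_eq fun _ => rfl
  have c3 : CB kOf fun x : GK => BB (HH x.2.2).length := (CB.pt p3 c1).mono fun a => by simp
  have f4 := FT.iterate (step := pstep) (by unfold pstep; fun_prop) f3 f2
    (FT.of_pt (PT.const [])) (c2.mul (((CB.const 2).mul (c3.pow c2)).add (CB.const 1))).fb
    (fun x i hi => by
      rw [pstep_iter]
      refine (sz_le_of_forall (B := BB (HH x.2.2).length ^ (QQ x.2.2 (HH x.2.2)).length)
        fun a ha => ?_).trans (Nat.mul_le_mul_right _ (by simpa using hi))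
      obtain ⟨d, hd, rfl⟩ := List.mem_map.1 ha
      rw [sz_nat]
      exact Nat.pow_le_pow_right (by unfold BB; omega) ((List.mem_range.1 hd).le.trans hi))
  exact (FT.comp pt_red (((FT.of_pt PT.id').mk f1).mk f4)).of_eq fun _ => rfl

theorem core_fpt {γ : Type} [Enc γ] (e : GK → γ) (he : PT e) {p q : ℕ} (hpq : 2 * p < 3 * q)
    (M : Turing.TM2ComputableAux Bool Bool) (f : ℕ → ℕ) (c : ℕ) (hf : Computable f)
    (h : ∀ x : GK, ∃ o : Option (List ℕ), Answer p q x o ∧
      Nonempty (Turing.TM2OutputsInTime M.tm ((enc (e x)).map M.inputAlphabet.invFun)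
        (some ((enc o).map M.outputAlphabet.invFun)) (f x.2.2 * ((enc (e x)).length + 1) ^ c))) :
    FPTOn (fun _ => True) Clique kOf := by
  choose o ho hM using h
  have g1 : FT kOf fun x => e (RR x) := FT.comp he ft_RR
  have hF : Computable fun k : ℕ => f (HH k).length := by
    have : ∀ k, (HH k).length = 2 ^ k := fun k => by
      rw [← List.toFinset_card_of_nodup (show (HH k).Nodup from (dd_spec _).2.1)]
      have : (HH k).toFinset = (Finset.univ : Finset (List.Vector Bool k)).image
          List.Vector.toList := by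
        ext α
        simp only [List.mem_toFinset, mem_HH, Finset.mem_image, Finset.mem_univ, true_and]
        exact ⟨fun h => ⟨⟨α, h⟩, rfl⟩, fun ⟨v, h⟩ => h ▸ v.toList_length⟩
      rw [this, Finset.card_image_of_injective _ List.Vector.toList_injective]
      simp [card_vector]
    simp only [this]
    exact hf.comp (comp_pow (comp_c 2) comp_id)
  have hT : FB kOf fun x : GK => f (RR x).2.2 * ((enc (e (RR x))).length + 1) ^ c :=
    ((FB.par hF).mul ((g1.fb.add (FB.const 1)).eval (Polynomial.X ^ c))).mono fun x => by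
      simp [kOf, RR, red]
  have g2 := FtSim.ft_machine M g1 hT (fun x => enc (o (RR x))) fun x => hM (RR x)
  refine (FT.comp PT.bisNil.not g2).fptOn fun x _ => ?_
  have h1 := ho (RR x)
  have hK : 0 < (RR x).2.2 := (len_HH _).1
  cases e1 : o (RR x) with
  | none =>
    rw [e1] at h1
    simp only [enc_none, Bits.isNil, List.isEmpty_nil, Bool.not_true, Bool.false_eq_true, iff_false]
    intro hc
    obtain ⟨S, h2, h3⟩ := (RR_spec x).1 hc
    exact h1 ⟨S, h2, h3.le⟩
  | some l =>
    rw [e1] at h1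
    have : (!Bits.isNil ⟨enc (some l)⟩) = true := by simp [Bits.isNil, pair]
    simp only [this, iff_true]
    refine (RR_spec x).2 _ h1.1 ?_
    have h2 := h1.2
    by_contra hc
    push Not at hc
    nlinarith

theorem approx_hard {p q : ℕ} (hpq : 2 * p < 3 * q) (h : FPTApprox p q) :
    FPTOn (fun _ => True) Clique kOf :=
  let ⟨M, f, c, hf, h⟩ := h
  core_fpt (fun x => x) PT.id' hpq M f c hf h

theorem scheme_hard (h : FPTScheme) : FPTOn (fun _ => True) Clique kOf :=
  let ⟨M, f, c, hf, h⟩ := h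
  core_fpt (fun x => (x, (3 : ℕ))) (by fun_prop) (p := 4) (q := 3) (by norm_num) M (fun k => f k 3) c
    (hf.comp Computable.id (Computable.const 3)) fun x => h x 3 (by norm_num)

end Pool.Agent.H22.VB
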