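import Pool.Agent.H36.ParDefs

/-!
Vertex bisectors and parameterized approximation algorithms for Vertex Bisection.
-/

namespace Pool.Agent.H22.VB

open Pool.Agent.H38.NP Pool.Agent.H36.Par

/-- `S` is a vertex bisector: the other vertices split into two parts whose sizes differ by at
most one, with no edge between the parts. -/
def IsBis {n : ℕ} (G : SimpleGraph (Fin n)) (S : Finset (Fin n)) : Prop :=
  ∃ V₁ V₂ : Finset (Fin n), Disjoint V₁ V₂ ∧ V₁ ∪ V₂ = Sᶜ ∧ V₁.card ≤ V₂.card + 1 ∧
    V₂.card ≤ V₁.card + 1 ∧ ∀ u ∈ V₁, ∀ v ∈ V₂, ¬ G.Adj u v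

/-- the set of vertices named in a list -/
def setOf' (n : ℕ) (l : List ℕ) : Finset (Fin n) := Finset.univ.filter fun v => v.val ∈ l

/-- A correct answer with ratio `p / q` on the input `(G, k)`: either a vertex bisector `S` with
`|S| ≤ (p / q) k`, or the report `none`, allowed only if no bisector has at most `k` vertices. -/
def Answer (p q : ℕ) (x : GK) : Option (List ℕ) → Prop
  | some l => IsBis (graphOf x.1 x.2.1) (setOf' x.1 l) ∧ q * (setOf' x.1 l).card ≤ p * x.2.2
  | none => ¬ ∃ S, IsBis (graphOf x.1 x.2.1) S ∧ S.card ≤ x.2.2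

/-- An FPT approximation algorithm with the fixed ratio `p / q`. -/
def FPTApprox (p q : ℕ) : Prop :=
  ∃ (M : Turing.TM2ComputableAux Bool Bool) (f : ℕ → ℕ) (c : ℕ), Computable f ∧
    ∀ x : GK, ∃ o : Option (List ℕ), Answer p q x o ∧
      Nonempty (Turing.TM2OutputsInTime M.tm ((enc x).map M.inputAlphabet.invFun)
        (some ((enc o).map M.outputAlphabet.invFun)) (f x.2.2 * ((enc x).length + 1) ^ c))

/-- An FPT approximation scheme: on input `(G, k)` and `m ≥ 1`, standing for `ε = 1 / m`, one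
machine gives a correct answer with ratio `1 + 1 / m` in time `f k m * (length + 1) ^ c`. -/
def FPTScheme : Prop :=
  ∃ (M : Turing.TM2ComputableAux Bool Bool) (f : ℕ → ℕ → ℕ) (c : ℕ), Computable₂ f ∧
    ∀ (x : GK) (m : ℕ), 1 ≤ m → ∃ o : Option (List ℕ), Answer (m + 1) m x o ∧
      Nonempty (Turing.TM2OutputsInTime M.tm ((enc (x, m)).map M.inputAlphabet.invFun)
        (some ((enc o).map M.outputAlphabet.invFun)) (f x.2.2 m * ((enc (x, m)).length + 1) ^ c))

end Pool.Agent.H22.VB
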