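import Pool.Agent.H22.WCDefs

namespace Pool.Agent.H22.WC

open Finset

variable {E : List (List ℕ)}

theorem own (S : Finset ℕ) : ∀ W : Finset ℕ, (∃ e ∈ E, ∀ v ∈ e, v ∈ W) → WW E S W := by
  induction S using Finset.strongInduction with
  | H S ih =>
    rintro W ⟨e, he, h⟩
    by_cases hc : S.card ≤ 1
    · exact .fin S W hc ⟨e, he, h⟩
    · obtain ⟨u, hu, v, hv, huv⟩ := Finset.one_lt_card.1 (not_le.1 hc)
      have : S \ {u, v} ⊂ S := Finset.sdiff_ssubset (by simp [insert_subset_iff, hu, hv]) (by simp)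
      exact .step S W u v hu hv huv (ih _ this _ ⟨e, he, fun x hx => mem_insert_of_mem (h x hx)⟩)
        (ih _ this _ ⟨e, he, fun x hx => mem_insert_of_mem (h x hx)⟩)

theorem gain {S W : Finset ℕ} {a v : ℕ} (ha : a ∈ S) (hv : v ∈ W ∨ (v ∈ S ∧ v ≠ a))
    (h : ∀ S' W' : Finset ℕ, W ⊆ W' → (∀ x ∈ S, x ≠ a → x ≠ v → x ∈ S') → (a ∈ W' ∨ v ∈ W') →
      WW E S' W') : WW E S W := by
  rcases hv with hv | hv
  · exact h S W subset_rfl (fun x hx _ _ => hx) (Or.inr hv)
  · exact .step S W a v ha hv.1 hv.2.symm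
      (h _ _ (subset_insert _ _) (fun x hx h1 h2 => by simp [*]) (by simp))
      (h _ _ (subset_insert _ _) (fun x hx h1 h2 => by simp [*]) (by simp))

def up (s : ℕ → ℚ) (u v : ℕ) : ℕ → ℚ := fun n => if n = u then 1 else if n = v then 0 else s n

def val (S W : Finset ℕ) : ℕ → ℚ := fun n => if n ∈ W then 1 else if n ∈ S then 1 / 2 else 0

theorem client (J : (ℕ → ℚ) → Prop) (h1 : ∀ s, J s → ∀ e ∈ E, ∃ v ∈ e, s v ≠ 1)
    (h2 : ∀ s u v, J s → u ≠ v → s u = 1 / 2 → s v = 1 / 2 → J (up s u v) ∨ J (up s v u))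
    {S W : Finset ℕ} (h : WW E S W) : Disjoint S W → ¬ J (val S W) := by
  induction h with
  | fin S W _ h =>
    intro _ hJ
    obtain ⟨e, he, h⟩ := h
    obtain ⟨v, hv, h'⟩ := h1 _ hJ e he
    exact h' (by simp [val, h v hv])
  | step S W u v hu hv huv _ _ ih1 ih2 =>
    intro hd hJ
    have nu : u ∉ W := disjoint_left.1 hd hu
    have nv : v ∉ W := disjoint_left.1 hd hv
    have key : ∀ a b, a ≠ b → b ∉ W → ({a, b} : Finset ℕ) = {u, v} →
        up (val S W) a b = val (S \ {u, v}) (insert a W) := fun a b hab hb e => by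
      funext n
      rw [← e]
      simp only [up, val, mem_insert, mem_sdiff, mem_singleton]
      by_cases h1 : n = a <;> by_cases h2 : n = b <;> simp_all
    have dj : ∀ a, a ∈ ({u, v} : Finset ℕ) → Disjoint (S \ {u, v}) (insert a W) := fun a ha =>
      disjoint_left.2 fun x hx hx' => by
        rcases mem_insert.1 hx' with rfl | h
        · exact (mem_sdiff.1 hx).2 ha
        · exact disjoint_left.1 hd (mem_sdiff.1 hx).1 h
    rcases h2 _ u v hJ huv (by simp [val, nu, hu]) (by simp [val, nv, hv]) with h | h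
    · exact ih1 (dj u (by simp)) (key u v huv nv rfl ▸ h)
    · exact ih2 (dj v (by simp)) (key v u huv.symm nu (pair_comm _ _) ▸ h)

theorem up_nn {s : ℕ → ℚ} (h : ∀ v, 0 ≤ s v) (u v w) : 0 ≤ up s u v w := by
  unfold up; split_ifs; exacts [zero_le_one, le_rfl, h w]

theorem prod_sm {s : ℕ → ℚ} (hs : ∀ v, 0 ≤ s v) {u v : ℕ} (h : u ≠ v) (hu : s u = 1 / 2)
    (hv : s v = 1 / 2) (d : Finset ℕ) :
    ∏ x ∈ d, up s u v x + ∏ x ∈ d, up s v u x ≤ 2 * ∏ x ∈ d, s x := by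
  have z : ∀ a b, a ≠ b → b ∈ d → ∏ x ∈ d, up s a b x = 0 := fun a b hab hb =>
    prod_eq_zero hb (by simp [up, hab.symm])
  have o : ∀ a b, s a = 1 / 2 → a ∈ d → b ∉ d → ∏ x ∈ d, up s a b x = 2 * ∏ x ∈ d, s x :=
    fun a b ha h1 h2 => by
      rw [← mul_prod_erase d _ h1, ← mul_prod_erase d s h1, ha,
        prod_congr rfl (g := s) fun x hx => by
          have h3 := mem_erase.1 hx
          have : x ≠ b := fun e => h2 (e ▸ h3.2)
          simp [up, h3.1, this]]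
      simp [up]
  have n : ∀ a b, a ∉ d → b ∉ d → ∏ x ∈ d, up s a b x = ∏ x ∈ d, s x := fun a b h1 h2 =>
    prod_congr rfl fun x hx => by
      have : x ≠ a := fun e => h1 (e ▸ hx)
      have : x ≠ b := fun e => h2 (e ▸ hx)
      simp [up, *]
  have := prod_nonneg (s := d) fun x _ => hs x
  by_cases h1 : u ∈ d <;> by_cases h2 : v ∈ d
  · rw [z u v h h2, z v u h.symm h1]; linarith
  · rw [o u v hu h1 h2, z v u h.symm h1]; linarith
  · rw [z u v h h2, o v u hv h2 h1]; linarith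
  · rw [n u v h1 h2, n v u h2 h1]; linarith

def Phi (D : List (Finset ℕ)) (s : ℕ → ℚ) : ℚ := (D.map fun d => ∏ x ∈ d, s x).sum

def ES (E : List (List ℕ)) (s : ℕ → ℚ) : Prop :=
  (∀ v, 0 ≤ s v) ∧ ∃ D : List (Finset ℕ), Phi D s < 1 ∧
    ∀ e ∈ E, (∃ v ∈ e, s v = 0) ∨ ∃ d ∈ D, ∀ v ∈ d, v ∈ e

theorem ES.no {s} (h : ES E s) : ∀ e ∈ E, ∃ v ∈ e, s v ≠ 1 := fun e he => by
  obtain ⟨h0, D, h1, h2⟩ := h
  by_contra hc
  push Not at hc
  rcases h2 e he with ⟨v, hv, h⟩ | ⟨d, hd, h⟩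
  · simp [hc v hv] at h
  · have : (∏ x ∈ d, s x) ≤ Phi D s :=
      List.single_le_sum (fun y hy => by
        obtain ⟨d, _, rfl⟩ := List.mem_map.1 hy
        exact prod_nonneg fun x _ => h0 x) _ (List.mem_map.2 ⟨d, hd, rfl⟩)
    rw [prod_eq_one fun x hx => hc x (h x hx)] at this
    linarith

theorem ES.step {s u v} (h : ES E s) (huv : u ≠ v) (hu : s u = 1 / 2) (hv : s v = 1 / 2) :
    ES E (up s u v) ∨ ES E (up s v u) := by
  obtain ⟨h0, D, h1, h2⟩ := h
  have : Phi D (up s u v) + Phi D (up s v u) ≤ 2 * Phi D s := by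
    clear h1 h2
    induction D with
    | nil => simp [Phi]
    | cons d D ih =>
      have := prod_sm h0 huv hu hv d
      simp only [Phi, List.map_cons, List.sum_cons] at ih ⊢
      linarith
  have k : ∀ a b, s a = 1 / 2 → Phi D (up s a b) < 1 → ES E (up s a b) := fun a b ha h =>
    ⟨up_nn h0 a b, D, h, fun e he => (h2 e he).imp_left fun ⟨x, hx, h3⟩ => ⟨x, hx, by
      have : x ≠ a := fun e => by rw [e, ha] at h3; norm_num at h3
      simp [up, this, h3]⟩⟩
  by_cases h3 : Phi D (up s u v) < 1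
  · exact Or.inl (k u v hu h3)
  · exact Or.inr (k v u hv (by linarith))

end Pool.Agent.H22.WC
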