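import Pool.Agent.H22.WC1

namespace Pool.Agent.H22.WC

def gam (t : ℕ) : List ℕ := (List.range (7 * t)).filter fun v => decide (4 ≤ v % 7)

def item (L1 L2 : ℕ → List ℕ) (t : ℕ) : List (List ℕ) :=
  [gam t ++ [7 * t, 7 * t + 1], gam t ++ [7 * t + 4, 7 * t + 2],
    gam t ++ [7 * t + 4, 7 * t + 5, 7 * t + 3]] ++
  [0, 1].flatMap fun b => ((7 * t + 5) :: L1 (7 * t + b)).flatMap fun α =>
    ((7 * t + 3) :: L2 (7 * t + b)).map fun β => gam t ++ [7 * t + b, 7 * t + 2, α, β]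

def edges (N : ℕ) (L1 L2 : ℕ → List ℕ) : List (List ℕ) :=
  gam N :: (List.range N).flatMap (item L1 L2)

theorem mem_gam {t v : ℕ} : v ∈ gam t ↔ v < 7 * t ∧ 4 ≤ v % 7 := by simp [gam]

variable {N : ℕ} {L1 L2 : ℕ → List ℕ}

theorem mem_edges {e : List ℕ} : e ∈ edges N L1 L2 ↔ e = gam N ∨ ∃ t < N,
    e = gam t ++ [7 * t, 7 * t + 1] ∨ e = gam t ++ [7 * t + 4, 7 * t + 2] ∨
    e = gam t ++ [7 * t + 4, 7 * t + 5, 7 * t + 3] ∨ ∃ b ≤ 1, ∃ α, (α = 7 * t + 5 ∨
      α ∈ L1 (7 * t + b)) ∧ ∃ β, (β = 7 * t + 3 ∨ β ∈ L2 (7 * t + b)) ∧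
        e = gam t ++ [7 * t + b, 7 * t + 2, α, β] := by
  simp only [edges, item, List.mem_cons, List.mem_flatMap, List.mem_range, List.mem_append,
    List.mem_map, List.not_mem_nil, or_false, or_assoc, Nat.le_one_iff_eq_zero_or_eq_one,
    eq_comm (b := e)]

theorem verts {v : ℕ} (h : v < 7 * N) : v ∈ (edges N L1 L2).flatten.toFinset := by
  simp only [List.mem_toFinset, List.mem_flatten]
  have ht : v / 7 < N := by omega
  by_cases h1 : 4 ≤ v % 7
  · exact ⟨_, mem_edges.2 (Or.inl rfl), mem_gam.2 ⟨h, h1⟩⟩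
  by_cases h2 : v % 7 ≤ 1
  · exact ⟨_, mem_edges.2 (Or.inr ⟨_, ht, Or.inl rfl⟩), by simp; omega⟩
  by_cases h3 : v % 7 = 2
  · exact ⟨_, mem_edges.2 (Or.inr ⟨_, ht, Or.inr (Or.inl rfl)⟩), by simp; omega⟩
  · exact ⟨_, mem_edges.2 (Or.inr ⟨_, ht, Or.inr (Or.inr (Or.inl rfl))⟩), by simp; omega⟩

def Good (N : ℕ) (X : ℕ → ℕ) (t v : ℕ) : Prop :=
  v = 7 * t + 2 ∨ (v < 7 * N ∧ v % 7 ≤ 1 ∧ v % 7 ≠ X (v / 7) ∧ v / 7 ≠ t)

theorem waiter (X : ℕ → ℕ) (hX : ∀ t, X t ≤ 1)
    (h : ∀ t < N, ∃ u ∈ L1 (7 * t + X t), ∃ w ∈ L2 (7 * t + X t),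
      Good N X t u ∧ Good N X t w ∧ (u = w → u = 7 * t + 2)) : WaiterWins (edges N L1 L2) := by
  have main : ∀ k t, t + k = N → ∀ S W : Finset ℕ, (∀ v ∈ gam t, v ∈ W) →
      (∀ v < 7 * N, (7 * t ≤ v ∨ (v % 7 ≤ 1 ∧ v % 7 ≠ X (v / 7))) → v ∈ S) →
      WW (edges N L1 L2) S W := by
    intro k
    induction k with
    | zero =>
      rintro t rfl S W h1 _
      exact own S W ⟨_, mem_edges.2 (Or.inl rfl), h1⟩
    | succ k ih =>
      intro t ht S W h1 h2
      have hx := hX t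
      have tN : t < N := by omega
      have hs : ∀ i < 7, 7 * t + i ∈ S := fun i hi => h2 _ (by omega) (Or.inl (by omega))
      refine .step S W (7 * t + X t) (7 * t + 4) (hs _ (by omega)) (hs _ (by omega)) (by omega)
        ?_ ?_
      · refine .step _ _ (7 * t + (1 - X t)) (7 * t + 2) (by simp [hs (1 - X t) (by omega)]; omega)
          (by simp [hs 2 (by omega)]; omega) (by omega) (own _ _ ⟨_,
            mem_edges.2 (Or.inr ⟨t, tN, Or.inl rfl⟩), fun v hv => ?_⟩) ?_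
        · simp only [List.mem_append, List.mem_cons, List.not_mem_nil, or_false,
            Finset.mem_insert] at hv ⊢
          rcases hv with hv | hv
          · exact Or.inr (Or.inr (h1 v hv))
          · omega
        obtain ⟨u, hu, w, hw, gu, gw, huw⟩ := h t tN
        have gs : ∀ v, Good N X t v → v = 7 * t + 2 ∨ (v % 7 ≤ 1 ∧ v ∈ (S \ {7 * t + X t, 7 * t + 4}) \
            {7 * t + (1 - X t), 7 * t + 2}) := fun v hv => hv.imp_right fun hv =>
          ⟨hv.2.1, by simp [h2 v hv.1 (Or.inr ⟨hv.2.1, hv.2.2.1⟩)]; omega⟩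
        refine gain (a := 7 * t + 5) (v := u) (by simp [hs 5 (by omega)]; omega)
          ((gs u gu).imp (fun e => by simp [e]) fun e => ⟨e.2, by omega⟩) fun S1 W1 a1 a2 a3 => ?_
        refine gain (a := 7 * t + 3) (v := w) (a2 _ (by simp [hs 3 (by omega)]; omega) (by omega)
          (by rcases gs u gu with e | e <;> omega))
          ((gs w gw).imp (fun e => a1 (by simp [e])) fun e => ⟨a2 _ e.2 (by omega)
            (fun e' => by have := huw e'.symm; omega), by omega⟩) fun S2 W2 b1 _ b3 => ?_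
        obtain ⟨α, c1, c2⟩ : ∃ α, (α = 7 * t + 5 ∨ α ∈ L1 (7 * t + X t)) ∧ α ∈ W1 :=
          a3.elim (fun e => ⟨_, Or.inl rfl, e⟩) fun e => ⟨_, Or.inr hu, e⟩
        obtain ⟨β, d1, d2⟩ : ∃ β, (β = 7 * t + 3 ∨ β ∈ L2 (7 * t + X t)) ∧ β ∈ W2 :=
          b3.elim (fun e => ⟨_, Or.inl rfl, e⟩) fun e => ⟨_, Or.inr hw, e⟩
        refine own _ _ ⟨_, mem_edges.2 (Or.inr ⟨t, tN, Or.inr (Or.inr (Or.inr
          ⟨_, hx, α, c1, β, d1, rfl⟩))⟩), fun v hv => ?_⟩
        simp only [List.mem_append, List.mem_cons, List.not_mem_nil, or_false] at hv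
        rcases hv with hv | rfl | rfl | rfl | rfl
        · exact b1 (a1 (by simp [h1 v hv]))
        · exact b1 (a1 (by simp))
        · exact b1 (a1 (by simp))
        · exact b1 c2
        · exact d2
      refine .step _ _ (7 * t + 2) (7 * t + 5) (by simp [hs 2 (by omega)]; omega)
        (by simp [hs 5 (by omega)]; omega) (by omega) (own _ _ ⟨_,
          mem_edges.2 (Or.inr ⟨t, tN, Or.inr (Or.inl rfl)⟩), fun v hv => ?_⟩) ?_
      · simp only [List.mem_append, List.mem_cons, List.not_mem_nil, or_false,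
          Finset.mem_insert] at hv ⊢
        rcases hv with hv | hv
        · exact Or.inr (Or.inr (h1 v hv))
        · omega
      refine .step _ _ (7 * t + 3) (7 * t + 6) (by simp [hs 3 (by omega)]; omega)
        (by simp [hs 6 (by omega)]; omega) (by omega) (own _ _ ⟨_,
          mem_edges.2 (Or.inr ⟨t, tN, Or.inr (Or.inr (Or.inl rfl))⟩), fun v hv => ?_⟩) ?_
      · simp only [List.mem_append, List.mem_cons, List.not_mem_nil, or_false,
          Finset.mem_insert] at hv ⊢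
        rcases hv with hv | hv
        · exact Or.inr (Or.inr (Or.inr (h1 v hv)))
        · omega
      refine ih (t + 1) (by omega) _ _ (fun v hv => ?_) fun v hv hv' => ?_
      · have := mem_gam.1 hv
        simp only [Finset.mem_insert]
        by_cases e : v < 7 * t
        · exact Or.inr (Or.inr (Or.inr (h1 v (mem_gam.2 ⟨e, this.2⟩))))
        · omega
      · have : v ≠ 7 * t + X t := by
          rintro rfl
          rw [show (7 * t + X t) / 7 = t by omega] at hv'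
          omega
        simp only [Finset.mem_sdiff, Finset.mem_insert, Finset.mem_singleton]
        exact ⟨⟨⟨h2 v hv (by omega), by omega⟩, by omega⟩, by omega⟩
  exact main N 0 (by omega) _ _ (by simp [gam]) fun v hv _ => verts hv

end Pool.Agent.H22.WC
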