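import Pool.Agent.H22.WC2

namespace Pool.Agent.H22.WC

def LH (p : ℕ → ℚ) (x : ℕ) : Prop :=
  ((p 0 = 1 / 2 ∧ p 1 = 1 / 2 ∧ p 4 = 1 / 2) ∨ (p 4 = 1 ∧ x ≤ 1 ∧ p x = 0)) ∧
  ((p 2 = 1 / 2 ∧ p 5 = 1 / 2) ∨ (p 2 = 0 ∧ p 5 = 1)) ∧
  ((p 3 = 1 / 2 ∧ p 6 = 1 / 2) ∨ (p 3 = 0 ∧ p 6 = 1))

def wF (p : ℕ → ℚ) : ℚ := p 0 * p 1 + p 2 + p 4 * p 5 * p 3 + p 4 * p 5 * p 6

def loc (s : ℕ → ℚ) (t : ℕ) : ℕ → ℚ := fun i => s (7 * t + i)

theorem LH.le {p x} (h : LH p x) : wF p ≤ 1 ∧ 0 < p 4 * p 5 * p 6 := by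
  obtain ⟨h1 | ⟨h1, hx, h1'⟩, h2 | h2, h3 | h3⟩ := h <;> (try interval_cases x) <;>
    simp only [wF, *] <;> norm_num

theorem LH.agree {p p' : ℕ → ℚ} {x} (h : LH p x)
    (e : ∀ i < 7, p' i = p i ∨ (i ≤ 1 ∧ p 4 = 1 ∧ p i = 1 / 2)) : LH p' x := by
  have e' : ∀ i < 7, 2 ≤ i → p' i = p i := fun i h1 h2 => (e i h1).resolve_right (by omega)
  unfold LH at h ⊢
  rw [e' 2, e' 3, e' 4, e' 5, e' 6] <;> try omega
  refine ⟨h.1.imp (fun h1 => ?_) fun h1 => ⟨h1.1, h1.2.1, ?_⟩, h.2⟩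
  · have : p 4 ≠ 1 := by rw [h1.2.2]; norm_num
    rw [(e 0 (by omega)).resolve_right (by tauto), (e 1 (by omega)).resolve_right (by tauto)]
    exact h1
  · rcases e x (by omega) with h2 | h2
    · rw [h2, h1.2.2]
    · rw [h1.2.2] at h2; norm_num at h2

theorem LH.single {p p' : ℕ → ℚ} {x i} (h : LH p x) (hi : i < 7) (h0 : p i = 1 / 2)
    (hc : ¬ (i ≤ 1 ∧ p 4 = 1)) (e : ∀ n < 7, p' n = if n = i then 0 else p n) : wF p' < 1 := by
  simp only [wF, e, Nat.reduceLT, Nat.ofNat_pos, Nat.one_lt_ofNat]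
  obtain ⟨h1 | ⟨h1, hx, h1'⟩, h2 | h2, h3 | h3⟩ := h <;> (try interval_cases x) <;>
    interval_cases i <;> simp_all <;> norm_num

theorem LH.pair {p : ℕ → ℚ} {x i j} (h : LH p x) (hij : i < j) (hj : j < 7) (h0 : p i = 1 / 2)
    (h0' : p j = 1 / 2) (hc : ¬ (i ≤ 1 ∧ p 4 = 1)) :
    wF (up p i j) < 1 ∨ wF (up p j i) < 1 ∨ (i ≤ 1 ∧ j = 5 ∧ p 2 = 1 / 2) ∨ (i ≤ 1 ∧ j = 4) ∨
      (2 ≤ i ∧ j ≠ 4 ∧ i ≠ 4 ∧ LH (up p j i) x) := by
  obtain ⟨h1 | ⟨h1, hx, h1'⟩, h2 | h2, h3 | h3⟩ := h <;> (try interval_cases x) <;>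
    interval_cases j <;> interval_cases i <;> simp_all [wF, up, LH] <;> norm_num

def sh (t : ℕ) (c : List ℕ) : Finset ℕ := (gam t ++ c.map (7 * t + ·)).toFinset

def G (s : ℕ → ℚ) (t : ℕ) : ℚ := ((gam t).map s).prod

theorem prod_sh (s : ℕ → ℚ) (t : ℕ) {c : List ℕ} (hc : c.Nodup) :
    ∏ x ∈ sh t c, s x = G s t * (c.map (loc s t)).prod := by
  rw [sh, List.prod_toFinset, List.map_append, List.prod_append, List.map_map]
  · rfl
  · refine List.nodup_append.2 ⟨List.nodup_range.filter _, hc.map fun a b h => by simpa using h,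
      fun a ha b hb => ?_⟩
    obtain ⟨i, _, rfl⟩ := List.mem_map.1 hb
    have := mem_gam.1 ha
    omega

theorem gam_succ (t : ℕ) : gam (t + 1) = gam t ++ [7 * t + 4, 7 * t + 5, 7 * t + 6] := by
  rw [gam, show 7 * (t + 1) = 7 * t + 7 by omega, List.range_add, List.filter_append]
  simp [gam, List.range_succ, List.filter_cons]

def base (t : ℕ) : List (Finset ℕ) :=
  (List.range t).flatMap fun r => [sh r [0, 1], sh r [2], sh r [4, 5, 3]]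

theorem phi_base {s : ℕ → ℚ} {X : ℕ → ℕ} {t : ℕ} (h : ∀ r < t, LH (loc s r) (X r)) :
    Phi (base t) s ≤ 1 - G s t ∧ 0 < G s t := by
  induction t with
  | zero => simp [Phi, base, G, gam]
  | succ t ih =>
    obtain ⟨h1, h2⟩ := ih fun r hr => h r (by omega)
    obtain ⟨h3, h4⟩ := (h t (by omega)).le
    have e : G s (t + 1) = G s t * (loc s t 4 * loc s t 5 * loc s t 6) := by
      simp [G, gam_succ, loc, mul_assoc]
    refine ⟨?_, e ▸ mul_pos h2 h4⟩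
    simp only [Phi, base, List.range_succ, List.flatMap_append, List.map_append, List.sum_append,
      List.flatMap_singleton, List.map_cons, List.map_nil, List.sum_cons, List.sum_nil] at h1 ⊢
    rw [prod_sh, prod_sh, prod_sh, e] <;> try decide
    simp only [List.map_cons, List.map_nil, List.prod_cons, List.prod_nil]
    unfold wF at h3
    nlinarith [mul_le_mul_of_nonneg_left h3 h2.le]

variable {N : ℕ} {L1 L2 : ℕ → List ℕ}

theorem cut {s : ℕ → ℚ} {X : ℕ → ℕ} {t : ℕ} (ht : t < N) (h0 : ∀ v, 0 ≤ s v)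
    (h : ∀ r < t, LH (loc s r) (X r)) (D : List (List ℕ)) (hD : ∀ c ∈ D, c.Nodup)
    (hw : (D.map fun c => (c.map (loc s t)).prod).sum < 1)
    (d1 : ∀ c ∈ [[0, 1], [4, 2], [4, 5, 3], [4, 5, 6]],
      (∃ i ∈ c, loc s t i = 0) ∨ ∃ d ∈ D, ∀ i ∈ d, i ∈ c)
    (d2 : ∀ b ≤ 1, ∀ α, (α = 7 * t + 5 ∨ α ∈ L1 (7 * t + b)) → ∀ β,
      (β = 7 * t + 3 ∨ β ∈ L2 (7 * t + b)) → (s (7 * t + b) = 0 ∨ s α = 0 ∨ s β = 0) ∨
        ∃ d ∈ D, ∀ i ∈ d, i = b ∨ i = 2 ∨ 7 * t + i = α ∨ 7 * t + i = β) :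
    ES (edges N L1 L2) s := by
  obtain ⟨h1, h2⟩ := phi_base h
  refine ⟨h0, base t ++ D.map (sh t), ?_, fun e he => ?_⟩
  · have : Phi (D.map (sh t)) s = G s t * (D.map fun c => (c.map (loc s t)).prod).sum := by
      rw [Phi, List.map_map, ← List.sum_map_mul_left]
      exact congrArg _ (List.map_congr_left fun c hc => prod_sh s t (hD c hc))
    simp only [Phi, List.map_append, List.sum_append] at h1 this ⊢
    nlinarith [mul_lt_mul_of_pos_left hw h2]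
  have k1 : ∀ c ∈ [[0, 1], [4, 2], [4, 5, 3], [4, 5, 6]], (∀ v ∈ sh t c, v ∈ e) →
      (∃ v ∈ e, s v = 0) ∨ ∃ d ∈ base t ++ D.map (sh t), ∀ v ∈ d, v ∈ e := fun c hc hs =>
    (d1 c hc).imp (fun ⟨i, hi, h⟩ => ⟨_, hs _ (by simp [sh, hi]), h⟩) fun ⟨d, hd, h⟩ =>
      ⟨sh t d, by simp only [List.mem_append, List.mem_map]; exact Or.inr ⟨d, hd, rfl⟩,
        fun v hv => hs v (by
          simp only [sh, List.mem_toFinset, List.mem_append, List.mem_map] at hv ⊢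
          exact hv.imp_right fun ⟨i, hi, e⟩ => ⟨i, h i hi, e⟩)⟩
  have k2 : ∀ r, t < r → (∀ v ∈ gam r, v ∈ e) →
      (∃ v ∈ e, s v = 0) ∨ ∃ d ∈ base t ++ D.map (sh t), ∀ v ∈ d, v ∈ e := fun r hr hs =>
    k1 [4, 5, 6] (by simp) fun v hv => hs v (by
      simp [sh, mem_gam] at hv ⊢
      omega)
  have k3 : ∀ r < t, ∀ c ∈ [[0, 1], [2], [4, 5, 3]], (∀ v ∈ sh r c, v ∈ e) →
      (∃ v ∈ e, s v = 0) ∨ ∃ d ∈ base t ++ D.map (sh t), ∀ v ∈ d, v ∈ e := fun r hr c hc hs =>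
    Or.inr ⟨sh r c, List.mem_append_left _ (List.mem_flatMap.2 ⟨r, List.mem_range.2 hr,
      (List.mem_map (f := sh r) (l := [[0, 1], [2], [4, 5, 3]])).2 ⟨c, hc, rfl⟩⟩), hs⟩
  rcases mem_edges.1 he with rfl | ⟨r, hr, he⟩
  · exact k2 N ht fun v hv => hv
  rcases lt_trichotomy r t with h3 | rfl | h3
  · rcases he with rfl | rfl | rfl | ⟨b, _, α, _, β, _, rfl⟩
    · exact k3 r h3 [0, 1] (by simp) fun _ hv => List.mem_toFinset.1 hv
    · exact k3 r h3 [2] (by simp) (by simp +contextual [sh, or_imp])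
    · exact k3 r h3 [4, 5, 3] (by simp) fun _ hv => List.mem_toFinset.1 hv
    · exact k3 r h3 [2] (by simp) (by simp +contextual [sh, or_imp])
  · rcases he with rfl | rfl | rfl | ⟨b, hb, α, ha, β, hβ, rfl⟩
    · exact k1 [0, 1] (by simp) fun _ hv => List.mem_toFinset.1 hv
    · exact k1 [4, 2] (by simp) fun _ hv => List.mem_toFinset.1 hv
    · exact k1 [4, 5, 3] (by simp) fun _ hv => List.mem_toFinset.1 hv
    · rcases d2 b hb α ha β hβ with (h4 | h4 | h4) | ⟨d, hd, h4⟩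
      · exact Or.inl ⟨_, by simp, h4⟩
      · exact Or.inl ⟨_, by simp, h4⟩
      · exact Or.inl ⟨_, by simp, h4⟩
      · refine Or.inr ⟨sh r d, List.mem_append_right _ (List.mem_map.2 ⟨d, hd, rfl⟩), fun v hv => ?_⟩
        simp only [sh, List.mem_toFinset, List.mem_append, List.mem_map, List.mem_cons] at hv ⊢
        refine hv.imp_right fun ⟨i, hi, e⟩ => ?_
        have := h4 i hi
        omega
  · refine k2 r h3 fun v hv => ?_
    rcases he with rfl | rfl | rfl | ⟨b, _, α, _, β, _, rfl⟩ <;> exact List.mem_append_left _ hv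

theorem cutF {s : ℕ → ℚ} {X : ℕ → ℕ} {t : ℕ} (ht : t < N) (h0 : ∀ v, 0 ≤ s v)
    (h : ∀ r < t, LH (loc s r) (X r)) (hw : wF (loc s t) < 1) : ES (edges N L1 L2) s :=
  cut ht h0 h [[0, 1], [2], [4, 5, 3], [4, 5, 6]] (by decide)
    (by simpa [wF, mul_assoc, add_assoc] using hw) (by simp)
    fun _ _ _ _ _ _ => Or.inr ⟨[2], by simp, by simp⟩

end Pool.Agent.H22.WC
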