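import Pool.Agent.H22.WC3

namespace Pool.Agent.H22.WC

def Cl (L1 L2 : ℕ → List ℕ) (K : ℕ → Prop) : Prop :=
  ∀ m, K m → (∀ u ∈ L1 m, K u ∧ u ≠ m) ∨ ∀ u ∈ L2 m, K u ∧ u ≠ m

def Ch (N : ℕ) (s : ℕ → ℚ) (X : ℕ → ℕ) (m : ℕ) : Prop :=
  m < 7 * N ∧ s (7 * (m / 7) + 4) = 1 ∧ m % 7 = X (m / 7)

def Hon (N : ℕ) (L1 L2 : ℕ → List ℕ) (s : ℕ → ℚ) : Prop :=
  (∀ v, 0 ≤ s v) ∧ ∃ X : ℕ → ℕ, (∀ t < N, LH (loc s t) (X t)) ∧
    ∀ K, Cl L1 L2 K → (∀ m, K m → Ch N s X m) → ∀ m, ¬ K m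

def Crit (N : ℕ) (s : ℕ → ℚ) (w : ℕ) : Prop := w < 7 * N ∧ ¬ (w % 7 ≤ 1 ∧ s (7 * (w / 7) + 4) = 1)

variable {N : ℕ} {L1 L2 : ℕ → List ℕ}

theorem LH.done {p x} (h : LH p x) (h4 : p 4 = 1) : x ≤ 1 ∧ p x = 0 := by
  rcases h.1 with h | h
  · rw [h4] at h; norm_num at h
  · exact h.2

theorem Hon.no {s} (h : Hon N L1 L2 s)
    (hu : ∀ X : ℕ → ℕ, (∀ t < N, X t ≤ 1) → ∃ K, Cl L1 L2 K ∧ (∃ m, K m) ∧
      ∀ m, K m → m < 7 * N ∧ m % 7 = X (m / 7)) : ∀ e ∈ edges N L1 L2, ∃ v ∈ e, s v ≠ 1 := by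
  obtain ⟨_, X, h1, h2⟩ := h
  intro e he
  by_contra hc
  push Not at hc
  rcases mem_edges.1 he with rfl | ⟨t, ht, he⟩
  · have g : ∀ t < N, s (7 * t + 4) = 1 := fun t ht => hc _ (mem_gam.2 (by omega))
    obtain ⟨K, k1, ⟨m, hm⟩, k2⟩ := hu X fun t ht => ((h1 t ht).done (g t ht)).1
    exact h2 K k1 (fun m hm => ⟨(k2 m hm).1, g _ (by have := (k2 m hm).1; omega), (k2 m hm).2⟩) m hm
  · obtain ⟨a1, a2, a3⟩ := h1 t ht
    have q : s (7 * t + 2) ≠ 1 := by rcases a2 with a | a <;> rw [show s _ = _ from a.1] <;> norm_num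
    rcases he with rfl | rfl | rfl | ⟨b, _, α, _, β, _, rfl⟩
    · have b0 : loc s t 0 = 1 := hc _ (by simp)
      have b1 : loc s t 1 = 1 := hc _ (by simp)
      rcases a1 with a | ⟨_, a, a'⟩
      · rw [b0] at a; norm_num at a
      · interval_cases X t <;> simp_all
    · exact q (hc _ (by simp))
    · have b0 : loc s t 3 = 1 := hc _ (by simp)
      rw [b0] at a3; norm_num at a3
    · exact q (hc _ (by simp))

theorem lh_up {s : ℕ → ℚ} {r x u v : ℕ} (h : LH (loc s r) x) (hr : r < N)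
    (hu : s u = 1 / 2) (hv : s v = 1 / 2) (cu : ¬ Crit N s u ∨ u / 7 ≠ r)
    (cv : ¬ Crit N s v ∨ v / 7 ≠ r) : LH (loc (up s u v) r) x := by
  refine h.agree fun i hi => ?_
  have k : ∀ w, s w = 1 / 2 → (¬ Crit N s w ∨ w / 7 ≠ r) → 7 * r + i = w →
      i ≤ 1 ∧ loc s r 4 = 1 ∧ loc s r i = 1 / 2 := by
    rintro w h1 h2 rfl
    have e : (7 * r + i) / 7 = r := by omega
    have := h2.resolve_right (by omega)
    simp only [Crit, e, not_and, not_not, not_forall] at this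
    obtain ⟨h3, h4⟩ := this (by omega)
    exact ⟨by omega, h4, h1⟩
  by_cases h1 : 7 * r + i = u
  · exact Or.inr (k u hu cu h1)
  by_cases h2 : 7 * r + i = v
  · exact Or.inr (k v hv cv h2)
  · exact Or.inl (by simp [loc, up, h1, h2])

theorem loc_up (s : ℕ → ℚ) (t i j : ℕ) :
    loc (up s (7 * t + i) (7 * t + j)) t = up (loc s t) i j := by
  funext n; simp [loc, up]

theorem step1 {s u v} (h : Hon N L1 L2 s) (huv : u ≠ v) (hu : s u = 1 / 2) (hv : s v = 1 / 2)
    (cu : Crit N s u) (cv : ¬ Crit N s v ∨ u / 7 < v / 7) : ES (edges N L1 L2) (up s v u) := by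
  obtain ⟨h0, X, h1, _⟩ := h
  have ht : u / 7 < N := by have := cu.1; omega
  refine cutF (X := X) ht (up_nn h0 _ _) (fun r hr => lh_up (h1 r (by omega)) (N := N) (by omega)
    hv hu (cv.imp_right (by omega)) (Or.inr (by omega))) ?_
  have a : LH (loc (up s v v) (u / 7)) (X (u / 7)) :=
    lh_up (h1 _ ht) ht hv hv (cv.imp_right (by omega)) (cv.imp_right (by omega))
  have e : 7 * (u / 7) + u % 7 = u := Nat.div_add_mod u 7
  refine a.single (i := u % 7) (by omega) (by simp [loc, up, e, huv, hu]) (fun h => cu.2 ⟨h.1, ?_⟩)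
    fun n _ => ?_
  · have h3 := h.2
    have : 7 * (u / 7) + 4 ≠ v := by
      rintro rfl
      exact cv.elim (fun c => c ⟨by omega, by omega⟩) (by omega)
    simpa [loc, up, this] using h3
  · by_cases h3 : n = u % 7
    · simp [loc, up, h3, e, huv]
    · have : 7 * (u / 7) + n ≠ u := by omega
      simp only [loc, up, h3, this, if_false]
      split_ifs <;> rfl

theorem step2 {s t i j} (h : Hon N L1 L2 s) (ht : t < N) (hij : i < j) (hj : j < 7)
    (hu : s (7 * t + i) = 1 / 2) (hv : s (7 * t + j) = 1 / 2)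
    (cu : ¬ (i ≤ 1 ∧ s (7 * t + 4) = 1)) :
    (Hon N L1 L2 (up s (7 * t + j) (7 * t + i)) ∨ ES (edges N L1 L2) (up s (7 * t + j) (7 * t + i)))
      ∨ ES (edges N L1 L2) (up s (7 * t + i) (7 * t + j)) := by
  obtain ⟨h0, X, h1, h2⟩ := h
  have l1 : ∀ r < N, r ≠ t → LH (loc (up s (7 * t + j) (7 * t + i)) r) (X r) := fun r hr e =>
    lh_up (h1 r hr) hr hv hu (Or.inr (by omega)) (Or.inr (by omega))
  have l2 : ∀ r < t, LH (loc (up s (7 * t + i) (7 * t + j)) r) (X r) := fun r hr =>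
    lh_up (h1 r (by omega)) (N := N) (by omega) hu hv (Or.inr (by omega)) (Or.inr (by omega))
  have fr : i ≤ 1 → loc s t 0 = 1 / 2 ∧ loc s t 1 = 1 / 2 ∧ loc s t 4 = 1 / 2 := fun h =>
    (h1 t ht).1.resolve_right fun h' => cu ⟨h, h'.1⟩
  rcases (h1 t ht).pair hij hj hu hv cu with h3 | h3 | ⟨h3, rfl, h4⟩ | ⟨h3, rfl⟩ | h3
  · exact Or.inr (cutF ht (up_nn h0 _ _) l2 (loc_up s t i j ▸ h3))
  · exact Or.inl (Or.inr (cutF ht (up_nn h0 _ _) (fun r hr => l1 r (by omega) (by omega))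
      (loc_up s t j i ▸ h3)))
  · obtain ⟨a0, a1, a4⟩ := fr h3
    refine Or.inl (Or.inr (cut ht (up_nn h0 _ _) (fun r hr => l1 r (by omega) (by omega))
      [[4], [1 - i, 2]] ?_ ?_ ?_ fun b hb α _ β _ => ?_))
    · interval_cases i <;> decide
    · rw [loc_up]; interval_cases i <;> simp [up, *] <;> norm_num
    · rw [loc_up]; interval_cases i <;> simp [up]
    · by_cases e : b = i
      · exact Or.inl (Or.inl (by simp [up, e]; omega))
      · exact Or.inr ⟨[1 - i, 2], by simp, by simp; omega⟩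
  · obtain ⟨a0, a1, a4⟩ := fr h3
    by_cases hK : ∀ K, Cl L1 L2 K → (∀ m, K m → Ch N (up s (7 * t + 4) (7 * t + i))
        (Function.update X t i) m) → ∀ m, ¬ K m
    · refine Or.inl (Or.inl ⟨up_nn h0 _ _, _, fun r hr => ?_, hK⟩)
      by_cases e : r = t
      · subst e
        obtain ⟨_, b1, b2⟩ := h1 r hr
        rw [loc_up, Function.update_self]
        interval_cases i <;> simp [LH, up] <;> simpa using And.intro b1 b2
      · rw [Function.update_of_ne e]; exact l1 r hr e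
    push Not at hK
    obtain ⟨K, k1, k2, m0, hm0⟩ := hK
    have old : ∀ m, K m → m ≠ 7 * t + i → Ch N s X m ∧ m / 7 ≠ t := fun m hm e => by
      obtain ⟨b1, b2, b3⟩ := k2 m hm
      have e' : m / 7 ≠ t := fun e' => by rw [e', Function.update_self] at b3; omega
      rw [Function.update_of_ne e'] at b3
      have : 7 * (m / 7) + 4 ≠ 7 * t + i := by omega
      exact ⟨⟨b1, by simpa [up, e', this] using b2, b3⟩, e'⟩
    have hm : K (7 * t + i) := by
      by_contra hm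
      exact h2 K k1 (fun m h => (old m h fun e => hm (e ▸ h)).1) m0 hm0
    have dead : ∀ m, K m ∧ m ≠ 7 * t + i → up s (7 * t + i) (7 * t + 4) m = 0 := fun m h => by
      obtain ⟨⟨b1, b2, b3⟩, _⟩ := old m h.1 h.2
      have := ((h1 (m / 7) (by omega)).done b2).2
      simp only [loc, ← b3, Nat.div_add_mod] at this
      simp [up, h.2, this]
    obtain ⟨_, b1, b2⟩ := h1 t ht
    refine Or.inr ?_
    rcases k1 _ hm with k3 | k3
    · refine cut ht (up_nn h0 _ _) l2 [[1 - i], [2, 5]] (by simp) ?_ ?_ fun b hb α ha β _ => ?_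
      · rw [loc_up]; rcases b1 with b1 | b1 <;> interval_cases i <;> simp [up, *] <;> norm_num
      · rw [loc_up]; interval_cases i <;> simp [up]
      · by_cases e : b = i
        · subst e
          exact ha.elim (fun e => Or.inr ⟨[2, 5], by simp, by simp [e]⟩)
            fun e => Or.inl (Or.inr (Or.inl (dead _ (k3 _ e))))
        · exact Or.inr ⟨[1 - i], by simp, by simp; omega⟩
    · refine cut ht (up_nn h0 _ _) l2 [[1 - i], [2, 3]] (by simp) ?_ ?_ fun b hb α _ β ha => ?_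
      · rw [loc_up]
        rcases b1 with b1 | b1 <;> rcases b2 with b2 | b2 <;> interval_cases i <;>
          simp [up, *] <;> norm_num
      · rw [loc_up]; interval_cases i <;> simp [up]
      · by_cases e : b = i
        · subst e
          exact ha.elim (fun e => Or.inr ⟨[2, 3], by simp, by simp [e]⟩)
            fun e => Or.inl (Or.inr (Or.inr (dead _ (k3 _ e))))
        · exact Or.inr ⟨[1 - i], by simp, by simp; omega⟩
  · refine Or.inl (Or.inl ⟨up_nn h0 _ _, X, fun r hr => ?_, fun K k1 k2 => h2 K k1 fun m hm => ?_⟩)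
    · by_cases e : r = t
      · subst e; rw [loc_up]; exact h3.2.2.2
      · exact l1 r hr e
    · obtain ⟨b1, b2, b3⟩ := k2 m hm
      have : 7 * (m / 7) + 4 ≠ 7 * t + i := by omega
      have : 7 * (m / 7) + 4 ≠ 7 * t + j := by omega
      exact ⟨b1, by simpa [up, *] using b2, b3⟩

theorem Hon.step {s u v} (h : Hon N L1 L2 s) (huv : u ≠ v) (hu : s u = 1 / 2) (hv : s v = 1 / 2) :
    (Hon N L1 L2 (up s u v) ∨ ES (edges N L1 L2) (up s u v)) ∨
      (Hon N L1 L2 (up s v u) ∨ ES (edges N L1 L2) (up s v u)) := by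
  wlog hlt : u < v generalizing u v
  · exact (this huv.symm hv hu (by omega)).symm
  by_cases cu : Crit N s u <;> by_cases cv : Crit N s v
  · by_cases e : u / 7 < v / 7
    · exact Or.inr (Or.inr (step1 h huv hu hv cu (Or.inr e)))
    · have e1 : 7 * (u / 7) + u % 7 = u := Nat.div_add_mod u 7
      have e2 : 7 * (u / 7) + v % 7 = v := by omega
      have := step2 (t := u / 7) (i := u % 7) (j := v % 7) h (by have := cu.1; omega) (by omega)
        (by omega) (by rwa [e1]) (by rwa [e2]) cu.2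
      rw [e1, e2] at this
      exact this.elim Or.inr fun h => Or.inl (Or.inr h)
  · exact Or.inr (Or.inr (step1 h huv hu hv cu (Or.inl cv)))
  · exact Or.inl (Or.inr (step1 h huv.symm hv hu cv (Or.inl cu)))
  · obtain ⟨h0, X, h1, h2⟩ := h
    refine Or.inl (Or.inl ⟨up_nn h0 _ _, X, fun r hr => lh_up (h1 r hr) hr hu hv (Or.inl cu)
      (Or.inl cv), fun K k1 k2 => h2 K k1 fun m hm => ?_⟩)
    obtain ⟨b1, b2, b3⟩ := k2 m hm
    have : 7 * (m / 7) + 4 ≠ u := fun e => cu ⟨by omega, by omega⟩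
    have : 7 * (m / 7) + 4 ≠ v := fun e => cv ⟨by omega, by omega⟩
    exact ⟨b1, by simpa [up, *] using b2, b3⟩

theorem clientWins (hu : ∀ X : ℕ → ℕ, (∀ t < N, X t ≤ 1) → ∃ K, Cl L1 L2 K ∧ (∃ m, K m) ∧
      ∀ m, K m → m < 7 * N ∧ m % 7 = X (m / 7)) : ¬ WaiterWins (edges N L1 L2) := fun h => by
  have i : ∀ v < 7 * N, val (edges N L1 L2).flatten.toFinset ∅ v = 1 / 2 := fun v hv => by
    simp only [val, Finset.notMem_empty, if_false, verts hv, if_true]
  refine client (fun s => Hon N L1 L2 s ∨ ES (edges N L1 L2) s)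
    (fun s hs => hs.elim (fun h => h.no hu) ES.no)
    (fun s u v hs a b c => hs.elim (fun h => h.step a b c)
      fun h => (h.step a b c).imp Or.inr Or.inr) h (by simp)
    (Or.inl ⟨fun v => ?_, fun _ => 0, fun t ht => ?_, fun K _ k2 m hm => ?_⟩)
  · unfold val; split_ifs <;> norm_num
  · simp only [LH, loc]
    rw [i, i, i, i, i, i, i] <;> first | omega | simp
  · obtain ⟨b1, b2, _⟩ := k2 m hm
    rw [i _ (by omega)] at b2
    norm_num at b2

end Pool.Agent.H22.WC
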