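import Pool.Agent.H22.WC4
import Pool.Agent.H38.NP.Api

namespace Pool.Agent.H22.WC

open Pool.Agent.H38.NP

abbrev F := List (Lit × Lit × Lit)

def cl (c : Lit × Lit × Lit) : List Lit := [c.1, c.2.1, c.2.2]

def fm (K c : ℕ) (l : Lit) : ℕ :=
  cond l.2 (7 * (l.1 * (2 * K) + c)) (7 * (l.1 * (2 * K) + (K + c)) + 1)

def ms (φ : F) (c : ℕ) : List ℕ := (((φ.drop c).take 1).flatMap cl).map (fm φ.length c)

def l1 (φ : F) (m : ℕ) : List ℕ :=
  cond (decide (m % 7 = 1 ∧ m / 7 % (2 * φ.length) + 1 < 2 * φ.length)) [7 * (m / 7 + 1)]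
    (cond (decide (m % 7 = 0 ∧ m / 7 % (2 * φ.length) ≠ 0)) [7 * (m / 7 - 1) + 1] [7 * (m / 7) + 2])

def l2 (φ : F) (m : ℕ) : List ℕ :=
  cond (decide (m ∈ ms φ (m / 7 % φ.length)))
    ((ms φ (m / 7 % φ.length)).filter fun u => decide (u ≠ m)) [7 * (m / 7) + 2]

def nv (φ : F) : ℕ := ((φ.flatMap cl).map fun l => l.1).sum + 1

def red (φ : F) : List (List ℕ) := edges (nv φ * (2 * φ.length)) (l1 φ) (l2 φ)

theorem pt_red : PT red := by
  unfold red edges item gam l1 l2 ms nv fm cl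
  fun_prop

theorem mem_ms {φ : F} {c u : ℕ} :
    u ∈ ms φ c ↔ ∃ h : c < φ.length, ∃ l ∈ cl φ[c], u = fm φ.length c l := by
  by_cases h : c < φ.length
  · simp only [ms, List.drop_eq_getElem_cons h, List.take_succ_cons, List.take_zero,
      List.flatMap_singleton, List.mem_map, h, exists_true_left, eq_comm (a := u)]
  · simp [ms, List.drop_eq_nil_of_le (not_lt.1 h), h]

theorem lt_nv {φ : F} {c : ℕ} (h : c < φ.length) {l : Lit} (hl : l ∈ cl φ[c]) : l.1 < nv φ :=
  Nat.lt_succ_of_le (List.single_le_sum (fun _ _ => Nat.zero_le _) _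
    (List.mem_map.2 ⟨l, List.mem_flatMap.2 ⟨_, List.getElem_mem h, hl⟩, rfl⟩))

theorem dm {P j : ℕ} (x : ℕ) (h : j < P) : (x * P + j) / P = x ∧ (x * P + j) % P = j := by
  rw [mul_comm, Nat.mul_add_div (by omega), Nat.mul_add_mod, Nat.div_eq_of_lt h,
    Nat.mod_eq_of_lt h]
  simp

theorem bd {P j x n : ℕ} (h : j < P) (hx : x < n) : x * P + j < n * P := by
  have := Nat.mul_le_mul_right P (Nat.succ_le_of_lt hx)
  rw [Nat.succ_mul] at this
  omega

theorem fm_spec {K c : ℕ} (h : c < K) (l : Lit) : ∃ j, j < 2 * K ∧ fm K c l / 7 = l.1 * (2 * K) + j ∧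
    fm K c l / 7 % K = c ∧ ((l.2 = true ∧ j = c ∧ fm K c l % 7 = 0) ∨
      (l.2 = false ∧ j = K + c ∧ fm K c l % 7 = 1)) := by
  obtain ⟨x, b⟩ := l
  have e : x * (2 * K) = (2 * x) * K := by ring
  cases b
  · have e1 : fm K c (x, false) / 7 = x * (2 * K) + (K + c) := by simp only [fm, cond]; omega
    refine ⟨K + c, by omega, e1, ?_, Or.inr ⟨rfl, rfl, by simp only [fm, cond]; omega⟩⟩
    rw [e1, e, ← add_assoc, ← Nat.succ_mul]
    exact (dm _ h).2
  · have e1 : fm K c (x, true) / 7 = x * (2 * K) + c := by simp only [fm, cond]; omega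
    refine ⟨c, by omega, e1, ?_, Or.inl ⟨rfl, rfl, by simp only [fm, cond]; omega⟩⟩
    rw [e1, e]
    exact (dm _ h).2

theorem sat_iff {φ : F} : Sat3 φ ↔ ∃ a : ℕ → Bool, ∀ c, ∀ h : c < φ.length, ∃ l ∈ cl φ[c],
    a l.1 = l.2 := by
  simp only [Sat3, Lit.ev, cl, List.mem_cons, List.not_mem_nil, or_false, exists_eq_or_imp,
    exists_eq_left, List.forall_mem_iff_forall_getElem]

theorem yes {φ : F} (h : Sat3 φ) : WaiterWins (red φ) := by
  obtain ⟨a, ha⟩ := sat_iff.1 h
  set P := 2 * φ.length with hP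
  refine waiter (fun t => (a (t / P)).toNat) (fun t => Bool.toNat_le _) fun t ht => ?_
  have hP0 : 0 < P := Nat.pos_of_ne_zero fun e => by rw [← hP, e] at ht; simp at ht
  obtain ⟨x, j, hj, rfl⟩ : ∃ x j, j < P ∧ t = x * P + j :=
    ⟨t / P, t % P, Nat.mod_lt _ hP0, (Nat.div_add_mod' t P).symm⟩
  have hx : x < nv φ := by
    by_contra hx
    have := Nat.mul_le_mul_right P (not_lt.1 hx)
    rw [← hP] at ht
    omega
  set t := x * P + j with htd
  simp only [show t / P = x from (dm x hj).1]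
  have hb : (a x).toNat ≤ 1 := Bool.toNat_le _
  set m := 7 * t + (a x).toNat with hm
  have m1 : m / 7 = t := by omega
  have m2 : m % 7 = (a x).toNat := by omega
  have tj : t % P = j := (dm x hj).2
  have k1 : ∃ u ∈ l1 φ m, Good (nv φ * P) (fun t => (a (t / P)).toNat) t u ∧ (u = 7 * t + 2 ∨
      (u / 7 % P = j + 1 ∧ u % 7 = 0 ∧ m % 7 = 1) ∨ (u / 7 % P + 1 = j ∧ u % 7 = 1 ∧ m % 7 = 0)) := by
    simp only [l1, m1, ← hP, tj, Bool.cond_decide]
    split_ifs with h1 h2
    · have e : 7 * (t + 1) / 7 = x * P + (j + 1) := by omega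
      have := bd h1.2 hx
      refine ⟨_, List.mem_singleton_self _, Or.inr ⟨by omega, by omega, ?_, by omega⟩, ?_⟩
      · simp only [e, (dm x h1.2).1]; omega
      · rw [e, (dm x h1.2).2]; omega
    · have e : (7 * (t - 1) + 1) / 7 = x * P + (j - 1) := by omega
      have h3 : j - 1 < P := by omega
      have := bd h3 hx
      refine ⟨_, List.mem_singleton_self _, Or.inr ⟨by omega, by omega, ?_, by omega⟩, ?_⟩
      · simp only [e, (dm x h3).1]; omega
      · rw [e, (dm x h3).2]; omega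
    · exact ⟨_, List.mem_singleton_self _, Or.inl rfl, Or.inl rfl⟩
  obtain ⟨u, hu, gu, su⟩ := k1
  refine ⟨u, hu, ?_⟩
  simp only [l2, Bool.cond_decide]
  split_ifs with h1
  · obtain ⟨hc, l, hl, e⟩ := mem_ms.1 h1
    set c := m / 7 % φ.length
    obtain ⟨l', hl', e'⟩ := ha c hc
    obtain ⟨i, b1, b2, -, b4⟩ := fm_spec hc l
    obtain ⟨i', c1, c2, -, c4⟩ := fm_spec hc l'
    rw [← e, ← hP] at *
    have d1 := dm l.1 b1
    have d2 := dm l'.1 c1
    have d3 := bd c1 (lt_nv hc hl')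
    have ij : i = j := by rw [← d1.2, ← b2, m1, tj]
    have un : fm φ.length c l' % 7 ≠ (a (fm φ.length c l' / 7 / P)).toNat := by
      rw [c2, d2.1, e']
      rcases c4 with c4 | c4 <;> simp [c4.1, c4.2.2]
    have ne : fm φ.length c l' / 7 ≠ t := fun e2 => by
      have : i' = j := by rw [← d2.2, ← c2, e2, tj]
      rw [e2, show t / P = x from (dm x hj).1] at un
      omega
    refine ⟨fm φ.length c l', List.mem_filter.2 ⟨mem_ms.2 ⟨hc, l', hl', rfl⟩, ?_⟩, gu,
      Or.inr ⟨by omega, by omega, un, ne⟩, fun e2 => ?_⟩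
    · exact decide_eq_true fun e2 => ne (by rw [e2, m1])
    · rw [← c2, ← e2] at d2
      rw [← e2] at c4
      omega
  · exact ⟨_, List.mem_singleton_self _, gu, Or.inl (by rw [m1]), fun e => by rw [e, m1]⟩

theorem no {φ : F} (h : ¬ Sat3 φ) : ¬ WaiterWins (red φ) := by
  set P := 2 * φ.length with hP
  refine clientWins fun X hX => ?_
  rw [← hP] at hX ⊢
  by_cases hv : ∃ x < nv φ, ∃ j, j + 1 < P ∧ X (x * P + j) = 1 ∧ X (x * P + (j + 1)) = 0
  · obtain ⟨x, hx, j, hj, h1, h2⟩ := hv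
    have d1 := dm x (show j < P by omega)
    have d2 := dm x hj
    have d3 := bd hj hx
    set t := x * P + j
    have e1 : (7 * t + 1) / 7 = t := by omega
    have e2 : 7 * (t + 1) / 7 = x * P + (j + 1) := by omega
    refine ⟨fun m => m = 7 * t + 1 ∨ m = 7 * (t + 1), ?_, ⟨_, Or.inl rfl⟩, ?_⟩
    · rintro m (rfl | rfl) <;> refine Or.inl fun u hu => ?_
      · simp only [l1, e1, ← hP, d1.2, Bool.cond_decide] at hu
        rw [if_pos (by omega), List.mem_singleton] at hu
        omega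
      · simp only [l1, e2, ← hP, d2.2, Bool.cond_decide] at hu
        rw [if_neg (by omega), if_pos (by omega), List.mem_singleton] at hu
        omega
    · rintro m (rfl | rfl)
      · rw [e1, h1]; omega
      · rw [e2, h2]; omega
  push Not at hv
  have mono : ∀ x < nv φ, ∀ j k, j + k < P → X (x * P + j) = 1 → X (x * P + (j + k)) = 1 := by
    intro x hx j k
    induction k with
    | zero => exact fun _ h => h
    | succ k ih =>
      intro h1 h2
      have := hv x hx (j + k) (by omega) (ih (by omega) h2)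
      have h3 := hX _ (bd h1 hx)
      rw [← add_assoc j] at h3 ⊢
      omega
  rw [sat_iff] at h
  push Not at h
  obtain ⟨c, hc, h⟩ := h fun x => decide (X (x * P + φ.length) = 1)
  refine ⟨fun m => m ∈ ms φ c, fun m hm => Or.inr fun u hu => ?_,
    ⟨_, mem_ms.2 ⟨hc, φ[c].1, by simp [cl], rfl⟩⟩, fun m hm => ?_⟩
  · obtain ⟨_, l, hl, rfl⟩ := mem_ms.1 hm
    obtain ⟨i, -, -, b3, -⟩ := fm_spec hc l
    simp only [l2, b3, Bool.cond_decide, if_pos hm] at hu
    simpa using hu
  · obtain ⟨_, l, hl, rfl⟩ := mem_ms.1 hm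
    obtain ⟨i, b1, b2, -, b4⟩ := fm_spec hc l
    rw [← hP] at b1 b2
    have hx := lt_nv hc hl
    have d3 := bd b1 hx
    refine ⟨by omega, ?_⟩
    have h1 := h l hl
    have h2 := hX _ d3
    rw [b2]
    rcases b4 with ⟨e, rfl, e'⟩ | ⟨e, rfl, e'⟩ <;> rw [e] at h1 <;> rw [e']
    · by_contra h3
      have := mono _ hx i (φ.length - i) (by omega) (by omega)
      rw [show i + (φ.length - i) = φ.length by omega] at this
      simp [this] at h1
    · exact (mono _ hx φ.length c b1 (by simpa using h1)).symm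

theorem wc_hard : NPHard (lang WaiterWins) :=
  (sat3_nph.reduce (C' := fun _ => True) (P' := WaiterWins) red pt_red fun _ _ =>
    ⟨trivial, yes, fun h => by_contra fun h' => no h' h⟩).npHard fun _ _ => Iff.rfl

end Pool.Agent.H22.WC
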