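import Pool.Agent.H38.NP.Defs

/-!
The Waiter-Client game on a hypergraph given by the list of its edges.
-/

namespace Pool.Agent.H22.WC

/-- `WW E S W`: Waiter wins the Waiter-Client game with edges `E` from the position in which `S`
is the set of unclaimed vertices and `W` the set of vertices of Waiter.  When at most one vertex
is unclaimed the game is over (a last vertex goes to Client) and Waiter has won if she owns all
vertices of an edge.  Otherwise she offers two unclaimed vertices, Client claims one of them and
she gets the other. -/
inductive WW (E : List (List ℕ)) : Finset ℕ → Finset ℕ → Prop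
  | fin (S W : Finset ℕ) : S.card ≤ 1 → (∃ e ∈ E, ∀ v ∈ e, v ∈ W) → WW E S W
  | step (S W : Finset ℕ) (u v : ℕ) : u ∈ S → v ∈ S → u ≠ v →
      WW E (S \ {u, v}) (insert u W) → WW E (S \ {u, v}) (insert v W) → WW E S W

/-- Waiter has a winning strategy on the hypergraph with edge list `E`; its vertices are the
members of the edges, all unclaimed at the start. -/
def WaiterWins (E : List (List ℕ)) : Prop := WW E E.flatten.toFinset ∅

end Pool.Agent.H22.WC
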