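import Pool.Agent.H22.WTDefs

/-!
Schedules and assignments of jobs to holes.
-/

namespace Pool.Agent.H22.WT

open Finset

theorem compl_exists (f : ℕ → Job) (σ : List ℕ) (hσ : σ.Nodup) (t0 : ℕ) :
    ∃ C : ℕ → ℕ, cost t0 (σ.map f) = ∑ i ∈ σ.toFinset, (f i).2.2 * (C i - (f i).2.1) ∧
      (∀ i ∈ σ, t0 ≤ C i) ∧
      ∀ T, ∑ i ∈ σ.toFinset with C i ≤ T, (f i).1 ≤ T - t0 := by
  induction σ generalizing t0 with
  | nil => exact ⟨fun _ => 0, by simp [cost], by simp, by simp⟩
  | cons j σ ih =>
    obtain ⟨hj, hσ'⟩ := List.nodup_cons.1 hσ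
    obtain ⟨C, h1, h2, h3⟩ := ih hσ' (t0 + (f j).1)
    have hj' : j ∉ σ.toFinset := by simpa using hj
    have e : ∀ i ∈ σ.toFinset, Function.update C j (t0 + (f j).1) i = C i := fun i hi =>
      Function.update_of_ne (by rintro rfl; exact hj' hi) _ _
    refine ⟨Function.update C j (t0 + (f j).1), ?_, ?_, fun T => ?_⟩
    · rw [List.toFinset_cons, sum_insert hj', List.map_cons, cost, h1, Function.update_self]
      congr 1
      exact sum_congr rfl fun i hi => by rw [e i hi]
    · intro i hi
      rcases List.mem_cons.1 hi with rfl | hi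
      · simp
      · rw [e i (by simpa using hi)]; have := h2 i hi; omega
    · rw [List.toFinset_cons, sum_filter, sum_insert hj', Function.update_self,
        sum_congr rfl fun i hi => by rw [e i hi], ← sum_filter]
      split_ifs with h
      · have := h3 T; omega
      · rw [sum_eq_zero]
        · omega
        · intro i hi
          obtain ⟨hi1, hi2⟩ := mem_filter.1 hi
          have := h2 i (by simpa using hi1)
          omega

theorem cost_sorted (f : ℕ → Job) (key : ℕ → ℕ) (σ : List ℕ) (hσ : σ.Nodup)
    (hs : σ.Pairwise fun a b => key a ≤ key b) (t0 : ℕ) :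
    cost t0 (σ.map f) ≤ ∑ i ∈ σ.toFinset, (f i).2.2 *
      (t0 + (∑ i' ∈ σ.toFinset with key i' ≤ key i, (f i').1) - (f i).2.1) := by
  induction σ generalizing t0 with
  | nil => simp [cost]
  | cons j σ ih =>
    obtain ⟨hj, hσ'⟩ := List.nodup_cons.1 hσ
    obtain ⟨hs1, hs2⟩ := List.pairwise_cons.1 hs
    have hj' : j ∉ σ.toFinset := by simpa using hj
    rw [List.toFinset_cons, sum_insert hj', List.map_cons, cost]
    refine Nat.add_le_add (Nat.mul_le_mul_left _ ?_) ((ih hσ' hs2 _).trans (le_of_eq ?_))
    · rw [sum_filter, sum_insert hj', if_pos le_rfl]; omega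
    · refine sum_congr rfl fun i hi => ?_
      rw [sum_filter (s := insert j _), sum_insert hj', if_pos (hs1 i (by simpa using hi)),
        ← sum_filter, Nat.add_assoc]

theorem tardy_compl {f : ℕ → Job} {N k : ℕ} (h : Tardy ((List.range N).map f, k)) :
    ∃ C : ℕ → ℕ, ∑ i ∈ range N, (f i).2.2 * (C i - (f i).2.1) ≤ k ∧
      ∀ T, ∑ i ∈ range N with C i ≤ T, (f i).1 ≤ T := by
  obtain ⟨l, hl, hc⟩ := h
  have h1 : List.Forall₂ (fun (a : Job) (i : ℕ) => a = f i) ((List.range N).map f)
      (List.range N) := by
    rw [List.forall₂_map_left_iff]; exact List.forall₂_same.2 fun _ _ => rfl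
  obtain ⟨σ, h2, h3⟩ := List.perm_comp_forall₂ hl h1
  have h4 : l = σ.map f := by
    rw [← List.forall₂_eq_eq_eq, List.forall₂_map_right_iff]; exact h2
  obtain ⟨C, e1, -, e3⟩ := compl_exists f σ (h3.nodup_iff.2 List.nodup_range) 0
  rw [List.toFinset_eq_of_perm _ _ h3, List.toFinset_range] at e1 e3
  exact ⟨C, by rw [← e1, ← h4]; exact hc, fun T => by simpa using e3 T⟩

theorem tardy_of_key {f : ℕ → Job} {N k : ℕ} (key : ℕ → ℕ)
    (h : ∑ i ∈ range N, (f i).2.2 *
      ((∑ i' ∈ range N with key i' ≤ key i, (f i').1) - (f i).2.1) ≤ k) :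
    Tardy ((List.range N).map f, k) := by
  let σ := (List.range N).mergeSort fun a b => decide (key a ≤ key b)
  have hp : σ.Perm (List.range N) := List.mergeSort_perm _ _
  have hs : σ.Pairwise fun a b => key a ≤ key b := by
    have := List.pairwise_mergeSort (le := fun a b => decide (key a ≤ key b))
      (fun a b c => by simp only [decide_eq_true_eq]; omega)
      (fun a b => by simp only [Bool.or_eq_true, decide_eq_true_eq]; omega) (List.range N)
    simpa using this
  have := cost_sorted f key σ (hp.nodup_iff.2 List.nodup_range) hs 0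
  rw [List.toFinset_eq_of_perm _ _ hp, List.toFinset_range] at this
  exact ⟨σ.map f, hp.map f, this.trans (by simpa using h)⟩

/-- Assignments of `nj` jobs to holes `0, ..., m` with prefix capacities. -/
def Holes (nj m K : ℕ) (p a w : ℕ → ℕ) : Prop :=
  ∃ h : ℕ → ℕ, (∀ i, h i ≤ m) ∧
    (∀ t < m, ∑ i ∈ range nj with h i ≤ t, p i ≤ (t + 1) * 24) ∧
    ∑ i ∈ range nj, w i * (h i - a i) ≤ K

/-- the jobs of the scheduling instance -/
def jobF (nj K B G : ℕ) (p a w : ℕ → ℕ) (i : ℕ) : Job :=
  if i < nj then (p i, a i * (B + 24) + G, w i)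
  else (1, ((i - nj) / B + 1) * (B + 24), K * (B + 24) + 1)

theorem card_seg {m B t : ℕ} (hB : 0 < B) (ht : t ≤ m) :
    ∑ i ∈ range (m * B), (if i / B < t then 1 else 0) = t * B := by
  rw [← sum_filter, sum_const, smul_eq_mul, mul_one]
  have : (range (m * B)).filter (fun i => i / B < t) = range (t * B) := by
    ext i
    simp only [mem_filter, mem_range, Nat.div_lt_iff_lt_mul hB]
    have := Nat.mul_le_mul_right B ht
    omega
  rw [this, card_range]

theorem holes_iff {nj m K B G : ℕ} {p a w : ℕ → ℕ} (hG : G = ∑ i ∈ range nj, p i)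
    (hB : G * ∑ i ∈ range nj, w i < B) :
    Holes nj m K p a w ↔
      Tardy ((List.range (nj + m * B)).map (jobF nj K B G p a w), K * (B + 24)) := by
  have hB0 : 0 < B := by omega
  have j1 : ∀ i ∈ range nj, jobF nj K B G p a w i = (p i, a i * (B + 24) + G, w i) :=
    fun i hi => by simp [jobF, mem_range.1 hi]
  have j2 : ∀ i, jobF nj K B G p a w (nj + i) =
      (1, (i / B + 1) * (B + 24), K * (B + 24) + 1) := fun i => by simp [jobF]
  constructor
  · rintro ⟨h, hm, hp, hc⟩
    refine tardy_of_key (fun i => if i < nj then 2 * h i else 2 * ((i - nj) / B) + 1) ?_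
    have k1 : ∀ T, ∑ i' ∈ range (nj + m * B) with
        (if i' < nj then 2 * h i' else 2 * ((i' - nj) / B) + 1) ≤ T,
          (jobF nj K B G p a w i').1 =
        (∑ i ∈ range nj with 2 * h i ≤ T, p i) +
          ∑ i ∈ range (m * B), if i / B < (T + 1) / 2 then 1 else 0 := by
      intro T
      rw [sum_filter, sum_range_add, sum_filter]
      congr 1
      · exact sum_congr rfl fun i hi => by rw [j1 i hi, if_pos (mem_range.1 hi)]
      · refine sum_congr rfl fun i _ => ?_
        rw [j2, if_neg (by omega : ¬ nj + i < nj), Nat.add_sub_cancel_left]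
        exact if_congr (by omega) rfl rfl
    simp only [k1]
    rw [sum_range_add, sum_eq_zero (s := range (m * B)), Nat.add_zero]
    · have hc' := Nat.mul_le_mul_right (B + 24) hc
      rw [sum_mul] at hc'
      refine le_trans (sum_le_sum fun i hi => ?_) hc'
      rw [j1 i hi, if_pos (mem_range.1 hi), card_seg hB0 (by have := hm i; omega), mul_assoc]
      refine Nat.mul_le_mul_left _ ?_
      have : ∑ i_1 ∈ range nj with 2 * h i_1 ≤ 2 * h i, p i_1 ≤ G :=
        hG ▸ sum_le_sum_of_subset (filter_subset _ _)
      rw [show (2 * h i + 1) / 2 = h i by omega, Nat.sub_mul]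
      simp only [mul_add]
      omega
    · intro i hi
      have hi' : i / B < m := (Nat.div_lt_iff_lt_mul hB0).2 (mem_range.1 hi)
      rw [j2, if_neg (by omega : ¬ nj + i < nj), Nat.add_sub_cancel_left,
        card_seg hB0 (by omega)]
      have h1 := hp (i / B) hi'
      have h2 : ∑ i_1 ∈ range nj with 2 * h i_1 ≤ 2 * (i / B) + 1, p i_1 =
          ∑ i_1 ∈ range nj with h i_1 ≤ i / B, p i_1 := by
        refine sum_congr (filter_congr fun x _ => by omega) fun _ _ => rfl
      rw [h2, show (2 * (i / B) + 1 + 1) / 2 = i / B + 1 by omega]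
      simp only [mul_add] at h1 ⊢
      rw [Nat.sub_eq_zero_of_le (by omega), mul_zero]
  · intro hT
    obtain ⟨C, hc, hp⟩ := tardy_compl hT
    rw [sum_range_add] at hc
    have hb : ∀ i < m * B, C (nj + i) ≤ (i / B + 1) * (B + 24) := by
      intro i hi
      have := single_le_sum (f := fun i => (jobF nj K B G p a w (nj + i)).2.2 *
        (C (nj + i) - (jobF nj K B G p a w (nj + i)).2.1)) (fun _ _ => Nat.zero_le _)
        (mem_range.2 hi)
      simp only [j2] at this hc
      by_contra hn
      have h3 := Nat.mul_le_mul_left (K * (B + 24) + 1)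
        (show 1 ≤ C (nj + i) - (i / B + 1) * (B + 24) by omega)
      omega
    refine ⟨fun i => min m (C i / (B + 24)), fun i => min_le_left _ _, fun t ht => ?_, ?_⟩
    · have h1 := hp ((t + 1) * (B + 24))
      rw [sum_filter, sum_range_add] at h1
      have h2 : ∑ i ∈ range nj with min m (C i / (B + 24)) ≤ t, p i ≤
          ∑ i ∈ range nj, if C i ≤ (t + 1) * (B + 24) then (jobF nj K B G p a w i).1 else 0 := by
        rw [sum_filter]
        refine sum_le_sum fun i hi => ?_
        rw [j1 i hi]
        split_ifs with a1 a2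
        · exact le_rfl
        · exfalso
          have : C i / (B + 24) < t + 1 := by omega
          have := (Nat.div_lt_iff_lt_mul (by omega)).1 this
          omega
        · exact Nat.zero_le _
        · exact le_rfl
      have h3 : (t + 1) * B ≤ ∑ i ∈ range (m * B), if C (nj + i) ≤ (t + 1) * (B + 24) then
          (jobF nj K B G p a w (nj + i)).1 else 0 := by
        rw [← card_seg (m := m) hB0 (by omega)]
        refine sum_le_sum fun i hi => ?_
        rw [j2]
        split_ifs with a1 a2
        · exact le_rfl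
        · exfalso
          have h4 := hb i (mem_range.1 hi)
          have := Nat.mul_le_mul_right (B + 24) (show i / B + 1 ≤ t + 1 by omega)
          omega
        · exact Nat.zero_le _
        · exact le_rfl
      simp only [mul_add] at h1 h2 h3 ⊢
      omega
    · have h1 : (∑ i ∈ range nj, w i * (min m (C i / (B + 24)) - a i)) * (B + 24) ≤
          (∑ i ∈ range nj, (jobF nj K B G p a w i).2.2 * (C i - (jobF nj K B G p a w i).2.1)) +
            G * ∑ i ∈ range nj, w i := by
        rw [sum_mul, mul_sum, ← sum_add_distrib]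
        refine sum_le_sum fun i hi => ?_
        rw [j1 i hi, mul_assoc, mul_comm G, ← mul_add]
        refine Nat.mul_le_mul_left _ ?_
        have h2 := Nat.div_mul_le_self (C i) (B + 24)
        have h3 := Nat.mul_le_mul_right (B + 24) (min_le_right m (C i / (B + 24)))
        rw [Nat.sub_mul]
        simp only
        omega
      by_contra hn
      have := Nat.mul_le_mul_right (B + 24) (Nat.succ_le_of_lt (not_le.1 hn))
      rw [Nat.succ_mul] at this
      beta_reduce at this
      omega

end Pool.Agent.H22.WT
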