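import Pool.Agent.H22.WT1

/-!
A duality argument for assignments of jobs to holes.
-/

namespace Pool.Agent.H22.WT

open Finset

/-- the same with an integer threshold -/
def HolesZ (nj m : ℕ) (K : ℤ) (p a w : ℕ → ℕ) : Prop :=
  ∃ h : ℕ → ℕ, (∀ i, h i ≤ m) ∧
    (∀ t < m, ∑ i ∈ range nj with h i ≤ t, p i ≤ (t + 1) * 24) ∧
    ((∑ i ∈ range nj, w i * (h i - a i) : ℕ) : ℤ) ≤ K

theorem holesZ_iff {nj m A B : ℕ} {p a w : ℕ → ℕ} :
    HolesZ nj m ((A : ℤ) - B) p a w ↔ B ≤ A ∧ Holes nj m (A - B) p a w := by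
  constructor
  · rintro ⟨h, h1, h2, h3⟩
    exact ⟨by omega, h, h1, h2, by omega⟩
  · rintro ⟨h0, h, h1, h2, h3⟩
    exact ⟨h, h1, h2, by omega⟩

theorem sum_pos_eq {nj m : ℕ} (p h : ℕ → ℕ) (hm : ∀ i, h i ≤ m) :
    ∑ i ∈ range nj, (p i : ℤ) * h i = ∑ t ∈ range m,
      (((∑ i ∈ range nj, p i : ℕ) : ℤ) - (∑ i ∈ range nj with h i ≤ t, p i : ℕ)) := by
  have e : ∀ i, (p i : ℤ) * h i = ∑ t ∈ range m, if t < h i then (p i : ℤ) else 0 := by
    intro i
    rw [← sum_filter, sum_const, nsmul_eq_mul, mul_comm]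
    congr 2
    have : (range m).filter (fun t => t < h i) = range (h i) := by
      ext t; have := hm i; simp only [mem_filter, mem_range]; omega
    rw [this, card_range]
  rw [sum_congr rfl fun i _ => e i, sum_comm]
  refine sum_congr rfl fun t _ => ?_
  rw [sum_filter]
  push_cast
  rw [← sum_sub_distrib]
  refine sum_congr rfl fun i _ => ?_
  split_ifs <;> omega

theorem sum_price {nj m : ℕ} (F : ℕ → ℕ → ℤ) (h : ℕ → ℕ) (hm : ∀ i, h i ≤ m)
    (hF : ∀ i, F i m = 0) :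
    ∑ i ∈ range nj, F i (h i) = ∑ t ∈ range m, ∑ i ∈ range nj with h i = t, F i t := by
  rw [← sum_fiberwise_of_maps_to (s := range nj) (t := range (m + 1)) (g := h)
    (fun i _ => mem_range.2 (Nat.lt_succ_of_le (hm i))), sum_range_succ,
    sum_eq_zero (s := filter _ _) fun i hi => by rw [(mem_filter.1 hi).2, hF], add_zero]
  exact sum_congr rfl fun t _ => sum_congr rfl fun i hi => by rw [(mem_filter.1 hi).2]

theorem prefix_succ {nj : ℕ} (p h : ℕ → ℕ) (t : ℕ) :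
    ∑ i ∈ range nj with h i ≤ t + 1, p i =
      ∑ i ∈ range nj with h i ≤ t, p i + ∑ i ∈ range nj with h i = t + 1, p i := by
  simp only [sum_filter, ← sum_add_distrib]
  refine sum_congr rfl fun i _ => ?_
  split_ifs <;> omega

theorem prefix_zero {nj : ℕ} (p h : ℕ → ℕ) :
    ∑ i ∈ range nj with h i ≤ 0, p i = ∑ i ∈ range nj with h i = 0, p i := by
  simp only [Nat.le_zero]

/-- reduced cost of hole `h` relative to the due hole -/
def red (p a w : ℕ → ℕ) (E : ℕ → ℕ → ℤ) (c : ℤ) (i h : ℕ) : ℤ :=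
  (w i : ℤ) * ((h - a i : ℕ) : ℤ) - (p i * c * h + E (p i) h) + (p i * c * a i + E (p i) (a i))

/-- the threshold -/
def thr (nj m : ℕ) (p a : ℕ → ℕ) (E : ℕ → ℕ → ℤ) (c Y : ℤ) : ℤ :=
  c * (∑ t ∈ range m, (((∑ i ∈ range nj, p i : ℕ) : ℤ) - ((t + 1) * 24 : ℕ))) - m * Y -
    ∑ i ∈ range nj, (p i * c * a i + E (p i) (a i))

theorem cost_eq {nj m : ℕ} (p a w : ℕ → ℕ) (E : ℕ → ℕ → ℤ) (c Y : ℤ) (h : ℕ → ℕ)
    (hm : ∀ i, h i ≤ m) :
    ((∑ i ∈ range nj, w i * (h i - a i) : ℕ) : ℤ) - thr nj m p a E c Y =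
      ∑ i ∈ range nj, red p a w E c i (h i) +
      c * ∑ t ∈ range m, ((((t + 1) * 24 : ℕ) : ℤ) - (∑ i ∈ range nj with h i ≤ t, p i : ℕ)) +
      (∑ i ∈ range nj, E (p i) (h i) + m * Y) := by
  have h1 := sum_pos_eq (nj := nj) p h hm
  have h2 : ∑ i ∈ range nj, (p i : ℤ) * c * h i = c * ∑ i ∈ range nj, (p i : ℤ) * h i := by
    rw [mul_sum]; exact sum_congr rfl fun i _ => by ring
  unfold thr red
  rw [Nat.cast_sum]
  simp only [sum_add_distrib, sum_sub_distrib, Nat.cast_mul] at h1 ⊢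
  rw [h2, h1]
  ring

theorem dual_sound {nj m : ℕ} {p a w b : ℕ → ℕ} {E : ℕ → ℕ → ℤ} {c Y R W : ℤ}
    (H1 : ∀ i < nj, ∀ h ≤ m, 0 ≤ red p a w E c i h + m ∧
      (h ≠ a i → h ≠ b i → R ≤ red p a w E c i h + m))
    (HR : (nj : ℤ) * m < R)
    (Hpat : ∀ t < m, ∀ S ⊆ range nj, ∑ i ∈ S, p i = 24 → -Y ≤ ∑ i ∈ S, E (p i) t)
    (HE : ∀ i < nj, ∀ h ≤ m, -W ≤ E (p i) h) (HEm : ∀ i, E (p i) m = 0) (HY : 0 ≤ Y)
    (HW : 0 ≤ W) (Hc : nj * (m + W) < c) (H : HolesZ nj m (thr nj m p a E c Y) p a w) :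
    ∃ h : ℕ → ℕ, (∀ i < nj, h i = a i ∨ h i = b i) ∧
      ∀ t < m, ∑ i ∈ range nj with h i = t, p i = 24 := by
  obtain ⟨h, hm, hp, hc⟩ := H
  have e := cost_eq (nj := nj) p a w E c Y h hm
  have r0 : ∀ i ∈ range nj, 0 ≤ red p a w E c i (h i) + m :=
    fun i hi => (H1 i (mem_range.1 hi) _ (hm i)).1
  have r1 : ∑ i ∈ range nj, (red p a w E c i (h i) + m) =
      ∑ i ∈ range nj, red p a w E c i (h i) + nj * m := by
    rw [sum_add_distrib, sum_const, card_range, nsmul_eq_mul]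
  have r2 := sum_nonneg r0
  have s0 : ∀ t ∈ range m, 0 ≤ (((t + 1) * 24 : ℕ) : ℤ) -
      (∑ i ∈ range nj with h i ≤ t, p i : ℕ) := fun t ht => by
    have := hp t (mem_range.1 ht); omega
  have hc0 : 0 ≤ c := le_trans (by positivity) Hc.le
  have s1 : ∑ t ∈ range m, ((((t + 1) * 24 : ℕ) : ℤ) -
      (∑ i ∈ range nj with h i ≤ t, p i : ℕ)) = 0 := by
    by_contra hn
    have h1 := mul_le_mul_of_nonneg_left
      (show (1 : ℤ) ≤ _ from lt_of_le_of_ne (sum_nonneg s0) (Ne.symm hn)) hc0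
    have h2 : ∑ i ∈ range nj, -W ≤ ∑ i ∈ range nj, E (p i) (h i) :=
      sum_le_sum fun i hi => HE i (mem_range.1 hi) _ (hm i)
    rw [sum_const, card_range, nsmul_eq_mul] at h2
    have : 0 ≤ (m : ℤ) * Y := by positivity
    nlinarith
  have s2 := (sum_eq_zero_iff_of_nonneg s0).1 s1
  have s3 : ∀ t < m, ∑ i ∈ range nj with h i = t, p i = 24 := by
    intro t ht
    cases t with
    | zero => have := s2 0 (mem_range.2 ht); rw [prefix_zero] at this; omega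
    | succ t =>
      have h1 := s2 _ (mem_range.2 ht)
      have h2 := s2 t (mem_range.2 (by omega))
      rw [prefix_succ] at h1
      omega
  refine ⟨h, fun i hi => ?_, s3⟩
  have q1 : ∑ t ∈ range m, -Y ≤ ∑ t ∈ range m, ∑ i ∈ range nj with h i = t, E (p i) t :=
    sum_le_sum fun t ht => Hpat t (mem_range.1 ht) _ (filter_subset _ _) (s3 t (mem_range.1 ht))
  rw [← sum_price (fun i t => E (p i) t) h hm HEm, sum_const, card_range, nsmul_eq_mul] at q1
  have q2 := single_le_sum r0 (mem_range.2 hi)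
  by_contra hn
  push Not at hn
  have q3 := (H1 i hi _ (hm i)).2 hn.1 hn.2
  rw [s1] at e
  nlinarith

theorem dual_complete {nj m : ℕ} {p a w b : ℕ → ℕ} {E : ℕ → ℕ → ℤ} {c Y : ℤ}
    (H2 : ∀ i < nj, red p a w E c i (b i) ≤ 0) (HEm : ∀ i, E (p i) m = 0)
    (h : ℕ → ℕ) (hm : ∀ i, h i ≤ m) (hh : ∀ i < nj, h i = a i ∨ h i = b i)
    (hl : ∀ t < m, ∑ i ∈ range nj with h i = t, p i = 24)
    (hq : ∀ t < m, ∑ i ∈ range nj with h i = t, E (p i) t ≤ -Y) :
    HolesZ nj m (thr nj m p a E c Y) p a w := by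
  have s2 : ∀ t < m, ∑ i ∈ range nj with h i ≤ t, p i = (t + 1) * 24 := by
    intro t ht
    induction t with
    | zero => rw [prefix_zero, hl 0 ht]
    | succ t ih => rw [prefix_succ, ih (by omega), hl _ ht]; ring
  refine ⟨h, hm, fun t ht => (s2 t ht).le, ?_⟩
  have e := cost_eq (nj := nj) p a w E c Y h hm
  rw [sum_eq_zero (s := range m) fun t ht => by rw [s2 t (mem_range.1 ht), sub_self],
    sum_price (fun i t => E (p i) t) h hm HEm] at e
  have q1 : ∑ t ∈ range m, ∑ i ∈ range nj with h i = t, E (p i) t ≤ ∑ t ∈ range m, -Y :=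
    sum_le_sum fun t ht => hq t (mem_range.1 ht)
  rw [sum_const, card_range, nsmul_eq_mul] at q1
  have q2 : ∑ i ∈ range nj, red p a w E c i (h i) ≤ 0 := by
    refine sum_nonpos fun i hi => ?_
    rcases hh i (mem_range.1 hi) with e | e
    · simp [red, e]
    · rw [e]; exact H2 i (mem_range.1 hi)
  nlinarith

end Pool.Agent.H22.WT
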