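import Pool.Agent.H22.WT2

/-!
The grid instance and its prices.
-/

namespace Pool.Agent.H22.WT

open Finset

def mm (n N : ℕ) : ℕ := (N + 1) * n
def RR (n N : ℕ) : ℕ := 14 * mm n N * mm n N + 1
def VV (n N : ℕ) : ℕ := mm n N * mm n N + 41 * n * mm n N
def ZZ (n N : ℕ) : ℕ := 5 * (RR n N * VV n N)
def YY (n N : ℕ) : ℕ := mm n N * ZZ n N
def WW (n N : ℕ) : ℕ := YY n N + 4 * ZZ n N
def cc (n N : ℕ) : ℕ := 14 * mm n N * (mm n N + WW n N) + 2 * WW n N + RR n N

def nV (n q t : ℕ) : ℕ :=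
  if t / n % 2 = q then 37 * n * n * (t / n + 1) - 3 * ((2 * (n - t % n) - 1) * (2 * (n - t % n) - 1))
  else (2 * (t % n) + 1) * (2 * (t % n) + 1) + 37 * n * n * (t / n)

def e1 (n N t : ℕ) : ℕ := ZZ n N - RR n N * (t * t)
def eV (n N q t : ℕ) : ℕ := ZZ n N - RR n N * nV n q t
def SS (n N s t : ℕ) : ℕ := s % 3 * e1 n N t + s / 3 % 2 * eV n N 0 t + s / 6 * eV n N 1 t
def Ep (n N p t : ℕ) : ℕ :=
  if t < mm n N then
    (if p = 1 then e1 n N t else if p = 3 then eV n N 0 t else if p = 6 then eV n N 1 t else 0)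
  else 0
def En (n N p t : ℕ) : ℕ := if t < mm n N ∧ 13 ≤ p then YY n N + SS n N (24 - p) t else 0
def EE (n N p t : ℕ) : ℤ := (Ep n N p t : ℤ) - En n N p t

def pJ (n i : ℕ) : ℕ :=
  if i % 14 = 12 then 1 else if i % 14 = 13 then 3 + 3 * (i / 14 / n % 2) else 24 - i % 14

def aJ (n N : ℕ) (ok : ℕ → Bool) (i : ℕ) : ℕ := if ok i = true then i / 14 else mm n N

def bJ (n N : ℕ) (ok : ℕ → Bool) (i : ℕ) : ℕ :=
  if ok i = true then
    (if i % 14 = 12 then i / 14 + 1
    else if i % 14 = 13 then (i / 14 / n + 1) * n + (n - 1 - i / 14 % n) else mm n N)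
  else mm n N

def wJ (n N : ℕ) (ok : ℕ → Bool) (i : ℕ) : ℕ :=
  if ok i = true then
    (if i % 14 = 12 then cc n N - RR n N * (2 * (i / 14) + 1)
    else if i % 14 = 13 then pJ n i * cc n N - RR n N * (4 * (2 * (n - i / 14 % n) - 1))
    else pJ n i * cc n N + (YY n N + SS n N (i % 14) (i / 14)) / (mm n N - i / 14))
  else 0

theorem nV_cast {n : ℕ} (q r : ℕ) {x : ℕ} (hx : x < n) : (nV n q (r * n + x) : ℤ) =
    if r % 2 = q then 37 * (n : ℤ) * n * (r + 1) - 3 * (2 * ((n : ℤ) - x) - 1) ^ 2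
    else (2 * (x : ℤ) + 1) ^ 2 + 37 * (n : ℤ) * n * r := by
  have h1 : (r * n + x) / n = r := by
    rw [mul_comm, Nat.mul_add_div (by omega), Nat.div_eq_of_lt hx, add_zero]
  have h2 : (r * n + x) % n = x := by rw [mul_comm, Nat.mul_add_mod, Nat.mod_eq_of_lt hx]
  unfold nV
  rw [h1, h2]
  split_ifs
  · obtain ⟨y, rfl⟩ : ∃ y, n = x + y + 1 := ⟨n - x - 1, by omega⟩
    have a1 : (2 * y + 1) * (2 * y + 1) ≤ (2 * (x + y + 1)) * (2 * (x + y + 1)) :=
      Nat.mul_le_mul (by omega) (by omega)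
    have a2 : 37 * (x + y + 1) * (x + y + 1) ≤ 37 * (x + y + 1) * (x + y + 1) * (r + 1) :=
      Nat.le_mul_of_pos_right _ (by omega)
    rw [show 2 * (x + y + 1 - x) - 1 = 2 * y + 1 by omega, Nat.cast_sub (by nlinarith)]
    push_cast; ring
  · push_cast; ring

theorem nV_le {n N q t : ℕ} (ht : t < mm n N) : nV n q t ≤ VV n N := by
  have hn : 0 < n := Nat.pos_of_ne_zero (by rintro rfl; simp [mm] at ht)
  have h1 : t / n + 1 ≤ N + 1 := (Nat.div_lt_iff_lt_mul hn).2 ht
  have h2 := Nat.mod_lt t hn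
  have h3 : n * n * (t / n + 1) ≤ n * mm n N := by
    unfold mm; rw [mul_assoc, mul_comm n (t / n + 1)]
    exact Nat.mul_le_mul_left _ (Nat.mul_le_mul_right _ h1)
  unfold nV VV
  split_ifs
  · refine (Nat.sub_le _ _).trans ?_
    nlinarith
  · have : (2 * (t % n) + 1) * (2 * (t % n) + 1) ≤ (2 * n) * (2 * n) :=
      Nat.mul_le_mul (by omega) (by omega)
    nlinarith

theorem geoV {n r x h : ℕ} (hx : x < n) (hh : r * n + x < h) :
    let d : ℤ := nV n (r % 2) h - nV n (r % 2) (r * n + x) -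
      4 * (2 * ((n : ℤ) - x) - 1) * ((h : ℤ) - (r * n + x : ℕ))
    (h = (r + 1) * n + (n - 1 - x) → d = 0) ∧ (h ≠ (r + 1) * n + (n - 1 - x) → 1 ≤ d) := by
  intro d
  have hn : 0 < n := by omega
  obtain ⟨r', x', hx', rfl⟩ : ∃ r' x', x' < n ∧ h = r' * n + x' :=
    ⟨h / n, h % n, Nat.mod_lt _ hn, by rw [mul_comm, Nat.div_add_mod]⟩
  have hr : r ≤ r' := by
    by_contra hc
    have := Nat.mul_le_mul_right n (show r' + 1 ≤ r by omega)
    rw [Nat.succ_mul] at this
    omega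
  simp only [d, nV_cast _ _ hx, nV_cast _ _ hx', if_true]
  obtain ⟨j, rfl⟩ := Nat.exists_eq_add_of_le hr
  have hx0 : (x : ℤ) + 1 ≤ n := by exact_mod_cast hx
  have hx1 : (x' : ℤ) + 1 ≤ n := by exact_mod_cast hx'
  rcases j with _ | _ | j
  · simp only [add_zero, if_true] at hh ⊢
    have : (x : ℤ) + 1 ≤ x' := by exact_mod_cast (show x + 1 ≤ x' by omega)
    refine ⟨fun e => ?_, fun _ => ?_⟩
    · rw [Nat.succ_mul] at e; omega
    · push_cast; nlinarith
  · rw [if_neg (by omega)]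
    refine ⟨fun e => ?_, fun e => ?_⟩
    · have : (x' : ℤ) = n - 1 - x := by simp only [zero_add] at e; omega
      push_cast; rw [this]; ring
    · have : (x' : ℤ) ≠ n - 1 - x := by
        intro e'; apply e; simp only [zero_add]; omega
      have h2 : 0 < ((x' : ℤ) - (n - 1 - x)) ^ 2 := by positivity
      push_cast; nlinarith
  · refine ⟨fun e => ?_, fun _ => ?_⟩
    · exfalso
      have : (r + (j + 1 + 1)) * n = (r + 1) * n + n + j * n := by ring
      omega
    · have a1 : (2 * ((n : ℤ) - x') - 1) ^ 2 ≤ 4 * n * n := by nlinarith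
      have a2 : (0 : ℤ) ≤ 2 * ((n : ℤ) - x) - 1 := by omega
      have a3 : (2 * ((n : ℤ) - x) - 1) * ((j + 2) * n + x' - x) ≤ 2 * n * ((j + 3) * n) := by
        apply mul_le_mul <;> nlinarith
      have a4 : (1 : ℤ) ≤ n * n := by nlinarith
      have a5 : (0 : ℤ) ≤ n * n * j := by positivity
      split_ifs
      · push_cast; nlinarith [sq_nonneg (2 * ((n : ℤ) - x) - 1)]
      · push_cast; nlinarith [sq_nonneg (2 * ((n : ℤ) - x) - 1), sq_nonneg (2 * (x' : ℤ) + 1)]

section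
variable {n N : ℕ}

theorem e1_cast {t : ℕ} (ht : t < mm n N) :
    (e1 n N t : ℤ) = ZZ n N - RR n N * (t * t) ∧ 4 * (RR n N * VV n N) ≤ e1 n N t ∧
      e1 n N t ≤ ZZ n N := by
  have h1 : t * t ≤ VV n N := by unfold VV; nlinarith
  have h2 := Nat.mul_le_mul_left (RR n N) h1
  unfold e1 ZZ
  refine ⟨?_, by omega, by omega⟩
  rw [Nat.cast_sub (by omega)]; push_cast; ring

theorem eV_cast (q : ℕ) {t : ℕ} (ht : t < mm n N) :
    (eV n N q t : ℤ) = ZZ n N - RR n N * nV n q t ∧ 4 * (RR n N * VV n N) ≤ eV n N q t ∧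
      eV n N q t ≤ ZZ n N := by
  have h2 := Nat.mul_le_mul_left (RR n N) (nV_le (q := q) ht)
  unfold eV ZZ
  refine ⟨?_, by omega, by omega⟩
  rw [Nat.cast_sub (by omega)]; push_cast; ring

theorem SS_bd {s t t' : ℕ} (hs : s < 12) (ht : t < mm n N) (ht' : t' < mm n N) :
    SS n N s t ≤ 4 * ZZ n N ∧ SS n N s t ≤ SS n N s t' + 4 * (RR n N * VV n N) := by
  obtain ⟨-, a1, a2⟩ := e1_cast ht
  obtain ⟨-, a3, a4⟩ := eV_cast 0 ht
  obtain ⟨-, a5, a6⟩ := eV_cast 1 ht
  obtain ⟨-, b1, b2⟩ := e1_cast ht'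
  obtain ⟨-, b3, b4⟩ := eV_cast 0 ht'
  obtain ⟨-, b5, b6⟩ := eV_cast 1 ht'
  unfold SS
  unfold ZZ at *
  interval_cases s <;> simp only [Nat.reduceMod, Nat.reduceDiv] <;> omega

theorem pJ_cases (n i : ℕ) : pJ n i = 1 ∨ pJ n i = 3 ∨ pJ n i = 6 ∨ (13 ≤ pJ n i ∧ pJ n i ≤ 24) := by
  unfold pJ; split_ifs <;> omega

theorem EE_abs {p : ℕ} (hp : p ≤ 24) (t : ℕ) :
    -(WW n N : ℤ) ≤ EE n N p t ∧ EE n N p t ≤ WW n N := by
  unfold EE Ep En WW
  by_cases ht : t < mm n N
  · obtain ⟨-, a1, a2⟩ := e1_cast ht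
    obtain ⟨-, a3, a4⟩ := eV_cast 0 ht
    obtain ⟨-, a5, a6⟩ := eV_cast 1 ht
    by_cases h13 : 13 ≤ p
    · have := (SS_bd (show 24 - p < 12 by omega) ht ht).1
      simp only [ht, h13, if_true, and_self]
      split_ifs <;> omega
    · simp only [ht, h13, if_true, and_false, if_false]
      split_ifs <;> omega
  · simp only [ht, if_false, false_and]; omega

theorem EE_m (p : ℕ) : EE n N p (mm n N) = 0 := by simp [EE, Ep, En]

theorem EE_1 {t : ℕ} (ht : t < mm n N) : EE n N 1 t = e1 n N t := by simp [EE, Ep, En, ht]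

theorem EE_V {q t : ℕ} (hq : q < 2) (ht : t < mm n N) : EE n N (3 + 3 * q) t = eV n N q t := by
  interval_cases q <;> simp [EE, Ep, En, ht]

theorem EE_F {s t : ℕ} (hs : s < 12) (ht : t < mm n N) :
    EE n N (24 - s) t = -(YY n N + SS n N s t : ℕ) := by
  have h1 : 24 - s ≠ 1 ∧ 24 - s ≠ 3 ∧ 24 - s ≠ 6 ∧ 13 ≤ 24 - s ∧ 24 - (24 - s) = s := by omega
  simp [EE, Ep, En, ht, h1]

theorem consts (hm : 0 < mm n N) : 1 ≤ RR n N ∧
    RR n N * (1 + 2 * (mm n N * mm n N) + 8 * (n * mm n N)) ≤ 4 * (RR n N * VV n N) ∧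
    RR n N ≤ RR n N * VV n N ∧ n ≤ mm n N := by
  have hn : 0 < n := Nat.pos_of_ne_zero (by rintro rfl; simp [mm] at hm)
  have h1 : 1 ≤ n * mm n N := Nat.mul_pos hn hm
  refine ⟨by unfold RR; omega, ?_, Nat.le_mul_of_pos_right _ (by unfold VV; nlinarith),
    Nat.le_mul_of_pos_left _ (by omega)⟩
  rw [mul_left_comm 4]
  exact Nat.mul_le_mul_left _ (by unfold VV; nlinarith)

theorem red_main {ok : ℕ → Bool} (hok : ∀ i, ok i = true →
      (i % 14 = 12 → i / 14 % n + 1 < n) ∧ (i % 14 = 13 → i / 14 / n < N))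
    {i : ℕ} (hi : i < 14 * mm n N) :
    (∀ h ≤ mm n N, 0 ≤ red (pJ n) (aJ n N ok) (wJ n N ok) (EE n N) (cc n N) i h + mm n N ∧
      (h ≠ aJ n N ok i → h ≠ bJ n N ok i →
        (RR n N : ℤ) ≤ red (pJ n) (aJ n N ok) (wJ n N ok) (EE n N) (cc n N) i h + mm n N)) ∧
    red (pJ n) (aJ n N ok) (wJ n N ok) (EE n N) (cc n N) i (bJ n N ok i) ≤ 0 := by
  have ht : i / 14 < mm n N := by omega
  have hm : 0 < mm n N := by omega
  obtain ⟨c1, c2, c3, c4⟩ := consts hm
  have hn : 0 < n := Nat.pos_of_ne_zero (by rintro rfl; simp [mm] at hm)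
  have hp := pJ_cases n i
  have hc : 2 * WW n N + RR n N ≤ cc n N := by unfold cc; omega
  have hW : 20 * (RR n N * VV n N) ≤ WW n N := by unfold WW ZZ; omega
  -- holes before the due hole
  have hlt : ∀ h < aJ n N ok i,
      (RR n N : ℤ) ≤ red (pJ n) (aJ n N ok) (wJ n N ok) (EE n N) (cc n N) i h := by
    intro h hh
    have a1 := (EE_abs (n := n) (N := N) (show pJ n i ≤ 24 by omega) h).2
    have a2 := (EE_abs (n := n) (N := N) (show pJ n i ≤ 24 by omega) (aJ n N ok i)).1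
    have a3 : (1 : ℤ) * cc n N * 1 ≤ pJ n i * cc n N * ((aJ n N ok i : ℤ) - h) := by
      apply mul_le_mul (mul_le_mul_of_nonneg_right (by omega) (by positivity)) <;>
        first | omega | positivity
    unfold red
    rw [Nat.sub_eq_zero_of_le hh.le]
    zify at hc
    push_cast
    nlinarith
  have heq : red (pJ n) (aJ n N ok) (wJ n N ok) (EE n N) (cc n N) i (aJ n N ok i) = 0 := by
    simp [red]
  suffices H : ok i = true → (∀ h, i / 14 < h → h ≤ mm n N →
      (h = bJ n N ok i → -(mm n N : ℤ) ≤ red (pJ n) (aJ n N ok) (wJ n N ok) (EE n N) (cc n N) i h ∧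
        red (pJ n) (aJ n N ok) (wJ n N ok) (EE n N) (cc n N) i h ≤ 0) ∧
      (h ≠ bJ n N ok i →
        (RR n N : ℤ) ≤ red (pJ n) (aJ n N ok) (wJ n N ok) (EE n N) (cc n N) i h)) ∧
      i / 14 < bJ n N ok i ∧ bJ n N ok i ≤ mm n N by
    refine ⟨fun h hh => ?_, ?_⟩
    · rcases lt_trichotomy h (aJ n N ok i) with h1 | h1 | h1
      · have := hlt h h1
        exact ⟨by omega, fun _ _ => by omega⟩
      · rw [h1, heq]; exact ⟨by omega, fun e => absurd rfl e⟩
      · have hv : ok i = true := by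
          by_contra hv; simp only [aJ, hv] at h1; simp at h1; omega
        have := (H hv).1 h (by simpa [aJ, hv] using h1) hh
        refine ⟨?_, fun _ e => by have := this.2 e; omega⟩
        by_cases e : h = bJ n N ok i
        · have := this.1 e; omega
        · have := this.2 e; omega
    · by_cases hv : ok i = true
      · exact (((H hv).1 _ (H hv).2.1 (H hv).2.2).1 rfl).2
      · have : bJ n N ok i = aJ n N ok i := by simp [aJ, bJ, hv]
        rw [this, heq]
  intro hv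
  obtain ⟨o1, o2⟩ := hok i hv
  have ha : aJ n N ok i = i / 14 := by simp [aJ, hv]
  have hx := Nat.mod_lt (i / 14) hn
  have hd : i / 14 / n * n + i / 14 % n = i / 14 := by rw [mul_comm, Nat.div_add_mod]
  have hr : i / 14 / n < N + 1 := (Nat.div_lt_iff_lt_mul hn).2 ht
  by_cases k12 : i % 14 = 12
  · have hb : bJ n N ok i = i / 14 + 1 := by simp [bJ, hv, k12]
    have hp1 : pJ n i = 1 := by simp [pJ, k12]
    have hw : (wJ n N ok i : ℤ) = cc n N - RR n N * (2 * (i / 14 : ℕ) + 1) := by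
      have : RR n N * (2 * (i / 14) + 1) ≤
          RR n N * (1 + 2 * (mm n N * mm n N) + 8 * (n * mm n N)) :=
        Nat.mul_le_mul_left _ (by nlinarith)
      simp only [wJ, hv, k12, if_true]
      rw [Nat.cast_sub (by omega)]; push_cast; ring
    have hb' : i / 14 + 1 < mm n N := by
      have b1 := Nat.mul_le_mul_right n (show i / 14 / n + 1 ≤ N + 1 from hr)
      have := o1 k12
      rw [Nat.succ_mul] at b1
      unfold mm; omega
    refine ⟨fun h h1 h2 => ?_, by omega, by omega⟩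
    unfold red
    rw [ha, hb, hp1, hw, EE_1 ht, Nat.cast_sub h1.le]
    generalize i / 14 = t at *
    obtain ⟨q1, q2, -⟩ := e1_cast ht
    rcases h2.lt_or_eq with h2 | rfl
    · rw [EE_1 h2, q1, (e1_cast h2).1]
      refine ⟨fun e => ?_, fun e => ?_⟩
      · subst e; push_cast; constructor <;> nlinarith
      · have a1 : (t : ℤ) + 2 ≤ h := by omega
        have a2 : (1 : ℤ) ≤ (h - t) * (h - t - 1) := by nlinarith
        have a3 := mul_le_mul_of_nonneg_left a2 (show (0 : ℤ) ≤ RR n N by positivity)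
        push_cast; nlinarith
    · rw [EE_m]
      refine ⟨fun e => by omega, fun _ => ?_⟩
      have a1 : (2 * (t : ℤ) + 1) * (mm n N - t) ≤ 2 * (mm n N * mm n N) := by
        have : (t : ℤ) + 1 ≤ mm n N := by omega
        nlinarith
      have a3 := mul_le_mul_of_nonneg_left a1 (show (0 : ℤ) ≤ RR n N by positivity)
      have a4 : (0 : ℤ) ≤ RR n N * (n * mm n N) := by positivity
      zify at c2 q2
      push_cast; nlinarith
  by_cases k13 : i % 14 = 13
  · have hb : bJ n N ok i = (i / 14 / n + 1) * n + (n - 1 - i / 14 % n) := by simp [bJ, hv, k13]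
    have hp1 : pJ n i = 3 + 3 * (i / 14 / n % 2) := by simp [pJ, k13]
    have hw : (wJ n N ok i : ℤ) = pJ n i * cc n N -
        RR n N * (4 * (2 * ((n : ℤ) - (i / 14 % n : ℕ)) - 1)) := by
      have : RR n N * (4 * (2 * (n - i / 14 % n) - 1)) ≤
          RR n N * (1 + 2 * (mm n N * mm n N) + 8 * (n * mm n N)) :=
        Nat.mul_le_mul_left _ (by
          have := Nat.le_mul_of_pos_right n hm
          omega)
      have h2 : cc n N ≤ pJ n i * cc n N := Nat.le_mul_of_pos_left _ (by omega)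
      simp only [wJ, hv, k13, if_true]
      rw [if_neg (by omega), Nat.cast_sub (by omega)]
      push_cast
      rw [Nat.cast_sub (by omega)]
      push_cast
      rw [Nat.cast_sub (by omega)]
      push_cast; ring
    have hb' : (i / 14 / n + 1) * n + (n - 1 - i / 14 % n) < mm n N := by
      have := Nat.mul_le_mul_right n (show i / 14 / n + 1 ≤ N from o2 k13)
      unfold mm; rw [Nat.succ_mul N]; omega
    refine ⟨fun h h1 h2 => ?_, by rw [hb, Nat.succ_mul]; omega, by omega⟩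
    have hq : i / 14 / n % 2 < 2 := Nat.mod_lt _ (by omega)
    have g := geoV (h := h) hx (by rw [hd]; exact h1)
    simp only [hd] at g
    unfold red
    rw [ha, hb, hw, hp1, EE_V hq ht, Nat.cast_sub h1.le]
    obtain ⟨q1, q2, -⟩ := eV_cast (i / 14 / n % 2) ht
    rcases h2.lt_or_eq with h2 | rfl
    · rw [EE_V hq h2, q1, (eV_cast _ h2).1]
      refine ⟨fun e => ?_, fun e => ?_⟩
      · have a1 := congrArg (fun z => (RR n N : ℤ) * z) (g.1 e)
        constructor <;> nlinarith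
      · have a3 := mul_le_mul_of_nonneg_left (g.2 e) (show (0 : ℤ) ≤ RR n N by positivity)
        nlinarith
    · rw [EE_m]
      refine ⟨fun e => by omega, fun _ => ?_⟩
      have a1 : (4 * (2 * ((n : ℤ) - (i / 14 % n : ℕ)) - 1)) * (mm n N - (i / 14 : ℕ)) ≤
          8 * n * mm n N := by
        apply mul_le_mul <;> omega
      have a3 := mul_le_mul_of_nonneg_left a1 (show (0 : ℤ) ≤ RR n N by positivity)
      have a4 : (0 : ℤ) ≤ RR n N * (mm n N * mm n N) := by positivity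
      zify at c2 q2
      nlinarith
  have hs : i % 14 < 12 := by omega
  have hb : bJ n N ok i = mm n N := by simp [bJ, hv, k12, k13]
  have hp1 : pJ n i = 24 - i % 14 := by simp [pJ, k12, k13]
  have hw : wJ n N ok i = pJ n i * cc n N +
      (YY n N + SS n N (i % 14) (i / 14)) / (mm n N - i / 14) := by simp [wJ, hv, k12, k13]
  refine ⟨fun h h1 h2 => ?_, by omega, by omega⟩
  have d1 := Nat.div_add_mod (YY n N + SS n N (i % 14) (i / 14)) (mm n N - i / 14)
  have d2 := Nat.mod_lt (YY n N + SS n N (i % 14) (i / 14)) (show 0 < mm n N - i / 14 by omega)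
  have d3 : ZZ n N ≤ (YY n N + SS n N (i % 14) (i / 14)) / (mm n N - i / 14) := by
    rw [Nat.le_div_iff_mul_le (by omega), mul_comm]
    have := Nat.mul_le_mul_right (ZZ n N) (Nat.sub_le (mm n N) (i / 14))
    unfold YY; omega
  generalize (YY n N + SS n N (i % 14) (i / 14)) / (mm n N - i / 14) = u at *
  generalize (YY n N + SS n N (i % 14) (i / 14)) % (mm n N - i / 14) = v at *
  unfold red
  rw [ha, hb, hw, hp1, EE_F hs ht]
  rcases h2.lt_or_eq with h2 | rfl
  · rw [EE_F hs h2, Nat.cast_sub h1.le]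
    refine ⟨fun e => by omega, fun _ => ?_⟩
    have a1 := (SS_bd hs ht h2).2
    have a2 : (u : ℤ) * 1 ≤ u * ((h : ℤ) - (i / 14 : ℕ)) :=
      mul_le_mul_of_nonneg_left (by omega) (by positivity)
    unfold ZZ at d3
    zify at a1 d3 c3
    push_cast at a2 ⊢
    nlinarith
  · rw [EE_m, ← d1]
    refine ⟨fun _ => ?_, fun e => absurd rfl e⟩
    zify [ht.le] at d2
    push_cast [Nat.cast_sub ht.le] at d2 ⊢
    constructor <;> nlinarith

theorem pattern {t : ℕ} (ht : t < mm n N) (S : Finset ℕ) (hS : ∑ i ∈ S, pJ n i = 24) :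
    -(YY n N : ℤ) ≤ ∑ i ∈ S, EE n N (pJ n i) t := by
  obtain ⟨-, a1, a2⟩ := e1_cast ht
  obtain ⟨-, a3, a4⟩ := eV_cast 0 ht
  obtain ⟨-, a5, a6⟩ := eV_cast 1 ht
  have key : ∀ S : Finset ℕ, (∀ i ∈ S, pJ n i < 13) → ∃ x y z : ℕ,
      ∑ i ∈ S, pJ n i = x + 3 * y + 6 * z ∧
      ∑ i ∈ S, EE n N (pJ n i) t = (x * e1 n N t + y * eV n N 0 t + z * eV n N 1 t : ℕ) := by
    intro S
    induction S using Finset.induction_on with
    | empty => exact fun _ => ⟨0, 0, 0, by simp, by simp⟩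
    | insert j S hj ih =>
      intro h
      obtain ⟨x, y, z, h1, h2⟩ := ih fun i hi => h i (mem_insert_of_mem hi)
      have h3 := h j (mem_insert_self _ _)
      rw [sum_insert hj, sum_insert hj, h1, h2]
      rcases pJ_cases n j with e | e | e | e
      · exact ⟨x + 1, y, z, by omega, by rw [e, EE_1 ht]; push_cast; ring⟩
      · exact ⟨x, y + 1, z, by omega, by
          rw [e, EE_V (q := 0) (by omega) ht]; push_cast; ring⟩
      · exact ⟨x, y, z + 1, by omega, by
          rw [e, EE_V (q := 1) (by omega) ht]; push_cast; ring⟩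
      · omega
  by_cases hF : ∀ i ∈ S, pJ n i < 13
  · obtain ⟨x, y, z, -, h2⟩ := key S hF
    omega
  push Not at hF
  obtain ⟨j, hj, hj'⟩ := hF
  rw [← add_sum_erase S _ hj] at hS ⊢
  obtain ⟨x, y, z, h1, h2⟩ := key (S.erase j) fun i hi => by
    have := single_le_sum (f := pJ n) (fun _ _ => Nat.zero_le _) hi
    omega
  have hs : x + 3 * y + 6 * z < 12 := by omega
  rw [h2, show pJ n j = 24 - (x + 3 * y + 6 * z) by omega, EE_F hs ht]
  suffices SS n N (x + 3 * y + 6 * z) t ≤ x * e1 n N t + y * eV n N 0 t + z * eV n N 1 t by omega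
  unfold SS
  unfold ZZ at *
  have hz : z < 2 := by omega
  have hy : y < 4 := by omega
  have hx : x < 12 := by omega
  interval_cases z <;> interval_cases y <;> interval_cases x <;>
    simp only [Nat.reduceMod, Nat.reduceDiv, Nat.reduceMul, Nat.reduceAdd] <;> omega

end

end Pool.Agent.H22.WT
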