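import Pool.Agent.H22.WT3

/-!
The grid instance encodes satisfiability.
-/

namespace Pool.Agent.H22.WT

open Finset

def col (n r x : ℕ) : ℕ := if r % 2 = 0 then x else n - 1 - x

def okF (n N : ℕ) (lit : ℕ → ℕ → Bool → Bool) (i : ℕ) : Bool :=
  if i % 14 = 12 then decide (i / 14 % n + 1 < n)
  else if i % 14 = 13 then decide (i / 14 / n < N)
  else (decide (i / 14 / n = 0) || decide (i / 14 / n = N) ||
      decide (i % 14 / 3 % 2 + i % 14 / 6 = 1)) &&
    (decide (i / 14 / n = 0) || decide (1 ≤ i % 14 % 3) ||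
      lit (i / 14 / n - 1) (col n (i / 14 / n) (i / 14 % n))
        (decide ((if i / 14 / n % 2 = 0 then i % 14 / 6 else i % 14 / 3 % 2) = 1)))

theorem okF_hok (n N lit) (i : ℕ) (h : okF n N lit i = true) :
    (i % 14 = 12 → i / 14 % n + 1 < n) ∧ (i % 14 = 13 → i / 14 / n < N) := by
  refine ⟨fun e => ?_, fun e => ?_⟩
  · simpa [okF, e] using h
  · simpa [okF, e] using h

theorem dm {n : ℕ} (r : ℕ) {x : ℕ} (hx : x < n) : (r * n + x) / n = r ∧ (r * n + x) % n = x :=
  ⟨by rw [mul_comm, Nat.mul_add_div (by omega), Nat.div_eq_of_lt hx, add_zero],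
    by rw [mul_comm, Nat.mul_add_mod, Nat.mod_eq_of_lt hx]⟩

theorem sum_block {M : Type} [AddCommMonoid M] (g : ℕ → M) {m t : ℕ} (ht : t < m) :
    ∑ i ∈ range (14 * m), (if i / 14 = t then g i else 0) = ∑ k ∈ range 14, g (14 * t + k) := by
  rw [← sum_filter]
  have : (range (14 * m)).filter (fun i => i / 14 = t) = Ico (14 * t) (14 * t + 14) := by
    ext i; simp only [mem_filter, mem_range, mem_Ico]; omega
  rw [this, sum_Ico_eq_sum_range, Nat.add_sub_cancel_left]

section
variable {n N : ℕ} {ok : ℕ → Bool}

theorem lt_mm {r x : ℕ} (hr : r ≤ N) (hx : x < n) : r * n + x < mm n N := by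
  have := Nat.mul_le_mul_right n hr
  unfold mm; rw [Nat.succ_mul]; omega

theorem fiber {M : Type} [AddCommMonoid M] (φ : ℕ → M) (hok : ∀ i, ok i = true →
      (i % 14 = 12 → i / 14 % n + 1 < n) ∧ (i % 14 = 13 → i / 14 / n < N))
    {h : ℕ → ℕ} (hh : ∀ i < 14 * mm n N, h i = aJ n N ok i ∨ h i = bJ n N ok i)
    {r x : ℕ} (hr : r ≤ N) (hx : x < n) :
    ∑ i ∈ range (14 * mm n N) with h i = r * n + x, φ (pJ n i) =
      ∑ s ∈ range 12, (if h (14 * (r * n + x) + s) = r * n + x then φ (24 - s) else 0) +
      (if h (14 * (r * n + x) + 12) = r * n + x then φ 1 else 0) +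
      (if h (14 * (r * n + x) + 13) = r * n + x then φ (3 + 3 * (r % 2)) else 0) +
      (if 0 < x ∧ h (14 * (r * n + (x - 1)) + 12) = r * n + x then φ 1 else 0) +
      (if 0 < r ∧ h (14 * ((r - 1) * n + (n - 1 - x)) + 13) = r * n + x
        then φ (3 + 3 * ((r + 1) % 2)) else 0) := by
  have ht := lt_mm hr hx
  have hn : 0 < n := by omega
  have hU : 0 < r → (r - 1) * n + n = r * n := fun h => by
    rw [← Nat.succ_mul]; congr 1; omega
  have e : ∀ i ∈ range (14 * mm n N), (if h i = r * n + x then φ (pJ n i) else 0) =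
      (if i / 14 = r * n + x then (if h i = r * n + x then φ (pJ n i) else 0) else 0) +
      (if i = 14 * (r * n + (x - 1)) + 12 then
        (if 0 < x ∧ h i = r * n + x then φ (pJ n i) else 0) else 0) +
      (if i = 14 * ((r - 1) * n + (n - 1 - x)) + 13 then
        (if 0 < r ∧ h i = r * n + x then φ (pJ n i) else 0) else 0) := by
    intro i hi
    by_cases e0 : h i = r * n + x
    swap
    · simp [e0]
    by_cases e1 : i / 14 = r * n + x
    · have b1 : ¬ (i = 14 * (r * n + (x - 1)) + 12 ∧ 0 < x) := by omega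
      have b2 : ¬ (i = 14 * ((r - 1) * n + (n - 1 - x)) + 13 ∧ 0 < r) := by
        rintro ⟨b2, b3⟩; have := hU b3; omega
      simp only [e0, e1, and_true, if_true, ← ite_and, b1, b2, if_false, add_zero]
    have hv : ok i = true := by
      by_contra hv
      rcases hh i (mem_range.1 hi) with e | e <;> simp [aJ, bJ, hv] at e <;> omega
    obtain ⟨o1, o2⟩ := hok i hv
    have hb : bJ n N ok i = r * n + x := by
      rcases hh i (mem_range.1 hi) with e | e
      · simp only [aJ, hv, if_true] at e; omega
      · omega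
    have hd : i / 14 / n * n + i / 14 % n = i / 14 := by rw [mul_comm, Nat.div_add_mod]
    have hx' := Nat.mod_lt (i / 14) hn
    simp only [bJ, hv, if_true] at hb
    split_ifs at hb with k12 k13
    · have b0 : 0 < x := by
        have b3 := (dm (i / 14 / n) (o1 k12)).2
        have b4 := (dm r hx).2
        rw [← Nat.add_assoc, hd, hb, b4] at b3
        omega
      have b1 : i = 14 * (r * n + (x - 1)) + 12 := by omega
      have b2 : ¬ i = 14 * ((r - 1) * n + (n - 1 - x)) + 13 := by omega
      rw [if_pos e0, if_neg e1, if_pos b1, if_neg b2, if_pos ⟨b0, e0⟩, zero_add, add_zero]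
    · have b3 := dm (i / 14 / n + 1) (show n - 1 - i / 14 % n < n by omega)
      rw [hb, (dm r hx).1, (dm r hx).2] at b3
      have b0 : 0 < r := b3.1 ▸ Nat.succ_pos _
      have b1 : ¬ i = 14 * (r * n + (x - 1)) + 12 := by omega
      have b2 : i = 14 * ((r - 1) * n + (n - 1 - x)) + 13 := by
        rw [show r - 1 = i / 14 / n by rw [b3.1, Nat.add_sub_cancel]]; omega
      rw [if_pos e0, if_neg e1, if_neg b1, if_pos b2, if_pos ⟨b0, e0⟩, zero_add, zero_add]
    · omega
  rw [sum_filter, sum_congr rfl e, sum_add_distrib, sum_add_distrib, sum_block _ ht,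
    sum_ite_eq', sum_ite_eq', sum_range_succ, sum_range_succ,
    if_pos (mem_range.2 (by omega : 14 * (r * n + (x - 1)) + 12 < 14 * mm n N)),
    if_pos (mem_range.2 (by
      have := lt_mm (N := N) (show r - 1 ≤ N by omega) (show n - 1 - x < n by omega)
      omega : 14 * ((r - 1) * n + (n - 1 - x)) + 13 < 14 * mm n N))]
  have p1 : ∀ t, pJ n (14 * t + 12) = 1 := fun t => by
    simp [pJ, show (14 * t + 12) % 14 = 12 by omega]
  have p2 : ∀ r x, x < n → pJ n (14 * (r * n + x) + 13) = 3 + 3 * (r % 2) := fun r x hx => by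
    simp [pJ, show (14 * (r * n + x) + 13) % 14 = 13 by omega,
      show (14 * (r * n + x) + 13) / 14 = r * n + x by omega, (dm r hx).1]
  rw [p1, p1, p2 r x hx, p2 (r - 1) _ (show n - 1 - x < n by omega)]
  congr 1
  · congr 3
    refine sum_congr rfl fun s hs => ?_
    have := mem_range.1 hs
    rw [show pJ n (14 * (r * n + x) + s) = 24 - s by
      unfold pJ; rw [if_neg (by omega), if_neg (by omega)]; omega]
  · split_ifs with b
    · rw [show (r - 1) % 2 = (r + 1) % 2 by omega]
    · rfl

theorem ok_of_stay {h : ℕ → ℕ} (hh : ∀ i < 14 * mm n N, h i = aJ n N ok i ∨ h i = bJ n N ok i)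
    {i : ℕ} (hi : i < 14 * mm n N) (e : h i < mm n N) : ok i = true := by
  by_contra hv
  rcases hh i hi with e | e <;> simp [aJ, bJ, hv] at e <;> omega

end

theorem grid_sound {n N : ℕ} {lit : ℕ → ℕ → Bool → Bool} (hn : 0 < n) {h : ℕ → ℕ}
    (hh : ∀ i < 14 * mm n N, h i = aJ n N (okF n N lit) i ∨ h i = bJ n N (okF n N lit) i)
    (hl : ∀ t < mm n N, ∑ i ∈ range (14 * mm n N) with h i = t, pJ n i = 24) :
    ∃ β : ℕ → Bool, ∀ c < N, ∃ v < n, lit c v (β v) = true := by
  -- local constraints
  have loc : ∀ r ≤ N, 0 < r → ∀ x < n,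
      (r = N ∨ (h (14 * (r * n + x) + 13) = r * n + x ↔
        ¬ h (14 * ((r - 1) * n + (n - 1 - x)) + 13) = r * n + x)) ∧
      (h (14 * (r * n + x) + 12) = r * n + x ∨
        (0 < x ∧ h (14 * (r * n + (x - 1)) + 12) = r * n + x) ∨
        lit (r - 1) (col n r x)
          (decide (h (14 * ((r - 1) * n + (n - 1 - x)) + 13) = r * n + x)) = true) := by
    intro r hr hr0 x hx
    have ht := lt_mm hr hx
    have h1 := hl _ ht
    have h13 : r = N → ¬ h (14 * (r * n + x) + 13) = r * n + x := by
      intro e e'
      have := (okF_hok _ _ _ _ (ok_of_stay hh (i := 14 * (r * n + x) + 13) (by omega)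
        (by omega))).2 (by omega)
      rw [show (14 * (r * n + x) + 13) / 14 = r * n + x by omega, (dm r hx).1] at this
      omega
    rw [fiber (fun p => p) (okF_hok n N lit) hh hr hx] at h1
    obtain ⟨s, hs, e⟩ : ∃ s ∈ range 12, h (14 * (r * n + x) + s) = r * n + x := by
      by_contra hc
      push Not at hc
      rw [sum_eq_zero fun s hs => if_neg (hc s hs)] at h1
      split_ifs at h1 <;> omega
    rw [← add_sum_erase _ _ hs, if_pos e] at h1
    have hs' := mem_range.1 hs
    rw [sum_eq_zero (s := erase _ _) fun s' hs2 => by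
      have h2 := single_le_sum (f := fun s =>
        if h (14 * (r * n + x) + s) = r * n + x then 24 - s else 0) (fun _ _ => Nat.zero_le _) hs2
      have := mem_range.1 (mem_of_mem_erase hs2)
      split_ifs at h2 ⊢ <;> omega] at h1
    have h3 := ok_of_stay hh (i := 14 * (r * n + x) + s) (by omega) (by omega)
    unfold okF at h3
    rw [if_neg (by omega), if_neg (by omega), show (14 * (r * n + x) + s) / 14 = r * n + x by omega,
      show (14 * (r * n + x) + s) % 14 = s by omega, (dm r hx).1, (dm r hx).2] at h3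
    simp only [Bool.and_eq_true, Bool.or_eq_true, decide_eq_true_eq] at h3
    obtain ⟨h4, h5⟩ := h3
    simp only [hr0, true_and] at h1
    generalize h (14 * (r * n + x) + 12) = A at *
    generalize h (14 * (r * n + x) + 13) = B at *
    generalize h (14 * (r * n + (x - 1)) + 12) = C at *
    generalize h (14 * ((r - 1) * n + (n - 1 - x)) + 13) = D at *
    generalize r * n + x = t at *
    refine ⟨?_, ?_⟩
    · split_ifs at h1 <;> omega
    · have : (D = t) ↔ ((if r % 2 = 0 then s / 6 else s / 3 % 2) = 1) := by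
        split_ifs at h1 ⊢ <;> omega
      rw [decide_eq_decide.2 this]
      rcases h5 with (h5 | h5) | h5
      · omega
      · split_ifs at h1 <;> omega
      · exact Or.inr (Or.inr h5)
  -- the two ends of a vertical job
  have vert : ∀ r < N, ∀ x < n, (h (14 * (r * n + x) + 13) = (r + 1) * n + (n - 1 - x) ↔
      ¬ h (14 * (r * n + x) + 13) = r * n + x) := by
    intro r hr x hx
    have ht := lt_mm hr.le hx
    have b1 : (14 * (r * n + x) + 13) / 14 = r * n + x := by omega
    have b2 : (14 * (r * n + x) + 13) % 14 = 13 := by omega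
    have hv : okF n N lit (14 * (r * n + x) + 13) = true := by simp [okF, b1, b2, (dm r hx).1, hr]
    have := hh (14 * (r * n + x) + 13) (by omega)
    simp only [aJ, bJ, hv, b1, b2, (dm r hx).1, (dm r hx).2, if_true] at this
    have e : (r + 1) * n = r * n + n := Nat.succ_mul r n
    simp at this
    omega
  refine ⟨fun v => decide (¬ h (14 * v + 13) = v), fun c hc => ?_⟩
  have prop : ∀ r < N, ∀ x < n, (h (14 * (r * n + x) + 13) = r * n + x ↔
      h (14 * col n r x + 13) = col n r x) := by
    intro r hr
    induction r with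
    | zero => intro x _; simp [col]
    | succ r ih =>
      intro x hx
      have h1 := (loc (r + 1) hr.le (by omega) x hx).1.resolve_left (by omega)
      have h2 := vert r (by omega) (n - 1 - x) (by omega)
      rw [show n - 1 - (n - 1 - x) = x by omega] at h2
      rw [h1, Nat.add_sub_cancel, h2, not_not, ih (by omega) _ (by omega)]
      rw [show col n r (n - 1 - x) = col n (r + 1) x by unfold col; split_ifs <;> omega]
  by_contra hcon
  push Not at hcon
  have hrow : ∀ x < n, h (14 * ((c + 1) * n + x) + 12) = (c + 1) * n + x := by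
    intro x hx
    have h0 : ∀ x < n, ¬ lit c (col n (c + 1) x)
        (decide (h (14 * (c * n + (n - 1 - x)) + 13) = (c + 1) * n + x)) = true := by
      intro x hx
      have h1 := hcon (col n (c + 1) x) (by unfold col; split_ifs <;> omega)
      have h2 := vert c hc (n - 1 - x) (by omega)
      rw [show n - 1 - (n - 1 - x) = x by omega, prop c hc _ (by omega),
        show col n c (n - 1 - x) = col n (c + 1) x by unfold col; split_ifs <;> omega] at h2
      rwa [decide_eq_decide.2 h2]
    induction x with
    | zero =>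
      have := (loc (c + 1) hc (by omega) 0 hx).2
      rw [Nat.add_sub_cancel] at this
      exact (this.resolve_right fun h => h.elim (fun h => by omega) (h0 0 hx))
    | succ x ih =>
      have := (loc (c + 1) hc (by omega) _ hx).2
      have h1 := ih (by omega)
      rw [Nat.add_sub_cancel, Nat.add_sub_cancel] at this
      exact (this.resolve_right fun h => h.elim (fun h => by omega) (h0 _ hx))
  have h1 := hrow (n - 1) (by omega)
  have ht := lt_mm (N := N) (show c + 1 ≤ N from hc) (show n - 1 < n by omega)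
  have := (okF_hok _ _ _ _ (ok_of_stay hh (i := 14 * ((c + 1) * n + (n - 1)) + 12) (by omega)
    (by omega))).1 (by omega)
  rw [show (14 * ((c + 1) * n + (n - 1)) + 12) / 14 = (c + 1) * n + (n - 1) by omega,
    (dm (c + 1) (show n - 1 < n by omega)).2] at this
  omega

theorem grid_complete {n N : ℕ} {lit : ℕ → ℕ → Bool → Bool} (hn : 0 < n) {β : ℕ → Bool}
    (hβ : ∀ c < N, ∃ v < n, lit c v (β v) = true) :
    ∃ h : ℕ → ℕ, (∀ i, h i ≤ mm n N) ∧
      (∀ i < 14 * mm n N, h i = aJ n N (okF n N lit) i ∨ h i = bJ n N (okF n N lit) i) ∧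
      (∀ t < mm n N, ∑ i ∈ range (14 * mm n N) with h i = t, pJ n i = 24) ∧
      ∀ t < mm n N, ∑ i ∈ range (14 * mm n N) with h i = t, EE n N (pJ n i) t ≤ -YY n N := by
  have hw : ∀ r, ∃ x < n, 0 < r → r ≤ N → lit (r - 1) (col n r x) (β (col n r x)) = true := by
    intro r
    by_cases hr : 0 < r ∧ r ≤ N
    · obtain ⟨v, hv, e⟩ := hβ (r - 1) (by omega)
      refine ⟨col n r v, by unfold col; split_ifs <;> omega, fun _ _ => ?_⟩
      rwa [show col n r (col n r v) = v by unfold col; split_ifs <;> omega]
    · exact ⟨0, hn, fun _ _ => by omega⟩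
  choose w hw1 hw2 using hw
  let X : ℕ → ℕ → ℕ := fun r x => if x = w r then 0 else 1
  let D : ℕ → ℕ → ℕ := fun r x => if r < N ∧ β (col n r x) = false then 1 else 0
  let U : ℕ → ℕ → ℕ := fun r x => if 0 < r ∧ β (col n r x) = true then 1 else 0
  let σ : ℕ → ℕ → ℕ := fun r x => X r x + D r x * (3 + 3 * (r % 2)) + U r x * (3 + 3 * ((r + 1) % 2))
  let stay : ℕ → Prop := fun i => if i % 14 = 12 then i / 14 % n < w (i / 14 / n)
    else if i % 14 = 13 then β (col n (i / 14 / n) (i / 14 % n)) = false
    else i % 14 = σ (i / 14 / n) (i / 14 % n)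
  classical
  let h : ℕ → ℕ := fun i => if i < 14 * mm n N then
    (if stay i then aJ n N (okF n N lit) i else bJ n N (okF n N lit) i) else 0
  have hh : ∀ i < 14 * mm n N, h i = aJ n N (okF n N lit) i ∨ h i = bJ n N (okF n N lit) i := by
    intro i hi
    simp only [h, hi, if_true]
    split_ifs <;> simp
  have h12 : ∀ r ≤ N, ∀ x < n, h (14 * (r * n + x) + 12) =
      if x < w r then r * n + x else if x + 1 < n then r * n + x + 1 else mm n N := by
    intro r hr x hx
    have ht := lt_mm hr hx
    have b1 : (14 * (r * n + x) + 12) / 14 = r * n + x := by omega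
    have b2 : (14 * (r * n + x) + 12) % 14 = 12 := by omega
    have := hw1 r
    simp only [h, stay, aJ, bJ, okF, b1, b2, (dm r hx).1, (dm r hx).2, if_true, decide_eq_true_eq]
    rw [if_pos (by omega)]
    split_ifs <;> omega
  have h13 : ∀ r ≤ N, ∀ x < n, h (14 * (r * n + x) + 13) = if r < N then
      (if β (col n r x) = false then r * n + x else (r + 1) * n + (n - 1 - x)) else mm n N := by
    intro r hr x hx
    have ht := lt_mm hr hx
    have b1 : (14 * (r * n + x) + 13) / 14 = r * n + x := by omega
    have b2 : (14 * (r * n + x) + 13) % 14 = 13 := by omega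
    simp only [h, stay, aJ, bJ, okF, b1, b2, (dm r hx).1, (dm r hx).2, if_true, decide_eq_true_eq,
      Nat.reduceEqDiff, if_false]
    rw [if_pos (by omega)]
    split_ifs <;> rfl
  have hσ : ∀ r x, σ r x < 12 ∧ σ r x % 3 = X r x ∧
      σ r x / 3 % 2 = (if r % 2 = 0 then D r x else U r x) ∧
      σ r x / 6 = (if r % 2 = 0 then U r x else D r x) := by
    intro r x
    simp only [σ, X, D, U]
    split_ifs <;> omega
  have hs : ∀ r ≤ N, ∀ x < n, ∀ s < 12, (h (14 * (r * n + x) + s) = r * n + x ↔ s = σ r x) := by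
    intro r hr x hx s hs
    have ht := lt_mm hr hx
    have b1 : (14 * (r * n + x) + s) / 14 = r * n + x := by omega
    have b2 : (14 * (r * n + x) + s) % 14 = s := by omega
    have b3 : s ≠ 12 := by omega
    have b4 : s ≠ 13 := by omega
    simp only [h, stay, aJ, bJ, b1, b2, b3, b4, (dm r hx).1, (dm r hx).2, if_false]
    rw [if_pos (by omega)]
    by_cases e : s = σ r x
    · have hv : okF n N lit (14 * (r * n + x) + s) = true := by
        obtain ⟨-, c1, c2, c3⟩ := hσ r x
        simp only [okF, b1, b2, b3, b4, (dm r hx).1, (dm r hx).2, if_false, Bool.and_eq_true,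
          Bool.or_eq_true, decide_eq_true_eq]
        rw [e, c1, c2, c3]
        refine ⟨?_, ?_⟩
        · simp only [D, U]
          cases β (col n r x) <;> simp <;> split_ifs <;> omega
        · by_cases hr0 : r = 0
          · exact Or.inl (Or.inl hr0)
          by_cases hx0 : x = w r
          · right
            have := hw2 r (by omega) hr
            rw [← hx0] at this
            convert this using 2
            simp only [U, show 0 < r by omega, true_and]
            cases β (col n r x) <;> split_ifs <;> simp_all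
          · exact Or.inl (Or.inr (by simp [X, hx0]))
      simp [e ▸ hv, e]
    · simp only [e, if_false, iff_false]
      split_ifs <;> omega
  have key : ∀ {M : Type} [AddCommMonoid M] (φ : ℕ → M), ∀ r ≤ N, ∀ x < n,
      ∑ i ∈ range (14 * mm n N) with h i = r * n + x, φ (pJ n i) =
        φ (24 - σ r x) + X r x • φ 1 + D r x • φ (3 + 3 * (r % 2)) +
          U r x • φ (3 + 3 * ((r + 1) % 2)) := by
    intro M _ φ r hr x hx
    have ht := lt_mm hr hx
    have e : (r + 1) * n = r * n + n := Nat.succ_mul r n
    rw [fiber φ (okF_hok n N lit) hh hr hx,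
      sum_congr rfl fun s hs' => if_congr (hs r hr x hx s (mem_range.1 hs')) rfl rfl,
      sum_ite_eq', if_pos (mem_range.2 (hσ r x).1), h12 r hr x hx, h13 r hr x hx,
      h12 r hr (x - 1) (by omega), h13 (r - 1) (by omega) (n - 1 - x) (by omega)]
    have c1 : ((if x < w r then r * n + x else if x + 1 < n then r * n + x + 1 else mm n N) =
        r * n + x) ↔ x < w r := by split_ifs <;> omega
    have c2 : (0 < x ∧ (if x - 1 < w r then r * n + (x - 1) else
        if x - 1 + 1 < n then r * n + (x - 1) + 1 else mm n N) = r * n + x) ↔ w r < x := by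
      split_ifs <;> omega
    have c3 : ((if r < N then (if β (col n r x) = false then r * n + x else
        (r + 1) * n + (n - 1 - x)) else mm n N) = r * n + x) ↔ r < N ∧ β (col n r x) = false := by
      split_ifs with a b
      · simp [a, b]
      · exact ⟨fun h => by omega, fun h => absurd h.2 b⟩
      · simp only [a, false_and, iff_false]; omega
    have c4 : (0 < r ∧ (if r - 1 < N then (if β (col n (r - 1) (n - 1 - x)) = false then
        (r - 1) * n + (n - 1 - x) else (r - 1 + 1) * n + (n - 1 - (n - 1 - x))) else mm n N) =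
        r * n + x) ↔ 0 < r ∧ β (col n r x) = true := by
      refine and_congr_right fun hr0 => ?_
      have e2 : (r - 1) * n + n = r * n := by rw [← Nat.succ_mul]; congr 1; omega
      rw [if_pos (by omega), show col n (r - 1) (n - 1 - x) = col n r x by
        unfold col; split_ifs <;> omega, Nat.sub_add_cancel hr0]
      cases β (col n r x)
      · simp only [if_true, Bool.false_eq_true, iff_false]; omega
      · simp only [Bool.true_eq_false, if_false, iff_true]; omega
    simp only [c1, c2, c3, c4, X, D, U, ite_smul, zero_smul, one_smul]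
    have c5 : (if x < w r then φ 1 else 0) + (if w r < x then φ 1 else 0) =
        if x = w r then 0 else φ 1 := by
      split_ifs <;> first | omega | simp
    rw [← c5]
    abel
  have dec : ∀ t < mm n N, ∃ r ≤ N, ∃ x < n, t = r * n + x := fun t ht =>
    ⟨t / n, Nat.le_of_lt_succ ((Nat.div_lt_iff_lt_mul hn).2 ht), t % n, Nat.mod_lt _ hn,
      by rw [mul_comm, Nat.div_add_mod]⟩
  refine ⟨h, fun i => ?_, hh, fun t ht => ?_, fun t ht => ?_⟩
  · by_cases hi : i < 14 * mm n N
    · obtain ⟨r, hr, x, hx, e⟩ := dec (i / 14) (by omega)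
      have e2 : (r + 1) * n = r * n + n := Nat.succ_mul r n
      have ht := lt_mm hr hx
      rcases hh i hi with e' | e' <;> rw [e']
      · unfold aJ; split_ifs <;> omega
      · unfold bJ
        split_ifs with a b c
        · omega
        · have := (okF_hok _ _ _ _ a).2 c
          rw [e, (dm r hx).1] at this
          rw [e, (dm r hx).1, (dm r hx).2]
          exact (lt_mm (N := N) this (by omega)).le
        · rfl
        · rfl
    · simp [h, hi]
  · obtain ⟨r, hr, x, hx, rfl⟩ := dec t ht
    rw [key (fun p => p) r hr x hx]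
    have := (hσ r x).1
    simp only [smul_eq_mul, σ] at this ⊢
    omega
  · obtain ⟨r, hr, x, hx, rfl⟩ := dec t ht
    obtain ⟨c0, c1, c2, c3⟩ := hσ r x
    rw [key (fun p => EE n N p (r * n + x)) r hr x hx, EE_F c0 ht, EE_1 ht,
      EE_V (Nat.mod_lt _ (by omega)) ht, EE_V (Nat.mod_lt _ (by omega)) ht, SS, c1, c2, c3]
    rcases Nat.mod_two_eq_zero_or_one r with e | e
    · rw [e, show (r + 1) % 2 = 1 by omega]; simp; ring_nf; rfl
    · rw [e, show (r + 1) % 2 = 0 by omega]; simp; ring_nf; rfl

theorem grid_iff {n N : ℕ} {lit : ℕ → ℕ → Bool → Bool} (hn : 0 < n) :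
    (∃ β : ℕ → Bool, ∀ c < N, ∃ v < n, lit c v (β v) = true) ↔
      HolesZ (14 * mm n N) (mm n N)
        (thr (14 * mm n N) (mm n N) (pJ n) (aJ n N (okF n N lit)) (EE n N) (cc n N) (YY n N))
        (pJ n) (aJ n N (okF n N lit)) (wJ n N (okF n N lit)) := by
  constructor
  · rintro ⟨β, hβ⟩
    obtain ⟨h, h1, h2, h3, h4⟩ := grid_complete hn hβ
    exact dual_complete (fun i hi => (red_main (okF_hok n N lit) hi).2) (fun _ => EE_m _)
      h h1 h2 h3 h4
  · intro H
    obtain ⟨h, h1, h2⟩ := dual_sound (R := RR n N) (W := WW n N)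
      (fun i hi => (red_main (okF_hok n N lit) hi).1) (by unfold RR; push_cast; omega)
      (fun t ht S _ hS => pattern ht S hS)
      (fun i _ h _ => (EE_abs (by have := pJ_cases n i; omega) h).1) (fun _ => EE_m _)
      (by positivity) (by positivity) (by
        have : 14 * mm n N * (mm n N + WW n N) < cc n N := by unfold cc RR; omega
        exact_mod_cast this) H
    exact grid_sound hn h1 h2

end Pool.Agent.H22.WT
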