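import Pool.Agent.H22.WT4
import Pool.Agent.H37.SimInc

/-!
The reduction from 3SAT.
-/

namespace Pool.Agent.H22.WT

open Finset Pool.Agent.H38.NP

abbrev F3 := List (Lit × Lit × Lit)

def nv (φ : F3) : ℕ := 1 + ((List.range (3 * φ.length)).map fun u => (litAt φ u).1).sum

def litF (φ : F3) (c v : ℕ) (b : Bool) : Bool :=
  (List.range 3).any fun j => decide ((litAt φ (3 * c + j)).1 = v) &&
    decide ((litAt φ (3 * c + j)).2 = b)

def okP (φ : F3) (i : ℕ) : Bool := okF (nv φ) φ.length (litF φ) i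
def aP (φ : F3) (i : ℕ) : ℕ := aJ (nv φ) φ.length (okP φ) i
def wP (φ : F3) (i : ℕ) : ℕ := wJ (nv φ) φ.length (okP φ) i
def nP (φ : F3) : ℕ := 14 * mm (nv φ) φ.length
def gP (φ : F3) : ℕ := ((List.range (nP φ)).map fun i => pJ (nv φ) i).sum
def AP (φ : F3) : ℕ := cc (nv φ) φ.length * (mm (nv φ) φ.length * gP φ) +
  ((List.range (nP φ)).map fun i => En (nv φ) φ.length (pJ (nv φ) i) (aP φ i)).sum
def BP (φ : F3) : ℕ :=
  cc (nv φ) φ.length * ((List.range (mm (nv φ) φ.length)).map fun t => (t + 1) * 24).sum +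
  mm (nv φ) φ.length * YY (nv φ) φ.length +
  ((List.range (nP φ)).map fun i => pJ (nv φ) i * cc (nv φ) φ.length * aP φ i +
    Ep (nv φ) φ.length (pJ (nv φ) i) (aP φ i)).sum
def LP (φ : F3) : ℕ := gP φ * ((List.range (nP φ)).map fun i => wP φ i).sum + 1

def inst (φ : F3) : List Job × ℕ :=
  if BP φ ≤ AP φ then
    ((List.range (nP φ + mm (nv φ) φ.length * LP φ)).map
      (jobF (nP φ) (AP φ - BP φ) (LP φ) (gP φ) (pJ (nv φ)) (aP φ) (wP φ)),
      (AP φ - BP φ) * (LP φ + 24))
  else ([(1, 0, 1)], 0)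

section
variable {α : Type} [Enc α] {n N q t s : α → ℕ} {φ : α → F3}

@[fun_prop] theorem pt_mm (hn : PT n) (hN : PT N) : PT fun a => mm (n a) (N a) := by
  unfold mm; fun_prop
@[fun_prop] theorem pt_RR (hn : PT n) (hN : PT N) : PT fun a => RR (n a) (N a) := by
  unfold RR; fun_prop
@[fun_prop] theorem pt_VV (hn : PT n) (hN : PT N) : PT fun a => VV (n a) (N a) := by
  unfold VV; fun_prop
@[fun_prop] theorem pt_ZZ (hn : PT n) (hN : PT N) : PT fun a => ZZ (n a) (N a) := by
  unfold ZZ; fun_prop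
@[fun_prop] theorem pt_YY (hn : PT n) (hN : PT N) : PT fun a => YY (n a) (N a) := by
  unfold YY; fun_prop
@[fun_prop] theorem pt_WW (hn : PT n) (hN : PT N) : PT fun a => WW (n a) (N a) := by
  unfold WW; fun_prop
@[fun_prop] theorem pt_cc (hn : PT n) (hN : PT N) : PT fun a => cc (n a) (N a) := by
  unfold cc; fun_prop
@[fun_prop] theorem pt_nV (hn : PT n) (hq : PT q) (ht : PT t) : PT fun a => nV (n a) (q a) (t a) := by
  unfold nV; fun_prop
@[fun_prop] theorem pt_e1 (hn : PT n) (hN : PT N) (ht : PT t) :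
    PT fun a => e1 (n a) (N a) (t a) := by unfold e1; fun_prop
@[fun_prop] theorem pt_eV (hn : PT n) (hN : PT N) (hq : PT q) (ht : PT t) :
    PT fun a => eV (n a) (N a) (q a) (t a) := by unfold eV; fun_prop
@[fun_prop] theorem pt_SS (hn : PT n) (hN : PT N) (hq : PT q) (ht : PT t) :
    PT fun a => SS (n a) (N a) (q a) (t a) := by unfold SS; fun_prop
@[fun_prop] theorem pt_Ep (hn : PT n) (hN : PT N) (hq : PT q) (ht : PT t) :
    PT fun a => Ep (n a) (N a) (q a) (t a) := by unfold Ep; fun_prop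
@[fun_prop] theorem pt_En (hn : PT n) (hN : PT N) (hq : PT q) (ht : PT t) :
    PT fun a => En (n a) (N a) (q a) (t a) := by unfold En; fun_prop
@[fun_prop] theorem pt_pJ (hn : PT n) (ht : PT t) : PT fun a => pJ (n a) (t a) := by
  unfold pJ; fun_prop
@[fun_prop] theorem pt_col (hn : PT n) (hq : PT q) (ht : PT t) :
    PT fun a => col (n a) (q a) (t a) := by unfold col; fun_prop
@[fun_prop] theorem pt_nv (hφ : PT φ) : PT fun a => nv (φ a) := by unfold nv; fun_prop
@[fun_prop] theorem pt_litF {b : α → Bool} (hφ : PT φ) (hq : PT q) (ht : PT t) (hb : PT b) :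
    PT fun a => litF (φ a) (q a) (t a) (b a) := by unfold litF; fun_prop
@[fun_prop] theorem pt_okP (hφ : PT φ) (ht : PT t) : PT fun a => okP (φ a) (t a) := by
  unfold okP okF; fun_prop
@[fun_prop] theorem pt_aP (hφ : PT φ) (ht : PT t) : PT fun a => aP (φ a) (t a) := by
  unfold aP aJ; fun_prop
@[fun_prop] theorem pt_wP (hφ : PT φ) (ht : PT t) : PT fun a => wP (φ a) (t a) := by
  unfold wP wJ; fun_prop
@[fun_prop] theorem pt_nP (hφ : PT φ) : PT fun a => nP (φ a) := by unfold nP; fun_prop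
@[fun_prop] theorem pt_gP (hφ : PT φ) : PT fun a => gP (φ a) := by unfold gP; fun_prop
@[fun_prop] theorem pt_AP (hφ : PT φ) : PT fun a => AP (φ a) := by unfold AP; fun_prop
@[fun_prop] theorem pt_BP (hφ : PT φ) : PT fun a => BP (φ a) := by unfold BP; fun_prop
@[fun_prop] theorem pt_LP (hφ : PT φ) : PT fun a => LP (φ a) := by unfold LP; fun_prop

end

theorem pt_inst : PT inst := by unfold inst jobF; fun_prop

theorem sum_list (f : ℕ → ℕ) (k : ℕ) : ((List.range k).map f).sum = ∑ i ∈ range k, f i := rfl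

theorem sat_iff (φ : F3) :
    Sat3 φ ↔ ∃ β : ℕ → Bool, ∀ c < φ.length, ∃ v < nv φ, litF φ c v (β v) = true := by
  rw [sat3_iff_litAt]
  refine exists_congr fun β => forall₂_congr fun c hc => ⟨?_, ?_⟩
  · rintro ⟨j, hj, e⟩
    refine ⟨(litAt φ (3 * c + j)).1, ?_, ?_⟩
    · have := single_le_sum (f := fun u => (litAt φ u).1) (fun _ _ => Nat.zero_le _)
        (mem_range.2 (show 3 * c + j < 3 * φ.length by omega))
      unfold nv; rw [sum_list]; omega
    · simp only [litF, List.any_eq_true, List.mem_range, Bool.and_eq_true, decide_eq_true_eq]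
      exact ⟨j, hj, rfl, e.symm⟩
  · rintro ⟨v, -, e⟩
    simp only [litF, List.any_eq_true, List.mem_range, Bool.and_eq_true, decide_eq_true_eq] at e
    obtain ⟨j, hj, e1, e2⟩ := e
    exact ⟨j, hj, by rw [e1, e2]⟩

theorem thr_eq (φ : F3) : thr (14 * mm (nv φ) φ.length) (mm (nv φ) φ.length) (pJ (nv φ)) (aP φ)
    (EE (nv φ) φ.length) (cc (nv φ) φ.length) (YY (nv φ) φ.length) = (AP φ : ℤ) - BP φ := by
  unfold thr AP BP gP nP EE
  simp only [sum_list]
  push_cast
  simp only [sum_add_distrib, sum_sub_distrib, sum_const, card_range, nsmul_eq_mul]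
  ring

theorem inst_spec (φ : F3) : PBound 24 (inst φ) ∧ (Sat3 φ ↔ Tardy (inst φ)) := by
  constructor
  · intro j hj
    unfold inst at hj
    split_ifs at hj
    · obtain ⟨i, -, rfl⟩ := List.mem_map.1 hj
      have := pJ_cases (nv φ) i
      unfold jobF; split_ifs <;> simp only <;> omega
    · rw [List.mem_singleton.1 hj]; simp
  rw [sat_iff, grid_iff (by unfold nv; omega)]
  change HolesZ _ _ (thr _ _ _ (aP φ) _ _ _) _ (aP φ) (wP φ) ↔ _
  rw [thr_eq, holesZ_iff]
  unfold inst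
  split_ifs with h
  · simp only [h, true_and]
    exact holes_iff rfl (Nat.lt_succ_self _)
  · simp only [h, false_and, false_iff]
    rintro ⟨l, hl, hc⟩
    rw [List.perm_singleton.1 hl] at hc
    simp [cost] at hc

theorem nph : NPH (PBound 24) Tardy := sat3_nph.reduce inst pt_inst fun φ _ => inst_spec φ

theorem nph_bin : NPH (fun I : BinInst => PBound 24 (val I)) fun I => Tardy (val I) := by
  refine nph.reduce (fun I => (I.1.map fun j => (Bin.mk j.1, Bin.mk j.2.1, Bin.mk j.2.2), Bin.mk I.2))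
    (by fun_prop) fun I hI => ?_
  have : val (I.1.map fun j => (Bin.mk j.1, Bin.mk j.2.1, Bin.mk j.2.2), Bin.mk I.2) = I := by
    simp [val, Function.comp_def]
  rw [this]
  exact ⟨hI, Iff.rfl⟩

end Pool.Agent.H22.WT
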