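import Pool.Agent.H36.ParDefs

/-!
Total weighted tardiness on one machine.
-/

namespace Pool.Agent.H22.WT

open Pool.Agent.H38.NP

/-- A job: processing time, due date, weight. -/
abbrev Job := ℕ × ℕ × ℕ

/-- Total weighted tardiness of the jobs of a list, processed in the order of the list without
idle time from time `t` on (subtraction of naturals is truncated at zero). -/
def cost : ℕ → List Job → ℕ
  | _, [] => 0
  | t, j :: r => j.2.2 * (t + j.1 - j.2.1) + cost (t + j.1) r

/-- Some order of the jobs has total weighted tardiness at most `k`. -/
def Tardy (I : List Job × ℕ) : Prop := ∃ l : List Job, l.Perm I.1 ∧ cost 0 l ≤ I.2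

/-- All processing times are between 1 and `c`. -/
def PBound (c : ℕ) (I : List Job × ℕ) : Prop := ∀ j ∈ I.1, 1 ≤ j.1 ∧ j.1 ≤ c

/-- Instances with all numbers written in binary. -/
abbrev BinInst := List (Bin × Bin × Bin) × Bin

/-- The numbers of an instance written in binary. -/
def val (I : BinInst) : List Job × ℕ := (I.1.map fun j => (j.1.val, j.2.1.val, j.2.2.val), I.2.val)

/-- The largest processing time. -/
def pmax (I : List Job × ℕ) : ℕ := (I.1.map fun j => j.1).foldr max 0

end Pool.Agent.H22.WT
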